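import Mathlib

section

namespace Pool.Agent.MP_0c8446_ag

open MvPolynomial Matrix

universe v

section

variable {R : Type*} [CommRing R] {D ι ι' : Type}

/-- Right action of a matrix on multilinear forms, in coordinates. -/
def tact [Fintype D] [Fintype ι] [DecidableEq ι] (g : Matrix D D R) (u : (ι → D) → R) :
    (ι → D) → R :=
  fun I => ∑ J : ι → D, u J * ∏ j, g (J j) (I j)

/-- Tensor product, in coordinates. -/
def tmul (u : (ι → D) → R) (u' : (ι' → D) → R) : (ι ⊕ ι' → D) → R :=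
  fun I => u (I ∘ Sum.inl) * u' (I ∘ Sum.inr)

/-- The pairing of forms and tensors. -/
def tpair [Fintype D] [Fintype ι] [DecidableEq ι] (u b : (ι → D) → R) : R := ∑ I, u I * b I

/-- Contraction of a tensor with a form. -/
def tcon [Fintype D] [Fintype ι'] [DecidableEq ι'] (b : (ι ⊕ ι' → D) → R) (u : (ι' → D) → R) :
    (ι → D) → R :=
  fun I => ∑ J : ι' → D, b (Sum.elim I J) * u J

/-- A matrix as a tensor with two indices. -/
def tmat (E : Matrix D D R) : (Bool → D) → R := fun I => E (I false) (I true)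

end

section

variable {L : Type v} [Field L] {D : Type}

/-- Families of spaces of tensors closed under reindexing, products and diagonal operators. -/
structure TFam (α : D → L) (F : ∀ ι : Type, Submodule L ((ι → D) → L)) : Prop where
  re : ∀ {ι ι' : Type} [Fintype ι] [Fintype ι'] (e : ι ≃ ι'), ∀ u ∈ F ι,
    (fun I : ι' → D => u (I ∘ e)) ∈ F ι'
  mul : ∀ {ι ι' : Type} [Fintype ι] [Fintype ι'], ∀ u ∈ F ι, ∀ u' ∈ F ι', tmul u u' ∈ F (ι ⊕ ι')
  one : (fun _ => 1) ∈ F Empty
  op : ∀ {ι : Type} [Fintype ι] (j : ι), ∀ u ∈ F ι, (fun I => α (I j) * u I) ∈ F ι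

/-- Contractions of members of `B` with members of `F` are in `B`. -/
def TCon [Fintype D] (F B : ∀ ι : Type, Submodule L ((ι → D) → L)) : Prop :=
  ∀ {ι ι' : Type} [Fintype ι] [Fintype ι'] [DecidableEq ι'], ∀ b ∈ B (ι ⊕ ι'), ∀ u ∈ F ι',
    tcon b u ∈ B ι

/-- The members of `F` orthogonal to `B`. -/
def nul [Fintype D] (F B : ∀ ι : Type, Submodule L ((ι → D) → L)) (ι : Type) :
    Submodule L ((ι → D) → L) where
  carrier := {u | u ∈ F ι ∧ ∀ [Fintype ι] [DecidableEq ι], ∀ b ∈ B ι, tpair u b = 0}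
  zero_mem' := ⟨zero_mem _, fun b _ => by simp [tpair]⟩
  add_mem' := fun {u u'} h h' => ⟨add_mem h.1 h'.1, fun b hb => by
    have h1 := h.2 b hb
    have h2 := h'.2 b hb
    simp only [tpair, Pi.add_apply, add_mul, Finset.sum_add_distrib] at h1 h2 ⊢
    rw [h1, h2, add_zero]⟩
  smul_mem' := fun c u h => ⟨Submodule.smul_mem _ c h.1, fun b hb => by
    have h1 := h.2 b hb
    simp only [tpair, Pi.smul_apply, smul_eq_mul, mul_assoc, ← Finset.mul_sum] at h1 ⊢
    rw [h1, mul_zero]⟩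

theorem mem_nul [Fintype D] {F B : ∀ ι : Type, Submodule L ((ι → D) → L)} {ι : Type}
    [i₀ : Fintype ι] [j₀ : DecidableEq ι] {u : (ι → D) → L} :
    u ∈ nul F B ι ↔ u ∈ F ι ∧ ∀ b ∈ B ι, tpair u b = 0 :=
  ⟨fun h => ⟨h.1, h.2⟩, fun h => ⟨h.1, fun {i j} b hb => by
    rw [Subsingleton.elim i i₀, Subsingleton.elim j j₀]
    exact h.2 b hb⟩⟩

end

section

variable {T : Type} {n : T → Type} {ι : Type}

/-- The tensor `u` lives in the blocks `τ`. -/
def Cont {R : Type*} [Zero R] (τ : ι → T) (u : (ι → Σ t, n t) → R) : Prop :=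
  ∀ I, u I ≠ 0 → ∀ j, (I j).1 = τ j

/-- The coordinate ring of block diagonal matrices. -/
abbrev PR (L : Type v) [Field L] (n : T → Type) : Type v := MvPolynomial (Σ t, n t × n t) L

/-- The blocks of the generic block diagonal matrix. -/
noncomputable def gm (L : Type v) [Field L] (n : T → Type) (t : T) : Matrix (n t) (n t) (PR L n) :=
  Matrix.of fun i j => X ⟨t, (i, j)⟩

variable {L : Type v} [Field L]

/-- Evaluation at a block diagonal matrix. -/
noncomputable def evm (L : Type v) [Field L] {A : Type*} [CommRing A] [Algebra L A]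
    (h : ∀ t, Matrix (n t) (n t) A) : PR L n →ₐ[L] A :=
  aeval fun s => h s.1 s.2.1 s.2.2

variable [Fintype T] [DecidableEq T] [∀ t, Fintype (n t)] [∀ t, DecidableEq (n t)]

/-- The coordinates of the translate of `u` by the generic matrix. -/
noncomputable def gen [Fintype ι] [DecidableEq ι] (u : (ι → Σ t, n t) → L) :
    (ι → Σ t, n t) → PR L n :=
  tact (blockDiagonal' (gm L n)) fun I => C (u I)

/-- Products of the determinants of the blocks. -/
noncomputable def DlGi (L : Type v) [Field L] (n : T → Type) [∀ t, Fintype (n t)]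
    [∀ t, DecidableEq (n t)] (s : T → ℕ) : PR L n :=
  ∏ t, (gm L n t).det ^ s t

/-- The span of the coordinates of the generic translates of the members of `F` of size `N`. -/
noncomputable def coord (F : ∀ ι : Type, Submodule L ((ι → Σ t, n t) → L)) (N : ℕ) :
    Submodule L (PR L n) :=
  Submodule.span L {x | ∃ (ι : Type) (_ : Fintype ι) (_ : DecidableEq ι), Fintype.card ι = N ∧
    ∃ u ∈ F ι, ∃ I, x = gen u I}

/-- There is a semi-invariant of weight `δ` and size `N` in `F` that is not orthogonal to `B`. -/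
def Sem (F B : ∀ ι : Type, Submodule L ((ι → Σ t, n t) → L)) (δ : PR L n) (N : ℕ) : Prop :=
  ∃ (ι : Type) (_ : Fintype ι) (_ : DecidableEq ι), Fintype.card ι = N ∧
    ∃ ω ∈ F ι, ∃ b ∈ B ι, tpair ω b ≠ 0 ∧ ∀ I, gen ω I = δ * C (ω I)

end

end Pool.Agent.MP_0c8446_ag

end

section

namespace Pool.Agent.MP_0c8446_ag

open MvPolynomial Matrix

universe v

section

variable {R : Type*} [CommRing R] {D ι ι' : Type} [Fintype D] [Fintype ι] [DecidableEq ι]
  [Fintype ι'] [DecidableEq ι']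

theorem tact_mul (g g' : Matrix D D R) (u : (ι → D) → R) :
    tact (g * g') u = tact g' (tact g u) := by
  funext I
  simp only [tact, Matrix.mul_apply, Finset.prod_univ_sum, Fintype.piFinset_univ, Finset.mul_sum,
    Finset.sum_mul, Finset.prod_mul_distrib, mul_assoc]
  exact Finset.sum_comm

theorem tact_one [DecidableEq D] (u : (ι → D) → R) : tact (1 : Matrix D D R) u = u := by
  funext I
  rw [tact, Finset.sum_eq_single I]
  · simp
  · intro J _ h
    obtain ⟨j, hj⟩ := Function.ne_iff.1 h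
    exact mul_eq_zero_of_right _ (Finset.prod_eq_zero (Finset.mem_univ j) (one_apply_ne hj))
  · simp

theorem tact_add (g : Matrix D D R) (u u' : (ι → D) → R) :
    tact g (u + u') = tact g u + tact g u' := by
  funext I
  simp only [tact, Pi.add_apply, add_mul, Finset.sum_add_distrib]

theorem tact_smul (g : Matrix D D R) (c : R) (u : (ι → D) → R) :
    tact g (c • u) = c • tact g u := by
  funext I
  simp only [tact, Pi.smul_apply, smul_eq_mul, Finset.mul_sum, mul_assoc]

theorem tact_zero (g : Matrix D D R) : tact g (0 : (ι → D) → R) = 0 := by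
  funext I
  simp [tact]

theorem tact_eq_zero [DecidableEq D] {g : Matrix D D R} (hg : IsUnit g) {u : (ι → D) → R}
    (h : tact g u = 0) : u = 0 := by
  obtain ⟨g', hg'⟩ := hg.exists_right_inv
  rw [← tact_one u, ← hg', tact_mul, h, tact_zero]

theorem tact_map {S : Type*} [CommRing S] (φ : R →+* S) (g : Matrix D D R) (u : (ι → D) → R)
    (I : ι → D) : φ (tact g u I) = tact (g.map φ) (fun J => φ (u J)) I := by
  simp only [tact, map_sum, map_mul, map_prod, Matrix.map_apply]

theorem tact_tmul (g : Matrix D D R) (u : (ι → D) → R) (u' : (ι' → D) → R) :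
    tact g (tmul u u') = tmul (tact g u) (tact g u') := by
  funext I
  simp only [tact, tmul, Finset.sum_mul_sum]
  rw [← Fintype.sum_prod_type']
  refine Fintype.sum_equiv (Equiv.sumArrowEquivProdArrow ι ι' D) _ _ fun J => ?_
  rw [Fintype.prod_sum_type, mul_mul_mul_comm]
  rfl

theorem tact_re (g : Matrix D D R) (e : ι ≃ ι') (u : (ι → D) → R) :
    tact g (fun I : ι' → D => u (I ∘ e)) = fun I => tact g u (I ∘ e) := by
  funext I
  refine (Fintype.sum_equiv (e.arrowCongr (Equiv.refl D)) _ _ fun J => ?_).symm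
  rw [← e.prod_comp]
  simp [Function.comp_def]

theorem tact_diagonal [DecidableEq D] (π : D → R) (u : (ι → D) → R) (I : ι → D) :
    tact (diagonal π) u I = u I * ∏ j, π (I j) := by
  rw [tact, Finset.sum_eq_single I]
  · simp
  · intro J _ h
    obtain ⟨j, hj⟩ := Function.ne_iff.1 h
    exact mul_eq_zero_of_right _ (Finset.prod_eq_zero (Finset.mem_univ j) (diagonal_apply_ne _ hj))
  · simp

/-- The support of a translate. -/
theorem tact_ne_zero {g : Matrix D D R} {u : (ι → D) → R} {I : ι → D} (h : tact g u I ≠ 0) :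
    ∃ J, u J ≠ 0 ∧ ∀ j, g (J j) (I j) ≠ 0 := by
  obtain ⟨J, -, hJ⟩ := Finset.exists_ne_zero_of_sum_ne_zero h
  exact ⟨J, left_ne_zero_of_mul hJ, fun j e =>
    right_ne_zero_of_mul hJ (Finset.prod_eq_zero (Finset.mem_univ j) e)⟩

theorem tpair_tmul (u b : (ι → D) → R) (u' b' : (ι' → D) → R) :
    tpair (tmul u u') (tmul b b') = tpair u b * tpair u' b' := by
  simp only [tpair, tmul, Finset.sum_mul_sum]
  rw [← Fintype.sum_prod_type']
  exact Fintype.sum_equiv (Equiv.sumArrowEquivProdArrow ι ι' D) _ _ fun J =>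
    mul_mul_mul_comm _ _ _ _

theorem tpair_tcon (u : (ι → D) → R) (u' : (ι' → D) → R) (b : (ι ⊕ ι' → D) → R) :
    tpair (tmul u u') b = tpair u (tcon b u') := by
  simp only [tpair, tmul, tcon, Finset.mul_sum]
  rw [← Fintype.sum_prod_type']
  refine (Fintype.sum_equiv (Equiv.sumArrowEquivProdArrow ι ι' D).symm _ _ fun J => ?_).symm
  rw [mul_comm (b _), ← mul_assoc]
  rfl

theorem tpair_re (e : ι ≃ ι') (u b : (ι → D) → R) :
    tpair (fun I : ι' → D => u (I ∘ e)) (fun I => b (I ∘ e)) = tpair u b :=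
  (Fintype.sum_equiv (e.arrowCongr (Equiv.refl D)) _ _ fun J => by simp [Function.comp_def]).symm

omit [Fintype D] [Fintype ι] [DecidableEq ι] [Fintype ι'] [DecidableEq ι'] in
theorem tmul_ne_zero [NoZeroDivisors R] {u : (ι → D) → R} {u' : (ι' → D) → R} (h : u ≠ 0)
    (h' : u' ≠ 0) : tmul u u' ≠ 0 := by
  obtain ⟨I, hI⟩ := Function.ne_iff.1 h
  obtain ⟨J, hJ⟩ := Function.ne_iff.1 h'
  exact Function.ne_iff.2 ⟨Sum.elim I J, mul_ne_zero hI hJ⟩

end

section

variable {T : Type} [Fintype T] [DecidableEq T] {n : T → Type} [∀ t, Fintype (n t)]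
  [∀ t, DecidableEq (n t)] {ι ι' : Type} [Fintype ι] [DecidableEq ι] [Fintype ι'] [DecidableEq ι']

theorem det_blockDiagonal' {R : Type*} [CommRing R] (g : ∀ t, Matrix (n t) (n t) R) :
    (blockDiagonal' g).det = ∏ t, (g t).det := by
  let _ : LinearOrder T := LinearOrder.lift' _ (Fintype.equivFin T).injective
  rw [(blockTriangular_blockDiagonal' g).det_fintype]
  refine Finset.prod_congr rfl fun t _ => ?_
  rw [← det_submatrix_equiv_self (Equiv.sigmaSubtype t).symm]
  congr 1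
  ext i j
  exact blockDiagonal'_apply_eq g t i j

theorem isUnit_blockDiagonal' {R : Type*} [CommRing R] {g : ∀ t, Matrix (n t) (n t) R}
    (hg : ∀ t, IsUnit (g t)) : IsUnit (blockDiagonal' g) := by
  rw [isUnit_iff_isUnit_det, det_blockDiagonal']
  exact IsUnit.prod_univ_iff.2 fun t => (isUnit_iff_isUnit_det _).1 (hg t)

theorem Cont.tact {R : Type*} [CommRing R] {τ : ι → T} {u : (ι → Σ t, n t) → R} (h : Cont τ u)
    (g : ∀ t, Matrix (n t) (n t) R) : Cont τ (tact (blockDiagonal' g) u) := by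
  intro I hI j
  obtain ⟨J, h1, h2⟩ := tact_ne_zero hI
  rw [← h J h1 j]
  by_contra e
  exact h2 j (blockDiagonal'_apply_ne g (J j).2 (I j).2 (Ne.symm e))

omit [Fintype T] [DecidableEq T] [∀ t, Fintype (n t)] [∀ t, DecidableEq (n t)] [Fintype ι]
  [DecidableEq ι] [Fintype ι'] [DecidableEq ι'] in
theorem Cont.tmul {R : Type*} [CommRing R] {τ : ι → T} {τ' : ι' → T} {u : (ι → Σ t, n t) → R}
    {u' : (ι' → Σ t, n t) → R} (h : Cont τ u) (h' : Cont τ' u') :
    Cont (Sum.elim τ τ') (tmul u u') := by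
  rintro I hI (j | j)
  exacts [h _ (left_ne_zero_of_mul hI) j, h' _ (right_ne_zero_of_mul hI) j]

variable {L : Type v} [Field L]

omit [Fintype T] [DecidableEq T] [∀ t, Fintype (n t)] [∀ t, DecidableEq (n t)] in
theorem TBasic_evm {A : Type*} [CommRing A] [Algebra L A] (h : ∀ t, Matrix (n t) (n t) A) (t : T) :
    (gm L n t).map (evm L h).toRingHom = h t := by
  ext i j
  exact aeval_X _ _

theorem evm_gen {A : Type*} [CommRing A] [Algebra L A] (h : ∀ t, Matrix (n t) (n t) A)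
    (u : (ι → Σ t, n t) → L) (I : ι → Σ t, n t) :
    evm L h (gen u I) = tact (blockDiagonal' h) (fun J => algebraMap L A (u J)) I := by
  refine (tact_map (evm L h).toRingHom _ _ I).trans ?_
  rw [blockDiagonal'_map _ _ (map_zero _)]
  congr 1
  · exact congrArg blockDiagonal' (funext (TBasic_evm h))
  · exact funext fun J => (evm L h).commutes _

theorem evm_Dl {A : Type*} [CommRing A] [Algebra L A] (h : ∀ t, Matrix (n t) (n t) A)
    (s : T → ℕ) : evm L h (DlGi L n s) = ∏ t, (h t).det ^ s t := by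
  simp only [DlGi, map_prod, map_pow]
  exact Finset.prod_congr rfl fun t _ => congrArg (· ^ s t)
    (((evm L h).toRingHom.map_det _).trans (congrArg det (TBasic_evm h t)))

theorem Dl_ne_zero (s : T → ℕ) : DlGi L n s ≠ 0 := fun e => by
  have h := evm_Dl (L := L) (fun t => (1 : Matrix (n t) (n t) L)) s
  simp [e] at h

theorem gen_tmul (u : (ι → Σ t, n t) → L) (u' : (ι' → Σ t, n t) → L) :
    gen (tmul u u') = tmul (gen u) (gen u') := by
  rw [gen, gen, gen, ← tact_tmul]
  exact congrArg _ (funext fun I => C_mul)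

theorem gen_re (e : ι ≃ ι') (u : (ι → Σ t, n t) → L) :
    gen (fun I : ι' → Σ t, n t => u (I ∘ e)) = fun I => gen u (I ∘ e) :=
  tact_re _ e fun I => C (u I)

end

end Pool.Agent.MP_0c8446_ag

end

section

namespace Pool.Agent.MP_0c8446_ag

open MvPolynomial Matrix

universe v

variable {L : Type v} [Field L] {T : Type} [Fintype T] [DecidableEq T] {n : T → Type}
  [∀ t, Fintype (n t)] [∀ t, DecidableEq (n t)] {ι ι' : Type} [Fintype ι] [DecidableEq ι]
  [Fintype ι'] [DecidableEq ι'] {α : T → L} {F B : ∀ ι : Type, Submodule L ((ι → Σ t, n t) → L)}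

/-- The block components of a member are members. -/
theorem TFam.proj (hα : Function.Injective α) (h : TFam (fun i : Σ t, n t => α i.1) F)
    (τ : ι → T) {u : (ι → Σ t, n t) → L} (hu : u ∈ F ι) :
    (fun I => if ∀ j, (I j).1 = τ j then u I else 0) ∈ F ι := by
  have key : ∀ s : Finset (ι × T), (fun I : ι → Σ t, n t =>
      (∏ q ∈ s, (α (τ q.1) - α q.2)⁻¹ * (α (I q.1).1 - α q.2)) * u I) ∈ F ι := fun s => by
    induction s using Finset.induction_on with
    | empty => simpa using hu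
    | insert q s hq ih =>
      convert (F ι).smul_mem (α (τ q.1) - α q.2)⁻¹
        (sub_mem (h.op q.1 _ ih) ((F ι).smul_mem (α q.2) ih)) using 1
      funext I
      simp only [Finset.prod_insert hq, Pi.smul_apply, Pi.sub_apply, smul_eq_mul]
      ring
  convert key (Finset.univ.filter fun q => q.2 ≠ τ q.1) using 1
  funext I
  split_ifs with hI
  · rw [Finset.prod_eq_one fun q hq => ?_, one_mul]
    rw [hI]
    exact inv_mul_cancel₀ (sub_ne_zero.2 (hα.ne (Finset.mem_filter.1 hq).2.symm))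
  · obtain ⟨j, hj⟩ := not_forall.1 hI
    rw [Finset.prod_eq_zero (i := (j, (I j).1)) (Finset.mem_filter.2 ⟨Finset.mem_univ _, hj⟩)
      (by simp), zero_mul]

/-- Cutting the support by any condition on the blocks. -/
theorem TFam.cut (hα : Function.Injective α) (h : TFam (fun i : Σ t, n t => α i.1) F)
    (p : (ι → T) → Prop) [DecidablePred p] {u : (ι → Σ t, n t) → L} (hu : u ∈ F ι) :
    (fun I => if p (fun j => (I j).1) then u I else 0) ∈ F ι := by
  convert (F ι).sum_mem (t := Finset.univ.filter p) fun τ _ => h.proj hα τ hu using 1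
  funext I
  simp only [Finset.sum_apply, ← funext_iff]
  rw [Finset.sum_ite_eq]
  simp

omit [Fintype T] [DecidableEq T] [∀ t, Fintype (n t)] [∀ t, DecidableEq (n t)] [DecidableEq ι] in
/-- Finite products. -/
theorem TFam.prod {D : Type} {β : D → L} {F : ∀ ι : Type, Submodule L ((ι → D) → L)}
    (h : TFam β F) (S : Type) [Fintype S] {u : S → (ι → D) → L} (hu : ∀ r, u r ∈ F ι) :
    (fun I : S × ι → D => ∏ r, u r fun j => I (r, j)) ∈ F (S × ι) := by
  revert u
  refine Fintype.induction_empty_option (P := fun S _ => ∀ {u : S → (ι → D) → L},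
    (∀ r, u r ∈ F ι) → (fun I : S × ι → D => ∏ r, u r fun j => I (r, j)) ∈ F (S × ι))
    (fun S S' _ e ih u hu => ?_) (fun {u} _ => ?_) (fun S _ ih u hu => ?_) S
  · let _ : Fintype S := Fintype.ofEquiv S' e.symm
    convert h.re (e.prodCongr (Equiv.refl ι)) _ (ih (u := fun r => u (e r)) fun r => hu _) using 1
    funext I
    exact (e.prod_comp fun r => u r fun j => I (r, j)).symm
  · convert h.re (Equiv.equivOfIsEmpty Empty (PEmpty × ι)) _ h.one using 1
    funext I
    simp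
  · let e : (S × ι) ⊕ ι ≃ Option S × ι :=
      { toFun := Sum.elim (fun q => (some q.1, q.2)) fun j => (none, j)
        invFun := fun q => q.1.elim (Sum.inr q.2) fun a => Sum.inl (a, q.2)
        left_inv := by rintro (_ | _) <;> rfl
        right_inv := by rintro ⟨_ | _, _⟩ <;> rfl }
    convert h.re e _ (h.mul _ (ih (u := fun r => u (some r)) fun r => hu _) _ (hu none)) using 1
    funext I
    rw [Fintype.prod_option, mul_comm]
    rfl

theorem nul_re (hF : TFam (fun i : Σ t, n t => α i.1) F) (hB : TFam (fun i : Σ t, n t => α i.1) B)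
    (e : ι ≃ ι') {u : (ι → Σ t, n t) → L} (hu : u ∈ nul F B ι) :
    (fun I : ι' → Σ t, n t => u (I ∘ e)) ∈ nul F B ι' := by
  obtain ⟨h1, h2⟩ := mem_nul.1 hu
  refine mem_nul.2 ⟨hF.re e u h1, fun b hb => ?_⟩
  rw [← h2 _ (hB.re e.symm b hb), ← tpair_re e]
  congr 1
  funext I
  congr 1
  funext j
  simp

theorem nul_proj (hα : Function.Injective α) (hF : TFam (fun i : Σ t, n t => α i.1) F)
    (hB : TFam (fun i : Σ t, n t => α i.1) B) (τ : ι → T) {u : (ι → Σ t, n t) → L}
    (hu : u ∈ nul F B ι) : (fun I => if ∀ j, (I j).1 = τ j then u I else 0) ∈ nul F B ι := by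
  obtain ⟨h1, h2⟩ := mem_nul.1 hu
  refine mem_nul.2 ⟨hF.proj hα τ h1, fun b hb => ?_⟩
  refine Eq.trans (Finset.sum_congr rfl fun I _ => ?_) (h2 _ (hB.proj hα τ hb))
  simp only [ite_mul, mul_ite, zero_mul, mul_zero]

theorem nul_mul (hF : TFam (fun i : Σ t, n t => α i.1) F) (hc : TCon F B)
    {u : (ι → Σ t, n t) → L} (hu : u ∈ nul F B ι) {u' : (ι' → Σ t, n t) → L} (hu' : u' ∈ F ι') :
    tmul u u' ∈ nul F B (ι ⊕ ι') := by
  obtain ⟨h1, h2⟩ := mem_nul.1 hu
  refine mem_nul.2 ⟨hF.mul u h1 u' hu', fun b hb => ?_⟩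
  rw [tpair_tcon]
  exact h2 _ (hc b hb u' hu')

theorem TFam_gen_one (I : Empty → Σ t, n t) : gen (fun _ => (1 : L)) I = 1 := by
  simp [gen, tact]

theorem TFam_coord_mul {F₁ F₂ F₃ : ∀ ι : Type, Submodule L ((ι → Σ t, n t) → L)}
    (H : ∀ {ι ι' : Type} [Fintype ι] [DecidableEq ι] [Fintype ι'] [DecidableEq ι'], ∀ u ∈ F₁ ι,
      ∀ u' ∈ F₂ ι', tmul u u' ∈ F₃ (ι ⊕ ι')) {N N' : ℕ} {x y : PR L n}
    (hx : x ∈ coord F₁ N) (hy : y ∈ coord F₂ N') : x * y ∈ coord F₃ (N + N') := by
  have h1 : coord F₁ N * coord F₂ N' ≤ coord F₃ (N + N') := by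
    rw [coord, coord, Submodule.span_mul_span]
    refine Submodule.span_mono ?_
    rintro _ ⟨_, ⟨κ, _, _, rfl, u, hu, I, rfl⟩, _, ⟨κ', _, _, rfl, u', hu', I', rfl⟩, rfl⟩
    refine ⟨κ ⊕ κ', inferInstance, inferInstance, Fintype.card_sum, _, H u hu u' hu',
      Sum.elim I I', ?_⟩
    rw [gen_tmul]
    rfl
  exact h1 (Submodule.mul_mem_mul hx hy)

theorem coord_one (hF : TFam (fun i : Σ t, n t => α i.1) F) : (1 : PR L n) ∈ coord F 0 :=
  Submodule.subset_span ⟨Empty, inferInstance, inferInstance, rfl, _, hF.one, Empty.elim,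
    (TFam_gen_one _).symm⟩

theorem coord_mul (hF : TFam (fun i : Σ t, n t => α i.1) F) {N N' : ℕ} {x y : PR L n}
    (hx : x ∈ coord F N) (hy : y ∈ coord F N') : x * y ∈ coord F (N + N') :=
  TFam_coord_mul (fun u hu u' hu' => hF.mul u hu u' hu') hx hy

theorem coord_nul_mul (hF : TFam (fun i : Σ t, n t => α i.1) F) (hc : TCon F B) {N N' : ℕ}
    {x y : PR L n} (hx : x ∈ coord (nul F B) N) (hy : y ∈ coord F N') :
    x * y ∈ coord (nul F B) (N + N') :=
  TFam_coord_mul (fun _ hu _ hu' => nul_mul hF hc hu hu') hx hy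

theorem coord_nul_le (N : ℕ) : coord (nul F B) N ≤ coord F N := by
  refine Submodule.span_mono ?_
  rintro _ ⟨κ, _, _, hκ, u, hu, I, rfl⟩
  exact ⟨κ, _, _, hκ, u, hu.1, I, rfl⟩

/-- All generators can be moved to one index type. -/
theorem coord_nul_eq (hF : TFam (fun i : Σ t, n t => α i.1) F)
    (hB : TFam (fun i : Σ t, n t => α i.1) B) :
    coord (nul F B) (Fintype.card ι) ≤
      Submodule.span L {x | ∃ u ∈ nul F B ι, ∃ I, x = gen u I} := by
  refine Submodule.span_mono ?_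
  rintro _ ⟨κ, _, _, hκ, u, hu, I, rfl⟩
  let e : κ ≃ ι := Fintype.equivOfCardEq hκ
  refine ⟨_, nul_re hF hB e hu, I ∘ e.symm, ?_⟩
  rw [gen_re]
  congr 1
  funext j
  simp

theorem Sem.mem_coord {δ : PR L n} {N : ℕ} (h : Sem F B δ N) : δ ∈ coord F N := by
  obtain ⟨κ, _, _, hκ, ω, hω, b, -, h0, h1⟩ := h
  obtain ⟨I, hI⟩ : ∃ I, ω I ≠ 0 := by
    by_contra hn
    push Not at hn
    exact h0 (by simp [tpair, hn])
  have h2 : δ = (ω I)⁻¹ • gen ω I := by
    rw [h1, smul_eq_C_mul, mul_left_comm, ← map_mul, inv_mul_cancel₀ hI, map_one, mul_one]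
  rw [h2]
  exact Submodule.smul_mem _ _ (Submodule.subset_span ⟨κ, _, _, hκ, ω, hω, I, rfl⟩)

theorem Sem.one (hF : TFam (fun i : Σ t, n t => α i.1) F)
    (hB : TFam (fun i : Σ t, n t => α i.1) B) : Sem F B 1 0 :=
  ⟨Empty, inferInstance, inferInstance, rfl, _, hF.one, _, hB.one, by simp [tpair],
    fun I => by rw [TFam_gen_one, map_one, mul_one]⟩

theorem Sem.mul (hF : TFam (fun i : Σ t, n t => α i.1) F)
    (hB : TFam (fun i : Σ t, n t => α i.1) B) {δ δ' : PR L n} {N N' : ℕ} (h : Sem F B δ N)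
    (h' : Sem F B δ' N') : Sem F B (δ * δ') (N + N') := by
  obtain ⟨κ, _, _, rfl, ω, hω, b, hb, h0, h1⟩ := h
  obtain ⟨κ', _, _, rfl, ω', hω', b', hb', h0', h1'⟩ := h'
  refine ⟨κ ⊕ κ', inferInstance, inferInstance, Fintype.card_sum, _, hF.mul ω hω ω' hω', _,
    hB.mul b hb b' hb', by rw [tpair_tmul]; exact mul_ne_zero h0 h0', fun I => ?_⟩
  rw [gen_tmul, tmul, tmul, h1, h1', map_mul]
  ring

end Pool.Agent.MP_0c8446_ag

end

section

namespace Pool.Agent.MP_0c8446_ag

open MvPolynomial Matrix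

universe v

section

variable {R : Type*} [CommRing R] {D Z : Type} [Fintype D] [DecidableEq D] [Fintype Z]
  [DecidableEq Z]

/-- The determinant form of the coordinate subspace given by `v`. -/
def Eps_e (R : Type*) [CommRing R] (v : Z → D) (I : Z → D) : R :=
  ((1 : Matrix D D R).submatrix v I).det

omit [Fintype D] in
theorem Eps_map {R' : Type*} [CommRing R'] (φ : R →+* R') (v I : Z → D) :
    φ (Eps_e R v I) = Eps_e R' v I := by
  rw [Eps_e, RingHom.map_det, Eps_e]
  congr 1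
  ext a b
  simp [one_apply, apply_ite φ]

omit [DecidableEq D] [DecidableEq Z] in
theorem Eps_sub {κ : Type} {v : Z → D} (hv : Function.Injective v) (g : Matrix κ D R)
    (h : ∀ x, ∀ i ∉ Set.range v, g x i = 0) {κ' : Type} (A : Matrix D κ' R) :
    g.submatrix id v * A.submatrix v id = g * A := by
  ext x k
  exact Fintype.sum_of_injective v hv _ _ (fun i hi => mul_eq_zero_of_left (h x i hi) _)
    fun _ => rfl

theorem Eps_row {v : Z → D} (hv : Function.Injective v) (g : Matrix Z D R)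
    (h : ∀ x, ∀ i ∉ Set.range v, g x i = 0) (I : Z → D) :
    (g.submatrix id I).det = (g.submatrix id v).det * Eps_e R v I := by
  have h1 := Eps_sub hv g h ((1 : Matrix D D R).submatrix id I)
  rw [Eps_e, ← det_mul]
  congr 1
  refine Eq.trans ?_ h1.symm
  ext a b
  simp [mul_apply, one_apply]

theorem Eps_tact {v : Z → D} (hv : Function.Injective v) (g : Matrix D D R)
    (h : ∀ x, ∀ i ∉ Set.range v, g (v x) i = 0) (I : Z → D) :
    tact g (Eps_e R v) I = (g.submatrix v v).det * Eps_e R v I := by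
  refine Eq.trans ?_ (Eps_row hv (g.submatrix v id) h I)
  simp only [tact, Eps_e, det_apply', Finset.sum_mul, mul_assoc, ← Finset.prod_mul_distrib]
  rw [Finset.sum_comm]
  refine Finset.sum_congr rfl fun σ _ => ?_
  rw [← Finset.mul_sum]
  congr 1
  have := Finset.prod_univ_sum (fun _ : Z => (Finset.univ : Finset D))
    fun a j => (1 : Matrix D D R) (v (σ a)) j * g j (I a)
  rw [Fintype.piFinset_univ] at this
  refine this.symm.trans (Finset.prod_congr rfl fun a _ => ?_)
  simp [one_apply]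

theorem Eps_two {v : Z → D} (hv : Function.Injective v) (M : Matrix D D R)
    (h : ∀ x, ∀ i ∉ Set.range v, M x i = 0) (h' : ∀ x, ∀ i ∉ Set.range v, M i x = 0)
    (I J : Z → D) :
    (M.submatrix I J).det = (M.submatrix v v).det * (Eps_e R v I * Eps_e R v J) := by
  have h1 := Eps_row hv (M.submatrix I id) (fun x => h _) J
  have h2 := Eps_row hv (Mᵀ.submatrix v id) (fun x => h' _) I
  have h3 : ((M.submatrix I id).submatrix id v).det = ((Mᵀ.submatrix v id).submatrix id I).det :=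
    (det_transpose _).symm
  have h4 : ((Mᵀ.submatrix v id).submatrix id v).det = (M.submatrix v v).det :=
    det_transpose (M.submatrix v v)
  rw [h3, h2, h4, mul_assoc] at h1
  exact h1

theorem Eps_pair [CharZero R] {v : Z → D} (hv : Function.Injective v) :
    tpair (Eps_e R v) (Eps_e R v) ≠ 0 := by
  have h1 : tpair (Eps_e R v) (Eps_e R v) = ((∑ I, Eps_e ℤ v I * Eps_e ℤ v I : ℤ) : R) := by
    simp only [tpair, ← Eps_map (Int.castRingHom R), Int.cast_sum, Int.cast_mul, eq_intCast]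
  rw [h1, Int.cast_ne_zero]
  refine (Finset.sum_pos' (fun I _ => mul_self_nonneg _) ⟨v, Finset.mem_univ _, ?_⟩).ne'
  rw [Eps_e, submatrix_one _ hv, det_one]
  norm_num

omit [Fintype D] [DecidableEq D] in
theorem Eps_anti {L : Type v} [Field L] {β : D → L} {F : ∀ ι : Type, Submodule L ((ι → D) → L)}
    (hF : TFam β F) (Z : Type) [Fintype Z] [DecidableEq Z] {M : Matrix D D L}
    (hM : tmat M ∈ F Bool) :
    (fun I : Z ⊕ Z → D => (M.submatrix (I ∘ Sum.inl) (I ∘ Sum.inr)).det) ∈ F (Z ⊕ Z) := by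
  have h1 := hF.prod Z (u := fun _ => tmat M) fun _ => hM
  have h2 := (F (Z ⊕ Z)).sum_mem (t := Finset.univ) fun (σ : Equiv.Perm Z) _ =>
    (F (Z ⊕ Z)).smul_mem ((Equiv.Perm.sign σ : ℤ) : L) (hF.re (((Equiv.prodComm Z Bool).trans
      (Equiv.boolProdEquivSum Z)).trans (Equiv.sumCongr σ (Equiv.refl Z))) _ h1)
  convert h2 using 1
  ext I
  rw [det_apply', Finset.sum_apply]
  rfl

end

variable {L : Type v} [Field L] [CharZero L] {T : Type} [Fintype T] [DecidableEq T] {n : T → Type}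
  [∀ t, Fintype (n t)] [∀ t, DecidableEq (n t)] {α : T → L}
  {F B : ∀ ι : Type, Submodule L ((ι → Σ t, n t) → L)} {E E' : Matrix (Σ t, n t) (Σ t, n t) L}
  {c : L}

/-- The inclusion of the blocks in `S`. -/
def Eps_v (n : T → Type) (S : Finset T) (i : Σ t : S, n t) : Σ t, n t := ⟨i.1, i.2⟩

omit [Fintype T] [DecidableEq T] [∀ t, Fintype (n t)] [∀ t, DecidableEq (n t)] in
theorem Eps_inj (S : Finset T) : Function.Injective (Eps_v n S) :=
  Function.Injective.sigma_map (β₁ := fun t : S => n t) (β₂ := n) (f₂ := fun _ x => x)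
    Subtype.val_injective fun _ => Function.injective_id

omit [Fintype T] [DecidableEq T] [∀ t, Fintype (n t)] [∀ t, DecidableEq (n t)] in
theorem Eps_range (S : Finset T) (i : Σ t, n t) : i ∈ Set.range (Eps_v n S) ↔ i.1 ∈ S :=
  ⟨by rintro ⟨j, rfl⟩; exact j.1.2, fun h => ⟨⟨⟨i.1, h⟩, i.2⟩, rfl⟩⟩

omit [CharZero L] in
theorem Eps_mem (hα : Function.Injective α) (hF : TFam (fun i : Σ t, n t => α i.1) F)
    (hE : tmat E ∈ F Bool) (S : Finset T) (hd : (E.submatrix (Eps_v n S) (Eps_v n S)).det ≠ 0) :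
    tmul (Eps_e L (Eps_v n S)) (Eps_e L (Eps_v n S)) ∈ F ((Σ t : S, n t) ⊕ Σ t : S, n t) := by
  have h1 : tmat (of fun i j => if i.1 ∈ S ∧ j.1 ∈ S then E i j else 0) ∈ F Bool :=
    hF.cut hα (fun τ => τ false ∈ S ∧ τ true ∈ S) hE
  have h2 := Eps_anti hF (Σ t : S, n t) h1
  rw [← (F _).smul_mem_iff hd]
  convert h2 using 1
  ext I
  rw [Eps_two (Eps_inj S) (of fun i j => if i.1 ∈ S ∧ j.1 ∈ S then E i j else 0) (fun x i hi => if_neg fun h => hi ((Eps_range S i).2 h.2))
    fun x i hi => if_neg fun h => hi ((Eps_range S i).2 h.1)]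
  refine congrArg (fun A : Matrix _ _ L => A.det * _) ?_
  ext a b
  exact (if_pos ⟨a.1.2, b.1.2⟩).symm

omit [CharZero L] in
theorem Eps_gen (S : Finset T) (I : (Σ t : S, n t) → Σ t, n t) :
    gen (Eps_e L (Eps_v n S)) I = (∏ t ∈ S, (gm L n t).det) * C (Eps_e L (Eps_v n S) I) := by
  simp only [gen, Eps_map]
  rw [Eps_tact (Eps_inj S), ← Finset.prod_coe_sort, ← det_blockDiagonal']
  · congr 2
    refine Matrix.ext ?_
    rintro ⟨⟨s, hs⟩, a⟩ ⟨⟨t, ht⟩, b⟩
    by_cases h : s = t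
    · subst h
      exact (blockDiagonal'_apply_eq _ _ _ _).trans
        (blockDiagonal'_apply_eq (fun t : S => gm L n t) ⟨s, hs⟩ a b).symm
    · exact (blockDiagonal'_apply_ne _ _ _ h).trans
        (blockDiagonal'_apply_ne (fun t : S => gm L n t) a b fun h' => h (congrArg Subtype.val h')).symm
  · rintro x ⟨t, b⟩ hi
    refine blockDiagonal'_apply_ne _ _ _ fun h => hi ((Eps_range S _).2 ?_)
    exact h ▸ x.1.2

/-- The square of the determinant of a union of blocks that is orthogonal to the other blocks. -/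
theorem sem_comp (hα : Function.Injective α) (hF : TFam (fun i : Σ t, n t => α i.1) F)
    (hB : TFam (fun i : Σ t, n t => α i.1) B) (hE : tmat E ∈ F Bool) (hE' : tmat E' ∈ B Bool)
    (hc : c ≠ 0) (hEE : E * E' = c • (1 : Matrix _ _ L)) (S : Finset T)
    (hS : ∀ i i', E i i' ≠ 0 → (i.1 ∈ S ↔ i'.1 ∈ S)) :
    Sem F B (∏ t ∈ S, (gm L n t).det ^ 2) (∑ t ∈ S, 2 * Fintype.card (n t)) := by
  have h1 := Eps_sub (Eps_inj S) (E.submatrix (Eps_v n S) id)
    (fun x i hi => by_contra fun h => hi ((Eps_range S i).2 ((hS _ _ h).1 x.1.2)))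
    (E'.submatrix id (Eps_v n S))
  have h2 : E.submatrix (Eps_v n S) (Eps_v n S) * E'.submatrix (Eps_v n S) (Eps_v n S) =
      c • (1 : Matrix _ _ L) := by
    refine h1.trans ?_
    rw [← submatrix_mul _ _ _ _ _ Function.bijective_id, hEE, ← submatrix_one _ (Eps_inj S)]
    rfl
  have h3 := congrArg det h2
  rw [det_mul, det_smul, det_one, mul_one] at h3
  obtain ⟨h4, h5⟩ := mul_ne_zero_iff.1 (h3 ▸ pow_ne_zero _ hc)
  refine ⟨_, inferInstance, inferInstance, ?_, _, Eps_mem hα hF hE S h4, _, Eps_mem hα hB hE' S h5,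
    ?_, fun I => ?_⟩
  · rw [Fintype.card_sum, Fintype.card_sigma, ← Finset.mul_sum, two_mul,
      Finset.sum_coe_sort S fun t => Fintype.card (n t)]
  · rw [tpair_tmul]
    exact mul_ne_zero (Eps_pair (Eps_inj S)) (Eps_pair (Eps_inj S))
  · rw [gen_tmul, tmul, tmul, Eps_gen, Eps_gen, Finset.prod_pow, map_mul]
    ring

/-- The squares of symmetric products of determinants. -/
theorem sem_Dl (hα : Function.Injective α) (hF : TFam (fun i : Σ t, n t => α i.1) F)
    (hB : TFam (fun i : Σ t, n t => α i.1) B) (hE : tmat E ∈ F Bool) (hE' : tmat E' ∈ B Bool)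
    (hc : c ≠ 0) (hEE : E * E' = c • (1 : Matrix _ _ L)) (s : T → ℕ)
    (hs : ∀ i i', E i i' ≠ 0 → s i.1 = s i'.1) :
    Sem F B (DlGi L n fun t => 2 * s t) (∑ t, 2 * s t * Fintype.card (n t)) := by
  have key : ∀ r : ℕ, Sem F B (DlGi L n fun t => 2 * min (s t) r)
      (∑ t, 2 * min (s t) r * Fintype.card (n t)) := by
    intro r
    induction r with
    | zero => simpa [DlGi] using Sem.one hF hB
    | succ r ih =>
      have h := Sem.mul hF hB ih (sem_comp hα hF hB hE hE' hc hEE (Finset.univ.filter fun t => r < s t)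
        fun i i' h => by simp [hs i i' h])
      convert h using 1
      · rw [DlGi, DlGi, Finset.prod_filter, ← Finset.prod_mul_distrib]
        refine Finset.prod_congr rfl fun t _ => ?_
        split_ifs with ht
        · rw [← pow_add]
          congr 1
          omega
        · rw [mul_one]
          congr 1
          omega
      · rw [Finset.sum_filter, ← Finset.sum_add_distrib]
        refine Finset.sum_congr rfl fun t _ => ?_
        split_ifs with ht
        · rw [← add_mul]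
          congr 1
          omega
        · rw [add_zero]
          congr 1
          omega
  have h := key (∑ t, s t)
  have h2 : ∀ t, min (s t) (∑ t, s t) = s t := fun t =>
    min_eq_left (Finset.single_le_sum (fun _ _ => Nat.zero_le _) (Finset.mem_univ t))
  simpa only [h2] using h

end Pool.Agent.MP_0c8446_ag

end

section

namespace Pool.Agent.MP_0c8446_ag

open MvPolynomial Matrix

universe v

variable {L : Type v} [Field L] [CharZero L] {T : Type} [Fintype T] [DecidableEq T] {n : T → Type}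
  [∀ t, Fintype (n t)] [∀ t, DecidableEq (n t)] {ι : Type} [Fintype ι] [DecidableEq ι]

theorem Masch_perm {σ : Type} (K K' : ι → σ)
    (h : ∑ j, Finsupp.single (K j) 1 = ∑ j, Finsupp.single (K' j) (1 : ℕ)) :
    ∃ e : Equiv.Perm ι, K' ∘ e = K := by
  classical
  have key : ∀ s : σ, Nonempty ({i // K i = s} ≃ {j // K' j = s}) := by
    intro s
    refine Fintype.card_eq.1 ?_
    have := congrArg (fun f : σ →₀ ℕ => f s) h
    simp only [Finsupp.finsetSum_apply, Finsupp.single_apply] at this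
    rw [Fintype.card_subtype, Fintype.card_subtype, Finset.card_filter, Finset.card_filter]
    exact this
  exact ⟨Equiv.ofFiberEquiv fun s => (key s).some,
    funext fun i => Equiv.ofFiberEquiv_map (fun s => (key s).some) i⟩

/-- The block projector. -/
def Masch_p (τ : ι → T) : ((ι → Σ t, n t) → L) →ₗ[L] ((ι → Σ t, n t) → L) where
  toFun u := fun I => if ∀ j, (I j).1 = τ j then u I else 0
  map_add' u v := by
    funext I
    simp only [Pi.add_apply]
    split_ifs <;> simp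
  map_smul' c u := by
    funext I
    simp only [Pi.smul_apply, RingHom.id_apply]
    split_ifs <;> simp

/-- The permutation operator. -/
def Masch_P (e : Equiv.Perm ι) : ((ι → Σ t, n t) → L) →ₗ[L] ((ι → Σ t, n t) → L) where
  toFun u := fun I => u (I ∘ e)
  map_add' _ _ := rfl
  map_smul' _ _ := rfl

omit [CharZero L] in
theorem Masch_psi (S : ((ι → Σ t, n t) → L) →ₗ[L] ((ι → Σ t, n t) → L))
    (h1 : ∀ τ u, S (Masch_p τ u) = Masch_p τ (S u))
    (h2 : ∀ e u, S (Masch_P e u) = Masch_P e (S u)) :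
    ∃ Ψ : PR L n →ₗ[L] L, ∀ u I, Ψ (gen u I) = S u I := by
  classical
  let t : (ι → Σ t, n t) → (ι → Σ t, n t) → L := fun J I => S (Pi.single J 1) I
  have ta : ∀ J I, ¬ (∀ j, (I j).1 = (J j).1) → t J I = 0 := by
    intro J I h
    have e : Masch_p (fun j => (J j).1) (Pi.single J (1 : L)) = Pi.single J 1 := by
      funext I'
      by_cases hI : I' = J
      · subst hI; simp [Masch_p]
      · simp [Masch_p, hI]
    have := congrFun (h1 (fun j => (J j).1) (Pi.single J 1)) I
    rw [e] at this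
    refine this.trans ?_
    exact if_neg h
  have tb : ∀ (e : Equiv.Perm ι) J I, t (J ∘ e) (I ∘ e) = t J I := by
    intro e J I
    have e1 : Masch_P e (Pi.single (J ∘ e) (1 : L)) = Pi.single J 1 := by
      funext I'
      by_cases hI : I' = J
      · subst hI; simp [Masch_P]
      · have : I' ∘ e ≠ J ∘ e := fun h => hI (e.surjective.injective_comp_right h)
        simp [Masch_P, hI, this]
    have := congrFun (h2 e (Pi.single (J ∘ e) 1)) I
    rw [e1] at this
    exact this.symm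
  let r : (Σ t, n t × n t) → Σ t, n t := fun k => ⟨k.1, k.2.1⟩
  let c : (Σ t, n t × n t) → Σ t, n t := fun k => ⟨k.1, k.2.2⟩
  let f : ((Σ t, n t × n t) →₀ ℕ) → L := fun μ =>
    if h : ∃ K : ι → Σ t, n t × n t, μ = ∑ j, Finsupp.single (K j) 1 then
      t (r ∘ h.choose) (c ∘ h.choose) else 0
  have hf : ∀ K : ι → Σ t, n t × n t, f (∑ j, Finsupp.single (K j) 1) = t (r ∘ K) (c ∘ K) := by
    intro K
    have h : ∃ K' : ι → Σ t, n t × n t,
        ∑ j, Finsupp.single (K j) 1 = ∑ j, Finsupp.single (K' j) (1 : ℕ) := ⟨K, rfl⟩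
    obtain ⟨e, he⟩ := Masch_perm K h.choose h.choose_spec
    have : f (∑ j, Finsupp.single (K j) 1) = t (r ∘ h.choose) (c ∘ h.choose) := dif_pos h
    rw [this, ← tb e, Function.comp_assoc, Function.comp_assoc, he]
  refine ⟨(basisMonomials _ L).constr L f, fun u I => ?_⟩
  have key : ∀ J : ι → Σ t, n t, (basisMonomials _ L).constr L f
      (∏ j, blockDiagonal' (gm L n) (J j) (I j)) = t J I := by
    intro J
    by_cases h : ∀ j, (I j).1 = (J j).1
    · have : ∀ j, ∃ k : Σ t, n t × n t, r k = J j ∧ c k = I j := by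
        intro j
        have hj := h j
        generalize J j = a at hj
        generalize I j = b at hj
        obtain ⟨a1, a2⟩ := a
        obtain ⟨b1, b2⟩ := b
        obtain rfl : b1 = a1 := hj
        exact ⟨⟨b1, a2, b2⟩, rfl, rfl⟩
      choose K hK using this
      have hJ : r ∘ K = J := funext fun j => (hK j).1
      have hI : c ∘ K = I := funext fun j => (hK j).2
      have e : ∏ j, blockDiagonal' (gm L n) (J j) (I j) =
          basisMonomials _ L (∑ j, Finsupp.single (K j) 1) := by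
        rw [coe_basisMonomials]
        simp only
        rw [monomial_sum_one]
        refine Finset.prod_congr rfl fun j _ => ?_
        rw [← (hK j).1, ← (hK j).2]
        exact blockDiagonal'_apply_eq _ _ _ _
      rw [e, Module.Basis.constr_basis, hf, hJ, hI]
    · rw [ta J I h]
      obtain ⟨j, hj⟩ := not_forall.1 h
      rw [Finset.prod_eq_zero (Finset.mem_univ j), map_zero]
      exact blockDiagonal'_apply_ne _ _ _ (Ne.symm hj)
  have hu : u = ∑ J, u J • (Pi.single J 1 : (ι → Σ t, n t) → L) := by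
    funext I'
    simp [Finset.sum_apply, Pi.single_apply]
  conv_rhs => rw [hu, map_sum, Finset.sum_apply]
  simp only [gen, tact, map_sum, C_mul', map_smul, key]
  rfl

omit [CharZero L] [∀ t, Fintype (n t)] [∀ t, DecidableEq (n t)] in
theorem Masch_sum_p (u : (ι → Σ t, n t) → L) : ∑ τ, Masch_p τ (Masch_p τ u) = u := by
  funext I
  rw [Finset.sum_apply, Finset.sum_eq_single (fun j => (I j).1)]
  · simp [Masch_p]
  · intro τ _ h
    exact if_neg fun h' => h (funext fun j => (h' j).symm)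
  · simp

omit [CharZero L] [Fintype T] [∀ t, Fintype (n t)] [∀ t, DecidableEq (n t)] in
theorem Masch_pp (τ τ' : ι → T) (u : (ι → Σ t, n t) → L) :
    Masch_p τ (Masch_p τ' u) = if τ = τ' then Masch_p τ u else 0 := by
  funext I
  by_cases h : τ = τ'
  · subst h
    by_cases h' : ∀ j, (I j).1 = τ j <;> simp [Masch_p, h']
  · rw [if_neg h]
    by_cases h1 : ∀ j, (I j).1 = τ j
    · have h2 : ¬ ∀ j, (I j).1 = τ' j := fun h2 => h (funext fun j => (h1 j).symm.trans (h2 j))
      exact (if_pos h1).trans (if_neg h2)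
    · exact if_neg h1

omit [CharZero L] [Fintype T] [∀ t, Fintype (n t)] [∀ t, DecidableEq (n t)] [DecidableEq ι] in
theorem Masch_Pp (e : Equiv.Perm ι) (τ : ι → T) (u : (ι → Σ t, n t) → L) :
    Masch_P e (Masch_p (τ ∘ e) u) = Masch_p τ (Masch_P e u) := by
  funext I
  exact if_congr (e.forall_congr_right (q := fun j => (I j).1 = τ j)) rfl rfl

/-- Schur-Weyl and Maschke: a semi-invariant whose weight is a combination of coordinates of
translates of members of an invariant subspace lies in the subspace. -/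
theorem mem_of_weight (N : Submodule L ((ι → Σ t, n t) → L))
    (hp : ∀ e : Equiv.Perm ι, ∀ u ∈ N, (fun I => u (I ∘ e)) ∈ N)
    (hb : ∀ τ : ι → T, ∀ u ∈ N, (fun I => if ∀ j, (I j).1 = τ j then u I else 0) ∈ N)
    {δ : PR L n} (hδ : δ ∈ Submodule.span L {x | ∃ u ∈ N, ∃ I, x = gen u I})
    {ω : (ι → Σ t, n t) → L} (hω : ∀ I, gen ω I = δ * C (ω I)) : ω ∈ N := by
  obtain ⟨Q0, hQ0⟩ := LinearMap.exists_extend (p := N) (LinearMap.id : N →ₗ[L] N)
  have hQ0' : ∀ u ∈ N, (Q0 u : (ι → Σ t, n t) → L) = u := fun u hu =>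
    congrArg Subtype.val (LinearMap.congr_fun hQ0 ⟨u, hu⟩)
  let Q1 : ((ι → Σ t, n t) → L) →ₗ[L] ((ι → Σ t, n t) → L) :=
    ∑ τ, Masch_p τ ∘ₗ N.subtype ∘ₗ Q0 ∘ₗ Masch_p τ
  have Q1a : ∀ u, Q1 u = ∑ τ, Masch_p τ (Q0 (Masch_p τ u) : (ι → Σ t, n t) → L) := fun u => by
    simp [Q1]
  have Q1m : ∀ u, Q1 u ∈ N := fun u => by
    rw [Q1a]
    exact N.sum_mem fun τ _ => hb τ _ (Q0 _).2
  have Q1i : ∀ u ∈ N, Q1 u = u := fun u hu => by
    rw [Q1a, Finset.sum_congr rfl fun τ _ => by rw [hQ0' (Masch_p τ u) (hb τ u hu)], Masch_sum_p]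
  have Q1p : ∀ τ u, Q1 (Masch_p τ u) = Masch_p τ (Q1 u) := fun τ u => by
    rw [Q1a, Q1a, map_sum]
    refine Finset.sum_congr rfl fun τ' _ => ?_
    rw [Masch_pp, Masch_pp]
    by_cases h : τ = τ'
    · subst h; simp
    · simp [h, Ne.symm h]
  clear_value Q1
  let Q2 : ((ι → Σ t, n t) → L) →ₗ[L] ((ι → Σ t, n t) → L) :=
    ∑ e : Equiv.Perm ι, Masch_P e ∘ₗ Q1 ∘ₗ Masch_P e⁻¹
  have Q2a : ∀ u, Q2 u = ∑ e : Equiv.Perm ι, Masch_P e (Q1 (Masch_P e⁻¹ u)) := fun u => by
    simp [Q2]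
  have PP : ∀ (e e' : Equiv.Perm ι) (u : (ι → Σ t, n t) → L),
      Masch_P e (Masch_P e' u) = Masch_P (e * e') u := fun _ _ _ => rfl
  have P1 : ∀ u : (ι → Σ t, n t) → L, Masch_P 1 u = u := fun _ => rfl
  have Q2m : ∀ u, Q2 u ∈ N := fun u => by
    rw [Q2a]
    exact N.sum_mem fun e _ => hp e _ (Q1m _)
  have Q2i : ∀ u ∈ N, Q2 u = (Fintype.card (Equiv.Perm ι) : L) • u := fun u hu => by
    rw [Q2a, Finset.sum_congr rfl fun e _ => by
      rw [Q1i (Masch_P e⁻¹ u) (hp e⁻¹ u hu), PP, mul_inv_cancel, P1], Finset.sum_const,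
      Finset.card_univ, Nat.cast_smul_eq_nsmul]
  have Q2p : ∀ τ u, Q2 (Masch_p τ u) = Masch_p τ (Q2 u) := fun τ u => by
    rw [Q2a, Q2a, map_sum]
    refine Finset.sum_congr rfl fun e _ => ?_
    have e1 : τ = (τ ∘ e) ∘ (e⁻¹ : Equiv.Perm ι) := by
      funext j; simp
    rw [← Masch_Pp, ← Q1p, ← Masch_Pp e⁻¹, ← e1]
  have Q2P : ∀ e u, Q2 (Masch_P e u) = Masch_P e (Q2 u) := fun e u => by
    rw [Q2a, Q2a, map_sum, ← Equiv.sum_comp (Equiv.mulLeft e)]
    refine Finset.sum_congr rfl fun e' _ => ?_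
    simp only [Equiv.coe_mulLeft, PP, _root_.mul_inv_rev, inv_mul_cancel_right]
  clear_value Q2
  have hc : (Fintype.card (Equiv.Perm ι) : L) ≠ 0 := Nat.cast_ne_zero.2 Fintype.card_ne_zero
  generalize (Fintype.card (Equiv.Perm ι) : L) = c at hc Q2i
  obtain ⟨Ψ, hΨ⟩ := Masch_psi (c • LinearMap.id - Q2) (fun τ u => by simp [Q2p])
    (fun e u => by simp [Q2P])
  have h0 : Ψ δ = 0 := by
    have : Submodule.span L {x | ∃ u ∈ N, ∃ I, x = gen u I} ≤ LinearMap.ker Ψ := by
      rw [Submodule.span_le]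
      rintro _ ⟨u, hu, I, rfl⟩
      simp [hΨ, Q2i u hu]
    exact this hδ
  have h1 : c • ω = Q2 ω := by
    funext I
    have := hΨ ω I
    rw [hω, mul_comm, C_mul', map_smul, h0, smul_zero] at this
    simpa [sub_eq_zero] using this.symm
  exact (N.smul_mem_iff hc).1 (h1 ▸ Q2m ω)

end Pool.Agent.MP_0c8446_ag

end

section

namespace Pool.Agent.MP_0c8446_ag

open MvPolynomial Matrix

universe v

variable {L : Type v} [Field L] {D ι : Type} [Fintype D] [DecidableEq D] [Fintype ι]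
  [DecidableEq ι]

/-- The frame `g` with the weights `w` destabilises `a`, and the forms in `𝓔` have a limit. -/
structure Dst (a : (ι → D) → L) (𝓔 : Set (Matrix D D L)) (g : Matrix D D L) (w : D → ℝ) :
    Prop where
  unit : IsUnit g
  sum : ∑ i, w i = 0
  pos : ∀ I, tact g a I ≠ 0 → 1 ≤ ∑ j, w (I j)
  iso : ∀ E ∈ 𝓔, ∀ i j, (gᵀ * E * g) i j ≠ 0 → 0 ≤ w i + w j

/-- The weights `w` are as short as possible. -/
def Opt (a : (ι → D) → L) (𝓔 : Set (Matrix D D L)) (w : D → ℝ) : Prop :=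
  ∀ g' w', Dst a 𝓔 g' w' → ∑ i, w i ^ 2 ≤ ∑ i, w' i ^ 2

open Classical in
/-- The part of weight `c` of a tensor. -/
noncomputable def lead (w : D → ℝ) (c : ℝ) (a : (ι → D) → L) : (ι → D) → L :=
  fun I => if ∑ j, w (I j) = c then a I else 0

/-- The span of the columns of weight at most `r`. -/
def lowS (g : Matrix D D L) (w : D → ℝ) (r : ℝ) : Submodule L (D → L) :=
  Submodule.span L (Set.range fun j : {j // w j ≤ r} => fun i => g i j)

open Classical in
/-- The determinant of the part of weight at most `r`. -/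
noncomputable def lowD (g : Matrix D D L) (w : D → ℝ) (r : ℝ) : L :=
  (g.toSquareBlockProp fun j => w j ≤ r).det

omit [DecidableEq D] in
theorem tact_tmat {R : Type*} [CommRing R] (g E : Matrix D D R) :
    tact g (tmat E) = tmat (gᵀ * E * g) := by
  funext I
  simp only [tact, tmat, Matrix.mul_apply, transpose_apply, Finset.sum_mul, Fintype.prod_bool]
  rw [Finset.sum_comm, ← Fintype.sum_prod_type']
  refine Fintype.sum_equiv (Equiv.boolArrowEquivProd D) _ _ fun J => ?_
  simp only [Equiv.boolArrowEquivProd, Equiv.coe_fn_mk]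
  ring

theorem Dst.conj {a : (ι → D) → L} {𝓔 : Set (Matrix D D L)} {g g' : Matrix D D L} {w : D → ℝ}
    (hg : IsUnit g) :
    Dst (tact g a) ((fun E => gᵀ * E * g) '' 𝓔) g' w ↔ Dst a 𝓔 (g * g') w := by
  have e : ∀ E : Matrix D D L, g'ᵀ * (gᵀ * E * g) * g' = (g * g')ᵀ * E * (g * g') := fun E => by
    simp only [transpose_mul, Matrix.mul_assoc]
  constructor
  · exact fun h => ⟨hg.mul h.unit, h.sum, fun I => by rw [tact_mul]; exact h.pos I,
      fun E hE i j => by rw [← e]; exact h.iso _ ⟨E, hE, rfl⟩ i j⟩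
  · refine fun h => ⟨?_, h.sum, fun I => by rw [← tact_mul]; exact h.pos I, ?_⟩
    · have := h.unit
      rw [isUnit_iff_isUnit_det, det_mul] at this
      exact (isUnit_iff_isUnit_det _).2 (isUnit_of_mul_isUnit_right this)
    · rintro _ ⟨E, hE, rfl⟩ i j
      rw [e]
      exact h.iso E hE i j

theorem Opt.conj {a : (ι → D) → L} {𝓔 : Set (Matrix D D L)} {g : Matrix D D L} {w : D → ℝ}
    (hg : IsUnit g) (h : Opt a 𝓔 w) : Opt (tact g a) ((fun E => gᵀ * E * g) '' 𝓔) w :=
  fun _ _ h' => h _ _ ((Dst.conj hg).1 h')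

end Pool.Agent.MP_0c8446_ag

end

section

namespace Pool.Agent.MP_0c8446_ag

open MvPolynomial Matrix

universe v

variable {L κ L' : Type v} [Field L] [Field κ] [Field L'] [Algebra L κ] [Algebra L L']
  [IsAlgClosed L']

/-- A point of a finite type algebra killing the kernel of a point in a field. -/
theorem Spec_ker {A : Type v} [CommRing A] [Algebra L A] [Algebra.FiniteType L A]
    (ψ : A →ₐ[L] κ) : ∃ φ : A →ₐ[L] L', ∀ a, ψ a = 0 → φ a = 0 := by
  obtain ⟨m, hm, hle⟩ := Ideal.exists_le_maximal _ (RingHom.ker_ne_top ψ)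
  let _ : Field (A ⧸ m) := Ideal.Quotient.field m
  have := finite_of_finite_type_of_isJacobsonRing L (A ⧸ m)
  refine ⟨(IsAlgClosed.lift : (A ⧸ m) →ₐ[L] L').comp (Ideal.Quotient.mkₐ L m), fun a ha => ?_⟩
  rw [AlgHom.comp_apply, Ideal.Quotient.mkₐ_eq_mk, Ideal.Quotient.eq_zero_iff_mem.2 (hle ha),
    map_zero]

/-- Specialisation of a point to an algebraically closed field. -/
theorem spec_pt {σ : Type} [Finite σ] (x : σ → κ) (f : MvPolynomial σ L) (hf : aeval x f ≠ 0) :
    ∃ y : σ → L', aeval y f ≠ 0 ∧ ∀ p : MvPolynomial σ L, aeval x p = 0 → aeval y p = 0 := by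
  obtain ⟨φ, hφ⟩ := Spec_ker (L' := L')
    (aeval (R := L) fun o : Option σ => o.elim (aeval x f)⁻¹ x)
  have h1 : ∀ p : MvPolynomial σ L,
      aeval (fun o : Option σ => o.elim (aeval x f)⁻¹ x) (rename some p) = aeval x p :=
    fun p => aeval_rename _ _ p
  have h2 : ∀ p : MvPolynomial σ L, aeval (fun s => φ (X (some s))) p = φ (rename some p) :=
    fun p => DFunLike.congr_fun
      (algHom_ext (f := aeval fun s => φ (X (some s))) (g := φ.comp (rename some))
        fun s => by simp) p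
  refine ⟨fun s => φ (X (some s)), fun h => ?_, fun p hp => ?_⟩
  · have h3 := hφ (X none * rename some f - 1) (by
      rw [map_sub, map_mul, h1, aeval_X, map_one, Option.elim_none, inv_mul_cancel₀ hf, sub_self])
    rw [map_sub, map_mul, ← h2, h, mul_zero, map_one, zero_sub, neg_eq_zero] at h3
    exact one_ne_zero h3
  · rw [h2]
    exact hφ _ ((h1 p).trans hp)

/-- Specialisation of an invertible block diagonal matrix. -/
theorem spec_blk {T : Type} [Fintype T] [DecidableEq T] {n : T → Type} [∀ t, Fintype (n t)]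
    [∀ t, DecidableEq (n t)] (g : ∀ t, Matrix (n t) (n t) κ) (hg : IsUnit (blockDiagonal' g)) :
    ∃ g' : ∀ t, Matrix (n t) (n t) L', IsUnit (blockDiagonal' g') ∧
      ∀ p : PR L n, evm L g p = 0 → evm L g' p = 0 := by
  have h0 : evm L g (DlGi L n fun _ => 1) ≠ 0 := by
    rw [evm_Dl]
    simpa only [pow_one, ← det_blockDiagonal'] using ((isUnit_iff_isUnit_det _).1 hg).ne_zero
  obtain ⟨y, h1, h2⟩ := spec_pt (L' := L') (fun s : Σ t, n t × n t => g s.1 s.2.1 s.2.2)
    (DlGi L n fun _ => 1) h0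
  refine ⟨fun t => Matrix.of fun i j => y ⟨t, (i, j)⟩, ?_, h2⟩
  have h3 : evm L (fun t => Matrix.of fun i j => y ⟨t, (i, j)⟩) (DlGi L n fun _ => 1) ≠ 0 := h1
  rw [evm_Dl] at h3
  rw [isUnit_iff_isUnit_det, det_blockDiagonal', isUnit_iff_ne_zero]
  simpa only [pow_one] using h3

end Pool.Agent.MP_0c8446_ag

end

section

namespace Pool.Agent.MP_0c8446_ag

open MvPolynomial Matrix

universe v

variable {L : Type v} [Field L] {D ι : Type} [Fintype D] [DecidableEq D] [Fintype ι]
  [DecidableEq ι] {a : (ι → D) → L} {𝓔 : Set (Matrix D D L)}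

omit [DecidableEq D] in
theorem LeviNo_min (w w' : D → ℝ)
    (h3 : ∀ i₀, w i₀ < 0 → 0 ≤ ∑ i ∈ Finset.univ.filter fun i => w i ≤ w i₀, w' i) (n : ℕ) :
    ∀ c ≤ 0, (Finset.univ.filter fun i => w i < c).card ≤ n →
      ∑ i, min (w i - c) 0 * w' i ≤ 0 := by
  have h0 : ∀ c, (∀ i, c ≤ w i) → ∑ i, min (w i - c) 0 * w' i ≤ 0 := fun c h =>
    (Finset.sum_eq_zero fun i _ => by rw [min_eq_right (sub_nonneg.2 (h i)), zero_mul]).le
  induction n with
  | zero =>
    intro c _ h
    refine h0 c fun i => not_lt.1 fun hi => ?_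
    have := Finset.card_pos.2 ⟨i, Finset.mem_filter.2 ⟨Finset.mem_univ i, hi⟩⟩ |>.trans_le h
    exact lt_irrefl _ this
  | succ n ih =>
    intro c hc h
    rcases (Finset.univ.filter fun i => w i < c).eq_empty_or_nonempty with he | he
    · refine h0 c fun i => not_lt.1 fun hi => ?_
      exact Finset.eq_empty_iff_forall_notMem.1 he i (Finset.mem_filter.2 ⟨Finset.mem_univ i, hi⟩)
    obtain ⟨i₀, h1, h2⟩ := Finset.exists_max_image _ w he
    have h4 : w i₀ < c := (Finset.mem_filter.1 h1).2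
    have h5 := ih (w i₀) (by linarith) (Nat.lt_succ_iff.1 (lt_of_lt_of_le (Finset.card_lt_card
      ⟨fun i hi => Finset.mem_filter.2 ⟨Finset.mem_univ i, (Finset.mem_filter.1 hi).2.trans h4⟩,
        fun h' => lt_irrefl _ (Finset.mem_filter.1 (h' h1)).2⟩) h))
    have h6 : ∀ i, min (w i - c) 0 * w' i =
        min (w i - w i₀) 0 * w' i + (w i₀ - c) * if w i ≤ w i₀ then w' i else 0 := fun i => by
      split_ifs with h7
      · rw [min_eq_left (by linarith), min_eq_left (by linarith)]; ring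
      · have h8 : c ≤ w i := not_lt.1 fun hi =>
          h7 (h2 i (Finset.mem_filter.2 ⟨Finset.mem_univ i, hi⟩))
        rw [min_eq_right (by linarith), min_eq_right (by linarith)]; ring
    simp only [h6, Finset.sum_add_distrib, ← Finset.mul_sum, ← Finset.sum_filter]
    have h9 := mul_nonpos_of_nonpos_of_nonneg (sub_nonpos.2 h4.le) (h3 i₀ (by linarith))
    linarith

theorem LeviNo_ev {x : ℝ} (y : ℝ) :
    ∀ᶠ ε in nhdsWithin (0 : ℝ) (Set.Ioi 0), 0 < x → 0 < x + ε * y := by
  by_cases hx : 0 < x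
  · have h : Filter.Tendsto (fun ε : ℝ => x + ε * y) (nhds 0) (nhds (x + 0 * y)) :=
      (by fun_prop : Continuous fun ε : ℝ => x + ε * y).tendsto 0
    rw [zero_mul, add_zero] at h
    exact ((h.eventually (lt_mem_nhds hx)).filter_mono nhdsWithin_le_nhds).mono fun _ h _ => h
  · exact Filter.Eventually.of_forall fun _ h => absurd h hx

omit [DecidableEq D] in
/-- Abel summation for symmetric weights. -/
theorem levi_abel (w w' : D → ℝ) (π : Equiv.Perm D) (h1 : ∀ i, w (π i) = -w i)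
    (h2 : ∀ i, w' (π i) = -w' i)
    (h3 : ∀ i₀, w i₀ < 0 → 0 ≤ ∑ i ∈ Finset.univ.filter fun i => w i ≤ w i₀, w' i) :
    ∑ i, w i * w' i ≤ 0 := by
  have h4 := LeviNo_min w w' h3 _ 0 le_rfl le_rfl
  simp only [sub_zero] at h4
  have h5 := Equiv.sum_comp π fun i => min (w i) 0 * w' i
  have h6 : ∀ i, w i * w' i = min (w i) 0 * w' i + min (w (π i)) 0 * w' (π i) := fun i => by
    rw [h1, h2]
    rcases le_total (w i) 0 with h | h
    · rw [min_eq_left h, min_eq_right (by linarith)]; ring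
    · rw [min_eq_right h, min_eq_left (by linarith)]; ring
  rw [Finset.sum_congr rfl fun i _ => h6 i, Finset.sum_add_distrib, h5]
  linarith

/-- The weights are symmetric. -/
theorem levi_perm {E : Matrix D D L} (hE : IsUnit E) {w w' : D → ℝ} (hw : ∑ i, w i = 0)
    (hw' : ∑ i, w' i = 0) (h1 : ∀ i j, E i j ≠ 0 → 0 ≤ w i + w j)
    (h2 : ∀ i j, w i + w j = 0 → E i j ≠ 0 → 0 ≤ w' i + w' j) :
    ∃ π : Equiv.Perm D, (∀ i, w (π i) = -w i) ∧ ∀ i, w' (π i) = -w' i := by
  have hd := ((isUnit_iff_isUnit_det _).1 hE).ne_zero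
  rw [det_apply] at hd
  obtain ⟨σ, -, hσ⟩ := Finset.exists_ne_zero_of_sum_ne_zero hd
  have h3 : ∀ i, E (σ i) i ≠ 0 := fun i e =>
    hσ (by rw [Finset.prod_eq_zero (f := fun i => E (σ i) i) (Finset.mem_univ i) e, smul_zero])
  have key : ∀ u : D → ℝ, ∑ i, u i = 0 → (∀ i, 0 ≤ u (σ i) + u i) → ∀ i, u (σ i) + u i = 0 :=
    fun u h h' i => (Finset.sum_eq_zero_iff_of_nonneg fun i _ => h' i).1
      (by rw [Finset.sum_add_distrib, Equiv.sum_comp σ u, h, add_zero]) i (Finset.mem_univ i)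
  have h4 := key w hw fun i => h1 _ _ (h3 i)
  exact ⟨σ, fun i => eq_neg_of_add_eq_zero_left (h4 i),
    fun i => eq_neg_of_add_eq_zero_left (key w' hw' (fun i => h2 _ _ (h4 i) (h3 i)) i)⟩

/-- The leading part of an optimal pair is not destabilised inside the Levi subgroup. -/
theorem levi_no (ha : a ≠ 0) {w : D → ℝ} (h : Dst a 𝓔 1 w) (hw : Opt a 𝓔 w)
    {E₀ : Matrix D D L} (hE₀ : E₀ ∈ 𝓔) (hu : IsUnit E₀) {l : Matrix D D L} (hl : IsUnit l)
    (hlw : ∀ i j, l i j ≠ 0 → w i = w j) {w' : D → ℝ} (hs : ∑ i, w' i = 0)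
    (h1 : ∀ I, ∑ j, w (I j) = 1 → tact l a I ≠ 0 → 1 ≤ ∑ j, w' (I j))
    (h2 : ∀ E ∈ 𝓔, ∀ i j, w i + w j = 0 → (lᵀ * E * l) i j ≠ 0 → 0 ≤ w' i + w' j)
    (h3 : ∀ i₀, w i₀ < 0 → 0 ≤ ∑ i ∈ Finset.univ.filter fun i => w i ≤ w i₀, w' i) :
    False := by
  have hpos : ∀ I, a I ≠ 0 → 1 ≤ ∑ j, w (I j) := fun I hI => h.pos I (by rwa [tact_one])
  have hp : ∀ I, tact l a I ≠ 0 → 1 ≤ ∑ j, w (I j) := fun I hI => by
    obtain ⟨J, hJ, hJ'⟩ := tact_ne_zero hI
    rw [← Finset.sum_congr rfl fun j _ => hlw _ _ (hJ' j)]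
    exact hpos J hJ
  have hi : ∀ E ∈ 𝓔, ∀ i j, (lᵀ * E * l) i j ≠ 0 → 0 ≤ w i + w j := fun E hE i j hij => by
    rw [Matrix.mul_apply] at hij
    obtain ⟨j', -, hj'⟩ := Finset.exists_ne_zero_of_sum_ne_zero hij
    have h4 := left_ne_zero_of_mul hj'
    rw [Matrix.mul_apply] at h4
    obtain ⟨i', -, hi'⟩ := Finset.exists_ne_zero_of_sum_ne_zero h4
    rw [← hlw i' i (left_ne_zero_of_mul hi'), ← hlw j' j (right_ne_zero_of_mul hj')]
    exact h.iso E hE i' j' (by simpa using right_ne_zero_of_mul hi')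
  obtain ⟨π, hπ, hπ'⟩ := levi_perm (E := lᵀ * E₀ * l) (((isUnit_transpose l).2 hl).mul hu |>.mul hl)
    h.sum hs (hi E₀ hE₀) (h2 E₀ hE₀)
  have hC := levi_abel w w' π hπ hπ' h3
  have hA : 0 < 2 * ∑ i, w i ^ 2 := by
    obtain ⟨I, hI⟩ := Function.ne_iff.1 ha
    obtain ⟨j, -, hj⟩ := Finset.exists_ne_zero_of_sum_ne_zero
      (lt_of_lt_of_le one_pos (hpos I hI)).ne'
    exact mul_pos two_pos (Finset.sum_pos' (fun i _ => sq_nonneg _)
      ⟨I j, Finset.mem_univ _, by positivity⟩)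
  obtain ⟨ε, ⟨⟨e1, e2⟩, e3⟩, e0⟩ := ((((Filter.eventually_all.2 fun I : ι → D =>
    LeviNo_ev (x := ∑ j, w (I j) - 1) (∑ j, w' (I j) - 1)).and
    (Filter.eventually_all.2 fun p : D × D =>
      LeviNo_ev (x := w p.1 + w p.2) (w' p.1 + w' p.2))).and
    (LeviNo_ev (x := 2 * ∑ i, w i ^ 2) (-∑ i, w' i ^ 2))).and self_mem_nhdsWithin).exists
  have e0' : 0 < ε := e0
  have e4 : 0 < 1 + ε := by linarith
  have h5 := hw l (fun i => (w i + ε * w' i) / (1 + ε)) ⟨hl, ?_, fun I hI => ?_, ?_⟩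
  · simp only [div_pow, ← Finset.sum_div] at h5
    rw [le_div_iff₀ (by positivity)] at h5
    have h6 : ∑ i, (w i + ε * w' i) ^ 2 =
        ∑ i, w i ^ 2 + 2 * ε * ∑ i, w i * w' i + ε ^ 2 * ∑ i, w' i ^ 2 := by
      simp only [Finset.mul_sum, ← Finset.sum_add_distrib]
      exact Finset.sum_congr rfl fun i _ => by ring
    have h7 := mul_pos e0' (e3 hA)
    have h8 := mul_nonneg e0'.le (neg_nonneg.2 hC)
    have h9 := mul_pos (mul_pos e0' e0') hA
    rw [h6] at h5
    nlinarith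
  · rw [← Finset.sum_div, Finset.sum_add_distrib, ← Finset.mul_sum, h.sum, hs]
    simp
  · rw [← Finset.sum_div, Finset.sum_add_distrib, ← Finset.mul_sum, le_div_iff₀ e4]
    rcases (hp I hI).eq_or_lt with h6 | h6
    · have := mul_le_mul_of_nonneg_left (h1 I h6.symm hI) e0'.le
      linarith
    · have := e1 I (sub_pos.2 h6)
      linarith
  · intro E hE i j hij
    rw [← add_div]
    refine div_nonneg ?_ e4.le
    rcases (hi E hE i j hij).eq_or_lt with h6 | h6
    · have := mul_nonneg e0'.le (h2 E hE i j h6.symm hij)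
      linarith
    · have := e2 (i, j) h6
      linarith

end Pool.Agent.MP_0c8446_ag

end

section

namespace Pool.Agent.MP_0c8446_ag

open Matrix

universe v

variable {K L : Type v} [Field K] [Field L] {D D' : Type} [Fintype D] [Fintype D'] {G : Type*}

/-- The set `𝓔` is spanned by its semi-invariant members. -/
def SemiSp (ρ : G → Matrix D D K) (c : G → K) (𝓔 : Set (Matrix D D K)) : Prop :=
  ∀ E ∈ 𝓔, E ∈ Submodule.span K {E | E ∈ 𝓔 ∧ ∃ j : ℕ, ∀ σ, (ρ σ)ᵀ * E * ρ σ = c σ ^ j • E}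

theorem SemiSp.map {ρ : G → Matrix D D K} {c : G → K} {𝓔 : Set (Matrix D D K)}
    (h : SemiSp ρ c 𝓔) (φ : K →+* L) (Ψ : Matrix D D K → Matrix D' D' L)
    (h1 : ∀ E E', Ψ (E + E') = Ψ E + Ψ E') (h2 : ∀ (a : K) E, Ψ (a • E) = φ a • Ψ E)
    {ρ' : G → Matrix D' D' L} (h3 : ∀ σ E, (ρ' σ)ᵀ * Ψ E * ρ' σ = Ψ ((ρ σ)ᵀ * E * ρ σ)) :
    SemiSp ρ' (fun σ => φ (c σ)) (Ψ '' 𝓔) := by
  rintro _ ⟨E, hE, rfl⟩
  have := h E hE
  clear hE
  induction this using Submodule.span_induction with
  | mem E hE =>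
    obtain ⟨hE, j, hj⟩ := hE
    exact Submodule.subset_span ⟨⟨E, hE, rfl⟩, j, fun σ => by rw [h3, hj, h2, map_pow]⟩
  | zero =>
    rw [← zero_smul K (0 : Matrix D D K), h2, map_zero, zero_smul]
    exact zero_mem _
  | add E E' _ _ hE hE' => rw [h1]; exact add_mem hE hE'
  | smul a E _ hE => rw [h2]; exact Submodule.smul_mem _ _ hE

theorem SemiSp.mem {ρ : G → Matrix D D K} {c : G → K} {𝓔 : Set (Matrix D D K)}
    (h : SemiSp ρ c 𝓔) (σ : G) : ∀ E ∈ 𝓔, (ρ σ)ᵀ * E * ρ σ ∈ Submodule.span K 𝓔 := by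
  intro E hE
  have := h E hE
  clear hE
  induction this using Submodule.span_induction with
  | mem E hE =>
    obtain ⟨hE, j, hj⟩ := hE
    rw [hj]
    exact Submodule.smul_mem _ _ (Submodule.subset_span hE)
  | zero => rw [Matrix.mul_zero, Matrix.zero_mul]; exact zero_mem _
  | add E E' _ _ hE hE' => rw [Matrix.mul_add, Matrix.add_mul]; exact add_mem hE hE'
  | smul a E _ hE => rw [Matrix.mul_smul, Matrix.smul_mul]; exact Submodule.smul_mem _ _ hE

theorem Dst.iso_span [DecidableEq D] {ι : Type} [Fintype ι] [DecidableEq ι] {a : (ι → D) → K}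
    {𝓔 : Set (Matrix D D K)} {g : Matrix D D K} {w : D → ℝ} (h : Dst a 𝓔 g w) :
    ∀ E ∈ Submodule.span K 𝓔, ∀ i j, (gᵀ * E * g) i j ≠ 0 → 0 ≤ w i + w j := by
  intro E hE i j hij
  by_contra hw
  refine hij ?_
  clear hij
  induction hE using Submodule.span_induction with
  | mem E hE => exact by_contra fun e => hw (h.iso E hE i j e)
  | zero => rw [Matrix.mul_zero, Matrix.zero_mul]; rfl
  | add E E' _ _ hE hE' => rw [Matrix.mul_add, Matrix.add_mul, Matrix.add_apply, hE, hE',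
      add_zero]
  | smul a E _ hE => rw [Matrix.mul_smul, Matrix.smul_mul, Matrix.smul_apply, hE,
      smul_zero]

end Pool.Agent.MP_0c8446_ag

end
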