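import Pool.Agent.Mg.F0c8446.Gaba67e
import Pool.Agent.Mg.F0c8446.G16b606
import Mathlib
import Pool.Agent.MP_0c8446_ag.GI.Defs

section

namespace Pool.Agent.MP_0c8446_ag

open Matrix

universe u

theorem BruW_fin {κ : Type u} [Field κ] {m : ℕ} {h : Matrix (Fin m) (Fin m) κ} (hh : IsUnit h) :
    ∃ (b b' : Matrix (Fin m) (Fin m) κ) (σ : Equiv.Perm (Fin m)), IsUnit b ∧ IsUnit b' ∧
      b.BlockTriangular Fin.val ∧ b'.BlockTriangular Fin.val ∧
      h = b * (Matrix.of fun j i => if j = σ i then 1 else 0) * b' := by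
  obtain ⟨y, g, hg, h1, h2⟩ := exists_bruhat (g := 1) isUnit_one hh
  unfold Rl at h1 h2
  rw [inv_one, Matrix.one_mul] at h1
  have e : g.submatrix id y = g * (Matrix.of fun j i => if j = y i then 1 else 0) := by
    ext i j
    simp [Matrix.mul_apply]
  have hd := (isUnit_iff_isUnit_det h).1 hh
  have hT : IsUnit (h⁻¹ * g.submatrix id y) := by
    refine (isUnit_nonsing_inv_iff.2 hh).mul ((isUnit_iff_isUnit_det _).2 ?_)
    rw [det_permute']
    exact (Units.isUnit (Units.map (Int.castRingHom κ).toMonoidHom (Equiv.Perm.sign y))).mul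
      ((isUnit_iff_isUnit_det g).1 hg)
  have := hT.invertible
  refine ⟨g, (h⁻¹ * g.submatrix id y)⁻¹, y, hg, isUnit_nonsing_inv_iff.2 hT, h1,
    blockTriangular_inv_of_blockTriangular h2, ?_⟩
  rw [← e, eq_comm, mul_inv_eq_iff_eq_mul_of_invertible, mul_nonsing_inv_cancel_left _ _ hd]

/-- Bruhat decomposition relative to the parabolic subgroup of a real weight. -/
theorem exists_bruhat_w {κ : Type u} [Field κ] {n : Type} [Fintype n] [DecidableEq n] (w : n → ℝ)
    {h : Matrix n n κ} (hh : IsUnit h) :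
    ∃ (b b' : Matrix n n κ) (σ : Equiv.Perm n), IsUnit b ∧ IsUnit b' ∧ b.BlockTriangular w ∧
      b'.BlockTriangular w ∧ h = b * (Matrix.of fun j i => if j = σ i then 1 else 0) * b' := by
  let e₀ := (Fintype.equivFin n).symm
  let e : Fin (Fintype.card n) ≃ n := (Tuple.sort (w ∘ e₀)).trans e₀
  have he : Monotone (w ∘ e) := Tuple.monotone_sort (w ∘ e₀)
  have tri : ∀ b : Matrix (Fin (Fintype.card n)) (Fin (Fintype.card n)) κ,
      b.BlockTriangular Fin.val → (b.submatrix e.symm e.symm).BlockTriangular w := by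
    intro b hb i j hij
    refine hb (he.reflect_lt (a := e.symm j) (b := e.symm i) ?_)
    simpa using hij
  obtain ⟨b, b', σ, h1, h2, h3, h4, h5⟩ :=
    BruW_fin (h := h.submatrix e e) ((isUnit_submatrix_equiv e e).2 hh)
  refine ⟨b.submatrix e.symm e.symm, b'.submatrix e.symm e.symm, e.permCongr σ,
    (isUnit_submatrix_equiv _ _).2 h1, (isUnit_submatrix_equiv _ _).2 h2, tri b h3, tri b' h4, ?_⟩
  have e1 : (Matrix.of fun j i => if j = e.permCongr σ i then (1 : κ) else 0) =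
      (Matrix.of fun j i => if j = σ i then (1 : κ) else 0).submatrix e.symm e.symm := by
    ext i j
    exact if_congr e.symm_apply_eq.symm rfl rfl
  rw [e1, submatrix_mul_equiv, submatrix_mul_equiv, ← h5]
  simp

end Pool.Agent.MP_0c8446_ag

end

section

namespace Pool.Agent.MP_0c8446_ag

open Matrix

universe u

variable {T : Type} [Fintype T] [DecidableEq T] {n : T → Type} [∀ t, Fintype (n t)]
  [∀ t, DecidableEq (n t)] {ι : Type} [Fintype ι] [DecidableEq ι]

/-- All weights of `u` are at least one. -/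
def KempfF {κ : Type u} [Field κ] {D ι : Type} [Fintype ι] (w : D → ℝ) (u : (ι → D) → κ) : Prop :=
  ∀ I, u I ≠ 0 → 1 ≤ ∑ j, w (I j)

theorem Kempf_stab {κ : Type u} [Field κ] {w w' : (Σ t, n t) → ℝ}
    {M : ∀ t, Matrix (n t) (n t) κ} (hM : ∀ t i j, M t i j ≠ 0 → w ⟨t, i⟩ ≤ w' ⟨t, j⟩)
    {u : (ι → Σ t, n t) → κ} (hu : KempfF w u) : KempfF w' (tact (blockDiagonal' M) u) := by
  intro I hI
  obtain ⟨J, hJ, hJI⟩ := tact_ne_zero hI
  refine (hu J hJ).trans (Finset.sum_le_sum fun j _ => ?_)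
  have h := hJI j
  generalize J j = d at h
  generalize I j = e at h
  obtain ⟨t, i⟩ := d
  obtain ⟨t', i'⟩ := e
  by_cases htt : t = t'
  · subst htt
    rw [blockDiagonal'_apply_eq] at h
    exact hM t i i' h
  · rw [blockDiagonal'_apply_ne _ _ _ htt] at h
    exact absurd rfl h

theorem Kempf_stab' {κ : Type u} [Field κ] {w : (Σ t, n t) → ℝ}
    {M : ∀ t, Matrix (n t) (n t) κ} (hM : ∀ t, (M t).BlockTriangular fun i => w ⟨t, i⟩)
    {u : (ι → Σ t, n t) → κ} (hu : KempfF w u) : KempfF w (tact (blockDiagonal' M) u) :=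
  Kempf_stab (fun t _ _ h => not_lt.1 fun hlt => h (hM t hlt)) hu

theorem Kempf_tact {κ : Type u} [Field κ] (M N : ∀ t, Matrix (n t) (n t) κ)
    (u : (ι → Σ t, n t) → κ) :
    tact (blockDiagonal' N) (tact (blockDiagonal' M) u) =
      tact (blockDiagonal' fun t => M t * N t) u := by
  rw [blockDiagonal'_mul, tact_mul]

/-- The destabilising weights. -/
def KempfD {κ : Type u} [Field κ] (a : (ι → Σ t, n t) → κ) : Set ((Σ t, n t) → ℝ) :=
  {w | (∀ t, ∑ i, w ⟨t, i⟩ = 0) ∧ ∃ g : ∀ t, Matrix (n t) (n t) κ, (∀ t, IsUnit (g t)) ∧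
    KempfF w (tact (blockDiagonal' g) a)}

theorem Kempf_closed {κ : Type u} [Field κ] (a : (ι → Σ t, n t) → κ) : IsClosed (KempfD a) := by
  have h : KempfD a = ⋃ S : {S : Set (ι → Σ t, n t) | ∃ g : ∀ t, Matrix (n t) (n t) κ,
      (∀ t, IsUnit (g t)) ∧ S = {I | tact (blockDiagonal' g) a I ≠ 0}},
      ((⋂ t, {w : (Σ t, n t) → ℝ | ∑ i, w ⟨t, i⟩ = 0}) ∩
        ⋂ I ∈ S.1, {w : (Σ t, n t) → ℝ | 1 ≤ ∑ j, w (I j)}) := by
    ext w
    simp only [KempfD, Set.mem_setOf_eq, Set.mem_iUnion, Set.mem_inter_iff, Set.mem_iInter]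
    constructor
    · rintro ⟨h0, g, hg, hF⟩
      exact ⟨⟨_, g, hg, rfl⟩, h0, fun I hI => hF I hI⟩
    · rintro ⟨⟨S, g, hg, rfl⟩, h0, hF⟩
      exact ⟨h0, g, hg, fun I hI => hF I hI⟩
  rw [h]
  refine isClosed_iUnion_of_finite fun S => IsClosed.inter ?_ ?_
  · exact isClosed_iInter fun t => isClosed_eq (by fun_prop) continuous_const
  · exact isClosed_biInter fun I _ => isClosed_le continuous_const (by fun_prop)

theorem Kempf_min {D : Type} [Fintype D] {S : Set (D → ℝ)} (hS : IsClosed S) (hne : S.Nonempty) :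
    ∃ w ∈ S, ∀ v ∈ S, ∑ d, w d ^ 2 ≤ ∑ d, v d ^ 2 := by
  have hc : IsClosed ((fun x : EuclideanSpace ℝ D => x.ofLp) ⁻¹' S) :=
    hS.preimage (by fun_prop)
  obtain ⟨v0, hv0⟩ := hne
  obtain ⟨x, hx, hd⟩ := hc.exists_infDist_eq_dist ⟨WithLp.toLp 2 v0, hv0⟩ 0
  refine ⟨x.ofLp, hx, fun v hv => ?_⟩
  have h1 : Metric.infDist (0 : EuclideanSpace ℝ D)
      ((fun x : EuclideanSpace ℝ D => x.ofLp) ⁻¹' S) ≤ dist 0 (WithLp.toLp 2 v) :=
    Metric.infDist_le_dist_of_mem hv
  rw [hd, dist_zero_left, dist_zero_left] at h1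
  have h2 := pow_le_pow_left₀ (norm_nonneg _) h1 2
  rwa [EuclideanSpace.real_norm_sq_eq, EuclideanSpace.real_norm_sq_eq] at h2

theorem Kempf_par {D : Type} [Fintype D] {w w' : D → ℝ} (h1 : ∑ d, w' d ^ 2 = ∑ d, w d ^ 2)
    (h2 : ∑ d, w d ^ 2 ≤ ∑ d, ((w d + w' d) / 2) ^ 2) : w' = w := by
  have h3 : ∑ d, ((w d + w' d) / 2) ^ 2 =
      (∑ d, w d ^ 2 + ∑ d, w' d ^ 2) / 2 - (∑ d, (w' d - w d) ^ 2) / 4 := by
    rw [← Finset.sum_add_distrib, Finset.sum_div, Finset.sum_div, ← Finset.sum_sub_distrib]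
    exact Finset.sum_congr rfl fun d _ => by ring
  have h4 : ∑ d, (w' d - w d) ^ 2 = 0 :=
    le_antisymm (by linarith) (Finset.sum_nonneg fun d _ => sq_nonneg _)
  funext d
  have h5 := (Finset.sum_eq_zero_iff_of_nonneg fun d _ => sq_nonneg (w' d - w d)).1 h4 d
    (Finset.mem_univ d)
  exact sub_eq_zero.1 (pow_eq_zero_iff two_ne_zero |>.1 h5)

theorem Kempf_perm {κ : Type u} [Field κ] {m : Type} [Fintype m] [DecidableEq m]
    (σ : Equiv.Perm m) :
    (Matrix.of fun j i => if j = σ i then (1 : κ) else 0) *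
      (Matrix.of fun i j => if j = σ i then (1 : κ) else 0) = 1 := by
  ext j j'
  rw [Matrix.mul_apply, Finset.sum_eq_single (σ.symm j)]
  · simp [Matrix.one_apply, eq_comm]
  · intro i _ hi
    have : j ≠ σ i := fun h => hi (by rw [h, Equiv.symm_apply_apply])
    simp [this]
  · simp

theorem Kempf_tri {κ : Type u} [Field κ] {a : (ι → Σ t, n t) → κ} {w : (Σ t, n t) → ℝ}
    (hw : ∀ t, ∑ i, w ⟨t, i⟩ = 0) {g : ∀ t, Matrix (n t) (n t) κ} (hg : ∀ t, IsUnit (g t))
    (hF : KempfF w (tact (blockDiagonal' g) a))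
    (hmin : ∀ v ∈ KempfD a, ∑ d, w d ^ 2 ≤ ∑ d, v d ^ 2)
    {h : ∀ t, Matrix (n t) (n t) κ} (hh : ∀ t, IsUnit (h t)) {c : κ}
    (hc : tact (blockDiagonal' h) a = c • a) (t : T) :
    ((g t)⁻¹ * h t * g t).BlockTriangular fun i => w ⟨t, i⟩ := by
  have hk : ∀ t, IsUnit ((g t)⁻¹ * h t * g t) := fun t =>
    ((Matrix.isUnit_nonsing_inv_iff.2 (hg t)).mul (hh t)).mul (hg t)
  choose b b' σ hb hb' hbt hbt' hk' using fun t => exists_bruhat_w (fun i => w ⟨t, i⟩) (hk t)
  set x := tact (blockDiagonal' g) a with hx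
  have hgd : ∀ t, IsUnit (g t).det := fun t => (Matrix.isUnit_iff_isUnit_det _).1 (hg t)
  have hbd : ∀ t, IsUnit (b' t).det := fun t => (Matrix.isUnit_iff_isUnit_det _).1 (hb' t)
  have h1 : tact (blockDiagonal' fun t => (g t)⁻¹ * h t * g t) x = c • x := by
    rw [hx, Kempf_tact, ← tact_smul, ← hc, Kempf_tact]
    congr 2
    funext t
    rw [← Matrix.mul_assoc, ← Matrix.mul_assoc, Matrix.mul_nonsing_inv _ (hgd t), Matrix.one_mul]
  have h2 : KempfF w (c • x) := fun I hI => hF I fun h0 => hI (by simp [h0])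
  have h3 : KempfF w (tact (blockDiagonal' fun t => (b' t)⁻¹) (c • x)) := by
    refine Kempf_stab' (fun t => ?_) h2
    letI := (hb' t).invertible
    exact Matrix.blockTriangular_inv_of_blockTriangular (hbt' t)
  set w' : (Σ t, n t) → ℝ := fun d => w ⟨d.1, (σ d.1).symm d.2⟩ with hw'
  have h4 : KempfF w' (tact (blockDiagonal' fun t =>
      (Matrix.of fun i j => if j = σ t i then (1 : κ) else 0))
      (tact (blockDiagonal' fun t => (b' t)⁻¹) (c • x))) := by
    refine Kempf_stab (fun t i j hij => ?_) h3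
    have : j = σ t i := by
      by_contra hne
      exact hij (by simp [hne])
    simp [hw', this]
  have h5 : tact (blockDiagonal' fun t =>
      (Matrix.of fun i j => if j = σ t i then (1 : κ) else 0))
      (tact (blockDiagonal' fun t => (b' t)⁻¹) (c • x)) =
      tact (blockDiagonal' fun t => g t * b t) a := by
    rw [← h1, Kempf_tact, Kempf_tact, ← Kempf_tact g b]
    congr 2
    funext t
    rw [hk' t, Matrix.mul_assoc, Matrix.mul_assoc, ← Matrix.mul_assoc (b' t),
      Matrix.mul_nonsing_inv _ (hbd t), Matrix.one_mul, Kempf_perm, Matrix.mul_one]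
  rw [h5] at h4
  have h6 : KempfF w (tact (blockDiagonal' fun t => g t * b t) a) := by
    rw [← Kempf_tact]
    exact Kempf_stab' hbt hF
  have hs : ∀ (f : ℝ → ℝ) (t : T), ∑ i, f (w' ⟨t, i⟩) = ∑ i, f (w ⟨t, i⟩) := fun f t =>
    Equiv.sum_comp (σ t).symm fun i => f (w ⟨t, i⟩)
  have h7 : (fun d => (w d + w' d) / 2) ∈ KempfD a := by
    refine ⟨fun t => ?_, _, fun t => (hg t).mul (hb t), fun I hI => ?_⟩
    · have := hs id t
      simp only [id] at this
      rw [← Finset.sum_div, Finset.sum_add_distrib, this, hw t]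
      norm_num
    · have e1 := h4 I hI
      have e2 := h6 I hI
      rw [← Finset.sum_div, Finset.sum_add_distrib]
      linarith
  have h8 : w' = w := by
    refine Kempf_par ?_ (hmin _ h7)
    rw [Fintype.sum_sigma, Fintype.sum_sigma]
    exact Finset.sum_congr rfl fun t _ => hs (fun r => r ^ 2) t
  rw [hk' t]
  refine ((hbt t).mul ?_).mul (hbt' t)
  intro j i hlt
  have hne : j ≠ σ t i := by
    rintro rfl
    have := congrFun h8 ⟨t, σ t i⟩
    simp only [hw', Equiv.symm_apply_apply] at this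
    exact absurd hlt (by simp [this])
  simp [hne]

/-- Kempf: a line of tensors fixed by a set of matrices acting irreducibly on each block is not
destabilised by a one-parameter subgroup of the product of the special linear groups. -/
theorem kempf {κ : Type u} [Field κ] {a : (ι → Σ t, n t) → κ} (ha : a ≠ 0)
    (H : Set (∀ t, Matrix (n t) (n t) κ))
    (hH : ∀ h ∈ H, (∀ t, IsUnit (h t)) ∧ ∃ c : κ, tact (blockDiagonal' h) a = c • a)
    (hirr : ∀ t, Algebra.adjoin κ ((fun h => h t) '' H) = ⊤)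
    (g : ∀ t, Matrix (n t) (n t) κ) (hg : ∀ t, IsUnit (g t)) (w : (Σ t, n t) → ℝ)
    (hw : ∀ t, ∑ i, w ⟨t, i⟩ = 0)
    (hpos : ∀ I, tact (blockDiagonal' g) a I ≠ 0 → 0 < ∑ j, w (I j)) : False := by
  classical
  have hne : (KempfD a).Nonempty := by
    have h0 : (Finset.univ.filter fun I => tact (blockDiagonal' g) a I ≠ 0).Nonempty := by
      by_contra hcon
      rw [Finset.not_nonempty_iff_eq_empty, Finset.filter_eq_empty_iff] at hcon
      refine ha (tact_eq_zero (isUnit_blockDiagonal' hg) (funext fun I => ?_))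
      exact not_not.1 (hcon (Finset.mem_univ I))
    obtain ⟨I0, hI0, hm⟩ := Finset.exists_min_image _ (fun I => ∑ j, w (I j)) h0
    have hp := hpos I0 (Finset.mem_filter.1 hI0).2
    refine ⟨fun d => w d / ∑ j, w (I0 j), fun t => ?_, g, hg, fun I hI => ?_⟩
    · rw [← Finset.sum_div, hw t, zero_div]
    · rw [← Finset.sum_div, le_div_iff₀ hp, one_mul]
      exact hm I (Finset.mem_filter.2 ⟨Finset.mem_univ _, hI⟩)
  obtain ⟨v, ⟨hv, k, hk, hF⟩, hmin⟩ := Kempf_min (Kempf_closed a) hne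
  have hkd : ∀ t, IsUnit (k t).det := fun t => (Matrix.isUnit_iff_isUnit_det _).1 (hk t)
  have hall : ∀ t (x : Matrix (n t) (n t) κ),
      ((k t)⁻¹ * x * k t).BlockTriangular fun i => v ⟨t, i⟩ := by
    intro t x
    have hx : x ∈ Algebra.adjoin κ ((fun h => h t) '' H) := by
      rw [hirr t]
      exact Algebra.mem_top
    induction hx using Algebra.adjoin_induction with
    | mem x hx =>
      obtain ⟨h, hh, rfl⟩ := hx
      obtain ⟨hu, c, hc⟩ := hH h hh
      exact Kempf_tri hv hk hF hmin hu hc t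
    | algebraMap r =>
      rw [Algebra.algebraMap_eq_smul_one, Matrix.mul_smul, Matrix.mul_one, Matrix.smul_mul,
        Matrix.nonsing_inv_mul _ (hkd t)]
      intro i j hlt
      have hij : i ≠ j := by
        rintro rfl
        exact lt_irrefl _ hlt
      simp [Matrix.one_apply_ne hij]
    | add x y _ _ hx hy =>
      rw [Matrix.mul_add, Matrix.add_mul]
      exact hx.add hy
    | mul x y _ _ hx hy =>
      have e : (k t)⁻¹ * (x * y) * k t = ((k t)⁻¹ * x * k t) * ((k t)⁻¹ * y * k t) := by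
        simp only [Matrix.mul_assoc]
        rw [← Matrix.mul_assoc (k t) (k t)⁻¹, Matrix.mul_nonsing_inv _ (hkd t), Matrix.one_mul]
      rw [e]
      exact hx.mul hy
  have hle : ∀ t i j, v ⟨t, i⟩ ≤ v ⟨t, j⟩ := by
    intro t i j
    have h1 := hall t (k t * Matrix.single i j 1 * (k t)⁻¹)
    have e : (k t)⁻¹ * (k t * Matrix.single i j 1 * (k t)⁻¹) * k t = Matrix.single i j (1 : κ) := by
      simp only [Matrix.mul_assoc]
      rw [Matrix.nonsing_inv_mul _ (hkd t), Matrix.mul_one, ← Matrix.mul_assoc,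
        Matrix.nonsing_inv_mul _ (hkd t), Matrix.one_mul]
    rw [e] at h1
    by_contra hlt
    have := h1 (not_le.1 hlt)
    simp at this
  have hz : ∀ d, v d = 0 := by
    rintro ⟨t, i⟩
    have h1 : ∑ j, v ⟨t, j⟩ = ∑ _j : n t, v ⟨t, i⟩ :=
      Finset.sum_congr rfl fun j _ => le_antisymm (hle t j i) (hle t i j)
    rw [hv t, Finset.sum_const, Finset.card_univ, nsmul_eq_mul] at h1
    have h2 : (Fintype.card (n t) : ℝ) ≠ 0 := by
      have : Nonempty (n t) := ⟨i⟩
      exact_mod_cast Fintype.card_ne_zero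
    exact (mul_eq_zero.1 h1.symm).resolve_left h2
  refine ha (tact_eq_zero (isUnit_blockDiagonal' hk) (funext fun I => ?_))
  by_contra hI
  have := hF I hI
  simp only [hz, Finset.sum_const_zero] at this
  norm_num at this

end Pool.Agent.MP_0c8446_ag

end

section

namespace Pool.Agent.MP_0c8446_ag

theorem Gordan_lex {Γ I : Type*} [AddCommGroup Γ] [LinearOrder I] (c : I → Γ →+ ℝ)
    (s : Finset Γ) (hs : ∀ x ∈ s, ∃ i, (∀ j < i, c j x = 0) ∧ 0 < c i x) :
    ∃ ψ : Γ →+ ℝ, ∀ x ∈ s, 0 < ψ x := by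
  classical
  induction s using Finset.strongInduction with
  | H s ih =>
    rcases s.eq_empty_or_nonempty with rfl | hne
    · exact ⟨0, by simp⟩
    choose idx h0 hpos using hs
    obtain ⟨x₀, -, hmin⟩ := s.attach.exists_min_image (fun x => idx x.1 x.2)
      (Finset.attach_nonempty_iff.2 hne)
    set o := idx x₀.1 x₀.2 with ho
    have hnn : ∀ x ∈ s, 0 ≤ c o x := fun x hx => by
      rcases (hmin ⟨x, hx⟩ (Finset.mem_attach _ _)).eq_or_lt with h | h
      · rw [h]; exact (hpos x hx).le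
      · exact (h0 x hx _ h).ge
    obtain ⟨ψ, hψ⟩ := ih (s.filter fun x => c o x = 0)
      (Finset.filter_ssubset.2 ⟨x₀.1, x₀.2, (hpos _ x₀.2).ne'⟩)
      (fun x hx => ⟨_, h0 x (Finset.mem_filter.1 hx).1, hpos x (Finset.mem_filter.1 hx).1⟩)
    set N : ℝ := 1 + ∑ x ∈ s, |ψ x| / c o x with hN
    refine ⟨ψ + N • c o, fun x hx => ?_⟩
    show 0 < ψ x + N * c o x
    rcases (hnn x hx).eq_or_lt with h | h
    · rw [← h, mul_zero, add_zero]
      exact hψ x (Finset.mem_filter.2 ⟨hx, h.symm⟩)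
    · have h1 : |ψ x| / c o x ≤ ∑ x ∈ s, |ψ x| / c o x :=
        Finset.single_le_sum (f := fun x => |ψ x| / c o x)
          (fun y hy => div_nonneg (abs_nonneg _) (hnn y hy)) hx
      rw [div_le_iff₀ h] at h1
      have h2 := neg_abs_le (ψ x)
      rw [hN, add_mul]
      linarith

/-- Finitely many positive elements of a linearly ordered group stay positive under a suitable
homomorphism to the reals. -/
theorem exists_hom_pos {Γ : Type*} [AddCommGroup Γ] [LinearOrder Γ] [IsOrderedAddMonoid Γ]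
    (s : Finset Γ) (hs : ∀ x ∈ s, 0 < x) : ∃ ψ : Γ →+ ℝ, ∀ x ∈ s, 0 < ψ x := by
  obtain ⟨f, hf, -⟩ := hahnEmbedding_isOrderedAddMonoid Γ
  refine Gordan_lex (I := FiniteArchimedeanClass Γ)
    (fun i => AddMonoidHom.mk' (fun x => (ofLex (f x)).coeff i) fun x y => by simp) s
    fun x hx => ?_
  have h1 : (0 : Lex (HahnSeries (FiniteArchimedeanClass Γ) ℝ)) < f x := by
    rw [← map_zero f]
    exact (f.monotone'.strictMono_of_injective hf) (hs x hx)
  obtain ⟨i, h2, h3⟩ := (HahnSeries.lt_iff _ _).1 h1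
  exact ⟨i, fun j hj => by simpa using (h2 j hj).symm, by simpa using h3⟩

/-- A real logarithm that respects finitely many strict inequalities between values. -/
theorem exists_log {Ω : Type*} [Field Ω] (O : ValuationSubring Ω) (s : Finset (Ω × Ω))
    (hs : ∀ x ∈ s, x.1 ≠ 0 ∧ O.valuation x.1 < O.valuation x.2) :
    ∃ ψ : Ω → ℝ, (∀ a b, a ≠ 0 → b ≠ 0 → ψ (a * b) = ψ a + ψ b) ∧
      (∀ a, O.valuation a = 1 → ψ a = 0) ∧ ∀ x ∈ s, ψ x.2 < ψ x.1 := by
  classical
  let u : Ω → Additive O.ValueGroupˣ := fun a =>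
    if h : a = 0 then 0 else Additive.ofMul (Units.mk0 (O.valuation a) (by simpa using h))
  have hu : ∀ a b, a ≠ 0 → b ≠ 0 → u (a * b) = u a + u b := fun a b ha hb => by
    simp only [u, dif_neg ha, dif_neg hb, dif_neg (mul_ne_zero ha hb), ← ofMul_mul]
    congr 1
    ext
    simp
  obtain ⟨φ, hφ⟩ := exists_hom_pos (s.image fun x => u x.2 - u x.1) (by
    intro y hy
    obtain ⟨x, hx, rfl⟩ := Finset.mem_image.1 hy
    obtain ⟨h1, h2⟩ := hs x hx
    have h3 : x.2 ≠ 0 := by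
      rintro h
      simp [h] at h2
    rw [sub_pos]
    simp only [u, dif_neg h1, dif_neg h3]
    rw [Additive.ofMul_lt, ← Units.val_lt_val]
    exact h2)
  refine ⟨fun a => -φ (u a), fun a b ha hb => ?_, fun a ha => ?_, fun x hx => ?_⟩
  · simp only [hu a b ha hb, map_add, neg_add]
  · have h0 : a ≠ 0 := by
      rintro rfl
      simp at ha
    have : u a = 0 := by
      simp only [u, dif_neg h0]
      rw [← ofMul_one]
      congr 1
      ext
      simpa using ha
    simp [this]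
  · have := hφ _ (Finset.mem_image_of_mem _ hx)
    rw [map_sub] at this
    show -φ (u x.2) < -φ (u x.1)
    linarith

end Pool.Agent.MP_0c8446_ag

end

section

namespace Pool.Agent.MP_0c8446_ag

open Matrix

section

variable {Ω : Type*} [Field Ω] (O : ValuationSubring Ω) {n : Type} [Fintype n] [DecidableEq n]

/-- Equivalence of matrices under integral row and column operations. -/
def Smith_rel (g g' : Matrix n n Ω) : Prop :=
  ∃ a b : Matrix n n O, IsUnit a ∧ IsUnit b ∧ g = a.map O.subtype * g' * b.map O.subtype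

variable {O}

theorem Smith_refl (g : Matrix n n Ω) : Smith_rel O g g :=
  ⟨1, 1, isUnit_one, isUnit_one, by simp⟩

theorem Smith_trans {g g' g'' : Matrix n n Ω} (h : Smith_rel O g g') (h' : Smith_rel O g' g'') :
    Smith_rel O g g'' := by
  obtain ⟨a, b, ha, hb, rfl⟩ := h
  obtain ⟨a', b', ha', hb', rfl⟩ := h'
  exact ⟨a * a', b' * b, ha.mul ha', hb'.mul hb, by simp only [Matrix.map_mul, Matrix.mul_assoc]⟩

theorem Smith_transpose {g g' : Matrix n n Ω} (h : Smith_rel O g g') : Smith_rel O gᵀ g'ᵀ := by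
  obtain ⟨a, b, ha, hb, rfl⟩ := h
  exact ⟨bᵀ, aᵀ, (isUnit_transpose _).2 hb, (isUnit_transpose _).2 ha, by
    simp only [transpose_mul, Matrix.mul_assoc, transpose_map]⟩

theorem Smith_perm_row (g : Matrix n n Ω) (σ : Equiv.Perm n) :
    Smith_rel O g (g.submatrix σ id) := by
  refine ⟨σ.symm.toPEquiv.toMatrix, 1, ?_, isUnit_one, ?_⟩
  · refine IsUnit.of_mul_eq_one σ.toPEquiv.toMatrix ?_
    rw [PEquiv.toMatrix_toPEquiv_mul]
    ext i j
    simp [PEquiv.toMatrix_apply, Matrix.one_apply]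
  · have : (σ.symm.toPEquiv.toMatrix : Matrix n n O).map O.subtype = σ.symm.toPEquiv.toMatrix := by
      ext i j
      simp only [PEquiv.toMatrix_apply, Matrix.map_apply]
      split_ifs <;> simp
    rw [this, PEquiv.toMatrix_toPEquiv_mul]
    ext i j
    simp

theorem Smith_perm (g : Matrix n n Ω) (σ τ : Equiv.Perm n) :
    Smith_rel O g (g.submatrix σ τ) :=
  Smith_trans (Smith_perm_row g σ) (Smith_transpose (Smith_perm_row (g.submatrix σ id)ᵀ τ))

theorem Smith_col (g : Matrix n n Ω) (k : n) (c : n → O) (hc : c k = 0) :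
    Smith_rel O g (Matrix.of fun i j => g i j - c i * g k j) := by
  refine ⟨1 + vecMulVec c (Pi.single k 1), 1, ?_, isUnit_one, ?_⟩
  · refine IsUnit.of_mul_eq_one (1 - vecMulVec c (Pi.single k 1)) ?_
    have : vecMulVec c (Pi.single k (1 : O)) * vecMulVec c (Pi.single k (1 : O)) = 0 := by
      rw [vecMulVec_mul_vecMulVec]
      simp [hc]
    rw [add_mul, mul_sub, mul_sub, this]
    simp
  · have : (1 + vecMulVec c (Pi.single k (1 : O))).map O.subtype =
        1 + vecMulVec (fun i => (c i : Ω)) (Pi.single k 1) := by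
      ext i j
      simp only [Matrix.map_apply, Matrix.add_apply, Matrix.one_apply, vecMulVec_apply,
        Pi.single_apply]
      split_ifs <;> simp
    rw [this, Matrix.map_one _ (map_zero _) (map_one _), Matrix.mul_one, add_mul, one_mul,
      vecMulVec_mul]
    ext i j
    simp [vecMulVec_apply, hc]

theorem Smith_row (g : Matrix n n Ω) (k : n) (c : n → O) (hc : c k = 0) :
    Smith_rel O g (Matrix.of fun i j => g i j - c j * g i k) :=
  Smith_transpose (Smith_col gᵀ k c hc)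

omit [Fintype n] in
theorem Smith_coef (v : n → Ω) (k : n) (h : ∀ i, O.valuation (v i) ≤ O.valuation (v k)) :
    ∃ c : n → O, c k = 0 ∧ (∀ i, i ≠ k → v i = c i * v k) ∧ ∀ i, v i = 0 → c i = 0 := by
  have hm : ∀ i, v i / v k ∈ O := fun i => by
    rw [← O.valuation_le_one_iff, map_div₀]
    exact div_le_one_of_le₀ (h i) zero_le
  refine ⟨fun i => if i = k then 0 else ⟨v i / v k, hm i⟩, by simp, fun i hi => ?_, fun i hi => ?_⟩
  · simp only [if_neg hi]
    by_cases h0 : v k = 0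
    · have := h i
      rw [h0, map_zero, le_zero_iff, map_eq_zero] at this
      rw [this, h0, mul_zero]
    · exact (div_mul_cancel₀ _ h0).symm
  · by_cases hk : i = k
    · simp [hk]
    · simp only [if_neg hk]
      ext
      simp [hi]

theorem Smith_step (s : Finset n) (k : n) (hk : k ∉ s) (g : Matrix n n Ω)
    (hg : ∀ i j, i ≠ j → i ∈ s ∨ j ∈ s → g i j = 0)
    (hm : ∀ i ∉ s, ∀ j ∉ s, O.valuation (g i j) ≤ O.valuation (g k k)) :
    ∃ g', Smith_rel O g g' ∧ ∀ i j, i ≠ j → i ∈ insert k s ∨ j ∈ insert k s → g' i j = 0 := by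
  have hne : ∀ i ∈ s, i ≠ k := fun i hi e => hk (e ▸ hi)
  obtain ⟨c, hc0, hc, hc'⟩ := Smith_coef (O := O) (fun i => g i k) k fun i => by
    by_cases hi : i ∈ s
    · simp [hg i k (hne i hi) (Or.inl hi)]
    · exact hm i hi k hk
  obtain ⟨d, hd0, hd, hd'⟩ := Smith_coef (O := O) (fun j => g k j) k fun j => by
    by_cases hj : j ∈ s
    · simp [hg k j (hne j hj).symm (Or.inr hj)]
    · exact hm k hk j hj
  refine ⟨_, Smith_trans (Smith_col g k c hc0) (Smith_row _ k d hd0), fun i j hij h => ?_⟩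
  simp only [Matrix.of_apply]
  by_cases hi : i = k
  · subst hi
    rw [hc0, hd j hij.symm]
    simp
  rw [← hc i hi, sub_self, mul_zero, sub_zero]
  by_cases hj : j = k
  · subst hj
    rw [← hc i hi, sub_self]
  simp only [Finset.mem_insert, hi, hj, false_or] at h
  rw [hg i j hij h]
  rcases h with h | h
  · rw [hc' i (hg i k hi (Or.inl h))]
    simp
  · rw [hg k j (Ne.symm hj) (Or.inr h)]
    simp

theorem Smith_ind (g : Matrix n n Ω) (s : Finset n) :
    ∃ g', Smith_rel O g g' ∧ ∀ i j, i ≠ j → i ∈ s ∨ j ∈ s → g' i j = 0 := by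
  induction s using Finset.induction_on with
  | empty => exact ⟨g, Smith_refl g, by simp⟩
  | insert k s hk ih =>
    obtain ⟨g', h1, hg⟩ := ih
    obtain ⟨⟨p, q⟩, hpq, hmax⟩ := Finset.exists_max_image (sᶜ ×ˢ sᶜ)
      (fun x => O.valuation (g' x.1 x.2)) ⟨(k, k), by simp [hk]⟩
    simp only [Finset.mem_product, Finset.mem_compl] at hpq
    have hsw : ∀ p ∉ s, ∀ i, Equiv.swap k p i ∈ s ↔ i ∈ s := by
      intro p hp i
      rw [Equiv.swap_apply_def]
      split_ifs with h h'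
      · simp [h, hp, hk]
      · simp [h', hp, hk]
      · rfl
    have hsw' : ∀ p ∉ s, ∀ i ∈ s, Equiv.swap k p i = i := fun p hp i hi =>
      Equiv.swap_apply_of_ne_of_ne (fun e => hk (e ▸ hi)) fun e => hp (e ▸ hi)
    obtain ⟨g'', h2, hg'⟩ := Smith_step (O := O) s k hk
      (g'.submatrix (Equiv.swap k p) (Equiv.swap k q)) (fun i j hij h => by
        simp only [submatrix_apply]
        refine hg _ _ (fun e => ?_) (by rwa [hsw p hpq.1, hsw q hpq.2])
        rcases h with h | h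
        · have h' : j ∈ s := by rw [← hsw q hpq.2, ← e, hsw p hpq.1]; exact h
          rw [hsw' p hpq.1 i h, hsw' q hpq.2 j h'] at e
          exact hij e
        · have h' : i ∈ s := by rw [← hsw p hpq.1, e, hsw q hpq.2]; exact h
          rw [hsw' p hpq.1 i h', hsw' q hpq.2 j h] at e
          exact hij e)
      (fun i hi j hj => by
        simp only [submatrix_apply, Equiv.swap_apply_left]
        exact hmax (_, _) (by simp [hsw p hpq.1, hsw q hpq.2, hi, hj]))
    exact ⟨g'', Smith_trans h1 (Smith_trans (Smith_perm g' _ _) h2), hg'⟩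

end

/-- Smith normal form (Cartan decomposition) over a valuation ring. -/
theorem exists_smith {Ω : Type*} [Field Ω] (O : ValuationSubring Ω) {n : Type} [Fintype n]
    [DecidableEq n] (g : Matrix n n Ω) :
    ∃ (a b : Matrix n n O) (π : n → Ω), IsUnit a ∧ IsUnit b ∧
      g = a.map O.subtype * diagonal π * b.map O.subtype := by
  obtain ⟨g', ⟨a, b, ha, hb, h⟩, hg⟩ := Smith_ind (O := O) g Finset.univ
  refine ⟨a, b, fun i => g' i i, ha, hb, ?_⟩
  have : diagonal (fun i => g' i i) = g' := by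
    ext i j
    by_cases hij : i = j
    · subst hij
      simp
    · rw [diagonal_apply_ne _ hij, hg i j hij (Or.inl (Finset.mem_univ i))]
  rw [this, h]

end Pool.Agent.MP_0c8446_ag

end

section

namespace Pool.Agent.MP_0c8446_ag

open MvPolynomial Matrix

universe v

variable {L : Type v} [Field L] {T : Type} [Fintype T] [DecidableEq T] {n : T → Type}
  [∀ t, Fintype (n t)] [∀ t, DecidableEq (n t)] {ι : Type} [Fintype ι] [DecidableEq ι]

theorem HM_small {Ω : Type*} [Field Ω] (O : ValuationSubring Ω) {D : Type} [Fintype D]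
    (M : Matrix D D O) (y : (ι → D) → Ω) {e : ℕ} {c : O.ValueGroup}
    (hy : ∀ J, O.valuation (y J ^ e) < c) (I : ι → D) :
    O.valuation (tact (M.map O.subtype) y I ^ e) < c := by
  classical
  obtain ⟨J0, -, hJ0⟩ := Finset.exists_max_image Finset.univ (fun J => O.valuation (y J))
    ⟨I, Finset.mem_univ _⟩
  have h : O.valuation (tact (M.map O.subtype) y I) ≤ O.valuation (y J0) := by
    refine Valuation.map_sum_le _ fun J _ => ?_
    rw [map_mul]
    refine le_trans ?_ (hJ0 J (Finset.mem_univ _))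
    refine mul_le_of_le_one_right' ?_
    have : ∏ j, (M.map O.subtype) (J j) (I j) = ((∏ j, M (J j) (I j) : O) : Ω) :=
      (map_prod O.subtype (fun j => M (J j) (I j)) Finset.univ).symm
    rw [this]
    exact O.valuation_le_one _
  refine lt_of_le_of_lt ?_ (hy J0)
  rw [map_pow, map_pow]
  exact pow_le_pow_left' h e

theorem HM_det {Ω : Type*} [Field Ω] (O : ValuationSubring Ω) {D : Type} [Fintype D]
    [DecidableEq D] {M : Matrix D D O} (hM : IsUnit M) :
    O.valuation (M.map O.subtype).det = 1 := by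
  have h : (M.map O.subtype).det = ((M.det : O) : Ω) := (RingHom.map_det O.subtype M).symm
  rw [h]
  exact (O.valuation_eq_one_iff _).1 ((Matrix.isUnit_iff_isUnit_det M).1 hM)

theorem HM_log_prod {Ω : Type*} [Field Ω] {ψ : Ω → ℝ}
    (hψ : ∀ a b, a ≠ 0 → b ≠ 0 → ψ (a * b) = ψ a + ψ b) (h1 : ψ 1 = 0) {α : Type*}
    (S : Finset α) (f : α → Ω) (hf : ∀ i, f i ≠ 0) : ψ (∏ i ∈ S, f i) = ∑ i ∈ S, ψ (f i) := by
  classical
  induction S using Finset.induction_on with
  | empty => simpa using h1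
  | insert i S hi ih =>
    rw [Finset.prod_insert hi, Finset.sum_insert hi,
      hψ _ _ (hf i) (Finset.prod_ne_zero_iff.2 fun j _ => hf j), ih]

theorem HM_log_pow {Ω : Type*} [Field Ω] {ψ : Ω → ℝ}
    (hψ : ∀ a b, a ≠ 0 → b ≠ 0 → ψ (a * b) = ψ a + ψ b) (h1 : ψ 1 = 0) {a : Ω} (ha : a ≠ 0)
    (k : ℕ) : ψ (a ^ k) = k * ψ a := by
  induction k with
  | zero => simpa using h1
  | succ k ih =>
    rw [pow_succ, hψ _ _ (pow_ne_zero _ ha) ha, ih]
    push_cast
    ring

theorem HM_adj {κ : Type v} [Field κ] [Algebra L κ] {D : Type} [Fintype D] [DecidableEq D]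
    (H : Set (Matrix D D L)) (hH : Algebra.adjoin L H = ⊤) (H' : Set (Matrix D D κ))
    (hH' : ∀ h ∈ H, h.map (algebraMap L κ) ∈ H') : Algebra.adjoin κ H' = ⊤ := by
  have key : ∀ M : Matrix D D L, M.map (algebraMap L κ) ∈ Algebra.adjoin κ H' := by
    intro M
    have hM : M ∈ Algebra.adjoin L H := by rw [hH]; trivial
    induction hM using Algebra.adjoin_induction with
    | mem x hx => exact Algebra.subset_adjoin (hH' x hx)
    | algebraMap r =>
      have : (algebraMap L (Matrix D D L) r).map (algebraMap L κ) =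
          algebraMap κ (Matrix D D κ) (algebraMap L κ r) := by
        ext i j
        by_cases h : i = j <;> simp [Matrix.algebraMap_matrix_apply, h]
      rw [this]
      exact Subalgebra.algebraMap_mem _ _
    | add x y _ _ hx hy =>
      rw [Matrix.map_add _ (map_add (algebraMap L κ))]
      exact add_mem hx hy
    | mul x y _ _ hx hy =>
      rw [Matrix.map_mul]
      exact mul_mem hx hy
  rw [eq_top_iff]
  intro N _
  rw [matrix_eq_sum_single N]
  refine sum_mem fun i _ => sum_mem fun j _ => ?_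
  have : single i j (N i j) = N i j • (single i j (1 : L)).map (algebraMap L κ) := by
    ext i' j'
    by_cases h : i = i' ∧ j = j' <;> simp [Matrix.single_apply, h]
  rw [this]
  exact Subalgebra.smul_mem _ (key _) _

/-- A valuation for which the translate of `a` is small gives a destabilising pair over the
residue field. -/
theorem hm_val {a : (ι → Σ t, n t) → L} {τ : ι → T} (hτ : Cont τ a) {e : ℕ} (he : 0 < e)
    {s : T → ℕ}
    (hs : ∀ t, s t * Fintype.card (n t) = e * (Finset.univ.filter fun j => τ j = t).card)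
    {Ω : Type v} [Field Ω] [Algebra L Ω] (O : ValuationSubring Ω) (hO : ∀ c, algebraMap L Ω c ∈ O)
    (g : ∀ t, Matrix (n t) (n t) Ω) (hg : ∀ t, IsUnit (g t))
    (hv : ∀ I, O.valuation (tact (blockDiagonal' g) (fun J => algebraMap L Ω (a J)) I ^ e) <
      O.valuation (∏ t, (g t).det ^ s t)) :
    ∃ (κ : Type v) (_ : Field κ) (_ : Algebra L κ) (g' : ∀ t, Matrix (n t) (n t) κ)
      (w : (Σ t, n t) → ℝ), (∀ t, IsUnit (g' t)) ∧ (∀ t, ∑ i, w ⟨t, i⟩ = 0) ∧
      ∀ I, tact (blockDiagonal' g') (fun J => algebraMap L κ (a J)) I ≠ 0 → 0 < ∑ j, w (I j) := by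
  classical
  choose A B π hA hB hdec using fun t => exists_smith O (g t)
  have hdet : ∀ t, (g t).det =
      ((A t).map O.subtype).det * (∏ i, π t i) * ((B t).map O.subtype).det := by
    intro t
    conv_lhs => rw [hdec t]
    rw [det_mul, det_mul, det_diagonal]
  have hπ : ∀ t i, π t i ≠ 0 := by
    intro t i h0
    have h := ((Matrix.isUnit_iff_isUnit_det _).1 (hg t)).ne_zero
    rw [hdet t, Finset.prod_eq_zero (Finset.mem_univ i) h0, mul_zero, zero_mul] at h
    exact h rfl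
  have hΔ : O.valuation (∏ t, (g t).det ^ s t) = O.valuation (∏ t, (∏ i, π t i) ^ s t) := by
    rw [map_prod, map_prod]
    refine Finset.prod_congr rfl fun t _ => ?_
    rw [map_pow, map_pow, hdet t, map_mul, map_mul, HM_det O (hA t), HM_det O (hB t), one_mul,
      mul_one]
  choose B' hB' using fun t => (hB t).exists_right_inv
  let φ : L →+* O := (algebraMap L Ω).codRestrict O hO
  let x : (ι → Σ t, n t) → O := tact (blockDiagonal' A) fun J => φ (a J)
  have hx : ∀ I, (x I : Ω) =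
      tact ((blockDiagonal' A).map O.subtype) (fun J => algebraMap L Ω (a J)) I :=
    fun I => tact_map O.subtype _ _ I
  have hmat : blockDiagonal' g * (blockDiagonal' B').map O.subtype =
      (blockDiagonal' A).map O.subtype * diagonal fun ik : Σ t, n t => π ik.1 ik.2 := by
    rw [blockDiagonal'_map _ _ (map_zero _), blockDiagonal'_map _ _ (map_zero _),
      ← blockDiagonal'_diagonal, ← blockDiagonal'_mul, ← blockDiagonal'_mul]
    congr 1
    funext t
    conv_lhs => rw [hdec t]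
    rw [Matrix.mul_assoc, ← Matrix.map_mul, hB' t, Matrix.map_one _ (map_zero _) (map_one _),
      Matrix.mul_one]
  have hsm : ∀ I : ι → Σ t, n t, O.valuation (((x I : Ω) * ∏ j, π (I j).1 (I j).2) ^ e) <
      O.valuation (∏ t, (∏ i, π t i) ^ s t) := by
    intro I
    have h := HM_small O (blockDiagonal' B') _ hv I
    rw [← tact_mul, hmat, tact_mul, tact_diagonal, ← hx, hΔ] at h
    exact h
  obtain ⟨ψ, hψ, hψ1, hlt⟩ := exists_log O
    ((Finset.univ.filter fun I : ι → Σ t, n t => O.valuation (x I : Ω) = 1).image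
      fun I : ι → Σ t, n t => ((∏ j, π (I j).1 (I j).2) ^ e, ∏ t, (∏ i, π t i) ^ s t)) (by
    intro z hz
    obtain ⟨I, hI, rfl⟩ := Finset.mem_image.1 hz
    refine ⟨pow_ne_zero _ (Finset.prod_ne_zero_iff.2 fun j _ => hπ _ _), ?_⟩
    have h := hsm I
    rw [mul_pow, map_mul, map_pow, (Finset.mem_filter.1 hI).2, one_pow, one_mul] at h
    exact h)
  have h1 : ψ 1 = 0 := hψ1 1 (map_one _)
  let _ : Algebra L (IsLocalRing.ResidueField O) := ((IsLocalRing.residue O).comp φ).toAlgebra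
  refine ⟨IsLocalRing.ResidueField O, inferInstance, inferInstance,
    fun t => (A t).map (IsLocalRing.residue O),
    fun ik => e * ψ (π ik.1 ik.2) - e / Fintype.card (n ik.1) * ∑ i, ψ (π ik.1 i),
    fun t => (hA t).map (RingHom.mapMatrix (IsLocalRing.residue O)), fun t => ?_, fun I hI => ?_⟩
  · show ∑ i : n t, ((e : ℝ) * ψ (π t i) - e / Fintype.card (n t) * ∑ i, ψ (π t i)) = 0
    rw [Finset.sum_sub_distrib, ← Finset.mul_sum, Finset.sum_const, Finset.card_univ,
      nsmul_eq_mul]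
    rcases Nat.eq_zero_or_pos (Fintype.card (n t)) with h0 | h0
    · have := Fintype.card_eq_zero_iff.1 h0
      simp
    · have : (Fintype.card (n t) : ℝ) ≠ 0 := by exact_mod_cast h0.ne'
      field_simp
      ring
  · have hr : IsLocalRing.residue O (x I) ≠ 0 := by
      intro h0
      apply hI
      rw [← h0, ← blockDiagonal'_map _ _ (map_zero _)]
      exact (tact_map (IsLocalRing.residue O) _ _ I).symm
    have hu : IsUnit (x I) := by
      by_contra hu
      exact hr ((IsLocalRing.residue_eq_zero_iff _).2 ((IsLocalRing.mem_maximalIdeal _).2 hu))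
    have hc : Cont τ fun J => φ (a J) := fun J hJ => hτ J fun h0 => hJ (by simp [h0])
    have hI' : ∀ j, (I j).1 = τ j := (hc.tact A) I hu.ne_zero
    have h := hlt _ (Finset.mem_image.2 ⟨I, Finset.mem_filter.2
      ⟨Finset.mem_univ _, (O.valuation_eq_one_iff _).1 hu⟩, rfl⟩)
    have hP : ∀ t, (∏ i, π t i) ≠ 0 := fun t => Finset.prod_ne_zero_iff.2 fun j _ => hπ _ _
    dsimp only at h
    rw [HM_log_prod hψ h1 _ _ (fun t => pow_ne_zero _ (hP t)),
      HM_log_pow hψ h1 (Finset.prod_ne_zero_iff.2 fun j _ => hπ _ _),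
      HM_log_prod hψ h1 _ _ (fun j => hπ _ _)] at h
    have e1 : ∑ t, ψ ((∏ i, π t i) ^ s t) =
        ∑ j, (e : ℝ) / Fintype.card (n (I j).1) * ∑ i, ψ (π (I j).1 i) := by
      have e2 : ∀ j, (e : ℝ) / Fintype.card (n (I j).1) * ∑ i, ψ (π (I j).1 i) =
          (fun t => (e : ℝ) / Fintype.card (n t) * ∑ i, ψ (π t i)) (τ j) := by
        intro j
        rw [← hI' j]
      rw [Finset.sum_congr rfl fun j _ => e2 j, ← Finset.sum_fiberwise' Finset.univ τ
        fun t => (e : ℝ) / Fintype.card (n t) * ∑ i, ψ (π t i)]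
      refine Finset.sum_congr rfl fun t _ => ?_
      rw [HM_log_pow hψ h1 (hP t), HM_log_prod hψ h1 _ _ (hπ t), Finset.sum_const, nsmul_eq_mul]
      rcases Nat.eq_zero_or_pos (Fintype.card (n t)) with h0 | h0
      · have := Fintype.card_eq_zero_iff.1 h0
        simp
      · have h2 : (Fintype.card (n t) : ℝ) ≠ 0 := by exact_mod_cast h0.ne'
        have h3 : (s t : ℝ) * Fintype.card (n t) =
            e * ((Finset.univ.filter fun j => τ j = t).card : ℝ) := by exact_mod_cast hs t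
        have h4 : (s t : ℝ) = ((Finset.univ.filter fun j => τ j = t).card : ℝ) *
            (e / Fintype.card (n t)) := by
          field_simp
          linarith
        rw [h4, mul_assoc]
    rw [Finset.sum_sub_distrib, ← Finset.mul_sum, ← e1]
    linarith

/-- Hilbert-Mumford: semistability as a polynomial identity. -/
theorem hm {a : (ι → Σ t, n t) → L} (ha : a ≠ 0) {τ : ι → T} (hτ : Cont τ a)
    (H : Set (∀ t, Matrix (n t) (n t) L))
    (hH : ∀ h ∈ H, (∀ t, IsUnit (h t)) ∧ ∃ c : L, tact (blockDiagonal' h) a = c • a)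
    (hirr : ∀ t, Algebra.adjoin L ((fun h => h t) '' H) = ⊤) {e : ℕ} (he : 0 < e) {s : T → ℕ}
    (hs : ∀ t, s t * Fintype.card (n t) = e * (Finset.univ.filter fun j => τ j = t).card)
    (𝒥 : ℕ → Submodule L (PR L n)) (h1 : ∀ I, gen a I ^ e ∈ 𝒥 1)
    (h2 : ∀ I S, ∀ x ∈ 𝒥 S, gen a I ^ e * x ∈ 𝒥 (S + 1))
    (h3 : ∀ S, ∀ x ∈ 𝒥 S, DlGi L n s * x ∈ 𝒥 (S + 1)) : ∃ S, DlGi L n s ^ S ∈ 𝒥 S := by
  classical
  by_contra hcon
  let Ω := FractionRing (PR L n)
  let f : PR L n →+* Ω := algebraMap (PR L n) Ω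
  have hf : Function.Injective f := IsFractionRing.injective (PR L n) Ω
  have hfC : ∀ c : L, f (C c) = algebraMap L Ω c := fun c =>
    (IsScalarTower.algebraMap_apply L (PR L n) Ω c).symm
  have hΔ : f (DlGi L n s) ≠ 0 := (map_ne_zero_iff f hf).2 (Dl_ne_zero s)
  have h3' : ∀ k S, ∀ x ∈ 𝒥 S, DlGi L n s ^ k * x ∈ 𝒥 (S + k) := by
    intro k
    induction k with
    | zero => intro S x hx; simpa using hx
    | succ k ih =>
      intro S x hx
      have := h3 _ _ (ih S x hx)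
      rw [← mul_assoc, ← pow_succ'] at this
      exact this
  let P : Ω → Prop := fun z => ∃ S, ∃ r ∈ 𝒥 S, z * f (DlGi L n s) ^ S = f r
  have P0 : P 0 := ⟨0, 0, zero_mem _, by simp⟩
  have Padd : ∀ z z', P z → P z' → P (z + z') := by
    rintro z z' ⟨S, r, hr, h⟩ ⟨S', r', hr', h'⟩
    refine ⟨S + S', DlGi L n s ^ S' * r + DlGi L n s ^ S * r', add_mem (h3' _ _ _ hr) ?_, ?_⟩
    · rw [add_comm]
      exact h3' _ _ _ hr'
    · rw [map_add, map_mul, map_mul, map_pow, map_pow, ← h, ← h']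
      ring
  let Y : Set Ω := Set.range fun I => f (gen a I ^ e) / f (DlGi L n s)
  have Pmul : ∀ b ∈ Algebra.adjoin L Y, ∀ z, P z → P (b * z) := by
    intro b hb
    induction hb using Algebra.adjoin_induction with
    | mem y hy =>
      obtain ⟨I, rfl⟩ := hy
      rintro z ⟨S, r, hr, h⟩
      refine ⟨S + 1, gen a I ^ e * r, h2 I S r hr, ?_⟩
      rw [map_mul, ← h, pow_succ]
      show f (gen a I ^ e) / f (DlGi L n s) * z * _ = _
      conv_rhs => rw [← div_mul_cancel₀ (f (gen a I ^ e)) hΔ]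
      ring
    | algebraMap c =>
      rintro z ⟨S, r, hr, h⟩
      refine ⟨S, c • r, Submodule.smul_mem _ c hr, ?_⟩
      rw [smul_eq_C_mul, map_mul, hfC, ← h, mul_assoc]
    | add y y' _ _ hy hy' =>
      intro z hz
      rw [add_mul]
      exact Padd _ _ (hy z hz) (hy' z hz)
    | mul y y' _ _ hy hy' =>
      intro z hz
      rw [mul_assoc]
      exact hy _ (hy' z hz)
  let Q : Ideal (Algebra.adjoin L Y).toSubring :=
    { carrier := {z | P z}
      zero_mem' := P0
      add_mem' := fun {z z'} hz hz' => Padd _ _ hz hz'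
      smul_mem' := fun b z hz => Pmul b b.2 z hz }
  have hQ : Q ≠ ⊤ := by
    intro h
    have h1' : (1 : (Algebra.adjoin L Y).toSubring) ∈ Q := by rw [h]; trivial
    obtain ⟨S, r, hr, h'⟩ : P 1 := h1'
    rw [one_mul, ← map_pow] at h'
    exact hcon ⟨S, by rw [hf h']; exact hr⟩
  obtain ⟨O, hBO, hQO⟩ := Ideal.image_subset_nonunits_valuationSubring Q hQ
  have hdet : ∀ t, ((gm L n t).map f).det = f (gm L n t).det := fun t =>
    (RingHom.map_det f _).symm
  obtain ⟨κ, _, _, g', w, hg', hw, hpos⟩ := hm_val hτ he hs O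
    (fun c => hBO (Subalgebra.algebraMap_mem (Algebra.adjoin L Y) c))
    (fun t => (gm L n t).map f)
    (fun t => by
      rw [Matrix.isUnit_iff_isUnit_det, hdet, isUnit_iff_ne_zero, map_ne_zero_iff f hf]
      have h := Dl_ne_zero (L := L) (n := n) fun _ => 1
      have h' := Finset.prod_ne_zero_iff.1 h t (Finset.mem_univ _)
      rwa [pow_one] at h')
    (fun I => by
      have e1 : tact (blockDiagonal' fun t => (gm L n t).map f) (fun J => algebraMap L Ω (a J)) I =
          f (gen a I) := by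
        rw [gen, tact_map, blockDiagonal'_map _ _ (map_zero _)]
        simp only [hfC]
      have e2 : ∏ t, ((gm L n t).map f).det ^ s t = f (DlGi L n s) := by
        rw [DlGi, map_prod]
        exact Finset.prod_congr rfl fun t _ => by rw [hdet, map_pow]
      rw [e1, e2, ← map_pow]
      have hy : f (gen a I ^ e) / f (DlGi L n s) ∈ O.nonunits :=
        hQO ⟨⟨_, Algebra.subset_adjoin ⟨I, rfl⟩⟩,
          ⟨1, gen a I ^ e, h1 I, by
            show f (gen a I ^ e) / f (DlGi L n s) * f (DlGi L n s) ^ 1 = _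
            rw [pow_one, div_mul_cancel₀ _ hΔ]⟩, rfl⟩
      rw [ValuationSubring.mem_nonunits_iff, map_div₀,
        div_lt_one₀ (zero_lt_iff.2 ((Valuation.ne_zero_iff _).2 hΔ))] at hy
      exact hy)
  refine kempf (a := fun J => algebraMap L κ (a J)) ?_
    ((fun h t => (h t).map (algebraMap L κ)) '' H) ?_ ?_ g' hg' w hw hpos
  · intro h0
    apply ha
    funext J
    exact (map_eq_zero (algebraMap L κ)).1 (congrFun h0 J)
  · rintro _ ⟨h, hh, rfl⟩
    obtain ⟨hu, c, hc⟩ := hH h hh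
    refine ⟨fun t => (hu t).map (RingHom.mapMatrix (algebraMap L κ)), algebraMap L κ c, ?_⟩
    funext I
    rw [← blockDiagonal'_map _ _ (map_zero _), ← tact_map, hc]
    simp
  · intro t
    refine HM_adj _ (hirr t) _ ?_
    rintro _ ⟨h, hh, rfl⟩
    exact ⟨_, ⟨h, hh, rfl⟩, rfl⟩

end Pool.Agent.MP_0c8446_ag

end

section

namespace Pool.Agent.MP_0c8446_ag

open MvPolynomial Matrix

universe v

variable {L : Type v} [Field L] {T : Type} [Fintype T] [DecidableEq T] {n : T → Type}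
  [∀ t, Fintype (n t)] [∀ t, DecidableEq (n t)] {ι : Type} [Fintype ι] [DecidableEq ι]

theorem HMv_small {Ω : Type*} [Field Ω] (O : ValuationSubring Ω) {D : Type} [Fintype D]
    (M : Matrix D D O) (y : (ι → D) → Ω) (I : ι → D) :
    ∃ J, O.valuation (tact (M.map O.subtype) y I) ≤ O.valuation (y J) := by
  classical
  obtain ⟨J0, -, hJ0⟩ := Finset.exists_max_image Finset.univ (fun J => O.valuation (y J))
    ⟨I, Finset.mem_univ _⟩
  refine ⟨J0, Valuation.map_sum_le _ fun J _ => ?_⟩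
  rw [map_mul]
  refine le_trans ?_ (hJ0 J (Finset.mem_univ _))
  refine mul_le_of_le_one_right' ?_
  have : ∏ j, (M.map O.subtype) (J j) (I j) = ((∏ j, M (J j) (I j) : O) : Ω) :=
    (map_prod O.subtype (fun j => M (J j) (I j)) Finset.univ).symm
  rw [this]
  exact O.valuation_le_one _

theorem HMv_log {Ω : Type*} [Field Ω] (O : ValuationSubring Ω) {s : Set (Ω × Ω)}
    (hs : s.Finite) : ∃ ψ : Ω → ℝ, (∀ a b, a ≠ 0 → b ≠ 0 → ψ (a * b) = ψ a + ψ b) ∧ ψ 1 = 0 ∧
      ∀ x y, (x, y) ∈ s → x ≠ 0 → y ≠ 0 → (O.valuation x < O.valuation y → ψ y < ψ x) ∧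
        (O.valuation x ≤ O.valuation y → ψ y ≤ ψ x) := by
  classical
  obtain ⟨ψ, hψ, hψ1, hlt⟩ := exists_log O
    (hs.toFinset.filter fun x => x.1 ≠ 0 ∧ O.valuation x.1 < O.valuation x.2)
    fun x hx => (Finset.mem_filter.1 hx).2
  refine ⟨ψ, hψ, hψ1 1 (map_one _), fun x y hxy hx hy => ?_⟩
  have h1 : O.valuation x < O.valuation y → ψ y < ψ x := fun h =>
    hlt (x, y) (Finset.mem_filter.2 ⟨hs.mem_toFinset.2 hxy, hx, h⟩)
  refine ⟨h1, fun h => ?_⟩
  rcases h.lt_or_eq with h | h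
  · exact (h1 h).le
  · have h2 : ψ (x / y) = 0 := hψ1 _ (by
      rw [map_div₀, h, div_self ((Valuation.ne_zero_iff _).2 hy)])
    have h3 := hψ (x / y) y (div_ne_zero hx hy) hy
    rw [div_mul_cancel₀ _ hy, h2, zero_add] at h3
    exact h3.ge

theorem HMv_scale {α : Type} [Fintype α] (f : α → ℝ) :
    ∃ c : ℝ, 0 ≤ c ∧ ∀ x, 0 < f x → 1 ≤ c * f x := by
  refine ⟨∑ x, |f x|⁻¹, Finset.sum_nonneg fun x _ => by positivity, fun x hx => ?_⟩
  have h : |f x|⁻¹ ≤ ∑ x, |f x|⁻¹ :=
    Finset.single_le_sum (f := fun x => |f x|⁻¹) (fun x _ => by positivity) (Finset.mem_univ x)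
  rw [abs_of_pos hx] at h
  exact (inv_mul_cancel₀ hx.ne').ge.trans (mul_le_mul_of_nonneg_right h hx.le)

/-- A valuation gives a destabilising pair over the residue field. -/
theorem hm2_val (a : (ι → Σ t, n t) → L) (𝓔 : Set (Matrix (Σ t, n t) (Σ t, n t) L))
    (𝒮 : Set (Finset T)) {Ω : Type v} [Field Ω] [Algebra L Ω] (O : ValuationSubring Ω)
    (hO : ∀ c, algebraMap L Ω c ∈ O) (g : ∀ t, Matrix (n t) (n t) Ω) (hg : ∀ t, IsUnit (g t))
    (h1 : ∀ I, O.valuation (tact (blockDiagonal' g) (fun J => algebraMap L Ω (a J)) I ^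
      (2 * Fintype.card (Σ t, n t))) < O.valuation ((∏ t, (g t).det ^ 2) ^ Fintype.card ι))
    (h2 : ∀ E ∈ 𝓔, ∀ I, O.valuation (tact (blockDiagonal' g)
      (fun J => algebraMap L Ω (tmat E J)) I ^ (2 * Fintype.card (Σ t, n t))) ≤
        O.valuation ((∏ t, (g t).det ^ 2) ^ 2))
    (h3 : ∀ A ∈ 𝒮, O.valuation ((∏ t ∈ A, (g t).det) ^ (2 * Fintype.card (Σ t, n t))) ≤
      O.valuation ((∏ t, (g t).det ^ 2) ^ ∑ t ∈ A, Fintype.card (n t))) :
    ∃ (κ : Type v) (_ : Field κ) (_ : Algebra L κ) (g' : ∀ t, Matrix (n t) (n t) κ)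
      (w : (Σ t, n t) → ℝ), Dst (fun I => algebraMap L κ (a I))
        ((fun E => E.map (algebraMap L κ)) '' 𝓔) (blockDiagonal' g') w ∧
          ∀ A ∈ 𝒮, 0 ≤ ∑ t ∈ A, ∑ i, w ⟨t, i⟩ := by
  classical
  choose A B π hA hB hdec using fun t => exists_smith O (g t)
  have hdet : ∀ t, (g t).det =
      ((A t).map O.subtype).det * (∏ i, π t i) * ((B t).map O.subtype).det := by
    intro t
    conv_lhs => rw [hdec t]
    rw [det_mul, det_mul, det_diagonal]
  have hπ : ∀ t i, π t i ≠ 0 := by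
    intro t i h0
    have h := ((Matrix.isUnit_iff_isUnit_det _).1 (hg t)).ne_zero
    rw [hdet t, Finset.prod_eq_zero (Finset.mem_univ i) h0, mul_zero, zero_mul] at h
    exact h rfl
  have hP : ∀ t, (∏ i, π t i) ≠ 0 := fun t => Finset.prod_ne_zero_iff.2 fun j _ => hπ _ _
  have hd : ∀ t, O.valuation (g t).det = O.valuation (∏ i, π t i) := fun t => by
    rw [hdet t, map_mul, map_mul, HM_det O (hA t), HM_det O (hB t), one_mul, mul_one]
  have hΔ : ∀ k : ℕ, O.valuation ((∏ t, (g t).det ^ 2) ^ k) =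
      O.valuation ((∏ t, (∏ i, π t i) ^ 2) ^ k) := fun k => by
    rw [map_pow, map_pow, map_prod, map_prod]
    congr 1
    exact Finset.prod_congr rfl fun t _ => by rw [map_pow, map_pow, hd]
  have hΔ0 : ∀ k : ℕ, (∏ t, (∏ i, π t i) ^ 2) ^ k ≠ 0 := fun k =>
    pow_ne_zero _ (Finset.prod_ne_zero_iff.2 fun t _ => pow_ne_zero _ (hP t))
  choose B' hB' using fun t => (hB t).exists_right_inv
  let φ : L →+* O := (algebraMap L Ω).codRestrict O hO
  have hmat : blockDiagonal' g * (blockDiagonal' B').map O.subtype =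
      (blockDiagonal' A).map O.subtype * diagonal fun ik : Σ t, n t => π ik.1 ik.2 := by
    rw [blockDiagonal'_map _ _ (map_zero _), blockDiagonal'_map _ _ (map_zero _),
      ← blockDiagonal'_diagonal, ← blockDiagonal'_mul, ← blockDiagonal'_mul]
    congr 1
    funext t
    conv_lhs => rw [hdec t]
    rw [Matrix.mul_assoc, ← Matrix.map_mul, hB' t, Matrix.map_one _ (map_zero _) (map_one _),
      Matrix.mul_one]
  let _ : Algebra L (IsLocalRing.ResidueField O) := ((IsLocalRing.residue O).comp φ).toAlgebra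
  have key : ∀ (ι' : Type) [Fintype ι'] [DecidableEq ι'] (u : (ι' → Σ t, n t) → L)
      (I : ι' → Σ t, n t) (e : ℕ), tact (blockDiagonal' fun t => (A t).map (IsLocalRing.residue O))
        (fun J => algebraMap L (IsLocalRing.ResidueField O) (u J)) I ≠ 0 →
      ∃ J, O.valuation ((∏ j, π (I j).1 (I j).2) ^ e) ≤
        O.valuation (tact (blockDiagonal' g) (fun J => algebraMap L Ω (u J)) J ^ e) := by
    intro ι' _ _ u I e hI
    let x : O := tact (blockDiagonal' A) (fun J => φ (u J)) I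
    have hx : (x : Ω) =
        tact ((blockDiagonal' A).map O.subtype) (fun J => algebraMap L Ω (u J)) I :=
      tact_map O.subtype _ _ I
    have hr : IsLocalRing.residue O x ≠ 0 := by
      intro h0
      apply hI
      rw [← h0, ← blockDiagonal'_map _ _ (map_zero _)]
      exact (tact_map (IsLocalRing.residue O) _ _ I).symm
    have hu : IsUnit x := by
      by_contra hu
      exact hr ((IsLocalRing.residue_eq_zero_iff _).2 ((IsLocalRing.mem_maximalIdeal _).2 hu))
    obtain ⟨J, hJ⟩ := HMv_small O (blockDiagonal' B')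
      (tact (blockDiagonal' g) fun J => algebraMap L Ω (u J)) I
    rw [← tact_mul, hmat, tact_mul, tact_diagonal, ← hx, map_mul,
      (O.valuation_eq_one_iff _).1 hu, one_mul] at hJ
    refine ⟨J, ?_⟩
    rw [map_pow, map_pow]
    exact pow_le_pow_left' hJ e
  generalize hdd : Fintype.card (Σ t, n t) = d at h1 h2 h3
  obtain ⟨ψ, hψ, hψ1, hlt⟩ := HMv_log O
    (((Set.finite_range fun I : ι → Σ t, n t => ((∏ j, π (I j).1 (I j).2) ^ (2 * d),
      (∏ t, (∏ i, π t i) ^ 2) ^ Fintype.card ι)).union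
      (Set.finite_range fun I : Bool → Σ t, n t => ((∏ j, π (I j).1 (I j).2) ^ (2 * d),
        (∏ t, (∏ i, π t i) ^ 2) ^ 2))).union
      (Set.finite_range fun S : Finset T => ((∏ t ∈ S, ∏ i, π t i) ^ (2 * d),
        (∏ t, (∏ i, π t i) ^ 2) ^ ∑ t ∈ S, Fintype.card (n t))))
  obtain ⟨Ψ, hΨ⟩ : ∃ Ψ, Ψ = ∑ t, ∑ i, ψ (π t i) := ⟨_, rfl⟩
  have e1 : ∀ k : ℕ, ψ ((∏ t, (∏ i, π t i) ^ 2) ^ k) = k * (2 * Ψ) := fun k => by
    rw [HM_log_pow hψ hψ1 (Finset.prod_ne_zero_iff.2 fun t _ => pow_ne_zero _ (hP t)),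
      HM_log_prod hψ hψ1 _ _ (fun t => pow_ne_zero _ (hP t)), hΨ, Finset.mul_sum _ _ (2 : ℝ)]
    congr 1
    refine Finset.sum_congr rfl fun t _ => ?_
    rw [HM_log_pow hψ hψ1 (hP t), HM_log_prod hψ hψ1 _ _ (hπ t), Nat.cast_ofNat]
  have e0 : ∀ (ι' : Type) [Fintype ι'] (I : ι' → Σ t, n t),
      (∏ j, π (I j).1 (I j).2) ≠ 0 := fun ι' _ I => Finset.prod_ne_zero_iff.2 fun j _ => hπ _ _
  let w0 : (Σ t, n t) → ℝ := fun ik => 2 * d * ψ (π ik.1 ik.2) - 2 * Ψ
  have e2 : ∀ (ι' : Type) [Fintype ι'] (I : ι' → Σ t, n t), ∑ j, w0 (I j) =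
      ψ ((∏ j, π (I j).1 (I j).2) ^ (2 * d)) - Fintype.card ι' * (2 * Ψ) := fun ι' _ I => by
    rw [HM_log_pow hψ hψ1 (e0 ι' I), HM_log_prod hψ hψ1 _ _ (fun j => hπ _ _),
      Finset.sum_sub_distrib, ← Finset.mul_sum, Finset.sum_const, Finset.card_univ, nsmul_eq_mul]
    push_cast
    rfl
  obtain ⟨c, hc0, hc⟩ := HMv_scale fun I : ι → Σ t, n t => ∑ j, w0 (I j)
  refine ⟨IsLocalRing.ResidueField O, inferInstance, inferInstance,
    fun t => (A t).map (IsLocalRing.residue O), fun ik => c * w0 ik,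
    ⟨isUnit_blockDiagonal' fun t => (hA t).map (RingHom.mapMatrix (IsLocalRing.residue O)), ?_,
      fun I hI => ?_, ?_⟩, fun S hS => ?_⟩
  · rw [← Finset.mul_sum, Finset.sum_sub_distrib, ← Finset.mul_sum, Finset.sum_const,
      Finset.card_univ, hdd, nsmul_eq_mul, Fintype.sum_sigma, ← hΨ]
    ring
  · obtain ⟨J, hJ⟩ := key ι a I (2 * d) hI
    have h4 := (hlt _ _ (Or.inl (Or.inl ⟨I, rfl⟩)) (pow_ne_zero _ (e0 ι I)) (hΔ0 _)).1
      (hJ.trans_lt ((h1 J).trans_eq (hΔ _)))
    rw [e1] at h4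
    rw [← Finset.mul_sum]
    exact hc I (by rw [e2]; exact sub_pos.2 h4)
  · rintro _ ⟨E, hE, rfl⟩ i j hij
    obtain ⟨J, hJ⟩ := key Bool (tmat E) (fun b => cond b j i) (2 * d) (by
      have h4 := congrFun (tact_tmat (blockDiagonal' fun t => (A t).map (IsLocalRing.residue O))
        (E.map (algebraMap L (IsLocalRing.ResidueField O)))) fun b => cond b j i
      exact fun h5 => hij (h4.symm.trans h5))
    have h4 := (hlt _ _ (Or.inl (Or.inr ⟨fun b => cond b j i, rfl⟩))
      (pow_ne_zero _ (e0 Bool _)) (hΔ0 _)).2 (hJ.trans ((h2 E hE J).trans_eq (hΔ _)))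
    have h5 := e2 Bool fun b => cond b j i
    rw [e1] at h4
    rw [Fintype.sum_bool, Fintype.card_bool] at h5
    rw [← mul_add, add_comm]
    exact mul_nonneg hc0 (h5.symm ▸ sub_nonneg.2 h4)
  · have h4 : O.valuation ((∏ t ∈ S, ∏ i, π t i) ^ (2 * d)) =
        O.valuation ((∏ t ∈ S, (g t).det) ^ (2 * d)) := by
      rw [map_pow, map_pow, map_prod, map_prod]
      congr 1
      exact Finset.prod_congr rfl fun t _ => (hd t).symm
    have h0 : (∏ t ∈ S, ∏ i, π t i) ≠ 0 := Finset.prod_ne_zero_iff.2 fun t _ => hP t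
    have h5 := (hlt _ _ (Or.inr ⟨S, rfl⟩) (pow_ne_zero _ h0) (hΔ0 _)).2
      (h4.trans_le ((h3 S hS).trans_eq (hΔ _)))
    rw [e1, HM_log_pow hψ hψ1 h0, HM_log_prod hψ hψ1 _ _ hP] at h5
    have h6 : ∑ t ∈ S, ∑ i, c * w0 ⟨t, i⟩ = c * (((2 * d : ℕ) : ℝ) * ∑ t ∈ S, ψ (∏ i, π t i) -
        ((∑ t ∈ S, Fintype.card (n t) : ℕ) : ℝ) * (2 * Ψ)) := by
      rw [Nat.cast_sum, Finset.sum_mul, Finset.mul_sum, ← Finset.sum_sub_distrib, Finset.mul_sum]
      refine Finset.sum_congr rfl fun t _ => ?_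
      rw [← Finset.mul_sum, HM_log_prod hψ hψ1 _ _ (hπ t), Finset.sum_sub_distrib,
        ← Finset.mul_sum, Finset.sum_const, Finset.card_univ, nsmul_eq_mul]
      push_cast
      rfl
    rw [h6]
    exact mul_nonneg hc0 (sub_nonneg.2 h5)

end Pool.Agent.MP_0c8446_ag

end

section

namespace Pool.Agent.MP_0c8446_ag

open MvPolynomial Matrix

universe v

variable {L : Type v} [Field L] {T : Type} [Fintype T] [DecidableEq T] {n : T → Type}
  [∀ t, Fintype (n t)] [∀ t, DecidableEq (n t)] {ι : Type} [Fintype ι] [DecidableEq ι]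

/-- A valuation attached to a filtration that misses the powers of `Δ`. -/
theorem HM2_val {R : Type v} [CommRing R] [IsDomain R] [Algebra L R] {Δ : R} (hΔ0 : Δ ≠ 0)
    (𝒥 : ℕ → Submodule L R) (𝒢 : Set (R × ℕ))
    (h2 : ∀ y ∈ 𝒢, ∀ S, ∀ x ∈ 𝒥 S, y.1 * x ∈ 𝒥 (S + y.2))
    (h5 : ∀ S, ∀ x ∈ 𝒥 S, Δ * x ∈ 𝒥 (S + 1)) (hno : ∀ S, Δ ^ S ∉ 𝒥 S) :
    ∃ O : ValuationSubring (FractionRing R), (∀ c, algebraMap L (FractionRing R) c ∈ O) ∧
      ∀ y ∈ 𝒢, O.valuation (algebraMap R _ y.1) ≤ O.valuation (algebraMap R _ (Δ ^ y.2)) ∧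
        (y.1 ∈ 𝒥 y.2 →
          O.valuation (algebraMap R _ y.1) < O.valuation (algebraMap R _ (Δ ^ y.2))) := by
  let Ω := FractionRing R
  let f : R →+* Ω := algebraMap R Ω
  have hf : Function.Injective f := IsFractionRing.injective R Ω
  have hΔ : ∀ k : ℕ, f (Δ ^ k) ≠ 0 := fun k => (map_ne_zero_iff f hf).2 (pow_ne_zero k hΔ0)
  have h3' : ∀ k S, ∀ x ∈ 𝒥 S, Δ ^ k * x ∈ 𝒥 (S + k) := by
    intro k
    induction k with
    | zero => intro S x hx; simpa using hx
    | succ k ih =>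
      intro S x hx
      have := h5 _ _ (ih S x hx)
      rw [← mul_assoc, ← pow_succ'] at this
      exact this
  let P : Ω → Prop := fun z => ∃ S, ∃ r ∈ 𝒥 S, z * f (Δ ^ S) = f r
  have P0 : P 0 := ⟨0, 0, zero_mem _, by simp⟩
  have Padd : ∀ z z', P z → P z' → P (z + z') := by
    rintro z z' ⟨S, r, hr, h⟩ ⟨S', r', hr', h'⟩
    refine ⟨S + S', Δ ^ S' * r + Δ ^ S * r', add_mem (h3' _ _ _ hr) ?_, ?_⟩
    · rw [add_comm]
      exact h3' _ _ _ hr'
    · rw [map_add, map_mul, map_mul, ← h, ← h', pow_add, map_mul]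
      ring
  let Y : Set Ω := (fun y : R × ℕ => f y.1 / f (Δ ^ y.2)) '' 𝒢
  have Pmul : ∀ b ∈ Algebra.adjoin L Y, ∀ z, P z → P (b * z) := by
    intro b hb
    induction hb using Algebra.adjoin_induction with
    | mem y hy =>
      obtain ⟨y, hy, rfl⟩ := hy
      rintro z ⟨S, r, hr, h⟩
      refine ⟨S + y.2, y.1 * r, h2 y hy S r hr, ?_⟩
      rw [map_mul, ← h, pow_add, map_mul]
      show f y.1 / f (Δ ^ y.2) * z * _ = _
      conv_rhs => rw [← div_mul_cancel₀ (f y.1) (hΔ y.2)]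
      ring
    | algebraMap c =>
      rintro z ⟨S, r, hr, h⟩
      refine ⟨S, c • r, Submodule.smul_mem _ c hr, ?_⟩
      rw [Algebra.smul_def, map_mul, ← h, mul_assoc, IsScalarTower.algebraMap_apply L R Ω c]
    | add y y' _ _ hy hy' =>
      intro z hz
      rw [add_mul]
      exact Padd _ _ (hy z hz) (hy' z hz)
    | mul y y' _ _ hy hy' =>
      intro z hz
      rw [mul_assoc]
      exact hy _ (hy' z hz)
  let Q : Ideal (Algebra.adjoin L Y).toSubring :=
    { carrier := {z | P z}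
      zero_mem' := P0
      add_mem' := fun {z z'} hz hz' => Padd _ _ hz hz'
      smul_mem' := fun b z hz => Pmul b b.2 z hz }
  have hQ : Q ≠ ⊤ := by
    intro h
    have h1' : (1 : (Algebra.adjoin L Y).toSubring) ∈ Q := by rw [h]; trivial
    obtain ⟨S, r, hr, h'⟩ : P 1 := h1'
    rw [one_mul] at h'
    exact hno S (by rw [hf h']; exact hr)
  obtain ⟨O, hBO, hQO⟩ := Ideal.image_subset_nonunits_valuationSubring Q hQ
  have hp : ∀ k : ℕ, 0 < O.valuation (f (Δ ^ k)) := fun k =>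
    zero_lt_iff.2 ((Valuation.ne_zero_iff _).2 (hΔ k))
  refine ⟨O, fun c => hBO (Subalgebra.algebraMap_mem (Algebra.adjoin L Y) c),
    fun y hy => ⟨?_, fun h1 => ?_⟩⟩
  · have h : f y.1 / f (Δ ^ y.2) ∈ O := hBO (Algebra.subset_adjoin (R := L) (s := Y) ⟨y, hy, rfl⟩)
    rwa [← O.valuation_le_one_iff, map_div₀, div_le_one₀ (hp _)] at h
  · have h : f y.1 / f (Δ ^ y.2) ∈ O.nonunits :=
      hQO ⟨⟨_, Algebra.subset_adjoin ⟨y, hy, rfl⟩⟩,
        ⟨y.2, y.1, h1, div_mul_cancel₀ _ (hΔ y.2)⟩, rfl⟩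
    rwa [ValuationSubring.mem_nonunits_iff, map_div₀, div_lt_one₀ (hp _)] at h

theorem HM2_evm {A : Type v} [CommRing A] [Algebra L A] (h : ∀ t, Matrix (n t) (n t) A)
    (E : Matrix (Σ t, n t) (Σ t, n t) L) (i j : Σ t, n t) :
    evm L h (gen (tmat E) fun b => cond b j i) =
      ((blockDiagonal' h)ᵀ * E.map (algebraMap L A) * blockDiagonal' h) i j := by
  rw [evm_gen]
  exact congrFun (tact_tmat (blockDiagonal' h) (E.map (algebraMap L A))) _

/-- Hilbert-Mumford: if there is no polynomial identity then there is a destabilising pair. -/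
theorem hm2 (L' : Type v) [Field L'] [Algebra L L'] [IsAlgClosed L'] (a : (ι → Σ t, n t) → L)
    (𝓔 : Set (Matrix (Σ t, n t) (Σ t, n t) L)) (𝒮 : Set (Finset T))
    (𝒥 : ℕ → Submodule L (PR L n))
    (h1 : ∀ I, gen a I ^ (2 * Fintype.card (Σ t, n t)) ∈ 𝒥 (Fintype.card ι))
    (h2 : ∀ I S, ∀ x ∈ 𝒥 S,
      gen a I ^ (2 * Fintype.card (Σ t, n t)) * x ∈ 𝒥 (S + Fintype.card ι))
    (h3 : ∀ E ∈ 𝓔, ∀ I S, ∀ x ∈ 𝒥 S,
      gen (tmat E) I ^ (2 * Fintype.card (Σ t, n t)) * x ∈ 𝒥 (S + 2))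
    (h4 : ∀ A ∈ 𝒮, ∀ S, ∀ x ∈ 𝒥 S, (∏ t ∈ A, (gm L n t).det) ^ (2 * Fintype.card (Σ t, n t)) * x ∈
      𝒥 (S + ∑ t ∈ A, Fintype.card (n t)))
    (h5 : ∀ S, ∀ x ∈ 𝒥 S, DlGi L n (fun _ => 2) * x ∈ 𝒥 (S + 1))
    (hno : ∀ S, DlGi L n (fun _ => 2) ^ S ∉ 𝒥 S) :
    ∃ (g : ∀ t, Matrix (n t) (n t) L') (w : (Σ t, n t) → ℝ),
      Dst (fun I => algebraMap L L' (a I)) ((fun E => E.map (algebraMap L L')) '' 𝓔)
        (blockDiagonal' g) w ∧ ∀ A ∈ 𝒮, 0 ≤ ∑ t ∈ A, ∑ i, w ⟨t, i⟩ := by
  obtain ⟨O, hO, hv⟩ := HM2_val (Dl_ne_zero (L := L) (n := n) fun _ => 2) 𝒥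
    {y | ∀ S, ∀ x ∈ 𝒥 S, y.1 * x ∈ 𝒥 (S + y.2)} (fun y hy => hy) h5 hno
  let Ω := FractionRing (PR L n)
  let f : PR L n →+* Ω := algebraMap (PR L n) Ω
  have hf : Function.Injective f := IsFractionRing.injective (PR L n) Ω
  have hfC : ∀ c : L, f (C c) = algebraMap L Ω c := fun c =>
    (IsScalarTower.algebraMap_apply L (PR L n) Ω c).symm
  have hdet : ∀ t, ((gm L n t).map f).det = f (gm L n t).det := fun t =>
    (RingHom.map_det f _).symm
  have e1 : ∀ {ι' : Type} [Fintype ι'] [DecidableEq ι'] (u : (ι' → Σ t, n t) → L) I,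
      tact (blockDiagonal' fun t => (gm L n t).map f) (fun J => algebraMap L Ω (u J)) I =
        f (gen u I) := fun u I => by
    rw [gen, tact_map, blockDiagonal'_map _ _ (map_zero _)]
    simp only [hfC]
  have e2 : ∏ t, ((gm L n t).map f).det ^ 2 = f (DlGi L n fun _ => 2) := by
    rw [DlGi, map_prod]
    exact Finset.prod_congr rfl fun t _ => by rw [hdet, map_pow]
  obtain ⟨κ, _, _, g', w, hD, hw⟩ := hm2_val a 𝓔 𝒮 O hO (fun t => (gm L n t).map f)
    (fun t => by
      rw [Matrix.isUnit_iff_isUnit_det, hdet, isUnit_iff_ne_zero, map_ne_zero_iff f hf]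
      have h := Dl_ne_zero (L := L) (n := n) fun _ => 1
      have h' := Finset.prod_ne_zero_iff.1 h t (Finset.mem_univ _)
      rwa [pow_one] at h')
    (fun I => by
      rw [e1, e2, ← map_pow, ← map_pow]
      exact (hv (_, _) (h2 I)).2 (h1 I))
    (fun E hE I => by
      rw [e1, e2, ← map_pow, ← map_pow]
      exact (hv (_, _) (h3 E hE I)).1)
    (fun A hA => by
      rw [e2, Finset.prod_congr rfl fun t _ => hdet t, ← map_prod, ← map_pow, ← map_pow]
      exact (hv (_, _) (h4 A hA)).1)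
  obtain ⟨g, hg, hs⟩ := spec_blk (L := L) (L' := L') g' hD.unit
  refine ⟨g, w, ⟨hg, hD.sum, fun I hI => hD.pos I fun h0 => hI ?_, ?_⟩, hw⟩
  · rw [← evm_gen] at h0 ⊢
    exact hs _ h0
  · rintro _ ⟨E, hE, rfl⟩ i j hij
    refine hD.iso _ ⟨E, hE, rfl⟩ i j fun h0 => hij ?_
    rw [← HM2_evm] at h0 ⊢
    exact hs _ h0

end Pool.Agent.MP_0c8446_ag

end

section

namespace Pool.Agent.MP_0c8446_ag

open MvPolynomial Matrix

universe v

variable {L : Type v} [Field L] [CharZero L] {T : Type} [Fintype T] [DecidableEq T] {n : T → Type}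
  [∀ t, Fintype (n t)] [∀ t, DecidableEq (n t)] {α : T → L}
  {F B : ∀ ι : Type, Submodule L ((ι → Σ t, n t) → L)} {E E' : Matrix (Σ t, n t) (Σ t, n t) L}
  {c : L}

/-- Numerically trivial tensors are unstable. -/
theorem core2 (L' : Type v) [Field L'] [Algebra L L'] [IsAlgClosed L']
    (hα : Function.Injective α) (hF : TFam (fun i : Σ t, n t => α i.1) F)
    (hB : TFam (fun i : Σ t, n t => α i.1) B) (hcon : TCon F B) (hE : tmat E ∈ F Bool)
    (hE' : tmat E' ∈ B Bool) (hc : c ≠ 0) (hEE : E * E' = c • (1 : Matrix _ _ L))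
    {ι : Type} [Fintype ι] [DecidableEq ι] {u : (ι → Σ t, n t) → L} (hu : u ∈ nul F B ι)
    (h0 : u ≠ 0) : ∃ g w, Dst (fun I => algebraMap L L' (u I))
      ((fun E => E.map (algebraMap L L')) '' {E | tmat E ∈ F Bool}) g w := by
  classical
  set d := Fintype.card (Σ t, n t) with hd
  rcases Nat.eq_zero_or_pos d with hd0 | hd0
  · obtain ⟨I, hI⟩ := Function.ne_iff.1 h0
    have hD := Fintype.card_eq_zero_iff.1 hd0
    have hι : IsEmpty ι := ⟨fun j => hD.false (I j)⟩
    have h1 := (mem_nul.1 hu).2 _ (hB.re (Equiv.equivOfIsEmpty Empty ι) _ hB.one)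
    rw [tpair, Fintype.sum_subsingleton _ I, mul_one] at h1
    exact absurd h1 hI
  have hsem : Sem F B (DlGi L n fun _ => 2) (2 * d) := by
    have := sem_comp hα hF hB hE hE' hc hEE Finset.univ (by simp)
    rwa [← Finset.mul_sum, ← Fintype.card_sigma] at this
  have g1 : ∀ {κ : Type} [Fintype κ] [DecidableEq κ] {a : (κ → Σ t, n t) → L}, a ∈ F κ → ∀ I r,
      gen a I ^ r ∈ coord F (r * Fintype.card κ) := fun {κ} _ _ a ha I r => by
    induction r with
    | zero => simpa using coord_one hF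
    | succ r ih =>
      rw [pow_succ, Nat.succ_mul]
      exact coord_mul hF ih (Submodule.subset_span ⟨_, _, _, rfl, a, ha, I, rfl⟩)
  have hpow : ∀ S : ℕ, Sem F B (DlGi L n (fun _ => 2) ^ S) (S * (2 * d)) := fun S => by
    induction S with
    | zero => simpa using Sem.one hF hB
    | succ S ih => rw [pow_succ, Nat.succ_mul]; exact ih.mul hF hB hsem
  obtain ⟨g, w, h, -⟩ := hm2 L' u {E | tmat E ∈ F Bool} ∅
    (fun S => coord (nul F B) (S * (2 * d)))
    (fun I => by
      obtain ⟨r, hr⟩ : ∃ r, 2 * d = r + 1 := ⟨2 * d - 1, by omega⟩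
      have h1 : gen u I ∈ coord (nul F B) (Fintype.card ι) :=
        Submodule.subset_span ⟨_, _, _, rfl, u, hu, I, rfl⟩
      have := coord_nul_mul hF hcon h1 (g1 hu.1 I r)
      rw [← hd, hr, pow_succ', mul_add, mul_one, add_comm, mul_comm _ r]
      exact this)
    (fun I S x hx => by
      rw [mul_comm _ x, add_mul, mul_comm (Fintype.card ι)]
      exact coord_nul_mul hF hcon hx (g1 hu.1 I _))
    (fun M hM I S x hx => by
      rw [mul_comm _ x, add_mul, mul_comm 2 (2 * d)]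
      exact coord_nul_mul hF hcon hx (g1 hM I _))
    (fun _ h => h.elim)
    (fun S x hx => by
      rw [mul_comm _ x, add_one_mul]
      exact coord_nul_mul hF hcon hx hsem.mem_coord)
    (fun S hS => by
      obtain ⟨κ, _, _, hκ, ω, hω, b, hb, hne, hgen⟩ := hpow S
      rw [← hκ] at hS
      exact hne ((mem_nul.1 (mem_of_weight (nul F B κ) (fun e u hu => nul_re hF hB e hu)
        (fun τ u hu => nul_proj hα hF hB τ hu) (coord_nul_eq hF hB hS) hgen)).2 b hb))
  exact ⟨_, w, h⟩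

end Pool.Agent.MP_0c8446_ag

end

section

namespace Pool.Agent.MP_0c8446_ag

open MvPolynomial Matrix

universe v

section

variable {K : Type v} [Field K] {M M' : Type*} [AddCommGroup M] [Module K M] [AddCommGroup M']
  [Module K M']

theorem detOn_eq {κ : Type} [Fintype κ] [DecidableEq κ] (f : Module.End K M) {b : κ → M}
    (hb : LinearIndependent K b) (N : Matrix κ κ K) (h : ∀ j, f (b j) = ∑ i, N i j • b i) :
    detOn f (Submodule.span K (Set.range b)) = N.det := by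
  have hs : ∀ a ∈ Submodule.span K (Set.range b), f a ∈ Submodule.span K (Set.range b) := by
    intro a ha
    refine Submodule.span_induction (p := fun a _ => f a ∈ Submodule.span K (Set.range b))
      ?_ (by simp) (fun x y _ _ hx hy => by rw [map_add]; exact add_mem hx hy)
      (fun c x _ hx => by rw [map_smul]; exact Submodule.smul_mem _ c hx) ha
    rintro _ ⟨j, rfl⟩
    rw [h j]
    exact Submodule.sum_mem _ fun i _ =>
      Submodule.smul_mem _ _ (Submodule.subset_span ⟨i, rfl⟩)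
  unfold detOn
  rw [dif_pos hs, ← LinearMap.det_toMatrix (Module.Basis.span hb)]
  congr 1
  ext i j
  have h1 : f.restrict hs (Module.Basis.span hb j) = ∑ i, N i j • Module.Basis.span hb i := by
    apply Subtype.ext
    simp [h j]
  rw [LinearMap.toMatrix_apply, h1, Module.Basis.repr_sum_self]

theorem detOn_map {φ : M →ₗ[K] M'} (hφ : Function.Injective φ) {f : Module.End K M}
    {f' : Module.End K M'} (h : ∀ x, f' (φ x) = φ (f x)) (S : Submodule K M) :
    detOn f' (S.map φ) = detOn f S := by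
  unfold detOn
  by_cases hs : ∀ a ∈ S, f a ∈ S
  · have hs' : ∀ a ∈ S.map φ, f' a ∈ S.map φ := by
      rintro _ ⟨a, ha, rfl⟩
      exact ⟨f a, hs a ha, (h a).symm⟩
    rw [dif_pos hs, dif_pos hs', ← LinearMap.det_conj (f.restrict hs)
      (Submodule.equivMapOfInjective φ hφ S)]
    congr 1
    refine LinearMap.ext fun x => ?_
    obtain ⟨y, rfl⟩ := (Submodule.equivMapOfInjective φ hφ S).surjective x
    apply Subtype.ext
    simp [h]
  · have hs' : ¬ ∀ a ∈ S.map φ, f' a ∈ S.map φ := by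
      intro h'
      refine hs fun a ha => ?_
      obtain ⟨c, hc, e⟩ := h' _ ⟨a, ha, rfl⟩
      rw [h a] at e
      exact hφ e ▸ hc
    rw [dif_neg hs, dif_neg hs']

end

variable {L : Type v} [Field L] {D : Type} [Fintype D] [DecidableEq D] {g g' : Matrix D D L}
  {w : D → ℝ}

theorem mem_lowS (hg : IsUnit g) {r : ℝ} {x : D → L} :
    x ∈ lowS g w r ↔ ∀ j, r < w j → (g⁻¹ *ᵥ x) j = 0 := by
  have hd := (isUnit_iff_isUnit_det g).1 hg
  constructor
  · intro hx
    refine Submodule.span_induction (p := fun x _ => ∀ j, r < w j → (g⁻¹ *ᵥ x) j = 0)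
      ?_ (by simp) (fun x y _ _ hx hy j hj => by simp [mulVec_add, hx j hj, hy j hj])
      (fun c x _ hx j hj => by simp [mulVec_smul, hx j hj]) hx
    rintro _ ⟨i, rfl⟩ j hj
    have h1 : (g⁻¹ *ᵥ fun k => g k i) j = (g⁻¹ * g) j i := rfl
    rw [h1, nonsing_inv_mul g hd, one_apply_ne]
    rintro rfl
    exact absurd i.2 (not_le.2 hj)
  · intro hx
    have h1 : x = ∑ j, (g⁻¹ *ᵥ x) j • fun i => g i j := by
      conv_lhs => rw [← one_mulVec x, ← mul_nonsing_inv g hd, ← mulVec_mulVec]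
      funext i
      simp only [Finset.sum_apply, Pi.smul_apply, smul_eq_mul]
      exact Finset.sum_congr rfl fun j _ => mul_comm _ _
    rw [h1]
    refine Submodule.sum_mem _ fun j _ => ?_
    by_cases hj : w j ≤ r
    · exact Submodule.smul_mem _ _ (Submodule.subset_span ⟨⟨j, hj⟩, rfl⟩)
    · rw [hx j (not_le.1 hj), zero_smul]
      exact zero_mem _

theorem lowS_le (hg : IsUnit g) (h : (g⁻¹ * g').BlockTriangular w) (r : ℝ) :
    lowS g' w r ≤ lowS g w r := by
  refine Submodule.span_le.2 ?_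
  rintro _ ⟨i, rfl⟩
  exact (mem_lowS hg).2 fun j hj => h (lt_of_le_of_lt i.2 hj)

theorem lowS_ne_bot (hg : IsUnit g) (i : D) : lowS g w (w i) ≠ ⊥ := by
  intro h
  have h1 : (fun k => g k i) ∈ lowS g w (w i) := Submodule.subset_span ⟨⟨i, le_rfl⟩, rfl⟩
  rw [h, Submodule.mem_bot] at h1
  have h2 : (g⁻¹ *ᵥ fun k => g k i) i = (g⁻¹ * g) i i := rfl
  rw [h1, nonsing_inv_mul g ((isUnit_iff_isUnit_det g).1 hg)] at h2
  simp at h2

theorem lowS_stab (hg : IsUnit g) {N : Matrix D D L} (h : (g⁻¹ * N * g).BlockTriangular w)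
    (r : ℝ) : ∀ x ∈ lowS g w r, N *ᵥ x ∈ lowS g w r := by
  intro x hx
  have hd := (isUnit_iff_isUnit_det g).1 hg
  refine (mem_lowS hg).2 fun j hj => ?_
  have h1 : g⁻¹ *ᵥ N *ᵥ x = (g⁻¹ * N * g) *ᵥ g⁻¹ *ᵥ x := by
    rw [mulVec_mulVec, mulVec_mulVec, Matrix.mul_assoc _ g, mul_nonsing_inv g hd, Matrix.mul_one]
  rw [h1]
  refine Finset.sum_eq_zero fun i _ => ?_
  by_cases hi : w i ≤ r
  · have h2 : (g⁻¹ * N * g) j i = 0 := h (lt_of_le_of_lt hi hj)
    simp [h2]
  · simp [(mem_lowS hg).1 hx i (not_le.1 hi)]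

omit [DecidableEq D] in
theorem lowS_orth {E : Matrix D D L} (h : ∀ i j, (gᵀ * E * g) i j ≠ 0 → 0 ≤ w i + w j)
    {r r' : ℝ} (hr : r + r' < 0) : ∀ x ∈ lowS g w r, ∀ y ∈ lowS g w r', x ⬝ᵥ E *ᵥ y = 0 := by
  intro x hx y hy
  refine Submodule.span_induction (p := fun x _ => x ⬝ᵥ E *ᵥ y = 0) ?_ (by simp)
    (fun x y _ _ hx hy => by simp [hx, hy]) (fun c x _ hx => by simp [hx]) hx
  rintro _ ⟨i, rfl⟩
  refine Submodule.span_induction (p := fun y _ => (fun k => g k i) ⬝ᵥ E *ᵥ y = 0) ?_ (by simp)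
    (fun x y _ _ hx hy => by simp [mulVec_add, hx, hy])
    (fun c x _ hx => by simp [mulVec_smul, hx]) hy
  rintro _ ⟨j, rfl⟩
  have h1 : ((fun k => g k i) ⬝ᵥ E *ᵥ fun k => g k j) = (gᵀ * E * g) i j := by
    rw [Matrix.mul_assoc]
    rfl
  rw [h1]
  by_contra h2
  have h3 := h _ _ h2
  have h4 := i.2
  have h5 := j.2
  linarith

theorem detOn_lowS (hg : IsUnit g) {N : Matrix D D L} (h : (g⁻¹ * N * g).BlockTriangular w)
    (r : ℝ) : detOn (toLin' N) (lowS g w r) = lowD (g⁻¹ * N * g) w r := by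
  have hd := (isUnit_iff_isUnit_det g).1 hg
  unfold lowS lowD
  refine detOn_eq _ ((linearIndependent_cols_iff_isUnit.2 hg).comp Subtype.val
    Subtype.val_injective) _ fun j => ?_
  funext k
  have h1 : toLin' N (fun i => g i j) k = (g * (g⁻¹ * N * g)) k j := by
    rw [← Matrix.mul_assoc, ← Matrix.mul_assoc, mul_nonsing_inv g hd, Matrix.one_mul]
    rfl
  refine h1.trans ?_
  rw [Matrix.mul_apply, Finset.sum_apply,
    ← Fintype.sum_subtype_add_sum_subtype (fun i => w i ≤ r)]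
  have h2 : ∑ i : {i // ¬ w i ≤ r}, g k i * (g⁻¹ * N * g) i j = 0 :=
    Finset.sum_eq_zero fun i _ => by rw [h (lt_of_le_of_lt j.2 (not_le.1 i.2)), mul_zero]
  rw [h2, add_zero]
  exact Finset.sum_congr rfl fun i _ => mul_comm _ _

end Pool.Agent.MP_0c8446_ag

end

section

namespace Pool.Agent.MP_0c8446_ag

open MvPolynomial Matrix

universe v

theorem fix_closure {K : Type v} [Field K] [CharZero K] (c : AlgebraicClosure K)
    (h : ∀ γ : AlgebraicClosure K ≃ₐ[K] AlgebraicClosure K, γ c = c) :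
    c ∈ Set.range (algebraMap K (AlgebraicClosure K)) :=
  (InfiniteGalois.mem_range_algebraMap_iff_fixed c).2 h

variable {K L : Type v} [Field K] [Field L] [Algebra K L] {D : Type} [Fintype D] [DecidableEq D]

omit [Fintype D] in
theorem Desc_fixed {S : Submodule L (D → L)}
    (hS : ∀ γ : L ≃ₐ[K] L, ∀ x ∈ S, (fun i => γ (x i)) ∈ S) (s : Finset D) :
    ∀ x ∈ S, x ≠ 0 → (∀ i ∉ s, x i = 0) →
      ∃ y ∈ S, (∃ i ∈ s, y i = 1) ∧ (∀ i ∉ s, y i = 0) ∧ ∀ (γ : L ≃ₐ[K] L) j, γ (y j) = y j := by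
  induction s using Finset.strongInduction with
  | H s ih =>
    intro x hx h0 h1
    obtain ⟨i, hi⟩ := Function.ne_iff.1 h0
    have h2 : i ∈ s := by_contra fun h => hi (h1 i h)
    have h3 : ((x i)⁻¹ • x) i = 1 := inv_mul_cancel₀ hi
    have h4 : ∀ j ∉ s, ((x i)⁻¹ • x) j = 0 := fun j hj => by simp [h1 j hj]
    have h5 := S.smul_mem (x i)⁻¹ hx
    generalize (x i)⁻¹ • x = y at h3 h4 h5
    by_cases h6 : ∀ (γ : L ≃ₐ[K] L) j, γ (y j) = y j
    · exact ⟨y, h5, ⟨i, h2, h3⟩, h4, h6⟩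
    · obtain ⟨γ, h6⟩ := not_forall.1 h6
      obtain ⟨z, z1, ⟨k, z2, z3⟩, z4, z5⟩ := ih _ (Finset.erase_ssubset h2) _
        (S.sub_mem (hS γ y h5) h5) (fun e => h6 fun j => sub_eq_zero.1 (congrFun e j)) fun j hj => by
          by_cases h7 : j = i
          · simp [h7, h3]
          · simp [h4 j fun h => hj (Finset.mem_erase.2 ⟨h7, h⟩)]
      exact ⟨z, z1, ⟨k, Finset.mem_of_mem_erase z2, z3⟩,
        fun j hj => z4 j fun h => hj (Finset.mem_of_mem_erase h), z5⟩

omit [DecidableEq D] in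
/-- Galois descent for subspaces. -/
theorem desc_span (hfix : ∀ c : L, (∀ γ : L ≃ₐ[K] L, γ c = c) → c ∈ Set.range (algebraMap K L))
    (S : Submodule L (D → L)) (hS : ∀ γ : L ≃ₐ[K] L, ∀ x ∈ S, (fun i => γ (x i)) ∈ S) :
    S ≤ Submodule.span L
      {y | ∃ x : D → K, (fun i => algebraMap K L (x i)) ∈ S ∧ y = fun i => algebraMap K L (x i)} := by
  classical
  suffices h : ∀ s : Finset D, ∀ x ∈ S, (∀ i ∉ s, x i = 0) → x ∈ Submodule.span L
      {y | ∃ x : D → K, (fun i => algebraMap K L (x i)) ∈ S ∧ y = fun i => algebraMap K L (x i)} from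
    fun x hx => h Finset.univ x hx fun i hi => absurd (Finset.mem_univ i) hi
  intro s
  induction s using Finset.strongInduction with
  | H s ih =>
    intro x hx h1
    by_cases h0 : x = 0
    · rw [h0]; exact zero_mem _
    obtain ⟨y, y1, ⟨i, y2, y3⟩, y4, y5⟩ := Desc_fixed hS s x hx h0 h1
    choose z hz using fun j => hfix (y j) fun γ => y5 γ j
    have h2 : y = fun j => algebraMap K L (z j) := funext fun j => (hz j).symm
    rw [← sub_add_cancel x (x i • y)]
    refine add_mem (ih _ (Finset.erase_ssubset y2) _ (S.sub_mem hx (S.smul_mem _ y1)) fun j hj => ?_)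
      (Submodule.smul_mem _ _ (Submodule.subset_span ⟨z, h2 ▸ y1, h2⟩))
    by_cases h7 : j = i
    · simp [h7, y3]
    · have h8 : j ∉ s := fun h => hj (Finset.mem_erase.2 ⟨h7, h⟩)
      simp [h1 j h8, y4 j h8]

theorem desc_det (hfix : ∀ c : L, (∀ γ : L ≃ₐ[K] L, γ c = c) → c ∈ Set.range (algebraMap K L))
    (S : Submodule L (D → L)) (hS : ∀ γ : L ≃ₐ[K] L, ∀ x ∈ S, (fun i => γ (x i)) ∈ S) :
    ∃ S₀ : Submodule K (D → K), (∀ x, x ∈ S₀ ↔ (fun i => algebraMap K L (x i)) ∈ S) ∧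
      (S₀ = ⊥ → S = ⊥) ∧ ∀ N : Matrix D D K, (∀ x ∈ S, N.map (algebraMap K L) *ᵥ x ∈ S) →
        algebraMap K L (detOn (toLin' N) S₀) = detOn (toLin' (N.map (algebraMap K L))) S := by
  let φ : (D → K) →ₗ[K] D → L := (Algebra.linearMap K L).compLeft D
  let S₀ := (S.restrictScalars K).comap φ
  have h1 : ∀ x, x ∈ S₀ ↔ φ x ∈ S := fun _ => Iff.rfl
  have h2 : S ≤ Submodule.span L {y | ∃ x ∈ S₀, y = φ x} := desc_span hfix S hS
  refine ⟨S₀, h1, fun h => eq_bot_iff.2 (h2.trans (Submodule.span_le.2 ?_)), fun N hN => ?_⟩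
  · rintro _ ⟨x, hx, rfl⟩
    rw [h, Submodule.mem_bot] at hx
    rw [hx, map_zero]
    exact zero_mem _
  · let b := Module.finBasis K S₀
    have h3 : ∀ x, N.map (algebraMap K L) *ᵥ φ x = φ (N *ᵥ x) := fun x => funext fun i =>
      (RingHom.map_mulVec (algebraMap K L) N x i).symm
    have h4 : ∀ j, N *ᵥ (b j).1 ∈ S₀ := fun j => (h1 _).2 (h3 _ ▸ hN _ (b j).2)
    have h5 : ∀ x : S₀, x.1 = ∑ i, b.repr x i • (b i).1 := fun x => by
      simpa only [Submodule.coe_sum, Submodule.coe_smul] using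
        congrArg Subtype.val (b.sum_repr x).symm
    have h6 : ∀ x : S₀, φ x = ∑ i, algebraMap K L (b.repr x i) • φ (b i) := fun x => by
      rw [h5 x, map_sum]
      exact Finset.sum_congr rfl fun i _ => by rw [map_smul, algebraMap_smul]
    have i1 : LinearIndependent K fun i => (b i).1 := b.linearIndependent.map' S₀.subtype (by simp)
    have i2 : LinearIndependent L fun i => φ (b i) := linearIndependent_algebraMap_comp_iff.2 i1
    have s1 : Submodule.span K (Set.range fun i => (b i).1) = S₀ := by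
      refine le_antisymm (Submodule.span_le.2 (Set.range_subset_iff.2 fun i => (b i).2))
        fun x hx => ?_
      rw [show x = _ from h5 ⟨x, hx⟩]
      exact sum_mem fun i _ => Submodule.smul_mem _ _ (Submodule.subset_span ⟨i, rfl⟩)
    have s2 : Submodule.span L (Set.range fun i => φ (b i)) = S := by
      refine le_antisymm (Submodule.span_le.2 (Set.range_subset_iff.2 fun i => (b i).2))
        (h2.trans (Submodule.span_le.2 ?_))
      rintro _ ⟨x, hx, rfl⟩
      rw [show φ x = _ from h6 ⟨x, hx⟩]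
      exact sum_mem fun i _ => Submodule.smul_mem _ _ (Submodule.subset_span ⟨i, rfl⟩)
    have e1 := detOn_eq (toLin' N) i1 (Matrix.of fun i j => b.repr ⟨_, h4 j⟩ i)
      fun j => h5 ⟨_, h4 j⟩
    have e2 := detOn_eq (toLin' (N.map (algebraMap K L))) i2
      ((Matrix.of fun i j => b.repr ⟨_, h4 j⟩ i).map (algebraMap K L))
      fun j => (h3 _).trans (h6 ⟨_, h4 j⟩)
    rw [s1] at e1
    rw [s2] at e2
    rw [e1, e2, RingHom.map_det]
    rfl

end Pool.Agent.MP_0c8446_ag

end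

section

namespace Pool.Agent.MP_0c8446_ag

open MvPolynomial Matrix

universe v

variable {L : Type v} [Field L] {T : Type} [Fintype T] [DecidableEq T] {n : T → Type}
  [∀ t, Fintype (n t)] [∀ t, DecidableEq (n t)] {ι : Type} [Fintype ι] [DecidableEq ι]
  {v : T → ℝ} {g g' : Matrix (Σ t, n t) (Σ t, n t) L}

omit [Fintype T] [∀ t, Fintype (n t)] [∀ t, DecidableEq (n t)] [DecidableEq ι] in
lemma LvA_zero (l : ∀ t, Matrix (n t) (n t) L) {I J : ι → Σ t, n t}
    (h : ¬ ∀ j, (J j).1 = (I j).1) : ∏ j, blockDiagonal' l (J j) (I j) = 0 := by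
  obtain ⟨j, hj⟩ := not_forall.1 h
  exact Finset.prod_eq_zero (Finset.mem_univ j) (blockDiagonal'_apply_ne l (J j).2 (I j).2 hj)

omit [Fintype T] [∀ t, Fintype (n t)] [∀ t, DecidableEq (n t)] in
lemma LvA_eq (g : Matrix (Σ t, n t) (Σ t, n t) L) {x y : Σ t, n t} (h : x.1 = y.1) :
    blockDiagonal' (blockDiag' g) x y = g x y := by
  obtain ⟨s, i⟩ := x
  obtain ⟨t, j⟩ := y
  obtain rfl : s = t := h
  exact blockDiagonal'_apply_eq _ s i j

omit [∀ t, DecidableEq (n t)] in
theorem lead_blk (l : ∀ t, Matrix (n t) (n t) L) (c : ℝ) (a : (ι → Σ t, n t) → L) :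
    lead (fun i : Σ t, n t => v i.1) c (tact (blockDiagonal' l) a) =
      tact (blockDiagonal' l) (lead (fun i : Σ t, n t => v i.1) c a) := by
  funext I
  by_cases hI : ∑ j, v (I j).1 = c
  · simp only [lead, tact, hI, if_true]
    refine Finset.sum_congr rfl fun J _ => ?_
    by_cases h : ∀ j, (J j).1 = (I j).1
    · simp only [h, hI, if_true]
    · rw [LvA_zero l h, mul_zero, mul_zero]
  · simp only [lead, tact, hI, if_false]
    refine (Finset.sum_eq_zero fun J _ => ?_).symm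
    by_cases h : ∀ j, (J j).1 = (I j).1
    · simp only [h, hI, if_false, zero_mul]
    · rw [LvA_zero l h, mul_zero]

omit [∀ t, DecidableEq (n t)] in
theorem lead_tact (hv : Function.Injective v) (hg : g.BlockTriangular fun i => v i.1) {c : ℝ}
    {a : (ι → Σ t, n t) → L} (ha : ∀ I, a I ≠ 0 → c ≤ ∑ j, v (I j).1) :
    lead (fun i : Σ t, n t => v i.1) c (tact g a) =
      tact (blockDiagonal' (blockDiag' g)) (lead (fun i : Σ t, n t => v i.1) c a) := by
  rw [← lead_blk]
  funext I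
  by_cases hI : ∑ j, v (I j).1 = c
  · simp only [lead, tact, hI, if_true]
    refine Finset.sum_congr rfl fun J _ => ?_
    by_cases h : ∀ j, (J j).1 = (I j).1
    · exact congrArg _ (Finset.prod_congr rfl fun j _ => (LvA_eq g (h j)).symm)
    · rw [LvA_zero _ h, mul_zero]
      by_contra hne
      have h1 : ∀ j ∈ Finset.univ, v (J j).1 ≤ v (I j).1 := fun j _ => not_lt.1 fun hlt =>
        right_ne_zero_of_mul hne (Finset.prod_eq_zero (Finset.mem_univ j) (hg hlt))
      have h2 := (Finset.sum_eq_sum_iff_of_le h1).1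
        (le_antisymm (Finset.sum_le_sum h1) (hI.le.trans (ha J (left_ne_zero_of_mul hne))))
      exact h fun j => hv (h2 j (Finset.mem_univ j))
  · simp only [lead, hI, if_false]

omit [DecidableEq T] [∀ t, DecidableEq (n t)] in
theorem blockDiag'_mul_tri (hv : Function.Injective v) (hg : g.BlockTriangular fun i => v i.1)
    (hg' : g'.BlockTriangular fun i => v i.1) (t : T) :
    blockDiag' (g * g') t = blockDiag' g t * blockDiag' g' t := by
  ext i j
  simp only [blockDiag'_apply, Matrix.mul_apply, Fintype.sum_sigma]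
  refine Finset.sum_eq_single t (fun s _ hs => Finset.sum_eq_zero fun k _ => ?_) (by simp)
  rcases lt_or_gt_of_ne (hv.ne hs) with h | h
  · rw [hg (i := ⟨t, i⟩) (j := ⟨s, k⟩) h, zero_mul]
  · rw [hg' (i := ⟨s, k⟩) (j := ⟨t, j⟩) h, mul_zero]

theorem det_tri (hv : Function.Injective v) (hg : g.BlockTriangular fun i => v i.1) :
    g.det = ∏ t, (blockDiag' g t).det := by
  let _ : LinearOrder T := LinearOrder.lift' v hv
  have h : g.BlockTriangular Sigma.fst := fun _ _ h => hg h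
  rw [h.det_fintype]
  refine Finset.prod_congr rfl fun t _ => ?_
  rw [← det_submatrix_equiv_self (Equiv.sigmaSubtype t).symm]
  rfl

theorem lowD_tri (hv : Function.Injective v) (hg : g.BlockTriangular fun i => v i.1) (r : ℝ) :
    lowD g (fun i => v i.1) r = ∏ t ∈ Finset.univ.filter fun t => v t ≤ r, (blockDiag' g t).det := by
  classical
  let e : (Σ t : {t // v t ≤ r}, n t.1) ≃ {j : Σ t, n t // v j.1 ≤ r} :=
    ⟨fun x => ⟨⟨x.1.1, x.2⟩, x.1.2⟩, fun x => ⟨⟨x.1.1, x.2⟩, x.1.2⟩, fun _ => rfl, fun _ => rfl⟩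
  have h := det_tri (n := fun t : {t // v t ≤ r} => n t.1) (v := fun t => v t.1)
    (g := (g.toSquareBlockProp fun j => v j.1 ≤ r).submatrix e e)
    (hv.comp Subtype.val_injective) fun _ _ h => hg h
  rw [det_submatrix_equiv_self] at h
  rw [Finset.prod_subtype (p := fun t => v t ≤ r) (F := inferInstance) _ (by simp)]
  unfold lowD
  convert h using 1
  rfl

end Pool.Agent.MP_0c8446_ag

end

section

namespace Pool.Agent.MP_0c8446_ag

open MvPolynomial Matrix

universe v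

variable {L : Type v} [Field L] [IsAlgClosed L] {T : Type} [Fintype T] [DecidableEq T]
  {n : T → Type} [∀ t, Fintype (n t)] [∀ t, DecidableEq (n t)] {ι : Type} [Fintype ι]
  [DecidableEq ι]

open Classical in
/-- The part of weight zero of a matrix. -/
noncomputable def LvB_lz {D : Type} (w : D → ℝ) (E : Matrix D D L) : Matrix D D L :=
  Matrix.of fun i j => if w i + w j = 0 then E i j else 0

omit [IsAlgClosed L] in
theorem LvB_tmat {D : Type} (w : D → ℝ) (E : Matrix D D L) :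
    tmat (LvB_lz w E) = lead w 0 (tmat E) := by
  funext I
  simp only [tmat, LvB_lz, lead, Fintype.sum_bool, of_apply, add_comm]

/-- Semistability of the leading part as a polynomial identity on the Levi subgroup. -/
theorem lev_id {v : T → ℝ} {a : (ι → Σ t, n t) → L} (ha : a ≠ 0)
    {𝓔 : Set (Matrix (Σ t, n t) (Σ t, n t) L)} (h : Dst a 𝓔 1 fun i => v i.1)
    (hw : Opt a 𝓔 fun i => v i.1) {E₀ : Matrix (Σ t, n t) (Σ t, n t) L} (hE₀ : E₀ ∈ 𝓔)
    (hu : IsUnit E₀) (𝒥 : Submodule L (PR L n))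
    (h1 : ∀ I, gen (lead (fun i : Σ t, n t => v i.1) 1 a) I ^ (2 * Fintype.card (Σ t, n t)) ∈ 𝒥)
    (h2 : ∀ I, ∀ x ∈ 𝒥,
      gen (lead (fun i : Σ t, n t => v i.1) 1 a) I ^ (2 * Fintype.card (Σ t, n t)) * x ∈ 𝒥)
    (h3 : ∀ E ∈ 𝓔, ∀ I, ∀ x ∈ 𝒥, gen (lead (fun i : Σ t, n t => v i.1) 0 (tmat E)) I ^
      (2 * Fintype.card (Σ t, n t)) * x ∈ 𝒥)
    (h4 : ∀ i : Σ t, n t, v i.1 < 0 → ∀ x ∈ 𝒥,
      (∏ t ∈ Finset.univ.filter fun t => v t ≤ v i.1, (gm L n t).det) ^
        (2 * Fintype.card (Σ t, n t)) * x ∈ 𝒥)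
    (h5 : ∀ x ∈ 𝒥, DlGi L n (fun _ => 2) * x ∈ 𝒥) : ∃ S, DlGi L n (fun _ => 2) ^ S ∈ 𝒥 := by
  classical
  by_contra hno
  push Not at hno
  obtain ⟨l, w', hD, hS⟩ := hm2 L (lead (fun i : Σ t, n t => v i.1) 1 a)
    (LvB_lz (fun i : Σ t, n t => v i.1) '' 𝓔)
    {A | ∃ i : Σ t, n t, v i.1 < 0 ∧ A = Finset.univ.filter fun t => v t ≤ v i.1} (fun _ => 𝒥)
    h1 (fun I _ => h2 I) (by
      rintro _ ⟨E, hE, rfl⟩ I _
      rw [LvB_tmat]
      exact h3 E hE I) (by
      rintro _ ⟨i, hi, rfl⟩ _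
      exact h4 i hi) (fun _ => h5) hno
  refine levi_no ha h hw hE₀ hu hD.unit (fun i j hij => ?_) hD.sum (fun I hI h0 => hD.pos I ?_)
    (fun E hE i j hij h0 => hD.iso (LvB_lz (fun i : Σ t, n t => v i.1) E)
      ⟨_, ⟨E, hE, rfl⟩, rfl⟩ i j ?_) fun i hi => ?_
  · obtain ⟨t, i⟩ := i
    obtain ⟨t', j⟩ := j
    by_cases e : t = t'
    · exact congrArg v e
    · exact absurd (blockDiagonal'_apply_ne l i j e) hij
  · have := congrFun (lead_blk (v := v) l 1 a) I
    rw [lead, if_pos hI] at this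
    rw [this] at h0
    exact h0
  · have := congrFun (lead_blk (v := v) l 0 (tmat E)) fun b => cond b j i
    rw [← LvB_tmat (fun i : Σ t, n t => v i.1) E, tact_tmat, tact_tmat, lead,
      if_pos (by rw [Fintype.sum_bool, add_comm]; exact hij)] at this
    exact fun e => h0 (this.trans e)
  · refine (hS _ ⟨i, hi, rfl⟩).trans_eq ?_
    rw [Finset.sum_filter, Finset.sum_filter, Fintype.sum_sigma]
    refine Finset.sum_congr rfl fun t _ => ?_
    split_ifs <;> simp [*]

end Pool.Agent.MP_0c8446_ag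

end

section

namespace Pool.Agent.MP_0c8446_ag

open MvPolynomial Matrix

universe v

variable {L : Type v} [Field L] [IsAlgClosed L] [CharZero L] {T : Type} [Fintype T]
  [DecidableEq T] {n : T → Type} [∀ t, Fintype (n t)] [∀ t, DecidableEq (n t)] {ι : Type}
  [Fintype ι] [DecidableEq ι]

section

omit [IsAlgClosed L] [CharZero L]

theorem LvC_mul {P A : Type*} [Monoid P] [CommRing A] [Algebra L A] (φ : A →ₐ[L] (P → L))
    {C : Set (P →* L)} {x : A} {c : L} {χ : P →* L} (hx : φ x = c • ⇑χ)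
    (hχ : c ≠ 0 → ∀ ψ ∈ C, χ * ψ ∈ C) (k : ℕ) :
    ∀ y ∈ (Submodule.span L ((fun ψ : P →* L => (ψ : P → L)) '' C)).comap φ.toLinearMap,
      x ^ k * y ∈ (Submodule.span L ((fun ψ : P →* L => (ψ : P → L)) '' C)).comap
        φ.toLinearMap := by
  have h1 : ∀ y ∈ (Submodule.span L ((fun ψ : P →* L => (ψ : P → L)) '' C)).comap φ.toLinearMap,
      x * y ∈ (Submodule.span L ((fun ψ : P →* L => (ψ : P → L)) '' C)).comap φ.toLinearMap := by
    intro y hy
    rw [Submodule.mem_comap, AlgHom.toLinearMap_apply] at hy ⊢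
    rw [map_mul, hx, smul_mul_assoc]
    by_cases hc : c = 0
    · rw [hc, zero_smul]
      exact zero_mem _
    refine Submodule.smul_mem _ _ ?_
    generalize φ y = f at hy
    induction hy using Submodule.span_induction with
    | mem f hf =>
      obtain ⟨ψ, hψ, rfl⟩ := hf
      exact Submodule.subset_span ⟨χ * ψ, hχ hc ψ hψ, rfl⟩
    | zero => rw [mul_zero]; exact zero_mem _
    | add f g _ _ hf hg => rw [mul_add]; exact add_mem hf hg
    | smul a f _ hf => rw [mul_smul_comm]; exact Submodule.smul_mem _ _ hf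
  induction k with
  | zero => intro y hy; rwa [pow_zero, one_mul]
  | succ k ih => intro y hy; rw [pow_succ', mul_assoc]; exact h1 _ (ih y hy)

theorem LvC_pow {A : Type*} [CommRing A] [Algebra L A] (J : Submodule L A) {x : A}
    (h : ∀ y ∈ J, x * y ∈ J) (k : ℕ) : ∀ y ∈ J, x ^ k * y ∈ J := by
  induction k with
  | zero => intro y hy; rwa [pow_zero, one_mul]
  | succ k ih => intro y hy; rw [pow_succ', mul_assoc]; exact h _ (ih y hy)

omit [∀ t, DecidableEq (n t)] in
theorem LvC_add (w : (Σ t, n t) → ℝ) (E E' : Matrix (Σ t, n t) (Σ t, n t) L)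
    (I : Bool → Σ t, n t) : gen (lead w 0 (tmat (E + E'))) I =
      gen (lead w 0 (tmat E)) I + gen (lead w 0 (tmat E')) I := by
  simp only [gen, tact, ← Finset.sum_add_distrib, ← add_mul, ← map_add]
  refine Finset.sum_congr rfl fun J _ => ?_
  simp only [lead, tmat, Matrix.add_apply]
  split_ifs <;> simp

omit [∀ t, DecidableEq (n t)] in
theorem LvC_smul (w : (Σ t, n t) → ℝ) (c : L) (E : Matrix (Σ t, n t) (Σ t, n t) L)
    (I : Bool → Σ t, n t) :
    gen (lead w 0 (tmat (c • E))) I = c • gen (lead w 0 (tmat E)) I := by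
  simp only [gen, tact, Finset.smul_sum, smul_eq_C_mul, ← mul_assoc, ← map_mul]
  refine Finset.sum_congr rfl fun J _ => ?_
  simp only [lead, tmat, Matrix.smul_apply, smul_eq_mul]
  split_ifs <;> simp

/-- The values of `f` are powers of two of total weight `s`. -/
def LvC_W (v : T → ℝ) (f : T → L) (s : ℝ) : Prop :=
  ∃ μ : T → ℕ, s = ∑ t, μ t * v t ∧ ∀ t, f t = 2 ^ μ t

omit [DecidableEq T] in
theorem LvC_W_mul {v : T → ℝ} {f f' : T → L} {s s' : ℝ} (h : LvC_W v f s) (h' : LvC_W v f' s') :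
    LvC_W v (fun t => f t * f' t) (s + s') := by
  obtain ⟨μ, rfl, h⟩ := h
  obtain ⟨μ', rfl, h'⟩ := h'
  refine ⟨μ + μ', ?_, fun t => by simp only [h, h', Pi.add_apply, pow_add]⟩
  simp only [Pi.add_apply, Nat.cast_add, add_mul, Finset.sum_add_distrib]

omit [DecidableEq T] in
theorem LvC_W_prod {v : T → ℝ} {κ : Type*} (S : Finset κ) {f : κ → T → L} {s : κ → ℝ}
    (h : ∀ k, LvC_W v (f k) (s k)) : LvC_W v (fun t => ∏ k ∈ S, f k t) (∑ k ∈ S, s k) := by
  classical
  induction S using Finset.induction_on with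
  | empty => exact ⟨0, by simp, by simp⟩
  | insert k S hk ih =>
    simp only [Finset.prod_insert hk, Finset.sum_insert hk]
    exact LvC_W_mul (h k) ih

theorem LvC_W_single (v : T → ℝ) {u : Lˣ} (hu : (u : L) = 2) (t : T) (k : ℕ) :
    LvC_W v (fun t' => (((Pi.mulSingle t' u : T → Lˣ) t : Lˣ) : L) ^ k) (k * v t) := by
  refine ⟨Pi.single t k, ?_, fun t' => ?_⟩
  · rw [Finset.sum_eq_single t]
    · simp
    · intro b _ hb
      simp [hb]
    · simp
  · by_cases e : t' = t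
    · subst e
      simp [hu]
    · simp [e, Ne.symm e]

/-- The function `f` is a monomial in the given functions. -/
def LvC_R {G D : Type*} (cx cE dt : G → L) (lw : D → G → L) (M : Multiset D) (f : G → L) : Prop :=
  ∃ m m' c : ℕ, ∀ σ, f σ = cx σ ^ m * cE σ ^ m' * (M.map fun i => lw i σ).prod * dt σ ^ (2 * c)

theorem LvC_R_mul {G D : Type*} {cx cE dt : G → L} {lw : D → G → L} {M M' : Multiset D}
    {f f' : G → L} (h : LvC_R cx cE dt lw M f) (h' : LvC_R cx cE dt lw M' f') :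
    LvC_R cx cE dt lw (M + M') fun σ => f σ * f' σ := by
  obtain ⟨m₁, m₂, c, h⟩ := h
  obtain ⟨m₁', m₂', c', h'⟩ := h'
  refine ⟨m₁ + m₁', m₂ + m₂', c + c', fun σ => ?_⟩
  simp only [h, h', Multiset.map_add, Multiset.prod_add]
  ring

theorem LvC_gen {v : T → ℝ} (hv : Function.Injective v) {g : Matrix (Σ t, n t) (Σ t, n t) L}
    (hg : g.BlockTriangular fun i => v i.1) {c : ℝ} {a : (ι → Σ t, n t) → L}
    (ha : ∀ I, a I ≠ 0 → c ≤ ∑ j, v (I j).1) {e : L} (hx : tact g a = e • a) (z : T → L)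
    (I : ι → Σ t, n t) :
    evm L (fun t => z t • blockDiag' g t) (gen (lead (fun i : Σ t, n t => v i.1) c a) I) =
      lead (fun i : Σ t, n t => v i.1) c a I * (e * ∏ j, z (I j).1) := by
  have e1 : blockDiagonal' (fun t => z t • blockDiag' g t) =
      blockDiagonal' (blockDiag' g) * diagonal fun i => z i.1 := by
    rw [← blockDiagonal'_diagonal fun t (_ : n t) => z t, ← blockDiagonal'_mul]
    exact congrArg _ (funext fun t => smul_eq_mul_diagonal _ _)
  rw [evm_gen, e1, tact_mul, tact_diagonal, ← mul_assoc]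
  congr 1
  refine (congrFun (lead_tact hv hg ha) I).symm.trans ?_
  rw [hx]
  simp only [lead, Pi.smul_apply, smul_eq_mul]
  split_ifs
  · exact mul_comm _ _
  · exact (zero_mul _).symm

end

omit [IsAlgClosed L] [DecidableEq T] in
theorem LvC_W_eq {v : T → ℝ} {f : T → L} {s s' : ℝ} (h : LvC_W v f s) (h' : LvC_W v f s') :
    s = s' := by
  obtain ⟨μ, rfl, h⟩ := h
  obtain ⟨μ', rfl, h'⟩ := h'
  refine Finset.sum_congr rfl fun t _ => ?_
  have e : ((2 ^ μ t : ℕ) : L) = ((2 ^ μ' t : ℕ) : L) := by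
    push_cast
    rw [← h, ← h']
  rw [Nat.pow_right_injective le_rfl (Nat.cast_injective e)]

/-- A multiplicative relation between the determinants on the steps of the optimal flag. -/
theorem lev_blk {v : T → ℝ} (hv : Function.Injective v) {a : (ι → Σ t, n t) → L} (ha : a ≠ 0)
    {𝓔 : Set (Matrix (Σ t, n t) (Σ t, n t) L)} (h : Dst a 𝓔 1 fun i => v i.1)
    (hw : Opt a 𝓔 fun i => v i.1) {E₀ : Matrix (Σ t, n t) (Σ t, n t) L} (hE₀ : E₀ ∈ 𝓔)
    (hu : IsUnit E₀) {G : Type*} [Group G] (ρ : G →* Matrix (Σ t, n t) (Σ t, n t) L)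
    (cx cE : G →* L) (hρ : ∀ σ, (ρ σ).BlockTriangular fun i => v i.1)
    (hx : ∀ σ, tact (ρ σ) a = cx σ • a) (hE : SemiSp ρ cE 𝓔) :
    ∃ (M : Multiset (Σ t, n t)) (m m' c N : ℕ), M ≠ 0 ∧ (∀ i ∈ M, v i.1 < 0) ∧
      ∀ σ, cx σ ^ m * cE σ ^ m' * (M.map fun i => lowD (ρ σ) (fun j => v j.1) (v i.1)).prod *
        (ρ σ).det ^ (2 * c) = (ρ σ).det ^ (2 * N) := by
  have hpos : ∀ I, a I ≠ 0 → 1 ≤ ∑ j, v (I j).1 := fun I hI =>
    h.pos I (by rwa [tact_one])
  have hd : 2 * Fintype.card (Σ t, n t) ≠ 0 := by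
    obtain ⟨I, hI⟩ := Function.ne_iff.1 ha
    have h1 := hpos I hI
    rcases isEmpty_or_nonempty ι with e | ⟨⟨j⟩⟩
    · simp only [Finset.univ_eq_empty, Finset.sum_empty] at h1
      linarith
    · have : Nonempty (Σ t, n t) := ⟨I j⟩
      exact mul_ne_zero two_ne_zero Fintype.card_ne_zero
  let u : Lˣ := Units.mk0 2 two_ne_zero
  let H : ∀ t, G × (T → Lˣ) →* Matrix (n t) (n t) L := fun t =>
    { toFun := fun p => (p.2 t : L) • blockDiag' (ρ p.1) t
      map_one' := by simp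
      map_mul' := fun p q => by
        simp only [Prod.fst_mul, Prod.snd_mul, Pi.mul_apply, Units.val_mul, map_mul,
          blockDiag'_mul_tri hv (hρ _) (hρ _), Matrix.smul_mul, Matrix.mul_smul, smul_smul,
          mul_comm] }
  let Δ : T → G × (T → Lˣ) →* L := fun t => detMonoidHom.comp (H t)
  have hΔ : ∀ t p, Δ t p = (p.2 t : L) ^ Fintype.card (n t) * (blockDiag' (ρ p.1) t).det :=
    fun t p => det_smul _ _
  have hΔ1 : ∀ t σ, Δ t (σ, 1) = (blockDiag' (ρ σ) t).det := fun t σ => by simp [hΔ]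
  have hΔ2 : ∀ t, LvC_W v (fun t' => Δ t (1, Pi.mulSingle t' u)) (Fintype.card (n t) * v t) :=
    fun t => by simpa [hΔ] using LvC_W_single v (u := u) rfl t (Fintype.card (n t))
  let Z : T → G × (T → Lˣ) →* L := fun t =>
    (Units.coeHom L).comp ((Pi.evalMonoidHom (fun _ => Lˣ) t).comp (MonoidHom.snd _ _))
  have hZ : ∀ t p, Z t p = p.2 t := fun _ _ => rfl
  let φ : PR L n →ₐ[L] (G × (T → Lˣ) → L) :=
    AlgHom.pi fun p => evm L fun t => H t p
  have hφ : ∀ x p, φ x p = evm L (fun t => (p.2 t : L) • blockDiag' (ρ p.1) t) x := fun _ _ => rfl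
  have hφΔ : ∀ t p, evm L (fun t => (p.2 t : L) • blockDiag' (ρ p.1) t) (gm L n t).det = Δ t p :=
    fun t p => ((evm L fun t => H t p).toRingHom.map_det _).trans
      (congrArg det (TBasic_evm (fun t => H t p) t))
  let Q : Multiset (Σ t, n t) → ℝ → (G × (T → Lˣ) →* L) → Prop := fun M s ψ =>
    (∀ i ∈ M, v i.1 < 0) ∧ LvC_R cx cE (fun σ => (ρ σ).det)
      (fun i σ => lowD (ρ σ) (fun j => v j.1) (v i.1)) M (fun σ => ψ (σ, 1)) ∧
        LvC_W v (fun t => ψ (1, Pi.mulSingle t u)) s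
  let C : Set (G × (T → Lˣ) →* L) := {ψ | ∃ M s, (M = 0 → 0 < s) ∧ Q M s ψ}
  have hC : ∀ {M s χ}, (M = 0 → 0 ≤ s) → Q M s χ → ∀ ψ ∈ C, χ * ψ ∈ C := by
    rintro M s χ h0 ⟨h1, h2, h3⟩ ψ ⟨M', s', h0', h1', h2', h3'⟩
    refine ⟨M + M', s + s', fun e => ?_, fun i hi => ?_, LvC_R_mul h2 h2', LvC_W_mul h3 h3'⟩
    · rw [add_eq_zero] at e
      exact add_pos_of_nonneg_of_pos (h0 e.1) (h0' e.2)
    · exact (Multiset.mem_add.1 hi).elim (h1 i) (h1' i)
  have hW : ∀ {κ : Type} [Fintype κ] (e : G →* L) (I : κ → Σ t, n t), LvC_W v (fun t =>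
      (e.comp (MonoidHom.fst _ _) * ∏ j, Z (I j).1 : G × (T → Lˣ) →* L) (1, Pi.mulSingle t u))
        (∑ j, v (I j).1) := by
    intro κ _ e I
    simpa [hZ] using LvC_W_prod Finset.univ fun j => LvC_W_single v (u := u) rfl (I j).1 1
  have hQ1 : ∀ I : ι → Σ t, n t, lead (fun i : Σ t, n t => v i.1) 1 a I ≠ 0 →
      Q 0 1 (cx.comp (MonoidHom.fst _ _) * ∏ j, Z (I j).1) := by
    intro I hI
    have e : ∑ j, v (I j).1 = 1 := by
      by_contra e
      exact hI (if_neg e)
    exact ⟨by simp, ⟨1, 0, 0, fun σ => by simp [hZ]⟩, e ▸ hW cx I⟩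
  have hφ1 : ∀ I : ι → Σ t, n t, φ (gen (lead (fun i : Σ t, n t => v i.1) 1 a) I) =
      lead (fun i : Σ t, n t => v i.1) 1 a I •
        ⇑(cx.comp (MonoidHom.fst _ _) * ∏ j, Z (I j).1 : G × (T → Lˣ) →* L) :=
    fun I => funext fun p => by
    rw [hφ, LvC_gen hv (hρ _) hpos (hx _)]
    simp [hZ]
  have hφ5 : ∀ p, φ (DlGi L n fun _ => 2) p = (∏ t, Δ t ^ 2 : G × (T → Lˣ) →* L) p := fun p => by
    rw [hφ, evm_Dl]
    simp only [MonoidHom.finsetProd_apply, MonoidHom.pow_apply]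
    rfl
  have hs : ∀ k : ℕ, LvC_W v
      (fun t => ((∏ t, Δ t ^ 2) ^ k : G × (T → Lˣ) →* L) (1, Pi.mulSingle t u)) 0 := by
    intro k
    have h1 := LvC_W_prod (Finset.univ : Finset (Fin k × Fin 2)) fun _ =>
      LvC_W_prod Finset.univ hΔ2
    have h2 := h.sum
    rw [Fintype.sum_sigma] at h2
    simp only [Finset.sum_const, Finset.card_univ, nsmul_eq_mul] at h2
    rw [h2] at h1
    simpa [← Finset.prod_pow, ← pow_mul, mul_comm] using h1
  have h2 := fun I => LvC_mul φ (hφ1 I) fun hI => hC (fun _ => zero_le_one) (hQ1 I hI)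
  obtain ⟨S, hS⟩ := lev_id ha h hw hE₀ hu ((Submodule.span L
    ((fun ψ : G × (T → Lˣ) →* L => (ψ : G × (T → Lˣ) → L)) '' C)).comap φ.toLinearMap)
    (fun I => by
      obtain ⟨k, hk⟩ := Nat.exists_eq_succ_of_ne_zero hd
      rw [hk, pow_succ]
      refine h2 I k _ ?_
      rw [Submodule.mem_comap, AlgHom.toLinearMap_apply, hφ1]
      by_cases hI : lead (fun i : Σ t, n t => v i.1) 1 a I = 0
      · rw [hI, zero_smul]
        exact zero_mem _
      · exact Submodule.smul_mem _ _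
          (Submodule.subset_span ⟨_, ⟨0, 1, fun _ => one_pos, hQ1 I hI⟩, rfl⟩))
    (fun I => h2 I _)
    (fun E hE' I => by
      refine LvC_pow _ ?_ _
      have h5 := hE E hE'
      clear hE'
      induction h5 using Submodule.span_induction with
      | mem E hE' =>
        obtain ⟨hE', j, hj⟩ := hE'
        rw [← pow_one (gen _ I)]
        refine LvC_mul φ (c := lead (fun i : Σ t, n t => v i.1) 0 (tmat E) I)
          (χ := (cE ^ j).comp (MonoidHom.fst _ _) * ∏ j, Z (I j).1) (funext fun p => ?_)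
          (fun hI => ?_) _
        · rw [hφ, LvC_gen hv (hρ _) (e := cE p.1 ^ j)]
          · simp [hZ]
          · intro J hJ
            rw [Fintype.sum_bool, add_comm]
            exact h.iso E hE' _ _ (by simpa [tmat] using hJ)
          · rw [tact_tmat, hj]
            rfl
        · have e : ∑ j, v (I j).1 = 0 := by
            by_contra e
            exact hI (if_neg e)
          exact hC (M := 0) (s := 0) (fun _ => le_rfl)
            ⟨by simp, ⟨0, j, 0, fun σ => by simp [hZ]⟩, e ▸ hW (cE ^ j) I⟩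
      | zero =>
        intro y _
        rw [← zero_smul L (0 : Matrix _ _ L), LvC_smul, zero_smul, zero_mul]
        exact zero_mem _
      | add E E' _ _ h6 h7 =>
        intro y hy
        rw [LvC_add, add_mul]
        exact add_mem (h6 y hy) (h7 y hy)
      | smul c E _ h6 =>
        intro y hy
        rw [LvC_smul, smul_mul_assoc]
        exact Submodule.smul_mem _ _ (h6 y hy))
    (fun i hi => by
      refine LvC_mul φ (c := 1) (χ := ∏ t ∈ Finset.univ.filter fun t => v t ≤ v i.1, Δ t)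
        (funext fun p => ?_) (fun _ => hC (M := {i}) (fun e => absurd e (by simp))
          ⟨by simpa using hi, ⟨0, 0, 0, fun σ => ?_⟩, by simpa using LvC_W_prod _ hΔ2⟩) _
      · rw [hφ, map_prod]
        simp [hφΔ]
      · simp [hΔ1, lowD_tri hv (hρ σ)])
    (fun x hx' => by
      simpa using LvC_mul φ (x := DlGi L n fun _ => 2) (c := 1) (χ := ∏ t, Δ t ^ 2)
        (funext fun p => by rw [hφ5, one_smul]) (fun _ => hC (M := 0) (s := 0) (fun _ => le_rfl)
          ⟨by simp, ⟨0, 0, 1, fun σ => by simp [hΔ1, det_tri hv (hρ σ), Finset.prod_pow]⟩,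
            by simpa using hs 1⟩) 1 x hx')
  have hm : (∏ t, Δ t ^ 2) ^ S ∈ C := by
    by_contra e
    refine (linearIndependent_monoidHom (G × (T → Lˣ)) L).notMem_span_image e ?_
    rw [Submodule.mem_comap, AlgHom.toLinearMap_apply, map_pow] at hS
    convert hS using 1
    funext p
    rw [Pi.pow_apply, hφ5, MonoidHom.pow_apply]
  obtain ⟨M, s, h0, h1, ⟨m, m', c, h3⟩, h4⟩ := hm
  refine ⟨M, m, m', c, S, fun e => (h0 e).ne' (LvC_W_eq h4 (hs S)), h1, fun σ => ?_⟩
  rw [← h3 σ]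
  simp [hΔ1, det_tri hv (hρ σ), Finset.prod_pow, pow_mul]

end Pool.Agent.MP_0c8446_ag

end

section

namespace Pool.Agent.MP_0c8446_ag

open MvPolynomial Matrix

universe v

variable {L : Type v} [Field L] [IsAlgClosed L] [CharZero L] {D ι : Type} [Fintype D]
  [DecidableEq D] [Fintype ι] [DecidableEq ι]

section

variable {D' : Type} [Fintype D'] [DecidableEq D'] (e : D' ≃ D)

omit [IsAlgClosed L] [CharZero L] [DecidableEq D] [DecidableEq D'] in
theorem LvD_tact (g : Matrix D D L) (a : (ι → D) → L) (I : ι → D') :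
    tact (g.submatrix e e) (fun J => a (e ∘ J)) I = tact g a (e ∘ I) :=
  Fintype.sum_equiv (Equiv.piCongrRight fun _ => e) _ _ fun _ => rfl

omit [IsAlgClosed L] [CharZero L] [DecidableEq D] [DecidableEq D'] in
theorem LvD_conj (g E : Matrix D D L) :
    (g.submatrix e e)ᵀ * E.submatrix e e * g.submatrix e e = (gᵀ * E * g).submatrix e e := by
  rw [transpose_submatrix, submatrix_mul_equiv, submatrix_mul_equiv]

omit [IsAlgClosed L] [CharZero L] in
theorem LvD_unit {g : Matrix D D L} (h : IsUnit g) : IsUnit (g.submatrix e e) := by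
  rwa [isUnit_iff_isUnit_det, det_submatrix_equiv_self, ← isUnit_iff_isUnit_det]

omit [IsAlgClosed L] [CharZero L] in
theorem LvD_dst {a : (ι → D) → L} {𝓔 : Set (Matrix D D L)} {g : Matrix D D L} {w : D → ℝ}
    (h : Dst a 𝓔 g w) : Dst (fun J => a (e ∘ J)) ((fun E => E.submatrix e e) '' 𝓔)
      (g.submatrix e e) fun i => w (e i) := by
  refine ⟨LvD_unit e h.unit, by rw [e.sum_comp w, h.sum], fun I hI => ?_, ?_⟩
  · rw [LvD_tact] at hI
    exact h.pos _ hI
  · rintro _ ⟨E, hE, rfl⟩ i j hij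
    rw [LvD_conj] at hij
    exact h.iso E hE _ _ hij

omit [IsAlgClosed L] [CharZero L] in
theorem LvD_low (g : Matrix D D L) (w : D → ℝ) (r : ℝ) :
    lowD (g.submatrix e e) (fun i => w (e i)) r = lowD g w r := by
  classical
  unfold lowD
  rw [← det_submatrix_equiv_self
    (e.subtypeEquiv (p := fun j => w (e j) ≤ r) (q := fun j => w j ≤ r) fun _ => Iff.rfl)]
  congr 1

end

omit [IsAlgClosed L] [CharZero L] in
theorem LvD_opt {D' : Type} [Fintype D'] [DecidableEq D'] (e : D' ≃ D) {a : (ι → D) → L}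
    {𝓔 : Set (Matrix D D L)} {w : D → ℝ} (h : Opt a 𝓔 w) :
    Opt (fun J => a (e ∘ J)) ((fun E => E.submatrix e e) '' 𝓔) fun i => w (e i) := by
  intro g' w' h'
  have h1 := LvD_dst e.symm h'
  have ea : (fun J : ι → D => a (e ∘ e.symm ∘ J)) = a := by
    funext J
    congr 1
    funext j
    simp
  have eE : (fun E : Matrix D' D' L => E.submatrix e.symm e.symm) ''
      ((fun E : Matrix D D L => E.submatrix e e) '' 𝓔) = 𝓔 := by
    rw [Set.image_image]
    simp
  rw [ea, eE] at h1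
  have := h _ _ h1
  rw [e.sum_comp fun i => w i ^ 2, ← e.symm.sum_comp fun i => w' i ^ 2]
  exact this

/-- The same for any index type. -/
theorem lev_rel {w : D → ℝ} {a : (ι → D) → L} (ha : a ≠ 0) {𝓔 : Set (Matrix D D L)}
    (h : Dst a 𝓔 1 w) (hw : Opt a 𝓔 w) {E₀ : Matrix D D L} (hE₀ : E₀ ∈ 𝓔) (hu : IsUnit E₀)
    {G : Type*} [Group G] (ρ : G →* Matrix D D L) (cx cE : G →* L)
    (hρ : ∀ σ, (ρ σ).BlockTriangular w) (hx : ∀ σ, tact (ρ σ) a = cx σ • a)
    (hE : SemiSp ρ cE 𝓔) :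
    ∃ (M : Multiset D) (m m' c N : ℕ), M ≠ 0 ∧ (∀ i ∈ M, w i < 0) ∧
      ∀ σ, cx σ ^ m * cE σ ^ m' * (M.map fun i => lowD (ρ σ) w (w i)).prod *
        (ρ σ).det ^ (2 * c) = (ρ σ).det ^ (2 * N) := by
  obtain ⟨T, _, _, v, τ, hi, hτ⟩ : ∃ (T : Type) (_ : Fintype T) (_ : DecidableEq T) (v : T → ℝ)
      (τ : D → T), Function.Injective v ∧ ∀ i, v (τ i) = w i := by
    classical
    exact ⟨{r // r ∈ Finset.univ.image w}, FinsetCoe.fintype _, inferInstance, Subtype.val,
      fun i => ⟨w i, Finset.mem_image_of_mem w (Finset.mem_univ i)⟩, Subtype.val_injective,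
      fun _ => rfl⟩
  let e : (Σ t, {i // τ i = t}) ≃ D := Equiv.sigmaFiberEquiv τ
  have hv : (fun i : Σ t, {i // τ i = t} => v i.1) = fun i => w (e i) := by
    funext i
    exact (congrArg v i.2.2).symm.trans (hτ _)
  have hv' : ∀ i : Σ t, {i // τ i = t}, v i.1 = w (e i) := congrFun hv
  let ρ' : G →* Matrix (Σ t, {i // τ i = t}) (Σ t, {i // τ i = t}) L :=
    { toFun := fun σ => (ρ σ).submatrix e e
      map_one' := by rw [map_one, submatrix_one_equiv]
      map_mul' := fun σ σ' => by rw [map_mul, submatrix_mul_equiv] }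
  have hd := LvD_dst e h
  rw [submatrix_one_equiv, ← hv] at hd
  have ho := LvD_opt e hw
  rw [← hv] at ho
  have ha' : (fun J : ι → Σ t, {i // τ i = t} => a (e ∘ J)) ≠ 0 := fun h0 => ha (by
    funext I
    have := congrFun h0 (e.symm ∘ I)
    simpa [← Function.comp_assoc] using this)
  obtain ⟨M, m, m', c, N, h1, h2, h3⟩ := lev_blk (v := v)
    (n := fun t => {i // τ i = t}) hi ha' hd ho ⟨E₀, hE₀, rfl⟩
    (LvD_unit e hu) ρ' cx cE (fun σ i j hij => hρ σ (show w (e j) < w (e i) by rwa [← hv', ← hv']))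
    (fun σ => funext fun I => (LvD_tact e (ρ σ) a I).trans (by rw [hx]; rfl))
    (hE.map (RingHom.id L) _ (fun _ _ => rfl) (fun _ _ => rfl) fun σ E => LvD_conj e (ρ σ) E)
  refine ⟨M.map e, m, m', c, N, by simpa using h1, fun i hi => ?_, fun σ => ?_⟩
  · obtain ⟨j, hj, rfl⟩ := Multiset.mem_map.1 hi
    rw [← hv']
    exact h2 j hj
  · have h4 := h3 σ
    have h5 : (ρ' σ).det = (ρ σ).det := det_submatrix_equiv_self e (ρ σ)
    have h6 : (fun i : Σ t, {i // τ i = t} =>
        lowD (ρ' σ) (fun j : Σ t, {i // τ i = t} => v j.1) (v i.1)) =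
        (fun i => lowD (ρ σ) w (w i)) ∘ e := by
      funext i
      rw [hv, hv']
      exact LvD_low e (ρ σ) w _
    rw [h5, h6] at h4
    rwa [Multiset.map_map]

end Pool.Agent.MP_0c8446_ag

end

section

namespace Pool.Agent.MP_0c8446_ag

open MvPolynomial Matrix

universe v

variable {L : Type v} [Field L] {D ι : Type} [Fintype D] [DecidableEq D] [Fintype ι]
  [DecidableEq ι] {a : (ι → D) → L} {𝓔 : Set (Matrix D D L)}

theorem Kempf2_mul {g c : Matrix D D L} {w w' : D → ℝ} (h : Dst a 𝓔 g w) (hc : IsUnit c)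
    (hcw : ∀ i j, c i j ≠ 0 → w i ≤ w' j) (hs : ∑ i, w' i = 0) : Dst a 𝓔 (g * c) w' := by
  refine ⟨h.unit.mul hc, hs, fun I hI => ?_, fun E hE i j hij => ?_⟩
  · rw [tact_mul] at hI
    obtain ⟨J, hJ, hJI⟩ := tact_ne_zero hI
    exact (h.pos J hJ).trans (Finset.sum_le_sum fun j _ => hcw _ _ (hJI j))
  · have e : (g * c)ᵀ * E * (g * c) = cᵀ * (gᵀ * E * g) * c := by
      simp only [transpose_mul, Matrix.mul_assoc]
    rw [e, Matrix.mul_apply] at hij
    obtain ⟨j', -, hj'⟩ := Finset.exists_ne_zero_of_sum_ne_zero hij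
    have h1 := left_ne_zero_of_mul hj'
    rw [Matrix.mul_apply] at h1
    obtain ⟨i', -, hi'⟩ := Finset.exists_ne_zero_of_sum_ne_zero h1
    have h2 := h.iso E hE i' j' (right_ne_zero_of_mul hi')
    have h3 := hcw i' i (left_ne_zero_of_mul hi')
    have h4 := hcw j' j (right_ne_zero_of_mul hj')
    linarith

theorem Kempf2_tri {g c : Matrix D D L} {w : D → ℝ} (h : Dst a 𝓔 g w) (hc : IsUnit c)
    (hcw : c.BlockTriangular w) : Dst a 𝓔 (g * c) w :=
  Kempf2_mul h hc (fun _ _ e => not_lt.1 fun hlt => e (hcw hlt)) h.sum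

theorem Kempf2_closed (a : (ι → D) → L) (𝓔 : Set (Matrix D D L)) :
    IsClosed {w : D → ℝ | ∃ g, Dst a 𝓔 g w} := by
  have h : {w : D → ℝ | ∃ g, Dst a 𝓔 g w} =
      ⋃ S : {S : Set (ι → D) × Set (D × D) | ∃ g : Matrix D D L, IsUnit g ∧
        S = ({I | tact g a I ≠ 0}, {p | ∃ E ∈ 𝓔, (gᵀ * E * g) p.1 p.2 ≠ 0})},
      ({w : D → ℝ | ∑ i, w i = 0} ∩ (⋂ I ∈ S.1.1, {w : D → ℝ | 1 ≤ ∑ j, w (I j)}) ∩
        ⋂ p ∈ S.1.2, {w : D → ℝ | 0 ≤ w p.1 + w p.2}) := by
    ext w
    simp only [Set.mem_ofPred_eq, Set.mem_iUnion, Set.mem_inter_iff, Set.mem_iInter]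
    constructor
    · rintro ⟨g, hg⟩
      exact ⟨⟨_, g, hg.unit, rfl⟩, ⟨hg.sum, fun I hI => hg.pos I hI⟩,
        fun p ⟨E, hE, hp⟩ => hg.iso E hE _ _ hp⟩
    · rintro ⟨⟨S, g, hg, rfl⟩, ⟨h0, h1⟩, h2⟩
      exact ⟨g, hg, h0, fun I hI => h1 I hI, fun E hE i j hij => h2 (i, j) ⟨E, hE, hij⟩⟩
  rw [h]
  refine isClosed_iUnion_of_finite fun S => IsClosed.inter (IsClosed.inter ?_ ?_) ?_
  · exact isClosed_eq (by fun_prop) continuous_const
  · exact isClosed_biInter fun I _ => isClosed_le continuous_const (by fun_prop)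
  · exact isClosed_biInter fun p _ => isClosed_le continuous_const (by fun_prop)

/-- There is an optimal destabilising pair. -/
theorem exists_opt {g₀ : Matrix D D L} {w₀ : D → ℝ} (h : Dst a 𝓔 g₀ w₀) :
    ∃ g w, Dst a 𝓔 g w ∧ Opt a 𝓔 w := by
  obtain ⟨w, ⟨g, hg⟩, hmin⟩ := Kempf_min (Kempf2_closed a 𝓔) ⟨w₀, g₀, h⟩
  exact ⟨g, w, hg, fun g' w' h' => hmin w' ⟨g', h'⟩⟩

/-- Kempf: the flag of an optimal destabilising pair is unique. -/
theorem kempf2 {g g' : Matrix D D L} {w : D → ℝ} (h : Dst a 𝓔 g w) (h' : Dst a 𝓔 g' w)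
    (hw : Opt a 𝓔 w) : (g⁻¹ * g').BlockTriangular w := by
  have hk : IsUnit (g⁻¹ * g') := (Matrix.isUnit_nonsing_inv_iff.2 h.unit).mul h'.unit
  obtain ⟨b, b', σ, hb, hb', hbt, hbt', hk'⟩ := exists_bruhat_w w hk
  have hgd : IsUnit g.det := (Matrix.isUnit_iff_isUnit_det _).1 h.unit
  have hbd : IsUnit b'.det := (Matrix.isUnit_iff_isUnit_det _).1 hb'
  have h3 : Dst a 𝓔 (g' * b'⁻¹) w := by
    refine Kempf2_tri h' (Matrix.isUnit_nonsing_inv_iff.2 hb') ?_
    let _ := hb'.invertible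
    exact Matrix.blockTriangular_inv_of_blockTriangular hbt'
  set w' : D → ℝ := fun d => w (σ.symm d) with hw'
  have hs : ∀ f : ℝ → ℝ, ∑ i, f (w' i) = ∑ i, f (w i) := fun f =>
    Equiv.sum_comp σ.symm fun i => f (w i)
  have hs0 : ∑ i, w' i = 0 := (hs id).trans h.sum
  have hP : IsUnit (Matrix.of fun i j => if j = σ i then (1 : L) else 0) :=
    IsUnit.of_mul_eq_one_right _ (Kempf_perm σ)
  have h4 : Dst a 𝓔 (g' * b'⁻¹ * Matrix.of fun i j => if j = σ i then (1 : L) else 0) w' := by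
    refine Kempf2_mul h3 hP (fun i j hij => ?_) hs0
    have : j = σ i := by
      by_contra hne
      exact hij (by simp [hne])
    simp [hw', this]
  have h5 : (g' * b'⁻¹ * Matrix.of fun i j => if j = σ i then (1 : L) else 0) = g * b := by
    have e : g' = g * (g⁻¹ * g') := by
      rw [← Matrix.mul_assoc, Matrix.mul_nonsing_inv _ hgd, Matrix.one_mul]
    rw [e, hk']
    simp only [Matrix.mul_assoc]
    rw [← Matrix.mul_assoc b', Matrix.mul_nonsing_inv _ hbd, Matrix.one_mul, Kempf_perm,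
      Matrix.mul_one]
  rw [h5] at h4
  have h6 : Dst a 𝓔 (g * b) w := Kempf2_tri h hb hbt
  have h7 : Dst a 𝓔 (g * b) fun d => (w d + w' d) / 2 := by
    refine ⟨h6.unit, ?_, fun I hI => ?_, fun E hE i j hij => ?_⟩
    · rw [← Finset.sum_div, Finset.sum_add_distrib, hs0, h.sum]
      norm_num
    · have e1 := h4.pos I hI
      have e2 := h6.pos I hI
      rw [← Finset.sum_div, Finset.sum_add_distrib]
      linarith
    · have e1 := h4.iso E hE i j hij
      have e2 := h6.iso E hE i j hij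
      linarith
  have h8 : w' = w := Kempf_par (hs fun r => r ^ 2) (hw _ _ h7)
  rw [hk']
  refine (hbt.mul ?_).mul hbt'
  intro j i hlt
  have hne : j ≠ σ i := by
    rintro rfl
    have := congrFun h8 (σ i)
    simp only [hw', Equiv.symm_apply_apply] at this
    exact absurd hlt (by simp [this])
  simp [hne]

end Pool.Agent.MP_0c8446_ag

end

section

namespace Pool.Agent.MP_0c8446_ag

open MvPolynomial Matrix

universe v

variable {K : Type v} [Field K] [CharZero K] {D ι : Type} [Fintype D] [DecidableEq D] [Fintype ι]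
  [DecidableEq ι]

omit [CharZero K] in
theorem GitMain_dst {L : Type v} [Field L] {a : (ι → D) → L} {𝓔 : Set (Matrix D D L)}
    {g N : Matrix D D L} {w : D → ℝ} (h : Dst a 𝓔 g w) (hN : IsUnit N) {c : L}
    (hx : tact N a = c • a) (hE : ∀ E ∈ 𝓔, Nᵀ * E * N ∈ Submodule.span L 𝓔) :
    Dst a 𝓔 (N * g) w := by
  refine ⟨hN.mul h.unit, h.sum, fun I hI => h.pos I fun e => hI ?_, fun E h1 i j hij => ?_⟩
  · rw [tact_mul, hx, tact_smul, Pi.smul_apply, e, smul_zero]
  · have : (N * g)ᵀ * E * (N * g) = gᵀ * (Nᵀ * E * N) * g := by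
      simp only [transpose_mul, Matrix.mul_assoc]
    exact h.iso_span _ (hE E h1) i j (this ▸ hij)

theorem GitMain_gal {L : Type v} [Field L] {a : (ι → D) → L} {𝓔 : Set (Matrix D D L)}
    {g : Matrix D D L} {w : D → ℝ} (h : Dst a 𝓔 g w) (γ : L →+* L)
    (hx : ∀ I, γ (a I) = a I) (hE : ∀ E ∈ 𝓔, E.map γ = E) : Dst a 𝓔 (g.map γ) w := by
  refine ⟨h.unit.map γ.mapMatrix, h.sum, fun I hI => h.pos I fun e => hI ?_,
    fun E h1 i j hij => h.iso E h1 i j fun e0 => hij ?_⟩
  · have := tact_map γ g a I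
    rw [e, map_zero] at this
    rw [this]
    exact congrArg (fun u => tact (g.map γ) u I) (funext fun J => (hx J).symm)
  · have : (gᵀ * E * g).map γ = (g.map γ)ᵀ * E * g.map γ := by
      rw [Matrix.map_mul, Matrix.map_mul, hE E h1, transpose_map]
    rw [← this, Matrix.map_apply, e0, map_zero]

/-- An unstable semi-invariant tensor gives rational isotropic invariant subspaces with a relation
between their determinants. -/
theorem git_main {a : (ι → D) → K} (ha : a ≠ 0) {𝓔 : Set (Matrix D D K)} {E₀ : Matrix D D K}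
    (hE₀ : E₀ ∈ 𝓔) (hu : IsUnit E₀) {G : Type*} [Group G] (ρ : G →* Matrix D D K)
    (cx cE : G →* Kˣ) (hx : ∀ σ, tact (ρ σ) a = (cx σ : K) • a)
    (hE : SemiSp ρ (fun σ => (cE σ : K)) 𝓔) {j₀ : ℕ}
    (hE₁ : ∀ σ, (ρ σ)ᵀ * E₀ * ρ σ = (cE σ : K) ^ j₀ • E₀)
    {g₀ : Matrix D D (AlgebraicClosure K)} {w₀ : D → ℝ}
    (h : Dst (fun I => algebraMap K (AlgebraicClosure K) (a I))
      ((fun E => E.map (algebraMap K (AlgebraicClosure K))) '' 𝓔) g₀ w₀) :
    ∃ M : Multiset (Submodule K (D → K)), (∃ S ∈ M, S ≠ ⊥) ∧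
      (∀ S ∈ M, ∀ S' ∈ M, ∀ E ∈ 𝓔, ∀ x ∈ S, ∀ y ∈ S', x ⬝ᵥ E *ᵥ y = 0) ∧
      ∃ i j : ℤ, ∀ σ, (M.map (detOn (toLin' (ρ σ)))).prod = ((cx σ ^ i * cE σ ^ j : Kˣ) : K) := by
  obtain ⟨g, w, hd, ho⟩ := exists_opt h
  generalize hφ : algebraMap K (AlgebraicClosure K) = φ at hd ho
  have inj : Function.Injective φ := φ.injective
  have hg := hd.unit
  have hgd : IsUnit g.det := (isUnit_iff_isUnit_det g).1 hg
  have hρu : ∀ σ, IsUnit ((ρ σ).map φ) := fun σ =>
    ((Group.isUnit σ).map ρ).map φ.mapMatrix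
  have hx' : ∀ σ, tact ((ρ σ).map φ) (fun I => φ (a I)) = φ (cx σ) • fun I => φ (a I) := by
    intro σ
    funext I
    rw [← tact_map, hx, Pi.smul_apply, Pi.smul_apply, smul_eq_mul, smul_eq_mul, map_mul]
  have hE' := hE.map φ (fun E => E.map φ) (fun _ _ => Matrix.map_add _ (map_add φ) _ _)
    (fun c E => by ext i j; simp) (ρ' := fun σ => (ρ σ).map φ) fun σ E => by
      rw [← transpose_map, ← Matrix.map_mul, ← Matrix.map_mul]
  have tri : ∀ σ, (g⁻¹ * (ρ σ).map φ * g).BlockTriangular w := fun σ => by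
    rw [Matrix.mul_assoc]
    exact kempf2 hd (GitMain_dst hd (hρu σ) (hx' σ) (hE'.mem σ)) ho
  have gal : ∀ r, ∀ γ : AlgebraicClosure K ≃ₐ[K] AlgebraicClosure K, ∀ x ∈ lowS g w r,
      (fun i => γ (x i)) ∈ lowS g w r := by
    intro r γ x hx
    have hγ : ∀ c, (γ : AlgebraicClosure K →+* AlgebraicClosure K) (φ c) = φ c := fun c => by
      rw [← hφ]
      exact γ.commutes c
    refine lowS_le hg (kempf2 hd (GitMain_gal hd γ (fun I => hγ _) ?_) ho) r ?_
    · rintro _ ⟨E, -, rfl⟩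
      ext i j
      exact hγ _
    · induction hx using Submodule.span_induction with
      | mem x hx =>
        obtain ⟨j, rfl⟩ := hx
        exact Submodule.subset_span ⟨j, rfl⟩
      | zero =>
        simp only [Pi.zero_apply, map_zero]
        exact zero_mem _
      | add x y _ _ h1 h2 =>
        simp only [Pi.add_apply, map_add]
        exact add_mem h1 h2
      | smul c x _ h1 =>
        simp only [Pi.smul_apply, smul_eq_mul, map_mul]
        exact Submodule.smul_mem _ (γ c) h1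
  let ρ' : G →* Matrix D D (AlgebraicClosure K) :=
    { toFun := fun σ => g⁻¹ * (ρ σ).map φ * g
      map_one' := by
        rw [map_one, Matrix.map_one _ (map_zero φ) (map_one φ), Matrix.mul_one,
          nonsing_inv_mul _ hgd]
      map_mul' := fun σ τ => by
        rw [map_mul, Matrix.map_mul]
        simp only [Matrix.mul_assoc]
        rw [mul_nonsing_inv_cancel_left _ _ hgd] }
  have hρ' : ∀ σ, ρ' σ = g⁻¹ * (ρ σ).map φ * g := fun _ => rfl
  have gρ : ∀ σ, g * ρ' σ = (ρ σ).map φ * g := fun σ => by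
    rw [hρ', Matrix.mul_assoc, mul_nonsing_inv_cancel_left _ _ hgd]
  have ha' : tact g (fun I => φ (a I)) ≠ 0 := fun e => ha (funext fun I =>
    inj ((congrFun (tact_eq_zero hg e) I).trans (map_zero φ).symm))
  have hgt : IsUnit gᵀ := by
    rw [isUnit_iff_isUnit_det, det_transpose]
    exact hgd
  obtain ⟨M, m, m', c, N, hM, hneg, hrel⟩ := lev_rel ha'
    ((Dst.conj (g' := 1) hg).2 (by rwa [Matrix.mul_one])) (ho.conj hg)
    ⟨_, ⟨E₀, hE₀, rfl⟩, rfl⟩ ((hgt.mul (hu.map φ.mapMatrix)).mul hg) ρ'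
    ((φ.toMonoidHom.comp (Units.coeHom K)).comp cx)
    ((φ.toMonoidHom.comp (Units.coeHom K)).comp cE) tri
    (fun σ => by
      rw [← tact_mul, gρ, tact_mul, hx', tact_smul]
      rfl)
    (hE'.map (RingHom.id _) (fun E => gᵀ * E * g)
      (fun _ _ => by rw [Matrix.mul_add, Matrix.add_mul])
      (fun _ _ => by rw [Matrix.mul_smul, Matrix.smul_mul]; rfl) fun σ E => by
      have : (ρ' σ)ᵀ * (gᵀ * E * g) * ρ' σ = (g * ρ' σ)ᵀ * E * (g * ρ' σ) := by
        simp only [transpose_mul, Matrix.mul_assoc]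
      rw [this, gρ]
      simp only [transpose_mul, Matrix.mul_assoc])
  choose S h1 h2 h3 using fun r => desc_det fix_closure (lowS g w r) (gal r)
  rw [hφ] at h1 h3
  refine ⟨M.map fun i => S (w i), ?_, ?_, -(m : ℤ),
    (j₀ * Fintype.card D * N : ℕ) - (j₀ * Fintype.card D * c : ℕ) - m', fun σ => ?_⟩
  · obtain ⟨i, hi⟩ := Multiset.exists_mem_of_ne_zero hM
    exact ⟨_, Multiset.mem_map_of_mem _ hi, fun e => lowS_ne_bot hg i (h2 _ e)⟩
  · intro S₁ hS₁ S₂ hS₂ E h4 x hx y hy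
    obtain ⟨i, hi, rfl⟩ := Multiset.mem_map.1 hS₁
    obtain ⟨j, hj, rfl⟩ := Multiset.mem_map.1 hS₂
    have := lowS_orth (hd.iso _ ⟨E, h4, rfl⟩) (add_neg (hneg i hi) (hneg j hj)) _
      ((h1 _ x).1 hx) _ ((h1 _ y).1 hy)
    refine inj ?_
    rw [map_zero, ← this, RingHom.map_dotProduct]
    congr 1
    funext k
    exact RingHom.map_mulVec φ E y k
  · have e1 : (ρ' σ).det = φ (ρ σ).det := by
      rw [hρ', det_mul, det_mul, mul_right_comm, ← det_mul, nonsing_inv_mul _ hgd, det_one,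
        one_mul]
      exact (φ.map_det _).symm
    have e2 : (ρ σ).det ^ 2 = (cE σ : K) ^ (j₀ * Fintype.card D) := by
      have := congrArg det (hE₁ σ)
      rw [det_mul, det_mul, det_transpose, det_smul, mul_right_comm, ← sq, ← pow_mul] at this
      exact mul_right_cancel₀ ((isUnit_iff_isUnit_det _).1 hu).ne_zero this
    have e3 : (M.map fun i => lowD (ρ' σ) w (w i)).prod =
        φ ((M.map fun i => S (w i)).map (detOn (toLin' (ρ σ)))).prod := by
      rw [map_multiset_prod, Multiset.map_map, Multiset.map_map]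
      refine congrArg _ (Multiset.map_congr rfl fun i _ => ?_)
      simp only [Function.comp_apply]
      rw [h3 _ _ (lowS_stab hg (tri σ) _), detOn_lowS hg (tri σ)]
      rfl
    have e4 := hrel σ
    rw [e3, e1] at e4
    generalize ((M.map fun i => S (w i)).map (detOn (toLin' (ρ σ)))).prod = P at e4 ⊢
    have e5 : (cx σ : K) ^ m * (cE σ : K) ^ m' * P * (ρ σ).det ^ (2 * c) =
        (ρ σ).det ^ (2 * N) := by
      refine inj ?_
      simp only [map_mul, map_pow]
      exact e4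
    rw [pow_mul, pow_mul, e2, ← pow_mul, ← pow_mul] at e5
    have n1 := (cx σ).ne_zero
    have n2 := (cE σ).ne_zero
    rw [Units.val_mul, Units.val_zpow_eq_zpow_val, Units.val_zpow_eq_zpow_val,
      _root_.zpow_neg, zpow_sub₀ n2, zpow_sub₀ n2,
      _root_.zpow_natCast, _root_.zpow_natCast, _root_.zpow_natCast, _root_.zpow_natCast, ← e5]
    field_simp

end Pool.Agent.MP_0c8446_ag

end
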