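import Pool.Agent.Mg.F0c8446.G1b497e

section

namespace Pool.Agent.MP_0c8446_ag

open MvPolynomial Set

universe u v w

variable {k : Type u} [Field k] [IsAlgClosed k]
  {Ω Ω' : Type u} [Field Ω] [Algebra k Ω] [Field Ω'] [Algebra k Ω']

theorem Locus_spec {σ : Type} [Finite σ] (x : σ → Ω) {f : MvPolynomial σ k} (hf : aeval x f ≠ 0) :
    ∃ x₀ : σ → k, kr k x ≤ kr k x₀ ∧ aeval x₀ f ≠ 0 := by
  have : (kr k x).IsPrime := RingHom.ker_isPrime _
  have h : f ∉ vanishingIdeal k (zeroLocus k (kr k x)) := by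
    rw [IsPrime.vanishingIdeal_zeroLocus]
    exact hf
  simp only [mem_vanishingIdeal_iff, not_forall] at h
  obtain ⟨x₀, h1, h2⟩ := h
  exact ⟨x₀, h1, h2⟩

theorem vI_loc {ι : Type} [Finite ι] {n : ι → ℕ} {v : Vars n → Ω} (hv : NZb v) :
    vI (loc k v) = pI k v := by
  refine le_antisymm (fun f hf => mem_pI_iff.2 fun d => ?_) fun f hf x hx => hx f hf
  by_contra hne
  have := Fintype.ofFinite ι
  choose s hs using hv
  obtain ⟨x, h1, h2⟩ := Locus_spec v (f := cmp d f * ∏ i, MvPolynomial.X ⟨i, s i⟩) (by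
    simp only [map_mul, map_prod, aeval_X]
    exact mul_ne_zero hne (Finset.prod_ne_zero_iff.2 fun i _ => hs i))
  simp only [map_mul, map_prod, aeval_X] at h2
  have h3 := amb_isRep x fun i h => Finset.prod_ne_zero_iff.1 (right_ne_zero_of_mul h2) i
    (Finset.mem_univ i) (congrFun h (s i))
  exact left_ne_zero_of_mul h2 (cmp_mem_vI hf d _
    (fun g hg => (vanish_iff_mem_pI h3).2 (pI_le_of_kr_le h1 hg)) x h3)

theorem isSub_loc {ι : Type} [Finite ι] {n : ι → ℕ} {v : Vars n → Ω} (hv : NZb v) :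
    IsSub (loc k v) := by
  refine ⟨isIrreducible_of_prime (vI_loc (k := k) hv ▸ pI_isPrime v), ?_⟩
  have : loc k v = ⋂ f ∈ pI k v, {x | Vanish f x} := by
    ext x
    simp only [mem_iInter]
    rfl
  rw [this]
  exact isClosed_biInter fun f _ => isClosed_vanish f

variable {X : Var k} {v v' : Vars X.n → Ω} {u : Vars X.n → Ω'}

theorem Locus_sub (hv : X.On v) : loc k v ⊆ range (Subtype.val : X.pts → _) := by
  rw [Subtype.range_coe]
  exact subset_of_vI_le X.sub.2 (hv.2.trans (vI_loc hv.1).ge)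

theorem Locus_eq {C : Set X.pts} (hC : IsClosed C) (h : pI k v = vI (Subtype.val '' C)) :
    X.loc v = C := by
  ext x
  rw [← Subtype.val_injective.mem_set_image (s := C),
    ← (X.sub.2.isClosedEmbedding_subtypeVal.isClosedMap _ hC).closure_eq, mem_closure_vI, ← h]
  rfl

theorem Var.On.image_loc (hv : X.On v) : Subtype.val '' X.loc v = MP_0c8446_ag.loc k v :=   image_preimage_eq_of_subset (Locus_sub hv)

theorem Var.On.vI_loc (hv : X.On v) : vI (Subtype.val '' X.loc v) = pI k v := by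
  rw [hv.image_loc, MP_0c8446_ag.vI_loc hv.1]

theorem Var.On.isSub (hv : X.On v) : IsSub (X.loc v) :=   geoGen2_preimage Topology.IsInducing.subtypeVal (isSub_loc hv.1) (Locus_sub hv)

omit [IsAlgClosed k] in
theorem Var.On.of_le (hv : X.On v) (hu : NZb u) (h : pI k v ≤ pI k u) : X.On u :=   ⟨hu, hv.2.trans h⟩

omit [IsAlgClosed k] in
theorem Var.On.par (hv : X.On v) (h : ParOn univ v v') : X.On v' :=   ⟨h.nzb hv.1, hv.2.trans h.pI_eq.ge⟩

omit [IsAlgClosed k] in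
theorem Var.On.map (hv : X.On v) (φ : Ω →ₐ[k] Ω') : X.On fun a => φ (v a) :=   ⟨hv.1.map φ, hv.2.trans (pI_map φ v).ge⟩

omit [IsAlgClosed k] in
theorem Var.loc_subset (h : pI k v ≤ pI k u) : X.loc u ⊆ X.loc v :=   fun _ hx f hf => hx f (h hf)

theorem Var.On.pI_le (hu : X.On u) (h : X.loc u ⊆ X.loc v) : pI k v ≤ pI k u := by
  rw [← hu.vI_loc]
  rintro f hf _ ⟨x, hx, rfl⟩
  exact h hx f hf

omit [IsAlgClosed k] in
theorem Var.loc_congr (h : pI k v = pI k u) : X.loc v = X.loc u :=   (Var.loc_subset h.ge).antisymm (Var.loc_subset h.le)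

omit [IsAlgClosed k] in
theorem Var.loc_par (h : ParOn univ v v') : X.loc v' = X.loc v :=   Var.loc_congr h.pI_eq

omit [IsAlgClosed k] in
theorem Var.loc_map (φ : Ω →ₐ[k] Ω') (v : Vars X.n → Ω) :
    X.loc (fun a => φ (v a)) = X.loc v :=   Var.loc_congr (pI_map φ v)

theorem Var.On.vanish_iff (hv : X.On v) {d : X.ι →₀ ℕ} {F : MvPolynomial (Vars X.n) k}
    (hF : IsForm d F) : (∀ x ∈ X.loc v, Vanish F x.1) ↔ aeval v F = 0 := by
  rw [← hF.mem_pI, ← hv.vI_loc, mem_vI, forall_mem_image]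

/-- Generic points. -/
theorem Var.exists_generic (X : Var k) {C : Set X.pts} (hC : IsSub C) :
    ∃ (Ω : Type u) (_ : Field Ω) (_ : Algebra k Ω) (_ : IsAlgClosed Ω) (v : Vars X.n → Ω),
      X.On v ∧ X.loc v = C := by
  have hP := vI_isPrime (hC.1.image Subtype.val continuous_subtype_val.continuousOn)
  let R := MvPolynomial (Vars X.n) k ⧸ vI (Subtype.val '' C)
  let Ω := AlgebraicClosure (FractionRing R)
  let φ : MvPolynomial (Vars X.n) k →ₐ[k] Ω :=
    (IsScalarTower.toAlgHom k R Ω).comp (Ideal.Quotient.mkₐ k _)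
  have h1 : ∀ f, aeval (fun a => φ (MvPolynomial.X a)) f = 0 ↔ f ∈ vI (Subtype.val '' C) := by
    intro f
    rw [← Ideal.Quotient.eq_zero_iff_mem, ← comp_aeval_apply, aeval_X_left_apply]
    exact map_eq_zero_iff (algebraMap R Ω) ((algebraMap (FractionRing R) Ω).injective.comp
      (IsFractionRing.injective R (FractionRing R)))
  have h2 : pI k (fun a => φ (MvPolynomial.X a)) = vI (Subtype.val '' C) := by
    ext f
    simp only [mem_pI_iff, h1]
    exact ⟨fun h => sum_cmp f ▸ Ideal.sum_mem _ fun d _ => h d, cmp_mem_vI⟩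
  refine ⟨Ω, inferInstance, inferInstance, inferInstance, _, ⟨fun i => ?_, h2.ge.trans' (vI_anti
    (Subtype.coe_image_subset _ _))⟩, Locus_eq hC.2 h2⟩
  obtain ⟨x, hx⟩ := hC.1.1
  obtain ⟨s, hs⟩ := (isRep_rep x.1).nzb i
  refine ⟨s, fun h => hs ?_⟩
  simpa using (h1 (MvPolynomial.X ⟨i, s⟩)).1 (by rwa [aeval_X]) _ ⟨x, hx, rfl⟩ _ (isRep_rep x.1)

theorem Var.on_of_isRep {v : Vars X.n → k} {x : X.pts} (hv : IsRep v x.1) :
    X.On v ∧ X.loc v = {x} := by
  refine ⟨⟨hv.nzb, fun f hf => (vanish_iff_mem_pI hv).1 (hf _ x.2)⟩,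
    Locus_eq isClosed_singleton ?_⟩
  ext f
  simp only [← vanish_iff_mem_pI hv, mem_vI, image_singleton, mem_singleton_iff, forall_eq]

theorem Var.On.exists_isRep {v : Vars X.n → k} (hv : X.On v) : ∃ x : X.pts, IsRep v x.1 := by
  have h := amb_isRep v fun i => Function.ne_iff.2 (hv.1 i)
  exact ⟨⟨_, X.sub.2.closure_subset (mem_closure_vI.2 fun f hf =>
    (vanish_iff_mem_pI h).2 (hv.2 hf))⟩, h⟩

theorem on_amb {ι : Type} [Fintype ι] {n : ι → ℕ} {v : Vars n → Ω} (hv : NZb v) :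
    (amb k n).On v :=   ⟨hv, (vI_anti (subset_univ _)).trans (vI_loc hv).le⟩

theorem mem_hyp_iff {ι : Type} {n : ι → ℕ} (i : ι) (c : Fin (n i + 1) → k) (x : MP k n) :
    x ∈ hyp i c ↔ Vanish (∑ s, c s • (MvPolynomial.X ⟨i, s⟩ : MvPolynomial (Vars n) k)) x := by
  simp only [amb_hyp_eq, smul_eq_C_mul, mem_ofPred_eq]

/-- A polynomial map that sends the `k`-points of a closed set into `X` does so over every
extension. -/
theorem Var.on_of_k {σ : Type} [Finite σ] (E : Set (MvPolynomial σ k))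
    (pt : Vars X.n → MvPolynomial σ k)
    (H : ∀ h : σ → k, (∀ e ∈ E, aeval h e = 0) → ∃ x : X.pts, IsRep (evs h pt) x.1)
    {h : σ → Ω} (hh : ∀ e ∈ E, aeval h e = 0) : X.On (evs h pt) := by
  have key : ∀ g : MvPolynomial σ k, aeval h g ≠ 0 → ∃ x₀ : σ → k, kr k h ≤ kr k x₀ ∧
      aeval x₀ g ≠ 0 ∧ ∃ x : X.pts, IsRep (evs x₀ pt) x.1 := fun g hg => by
    obtain ⟨x₀, h1, h2⟩ := Locus_spec h hg
    exact ⟨x₀, h1, h2, H x₀ fun e he => h1 (hh e he)⟩
  refine ⟨fun i => ?_, fun f hf => mem_pI_iff.2 fun d => ?_⟩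
  · obtain ⟨x₀, h1, -, x, hx⟩ := key 1 (by simp)
    obtain ⟨s, hs⟩ := hx.nzb i
    exact ⟨s, fun e => hs (h1 e)⟩
  · by_contra hne
    obtain ⟨x₀, -, h2, x, hx⟩ := key (aeval pt (cmp d f)) (by rwa [comp_aeval_apply])
    rw [comp_aeval_apply] at h2
    exact h2 (cmp_mem_vI hf d _ x.2 _ hx)

end Pool.Agent.MP_0c8446_ag

end

section

namespace Pool.Agent.MP_0c8446_ag

open MvPolynomial Set

universe u v w

variable {k : Type u} [Field k] [IsAlgClosed k] {Ω : Type u} [Field Ω] [Algebra k Ω]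
  {X Y : Var k} {Γ : Type u} [Group Γ]

theorem PolyA_vI {f : Mor X Y} {F : Vars Y.n → MvPolynomial (Vars X.n) k} (h : f.Poly F)
    {v : Vars X.n → Ω} (hv : X.On v) :
    vI (Subtype.val '' (f.1 '' X.loc v)) = pI k (evs v F) := by
  choose d hd using h.form
  have key : ∀ c H, IsForm c H →
      (H ∈ vI (Subtype.val '' (f.1 '' X.loc v)) ↔ aeval (evs v F) H = 0) := fun c H hH => by
    have h1 := hH.comp hd
    rw [mem_vI, forall_mem_image, forall_mem_image, show aeval (evs v F) H = aeval v (aeval F H)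
      from (comp_aeval_apply _ _ _).symm, ← hv.vanish_iff h1]
    refine forall₂_congr fun x _ => ?_
    rw [hH.vanish_iff (h.rep x _ (isRep_rep x.1)), h1.vanish_iff (isRep_rep x.1), eval_comp_aeval]
  ext g
  rw [mem_pI_iff]
  refine ⟨fun hg c => (key c _ (isForm_cmp c g)).1 (cmp_mem_vI hg c), fun hg => ?_⟩
  rw [← sum_cmp g]
  exact Ideal.sum_mem _ fun c _ => (key c _ (isForm_cmp c g)).2 (hg c)

theorem PolyA_polyF : (pvF X Y).Poly fun s =>
    (MvPolynomial.X (pvL Y.n s) : MvPolynomial (Vars (pvVar X Y).n) k) := by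
  refine ⟨fun j => ⟨Finsupp.single (Sum.inl j) 1, fun s => ?_⟩, fun x v hv => ?_⟩
  · exact isForm_X (n := (pvVar X Y).n) ⟨Sum.inl j, s⟩
  · simp only [eval_X]
    exact pv_rep_fst hv

theorem PolyA_polyS : (pvS X Y).Poly fun s =>
    (MvPolynomial.X (pvR X.n s) : MvPolynomial (Vars (pvVar X Y).n) k) := by
  refine ⟨fun j => ⟨Finsupp.single (Sum.inr j) 1, fun s => ?_⟩, fun x v hv => ?_⟩
  · exact isForm_X (n := (pvVar X Y).n) ⟨Sum.inr j, s⟩
  · simp only [eval_X]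
    exact pv_rep_snd hv

omit [IsAlgClosed k] in
theorem PolyA_evs {σ α : Type} (v : σ → Ω) (e : α → σ) :
    evs v (fun s => (MvPolynomial.X (e s) : MvPolynomial σ k)) = fun s => v (e s) := by
  funext s
  simp only [evs, aeval_X]

theorem PolyA_mem {ι : Type} [Finite ι] {n : ι → ℕ} (e : Vars X.n → Vars n)
    (he : ∀ d F, IsForm d F → ∃ d', IsForm d' (rename e F : MvPolynomial (Vars n) k))
    {v : Vars n → Ω} (hv : X.On fun s => v (e s)) {x : MP k n} (hx : x ∈ loc k v) {y : MP k X.n}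
    (hy : IsRep (fun s => x.rep (e s)) y) : y ∈ X.pts := by
  rw [← X.sub.2.closure_eq, mem_closure_vI]
  refine fun g hg => (vanish_iff_mem_pI hy).2 (pI_le_iff.2 (fun d F hF h0 => ?_) (hv.2 hg))
  obtain ⟨d', h1⟩ := he d F hF
  have h2 := (h1.vanish_iff (isRep_rep x)).1 (hx _ (h1.mem_pI.2 ((aeval_rename _ _ _).trans h0)))
  rw [eval_rename] at h2
  exact h2

theorem Mor.Poly.loc {f : Mor X Y} {F : Vars Y.n → MvPolynomial (Vars X.n) k} (h : f.Poly F)
    {v : Vars X.n → Ω} (hv : X.On v) :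
    Y.On (evs v F) ∧ Y.loc (evs v F) = closure (f.1 '' X.loc v) := by
  refine ⟨⟨fun j => ?_, PolyA_vI h hv ▸ vI_anti (Subtype.coe_image_subset _ _)⟩, ?_⟩
  · obtain ⟨x, hx⟩ := hv.isSub.1.nonempty
    obtain ⟨s, hs⟩ := (h.rep x _ (isRep_rep x.1)).nzb j
    obtain ⟨d, hd⟩ := h.form j
    exact ⟨s, fun h0 => hs ((hv.vanish_iff (hd s)).2 h0 x hx _ (isRep_rep x.1))⟩
  · rw [Topology.IsInducing.subtypeVal.closure_eq_preimage_closure_image]
    ext y
    rw [mem_preimage, mem_closure_vI, PolyA_vI h hv]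
    rfl

theorem on_pv_iff {v : Vars (pvVar X Y).n → Ω} :
    (pvVar X Y).On v ↔ X.On (fun s => v (pvL Y.n s)) ∧ Y.On fun s => v (pvR X.n s) := by
  refine ⟨fun h => ⟨PolyA_evs (k := k) v _ ▸ (PolyA_polyF.loc h).1,
    PolyA_evs (k := k) v _ ▸ (PolyA_polyS.loc h).1⟩, fun h => ?_⟩
  have h0 : NZb v := fun i => match i with
    | Sum.inl i => h.1.1 i
    | Sum.inr i => h.2.1 i
  refine ⟨h0, vI_loc (k := k) h0 ▸ vI_anti fun x hx => ⟨?_, ?_⟩⟩
  · exact PolyA_mem _ (fun _ _ hF => ⟨_, hF.rename_L _⟩) h.1 hx (pv_rep_fst (isRep_rep x))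
  · exact PolyA_mem _ (fun _ _ hF => ⟨_, hF.rename_R _⟩) h.2 hx (pv_rep_snd (isRep_rep x))

theorem on_pvJoin {v : Vars X.n → Ω} {u : Vars Y.n → Ω} (hv : X.On v) (hu : Y.On u) :
    (pvVar X Y).On (pvJoin v u) := on_pv_iff.2 ⟨hv, hu⟩

theorem on_jn {N : ℕ} {v : Vars X.n → Ω} {z : Fin (N + 1) → Ω} (hv : X.On v) (hz : ∃ s, z s ≠ 0) :
    (pvVar X (PN k N)).On (jn v z) := on_pvJoin hv (on_amb fun _ => hz)

theorem loc_pvF {v : Vars (pvVar X Y).n → Ω} (hv : (pvVar X Y).On v) :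
    closure ((pvF X Y).1 '' (pvVar X Y).loc v) = X.loc fun s => v (pvL Y.n s) := by
  rw [← (PolyA_polyF.loc hv).2, PolyA_evs]

theorem loc_pvS {v : Vars (pvVar X Y).n → Ω} (hv : (pvVar X Y).On v) :
    closure ((pvS X Y).1 '' (pvVar X Y).loc v) = Y.loc fun s => v (pvR X.n s) := by
  rw [← (PolyA_polyS.loc hv).2, PolyA_evs]

omit [IsAlgClosed k] in
theorem jn_eta {ι : Type} {n : ι → ℕ} {N : ℕ} {R : Type*}
    (v : Vars (Sum.elim n fun _ : Unit => N) → R) :
    jn (fun s => v (pvL _ s)) (fun s => v ⟨Sum.inr (), s⟩) = v := by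
  funext a
  rcases a with ⟨i | i, s⟩ <;> rfl

omit [IsAlgClosed k] in
theorem parOn_jn {ι : Type} {n : ι → ℕ} {N : ℕ} {I : Set (ι ⊕ Unit)} (hI : Sum.inr () ∈ I)
    {v v' : Vars n → Ω} {z z' : Fin (N + 1) → Ω} :
    ParOn I (jn v z) (jn v' z') ↔
      ParOn (Sum.inl ⁻¹' I) v v' ∧ ∃ t : Ω, t ≠ 0 ∧ ∀ s, z' s = t * z s :=
  ⟨fun h => ⟨fun i hi => h (Sum.inl i) hi, h (Sum.inr ()) hI⟩, fun h i hi => match i, hi with
    | Sum.inl i, hi => h.1 i hi
    | Sum.inr _, _ => h.2⟩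

end Pool.Agent.MP_0c8446_ag

end

section

namespace Pool.Agent.MP_0c8446_ag

open MvPolynomial Set

universe u v w

variable {k : Type u} [Field k] [IsAlgClosed k] {Ω : Type u} [Field Ω] [Algebra k Ω]
  {X Y : Var k} {Γ : Type u} [Group Γ]

omit [IsAlgClosed k] in
theorem PolyM_one {ι : Type} {n : ι → ℕ} (v : Vars n → k) : blin (k := k) (fun _ => 1) v = v := by
  funext a
  simp [blin, Matrix.one_apply]

omit [IsAlgClosed k] in
theorem PolyM_mul {ι : Type} {n : ι → ℕ} (M N : ∀ i, Matrix (Fin (n i + 1)) (Fin (n i + 1)) k)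
    (v : Vars n → k) : blin (fun i => M i * N i) v = blin M (blin N v) := by
  funext a
  simp only [blin, Matrix.mul_apply, smul_eq_mul, Finset.sum_mul, Finset.mul_sum, mul_assoc]
  exact Finset.sum_comm

omit [IsAlgClosed k] in
theorem PolyM_van {ι : Type} {n : ι → ℕ} {a : Vars n} {v : Vars n → k} {x : MP k n}
    (hv : IsRep v x) : Vanish (MvPolynomial.X a) x ↔ v a = 0 :=
  ((isForm_X a).vanish_iff hv).trans (by rw [eval_X])

theorem PolyM_infS (i : X.ι) {x : X.pts} {v : Vars X.n → k} (hv : IsRep v x.1) :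
    IsRep (fun a => Fin.cons (α := fun _ => k) 0 (fun s => v ⟨i, s⟩) a.2) ((X.infS i).1 x).1 := by
  obtain ⟨t, ht, rfl⟩ := (isRep_rep x.1).exists_smul hv
  have := (amb_isRep (n := fun _ : Unit => X.n i + 1)
    (fun a => Fin.cons (α := fun _ => k) 0 (x.1 i).rep a.2) fun _ h =>
      (x.1 i).rep_nonzero (funext fun s => congrFun h s.succ)).smul (fun _ => t i) (fun _ => ht i)
  have e : (fun a : Vars fun _ : Unit => X.n i + 1 => Fin.cons (α := fun _ => k) 0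
      (fun s => t i * x.1.rep ⟨i, s⟩) a.2) =
      fun a => t i * Fin.cons (α := fun _ => k) 0 (x.1 i).rep a.2 := by
    funext ⟨_, s⟩
    refine Fin.cases ?_ (fun s => ?_) s <;> simp [MP.rep]
  exact e ▸ this

theorem PolyM_inf (i : X.ι) {x : X.pts} {v : Vars X.n → k} (hv : IsRep v x.1) :
    IsRep (jn v (Fin.cons 0 fun s => v ⟨i, s⟩)) ((X.inf i).1 x).1
  | Sum.inl j => hv j
  | Sum.inr j => PolyM_infS i hv j

omit [IsAlgClosed k] in
theorem PolyM_evs (i : X.ι) {R : Type*} [CommRing R] [Algebra k R] (v : Vars X.n → R) :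
    evs v (jn (MvPolynomial.X : _ → MvPolynomial (Vars X.n) k)
      (Fin.cons 0 fun s => MvPolynomial.X ⟨i, s⟩)) = jn v (Fin.cons 0 fun s => v ⟨i, s⟩) := by
  funext ⟨j, s⟩
  cases j with
  | inl j => exact aeval_X _ _
  | inr j => exact Fin.cases (map_zero _) (fun s => aeval_X _ _) s

omit [IsAlgClosed k] in
theorem PolyM_plus {N : ℕ} (r : Γ →* Matrix (Fin N) (Fin N) k) (γ : Γ) (w : Fin N → k)
    (s : Fin (N + 1)) : ∑ t, plus r γ s t • Fin.cons (α := fun _ => k) 0 w t =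
      Fin.cons (α := fun _ => k) 0 (fun s => ∑ t, r γ s t • w t) s := by
  refine Fin.cases ?_ (fun s => ?_) s <;> simp [plus, Fin.sum_univ_succ]

omit [IsAlgClosed k] in
theorem Stage.act_one (S : Stage k Γ) (x : S.P.pts) : (S.act 1).1 x = x :=
  Subtype.ext ((S.act_rep 1 x (isRep_rep x.1)).unique (by
    simpa only [map_one, PolyM_one] using isRep_rep x.1))

omit [IsAlgClosed k] in
theorem Stage.act_mul (S : Stage k Γ) (γ δ : Γ) (x : S.P.pts) :
    (S.act (γ * δ)).1 x = (S.act γ).1 ((S.act δ).1 x) :=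
  Subtype.ext ((S.act_rep (γ * δ) x (isRep_rep x.1)).unique (by
    simpa only [map_mul, PolyM_mul] using S.act_rep γ _ (S.act_rep δ x (isRep_rep x.1))))

theorem Stage.loc_act (S : Stage k Γ) (γ : Γ) {v : Vars S.P.n → Ω} (hv : S.P.On v) :
    S.P.On (blin (fun i => S.ρ i γ) v) ∧
      S.P.loc (blin (fun i => S.ρ i γ) v) = (S.act γ).1 '' S.P.loc v := by
  have h := Mor.Poly.loc (f := S.act γ) (F := blin (fun i => S.ρ i γ) MvPolynomial.X)
    ⟨fun j => ⟨Finsupp.single j 1, fun s => isForm_blin _ ⟨j, s⟩⟩, fun x v hv => by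
      simpa only [eval_blin] using S.act_rep γ x hv⟩ hv
  rwa [show evs v _ = _ from funext (aeval_blin _ v), (((S.act γ).retr (S.act γ⁻¹) fun x => by
    rw [← S.act_mul, inv_mul_cancel, S.act_one]).isClosed_image hv.isSub.2).closure_eq] at h

theorem Stage.pvF_act (S S' : Stage k Γ) (γ : Γ) (x : (S.prod S').P.pts) :
    (pvF S.P S'.P).1 (((S.prod S').act γ).1 x) = (S.act γ).1 ((pvF S.P S'.P).1 x) :=
  Subtype.ext ((pv_rep_fst ((S.prod S').act_rep γ x (isRep_rep x.1))).unique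
    (S.act_rep γ (pvP x) (pv_rep_fst (isRep_rep x.1)) :))

theorem Stage.pvS_act (S S' : Stage k Γ) (γ : Γ) (x : (S.prod S').P.pts) :
    (pvS S.P S'.P).1 (((S.prod S').act γ).1 x) = (S'.act γ).1 ((pvS S.P S'.P).1 x) :=
  Subtype.ext ((pv_rep_snd ((S.prod S').act_rep γ x (isRep_rep x.1))).unique
    (S'.act_rep γ (pvQ x) (pv_rep_snd (isRep_rep x.1)) :))

omit [IsAlgClosed k] in
theorem trivStage_act (T : Var k) (γ : Γ) (x : T.pts) : ((trivStage Γ T).act γ).1 x = x :=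
  Subtype.ext (((trivStage Γ T).act_rep γ x (isRep_rep x.1)).unique
    ((congrArg (IsRep · x.1) (PolyM_one _)).mpr (isRep_rep x.1)))

omit [IsAlgClosed k] in
theorem Stage.comap_act {Γ' : Type u} [Group Γ'] (S : Stage k Γ) (θ : Γ' →* Γ) (γ : Γ') :
    (S.comap θ).act γ = S.act (θ γ) := rfl

theorem Stage.inf_act (S : Stage k Γ) (i : S.P.ι) (γ : Γ) (x : S.P.pts) :
    ((S.lb i).act γ).1 ((S.P.inf i).1 x) = (S.P.inf i).1 ((S.act γ).1 x) := by
  refine pv_ext' (S.pvF_act _ γ _) ((S.pvS_act _ γ _).trans (Subtype.ext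
    (((projStage (plus (S.ρ i))).act_rep γ _ (PolyM_infS i (isRep_rep x.1))).unique ?_)))
  refine (congrArg (IsRep · _) (funext fun a => ?_)).mpr
    (PolyM_infS i (S.act_rep γ x (isRep_rep x.1)))
  exact PolyM_plus (S.ρ i) γ (fun s => x.1.rep ⟨i, s⟩) a.2

theorem pvF_inf (i : X.ι) (x : X.pts) : (pvF _ _).1 ((X.inf i).1 x) = x := rfl

theorem Var.loc_inf (i : X.ι) {v : Vars X.n → Ω} (hv : X.On v) :
    (pvVar X (PN k (X.n i + 1))).loc (jn v (Fin.cons 0 fun s => v ⟨i, s⟩)) =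
      (X.inf i).1 '' X.loc v := by
  have h := (Mor.Poly.loc (f := X.inf i)
    (F := jn MvPolynomial.X (Fin.cons 0 fun s => MvPolynomial.X ⟨i, s⟩))
    ⟨fun j => match j with
      | Sum.inl j => ⟨Finsupp.single j 1, fun s => isForm_X ⟨j, s⟩⟩
      | Sum.inr _ => ⟨Finsupp.single i 1, fun s =>
          Fin.cases (isForm_zero _) (fun s => isForm_X ⟨i, s⟩) s⟩,
      fun x v hv => (congrArg (IsRep · _) (PolyM_evs i v)).mpr (PolyM_inf i hv)⟩ hv).2
  exact (congrArg (pvVar X _).loc (PolyM_evs i v)).symm.trans (h.trans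
    (((X.inf i).retr (pvF _ _) fun _ => rfl).isClosed_image hv.isSub.2).closure_eq)

theorem Var.range_inf_subset (i : X.ι) : range (X.inf i).1 ⊆ hInf X (X.n i) := by
  rintro _ ⟨x, rfl⟩
  exact (PolyM_van (PolyM_inf i (isRep_rep x.1))).2 rfl

theorem hInf_inter_zSec (X : Var k) (N : ℕ) : hInf X N ∩ zSec X N = ∅ :=
  eq_empty_of_forall_notMem fun x hx => (x.1 (Sum.inr ())).rep_nonzero (funext fun s =>
    Fin.cases ((PolyM_van (isRep_rep x.1)).1 hx.1)
      (fun s => (PolyM_van (isRep_rep x.1)).1 (hx.2 s)) s)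

theorem hInf_eq (X : Var k) (N : ℕ) :
    hInf X N = (pvS X (PN k (N + 1))).1 ⁻¹' (Subtype.val ⁻¹' hyp () (Pi.single 0 1)) := by
  ext x
  refine (PolyM_van (isRep_rep x.1)).trans ?_
  change _ ↔ ∑ s : Fin (N + 1 + 1), (Pi.single 0 1 : _ → k) s * x.1.rep ⟨Sum.inr (), s⟩ = 0
  rw [Fin.sum_univ_succ]
  simp only [Pi.single_eq_same, one_mul, Pi.single_eq_of_ne (Fin.succ_ne_zero _), zero_mul,
    Finset.sum_const_zero, add_zero]
  rfl

theorem pvS_preimage_hyp (X : Var k) (N : ℕ) (c : Fin (N + 1) → k) :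
    (pvS X (PN k N)).1 ⁻¹' (Subtype.val ⁻¹' hyp () c) =
      Subtype.val ⁻¹' hyp (n := (pvVar X (PN k N)).n) (Sum.inr ()) c := rfl

theorem infS_preimage_hyp (i : X.ι) (c : Fin (X.n i + 1) → k) :
    (X.infS i).1 ⁻¹' (Subtype.val ⁻¹' hyp () (Fin.cons 0 c)) = Subtype.val ⁻¹' hyp i c := by
  ext x
  obtain ⟨t, ht, e⟩ := (PolyM_infS i (isRep_rep x.1)).exists_smul (isRep_rep _)
  change ∑ s, Fin.cons (α := fun _ => k) 0 c s * ((X.infS i).1 x).1.rep ⟨(), s⟩ = 0 ↔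
    ∑ s, c s * x.1.rep ⟨i, s⟩ = 0
  rw [e, Fin.sum_univ_succ]
  simp only [Fin.cons_zero, Fin.cons_succ, mul_zero, zero_add, mul_left_comm _ (t ()),
    ← Finset.mul_sum]
  exact mul_eq_zero_iff_left (ht ())

theorem exists_not_subset_hyp (i : X.ι) {V : Set X.pts} (hV : V.Nonempty) :
    ∃ c, ¬ V ⊆ Subtype.val ⁻¹' hyp i c := by
  obtain ⟨x, hx⟩ := hV
  obtain ⟨c, hc⟩ := exists_hyp_avoid i (finite_singleton x.1)
  exact ⟨c, fun h => hc _ rfl (h hx)⟩

end Pool.Agent.MP_0c8446_ag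

end
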