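import Pool.Agent.Mg.F0c8446.G1b497e

section

namespace Pool.Agent.MP_0c8446_ag

open MvPolynomial Set

universe u v w

variable {k : Type u} [Field k] {Ω Ω' : Type u} [Field Ω] [Algebra k Ω] [Field Ω'] [Algebra k Ω']
  {S T : Set Ω} {x y : Ω}

theorem RkA_fin (hT : T.Finite) : (AlgebraicIndependent.matroid k Ω).eRk T ≠ ⊤ :=
  ne_top_of_le_ne_top hT.encard_lt_top.ne ((AlgebraicIndependent.matroid k Ω).eRk_le_encard T)

theorem RkA_coe (hT : T.Finite) :
    ((rk k T : ℕ) : ℕ∞) = (AlgebraicIndependent.matroid k Ω).eRk T :=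
  ENat.natCast_toNat (RkA_fin hT)

theorem RkA_comap (φ : Ω →ₐ[k] Ω') :
    (AlgebraicIndependent.matroid k Ω').comap φ = AlgebraicIndependent.matroid k Ω := by
  have hφ : Function.Injective φ := φ.toRingHom.injective
  refine Matroid.ext_indep (by simp) fun I _ => ?_
  rw [Matroid.comap_indep_iff, AlgebraicIndependent.matroid_indep_iff,
    AlgebraicIndependent.matroid_indep_iff, and_iff_left hφ.injOn]
  exact (algebraicIndependent_image (R := k) (s := I) (f := φ) hφ.injOn).symm.trans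
    (φ.algebraicIndependent_iff (x := fun x : I => (x : Ω)) hφ)

/-- The algebraic closure as a subalgebra over `k`. -/
noncomputable def RkA_alg (S : Set Ω) : Subalgebra k Ω :=
  (Subalgebra.algebraicClosure (Algebra.adjoin k S) Ω).restrictScalars k

theorem RkA_mem_alg : x ∈ RkA_alg (k := k) S ↔ x ∈ acl k S := by
  rw [acl, AlgebraicIndependent.matroid_closure_eq]; rfl

theorem mem_acl : x ∈ acl k S ↔ IsAlgebraic (Algebra.adjoin k S) x := RkA_mem_alg.symm

theorem subset_acl (S : Set Ω) : S ⊆ acl k S := (AlgebraicIndependent.matroid k Ω).subset_closure S (by simp)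

theorem acl_mono (h : S ⊆ T) : acl k S ⊆ acl k T := (AlgebraicIndependent.matroid k Ω).closure_subset_closure h

theorem acl_subset (h : S ⊆ acl k T) : acl k S ⊆ acl k T := 
  (AlgebraicIndependent.matroid k Ω).closure_subset_closure_of_subset_closure h

theorem exists_aclF (S : Set Ω) :
    ∃ F : IntermediateField k Ω, (F : Set Ω) = acl k S ∧ (IsAlgClosed Ω → IsAlgClosed F) := by
  refine ⟨(RkA_alg (k := k) S).toIntermediateField fun x hx =>
    RkA_mem_alg.2 (mem_acl.2 (mem_acl.1 (RkA_mem_alg.1 hx)).inv), ?_, fun _ => ?_⟩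
  · ext x; exact RkA_mem_alg
  · refine IsAlgClosed.of_exists_root _ fun p hp hi => ?_
    obtain ⟨z, hz⟩ := IsAlgClosed.exists_aeval_eq_zero Ω p (Polynomial.degree_pos_of_irreducible hi).ne'
    have h1 : IsAlgebraic (RkA_alg (k := k) S) z := ⟨p, hp.ne_zero, hz⟩
    have h2 : Algebra.adjoin k (acl k S) = RkA_alg (k := k) S := by
      rw [← Algebra.adjoin_eq (RkA_alg (k := k) S)]
      congr 1; ext x; exact RkA_mem_alg.symm
    have h3 : z ∈ acl k S := acl_subset (S := acl k S) subset_rfl (mem_acl.2 (h2 ▸ h1))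
    refine ⟨⟨z, RkA_mem_alg.2 h3⟩, ?_⟩
    apply Subtype.ext
    have := Polynomial.aeval_algebraMap_apply Ω (⟨z, RkA_mem_alg.2 h3⟩ :
      (RkA_alg (k := k) S).toIntermediateField fun x hx =>
        RkA_mem_alg.2 (mem_acl.2 (mem_acl.1 (RkA_mem_alg.1 hx)).inv)) p
    rw [Polynomial.coe_aeval_eq_eval] at this
    exact this.symm.trans hz

theorem algebraMap_mem_acl (c : k) : algebraMap k Ω c ∈ acl k S := 
  RkA_mem_alg.1 ((RkA_alg S).algebraMap_mem c)

theorem add_mem_acl (hx : x ∈ acl k S) (hy : y ∈ acl k S) : x + y ∈ acl k S := 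
  RkA_mem_alg.1 (add_mem (RkA_mem_alg.2 hx) (RkA_mem_alg.2 hy))

theorem sub_mem_acl (hx : x ∈ acl k S) (hy : y ∈ acl k S) : x - y ∈ acl k S := 
  RkA_mem_alg.1 (sub_mem (RkA_mem_alg.2 hx) (RkA_mem_alg.2 hy))

theorem mul_mem_acl (hx : x ∈ acl k S) (hy : y ∈ acl k S) : x * y ∈ acl k S := 
  RkA_mem_alg.1 (mul_mem (RkA_mem_alg.2 hx) (RkA_mem_alg.2 hy))

theorem inv_mem_acl (hx : x ∈ acl k S) : x⁻¹ ∈ acl k S := mem_acl.2 (mem_acl.1 hx).inv

theorem div_mem_acl (hx : x ∈ acl k S) (hy : y ∈ acl k S) : x / y ∈ acl k S := by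
  rw [div_eq_mul_inv]; exact mul_mem_acl hx (inv_mem_acl hy)

theorem aeval_mem_acl {σ : Type*} {z : σ → Ω} (h : ∀ s, z s ∈ acl k S) (f : MvPolynomial σ k) :
    aeval z f ∈ acl k S := by
  induction f using MvPolynomial.induction_on with
  | C a => rw [aeval_C]; exact algebraMap_mem_acl a
  | add p q hp hq => rw [map_add]; exact add_mem_acl hp hq
  | mul_X p s hp => rw [map_mul, aeval_X]; exact mul_mem_acl hp (h s)

theorem map_mem_acl_iff (φ : Ω →ₐ[k] Ω') : φ x ∈ acl k (φ '' S) ↔ x ∈ acl k S := by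
  rw [acl, acl, ← RkA_comap φ, Matroid.comap_closure_eq]; rfl

theorem rk_empty : rk k (∅ : Set Ω) = 0 := by simp [rk]

theorem rk_le_of_acl (hT : T.Finite) (h : S ⊆ acl k T) : rk k S ≤ rk k T := by
  refine ENat.toNat_le_toNat ?_ (RkA_fin hT)
  rw [← (AlgebraicIndependent.matroid k Ω).eRk_closure_eq T]
  exact (AlgebraicIndependent.matroid k Ω).eRk_mono h

theorem rk_mono (hT : T.Finite) (h : S ⊆ T) : rk k S ≤ rk k T := 
  rk_le_of_acl hT (h.trans (subset_acl T))

theorem rk_submod (hS : S.Finite) (hT : T.Finite) :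
    rk k (S ∪ T) + rk k (S ∩ T) ≤ rk k S + rk k T := by
  have := (AlgebraicIndependent.matroid k Ω).eRk_inter_add_eRk_union_le S T
  rw [← RkA_coe hS, ← RkA_coe hT, ← RkA_coe (hS.union hT), ← RkA_coe (hS.inter_of_left T),
    add_comm] at this
  exact_mod_cast this

theorem rk_union_le (hS : S.Finite) (hT : T.Finite) : rk k (S ∪ T) ≤ rk k S + rk k T := 
  (Nat.le_add_right _ _).trans (rk_submod hS hT)

theorem rk_insert_of_mem (hx : x ∈ acl k S) : rk k (insert x S) = rk k S := by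
  rw [acl] at hx
  rw [rk, rk, ← Matroid.eRk_insert_closure_eq, insert_eq_of_mem hx, Matroid.eRk_closure_eq]

theorem rk_insert_of_notMem (hS : S.Finite) (hx : x ∉ acl k S) :
    rk k (insert x S) = rk k S + 1 := by
  have := (AlgebraicIndependent.matroid k Ω).eRk_insert_eq_add_one (e := x) (X := S)
    ⟨by simp, hx⟩
  rw [← RkA_coe hS, ← RkA_coe (hS.insert x)] at this
  exact_mod_cast this

theorem rk_insert_le (hS : S.Finite) (x : Ω) : rk k (insert x S) ≤ rk k S + 1 := by
  have := (AlgebraicIndependent.matroid k Ω).eRk_insert_le_add_one x S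
  rw [← RkA_coe hS, ← RkA_coe (hS.insert x)] at this
  exact_mod_cast this

theorem rk_range_le {τ : Type*} [Fintype τ] (z : τ → Ω) : rk k (range z) ≤ Fintype.card τ := by
  have := ((AlgebraicIndependent.matroid k Ω).eRk_le_encard (range z)).trans
    (by simpa using encard_image_le z univ : (range z).encard ≤ (Fintype.card τ : ℕ∞))
  rw [← RkA_coe (finite_range z)] at this
  exact_mod_cast this

theorem rk_image_le {τ : Type*} (z : τ → Ω) (s : Finset τ) : rk k (z '' s) ≤ s.card := by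
  have := ((AlgebraicIndependent.matroid k Ω).eRk_le_encard (z '' s)).trans
    (by simpa using encard_image_le z s : (z '' s).encard ≤ (s.card : ℕ∞))
  rw [← RkA_coe (s.finite_toSet.image z)] at this
  exact_mod_cast this

theorem rk_range_eq_iff {τ : Type*} [Fintype τ] (z : τ → Ω) :
    rk k (range z) = Fintype.card τ ↔ AlgebraicIndependent k z := by
  have h0 : (range z).encard ≤ (Fintype.card τ : ℕ∞) := by simpa using encard_image_le z univ
  have h1 := (AlgebraicIndependent.matroid k Ω).indep_iff_eRk_eq_encard_of_finite (finite_range z)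
  constructor
  · intro h
    have h2 : (AlgebraicIndependent.matroid k Ω).eRk (range z) = (Fintype.card τ : ℕ∞) := by
      rw [← RkA_coe (finite_range z), h]
    have h3 : (range z).encard = (Fintype.card τ : ℕ∞) :=
      le_antisymm h0 (h2 ▸ (AlgebraicIndependent.matroid k Ω).eRk_le_encard (range z))
    have h4 : Function.Injective z := by
      rw [← injOn_univ]
      refine finite_univ.injOn_of_encard_image_eq ?_
      simpa using h3
    exact (algebraicIndependent_subtype_range h4).1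
      (AlgebraicIndependent.matroid_indep_iff.1 (h1.2 (h2.trans h3.symm)))
  · intro h
    have h2 := h1.1 (AlgebraicIndependent.matroid_indep_iff.2 h.to_subtype_range)
    have h3 : (range z).encard = (Fintype.card τ : ℕ∞) := by
      simpa using h.injective.injOn.encard_image (s := univ)
    rw [← RkA_coe (finite_range z), h3] at h2
    exact_mod_cast h2

theorem rk_image (φ : Ω →ₐ[k] Ω') (S : Set Ω) : rk k (φ '' S) = rk k S := by
  rw [rk, rk, ← RkA_comap φ, Matroid.eRk_comap]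

end Pool.Agent.MP_0c8446_ag

end

section

namespace Pool.Agent.MP_0c8446_ag

open MvPolynomial Set

universe u v w

variable {k : Type u} [Field k] {Ω Ω' : Type u} [Field Ω] [Algebra k Ω] [Field Ω'] [Algebra k Ω']
  {S T : Set Ω} {x y : Ω}

variable {ι : Type} {n : ι → ℕ} {I J : Set ι} {v v' : Vars n → Ω}

theorem finite_rat [Finite ι] (I : Set ι) (v : Vars n → Ω) : (rat I v).Finite :=
  (finite_range fun a : Σ i, Fin (n i + 1) × Fin (n i + 1) =>
    v ⟨a.1, a.2.1⟩ / v ⟨a.1, a.2.2⟩).subset fun _ ⟨i, _, s, s', h⟩ => ⟨⟨i, s, s'⟩, h.symm⟩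

theorem rat_mono (h : I ⊆ J) (v : Vars n → Ω) : rat I v ⊆ rat J v :=
  fun _ ⟨i, hi, h'⟩ => ⟨i, h hi, h'⟩

theorem rat_union (I J : Set ι) (v : Vars n → Ω) : rat (I ∪ J) v = rat I v ∪ rat J v :=
  Subset.antisymm (fun _ ⟨i, hi, h⟩ => hi.imp (⟨i, ·, h⟩) (⟨i, ·, h⟩))
    (union_subset (rat_mono subset_union_left v) (rat_mono subset_union_right v))

theorem ParOn.rat_eq (h : ParOn I v v') : rat I v' = rat I v := by
  ext x
  refine exists_congr fun i => and_congr_right fun hi => ?_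
  obtain ⟨t, ht, h⟩ := h i hi
  simp only [h, mul_div_mul_left _ _ ht]

theorem rat_map (φ : Ω →ₐ[k] Ω') (I : Set ι) (v : Vars n → Ω) :
    rat I (fun a => φ (v a)) = φ '' rat I v := by
  ext x
  constructor
  · rintro ⟨i, hi, s, s', rfl⟩
    exact ⟨_, ⟨i, hi, s, s', rfl⟩, map_div₀ φ _ _⟩
  · rintro ⟨_, ⟨i, hi, s, s', rfl⟩, rfl⟩
    exact ⟨i, hi, s, s', map_div₀ φ _ _⟩

theorem rat_pv {κ : Type} {m : κ → ℕ} (I : Set (ι ⊕ κ)) (v : Vars (Sum.elim n m) → Ω) :
    rat I v = rat (Sum.inl ⁻¹' I) (fun s => v (pvL m s)) ∪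
      rat (Sum.inr ⁻¹' I) fun s => v (pvR n s) :=
  Set.ext fun _ => Sum.exists

theorem rat_jn {N : ℕ} (v : Vars n → Ω) (z : Fin (N + 1) → Ω) :
    rat univ (jn v z) = rat univ v ∪ {x | ∃ s s', x = z s / z s'} := by
  rw [rat_pv]
  exact congrArg _ (Set.ext fun _ => ⟨fun ⟨_, _, h⟩ => h, fun h => ⟨(), trivial, h⟩⟩)

/-- Normalising one coordinate in each block to `1`. -/
theorem NZb.exists_norm (hv : NZb v) :
    ∃ t : ι → Ω, (∀ i, t i ≠ 0) ∧ (∀ a, sc t v a ∈ rat {a.1} v) ∧ ∀ i, ∃ s, sc t v ⟨i, s⟩ = 1 := by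
  choose s hs using hv
  exact ⟨fun i => (v ⟨i, s i⟩)⁻¹, fun i => inv_ne_zero (hs i),
    fun a => ⟨a.1, rfl, a.2, s a.1, inv_mul_eq_div _ _⟩, fun i => ⟨s i, inv_mul_cancel₀ (hs i)⟩⟩

theorem form_div_mem_acl {d : ι →₀ ℕ} {F G : MvPolynomial (Vars n) k} (hF : IsForm d F)
    (hG : IsForm d G) (hd : ∀ i ∉ I, d i = 0) (hv : NZb v) :
    aeval v F / aeval v G ∈ acl k (rat I v) := by
  obtain ⟨t, ht, h1, -⟩ := hv.exists_norm
  have h2 : ParOn I v (mix I (sc t v) 0) := fun i hi => ⟨t i, ht i, fun _ => if_pos hi⟩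
  obtain ⟨c, hc, h3⟩ := h2.exists_aeval (k := k) hd
  have h4 : ∀ a, mix I (sc t v) 0 a ∈ acl k (rat I v) := fun a => by
    unfold mix
    split_ifs with h
    · exact subset_acl _ (rat_mono (singleton_subset_iff.2 h) v (h1 a))
    · simpa using algebraMap_mem_acl (S := rat I v) (0 : k)
  rw [← mul_div_mul_left _ _ hc, ← h3 F hF, ← h3 G hG]
  exact div_mem_acl (aeval_mem_acl h4 F) (aeval_mem_acl h4 G)

/-- The ratios with fixed nonzero denominators generate the same field as all ratios. -/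
theorem rat_subset_acl_norm (s₀ : ∀ i, Fin (n i + 1)) (h : ∀ i ∈ I, v ⟨i, s₀ i⟩ ≠ 0) :
    rat I v ⊆ acl k (range fun a : {a : Vars n // a.1 ∈ I} => v a.1 / v ⟨a.1.1, s₀ a.1.1⟩) := by
  rintro _ ⟨i, hi, s, s', rfl⟩
  rw [← div_div_div_cancel_right₀ (h i hi)]
  exact div_mem_acl (subset_acl _ ⟨⟨⟨i, s⟩, hi⟩, rfl⟩) (subset_acl _ ⟨⟨⟨i, s'⟩, hi⟩, rfl⟩)

end Pool.Agent.MP_0c8446_ag

end

section

namespace Pool.Agent.MP_0c8446_ag

open MvPolynomial Set

universe u v w

variable {k : Type u} [Field k] {Ω Ω' : Type u} [Field Ω] [Algebra k Ω] [Field Ω'] [Algebra k Ω']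
  {σ τ : Type} {x : σ → Ω} {y : σ → Ω'}

theorem mem_kr {f : MvPolynomial σ k} : f ∈ kr k x ↔ aeval x f = 0 := Iff.rfl

theorem Rk2A_comp_le (h : kr k x ≤ kr k y) (e : τ → σ) : kr k (x ∘ e) ≤ kr k (y ∘ e) := by
  intro f hf
  rw [mem_kr, ← aeval_rename] at hf ⊢
  exact h hf

/-- A set of indices on which the tuple is a transcendence basis of its range. -/
theorem Rk2A_basis [Finite σ] (y : σ → Ω') : ∃ s : Set σ,
    AlgebraicIndependent k (y ∘ ((↑) : s → σ)) ∧ range y ⊆ acl k (range (y ∘ ((↑) : s → σ))) := by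
  obtain ⟨s, hs, hmax⟩ := Set.Finite.exists_maximal
    (s := {s : Set σ | AlgebraicIndepOn k y s}) (Set.toFinite _)
    ⟨∅, by
      show AlgebraicIndependent k (fun i : (∅ : Set σ) => y i)
      exact algebraicIndependent_empty_type⟩
  refine ⟨s, hs, ?_⟩
  have hr : range (y ∘ ((↑) : s → σ)) = y '' s := by
    rw [range_comp, Subtype.range_coe]
  rw [hr]
  rintro _ ⟨i, rfl⟩
  by_contra hi
  have hi' : Transcendental (Algebra.adjoin k (y '' s)) (y i) := fun h => hi (mem_acl.2 h)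
  have h1 : AlgebraicIndepOn k y (insert i s) := AlgebraicIndepOn.insert hs hi'
  have h2 : insert i s ⊆ s := hmax h1 (subset_insert i s)
  exact hi (subset_acl _ ⟨i, h2 (mem_insert i s), rfl⟩)

theorem Rk2A_rk_basis [Finite σ] [Fintype τ] {e : τ → σ} (h1 : AlgebraicIndependent k (y ∘ e))
    (h2 : range y ⊆ acl k (range (y ∘ e))) : rk k (range y) = Fintype.card τ := by
  rw [← (rk_range_eq_iff _).2 h1]
  exact le_antisymm (rk_le_of_acl (finite_range _) h2)
    (rk_mono (finite_range _) (range_comp_subset_range _ _))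

theorem Rk2A_indep (h : kr k x ≤ kr k y) (hy : AlgebraicIndependent k y) :
    AlgebraicIndependent k x :=
  algebraicIndependent_iff.2 fun p hp => algebraicIndependent_iff.1 hy p (h hp)

/-- The evaluation map onto the ring generated by a tuple. -/
noncomputable def Rk2A_ev (x : σ → Ω) : MvPolynomial σ k →ₐ[k] Algebra.adjoin k (range x) :=
  aeval fun i => ⟨x i, Algebra.subset_adjoin ⟨i, rfl⟩⟩

theorem Rk2A_ev_coe (x : σ → Ω) (f : MvPolynomial σ k) :
    algebraMap _ Ω (Rk2A_ev x f) = aeval x f := by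
  have : (Algebra.adjoin k (range x)).val.comp (Rk2A_ev x) = aeval x := by
    refine algHom_ext fun i => ?_
    simp [Rk2A_ev]
  exact DFunLike.congr_fun this f

theorem Rk2A_ev_surj (x : σ → Ω) : Function.Surjective (Rk2A_ev (k := k) x) := by
  rintro ⟨a, ha⟩
  have ha' := ha
  rw [Algebra.adjoin_range_eq_range_aeval] at ha'
  obtain ⟨f, hf⟩ := ha'
  exact ⟨f, Subtype.ext ((Rk2A_ev_coe x f).trans hf)⟩

/-- A specialisation of an algebraic extension that is generic on the base is generic. -/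
theorem Rk2A_key (h : kr k x ≤ kr k y) (e : τ → σ) (he : kr k (y ∘ e) ≤ kr k (x ∘ e))
    (hx : range x ⊆ acl k (range (x ∘ e))) : kr k y ≤ kr k x := by
  intro f hf
  rw [mem_kr] at hf ⊢
  by_contra hne
  have ha : IsAlgebraic (Algebra.adjoin k (range (x ∘ e))) (aeval x f) :=
    mem_acl.1 (aeval_mem_acl (fun s => hx ⟨s, rfl⟩) f)
  obtain ⟨t, ht, r, hr, heq⟩ :=
    ha.exists_nonzero_eq_adjoin_mul (mem_nonZeroDivisors_of_ne_zero hne)
  have ht' : ∃ g : MvPolynomial σ k, aeval x g = t := by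
    clear heq
    induction ht using Algebra.adjoin_induction with
    | mem a ha => exact ⟨f, (mem_singleton_iff.1 ha).symm⟩
    | algebraMap c =>
      obtain ⟨c', rfl⟩ := Rk2A_ev_surj (k := k) (x ∘ e) c
      exact ⟨rename e c', by rw [aeval_rename, Rk2A_ev_coe]⟩
    | add a b _ _ iha ihb =>
      obtain ⟨g, rfl⟩ := iha
      obtain ⟨g', rfl⟩ := ihb
      exact ⟨g + g', map_add _ _ _⟩
    | mul a b _ _ iha ihb =>
      obtain ⟨g, rfl⟩ := iha
      obtain ⟨g', rfl⟩ := ihb
      exact ⟨g * g', map_mul _ _ _⟩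
  obtain ⟨g, rfl⟩ := ht'
  obtain ⟨c, rfl⟩ := Rk2A_ev_surj (k := k) (x ∘ e) r
  rw [Rk2A_ev_coe] at heq
  have h1 : f * g - rename e c ∈ kr k x := by
    rw [mem_kr, map_sub, map_mul, aeval_rename, heq, sub_self]
  have h2 := h h1
  rw [mem_kr, map_sub, map_mul, aeval_rename, hf, zero_mul, zero_sub, neg_eq_zero] at h2
  have h3 : aeval (x ∘ e) c = 0 := he h2
  apply hr
  apply Subtype.ext
  exact (Rk2A_ev_coe _ c).trans h3

/-- A polynomial in two groups of variables as a polynomial in the second group. -/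
noncomputable def Rk2A_sp (k : Type u) [Field k] (σ τ : Type) :
    MvPolynomial (σ ⊕ τ) k →ₐ[k] MvPolynomial τ (MvPolynomial σ k) :=
  aeval (Sum.elim (fun s => C (X s)) X)

theorem Rk2A_mem_elim [Finite σ] [Fintype τ] {z : τ → Ω}
    (hz : rk k (range x) + Fintype.card τ ≤ rk k (range x ∪ range z))
    (P : MvPolynomial (σ ⊕ τ) k) :
    P ∈ kr k (Sum.elim x z) ↔ ∀ m, coeff m (Rk2A_sp k σ τ P) ∈ kr k x := by
  classical
  obtain ⟨s, h1, h2⟩ := Rk2A_basis (k := k) x
  let _ := Fintype.ofFinite s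
  have h3 := Rk2A_rk_basis h1 h2
  have h4 : range x ∪ range z ⊆ acl k (range (Sum.elim z (x ∘ ((↑) : s → σ)))) := by
    rw [Sum.elim_range]
    exact union_subset (h2.trans (acl_mono subset_union_right))
      (subset_union_left.trans (subset_acl _))
  have h5 : AlgebraicIndependent k (Sum.elim z (x ∘ ((↑) : s → σ))) := by
    rw [← rk_range_eq_iff]
    refine le_antisymm (rk_range_le _) ?_
    have := rk_le_of_acl (finite_range _) h4
    rw [Fintype.card_sum]
    omega
  have h6 := (AlgebraicIndependent.sumElim_iff.1 h5).2.subalgebraAlgebraicClosure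
  set B := Subalgebra.algebraicClosure (Algebra.adjoin k (range (x ∘ ((↑) : s → σ)))) Ω with hB
  have hxB : ∀ f : MvPolynomial σ k, aeval x f ∈ B := fun f =>
    mem_acl.1 (aeval_mem_acl (fun i => h2 ⟨i, rfl⟩) f)
  let ψ : MvPolynomial σ k →+* B := (aeval x : MvPolynomial σ k →ₐ[k] Ω).toRingHom.codRestrict B hxB
  have hψ : ∀ f, algebraMap B Ω (ψ f) = aeval x f := fun f => rfl
  have h7 : aeval (Sum.elim x z) P = aeval z (map ψ (Rk2A_sp k σ τ P)) := by
    induction P using MvPolynomial.induction_on with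
    | C c =>
      have : Rk2A_sp k σ τ (C c) = C (C c) := by simp [Rk2A_sp]
      rw [this, map_C, aeval_C, aeval_C, hψ, aeval_C]
    | add p q hp hq => simp only [map_add, hp, hq]
    | mul_X p i hp =>
      simp only [map_mul, hp]
      congr 1
      rcases i with i | i
      · have : Rk2A_sp k σ τ (X (Sum.inl i)) = C (X i) := by simp [Rk2A_sp]
        rw [this, map_C, aeval_C, hψ, aeval_X, aeval_X, Sum.elim_inl]
      · have : Rk2A_sp k σ τ (X (Sum.inr i)) = X i := by simp [Rk2A_sp]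
        rw [this, map_X, aeval_X, aeval_X, Sum.elim_inr]
  rw [mem_kr, h7]
  constructor
  · intro h m
    have := algebraicIndependent_iff.1 h6 _ h
    rw [mem_kr, ← hψ, ← coeff_map, this, coeff_zero, map_zero]
  · intro h
    have : map ψ (Rk2A_sp k σ τ P) = 0 := by
      ext m
      rw [coeff_map, coeff_zero]
      exact h m
    rw [this, map_zero]

theorem Rk2A_aeval_option (x : σ → Ω) (a : Ω) (P : MvPolynomial (Option σ) k) :
    aeval (fun o : Option σ => o.elim a x) P =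
      ((optionEquivLeft k σ P).map (aeval x : MvPolynomial σ k →ₐ[k] Ω).toRingHom).eval a := by
  induction P using MvPolynomial.induction_on with
  | C c => simp
  | add p q hp hq => simp only [map_add, hp, hq, Polynomial.map_add, Polynomial.eval_add]
  | mul_X p i hp =>
    simp only [map_mul, hp, Polynomial.map_mul, Polynomial.eval_mul]
    congr 1
    rcases i with _ | i <;> simp

theorem Rk2A_map_eq_zero (h : kr k x ≤ kr k y) {q : Polynomial (MvPolynomial σ k)}
    (hq : q.map (aeval x : MvPolynomial σ k →ₐ[k] Ω).toRingHom = 0) :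
    q.map (aeval y : MvPolynomial σ k →ₐ[k] Ω').toRingHom = 0 := by
  ext n
  have := congrArg (fun p => Polynomial.coeff p n) hq
  simp only [Polynomial.coeff_map, Polynomial.coeff_zero] at this ⊢
  exact h this

/-- A relation of minimal degree. -/
theorem Rk2A_min (x : σ → Ω) {a : Ω} (ha : a ∈ acl k (range x)) :
    ∃ q : Polynomial (MvPolynomial σ k),
      (q.map (aeval x : MvPolynomial σ k →ₐ[k] Ω).toRingHom).eval a = 0 ∧
      q.leadingCoeff ∉ kr k x ∧ 0 < q.natDegree ∧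
      ∀ p : Polynomial (MvPolynomial σ k), p.natDegree < q.natDegree →
        (p.map (aeval x : MvPolynomial σ k →ₐ[k] Ω).toRingHom).eval a = 0 →
        p.map (aeval x : MvPolynomial σ k →ₐ[k] Ω).toRingHom = 0 := by
  classical
  set φ := (aeval x : MvPolynomial σ k →ₐ[k] Ω).toRingHom with hφ
  have hex : ∃ n, ∃ q : Polynomial (MvPolynomial σ k), q.natDegree = n ∧ (q.map φ).eval a = 0 ∧
      q.map φ ≠ 0 := by
    obtain ⟨p, hp0, hp⟩ := mem_acl.1 ha
    obtain ⟨q, rfl⟩ := Polynomial.map_surjective (Rk2A_ev (k := k) x).toRingHom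
      (Rk2A_ev_surj x) p
    have hc : φ = (algebraMap _ Ω).comp (Rk2A_ev (k := k) x).toRingHom :=
      RingHom.ext fun f => (Rk2A_ev_coe x f).symm
    refine ⟨_, q, rfl, ?_, ?_⟩
    · rw [hc, ← Polynomial.map_map, Polynomial.eval_map_algebraMap]
      exact hp
    · rw [hc, ← Polynomial.map_map]
      exact (Polynomial.map_ne_zero_iff Subtype.val_injective).2 hp0
  obtain ⟨q, hqn, hq, hq0⟩ := Nat.find_spec hex
  have hmin : ∀ p : Polynomial (MvPolynomial σ k), p.natDegree < q.natDegree →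
      (p.map φ).eval a = 0 → p.map φ = 0 := by
    intro p hp hpa
    by_contra hp0
    exact Nat.find_min hex (hqn ▸ hp) ⟨p, rfl, hpa, hp0⟩
  have hlc : q.leadingCoeff ∉ kr k x := by
    intro hc
    have hc' : φ q.leadingCoeff = 0 := hc
    have h1 : q.eraseLead.map φ = q.map φ := by
      conv_rhs => rw [← q.eraseLead_add_C_mul_X_pow]
      rw [Polynomial.map_add, Polynomial.map_mul, Polynomial.map_C, hc', map_zero, zero_mul,
        add_zero]
    rcases q.eraseLead_natDegree_lt_or_eraseLead_eq_zero with h | h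
    · exact hq0 (h1 ▸ hmin _ h (h1 ▸ hq))
    · rw [h, Polynomial.map_zero] at h1
      exact hq0 h1.symm
  refine ⟨q, hq, hlc, ?_, hmin⟩
  by_contra h0
  have h0' : q.natDegree = 0 := by omega
  have h1 := Polynomial.eq_C_of_natDegree_eq_zero h0'
  rw [h1, Polynomial.map_C, Polynomial.eval_C] at hq
  apply hlc
  rw [Polynomial.leadingCoeff, h0']
  exact hq

theorem kr_map (φ : Ω →ₐ[k] Ω') (x : σ → Ω) : kr k (fun s => φ (x s)) = kr k x := by
  ext f
  rw [mem_kr, mem_kr, ← comp_aeval, AlgHom.comp_apply]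
  exact map_eq_zero_iff φ φ.toRingHom.injective

theorem kr_comp_le (h : kr k x ≤ kr k y) (e : τ → σ) : kr k (x ∘ e) ≤ kr k (y ∘ e) :=
  Rk2A_comp_le h e

theorem rk_le_of_kr [Finite σ] (h : kr k x ≤ kr k y) : rk k (range y) ≤ rk k (range x) := by
  obtain ⟨s, h1, h2⟩ := Rk2A_basis (k := k) y
  let _ := Fintype.ofFinite s
  rw [Rk2A_rk_basis h1 h2, ← (rk_range_eq_iff _).2 (Rk2A_indep (kr_comp_le h _) h1)]
  exact rk_mono (finite_range _) (range_comp_subset_range _ _)

theorem kr_eq_of_rk [Finite σ] (h : kr k x ≤ kr k y) (h' : rk k (range x) ≤ rk k (range y)) :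
    kr k x = kr k y := by
  obtain ⟨s, h1, h2⟩ := Rk2A_basis (k := k) y
  let _ := Fintype.ofFinite s
  refine le_antisymm h (Rk2A_key h ((↑) : s → σ) ?_ ?_)
  · intro p hp
    rw [algebraicIndependent_iff.1 h1 p hp]
    exact zero_mem _
  · intro a ha
    by_contra hna
    have h3 := rk_insert_of_notMem (finite_range _) hna
    rw [(rk_range_eq_iff _).2 (Rk2A_indep (kr_comp_le h _) h1)] at h3
    have h4 : rk k (insert a (range (x ∘ ((↑) : s → σ)))) ≤ rk k (range x) :=
      rk_mono (finite_range _) (insert_subset ha (range_comp_subset_range _ _))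
    rw [Rk2A_rk_basis h1 h2] at h'
    omega

theorem kr_elim_eq [Finite σ] [Fintype τ] (h : kr k x = kr k y) {z : τ → Ω} {z' : τ → Ω'}
    (hz : rk k (range x) + Fintype.card τ ≤ rk k (range x ∪ range z))
    (hz' : rk k (range y) + Fintype.card τ ≤ rk k (range y ∪ range z')) :
    kr k (Sum.elim x z) = kr k (Sum.elim y z') := by
  ext P
  rw [Rk2A_mem_elim hz, Rk2A_mem_elim hz', h]

/-- A minimal polynomial with denominators cleared. -/
theorem exists_minpoly (x : σ → Ω) {a : Ω} (ha : a ∈ acl k (range x)) :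
    ∃ f : MvPolynomial (Option σ) k, aeval (fun o => o.elim a x) f = 0 ∧
      ∀ (Ω' : Type u) [Field Ω'] [Algebra k Ω'] (y : σ → Ω') (b : Ω'), kr k x = kr k y →
        (aeval (fun o => o.elim b y) f = 0 →
          kr k (fun o : Option σ => o.elim a x) = kr k fun o : Option σ => o.elim b y) ∧
        (b ∉ acl k (range y) → aeval (fun o => o.elim b y) f ≠ 0) := by
  obtain ⟨q, hq, hlc, hpos, hmin⟩ := Rk2A_min x ha
  refine ⟨(optionEquivLeft k σ).symm q, ?_, fun Ω' _ _ y b hxy => ⟨fun hb => ?_, fun hb hq' => ?_⟩⟩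
  · rw [Rk2A_aeval_option, AlgEquiv.apply_symm_apply, hq]
  · rw [Rk2A_aeval_option, AlgEquiv.apply_symm_apply] at hb
    have hc : (aeval y : MvPolynomial σ k →ₐ[k] Ω').toRingHom q.leadingCoeff ≠ 0 :=
      fun h => hlc (hxy ▸ h)
    have hall : ∀ (n : ℕ) (p : Polynomial (MvPolynomial σ k)), p.natDegree = n →
        (p.map (aeval x : MvPolynomial σ k →ₐ[k] Ω).toRingHom).eval a = 0 →
        (p.map (aeval y : MvPolynomial σ k →ₐ[k] Ω').toRingHom).eval b = 0 := by
      intro n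
      induction n using Nat.strong_induction_on with
      | _ n ih =>
        intro p hn hp
        by_cases hlt : p.natDegree < q.natDegree
        · rw [Rk2A_map_eq_zero hxy.le (hmin p hlt hp), Polynomial.eval_zero]
        · have hle : q.natDegree ≤ p.natDegree := not_lt.1 hlt
          have h1 := Polynomial.natDegree_cancelLeads_lt_of_natDegree_le_natDegree hle
            (hpos.trans_le hle)
          have h2 := ih _ (hn ▸ h1) (q.cancelLeads p) rfl (by
            simp only [Polynomial.cancelLeads, Polynomial.map_sub, Polynomial.map_mul,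
              Polynomial.eval_sub, Polynomial.eval_mul, hp, hq, mul_zero, sub_zero])
          simp only [Polynomial.cancelLeads, Polynomial.map_sub, Polynomial.map_mul,
            Polynomial.eval_sub, Polynomial.eval_mul, hb, mul_zero, sub_zero,
            Nat.sub_eq_zero_of_le hle, pow_zero, mul_one, Polynomial.map_C,
            Polynomial.eval_C] at h2
          exact (mul_eq_zero.1 h2).resolve_left hc
    have hle : kr k (fun o : Option σ => o.elim a x) ≤ kr k fun o : Option σ => o.elim b y := by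
      intro P hP
      rw [mem_kr, Rk2A_aeval_option] at hP ⊢
      exact hall _ _ rfl hP
    refine le_antisymm hle (Rk2A_key hle some hxy.ge ?_)
    rintro _ ⟨o, rfl⟩
    rcases o with _ | i
    · exact ha
    · exact subset_acl _ ⟨i, rfl⟩
  · rw [Rk2A_aeval_option, AlgEquiv.apply_symm_apply] at hq'
    have hc : (aeval y : MvPolynomial σ k →ₐ[k] Ω').toRingHom =
        (algebraMap _ Ω').comp (Rk2A_ev (k := k) y).toRingHom :=
      RingHom.ext fun f => (Rk2A_ev_coe y f).symm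
    rw [hc, ← Polynomial.map_map, Polynomial.eval_map_algebraMap] at hq'
    refine hb (mem_acl.2 ⟨_, fun h0 => hlc ?_, hq'⟩)
    have h1 := congrArg (fun p => Polynomial.coeff p q.natDegree) h0
    simp only [Polynomial.coeff_map, Polynomial.coeff_zero] at h1
    rw [hxy, mem_kr, ← Rk2A_ev_coe]
    exact (congrArg (algebraMap _ Ω') h1).trans (map_zero _)

end Pool.Agent.MP_0c8446_ag

end

section

namespace Pool.Agent.MP_0c8446_ag

open MvPolynomial Set

universe u v w

variable {k : Type u} [Field k] {Ω Ω' : Type u} [Field Ω] [Algebra k Ω] [Field Ω'] [Algebra k Ω']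
  {σ τ : Type} {x : σ → Ω} {y : σ → Ω'}

theorem Rk2B_amalg {F : Type u} [Field F] [Algebra k F] (f : F →ₐ[k] Ω) (g : F →ₐ[k] Ω') :
    ∃ (Ω'' : Type u) (_ : Field Ω'') (_ : Algebra k Ω'') (_ : IsAlgClosed Ω'') (φ : Ω →ₐ[k] Ω'')
      (ψ : Ω' →ₐ[k] Ω''), ∀ z, φ (f z) = ψ (g z) := by
  let _ : Algebra F Ω := f.toRingHom.toAlgebra
  let _ : Algebra F Ω' := g.toRingHom.toAlgebra
  have _ : Nontrivial (TensorProduct F Ω Ω') :=
    Algebra.TensorProduct.nontrivial_of_algebraMap_injective_of_flat_left F Ω Ω'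
      (algebraMap F Ω').injective
  obtain ⟨m, hm⟩ := Ideal.exists_maximal (TensorProduct F Ω Ω')
  let _ : Field (TensorProduct F Ω Ω' ⧸ m) := Ideal.Quotient.field m
  let π : TensorProduct F Ω Ω' →+* AlgebraicClosure (TensorProduct F Ω Ω' ⧸ m) :=
    (algebraMap (TensorProduct F Ω Ω' ⧸ m) _).comp (Ideal.Quotient.mk m)
  let φ₀ := π.comp (Algebra.TensorProduct.includeLeftRingHom (R := F) (A := Ω) (B := Ω'))
  let ψ₀ := π.comp (Algebra.TensorProduct.includeRight (R := F) (A := Ω) (B := Ω')).toRingHom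
  have h : ∀ z, φ₀ (f z) = ψ₀ (g z) := fun z => congrArg π
    (((Algebra.TensorProduct.includeLeft (R := F) (S := F) (A := Ω) (B := Ω')).commutes z).trans
      ((Algebra.TensorProduct.includeRight (R := F) (A := Ω) (B := Ω')).commutes z).symm)
  let a := (φ₀.comp (algebraMap k Ω)).toAlgebra
  refine ⟨_, inferInstance, a, inferInstance, { φ₀ with commutes' := fun _ => rfl },
    { ψ₀ with commutes' := fun c => ?_ }, h⟩
  have h1 := h (algebraMap k F c)
  rw [f.commutes, g.commutes] at h1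
  exact h1.symm

theorem exists_amalgam (h : kr k x = kr k y) :
    ∃ (Ω'' : Type u) (_ : Field Ω'') (_ : Algebra k Ω'') (_ : IsAlgClosed Ω'') (φ : Ω →ₐ[k] Ω'')
      (ψ : Ω' →ₐ[k] Ω''), ∀ s, φ (x s) = ψ (y s) := by
  have _ : (kr k x).IsPrime := RingHom.ker_isPrime _
  let f : (MvPolynomial σ k ⧸ kr k x) →ₐ[k] Ω := Ideal.Quotient.liftₐ _ (aeval x) fun _ hp => hp
  let g : (MvPolynomial σ k ⧸ kr k x) →ₐ[k] Ω' :=
    Ideal.Quotient.liftₐ _ (aeval y) fun _ hp => mem_kr.1 (h ▸ hp)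
  have hf : Function.Injective f := (injective_iff_map_eq_zero f).2 fun p hp => by
    obtain ⟨p, rfl⟩ := Ideal.Quotient.mk_surjective p
    exact Ideal.Quotient.eq_zero_iff_mem.2 hp
  have hg : Function.Injective g := (injective_iff_map_eq_zero g).2 fun p hp => by
    obtain ⟨p, rfl⟩ := Ideal.Quotient.mk_surjective p
    exact Ideal.Quotient.eq_zero_iff_mem.2 (h ▸ mem_kr.2 hp)
  obtain ⟨Ω'', _, _, _, φ, ψ, e⟩ := Rk2B_amalg
    (IsFractionRing.liftAlgHom (K := FractionRing (MvPolynomial σ k ⧸ kr k x)) hf)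
    (IsFractionRing.liftAlgHom (K := FractionRing (MvPolynomial σ k ⧸ kr k x)) hg)
  refine ⟨Ω'', inferInstance, inferInstance, inferInstance, φ, ψ, fun s => ?_⟩
  have h1 := e (algebraMap (MvPolynomial σ k ⧸ kr k x) _ (Ideal.Quotient.mk _ (X s)))
  rw [IsFractionRing.liftAlgHom_apply, IsFractionRing.liftAlgHom_apply,
    IsFractionRing.lift_algebraMap, IsFractionRing.lift_algebraMap] at h1
  have h2 : f (Ideal.Quotient.mk _ (X s)) = x s := aeval_X x s
  have h3 : g (Ideal.Quotient.mk _ (X s)) = y s := aeval_X y s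
  rw [← h2, ← h3]
  exact h1

/-- A system of equations over an algebraically closed subfield that has a solution has a
solution in the subfield. -/
theorem exists_retract [Finite σ] (F : IntermediateField k Ω) [IsAlgClosed F] (x : σ → Ω)
    {c : τ → Ω} (hc : ∀ t, c t ∈ F) :
    ∃ x₀ : σ → Ω, (∀ s, x₀ s ∈ F) ∧ kr k (Sum.elim x c) ≤ kr k (Sum.elim x₀ c) := by
  obtain ⟨m, hm, hle⟩ := Ideal.exists_le_maximal
    (RingHom.ker (aeval x : MvPolynomial σ F →ₐ[F] Ω)) (RingHom.ker_ne_top _)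
  obtain ⟨x₀, rfl⟩ := isMaximal_iff_eq_vanishingIdeal_singleton.1 hm
  have key : ∀ (z : σ → Ω) (P : MvPolynomial (σ ⊕ τ) k),
      (aeval z : MvPolynomial σ F →ₐ[F] Ω)
        (aeval (Sum.elim X fun t => C ⟨c t, hc t⟩ : σ ⊕ τ → MvPolynomial σ F) P) =
        aeval (Sum.elim z c) P := fun z P => by
    have h1 := comp_aeval_apply (Sum.elim X fun t => C ⟨c t, hc t⟩ : σ ⊕ τ → MvPolynomial σ F)
      ((aeval z : MvPolynomial σ F →ₐ[F] Ω).restrictScalars k) P
    refine h1.trans (congrArg (fun w => aeval w P) (funext fun s => ?_))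
    rcases s with s | s
    · simp
    · simp
  refine ⟨fun s => x₀ s, fun s => (x₀ s).2, fun P hP => mem_kr.2 ?_⟩
  have h1 := (mem_vanishingIdeal_singleton_iff _ _).1 (hle ((key x P).trans (mem_kr.1 hP)))
  rw [← key]
  have h2 := comp_aeval_apply x₀ (Algebra.ofId F Ω)
    (aeval (Sum.elim X fun t => C ⟨c t, hc t⟩ : σ ⊕ τ → MvPolynomial σ F) P)
  rw [h1, map_zero] at h2
  exact h2.symm

end Pool.Agent.MP_0c8446_ag

end

section

namespace Pool.Agent.MP_0c8446_ag

open MvPolynomial Set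

universe u v w

variable {k : Type u} [Field k] {Ω Ω' : Type u} [Field Ω] [Algebra k Ω] [Field Ω'] [Algebra k Ω']
  {σ τ : Type} {x : σ → Ω} {y : σ → Ω'}

variable {ι : Type} {n : ι → ℕ} {v : Vars n → Ω} {u : Vars n → Ω'} {d : τ → ι →₀ ℕ}
  {F G : τ → MvPolynomial (Vars n) k}

theorem kr_frac_le [Fintype τ] (hF : ∀ s, IsForm (d s) (F s)) (hG : ∀ s, IsForm (d s) (G s))
    (h : pI k v ≤ pI k u) (hu : ∀ s, aeval u (G s) ≠ 0) :
    kr k (fun s => aeval v (F s) / aeval v (G s)) ≤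
      kr k fun s => aeval u (F s) / aeval u (G s) := by
  intro f hf
  obtain ⟨D, H, hH, e⟩ := exists_form_frac hF hG f
  have hv : ∀ s, aeval v (G s) ≠ 0 := fun s h0 => hu s (pI_le_iff.1 h _ _ (hG s) h0)
  have h1 : aeval v H = 0 := by rw [e Ω v hv, mem_kr.1 hf, mul_zero]
  have h2 := pI_le_iff.1 h _ _ hH h1
  rw [e Ω' u hu] at h2
  exact mem_kr.2 ((mul_eq_zero.1 h2).resolve_left
    (pow_ne_zero _ (Finset.prod_ne_zero_iff.2 fun s _ => hu s)))

/-- The ratios with fixed denominators. -/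
noncomputable def rk2Nr (I : Set ι) (s₀ : ∀ i, Fin (n i + 1)) (v : Vars n → Ω) :
    {a : Vars n // a.1 ∈ I} → Ω :=
  fun a => v a.1 / v ⟨a.1.1, s₀ a.1.1⟩

theorem rk2_ne {s₀ : ∀ i, Fin (n i + 1)} (h : pI k v ≤ pI k u) (hs : ∀ i, u ⟨i, s₀ i⟩ ≠ 0)
    (i : ι) : v ⟨i, s₀ i⟩ ≠ 0 := fun h0 => hs i (by
  have := pI_le_iff.1 h _ _ (isForm_X (k := k) (n := n) ⟨i, s₀ i⟩) (by rw [aeval_X]; exact h0)
  rwa [aeval_X] at this)

theorem rk2_kr [Finite ι] [Fintype τ] (I : Set ι) {s₀ : ∀ i, Fin (n i + 1)}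
    (hF : ∀ s, IsForm (d s) (F s)) (hG : ∀ s, IsForm (d s) (G s)) (h : pI k v ≤ pI k u)
    (hs : ∀ i, u ⟨i, s₀ i⟩ ≠ 0) (hu : ∀ s, aeval u (G s) ≠ 0) :
    kr k (Sum.elim (rk2Nr I s₀ v) fun s => aeval v (F s) / aeval v (G s)) ≤
      kr k (Sum.elim (rk2Nr I s₀ u) fun s => aeval u (F s) / aeval u (G s)) := by
  have := Fintype.ofFinite ({a : Vars n // a.1 ∈ I} ⊕ τ)
  have key := kr_frac_le (k := k) (τ := {a : Vars n // a.1 ∈ I} ⊕ τ) (v := v) (u := u)
    (d := Sum.elim (fun a => Finsupp.single a.1.1 1) d)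
    (F := Sum.elim (fun a => X a.1) F) (G := Sum.elim (fun a => X ⟨a.1.1, s₀ a.1.1⟩) G)
    (by rintro (a | s); exacts [isForm_X a.1, hF s])
    (by rintro (a | s); exacts [isForm_X ⟨a.1.1, s₀ a.1.1⟩, hG s]) h
    (by
      rintro (a | s)
      · rw [Sum.elim_inl, aeval_X]; exact hs _
      · exact hu s)
  convert key using 2
  · funext s
    rcases s with a | s <;> simp [rk2Nr]
  · funext s
    rcases s with a | s <;> simp [rk2Nr]

theorem rk2_rk [Finite ι] [Finite τ] (I : Set ι) {s₀ : ∀ i, Fin (n i + 1)}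
    (hs : ∀ i, v ⟨i, s₀ i⟩ ≠ 0) (z : τ → Ω) :
    rk k (range (Sum.elim (rk2Nr I s₀ v) z)) = rk k (rat I v ∪ range z) := by
  rw [Sum.elim_range]
  refine le_antisymm (rk_mono ((finite_rat I v).union (finite_range z))
    (union_subset_union_left _ ?_)) (rk_le_of_acl ((finite_range _).union (finite_range z))
      (union_subset ((rat_subset_acl_norm s₀ fun i _ => hs i).trans (acl_mono subset_union_left))
        (subset_union_right.trans (subset_acl _))))
  rintro _ ⟨a, rfl⟩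
  exact ⟨a.1.1, a.2, a.1.2, s₀ a.1.1, rfl⟩

theorem rk2_poly (I : Set ι) (s₀ : ∀ i, Fin (n i + 1)) (τ : Type) {e : ι →₀ ℕ}
    {H : MvPolynomial (Vars n) k} (hH : IsForm e H) (he : ∀ i ∉ I, e i = 0) :
    ∃ P : MvPolynomial ({a : Vars n // a.1 ∈ I} ⊕ τ) k,
      ∀ (Ω : Type u) [Field Ω] [Algebra k Ω] (v : Vars n → Ω) (z : τ → Ω),
        (∀ i, v ⟨i, s₀ i⟩ ≠ 0) → (aeval (Sum.elim (rk2Nr I s₀ v) z) P = 0 ↔ aeval v H = 0) := by
  classical
  refine ⟨aeval (fun a : Vars n => if h : a.1 ∈ I then X (Sum.inl ⟨a, h⟩) else 0) H,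
    fun Ω _ _ v z hs => ?_⟩
  have hp : ParOn I v fun a => if a.1 ∈ I then v a / v ⟨a.1, s₀ a.1⟩ else 0 := fun i hi =>
    ⟨(v ⟨i, s₀ i⟩)⁻¹, inv_ne_zero (hs i), fun s => by simp only [if_pos hi, div_eq_inv_mul]⟩
  obtain ⟨c, hc, e1⟩ := hp.exists_aeval (k := k) he
  have e2 : (fun a : Vars n => aeval (R := k) (Sum.elim (rk2Nr I s₀ v) z)
      (if h : a.1 ∈ I then (X (Sum.inl ⟨a, h⟩) : MvPolynomial ({a : Vars n // a.1 ∈ I} ⊕ τ) k)
        else 0)) = fun a => if a.1 ∈ I then v a / v ⟨a.1, s₀ a.1⟩ else 0 := by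
    funext a
    split_ifs with h
    · rw [aeval_X]; rfl
    · exact map_zero _
  rw [← AlgHom.comp_apply, comp_aeval, e2, e1 H hH, mul_eq_zero, or_iff_right hc]

theorem rk_sp_le [Finite ι] [Fintype τ] (I : Set ι) (hF : ∀ s, IsForm (d s) (F s))
    (hG : ∀ s, IsForm (d s) (G s)) (h : pI k v ≤ pI k u) (hn : NZb u)
    (hu : ∀ s, aeval u (G s) ≠ 0) :
    rk k (rat I u ∪ range fun s => aeval u (F s) / aeval u (G s)) ≤
      rk k (rat I v ∪ range fun s => aeval v (F s) / aeval v (G s)) := by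
  choose s₀ hs using hn
  rw [← rk2_rk I hs, ← rk2_rk I (rk2_ne h hs)]
  exact rk_le_of_kr (rk2_kr I hF hG h hs hu)

theorem rk_sp_lt [Finite ι] [Fintype τ] {I : Set ι} (hF : ∀ s, IsForm (d s) (F s))
    (hG : ∀ s, IsForm (d s) (G s)) (h : pI k v ≤ pI k u) (hn : NZb u)
    (hu : ∀ s, aeval u (G s) ≠ 0) {e : ι →₀ ℕ} {H : MvPolynomial (Vars n) k} (hH : IsForm e H)
    (he : ∀ i ∉ I, e i = 0) (h1 : aeval u H = 0) (h2 : aeval v H ≠ 0) :
    rk k (rat I u ∪ range fun s => aeval u (F s) / aeval u (G s)) <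
      rk k (rat I v ∪ range fun s => aeval v (F s) / aeval v (G s)) := by
  choose s₀ hs using hn
  rw [← rk2_rk I hs, ← rk2_rk I (rk2_ne h hs)]
  by_contra hlt
  have e1 := kr_eq_of_rk (rk2_kr I hF hG h hs hu) (not_lt.1 hlt)
  obtain ⟨P, hP⟩ := rk2_poly I s₀ τ hH he
  have h3 := mem_kr.2 ((hP Ω' u (fun s => aeval u (F s) / aeval u (G s)) hs).2 h1)
  rw [← e1] at h3
  exact h2 ((hP Ω v _ (rk2_ne h hs)).1 (mem_kr.1 h3))

theorem rk_rat_le [Finite ι] (I : Set ι) (h : pI k v ≤ pI k u) (hn : NZb u) :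
    rk k (rat I u) ≤ rk k (rat I v) := by
  have := rk_sp_le (τ := Empty) (d := Empty.elim) (F := Empty.elim) (G := Empty.elim) I
    (fun s => s.elim) (fun s => s.elim) h hn (fun s => s.elim)
  simpa only [range_eq_empty, union_empty] using this

theorem rk_rat_lt [Finite ι] {I : Set ι} (h : pI k v ≤ pI k u) (hn : NZb u)
    {e : ι →₀ ℕ} {H : MvPolynomial (Vars n) k} (hH : IsForm e H) (he : ∀ i ∉ I, e i = 0)
    (h1 : aeval u H = 0) (h2 : aeval v H ≠ 0) : rk k (rat I u) < rk k (rat I v) := by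
  have := rk_sp_lt (τ := Empty) (d := Empty.elim) (F := Empty.elim) (G := Empty.elim)
    (fun s => s.elim) (fun s => s.elim) h hn (fun s => s.elim) hH he h1 h2
  simpa only [range_eq_empty, union_empty] using this

end Pool.Agent.MP_0c8446_ag

end
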