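import Pool.Agent.Mg.F0c8446.Gaba67e
import Pool.Agent.Mg.F0c8446.G37419f
import Pool.Agent.Mg.F0c8446.G3d10fc

section

namespace Pool.Agent.MP_0c8446_ag

open MvPolynomial Set Matrix

universe u v w

variable {k : Type u} [Field k] {Ω : Type u} [Field Ω] [Algebra k Ω] {n r : ℕ} {uni : Bool} {q : ℕ}
  [PQ k q] {w : Fin r → ℕ} {y : Fin (r + 1) → Equiv.Perm (Fin n)} {h h' : GS r n → Ω}
  {N : Fin n → ℕ} (c : ∀ a : Fin n, Fin (N a + 1) ≃ (Fin (a + 1) → Fin n))

theorem GFrA_rl_dual {b : Fin n → ℕ} {g g' : Matrix (Fin n) (Fin n) Ω} (hg : IsUnit g)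
    (hg' : IsUnit g') (z z' : Equiv.Perm (Fin n)) :
    Rl b (dualM (g.submatrix id z)) (dualM (g'.submatrix id z')) ↔
      ∀ a a', b (z.symm a).rev < b (z'.symm a').rev → (g⁻¹ * g') a a' = 0 := by
  have hA := isUnit_dualM (isUnit_submatrix hg z)
  have hB := isUnit_dualM (isUnit_submatrix hg' z')
  have inj : Function.Injective fun l : Fin n => z' l.rev :=
    z'.injective.comp Fin.rev_injective
  have hinv : (g'⁻¹ᵀ.submatrix id fun l : Fin n => z' l.rev)⁻¹ =
      g'ᵀ.submatrix (fun l : Fin n => z' l.rev) id := by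
    apply Matrix.inv_eq_left_inv
    have e : g'ᵀ.submatrix (fun l : Fin n => z' l.rev) id *
        g'⁻¹ᵀ.submatrix id (fun l : Fin n => z' l.rev) =
        (g'ᵀ * g'⁻¹ᵀ).submatrix (fun l : Fin n => z' l.rev) (fun l : Fin n => z' l.rev) := rfl
    rw [e, ← transpose_mul, Matrix.nonsing_inv_mul _ ((Matrix.isUnit_iff_isUnit_det g').1 hg'),
      transpose_one, Matrix.submatrix_one _ inj]
  have key : ∀ i j, ((dualM (g'.submatrix id z'))⁻¹ * dualM (g.submatrix id z)) i j =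
      (g⁻¹ * g') (z j.rev) (z' i.rev) := by
    intro i j
    rw [dualM_submatrix hg', dualM_submatrix hg, hinv]
    simp [Matrix.mul_apply, mul_comm]
  refine (show _ ↔ Rl b (dualM (g'.submatrix id z')) (dualM (g.submatrix id z)) from
    ⟨fun H => H.symm hA hB, fun H => H.symm hB hA⟩).trans ?_
  constructor
  · intro H a a' hlt
    have := H hlt
    rwa [key, Fin.rev_rev, Fin.rev_rev, Equiv.apply_symm_apply, Equiv.apply_symm_apply] at this
  · intro H i j hlt
    rw [key]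
    apply H
    simpa using hlt

theorem GFrA_frob_dual [PQ Ω q] {g : Matrix (Fin n) (Fin n) Ω} (hg : IsUnit g)
    (z : Equiv.Perm (Fin n)) :
    frobFlag uni q (dualM (g.submatrix id z)) = dualM ((frobFlag uni q g).submatrix id
      ⇑(if uni then Fin.revPerm * z * Fin.revPerm else z : Equiv.Perm (Fin n))) := by
  have hz := isUnit_submatrix hg z
  have hG : IsUnit (g.map (frobHom Ω q)) := hg.map (frobHom Ω q).mapMatrix
  have e : (dualM (g.submatrix id z)).map (frobHom Ω q) =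
      dualM ((g.map (frobHom Ω q)).submatrix id z) := dualM_map (frobHom Ω q) hz
  cases uni
  · exact e
  · change dualM ((dualM (g.submatrix id z)).map (frobHom Ω q)) =
      dualM ((dualM (g.map (frobHom Ω q))).submatrix id
        ⇑(Fin.revPerm * z * Fin.revPerm : Equiv.Perm (Fin n)))
    rw [e, dualM_dualM (isUnit_submatrix hG z), dualM_submatrix (isUnit_dualM hG)]
    conv_lhs => rw [← dualM_dualM hG]
    ext a b
    simp [dualM]

theorem mI_eq (h1 : ∀ j, mM h j * mI h j = 1) (j : Fin (r + 1)) :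
    IsUnit (mM h j) ∧ mI h j = (mM h j)⁻¹ :=
  ⟨(Matrix.isUnit_iff_isUnit_det _).2 (Matrix.isUnit_det_of_right_inverse (h1 j)),
    (Matrix.inv_eq_right_inv (h1 j)).symm⟩

theorem nxM_castSucc {R : Type*} [CommRing R] (h : GS r n → R) (j : Fin r) :
    nxM uni q h j.castSucc = mM h j.succ := by
  simp only [nxM, Fin.lastCases_castSucc]

theorem nxM_last [PQ Ω q] (h1 : ∀ j, mM h j * mI h j = 1) :
    nxM uni q h (Fin.last r) = frobFlag uni q (mM h 0) := by
  simp only [nxM, Fin.lastCases_last, frobFlag]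
  cases uni
  · rfl
  · have e : ((mM h 0).map (frobHom Ω q))⁻¹ = (mM h 0)⁻¹.map (frobHom Ω q) :=
      map_inv_of_isUnit _ (mI_eq h1 0).1
    change ((mI h 0).map (frobHom Ω q))ᵀ.submatrix id Fin.rev =
      ((mM h 0).map (frobHom Ω q))⁻¹ᵀ.submatrix id Fin.rev
    rw [e, (mI_eq h1 0).2]

theorem secM_eq (h1 : ∀ j, mM h j * mI h j = 1) (j : Fin (r + 1)) :
    IsUnit (secM y h j) ∧ dualM (secM y h j) = (mM h j).submatrix id (y j) ∧
      secM y h j = dualM ((mM h j).submatrix id (y j)) := by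
  have hu := (mI_eq h1 j).1
  have e : secM y h j = dualM ((mM h j).submatrix id (y j)) := by
    rw [dualM_submatrix hu, secM, (mI_eq h1 j).2]
  refine ⟨?_, ?_, e⟩
  · rw [e]; exact isUnit_dualM (isUnit_submatrix hu _)
  · rw [e, dualM_dualM (isUnit_submatrix hu _)]

theorem secM_glAct {R : Type*} [CommRing R] [Algebra k R] (γ : GL (Fin n) k) (h : GS r n → R)
    (j : Fin (r + 1)) :
    secM y (glAct γ h) j = (γ.1⁻¹ᵀ).map (algebraMap k R) * secM y h j := by
  rw [secM, secM, glAct, mI_mkF, transpose_mul, coe_units_inv, transpose_map]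
  rfl

theorem GFrA_chain_iff [PQ Ω q] (h1 : ∀ j, mM h j * mI h j = 1) :
    (∀ j a b, blJ n w j b < blJ n w j a → ddM uni q h j a b = 0) ↔ IsChain' uni q w (mM h) := by
  rw [Fin.forall_fin_succ', IsChain', and_iff_right fun j => (mI_eq h1 j).1]
  refine and_congr (forall_congr' fun j => ?_) ?_
  · simp only [blJ, Fin.lastCases_castSucc, ddM, nxM_castSucc, (mI_eq h1 _).2]
    exact ⟨fun H _ _ hl => H _ _ hl, fun H _ _ hl => H hl⟩
  · simp only [blJ, Fin.lastCases_last, ddM, nxM_last h1, (mI_eq h1 _).2]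
    exact ⟨fun H _ _ hl => H _ _ hl, fun H _ _ hl => H hl⟩

theorem GFrA_sec_iff [PQ Ω q] (h1 : ∀ j, mM h j * mI h j = 1) :
    (∀ j a b, blJ n w j ((y j).symm a).rev < blJ n w j ((nxY uni y j).symm b).rev →
      ddM uni q h j a b = 0) ↔ IsChain' uni q w (secM y h) := by
  rw [Fin.forall_fin_succ', IsChain', and_iff_right fun j => (secM_eq h1 j).1]
  refine and_congr (forall_congr' fun j => ?_) ?_
  · rw [(secM_eq h1 _).2.2, (secM_eq h1 _).2.2, GFrA_rl_dual (mI_eq h1 _).1 (mI_eq h1 _).1]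
    simp only [blJ, nxY, Fin.lastCases_castSucc, ddM, nxM_castSucc, (mI_eq h1 _).2]
  · rw [(secM_eq h1 _).2.2, (secM_eq h1 _).2.2, GFrA_frob_dual (mI_eq h1 _).1,
      GFrA_rl_dual (mI_eq h1 _).1 (isUnit_frobFlag (mI_eq h1 _).1)]
    simp only [blJ, nxY, Fin.lastCases_last, ddM, nxM_last h1, (mI_eq h1 _).2]

/-- Frames of chains. -/
theorem fr_chain_iff : (glFr k uni q fun j a b => blJ n w j b < blJ n w j a).Fr h ↔
    (∀ j, mM h j * mI h j = 1) ∧ IsChain' uni q w (mM h) := by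
  have := PQ.ext k q Ω
  rw [glFr_iff]
  exact and_congr_right fun h1 => GFrA_chain_iff h1

/-- Frames of pairs of chains in relative position `y`. -/
theorem frY_iff : (glFr k uni q (zY uni w y)).Fr h ↔
    (∀ j, mM h j * mI h j = 1) ∧ IsChain' uni q w (mM h) ∧ IsChain' uni q w (secM y h) := by
  have := PQ.ext k q Ω
  rw [glFr_iff]
  refine and_congr_right fun h1 => ?_
  rw [← GFrA_chain_iff h1, ← GFrA_sec_iff h1]
  simp only [zY, or_imp, forall_and]

end Pool.Agent.MP_0c8446_ag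

end

section

namespace Pool.Agent.MP_0c8446_ag

open MvPolynomial Set Matrix

universe u v w

variable {k : Type u} [Field k] {Ω : Type u} [Field Ω] [Algebra k Ω] {n r : ℕ} {uni : Bool} {q : ℕ}
  [PQ k q] {w : Fin r → ℕ} {y : Fin (r + 1) → Equiv.Perm (Fin n)} {h h' : GS r n → Ω}
  {N : Fin n → ℕ} (c : ∀ a : Fin n, Fin (N a + 1) ≃ (Fin (a + 1) → Fin n))

theorem GFr_sub {g g' : Matrix (Fin n) (Fin n) Ω} (y : Equiv.Perm (Fin n)) :
    Rl Fin.val (g.submatrix id y) (g'.submatrix id y) ↔ (g⁻¹ * g').BlockTriangular y.symm := by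
  have e : (g.submatrix id y)⁻¹ * g'.submatrix id y = (g⁻¹ * g').submatrix y y := by
    rw [show g.submatrix id y = g.submatrix (Equiv.refl _) y from rfl, inv_submatrix_equiv]
    rfl
  rw [Rl, e]
  exact ⟨fun H a b l => by simpa using @H (y.symm a) (y.symm b) l,
    fun H a b l => H (by simpa using l)⟩

theorem parOn_pvJoin {ι κ : Type} {n : ι → ℕ} {m : κ → ℕ} {v v' : Vars n → Ω} {u u' : Vars m → Ω} :
    ParOn univ (pvJoin v u) (pvJoin v' u') ↔ ParOn univ v v' ∧ ParOn univ u u' :=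
  ⟨fun h => ⟨fun i _ => h (.inl i) trivial, fun i _ => h (.inr i) trivial⟩,
    fun h i _ => match i with
      | .inl i => h.1 i trivial
      | .inr i => h.2 i trivial⟩

theorem parOn_ptY (h1 : ∀ j, mM h j * mI h j = 1) (h2 : ∀ j, mM h' j * mI h' j = 1) :
    ParOn univ (ptY c y h) (ptY c y h') ↔ ∀ j, ((mM h j)⁻¹ * mM h' j).BlockTriangular Fin.val ∧
      ((mM h j)⁻¹ * mM h' j).BlockTriangular (y j).symm := by
  rw [ptY, ptY, parOn_pvJoin, parOn_plV c (fun j => (mI_eq h1 j).1) (fun j => (mI_eq h2 j).1),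
    parOn_plV c (fun j => (secM_eq h1 j).1) (fun j => (secM_eq h2 j).1), ← forall_and]
  refine forall_congr' fun j => and_congr_right fun _ => ?_
  have u := isUnit_submatrix (mI_eq h1 j).1 (y j)
  have u' := isUnit_submatrix (mI_eq h2 j).1 (y j)
  rw [← GFr_sub, (secM_eq h1 j).2.2, (secM_eq h2 j).2.2]
  refine ⟨fun H => ?_, fun H => H.dual u u'⟩
  simpa only [dualM_dualM u, dualM_dualM u'] using H.dual (isUnit_dualM u) (isUnit_dualM u')

/-- The frame given by common bases of two chains. -/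
theorem frY_mk {g g' H : Fin (r + 1) → Matrix (Fin n) (Fin n) Ω} (hg : IsChain' uni q w g)
    (hg' : IsChain' uni q w g') (hH : ∀ j, IsUnit (H j)) (h1 : ∀ j, Rl Fin.val (g j) (H j))
    (h2 : ∀ j, Rl Fin.val (dualM (g' j)) ((H j).submatrix id (y j))) :
    (glFr k uni q (zY uni w y)).Fr (mkF H fun j => (H j)⁻¹) ∧
      ParOn univ (ptY c y (mkF H fun j => (H j)⁻¹)) (pvJoin (plV c g) (plV c g')) := by
  have := PQ.ext k q Ω
  have e : ∀ j, mM (mkF H fun j => (H j)⁻¹) j * mI (mkF H fun j => (H j)⁻¹) j = 1 := fun j =>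
    mul_nonsing_inv _ ((Matrix.isUnit_iff_isUnit_det _).1 (hH j))
  have s : ∀ j, Rl Fin.val (g' j) (secM y (mkF H fun j => (H j)⁻¹) j) := fun j => by
    have := (h2 j).dual (isUnit_dualM (hg'.1 j)) (isUnit_submatrix (hH j) _)
    rwa [dualM_dualM (hg'.1 j), ← mM_mkF H (fun j => (H j)⁻¹), ← (secM_eq e j).2.2] at this
  refine ⟨frY_iff.2 ⟨e, hg.congr hH h1, hg'.congr (fun j => (secM_eq e j).1) s⟩,
    parOn_pvJoin.2 ⟨(parOn_plV c hH hg.1).2 fun j => (h1 j).symm (hg.1 j) (hH j),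
      (parOn_plV c (fun j => (secM_eq e j).1) hg'.1).2 fun j =>
        (s j).symm (hg'.1 j) (secM_eq e j).1⟩⟩

/-- Changing a frame by matrices that fix both flags. -/
theorem frY_move (hh : (glFr k uni q (zY uni w y)).Fr h)
    {m m' : Fin (r + 1) → Matrix (Fin n) (Fin n) Ω} (hm : ∀ j, m j * m' j = 1)
    (h1 : ∀ j, (m j).BlockTriangular Fin.val) (h2 : ∀ j, (m j).BlockTriangular (y j).symm) :
    (glFr k uni q (zY uni w y)).Fr (mkF (fun j => mM h j * m j) fun j => m' j * mI h j) ∧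
      ParOn univ (ptY c y h) (ptY c y (mkF (fun j => mM h j * m j) fun j => m' j * mI h j)) := by
  have := PQ.ext k q Ω
  obtain ⟨e, c1, c2⟩ := frY_iff.1 hh
  have e' : ∀ j, mM (mkF (fun j => mM h j * m j) fun j => m' j * mI h j) j *
      mI (mkF (fun j => mM h j * m j) fun j => m' j * mI h j) j = 1 := fun j => by
    rw [mM_mkF, mI_mkF, mul_assoc, ← mul_assoc (m j), hm, one_mul, e]
  have p := (parOn_ptY c (y := y) e e').2 fun j => by
    rw [mM_mkF, nonsing_inv_mul_cancel_left _ _ ((Matrix.isUnit_iff_isUnit_det _).1 (c1.1 j))]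
    exact ⟨h1 j, h2 j⟩
  obtain ⟨p1, p2⟩ := parOn_pvJoin.1 p
  have u := fun j => (mI_eq e' j).1
  have u' := fun j => (secM_eq (y := y) e' j).1
  exact ⟨frY_iff.2 ⟨e', c1.congr u ((parOn_plV c c1.1 u).1 p1),
    c2.congr u' ((parOn_plV c c2.1 u').1 p2)⟩, p⟩

end Pool.Agent.MP_0c8446_ag

end

section

namespace Pool.Agent.MP_0c8446_ag

open MvPolynomial Set

universe u v w

theorem Lift_point {K A : Type*} [Field K] [IsAlgClosed K] [CommRing A] [Algebra K A]
    [Algebra.FiniteType K A] {I : Ideal A} (hI : I ≠ ⊤) : ∃ π : A →ₐ[K] K, ∀ a ∈ I, π a = 0 := by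
  obtain ⟨m, hm, hle⟩ := Ideal.exists_le_maximal I hI
  let _ := Ideal.Quotient.field m
  have : Module.Finite K (A ⧸ m) := finite_of_finite_type_of_isJacobsonRing K (A ⧸ m)
  refine ⟨(IsAlgClosed.lift : (A ⧸ m) →ₐ[K] K).comp (Ideal.Quotient.mkₐ K m), fun a ha => ?_⟩
  rw [AlgHom.comp_apply, Ideal.Quotient.mkₐ_eq_mk, Ideal.Quotient.eq_zero_iff_mem.2 (hle ha),
    map_zero]

/-- Substitute values for the first group of variables. -/
noncomputable def LiftSub (k : Type*) [CommRing k] {A : Type*} [CommRing A] [Algebra k A]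
    {σ τ : Type*} (x : τ → A) : MvPolynomial (τ ⊕ σ) k →ₐ[k] MvPolynomial σ A :=
  aeval (Sum.elim (fun t => C (x t)) X)

theorem Lift_comp {k A B σ τ : Type*} [CommRing k] [CommRing A] [Algebra k A] [CommRing B]
    [Algebra k B] (x : τ → A) (Ψ : MvPolynomial σ A →ₐ[k] B) (e : MvPolynomial (τ ⊕ σ) k) :
    Ψ (LiftSub k x e) = aeval (Sum.elim (fun t => Ψ (C (x t))) fun s => Ψ (X s)) e := by
  rw [LiftSub, ← AlgHom.comp_apply, comp_aeval]
  congr 2
  funext a
  cases a <;> rfl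

variable {k : Type u} [Field k] [IsAlgClosed k] {Ω : Type u} [Field Ω] [Algebra k Ω]

/-- A system that is solvable at every `k`-rational specialisation of `x` is solvable at `x`. -/
theorem exists_sol_of_k [IsAlgClosed Ω] {σ τ : Type} [Finite σ] [Finite τ]
    (E : Set (MvPolynomial (τ ⊕ σ) k)) (x : τ → Ω)
    (H : ∀ x₀ : τ → k, kr k x ≤ kr k x₀ → ∃ h₀ : σ → k, ∀ e ∈ E, aeval (Sum.elim x₀ h₀) e = 0) :
    ∃ h : σ → Ω, ∀ e ∈ E, aeval (Sum.elim x h) e = 0 := by
  classical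
  by_cases hJ : Ideal.span (LiftSub k x '' E) = ⊤
  · exfalso
    obtain ⟨n, f, g, hs⟩ := Submodule.mem_span_set'.1 ((Ideal.eq_top_iff_one _).1 hJ)
    choose e he hg using fun i => (g i).2
    let S : Set Ω := range x ∪ ⋃ i, ((f i).coeffs : Set Ω)
    have hS : S.Finite := (finite_range x).union (finite_iUnion fun i => Finset.finite_toSet _)
    let A := Algebra.adjoin k S
    have : Algebra.FiniteType k A := Algebra.FiniteType.adjoin_of_finite hS
    obtain ⟨π, -⟩ := Lift_point (K := k) (A := A) bot_ne_top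
    let x' : τ → A := fun t => ⟨x t, Algebra.subset_adjoin (Or.inl ⟨t, rfl⟩)⟩
    have hf : ∀ i, ∃ p : MvPolynomial σ A, map (A.val : A →+* Ω) p = f i := fun i =>
      mem_range_map_iff_coeffs_subset.2 fun c hc =>
        ⟨⟨c, Algebra.subset_adjoin (Or.inr (mem_iUnion.2 ⟨i, hc⟩))⟩, rfl⟩
    choose f' hf using hf
    have h1 : ∀ p, map (A.val : A →+* Ω) (LiftSub k x' p) = LiftSub (σ := σ) k x p := by
      intro p
      have := Lift_comp x' (mapAlgHom (σ := σ) A.val) p
      simpa [LiftSub, x'] using this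
    have h2 : ∑ i, f' i * LiftSub k x' (e i) = 1 := by
      apply map_injective (A.val : A →+* Ω) Subtype.val_injective
      rw [map_one, ← hs, map_sum]
      exact Finset.sum_congr rfl fun i _ => by rw [map_mul, hf, h1, hg, smul_eq_mul]
    obtain ⟨h₀, h3⟩ := H (fun t => π (x' t)) fun p hp => by
      have h4 : aeval x' p = 0 := Subtype.val_injective (by
        have := congrArg (fun φ => φ p) (comp_aeval x' A.val)
        exact this.trans hp)
      have := congrArg (fun φ => φ p) (comp_aeval x' π)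
      rw [mem_kr, ← this, AlgHom.comp_apply, h4, map_zero]
    have h5 := congrArg (aevalTower π h₀) h2
    rw [map_one, map_sum, Finset.sum_eq_zero] at h5
    · exact zero_ne_one h5
    intro i _
    rw [map_mul, Lift_comp]
    simp only [aevalTower_C, aevalTower_X]
    rw [h3 _ (he i), mul_zero]
  · obtain ⟨π, hπ⟩ := Lift_point (K := Ω) hJ
    refine ⟨fun s => π (X s), fun e he => ?_⟩
    have := Lift_comp x (π.restrictScalars k) e
    simp only [AlgHom.restrictScalars_apply, algHom_C, Algebra.algebraMap_self, RingHom.id_apply]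
      at this
    rw [← this]
    exact hπ _ (Ideal.subset_span ⟨e, he, rfl⟩)

/-- A polynomial map from a closed set that is onto on `k`-points is onto on geometric points. -/
theorem Var.lift_of_k [IsAlgClosed Ω] {X : Var k} {σ : Type} [Finite σ]
    (E : Set (MvPolynomial σ k)) (pt : Vars X.n → MvPolynomial σ k)
    (H : ∀ x : X.pts, ∃ h : σ → k, (∀ e ∈ E, aeval h e = 0) ∧ IsRep (evs h pt) x.1)
    {v : Vars X.n → Ω} (hv : X.On v) :
    ∃ h : σ → Ω, (∀ e ∈ E, aeval h e = 0) ∧ ParOn univ (evs h pt) v := by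
  obtain ⟨t, ht, -, h1⟩ := hv.1.exists_norm
  have hp := parOn_sc univ ht v
  let r : MvPolynomial σ k →ₐ[k] MvPolynomial (Vars X.n ⊕ (σ ⊕ X.ι)) k :=
    rename fun s => Sum.inr (Sum.inl s)
  obtain ⟨h, hh⟩ := exists_sol_of_k (r '' E ∪ range fun a : Vars X.n =>
    MvPolynomial.X (Sum.inl a) - MvPolynomial.X (Sum.inr (Sum.inr a.1)) * r (pt a)) (sc t v)
    fun x₀ hx => by
      have h2 : NZb x₀ := fun i => by
        obtain ⟨s, hs⟩ := h1 i
        have h3 : MvPolynomial.X ⟨i, s⟩ - 1 ∈ kr k x₀ := hx (by simp [mem_kr, hs])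
        rw [mem_kr, map_sub, aeval_X, map_one, sub_eq_zero] at h3
        exact ⟨s, h3 ▸ one_ne_zero⟩
      obtain ⟨y, hy⟩ := ((hv.par hp).of_le h2 (pI_le_of_kr_le hx)).exists_isRep
      obtain ⟨h₀, h3, h4⟩ := H y
      obtain ⟨t₀, -, h5⟩ := (h4.parOn hy).exists_sc
      refine ⟨Sum.elim h₀ t₀, ?_⟩
      rintro e (⟨e, he, rfl⟩ | ⟨a, rfl⟩)
      · rw [aeval_rename]
        exact h3 e he
      · simp only [map_sub, map_mul, aeval_X, r, aeval_rename, Sum.elim_inl, Sum.elim_inr]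
        rw [sub_eq_zero]
        exact congrFun h5 a
  have h2 : ∀ a, sc t v a = h (Sum.inr a.1) * evs (fun s => h (Sum.inl s)) pt a := fun a => by
    have := hh _ (Or.inr ⟨a, rfl⟩)
    simp only [map_sub, map_mul, aeval_X, r, aeval_rename, Sum.elim_inl, Sum.elim_inr] at this
    exact sub_eq_zero.1 this
  refine ⟨fun s => h (Sum.inl s), fun e he => ?_, ParOn.trans (fun i _ => ?_) hp.symm⟩
  · have := hh _ (Or.inl ⟨e, he, rfl⟩)
    rwa [aeval_rename] at this
  · refine ⟨h (Sum.inr i), fun h0 => ?_, fun s => h2 ⟨i, s⟩⟩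
    obtain ⟨s, hs⟩ := h1 i
    rw [h2, h0, zero_mul] at hs
    exact zero_ne_one hs

end Pool.Agent.MP_0c8446_ag

end

section

namespace Pool.Agent.MP_0c8446_ag

open MvPolynomial Set Matrix

universe u v w

variable {k : Type u} [Field k] {n r : ℕ} (uni : Bool) (q : ℕ) [PQ k q] (w : Fin r → ℕ)
  {N : Fin n → ℕ} (c : ∀ a : Fin n, Fin (N a + 1) ≃ (Fin (a + 1) → Fin n))

lemma GSt_ne {ι : Type} {m : ι → ℕ} {v : Vars m → k} (h : NZb v) (i : ι) :
    (fun s => v ⟨i, s⟩) ≠ 0 := fun e => (h i).elim fun s hs => hs (congrFun e s)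

lemma GSt_fr {Ω : Type u} [Field Ω] [Algebra k Ω] {g : Fin (r + 1) → Matrix (Fin n) (Fin n) Ω}
    (hg : IsChain' uni q w g) :
    (glFr k uni q fun j a b => blJ n w j b < blJ n w j a).Fr (mkF g fun j => (g j)⁻¹) :=
  fr_chain_iff.2 ⟨fun j => mul_nonsing_inv _ ((isUnit_iff_isUnit_det _).1 (hg.1 j)), hg⟩

theorem dl_stab (γ : fixG k n uni q) (x : dl k uni q w c) : ∃ y : dl k uni q w c, ∀ v, IsRep v x.1 →
    IsRep (blin (fun i : Fin (r + 1) × Fin n => plR k c i.2 (stdR k n uni q γ)) v) y.1 := by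
  obtain ⟨G, hG, hx⟩ := (mem_dl c).1 x.2
  have h1 := hG.mul γ.1.isUnit (mem_fixG.1 γ.2)
  have h2 := amb_isRep _ (GSt_ne (nzb_plV c h1.1))
  refine ⟨⟨_, (mem_dl c).2 ⟨_, h1, h2⟩⟩, fun v hv => ((hx.parOn hv).blin _).isRep ?_⟩
  rw [← plV_mul, Algebra.algebraMap_self, RingHom.coe_id, Matrix.map_id]
  exact h2

/-- The Deligne-Lusztig variety with the action of the finite group. -/
noncomputable def dlStage (h₁ : IsSub (dl k uni q w c))
    (h₂ : ∀ x ∈ dl k uni q w c, ∀ v, IsRep v x → Module.finrank k (tangent (dl k uni q w c) v) ≤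
      dim (univ : Set (dl k uni q w c)) + Fintype.card (Fin (r + 1) × Fin n)) :
    Stage k (fixG k n uni q) where
  P := ⟨_, _, dl k uni q w c, h₁, h₂⟩
  J := ∅
  ρ i := (plR k c i.2).comp (stdR k n uni q)
  triv _ h := h.elim
  stab := dl_stab uni q w c

variable {uni q w c} [IsAlgClosed k] {h₁ h₂} {Ω : Type u} [Field Ω] [Algebra k Ω]

theorem dl_on {g : Fin (r + 1) → Matrix (Fin n) (Fin n) Ω} (hg : IsChain' uni q w g) :
    (dlStage (k := k) uni q w c h₁ h₂).P.On (plV c g) := by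
  have := Var.on_of_k (X := (dlStage (k := k) uni q w c h₁ h₂).P)
    (glFr k uni q fun j a b => blJ n w j b < blJ n w j a).E (plV c (mM X)) (fun h hh => ?_)
    (GSt_fr uni q w hg)
  · exact (evs_plV_mM (k := k) c (mkF g fun j => (g j)⁻¹)) ▸ this
  · have h1 := (fr_chain_iff.1 hh).2
    have h2 := amb_isRep _ (GSt_ne (nzb_plV c h1.1))
    exact ⟨⟨_, (mem_dl c).2 ⟨_, h1, h2⟩⟩, (evs_plV_mM (k := k) c h).symm ▸ h2⟩

theorem dl_lift [IsAlgClosed Ω] {v : Vars (dlStage (k := k) uni q w c h₁ h₂).P.n → Ω}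
    (hv : (dlStage uni q w c h₁ h₂).P.On v) :
    ∃ g : Fin (r + 1) → Matrix (Fin n) (Fin n) Ω, IsChain' uni q w g ∧ ParOn univ (plV c g) v := by
  obtain ⟨h, h1, h2⟩ := Var.lift_of_k (X := (dlStage (k := k) uni q w c h₁ h₂).P)
    (glFr k uni q fun j a b => blJ n w j b < blJ n w j a).E (plV c (mM X)) (fun x => by
      obtain ⟨G, hG, hx⟩ := (mem_dl c).1 x.2
      exact ⟨mkF G fun j => (G j)⁻¹, GSt_fr uni q w hG,
        (evs_plV_mM (k := k) c (mkF G fun j => (G j)⁻¹)).symm ▸ hx⟩) hv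
  exact ⟨mM h, (fr_chain_iff.1 h1).2, (evs_plV_mM (k := k) c h) ▸ h2⟩

end Pool.Agent.MP_0c8446_ag

end
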