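import Pool.Agent.Mg.F0c8446.Gad5052
import Pool.Agent.MP_0c8446_ag.DL.Defs

section

namespace Pool.Agent.MP_0c8446_ag

open MvPolynomial Set

universe u v w

section pts

variable {k : Type u} [Field k] {ι : Type} {n : ι → ℕ}

/-- Scale each block of variables by its own indeterminate. -/
noncomputable def gorb :
    MvPolynomial (Vars n) k →ₐ[k] MvPolynomial ι (MvPolynomial (Vars n) k) :=
  aeval fun a => X a.1 * C (X a)

/-- `F` is multihomogeneous of multidegree `d`. -/
def IsForm (d : ι →₀ ℕ) (F : MvPolynomial (Vars n) k) : Prop := gorb F = monomial d F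

/-- Scale each block of coordinates. -/
def sc {R : Type*} [Mul R] (t : ι → R) (v : Vars n → R) : Vars n → R := fun a => t a.1 * v a

/-- All blocks are nonzero. -/
def NZb {R : Type*} [Zero R] (v : Vars n → R) : Prop := ∀ i, ∃ s, v ⟨i, s⟩ ≠ 0

/-- The blocks indexed by `I` are proportional. -/
def ParOn {R : Type*} [MulZeroClass R] (I : Set ι) (v v' : Vars n → R) : Prop :=
  ∀ i ∈ I, ∃ t : R, t ≠ 0 ∧ ∀ s, v' ⟨i, s⟩ = t * v ⟨i, s⟩

/-- Apply a matrix in each block. -/
def blin {R : Type*} [AddCommMonoid R] [Module k R]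
    (M : ∀ i, Matrix (Fin (n i + 1)) (Fin (n i + 1)) k) (v : Vars n → R) : Vars n → R :=
  fun a => ∑ s, M a.1 a.2 s • v ⟨a.1, s⟩

open Classical in
/-- Take the blocks in `J` from `v` and the others from `x`. -/
noncomputable def mix {R : Type*} (J : Set ι) (v x : Vars n → R) : Vars n → R :=
  fun a => if a.1 ∈ J then v a else x a

/-- Add one block. -/
def jn {R : Type*} {N : ℕ} (v : Vars n → R) (z : Fin (N + 1) → R) :
    Vars (Sum.elim n fun _ : Unit => N) → R :=
  pvJoin v fun a => z a.2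

variable (k) {Ω : Type u} [Field Ω] [Algebra k Ω]

/-- The multihomogeneous prime ideal of a point with values in an extension field. -/
noncomputable def pI (v : Vars n → Ω) : Ideal (MvPolynomial (Vars n) k) :=
  RingHom.ker (aeval (R := k) fun a : Vars n => (X a.1 * C (v a) : MvPolynomial ι Ω))

/-- The locus of a point. -/
def loc (v : Vars n → Ω) : Set (MP k n) := {x | ∀ f ∈ pI k v, Vanish f x}

/-- The transcendence degree of the field generated by a finite set. -/
noncomputable def rk (S : Set Ω) : ℕ := ((AlgebraicIndependent.matroid k Ω).eRk S).toNat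

/-- The elements algebraic over the field generated by `S`. -/
def acl (S : Set Ω) : Set Ω := (AlgebraicIndependent.matroid k Ω).closure S

/-- The ideal of relations of a tuple. -/
noncomputable def kr {σ : Type} (x : σ → Ω) : Ideal (MvPolynomial σ k) :=
  RingHom.ker (aeval (R := k) x)

variable {k}

/-- The ratios of coordinates in the blocks indexed by `I`. -/
def rat (I : Set ι) (v : Vars n → Ω) : Set Ω :=
  {x | ∃ i ∈ I, ∃ s s', x = v ⟨i, s⟩ / v ⟨i, s'⟩}

/-- `v` is a point of `X` with values in `Ω`. -/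
def Var.On (X : Var k) (v : Vars X.n → Ω) : Prop := NZb v ∧ vI X.pts ≤ pI k v

/-- The locus of a point of `X`. -/
def Var.loc (X : Var k) (v : Vars X.n → Ω) : Set X.pts := Subtype.val ⁻¹' MP_0c8446_ag.loc k v

/-- A morphism given globally by forms. -/
structure Mor.Poly {X Y : Var k} (f : Mor X Y) (F : Vars Y.n → MvPolynomial (Vars X.n) k) :
    Prop where
  form : ∀ j, ∃ d, ∀ s, IsForm d (F ⟨j, s⟩)
  rep : ∀ x v, IsRep v x.1 → IsRep (fun s => eval v (F s)) (f.1 x).1

end pts

/-- A place: a valuation ring `O` of `Ω` containing `k` with a local homomorphism to `Ω'`. -/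
structure Place (k Ω Ω' : Type u) [Field k] [Field Ω] [Field Ω'] [Algebra k Ω] [Algebra k Ω'] where
  O : Subalgebra k Ω
  tot : ∀ x, x ∈ O ∨ x⁻¹ ∈ O
  π : O →ₐ[k] Ω'
  inv : ∀ a : O, π a ≠ 0 → (a : Ω)⁻¹ ∈ O

open Classical in
/-- The reduction map, extended by zero. -/
noncomputable def Place.red {k Ω Ω' : Type u} [Field k] [Field Ω] [Field Ω'] [Algebra k Ω]
    [Algebra k Ω'] (Pl : Place k Ω Ω') (x : Ω) : Ω' :=
  if h : x ∈ Pl.O then Pl.π ⟨x, h⟩ else 0

/-- Sets of subvarieties that are closed under passing to subvarieties. -/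
def SubCl {X : Type u} [TopologicalSpace X] (𝓓 : Set (Set X)) : Prop :=
  ∀ C ∈ 𝓓, IsSub C ∧ ∀ C', IsSub C' → C' ⊆ C → C' ∈ 𝓓

variable {k : Type u} [Field k] {Γ : Type u} [Group Γ]

/-- A variety with a block-linear action of `Γ` and a set `J` of parameter blocks. -/
structure Stage (k : Type u) [Field k] (Γ : Type u) [Group Γ] where
  P : Var k
  J : Set P.ι
  ρ : ∀ i, Γ →* Matrix (Fin (P.n i + 1)) (Fin (P.n i + 1)) k
  triv : ∀ i ∈ J, ρ i = 1
  stab : ∀ γ (x : P.pts), ∃ y : P.pts, ∀ v, IsRep v x.1 → IsRep (blin (fun i => ρ i γ) v) y.1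

lemma aeval_blin {ι : Type} {n : ι → ℕ} {R : Type*} [CommRing R] [Algebra k R]
    (M : ∀ i, Matrix (Fin (n i + 1)) (Fin (n i + 1)) k) (v : Vars n → R) (a : Vars n) :
    aeval v (blin M (X : Vars n → MvPolynomial (Vars n) k) a) = blin M v a := by
  simp [blin]

lemma eval_blin {ι : Type} {n : ι → ℕ}
    (M : ∀ i, Matrix (Fin (n i + 1)) (Fin (n i + 1)) k) (v : Vars n → k) (a : Vars n) :
    eval v (blin M (X : Vars n → MvPolynomial (Vars n) k) a) = blin M v a :=
  aeval_blin M v a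

/-- The action as morphisms. -/
noncomputable def Stage.act (S : Stage k Γ) (γ : Γ) : Mor S.P S.P :=
  ⟨fun x => (S.stab γ x).choose, isMor_of_global (blin (fun i => S.ρ i γ) X) fun y v hv => by
    simpa only [eval_blin] using (S.stab γ y).choose_spec v hv⟩

lemma Stage.act_rep (S : Stage k Γ) (γ : Γ) (x : S.P.pts) {v : Vars S.P.n → k}
    (hv : IsRep v x.1) : IsRep (blin (fun i => S.ρ i γ) v) ((S.act γ).1 x).1 :=
  (S.stab γ x).choose_spec v hv

/-- Change the group along a homomorphism. -/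
def Stage.comap {Γ' : Type u} [Group Γ'] (S : Stage k Γ) (θ : Γ' →* Γ) : Stage k Γ' where
  P := S.P
  J := S.J
  ρ i := (S.ρ i).comp θ
  triv i hi := by rw [S.triv i hi]; rfl
  stab γ := S.stab (θ γ)

/-- The trivial action, all blocks being parameters. -/
def trivStage (Γ : Type u) [Group Γ] (T : Var k) : Stage k Γ where
  P := T
  J := univ
  ρ _ := 1
  triv _ _ := rfl
  stab γ x := ⟨x, fun v hv => by
    have : blin (fun i => (1 : Γ →* Matrix (Fin (T.n i + 1)) (Fin (T.n i + 1)) k) γ) v = v := by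
      funext a
      simp [blin, Matrix.one_apply]
    rwa [this]⟩

/-- Add a trivial summand in position `0`. -/
def plus {N : ℕ} (r : Γ →* Matrix (Fin N) (Fin N) k) : Γ →* Matrix (Fin (N + 1)) (Fin (N + 1)) k where
  toFun γ := Matrix.of (Fin.cons (Fin.cons 1 0) fun s => Fin.cons 0 (r γ s))
  map_one' := by
    ext a b
    refine Fin.cases ?_ (fun a => ?_) a <;> refine Fin.cases ?_ (fun b => ?_) b <;>
      simp [Matrix.one_apply, (Fin.succ_ne_zero _).symm]
  map_mul' γ δ := by
    ext a b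
    refine Fin.cases ?_ (fun a => ?_) a <;> refine Fin.cases ?_ (fun b => ?_) b <;>
      simp [Matrix.mul_apply, Fin.sum_univ_succ]

variable [IsAlgClosed k]

/-- The product of two stages. -/
noncomputable def Stage.prod (S S' : Stage k Γ) : Stage k Γ where
  P := pvVar S.P S'.P
  J := {i | Sum.elim (· ∈ S.J) (· ∈ S'.J) i}
  ρ
    | Sum.inl i => S.ρ i
    | Sum.inr i => S'.ρ i
  triv
    | Sum.inl i, hi => S.triv i hi
    | Sum.inr i, hi => S'.triv i hi
  stab γ x := ⟨pvM ((S.act γ).1 (pvP x)) ((S'.act γ).1 (pvQ x)), fun _ hv i => match i with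
    | Sum.inl i => S.act_rep γ (pvP x) (pv_rep_fst hv) i
    | Sum.inr i => S'.act_rep γ (pvQ x) (pv_rep_snd hv) i⟩

/-- The first projection. -/
def pvF (X Y : Var k) : Mor (pvVar X Y) X := ⟨pvP, pv_isMor_P⟩

/-- The second projection. -/
def pvS (X Y : Var k) : Mor (pvVar X Y) Y := ⟨pvQ, pv_isMor_Q⟩

lemma isProd_pv (X Y : Var k) : IsProd (pvF X Y) (pvS X Y) := isProd_of
  (fun _ f g => ⟨⟨fun x => pvM (f.1 x) (g.1 x), pv_isMor_M f.2 g.2⟩, fun _ => rfl, fun _ => rfl⟩)
  fun _ _ h1 h2 => pv_ext' h1 h2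

/-- Projective space. -/
noncomputable abbrev PN (k : Type u) [Field k] [IsAlgClosed k] (N : ℕ) : Var k :=
  amb k fun _ : Unit => N

/-- Projective space with a linear action. -/
noncomputable def projStage {N : ℕ} (r : Γ →* Matrix (Fin (N + 1)) (Fin (N + 1)) k) :
    Stage k Γ where
  P := PN k N
  J := ∅
  ρ _ := r
  triv _ h := h.elim
  stab γ x := by
    have key : ∀ v : Vars (fun _ : Unit => N) → k, (fun s => v ⟨(), s⟩) ≠ 0 →
        (fun s => blin (fun _ => r γ) v ⟨(), s⟩) ≠ 0 := fun v hv h => hv (by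
      have h1 : (r γ).mulVec (fun s => v ⟨(), s⟩) = 0 := h
      have h2 := congrArg (r γ⁻¹).mulVec h1
      rwa [Matrix.mulVec_mulVec, ← map_mul, inv_mul_cancel, map_one, Matrix.one_mulVec,
        Matrix.mulVec_zero] at h2)
    refine ⟨⟨ambPt (blin (fun _ => r γ) x.1.rep) fun _ => key _ (isRep_rep x.1 ()).1, trivial⟩,
      fun v hv => ?_⟩
    obtain ⟨t, ht, rfl⟩ := (isRep_rep x.1).exists_smul hv
    have e : blin (fun _ => r γ) (fun a : Vars fun _ : Unit => N => t a.1 * x.1.rep a) =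
        fun a => t a.1 * blin (fun _ => r γ) x.1.rep a := by
      funext a
      simp only [blin, Finset.mul_sum, smul_eq_mul, mul_left_comm]
      rfl
    exact e ▸ (amb_isRep (blin (fun _ => r γ) x.1.rep)
      fun _ => key _ (isRep_rep x.1 ()).1).smul t ht

/-- Add a projective space with a linear action. -/
noncomputable abbrev Stage.ext (S : Stage k Γ) {N : ℕ}
    (r : Γ →* Matrix (Fin (N + 1)) (Fin (N + 1)) k) : Stage k Γ := S.prod (projStage r)

/-- Add the projective closure of the line bundle given by the block `i`. -/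
noncomputable abbrev Stage.lb (S : Stage k Γ) (i : S.P.ι) : Stage k Γ := S.ext (plus (S.ρ i))

/-- The morphism `x ↦ [0 : x_i]`. -/
noncomputable def Var.infS (X : Var k) (i : X.ι) : Mor X (PN k (X.n i + 1)) :=
  ⟨fun x => ⟨ambPt (fun a => Fin.cons (α := fun _ => k) 0 (x.1 i).rep a.2) fun _ h =>
      (x.1 i).rep_nonzero (funext fun s => congrFun h s.succ), trivial⟩,
    isMor_of_global (fun a => Fin.cons (α := fun _ => MvPolynomial (Vars X.n) k) 0
      (fun s => MvPolynomial.X ⟨i, s⟩) a.2) fun y v hv => by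
        obtain ⟨t, ht, rfl⟩ := (isRep_rep y.1).exists_smul hv
        have := (amb_isRep (n := fun _ : Unit => X.n i + 1)
          (fun a => Fin.cons (α := fun _ => k) 0 (y.1 i).rep a.2) fun _ h =>
            (y.1 i).rep_nonzero (funext fun s => congrFun h s.succ)).smul (fun _ => t i)
              (fun _ => ht i)
        have e : (fun s : Vars fun _ : Unit => X.n i + 1 => eval (fun a => t a.1 * y.1.rep a)
            (Fin.cons (α := fun _ => MvPolynomial (Vars X.n) k) 0
              (fun s => MvPolynomial.X ⟨i, s⟩) s.2)) =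
            fun a => t i * Fin.cons (α := fun _ => k) 0 (y.1 i).rep a.2 := by
          funext ⟨_, s⟩
          refine Fin.cases ?_ (fun s => ?_) s <;> simp [MP.rep]
        exact e ▸ this⟩

/-- The section at infinity `x ↦ (x, [0 : x_i])`. -/
noncomputable def Var.inf (X : Var k) (i : X.ι) : Mor X (pvVar X (PN k (X.n i + 1))) :=
  ⟨fun x => pvM x ((X.infS i).1 x), pv_isMor_M isMor_id (X.infS i).2⟩

/-- The hyperplane at infinity of the last block. -/
def hInf (X : Var k) (N : ℕ) : Set (pvVar X (PN k (N + 1))).pts :=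
  {x | Vanish (MvPolynomial.X ⟨Sum.inr (), 0⟩) x.1}

/-- The zero section of the last block. -/
def zSec (X : Var k) (N : ℕ) : Set (pvVar X (PN k (N + 1))).pts :=
  {x | ∀ s : Fin (N + 1), Vanish (MvPolynomial.X ⟨Sum.inr (), s.succ⟩) x.1}

omit [IsAlgClosed k]

/-- The non-parameter part and the parameter part of `v` are independent. -/
def Stage.Free (S : Stage k Γ) {Ω : Type u} [Field Ω] [Algebra k Ω] (v : Vars S.P.n → Ω) : Prop :=
  rk k (rat univ v) = rk k (rat S.J v) + rk k (rat S.Jᶜ v)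

variable {K : Type v} [Field K] (W : Weil.{u, v, w} k K)

/-- Integration of `β` over a subvariety. -/
def Weil.ph {X : Var k} (β : W.H X) (C : Set X.pts) : K := W.tr X (W.cl X C * β)

/-- Invariant classes. -/
def Weil.Inv (S : Stage k Γ) (β : W.H S.P) : Prop := ∀ γ, W.pull (S.act γ) β = β

/-- `β` kills the decomposable subvarieties. -/
def Weil.Kill (S : Stage k Γ) (β : W.H S.P) : Prop :=
  ∀ (Ω : Type u) [Field Ω] [Algebra k Ω] (v : Vars S.P.n → Ω), S.P.On v → S.Free v →
    W.ph β (S.P.loc v) = 0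

/-- Invariant classes that kill the decomposable subvarieties and `𝓓` kill `𝓡`. -/
def Weil.Dec (S : Stage k Γ) (𝓡 𝓓 : Set (Set S.P.pts)) : Prop :=
  ∀ m, ∀ β ∈ W.gr S.P (2 * m), W.Inv S β → W.Kill S β → (∀ C ∈ 𝓓, W.ph β C = 0) →
    ∀ C ∈ 𝓡, W.ph β C = 0

/-- A multiple of `cl V * η` is a positive combination of the components of `V ∩ H`. -/
def Weil.CutAt {X : Var k} (η : W.H X) (V H : Set X.pts) : Prop :=
  ∃ (a : ℕ) (s : Finset (Set X.pts)) (μ : Set X.pts → ℕ), 0 < a ∧ (∀ C, C ∈ s ↔ IsComp C (V ∩ H)) ∧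
    (∀ C ∈ s, 0 < μ C ∧ dim C + 1 = dim V) ∧ a • (W.cl X V * η) = ∑ C ∈ s, μ C • W.cl X C

/-- The cohomology is spanned by homogeneous classes with algebraic exterior square. -/
def Weil.SqT (X : Var k) : Prop :=
  Submodule.span K {z | (∃ i, z ∈ W.gr X i) ∧ ∀ (P : Var k) (p q : Mor P X), IsProd p q →
    W.pull p z * W.pull q z ∈ W.Alg P} = ⊤

/-- A family of points, one set for each algebraically closed extension. -/
abbrev Fam (k : Type u) [Field k] (σ : Type) : Type (u + 1) :=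
  ∀ (Ω : Type u) [Field Ω] [Algebra k Ω] [IsAlgClosed Ω], (σ → Ω) → Prop

/-- A family of relations, one for each algebraically closed extension. -/
abbrev FRel (k : Type u) [Field k] (σ : Type) : Type (u + 1) :=
  ∀ (Ω : Type u) [Field Ω] [Algebra k Ω] [IsAlgClosed Ω], (σ → Ω) → (σ → Ω) → Prop

/-- The loci of the points of a family. -/
def Var.fam (X : Var k) (R : Fam k (Vars X.n)) : Set (Set X.pts) :=
  {C | ∃ (Ω : Type u) (_ : Field Ω) (_ : Algebra k Ω) (_ : IsAlgClosed Ω) (v : Vars X.n → Ω),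
    R Ω v ∧ C = X.loc v}

/-- Evaluate a family of polynomials. -/
noncomputable def evs {σ α R : Type*} [CommRing R] [Algebra k R] (h : σ → R)
    (F : α → MvPolynomial σ k) : α → R := fun a => aeval h (F a)

/-- Frames: a closed subset of an affine space with an action of `Γ`. -/
structure FrD (k : Type u) [Field k] (Γ : Type u) [Group Γ] where
  σ : Type
  [fin : Fintype σ]
  E : Set (MvPolynomial σ k)
  act : Γ → σ → MvPolynomial σ k
  stab : ∀ γ (Ω : Type u) [Field Ω] [Algebra k Ω] (h : σ → Ω), (∀ e ∈ E, aeval h e = 0) →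
    ∀ e ∈ E, aeval (evs h (act γ)) e = 0

attribute [instance] FrD.fin

/-- `h` is a frame. -/
def FrD.Fr (D : FrD k Γ) {Ω : Type u} [Field Ω] [Algebra k Ω] (h : D.σ → Ω) : Prop :=
  ∀ e ∈ D.E, aeval h e = 0

/-- The family `F` of polynomials on frames is equivariant for the representation `r`. -/
def FrD.Equi (D : FrD k Γ) {ε : Type} [Fintype ε] [DecidableEq ε] (r : Γ →* Matrix ε ε k)
    (F : ε → MvPolynomial D.σ k) : Prop :=
  ∀ γ (Ω : Type u) [Field Ω] [Algebra k Ω] (h : D.σ → Ω), D.Fr h → ∀ s,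
    aeval (evs h (D.act γ)) (F s) = ∑ s', r γ s s' • aeval h (F s')

/-- The family `F` has no common zero on frames. -/
def FrD.NV (D : FrD k Γ) {ε : Type} (F : ε → MvPolynomial D.σ k) : Prop :=
  ∀ (Ω : Type u) [Field Ω] [Algebra k Ω] (h : D.σ → Ω), D.Fr h → ∃ s, aeval h (F s) ≠ 0

/-- The points of a stage that come from frames. -/
def FrD.famR (D : FrD k Γ) (S : Stage k Γ) (pt : Vars S.P.n → MvPolynomial D.σ k) :
    Fam k (Vars S.P.n) :=
  fun _ _ _ _ v => S.P.On v ∧ ∃ h, D.Fr h ∧ ParOn S.Jᶜ (evs h pt) v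

/-- Integral lifting: an integral point that comes from a frame reduces into the boundary or
comes from an integral frame. -/
def FrD.IL (D : FrD k Γ) (S : Stage k Γ) (pt : Vars S.P.n → MvPolynomial D.σ k)
    (bd : Set (Set S.P.pts)) : Prop :=
  ∀ (Ω Ω' : Type u) [Field Ω] [Algebra k Ω] [IsAlgClosed Ω] [Field Ω'] [Algebra k Ω']
    [IsAlgClosed Ω'] (Pl : Place k Ω Ω') (v : Vars S.P.n → Ω) (h : D.σ → Ω), S.P.On v → D.Fr h →
    ParOn S.Jᶜ (evs h pt) v → (∀ a, v a ∈ Pl.O) → NZb (fun a => Pl.red (v a)) →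
    S.P.loc (fun a => Pl.red (v a)) ∈ bd ∨
      ∃ h', D.Fr h' ∧ ParOn S.Jᶜ (evs h' pt) v ∧ ∀ s, h' s ∈ Pl.O

/-- A quotient of the frames presented inside a stage, with its boundary. -/
structure Level (D : FrD k Γ) where
  S : Stage k Γ
  pt : Vars S.P.n → MvPolynomial D.σ k
  bd : Set (Set S.P.pts)
  nz : ∀ i ∉ S.J, D.NV fun s => pt ⟨i, s⟩
  equi : ∀ i ∉ S.J, D.Equi (S.ρ i) fun s => pt ⟨i, s⟩
  prod : ∀ (Ω : Type u) [Field Ω] [Algebra k Ω] (v : Vars S.P.n → Ω) (h : D.σ → Ω), S.P.On v →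
    D.Fr h → S.P.On (mix S.J v (evs h pt))
  closed : SubCl bd
  il : D.IL S pt bd

variable {D : FrD k Γ}

/-- The loci of the points of a level. -/
def Level.R (L : Level D) : Set (Set L.S.P.pts) := L.S.P.fam (D.famR L.S L.pt)

/-- Two frames have the same image. -/
def Level.Eqv (L : Level D) {Ω : Type u} [Field Ω] [Algebra k Ω] (h h' : D.σ → Ω) : Prop :=
  ParOn L.S.Jᶜ (evs h L.pt) (evs h' L.pt)

/-- The function `f` on frames comes from a regular function on the level. -/
def Level.Reg (L : Level D) (f : MvPolynomial D.σ k) : Prop :=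
  ∃ (d : L.S.P.ι →₀ ℕ) (F G : MvPolynomial (Vars L.S.P.n) k), IsForm d F ∧ IsForm d G ∧
    (∀ i ∈ L.S.J, d i = 0) ∧
    ∀ (Ω : Type u) [Field Ω] [Algebra k Ω] (h : D.σ → Ω), D.Fr h →
      aeval (evs h L.pt) G ≠ 0 ∧ aeval (evs h L.pt) F = aeval h f * aeval (evs h L.pt) G

/-- Every level with equivalence relation `e` on which the members of `V` are regular has the
property `Dec`. -/
def Weil.Good (D : FrD k Γ) (e : FRel k D.σ) (V : Set (MvPolynomial D.σ k)) : Prop :=
  ∀ L : Level D, (∀ (Ω : Type u) [Field Ω] [Algebra k Ω] [IsAlgClosed Ω] (h h' : D.σ → Ω),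
    D.Fr h → D.Fr h' → (L.Eqv h h' ↔ e Ω h h')) → (∀ f ∈ V, L.Reg f) → W.Dec L.S L.R L.bd

end Pool.Agent.MP_0c8446_ag

end

section

namespace Pool.Agent.MP_0c8446_ag

open MvPolynomial Set

universe u v w

variable {k : Type u} [Field k] {ι κ : Type} {n : ι → ℕ} {m : κ → ℕ}
  {d e : ι →₀ ℕ} {F G : MvPolynomial (Vars n) k}
  {Ω Ω' : Type u} [Field Ω] [Algebra k Ω] [Field Ω'] [Algebra k Ω']

theorem isForm_zero (d : ι →₀ ℕ) : IsForm d (0 : MvPolynomial (Vars n) k) := by
  rw [IsForm, map_zero, map_zero]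

theorem isForm_C (c : k) : IsForm 0 (C c : MvPolynomial (Vars n) k) :=
  gorb.commutes c

theorem isForm_one : IsForm 0 (1 : MvPolynomial (Vars n) k) := map_one gorb

theorem isForm_X (a : Vars n) :
    IsForm (Finsupp.single a.1 1) (X a : MvPolynomial (Vars n) k) := by
  rw [IsForm, gorb, aeval_X, mul_comm, C_mul_X_eq_monomial]

theorem IsForm.add (hF : IsForm d F) (hG : IsForm d G) : IsForm d (F + G) := by
  rw [IsForm, map_add, map_add, hF, hG]

theorem IsForm.sub (hF : IsForm d F) (hG : IsForm d G) : IsForm d (F - G) := by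
  rw [IsForm, map_sub, map_sub, hF, hG]

theorem IsForm.smul (c : k) (hF : IsForm d F) : IsForm d (c • F) := by
  rw [IsForm, map_smul, hF, smul_monomial]

theorem IsForm.mul (hF : IsForm d F) (hG : IsForm e G) : IsForm (d + e) (F * G) := by
  rw [IsForm, map_mul, hF, hG, monomial_mul]

theorem IsForm.pow (hF : IsForm d F) (r : ℕ) : IsForm (r • d) (F ^ r) := by
  rw [IsForm, map_pow, hF, monomial_pow]

theorem IsForm.sum {α : Type*} (s : Finset α) {F : α → MvPolynomial (Vars n) k}
    (h : ∀ a ∈ s, IsForm d (F a)) : IsForm d (∑ a ∈ s, F a) := by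
  rw [IsForm, map_sum, map_sum]
  exact Finset.sum_congr rfl h

theorem IsForm.prod {α : Type*} (s : Finset α) {d : α → ι →₀ ℕ} {F : α → MvPolynomial (Vars n) k}
    (h : ∀ a ∈ s, IsForm (d a) (F a)) : IsForm (∑ a ∈ s, d a) (∏ a ∈ s, F a) := by
  classical
  induction s using Finset.induction_on with
  | empty => exact isForm_one
  | insert a s ha ih =>
    rw [Finset.sum_insert ha, Finset.prod_insert ha]
    exact (h a (Finset.mem_insert_self a s)).mul (ih fun b hb => h b (Finset.mem_insert_of_mem hb))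

theorem isForm_blin (M : ∀ i, Matrix (Fin (n i + 1)) (Fin (n i + 1)) k) (a : Vars n) :
    IsForm (Finsupp.single a.1 1) (blin M (X : Vars n → MvPolynomial (Vars n) k) a) :=
  IsForm.sum _ fun s _ => (isForm_X ⟨a.1, s⟩).smul _

theorem FormA_tower {R : Type*} [CommRing R] [Algebra k R] (t : ι → R) (v : Vars n → R)
    (f : MvPolynomial (Vars n) k) : aevalTower (aeval v) t (gorb f) = aeval (sc t v) f := by
  have h : (aevalTower (aeval v) t).comp gorb = aeval (R := k) (sc t v) :=
    algHom_ext fun a => by simp [gorb, sc]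
  exact DFunLike.congr_fun h f

theorem IsForm.aeval_sc {R : Type*} [CommRing R] [Algebra k R] (hF : IsForm d F) (t : ι → R)
    (v : Vars n → R) : aeval (sc t v) F = (d.prod fun i r => t i ^ r) * aeval v F := by
  rw [← FormA_tower, hF, monomial_eq, map_mul, aevalTower_C, mul_comm, Finsupp.prod, Finsupp.prod,
    map_prod]
  simp only [map_pow, aevalTower_X]

/-- Substituting forms into a form. -/
theorem IsForm.comp {H : MvPolynomial (Vars m) k} {c : κ →₀ ℕ} (hH : IsForm c H)
    {F : Vars m → MvPolynomial (Vars n) k} {d : κ → ι →₀ ℕ} (hF : ∀ j s, IsForm (d j) (F ⟨j, s⟩)) :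
    IsForm (c.sum fun j r => r • d j) (aeval F H) := by
  have e : (fun s => gorb (F s)) = sc (fun j => monomial (d j) 1) fun s => C (F s) := by
    funext ⟨j, s⟩
    rw [hF j s, sc, mul_comm, C_mul_monomial, mul_one]
  have e' : aeval (fun s => (C (F s) : MvPolynomial ι (MvPolynomial (Vars n) k))) H =
      C (aeval F H) :=
    (comp_aeval_apply F (IsScalarTower.toAlgHom k _ (MvPolynomial ι (MvPolynomial (Vars n) k)))
      H).symm
  rw [IsForm, comp_aeval_apply, e, hH.aeval_sc, e', Finsupp.prod, Finsupp.sum]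
  simp only [monomial_pow, one_pow]
  rw [← monomial_sum_one, mul_comm, C_mul_monomial, mul_one]

theorem FormA_map {α β : Type} (f : α → β) (d : α →₀ ℕ) :
    (d.sum fun j r => r • Finsupp.single (f j) 1) = d.mapDomain f := by
  simp only [Finsupp.smul_single, smul_eq_mul, mul_one]
  rfl

theorem IsForm.rename_L (m : κ → ℕ) (hF : IsForm d F) :
    IsForm (d.mapDomain Sum.inl) (rename (pvL m) F) := by
  rw [← FormA_map, rename_eq_aeval]
  exact hF.comp fun j s => isForm_X (pvL m ⟨j, s⟩)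

theorem IsForm.rename_R (m : κ → ℕ) (hF : IsForm d F) :
    IsForm (d.mapDomain Sum.inr) (rename (pvR m) F) := by
  rw [← FormA_map, rename_eq_aeval]
  exact hF.comp fun j s => isForm_X (pvR m ⟨j, s⟩)

/-- The multihomogeneous component of multidegree `d`. -/
noncomputable def cmp (d : ι →₀ ℕ) (f : MvPolynomial (Vars n) k) : MvPolynomial (Vars n) k :=
  coeff d (gorb f)

theorem isForm_cmp (d : ι →₀ ℕ) (f : MvPolynomial (Vars n) k) : IsForm d (cmp d f) := by
  classical
  induction f using MvPolynomial.induction_on' with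
  | monomial u c =>
    have h : IsForm (0 + ∑ a ∈ u.support, u a • Finsupp.single a.1 1)
        (monomial u c : MvPolynomial (Vars n) k) := by
      rw [monomial_eq]
      exact (isForm_C c).mul (IsForm.prod _ fun a _ => (isForm_X a).pow (u a))
    rw [cmp, h, coeff_monomial]
    split_ifs with e
    · exact e ▸ h
    · exact isForm_zero d
  | add f g hf hg =>
    rw [cmp, map_add, coeff_add]
    exact hf.add hg

theorem sum_cmp (f : MvPolynomial (Vars n) k) : ∑ d ∈ (gorb f).support, cmp d f = f := by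
  have h : (aevalTower (AlgHom.id k _) fun _ => 1).comp gorb =
      AlgHom.id k (MvPolynomial (Vars n) k) := algHom_ext fun a => by simp [gorb]
  have h1 : aevalTower (AlgHom.id k _) (fun _ => 1) (gorb f) = f := DFunLike.congr_fun h f
  rw [(gorb f).as_sum, map_sum] at h1
  refine Eq.trans (Finset.sum_congr rfl fun d _ => ?_) h1
  rw [monomial_eq, map_mul, aevalTower_C, Finsupp.prod, map_prod]
  simp only [map_pow, aevalTower_X, one_pow, Finset.prod_const_one, mul_one]
  rfl

theorem FormA_map_gorb (v : Vars n → Ω) (f : MvPolynomial (Vars n) k) :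
    aeval (fun a : Vars n => (X a.1 * C (v a) : MvPolynomial ι Ω)) f =
      map (aeval v : MvPolynomial (Vars n) k →ₐ[k] Ω) (gorb f) := by
  induction f using MvPolynomial.induction_on with
  | C c => simp [gorb]
  | add f g hf hg => simp only [map_add, hf, hg]
  | mul_X f a hf =>
    rw [map_mul, map_mul, map_mul, hf]
    simp [gorb]

theorem mem_pI_iff {v : Vars n → Ω} {f : MvPolynomial (Vars n) k} :
    f ∈ pI k v ↔ ∀ d, aeval v (cmp d f) = 0 := by
  rw [pI, RingHom.mem_ker, FormA_map_gorb, MvPolynomial.ext_iff]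
  simp only [coeff_map, coeff_zero]
  rfl

theorem IsForm.mem_pI (hF : IsForm d F) {v : Vars n → Ω} : F ∈ pI k v ↔ aeval v F = 0 := by
  rw [pI, RingHom.mem_ker, FormA_map_gorb, hF, map_monomial, monomial_eq_zero]
  rfl

theorem pI_isPrime (v : Vars n → Ω) : (pI k v).IsPrime := RingHom.ker_isPrime _

theorem pI_le_kr (v : Vars n → Ω) : pI k v ≤ kr k v := fun f hf => by
  rw [kr, RingHom.mem_ker, ← sum_cmp f, map_sum]
  exact Finset.sum_eq_zero fun d _ => mem_pI_iff.1 hf d

theorem pI_le_iff {v : Vars n → Ω} {u : Vars n → Ω'} :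
    pI k v ≤ pI k u ↔ ∀ d F, IsForm d F → aeval (R := k) v F = 0 → aeval u F = 0 :=
  ⟨fun h _ _ hF h0 => hF.mem_pI.1 (h (hF.mem_pI.2 h0)),
    fun h f hf => mem_pI_iff.2 fun d => h d _ (isForm_cmp d f) (mem_pI_iff.1 hf d)⟩

theorem pI_le_of_kr_le {v : Vars n → Ω} {u : Vars n → Ω'} (h : kr k v ≤ kr k u) :
    pI k v ≤ pI k u :=
  pI_le_iff.2 fun _ _ _ h0 => h h0

theorem pI_map (φ : Ω →ₐ[k] Ω') (v : Vars n → Ω) : pI k (fun a => φ (v a)) = pI k v := by
  ext f
  simp only [mem_pI_iff, ← comp_aeval_apply, map_eq_zero]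

end Pool.Agent.MP_0c8446_ag

end

section

namespace Pool.Agent.MP_0c8446_ag

open MvPolynomial Set

universe u v w

variable {k : Type u} [Field k] {ι κ : Type} {n : ι → ℕ} {m : κ → ℕ}
  {d e : ι →₀ ℕ} {F G : MvPolynomial (Vars n) k}
  {Ω Ω' : Type u} [Field Ω] [Algebra k Ω] [Field Ω'] [Algebra k Ω']

theorem IsForm.vanish_iff (hF : IsForm d F) {v : Vars n → k} {x : MP k n} (hv : IsRep v x) :
    Vanish F x ↔ eval v F = 0 := by
  refine ⟨fun h => h v hv, fun h u hu => ?_⟩
  obtain ⟨t, -, rfl⟩ := hv.exists_smul hu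
  exact (hF.aeval_sc t v).trans (mul_eq_zero_of_right _ h)

theorem vanish_iff_mem_pI [Infinite k] [Finite ι] {v : Vars n → k} {x : MP k n} (hv : IsRep v x)
    {f : MvPolynomial (Vars n) k} : Vanish f x ↔ f ∈ pI k v := vanish_iff_orb hv f

theorem cmp_mem_vI [Infinite k] [Finite ι] {S : Set (MP k n)} {f : MvPolynomial (Vars n) k}
    (hf : f ∈ vI S) (d : ι →₀ ℕ) : cmp d f ∈ vI S := mem_vI.2 fun x hx =>
  ((isForm_cmp d f).vanish_iff (isRep_rep x)).2
    (mem_pI_iff.1 ((vanish_iff_mem_pI (isRep_rep x)).1 (mem_vI.1 hf x hx)) d)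

theorem IsRep.nzb {v : Vars n → k} {x : MP k n} (hv : IsRep v x) : NZb v := fun i =>
  Function.ne_iff.1 (hv i).1

theorem ParOn.refl (I : Set ι) (v : Vars n → Ω) : ParOn I v v := fun _ _ =>
  ⟨1, one_ne_zero, fun _ => (one_mul _).symm⟩

theorem ParOn.symm {I : Set ι} {v v' : Vars n → Ω} (h : ParOn I v v') : ParOn I v' v := fun i hi =>
  let ⟨t, ht, e⟩ := h i hi
  ⟨t⁻¹, inv_ne_zero ht, fun s => by rw [e s, inv_mul_cancel_left₀ ht]⟩

theorem ParOn.trans {I : Set ι} {v v' v'' : Vars n → Ω} (h : ParOn I v v') (h' : ParOn I v' v'') :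
    ParOn I v v'' := fun i hi =>
  let ⟨t, ht, e⟩ := h i hi
  let ⟨t', ht', e'⟩ := h' i hi
  ⟨t' * t, mul_ne_zero ht' ht, fun s => by rw [e' s, e s, mul_assoc]⟩

theorem ParOn.mono {I I' : Set ι} {v v' : Vars n → Ω} (h : ParOn I v v') (hI : I' ⊆ I) :
    ParOn I' v v' := fun i hi => h i (hI hi)

theorem ParOn.map {I : Set ι} {v v' : Vars n → Ω} (h : ParOn I v v') (φ : Ω →ₐ[k] Ω') :
    ParOn I (fun a => φ (v a)) fun a => φ (v' a) := fun i hi =>
  let ⟨t, ht, e⟩ := h i hi
  ⟨φ t, (map_ne_zero φ).2 ht, fun s => (congrArg φ (e s)).trans (map_mul φ _ _)⟩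

theorem parOn_sc (I : Set ι) {t : ι → Ω} (ht : ∀ i, t i ≠ 0) (v : Vars n → Ω) :
    ParOn I v (sc t v) := fun i _ => ⟨t i, ht i, fun _ => rfl⟩

theorem ParOn.exists_sc {v v' : Vars n → Ω} (h : ParOn univ v v') :
    ∃ t : ι → Ω, (∀ i, t i ≠ 0) ∧ v' = sc t v := by
  choose t ht e using fun i => h i (mem_univ i)
  exact ⟨t, ht, funext fun a => e a.1 a.2⟩

theorem ParOn.nzb {v v' : Vars n → Ω} (h : ParOn univ v v') (hv : NZb v) : NZb v' := fun i =>
  let ⟨_, ht, e⟩ := h i (mem_univ i)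
  let ⟨s, hs⟩ := hv i
  ⟨s, e s ▸ mul_ne_zero ht hs⟩

theorem ParOn.isRep {v v' : Vars n → k} (h : ParOn univ v v') {x : MP k n} (hv : IsRep v x) :
    IsRep v' x := by
  obtain ⟨t, ht, rfl⟩ := h.exists_sc
  exact hv.smul t ht

theorem IsRep.parOn {v v' : Vars n → k} {x : MP k n} (hv : IsRep v x) (hv' : IsRep v' x) :
    ParOn univ v v' := by
  obtain ⟨t, ht, rfl⟩ := hv.exists_smul hv'
  exact parOn_sc _ ht v

theorem ParOn.blin {I : Set ι} {v v' : Vars n → Ω} (h : ParOn I v v')
    (M : ∀ i, Matrix (Fin (n i + 1)) (Fin (n i + 1)) k) : ParOn I (blin M v) (blin M v') := fun i hi =>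
  let ⟨t, ht, e⟩ := h i hi
  ⟨t, ht, fun s => by
    simp only [MP_0c8446_ag.blin, e, Finset.mul_sum, mul_smul_comm]⟩

theorem NZb.map {v : Vars n → Ω} (hv : NZb v) (φ : Ω →ₐ[k] Ω') : NZb fun a => φ (v a) := fun i =>
  let ⟨s, hs⟩ := hv i
  ⟨s, (map_ne_zero φ).2 hs⟩

theorem Form_le {v v' : Vars n → Ω} (h : ParOn univ v v') : pI k v ≤ pI k v' := by
  obtain ⟨t, -, rfl⟩ := h.exists_sc
  exact pI_le_iff.2 fun d F hF h0 => by rw [hF.aeval_sc, h0, mul_zero]

theorem ParOn.pI_eq {v v' : Vars n → Ω} (h : ParOn univ v v') : pI k v' = pI k v := (Form_le h.symm).antisymm (Form_le h)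

/-- Forms of a degree supported in `I` are all multiplied by the same scalar. -/
theorem ParOn.exists_aeval {I : Set ι} {v v' : Vars n → Ω} (h : ParOn I v v')
    (hd : ∀ i ∉ I, d i = 0) :
    ∃ c : Ω, c ≠ 0 ∧ ∀ F : MvPolynomial (Vars n) k, IsForm d F → aeval v' F = c * aeval v F := by
  classical
  choose t ht e using h
  have key : ∀ (u : ι → Ω), (∀ i ∈ I, u i = 1) → (d.prod fun i r => u i ^ r) = 1 := fun u hu =>
    Finset.prod_eq_one fun i hi => by
      simp only [hu i (by_contra fun h => Finsupp.mem_support_iff.1 hi (hd i h)), one_pow]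
  refine ⟨d.prod fun i r => (if hi : i ∈ I then t i hi else 0) ^ r,
    Finset.prod_ne_zero_iff.2 fun i hi => ?_, fun F hF => ?_⟩
  · have hi' : i ∈ I := by_contra fun h => Finsupp.mem_support_iff.1 hi (hd i h)
    exact pow_ne_zero _ (by rw [dif_pos hi']; exact ht i hi')
  · have h1 := hF.aeval_sc (fun i => if i ∈ I then (1 : Ω) else 0) v'
    rw [key _ fun i hi => if_pos hi, one_mul] at h1
    rw [← h1, ← hF.aeval_sc]
    congr 2
    funext ⟨i, s⟩
    by_cases hi : i ∈ I <;> simp [sc, hi]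
    exact e i hi s

/-- Clearing denominators in a polynomial in ratios of forms. -/
theorem exists_form_frac {τ : Type} [Fintype τ] {d : τ → ι →₀ ℕ}
    {F G : τ → MvPolynomial (Vars n) k} (hF : ∀ s, IsForm (d s) (F s))
    (hG : ∀ s, IsForm (d s) (G s)) (f : MvPolynomial τ k) :
    ∃ (D : ℕ) (H : MvPolynomial (Vars n) k), IsForm (D • ∑ s, d s) H ∧
      ∀ (Ω : Type u) [Field Ω] [Algebra k Ω] (v : Vars n → Ω), (∀ s, aeval v (G s) ≠ 0) →
        aeval v H = (∏ s, aeval v (G s)) ^ D * aeval (fun s => aeval v (F s) / aeval v (G s)) f :=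
  by
  classical
  have hP := IsForm.prod Finset.univ fun s _ => hG s
  induction f using MvPolynomial.induction_on with
  | C a => exact ⟨0, C a, by simpa using isForm_C a, fun Ω _ _ v _ => by simp⟩
  | add p q hp hq =>
    obtain ⟨D, H, h1, h2⟩ := hp
    obtain ⟨D', H', h1', h2'⟩ := hq
    refine ⟨D + D', H * (∏ s, G s) ^ D' + (∏ s, G s) ^ D * H', ?_, fun Ω _ _ v hv => ?_⟩
    · rw [add_nsmul]
      exact (h1.mul (hP.pow D')).add ((hP.pow D).mul h1')
    · simp only [map_add, map_mul, map_pow, map_prod, h2 Ω v hv, h2' Ω v hv]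
      ring
  | mul_X p s hp =>
    obtain ⟨D, H, h1, h2⟩ := hp
    refine ⟨D + 1, H * (F s * ∏ s' ∈ Finset.univ.erase s, G s'), ?_, fun Ω _ _ v hv => ?_⟩
    · rw [succ_nsmul]
      refine h1.mul ?_
      rw [← Finset.add_sum_erase _ _ (Finset.mem_univ s)]
      exact (hF s).mul (IsForm.prod _ fun s _ => hG s)
    · simp only [map_mul, map_prod, h2 Ω v hv, aeval_X, pow_succ]
      rw [← Finset.mul_prod_erase _ _ (Finset.mem_univ s)]
      have := hv s
      field_simp

end Pool.Agent.MP_0c8446_ag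

end
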