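import Pool.Agent.Mg.F0c8446.Gc1c4a5
import Pool.Agent.Mg.F0c8446.G1b497e

section

namespace Pool.Agent.MP_0c8446_ag

open MvPolynomial Set

universe u v w

variable {k : Type u} [Field k] [IsAlgClosed k] {K : Type v} [Field K] [CharZero K]
  (W : Weil.{u, v, w} k K) {Γ : Type u} [Group Γ]

theorem StW_free {S : Stage k Γ} {N : ℕ} (r : Γ →* Matrix (Fin (N + 1)) (Fin (N + 1)) k)
    {Ω : Type u} [Field Ω] [Algebra k Ω] {v : Vars (S.ext r).P.n → Ω} (hf : (S.ext r).Free v) :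
    S.Free fun s => v (pvL (PN k N).n s) := by
  set u : Vars S.P.n → Ω := fun s => v (pvL (PN k N).n s) with hu
  have e1 : rat (S.ext r).J v = rat S.J u := by
    refine (rat_pv (n := S.P.n) (m := (PN k N).n) (S.ext r).J v).trans ?_
    refine union_eq_left.2 ?_
    rintro x ⟨i, hi, -⟩
    exact hi.elim
  have e2 : rat S.Jᶜ u ⊆ rat (S.ext r).Jᶜ v := by
    exact subset_union_left.trans (rat_pv (n := S.P.n) (m := (PN k N).n) (S.ext r).Jᶜ v).ge
  have e3 : rat univ u = rat S.J u ∪ rat S.Jᶜ u := by rw [← rat_union, union_compl_self]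
  have e4 : rat univ v = rat S.J u ∪ rat (S.ext r).Jᶜ v := by
    rw [← e1, ← rat_union, union_compl_self]
  have h1 := rk_submod (k := k) (finite_rat univ u) (finite_rat (S.ext r).Jᶜ v)
  have e5 : rat univ u ∪ rat (S.ext r).Jᶜ v = rat univ v := by
    rw [e3, e4, union_assoc, union_eq_right.2 e2]
  have h2 : rk k (rat S.Jᶜ u) ≤ rk k (rat univ u ∩ rat (S.ext r).Jᶜ v) :=
    rk_mono ((finite_rat univ u).inter_of_left _) (subset_inter (rat_mono (subset_univ _) u) e2)
  have h3 := rk_union_le (k := k) (finite_rat S.J u) (finite_rat S.Jᶜ u)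
  unfold Stage.Free at hf ⊢
  rw [e5] at h1
  rw [← e3] at h3
  rw [e1] at hf
  omega

theorem Weil.ph_act {S : Stage k Γ} {β : W.H S.P} (hβ : W.Inv S β) (γ : Γ) {C : Set S.P.pts}
    (hC : IsSub C) : W.ph β ((S.act γ).1 '' C) = W.ph β C := by
  have h := W.push_retr (S.act γ) (S.act γ⁻¹)
    (fun x => by rw [← S.act_mul, inv_mul_cancel, S.act_one]) hC β
  rw [hβ γ] at h
  exact h.symm

omit [IsAlgClosed k] [CharZero K] in
theorem Weil.Inv.mul {S : Stage k Γ} {a b : W.H S.P} (ha : W.Inv S a) (hb : W.Inv S b) :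
    W.Inv S (a * b) := fun γ => by rw [map_mul, ha γ, hb γ]

omit [CharZero K] in
theorem Weil.inv_fst {S : Stage k Γ} (S' : Stage k Γ) {β : W.H S.P} (hβ : W.Inv S β) :
    W.Inv (S.prod S') (W.pull (pvF S.P S'.P) β) := fun γ => by
  have h := W.pull_congr (f := (pvF S.P S'.P).comp ((S.prod S').act γ))
    (g := (S.act γ).comp (pvF S.P S'.P)) (fun x => S.pvF_act S' γ x) β
  rw [← W.pull_pull, ← W.pull_pull, hβ γ] at h
  exact h

omit [CharZero K] in
theorem Weil.inv_snd (S : Stage k Γ) {S' : Stage k Γ} {β : W.H S'.P} (hβ : W.Inv S' β) :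
    W.Inv (S.prod S') (W.pull (pvS S.P S'.P) β) := fun γ => by
  have h := W.pull_congr (f := (pvS S.P S'.P).comp ((S.prod S').act γ))
    (g := (S'.act γ).comp (pvS S.P S'.P)) (fun x => S.pvS_act S' γ x) β
  rw [← W.pull_pull, ← W.pull_pull, hβ γ] at h
  exact h

omit [CharZero K] in
theorem Weil.inv_inf {S : Stage k Γ} (i : S.P.ι) {β : W.H (S.lb i).P} (hβ : W.Inv (S.lb i) β) :
    W.Inv S (W.pull (S.P.inf i) β) := fun γ => by
  have h := W.pull_congr (f := (S.P.inf i).comp (S.act γ))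
    (g := ((S.lb i).act γ).comp (S.P.inf i)) (fun x => (S.inf_act i γ x).symm) β
  exact ((W.pull_pull _ _ _).trans (h.trans (W.pull_pull _ _ _).symm)).trans
    (congrArg (W.pull (S.P.inf i)) (hβ γ))

omit [CharZero K] in
theorem Weil.kill_fst {S : Stage k Γ} {N : ℕ} (r : Γ →* Matrix (Fin (N + 1)) (Fin (N + 1)) k)
    {β : W.H S.P} (hβ : W.Kill S β) : W.Kill (S.ext r) (W.pull (pvF S.P (PN k N)) β) := by
  intro Ω _ _ v hv hf
  obtain ⟨a, -, h1⟩ := W.ph_pull (pvF S.P (PN k N)) (Var.On.isSub hv)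
  have h2 := h1 β
  have h3 := hβ Ω _ (on_pv_iff (X := S.P) (Y := PN k N).1 hv).1 (StW_free r hf)
  rw [loc_pvF (X := S.P) (Y := PN k N) hv, h3, mul_zero] at h2
  exact h2

theorem Weil.ph_cut {X : Var k} {η β : W.H X} {V H : Set X.pts} (h : W.CutAt η V H)
    (h0 : ∀ C, IsComp C (V ∩ H) → dim C + 1 = dim V → W.ph β C = 0) : W.ph (η * β) V = 0 := by
  obtain ⟨a, s, μ, ha, h1, h2, h3⟩ := h
  have h4 := congrArg (fun z => W.tr X (z * β)) h3
  simp only [smul_mul_assoc, Finset.sum_mul, map_sum, map_nsmul] at h4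
  rw [Finset.sum_eq_zero fun C hC => by
    rw [show W.tr X (W.cl X C * β) = 0 from h0 C ((h1 C).1 hC) (h2 C hC).2, smul_zero],
    nsmul_eq_mul, mul_assoc] at h4
  exact (mul_eq_zero.1 h4).resolve_left (Nat.cast_ne_zero.2 ha.ne')

theorem Weil.kill_cut {S : Stage k Γ} {i : S.P.ι} (hi : i ∉ S.J) {η β : W.H S.P}
    (hc : ∀ V, IsSub V → ∃ c, ¬ V ⊆ Subtype.val ⁻¹' hyp i c ∧
      W.CutAt η V (Subtype.val ⁻¹' hyp i c)) (hβ : W.Kill S β) : W.Kill S (η * β) := by
  intro Ω _ _ v hv hf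
  obtain ⟨c, h1, h2⟩ := hc _ hv.isSub
  refine W.ph_cut h2 fun C hC hd => ?_
  obtain ⟨Ω', _, _, _, u, hu, rfl⟩ := S.P.exists_generic hC.prop.1
  refine hβ Ω' u hu ?_
  have hF : IsForm (Finsupp.single i 1)
      (∑ s, c s • (MvPolynomial.X ⟨i, s⟩ : MvPolynomial (Vars S.P.n) k)) :=
    IsForm.sum _ fun s _ => (isForm_X (⟨i, s⟩ : Vars S.P.n)).smul _
  have hp : pI k v ≤ pI k u := hu.pI_le fun x hx => (hC.prop.2 hx).1
  have h3 := (hu.vanish_iff hF).1 fun x hx => (mem_hyp_iff i c x.1).1 (hC.prop.2 hx).2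
  have h4 := fun h => h1 fun x hx => (mem_hyp_iff i c x.1).2 ((hv.vanish_iff hF).2 h x hx)
  have h5 := rk_rat_le S.J hp hu.1
  have h6 := rk_rat_lt (I := S.Jᶜ) hp hu.1 hF
    (fun j hj => Finsupp.single_eq_of_ne fun e => hj (e ▸ hi)) h3 h4
  have h7 := rk_union_le (k := k) (finite_rat S.J u) (finite_rat S.Jᶜ u)
  rw [← rat_union, union_compl_self] at h7
  rw [hu.dim_loc, hv.dim_loc] at hd
  unfold Stage.Free at hf ⊢
  omega

theorem Weil.subCl_cut {X : Var k} {η β : W.H X} {𝓓 : Set (Set X.pts)} (hD : SubCl 𝓓)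
    (hc : ∀ V, IsSub V → ∃ H, W.CutAt η V H) (hβ : ∀ C ∈ 𝓓, W.ph β C = 0) :
    ∀ C ∈ 𝓓, W.ph (η * β) C = 0 := fun C hC => by
  obtain ⟨H, h⟩ := hc C (hD C hC).1
  exact W.ph_cut h fun D h1 _ =>
    hβ D ((hD C hC).2 D h1.prop.1 fun x hx => (h1.prop.2 hx).1)

/-- Adding a block that is generically finite over the given family. -/
theorem Weil.dec_proper {S : Stage k Γ} {N : ℕ} (r : Γ →* Matrix (Fin (N + 1)) (Fin (N + 1)) k)
    {𝓡 𝓓 : Set (Set S.P.pts)} {𝓡' 𝓓' : Set (Set (S.ext r).P.pts)}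
    (h1 : ∀ C ∈ 𝓡, ∃ C' ∈ 𝓡', IsSub C' ∧ dim C' = dim C ∧ closure ((pvF S.P (PN k N)).1 '' C') = C)
    (h2 : ∀ D ∈ 𝓓', IsSub D ∧ closure ((pvF S.P (PN k N)).1 '' D) ∈ 𝓓)
    (H : W.Dec (S.ext r) 𝓡' 𝓓') : W.Dec S 𝓡 𝓓 := by
  intro m β hm hI hK hD C hC
  obtain ⟨C', c1, c2, c3, c4⟩ := h1 C hC
  have h3 := H m _ (W.pull_gr (pvF S.P (PN k N)) _ _ hm) (W.inv_fst (projStage r) hI)
    (W.kill_fst r hK) (fun D hD' => by
      obtain ⟨d1, d2⟩ := h2 D hD'
      obtain ⟨a, -, h4⟩ := W.ph_pull (pvF S.P (PN k N)) d1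
      have h5 := h4 β
      rw [hD _ d2, mul_zero] at h5
      exact h5) C' c1
  obtain ⟨a, ha, h4⟩ := W.ph_pull (pvF S.P (PN k N)) c2
  have h5 := h4 β
  rw [c4] at ha h5
  exact (mul_eq_zero.1 (h5.symm.trans h3)).resolve_left (Nat.cast_ne_zero.2 (ha c3.symm).ne')

end Pool.Agent.MP_0c8446_ag

end

section

namespace Pool.Agent.MP_0c8446_ag

open TensorProduct

universe u v w

/-- Burnside: the operators of an irreducible representation span the endomorphism algebra. -/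
theorem RepT_burnside {K : Type v} [Field K] [IsAlgClosed K] {Γ : Type u} [Group Γ]
    {V : Type w} [AddCommGroup V] [Module K V] [Module.Finite K V]
    (ρ : Representation K Γ V) [ρ.IsIrreducible] (a : Module.End K V) :
    a ∈ Submodule.span K (Set.range ρ) := by
  have hb : Function.Bijective
      (algebraMap K (Module.End (MonoidAlgebra K Γ) ρ.asModule)) :=
    IsSimpleModule.algebraMap_end_bijective_of_isAlgClosed K
  have hfin : Module.Finite (Module.End (MonoidAlgebra K Γ) ρ.asModule) ρ.asModule :=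
    Module.Finite.of_restrictScalars_finite K _ _
  let a' : Module.End (Module.End (MonoidAlgebra K Γ) ρ.asModule) ρ.asModule :=
    { toFun := fun x => ρ.asModuleEquiv.symm (a (ρ.asModuleEquiv x))
      map_add' := fun x y => by simp
      map_smul' := fun φ x => by
        obtain ⟨c, rfl⟩ := hb.2 φ
        simp }
  obtain ⟨r, hr⟩ := Module.Finite.toModuleEnd_moduleEnd_surjective
    (R := MonoidAlgebra K Γ) (M := ρ.asModule) a'
  have ha : a = ρ.asAlgebraHom r := by
    ext x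
    have h1 : r • ρ.asModuleEquiv.symm x = a' (ρ.asModuleEquiv.symm x) := by
      rw [← hr]; rfl
    have h2 := congrArg ρ.asModuleEquiv h1
    rw [Representation.asModuleEquiv_map_smul] at h2
    simpa [a'] using h2.symm
  rw [ha]
  clear ha hr
  induction r using MonoidAlgebra.induction_on with
  | of g => exact Submodule.subset_span ⟨g, by simp⟩
  | add x y hx hy => rw [map_add]; exact Submodule.add_mem _ hx hy
  | smul c x hx => rw [map_smul]; exact Submodule.smul_mem _ _ hx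

theorem RepT_irr {K : Type v} [Field K] [IsAlgClosed K] [CharZero K] {Γ : Type u} [Group Γ]
    [Finite Γ] {V : Type w} [AddCommGroup V] [Module K V] [Module.Finite K V]
    (ρ : Representation K Γ V) [ρ.IsIrreducible] (θ : Γ →* Γ) (hθ : ∀ g, IsConj (θ g) g⁻¹)
    (M : Submodule K (V ⊗[K] V))
    (h1 : ∀ g g', ∀ z ∈ M, TensorProduct.map (ρ g) (ρ g') z ∈ M)
    (h2 : ∀ z, (∀ g, TensorProduct.map (ρ g) (ρ (θ g)) z = z) → z ∈ M) (z : V) :
    z ⊗ₜ[K] z ∈ M := by
  classical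
  have := Fintype.ofFinite Γ
  have hc : (Nat.card Γ : K) ≠ 0 := Nat.cast_ne_zero.2 Nat.card_pos.ne'
  have : Invertible (Nat.card Γ : K) := invertibleOfNonzero hc
  let ρ' : Representation K Γ V := ρ.comp θ
  have hch : ∀ g, ρ'.character g = ρ.character g⁻¹ := by
    intro g
    obtain ⟨c, hc⟩ := isConj_iff.1 (hθ g)
    rw [← hc, Representation.char_conj]
    rfl
  have e1 := Representation.card_inv_mul_sum_char_eq_finrank (ρ.tprod ρ')
  have e2 := Representation.card_inv_mul_sum_char_mul_char_eq_finrank ρ ρ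
  rw [Representation.IsIrreducible.finrank_intertwiningMap_self] at e2
  simp only [Representation.char_tensor, Pi.mul_apply, hch] at e1
  have e3 : Module.finrank K (ρ.tprod ρ').invariants = 1 := by
    have : ((Module.finrank K (ρ.tprod ρ').invariants : ℕ) : K) = ((1 : ℕ) : K) := by
      rw [← e1, ← e2]
    exact_mod_cast this
  have hne : (ρ.tprod ρ').invariants ≠ ⊥ := by
    intro h
    rw [h] at e3
    simp at e3
  obtain ⟨ξ, hξ, hξ0⟩ := Submodule.exists_mem_ne_zero_of_ne_bot hne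
  have hM : ξ ∈ M := h2 ξ fun g => hξ g
  have s1 : ∀ (a : Module.End K V) g', ∀ z ∈ M, TensorProduct.map a (ρ g') z ∈ M := by
    intro a g' z hz
    have ha := RepT_burnside ρ a
    induction ha using Submodule.span_induction with
    | mem x hx => obtain ⟨g, rfl⟩ := hx; exact h1 g g' z hz
    | zero => simp
    | add x y _ _ hx hy => rw [TensorProduct.map_add_left]; exact M.add_mem hx hy
    | smul c x _ hx => rw [TensorProduct.map_smul_left]; exact M.smul_mem c hx
  have s2 : ∀ (a a' : Module.End K V), ∀ z ∈ M, TensorProduct.map a a' z ∈ M := by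
    intro a a' z hz
    have ha := RepT_burnside ρ a'
    induction ha using Submodule.span_induction with
    | mem x hx => obtain ⟨g, rfl⟩ := hx; exact s1 a g z hz
    | zero => simp
    | add x y _ _ hx hy => rw [TensorProduct.map_add_right]; exact M.add_mem hx hy
    | smul c x _ hx => rw [TensorProduct.map_smul_right]; exact M.smul_mem c hx
  let b := Module.finBasis K V
  have hrep : ∃ ij, (b.tensorProduct b).repr ξ ij ≠ 0 := by
    by_contra h
    push Not at h
    apply hξ0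
    exact (b.tensorProduct b).repr.map_eq_zero_iff.1 (Finsupp.ext h)
  obtain ⟨⟨i, j⟩, hij⟩ := hrep
  have key : ∀ ζ : V ⊗[K] V,
      TensorProduct.map ((b.coord i).smulRight z) ((b.coord j).smulRight z) ζ =
        (b.tensorProduct b).repr ζ (i, j) • z ⊗ₜ[K] z := by
    intro ζ
    induction ζ using TensorProduct.induction_on with
    | zero => simp
    | tmul x y =>
      simp [Module.Basis.tensorProduct_repr_tmul_apply, ← TensorProduct.smul_tmul', smul_smul,
        mul_comm]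
    | add x y hx hy => simp [hx, hy, add_smul]
  have := s2 ((b.coord i).smulRight z) ((b.coord j).smulRight z) ξ hM
  rw [key] at this
  exact (M.smul_mem_iff hij).1 this

theorem RepT_ind {K : Type v} [Field K] [IsAlgClosed K] [CharZero K] {Γ : Type u} [Group Γ]
    [Finite Γ] (θ : Γ →* Γ) (hθ : ∀ g, IsConj (θ g) g⁻¹) (n : ℕ) :
    ∀ {V : Type w} [AddCommGroup V] [Module K V] [Module.Finite K V]
    (ρ : Representation K Γ V) (M : Submodule K (V ⊗[K] V)), Module.finrank K V = n →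
    (∀ g g', ∀ z ∈ M, TensorProduct.map (ρ g) (ρ g') z ∈ M) →
    (∀ z, (∀ g, TensorProduct.map (ρ g) (ρ (θ g)) z = z) → z ∈ M) →
    Submodule.span K {z | z ⊗ₜ[K] z ∈ M} = ⊤ := by
  induction n using Nat.strong_induction_on with
  | _ n ih =>
  intro V _ _ _ ρ M hn h1 h2
  have hc : NeZero (Nat.card Γ : K) := ⟨Nat.cast_ne_zero.2 Nat.card_pos.ne'⟩
  have sub : ∀ σ : Subrepresentation ρ, σ ≠ ⊤ →
      σ.toSubmodule ≤ Submodule.span K {z | z ⊗ₜ[K] z ∈ M} := by
    intro σ hσ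
    have hσ' : σ.toSubmodule ≠ ⊤ := fun h => hσ (Subrepresentation.toSubmodule_injective h)
    have hlt : Module.finrank K σ.toSubmodule < n := hn ▸ Submodule.finrank_lt hσ'
    have hcomm : ∀ g g' (ζ : σ.toSubmodule ⊗[K] σ.toSubmodule),
        TensorProduct.map σ.toSubmodule.subtype σ.toSubmodule.subtype
          (TensorProduct.map (σ.toRepresentation g) (σ.toRepresentation g') ζ) =
        TensorProduct.map (ρ g) (ρ g')
          (TensorProduct.map σ.toSubmodule.subtype σ.toSubmodule.subtype ζ) := by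
      intro g g' ζ
      induction ζ using TensorProduct.induction_on with
      | zero => simp
      | tmul x y => rfl
      | add x y hx hy => simp only [map_add, hx, hy]
    have := ih _ hlt σ.toRepresentation
      (M.comap (TensorProduct.map σ.toSubmodule.subtype σ.toSubmodule.subtype)) rfl
      (fun g g' z hz => by
        rw [Submodule.mem_comap, hcomm]
        exact h1 g g' _ hz)
      (fun z hz => h2 _ fun g => by rw [← hcomm, hz])
    intro x hx
    have hx' : (⟨x, hx⟩ : σ.toSubmodule) ∈ Submodule.span K {z : σ.toSubmodule | z ⊗ₜ[K] z ∈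
        M.comap (TensorProduct.map σ.toSubmodule.subtype σ.toSubmodule.subtype)} := by
      rw [this]; trivial
    have h3 := Submodule.mem_map_of_mem (f := σ.toSubmodule.subtype) hx'
    rw [Submodule.map_span] at h3
    refine Submodule.span_mono ?_ h3
    rintro _ ⟨y, hy, rfl⟩
    exact hy
  by_cases hirr : ρ.IsIrreducible
  · rw [eq_top_iff]
    intro z _
    exact Submodule.subset_span (RepT_irr ρ θ hθ M h1 h2 z)
  by_cases htriv : (⊥ : Subrepresentation ρ) = ⊤
  · have h0 : (⊥ : Submodule K V) = ⊤ := congrArg Subrepresentation.toSubmodule htriv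
    rw [eq_top_iff, ← h0]
    exact bot_le
  have hex : ∃ σ : Subrepresentation ρ, σ ≠ ⊥ ∧ σ ≠ ⊤ := by
    by_contra h
    push Not at h
    apply hirr
    have : Nontrivial (Subrepresentation ρ) := ⟨⟨⊥, ⊤, htriv⟩⟩
    exact ⟨fun σ => or_iff_not_imp_left.2 (h σ)⟩
  obtain ⟨σ, h0, ht⟩ := hex
  obtain ⟨τ, hτ⟩ := exists_isCompl σ
  have hτt : τ ≠ ⊤ := by
    rintro rfl
    exact h0 (by simpa using hτ.inf_eq_bot)
  have hsup : σ.toSubmodule ⊔ τ.toSubmodule = ⊤ := by
    rw [← Subrepresentation.toSubmodule_sup, hτ.sup_eq_top]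
    rfl
  rw [eq_top_iff, ← hsup]
  exact sup_le (sub σ ht) (sub τ hτt)

/-- If an invariant subspace of `V ⊗ V` contains the twisted invariants, it contains the squares
of a spanning set. -/
theorem span_sq_eq_top {K : Type v} [Field K] [IsAlgClosed K] [CharZero K] {Γ : Type u} [Group Γ]
    [Finite Γ] {V : Type w} [AddCommGroup V] [Module K V] [Module.Finite K V]
    (T : Γ →* Module.End K V) (θ : Γ →* Γ) (hθ : ∀ g, IsConj (θ g) g⁻¹)
    (M : Submodule K (V ⊗[K] V))
    (h1 : ∀ g g', ∀ z ∈ M, TensorProduct.map (T g) (T g') z ∈ M)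
    (h2 : ∀ z, (∀ g, TensorProduct.map (T g) (T (θ g)) z = z) → z ∈ M) :
    Submodule.span K {z | z ⊗ₜ[K] z ∈ M} = ⊤ :=
  RepT_ind θ hθ _ T M rfl h1 h2

end Pool.Agent.MP_0c8446_ag

end

section

namespace Pool.Agent.MP_0c8446_ag

open MvPolynomial Set

universe u v w

variable {k : Type u} [Field k] [IsAlgClosed k] {K : Type v} [Field K] [CharZero K]
  (W : Weil.{u, v, w} k K) {Γ : Type u} [Group Γ]

omit [CharZero K] in
/-- An algebraic exterior square stays algebraic along any pair of morphisms. -/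
theorem SqW_pair {X Q : Var k} {z : W.H X}
    (hz : W.pull (pvF X X) z * W.pull (pvS X X) z ∈ W.Alg (pvVar X X)) (f g : Mor Q X) :
    W.pull f z * W.pull g z ∈ W.Alg Q := by
  have h := W.pull_mem_Alg ((isProd_pv X X).lift f g) hz
  rwa [map_mul, W.pull_pull, W.pull_pull,
    W.pull_congr (f := (pvF X X).comp _) (g := f) (fun x => (isProd_pv X X).fst_lift f g x),
    W.pull_congr (f := (pvS X X).comp _) (g := g) (fun x => (isProd_pv X X).snd_lift f g x)] at h

/-- The exterior product on a subspace. -/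
noncomputable def SqW_kap {X : Var k} (V : Submodule K (W.H X)) :
    TensorProduct K V V →ₗ[K] W.H (pvVar X X) :=
  TensorProduct.lift ((LinearMap.mul K (W.H (pvVar X X))).compl₁₂
    ((W.pull (pvF X X)).toLinearMap ∘ₗ V.subtype) ((W.pull (pvS X X)).toLinearMap ∘ₗ V.subtype))

omit [CharZero K] in
theorem SqW_kap_tmul {X : Var k} (V : Submodule K (W.H X)) (z z' : V) :
    SqW_kap W V (z ⊗ₜ[K] z') = W.pull (pvF X X) z.1 * W.pull (pvS X X) z'.1 := rfl

omit [CharZero K] in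
theorem SqW_kap_map {X : Var k} (V : Submodule K (W.H X)) {f g : Mor X X}
    {Φ : Mor (pvVar X X) (pvVar X X)} (h1 : ∀ x, (pvF X X).1 (Φ.1 x) = f.1 ((pvF X X).1 x))
    (h2 : ∀ x, (pvS X X).1 (Φ.1 x) = g.1 ((pvS X X).1 x)) {A B : Module.End K V}
    (hA : ∀ z, (A z).1 = W.pull f z.1) (hB : ∀ z, (B z).1 = W.pull g z.1)
    (ξ : TensorProduct K V V) :
    SqW_kap W V (TensorProduct.map A B ξ) = W.pull Φ (SqW_kap W V ξ) := by
  induction ξ using TensorProduct.induction_on with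
  | zero => simp
  | add s t hs ht => simp only [map_add, hs, ht]
  | tmul z z' =>
    rw [TensorProduct.map_tmul, SqW_kap_tmul, SqW_kap_tmul, hA, hB, map_mul, W.pull_pull,
      W.pull_pull, W.pull_pull, W.pull_pull,
      W.pull_congr (f := (pvF X X).comp Φ) (g := f.comp (pvF X X)) h1,
      W.pull_congr (f := (pvS X X).comp Φ) (g := g.comp (pvS X X)) h2]

/-- The representation on one graded piece. -/
noncomputable def SqW_rep (S : Stage k Γ) (i : ℕ) : Γ →* Module.End K (W.gr S.P i) where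
  toFun g := (W.pull (S.act g⁻¹)).toLinearMap.restrict fun a ha => W.pull_gr _ i a ha
  map_one' := by
    ext z
    exact W.pull_id (S.act 1⁻¹) (funext fun x => by rw [inv_one]; exact S.act_one x) z.1
  map_mul' g g' := by
    ext z
    change W.pull (S.act (g * g')⁻¹) z.1 = W.pull (S.act g⁻¹) (W.pull (S.act g'⁻¹) z.1)
    rw [W.pull_pull, mul_inv_rev]
    exact W.pull_congr (fun x => S.act_mul _ _ x) _

theorem Weil.sqT_of_inv [IsAlgClosed K] [Finite Γ] (S : Stage k Γ) (θ : Γ →* Γ)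
    (hθ : ∀ g, IsConj (θ g) g⁻¹)
    (h : ∀ a, W.Inv (S.prod (S.comap θ)) a → a ∈ W.Alg (S.prod (S.comap θ)).P) : W.SqT S.P := by
  have key : ∀ i, Submodule.span K {z : W.gr S.P i |
      z ⊗ₜ[K] z ∈ (W.Alg (pvVar S.P S.P)).comap (SqW_kap W (W.gr S.P i))} = ⊤ := by
    intro i
    refine span_sq_eq_top (SqW_rep W S i) θ hθ _ (fun g g' ξ hξ => ?_) fun ξ hξ => ?_
    · rw [Submodule.mem_comap, SqW_kap_map W (W.gr S.P i) (f := S.act g⁻¹) (g := S.act g'⁻¹)
        (Φ := (isProd_pv S.P S.P).lift ((S.act g⁻¹).comp (pvF S.P S.P))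
          ((S.act g'⁻¹).comp (pvS S.P S.P)))
        (fun x => (isProd_pv S.P S.P).fst_lift _ _ x) (fun x => (isProd_pv S.P S.P).snd_lift _ _ x)
        (fun _ => rfl) (fun _ => rfl)]
      exact W.pull_mem_Alg _ hξ
    · refine h _ fun γ => ?_
      have e := SqW_kap_map W (W.gr S.P i) (f := S.act γ) (g := S.act (θ γ))
        (Φ := (S.prod (S.comap θ)).act γ) (fun x => S.pvF_act (S.comap θ) γ x)
        (fun x => by rw [← S.comap_act θ γ]; exact S.pvS_act (S.comap θ) γ x)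
        (A := SqW_rep W S i γ⁻¹) (B := SqW_rep W S i (θ γ⁻¹))
        (fun z => by change W.pull (S.act γ⁻¹⁻¹) z.1 = _; rw [inv_inv])
        (fun z => by change W.pull (S.act (θ γ⁻¹)⁻¹) z.1 = _; rw [map_inv, inv_inv]) ξ
      rw [hξ] at e
      exact e.symm
  refine Submodule.eq_top_iff'.2 fun a => ?_
  induction a using DirectSum.Decomposition.inductionOn (W.gr S.P) with
  | zero => exact zero_mem _
  | add b c hb hc => exact add_mem hb hc
  | @homogeneous i b =>
    have hb : b ∈ Submodule.span K {z : W.gr S.P i |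
      z ⊗ₜ[K] z ∈ (W.Alg (pvVar S.P S.P)).comap (SqW_kap W (W.gr S.P i))} := by
      rw [key i]; trivial
    induction hb using Submodule.span_induction with
    | mem z hz => exact Submodule.subset_span ⟨⟨i, z.2⟩, fun P p q _ => SqW_pair W hz p q⟩
    | zero => exact zero_mem _
    | add x y _ _ hx hy => exact add_mem hx hy
    | smul c x _ hx => exact Submodule.smul_mem _ c hx

theorem Weil.sqT_prod {P X Y : Var k} {a : Mor P X} {b : Mor P Y} (h : IsProd a b) (hX : W.SqT X)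
    (hY : W.SqT Y) : W.SqT P := by
  refine W.prod_span h _ fun x y => ?_
  have hx := hX.ge (Submodule.mem_top (x := x))
  have hy := hY.ge (Submodule.mem_top (x := y))
  induction hx using Submodule.span_induction with
  | zero => simp
  | add x x' _ _ h1 h2 => rw [map_add, add_mul]; exact add_mem h1 h2
  | smul c x _ h1 => rw [map_smul, smul_mul_assoc]; exact Submodule.smul_mem _ c h1
  | mem x hx =>
    induction hy using Submodule.span_induction with
    | zero => simp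
    | add y y' _ _ h1 h2 => rw [map_add, mul_add]; exact add_mem h1 h2
    | smul c y _ h1 => rw [map_smul, mul_smul_comm]; exact Submodule.smul_mem _ c h1
    | mem y hy =>
      obtain ⟨⟨i, hi⟩, hx⟩ := hx
      obtain ⟨⟨j, hj⟩, hy⟩ := hy
      refine Submodule.subset_span ⟨⟨i + j, SetLike.mul_mem_graded (W.pull_gr a i x hi)
        (W.pull_gr b j y hj)⟩, fun Q p q _ => ?_⟩
      have h1 := SqW_pair W (hx _ _ _ (isProd_pv X X)) (a.comp p) (a.comp q)
      have h2 := SqW_pair W (hy _ _ _ (isProd_pv Y Y)) (b.comp p) (b.comp q)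
      have h3 := W.mul_mem_Alg h1 h2
      have e := W.comm Q j i _ (W.pull_gr (b.comp p) j y hj) _ (W.pull_gr (a.comp q) i x hi)
      simp only [map_mul, W.pull_pull]
      rw [mul_assoc, ← mul_assoc (W.pull (b.comp p) y), e]
      rcases neg_one_pow_eq_or (W.H Q) (j * i) with e' | e' <;> rw [e']
      · simpa only [one_mul, mul_assoc] using h3
      · simpa only [neg_mul, one_mul, mul_neg, mul_assoc] using neg_mem h3

theorem Weil.eq_zero_of_sqT {X : Var k} (hX : W.SqT X) {a : W.H X} (ha : a ∈ W.Alg X)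
    (h : ∀ Z, IsSub Z → W.tr X (W.cl X Z * a) = 0) : a = 0 := by
  refine W.poincare X a fun b => ?_
  have hb := hX.ge (Submodule.mem_top (x := b))
  induction hb using Submodule.span_induction with
  | zero => simp
  | add x y _ _ h1 h2 => rw [mul_add, map_add, h1, h2, add_zero]
  | smul c x _ h1 => rw [mul_smul_comm, map_smul, h1, smul_zero]
  | mem z hz =>
    by_contra hc
    have h1 := W.mul_mem_Alg (W.pull_mem_Alg (pvF X X) ha) (hz.2 _ _ _ (isProd_pv X X))
    obtain ⟨z', hz', e⟩ := W.exists_push (pvS X X) h1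
    have e2 : z' - W.tr X (a * z) • z = 0 := by
      refine W.poincare X _ fun b => ?_
      rw [sub_mul, map_sub, ← e b, smul_mul_assoc, map_smul, smul_eq_mul,
        ← W.tr_prod (isProd_pv X X), map_mul (W.pull _), map_mul (W.pull _)]
      simp only [mul_assoc, sub_self]
    have h2 : z ∈ W.Alg X := by
      have := Submodule.smul_mem _ (W.tr X (a * z))⁻¹ hz'
      rwa [sub_eq_zero.1 e2, smul_smul, inv_mul_cancel₀ hc, one_smul] at this
    rw [W.Alg_comm ha] at hc
    obtain ⟨Z, hZ, h3⟩ := W.exists_cl_of_Alg h2 hc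
    exact h3 (h Z hZ)

end Pool.Agent.MP_0c8446_ag

end

section

namespace Pool.Agent.MP_0c8446_ag

open MvPolynomial Set

universe u v w

open TensorProduct in
theorem RepT2_ex {K : Type v} [Field K] [IsAlgClosed K] [CharZero K] {Γ : Type u} [Group Γ]
    [Finite Γ] {V : Type w} [AddCommGroup V] [Module K V] [Module.Finite K V]
    (ρ : Representation K Γ V) [ρ.IsIrreducible] (θ₀ θ₁ θ' : Γ →* Γ)
    (hθ : ∀ g, (IsConj (θ₀ g) g⁻¹ ∧ IsConj (θ₁ g) (θ' g⁻¹)) ∨
      (IsConj (θ₁ g) g⁻¹ ∧ IsConj (θ₀ g) (θ' g⁻¹))) :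
    (ρ.tprod (ρ.comp θ₀ : Representation K Γ V)).invariants ≠ ⊥ ∨
      (ρ.tprod (ρ.comp θ₁ : Representation K Γ V)).invariants ≠ ⊥ := by
  classical
  have := Fintype.ofFinite Γ
  have hc : (Nat.card Γ : K) ≠ 0 := Nat.cast_ne_zero.2 Nat.card_pos.ne'
  have : Invertible (Nat.card Γ : K) := invertibleOfNonzero hc
  let ρ₀ : Representation K Γ V := ρ.comp θ₀
  let ρ₁ : Representation K Γ V := ρ.comp θ₁
  let ρ' : Representation K Γ V := ρ.comp θ'
  have hcj : ∀ x y : Γ, IsConj x y → ρ.character x = ρ.character y := by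
    intro x y h
    obtain ⟨c, hc⟩ := isConj_iff.1 h
    rw [← hc, Representation.char_conj]
  have hch : ∀ g, ρ₀.character g + ρ₁.character g = ρ.character g⁻¹ + ρ'.character g⁻¹ := by
    intro g
    change ρ.character (θ₀ g) + ρ.character (θ₁ g) = ρ.character g⁻¹ + ρ.character (θ' g⁻¹)
    rcases hθ g with ⟨a, b⟩ | ⟨a, b⟩
    · rw [hcj _ _ a, hcj _ _ b]
    · rw [hcj _ _ a, hcj _ _ b, add_comm]
  have e0 := Representation.card_inv_mul_sum_char_eq_finrank (ρ.tprod ρ₀)
  have e1 := Representation.card_inv_mul_sum_char_eq_finrank (ρ.tprod ρ₁)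
  have e2 := Representation.card_inv_mul_sum_char_mul_char_eq_finrank ρ ρ
  have e2' := Representation.card_inv_mul_sum_char_mul_char_eq_finrank ρ' ρ
  rw [Representation.IsIrreducible.finrank_intertwiningMap_self] at e2
  simp only [Representation.char_tensor, Pi.mul_apply] at e0 e1
  have e3 : Module.finrank K (ρ.tprod ρ₀).invariants + Module.finrank K (ρ.tprod ρ₁).invariants
      = 1 + Module.finrank K (Representation.IntertwiningMap ρ' ρ) := by
    have : ((Module.finrank K (ρ.tprod ρ₀).invariants +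
        Module.finrank K (ρ.tprod ρ₁).invariants : ℕ) : K) =
        ((1 + Module.finrank K (Representation.IntertwiningMap ρ' ρ) : ℕ) : K) := by
      rw [Nat.cast_add, Nat.cast_add, ← e0, ← e1, ← e2, ← e2', ← mul_add, ← mul_add,
        ← Finset.sum_add_distrib, ← Finset.sum_add_distrib]
      congr 1
      refine Finset.sum_congr rfl fun g _ => ?_
      rw [← mul_add, ← mul_add, hch]
    exact_mod_cast this
  by_contra h
  push Not at h
  have a0 : (ρ.tprod ρ₀).invariants = ⊥ := h.1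
  have a1 : (ρ.tprod ρ₁).invariants = ⊥ := h.2
  rw [a0, a1] at e3
  simp only [finrank_bot] at e3
  omega

open TensorProduct in
theorem RepT2_irr {K : Type v} [Field K] [IsAlgClosed K] [CharZero K] {Γ : Type u} [Group Γ]
    [Finite Γ] {V : Type w} [AddCommGroup V] [Module K V] [Module.Finite K V]
    (ρ : Representation K Γ V) [ρ.IsIrreducible] (θ₀ θ₁ θ' : Γ →* Γ)
    (hθ : ∀ g, (IsConj (θ₀ g) g⁻¹ ∧ IsConj (θ₁ g) (θ' g⁻¹)) ∨
      (IsConj (θ₁ g) g⁻¹ ∧ IsConj (θ₀ g) (θ' g⁻¹)))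
    (M : Submodule K (V ⊗[K] V))
    (h1 : ∀ g g', ∀ z ∈ M, TensorProduct.map (ρ g) (ρ g') z ∈ M)
    (h2 : ∀ z, (∀ g, TensorProduct.map (ρ g) (ρ (θ₀ g)) z = z) → z ∈ M)
    (h3 : ∀ z, (∀ g, TensorProduct.map (ρ g) (ρ (θ₁ g)) z = z) → z ∈ M) (z : V) :
    z ⊗ₜ[K] z ∈ M := by
  classical
  obtain ⟨ξ, hM, hξ0⟩ : ∃ ξ, ξ ∈ M ∧ ξ ≠ 0 := by
    rcases RepT2_ex ρ θ₀ θ₁ θ' hθ with hne | hne
    · obtain ⟨ξ, hξ, hξ0⟩ := Submodule.exists_mem_ne_zero_of_ne_bot hne
      exact ⟨ξ, h2 ξ fun g => hξ g, hξ0⟩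
    · obtain ⟨ξ, hξ, hξ0⟩ := Submodule.exists_mem_ne_zero_of_ne_bot hne
      exact ⟨ξ, h3 ξ fun g => hξ g, hξ0⟩
  have s1 : ∀ (a : Module.End K V) g', ∀ z ∈ M, TensorProduct.map a (ρ g') z ∈ M := by
    intro a g' z hz
    have ha := RepT_burnside ρ a
    induction ha using Submodule.span_induction with
    | mem x hx => obtain ⟨g, rfl⟩ := hx; exact h1 g g' z hz
    | zero => simp
    | add x y _ _ hx hy => rw [TensorProduct.map_add_left]; exact M.add_mem hx hy
    | smul c x _ hx => rw [TensorProduct.map_smul_left]; exact M.smul_mem c hx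
  have s2 : ∀ (a a' : Module.End K V), ∀ z ∈ M, TensorProduct.map a a' z ∈ M := by
    intro a a' z hz
    have ha := RepT_burnside ρ a'
    induction ha using Submodule.span_induction with
    | mem x hx => obtain ⟨g, rfl⟩ := hx; exact s1 a g z hz
    | zero => simp
    | add x y _ _ hx hy => rw [TensorProduct.map_add_right]; exact M.add_mem hx hy
    | smul c x _ hx => rw [TensorProduct.map_smul_right]; exact M.smul_mem c hx
  let b := Module.finBasis K V
  have hrep : ∃ ij, (b.tensorProduct b).repr ξ ij ≠ 0 := by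
    by_contra h
    push Not at h
    apply hξ0
    exact (b.tensorProduct b).repr.map_eq_zero_iff.1 (Finsupp.ext h)
  obtain ⟨⟨i, j⟩, hij⟩ := hrep
  have key : ∀ ζ : V ⊗[K] V,
      TensorProduct.map ((b.coord i).smulRight z) ((b.coord j).smulRight z) ζ =
        (b.tensorProduct b).repr ζ (i, j) • z ⊗ₜ[K] z := by
    intro ζ
    induction ζ using TensorProduct.induction_on with
    | zero => simp
    | tmul x y =>
      simp [Module.Basis.tensorProduct_repr_tmul_apply, ← TensorProduct.smul_tmul', smul_smul,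
        mul_comm]
    | add x y hx hy => simp [hx, hy, add_smul]
  have := s2 ((b.coord i).smulRight z) ((b.coord j).smulRight z) ξ hM
  rw [key] at this
  exact (M.smul_mem_iff hij).1 this

open TensorProduct in
theorem RepT2_ind {K : Type v} [Field K] [IsAlgClosed K] [CharZero K] {Γ : Type u} [Group Γ]
    [Finite Γ] (θ₀ θ₁ θ' : Γ →* Γ)
    (hθ : ∀ g, (IsConj (θ₀ g) g⁻¹ ∧ IsConj (θ₁ g) (θ' g⁻¹)) ∨
      (IsConj (θ₁ g) g⁻¹ ∧ IsConj (θ₀ g) (θ' g⁻¹))) (n : ℕ) :
    ∀ {V : Type w} [AddCommGroup V] [Module K V] [Module.Finite K V]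
    (ρ : Representation K Γ V) (M : Submodule K (V ⊗[K] V)), Module.finrank K V = n →
    (∀ g g', ∀ z ∈ M, TensorProduct.map (ρ g) (ρ g') z ∈ M) →
    (∀ z, (∀ g, TensorProduct.map (ρ g) (ρ (θ₀ g)) z = z) → z ∈ M) →
    (∀ z, (∀ g, TensorProduct.map (ρ g) (ρ (θ₁ g)) z = z) → z ∈ M) →
    Submodule.span K {z | z ⊗ₜ[K] z ∈ M} = ⊤ := by
  induction n using Nat.strong_induction_on with
  | _ n ih =>
  intro V _ _ _ ρ M hn h1 h2 h2'
  have hc : NeZero (Nat.card Γ : K) := ⟨Nat.cast_ne_zero.2 Nat.card_pos.ne'⟩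
  have sub : ∀ σ : Subrepresentation ρ, σ ≠ ⊤ →
      σ.toSubmodule ≤ Submodule.span K {z | z ⊗ₜ[K] z ∈ M} := by
    intro σ hσ
    have hσ' : σ.toSubmodule ≠ ⊤ := fun h => hσ (Subrepresentation.toSubmodule_injective h)
    have hlt : Module.finrank K σ.toSubmodule < n := hn ▸ Submodule.finrank_lt hσ'
    have hcomm : ∀ g g' (ζ : σ.toSubmodule ⊗[K] σ.toSubmodule),
        TensorProduct.map σ.toSubmodule.subtype σ.toSubmodule.subtype
          (TensorProduct.map (σ.toRepresentation g) (σ.toRepresentation g') ζ) =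
        TensorProduct.map (ρ g) (ρ g')
          (TensorProduct.map σ.toSubmodule.subtype σ.toSubmodule.subtype ζ) := by
      intro g g' ζ
      induction ζ using TensorProduct.induction_on with
      | zero => simp
      | tmul x y => rfl
      | add x y hx hy => simp only [map_add, hx, hy]
    have := ih _ hlt σ.toRepresentation
      (M.comap (TensorProduct.map σ.toSubmodule.subtype σ.toSubmodule.subtype)) rfl
      (fun g g' z hz => by
        rw [Submodule.mem_comap, hcomm]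
        exact h1 g g' _ hz)
      (fun z hz => h2 _ fun g => by rw [← hcomm, hz])
      (fun z hz => h2' _ fun g => by rw [← hcomm, hz])
    intro x hx
    have hx' : (⟨x, hx⟩ : σ.toSubmodule) ∈ Submodule.span K {z : σ.toSubmodule | z ⊗ₜ[K] z ∈
        M.comap (TensorProduct.map σ.toSubmodule.subtype σ.toSubmodule.subtype)} := by
      rw [this]; trivial
    have h3 := Submodule.mem_map_of_mem (f := σ.toSubmodule.subtype) hx'
    rw [Submodule.map_span] at h3
    refine Submodule.span_mono ?_ h3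
    rintro _ ⟨y, hy, rfl⟩
    exact hy
  by_cases hirr : ρ.IsIrreducible
  · rw [eq_top_iff]
    intro z _
    exact Submodule.subset_span (RepT2_irr ρ θ₀ θ₁ θ' hθ M h1 h2 h2' z)
  by_cases htriv : (⊥ : Subrepresentation ρ) = ⊤
  · have h0 : (⊥ : Submodule K V) = ⊤ := congrArg Subrepresentation.toSubmodule htriv
    rw [eq_top_iff, ← h0]
    exact bot_le
  have hex : ∃ σ : Subrepresentation ρ, σ ≠ ⊥ ∧ σ ≠ ⊤ := by
    by_contra h
    push Not at h
    apply hirr
    have : Nontrivial (Subrepresentation ρ) := ⟨⟨⊥, ⊤, htriv⟩⟩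
    exact ⟨fun σ => or_iff_not_imp_left.2 (h σ)⟩
  obtain ⟨σ, h0, ht⟩ := hex
  obtain ⟨τ, hτ⟩ := exists_isCompl σ
  have hτt : τ ≠ ⊤ := by
    rintro rfl
    exact h0 (by simpa using hτ.inf_eq_bot)
  have hsup : σ.toSubmodule ⊔ τ.toSubmodule = ⊤ := by
    rw [← Subrepresentation.toSubmodule_sup, hτ.sup_eq_top]
    rfl
  rw [eq_top_iff, ← hsup]
  exact sup_le (sub σ ht) (sub τ hτt)

open TensorProduct in
/-- If an invariant subspace of `V ⊗ V` contains the invariants for both twisted actions, it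
contains the squares of a spanning set. -/
theorem span_sq_eq_top2 {K : Type v} [Field K] [IsAlgClosed K] [CharZero K] {Γ : Type u} [Group Γ]
    [Finite Γ] {V : Type w} [AddCommGroup V] [Module K V] [Module.Finite K V]
    (T : Γ →* Module.End K V) (θ₀ θ₁ θ' : Γ →* Γ)
    (hθ : ∀ g, (IsConj (θ₀ g) g⁻¹ ∧ IsConj (θ₁ g) (θ' g⁻¹)) ∨
      (IsConj (θ₁ g) g⁻¹ ∧ IsConj (θ₀ g) (θ' g⁻¹)))
    (M : Submodule K (V ⊗[K] V))
    (h1 : ∀ g g', ∀ z ∈ M, TensorProduct.map (T g) (T g') z ∈ M)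
    (h2 : ∀ z, (∀ g, TensorProduct.map (T g) (T (θ₀ g)) z = z) → z ∈ M)
    (h3 : ∀ z, (∀ g, TensorProduct.map (T g) (T (θ₁ g)) z = z) → z ∈ M) :
    Submodule.span K {z | z ⊗ₜ[K] z ∈ M} = ⊤ :=
  RepT2_ind θ₀ θ₁ θ' hθ _ T M rfl h1 h2 h3

variable {k : Type u} [Field k] [IsAlgClosed k] {K : Type v} [Field K] [CharZero K]
  (W : Weil.{u, v, w} k K) {Γ : Type u} [Group Γ]

omit [CharZero K] in
theorem RepT2_inv (S : Stage k Γ) (θ : Γ →* Γ)
    (h : ∀ a, W.Inv (S.prod (S.comap θ)) a → a ∈ W.Alg (S.prod (S.comap θ)).P) (i : ℕ)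
    (ξ : TensorProduct K (W.gr S.P i) (W.gr S.P i))
    (hξ : ∀ g, TensorProduct.map (SqW_rep W S i g) (SqW_rep W S i (θ g)) ξ = ξ) :
    ξ ∈ (W.Alg (pvVar S.P S.P)).comap (SqW_kap W (W.gr S.P i)) := by
  refine h _ fun γ => ?_
  have e := SqW_kap_map W (W.gr S.P i) (f := S.act γ) (g := S.act (θ γ))
    (Φ := (S.prod (S.comap θ)).act γ) (fun x => S.pvF_act (S.comap θ) γ x)
    (fun x => by rw [← S.comap_act θ γ]; exact S.pvS_act (S.comap θ) γ x)
    (A := SqW_rep W S i γ⁻¹) (B := SqW_rep W S i (θ γ⁻¹))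
    (fun z => by change W.pull (S.act γ⁻¹⁻¹) z.1 = _; rw [inv_inv])
    (fun z => by change W.pull (S.act (θ γ⁻¹)⁻¹) z.1 = _; rw [map_inv, inv_inv]) ξ
  rw [hξ] at e
  exact e.symm

theorem Weil.sqT_of_inv2 [IsAlgClosed K] [Finite Γ] (S : Stage k Γ) (θ₀ θ₁ θ' : Γ →* Γ)
    (hθ : ∀ g, (IsConj (θ₀ g) g⁻¹ ∧ IsConj (θ₁ g) (θ' g⁻¹)) ∨
      (IsConj (θ₁ g) g⁻¹ ∧ IsConj (θ₀ g) (θ' g⁻¹)))
    (h₀ : ∀ a, W.Inv (S.prod (S.comap θ₀)) a → a ∈ W.Alg (S.prod (S.comap θ₀)).P)
    (h₁ : ∀ a, W.Inv (S.prod (S.comap θ₁)) a → a ∈ W.Alg (S.prod (S.comap θ₁)).P) :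
    W.SqT S.P := by
  have key : ∀ i, Submodule.span K {z : W.gr S.P i |
      z ⊗ₜ[K] z ∈ (W.Alg (pvVar S.P S.P)).comap (SqW_kap W (W.gr S.P i))} = ⊤ := by
    intro i
    refine span_sq_eq_top2 (SqW_rep W S i) θ₀ θ₁ θ' hθ _ (fun g g' ξ hξ => ?_)
      (RepT2_inv W S θ₀ h₀ i) (RepT2_inv W S θ₁ h₁ i)
    rw [Submodule.mem_comap, SqW_kap_map W (W.gr S.P i) (f := S.act g⁻¹) (g := S.act g'⁻¹)
      (Φ := (isProd_pv S.P S.P).lift ((S.act g⁻¹).comp (pvF S.P S.P))
        ((S.act g'⁻¹).comp (pvS S.P S.P)))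
      (fun x => (isProd_pv S.P S.P).fst_lift _ _ x) (fun x => (isProd_pv S.P S.P).snd_lift _ _ x)
      (fun _ => rfl) (fun _ => rfl)]
    exact W.pull_mem_Alg _ hξ
  refine Submodule.eq_top_iff'.2 fun a => ?_
  induction a using DirectSum.Decomposition.inductionOn (W.gr S.P) with
  | zero => exact zero_mem _
  | add b c hb hc => exact add_mem hb hc
  | @homogeneous i b =>
    have hb : b ∈ Submodule.span K {z : W.gr S.P i |
      z ⊗ₜ[K] z ∈ (W.Alg (pvVar S.P S.P)).comap (SqW_kap W (W.gr S.P i))} := by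
      rw [key i]; trivial
    induction hb using Submodule.span_induction with
    | mem z hz => exact Submodule.subset_span ⟨⟨i, z.2⟩, fun P p q _ => SqW_pair W hz p q⟩
    | zero => exact zero_mem _
    | add x y _ _ hx hy => exact add_mem hx hy
    | smul c x _ hx => exact Submodule.smul_mem _ c hx

end Pool.Agent.MP_0c8446_ag

end

section

namespace Pool.Agent.MP_0c8446_ag

open MvPolynomial Set

universe u v w

variable {k : Type u} [Field k] [IsAlgClosed k] {K : Type v} [Field K] [CharZero K]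
  (W : Weil.{u, v, w} k K) {Γ : Type u} [Group Γ]

include W in
/-- A free point of a product with a parameter variety is a generic point of a product. -/
theorem Weil.loc_of_free {S : Stage k Γ} (hJ : S.J = ∅) (T : Var k) {Ω : Type u} [Field Ω]
    [Algebra k Ω] {v : Vars (S.prod (trivStage Γ T)).P.n → Ω}
    (hv : (S.prod (trivStage Γ T)).P.On v) (hf : (S.prod (trivStage Γ T)).Free v) :
    ∃ Z Z', IsSub Z ∧ IsSub Z' ∧ (S.prod (trivStage Γ T)).P.loc v =
      (pvF S.P T).1 ⁻¹' Z ∩ (pvS S.P T).1 ⁻¹' Z' := by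
  have hp := isProd_pv S.P T
  have hw : (pvVar S.P T).On v := hv
  obtain ⟨h1, h2⟩ := on_pv_iff.1 hw
  refine ⟨_, _, h1.isSub, h2.isSub, ?_⟩
  change (pvVar S.P T).loc v = _
  have : FinDim (pvVar S.P T).pts := inferInstanceAs (FinDim ((pvVar S.P T).pts :
    Set (MP k (pvVar S.P T).n)))
  refine eq_of_dim_le hw.isSub (hp.isSub h1.isSub h2.isSub) (fun x hx => ⟨?_, ?_⟩) ?_
  · rw [mem_preimage, ← loc_pvF hw]
    exact subset_closure ⟨x, hx, rfl⟩
  · rw [mem_preimage, ← loc_pvS hw]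
    exact subset_closure ⟨x, hx, rfl⟩
  · have e3 : rat (S.prod (trivStage Γ T)).J v = rat S.J (fun s => v (pvL T.n s)) ∪
        rat univ fun s => v (pvR S.P.n s) := rat_pv (n := S.P.n) (m := T.n) _ v
    have e4 : rat (S.prod (trivStage Γ T)).Jᶜ v = rat S.Jᶜ (fun s => v (pvL T.n s)) ∪
        rat univᶜ fun s => v (pvR S.P.n s) := rat_pv (n := S.P.n) (m := T.n) _ v
    have e5 : ∀ {ι : Type} {n : ι → ℕ} (u : Vars n → Ω), rat ∅ u = ∅ := fun u => by simp [rat]
    rw [hJ, e5, empty_union] at e3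
    rw [hJ, compl_empty, compl_univ, e5, union_empty] at e4
    rw [W.dim_isProd hp h1.isSub h2.isSub, hw.dim_loc, h1.dim_loc, h2.dim_loc, add_comm]
    exact ((congrArg₂ (· + ·) (congrArg (rk k) e3) (congrArg (rk k) e4)).symm.trans hf.symm).le

theorem Weil.InvAlg_key {S : Stage k Γ} (hJ : S.J = ∅)
    (H : W.Dec (S.prod (trivStage Γ S.P)) {C | IsSub C} ∅) {m i j : ℕ} (hij : i + j = 2 * m)
    {a b : W.H S.P} (hi : a ∈ W.gr S.P i) (hj : b ∈ W.gr S.P j) (ha : W.Inv S a)
    (h : ∀ Z, IsSub Z → W.ph a Z = 0) : W.tr _ (a * b) = 0 := by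
  have hp := isProd_pv S.P S.P
  have hr : ∀ x, (pvF S.P S.P).1 ((hp.lift (Mor.id _) (Mor.id _)).1 x) = x := fun _ => by simp
  have hr' : ∀ x, (pvS S.P S.P).1 ((hp.lift (Mor.id _) (Mor.id _)).1 x) = x := fun _ => by simp
  have hs := (Mor.retr _ _ hr).isSub S.P.isSub_univ
  rw [image_univ] at hs
  have h1 := W.tr_pull_retr _ _ hr (W.pull (pvF S.P S.P) a * W.pull (pvS S.P S.P) b)
  rw [map_mul (W.pull _), W.pull_pull, W.pull_pull, W.pull_id _ (funext hr),
    W.pull_id _ (funext hr')] at h1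
  have hb : W.Inv (trivStage Γ S.P) b := fun γ => W.pull_id _ (funext (trivStage_act S.P γ)) b
  refine h1.trans (H m _ (hij ▸ SetLike.mul_mem_graded (W.pull_gr _ i a hi) (W.pull_gr _ j b hj))
    (Weil.Inv.mul W (W.inv_fst _ ha) (W.inv_snd S hb)) (fun Ω _ _ v hv hf => ?_)
    (fun _ hC => hC.elim) _ hs)
  obtain ⟨Z, Z', hZ, hZ', e⟩ := W.loc_of_free hJ S.P hv hf
  rw [e]
  change W.tr (pvVar S.P S.P) (W.cl (pvVar S.P S.P) _ *
    (W.pull (pvF S.P S.P) a * W.pull (pvS S.P S.P) b)) = 0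
  rw [W.cl_prod _ _ hp Z Z' hZ hZ', mul_assoc, ← mul_assoc (W.pull (pvS S.P S.P) _),
    W.Alg_comm (W.pull_mem_Alg (pvS S.P S.P) (W.cl_mem_Alg hZ')), mul_assoc, ← mul_assoc,
    ← map_mul (W.pull _), ← map_mul (W.pull _), W.tr_prod hp]
  exact mul_eq_zero_of_left (h Z hZ) _

theorem Weil.eq_zero_of_inv {S : Stage k Γ} (hJ : S.J = ∅)
    (H : W.Dec (S.prod (trivStage Γ S.P)) {C | IsSub C} ∅) {a : W.H S.P} (ha : W.Inv S a)
    (h : ∀ Z, IsSub Z → W.ph a Z = 0) : a = 0 := by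
  refine W.eq_zero_of_gr fun j b hb => ?_
  have h1 := W.genB_proj (W.tr S.P ∘ₗ LinearMap.mulRight K b) (2 * S.P.d - j)
    (fun l hl x hx => W.tr_mul_gr hx hb (by omega)) a
  refine h1.symm.trans ?_
  have h2 := (DirectSum.decompose (W.gr S.P) a (2 * S.P.d - j)).2
  by_cases hj : 2 * S.P.d - j + j = 2 * S.P.d
  swap
  · exact W.tr_mul_gr h2 hb hj
  refine W.InvAlg_key hJ H hj h2 hb (fun γ => ?_) fun Z hZ => ?_
  · rw [W.genB_pull_dec, ha γ]
  · by_cases hd : 2 * S.P.d - j = 2 * dim Z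
    · exact (W.genB_proj (W.tr S.P ∘ₗ LinearMap.mulLeft K (W.cl S.P Z)) _
        (fun l hl x hx => W.tr_cl_mul_gr hZ hx (hd ▸ hl)) a).trans (h Z hZ)
    · exact W.tr_cl_mul_gr hZ h2 hd

/-- Invariant classes are algebraic. -/
theorem Weil.inv_alg [Finite Γ] {S : Stage k Γ} (hJ : S.J = ∅)
    (H : W.Dec (S.prod (trivStage Γ S.P)) {C | IsSub C} ∅) {a : W.H S.P} (ha : W.Inv S a) :
    a ∈ W.Alg S.P := by
  by_contra hn
  have := Fintype.ofFinite Γ
  obtain ⟨φ, h1, h2⟩ := Submodule.exists_dual_map_eq_bot_of_notMem hn inferInstance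
  have h3 : Function.Injective ((LinearMap.mul K (W.H S.P)).compr₂ (W.tr S.P)) :=
    (injective_iff_map_eq_zero _).2 fun c hc => W.poincare _ c fun b => LinearMap.congr_fun hc b
  obtain ⟨b, rfl⟩ := LinearMap.flip_surjective_iff₁.2 h3 φ
  have h4 : ∀ c ∈ W.Alg S.P, W.tr S.P (c * b) = 0 := fun c hc =>
    (Submodule.mem_bot K).1 (h2 ▸ Submodule.mem_map_of_mem hc)
  have h5 : ∀ (γ : Γ) x, (S.act γ⁻¹).1 ((S.act γ).1 x) = x := fun γ x => by
    rw [← S.act_mul, inv_mul_cancel, S.act_one]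
  have h6 : ∀ c, W.tr S.P (c * ∑ γ, W.pull (S.act γ) b) =
      ∑ γ, W.tr S.P (W.pull (S.act γ⁻¹) c * b) := fun c => by
    rw [Finset.mul_sum, map_sum]
    refine Finset.sum_congr rfl fun γ _ => ?_
    rw [← W.tr_pull_aut (S.act γ) (S.act γ⁻¹) (h5 γ) (by simpa using h5 γ⁻¹)
      (W.pull (S.act γ⁻¹) c * b), map_mul (W.pull _),
      W.pull_pull, W.pull_id ((S.act γ⁻¹).comp (S.act γ)) (funext (h5 γ))]
  have h7 : ∑ γ, W.pull (S.act γ) b = 0 := by
    refine W.eq_zero_of_inv hJ H (fun δ => ?_) fun Z hZ => (h6 _).trans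
      (Finset.sum_eq_zero fun γ _ => h4 _ (W.pull_mem_Alg _ (W.cl_mem_Alg hZ)))
    rw [map_sum]
    refine Fintype.sum_equiv (Equiv.mulRight δ) _ _ fun γ => ?_
    rw [W.pull_pull]
    exact W.pull_congr (fun x => (S.act_mul γ δ x).symm) b
  have h8 := h6 a
  rw [h7, mul_zero, map_zero, Finset.sum_congr rfl fun γ _ => by rw [ha γ⁻¹], Finset.sum_const,
    nsmul_eq_mul] at h8
  exact mul_ne_zero (Nat.cast_ne_zero.2 Finset.univ_nonempty.card_ne_zero) h1 h8.symm

end Pool.Agent.MP_0c8446_ag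

end
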