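import Pool.Agent.Mg.F0c8446.G601e39
import Pool.Agent.Mg.F0c8446.G1ff22b

section

namespace Pool.Agent.MP_0c8446_ag

open MvPolynomial Set

universe u v w

variable {k : Type u} [Field k] {Γ : Type u} [Group Γ] {D : FrD k Γ}
  {Ω Ω' : Type u} [Field Ω] [Algebra k Ω] [Field Ω'] [Algebra k Ω']

namespace Level

variable {L : Level D} {f g : MvPolynomial D.σ k}

theorem Eqv.refl (L : Level D) (h : D.σ → Ω) : L.Eqv h h := ParOn.refl _ _

theorem Eqv.symm {h h' : D.σ → Ω} (e : L.Eqv h h') : L.Eqv h' h := ParOn.symm e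

theorem Eqv.trans {h h' h'' : D.σ → Ω} (e : L.Eqv h h') (e' : L.Eqv h' h'') : L.Eqv h h'' :=
  ParOn.trans e e'

theorem reg_C (L : Level D) (c : k) : L.Reg (C c) :=
  ⟨0, C c, 1, isForm_C c, isForm_one, fun _ _ => rfl, fun _ _ _ _ _ => by simp⟩

theorem Reg.add (hf : L.Reg f) (hg : L.Reg g) : L.Reg (f + g) := by
  obtain ⟨d, F, G, hF, hG, hd, h⟩ := hf
  obtain ⟨d', F', G', hF', hG', hd', h'⟩ := hg
  refine ⟨d + d', F * G' + G * F', G * G', (hF.mul hG').add (hG.mul hF'), hG.mul hG',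
    fun i hi => by rw [Finsupp.add_apply, hd i hi, hd' i hi], fun Ω _ _ x hx => ?_⟩
  obtain ⟨h1, h2⟩ := h Ω x hx
  obtain ⟨h3, h4⟩ := h' Ω x hx
  simp only [map_add, map_mul]
  refine ⟨mul_ne_zero h1 h3, ?_⟩
  rw [h2, h4]
  ring

theorem Reg.mul (hf : L.Reg f) (hg : L.Reg g) : L.Reg (f * g) := by
  obtain ⟨d, F, G, hF, hG, hd, h⟩ := hf
  obtain ⟨d', F', G', hF', hG', hd', h'⟩ := hg
  refine ⟨d + d', F * F', G * G', hF.mul hF', hG.mul hG',
    fun i hi => by rw [Finsupp.add_apply, hd i hi, hd' i hi], fun Ω _ _ x hx => ?_⟩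
  obtain ⟨h1, h2⟩ := h Ω x hx
  obtain ⟨h3, h4⟩ := h' Ω x hx
  simp only [map_mul]
  refine ⟨mul_ne_zero h1 h3, ?_⟩
  rw [h2, h4]
  ring

theorem Reg.subst {τ : Type} {t : τ → MvPolynomial D.σ k} (ht : ∀ s, L.Reg (t s))
    (P : MvPolynomial τ k) : L.Reg (aeval t P) := by
  induction P using MvPolynomial.induction_on with
  | C c =>
    rw [aeval_C]
    exact L.reg_C c
  | add P Q hP hQ =>
    rw [map_add]
    exact hP.add hQ
  | mul_X P s hP =>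
    rw [map_mul, aeval_X]
    exact hP.mul (ht s)

theorem Reg.congr (hf : L.Reg f) (h : ∀ (Ω : Type u) [Field Ω] [Algebra k Ω] (h : D.σ → Ω),
    D.Fr h → aeval h g = aeval h f) : L.Reg g := by
  obtain ⟨d, F, G, hF, hG, hd, h'⟩ := hf
  exact ⟨d, F, G, hF, hG, hd, fun Ω _ _ x hx => by
    rw [h Ω x hx]
    exact h' Ω x hx⟩

theorem Reg.of_inv (hf : L.Reg f) (h : ∀ (Ω : Type u) [Field Ω] [Algebra k Ω] (h : D.σ → Ω),
    D.Fr h → aeval h f * aeval h g = 1) : L.Reg g := by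
  obtain ⟨d, F, G, hF, hG, hd, h'⟩ := hf
  refine ⟨d, G, F, hG, hF, hd, fun Ω _ _ x hx => ?_⟩
  obtain ⟨h1, h2⟩ := h' Ω x hx
  have h3 := h Ω x hx
  rw [h2]
  exact ⟨mul_ne_zero (left_ne_zero_of_mul_eq_one h3) h1, by
    rw [← mul_assoc, mul_comm (aeval x g), h3, one_mul]⟩

end Level

variable {K : Type v} [Field K] {W : Weil.{u, v, w} k K} {e e' : FRel k D.σ}
  {V V' : Set (MvPolynomial D.σ k)}

theorem Weil.Good.congr (h : W.Good D e V)
    (he : ∀ (Ω : Type u) [Field Ω] [Algebra k Ω] [IsAlgClosed Ω] (h h' : D.σ → Ω), D.Fr h →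
      D.Fr h' → (e Ω h h' ↔ e' Ω h h')) : W.Good D e' V :=
  fun L hL hV => h L (fun Ω _ _ _ x x' hx hx' =>
    (hL Ω x x' hx hx').trans (he Ω x x' hx hx').symm) hV

theorem Weil.Good.of_reg (h : W.Good D e V)
    (hV : ∀ L : Level D, (∀ f ∈ V', L.Reg f) → ∀ f ∈ V, L.Reg f) : W.Good D e V' :=
  fun L hL hV' => h L hL (hV L hV')

theorem Weil.Good.mono (h : W.Good D e V) (hV : V ⊆ V') : W.Good D e V' :=
  h.of_reg fun _ hL f hf => hL f (hV hf)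

variable [IsAlgClosed k] {N : ℕ}

theorem Level.ext_nz (L : Level D) (r : Γ →* Matrix (Fin (N + 1)) (Fin (N + 1)) k)
    {z : Fin (N + 1) → MvPolynomial D.σ k} (hz : D.NV z) :
    ∀ i ∉ (L.S.ext r).J, D.NV fun s => (jn L.pt z : Vars (L.S.ext r).P.n → _) ⟨i, s⟩ := by
  rintro (i | i) hi
  · exact L.nz i hi
  · exact hz

theorem Level.ext_equi (L : Level D) {r : Γ →* Matrix (Fin (N + 1)) (Fin (N + 1)) k}
    {z : Fin (N + 1) → MvPolynomial D.σ k} (he : D.Equi r z) :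
    ∀ i ∉ (L.S.ext r).J,
      D.Equi ((L.S.ext r).ρ i) fun s => (jn L.pt z : Vars (L.S.ext r).P.n → _) ⟨i, s⟩ := by
  rintro (i | i) hi
  · exact L.equi i hi
  · exact he

theorem Level.ext_prod (L : Level D) (r : Γ →* Matrix (Fin (N + 1)) (Fin (N + 1)) k)
    {z : Fin (N + 1) → MvPolynomial D.σ k} (hz : D.NV z) (Ω : Type u) [Field Ω] [Algebra k Ω]
    (v : Vars (L.S.ext r).P.n → Ω) (h : D.σ → Ω) (hv : (L.S.ext r).P.On v) (hh : D.Fr h) :
    (L.S.ext r).P.On (mix (L.S.ext r).J v (evs h (jn L.pt z))) := by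
  have e : mix (L.S.ext r).J v (evs h (jn L.pt z)) =
      jn (mix L.S.J (fun s => v (pvL _ s)) (evs h L.pt)) (evs h z) := by
    funext ⟨i, s⟩
    cases i with
    | inl i =>
      by_cases hi : i ∈ L.S.J
      · exact (if_pos hi).trans (if_pos hi).symm
      · exact (if_neg hi).trans (if_neg hi).symm
    | inr i => exact if_neg fun h => h
  rw [e]
  exact on_jn (L.prod Ω _ h (on_pv_iff.1 hv).1 hh) (hz Ω h hh)

/-- Add one block to a level. -/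
noncomputable def Level.ext (L : Level D) (r : Γ →* Matrix (Fin (N + 1)) (Fin (N + 1)) k)
    (z : Fin (N + 1) → MvPolynomial D.σ k) (hz : D.NV z) (he : D.Equi r z)
    (bd : Set (Set (L.S.ext r).P.pts)) (hc : SubCl bd) (hil : D.IL (L.S.ext r) (jn L.pt z) bd) :
    Level D where
  S := L.S.ext r
  pt := jn L.pt z
  bd := bd
  nz := L.ext_nz r hz
  equi := L.ext_equi he
  prod := L.ext_prod r hz
  closed := hc
  il := hil

theorem Level.parOn_ext (L : Level D) (r : Γ →* Matrix (Fin (N + 1)) (Fin (N + 1)) k)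
    {v v' : Vars L.S.P.n → Ω} {z z' : Fin (N + 1) → Ω} :
    ParOn (L.S.ext r).Jᶜ (jn v z) (jn v' z') ↔
      ParOn L.S.Jᶜ v v' ∧ ∃ t : Ω, t ≠ 0 ∧ ∀ s, z' s = t * z s :=
  parOn_jn (I := (L.S.ext r).Jᶜ) fun h => h

theorem Level.ext_eqv (L : Level D) {r : Γ →* Matrix (Fin (N + 1)) (Fin (N + 1)) k}
    {z : Fin (N + 1) → MvPolynomial D.σ k} {hz : D.NV z} {he : D.Equi r z}
    {bd : Set (Set (L.S.ext r).P.pts)} {hc : SubCl bd} {hil : D.IL (L.S.ext r) (jn L.pt z) bd}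
    {h h' : D.σ → Ω} : (L.ext r z hz he bd hc hil).Eqv h h' ↔
      L.Eqv h h' ∧ ∃ t : Ω, t ≠ 0 ∧ ∀ s, aeval h' (z s) = t * aeval h (z s) := by
  have e := L.parOn_ext r (v := evs h L.pt) (v' := evs h' L.pt) (z := evs h z) (z' := evs h' z)
  rw [← evs_jn, ← evs_jn] at e
  exact e

theorem Level.Reg.ext {L : Level D} {r : Γ →* Matrix (Fin (N + 1)) (Fin (N + 1)) k}
    {z : Fin (N + 1) → MvPolynomial D.σ k} {hz : D.NV z} {he : D.Equi r z}
    {bd : Set (Set (L.S.ext r).P.pts)} {hc : SubCl bd} {hil : D.IL (L.S.ext r) (jn L.pt z) bd}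
    {f : MvPolynomial D.σ k} (hf : L.Reg f) : (L.ext r z hz he bd hc hil).Reg f := by
  obtain ⟨d, F, G, hF, hG, hd, h⟩ := hf
  refine ⟨d.mapDomain Sum.inl, rename (pvL fun _ : Unit => N) F, rename (pvL fun _ : Unit => N) G,
    hF.rename_L _, hG.rename_L _, ?_, fun Ω _ _ x hx => ?_⟩
  · rintro (i | i) hi
    · exact (Finsupp.mapDomain_apply Sum.inl_injective d i).trans (hd i hi)
    · exact hi.elim
  · have e : ∀ P : MvPolynomial (Vars L.S.P.n) k,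
        aeval (evs x (jn L.pt z)) (rename (pvL fun _ : Unit => N) P) = aeval (evs x L.pt) P :=
      fun P => aeval_rename _ _ _
    exact ⟨fun h0 => (h Ω x hx).1 ((e G).symm.trans h0),
      (e F).trans ((h Ω x hx).2.trans (congrArg _ (e G).symm))⟩

theorem Level.reg_ext (L : Level D) {r : Γ →* Matrix (Fin (N + 1)) (Fin (N + 1)) k}
    {z : Fin (N + 1) → MvPolynomial D.σ k} {hz : D.NV z} {he : D.Equi r z}
    {bd : Set (Set (L.S.ext r).P.pts)} {hc : SubCl bd} {hil : D.IL (L.S.ext r) (jn L.pt z) bd}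
    (h0 : z 0 = 1) (s : Fin (N + 1)) : (L.ext r z hz he bd hc hil).Reg (z s) := by
  refine ⟨Finsupp.single (Sum.inr ()) 1, X ⟨Sum.inr (), s⟩, X ⟨Sum.inr (), 0⟩,
    isForm_X _, isForm_X _, ?_, fun Ω _ _ x _ => ?_⟩
  · rintro (i | i) hi
    · exact Finsupp.single_eq_of_ne Sum.inl_ne_inr
    · exact hi.elim
  · rw [aeval_X, aeval_X]
    change aeval x (z 0) ≠ 0 ∧ aeval x (z s) = aeval x (z s) * aeval x (z 0)
    rw [h0, map_one, mul_one]
    exact ⟨one_ne_zero, rfl⟩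

end Pool.Agent.MP_0c8446_ag

end

section

namespace Pool.Agent.MP_0c8446_ag

open MvPolynomial Set

universe u v w

variable {k : Type u} [Field k] [IsAlgClosed k] {K : Type v} [Field K] [CharZero K]
  (W : Weil.{u, v, w} k K) {Γ : Type u} [Group Γ]

theorem StepD_par {D : FrD k Γ} (L : Level D) {N : ℕ}
    (r : Γ →* Matrix (Fin (N + 1)) (Fin (N + 1)) k) (z : Fin (N + 1) → MvPolynomial D.σ k)
    {Ω : Type u} [Field Ω] [Algebra k Ω] (h : D.σ → Ω) (v : Vars (L.S.ext r).P.n → Ω) :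
    ParOn (L.S.ext r).Jᶜ (evs h (jn L.pt z : Vars (L.S.ext r).P.n → _)) v ↔
      ParOn L.S.Jᶜ (evs h L.pt) (fun s => v (pvL _ s)) ∧
        ∃ t : Ω, t ≠ 0 ∧ ∀ s, v ⟨Sum.inr (), s⟩ = t * aeval h (z s) :=
  (iff_of_eq (congrArg₂ (ParOn (L.S.ext r).Jᶜ) (evs_jn h L.pt z) (jn_eta v).symm)).trans
    (L.parOn_ext r)

/-- Adding a block that is determined by the point of the level. -/
theorem Weil.step_proper {D : FrD k Γ} (L : Level D) {N : ℕ}
    {r : Γ →* Matrix (Fin (N + 1)) (Fin (N + 1)) k} {z : Fin (N + 1) → MvPolynomial D.σ k}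
    (hz : D.NV z) (he : D.Equi r z)
    (par : ∀ (Ω : Type u) [Field Ω] [Algebra k Ω] [IsAlgClosed Ω] (h h' : D.σ → Ω), D.Fr h →
      D.Fr h' → L.Eqv h h' → ∃ t : Ω, t ≠ 0 ∧ ∀ s, aeval h' (z s) = t * aeval h (z s)) :
    ∃ (bd : Set (Set (L.S.ext r).P.pts)) (hc : SubCl bd) (hil : D.IL (L.S.ext r) (jn L.pt z) bd),
      W.Dec (L.S.ext r) (L.ext r z hz he bd hc hil).R bd → W.Dec L.S L.R L.bd := by
  refine ⟨{B | IsSub B ∧ closure ((pvF L.S.P (PN k N)).1 '' B) ∈ L.bd},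
    fun C hC => ⟨hC.1, fun C' h1 h2 => ⟨h1, (L.closed _ hC.2).2 _
      (h1.image_closure (pvF L.S.P (PN k N)).continuous) (closure_mono (image_mono h2))⟩⟩, ?_,
    W.dec_proper r ?_ fun _ h => h⟩
  · intro Ω Ω' _ _ _ _ _ _ Pl v h hv hh hp hO hn
    have hr := hv.of_le hn (Pl.pI_le hO)
    obtain ⟨hp, t, ht, hp'⟩ := (StepD_par L r z h v).1 hp
    rcases L.il Ω Ω' Pl _ h (on_pv_iff.1 hv).1 hh hp (fun a => hO _) (on_pv_iff.1 hr).1.1 with
      h1 | ⟨h', h1, h2, h3⟩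
    · exact Or.inl ⟨hr.isSub, (loc_pvF hr).symm ▸ h1⟩
    · obtain ⟨t', ht', h4⟩ := par Ω h' h h1 hh (h2.trans hp.symm)
      exact Or.inr ⟨h', h1, (StepD_par L r z h' v).2 ⟨h2, t * t', mul_ne_zero ht ht', fun s =>
        by rw [hp' s, h4 s, mul_assoc]⟩, h3⟩
  · rintro _ ⟨Ω, _, _, _, v, hv, rfl⟩
    obtain ⟨h, hh, hp, ha⟩ := FrD.exists_alg hv
    have ho : (pvVar L.S.P (PN k N)).On (jn v (evs h z)) := on_jn hv.1 (hz Ω h hh)
    refine ⟨_, ⟨Ω, _, _, inferInstance, jn v (evs h z), ⟨ho, h, hh, ?_⟩, rfl⟩, ho.isSub, ?_,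
      loc_pvF ho⟩
    · exact (StepD_par L r z h _).2 ⟨hp, 1, one_ne_zero, fun s => (one_mul _).symm⟩
    · refine ho.dim_loc.trans (Eq.trans ?_ hv.1.dim_loc.symm)
      have h1 := finite_rat univ (jn v (evs h z))
      change rk k (rat univ (jn v (evs h z))) = _
      rw [rat_jn] at h1 ⊢
      refine le_antisymm (rk_le_of_acl (finite_rat _ _) (union_subset (subset_acl _) ?_))
        (rk_mono h1 subset_union_left)
      rintro _ ⟨s, s', rfl⟩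
      exact div_mem_acl (aeval_mem_acl ha _) (aeval_mem_acl ha _)

end Pool.Agent.MP_0c8446_ag

end

section

namespace Pool.Agent.MP_0c8446_ag

open MvPolynomial Set

universe u v w

variable {k : Type u} [Field k] [IsAlgClosed k] {Γ : Type u} [Group Γ] {D : FrD k Γ}

/-- The frames over a point of a level move the vector `b` along the line with direction `c`
(along the punctured line through `0` if `g` holds). -/
structure FrD.Line (D : FrD k Γ) (e : FRel k D.σ) {ε : Type} (b c : ε → MvPolynomial D.σ k)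
    (g : Prop) : Prop where
  hg : g → b = c
  dir : ∀ (Ω : Type u) [Field Ω] [Algebra k Ω] [IsAlgClosed Ω] (h h' : D.σ → Ω), D.Fr h →
    D.Fr h' → e Ω h h' → ∃ t : Ω, ∀ s, aeval h' (b s) = aeval h (b s) + t * aeval h (c s)
  mv : ∀ (Ω : Type u) [Field Ω] [Algebra k Ω] [IsAlgClosed Ω] (h : D.σ → Ω) (t : Ω), D.Fr h →
    (g → 1 + t ≠ 0) → ∃ h', D.Fr h' ∧ e Ω h h' ∧
      (∀ s, aeval h' (b s) = aeval h (b s) + t * aeval h (c s)) ∧
      ∀ O : Subalgebra k Ω, (∀ s, h s ∈ O) → t ∈ O → (g → (1 + t)⁻¹ ∈ O) → ∀ s, h' s ∈ O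

/-- The boundary after adding a line bundle. -/
def Level.bdL (L : Level D) (i : L.S.P.ι) : Set (Set (L.S.lb i).P.pts) :=
  {C | IsSub C ∧ (closure ((pvF L.S.P (PN k (L.S.P.n i + 1))).1 '' C) ∈ L.bd ∨
    C ⊆ zSec L.S.P (L.S.P.n i) ∨
    (C ⊆ range (L.S.P.inf i).1 ∧ closure ((pvF L.S.P (PN k (L.S.P.n i + 1))).1 '' C) ∈ L.R))}

theorem Level.subCl_bdL (L : Level D) (i : L.S.P.ι) : SubCl (L.bdL i) := by
  rintro C ⟨hC, h⟩
  refine ⟨hC, fun C' hC' hs => ⟨hC', ?_⟩⟩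
  have h1 := hC'.image_closure (pvF L.S.P (PN k (L.S.P.n i + 1))).2.continuous
  have h2 : closure ((pvF L.S.P (PN k (L.S.P.n i + 1))).1 '' C') ⊆
      closure ((pvF L.S.P (PN k (L.S.P.n i + 1))).1 '' C) := closure_mono (image_mono hs)
  rcases h with h | h | h
  · exact Or.inl ((L.closed _ h).2 _ h1 h2)
  · exact Or.inr (Or.inl (hs.trans h))
  · rcases L.sp h.2 h1 h2 with h3 | h3
    · exact Or.inr (Or.inr ⟨hs.trans h.1, h3⟩)
    · exact Or.inl h3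

theorem Level.il_bdL (L : Level D) {i : L.S.P.ι} (hi : i ∉ L.S.J)
    {b : Fin (L.S.P.n i + 1) → MvPolynomial D.σ k} {g : Prop}
    (hl : D.Line (fun _ _ _ _ h h' => L.Eqv h h') b (fun s => L.pt ⟨i, s⟩) g) :
    D.IL (L.S.lb i) (jn L.pt (Fin.cons 1 b)) (L.bdL i) := by
  intro Ω Ω' _ _ _ _ _ _ Pl v h ho hh hp hO hn
  obtain ⟨v1, v2, rfl⟩ : ∃ (v1 : Vars L.S.P.n → Ω) (v2 : Fin (L.S.P.n i + 1 + 1) → Ω),
      v = jn v1 v2 := ⟨_, _, (jn_eta v).symm⟩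
  have hj : ∀ h' : D.σ → Ω, ParOn (n := (L.S.lb i).P.n) (L.S.lb i).Jᶜ
      (evs h' (jn L.pt (Fin.cons 1 b))) (jn v1 v2) ↔ ParOn L.S.Jᶜ (evs h' L.pt) v1 ∧
        ∃ t : Ω, t ≠ 0 ∧ ∀ s, v2 s = t * evs h' (Fin.cons 1 b : Fin (L.S.P.n i + 1 + 1) → _) s :=
    fun h' => (iff_of_eq (congrArg (fun w => ParOn (n := (L.S.lb i).P.n) (L.S.lb i).Jᶜ w
      (jn v1 v2)) (evs_jn h' L.pt (Fin.cons 1 b)))).trans (L.parOn_ext (plus (L.S.ρ i)))
  obtain ⟨hp1, lam, hlam, hv2⟩ := (hj h).1 hp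
  have ho1 : L.S.P.On v1 := (on_pv_iff.1 ho).1
  have hO1 : ∀ a, v1 a ∈ Pl.O := fun a => hO (pvL _ a)
  have hO2 : ∀ s, v2 s ∈ Pl.O := fun s => hO ⟨Sum.inr (), s⟩
  have hn1 : NZb fun a => Pl.red (v1 a) := fun j => hn (Sum.inl j)
  have hn2 : ∃ s, Pl.red (v2 s) ≠ 0 := hn (Sum.inr ())
  have hu := ho.of_le hn (Pl.pI_le hO)
  have hF : closure ((pvF L.S.P (PN k (L.S.P.n i + 1))).1 ''
      (L.S.lb i).P.loc fun a => Pl.red (jn v1 v2 a)) = L.S.P.loc fun a => Pl.red (v1 a) :=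
    loc_pvF hu
  have h20 : v2 0 = lam := by simpa [evs] using hv2 0
  have h2s : ∀ s, v2 s.succ = lam * aeval h (b s) := fun s => by simpa [evs] using hv2 s.succ
  rcases L.il Ω Ω' Pl v1 h ho1 hh hp1 hO1 hn1 with hb | ⟨h1, hh1, hp1', hO'⟩
  · exact Or.inl ⟨hu.isSub, Or.inl (hF ▸ hb)⟩
  obtain ⟨t, ht⟩ := hl.dir Ω h1 h hh1 hh (hp1'.trans hp1.symm)
  have hc : ∀ s, aeval h1 (L.pt ⟨i, s⟩) ∈ Pl.O := fun s => Pl.aeval_mem hO' _
  have hb : ∀ s, aeval h1 (b s) ∈ Pl.O := fun s => Pl.aeval_mem hO' _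
  have hc' : ∃ s, Pl.red (aeval h1 (L.pt ⟨i, s⟩)) ≠ 0 := by
    obtain ⟨s, hs⟩ := L.nz i hi Ω' _ (hh1.red Pl hO')
    exact ⟨s, by rwa [Pl.red_aeval hO']⟩
  have hg0 : g → ∀ s, aeval h (b s) = (1 + t) * aeval h1 (L.pt ⟨i, s⟩) := fun hg s => by
    rw [ht, hl.hg hg, add_mul, one_mul]
  have hg1 : g → 1 + t ≠ 0 := fun hg h0 => by
    obtain ⟨s, hs⟩ := L.nz i hi Ω h hh
    have h3 := hg0 hg s
    rw [h0, zero_mul, hl.hg hg] at h3
    exact hs h3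
  by_cases htO : t ∈ Pl.O
  · by_cases hgi : g → (1 + t)⁻¹ ∈ Pl.O
    · obtain ⟨h', hh', e', hb', hO''⟩ := hl.mv Ω h1 t hh1 hg1
      refine Or.inr ⟨h', hh', (hj h').2 ⟨(ParOn.symm e').trans hp1', lam, hlam, fun s => ?_⟩,
        hO'' Pl.O hO' htO hgi⟩
      refine Fin.cases ?_ (fun s => ?_) s
      · simpa [evs] using h20
      · rw [h2s, ht, ← hb']
        simp [evs]
    · obtain ⟨hg, hni⟩ := Classical.not_imp.1 hgi
      have h3 : 1 + t ∈ Pl.O := Pl.O.add_mem Pl.O.one_mem htO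
      have h4 : Pl.red (1 + t) = 0 := by_contra fun h4 => hni (Pl.inv_mem h3 h4)
      refine Or.inl ⟨hu.isSub, Or.inr (Or.inl fun x hx s =>
        (hu.vanish_iff (isForm_X _)).2 ((aeval_X _ _).trans ?_) x hx)⟩
      change Pl.red (v2 s.succ) = 0
      rw [h2s, hg0 hg, Pl.red_mul (h20 ▸ hO2 0) (Pl.O.mul_mem h3 (hc s)), Pl.red_mul h3 (hc s), h4,
        zero_mul, mul_zero]
  obtain ⟨t0, ti, tr⟩ := Pl.inv_of_notMem htO
  let z : Fin (L.S.P.n i + 1 + 1) → Ω :=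
    Fin.cons t⁻¹ fun s => t⁻¹ * aeval h1 (b s) + aeval h1 (L.pt ⟨i, s⟩)
  have hz : ∀ s, z s ∈ Pl.O := fun s =>
    Fin.cases ti (fun s => Pl.O.add_mem (Pl.O.mul_mem ti (hb s)) (hc s)) s
  have hzs : ∀ s, Pl.red (z (Fin.succ s)) = Pl.red (aeval h1 (L.pt ⟨i, s⟩)) := fun s => by
    change Pl.red (_ + _) = _
    rw [Pl.red_add (Pl.O.mul_mem ti (hb s)) (hc s), Pl.red_mul ti (hb s), tr, zero_mul, zero_add]
  have hvz : ∀ s, v2 s = lam * t * z s := fun s => by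
    refine Fin.cases ?_ (fun s => ?_) s
    · rw [h20]
      change lam = lam * t * t⁻¹
      rw [mul_assoc, mul_inv_cancel₀ t0, mul_one]
    · rw [h2s, ht]
      change _ = lam * t * (t⁻¹ * _ + _)
      rw [mul_assoc, mul_add t, mul_inv_cancel_left₀ t0]
  obtain ⟨hm, hm'⟩ := Pl.par_unit hz hO2 hvz (hc'.elim fun s hs => ⟨s.succ, hzs s ▸ hs⟩) hn2
  obtain ⟨μ, hμ, hμ'⟩ := L.par_red Pl hh1 hp1' hO' hO1 hn1 i hi
  have hpar : ParOn univ (jn (fun a => Pl.red (v1 a))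
      (Fin.cons 0 fun s => Pl.red (v1 ⟨i, s⟩) : Fin (L.S.P.n i + 1 + 1) → Ω'))
      (jn (fun a => Pl.red (v1 a)) fun s => Pl.red (v2 s)) := by
    refine (parOn_jn (mem_univ _)).2 ⟨ParOn.refl _ _, Pl.red (lam * t) * μ⁻¹,
      mul_ne_zero hm' (inv_ne_zero hμ), fun s => ?_⟩
    rw [hvz, Pl.red_mul hm (hz s)]
    refine Fin.cases ?_ (fun s => ?_) s
    · change _ * Pl.red t⁻¹ = _ * 0
      rw [tr, mul_zero, mul_zero]
    · rw [hzs, Fin.cons_succ, show Pl.red (v1 ⟨i, s⟩) = _ from hμ' s, mul_assoc,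
        inv_mul_cancel_left₀ hμ, Pl.red_aeval hO']
      rfl
  have he : (fun a => Pl.red (jn v1 v2 a)) = jn (fun a => Pl.red (v1 a)) fun s => Pl.red (v2 s) :=
    funext fun | ⟨Sum.inl _, _⟩ => rfl | ⟨Sum.inr _, _⟩ => rfl
  have hR := L.famR_red Pl ho1 hh1 hp1' hO' hO1 hn1
  refine Or.inl ⟨hu.isSub, Or.inr (Or.inr ⟨?_, hF ▸ ⟨Ω', _, _, _, _, hR, rfl⟩⟩)⟩
  exact (Var.loc_par (X := pvVar L.S.P (PN k (L.S.P.n i + 1))) (he ▸ hpar)).subset.trans
    ((Var.loc_inf i hR.1).subset.trans (image_subset_range _ _))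

end Pool.Agent.MP_0c8446_ag

end

section

namespace Pool.Agent.MP_0c8446_ag

open MvPolynomial Set

universe u v w

variable {k : Type u} [Field k] [IsAlgClosed k] {Γ : Type u} [Group Γ] {D : FrD k Γ}

omit [IsAlgClosed k] in
theorem StepL_rk {Ω : Type u} [Field Ω] [Algebra k Ω] {S : Set Ω} (hS : S.Finite) {N : ℕ}
    {b c y : Fin N → Ω} {t : Ω} (ht : t ∉ acl k S) (hb : ∀ j, b j ∈ acl k S)
    (hc : ∀ j, c j ∈ acl k S) (h0 : ∃ j, c j ≠ 0) (hy : ∀ j, y j = b j + t * c j) :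
    rk k (S ∪ {x | ∃ s s', x = (Fin.cons 1 y : Fin (N + 1) → Ω) s /
      (Fin.cons 1 y : Fin (N + 1) → Ω) s'}) = rk k S + 1 := by
  rw [← rk_insert_of_notMem hS ht]
  have h1 : ∀ T : Set Ω, (1 : Ω) ∈ acl k T := fun T => by
    simpa using algebraMap_mem_acl (S := T) (1 : k)
  refine le_antisymm (rk_le_of_acl (hS.insert t) (union_subset
    ((subset_insert _ _).trans (subset_acl _)) ?_)) (rk_le_of_acl (hS.union ?_)
    (insert_subset ?_ (subset_union_left.trans (subset_acl _))))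
  · have h2 : ∀ s, (Fin.cons 1 y : Fin (N + 1) → Ω) s ∈ acl k (insert t S) := fun s => by
      refine Fin.cases (h1 _) (fun j => ?_) s
      rw [Fin.cons_succ, hy]
      exact add_mem_acl (acl_mono (subset_insert _ _) (hb j)) (mul_mem_acl
        (subset_acl _ (mem_insert _ _)) (acl_mono (subset_insert _ _) (hc j)))
    rintro _ ⟨s, s', rfl⟩
    exact div_mem_acl (h2 s) (h2 s')
  · refine (finite_range fun p : Fin (N + 1) × Fin (N + 1) =>
      (Fin.cons 1 y : Fin (N + 1) → Ω) p.1 / (Fin.cons 1 y : Fin (N + 1) → Ω) p.2).subset ?_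
    rintro _ ⟨s, s', rfl⟩
    exact ⟨(s, s'), rfl⟩
  · obtain ⟨j, hj⟩ := h0
    rw [show t = (y j - b j) / c j by rw [hy, add_sub_cancel_left, mul_div_cancel_right₀ _ hj]]
    exact div_mem_acl (sub_mem_acl (subset_acl _ (Or.inr ⟨j.succ, 0, by simp⟩))
      (acl_mono subset_union_left (hb j))) (acl_mono subset_union_left (hc j))

omit [IsAlgClosed k] in
theorem StepL_pI {Ω Ω' : Type u} [Field Ω] [Algebra k Ω] [Field Ω'] [Algebra k Ω'] {ι : Type}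
    {n : ι → ℕ} {N : ℕ} (Pl : Place k Ω' Ω) (φ : Ω →ₐ[k] Ω') {s : Ω'} (hs : s ≠ 0) (hO : s ∈ Pl.O)
    (h0 : Pl.red s = 0) (hφ : ∀ x, φ x ∈ Pl.O ∧ Pl.red (φ x) = x) (v : Vars n → Ω)
    {b c c' : Fin N → Ω} {y : Fin N → Ω'} (hy : ∀ j, y j = φ (b j) + s⁻¹ * φ (c j))
    (hc : ∃ t : Ω, t ≠ 0 ∧ ∀ j, c' j = t * c j) :
    pI k (jn (fun a => φ (v a)) (Fin.cons 1 y : Fin (N + 1) → Ω')) ≤
      pI k (jn v (Fin.cons 0 c' : Fin (N + 1) → Ω)) := by
  have p1 : ParOn univ (jn (fun a => φ (v a)) (Fin.cons 1 y : Fin (N + 1) → Ω'))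
      (jn (fun a => φ (v a)) (Fin.cons s fun j => s * φ (b j) + φ (c j) : Fin (N + 1) → Ω')) := by
    rintro (i | _) -
    · exact ⟨1, one_ne_zero, fun _ => (one_mul _).symm⟩
    · refine ⟨s, hs, fun j => Fin.cases (mul_one s).symm (fun j : Fin N => ?_) j⟩
      change s * φ (b j) + φ (c j) = s * y j
      rw [hy, mul_add, mul_inv_cancel_left₀ hs]
  have p2 : ParOn univ (jn v (Fin.cons 0 c : Fin (N + 1) → Ω))
      (jn v (Fin.cons 0 c' : Fin (N + 1) → Ω)) := by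
    obtain ⟨t, ht, hc⟩ := hc
    rintro (i | _) -
    · exact ⟨1, one_ne_zero, fun _ => (one_mul _).symm⟩
    · exact ⟨t, ht, fun j => Fin.cases (mul_zero t).symm hc j⟩
  have key : ∀ a, jn (fun a => φ (v a))
      (Fin.cons s fun j => s * φ (b j) + φ (c j) : Fin (N + 1) → Ω') a ∈ Pl.O ∧
      Pl.red (jn (fun a => φ (v a))
        (Fin.cons s fun j => s * φ (b j) + φ (c j) : Fin (N + 1) → Ω') a) =
        jn v (Fin.cons 0 c : Fin (N + 1) → Ω) a := by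
    rintro ⟨i | _, j⟩
    · exact hφ _
    · refine Fin.cases ⟨hO, h0⟩ (fun j : Fin N => ?_) j
      have h1 := Pl.O.mul_mem hO (hφ (b j)).1
      refine ⟨Pl.O.add_mem h1 (hφ _).1, ?_⟩
      change Pl.red (s * φ (b j) + φ (c j)) = c j
      rw [Pl.red_add h1 (hφ _).1, Pl.red_mul hO (hφ _).1, h0, zero_mul, zero_add, (hφ _).2]
  rw [← p1.pI_eq, p2.pI_eq, ← funext fun a => (key a).2]
  exact Pl.pI_le fun a => (key a).1

theorem StepL_inf {Ω : Type u} [Field Ω] [Algebra k Ω] {X : Var k} {N : ℕ}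
    {u : Vars (pvVar X (PN k (N + 1))).n → Ω} (hu : (pvVar X (PN k (N + 1))).On u)
    (h : (pvVar X (PN k (N + 1))).loc u ⊆ hInf X N) : u ⟨Sum.inr (), (0 : Fin (N + 2))⟩ = 0 :=
  (aeval_X u _).symm.trans ((hu.vanish_iff (isForm_X _)).1 h)

/-- The level obtained by adding a line bundle. -/
noncomputable def Level.line (L : Level D) {i : L.S.P.ι} (hi : i ∉ L.S.J)
    {b : Fin (L.S.P.n i + 1) → MvPolynomial D.σ k} (he : D.Equi (L.S.ρ i) b) {g : Prop}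
    (hl : D.Line (fun _ _ _ _ h h' => L.Eqv h h') b (fun s => L.pt ⟨i, s⟩) g) : Level D :=
  L.ext (plus (L.S.ρ i)) (Fin.cons 1 b) (D.nv_cons b) he.cons (L.bdL i) (L.subCl_bdL i)
    (L.il_bdL hi hl)

theorem Level.line_fibre (L : Level D) {i : L.S.P.ι} (hi : i ∉ L.S.J)
    {b : Fin (L.S.P.n i + 1) → MvPolynomial D.σ k} (he : D.Equi (L.S.ρ i) b) {g : Prop}
    (hl : D.Line (fun _ _ _ _ h h' => L.Eqv h h') b (fun s => L.pt ⟨i, s⟩) g)
    {C : Set L.S.P.pts} (hC : C ∈ L.R) :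
    ∃ C' : Set (L.S.lb i).P.pts, C' ∈ (L.line hi he hl).R ∧ IsSub C' ∧ dim C' = dim C + 1 ∧
      (pvF L.S.P (PN k (L.S.P.n i + 1))).1 '' C' ⊆ C ∧ ¬ C' ⊆ hInf L.S.P (L.S.P.n i) ∧
      (L.S.P.inf i).1 '' C ⊆ C' ∧ ∀ E, IsSub E → E ⊆ C' ∩ hInf L.S.P (L.S.P.n i) →
        closure ((pvF L.S.P (PN k (L.S.P.n i + 1))).1 '' E) ∈ L.bd ∨
          E ⊆ range (L.S.P.inf i).1 := by
  obtain ⟨Ω, _, _, _, v, hv, rfl⟩ := hC
  obtain ⟨h₀, hF, hp, ha⟩ := FrD.exists_alg hv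
  obtain ⟨Ω', _, _, _, φ, s, Pl, hs, hO, h0, hφ⟩ := exists_generic_place (k := k) (0 : Ω)
  have hs' : s⁻¹ ∉ acl k (range φ) := fun h => hs (by simpa using inv_mem_acl h)
  have s0 : s ≠ 0 := fun h => hs (by simpa [h] using algebraMap_mem_acl (S := range φ) (0 : k))
  have s1 : 1 + s⁻¹ ≠ 0 := fun h => hs' (by
    simpa [eq_neg_of_add_eq_zero_right h] using algebraMap_mem_acl (S := range φ) (-1 : k))
  obtain ⟨h', hF', he', hb, -⟩ := hl.mv Ω' (fun s => φ (h₀ s)) s⁻¹ (hF.map φ) fun _ => s1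
  have hy : ∀ j, evs h' b j = φ (evs h₀ b j) + s⁻¹ * φ (evs h₀ L.pt ⟨i, j⟩) := fun j => by
    rw [← congrFun (evs_map φ h₀ b) j, ← congrFun (evs_map φ h₀ L.pt) ⟨i, j⟩]
    exact hb j
  have ho : (pvVar L.S.P (PN k (L.S.P.n i + 1))).On
      (jn (fun a => φ (v a)) (Fin.cons 1 (evs h' b))) := on_jn (hv.1.map φ) ⟨0, one_ne_zero⟩
  have hR : D.famR (L.line hi he hl).S (L.line hi he hl).pt Ω'
      (jn (fun a => φ (v a)) (Fin.cons 1 (evs h' b))) := by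
    refine ⟨ho, h', hF', ?_⟩
    have h1 := (L.parOn_ext (plus (L.S.ρ i)) (z := evs h' (Fin.cons 1 b))
      (z' := Fin.cons 1 (evs h' b))).2 ⟨(ParOn.symm he').trans (evs_map φ h₀ L.pt ▸ hp.map φ), 1,
        one_ne_zero, fun j => Fin.cases (by simp [evs]) (fun j => by simp [evs]) j⟩
    rw [← evs_jn] at h1
    exact h1
  refine ⟨_, ⟨Ω', _, _, _, _, hR, rfl⟩, ho.isSub, ?_, ?_, fun h => ?_, ?_, fun E hE h => ?_⟩
  · refine ho.dim_loc.trans ?_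
    rw [hv.1.dim_loc, ← rk_image φ, ← rat_map]
    refine (congrArg (rk k) (rat_jn _ _)).trans (StepL_rk (finite_rat _ _) (fun h => hs' ?_)
      (fun j => ?_) (fun j => ?_) ?_ hy)
    · rw [rat_map] at h
      exact acl_mono (image_subset_range _ _) h
    · rw [rat_map, map_mem_acl_iff]
      exact aeval_mem_acl ha _
    · rw [rat_map, map_mem_acl_iff]
      exact aeval_mem_acl ha _
    · obtain ⟨j, hj⟩ := L.nz i hi Ω h₀ hF
      exact ⟨j, (_root_.map_ne_zero φ).2 hj⟩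
  · exact subset_closure.trans ((loc_pvF ho).trans (Var.loc_map φ v)).le
  · exact one_ne_zero (α := Ω') (StepL_inf ho h)
  · rw [← Var.loc_inf i hv.1]
    exact Var.loc_subset (StepL_pI Pl φ s0 hO h0 hφ v hy (hp i hi))
  · obtain ⟨Ω'', _, _, _, u, hu, rfl⟩ := Var.exists_generic _ hE
    rcases (L.line hi he hl).sp_pt hR hu.1 (hu.pI_le fun x hx => (h hx).1) with
      ⟨-, h'', -, hp''⟩ | ⟨-, h1 | h1 | h1⟩
    · have h2 := StepL_inf hu fun x hx => (h hx).2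
      obtain ⟨t, ht, h3⟩ := hp'' (Sum.inr ()) fun h => h
      have h4 : 0 = t * aeval h'' (1 : MvPolynomial D.σ k) := h2.symm.trans (h3 0)
      rw [map_one, mul_one] at h4
      exact (ht h4.symm).elim
    · exact Or.inl h1
    · obtain ⟨x, hx⟩ := hE.1.nonempty
      exact ((hInf_inter_zSec _ _).subset ⟨(h hx).2, h1 hx⟩).elim
    · exact Or.inr h1.1

end Pool.Agent.MP_0c8446_ag

end
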