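import Pool.Agent.Mg.F0c8446.G1b497e

section

namespace Pool.Agent.MP_0c8446_ag

open MvPolynomial Set Matrix

universe u v w

/-- `q` is a power `p ^ f`, `f > 0`, of the characteristic. -/
class PQ (k : Type u) [Field k] (q : ℕ) : Prop where
  ex : ∃ p f : ℕ, p.Prime ∧ CharP k p ∧ 0 < f ∧ q = p ^ f

lemma PQ.ext (k : Type u) [Field k] (q : ℕ) [h : PQ k q] (Ω : Type u) [Field Ω] [Algebra k Ω] :
    PQ Ω q := by
  obtain ⟨p, f, hp, hc, hf, e⟩ := h.ex
  exact ⟨p, f, hp, charP_of_injective_algebraMap (algebraMap k Ω).injective p, hf, e⟩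

instance PQ.isQ (k : Type u) [Field k] (q : ℕ) [h : PQ k q] : IsQ k q := by
  obtain ⟨p, f, hp, hc, hf, rfl⟩ := h.ex
  have : Fact p.Prime := ⟨hp⟩
  have := isQ_prime k p
  exact isQ_pow k p hf

variable {k : Type u} [Field k] {n : ℕ}

/-- The action of a matrix on the `c`-th tensor power. -/
def tpH (k : Type u) [Field k] (n c : ℕ) :
    Matrix (Fin n) (Fin n) k →* Matrix (Fin c → Fin n) (Fin c → Fin n) k where
  toFun g := Matrix.of fun α β => ∏ l, g (α l) (β l)
  map_one' := by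
    ext α β
    simp only [of_apply, Matrix.one_apply, Finset.prod_ite_zero, Finset.mem_univ, forall_const,
      Finset.prod_const_one, funext_iff]
  map_mul' g h := by
    ext α β
    simp only [of_apply, Matrix.mul_apply, Finset.prod_univ_sum, Fintype.piFinset_univ,
      Finset.prod_mul_distrib]

lemma tpH_apply {c : ℕ} (g : Matrix (Fin n) (Fin n) k) (α β : Fin c → Fin n) :
    tpH k n c g α β = ∏ l, g (α l) (β l) := rfl

/-- `g` and `g'` define the same flag of type `b`. -/
def Rl (b : Fin n → ℕ) (g g' : Matrix (Fin n) (Fin n) k) : Prop := (g⁻¹ * g').BlockTriangular b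

/-- The dual basis in reverse order. -/
noncomputable def dualM (g : Matrix (Fin n) (Fin n) k) : Matrix (Fin n) (Fin n) k :=
  g⁻¹ᵀ.submatrix id Fin.rev

/-- The span of the first `a` columns. -/
def flg (g : Matrix (Fin n) (Fin n) k) (a : ℕ) : Submodule k (Fin n → k) :=
  Submodule.span k ((fun b i => g i b) '' {b : Fin n | (b : ℕ) < a})

/-- The dimension of the intersection for two flags in relative position `y`. -/
def dy (y : Equiv.Perm (Fin n)) (a b : ℕ) : ℕ :=
  (Finset.univ.filter fun l : Fin n => (l : ℕ) < a ∧ (y.symm l : ℕ) < b).card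

/-- Inverse transpose. -/
noncomputable def thH (k : Type u) [Field k] (n : ℕ) :
    Matrix (Fin n) (Fin n) k →* Matrix (Fin n) (Fin n) k where
  toFun g := g⁻¹ᵀ
  map_one' := by simp
  map_mul' g h := by rw [Matrix.mul_inv_rev, transpose_mul]

/-- The Frobenius map of `GL_n(q)` or `U_n(q)`. -/
noncomputable def frH (k : Type u) [Field k] (n : ℕ) (uni : Bool) (q : ℕ) [PQ k q] :
    Matrix (Fin n) (Fin n) k →* Matrix (Fin n) (Fin n) k :=
  if uni then (thH k n).comp (frobHom k q).mapMatrix.toMonoidHom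
  else (frobHom k q).mapMatrix.toMonoidHom

lemma frH_apply (uni : Bool) (q : ℕ) [PQ k q] (g : Matrix (Fin n) (Fin n) k) :
    frH k n uni q g = if uni then (g.map (· ^ q))⁻¹ᵀ else g.map (· ^ q) := by
  cases uni <;> rfl

/-- The finite group `GL_n(q)` or `U_n(q)`. -/
noncomputable def fixG (k : Type u) [Field k] (n : ℕ) (uni : Bool) (q : ℕ) [PQ k q] :
    Subgroup (GL (Fin n) k) :=
  MonoidHom.eqLocus (Units.map (frH k n uni q)) (MonoidHom.id _)

lemma mem_fixG {uni : Bool} {q : ℕ} [PQ k q] {g : GL (Fin n) k} :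
    g ∈ fixG k n uni q ↔ frH k n uni q g.1 = g.1 := Units.ext_iff

/-- The standard representation. -/
noncomputable def stdR (k : Type u) [Field k] (n : ℕ) (uni : Bool) (q : ℕ) [PQ k q] :
    fixG k n uni q →* Matrix (Fin n) (Fin n) k :=
  (Units.coeHom _).comp (fixG k n uni q).subtype

lemma map_inv_of_isUnit {Ω : Type u} [Field Ω] (φ : k →+* Ω) {g : Matrix (Fin n) (Fin n) k}
    (hg : IsUnit g) : (g.map φ)⁻¹ = g⁻¹.map φ :=
  Matrix.inv_eq_left_inv (by
    rw [← Matrix.map_mul, Matrix.nonsing_inv_mul _ ((Matrix.isUnit_iff_isUnit_det g).1 hg),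
      Matrix.map_one _ (map_zero φ) (map_one φ)])

lemma frH_thH (uni : Bool) (q : ℕ) [PQ k q] {g : Matrix (Fin n) (Fin n) k} (hg : IsUnit g) :
    frH k n uni q (thH k n g) = thH k n (frH k n uni q g) := by
  have h : (frobHom k q).mapMatrix (thH k n g) = thH k n ((frobHom k q).mapMatrix g) := by
    change g⁻¹ᵀ.map (frobHom k q) = (g.map (frobHom k q))⁻¹ᵀ
    rw [map_inv_of_isUnit _ hg, transpose_map]
  cases uni
  · exact h
  · exact congrArg (thH k n) h

/-- Inverse transpose as an endomorphism of the finite group. -/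
noncomputable def thG (k : Type u) [Field k] (n : ℕ) (uni : Bool) (q : ℕ) [PQ k q] :
    fixG k n uni q →* fixG k n uni q :=
  ((Units.map (thH k n)).comp (fixG k n uni q).subtype).codRestrict _ fun g => mem_fixG.2 (by
    change frH k n uni q (thH k n g.1.1) = thH k n g.1.1
    rw [frH_thH uni q g.1.isUnit, mem_fixG.1 g.2])

lemma stdR_thG (uni : Bool) (q : ℕ) [PQ k q] (g : fixG k n uni q) :
    stdR k n uni q (thG k n uni q g) = (stdR k n uni q g)⁻¹ᵀ := rfl

section frames

variable {r : ℕ} {R : Type*}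

/-- The coordinates of `r + 1` matrices and their inverses. -/
abbrev GS (r n : ℕ) : Type := Fin (r + 1) × Bool × Fin n × Fin n

/-- The `j`-th matrix. -/
def mM (h : GS r n → R) (j : Fin (r + 1)) : Matrix (Fin n) (Fin n) R :=
  Matrix.of fun a b => h (j, false, a, b)

/-- The `j`-th inverse matrix. -/
def mI (h : GS r n → R) (j : Fin (r + 1)) : Matrix (Fin n) (Fin n) R :=
  Matrix.of fun a b => h (j, true, a, b)

/-- The tuple with given matrices. -/
def mkF (g g' : Fin (r + 1) → Matrix (Fin n) (Fin n) R) : GS r n → R :=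
  fun s => if s.2.1 then g' s.1 s.2.2.1 s.2.2.2 else g s.1 s.2.2.1 s.2.2.2

@[simp] lemma mM_mkF (g g' : Fin (r + 1) → Matrix (Fin n) (Fin n) R) (j : Fin (r + 1)) :
    mM (mkF g g') j = g j := rfl

@[simp] lemma mI_mkF (g g' : Fin (r + 1) → Matrix (Fin n) (Fin n) R) (j : Fin (r + 1)) :
    mI (mkF g g') j = g' j := rfl

lemma mkF_eta (h : GS r n → R) : mkF (mM h) (mI h) = h := by
  funext ⟨j, b, s⟩
  cases b <;> rfl

variable [CommRing R]

/-- The next matrix in the cyclic chain. -/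
def nxM (uni : Bool) (q : ℕ) (h : GS r n → R) (j : Fin (r + 1)) : Matrix (Fin n) (Fin n) R :=
  Fin.lastCases (motive := fun _ => Matrix (Fin n) (Fin n) R)
    (if uni then ((mI h 0).map (· ^ q))ᵀ.submatrix id Fin.rev else (mM h 0).map (· ^ q))
    (fun j => mM h j.succ) j

/-- The transition matrices. -/
def ddM (uni : Bool) (q : ℕ) (h : GS r n → R) (j : Fin (r + 1)) : Matrix (Fin n) (Fin n) R :=
  mI h j * nxM uni q h j

lemma nxM_map {R' F : Type*} [CommRing R'] [FunLike F R R'] [RingHomClass F R R'] (φ : F)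
    (uni : Bool) (q : ℕ) (h : GS r n → R) (j : Fin (r + 1)) :
    (nxM uni q h j).map φ = nxM uni q (fun s => φ (h s)) j := by
  refine Fin.lastCases ?_ (fun j => ?_) j
  · simp only [nxM, Fin.lastCases_last]
    cases uni <;> ext a b <;> simp [mM, mI]
  · simp only [nxM, Fin.lastCases_castSucc]
    rfl

lemma ddM_map {R' F : Type*} [CommRing R'] [FunLike F R R'] [RingHomClass F R R'] (φ : F)
    (uni : Bool) (q : ℕ) (h : GS r n → R) (j : Fin (r + 1)) :
    (ddM uni q h j).map φ = ddM uni q (fun s => φ (h s)) j := by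
  rw [ddM, ddM, ← nxM_map]
  ext a b
  simp [Matrix.mul_apply, mI]

/-- The equations of frames with transition matrices vanishing at the positions `Z`. -/
def glE (k : Type u) [Field k] (uni : Bool) (q : ℕ) (Z : Fin (r + 1) → Fin n → Fin n → Prop) :
    Set (MvPolynomial (GS r n) k) :=
  {e | ∃ j a b, e = (mM X j * mI X j - 1 : Matrix (Fin n) (Fin n) (MvPolynomial (GS r n) k)) a b} ∪
    {e | ∃ j a b, Z j a b ∧ e = ddM uni q X j a b}

lemma glE_iff {Ω : Type*} [CommRing Ω] [Algebra k Ω] (uni : Bool) (q : ℕ)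
    (Z : Fin (r + 1) → Fin n → Fin n → Prop) (h : GS r n → Ω) :
    (∀ e ∈ glE k uni q Z, aeval h e = 0) ↔
      (∀ j, mM h j * mI h j = 1) ∧ ∀ j a b, Z j a b → ddM uni q h j a b = 0 := by
  have h1 : ∀ j a b, aeval h ((mM X j * mI X j - 1 :
      Matrix (Fin n) (Fin n) (MvPolynomial (GS r n) k)) a b) = (mM h j * mI h j - 1) a b := by
    intro j a b
    by_cases e : a = b <;> simp [Matrix.mul_apply, mM, mI, Matrix.one_apply, e]
  have h2 : ∀ j a b, aeval (R := k) h (ddM uni q X j a b) = ddM uni q h j a b := fun j a b => by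
    have := congrFun (congrFun (ddM_map (aeval (R := k) h) uni q X j) a) b
    simpa using this
  constructor
  · refine fun H => ⟨fun j => sub_eq_zero.1 (Matrix.ext fun a b => ?_), fun j a b hz => ?_⟩
    · rw [← h1]; exact H _ (Or.inl ⟨j, a, b, rfl⟩)
    · rw [← h2]; exact H _ (Or.inr ⟨j, a, b, hz, rfl⟩)
  · rintro ⟨H1, H2⟩ e (⟨j, a, b, rfl⟩ | ⟨j, a, b, hz, rfl⟩)
    · rw [h1, H1]; simp
    · rw [h2, H2 j a b hz]

/-- Left multiplication of a tuple by an invertible matrix. -/
def glAct [Algebra k R] (γ : GL (Fin n) k) (h : GS r n → R) : GS r n → R :=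
  mkF (fun j => γ.1.map (algebraMap k R) * mM h j) fun j => mI h j * γ⁻¹.1.map (algebraMap k R)

lemma evs_glAct [Algebra k R] (γ : GL (Fin n) k) (h : GS r n → R) :
    evs h (glAct γ (X : GS r n → MvPolynomial (GS r n) k)) = glAct γ h := by
  funext ⟨j, b, s⟩
  cases b <;> simp [evs, glAct, mkF, Matrix.mul_apply, mM, mI]

lemma nxM_glAct {Ω : Type u} [Field Ω] [Algebra k Ω] {uni : Bool} {q : ℕ} [PQ k q]
    (γ : fixG k n uni q) (h : GS r n → Ω) (j : Fin (r + 1)) :
    nxM uni q (glAct γ.1 h) j = γ.1.1.map (algebraMap k Ω) * nxM uni q h j := by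
  have := PQ.ext k q Ω
  have hγ := mem_fixG.1 γ.2
  rw [frH_apply] at hγ
  have e : ∀ g : Matrix (Fin n) (Fin n) k, (g.map (algebraMap k Ω)).map (frobHom Ω q) =
      (g.map (· ^ q)).map (algebraMap k Ω) := fun g => by
    ext a b; simp
  refine Fin.lastCases ?_ (fun j => ?_) j
  · simp only [nxM, Fin.lastCases_last, glAct, mM_mkF, mI_mkF]
    cases uni
    · change (_ * _ : Matrix (Fin n) (Fin n) Ω).map (frobHom Ω q) = _
      rw [Matrix.map_mul, e]
      exact congrArg (fun g : Matrix (Fin n) (Fin n) k => g.map (algebraMap k Ω) * _) hγ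
    · change ((_ * _ : Matrix (Fin n) (Fin n) Ω).map (frobHom Ω q))ᵀ.submatrix id Fin.rev = _
      have h3 : ((γ.1⁻¹.1).map (· ^ q))ᵀ = γ.1.1 := by
        have h4 : (γ.1.1.map (frobHom k q))⁻¹ᵀ = γ.1.1 := hγ
        rw [map_inv_of_isUnit _ γ.1.isUnit] at h4
        rw [coe_units_inv]
        exact h4
      rw [Matrix.map_mul, e, transpose_mul, ← transpose_map, h3]
      rfl
  · simp only [nxM, Fin.lastCases_castSucc, glAct, mM_mkF]

lemma ddM_glAct {Ω : Type u} [Field Ω] [Algebra k Ω] {uni : Bool} {q : ℕ} [PQ k q]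
    (γ : fixG k n uni q) (h : GS r n → Ω) (j : Fin (r + 1)) :
    ddM uni q (glAct γ.1 h) j = ddM uni q h j := by
  rw [ddM, nxM_glAct, glAct, mI_mkF, mul_assoc, ← mul_assoc (Matrix.map _ _), ← Matrix.map_mul,
    Units.inv_mul, Matrix.map_one _ (map_zero _) (map_one _), one_mul, ddM]

/-- Frames with transition matrices vanishing at the positions `Z`. -/
noncomputable def glFr (k : Type u) [Field k] (uni : Bool) (q : ℕ) [PQ k q]
    (Z : Fin (r + 1) → Fin n → Fin n → Prop) : FrD k (fixG k n uni q) where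
  σ := GS r n
  E := glE k uni q Z
  act γ := glAct γ.1 X
  stab γ Ω _ _ h H := by
    rw [evs_glAct, glE_iff] at *
    refine ⟨fun j => ?_, fun j a b hz => by rw [ddM_glAct, H.2 j a b hz]⟩
    rw [glAct, mM_mkF, mI_mkF, mul_assoc, ← mul_assoc (mM h j), H.1, one_mul, ← Matrix.map_mul,
      Units.mul_inv, Matrix.map_one _ (map_zero _) (map_one _)]

lemma glFr_iff {Ω : Type u} [Field Ω] [Algebra k Ω] {uni : Bool} {q : ℕ} [PQ k q]
    {Z : Fin (r + 1) → Fin n → Fin n → Prop} {h : GS r n → Ω} :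
    (glFr k uni q Z).Fr h ↔
      (∀ j, mM h j * mI h j = 1) ∧ ∀ j a b, Z j a b → ddM uni q h j a b = 0 :=
  glE_iff uni q Z h

/-- The block structure of the `j`-th transition. -/
def blJ (n : ℕ) (w : Fin r → ℕ) (j : Fin (r + 1)) : Fin n → ℕ :=
  Fin.lastCases (motive := fun _ => Fin n → ℕ) Fin.val (fun j => blk n (w j)) j

/-- The relative position at the next step of the cyclic chain. -/
def nxY (uni : Bool) (y : Fin (r + 1) → Equiv.Perm (Fin n)) (j : Fin (r + 1)) :
    Equiv.Perm (Fin n) :=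
  Fin.lastCases (motive := fun _ => Equiv.Perm (Fin n))
    (if uni then Fin.revPerm * y 0 * Fin.revPerm else y 0) (fun j => y j.succ) j

/-- The positions at which the transition matrices vanish on the stratum `y`. -/
def zY (uni : Bool) (w : Fin r → ℕ) (y : Fin (r + 1) → Equiv.Perm (Fin n)) (j : Fin (r + 1))
    (a b : Fin n) : Prop :=
  blJ n w j b < blJ n w j a ∨
    blJ n w j ((y j).symm a).rev < blJ n w j ((nxY uni y j).symm b).rev

/-- The frame of the second flag. -/
def secM (y : Fin (r + 1) → Equiv.Perm (Fin n)) (h : GS r n → R) (j : Fin (r + 1)) :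
    Matrix (Fin n) (Fin n) R :=
  (mI h j)ᵀ.submatrix id fun b => y j b.rev

end frames

/-- A cyclic chain of flags. -/
def IsChain' (uni : Bool) (q : ℕ) {r : ℕ} (w : Fin r → ℕ)
    (g : Fin (r + 1) → Matrix (Fin n) (Fin n) k) : Prop :=
  (∀ j, IsUnit (g j)) ∧ (∀ j : Fin r, Rl (blk n (w j)) (g j.castSucc) (g j.succ)) ∧
    Rl Fin.val (g (Fin.last r)) (frobFlag uni q (g 0))

/-- The Plücker coordinates of a tuple of flags. -/
def plV {R : Type u} [CommRing R] {r : ℕ} {N : Fin n → ℕ}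
    (c : ∀ a : Fin n, Fin (N a + 1) ≃ (Fin (a + 1) → Fin n))
    (g : Fin (r + 1) → Matrix (Fin n) (Fin n) R) :
    (Vars fun i : Fin (r + 1) × Fin n => N i.2) → R :=
  fun s => pl (cols (g s.1.1) s.1.2) (c s.1.2 s.2)

/-- The Plücker coordinates of the pair of chains given by a frame on the stratum `y`. -/
def ptY {R : Type u} [CommRing R] {r : ℕ} {N : Fin n → ℕ}
    (c : ∀ a : Fin n, Fin (N a + 1) ≃ (Fin (a + 1) → Fin n))
    (y : Fin (r + 1) → Equiv.Perm (Fin n)) (h : GS r n → R) :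
    Vars (Sum.elim (fun i : Fin (r + 1) × Fin n => N i.2) fun i : Fin (r + 1) × Fin n => N i.2) →
      R :=
  pvJoin (plV c (mM h)) (plV c (secM y h))

/-- The action on the Plücker coordinates. -/
noncomputable def plR (k : Type u) [Field k] {N : Fin n → ℕ}
    (c : ∀ a : Fin n, Fin (N a + 1) ≃ (Fin (a + 1) → Fin n)) (a : Fin n) :
    Matrix (Fin n) (Fin n) k →* Matrix (Fin (N a + 1)) (Fin (N a + 1)) k :=
  (Matrix.reindexAlgEquiv k k (c a).symm).toMonoidHom.comp (tpH k n (a + 1))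

lemma plR_apply {N : Fin n → ℕ} (c : ∀ a : Fin n, Fin (N a + 1) ≃ (Fin (a + 1) → Fin n))
    (a : Fin n) (g : Matrix (Fin n) (Fin n) k) (s t : Fin (N a + 1)) :
    plR k c a g s t = tpH k n (a + 1) g (c a s) (c a t) := rfl

end Pool.Agent.MP_0c8446_ag

end

section

namespace Pool.Agent.MP_0c8446_ag

open MvPolynomial Set

universe u v w

variable {k : Type u} [Field k] {n c : ℕ} {R : Type u} [CommRing R]

lemma PlB_eq (x : Fin c → Fin n → R) (α : Fin c → Fin n) :
    pl x α = ∑ σ : Equiv.Perm (Fin c), ((Equiv.Perm.sign σ : ℤ) : R) * ∏ l, x (σ l) (α l) := by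
  rw [pl, ← Matrix.det_transpose, Matrix.det_apply']
  rfl

lemma PlB_lap (u : Fin c → Fin n → R) (x : Fin n → R) (α : Fin (c + 1) → Fin n) :
    pl (Fin.snoc u x : Fin (c + 1) → Fin n → R) α =
      ∑ l : Fin (c + 1), (-1) ^ (l + c : ℕ) * x (α l) * pl u fun i => α (l.succAbove i) := by
  rw [pl, Matrix.det_succ_column _ (Fin.last c)]
  refine Finset.sum_congr rfl fun l _ => ?_
  have e : (Matrix.of fun l m => (Fin.snoc u x : Fin (c + 1) → Fin n → R) m (α l)).submatrix
      l.succAbove (Fin.last c).succAbove = Matrix.of fun i m => u m (α (l.succAbove i)) := by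
    ext i m
    simp
  rw [e, Matrix.of_apply, Fin.snoc_last, Fin.val_last, pl]

theorem pl_map {R' F : Type*} [CommRing R'] [FunLike F R R'] [RingHomClass F R R'] (φ : F)
    (x : Fin c → Fin n → R) (α : Fin c → Fin n) :
    φ (pl x α) = pl (fun m i => φ (x m i)) α := by
  simp only [PlB_eq, map_sum, map_mul, map_prod, map_intCast]

theorem aeval_pl {σ : Type} [Algebra k R] (h : σ → R) (x : Fin c → Fin n → MvPolynomial σ k)
    (α : Fin c → Fin n) : aeval h (pl x α) = pl (fun m => evs h (x m)) α :=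
  pl_map (aeval (R := k) h) x α

/-- The Plücker coordinates are equivariant. -/
theorem pl_smul [Algebra k R] (g : Matrix (Fin n) (Fin n) k) (x : Fin c → Fin n → R)
    (α : Fin c → Fin n) :
    pl (fun m i => ∑ j, g i j • x m j) α = ∑ β, tpH k n c g α β • pl x β := by
  simp only [PlB_eq, Finset.prod_univ_sum, Fintype.piFinset_univ, Finset.prod_smul,
    Finset.mul_sum, Finset.smul_sum, tpH_apply, mul_smul_comm]
  exact Finset.sum_comm

theorem pl_mul (x : Fin c → Fin n → R) (u : Matrix (Fin c) (Fin c) R) (α : Fin c → Fin n) :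
    pl (fun m i => ∑ l, x l i * u l m) α = pl x α * u.det := by
  rw [pl, pl, ← Matrix.det_mul]
  rfl

theorem pl_snoc_add (u : Fin c → Fin n → R) (x y : Fin n → R) (α : Fin (c + 1) → Fin n) :
    pl (Fin.snoc u (x + y) : Fin (c + 1) → Fin n → R) α =
      pl (Fin.snoc u x : Fin (c + 1) → Fin n → R) α +
        pl (Fin.snoc u y : Fin (c + 1) → Fin n → R) α := by
  simp only [PlB_lap, Pi.add_apply, mul_add, add_mul, Finset.sum_add_distrib]

theorem pl_snoc_smul (u : Fin c → Fin n → R) (t : R) (x : Fin n → R) (α : Fin (c + 1) → Fin n) :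
    pl (Fin.snoc u (t • x) : Fin (c + 1) → Fin n → R) α =
      t * pl (Fin.snoc u x : Fin (c + 1) → Fin n → R) α := by
  simp only [PlB_lap, Pi.smul_apply, smul_eq_mul, Finset.mul_sum]
  exact Finset.sum_congr rfl fun l _ => by ring

theorem pl_snoc_of_mem {u : Fin c → Fin n → R} {x : Fin n → R}
    (h : x ∈ Submodule.span R (range u)) (α : Fin (c + 1) → Fin n) :
    pl (Fin.snoc u x : Fin (c + 1) → Fin n → R) α = 0 := by
  induction h using Submodule.span_induction with
  | mem x hx =>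
    obtain ⟨m, rfl⟩ := hx
    exact Matrix.det_zero_of_column_eq (Fin.castSucc_ne_last m) fun l => by simp
  | zero => simp [PlB_lap]
  | add x y _ _ h1 h2 => rw [pl_snoc_add, h1, h2, add_zero]
  | smul t x _ h1 => rw [pl_snoc_smul, h1, mul_zero]

theorem pl_one (x : Fin 1 → Fin n → R) (α : Fin 1 → Fin n) : pl x α = x 0 (α 0) :=
  Matrix.det_fin_one _

theorem pl_ne_zero_iff {x : Fin c → Fin n → k} : (∃ α, pl x α ≠ 0) ↔ LinearIndependent k x := by
  constructor
  · rintro ⟨α, h⟩
    exact LinearIndependent.of_comp (LinearMap.funLeft k k α)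
      (Matrix.linearIndependent_cols_of_det_ne_zero h)
  · intro h
    have h1 : Submodule.span k (range (Matrix.of x).col) = ⊤ := by
      apply Submodule.eq_top_of_finrank_eq
      rw [← Matrix.rank_eq_finrank_span_cols, LinearIndependent.rank_matrix (M := Matrix.of x) h,
        Module.finrank_fintype_fun_eq_card]
    obtain ⟨κ, a, -, h2, h3⟩ := exists_linearIndependent' k (Matrix.of x).col
    let e := (Pi.basisFun k (Fin c)).indexEquiv (Module.Basis.mk h3 (h2.trans h1).ge)
    refine ⟨fun l => a (e l), ?_⟩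
    have h4 : IsUnit (Matrix.of fun l m => x m (a (e l))) :=
      Matrix.linearIndependent_rows_iff_isUnit.1 (h3.comp e e.injective)
    exact ((Matrix.isUnit_iff_isUnit_det _).1 h4).ne_zero

theorem mem_span_of_pl {u : Fin c → Fin n → k} {x : Fin n → k} (hu : LinearIndependent k u)
    (h : ∀ α, pl (Fin.snoc u x : Fin (c + 1) → Fin n → k) α = 0) :
    x ∈ Submodule.span k (range u) := by
  by_contra hx
  obtain ⟨α, h1⟩ := pl_ne_zero_iff.2 (linearIndependent_finSnoc.2 ⟨hu, hx⟩)
  exact h1 (h α)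

/-- Proportional Plücker coordinates define the same subspace. -/
theorem span_eq_of_pl {x x' : Fin c → Fin n → k} (hx : LinearIndependent k x) {t : k} (ht : t ≠ 0)
    (h : ∀ α, pl x' α = t * pl x α) :
    Submodule.span k (range x') = Submodule.span k (range x) := by
  have hx' : LinearIndependent k x' := by
    obtain ⟨α, h1⟩ := pl_ne_zero_iff.2 hx
    exact pl_ne_zero_iff.1 ⟨α, by rw [h]; exact mul_ne_zero ht h1⟩
  have key : ∀ y α, pl (Fin.snoc x' y : Fin (c + 1) → Fin n → k) α =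
      t * pl (Fin.snoc x y : Fin (c + 1) → Fin n → k) α := fun y α => by
    simp only [PlB_lap, h, Finset.mul_sum]
    exact Finset.sum_congr rfl fun l _ => by ring
  ext y
  refine ⟨fun hy => mem_span_of_pl hx fun α => ?_, fun hy => mem_span_of_pl hx' fun α => ?_⟩
  · exact (mul_eq_zero.1 ((key y α).symm.trans (pl_snoc_of_mem hy α))).resolve_left ht
  · rw [key, pl_snoc_of_mem hy, mul_zero]

theorem exists_pl_of_span {x x' : Fin c → Fin n → k} (hx : LinearIndependent k x')
    (h : ∀ m, x' m ∈ Submodule.span k (range x)) :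
    ∃ t : k, t ≠ 0 ∧ ∀ α, pl x' α = t * pl x α := by
  choose u hu using fun m => (Submodule.mem_span_range_iff_exists_fun k).1 (h m)
  have e : x' = fun m i => ∑ l, x l i * (Matrix.of fun l m => u m l) l m := by
    funext m i
    rw [← hu m]
    simp [mul_comm]
  have key : ∀ α, pl x' α = (Matrix.of fun l m => u m l).det * pl x α := fun α => by
    rw [mul_comm, ← pl_mul, ← e]
  obtain ⟨α, h1⟩ := pl_ne_zero_iff.2 hx
  exact ⟨_, fun h0 => h1 (by rw [key, h0, zero_mul]), key⟩

theorem FrD.Equi.wedge {Γ : Type u} [Group Γ] {D : FrD k Γ} {ρ : Γ →* Matrix (Fin n) (Fin n) k}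
    {x : Fin c → Fin n → MvPolynomial D.σ k} (h : ∀ m, D.Equi ρ (x m)) :
    D.Equi ((tpH k n c).comp ρ) (pl x) := by
  intro γ Ω _ _ hh hF α
  have e : (fun m => evs (evs hh (D.act γ)) (x m)) =
      fun m i => ∑ j, ρ γ i j • evs hh (x m) j := funext fun m => funext fun i => h m γ Ω hh hF i
  simp only [aeval_pl]
  rw [e, pl_smul]
  rfl

theorem cols_mul [Algebra k R] (γ : Matrix (Fin n) (Fin n) k) (g : Matrix (Fin n) (Fin n) R)
    (a : Fin n) :
    cols (γ.map (algebraMap k R) * g) a = fun m i => ∑ j, γ i j • cols g a m j := by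
  funext m i
  simp [cols, Matrix.mul_apply, Algebra.smul_def]

variable {r : ℕ} {N : Fin n → ℕ} (cc : ∀ a : Fin n, Fin (N a + 1) ≃ (Fin (a + 1) → Fin n))

theorem plV_map {R' F : Type*} [CommRing R'] [FunLike F R R'] [RingHomClass F R R'] (φ : F)
    (g : Fin (r + 1) → Matrix (Fin n) (Fin n) R) :
    (fun s => φ (plV cc g s)) = plV cc fun j => (g j).map φ :=
  funext fun _ => pl_map φ _ _

theorem plV_mul [Algebra k R] (γ : Matrix (Fin n) (Fin n) k)
    (g : Fin (r + 1) → Matrix (Fin n) (Fin n) R) :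
    plV cc (fun j => γ.map (algebraMap k R) * g j) =
      blin (fun i : Fin (r + 1) × Fin n => plR k cc i.2 γ) (plV cc g) := by
  funext s
  rw [plV, cols_mul, pl_smul]
  exact (Equiv.sum_comp (cc s.1.2)
    fun β => tpH k n _ γ (cc s.1.2 s.2) β • pl (cols (g s.1.1) s.1.2) β).symm

theorem evs_plV_mM [Algebra k R] (h : GS r n → R) :
    evs h (plV cc (mM (X : GS r n → MvPolynomial (GS r n) k))) = plV cc (mM h) :=
  (plV_map cc (aeval (R := k) h) _).trans (congrArg (plV cc) (funext fun j => by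
    ext a b
    simp [mM]))

theorem evs_ptY [Algebra k R] (y : Fin (r + 1) → Equiv.Perm (Fin n)) (h : GS r n → R) :
    evs h (ptY cc y (X : GS r n → MvPolynomial (GS r n) k)) = ptY cc y h := by
  have e : evs h (plV cc (secM y (X : GS r n → MvPolynomial (GS r n) k))) = plV cc (secM y h) :=
    (plV_map cc (aeval (R := k) h) _).trans (congrArg (plV cc) (funext fun j => by
      ext a b
      simp [secM, mI]))
  funext ⟨i, s⟩
  cases i with
  | inl i => exact congrFun (evs_plV_mM cc h) ⟨i, s⟩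
  | inr i => exact congrFun e ⟨i, s⟩

end Pool.Agent.MP_0c8446_ag

end

section

namespace Pool.Agent.MP_0c8446_ag

open MvPolynomial Set Matrix

universe u v w

variable {k : Type u} [Field k] {n : ℕ} {b : Fin n → ℕ} {g g' g'' : Matrix (Fin n) (Fin n) k}

theorem RlA0_det (hg : IsUnit g) : IsUnit g.det := (Matrix.isUnit_iff_isUnit_det g).1 hg

theorem RlA0_inv (hg : IsUnit g) : IsUnit g⁻¹ := Matrix.isUnit_nonsing_inv_iff.2 hg

theorem RlA0_tri {m : Matrix (Fin n) (Fin n) k} (hm : IsUnit m) (h : m.BlockTriangular b) :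
    m⁻¹.BlockTriangular b := by
  let := hm.invertible
  exact blockTriangular_inv_of_blockTriangular h

theorem RlA0_map {Ω : Type u} [Field Ω] (φ : k →+* Ω) (hg : IsUnit g) : IsUnit (g.map φ) :=
  hg.map φ.mapMatrix

theorem RlA0_invD (g : Matrix (Fin n) (Fin n) k) : (dualM g)⁻¹ = g⁻¹⁻¹ᵀ.submatrix Fin.rev id := by
  rw [transpose_nonsing_inv]
  exact inv_submatrix_equiv g⁻¹ᵀ (Equiv.refl _) Fin.revPerm

theorem RlA0_frob {uni : Bool} {q : ℕ} [PQ k q] (g : Matrix (Fin n) (Fin n) k) :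
    frobFlag uni q g = if uni then dualM (g.map (frobHom k q)) else g.map (frobHom k q) := by
  cases uni <;> rfl

theorem Rl.refl (b : Fin n → ℕ) (hg : IsUnit g) : Rl b g g := by
  rw [Rl, nonsing_inv_mul _ (RlA0_det hg)]
  exact blockTriangular_one

theorem Rl.symm (h : Rl b g g') (hg : IsUnit g) (hg' : IsUnit g') : Rl b g' g := by
  have h1 := RlA0_tri ((RlA0_inv hg).mul hg') h
  rwa [Matrix.mul_inv_rev, nonsing_inv_nonsing_inv _ (RlA0_det hg)] at h1

theorem Rl.trans (h : Rl b g g') (h' : Rl b g' g'') (hg' : IsUnit g') : Rl b g g'' := by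
  have h1 := BlockTriangular.mul h h'
  rwa [Matrix.mul_assoc, mul_nonsing_inv_cancel_left _ _ (RlA0_det hg')] at h1

theorem Rl.toBlk (h : Rl Fin.val g g') (s : ℕ) : Rl (blk n s) g g' := by
  refine fun i j hij => h (?_ : (j : ℕ) < i)
  simp only [blk] at hij
  split_ifs at hij <;> omega

theorem rl_mul_left {γ : Matrix (Fin n) (Fin n) k} (hγ : IsUnit γ) :
    Rl b (γ * g) (γ * g') ↔ Rl b g g' := by
  rw [Rl, Rl, Matrix.mul_inv_rev, Matrix.mul_assoc,
    nonsing_inv_mul_cancel_left _ _ (RlA0_det hγ)]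

theorem rl_mul_right (hg : IsUnit g) {m : Matrix (Fin n) (Fin n) k} :
    Rl b g (g * m) ↔ m.BlockTriangular b := by
  rw [Rl, nonsing_inv_mul_cancel_left _ _ (RlA0_det hg)]

theorem Rl.map {Ω : Type u} [Field Ω] (φ : k →+* Ω) (h : Rl b g g') (hg : IsUnit g) :
    Rl b (g.map φ) (g'.map φ) := by
  rw [Rl, map_inv_of_isUnit φ hg, ← Matrix.map_mul]
  intro i j hij
  rw [map_apply, h hij, map_zero]

theorem isUnit_submatrix (hg : IsUnit g) (y : Equiv.Perm (Fin n)) :
    IsUnit (g.submatrix id y) :=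
  (isUnit_submatrix_equiv (Equiv.refl _) y).2 hg

theorem isUnit_dualM (hg : IsUnit g) : IsUnit (dualM g) :=
  isUnit_submatrix (y := Fin.revPerm) ((isUnit_transpose _).2 (RlA0_inv hg))

theorem dualM_dualM (hg : IsUnit g) : dualM (dualM g) = g := by
  rw [dualM, RlA0_invD, nonsing_inv_nonsing_inv _ (RlA0_det hg)]
  ext i j
  simp

theorem dualM_map {Ω : Type u} [Field Ω] (φ : k →+* Ω) (hg : IsUnit g) :
    (dualM g).map φ = dualM (g.map φ) := by
  rw [dualM, dualM, map_inv_of_isUnit φ hg]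
  rfl

theorem dualM_mul (γ g : Matrix (Fin n) (Fin n) k) : dualM (γ * g) = γ⁻¹ᵀ * dualM g := by
  rw [dualM, dualM, Matrix.mul_inv_rev, transpose_mul]
  rfl

theorem dualM_submatrix (hg : IsUnit g) (y : Equiv.Perm (Fin n)) :
    dualM (g.submatrix id y) = g⁻¹ᵀ.submatrix id fun b => y b.rev := by
  have h : (g.submatrix id y)⁻¹ = g⁻¹.submatrix y id := inv_submatrix_equiv g (Equiv.refl _) y
  rw [dualM, h]
  rfl

theorem Rl.dual (h : Rl Fin.val g g') (hg : IsUnit g) (hg' : IsUnit g') :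
    Rl Fin.val (dualM g) (dualM g') := by
  have h1 := h.symm hg hg'
  have h2 : (dualM g)⁻¹ * dualM g' = (g'⁻¹ * g)ᵀ.submatrix Fin.rev Fin.rev := by
    rw [RlA0_invD, nonsing_inv_nonsing_inv _ (RlA0_det hg), transpose_mul]
    rfl
  rw [Rl, h2]
  intro i j hij
  refine h1 (?_ : (i.rev : ℕ) < j.rev)
  have := i.2
  simp only [Fin.val_rev]
  omega

variable {uni : Bool} {q : ℕ}

theorem isUnit_frH [PQ k q] (hg : IsUnit g) : IsUnit (frH k n uni q g) := hg.map _

theorem frobFlag_eq [PQ k q] (g : Matrix (Fin n) (Fin n) k) :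
    frobFlag uni q g = (frH k n uni q g).submatrix id
      ⇑(if uni then (Fin.revPerm : Equiv.Perm (Fin n)) else 1) := by
  cases uni <;> rfl

theorem isUnit_frobFlag [PQ k q] (hg : IsUnit g) : IsUnit (frobFlag uni q g) := by
  rw [frobFlag_eq]
  exact isUnit_submatrix (isUnit_frH hg) _

theorem frobFlag_mul [PQ k q] (γ g : Matrix (Fin n) (Fin n) k) :
    frobFlag uni q (γ * g) = frH k n uni q γ * frobFlag uni q g := by
  rw [frobFlag_eq, frobFlag_eq, map_mul]
  rfl

theorem Rl.frob [PQ k q] (h : Rl Fin.val g g') (hg : IsUnit g) (hg' : IsUnit g') :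
    Rl Fin.val (frobFlag uni q g) (frobFlag uni q g') := by
  rw [RlA0_frob, RlA0_frob]
  cases uni
  · exact h.map _ hg
  · exact (h.map _ hg).dual (RlA0_map _ hg) (RlA0_map _ hg')

end Pool.Agent.MP_0c8446_ag

end

section

namespace Pool.Agent.MP_0c8446_ag

open MvPolynomial Set Matrix

universe u v w

variable {k : Type u} [Field k] {n : ℕ} {b : Fin n → ℕ} {g g' g'' : Matrix (Fin n) (Fin n) k}

variable {uni : Bool} {q : ℕ}

lemma RlA_inv_mul (hg : IsUnit g) : g⁻¹ * g = 1 :=
  Matrix.nonsing_inv_mul _ ((Matrix.isUnit_iff_isUnit_det g).1 hg)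

lemma RlA_mul_inv (hg : IsUnit g) : g * g⁻¹ = 1 :=
  Matrix.mul_nonsing_inv _ ((Matrix.isUnit_iff_isUnit_det g).1 hg)

lemma RlA_entry (g g' : Matrix (Fin n) (Fin n) k) (a l : Fin n) :
    (g⁻¹ *ᵥ fun i => g' i l) a = (g⁻¹ * g') a l := rfl

theorem flg_mono (g : Matrix (Fin n) (Fin n) k) {a a' : ℕ} (h : a ≤ a') : flg g a ≤ flg g a' :=
  Submodule.span_mono (image_mono fun _ hb => lt_of_lt_of_le hb h)

theorem col_mem_flg (g : Matrix (Fin n) (Fin n) k) {a : ℕ} {l : Fin n} (h : (l : ℕ) < a) :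
    (fun i => g i l) ∈ flg g a := Submodule.subset_span ⟨l, h, rfl⟩

theorem mem_flg_iff (hg : IsUnit g) {a : ℕ} {x : Fin n → k} :
    x ∈ flg g a ↔ ∀ l : Fin n, a ≤ l → (g⁻¹ *ᵥ x) l = 0 := by
  constructor
  · intro hx l hl
    induction hx using Submodule.span_induction with
    | mem x hx =>
      obtain ⟨m, hm, rfl⟩ := hx
      have hm' : (m : ℕ) < a := hm
      rw [RlA_entry, RlA_inv_mul hg, Matrix.one_apply_ne]
      rintro rfl
      omega
    | zero => simp
    | add x y _ _ hx hy => rw [Matrix.mulVec_add, Pi.add_apply, hx, hy, add_zero]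
    | smul t x _ hx => rw [Matrix.mulVec_smul, Pi.smul_apply, hx, smul_zero]
  · intro h
    have e : x = ∑ l, (g⁻¹ *ᵥ x) l • fun i => g i l := by
      have e1 : x = g *ᵥ (g⁻¹ *ᵥ x) := by
        rw [Matrix.mulVec_mulVec, RlA_mul_inv hg, Matrix.one_mulVec]
      generalize g⁻¹ *ᵥ x = y at e1
      rw [e1]
      funext i
      simp [Matrix.mulVec, dotProduct, Finset.sum_apply, mul_comm]
    rw [e]
    refine Submodule.sum_mem _ fun l _ => ?_
    by_cases hl : (l : ℕ) < a
    · exact Submodule.smul_mem _ _ (col_mem_flg g hl)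
    · rw [h l (not_lt.1 hl), zero_smul]
      exact Submodule.zero_mem _

theorem flg_succ (g : Matrix (Fin n) (Fin n) k) (a : Fin n) :
    flg g (a + 1) = Submodule.span k (range (cols g a)) := by
  unfold flg
  congr 1
  ext x
  constructor
  · rintro ⟨l, hl, rfl⟩
    exact ⟨⟨l, hl⟩, rfl⟩
  · rintro ⟨m, rfl⟩
    exact ⟨Fin.castLE a.2 m, m.2, rfl⟩

theorem linearIndependent_cols (hg : IsUnit g) (a : Fin n) : LinearIndependent k (cols g a) :=
  (Matrix.linearIndependent_cols_iff_isUnit.2 hg).comp (Fin.castLE a.2) (Fin.castLE_injective _)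

theorem rl_iff_col (hg : IsUnit g) :
    Rl Fin.val g g' ↔ ∀ l : Fin n, (fun i => g' i l) ∈ flg g (l + 1) := by
  constructor
  · intro h l
    rw [mem_flg_iff hg]
    intro a ha
    rw [RlA_entry]
    exact h ha
  · intro h a l hl
    rw [← RlA_entry]
    exact (mem_flg_iff hg).1 (h l) a hl

lemma RlA_flg_le (h : Rl Fin.val g g') (hg : IsUnit g) (a : ℕ) : flg g' a ≤ flg g a := by
  refine Submodule.span_le.2 ?_
  rintro _ ⟨l, hl, rfl⟩
  exact flg_mono g (Nat.succ_le_of_lt hl) ((rl_iff_col hg).1 h l)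

theorem Rl.flg_eq (h : Rl Fin.val g g') (hg : IsUnit g) (hg' : IsUnit g') (a : ℕ) :
    flg g' a = flg g a :=
  le_antisymm (RlA_flg_le h hg a) (RlA_flg_le (h.symm hg hg') hg' a)

theorem isUnit_of_col (hg : IsUnit g)
    (h : ∀ l : Fin n, (fun i => g' i l) ∈ flg g (l + 1) ∧ (fun i => g' i l) ∉ flg g l) :
    IsUnit g' := by
  have h1 : Rl Fin.val g g' := (rl_iff_col hg).2 fun l => (h l).1
  have h2 : (g⁻¹ * g').BlockTriangular id := fun _ _ hl => h1 hl
  have h3 : ∀ l, (g⁻¹ * g') l l ≠ 0 := by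
    intro l hl
    refine (h l).2 ((mem_flg_iff hg).2 fun a ha => ?_)
    rw [RlA_entry]
    rcases eq_or_lt_of_le ha with e | e
    · obtain rfl : l = a := Fin.ext e
      exact hl
    · exact h1 e
  have h4 : IsUnit (g⁻¹ * g') := by
    rw [Matrix.isUnit_iff_isUnit_det, Matrix.det_of_isUpperTriangular h2, isUnit_iff_ne_zero]
    exact Finset.prod_ne_zero_iff.2 fun l _ => h3 l
  have h5 : g' = g * (g⁻¹ * g') := by rw [← Matrix.mul_assoc, RlA_mul_inv hg, Matrix.one_mul]
  rw [h5]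
  exact hg.mul h4

theorem rl_iff_pl (hg : IsUnit g) (hg' : IsUnit g') : Rl Fin.val g g' ↔
    ∀ a : Fin n, ∃ t : k, t ≠ 0 ∧ ∀ α, pl (cols g' a) α = t * pl (cols g a) α := by
  constructor
  · intro h a
    refine exists_pl_of_span (linearIndependent_cols hg' a) fun m => ?_
    rw [← flg_succ, ← h.flg_eq hg hg', flg_succ]
    exact Submodule.subset_span ⟨m, rfl⟩
  · intro h
    refine (rl_iff_col hg).2 fun l => ?_
    obtain ⟨t, ht, e⟩ := h l
    rw [flg_succ, ← span_eq_of_pl (linearIndependent_cols hg l) ht e, ← flg_succ]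
    exact col_mem_flg g' (Nat.lt_succ_self _)

variable {r : ℕ} {N : Fin n → ℕ} (c : ∀ a : Fin n, Fin (N a + 1) ≃ (Fin (a + 1) → Fin n))
  {G G' : Fin (r + 1) → Matrix (Fin n) (Fin n) k} {w : Fin r → ℕ}

theorem nzb_plV (hG : ∀ j, IsUnit (G j)) : NZb (plV c G) := by
  rintro ⟨j, a⟩
  obtain ⟨α, hα⟩ := pl_ne_zero_iff.2 (linearIndependent_cols (hG j) a)
  refine ⟨(c a).symm α, ?_⟩
  change pl (cols (G j) a) (c a ((c a).symm α)) ≠ 0
  rwa [Equiv.apply_symm_apply]

theorem parOn_plV (hG : ∀ j, IsUnit (G j)) (hG' : ∀ j, IsUnit (G' j)) :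
    ParOn univ (plV c G) (plV c G') ↔ ∀ j, Rl Fin.val (G j) (G' j) := by
  constructor
  · intro h j
    refine (rl_iff_pl (hG j) (hG' j)).2 fun a => ?_
    obtain ⟨t, ht, e⟩ := h (j, a) (mem_univ _)
    refine ⟨t, ht, fun α => ?_⟩
    have e' : pl (cols (G' j) a) (c a ((c a).symm α)) =
        t * pl (cols (G j) a) (c a ((c a).symm α)) := e ((c a).symm α)
    rwa [Equiv.apply_symm_apply] at e'
  · rintro h ⟨j, a⟩ -
    obtain ⟨t, ht, e⟩ := (rl_iff_pl (hG j) (hG' j)).1 (h j) a
    exact ⟨t, ht, fun s => e (c a s)⟩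

theorem IsChain'.congr [PQ k q] (h : IsChain' uni q w G) (hG' : ∀ j, IsUnit (G' j))
    (e : ∀ j, Rl Fin.val (G j) (G' j)) : IsChain' uni q w G' := by
  obtain ⟨h1, h2, h3⟩ := h
  refine ⟨hG', fun j => ?_, ?_⟩
  · exact ((((e _).symm (h1 _) (hG' _)).toBlk _).trans (h2 j) (h1 _)).trans ((e _).toBlk _) (h1 _)
  · exact (((e _).symm (h1 _) (hG' _)).trans h3 (h1 _)).trans ((e 0).frob (h1 0) (hG' 0))
      (isUnit_frobFlag (h1 0))

theorem IsChain'.mul [PQ k q] (h : IsChain' uni q w G) {γ : Matrix (Fin n) (Fin n) k}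
    (hγ : IsUnit γ) (e : frH k n uni q γ = γ) : IsChain' uni q w fun j => γ * G j := by
  obtain ⟨h1, h2, h3⟩ := h
  refine ⟨fun j => hγ.mul (h1 j), fun j => (rl_mul_left hγ).2 (h2 j), ?_⟩
  change Rl Fin.val (γ * G (Fin.last r)) (frobFlag uni q (γ * G 0))
  rw [frobFlag_mul, e]
  exact (rl_mul_left hγ).2 h3

theorem mem_dl {x : MP k fun i : Fin (r + 1) × Fin n => N i.2} :
    x ∈ dl k uni q w c ↔ ∃ G, IsChain' uni q w G ∧ IsRep (plV c G) x := by
  simp only [IsChain', and_assoc]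
  rfl

end Pool.Agent.MP_0c8446_ag

end

section

namespace Pool.Agent.MP_0c8446_ag

open MvPolynomial Set Matrix

universe u v w

variable {k : Type u} [Field k] {n : ℕ} {g g' h : Matrix (Fin n) (Fin n) k}

theorem Bru_col_notMem (hg : IsUnit g) (l : Fin n) : (fun i => g i l) ∉ flg g l := by
  intro hx
  have h0 := (mem_flg_iff hg).1 hx l le_rfl
  have e : (g⁻¹ *ᵥ fun i => g i l) l = (g⁻¹ * g) l l := rfl
  rw [e, Matrix.nonsing_inv_mul _ ((Matrix.isUnit_iff_isUnit_det g).1 hg), one_apply_eq] at h0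
  exact one_ne_zero h0

theorem Bru_exists (hg : IsUnit g) (hg' : IsUnit g') (l : Fin n) :
    ∃ (b : Fin n) (x : Fin n → k), x ∈ flg g (l + 1) ∧ x ∉ flg g l ∧ x ∈ flg g' (b + 1) ∧
      ∀ x' ∈ flg g (l + 1), x' ∈ flg g' b → x' ∈ flg g l := by
  classical
  have hex : ∃ m : ℕ, ∃ x, x ∈ flg g (l + 1) ∧ x ∉ flg g l ∧ x ∈ flg g' m :=
    ⟨n, fun i => g i l, col_mem_flg g (Nat.lt_succ_self _), Bru_col_notMem hg l,
      (mem_flg_iff hg').2 fun j hj => absurd j.2 (not_lt.2 hj)⟩
  have hle : Nat.find hex ≤ n := Nat.find_min' hex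
    ⟨fun i => g i l, col_mem_flg g (Nat.lt_succ_self _), Bru_col_notMem hg l,
      (mem_flg_iff hg').2 fun j hj => absurd j.2 (not_lt.2 hj)⟩
  obtain ⟨x, hx1, hx2, hx3⟩ := Nat.find_spec hex
  have h0 : Nat.find hex ≠ 0 := by
    intro e
    rw [e] at hx3
    apply hx2
    have : x = 0 := by simpa [flg] using hx3
    rw [this]
    exact zero_mem _
  refine ⟨⟨Nat.find hex - 1, by omega⟩, x, hx1, hx2, ?_, fun x' h1 h2 => ?_⟩
  · have e : Nat.find hex - 1 + 1 = Nat.find hex := by omega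
    simpa only [e] using hx3
  · by_contra h3
    exact Nat.find_min hex (show Nat.find hex - 1 < Nat.find hex by omega) ⟨x', h1, h3, h2⟩

/-- The Bruhat decomposition: two flags have a common frame. -/
theorem exists_bruhat (hg : IsUnit g) (hg' : IsUnit g') :
    ∃ (y : Equiv.Perm (Fin n)) (h : Matrix (Fin n) (Fin n) k), IsUnit h ∧ Rl Fin.val g h ∧
      Rl Fin.val g' (h.submatrix id y) := by
  choose z x hx1 hx2 hx3 hmin using Bru_exists hg hg'
  have key : ∀ l l' : Fin n, l < l' → z l ≠ z l' := by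
    intro l l' hl e
    have hne : (g'⁻¹ *ᵥ x l) (z l) ≠ 0 := by
      intro h0
      refine hx2 l (hmin l _ (hx1 l) ((mem_flg_iff hg').2 fun j hj => ?_))
      rcases hj.eq_or_lt with hj | hj
      · rw [← Fin.ext hj]; exact h0
      · exact (mem_flg_iff hg').1 (hx3 l) j hj
    have hl1 : x l ∈ flg g l' := flg_mono g (show (l : ℕ) + 1 ≤ l' from hl) (hx1 l)
    set t := (g'⁻¹ *ᵥ x l') (z l) / (g'⁻¹ *ᵥ x l) (z l) with ht
    have hm : x l' - t • x l ∈ flg g l' := by
      refine hmin l' _ (sub_mem (hx1 l') (Submodule.smul_mem _ _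
        (flg_mono g (Nat.le_succ _) hl1))) ((mem_flg_iff hg').2 fun j hj => ?_)
      rw [Matrix.mulVec_sub, Matrix.mulVec_smul, Pi.sub_apply, Pi.smul_apply, smul_eq_mul]
      rcases hj.eq_or_lt with hj | hj
      · rw [← Fin.ext hj, ← e, ht, div_mul_cancel₀ _ hne, sub_self]
      · rw [(mem_flg_iff hg').1 (hx3 l') j hj, (mem_flg_iff hg').1 (hx3 l) j (by rw [e]; exact hj),
          mul_zero, sub_self]
    apply hx2 l'
    simpa using add_mem hm (Submodule.smul_mem _ t hl1)
  have inj : Function.Injective z := fun l l' e => by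
    rcases lt_trichotomy l l' with hl | hl | hl
    · exact absurd e (key l l' hl)
    · exact hl
    · exact absurd e.symm (key l' l hl)
  let E := Equiv.ofBijective z (Finite.injective_iff_bijective.1 inj)
  refine ⟨E.symm, Matrix.of fun i l => x l i, isUnit_of_col hg fun l => ⟨hx1 l, hx2 l⟩,
    (rl_iff_col hg).2 fun l => hx1 l, (rl_iff_col hg').2 fun b => ?_⟩
  have e : z (E.symm b) = b := E.apply_symm_apply b
  have := hx3 (E.symm b)
  rw [e] at this
  exact this

theorem finrank_flg_inf {y : Equiv.Perm (Fin n)} (hg : IsUnit g) (hg' : IsUnit g') (hh : IsUnit h)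
    (h1 : Rl Fin.val g h) (h2 : Rl Fin.val g' (h.submatrix id y)) (a b : ℕ) :
    Module.finrank k ↥(flg g a ⊓ flg g' b) = dy y a b := by
  have hy := isUnit_submatrix hh y
  have hd := (Matrix.isUnit_iff_isUnit_det h).1 hh
  rw [← h1.flg_eq hg hh a, ← h2.flg_eq hg' hy b, dy]
  set S := Finset.univ.filter fun l : Fin n => (l : ℕ) < a ∧ (y.symm l : ℕ) < b with hS
  have hinv : (h.submatrix id y)⁻¹ = h⁻¹.submatrix y id := by
    apply Matrix.inv_eq_left_inv
    have e : h⁻¹.submatrix y id * h.submatrix id y = (h⁻¹ * h).submatrix y y := rfl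
    rw [e, Matrix.nonsing_inv_mul _ hd, Matrix.submatrix_one _ y.injective]
  have li : LinearIndependent k fun l : S => h.col l.1 :=
    (Matrix.linearIndependent_cols_iff_isUnit.2 hh).comp _ Subtype.val_injective
  have e : flg h a ⊓ flg (h.submatrix id y) b = Submodule.span k (range fun l : S => h.col l.1) := by
    apply le_antisymm
    · rintro x ⟨hx1, hx2⟩
      have ex : x = ∑ l, (h⁻¹ *ᵥ x) l • h.col l := by
        conv_lhs => rw [← Matrix.one_mulVec x, ← Matrix.mul_nonsing_inv _ hd,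
          ← Matrix.mulVec_mulVec]
        funext i
        rw [Finset.sum_apply]
        change ∑ l, h i l * (h⁻¹ *ᵥ x) l = ∑ l, (h⁻¹ *ᵥ x) l * h i l
        exact Finset.sum_congr rfl fun l _ => mul_comm _ _
      rw [ex]
      refine Submodule.sum_mem _ fun l _ => ?_
      by_cases hl : l ∈ S
      · exact Submodule.smul_mem _ _ (Submodule.subset_span ⟨⟨l, hl⟩, rfl⟩)
      · have h0 : (h⁻¹ *ᵥ x) l = 0 := by
          by_cases ha : (l : ℕ) < a
          · have hb : b ≤ (y.symm l : ℕ) := by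
              by_contra hb
              exact hl (Finset.mem_filter.2 ⟨Finset.mem_univ _, ha, not_le.1 hb⟩)
            have := (mem_flg_iff hy).1 hx2 (y.symm l) hb
            rw [hinv] at this
            have e2 : (h⁻¹.submatrix y id *ᵥ x) (y.symm l) = (h⁻¹ *ᵥ x) (y (y.symm l)) := rfl
            rwa [e2, Equiv.apply_symm_apply] at this
          · exact (mem_flg_iff hh).1 hx1 l (not_lt.1 ha)
        rw [h0, zero_smul]
        exact zero_mem _
    · rw [Submodule.span_le]
      rintro _ ⟨⟨l, hl⟩, rfl⟩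
      obtain ⟨ha, hb⟩ := (Finset.mem_filter.1 hl).2
      refine ⟨col_mem_flg h ha, ?_⟩
      have := col_mem_flg (h.submatrix id y) hb
      simp only [submatrix_apply, id, Equiv.apply_symm_apply] at this
      exact this
  rw [e, finrank_span_eq_card li, Fintype.card_coe]

theorem dy_succ (y : Equiv.Perm (Fin n)) (l : Fin n) :
    dy y (l + 1) (y.symm l + 1) = dy y l (y.symm l + 1) + 1 := by
  rw [dy, dy, ← Finset.card_insert_of_notMem (a := l) (by simp)]
  congr 1
  ext j
  simp only [Finset.mem_filter, Finset.mem_univ, true_and, Finset.mem_insert]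
  constructor
  · rintro ⟨h1, h2⟩
    rcases (Nat.lt_succ_iff.1 h1).eq_or_lt with e | e
    · exact Or.inl (Fin.ext e)
    · exact Or.inr ⟨e, h2⟩
  · rintro (rfl | ⟨h1, h2⟩)
    · exact ⟨Nat.lt_succ_self _, Nat.lt_succ_self _⟩
    · exact ⟨Nat.lt_succ_of_lt h1, h2⟩

end Pool.Agent.MP_0c8446_ag

end
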