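import Pool.Agent.Mg.F0c8446.G601e39
import Pool.Agent.Mg.F0c8446.Gaba67e
import Pool.Agent.Mg.F0c8446.G5479bd
import Pool.Agent.Mg.F0c8446.G29d8bf

section

namespace Pool.Agent.MP_0c8446_ag

open MvPolynomial Set Matrix

universe u v w

variable {k : Type u} [Field k] {Ω Ω' : Type u} [Field Ω] [Algebra k Ω] [Field Ω'] [Algebra k Ω']
  (Pl : Place k Ω Ω') {n : ℕ}

/-- Extending a family of integral vectors with independent reductions. -/
theorem Place.exists_snoc {c : ℕ} {u : Fin c → Fin n → Ω} (hu : ∀ m i, u m i ∈ Pl.O)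
    (hi : LinearIndependent Ω' fun m i => Pl.red (u m i)) {x : Fin n → Ω}
    (hx : x ∉ Submodule.span Ω (range u)) :
    ∃ (x' : Fin n → Ω) (t : Ω), t ≠ 0 ∧ x' - t • x ∈ Submodule.span Ω (range u) ∧
      (∀ i, x' i ∈ Pl.O) ∧ (fun i => Pl.red (x' i)) ∉
        Submodule.span Ω' (range fun m i => Pl.red (u m i)) := by
  obtain ⟨α, hα⟩ := pl_ne_zero_iff.2 hi
  set A : Matrix (Fin c) (Fin c) Ω := Matrix.of fun l m => u m (α l) with hA
  have hA' : IsUnit (A.map Pl.red) := by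
    rw [Matrix.isUnit_iff_isUnit_det, isUnit_iff_ne_zero]
    exact hα
  have hAu : IsUnit A := (Pl.inv_mem_matrix (A := A) (fun a b => hu _ _) hA').1
  set a : Fin c → Ω := A⁻¹ *ᵥ fun l => x (α l) with ha
  have hy : (∑ m, a m • u m) ∈ Submodule.span Ω (range u) :=
    Submodule.sum_mem _ fun m _ => Submodule.smul_mem _ _ (Submodule.subset_span ⟨m, rfl⟩)
  set y : Fin n → Ω := ∑ m, a m • u m with hyd
  have hz : ∀ l, (x - y) (α l) = 0 := by
    intro l
    have h1 : A *ᵥ a = fun l => x (α l) := by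
      rw [ha, Matrix.mulVec_mulVec,
        Matrix.mul_nonsing_inv _ ((Matrix.isUnit_iff_isUnit_det A).1 hAu), Matrix.one_mulVec]
    have h2 := congrFun h1 l
    rw [Pi.sub_apply, ← h2, hyd]
    simp [Matrix.mulVec, dotProduct, hA, mul_comm]
  have hne : ∃ s, (x - y) s ≠ 0 := by
    by_contra h
    push Not at h
    have : x = y := sub_eq_zero.1 (funext h)
    exact hx (this ▸ hy)
  obtain ⟨s, hs, hmax⟩ := Pl.exists_max hne
  refine ⟨fun i => (x - y) i / (x - y) s, ((x - y) s)⁻¹, inv_ne_zero hs, ?_, hmax, fun h => ?_⟩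
  · have : (fun i => (x - y) i / (x - y) s) - ((x - y) s)⁻¹ • x = (-((x - y) s)⁻¹) • y := by
      funext i
      simp only [Pi.sub_apply, Pi.smul_apply, smul_eq_mul, div_eq_mul_inv]
      ring
    rw [this]
    exact Submodule.smul_mem _ _ hy
  · obtain ⟨b, hb⟩ := (Submodule.mem_span_range_iff_exists_fun Ω').1 h
    have h1 : (A.map Pl.red) *ᵥ b = 0 := by
      funext l
      have h2 := congrFun hb (α l)
      simp only [hz l, zero_div, Pl.red_zero] at h2
      rw [Pi.zero_apply, ← h2]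
      simp [Matrix.mulVec, dotProduct, hA, mul_comm]
    have h2 : b = 0 := by
      have h3 := congrArg ((A.map Pl.red)⁻¹ *ᵥ ·) h1
      simpa only [Matrix.mulVec_mulVec,
        Matrix.nonsing_inv_mul _ ((Matrix.isUnit_iff_isUnit_det _).1 hA'), Matrix.one_mulVec,
        Matrix.mulVec_zero] using h3
    have h3 := congrFun hb s
    simp only [div_self hs, Pl.red_one, h2] at h3
    simp at h3

theorem Place.iwa_snoc {c : ℕ} {u : Fin c → Fin n → Ω} {x : Fin n → Ω}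
    (hi : LinearIndependent Ω' fun m i => Pl.red (u m i))
    (hx : (fun i => Pl.red (x i)) ∉ Submodule.span Ω' (range fun m i => Pl.red (u m i))) :
    LinearIndependent Ω' fun m i => Pl.red ((Fin.snoc u x : Fin (c + 1) → Fin n → Ω) m i) := by
  have e : (fun m i => Pl.red ((Fin.snoc u x : Fin (c + 1) → Fin n → Ω) m i)) =
      (Fin.snoc (fun m i => Pl.red (u m i)) (fun i => Pl.red (x i)) :
        Fin (c + 1) → Fin n → Ω') := by
    funext m
    refine Fin.lastCases ?_ (fun m => ?_) m <;> simp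
  rw [e, linearIndependent_finSnoc]
  exact ⟨hi, hx⟩

/-- Every subspace has an integral basis with independent reduction. -/
theorem Place.exists_basis (U : Submodule Ω (Fin n → Ω)) :
    ∃ u : Fin (Module.finrank Ω U) → Fin n → Ω, (∀ m, u m ∈ U) ∧ (∀ m i, u m i ∈ Pl.O) ∧
      LinearIndependent Ω' fun m i => Pl.red (u m i) := by
  have key : ∀ c, c ≤ Module.finrank Ω U → ∃ u : Fin c → Fin n → Ω, (∀ m, u m ∈ U) ∧
      (∀ m i, u m i ∈ Pl.O) ∧ LinearIndependent Ω' fun m i => Pl.red (u m i) := by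
    intro c
    induction c with
    | zero => exact fun _ => ⟨Fin.elim0, fun m => m.elim0, fun m => m.elim0,
        linearIndependent_empty_type⟩
    | succ c ih =>
      intro hc
      obtain ⟨u, hU, hO, hi⟩ := ih (by omega)
      have hle : Submodule.span Ω (range u) ≤ U := Submodule.span_le.2 (range_subset_iff.2 hU)
      have hex : ∃ x ∈ U, x ∉ Submodule.span Ω (range u) := by
        by_contra h
        push Not at h
        have h1 : Module.finrank Ω U ≤ Module.finrank Ω (Submodule.span Ω (range u)) :=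
          Submodule.finrank_mono h
        have h2 := finrank_range_le_card (R := Ω) u
        rw [Fintype.card_fin, Set.finrank] at h2
        omega
      obtain ⟨x, hxU, hx⟩ := hex
      obtain ⟨x', t, -, h1, h2, h3⟩ := Pl.exists_snoc hO hi hx
      refine ⟨Fin.snoc u x', fun m => ?_, fun m => ?_, Pl.iwa_snoc hi h3⟩
      · refine Fin.lastCases ?_ (fun m => ?_) m
        · rw [Fin.snoc_last]
          have := U.add_mem (hle h1) (U.smul_mem t hxU)
          rwa [sub_add_cancel] at this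
        · rw [Fin.snoc_castSucc]; exact hU m
      · refine Fin.lastCases ?_ (fun m => ?_) m
        · rw [Fin.snoc_last]; exact h2
        · rw [Fin.snoc_castSucc]; exact hO m
  exact key _ le_rfl

/-- The Iwasawa decomposition. -/
theorem Place.exists_iwasawa {g : Matrix (Fin n) (Fin n) Ω} (hg : IsUnit g) :
    ∃ G, Pl.IG G ∧ Rl Fin.val g G := by
  have key : ∀ c, c ≤ n → ∃ u : Fin c → Fin n → Ω, (∀ m : Fin c, u m ∈ flg g (m + 1)) ∧
      (∀ m i, u m i ∈ Pl.O) ∧ LinearIndependent Ω' fun m i => Pl.red (u m i) := by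
    intro c
    induction c with
    | zero => exact fun _ => ⟨Fin.elim0, fun m => m.elim0, fun m => m.elim0,
        linearIndependent_empty_type⟩
    | succ c ih =>
      intro hc
      obtain ⟨u, hU, hO, hi⟩ := ih (by omega)
      have hle : Submodule.span Ω (range u) ≤ flg g c :=
        Submodule.span_le.2 (range_subset_iff.2 fun m => flg_mono g m.2 (hU m))
      have hx : (fun i => g i ⟨c, hc⟩) ∉ Submodule.span Ω (range u) := by
        intro h
        have h1 := (mem_flg_iff hg).1 (hle h) ⟨c, hc⟩ le_rfl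
        have h2 : (g⁻¹ * g) ⟨c, hc⟩ ⟨c, hc⟩ = 0 := h1
        rw [Matrix.nonsing_inv_mul _ ((Matrix.isUnit_iff_isUnit_det _).1 hg),
          Matrix.one_apply_eq] at h2
        exact one_ne_zero h2
      obtain ⟨x', t, -, h1, h2, h3⟩ := Pl.exists_snoc hO hi hx
      refine ⟨Fin.snoc u x', fun m => ?_, fun m => ?_, Pl.iwa_snoc hi h3⟩
      · refine Fin.lastCases ?_ (fun m => ?_) m
        · rw [Fin.snoc_last, Fin.val_last]
          have := (flg g (c + 1)).add_mem (flg_mono g (Nat.le_succ c) (hle h1))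
            ((flg g (c + 1)).smul_mem t (col_mem_flg g (l := ⟨c, hc⟩) (Nat.lt_succ_self c)))
          rwa [sub_add_cancel] at this
        · rw [Fin.snoc_castSucc]; exact hU m
      · refine Fin.lastCases ?_ (fun m => ?_) m
        · rw [Fin.snoc_last]; exact h2
        · rw [Fin.snoc_castSucc]; exact hO m
  obtain ⟨u, hU, hO, hi⟩ := key n le_rfl
  refine ⟨Matrix.of fun i m => u m i, ⟨fun a b => hO b a, ?_⟩, (rl_iff_col hg).2 hU⟩
  exact Matrix.linearIndependent_cols_iff_isUnit.1 hi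

end Pool.Agent.MP_0c8446_ag

end

section

namespace Pool.Agent.MP_0c8446_ag

open MvPolynomial Set Matrix

universe u v w

variable {k : Type u} [Field k] {Ω Ω' : Type u} [Field Ω] [Algebra k Ω] [Field Ω'] [Algebra k Ω']
  {Pl : Place k Ω Ω'} {n : ℕ} {g g' : Matrix (Fin n) (Fin n) Ω}

theorem BruO_le {U : Submodule Ω (Fin n → Ω)} {W : Submodule Ω' (Fin n → Ω')}
    (h : ∀ x ∈ U, (∀ i, x i ∈ Pl.O) → (fun i => Pl.red (x i)) ∈ W) :
    Module.finrank Ω U ≤ Module.finrank Ω' W := by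
  obtain ⟨u, h1, h2, h3⟩ := Pl.exists_basis U
  simpa using (LinearIndependent.of_comp (v := fun m => (⟨_, h _ (h1 m) (h2 m)⟩ : W)) W.subtype
    h3).fintype_card_le_finrank

/-- The dimensions of the intersections can only go up under reduction. -/
theorem Place.finrank_flg_le (hg : Pl.IG g) (hg' : Pl.IG g') (a b : ℕ) :
    Module.finrank Ω ↥(flg g a ⊓ flg g' b) ≤
      Module.finrank Ω' ↥(flg (g.map Pl.red) a ⊓ flg (g'.map Pl.red) b) :=   BruO_le fun _ hx hO => ⟨hg.red_mem_flg hx.1 hO, hg'.red_mem_flg hx.2 hO⟩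

/-- If the relative position does not change, there is an integral common frame. -/
theorem Place.exists_bruhat (hg : Pl.IG g) (hg' : Pl.IG g') {y : Equiv.Perm (Fin n)}
    (h1 : ∀ a ≤ n, ∀ b ≤ n, Module.finrank Ω ↥(flg g a ⊓ flg g' b) = dy y a b)
    (h2 : ∀ a ≤ n, ∀ b ≤ n,
      Module.finrank Ω' ↥(flg (g.map Pl.red) a ⊓ flg (g'.map Pl.red) b) = dy y a b) :
    ∃ h, Pl.IG h ∧ Rl Fin.val g h ∧ Rl Fin.val g' (h.submatrix id y) := by
  have key : ∀ l : Fin n, ∃ x ∈ flg g (l + 1) ⊓ flg g' (y.symm l + 1), (∀ i, x i ∈ Pl.O) ∧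
      (fun i => Pl.red (x i)) ∉ flg (g.map Pl.red) l := fun l => by
    by_contra hc
    push Not at hc
    have := BruO_le (W := flg (g.map Pl.red) l ⊓ flg (g'.map Pl.red) (y.symm l + 1))
      fun x hx hO => ⟨hc x hx hO, hg'.red_mem_flg hx.2 hO⟩
    rw [h1 (l + 1) l.2 (y.symm l + 1) (y.symm l).2, h2 l l.2.le (y.symm l + 1) (y.symm l).2,
      dy_succ] at this
    omega
  choose x hx hO hn using key
  refine ⟨Matrix.of fun i l => x l i, ⟨fun a b => hO b a, isUnit_of_col hg.2 fun l =>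
    ⟨hg.red_mem_flg (hx l).1 (hO l), hn l⟩⟩, (rl_iff_col hg.isUnit).2 fun l => (hx l).1,
    (rl_iff_col hg'.isUnit).2 fun l => ?_⟩
  have := (hx (y l)).2
  rwa [y.symm_apply_apply] at this

end Pool.Agent.MP_0c8446_ag

end

section

namespace Pool.Agent.MP_0c8446_ag

open MvPolynomial Set

universe u v w

variable {k : Type u} [Field k] {Γ : Type u} [Group Γ]

/-- A stratification of a stage by images of frames. -/
structure Stage.Strat (S : Stage k Γ) {Y : Type} (N : Y → ℕ) (D : Y → FrD k Γ)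
    (pt : ∀ y, Vars S.P.n → MvPolynomial (D y).σ k) : Prop where
  on : ∀ y (Ω : Type u) [Field Ω] [Algebra k Ω] (h : (D y).σ → Ω), (D y).Fr h →
    S.P.On (evs h (pt y))
  equi : ∀ y i, (D y).Equi (S.ρ i) fun s => pt y ⟨i, s⟩
  cover : ∀ (Ω : Type u) [Field Ω] [Algebra k Ω] [IsAlgClosed Ω] (v : Vars S.P.n → Ω), S.P.On v →
    ∃ y h, (D y).Fr h ∧ ParOn univ (evs h (pt y)) v
  il : ∀ y (Ω Ω' : Type u) [Field Ω] [Algebra k Ω] [IsAlgClosed Ω] [Field Ω'] [Algebra k Ω']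
    [IsAlgClosed Ω'] (Pl : Place k Ω Ω') (v : Vars S.P.n → Ω) (h : (D y).σ → Ω), (D y).Fr h →
    ParOn univ (evs h (pt y)) v → (∀ a, v a ∈ Pl.O) → NZb (fun a => Pl.red (v a)) →
    (∃ y' h', N y < N y' ∧ (D y').Fr h' ∧ ParOn univ (evs h' (pt y')) fun a => Pl.red (v a)) ∨
      ∃ h', (D y).Fr h' ∧ ParOn univ (evs h' (pt y)) v ∧ ∀ s, h' s ∈ Pl.O

section aux

variable [IsAlgClosed k] {S : Stage k Γ} {Y : Type} {N : Y → ℕ} {D : Y → FrD k Γ}
  {pt : ∀ y, Vars S.P.n → MvPolynomial (D y).σ k} {T : Var k}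
  {Ω Ω' : Type u} [Field Ω] [Algebra k Ω] [Field Ω'] [Algebra k Ω']

/-- The coordinates of a stratum in the product. -/
noncomputable def Strata_pt (pt : ∀ y, Vars S.P.n → MvPolynomial (D y).σ k) (T : Var k) (y : Y) :
    Vars (S.prod (trivStage Γ T)).P.n → MvPolynomial (D y).σ k :=
  pvJoin (pt y) 0

theorem Strata_inl (hJ : S.J = ∅) (i : S.P.ι) : Sum.inl i ∉ (S.prod (trivStage Γ T)).J :=
  fun h => (hJ ▸ h : i ∈ (∅ : Set S.P.ι))

theorem Strata_inr (i : T.ι) : Sum.inr i ∈ (S.prod (trivStage Γ T)).J := trivial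

theorem Strata_par (hJ : S.J = ∅) {y : Y} {g : (D y).σ → Ω}
    {v : Vars (S.prod (trivStage Γ T)).P.n → Ω} :
    ParOn (S.prod (trivStage Γ T)).Jᶜ (evs g (Strata_pt pt T y)) v ↔
      ParOn univ (evs g (pt y)) fun s => v (pvL T.n s) := by
  refine ⟨fun h i _ => h (Sum.inl i) (Strata_inl hJ i), fun h i hi => ?_⟩
  cases i with
  | inl i => exact h i trivial
  | inr i => exact (hi (Strata_inr i)).elim

/-- A stratum as a level. -/
noncomputable def Strata_lev (hJ : S.J = ∅) (h : S.Strat N D pt) (y : Y)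
    (bd : Set (Set (S.prod (trivStage Γ T)).P.pts)) (hc : SubCl bd)
    (hil : (D y).IL (S.prod (trivStage Γ T)) (Strata_pt pt T y) bd) : Level (D y) where
  S := S.prod (trivStage Γ T)
  pt := Strata_pt pt T y
  bd := bd
  nz
    | Sum.inl i, _ => fun Ω _ _ g hg => (h.on y Ω g hg).1 i
    | Sum.inr i, hi => (hi (Strata_inr i)).elim
  equi
    | Sum.inl i, _ => h.equi y i
    | Sum.inr i, hi => (hi (Strata_inr i)).elim
  prod Ω _ _ v g hv hg := by
    have e : mix (S.prod (trivStage Γ T)).J v (evs g (Strata_pt pt T y)) =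
        pvJoin (evs g (pt y)) fun s => v (pvR S.P.n s) := by
      funext ⟨i, s⟩
      cases i with
      | inl i => exact if_neg (Strata_inl hJ i)
      | inr i => exact if_pos (Strata_inr i)
    rw [e]
    exact on_pvJoin (h.on y Ω g hg) (on_pv_iff.1 hv).2
  closed := hc
  il := hil

/-- A stratum with the largest boundary. -/
noncomputable def Strata_top (hJ : S.J = ∅) (h : S.Strat N D pt) (T : Var k) (y : Y) :
    Level (D y) :=
  Strata_lev (T := T) hJ h y {C | IsSub C} (fun _ hC => ⟨hC, fun _ hC' _ => hC'⟩)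
    fun _ _ _ _ _ _ _ _ Pl _ _ hv _ _ hO hn => Or.inl (hv.of_le hn (Pl.pI_le hO)).isSub

theorem Strata_il [IsAlgClosed Ω] [IsAlgClosed Ω'] (hJ : S.J = ∅) (h : S.Strat N D pt) {y : Y}
    (Pl : Place k Ω Ω') {v : Vars (S.prod (trivStage Γ T)).P.n → Ω} {g : (D y).σ → Ω}
    (hv : (S.prod (trivStage Γ T)).P.On v) (hg : (D y).Fr g)
    (hp : ParOn (S.prod (trivStage Γ T)).Jᶜ (evs g (Strata_pt pt T y)) v) (hO : ∀ a, v a ∈ Pl.O)
    (hn : NZb fun a => Pl.red (v a)) :
    (∃ y', N y < N y' ∧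
      (D y').famR (S.prod (trivStage Γ T)) (Strata_pt pt T y') Ω' fun a => Pl.red (v a)) ∨
    ∃ g', (D y).Fr g' ∧ ParOn (S.prod (trivStage Γ T)).Jᶜ (evs g' (Strata_pt pt T y)) v ∧
      ∀ s, g' s ∈ Pl.O := by
  rcases h.il y Ω Ω' Pl (fun s => v (pvL T.n s)) g hg ((Strata_par hJ).1 hp) (fun _ => hO _)
    (fun i => hn (Sum.inl i)) with ⟨y', g', h1, h2, h3⟩ | ⟨g', h1, h2, h3⟩
  · exact Or.inl ⟨y', h1, hv.of_le hn (Pl.pI_le hO), g', h2, (Strata_par hJ).2 h3⟩
  · exact Or.inr ⟨g', h1, (Strata_par hJ).2 h2, h3⟩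

theorem Strata_sp [IsAlgClosed Ω] [IsAlgClosed Ω'] (hJ : S.J = ∅) (h : S.Strat N D pt) {y : Y}
    {v : Vars (S.prod (trivStage Γ T)).P.n → Ω} {u : Vars (S.prod (trivStage Γ T)).P.n → Ω'}
    (hv : (D y).famR (S.prod (trivStage Γ T)) (Strata_pt pt T y) Ω v) (hu : NZb u)
    (hle : pI k v ≤ pI k u) :
    ∃ y', N y ≤ N y' ∧ (D y').famR (S.prod (trivStage Γ T)) (Strata_pt pt T y') Ω' u := by
  obtain ⟨Pl, v', h1, h2, h3⟩ := exists_place_pI hu hle
  obtain ⟨h4, g, hg, h5⟩ := (Strata_top hJ h T y).famR_par hv h1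
  rcases Strata_il hJ h Pl h4 hg h5 h2 (h3.nzb hu) with ⟨y', h6, h7⟩ | ⟨g', h6, h7, h8⟩
  · exact ⟨y', h6.le, (Strata_top hJ h T y').famR_par h7 h3.symm⟩
  · exact ⟨y, le_rfl, (Strata_top hJ h T y).famR_par
      ((Strata_top hJ h T y).famR_red Pl h4 h6 h7 h8 h2 (h3.nzb hu)) h3.symm⟩

/-- The union of the strata of index at least `m`. -/
def Strata_B (N : Y → ℕ) (pt : ∀ y, Vars S.P.n → MvPolynomial (D y).σ k) (T : Var k) (m : ℕ) :
    Set (Set (S.prod (trivStage Γ T)).P.pts) :=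
  {C | ∃ y, m ≤ N y ∧ C ∈ (S.prod (trivStage Γ T)).P.fam
    ((D y).famR (S.prod (trivStage Γ T)) (Strata_pt pt T y))}

theorem Strata_closed (hJ : S.J = ∅) (h : S.Strat N D pt) (m : ℕ) : SubCl (Strata_B N pt T m) := by
  rintro C ⟨y, hy, Ω, _, _, _, v, hv, rfl⟩
  refine ⟨hv.1.isSub, fun C' hC' hs => ?_⟩
  obtain ⟨Ω', _, _, _, u, hu, rfl⟩ := Var.exists_generic _ hC'
  obtain ⟨y', h1, h2⟩ := Strata_sp hJ h hv hu.1 (hu.pI_le hs)
  exact ⟨y', hy.trans h1, Ω', _, _, inferInstance, u, h2, rfl⟩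

theorem Strata_all (hJ : S.J = ∅) (h : S.Strat N D pt) {C : Set (S.prod (trivStage Γ T)).P.pts}
    (hC : IsSub C) : C ∈ Strata_B N pt T 0 := by
  obtain ⟨Ω, _, _, _, u, hu, rfl⟩ := Var.exists_generic _ hC
  obtain ⟨y, g, h1, h2⟩ := h.cover Ω _ (on_pv_iff.1 hu).1
  exact ⟨y, Nat.zero_le _, Ω, _, _, inferInstance, u, ⟨hu, g, h1, (Strata_par hJ).2 h2⟩, rfl⟩

/-- A stratum with the later strata as boundary. -/
noncomputable def Strata_L (hJ : S.J = ∅) (h : S.Strat N D pt) (T : Var k) (y : Y) : Level (D y) :=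
  Strata_lev (T := T) hJ h y (Strata_B N pt T (N y + 1)) (Strata_closed hJ h _)
    fun _ Ω' _ _ _ _ _ _ Pl _ _ hv hg hp hO hn => (Strata_il hJ h Pl hv hg hp hO hn).imp_left
      fun ⟨y', h1, h2⟩ => ⟨y', h1, Ω', _, _, inferInstance, _, h2, rfl⟩

end aux

variable [IsAlgClosed k] {K : Type v} [Field K] (W : Weil.{u, v, w} k K)

theorem Weil.dec_strata {S : Stage k Γ} (hJ : S.J = ∅) {Y : Type} [Finite Y] {N : Y → ℕ}
    {D : Y → FrD k Γ} {pt : ∀ y, Vars S.P.n → MvPolynomial (D y).σ k} (h : S.Strat N D pt)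
    (good : ∀ y, W.Good (D y)
      (fun _ _ _ _ h h' => ParOn univ (evs h (pt y)) (evs h' (pt y))) ∅) (T : Var k) :
    W.Dec (S.prod (trivStage Γ T)) {C | IsSub C} ∅ := by
  intro m β hβ hI hK _ C hC
  have step (y : Y) := good y (Strata_L hJ h T y) (fun _ _ _ _ _ _ _ _ => Strata_par hJ)
    (fun _ hf => hf.elim) m β hβ hI hK
  obtain ⟨M, hM⟩ := (finite_range N).bddAbove
  have key (i : ℕ) : ∀ j, M < j + i → ∀ C ∈ Strata_B N pt T j, W.ph β C = 0 := by
    induction i with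
    | zero =>
      rintro j hj C ⟨y, hy, -⟩
      have := hM (mem_range_self y)
      omega
    | succ i ih =>
      rintro j hj C ⟨y, hy, hC⟩
      exact step y (ih (N y + 1) (by omega)) C hC
  exact key (M + 1) 0 (by omega) C (Strata_all hJ h hC)

end Pool.Agent.MP_0c8446_ag

end

section

namespace Pool.Agent.MP_0c8446_ag

open MvPolynomial Set Matrix

universe u v w

variable {k : Type u} [Field k] [IsAlgClosed k] {n r : ℕ} (uni : Bool) (q : ℕ) [PQ k q]
  (w : Fin r → ℕ) {N : Fin n → ℕ} (c : ∀ a : Fin n, Fin (N a + 1) ≃ (Fin (a + 1) → Fin n)) (h₁ h₂)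

omit [IsAlgClosed k] in
theorem GStr_eta {ι κ : Type} {n : ι → ℕ} {m : κ → ℕ} {α : Type*} (v : Vars (Sum.elim n m) → α) :
    pvJoin (fun s => v (pvL m s)) (fun s => v (pvR n s)) = v := by
  funext ⟨i, s⟩
  cases i <;> rfl

omit [IsAlgClosed k] in
theorem GStr_join {ι κ : Type} {n : ι → ℕ} {m : κ → ℕ} {α β : Type*} (φ : α → β) (v : Vars n → α)
    (u : Vars m → α) :
    (fun a => φ (pvJoin v u a)) = pvJoin (fun s => φ (v s)) fun s => φ (u s) := by
  funext ⟨i, s⟩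
  cases i <;> rfl

omit [IsAlgClosed k] in
theorem GStr_il (y : Fin (r + 1) → Equiv.Perm (Fin n)) {Ω Ω' : Type u} [Field Ω] [Algebra k Ω]
    [Field Ω'] [Algebra k Ω'] (Pl : Place k Ω Ω')
    (v : Vars (Sum.elim (fun i : Fin (r + 1) × Fin n => N i.2)
      fun i : Fin (r + 1) × Fin n => N i.2) → Ω) (h : GS r n → Ω)
    (hh : (glFr k uni q (zY uni w y)).Fr h) (hp : ParOn univ (ptY c y h) v)
    (hO : ∀ a, v a ∈ Pl.O) (hz : NZb fun a => Pl.red (v a)) :
    (∃ (y' : Fin (r + 1) → Equiv.Perm (Fin n)) (h' : GS r n → Ω'),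
      ∑ j, ∑ a ∈ Finset.range (n + 1), ∑ b ∈ Finset.range (n + 1), dy (y j) a b <
        ∑ j, ∑ a ∈ Finset.range (n + 1), ∑ b ∈ Finset.range (n + 1), dy (y' j) a b ∧
      (glFr k uni q (zY uni w y')).Fr h' ∧ ParOn univ (ptY c y' h') fun a => Pl.red (v a)) ∨
      ∃ h' : GS r n → Ω, (glFr k uni q (zY uni w y)).Fr h' ∧ ParOn univ (ptY c y h') v ∧
        ∀ s, h' s ∈ Pl.O := by
  have := PQ.ext k q Ω
  obtain ⟨h1, c1, c2⟩ := frY_iff.1 hh
  choose G hG rG using fun j => Pl.exists_iwasawa (c1.1 j)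
  choose G' hG' rG' using fun j => Pl.exists_iwasawa (c2.1 j)
  have d1 := c1.congr (fun j => (hG j).isUnit) rG
  have d2 := c2.congr (fun j => (hG' j).isUnit) rG'
  have p1 : ParOn univ (pvJoin (plV c G) (plV c G')) v :=
    (parOn_pvJoin.2 ⟨(parOn_plV c c1.1 d1.1).2 rG, (parOn_plV c c2.1 d2.1).2 rG'⟩).symm.trans hp
  obtain ⟨o1, e1⟩ := Place.plV_red (Pl := Pl) c fun j => (hG j).1
  obtain ⟨o2, e2⟩ := Place.plV_red (Pl := Pl) c fun j => (hG' j).1
  have p2 : ParOn univ (pvJoin (plV c fun j => (G j).map Pl.red) (plV c fun j => (G' j).map Pl.red))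
      fun a => Pl.red (v a) := by
    rw [← e1, ← e2, ← GStr_join]
    refine Pl.par_red p1 ?_ (fun a _ => hO a) ?_ fun i _ => hz i
    · rintro ⟨i | i, s⟩ -
      exacts [o1 ⟨i, s⟩, o2 ⟨i, s⟩]
    · rintro (i | i) -
      · exact (e1 ▸ nzb_plV c (fun j => (hG j).2) :) i
      · exact (e2 ▸ nzb_plV c (fun j => (hG' j).2) :) i
  have f1 : ∀ j a b, Module.finrank Ω ↥(flg (G j) a ⊓ flg (dualM (G' j)) b) = dy (y j) a b :=
    fun j => finrank_flg_inf (d1.1 j) (isUnit_dualM (d2.1 j)) (c1.1 j)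
      ((rG j).symm (c1.1 j) (d1.1 j))
      ((secM_eq (y := y) h1 j).2.1 ▸ ((rG' j).symm (c2.1 j) (d2.1 j)).dual (d2.1 j) (c2.1 j))
  choose y' H hH rH rH' using fun j => exists_bruhat (hG j).2 (hG' j).dual.1.2
  have f2 := fun j => finrank_flg_inf (hG j).2 (hG' j).dual.1.2 (hH j) (rH j) (rH' j)
  have le : ∀ j a b, dy (y j) a b ≤ dy (y' j) a b := fun j a b =>
    f1 j a b ▸ f2 j a b ▸ Place.finrank_flg_le (hG j) (hG' j).dual.1 a b
  have le2 : ∀ j a, ∑ b ∈ Finset.range (n + 1), dy (y j) a b ≤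
      ∑ b ∈ Finset.range (n + 1), dy (y' j) a b := fun j a => Finset.sum_le_sum fun b _ => le j a b
  have le3 : ∀ j, ∑ a ∈ Finset.range (n + 1), ∑ b ∈ Finset.range (n + 1), dy (y j) a b ≤
      ∑ a ∈ Finset.range (n + 1), ∑ b ∈ Finset.range (n + 1), dy (y' j) a b :=
    fun j => Finset.sum_le_sum fun a _ => le2 j a
  rcases (Finset.sum_le_sum (s := Finset.univ) fun j _ => le3 j).eq_or_lt with e | e
  · right
    have eq : ∀ j, ∀ a ≤ n, ∀ b ≤ n, dy (y j) a b = dy (y' j) a b := fun j a ha b hb =>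
      (Finset.sum_eq_sum_iff_of_le fun b _ => le j a b).1
        ((Finset.sum_eq_sum_iff_of_le fun a _ => le2 j a).1
          ((Finset.sum_eq_sum_iff_of_le fun j _ => le3 j).1 e j (Finset.mem_univ j)) a
          (Finset.mem_range.2 (Nat.lt_succ_of_le ha))) b (Finset.mem_range.2 (Nat.lt_succ_of_le hb))
    choose M hM rM rM' using fun j => Place.exists_bruhat (hG j) (hG' j).dual.1
      (fun a _ b _ => f1 j a b) fun a ha b hb => (f2 j a b).trans (eq j a ha b hb).symm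
    obtain ⟨g1, g2⟩ := frY_mk (k := k) c d1 d2 (fun j => (hM j).isUnit) rM rM'
    refine ⟨_, g1, g2.trans p1, ?_⟩
    rintro ⟨j, _ | _, a, b⟩
    exacts [(hM j).1 a b, (hM j).inv.1.1 a b]
  · obtain ⟨g1, g2⟩ := frY_mk (k := k) c (IsChain'.red (k := k) d1 hG) (IsChain'.red (k := k) d2 hG')
      hH rH fun j => (hG' j).dual.2 ▸ rH' j
    exact Or.inl ⟨y', _, e, g1, g2.trans p2⟩

/-- Pairs of chains are stratified by their relative positions. -/
theorem dl_strat : ((dlStage (k := k) uni q w c h₁ h₂).prod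
      ((dlStage uni q w c h₁ h₂).comap (thG k n uni q))).Strat
    (fun y : Fin (r + 1) → Equiv.Perm (Fin n) =>
      ∑ j, ∑ a ∈ Finset.range (n + 1), ∑ b ∈ Finset.range (n + 1), dy (y j) a b)
    (fun y => glFr k uni q (zY uni w y)) fun y => ptY c y X := by
  refine ⟨fun y Ω _ _ h hh => ?_, fun y i γ Ω _ _ h _ s => ?_, fun Ω _ _ _ v hv => ?_,
    fun y Ω Ω' _ _ _ _ _ _ Pl v h hh hp hO hz => ?_⟩
  · exact (evs_ptY (k := k) c y h).symm ▸
      on_pvJoin (dl_on (frY_iff.1 hh).2.1) (dl_on (frY_iff.1 hh).2.2)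
  · have e1 : ∀ (h : GS r n → Ω) a, aeval h (ptY c y (X : GS r n → MvPolynomial (GS r n) k) a) =
        ptY c y h a := fun h a => congrFun (evs_ptY c y h) a
    refine (e1 _ _).trans (Eq.trans ?_ (Finset.sum_congr rfl fun s' _ => congrArg _ (e1 h _).symm))
    refine (congrArg (fun h => ptY c y h ⟨i, s⟩) (evs_glAct γ.1 h)).trans ?_
    rcases i with i | i
    · exact congrFun (plV_mul c γ.1.1 (mM h)) ⟨i, s⟩
    · exact (congrArg (fun g => plV c g ⟨i, s⟩) (funext (secM_glAct γ.1 h))).trans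
        (congrFun (plV_mul c γ.1.1⁻¹ᵀ (secM y h)) ⟨i, s⟩)
  · obtain ⟨a, b⟩ := on_pv_iff.1 hv
    obtain ⟨g, hg, pg⟩ := dl_lift a
    obtain ⟨g', hg', pg'⟩ := dl_lift b
    choose y H hH rH rH' using fun j => exists_bruhat (hg.1 j) (isUnit_dualM (hg'.1 j))
    obtain ⟨g1, g2⟩ := frY_mk (k := k) c hg hg' hH rH rH'
    refine ⟨y, _, g1, ?_⟩
    have := g2.trans (parOn_pvJoin.2 ⟨pg, pg'⟩)
    rw [← evs_ptY (k := k)] at this
    exact (GStr_eta v) ▸ this
  · rcases GStr_il uni q w c y Pl v h hh ((evs_ptY (k := k) c y h) ▸ hp) hO hz with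
      ⟨y', h', a, b, d⟩ | ⟨h', a, b, d⟩
    · exact Or.inl ⟨y', h', a, b, (evs_ptY (k := k) c y' h').symm ▸ d⟩
    · exact Or.inr ⟨h', a, (evs_ptY (k := k) c y h').symm ▸ b, d⟩

end Pool.Agent.MP_0c8446_ag

end
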