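import Pool.Agent.Mg.F0c8446.G273c8c

section

namespace Pool.Agent.MP_0c8446_ag

open scoped LinearAlgebra.Projectivization
open MvPolynomial Set

universe u v w

variable {k : Type u} [Field k]

lemma cirr_sq {σ : Type} (p : σ → k) (s : σ) {b : MvPolynomial σ k}
    (hb : b ∈ RingHom.ker (eval p) ^ 2) : eval p (pderiv s b) = 0 := by
  rw [sq] at hb
  refine Submodule.mul_induction_on hb (fun f hf g hg => ?_) fun f g hf hg => ?_
  · rw [RingHom.mem_ker] at hf hg
    simp [Derivation.leibniz, hf, hg]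
  · rw [map_add, map_add, hf, hg, add_zero]

lemma cirr_eis {σ : Type} (p : σ → k) (s : σ) {a b : MvPolynomial σ k} {m : ℕ} (hm : 0 < m)
    (ha : eval p a ≠ 0) (hb : eval p b = 0) (hd : eval p (pderiv s b) ≠ 0)
    (hab : ∀ r, r ∣ a → r ∣ b → IsUnit r) :
    Irreducible (Polynomial.C a * Polynomial.X ^ m + Polynomial.C b) := by
  have ha0 : a ≠ 0 := by rintro rfl; exact ha (map_zero _)
  have hc : ∀ j, (Polynomial.C a * Polynomial.X ^ m + Polynomial.C b).coeff j =
      if j = m then a else if j = 0 then b else 0 := by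
    intro j
    rw [Polynomial.coeff_add, Polynomial.coeff_C_mul_X_pow, Polynomial.coeff_C]
    by_cases h1 : j = m
    · have : j ≠ 0 := by omega
      simp [h1, hm.ne']
    · simp [h1]
  have hdeg : (Polynomial.C a * Polynomial.X ^ m + Polynomial.C b).degree = (m : WithBot ℕ) := by
    rw [Polynomial.degree_add_C] <;> rw [Polynomial.degree_C_mul_X_pow _ ha0]
    exact_mod_cast hm
  have hnd : (Polynomial.C a * Polynomial.X ^ m + Polynomial.C b).natDegree = m :=
    Polynomial.natDegree_eq_of_degree_eq_some hdeg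
  refine Polynomial.irreducible_of_eisenstein_criterion (P := RingHom.ker (eval p))
    (RingHom.ker_isPrime _) ?_ ?_ ?_ ?_ ?_
  · rw [Polynomial.leadingCoeff, hnd, hc, if_pos rfl]
    exact ha
  · intro j hj
    rw [hdeg] at hj
    have hj' : j < m := by exact_mod_cast hj
    rw [hc, if_neg hj'.ne]
    split_ifs
    · exact hb
    · exact zero_mem _
  · rw [hdeg]; exact_mod_cast hm
  · rw [hc, if_neg hm.ne, if_pos rfl]
    exact fun h => hd (cirr_sq p s h)
  · intro r hr
    rw [Polynomial.C_dvd_iff_dvd_coeff] at hr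
    have h1 := hr m
    have h2 := hr 0
    rw [hc, if_pos rfl] at h1
    rw [hc, if_neg hm.ne, if_pos rfl] at h2
    exact hab r h1 h2

/-- The equation of the curve. -/
noncomputable def cirrF (k : Type u) [Field k] (q : ℕ) (b : Bool) : MvPolynomial (Fin 3) k :=
  if b then X 0 ^ (q - 1) + X 1 ^ (q - 1) - X 2 ^ (q - 1)
  else X 1 ^ q - X 1 * X 2 ^ (q - 1) - X 0 ^ (q - 1) * X 2

lemma cirrF_eval (q : ℕ) (b : Bool) (v : Fin 3 → k) :
    eval v (cirrF k q b) = 0 ↔ CEq q b (v 0) (v 1) (v 2) := by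
  cases b <;> simp [cirrF, CEq, sub_eq_zero]

lemma cirrF_irr (q : ℕ) [h : IsQ k q] (b : Bool) : Irreducible (cirrF k q b) := by
  have hm := IsQ.pos k q
  have hc := IsQ.cast_pred k q
  have hq := h.one_lt
  rw [← MulEquiv.irreducible_iff (finSuccEquiv k 2)]
  have e0 : finSuccEquiv k 2 (X 0) = Polynomial.X := finSuccEquiv_X_zero
  have e1 : finSuccEquiv k 2 (X 1) = Polynomial.C (X 0) := finSuccEquiv_X_succ (j := 0)
  have e2 : finSuccEquiv k 2 (X 2) = Polynomial.C (X 1) := finSuccEquiv_X_succ (j := 1)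
  cases b
  · have e : finSuccEquiv k 2 (cirrF k q false) = Polynomial.C (-X 1) * Polynomial.X ^ (q - 1) +
        Polynomial.C (X 0 ^ q - X 0 * X 1 ^ (q - 1)) := by
      simp only [cirrF, Bool.false_eq_true, if_false, map_sub, map_mul, map_pow, e0, e1, e2,
        map_neg]
      ring
    rw [e]
    refine cirr_eis ![0, 1] 0 hm (by simp) (by simp [show q ≠ 0 by omega]) ?_ ?_
    · simp [Derivation.leibniz, Derivation.leibniz_pow, h.cast, hm.ne']
    · intro r h1 h2
      rw [dvd_neg] at h1
      rcases (X_prime (i := (1 : Fin 2)) (R := k)).irreducible.dvd_iff.1 h1 with h3 | h3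
      · exact h3
      · have h4 := map_dvd (eval ![(1 : k), 0]) (h3.dvd.trans h2)
        simp [hm.ne'] at h4
  · have e : finSuccEquiv k 2 (cirrF k q true) = Polynomial.C 1 * Polynomial.X ^ (q - 1) +
        Polynomial.C (X 0 ^ (q - 1) - X 1 ^ (q - 1)) := by
      simp only [cirrF, if_true, map_sub, map_add, map_pow, e0, e1, e2, map_one]
      ring
    rw [e]
    refine cirr_eis ![1, 1] 0 hm (by simp) (by simp) ?_ fun r h1 _ => isUnit_of_dvd_one h1
    simp [Derivation.leibniz_pow, hc]

/-- The coordinates of the plane. -/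
def cirrE : Fin 3 ≃ Vars fun _ : Unit => 2 where
  toFun s := ⟨(), s⟩
  invFun a := a.2
  left_inv _ := rfl
  right_inv _ := rfl

/-- The equation of the curve in the coordinates of `MP`. -/
noncomputable def cirrG (k : Type u) [Field k] (q : ℕ) (b : Bool) :
    MvPolynomial (Vars fun _ : Unit => 2) k := rename cirrE (cirrF k q b)

lemma cirrG_eval (q : ℕ) (b : Bool) (v : (Vars fun _ : Unit => 2) → k) :
    eval v (cirrG k q b) = 0 ↔ CEq q b (v ⟨(), 0⟩) (v ⟨(), 1⟩) (v ⟨(), 2⟩) := by
  rw [cirrG, eval_rename, cirrF_eval]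
  rfl

lemma cirrG_prime (q : ℕ) [IsQ k q] (b : Bool) : Prime (cirrG k q b) :=
  ((MulEquiv.irreducible_iff (renameEquiv k cirrE)).2 (cirrF_irr q b)).prime

lemma cirr_mem (q : ℕ) [IsQ k q] (b : Bool) {v : (Vars fun _ : Unit => 2) → k}
    {x : MP k fun _ : Unit => 2} (hv : IsRep v x) :
    x ∈ curves k q (fun _ : Unit => b) ↔ eval v (cirrG k q b) = 0 := by
  obtain ⟨h0, e⟩ := hv ()
  rw [cirrG_eval]
  have e1 : ![v ⟨(), 0⟩, v ⟨(), 1⟩, v ⟨(), 2⟩] = fun s => v ⟨(), s⟩ := by
    funext s; fin_cases s <;> rfl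
  rw [← pt3_mem_curve (by rwa [e1]), ← mk_eq_pt3 (fun s => v ⟨(), s⟩) h0, e]
  exact ⟨fun h => h (), fun h _ => h⟩

lemma cirr_eq (q : ℕ) [IsQ k q] (b : Bool) :
    curves k q (fun _ : Unit => b) = {x | Vanish (cirrG k q b) x} := by
  ext x
  exact ⟨fun h v hv => (cirr_mem q b hv).1 h, fun h => (cirr_mem q b (isRep_rep x)).2
    (h _ (isRep_rep x))⟩

variable [IsAlgClosed k] (q : ℕ) [IsQ k q]

lemma cirr_exists (b : Bool) (y : k) : ∃ x, CEq q b x y 1 := by
  cases b
  · obtain ⟨x, hx⟩ := IsAlgClosed.exists_pow_nat_eq (y ^ q - y) (IsQ.pos k q)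
    exact ⟨x, by simp [CEq, hx]⟩
  · obtain ⟨x, hx⟩ := IsAlgClosed.exists_pow_nat_eq (1 - y ^ (q - 1)) (IsQ.pos k q)
    exact ⟨x, by simp [CEq, hx]⟩

lemma cirr_vI (b : Bool) : vI (curves k q fun _ : Unit => b) = Ideal.span {cirrG k q b} := by
  have hp : (Ideal.span {cirrG k q b}).IsPrime :=
    (Ideal.span_singleton_prime (cirrG_prime q b).ne_zero).2 (cirrG_prime q b)
  refine le_antisymm (fun g hg => ?_) ?_
  · have h1 : g * X ⟨(), 2⟩ ∈ vanishingIdeal k (zeroLocus k (Ideal.span {cirrG k q b})) := by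
      intro v hv
      have hv' : eval v (cirrG k q b) = 0 := hv _ (Ideal.mem_span_singleton_self _)
      show eval v _ = 0
      rw [map_mul, eval_X]
      by_cases h2 : v ⟨(), 2⟩ = 0
      · rw [h2, mul_zero]
      · have h0 : (fun s => v ⟨(), s⟩) ≠ 0 := fun h => h2 (congrFun h 2)
        have hr : IsRep v (fun _ => Projectivization.mk k (fun s => v ⟨(), s⟩) h0 :
            MP k fun _ : Unit => 2) := fun _ => ⟨h0, rfl⟩
        rw [hg _ ((cirr_mem q b hr).2 hv') v hr, zero_mul]
    rw [vanishingIdeal_zeroLocus_eq_radical, hp.radical] at h1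
    refine (hp.mem_or_mem h1).resolve_right fun h2 => ?_
    obtain ⟨x, hx⟩ := cirr_exists q b (0 : k)
    have h3 := map_dvd (eval fun a : Vars fun _ : Unit => 2 => (![x, 0, 1] : Fin 3 → k) a.2)
      (Ideal.mem_span_singleton.1 h2)
    rw [(cirrG_eval q b _).2 hx, eval_X, zero_dvd_iff] at h3
    exact one_ne_zero h3
  · rw [Ideal.span_le, singleton_subset_iff, cirr_eq]
    exact fun x hx => hx

theorem isSub_curve (b : Bool) : IsSub (curves k q fun _ : Unit => b) := by
  refine ⟨isIrreducible_of_prime ?_, ?_⟩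
  · rw [cirr_vI]
    exact (Ideal.span_singleton_prime (cirrG_prime q b).ne_zero).2 (cirrG_prime q b)
  · rw [cirr_eq]
    exact isClosed_vanish _

theorem dim_curve_le (b : Bool) : dim (univ : Set (curves k q fun _ : Unit => b)) ≤ 1 := by
  refine dim_le_of fun r ⟨C, h1, h2⟩ => ?_
  by_contra hr
  obtain ⟨r, rfl⟩ : ∃ r', r = r' + 2 := ⟨r - 2, by omega⟩
  obtain ⟨P, hP, e⟩ := chain_primes C h1 fun i => (h2 i).1
  let M : PrimeSpectrum (MvPolynomial (Vars fun _ : Unit => 2) k) :=
    ⟨RingHom.ker (eval fun _ => (0 : k)), RingHom.ker_isPrime _⟩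
  have h3 : P 0 < M := by
    obtain ⟨x, hx⟩ := (h2 0).1.1.1
    rw [← PrimeSpectrum.asIdeal_lt_asIdeal, e]
    refine lt_of_le_of_ne (fun f hf => ?_) fun h => ?_
    · have h4 := (vanish_iff_orb (isRep_rep x.1) f).1 (hf _ ⟨x, hx, rfl⟩)
      have h5 := eval_orb x.1.rep (fun _ => 0) f
      rw [h4, map_zero] at h5
      show eval _ f = 0
      simpa using h5.symm
    · obtain ⟨s, hs⟩ := Function.ne_iff.1 (x.1 ()).rep_nonzero
      have h4 : X ⟨(), s⟩ ∈ vI (Subtype.val '' C 0) := by
        rw [h]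
        show eval _ _ = 0
        rw [eval_X]
      have h5 := h4 _ ⟨x, hx, rfl⟩ _ (isRep_rep x.1)
      rw [eval_X] at h5
      exact hs h5
  have h4 : (⟨⊥, Ideal.isPrime_bot⟩ : PrimeSpectrum (MvPolynomial (Vars fun _ : Unit => 2) k)) <
      P 2 := by
    rw [← PrimeSpectrum.asIdeal_lt_asIdeal, e, bot_lt_iff_ne_bot]
    intro h
    have h5 : cirrG k q b ∈ vI (Subtype.val '' C 2) := by
      rintro _ ⟨x, -, rfl⟩
      exact (cirr_eq q b).subset x.2
    rw [h, Ideal.mem_bot] at h5
    exact (cirrG_prime q b).ne_zero h5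
  have h5 : P 1 < P 0 := hP (by rw [Fin.lt_def]; simp)
  have h6 : P 2 < P 1 := hP (by
    rw [Fin.lt_def]
    simp [Nat.mod_eq_of_lt (show 2 < r + 2 + 1 by omega)])
  have h7 := strictAnti_le (r := 4) ![M, P 0, P 1, P 2, ⟨⊥, Ideal.isPrime_bot⟩]
    (Fin.strictAnti_iff_succ_lt.2 fun i => by fin_cases i <;> assumption)
  simp at h7

theorem infinite_curve (b : Bool) : (curve k q b).Infinite := by
  refine Set.Infinite.of_image ay (infinite_univ.mono fun y _ => ?_)
  obtain ⟨x, hx⟩ := cirr_exists q b y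
  exact ⟨pt3 x y 1, (pt3_mem_curve (aff_ne_zero x y)).2 hx, ay_aff x y⟩

end Pool.Agent.MP_0c8446_ag

end

section

namespace Pool.Agent.MP_0c8446_ag

open scoped LinearAlgebra.Projectivization
open MvPolynomial Set

universe u v w

section aux
variable {k : Type u} [Field k] {ι : Type}

/-- The projection to one factor. -/
def cprodProj (i : ι) (x : MP k fun _ : ι => 2) : MP k fun _ : Unit => 2 := fun _ => x i

lemma cprod_isMor_proj (i : ι) (S : Set (MP k fun _ : ι => 2)) :
    IsMor fun x : S => (⟨cprodProj i x.1, mem_univ _⟩ : (univ : Set (MP k fun _ : Unit => 2))) :=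
  isMor_of_global (fun a => X ⟨i, a.2⟩) fun y v hv _ => by simpa [cprodProj] using hv i

lemma cprod_continuous_proj (i : ι) : Continuous (cprodProj (k := k) i) :=
  continuous_subtype_val.comp ((cprod_isMor_proj i univ).continuous.comp
    (continuous_id.subtype_mk fun x => mem_univ x))

variable [DecidableEq ι] {q : ℕ} {τ : ι → Bool}

/-- Replace the `i`-th coordinate. -/
def cprodUpd (i : ι) (a : curves k q fun _ : Unit => τ i) (x : curves k q τ) : curves k q τ :=
  ⟨Function.update x.1 i (a.1 ()), fun j => by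
    by_cases h : j = i
    · subst h
      simpa using a.2 ()
    · simpa [Function.update_of_ne h] using x.2 j⟩

lemma cprod_upd_self (i : ι) (a : curves k q fun _ : Unit => τ i) (x : curves k q τ) :
    (cprodUpd i a x).1 i = a.1 () := by simp [cprodUpd]

lemma cprod_upd_ne {i j : ι} (h : j ≠ i) (a : curves k q fun _ : Unit => τ i) (x : curves k q τ) :
    (cprodUpd i a x).1 j = x.1 j := by simp [cprodUpd, Function.update_of_ne h]

lemma cprod_continuous_right (i : ι) (a : curves k q fun _ : Unit => τ i) :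
    Continuous (cprodUpd i a) := by
  refine IsMor.continuous (isMor_of_global
    (fun s => if s.1 = i then C (a.1.rep ⟨(), s.2⟩) else X s) fun y v hv j => ?_)
  by_cases h : j = i
  · subst h
    rw [cprod_upd_self]
    simpa using isRep_rep a.1 ()
  · rw [cprod_upd_ne h]
    simpa [h] using hv j

lemma cprod_continuous_left (i : ι) (x : curves k q τ) :
    Continuous fun a : curves k q fun _ : Unit => τ i => cprodUpd i a x := by
  refine IsMor.continuous (isMor_of_global
    (fun s => if s.1 = i then X ⟨(), s.2⟩ else C (x.1.rep s)) fun y v hv j => ?_)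
  by_cases h : j = i
  · subst h
    rw [cprod_upd_self]
    simpa using hv ()
  · rw [cprod_upd_ne h]
    simpa [h] using isRep_rep x.1 j

omit [DecidableEq ι] in
/-- The points that agree with `x₀` outside `J`. -/
def cprodSlice (x₀ : curves k q τ) (J : Finset ι) : Set (curves k q τ) :=
  {x | ∀ i, i ∉ J → x.1 i = x₀.1 i}

omit [DecidableEq ι] in
lemma cprod_isClosed_slice (x₀ : curves k q τ) (J : Finset ι) : IsClosed (cprodSlice x₀ J) := by
  simp only [cprodSlice, ofPred_forall]
  refine isClosed_iInter fun i => isClosed_iInter fun _ => ?_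
  have := isClosed_eq_mor (cprod_isMor_proj i (curves k q τ))
    (isMor_const (⟨cprodProj i x₀.1, mem_univ _⟩ : (univ : Set (MP k fun _ : Unit => 2))))
  convert this using 1
  ext x
  simp only [mem_ofPred_eq, Subtype.mk.injEq]
  exact ⟨fun h => funext fun _ => h, fun h => congrFun h ()⟩

omit [DecidableEq ι] in
lemma cprod_slice_empty (x₀ : curves k q τ) : cprodSlice x₀ ∅ = {x₀} := by
  ext x
  simp only [cprodSlice, Finset.notMem_empty, not_false_eq_true, forall_const, mem_ofPred_eq,
    mem_singleton_iff]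
  exact ⟨fun h => Subtype.ext (funext h), fun h _ => h ▸ rfl⟩

lemma cprod_slice_insert (x₀ : curves k q τ) {J : Finset ι} {i : ι} (hi : i ∉ J) :
    cprodSlice x₀ (insert i J) = image2 (cprodUpd i) univ (cprodSlice x₀ J) := by
  ext x
  constructor
  · intro hx
    refine ⟨⟨cprodProj i x.1, fun _ => x.2 i⟩, mem_univ _,
      cprodUpd i ⟨cprodProj i x₀.1, fun _ => x₀.2 i⟩ x, fun j hj => ?_, Subtype.ext ?_⟩
    · by_cases h : j = i
      · subst h
        exact cprod_upd_self _ _ _
      · rw [cprod_upd_ne h]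
        exact hx j (by simp [h, hj])
    · funext j
      by_cases h : j = i
      · subst h
        exact cprod_upd_self _ _ _
      · rw [cprod_upd_ne h, cprod_upd_ne h]
  · rintro ⟨a, -, y, hy, rfl⟩ j hj
    rw [Finset.mem_insert, not_or] at hj
    rw [cprod_upd_ne hj.1]
    exact hy j hj.2

end aux

variable {k : Type u} [Field k] [IsAlgClosed k] (q : ℕ) [IsQ k q]

lemma cprod_chain {ι : Type} {τ : ι → Bool} (x₀ : curves k q τ) (J : Finset ι) :
    IsSub (cprodSlice x₀ J) ∧ HasChain (cprodSlice x₀ J) J.card := by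
  classical
  induction J using Finset.induction_on with
  | empty =>
    rw [cprod_slice_empty]
    exact ⟨isSub_singleton x₀, (isSub_singleton x₀).hasChain_zero subset_rfl⟩
  | @insert i J hi ih =>
    have h1 : IsSub (cprodSlice x₀ (insert i J)) := by
      refine ⟨?_, cprod_isClosed_slice _ _⟩
      rw [cprod_slice_insert x₀ hi]
      have := Subtype.irreducibleSpace (isSub_curve (k := k) q (τ i)).1
      exact isIrreducible_image2 (cprod_continuous_right i) (cprod_continuous_left i)
        (IrreducibleSpace.isIrreducible_univ _) ih.1.1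
    refine ⟨h1, ?_⟩
    rw [Finset.card_insert_of_notMem hi]
    refine ih.2.succ ⟨fun x hx j hj => hx j fun h => hj (Finset.mem_insert_of_mem h), fun h => ?_⟩ h1
    obtain ⟨P, hP, hne⟩ := (infinite_curve (k := k) q (τ i)).exists_notMem_finset {x₀.1 i}
    have h2 : cprodUpd i ⟨fun _ => P, fun _ => hP⟩ x₀ ∈ cprodSlice x₀ (insert i J) := fun j hj =>
      cprod_upd_ne (fun e => hj (Finset.mem_insert.2 (Or.inl e))) _ _
    have h3 := h h2 i hi
    rw [cprod_upd_self] at h3
    exact hne (Finset.mem_singleton.2 h3)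

lemma cprod_univ {ι : Type} [Fintype ι] (τ : ι → Bool) :
    IsSub (univ : Set (curves k q τ)) ∧ HasChain (univ : Set (curves k q τ)) (Fintype.card ι) := by
  choose P hP using fun i => (infinite_curve (k := k) q (τ i)).nonempty
  have := cprod_chain q (⟨P, hP⟩ : curves k q τ) Finset.univ
  rwa [show cprodSlice (⟨P, hP⟩ : curves k q τ) Finset.univ = univ from
    eq_univ_of_forall fun x i hi => absurd (Finset.mem_univ i) hi] at this

theorem isSub_curves {ι : Type} [Fintype ι] (τ : ι → Bool) : IsSub (curves k q τ) := by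
  refine ⟨?_, ?_⟩
  · have := (cprod_univ (k := k) q τ).1.1.image _ continuous_subtype_val.continuousOn
    rwa [image_univ, Subtype.range_coe] at this
  · have e : curves k q τ = ⋂ i, cprodProj i ⁻¹' curves k q fun _ : Unit => τ i := by
      ext x
      simp only [mem_iInter, mem_preimage]
      exact ⟨fun h i _ => h i, fun h i => h i ()⟩
    rw [e]
    exact isClosed_iInter fun i => (isSub_curve q (τ i)).2.preimage (cprod_continuous_proj i)

theorem le_dim_curves {ι : Type} [Fintype ι] (τ : ι → Bool) :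
    Fintype.card ι ≤ dim (univ : Set (curves k q τ)) :=
  (cprod_univ q τ).2.le_dim

end Pool.Agent.MP_0c8446_ag

end
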