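import Pool.Agent.Mg.F0c8446.G3d10fc
import Pool.Agent.Mg.F0c8446.G37419f
import Pool.Agent.Mg.F0c8446.G24c86c
import Pool.Agent.Mg.F0c8446.Gaba67e
import Pool.Agent.MP_0c8446_ag.CL.Defs

section

namespace Pool.Agent.MP_0c8446_ag

open MvPolynomial Set

universe u v w

variable {k : Type u} [Field k] {Ω Ω' : Type u} [Field Ω] [Algebra k Ω] [Field Ω'] [Algebra k Ω']

namespace Place

variable (Pl : Place k Ω Ω') {x y : Ω}

theorem red_of_mem (hx : x ∈ Pl.O) : Pl.red x = Pl.π ⟨x, hx⟩ := dif_pos hx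

theorem Plc_coe (a : Pl.O) : Pl.red a = Pl.π a := Pl.red_of_mem a.2

theorem red_zero : Pl.red 0 = 0 := (Pl.Plc_coe 0).trans (map_zero _)

theorem red_one : Pl.red 1 = 1 := (Pl.Plc_coe 1).trans (map_one _)

theorem red_algebraMap (c : k) : Pl.red (algebraMap k Ω c) = algebraMap k Ω' c :=
  (Pl.Plc_coe (algebraMap k _ c)).trans (Pl.π.commutes c)

theorem red_add (hx : x ∈ Pl.O) (hy : y ∈ Pl.O) : Pl.red (x + y) = Pl.red x + Pl.red y := by
  rw [Pl.red_of_mem hx, Pl.red_of_mem hy, ← map_add]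
  exact Pl.red_of_mem (add_mem hx hy)

theorem red_sub (hx : x ∈ Pl.O) (hy : y ∈ Pl.O) : Pl.red (x - y) = Pl.red x - Pl.red y := by
  rw [Pl.red_of_mem hx, Pl.red_of_mem hy, ← map_sub]
  exact Pl.red_of_mem (sub_mem hx hy)

theorem red_mul (hx : x ∈ Pl.O) (hy : y ∈ Pl.O) : Pl.red (x * y) = Pl.red x * Pl.red y := by
  rw [Pl.red_of_mem hx, Pl.red_of_mem hy, ← map_mul]
  exact Pl.red_of_mem (mul_mem hx hy)

theorem red_pow (hx : x ∈ Pl.O) (r : ℕ) : Pl.red (x ^ r) = Pl.red x ^ r := by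
  rw [Pl.red_of_mem hx, ← map_pow]
  exact Pl.red_of_mem (pow_mem hx r)

theorem red_sum {α : Type*} (s : Finset α) {f : α → Ω} (h : ∀ a ∈ s, f a ∈ Pl.O) :
    Pl.red (∑ a ∈ s, f a) = ∑ a ∈ s, Pl.red (f a) := by
  classical
  induction s using Finset.induction_on with
  | empty => simpa using Pl.red_zero
  | insert a s ha ih =>
    have h1 : ∀ b ∈ s, f b ∈ Pl.O := fun b hb => h b (Finset.mem_insert_of_mem hb)
    rw [Finset.sum_insert ha, Finset.sum_insert ha,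
      Pl.red_add (h a (Finset.mem_insert_self a s)) (sum_mem h1), ih h1]

theorem aeval_mem {σ : Type*} {z : σ → Ω} (h : ∀ s, z s ∈ Pl.O) (f : MvPolynomial σ k) :
    aeval z f ∈ Pl.O := by
  induction f using MvPolynomial.induction_on with
  | C c => rw [aeval_C]; exact Pl.O.algebraMap_mem c
  | add f g hf hg => rw [map_add]; exact add_mem hf hg
  | mul_X f s hf => rw [map_mul, aeval_X]; exact mul_mem hf (h s)

theorem red_aeval {σ : Type*} {z : σ → Ω} (h : ∀ s, z s ∈ Pl.O) (f : MvPolynomial σ k) :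
    Pl.red (aeval z f) = aeval (fun s => Pl.red (z s)) f := by
  induction f using MvPolynomial.induction_on with
  | C c => rw [aeval_C, aeval_C, red_algebraMap]
  | add f g hf hg => rw [map_add, map_add, Pl.red_add (Pl.aeval_mem h f) (Pl.aeval_mem h g), hf, hg]
  | mul_X f s hf => rw [map_mul, map_mul, aeval_X, aeval_X, Pl.red_mul (Pl.aeval_mem h f) (h s), hf]

theorem inv_mem (hx : x ∈ Pl.O) (h : Pl.red x ≠ 0) : x⁻¹ ∈ Pl.O :=
  Pl.inv ⟨x, hx⟩ (Pl.red_of_mem hx ▸ h)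

theorem red_inv (hx : x ∈ Pl.O) (h : Pl.red x ≠ 0) : Pl.red x⁻¹ = (Pl.red x)⁻¹ := by
  have h0 : x ≠ 0 := fun e => h (e ▸ Pl.red_zero)
  refine eq_inv_of_mul_eq_one_right ?_
  rw [← Pl.red_mul hx (Pl.inv_mem hx h), mul_inv_cancel₀ h0, red_one]

theorem red_div (hx : x ∈ Pl.O) (hy : y ∈ Pl.O) (h : Pl.red y ≠ 0) :
    x / y ∈ Pl.O ∧ Pl.red (x / y) = Pl.red x / Pl.red y := by
  rw [div_eq_mul_inv, div_eq_mul_inv, Pl.red_mul hx (Pl.inv_mem hy h), Pl.red_inv hy h]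
  exact ⟨mul_mem hx (Pl.inv_mem hy h), rfl⟩

theorem red_ne_zero (hx : x ∈ Pl.O) (hx' : x⁻¹ ∈ Pl.O) (h : x ≠ 0) : Pl.red x ≠ 0 :=
  left_ne_zero_of_mul_eq_one (b := Pl.red x⁻¹)
    (by rw [← Pl.red_mul hx hx', mul_inv_cancel₀ h, red_one])

theorem inv_of_notMem (hx : x ∉ Pl.O) : x ≠ 0 ∧ x⁻¹ ∈ Pl.O ∧ Pl.red x⁻¹ = 0 :=
  have h := (Pl.tot x).resolve_left hx
  ⟨fun e => hx (e ▸ zero_mem _), h, by_contra fun h1 => hx (inv_inv x ▸ Pl.inv_mem h h1)⟩

theorem mem_of_pow {r : ℕ} (hr : 0 < r) (h : x ^ r ∈ Pl.O) : x ∈ Pl.O := by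
  by_contra hx
  obtain ⟨h0, h1, h2⟩ := Pl.inv_of_notMem hx
  have h3 := Pl.red_mul h (pow_mem h1 r)
  rw [← mul_pow, mul_inv_cancel₀ h0, one_pow, red_one, Pl.red_pow h1, h2, zero_pow hr.ne',
    mul_zero] at h3
  exact one_ne_zero h3

theorem exists_max {ε : Type*} [Finite ε] {z : ε → Ω} (h : ∃ s, z s ≠ 0) :
    ∃ s₀, z s₀ ≠ 0 ∧ ∀ s, z s / z s₀ ∈ Pl.O := by
  classical
  have := Fintype.ofFinite ε
  have key : ∀ T : Finset ε, ∃ s₀, z s₀ ≠ 0 ∧ ∀ s ∈ T, z s / z s₀ ∈ Pl.O := fun T => by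
    induction T using Finset.induction_on with
    | empty => exact h.imp fun s hs => ⟨hs, by simp⟩
    | insert a T _ ih =>
      obtain ⟨s₀, h0, h1⟩ := ih
      by_cases ha : z a / z s₀ ∈ Pl.O
      · exact ⟨s₀, h0, Finset.forall_mem_insert _ _ _ |>.2 ⟨ha, h1⟩⟩
      · obtain ⟨h2, h3, -⟩ := Pl.inv_of_notMem ha
        have h4 : z a ≠ 0 := fun e => h2 (by rw [e, zero_div])
        refine ⟨a, h4, Finset.forall_mem_insert _ _ _ |>.2 ⟨?_, fun s hs => ?_⟩⟩
        · rw [div_self h4]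
          exact one_mem _
        · have h5 := mul_mem (h1 s hs) h3
          rwa [inv_div, div_mul_div_cancel₀ h0] at h5
  exact (key Finset.univ).imp fun s₀ hs => ⟨hs.1, fun s => hs.2 s (Finset.mem_univ s)⟩

theorem par_unit {ε : Type*} {z z' : ε → Ω} {t : Ω} (hz : ∀ s, z s ∈ Pl.O)
    (hz' : ∀ s, z' s ∈ Pl.O) (e : ∀ s, z' s = t * z s) (h : ∃ s, Pl.red (z s) ≠ 0)
    (h' : ∃ s, Pl.red (z' s) ≠ 0) : t ∈ Pl.O ∧ Pl.red t ≠ 0 := by
  have ht : t ∈ Pl.O := by
    by_contra ht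
    obtain ⟨h0, h1, h2⟩ := Pl.inv_of_notMem ht
    obtain ⟨s, hs⟩ := h
    have h3 := Pl.red_mul h1 (hz' s)
    rw [e, inv_mul_cancel_left₀ h0, h2, zero_mul] at h3
    exact hs h3
  obtain ⟨s, hs⟩ := h'
  rw [e, Pl.red_mul ht (hz s)] at hs
  exact ⟨ht, left_ne_zero_of_mul hs⟩

theorem kr_le {σ : Type} {z : σ → Ω} (h : ∀ s, z s ∈ Pl.O) :
    kr k z ≤ kr k fun s => Pl.red (z s) := fun f hf => by
  rw [kr, RingHom.mem_ker] at hf ⊢
  rw [← Pl.red_aeval h, hf, red_zero]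

/-- Reduction of matrices is multiplicative. -/
theorem map_red_mul {l m n : Type*} [Fintype m] {A : Matrix l m Ω} {B : Matrix m n Ω}
    (hA : ∀ a b, A a b ∈ Pl.O) (hB : ∀ a b, B a b ∈ Pl.O) :
    (∀ a b, (A * B) a b ∈ Pl.O) ∧ (A * B).map Pl.red = A.map Pl.red * B.map Pl.red := by
  refine ⟨fun a b => sum_mem fun c _ => mul_mem (hA a c) (hB c b), Matrix.ext fun a b => ?_⟩
  simp only [Matrix.map_apply, Matrix.mul_apply]
  rw [Pl.red_sum _ fun c _ => mul_mem (hA a c) (hB c b)]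
  exact Finset.sum_congr rfl fun c _ => Pl.red_mul (hA a c) (hB c b)

theorem Plc_lift {l m : Type*} {A : Matrix l m Ω} (hA : ∀ a b, A a b ∈ Pl.O) :
    ∃ A₀ : Matrix l m Pl.O, A = A₀.map Pl.O.val :=
  ⟨fun a b => ⟨A a b, hA a b⟩, rfl⟩

theorem Plc_map {l m : Type*} (A₀ : Matrix l m Pl.O) :
    (A₀.map Pl.O.val).map Pl.red = A₀.map Pl.π :=
  Matrix.ext fun a b => Pl.Plc_coe (A₀ a b)

theorem Plc_one {n : Type*} [DecidableEq n] : (1 : Matrix n n Ω).map Pl.red = 1 :=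
  Matrix.map_one _ Pl.red_zero Pl.red_one

theorem red_det {n : Type*} [Fintype n] [DecidableEq n] {A : Matrix n n Ω}
    (hA : ∀ a b, A a b ∈ Pl.O) : A.det ∈ Pl.O ∧ Pl.red A.det = (A.map Pl.red).det := by
  obtain ⟨A₀, rfl⟩ := Pl.Plc_lift hA
  have e : (A₀.map Pl.O.val).det = (A₀.det : Ω) := (Pl.O.val.map_det A₀).symm
  rw [Plc_map, e, Plc_coe]
  exact ⟨A₀.det.2, Pl.π.map_det A₀⟩

/-- An integral matrix with invertible reduction has an integral inverse. -/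
theorem inv_mem_matrix {n : Type*} [Fintype n] [DecidableEq n] {A : Matrix n n Ω}
    (hA : ∀ a b, A a b ∈ Pl.O) (h : IsUnit (A.map Pl.red)) :
    IsUnit A ∧ (∀ a b, A⁻¹ a b ∈ Pl.O) ∧ A⁻¹.map Pl.red = (A.map Pl.red)⁻¹ := by
  obtain ⟨h1, h2⟩ := Pl.red_det hA
  have h3 : Pl.red A.det ≠ 0 := h2 ▸ ((Matrix.isUnit_iff_isUnit_det _).1 h).ne_zero
  have h4 : IsUnit A.det := Ne.isUnit fun e => h3 (e ▸ Pl.red_zero)
  have h5 : ∀ a b, A⁻¹ a b ∈ Pl.O := fun a b => by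
    rw [Matrix.inv_def, Matrix.smul_apply, smul_eq_mul, Ring.inverse_eq_inv']
    refine mul_mem (Pl.inv_mem h1 h3) ?_
    obtain ⟨A₀, rfl⟩ := Pl.Plc_lift hA
    have e : (A₀.map Pl.O.val).adjugate = A₀.adjugate.map Pl.O.val :=
      (Pl.O.val.map_adjugate A₀).symm
    rw [e]
    exact (A₀.adjugate a b).2
  refine ⟨(Matrix.isUnit_iff_isUnit_det _).2 h4, h5, (Matrix.inv_eq_right_inv ?_).symm⟩
  rw [← (Pl.map_red_mul hA h5).2, Matrix.mul_nonsing_inv _ h4, Plc_one]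

theorem isUnit_map_red {n : Type*} [Fintype n] [DecidableEq n] {A : Matrix n n Ω}
    (hA : ∀ a b, A a b ∈ Pl.O) (hA' : ∀ a b, A⁻¹ a b ∈ Pl.O) (h : IsUnit A) :
    IsUnit (A.map Pl.red) := by
  refine IsUnit.of_mul_eq_one (A⁻¹.map Pl.red) ?_
  rw [← (Pl.map_red_mul hA hA').2, Matrix.mul_nonsing_inv _ ((Matrix.isUnit_iff_isUnit_det _).1 h),
    Plc_one]

variable {ι : Type} {n : ι → ℕ} {v v' : Vars n → Ω}

theorem pI_le (h : ∀ a, v a ∈ Pl.O) : pI k v ≤ pI k fun a => Pl.red (v a) :=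
  pI_le_of_kr_le (Pl.kr_le h)

theorem exists_sc (hv : NZb v) :
    ∃ t : ι → Ω, (∀ i, t i ≠ 0) ∧ (∀ a, sc t v a ∈ Pl.O) ∧ NZb fun a => Pl.red (sc t v a) := by
  choose s hs hs' using fun i => Pl.exists_max (z := fun s => v ⟨i, s⟩) (hv i)
  refine ⟨fun i => (v ⟨i, s i⟩)⁻¹, fun i => inv_ne_zero (hs i), fun a => ?_, fun i => ⟨s i, ?_⟩⟩
  · have := hs' a.1 a.2
    rwa [div_eq_inv_mul] at this
  · show Pl.red ((v ⟨i, s i⟩)⁻¹ * v ⟨i, s i⟩) ≠ 0
    rw [inv_mul_cancel₀ (hs i), red_one]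
    exact one_ne_zero

theorem par_red {I : Set ι} (h : ParOn I v v') (hv : ∀ a, a.1 ∈ I → v a ∈ Pl.O)
    (hv' : ∀ a, a.1 ∈ I → v' a ∈ Pl.O) (h1 : ∀ i ∈ I, ∃ s, Pl.red (v ⟨i, s⟩) ≠ 0)
    (h2 : ∀ i ∈ I, ∃ s, Pl.red (v' ⟨i, s⟩) ≠ 0) :
    ParOn I (fun a => Pl.red (v a)) fun a => Pl.red (v' a) := fun i hi => by
  obtain ⟨t, -, ht⟩ := h i hi
  obtain ⟨a1, a2⟩ := Pl.par_unit (fun s => hv ⟨i, s⟩ hi) (fun s => hv' ⟨i, s⟩ hi) ht (h1 i hi)
    (h2 i hi)
  exact ⟨Pl.red t, a2, fun s => (congrArg Pl.red (ht s)).trans (Pl.red_mul a1 (hv ⟨i, s⟩ hi))⟩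

end Place

end Pool.Agent.MP_0c8446_ag

end

section

namespace Pool.Agent.MP_0c8446_ag

open MvPolynomial Set

universe u v w

variable {k : Type u} [Field k] {Ω Ω' : Type u} [Field Ω] [Algebra k Ω] [Field Ω'] [Algebra k Ω']

/-- graphs of homomorphisms defined on subalgebras -/
def Plc2AFn (G : Subalgebra k (Ω × Ω')) : Prop := ∀ z ∈ G, z.1 = 0 → z.2 = 0

theorem Plc2A_max {G₀ : Subalgebra k (Ω × Ω')} (h : Plc2AFn G₀) :
    ∃ G, G₀ ≤ G ∧ Maximal Plc2AFn G := by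
  refine zorn_le_nonempty₀ {G | Plc2AFn G} (fun c hc hc' y hy => ?_) G₀ h
  have : Nonempty c := ⟨⟨y, hy⟩⟩
  refine ⟨⨆ i : c, i.1, fun z hz => ?_, fun z hz => le_iSup (fun i : c => i.1) ⟨z, hz⟩⟩
  rw [← SetLike.mem_coe, Subalgebra.coe_iSup_of_directed hc'.directed] at hz
  obtain ⟨i, hi⟩ := mem_iUnion.1 hz
  exact hc i.2 z hi

theorem Plc2A_inv {G : Subalgebra k (Ω × Ω')} (h : Maximal Plc2AFn G) {z : Ω × Ω'} (hz : z ∈ G)
    (h0 : z.2 ≠ 0) : z⁻¹ ∈ G := by
  let G' : Subalgebra k (Ω × Ω') :=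
    { carrier := {w | ∃ n : ℕ, w * z ^ n ∈ G}
      mul_mem' := by
        rintro a b ⟨m, ha⟩ ⟨n, hb⟩
        exact ⟨m + n, by convert mul_mem ha hb using 1; ring⟩
      add_mem' := by
        rintro a b ⟨m, ha⟩ ⟨n, hb⟩
        exact ⟨m + n, by
          convert add_mem (mul_mem ha (pow_mem hz n)) (mul_mem hb (pow_mem hz m)) using 1; ring⟩
      algebraMap_mem' := fun c => ⟨0, by rw [pow_zero, mul_one]; exact G.algebraMap_mem c⟩ }
  have h1 : Plc2AFn G' := by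
    rintro w ⟨n, hw⟩ hw0
    have h2 := h.1 _ hw (by simp [hw0])
    simpa [h0] using h2
  refine h.2 h1 (fun w hw => ⟨0, by simpa using hw⟩) ⟨1, ?_⟩
  have h3 : z.1 ≠ 0 := fun h3 => h0 (h.1 z hz h3)
  have h4 : z⁻¹ * z ^ 1 = 1 := Prod.ext (by simp [h3]) (by simp [h0])
  rw [h4]
  exact one_mem G

theorem Plc2A_ext {G : Subalgebra k (Ω × Ω')} (h : Maximal Plc2AFn G) {z : Ω × Ω'}
    (hz : ∀ p : Polynomial G, (p.aeval z).1 = 0 → (p.aeval z).2 = 0) : z ∈ G := by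
  refine h.2 (y := ((Polynomial.aeval z : Polynomial G →ₐ[G] Ω × Ω').restrictScalars k).range)
    ?_ (fun w hw => ⟨Polynomial.C ⟨w, hw⟩, by simp⟩) ⟨Polynomial.X, by simp⟩
  rintro _ ⟨p, rfl⟩
  exact hz p

theorem Plc2A_val [IsAlgClosed Ω'] {G : Subalgebra k (Ω × Ω')} (h : Maximal Plc2AFn G)
    (V : ValuationSubring Ω) (h1 : ∀ z ∈ G, z.2 = 0 → V.valuation z.1 < 1) {x : Ω} (hx : x ∈ V) :
    ∃ y, (x, y) ∈ G := by
  let κ : Subfield Ω' :=
    { (G.map (AlgHom.snd k Ω Ω')).toSubring with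
      inv_mem' := by
        rintro _ ⟨z, hz, rfl⟩
        by_cases h0 : z.2 = 0
        · exact ⟨z, hz, by simp [h0]⟩
        · exact ⟨z⁻¹, Plc2A_inv h hz h0, rfl⟩ }
  let f : G →+* Ω := (RingHom.fst Ω Ω').comp (algebraMap G (Ω × Ω'))
  let ψ : G →+* κ := ((RingHom.snd Ω Ω').comp (algebraMap G (Ω × Ω'))).codRestrict κ
    fun z => ⟨z, z.2, rfl⟩
  have hψ : Function.Surjective ψ := by
    rintro ⟨_, z, hz, rfl⟩
    exact ⟨⟨z, hz⟩, rfl⟩
  have hψ' : Function.Surjective (Polynomial.mapRingHom ψ) := Polynomial.map_surjective ψ hψ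
  let J := (RingHom.ker (Polynomial.eval₂RingHom f x)).map (Polynomial.mapRingHom ψ)
  have hJ : J ≠ ⊤ := by
    intro hJ
    obtain ⟨p, hp, hp1⟩ := (Ideal.mem_map_iff_of_surjective _ hψ').1 ((Ideal.eq_top_iff_one J).1 hJ)
    have h2 : (1 - p).map ψ = 0 := by
      rw [Polynomial.map_sub, Polynomial.map_one]
      exact sub_eq_zero.2 hp1.symm
    have h3 : (1 - p).eval₂ f x = 1 := by
      rw [Polynomial.eval₂_sub, Polynomial.eval₂_one]
      exact sub_eq_self.2 hp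
    have h4 : V.valuation ((1 - p).eval₂ f x) < 1 := by
      rw [Polynomial.eval₂_eq_sum_range]
      refine V.valuation.map_sum_lt one_ne_zero fun i _ => ?_
      have h5 := congrArg (fun q => (q.coeff i : Ω')) h2
      simp only [Polynomial.coeff_map, Polynomial.coeff_zero] at h5
      rw [map_mul, map_pow]
      exact (mul_le_of_le_one_right' (pow_le_one' ((V.valuation_le_one_iff x).2 hx) i)).trans_lt
        (h1 _ ((1 - p).coeff i).2 h5)
    rw [h3, map_one] at h4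
    exact h4.false
  obtain ⟨g, hg⟩ := (IsPrincipalIdealRing.principal J).principal
  obtain ⟨y, hy⟩ := IsAlgClosed.exists_aeval_eq_zero Ω' g fun h0 =>
    hJ (hg.trans (Ideal.span_singleton_eq_top.2 (Polynomial.isUnit_iff_degree_eq_zero.2 h0)))
  refine ⟨y, Plc2A_ext h fun p hp => ?_⟩
  have h2 : (p.aeval (x, y)).1 = p.eval₂ f x :=
    Polynomial.hom_eval₂ p _ (RingHom.fst Ω Ω') (x, y)
  have h3 : (p.aeval (x, y)).2 = (p.map ψ).aeval y :=
    (Polynomial.hom_eval₂ p _ (RingHom.snd Ω Ω') (x, y)).trans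
      (Polynomial.eval₂_map ψ (algebraMap κ Ω') y).symm
  have h4 : p.map ψ ∈ J := Ideal.mem_map_of_mem _ (h2.symm.trans hp)
  obtain ⟨q, hq⟩ := Ideal.mem_span_singleton'.1 (hg ▸ h4)
  rw [h3, ← hq, map_mul, hy, mul_zero]

theorem Plc2A_main [IsAlgClosed Ω'] {G₀ : Subalgebra k (Ω × Ω')} (h₀ : Plc2AFn G₀) :
    ∃ Pl : Place k Ω Ω', ∀ z ∈ G₀, z.1 ∈ Pl.O ∧ Pl.red z.1 = z.2 := by
  obtain ⟨G, hG, h⟩ := Plc2A_max h₀
  let f : G →ₐ[k] Ω := (AlgHom.fst k Ω Ω').comp G.val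
  have hf : Function.Injective f := (injective_iff_map_eq_zero f).2 fun z hz =>
    Subtype.ext (Prod.ext hz (h.1 z z.2 hz))
  let π : f.range →ₐ[k] Ω' :=
    ((AlgHom.snd k Ω Ω').comp G.val).comp (AlgEquiv.ofInjective f hf).symm
  have hπ : ∀ z : G, π ⟨z.1.1, z, rfl⟩ = z.1.2 := fun z =>
    congrArg (fun w : G => w.1.2) ((AlgEquiv.ofInjective f hf).symm_apply_apply z)
  obtain ⟨V, -, hV⟩ := Ideal.image_subset_nonunits_valuationSubring (A := f.range.toSubring)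
    (RingHom.ker π.toRingHom) (RingHom.ker_ne_top _)
  have h1 : ∀ x ∈ V, x ∈ f.range := fun x hx => by
    obtain ⟨y, hy⟩ := Plc2A_val h V (fun z hz h0 =>
      V.mem_nonunits_iff.1 (hV ⟨⟨z.1, ⟨z, hz⟩, rfl⟩, (hπ ⟨z, hz⟩).trans h0, rfl⟩)) hx
    exact ⟨⟨_, hy⟩, rfl⟩
  refine ⟨⟨f.range, fun x => (V.mem_or_inv_mem x).imp (h1 _) (h1 _), π, ?_⟩, fun z hz =>
    ⟨⟨⟨z, hG hz⟩, rfl⟩,
      (dif_pos (show z.1 ∈ f.range from ⟨⟨z, hG hz⟩, rfl⟩)).trans (hπ ⟨z, hG hz⟩)⟩⟩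
  rintro ⟨_, z, rfl⟩ h0
  exact ⟨⟨z.1⁻¹, Plc2A_inv h z.2 fun h2 => h0 ((hπ z).trans h2)⟩, rfl⟩

/-- Extension of homomorphisms to places. -/
theorem exists_place' [IsAlgClosed Ω'] (B : Subalgebra k Ω) (φ : B →ₐ[k] Ω') :
    ∃ Pl : Place k Ω Ω', ∀ b : B, (b : Ω) ∈ Pl.O ∧ Pl.red b = φ b := by
  obtain ⟨Pl, h⟩ := Plc2A_main (G₀ := (B.val.prod φ).range) (by
    rintro _ ⟨b, rfl⟩ hb
    obtain rfl : b = 0 := Subtype.ext hb
    exact map_zero φ)
  exact ⟨Pl, fun b => h _ ⟨b, rfl⟩⟩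

theorem exists_place [IsAlgClosed Ω'] {σ : Type} {x : σ → Ω} {y : σ → Ω'} (h : kr k x ≤ kr k y) :
    ∃ Pl : Place k Ω Ω', ∀ s, x s ∈ Pl.O ∧ Pl.red (x s) = y s := by
  obtain ⟨Pl, h⟩ := Plc2A_main (G₀ := ((aeval (R := k) x).prod (aeval y)).range) (by
    rintro _ ⟨p, rfl⟩ hp
    exact h hp)
  exact ⟨Pl, fun s => h (x s, y s) ⟨X s, by simp⟩⟩

theorem exists_place_pI [IsAlgClosed Ω'] {ι : Type} [Finite ι] {n : ι → ℕ} {v : Vars n → Ω}
    {u : Vars n → Ω'} (hu : NZb u) (h : pI k v ≤ pI k u) :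
    ∃ (Pl : Place k Ω Ω') (v' : Vars n → Ω), ParOn univ v v' ∧ (∀ a, v' a ∈ Pl.O) ∧
      ParOn univ u fun a => Pl.red (v' a) := by
  choose s hs using hu
  have := Fintype.ofFinite (Vars n)
  have hv : ∀ i, v ⟨i, s i⟩ ≠ 0 := fun i h0 => hs i (by
    simpa using pI_le_iff.1 h _ _ (isForm_X ⟨i, s i⟩) (by simpa using h0))
  have h1 := kr_frac_le (d := fun a : Vars n => Finsupp.single a.1 1) (F := fun a => X a)
    (G := fun a => X ⟨a.1, s a.1⟩) isForm_X (fun a => isForm_X ⟨a.1, s a.1⟩) h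
    fun a => by simpa using hs a.1
  simp only [aeval_X] at h1
  obtain ⟨Pl, h2⟩ := exists_place h1
  refine ⟨Pl, _, fun i _ => ⟨_, inv_ne_zero (hv i), fun t => div_eq_inv_mul _ _⟩,
    fun a => (h2 a).1, fun i _ => ⟨_, inv_ne_zero (hs i), fun t => ?_⟩⟩
  exact (h2 ⟨i, t⟩).2.trans (div_eq_inv_mul _ _)

end Pool.Agent.MP_0c8446_ag

end

section

namespace Pool.Agent.MP_0c8446_ag

open MvPolynomial Set

universe u v w

variable {k : Type u} [Field k] {Ω Ω' : Type u} [Field Ω] [Algebra k Ω] [Field Ω'] [Algebra k Ω']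

theorem Plc2_ext [IsAlgClosed Ω'] (A : Subalgebra k Ω) {y : Ω} (hy : Transcendental A y)
    (ψ : A →ₐ[k] Ω') (a : Ω') : ∃ Pl : Place k Ω Ω',
      (∀ b : A, (b : Ω) ∈ Pl.O ∧ Pl.red b = ψ b) ∧ y ∈ Pl.O ∧ Pl.red y = a := by
  let ev : Polynomial A →ₐ[k] Ω := (Polynomial.aeval (R := A) y).restrictScalars k
  have hev : Function.Injective ev := transcendental_iff_injective.1 hy
  let χ : Polynomial A →ₐ[k] Ω' := Polynomial.eval₂AlgHom ψ a fun _ => Commute.all _ _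
  obtain ⟨Pl, hPl⟩ := exists_place' ev.range (χ.comp (AlgEquiv.ofInjective ev hev).symm.toAlgHom)
  have key : ∀ f : Polynomial A, ev f ∈ Pl.O ∧ Pl.red (ev f) = χ f := fun f => by
    have := hPl (AlgEquiv.ofInjective ev hev f)
    simpa using this
  refine ⟨Pl, fun b => ?_, ?_⟩
  · simpa [ev, χ] using key (Polynomial.C b)
  · simpa [ev, χ] using key Polynomial.X

/-- A transcendental element that specialises to a given value. -/
theorem exists_generic_place [IsAlgClosed Ω] (a : Ω) :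
    ∃ (Ω' : Type u) (_ : Field Ω') (_ : Algebra k Ω') (_ : IsAlgClosed Ω') (φ : Ω →ₐ[k] Ω') (s : Ω')
      (Pl : Place k Ω' Ω), s ∉ acl k (range φ) ∧ s ∈ Pl.O ∧ Pl.red s = a ∧
        ∀ x, φ x ∈ Pl.O ∧ Pl.red (φ x) = x := by
  let E := AlgebraicClosure (RatFunc Ω)
  let φ : Ω →ₐ[k] E := IsScalarTower.toAlgHom k Ω E
  let s : E := algebraMap (RatFunc Ω) E RatFunc.X
  let e : Ω ≃ₐ[k] φ.range := AlgEquiv.ofInjectiveField φ
  have hs : Transcendental Ω s :=
    (transcendental_algebraMap_iff (algebraMap (RatFunc Ω) E).injective).2 RatFunc.transcendental_X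
  have hs' : Transcendental φ.range s := by
    rintro ⟨p, hp, hps⟩
    refine hs ⟨p.map (e.symm : φ.range →+* Ω),
      (Polynomial.map_ne_zero_iff e.symm.injective).2 hp, ?_⟩
    rw [Polynomial.aeval_def, Polynomial.eval₂_map, ← hps, Polynomial.aeval_def]
    congr 1
    ext b
    obtain ⟨c, rfl⟩ := e.surjective b
    simp only [RingHom.coe_comp, RingHom.coe_coe, Function.comp_apply, AlgEquiv.symm_apply_apply]
    rfl
  obtain ⟨Pl, h1, h2, h3⟩ := Plc2_ext φ.range hs' e.symm.toAlgHom a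
  refine ⟨E, inferInstance, inferInstance, inferInstance, φ, s, Pl, ?_, h2, h3, fun x => ?_⟩
  · rw [mem_acl, ← AlgHom.coe_range, Algebra.adjoin_eq]
    exact hs'
  · exact ⟨(h1 (e x)).1, (h1 (e x)).2.trans (e.symm_apply_apply x)⟩

/-- An element contained in all places that fix `S` is algebraic over `S`. -/
theorem mem_acl_of_place [IsAlgClosed Ω] {S : Set Ω} {x : Ω}
    (h : ∀ Pl : Place k Ω Ω, (∀ y ∈ S, y ∈ Pl.O ∧ Pl.red y = y) → x ∈ Pl.O) : x ∈ acl k S := by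
  rw [mem_acl]
  by_contra hx
  have h0 : x ≠ 0 := by
    rintro rfl
    exact hx isAlgebraic_zero
  obtain ⟨Pl, h1, h2, h3⟩ := Plc2_ext (Algebra.adjoin k S) (y := x⁻¹)
    (fun h => hx (IsAlgebraic.inv_iff.1 h)) (Algebra.adjoin k S).val 0
  have hO := h Pl fun y hy => h1 ⟨y, Algebra.subset_adjoin hy⟩
  have := Pl.red_mul hO h2
  rw [mul_inv_cancel₀ h0, Pl.red_one, h3, mul_zero] at this
  exact one_ne_zero this

end Pool.Agent.MP_0c8446_ag

end

section

namespace Pool.Agent.MP_0c8446_ag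

open MvPolynomial Set

universe u v w

variable {k : Type u} [Field k] {Γ : Type u} [Group Γ] {D : FrD k Γ}
  {Ω Ω' : Type u} [Field Ω] [Algebra k Ω] [Field Ω'] [Algebra k Ω']

theorem evs_map {σ α : Type*} (φ : Ω →ₐ[k] Ω') (h : σ → Ω) (F : α → MvPolynomial σ k) :
    evs (fun s => φ (h s)) F = fun a => φ (evs h F a) := by
  funext a
  unfold evs
  rw [← AlgHom.comp_apply, comp_aeval]

theorem evs_jn {σ ι : Type} {n : ι → ℕ} {N : ℕ} (h : σ → Ω) (pt : Vars n → MvPolynomial σ k)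
    (z : Fin (N + 1) → MvPolynomial σ k) : evs h (jn pt z) = jn (evs h pt) (evs h z) := by
  funext a
  rcases a with ⟨i | i, s⟩ <;> rfl

theorem Place.evs_mem (Pl : Place k Ω Ω') {σ α : Type*} {h : σ → Ω} (hO : ∀ s, h s ∈ Pl.O)
    (F : α → MvPolynomial σ k) :
    (∀ a, evs h F a ∈ Pl.O) ∧ evs (fun s => Pl.red (h s)) F = fun a => Pl.red (evs h F a) :=
  ⟨fun a => Pl.aeval_mem hO (F a), funext fun a => (Pl.red_aeval hO (F a)).symm⟩

theorem FrD.Fr.map {h : D.σ → Ω} (hh : D.Fr h) (φ : Ω →ₐ[k] Ω') : D.Fr fun s => φ (h s) :=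
  fun e he => by
    have := congrFun (evs_map φ h fun _ : Unit => e) ()
    unfold evs at this
    rw [this, hh e he, map_zero]

theorem FrD.Fr.red {h : D.σ → Ω} (hh : D.Fr h) (Pl : Place k Ω Ω') (hO : ∀ s, h s ∈ Pl.O) :
    D.Fr fun s => Pl.red (h s) :=
  fun e he => by rw [← Pl.red_aeval hO, hh e he, Pl.red_zero]

theorem FrD.Fr.act {h : D.σ → Ω} (hh : D.Fr h) (γ : Γ) : D.Fr (evs h (D.act γ)) := D.stab γ Ω h hh

theorem FrD.nv_cons {N : ℕ} (b : Fin N → MvPolynomial D.σ k) :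
    D.NV (Fin.cons 1 b : Fin (N + 1) → MvPolynomial D.σ k) :=
  fun _ _ _ _ _ => ⟨0, by simp⟩

theorem FrD.Equi.cons {N : ℕ} {r : Γ →* Matrix (Fin N) (Fin N) k} {b : Fin N → MvPolynomial D.σ k}
    (he : D.Equi r b) : D.Equi (plus r) (Fin.cons 1 b : Fin (N + 1) → MvPolynomial D.σ k) := by
  intro γ Ω _ _ h hh s
  refine Fin.cases ?_ (fun s => ?_) s
  · simp [plus, Fin.sum_univ_succ]
  · simp [plus, Fin.sum_univ_succ, he γ Ω h hh s]

theorem FrD.Equi.reindex {ε ε' : Type} [Fintype ε] [DecidableEq ε] [Fintype ε'] [DecidableEq ε']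
    (e : ε' ≃ ε) {r : Γ →* Matrix ε ε k} {b : ε → MvPolynomial D.σ k} (he : D.Equi r b) :
    D.Equi ((Matrix.reindexAlgEquiv k k e.symm).toMonoidHom.comp r) fun s => b (e s) := by
  intro γ Ω _ _ h hh s
  rw [he γ Ω h hh (e s), ← e.sum_comp]
  rfl

/-- A point that comes from a frame comes from a frame that is algebraic over it. -/
theorem FrD.exists_alg [IsAlgClosed Ω] {S : Stage k Γ} {pt : Vars S.P.n → MvPolynomial D.σ k}
    {v : Vars S.P.n → Ω} (hv : D.famR S pt Ω v) :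
    ∃ h, D.Fr h ∧ ParOn S.Jᶜ (evs h pt) v ∧ ∀ s, h s ∈ acl k (rat univ v) := by
  obtain ⟨hon, h, hh, hp⟩ := hv
  obtain ⟨t, ht, hrat, hone⟩ := hon.1.exists_norm
  obtain ⟨F, hF, hac⟩ := exists_aclF (k := k) (rat univ v)
  have := hac inferInstance
  have hp' := hp.trans (parOn_sc _ ht v)
  have hc : ∀ i, ∃ c : Ω, i ∈ S.Jᶜ → ∀ s, sc t v ⟨i, s⟩ = c * evs h pt ⟨i, s⟩ := fun i => by
    by_cases hi : i ∈ S.Jᶜ
    · obtain ⟨c, -, e⟩ := hp' i hi
      exact ⟨c, fun _ => e⟩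
    · exact ⟨0, fun h => absurd h hi⟩
  choose c hc using hc
  obtain ⟨x, hx, hle⟩ := exists_retract F (Sum.elim h c) (c := sc t v) fun a => by
    rw [← SetLike.mem_coe, hF]
    exact subset_acl _ (rat_mono (subset_univ _) v (hrat a))
  refine ⟨fun s => x (Sum.inl s), fun e he => ?_,
    ParOn.trans (fun i hi => ?_) (parOn_sc _ ht v).symm, fun s => hF ▸ hx _⟩
  · have h1 : rename (fun s => Sum.inl (Sum.inl s)) e ∈
        kr k (Sum.elim (Sum.elim h c) (sc t v)) := by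
      rw [mem_kr, aeval_rename]
      exact hh e he
    have h2 := hle h1
    rwa [mem_kr, aeval_rename] at h2
  · have key : ∀ s, sc t v ⟨i, s⟩ = x (Sum.inr i) * evs (fun s => x (Sum.inl s)) pt ⟨i, s⟩ := by
      intro s
      have h1 : X (Sum.inr ⟨i, s⟩) - X (Sum.inl (Sum.inr i)) *
          rename (fun s => Sum.inl (Sum.inl s)) (pt ⟨i, s⟩) ∈
          kr k (Sum.elim (Sum.elim h c) (sc t v)) := by
        rw [mem_kr, map_sub, map_mul, aeval_X, aeval_X, aeval_rename, sub_eq_zero]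
        exact hc i hi s
      have h2 := hle h1
      rwa [mem_kr, map_sub, map_mul, aeval_X, aeval_X, aeval_rename, sub_eq_zero] at h2
    refine ⟨x (Sum.inr i), fun h0 => ?_, key⟩
    obtain ⟨s, hs⟩ := hone i
    rw [key s, h0, zero_mul] at hs
    exact zero_ne_one hs

namespace Level

variable (L : Level D)

theorem famR_par [IsAlgClosed Ω] {v v' : Vars L.S.P.n → Ω} (hv : D.famR L.S L.pt Ω v)
    (h : ParOn univ v v') : D.famR L.S L.pt Ω v' := by
  obtain ⟨hon, g, hg, hp⟩ := hv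
  exact ⟨hon.par h, g, hg, hp.trans (h.mono (subset_univ _))⟩

theorem famR_map [IsAlgClosed Ω] [IsAlgClosed Ω'] {v : Vars L.S.P.n → Ω}
    (hv : D.famR L.S L.pt Ω v) (φ : Ω →ₐ[k] Ω') : D.famR L.S L.pt Ω' fun a => φ (v a) := by
  obtain ⟨hon, g, hg, hp⟩ := hv
  refine ⟨hon.map φ, fun s => φ (g s), hg.map φ, ?_⟩
  rw [evs_map]
  exact hp.map φ

/-- The reduction of an integral point that comes from an integral frame. -/
theorem par_red (Pl : Place k Ω Ω') {v : Vars L.S.P.n → Ω} {h : D.σ → Ω} (hh : D.Fr h)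
    (hp : ParOn L.S.Jᶜ (evs h L.pt) v) (hO : ∀ s, h s ∈ Pl.O) (hv : ∀ a, v a ∈ Pl.O)
    (hn : NZb fun a => Pl.red (v a)) :
    ParOn L.S.Jᶜ (evs (fun s => Pl.red (h s)) L.pt) fun a => Pl.red (v a) := by
  obtain ⟨h1, h2⟩ := Pl.evs_mem hO L.pt
  rw [h2]
  refine Pl.par_red hp (fun a _ => h1 a) (fun a _ => hv a) (fun i hi => ?_) fun i _ => hn i
  obtain ⟨s, hs⟩ := L.nz i hi Ω' _ (hh.red Pl hO)
  exact ⟨s, by rwa [← congrFun h2 ⟨i, s⟩]⟩

theorem famR_red [IsAlgClosed Ω'] (Pl : Place k Ω Ω') {v : Vars L.S.P.n → Ω} {h : D.σ → Ω}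
    (ho : L.S.P.On v) (hh : D.Fr h) (hp : ParOn L.S.Jᶜ (evs h L.pt) v) (hO : ∀ s, h s ∈ Pl.O)
    (hv : ∀ a, v a ∈ Pl.O) (hn : NZb fun a => Pl.red (v a)) :
    D.famR L.S L.pt Ω' fun a => Pl.red (v a) :=
  ⟨ho.of_le hn (Pl.pI_le hv), _, hh.red Pl hO, L.par_red Pl hh hp hO hv hn⟩

theorem sp_pt [IsAlgClosed Ω] [IsAlgClosed Ω'] {v : Vars L.S.P.n → Ω} {u : Vars L.S.P.n → Ω'}
    (hv : D.famR L.S L.pt Ω v) (hu : NZb u) (h : pI k v ≤ pI k u) :
    D.famR L.S L.pt Ω' u ∨ L.S.P.loc u ∈ L.bd := by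
  obtain ⟨Pl, v', h1, h2, h3⟩ := exists_place_pI hu h
  obtain ⟨hon, g, hg, hp⟩ := L.famR_par hv h1
  have hn := h3.nzb hu
  rcases L.il Ω Ω' Pl v' g hon hg hp h2 hn with hb | ⟨g', hg', hp', hO⟩
  · right
    rwa [Var.loc_par h3] at hb
  · exact Or.inl (L.famR_par (L.famR_red Pl hon hg' hp' hO h2 hn) h3.symm)

theorem isSub_R [IsAlgClosed k] {C : Set L.S.P.pts} (hC : C ∈ L.R) : IsSub C := by
  obtain ⟨Ω, _, _, _, v, hv, rfl⟩ := hC
  exact hv.1.isSub

theorem sp [IsAlgClosed k] {C C' : Set L.S.P.pts} (hC : C ∈ L.R) (hC' : IsSub C') (h : C' ⊆ C) :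
    C' ∈ L.R ∨ C' ∈ L.bd := by
  obtain ⟨Ω, _, _, _, v, hv, rfl⟩ := hC
  obtain ⟨Ω', i1, i2, i3, u, hu, rfl⟩ := L.S.P.exists_generic hC'
  exact (L.sp_pt hv hu.1 (hu.pI_le h)).imp_left fun h1 => ⟨Ω', i1, i2, i3, u, h1, rfl⟩

end Level

end Pool.Agent.MP_0c8446_ag

end

section

namespace Pool.Agent.MP_0c8446_ag

open MvPolynomial Set Matrix

universe u v w

section basic

variable {R : Type u} [CommRing R] {n : ℕ} {alt : Bool}

/-- An alternating form needs even rank. -/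
def Ev (alt : Bool) (n : ℕ) : Prop := alt = true → Even n

/-- The adjoint with respect to the form `jM`. -/
def adj (alt : Bool) (x : Matrix (Fin n) (Fin n) R) : Matrix (Fin n) (Fin n) R :=
  (jM R alt n)ᵀ * xᵀ * jM R alt n

/-- Isometries. -/
def IsU (alt : Bool) (x : Matrix (Fin n) (Fin n) R) : Prop := xᵀ * jM R alt n * x = jM R alt n

/-- Isometries of determinant one. -/
def SU (alt : Bool) (x : Matrix (Fin n) (Fin n) R) : Prop := IsU alt x ∧ x.det = 1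

/-- Anti-isometries. -/
def AU (alt : Bool) (x : Matrix (Fin n) (Fin n) R) : Prop := xᵀ * jM R alt n * x = (jM R alt n)ᵀ

/-- Self-dual block structures. -/
def SymP (b : Fin n → ℕ) : Prop := ∀ a a', b a < b a' → b a'.rev < b a.rev

/-- Special isometries that are block triangular for two block structures. -/
def Sg (alt : Bool) (b₁ b₂ : Fin n → ℕ) (x : Matrix (Fin n) (Fin n) R) : Prop :=
  SU alt x ∧ x.BlockTriangular b₁ ∧ x.BlockTriangular b₂

/-- The matrix with given coordinates. -/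
def mat {α : Type*} (x : Fin n × Fin n → α) : Matrix (Fin n) (Fin n) α :=
  Matrix.of fun a b => x (a, b)

/-- The root vector with entry `1` in position `(a, b)`. -/
def rt (R : Type u) [CommRing R] (alt : Bool) (a b : Fin n) : Matrix (Fin n) (Fin n) R :=
  if b = a.rev then Matrix.single a b 1 else Matrix.single a b 1 - adj alt (Matrix.single a b 1)

/-- The root subgroup; `hf` is one half. -/
def xR (alt : Bool) (a b : Fin n) (hf τ : R) : Matrix (Fin n) (Fin n) R :=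
  1 + τ • rt R alt a b + (hf * τ ^ 2) • (rt R alt a b * rt R alt a b)

/-- A signed permutation matrix: the column `b` is `± e_(y b)`. -/
def nu (R : Type u) [CommRing R] (y : Equiv.Perm (Fin n)) (D : Fin n → Bool) :
    Matrix (Fin n) (Fin n) R :=
  Matrix.of fun a b => if a = y b then if D b = true then -1 else 1 else 0

/-- The signed permutation matrix is an anti-isometry of determinant `κ`. -/
def NuOK (alt : Bool) (κ : R) (y : Equiv.Perm (Fin n)) (D : Fin n → Bool) : Prop :=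
  AU alt (nu R y D) ∧ (nu R y D).det = κ

/-- The positions above `a` in the column `a` that are free once the earlier columns are fixed. -/
def preC (alt : Bool) (z : Fin n → Fin n) (a : Fin n) : Finset (Fin n) :=
  Finset.univ.filter fun b => b < a ∧ z b < z a ∧ (a < b.rev ∨ alt = true ∧ a = b.rev)

lemma jM_map {R' : Type u} {F : Type*} [CommRing R'] [FunLike F R R'] [RingHomClass F R R'] (φ : F) :
    (jM R alt n).map φ = jM R' alt n := by
  ext a b
  simp only [jM, map_apply, of_apply]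
  split_ifs <;> simp

lemma jM_mul_transpose : jM R alt n * (jM R alt n)ᵀ = 1 := by
  ext a b
  rw [Matrix.mul_apply, Finset.sum_eq_single a.rev (fun c _ hc => by simp [jM, hc]) (by simp)]
  by_cases h : a = b
  · subst h
    simp only [jM, of_apply, transpose_apply, if_true, Matrix.one_apply_eq]
    split_ifs <;> simp
  · have : ¬ a.rev = b.rev := fun e => h (Fin.rev_injective e)
    simp [jM, this, h]

lemma jM_transpose_mul : (jM R alt n)ᵀ * jM R alt n = 1 := mul_eq_one_comm.1 jM_mul_transpose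

lemma adj_mul (x y : Matrix (Fin n) (Fin n) R) : adj alt (x * y) = adj alt y * adj alt x := by
  simp only [adj, transpose_mul, mul_assoc]
  rw [← mul_assoc (jM R alt n), jM_mul_transpose, one_mul]

lemma adj_one : adj alt (1 : Matrix (Fin n) (Fin n) R) = 1 := by
  rw [adj, transpose_one, mul_one, jM_transpose_mul]

lemma adj_map {R' : Type u} {F : Type*} [CommRing R'] [FunLike F R R'] [RingHomClass F R R'] (φ : F)
    (x : Matrix (Fin n) (Fin n) R) : (adj alt x).map φ = adj alt (x.map φ) := by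
  have h := fun A B : Matrix (Fin n) (Fin n) R => Matrix.map_mul (L := A) (M := B)
    (f := (φ : R →+* R'))
  change (adj alt x).map (φ : R →+* R') = adj alt (x.map (φ : R →+* R'))
  rw [adj, h, h, transpose_map, transpose_map, jM_map, adj]

lemma isU_iff {x : Matrix (Fin n) (Fin n) R} : IsU alt x ↔ adj alt x * x = 1 := by
  constructor
  · intro h
    rw [adj, mul_assoc, mul_assoc, ← mul_assoc xᵀ, h, jM_transpose_mul]
  · intro h
    have := congrArg (jM R alt n * ·) h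
    simp only [adj, ← mul_assoc, jM_mul_transpose, one_mul, mul_one] at this
    exact this

variable {x y : Matrix (Fin n) (Fin n) R}

lemma IsU.adj_mul (h : IsU alt x) : adj alt x * x = 1 := isU_iff.1 h

lemma IsU.mul_adj (h : IsU alt x) : x * adj alt x = 1 := mul_eq_one_comm.1 h.adj_mul

lemma IsU.isUnit (h : IsU alt x) : IsUnit x := IsUnit.of_mul_eq_one _ h.mul_adj

lemma IsU.inv_eq (h : IsU alt x) : x⁻¹ = adj alt x := Matrix.inv_eq_left_inv h.adj_mul

lemma isU_one : IsU alt (1 : Matrix (Fin n) (Fin n) R) := by simp [IsU]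

lemma IsU.mul (h : IsU alt x) (h' : IsU alt y) : IsU alt (x * y) := by
  unfold IsU at *
  rw [transpose_mul, mul_assoc, mul_assoc, ← mul_assoc (jM R alt n), ← mul_assoc xᵀ,
    ← mul_assoc xᵀ, h, ← mul_assoc, h']

lemma IsU.of_mul (h : IsU alt x) (e : x * y = 1) : IsU alt y := by
  unfold IsU at *
  conv_lhs => rw [← h]
  rw [← mul_assoc, ← mul_assoc, ← transpose_mul, e, transpose_one, one_mul, mul_assoc, e, mul_one]

lemma IsU.adj (h : IsU alt x) : IsU alt (adj alt x) := h.of_mul h.mul_adj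

lemma IsU.map {R' : Type u} {F : Type*} [CommRing R'] [FunLike F R R'] [RingHomClass F R R'] (φ : F)
    (h : IsU alt x) : IsU alt (x.map φ) := by
  have e := congrArg (fun z => z.map (φ : R →+* R')) h.adj_mul
  simp only [Matrix.map_mul, adj_map, Matrix.map_one _ (map_zero _) (map_one _)] at e
  exact isU_iff.2 e

lemma su_one : SU alt (1 : Matrix (Fin n) (Fin n) R) := ⟨isU_one, det_one⟩

lemma SU.mul (h : SU alt x) (h' : SU alt y) : SU alt (x * y) :=
  ⟨h.1.mul h'.1, by rw [det_mul, h.2, h'.2, one_mul]⟩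

lemma SU.of_mul (h : SU alt x) (e : x * y = 1) : SU alt y :=
  ⟨h.1.of_mul e, by simpa [h.2] using congrArg det e⟩

lemma SU.adj (h : SU alt x) : SU alt (adj alt x) := h.of_mul h.1.mul_adj

lemma SU.map {R' : Type u} {F : Type*} [CommRing R'] [FunLike F R R'] [RingHomClass F R R'] (φ : F)
    (h : SU alt x) : SU alt (x.map φ) :=
  ⟨h.1.map φ, ((φ : R →+* R').map_det x).symm.trans (by rw [h.2, map_one])⟩

lemma AU.isUnit (h : AU alt x) : IsUnit x :=
  IsUnit.of_mul_eq_one_right (jM R alt n * xᵀ * jM R alt n) (by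
    rw [mul_assoc, mul_assoc, ← mul_assoc xᵀ, h, jM_mul_transpose])

/-- Conjugation by an anti-isometry preserves the isometries. -/
lemma AU.conj {z : Matrix (Fin n) (Fin n) R} (h : AU alt x) (e : x * z = 1) (hy : SU alt y) :
    SU alt (x * y * z) := by
  refine ⟨?_, by rw [det_mul, det_mul, hy.2, mul_one, ← det_mul, e, det_one]⟩
  have h1 : yᵀ * (jM R alt n)ᵀ * y = (jM R alt n)ᵀ := by
    have := congrArg transpose hy.1
    rwa [transpose_mul, transpose_mul, transpose_transpose, ← mul_assoc] at this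
  unfold IsU
  unfold AU at h
  calc (x * y * z)ᵀ * jM R alt n * (x * y * z)
      = zᵀ * (yᵀ * (xᵀ * jM R alt n * x) * y) * z := by simp only [transpose_mul, mul_assoc]
    _ = (x * z)ᵀ * jM R alt n * (x * z) := by
      rw [h, h1, ← h]; simp only [transpose_mul, mul_assoc]
    _ = _ := by rw [e, transpose_one, one_mul, mul_one]

lemma sw_sw (t : Bool) (a : Fin n) : sw n t (sw n t a) = a := by
  unfold sw
  by_cases h : t = true ∧ (2 * (a : ℕ) + 2 = n ∨ 2 * (a : ℕ) = n)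
  · have h' : t = true ∧ (2 * (a.rev : ℕ) + 2 = n ∨ 2 * (a.rev : ℕ) = n) :=
      ⟨h.1, by rw [Fin.val_rev]; omega⟩
    rw [if_pos h, if_pos h', Fin.rev_rev]
  · rw [if_neg h, if_neg h]

lemma sw_rev (t : Bool) (a : Fin n) : sw n t a.rev = (sw n t a).rev := by
  unfold sw
  have : (2 * (a.rev : ℕ) + 2 = n ∨ 2 * (a.rev : ℕ) = n) ↔
      (2 * (a : ℕ) + 2 = n ∨ 2 * (a : ℕ) = n) := by
    have := a.2
    rw [Fin.val_rev]; omega
  simp only [this]
  split_ifs <;> rfl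

lemma sw_false (a : Fin n) : sw n false a = a := if_neg fun h => Bool.false_ne_true h.1

/-- The exchange of the middle positions as a permutation. -/
def swP (n : ℕ) (t : Bool) : Equiv.Perm (Fin n) := Function.Involutive.toPerm _ (sw_sw t)

@[simp] lemma swP_apply (t : Bool) (a : Fin n) : swP n t a = sw n t a := rfl

@[simp] lemma swP_symm_apply (t : Bool) (a : Fin n) : (swP n t).symm a = sw n t a := rfl

lemma jM_sw {t : Bool} (ht : alt = true → t = false) :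
    (jM R alt n).submatrix (sw n t) (sw n t) = jM R alt n := by
  cases alt
  · ext a b
    have : sw n t b = (sw n t a).rev ↔ b = a.rev := by
      rw [← sw_rev]
      exact (swP n t).injective.eq_iff
    simp [jM, this]
  · rw [ht rfl]
    ext a b
    simp [sw_false]

lemma SU.submatrix_sw {t : Bool} (ht : alt = true → t = false) (h : SU alt x) :
    SU alt (x.submatrix (sw n t) (sw n t)) := by
  refine ⟨?_, (det_submatrix_equiv_self (swP n t) x).trans h.2⟩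
  have e := congrArg (fun z => z.submatrix (sw n t) (sw n t)) h.1
  have hb : Function.Bijective (sw n t) := (swP n t).bijective
  simp only [jM_sw ht] at e
  rw [submatrix_mul _ _ _ _ _ hb, submatrix_mul _ _ _ _ _ hb, jM_sw ht] at e
  exact e

/-- The Frobenius map of the classical group. -/
def frC (t : Bool) (q : ℕ) (g : Matrix (Fin n) (Fin n) R) : Matrix (Fin n) (Fin n) R :=
  (g.map (· ^ q)).submatrix (sw n t) (sw n t)

lemma frC_map {R' : Type u} {F : Type*} [CommRing R'] [FunLike F R R'] [RingHomClass F R R'] (φ : F)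
    (t : Bool) (q : ℕ) (g : Matrix (Fin n) (Fin n) R) :
    (frC t q g).map φ = frC t q (g.map φ) := by
  ext a b
  simp [frC]

end basic

section frob

variable {k : Type u} [Field k] {n : ℕ} {alt t : Bool} {q : ℕ} [PQ k q]

lemma frC_mul (g g' : Matrix (Fin n) (Fin n) k) : frC t q (g * g') = frC t q g * frC t q g' := by
  have hb : Function.Bijective (sw n t) := (swP n t).bijective
  change ((g * g').map (frobHom k q)).submatrix _ _ = _
  rw [Matrix.map_mul, submatrix_mul _ _ _ _ _ hb]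
  rfl

lemma frC_one : frC t q (1 : Matrix (Fin n) (Fin n) k) = 1 := by
  change ((1 : Matrix (Fin n) (Fin n) k).map (frobHom k q)).submatrix (swP n t) (swP n t) = _
  rw [Matrix.map_one _ (map_zero _) (map_one _), submatrix_one_equiv]

lemma SU.frC (ht : alt = true → t = false) {g : Matrix (Fin n) (Fin n) k} (h : SU alt g) :
    SU alt (frC t q g) := (h.map (frobHom k q)).submatrix_sw ht

end frob

section chart

variable {k : Type u} [Field k] {σ : Type}

/-- The family `R` is an open subset of an affine space. -/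
structure Chart (R : Fam k σ) {τ : Type} (t : τ → MvPolynomial σ k) (Dp : MvPolynomial τ k) :
    Prop where
  nv : ∀ (Ω : Type u) [Field Ω] [Algebra k Ω] [IsAlgClosed Ω] (x : σ → Ω), R Ω x →
    aeval (evs x t) Dp ≠ 0
  inj : ∀ (Ω : Type u) [Field Ω] [Algebra k Ω] [IsAlgClosed Ω] (x x' : σ → Ω), R Ω x → R Ω x' →
    evs x t = evs x' t → x = x'
  surj : ∀ (Ω : Type u) [Field Ω] [Algebra k Ω] [IsAlgClosed Ω] (y : τ → Ω), aeval y Dp ≠ 0 →
    ∃ x, R Ω x ∧ evs x t = y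
  val : ∀ (Ω Ω' : Type u) [Field Ω] [Algebra k Ω] [IsAlgClosed Ω] [Field Ω'] [Algebra k Ω']
    [IsAlgClosed Ω'] (Pl : Place k Ω Ω') (x : σ → Ω), R Ω x → (∀ s, evs x t s ∈ Pl.O) →
    aeval (fun s => Pl.red (evs x t s)) Dp ≠ 0 → ∀ s, x s ∈ Pl.O

/-- The family `R` is an open subset of some affine space. -/
def HasChart (R : Fam k σ) : Prop :=
  ∃ (τ : Type) (_ : Finite τ) (t : τ → MvPolynomial σ k) (Dp : MvPolynomial τ k), Chart R t Dp

/-- The condition on a value `a` and an extra coordinate `z`: inverse, or both zero. -/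
def CutC {Ω : Type*} [Mul Ω] [One Ω] [Zero Ω] (T : Bool) (a z : Ω) : Prop :=
  if T = true then z * a = 1 else a = 0 ∧ z = 0

/-- The part of a family where the `f i` with `T i` are invertible and the others vanish. -/
def Fam.cut (R : Fam k σ) {I : Type} (f : I → MvPolynomial σ k) (T : I → Bool) : Fam k (σ ⊕ I) :=
  fun Ω _ _ _ x => R Ω (fun s => x (Sum.inl s)) ∧
    ∀ i, CutC (T i) (aeval (fun s => x (Sum.inl s)) (f i)) (x (Sum.inr i))

/-- The family `R` is cut into open subsets of affine spaces. -/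
def Cell (R : Fam k σ) : Prop :=
  ∃ (I : Type) (_ : Finite I) (f : I → MvPolynomial σ k), ∀ T, HasChart (R.cut f T)

/-- The product of families. -/
def Fam.pi {J : Type} (R : J → Fam k σ) : Fam k (J × σ) :=
  fun Ω _ _ _ x => ∀ j, R j Ω fun s => x (j, s)

/-- The product with a line. -/
def Fam.opt (R : Fam k σ) : Fam k (Option σ) := fun Ω _ _ _ x => R Ω fun s => x (some s)

/-- Mutually inverse polynomial maps between two families. -/
structure Fam.Iso {σ' : Type} (R : Fam k σ) (R' : Fam k σ') (φ : σ' → MvPolynomial σ k)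
    (ψ : σ → MvPolynomial σ' k) : Prop where
  hom : ∀ (Ω : Type u) [Field Ω] [Algebra k Ω] [IsAlgClosed Ω] (x : σ → Ω), R Ω x →
    R' Ω (evs x φ) ∧ evs (evs x φ) ψ = x
  inv : ∀ (Ω : Type u) [Field Ω] [Algebra k Ω] [IsAlgClosed Ω] (y : σ' → Ω), R' Ω y →
    R Ω (evs y ψ) ∧ evs (evs y ψ) φ = y

/-- The family is the solution set of a system of equations. -/
def Fam.Closed (R : Fam k σ) : Prop :=
  ∃ E : Set (MvPolynomial σ k), ∀ (Ω : Type u) [Field Ω] [Algebra k Ω] [IsAlgClosed Ω] (x : σ → Ω),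
    R Ω x ↔ ∀ e ∈ E, aeval x e = 0

variable (k) {n : ℕ}

/-- The group of special isometries that are triangular for two block structures. -/
def hFam (alt : Bool) (b₁ b₂ : Fin n → ℕ) : Fam k (Fin n × Fin n) :=
  fun _ _ _ _ x => Sg alt b₁ b₂ (mat x)

/-- The special isometries that vanish at the positions `Z`. -/
def dFam (alt : Bool) (Z : Fin n → Fin n → Prop) : Fam k (Fin n × Fin n) :=
  fun _ _ _ _ x => SU alt (mat x) ∧ ∀ a b, Z a b → x (a, b) = 0

variable {k} {Γ : Type u} [Group Γ]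

/-- The quotient of the frames by `Γ` is the family `R`. -/
structure FrD.QuotF (D : FrD k Γ) (φ : σ → MvPolynomial D.σ k) (R : Fam k σ) : Prop where
  mem : ∀ (Ω : Type u) [Field Ω] [Algebra k Ω] [IsAlgClosed Ω] (h : D.σ → Ω), D.Fr h →
    R Ω (evs h φ)
  inv : ∀ γ (Ω : Type u) [Field Ω] [Algebra k Ω] (h : D.σ → Ω), D.Fr h →
    evs (evs h (D.act γ)) φ = evs h φ
  fib : ∀ (Ω : Type u) [Field Ω] [Algebra k Ω] [IsAlgClosed Ω] (h h' : D.σ → Ω), D.Fr h →
    D.Fr h' → evs h φ = evs h' φ → ∃ γ, h' = evs h (D.act γ)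
  surj : ∀ (Ω : Type u) [Field Ω] [Algebra k Ω] [IsAlgClosed Ω] (x : σ → Ω), R Ω x →
    ∃ h, D.Fr h ∧ evs h φ = x
  val : ∀ (Ω Ω' : Type u) [Field Ω] [Algebra k Ω] [IsAlgClosed Ω] [Field Ω'] [Algebra k Ω']
    [IsAlgClosed Ω'] (Pl : Place k Ω Ω') (h : D.σ → Ω), D.Fr h → (∀ s, evs h φ s ∈ Pl.O) →
    ∀ s, h s ∈ Pl.O

/-- The equations of a cut. -/
def cutE (E : Set (MvPolynomial σ k)) {I : Type} (f : I → MvPolynomial σ k) (T : I → Bool) :
    Set (MvPolynomial (σ ⊕ I) k) :=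
  rename Sum.inl '' E ∪ {e | ∃ i, if T i = true then e = X (Sum.inr i) * rename Sum.inl (f i) - 1
    else e = rename Sum.inl (f i) ∨ e = X (Sum.inr i)}

lemma cutE_iff {Ω : Type*} [CommRing Ω] [Algebra k Ω] (E : Set (MvPolynomial σ k)) {I : Type}
    (f : I → MvPolynomial σ k) (T : I → Bool) (x : σ ⊕ I → Ω) :
    (∀ e ∈ cutE E f T, aeval x e = 0) ↔ (∀ e ∈ E, aeval (fun s => x (Sum.inl s)) e = 0) ∧
      ∀ i, CutC (T i) (aeval (fun s => x (Sum.inl s)) (f i)) (x (Sum.inr i)) := by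
  have h0 : ∀ e : MvPolynomial σ k, aeval x (rename Sum.inl e) =
      aeval (fun s => x (Sum.inl s)) e := fun e => aeval_rename _ _ _
  constructor
  · refine fun H => ⟨fun e he => (h0 e).symm.trans (H _ (Or.inl ⟨e, he, rfl⟩)), fun i => ?_⟩
    unfold CutC
    split_ifs with hi
    · have := H _ (Or.inr ⟨i, (if_pos hi).mpr rfl⟩)
      rwa [map_sub, map_mul, aeval_X, h0, map_one, sub_eq_zero] at this
    · exact ⟨(h0 _).symm.trans (H _ (Or.inr ⟨i, (if_neg hi).mpr (Or.inl rfl)⟩)),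
        (aeval_X x _).symm.trans (H _ (Or.inr ⟨i, (if_neg hi).mpr (Or.inr rfl)⟩))⟩
  · rintro ⟨H1, H2⟩ e (⟨e, he, rfl⟩ | ⟨i, hi⟩)
    · exact (h0 e).trans (H1 e he)
    · have := H2 i
      unfold CutC at this
      split_ifs at hi this
      · rw [hi, map_sub, map_mul, aeval_X, h0, map_one, this, sub_self]
      · rcases hi with rfl | rfl
        · exact (h0 _).trans this.1
        · exact (aeval_X x _).trans this.2

/-- The action on a cut. -/
noncomputable def cutA {I : Type} (a : σ → MvPolynomial σ k) : σ ⊕ I → MvPolynomial (σ ⊕ I) k :=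
  Sum.elim (fun s => rename Sum.inl (a s)) fun i => X (Sum.inr i)

lemma evs_cutA_inl {Ω : Type*} [CommRing Ω] [Algebra k Ω] {I : Type} (a : σ → MvPolynomial σ k)
    (x : σ ⊕ I → Ω) :
    (fun s => evs x (cutA (I := I) a) (Sum.inl s)) = evs (fun s => x (Sum.inl s)) a := by
  funext s
  simp only [evs, cutA, Sum.elim_inl, aeval_rename]
  rfl

lemma evs_cutA_inr {Ω : Type*} [CommRing Ω] [Algebra k Ω] {I : Type} (a : σ → MvPolynomial σ k)
    (x : σ ⊕ I → Ω) (i : I) : evs x (cutA a) (Sum.inr i) = x (Sum.inr i) := by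
  simp only [evs, cutA, Sum.elim_inr, aeval_X]

lemma cut_stab (D : FrD k Γ) {I : Type} (f : I → MvPolynomial D.σ k)
    (hf : ∀ γ (Ω : Type u) [Field Ω] [Algebra k Ω] (h : D.σ → Ω), D.Fr h →
      evs (evs h (D.act γ)) f = evs h f) (T : I → Bool) (γ : Γ) (Ω : Type u) [Field Ω]
    [Algebra k Ω] (h : D.σ ⊕ I → Ω) (H : ∀ e ∈ cutE D.E f T, aeval h e = 0) :
    ∀ e ∈ cutE D.E f T, aeval (evs h (cutA (D.act γ))) e = 0 := by
  rw [cutE_iff] at H ⊢
  rw [evs_cutA_inl]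
  refine ⟨D.stab γ Ω _ H.1, fun i => ?_⟩
  have e1 : aeval (evs (fun s => h (Sum.inl s)) (D.act γ)) (f i) =
      aeval (fun s => h (Sum.inl s)) (f i) := congrFun (hf γ Ω _ H.1) i
  rw [evs_cutA_inr, e1]
  exact H.2 i

/-- The part of the frames where the `f i` with `T i` are invertible and the others vanish. -/
noncomputable def FrD.cut (D : FrD k Γ) {I : Type} [Finite I] (f : I → MvPolynomial D.σ k)
    (hf : ∀ γ (Ω : Type u) [Field Ω] [Algebra k Ω] (h : D.σ → Ω), D.Fr h →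
      evs (evs h (D.act γ)) f = evs h f) (T : I → Bool) : FrD k Γ where
  σ := D.σ ⊕ I
  fin := Fintype.ofFinite _
  E := cutE D.E f T
  act γ := cutA (D.act γ)
  stab := cut_stab D f hf T

lemma FrD.cut_iff {D : FrD k Γ} {I : Type} [Finite I] {f : I → MvPolynomial D.σ k} {hf}
    {T : I → Bool} {Ω : Type u} [Field Ω] [Algebra k Ω] {x : D.σ ⊕ I → Ω} :
    (D.cut f hf T).Fr x ↔ D.Fr (fun s => x (Sum.inl s)) ∧
      ∀ i, CutC (T i) (aeval (fun s => x (Sum.inl s)) (f i)) (x (Sum.inr i)) :=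
  cutE_iff D.E f T x

end chart

/-- The data of a finite symplectic or special orthogonal group in odd characteristic. -/
structure CD (k : Type u) [Field k] (n : ℕ) where
  alt : Bool
  t : Bool
  q : ℕ
  [pq : PQ k q]
  ev : Ev alt n
  ht : alt = true → t = false
  two : (2 : k) ≠ 0
  pos : 0 < n

attribute [instance] CD.pq

variable {k : Type u} [Field k] {n r : ℕ} (C : CD k n)

/-- The finite group. -/
def CD.Γ : Subgroup (GL (Fin n) k) where
  carrier := {γ | SU C.alt γ.1 ∧ frC C.t C.q γ.1 = γ.1}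
  mul_mem' {a b} ha hb := ⟨ha.1.mul hb.1, by rw [Units.val_mul, frC_mul, ha.2, hb.2]⟩
  one_mem' := ⟨su_one, frC_one⟩
  inv_mem' {a} ha := ⟨ha.1.of_mul a.mul_inv, a.isUnit.mul_left_cancel (by
    conv_lhs => rw [← ha.2, ← frC_mul, a.mul_inv, frC_one]
    exact a.mul_inv.symm)⟩

lemma CD.mem_Γ {γ : GL (Fin n) k} : γ ∈ C.Γ ↔ SU C.alt γ.1 ∧ frC C.t C.q γ.1 = γ.1 := Iff.rfl

/-- The standard representation. -/
def CD.std : C.Γ →* Matrix (Fin n) (Fin n) k := (Units.coeHom _).comp C.Γ.subtype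

/-- A rational anti-isometry. -/
structure CD.Anti where
  η : GL (Fin n) k
  au : AU C.alt η.1
  fr : frC C.t C.q η.1 = η.1

/-- Conjugation by a rational anti-isometry. -/
def CD.Anti.θ {C : CD k n} (A : C.Anti) : C.Γ →* C.Γ :=
  ((MulAut.conj A.η).toMonoidHom.comp C.Γ.subtype).codRestrict _ fun g =>
    ⟨A.au.conj A.η.mul_inv g.2.1, by
      have h : frC C.t C.q A.η⁻¹.1 = A.η⁻¹.1 := A.η.isUnit.mul_left_cancel (by
        conv_lhs => rw [← A.fr, ← frC_mul, A.η.mul_inv, frC_one]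
        exact A.η.mul_inv.symm)
      change frC C.t C.q (A.η.1 * g.1.1 * A.η⁻¹.1) = A.η.1 * g.1.1 * A.η⁻¹.1
      rw [frC_mul, frC_mul, A.fr, g.2.2, h]⟩

lemma CD.Anti.θ_val {C : CD k n} (A : C.Anti) (g : C.Γ) : (A.θ g).1 = A.η * g.1 * A.η⁻¹ := rfl

/-- Admissible words. -/
def CD.Ok (w : Fin r → ℕ × Bool) : Prop :=
  ∀ j, (C.alt = true → (w j).2 = false) ∧
    (2 * (w j).1 + 2 < n ∨ C.alt = true ∧ 2 * (w j).1 + 2 = n)

section frames

variable {R : Type u}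

/-- The coordinates of `r + 1` matrices. -/
abbrev CS (r n : ℕ) : Type := Fin (r + 1) × Fin n × Fin n

/-- The `j`-th matrix. -/
def cM (h : CS r n → R) (j : Fin (r + 1)) : Matrix (Fin n) (Fin n) R :=
  Matrix.of fun a b => h (j, a, b)

/-- The tuple with given matrices. -/
def mkC (g : Fin (r + 1) → Matrix (Fin n) (Fin n) R) : CS r n → R := fun s => g s.1 s.2.1 s.2.2

@[simp] lemma cM_mkC (g : Fin (r + 1) → Matrix (Fin n) (Fin n) R) : cM (mkC g) = g := rfl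

@[simp] lemma mkC_cM (h : CS r n → R) : mkC (cM h) = h := rfl

variable [CommRing R]

/-- The next matrix in the cyclic chain. -/
def nxC (t : Bool) (q : ℕ) (g : Fin (r + 1) → Matrix (Fin n) (Fin n) R) (j : Fin (r + 1)) :
    Matrix (Fin n) (Fin n) R :=
  Fin.lastCases (motive := fun _ => Matrix (Fin n) (Fin n) R) (frC t q (g 0)) (fun j => g j.succ) j

/-- The transition matrices. -/
def ddC (alt t : Bool) (q : ℕ) (g : Fin (r + 1) → Matrix (Fin n) (Fin n) R) (j : Fin (r + 1)) :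
    Matrix (Fin n) (Fin n) R := adj alt (g j) * nxC t q g j

lemma nxC_last (t : Bool) (q : ℕ) (g : Fin (r + 1) → Matrix (Fin n) (Fin n) R) :
    nxC t q g (Fin.last r) = frC t q (g 0) := by simp only [nxC, Fin.lastCases_last]

lemma nxC_castSucc (t : Bool) (q : ℕ) (g : Fin (r + 1) → Matrix (Fin n) (Fin n) R) (j : Fin r) :
    nxC t q g j.castSucc = g j.succ := by simp only [nxC, Fin.lastCases_castSucc]

lemma ddC_map {R' : Type u} {F : Type*} [CommRing R'] [FunLike F R R'] [RingHomClass F R R'] (φ : F)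
    (alt t : Bool) (q : ℕ) (g : Fin (r + 1) → Matrix (Fin n) (Fin n) R) (j : Fin (r + 1)) :
    (ddC alt t q g j).map φ = ddC alt t q (fun j => (g j).map φ) j := by
  have h := Matrix.map_mul (L := adj alt (g j)) (M := nxC t q g j) (f := (φ : R →+* R'))
  refine h.trans (congrArg₂ (· * ·) (adj_map φ _) ?_)
  refine Fin.lastCases ?_ (fun j => ?_) j
  · rw [nxC_last, nxC_last]
    exact frC_map φ t q (g 0)
  · rw [nxC_castSucc, nxC_castSucc]
    rfl

lemma cM_evs [Algebra k R] (h : CS r n → R) (j : Fin (r + 1)) :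
    (cM (X : CS r n → MvPolynomial (CS r n) k) j).map (aeval (R := k) h) = cM h j := by
  ext a b
  simp [cM]

lemma aeval_ddC [Algebra k R] (alt t : Bool) (q : ℕ) (h : CS r n → R) (j : Fin (r + 1))
    (a b : Fin n) : aeval (R := k) h (ddC alt t q (cM X) j a b) = ddC alt t q (cM h) j a b := by
  have := congrFun (congrFun (ddC_map (aeval (R := k) h) alt t q (cM X) j) a) b
  rwa [funext (cM_evs h)] at this

/-- The equations of frames with transition matrices vanishing at the positions `Z`. -/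
def clE (k : Type u) [Field k] (alt t : Bool) (q : ℕ) (Z : Fin (r + 1) → Fin n → Fin n → Prop) :
    Set (MvPolynomial (CS r n) k) :=
  {e | ∃ j a b, e = (adj alt (cM X j) * cM X j - 1 :
    Matrix (Fin n) (Fin n) (MvPolynomial (CS r n) k)) a b} ∪
  {e | ∃ j, e = (cM X j).det - 1} ∪ {e | ∃ j a b, Z j a b ∧ e = ddC alt t q (cM X) j a b}

lemma clE_iff [Algebra k R] (alt t : Bool) (q : ℕ) (Z : Fin (r + 1) → Fin n → Fin n → Prop)
    (h : CS r n → R) : (∀ e ∈ clE k alt t q Z, aeval h e = 0) ↔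
      (∀ j, SU alt (cM h j)) ∧ ∀ j a b, Z j a b → ddC alt t q (cM h) j a b = 0 := by
  have h1 : ∀ j a b, aeval h ((adj alt (cM X j) * cM X j - 1 :
      Matrix (Fin n) (Fin n) (MvPolynomial (CS r n) k)) a b) =
      (adj alt (cM h j) * cM h j - 1) a b := by
    intro j a b
    have e : (aeval (R := k) h).mapMatrix (adj alt (cM X j) * cM X j - 1) =
        adj alt (cM h j) * cM h j - 1 := by
      rw [map_sub, map_mul, map_one, AlgHom.mapMatrix_apply, AlgHom.mapMatrix_apply, adj_map,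
        cM_evs]
    exact congrFun (congrFun e a) b
  have h2 : ∀ j, aeval h ((cM X j).det - 1 : MvPolynomial (CS r n) k) = (cM h j).det - 1 := by
    intro j
    rw [map_sub, map_one, AlgHom.map_det, AlgHom.mapMatrix_apply, cM_evs]
  constructor
  · refine fun H => ⟨fun j => ⟨isU_iff.2 (sub_eq_zero.1 (Matrix.ext fun a b => ?_)),
      sub_eq_zero.1 ?_⟩, fun j a b hz => ?_⟩
    · rw [← h1]; exact H _ (Or.inl (Or.inl ⟨j, a, b, rfl⟩))
    · rw [← h2]; exact H _ (Or.inl (Or.inr ⟨j, rfl⟩))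
    · rw [← aeval_ddC (k := k)]; exact H _ (Or.inr ⟨j, a, b, hz, rfl⟩)
  · rintro ⟨H1, H2⟩ e ((⟨j, a, b, rfl⟩ | ⟨j, rfl⟩) | ⟨j, a, b, hz, rfl⟩)
    · rw [h1, (H1 j).1.adj_mul]; simp
    · rw [h2, (H1 j).2, sub_self]
    · rw [aeval_ddC, H2 j a b hz]

/-- Left multiplication of a tuple by a matrix. -/
def clAct [Algebra k R] (γ : Matrix (Fin n) (Fin n) k) (h : CS r n → R) : CS r n → R :=
  mkC fun j => γ.map (algebraMap k R) * cM h j

lemma evs_clAct [Algebra k R] (γ : Matrix (Fin n) (Fin n) k) (h : CS r n → R) :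
    evs h (clAct γ (X : CS r n → MvPolynomial (CS r n) k)) = clAct γ h := by
  funext ⟨j, s⟩
  simp [evs, clAct, mkC, Matrix.mul_apply, cM]

end frames

lemma CD.frC_map {Ω : Type u} [Field Ω] [Algebra k Ω] {g : Matrix (Fin n) (Fin n) k}
    (h : frC C.t C.q g = g) : frC C.t C.q (g.map (algebraMap k Ω)) = g.map (algebraMap k Ω) := by
  rw [← MP_0c8446_ag.frC_map, h]

lemma CD.nxC_mul {Ω : Type u} [Field Ω] [Algebra k Ω] {γ : Matrix (Fin n) (Fin n) Ω}
    (hγ : frC C.t C.q γ = γ) (g : Fin (r + 1) → Matrix (Fin n) (Fin n) Ω) (j : Fin (r + 1)) :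
    nxC C.t C.q (fun j => γ * g j) j = γ * nxC C.t C.q g j := by
  have := PQ.ext k C.q Ω
  refine Fin.lastCases ?_ (fun j => ?_) j
  · rw [nxC_last, nxC_last, frC_mul, hγ]
  · rw [nxC_castSucc, nxC_castSucc]

lemma CD.ddC_mul {Ω : Type u} [Field Ω] [Algebra k Ω] (γ : C.Γ)
    (g : Fin (r + 1) → Matrix (Fin n) (Fin n) Ω) (j : Fin (r + 1)) :
    ddC C.alt C.t C.q (fun j => γ.1.1.map (algebraMap k Ω) * g j) j = ddC C.alt C.t C.q g j := by
  rw [ddC, C.nxC_mul (C.frC_map γ.2.2), adj_mul, mul_assoc, ← mul_assoc (adj _ (Matrix.map _ _)),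
    (γ.2.1.1.map _).adj_mul, one_mul, ddC]

lemma CD.fr_stab (Z : Fin (r + 1) → Fin n → Fin n → Prop) (γ : C.Γ) (Ω : Type u) [Field Ω]
    [Algebra k Ω] (h : CS r n → Ω) (H : ∀ e ∈ clE k C.alt C.t C.q Z, aeval h e = 0) :
    ∀ e ∈ clE k C.alt C.t C.q Z,
      aeval (evs h (clAct γ.1.1 (X : CS r n → MvPolynomial (CS r n) k))) e = 0 := by
  rw [evs_clAct]
  rw [clE_iff] at H ⊢
  rw [clAct, cM_mkC]
  exact ⟨fun j => (γ.2.1.map _).mul (H.1 j), fun j a b hz => by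
    rw [C.ddC_mul γ (cM h) j, H.2 j a b hz]⟩

/-- Frames with transition matrices vanishing at the positions `Z`. -/
noncomputable def CD.fr (Z : Fin (r + 1) → Fin n → Fin n → Prop) : FrD k C.Γ where
  σ := CS r n
  E := clE k C.alt C.t C.q Z
  act γ := clAct γ.1.1 X
  stab := C.fr_stab Z

lemma CD.fr_iff {Ω : Type u} [Field Ω] [Algebra k Ω] {Z : Fin (r + 1) → Fin n → Fin n → Prop}
    {h : CS r n → Ω} : (C.fr Z).Fr h ↔
      (∀ j, SU C.alt (cM h j)) ∧ ∀ j a b, Z j a b → ddC C.alt C.t C.q (cM h) j a b = 0 :=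
  clE_iff C.alt C.t C.q Z h

/-- The block structure of the `j`-th transition. -/
def blC (n : ℕ) (w : Fin r → ℕ × Bool) (j : Fin (r + 1)) : Fin n → ℕ :=
  Fin.lastCases (motive := fun _ => Fin n → ℕ) Fin.val (fun j => cbk n (w j).1 ∘ sw n (w j).2) j

/-- The relative position at the next step of the cyclic chain. -/
def nyC (t : Bool) (y : Fin (r + 1) → Equiv.Perm (Fin n)) (j : Fin (r + 1)) : Equiv.Perm (Fin n) :=
  Fin.lastCases (motive := fun _ => Equiv.Perm (Fin n)) (swP n t * y 0 * swP n t)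
    (fun j => y j.succ) j

/-- The positions at which the transition matrices vanish on the stratum `y`. -/
def zC (t : Bool) (w : Fin r → ℕ × Bool) (y : Fin (r + 1) → Equiv.Perm (Fin n)) (j : Fin (r + 1))
    (a b : Fin n) : Prop :=
  blC n w j b < blC n w j a ∨ blC n w j ((nyC t y j).symm b) < blC n w j ((y j).symm a)

/-- A cyclic chain of flags. -/
def CD.Ch {Ω : Type u} [Field Ω] (w : Fin r → ℕ × Bool)
    (g : Fin (r + 1) → Matrix (Fin n) (Fin n) Ω) : Prop :=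
  (∀ j, SU C.alt (g j)) ∧ ∀ j, (ddC C.alt C.t C.q g j).BlockTriangular (blC n w j)

variable {C}

/-- The index set of the strata. -/
def CD.Anti.Y (A : C.Anti) (r : ℕ) : Type :=
  {y : (Fin (r + 1) → Equiv.Perm (Fin n)) × (Fin (r + 1) → Fin n → Bool) //
    ∀ j, NuOK C.alt A.η⁻¹.1.det (y.1 j) (y.2 j)}

instance (A : C.Anti) (r : ℕ) : Finite (A.Y r) := inferInstanceAs (Finite (Subtype _))

/-- The frames of the second chain. -/
def CD.Anti.sec (A : C.Anti) (y : A.Y r) {R : Type u} [CommRing R] [Algebra k R]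
    (g : Fin (r + 1) → Matrix (Fin n) (Fin n) R) (j : Fin (r + 1)) : Matrix (Fin n) (Fin n) R :=
  A.η.1.map (algebraMap k R) * g j * nu R (y.1.1 j) (y.1.2 j)

/-- The Plücker coordinates of the pair of chains given by a frame on the stratum `y`. -/
def CD.Anti.pt (A : C.Anti) {N : Fin n → ℕ}
    (c : ∀ a : Fin n, Fin (N a + 1) ≃ (Fin (a + 1) → Fin n)) (y : A.Y r) {R : Type u} [CommRing R]
    [Algebra k R] (h : CS r n → R) :
    Vars (Sum.elim (fun i : Fin (r + 1) × Fin n => N i.2) fun i : Fin (r + 1) × Fin n => N i.2) →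
      R :=
  pvJoin (plV c (cM h)) (plV c (A.sec y (cM h)))

end Pool.Agent.MP_0c8446_ag

end

section

namespace Pool.Agent.MP_0c8446_ag

open MvPolynomial Set Matrix

universe u v w

variable {k : Type u} [Field k] {Ω Ω' : Type u} [Field Ω] [Algebra k Ω] [Field Ω'] [Algebra k Ω']
  (Pl : Place k Ω Ω') {n : ℕ}

/-- Integral matrices with invertible reduction. -/
def Place.IG (g : Matrix (Fin n) (Fin n) Ω) : Prop :=
  (∀ a b, g a b ∈ Pl.O) ∧ IsUnit (g.map Pl.red)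

variable {Pl} {g g' : Matrix (Fin n) (Fin n) Ω}

theorem Place.IG.isUnit (hg : Pl.IG g) : IsUnit g := (Pl.inv_mem_matrix hg.1 hg.2).1

theorem Place.IG.inv (hg : Pl.IG g) : Pl.IG g⁻¹ ∧ g⁻¹.map Pl.red = (g.map Pl.red)⁻¹ := by
  obtain ⟨-, h2, h3⟩ := Pl.inv_mem_matrix hg.1 hg.2
  exact ⟨⟨h2, h3 ▸ Matrix.isUnit_nonsing_inv_iff.2 hg.2⟩, h3⟩

theorem Place.IG.mul (hg : Pl.IG g) (hg' : Pl.IG g') :
    Pl.IG (g * g') ∧ (g * g').map Pl.red = g.map Pl.red * g'.map Pl.red := by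
  obtain ⟨h1, h2⟩ := Pl.map_red_mul hg.1 hg'.1
  exact ⟨⟨h1, h2 ▸ hg.2.mul hg'.2⟩, h2⟩

theorem Place.IG.dual (hg : Pl.IG g) :
    Pl.IG (dualM g) ∧ (dualM g).map Pl.red = dualM (g.map Pl.red) := by
  have e : (dualM g).map Pl.red = dualM (g.map Pl.red) := by
    rw [dualM, dualM, ← hg.inv.2]
    rfl
  exact ⟨⟨fun a b => hg.inv.1.1 _ _, e ▸ isUnit_dualM hg.2⟩, e⟩

theorem Place.IG.frob {uni : Bool} {q : ℕ} [PQ Ω q] [PQ Ω' q] (hg : Pl.IG g) :
    Pl.IG (frH Ω n uni q g) ∧ (frH Ω n uni q g).map Pl.red = frH Ω' n uni q (g.map Pl.red) := by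
  have e : (g.map (· ^ q)).map Pl.red = (g.map Pl.red).map (· ^ q) :=
    Matrix.ext fun a b => Pl.red_pow (hg.1 a b) q
  have h1 : Pl.IG (g.map (· ^ q)) :=
    ⟨fun a b => pow_mem (hg.1 a b) q, e ▸ isUnit_frH (uni := false) (q := q) hg.2⟩
  cases uni
  · exact ⟨h1, e⟩
  · have e' : (frH Ω n true q g).map Pl.red = frH Ω' n true q (g.map Pl.red) := by
      rw [frH_apply, frH_apply, if_pos rfl, if_pos rfl, ← e, ← h1.inv.2]
      rfl
    exact ⟨⟨fun a b => h1.inv.1.1 b a, e' ▸ isUnit_frH hg.2⟩, e'⟩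

theorem Place.IG.rl {b : Fin n → ℕ} (hg : Pl.IG g) (hg' : Pl.IG g') (h : Rl b g g') :
    Rl b (g.map Pl.red) (g'.map Pl.red) := by
  intro i j hij
  rw [← hg.inv.2, ← (hg.inv.1.mul hg').2, Matrix.map_apply, h hij, Pl.red_zero]

theorem Place.IG.red_mem_flg (hg : Pl.IG g) {a : ℕ} {x : Fin n → Ω} (hx : x ∈ flg g a)
    (hO : ∀ i, x i ∈ Pl.O) : (fun i => Pl.red (x i)) ∈ flg (g.map Pl.red) a := by
  rw [mem_flg_iff hg.2, ← hg.inv.2]
  intro l hl
  have h1 : ∑ j, g⁻¹ l j * x j = 0 := (mem_flg_iff hg.isUnit).1 hx l hl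
  have h2 := Pl.red_sum Finset.univ (f := fun j => g⁻¹ l j * x j)
    fun j _ => mul_mem (hg.inv.1.1 l j) (hO j)
  rw [h1, Pl.red_zero] at h2
  change ∑ j, Pl.red (g⁻¹ l j) * Pl.red (x j) = 0
  rw [h2]
  exact Finset.sum_congr rfl fun j _ => (Pl.red_mul (hg.inv.1.1 l j) (hO j)).symm

variable {r : ℕ} {G : Fin (r + 1) → Matrix (Fin n) (Fin n) Ω}

theorem IsChain'.red {uni : Bool} {q : ℕ} [PQ k q] {w : Fin r → ℕ} (h : IsChain' uni q w G)
    (hG : ∀ j, Pl.IG (G j)) : IsChain' uni q w fun j => (G j).map Pl.red := by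
  have := PQ.ext k q Ω
  have := PQ.ext k q Ω'
  have h1 := (hG 0).frob (uni := uni) (q := q)
  have e : (frobFlag uni q (G 0)).map Pl.red = frobFlag uni q ((G 0).map Pl.red) := by
    rw [frobFlag_eq, frobFlag_eq, ← h1.2]
    rfl
  have h2 : Pl.IG (frobFlag uni q (G 0)) :=
    ⟨fun a b => by rw [frobFlag_eq]; exact h1.1.1 _ _, e ▸ isUnit_frobFlag (hG 0).2⟩
  exact ⟨fun j => (hG j).2, fun j => (hG _).rl (hG _) (h.2.1 j), e ▸ (hG _).rl h2 h.2.2⟩

theorem Place.plV_red {N : Fin n → ℕ} (c : ∀ a : Fin n, Fin (N a + 1) ≃ (Fin (a + 1) → Fin n))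
    (hG : ∀ j a b, G j a b ∈ Pl.O) : (∀ s, plV c G s ∈ Pl.O) ∧
      (fun s => Pl.red (plV c G s)) = plV c fun j => (G j).map Pl.red :=
  ⟨fun _ => (Pl.red_det fun _ _ => hG _ _ _).1,
    funext fun _ => (Pl.red_det fun _ _ => hG _ _ _).2⟩

end Pool.Agent.MP_0c8446_ag

end

section

namespace Pool.Agent.MP_0c8446_ag

open MvPolynomial Set

universe u v w

variable {F : Type u} [Field F] {V : Type u} [AddCommGroup V] [Module F V]

/-- `U` is a nondegenerate invariant subspace with an anti-isometry that turns `T` into `T'`. -/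
def MvQ (B : V →ₗ[F] V →ₗ[F] F) (T T' : V →ₗ[F] V) (U : Submodule F V) : Prop :=
  (∀ x ∈ U, T x ∈ U) ∧ (∀ x ∈ U, (∀ y ∈ U, B x y = 0) → x = 0) ∧
    ∃ η : V →ₗ[F] V, (∀ x ∈ U, η x ∈ U) ∧ (∀ x ∈ U, ∀ y ∈ U, B (η x) (η y) = B y x) ∧
      ∀ x ∈ U, η (T x) = T' (η x)

/-- A nondegenerate symmetric or alternating form in characteristic different from two. -/
structure MvF (B : V →ₗ[F] V →ₗ[F] F) (ε : F) : Prop where
  two : (2 : F) ≠ 0
  sq : ε * ε = 1
  sym : ∀ x y, B y x = ε * B x y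
  nd : ∀ x, (∀ y, B x y = 0) → x = 0

variable {B : V →ₗ[F] V →ₗ[F] F} {ε : F} {T T' X : V →ₗ[F] V} {U U' : Submodule F V}

theorem MvQ.glue (h : MvQ B T T' U) (h' : MvQ B T T' U') (hB : MvF B ε)
    (ho : ∀ x ∈ U, ∀ y ∈ U', B x y = 0) : MvQ B T T' (U ⊔ U') := by
  obtain ⟨hT, hn, η₁, a1, b1, c1⟩ := h
  obtain ⟨hT', hn', η₂, a2, b2, c2⟩ := h'
  have ho' : ∀ x ∈ U, ∀ y ∈ U', B y x = 0 := fun x hx y hy => by
    rw [hB.sym, ho x hx y hy, mul_zero]
  have hd : Disjoint U U' := Submodule.disjoint_def.2 fun x hx hx' => hn' x hx' (ho x hx)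
  obtain ⟨W, hW, hc⟩ := hd.exists_isCompl
  have he : ∀ x ∈ U, ∀ y ∈ U', LinearMap.ofIsCompl hc (η₁.comp W.subtype) (η₂.comp U'.subtype)
      (x + y) = η₁ x + η₂ y := fun x hx y hy => by
    rw [map_add]
    exact congrArg₂ (· + ·) (LinearMap.ofIsCompl_apply_left hc ⟨x, hW hx⟩)
      (LinearMap.ofIsCompl_apply_right hc ⟨y, hy⟩)
  refine ⟨fun x hx => ?_, fun x hx H => ?_,
    LinearMap.ofIsCompl hc (η₁.comp W.subtype) (η₂.comp U'.subtype),
    fun x hx => ?_, fun x hx y hy => ?_, fun x hx => ?_⟩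
  · obtain ⟨a, ha, b, hb, rfl⟩ := Submodule.mem_sup.1 hx
    rw [map_add]
    exact Submodule.add_mem_sup (hT a ha) (hT' b hb)
  · obtain ⟨a, ha, b, hb, rfl⟩ := Submodule.mem_sup.1 hx
    have e1 : a = 0 := hn a ha fun y hy => by
      have := H y (Submodule.mem_sup_left hy)
      rwa [map_add, LinearMap.add_apply, ho' y hy b hb, add_zero] at this
    have e2 : b = 0 := hn' b hb fun y hy => by
      have := H y (Submodule.mem_sup_right hy)
      rwa [map_add, LinearMap.add_apply, ho a ha y hy, zero_add] at this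
    rw [e1, e2, add_zero]
  · obtain ⟨a, ha, b, hb, rfl⟩ := Submodule.mem_sup.1 hx
    rw [he a ha b hb]
    exact Submodule.add_mem_sup (a1 a ha) (a2 b hb)
  · obtain ⟨a, ha, b, hb, rfl⟩ := Submodule.mem_sup.1 hx
    obtain ⟨c, hc', d, hd', rfl⟩ := Submodule.mem_sup.1 hy
    rw [he a ha b hb, he c hc' d hd']
    simp only [map_add, LinearMap.add_apply]
    rw [b1 a ha c hc', b2 b hb d hd', ho _ (a1 a ha) _ (a2 d hd'), ho' _ (a1 c hc') _ (a2 b hb),
      ho c hc' b hb, ho' a ha d hd']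
  · obtain ⟨a, ha, b, hb, rfl⟩ := Submodule.mem_sup.1 hx
    rw [map_add T, he _ (hT a ha) _ (hT' b hb), he a ha b hb, c1 a ha, c2 b hb, map_add]

theorem MvF.restrict (hB : MvF B ε) (hU : ∀ x ∈ U, (∀ y ∈ U, B x y = 0) → x = 0) :
    MvF (B.compl₁₂ U.subtype U.subtype) ε := by
  exact ⟨hB.two, hB.sq, fun x y => hB.sym x y,
    fun x hx => Subtype.ext (hU x x.2 fun y hy => hx ⟨y, hy⟩)⟩

theorem MvQ.of_restrict (hT : ∀ x ∈ U, T x ∈ U) (hT' : ∀ x ∈ U, T' x ∈ U)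
    (h : MvQ (B.compl₁₂ U.subtype U.subtype) (T.restrict hT) (T'.restrict hT') ⊤) :
    MvQ B T T' U := by
  obtain ⟨-, hn, η, -, b1, c1⟩ := h
  obtain ⟨g, hg⟩ := LinearMap.exists_extend (U.subtype.comp η)
  have he : ∀ x (hx : x ∈ U), g x = η ⟨x, hx⟩ := fun x hx => LinearMap.congr_fun hg ⟨x, hx⟩
  refine ⟨hT, fun x hx H => ?_, g, fun x hx => ?_, fun x hx y hy => ?_, fun x hx => ?_⟩
  · exact congrArg Subtype.val (hn ⟨x, hx⟩ trivial fun y _ => H y y.2)
  · rw [he x hx]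
    exact (η ⟨x, hx⟩).2
  · rw [he x hx, he y hy]
    exact b1 ⟨x, hx⟩ trivial ⟨y, hy⟩ trivial
  · rw [he x hx, he _ (hT x hx)]
    exact congrArg Subtype.val (c1 ⟨x, hx⟩ trivial)

/-- The orthogonal complement of a nondegenerate subspace. -/
theorem MvF.exists_perp [FiniteDimensional F V] (hB : MvF B ε)
    (hU : ∀ x ∈ U, (∀ y ∈ U, B x y = 0) → x = 0) :
    ∃ U' : Submodule F V, (∀ y, y ∈ U' ↔ ∀ x ∈ U, B x y = 0) ∧ IsCompl U U' ∧
      ∀ x ∈ U', (∀ y ∈ U', B x y = 0) → x = 0 := by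
  have hr : LinearMap.BilinForm.IsRefl B := fun x y h => by rw [hB.sym, h, mul_zero]
  have hc : IsCompl U (LinearMap.BilinForm.orthogonal B U) :=
    LinearMap.BilinForm.isCompl_orthogonal_of_restrict_nondegenerate hr
      ⟨fun x hx => Subtype.ext (hU x x.2 fun y hy => hx ⟨y, hy⟩),
        fun x hx => Subtype.ext (hU x x.2 fun y hy => hr _ _ (hx ⟨y, hy⟩))⟩
  refine ⟨_, fun y => Iff.rfl, hc, fun x hx H => hB.nd x fun z => ?_⟩
  obtain ⟨a, ha, b, hb, rfl⟩ := Submodule.mem_sup.1 (hc.sup_eq_top ▸ Submodule.mem_top (x := z))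
  rw [map_add, hr _ _ (hx a ha), H b hb, add_zero]

theorem skew_aeval (hX : ∀ x y, B (X x) y = -B x (X y)) (P : Polynomial F) (x y : V) :
    B (Polynomial.aeval X P x) y = B x (Polynomial.aeval (-X) P y) := by
  have hp : ∀ (n : ℕ) (x y : V), B ((X ^ n) x) y = B x (((-X) ^ n) y) := by
    intro n
    induction n with
    | zero => intro x y; rfl
    | succ n ih =>
      intro x y
      rw [pow_succ' X, pow_succ (-X), Module.End.mul_apply, Module.End.mul_apply, hX, ← ih,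
        LinearMap.neg_apply, map_neg]
  induction P using Polynomial.induction_on' with
  | add p q hp' hq' => simp only [map_add, LinearMap.add_apply, hp', hq']
  | monomial n a =>
    simp only [Polynomial.aeval_monomial, Module.End.mul_apply, Module.algebraMap_end_apply,
      map_smul, LinearMap.smul_apply, hp]

/-- An anti-isometry given on generators. -/
theorem mvQ_of_pair {A : Type u} [AddCommGroup A] [Module F A] {Φ Ψ : A →ₗ[F] V} (m : A → A)
    (hnd : ∀ s, (∀ s', B (Φ s) (Φ s') = 0) → Φ s = 0) (hr : ∀ s, ∃ s', Ψ s = Φ s')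
    (hr' : ∀ s, ∃ s', Φ s = Ψ s') (hB : ∀ s s', B (Ψ s) (Ψ s') = B (Φ s') (Φ s))
    (h1 : ∀ s, T (Φ s) = Φ (m s)) (h2 : ∀ s, Ψ (m s) = T' (Ψ s)) :
    MvQ B T T' (LinearMap.range Φ) := by
  have hk : ∀ s, Φ s = 0 → Ψ s = 0 := fun s hs => by
    obtain ⟨t, ht⟩ := hr s
    rw [ht]
    refine hnd t fun s' => ?_
    obtain ⟨t', ht'⟩ := hr' s'
    rw [← ht, ht', hB, hs, map_zero]
  obtain ⟨g, hg⟩ := Φ.rangeRestrict.exists_rightInverse_of_surjective Φ.range_rangeRestrict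
  obtain ⟨η, hη⟩ := LinearMap.exists_extend (Ψ.comp g)
  have he : ∀ s, η (Φ s) = Ψ s := fun s => by
    have e1 : η (Φ s) = Ψ (g ⟨Φ s, s, rfl⟩) := LinearMap.congr_fun hη ⟨Φ s, s, rfl⟩
    have e2 : Φ (g ⟨Φ s, s, rfl⟩) = Φ s :=
      congrArg Subtype.val (LinearMap.congr_fun hg ⟨Φ s, s, rfl⟩)
    rw [e1, ← sub_eq_zero, ← map_sub]
    exact hk _ (by rw [map_sub, e2, sub_self])
  refine ⟨?_, ?_, η, ?_, ?_, ?_⟩
  · rintro _ ⟨s, rfl⟩
    exact ⟨m s, (h1 s).symm⟩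
  · rintro _ ⟨s, rfl⟩ H
    exact hnd s fun s' => H _ ⟨s', rfl⟩
  · rintro _ ⟨s, rfl⟩
    obtain ⟨t, ht⟩ := hr s
    exact ⟨t, by rw [he, ht]⟩
  · rintro _ ⟨s, rfl⟩ _ ⟨s', rfl⟩
    rw [he, he, hB]
  · rintro _ ⟨s, rfl⟩
    rw [h1, he, he, h2]

/-- The cyclic case. -/
theorem mvQ_cyclic (hB : MvF B ε) (hX : ∀ x y, B (X x) y = -B x (X y)) (v : V)
    (hv : ∀ P : Polynomial F, (∀ Q : Polynomial F,
      B (Polynomial.aeval X P v) (Polynomial.aeval X Q v) = 0) → Polynomial.aeval X P v = 0) :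
    ∃ U : Submodule F V, v ∈ U ∧ MvQ B X (-X) U := by
  have e1 : ∀ P : Polynomial F, Polynomial.aeval (-X) P =
      Polynomial.aeval X (P.comp (-Polynomial.X)) := fun P => by
    rw [Polynomial.aeval_comp, map_neg, Polynomial.aeval_X]
  have e2 : ∀ P : Polynomial F, Polynomial.aeval X P =
      Polynomial.aeval (-X) (P.comp (-Polynomial.X)) := fun P => by
    rw [Polynomial.aeval_comp, map_neg, Polynomial.aeval_X, neg_neg]
  have hX' : ∀ x y, B ((-X) x) y = -B x ((-X) y) := fun x y => by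
    rw [LinearMap.neg_apply, LinearMap.neg_apply, map_neg, LinearMap.neg_apply, hX, map_neg]
  refine ⟨_, LinearMap.mem_range.2 ⟨1, ?_⟩, mvQ_of_pair
    (Φ := (LinearMap.applyₗ v).comp (Polynomial.aeval X).toLinearMap)
    (Ψ := (LinearMap.applyₗ v).comp (Polynomial.aeval (-X)).toLinearMap)
    (fun P => Polynomial.X * P) hv (fun P => ⟨_, LinearMap.congr_fun (e1 P) v⟩)
    (fun P => ⟨_, LinearMap.congr_fun (e2 P) v⟩) (fun P Q => ?_) (fun P => ?_) fun P => ?_⟩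
  · change Polynomial.aeval X 1 v = v
    rw [map_one, Module.End.one_apply]
  · change B (Polynomial.aeval (-X) P v) (Polynomial.aeval (-X) Q v) =
      B (Polynomial.aeval X Q v) (Polynomial.aeval X P v)
    rw [skew_aeval hX', skew_aeval hX, neg_neg, e1 Q, ← Module.End.mul_apply,
      ← Module.End.mul_apply, ← map_mul, ← map_mul, mul_comm]
  · change X (Polynomial.aeval X P v) = Polynomial.aeval X (Polynomial.X * P) v
    rw [map_mul, Polynomial.aeval_X, Module.End.mul_apply]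
  · change Polynomial.aeval (-X) (Polynomial.X * P) v = (-X) (Polynomial.aeval (-X) P v)
    rw [map_mul, Polynomial.aeval_X, Module.End.mul_apply]

end Pool.Agent.MP_0c8446_ag

end
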