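import Pool.Agent.Mg.F0c8446.G1ff22b
import Pool.Agent.Mg.F0c8446.G012dda
import Pool.Agent.Mg.F0c8446.G37419f
import Pool.Agent.Mg.F0c8446.G601e39

section

namespace Pool.Agent.MP_0c8446_ag

open MvPolynomial Set

universe u v w

variable {k : Type u} [Field k] [IsAlgClosed k] {K : Type v} [Field K] [CharZero K]
  (W : Weil.{u, v, w} k K) {Γ : Type u} [Group Γ]

omit [IsAlgClosed k] in
theorem LineW_retr {X Y : Var k} (s : Mor X Y) (p : Mor Y X) (h : ∀ x, p.1 (s.1 x) = x)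
    {D : Set Y.pts} (hD : IsSub D) (hs : D ⊆ range s.1) :
    IsSub (p.1 '' D) ∧ closure (p.1 '' D) = p.1 '' D ∧ s.1 '' (p.1 '' D) = D := by
  have h1 : p.1 '' D = s.1 ⁻¹' D := by
    ext x
    constructor
    · rintro ⟨y, hy, rfl⟩
      obtain ⟨x, rfl⟩ := hs hy
      rwa [mem_preimage, h]
    · exact fun hx => ⟨_, hx, h x⟩
  have h2 : closure (p.1 '' D) = p.1 '' D := by
    rw [h1]
    exact (hD.2.preimage s.continuous).closure_eq
  exact ⟨h2 ▸ hD.image_closure p.continuous, h2, by rw [h1, image_preimage_eq_of_subset hs]⟩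

omit [IsAlgClosed k] in
theorem LineW_ph {X Y : Var k} (s : Mor X Y) (p : Mor Y X) (h : ∀ x, p.1 (s.1 x) = x)
    {C : Set X.pts} (hC : IsSub C) (η : W.H Y) (β : W.H X) :
    W.ph (η * W.pull p β) (s.1 '' C) = W.ph (W.pull s η * β) C := by
  rw [Weil.ph, ← W.push_retr s p h hC, map_mul (W.pull s), W.pull_pull, W.pull_id (p.comp s) (funext h)]
  rfl

/-- The last step: the section is a component of the cut and the other components are killed. -/
theorem LineW_last {X Y : Var k} (s : Mor X Y) (p : Mor Y X) (h : ∀ x, p.1 (s.1 x) = x)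
    {C : Set X.pts} (hC : IsSub C) {C' H : Set Y.pts} {η : W.H Y} {β : W.H X}
    (hc : W.CutAt η C' H) (hd : dim C' = dim C + 1) (h1 : p.1 '' C' ⊆ C)
    (h2 : s.1 '' C ⊆ C' ∩ H)
    (h3 : ∀ D, IsSub D → D ⊆ C' ∩ H → W.ph (W.pull p β) D = 0 ∨ D ⊆ range s.1)
    (h0 : W.ph (η * W.pull p β) C' = 0) : W.ph β C = 0 := by
  obtain ⟨a, t, μ, -, ht, hμ, e⟩ := hc
  have hr := s.retr p h
  have hs := hr.isSub hC
  have hm : s.1 '' C ∈ t := by
    obtain ⟨D, hD, hD'⟩ := exists_isComp hs h2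
    have h4 := (hμ D ((ht D).2 hD)).2
    rw [eq_of_dim_le hs hD.1.1 hD' (by rw [hr.dim_image]; omega)]
    exact (ht D).2 hD
  have e1 := congrArg (fun z => W.tr Y (z * W.pull p β)) e
  simp only [smul_mul_assoc, Finset.sum_mul, map_sum, map_nsmul, mul_assoc] at e1
  rw [show W.tr Y (W.cl Y C' * (η * W.pull p β)) = 0 from h0, smul_zero,
    Finset.sum_eq_single_of_mem _ hm fun D hD hne => ?_] at e1
  · have e2 := LineW_ph W s p h hC 1 β
    rw [one_mul, map_one, one_mul] at e2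
    rw [← e2]
    rw [nsmul_eq_mul, eq_comm, mul_eq_zero] at e1
    exact e1.resolve_left (Nat.cast_ne_zero.2 (hμ _ hm).1.ne')
  · have hD' := (ht D).1 hD
    rcases h3 D hD'.1.1 hD'.1.2 with h4 | h4
    · rw [show W.tr Y (W.cl Y D * W.pull p β) = 0 from h4, smul_zero]
    · have h5 : D ⊆ s.1 '' C := by
        rw [← (LineW_retr s p h hD'.1.1 h4).2.2]
        exact image_mono ((image_mono (hD'.1.2.trans inter_subset_left)).trans h1)
      exact absurd (h5.antisymm (hD'.2 ⟨hs, h2⟩ h5)) hne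

/-- Adding a block whose fibres are lines through the point at infinity `[0 : x_i]`. -/
theorem Weil.dec_line [Finite Γ] {S : Stage k Γ} {i : S.P.ι} (hi : i ∉ S.J)
    {𝓡 𝓓 : Set (Set S.P.pts)} {𝓡' 𝓓' : Set (Set (S.lb i).P.pts)} (hD : SubCl 𝓓)
    (h1 : ∀ C ∈ 𝓡, IsSub C ∧ ∃ C' ∈ 𝓡', IsSub C' ∧ dim C' = dim C + 1 ∧
      (pvF S.P (PN k (S.P.n i + 1))).1 '' C' ⊆ C ∧ ¬ C' ⊆ hInf S.P (S.P.n i) ∧
      (S.P.inf i).1 '' C ⊆ C' ∧ ∀ D, IsSub D → D ⊆ C' ∩ hInf S.P (S.P.n i) →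
        closure ((pvF S.P (PN k (S.P.n i + 1))).1 '' D) ∈ 𝓓 ∨ D ⊆ range (S.P.inf i).1)
    (h2 : ∀ D ∈ 𝓓', IsSub D ∧ (closure ((pvF S.P (PN k (S.P.n i + 1))).1 '' D) ∈ 𝓓 ∨
      D ⊆ zSec S.P (S.P.n i) ∨
      (D ⊆ range (S.P.inf i).1 ∧ closure ((pvF S.P (PN k (S.P.n i + 1))).1 '' D) ∈ 𝓡)))
    (H : W.Dec (S.lb i) 𝓡' 𝓓') : W.Dec S 𝓡 𝓓 := by
  obtain ⟨η₀, hg, hinv, hcut⟩ := W.exists_hyp (S.P.n i)
  obtain ⟨η, hη⟩ : ∃ η, η = W.pull (pvS S.P (PN k (S.P.n i + 1))) η₀ := ⟨_, rfl⟩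
  have hη1 : W.pull (S.P.inf i) η = W.pull (S.P.infS i) η₀ := by
    rw [hη, W.pull_pull]
    rfl
  have hI : W.Inv (S.lb i) η := hη ▸ W.inv_snd S (hinv Γ (plus (S.ρ i)))
  have hgη : η ∈ W.gr (S.lb i).P 2 := hη ▸ W.pull_gr _ _ _ hg
  have c1 : ∀ V : Set (S.lb i).P.pts, IsSub V → ∃ c,
      ¬ V ⊆ Subtype.val ⁻¹' hyp (n := (S.lb i).P.n) (Sum.inr ()) c ∧
      W.CutAt η V (Subtype.val ⁻¹' hyp (n := (S.lb i).P.n) (Sum.inr ()) c) := fun V hV => by
    obtain ⟨c, hc⟩ := exists_not_subset_hyp (X := (S.lb i).P) (Sum.inr ()) hV.1.1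
    have e := pvS_preimage_hyp S.P (S.P.n i + 1) c
    exact ⟨c, hc, hη ▸ e ▸ hcut _ _ V c hV (e ▸ hc)⟩
  have c2 : ∀ V : Set S.P.pts, IsSub V → ∃ c, ¬ V ⊆ Subtype.val ⁻¹' hyp i c ∧
      W.CutAt (W.pull (S.P.inf i) η) V (Subtype.val ⁻¹' hyp i c) := fun V hV => by
    obtain ⟨c, hc⟩ := exists_not_subset_hyp i hV.1.1
    have e := infS_preimage_hyp i c
    exact ⟨c, hc, hη1 ▸ e ▸ hcut _ _ V _ hV (e ▸ hc)⟩
  have c3 : ∀ V : Set (S.lb i).P.pts, IsSub V → ¬ V ⊆ hInf S.P (S.P.n i) →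
      W.CutAt η V (hInf S.P (S.P.n i)) := fun V hV h => by
    rw [hInf_eq] at h ⊢
    exact hη ▸ hcut _ _ V _ hV h
  have key : ∀ n m, S.P.d < m + n → ∀ β ∈ W.gr S.P (2 * m), W.Inv S β → W.Kill S β →
      (∀ C ∈ 𝓓, W.ph β C = 0) → ∀ C ∈ 𝓡, W.ph β C = 0 := by
    intro n
    induction n with
    | zero =>
      intro m hm β hβ _ _ _ C _
      rw [W.gr_eq_zero hβ (by omega), Weil.ph, mul_zero, map_zero]
    | succ n ih =>
      intro m hm β hβ b1 b2 b3 C hC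
      have hdeg : 2 * (m + 1) = 2 + 2 * m := by ring
      have r1 := ih (m + 1) (by omega) (W.pull (S.P.inf i) η * β)
        (hdeg ▸ SetLike.mul_mem_graded (W.pull_gr _ _ _ hgη) hβ)
        (Weil.Inv.mul W (W.inv_inf i hI) b1) (W.kill_cut hi c2 b2)
        (W.subCl_cut hD (fun V hV => (c2 V hV).elim fun c hc => ⟨_, hc.2⟩) b3)
      have r2 : ∀ D, IsSub D → closure ((pvF S.P (PN k (S.P.n i + 1))).1 '' D) ∈ 𝓓 →
          W.ph (W.pull (pvF S.P (PN k (S.P.n i + 1))) β) D = 0 := fun D h h' => by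
        obtain ⟨r, -, hr⟩ := W.ph_pull (pvF S.P (PN k (S.P.n i + 1))) h
        rw [hr, b3 _ h', mul_zero]
      have r3 := H (m + 1) (η * W.pull (pvF S.P (PN k (S.P.n i + 1))) β)
        (hdeg ▸ SetLike.mul_mem_graded (A := W.gr (pvVar S.P (PN k (S.P.n i + 1)))) hgη
          (W.pull_gr _ _ _ hβ))
        (Weil.Inv.mul W hI (W.inv_fst _ b1))
        (W.kill_cut (S := S.lb i) (i := Sum.inr ()) (fun h => h) c1 (W.kill_fst _ b2))
        fun D hD' => by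
          obtain ⟨d1, d2 | d2 | ⟨d2, d3⟩⟩ := h2 D hD'
          · refine W.subCl_cut
              (𝓓 := {D | IsSub D ∧ closure ((pvF S.P (PN k (S.P.n i + 1))).1 '' D) ∈ 𝓓})
              (fun E hE => ⟨hE.1, fun E' h h' => ⟨h, (hD _ hE.2).2 _
                (h.image_closure (Mor.continuous _)) (closure_mono (image_mono h'))⟩⟩)
              (fun V hV => (c1 V hV).elim fun c hc => ⟨_, hc.2⟩) (fun E hE => r2 E hE.1 hE.2) D
              ⟨d1, d2⟩
          · have hne : ∀ x ∈ D, x ∉ hInf S.P (S.P.n i) := fun x hx h =>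
              (hInf_inter_zSec S.P (S.P.n i)).subset ⟨h, d2 hx⟩
            refine W.ph_cut (c3 D d1 fun h => d1.1.1.elim fun x hx => hne x hx (h hx))
              fun E hE _ => ?_
            obtain ⟨x, hx⟩ := hE.1.1.1.1
            exact absurd (hE.1.2 hx).2 (hne x (hE.1.2 hx).1)
          · obtain ⟨e1, e2, e3⟩ := LineW_retr (S.P.inf i) _ (pvF_inf i) d1 d2
            rw [e2] at d3
            have e4 := LineW_ph W (S.P.inf i) _ (pvF_inf i) e1 η β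
            rw [e3] at e4
            exact e4.trans (r1 _ d3)
      obtain ⟨a1, C', a2, a3, a4, a5, a6, a7, a8⟩ := h1 C hC
      exact LineW_last W (S.P.inf i) _ (pvF_inf i) a1 (c3 C' a3 a6) a4 a5
        (subset_inter a7 ((image_subset_range _ _).trans (Var.range_inf_subset i)))
        (fun D h h' => (a8 D h h').imp_left (r2 D h)) (r3 C' a2)
  exact fun m => key (S.P.d + 1) m (by omega)

end Pool.Agent.MP_0c8446_ag

end

section

namespace Pool.Agent.MP_0c8446_ag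

open MvPolynomial Set

universe u v w

variable {k : Type u} [Field k] {σ σ' : Type} {R : Fam k σ} {R' : Fam k σ'}

theorem ChA_aeval {Ω : Type u} [CommRing Ω] [Algebra k Ω] (x : σ → Ω) (φ : σ' → MvPolynomial σ k)
    (p : MvPolynomial σ' k) : aeval x (aeval φ p) = aeval (evs x φ) p :=
  comp_aeval_apply _ _ _

theorem ChA_evs {Ω : Type u} [CommRing Ω] [Algebra k Ω] {τ : Type} (x : σ → Ω)
    (φ : σ' → MvPolynomial σ k) (t : τ → MvPolynomial σ' k) :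
    (evs x fun s => aeval φ (t s)) = evs (evs x φ) t := funext fun s => ChA_aeval x φ (t s)

theorem ChA_ren {Ω : Type u} [CommRing Ω] [Algebra k Ω] (x : σ → Ω) (g : σ' → σ)
    (p : MvPolynomial σ' k) : aeval x (rename g p) = aeval (fun s => x (g s)) p :=
  aeval_rename _ _ _

theorem ChA_half {I : Type} {φ : σ' → MvPolynomial σ k} {ψ : σ → MvPolynomial σ' k}
    {f : I → MvPolynomial σ k} {f' : I → MvPolynomial σ' k} (T : I → Bool) {Ω : Type u} [Field Ω]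
    [Algebra k Ω] [IsAlgClosed Ω] {x : σ ⊕ I → Ω} (hx : R.cut f T Ω x)
    (h1 : R' Ω (evs (fun s => x (Sum.inl s)) φ))
    (h2 : evs (evs (fun s => x (Sum.inl s)) φ) ψ = fun s => x (Sum.inl s))
    (h3 : ∀ i, aeval (evs (fun s => x (Sum.inl s)) φ) (f' i) =
      aeval (fun s => x (Sum.inl s)) (f i)) :
    R'.cut f' T Ω (evs x (Sum.elim (fun s => rename Sum.inl (φ s)) fun i => X (Sum.inr i))) ∧
      evs (evs x (Sum.elim (fun s => rename Sum.inl (φ s)) fun i => X (Sum.inr i)))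
        (Sum.elim (fun s => rename Sum.inl (ψ s)) fun i => X (Sum.inr i)) = x := by
  set y := evs x (Sum.elim (fun s => rename Sum.inl (φ s)) fun i => X (Sum.inr i)) with hy
  have e1 : (fun s => y (Sum.inl s)) = evs (fun s => x (Sum.inl s)) φ :=
    funext fun s => ChA_ren x Sum.inl (φ s)
  have e2 : ∀ i, y (Sum.inr i) = x (Sum.inr i) := fun i => aeval_X (R := k) x (Sum.inr i)
  refine ⟨⟨by rwa [e1], fun i => by rw [e1, e2, h3]; exact hx.2 i⟩, funext fun s => ?_⟩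
  rcases s with s | i
  · exact (ChA_ren y Sum.inl (ψ s)).trans (by rw [e1]; exact congrFun h2 s)
  · exact (aeval_X (R := k) y (Sum.inr i)).trans (e2 i)

theorem HasChart.of_iso {φ : σ' → MvPolynomial σ k} {ψ : σ → MvPolynomial σ' k}
    (e : R.Iso R' φ ψ) (h : HasChart R') : HasChart R := by
  obtain ⟨τ, _, t, Dp, H⟩ := h
  refine ⟨τ, inferInstance, fun s => aeval φ (t s), Dp, fun Ω _ _ _ x hx => ?_,
    fun Ω _ _ _ x x' hx hx' h => ?_, fun Ω _ _ _ y hy => ?_,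
    fun Ω Ω' _ _ _ _ _ _ Pl x hx h1 h2 => ?_⟩
  · rw [ChA_evs]
    exact H.nv Ω _ (e.hom Ω x hx).1
  · rw [ChA_evs, ChA_evs] at h
    rw [← (e.hom Ω x hx).2, H.inj Ω _ _ (e.hom Ω x hx).1 (e.hom Ω x' hx').1 h, (e.hom Ω x' hx').2]
  · obtain ⟨x, hx, h⟩ := H.surj Ω y hy
    exact ⟨evs x ψ, (e.inv Ω x hx).1, by rw [ChA_evs, (e.inv Ω x hx).2, h]⟩
  · rw [ChA_evs] at h1 h2
    rw [← (e.hom Ω x hx).2]
    exact fun s => Pl.aeval_mem (H.val Ω Ω' Pl _ (e.hom Ω x hx).1 h1 h2) _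

theorem HasChart.congr {R₁ : Fam k σ} (h : HasChart R)
    (e : ∀ (Ω : Type u) [Field Ω] [Algebra k Ω] [IsAlgClosed Ω] (x : σ → Ω), R₁ Ω x ↔ R Ω x) :
    HasChart R₁ := by
  obtain ⟨τ, _, t, Dp, H⟩ := h
  exact ⟨τ, inferInstance, t, Dp, fun Ω _ _ _ x hx => H.nv Ω x ((e Ω x).1 hx),
    fun Ω _ _ _ x x' hx hx' => H.inj Ω x x' ((e Ω x).1 hx) ((e Ω x').1 hx'),
    fun Ω _ _ _ y hy => (H.surj Ω y hy).imp fun x hx => ⟨(e Ω x).2 hx.1, hx.2⟩,
    fun Ω Ω' _ _ _ _ _ _ Pl x hx => H.val Ω Ω' Pl x ((e Ω x).1 hx)⟩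

theorem HasChart.opt (h : HasChart R) : HasChart R.opt := by
  obtain ⟨τ, _, t, Dp, H⟩ := h
  let t' : Option τ → MvPolynomial (Option σ) k := fun s =>
    s.elim (X none) fun s => rename some (t s)
  have e1 : ∀ (Ω : Type u) [Field Ω] [Algebra k Ω] (x : Option σ → Ω) (s : τ),
      evs x t' (some s) = evs (fun s => x (some s)) t s := fun Ω _ _ x s => ChA_ren x some (t s)
  have e2 : ∀ (Ω : Type u) [Field Ω] [Algebra k Ω] (x : Option σ → Ω),
      evs x t' none = x none := fun Ω _ _ x => aeval_X (R := k) x none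
  refine ⟨Option τ, inferInstance, t', rename some Dp, fun Ω _ _ _ x hx => ?_,
    fun Ω _ _ _ x x' hx hx' h => ?_, fun Ω _ _ _ y hy => ?_,
    fun Ω Ω' _ _ _ _ _ _ Pl x hx h1 h2 s => ?_⟩
  · simp only [ChA_ren, e1]
    exact H.nv Ω _ hx
  · have := H.inj Ω _ _ hx hx' (funext fun s => by rw [← e1, ← e1, h])
    funext s
    rcases s with _ | s
    · rw [← e2 Ω x, h, e2]
    · exact congrFun this s
  · rw [ChA_ren] at hy
    obtain ⟨x, hx, h⟩ := H.surj Ω _ hy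
    refine ⟨fun s => s.elim (y none) x, hx, funext fun s => ?_⟩
    rcases s with _ | s
    · exact e2 Ω _
    · exact (e1 Ω _ s).trans (congrFun h s)
  · rcases s with _ | s
    · exact e2 Ω x ▸ h1 none
    · simp only [ChA_ren, e1] at h2
      exact H.val Ω Ω' Pl _ hx (fun s => e1 Ω x s ▸ h1 (some s)) h2 s

theorem HasChart.pi {J : Type} [Finite J] {S : J → Fam k σ} (h : ∀ j, HasChart (S j)) :
    HasChart (Fam.pi S) := by
  choose τ hτ t Dp H using h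
  have := Fintype.ofFinite J
  let t' : (Σ j, τ j) → MvPolynomial (J × σ) k := fun s => rename (Prod.mk s.1) (t s.1 s.2)
  have e1 : ∀ (Ω : Type u) [Field Ω] [Algebra k Ω] (x : J × σ → Ω) (j : J) (s : τ j),
      evs x t' ⟨j, s⟩ = evs (fun s => x (j, s)) (t j) s :=
    fun Ω _ _ x j s => ChA_ren x (Prod.mk j) (t j s)
  have e2 : ∀ (Ω : Type u) [Field Ω] [Algebra k Ω] (y : (Σ j, τ j) → Ω),
      aeval y (∏ j, rename (Sigma.mk j) (Dp j)) ≠ 0 ↔
        ∀ j, aeval (fun s => y ⟨j, s⟩) (Dp j) ≠ 0 := fun Ω _ _ y => by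
    simp only [map_prod, Finset.prod_ne_zero_iff, Finset.mem_univ, true_imp_iff, ChA_ren]
  refine ⟨Σ j, τ j, inferInstance, t', ∏ j, rename (Sigma.mk j) (Dp j), fun Ω _ _ _ x hx => ?_,
    fun Ω _ _ _ x x' hx hx' h => ?_, fun Ω _ _ _ y hy => ?_,
    fun Ω Ω' _ _ _ _ _ _ Pl x hx h1 h2 s => ?_⟩
  · simp only [e2, e1]
    exact fun j => (H j).nv Ω _ (hx j)
  · funext ⟨j, s⟩
    exact congrFun ((H j).inj Ω _ _ (hx j) (hx' j) (funext fun s => by rw [← e1, ← e1, h])) s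
  · choose x hx h using fun j => (H j).surj Ω _ ((e2 Ω y).1 hy j)
    exact ⟨fun s => x s.1 s.2, hx, funext fun ⟨j, s⟩ => (e1 Ω _ j s).trans (congrFun (h j) s)⟩
  · simp only [e2, e1] at h2
    exact (H s.1).val Ω Ω' Pl _ (hx s.1) (fun s' => e1 Ω x s.1 s' ▸ h1 ⟨s.1, s'⟩) (h2 s.1) s.2

theorem hasChart_of_empty
    (h : ∀ (Ω : Type u) [Field Ω] [Algebra k Ω] [IsAlgClosed Ω] (x : σ → Ω), ¬ R Ω x) :
    HasChart R := by
  exact ⟨Empty, inferInstance, Empty.elim, 0, fun Ω _ _ _ x hx => (h Ω x hx).elim,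
    fun Ω _ _ _ x _ hx => (h Ω x hx).elim, fun Ω _ _ _ y hy => (hy (map_zero _)).elim,
    fun Ω _ _ _ _ _ _ _ _ x hx => (h Ω x hx).elim⟩

theorem Fam.Closed.cut (h : R.Closed) {I : Type} (f : I → MvPolynomial σ k) (T : I → Bool) :
    (R.cut f T).Closed := by
  obtain ⟨E, hE⟩ := h
  exact ⟨cutE E f T, fun Ω _ _ _ x => by rw [cutE_iff, ← hE]; rfl⟩

/-- A nonempty closed family has a rational point. -/
theorem Fam.Closed.exists_pt [IsAlgClosed k] [Finite σ] (h : R.Closed) {Ω : Type u} [Field Ω]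
    [Algebra k Ω] [IsAlgClosed Ω] {x : σ → Ω} (hx : R Ω x) : ∃ x₀ : σ → k, R k x₀ := by
  obtain ⟨E, hE⟩ := h
  obtain ⟨x₀, h0, -⟩ := Locus_spec (k := k) x (f := 1) (by rw [map_one]; exact one_ne_zero)
  exact ⟨x₀, (hE k x₀).2 fun e he => mem_kr.1 (h0 (mem_kr.2 ((hE Ω x).1 hx e he)))⟩

theorem HasChart.of_base [IsAlgClosed k] [Finite σ] (h : R.Closed)
    (H : ∀ x₀ : σ → k, R k x₀ → HasChart R) : HasChart R := by
  by_cases h0 : ∃ x₀, R k x₀
  · exact h0.elim H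
  · exact hasChart_of_empty fun Ω _ _ _ x hx => h0 (h.exists_pt hx)

theorem HasChart.cell (h : HasChart R) : Cell R := by
  let φ : σ → MvPolynomial (σ ⊕ Empty) k := fun s => X (Sum.inl s)
  let ψ : σ ⊕ Empty → MvPolynomial σ k := fun s => X (Sum.elim id Empty.elim s)
  have e1 : ∀ (Ω : Type u) [Field Ω] [Algebra k Ω] (x : σ ⊕ Empty → Ω),
      evs x φ = fun s => x (Sum.inl s) := fun Ω _ _ x => funext fun s => aeval_X (R := k) x (Sum.inl s)
  have e2 : ∀ (Ω : Type u) [Field Ω] [Algebra k Ω] (y : σ → Ω),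
      evs y ψ = fun s => y (Sum.elim id Empty.elim s) :=
    fun Ω _ _ y => funext fun s => aeval_X (R := k) y (Sum.elim id Empty.elim s)
  refine ⟨Empty, inferInstance, Empty.elim, fun T => h.of_iso (φ := φ) (ψ := ψ)
    ⟨fun Ω _ _ _ x hx => ?_, fun Ω _ _ _ y hy => ?_⟩⟩
  · refine ⟨(congrArg (R Ω) (e1 Ω x)).mpr hx.1, (e2 Ω (evs x φ)).trans (funext fun s => ?_)⟩
    rcases s with s | i
    · exact congrFun (e1 Ω x) s
    · exact i.elim
  · have e3 : (fun s => evs y ψ (Sum.inl s)) = y := funext fun s => congrFun (e2 Ω y) (Sum.inl s)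
    exact ⟨⟨(congrArg (R Ω) e3).mpr hy, fun i => i.elim⟩, (e1 Ω (evs y ψ)).trans e3⟩

theorem Cell.of_iso {φ : σ' → MvPolynomial σ k} {ψ : σ → MvPolynomial σ' k}
    (e : R.Iso R' φ ψ) (h : Cell R') : Cell R := by
  obtain ⟨I, _, f, H⟩ := h
  refine ⟨I, inferInstance, fun i => aeval φ (f i), fun T => (H T).of_iso
    ⟨fun Ω _ _ _ x hx => ChA_half T hx (e.hom Ω _ hx.1).1 (e.hom Ω _ hx.1).2 fun i =>
      (ChA_aeval _ _ _).symm,
    fun Ω _ _ _ y hy => ChA_half T hy (e.inv Ω _ hy.1).1 (e.inv Ω _ hy.1).2 fun i => ?_⟩⟩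
  rw [ChA_aeval, (e.inv Ω _ hy.1).2]

theorem Cell.congr {R₁ : Fam k σ} (h : Cell R)
    (e : ∀ (Ω : Type u) [Field Ω] [Algebra k Ω] [IsAlgClosed Ω] (x : σ → Ω), R₁ Ω x ↔ R Ω x) :
    Cell R₁ := by
  obtain ⟨I, _, f, H⟩ := h
  exact ⟨I, inferInstance, f, fun T => (H T).congr fun Ω _ _ _ x => and_congr_left' (e Ω _)⟩

theorem Cell.of_base [IsAlgClosed k] [Finite σ] (h : R.Closed)
    (H : ∀ x₀ : σ → k, R k x₀ → Cell R) : Cell R := by
  by_cases h0 : ∃ x₀, R k x₀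
  · exact h0.elim H
  · exact (hasChart_of_empty fun Ω _ _ _ x hx => h0 (h.exists_pt hx)).cell

end Pool.Agent.MP_0c8446_ag

end

section

namespace Pool.Agent.MP_0c8446_ag

open MvPolynomial Set

universe u v w

variable {k : Type u} [Field k] {σ : Type}

theorem ChP_glue {A J : Type} [Finite J] {B : J → Type} (e : (Σ j, B j) → A)
    (he : Function.Bijective e) {S : ∀ j, Fam k (B j)} (h : ∀ j, HasChart (S j)) {R : Fam k A}
    (hR : ∀ (Ω : Type u) [Field Ω] [Algebra k Ω] [IsAlgClosed Ω] (x : A → Ω),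
      R Ω x ↔ ∀ j, S j Ω fun b => x (e ⟨j, b⟩)) : HasChart R := by
  classical
  have := Fintype.ofFinite J
  choose τ hτ t Dp hc using h
  have h1 : ∀ (Ω : Type u) [Field Ω] [Algebra k Ω] (x : A → Ω) (j : J),
      (fun s => evs x (fun s : Σ j, τ j => rename (fun b => e ⟨s.1, b⟩) (t s.1 s.2)) ⟨j, s⟩) =
        evs (fun b => x (e ⟨j, b⟩)) (t j) := fun Ω _ _ x j => funext fun s => by
    simp only [evs, aeval_rename, Function.comp_def]
  have h2 : ∀ (Ω : Type u) [Field Ω] [Algebra k Ω] (y : (Σ j, τ j) → Ω),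
      aeval y (∏ j, rename (Sigma.mk j) (Dp j)) ≠ 0 ↔
        ∀ j, aeval (fun s => y ⟨j, s⟩) (Dp j) ≠ 0 := fun Ω _ _ y => by
    rw [map_prod, Finset.prod_ne_zero_iff]
    simp only [aeval_rename, Finset.mem_univ, forall_const, Function.comp_def]
  refine ⟨Σ j, τ j, inferInstance, fun s => rename (fun b => e ⟨s.1, b⟩) (t s.1 s.2),
    ∏ j, rename (Sigma.mk j) (Dp j), fun Ω _ _ _ x hx => ?_, fun Ω _ _ _ x x' hx hx' H => ?_,
    fun Ω _ _ _ y hy => ?_, fun Ω Ω' _ _ _ _ _ _ Pl x hx hO hD a => ?_⟩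
  · refine (h2 Ω _).2 fun j => ?_
    rw [h1 Ω x j]
    exact (hc j).nv Ω _ ((hR Ω x).1 hx j)
  · funext a
    obtain ⟨⟨j, b⟩, rfl⟩ := he.2 a
    refine congrFun ((hc j).inj Ω _ _ ((hR Ω x).1 hx j) ((hR Ω x').1 hx' j) ?_) b
    rw [← h1 Ω x j, ← h1 Ω x' j, H]
  · choose x hx hy using fun j => (hc j).surj Ω _ ((h2 Ω y).1 hy j)
    obtain ⟨g, hg, -⟩ := Function.bijective_iff_has_inverse.1 he
    have h3 : ∀ j, (fun b => x (g (e ⟨j, b⟩)).1 (g (e ⟨j, b⟩)).2) = x j := fun j =>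
      funext fun b => congrArg (fun s : Σ j, B j => x s.1 s.2) (hg ⟨j, b⟩)
    refine ⟨fun a => x (g a).1 (g a).2, (hR Ω _).2 fun j => ?_, funext fun ⟨j, s⟩ => ?_⟩
    · rw [h3 j]
      exact hx j
    · refine (congrFun (h1 Ω (fun a => x (g a).1 (g a).2) j) s).trans ?_
      rw [h3 j, hy j]
  · obtain ⟨⟨j, b⟩, rfl⟩ := he.2 a
    refine (hc j).val Ω Ω' Pl _ ((hR Ω x).1 hx j) (fun s => ?_) ?_ b
    · rw [← h1 Ω x j]
      exact hO ⟨j, s⟩
    · rw [← h1 Ω x j]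
      exact (h2 Ω' _).1 hD j

theorem Cell.pi {J : Type} [Finite J] {S : J → Fam k σ} (h : ∀ j, Cell (S j)) :
    Cell (Fam.pi S) := by
  choose I hI f hf using h
  refine ⟨Σ j, I j, inferInstance, fun s => rename (Prod.mk s.1) (f s.1 s.2), fun T => ?_⟩
  refine ChP_glue (B := fun j => σ ⊕ I j)
    (fun s => Sum.elim (fun a => Sum.inl (s.1, a)) (fun i => Sum.inr ⟨s.1, i⟩) s.2) ?_
    (fun j => hf j fun i => T ⟨j, i⟩) fun Ω _ _ _ x => ?_
  · refine Function.bijective_iff_has_inverse.2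
      ⟨Sum.elim (fun a => ⟨a.1, Sum.inl a.2⟩) fun i => ⟨i.1, Sum.inr i.2⟩, ?_, ?_⟩
    · rintro ⟨j, a | i⟩ <;> rfl
    · rintro (a | i) <;> rfl
  · have h1 : ∀ j i, aeval (fun s => x (Sum.inl s)) (rename (Prod.mk j) (f j i)) =
        aeval (fun s => x (Sum.inl (j, s))) (f j i) := fun j i => aeval_rename _ _ _
    constructor
    · exact fun H j => ⟨H.1 j, fun i => h1 j i ▸ H.2 ⟨j, i⟩⟩
    · exact fun H => ⟨fun j => (H j).1, fun i => (h1 i.1 i.2).symm ▸ (H i.1).2 i.2⟩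

variable {n : ℕ} {alt : Bool} {R : Type u} [CommRing R] [Algebra k R]

theorem mat_evs (x : Fin n × Fin n → R) :
    (mat (X : Fin n × Fin n → MvPolynomial (Fin n × Fin n) k)).map (aeval (R := k) x) = mat x := by
  ext a b
  exact aeval_X x (a, b)

/-- Evaluating the entries of a matrix of polynomials. -/
theorem mat_evs_entries {τ : Type} (x : τ → R) (m : Matrix (Fin n) (Fin n) (MvPolynomial τ k)) :
    mat (evs x fun s : Fin n × Fin n => m s.1 s.2) = m.map (aeval (R := k) x) := by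
  rfl

theorem mat_injective {α : Type*} {x x' : Fin n × Fin n → α} (h : mat x = mat x') : x = x' := by
  funext s
  exact congrFun (congrFun h s.1) s.2

theorem closed_dFam (Z : Fin n → Fin n → Prop) : (dFam k alt Z).Closed := by
  refine ⟨{e | ∃ a b, e = (adj alt (mat X) * mat X - 1 :
      Matrix (Fin n) (Fin n) (MvPolynomial (Fin n × Fin n) k)) a b} ∪
    {(mat X).det - 1} ∪ {e | ∃ a b, Z a b ∧ e = X (a, b)}, fun Ω _ _ _ x => ?_⟩
  have h1 : ∀ a b, aeval x ((adj alt (mat X) * mat X - 1 :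
      Matrix (Fin n) (Fin n) (MvPolynomial (Fin n × Fin n) k)) a b) =
      (adj alt (mat x) * mat x - 1) a b := by
    intro a b
    have e : (aeval (R := k) x).mapMatrix (adj alt (mat X) * mat X - 1) =
        adj alt (mat x) * mat x - 1 := by
      rw [map_sub, map_mul, map_one, AlgHom.mapMatrix_apply, AlgHom.mapMatrix_apply, adj_map,
        mat_evs]
    exact congrFun (congrFun e a) b
  have h2 : aeval x ((mat X).det - 1 : MvPolynomial (Fin n × Fin n) k) = (mat x).det - 1 := by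
    rw [map_sub, map_one, AlgHom.map_det, AlgHom.mapMatrix_apply, mat_evs]
  constructor
  · rintro ⟨H1, H2⟩ e ((⟨a, b, rfl⟩ | rfl) | ⟨a, b, hz, rfl⟩)
    · rw [h1, H1.1.adj_mul]; simp
    · rw [h2, H1.2, sub_self]
    · rw [aeval_X, H2 a b hz]
  · refine fun H => ⟨⟨isU_iff.2 (sub_eq_zero.1 (Matrix.ext fun a b => ?_)),
      sub_eq_zero.1 ?_⟩, fun a b hz => ?_⟩
    · rw [← h1]; exact H _ (Or.inl (Or.inl ⟨a, b, rfl⟩))
    · rw [← h2]; exact H _ (Or.inl (Or.inr rfl))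
    · rw [← aeval_X (R := k) x (a, b)]; exact H _ (Or.inr ⟨a, b, hz, rfl⟩)

theorem closed_hFam (b₁ b₂ : Fin n → ℕ) : (hFam k alt b₁ b₂).Closed := by
  obtain ⟨E, hE⟩ := closed_dFam (k := k) (alt := alt) fun a b => b₁ b < b₁ a ∨ b₂ b < b₂ a
  refine ⟨E, fun Ω _ _ _ x => Iff.trans ?_ (hE Ω x)⟩
  exact ⟨fun H => ⟨H.1, fun a b h => h.elim (fun h => H.2.1 h) fun h => H.2.2 h⟩,
    fun H => ⟨H.1, fun a b h => H.2 a b (Or.inl h), fun a b h => H.2 a b (Or.inr h)⟩⟩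

end Pool.Agent.MP_0c8446_ag

end
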