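import Pool.Agent.Mg.F0c8446.G57e80e

section

namespace Pool.Agent.MP_0c8446_ag

open Set

universe u v w

variable {k : Type u} [Field k] {K : Type v} [Field K]

/-- The identity morphism. -/
def Mor.id (X : Var k) : Mor X X := ⟨_root_.id, isMor_id⟩

/-- Composition of morphisms. -/
def Mor.comp {X Y Z : Var k} (g : Mor Y Z) (f : Mor X Y) : Mor X Z := ⟨g.1 ∘ f.1, g.2.comp f.2⟩

/-- Constant morphisms. -/
def Mor.const (X : Var k) {Y : Var k} (y : Y.pts) : Mor X Y := ⟨fun _ => y, isMor_const y⟩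

@[simp] lemma Mor.id_apply (X : Var k) (x : X.pts) : (Mor.id X).1 x = x := rfl

@[simp] lemma Mor.comp_apply {X Y Z : Var k} (g : Mor Y Z) (f : Mor X Y) (x : X.pts) :
    (g.comp f).1 x = g.1 (f.1 x) := rfl

@[simp] lemma Mor.const_apply (X : Var k) {Y : Var k} (y : Y.pts) (x : X.pts) :
    (Mor.const X y).1 x = y := rfl

lemma Mor.continuous {X Y : Var k} (f : Mor X Y) : Continuous f.1 := f.2.continuous

lemma Mor.ext' {X Y : Var k} {f g : Mor X Y} (h : ∀ x, f.1 x = g.1 x) : f = g :=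
  Subtype.ext (funext h)

lemma Var.isSub_univ (X : Var k) : IsSub (univ : Set X.pts) := by
  refine ⟨?_, isClosed_univ⟩
  have := Subtype.irreducibleSpace X.sub.1
  exact IrreducibleSpace.isIrreducible_univ _

instance (X : Var k) : Nonempty X.pts := X.sub.1.1.to_subtype

lemma Var.dim_le [Infinite k] (X : Var k) (Z : Set X.pts) : dim Z ≤ X.d := dim_mono (subset_univ Z)

lemma Mor.retr {X Y : Var k} (f : Mor X Y) (g : Mor Y X) (h : ∀ x, g.1 (f.1 x) = x) :
    Retr f.1 g.1 := by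
  refine ⟨f.continuous, g.continuous, h, ?_⟩
  have : range f.1 = {y | (f.comp g).1 y = (Mor.id Y).1 y} := by
    ext y
    constructor
    · rintro ⟨x, rfl⟩
      simp [h]
    · exact fun hy => ⟨_, hy⟩
  rw [this]
  exact isClosed_eq_mor (f.comp g).2 (Mor.id Y).2

namespace Weil

variable (W : Weil.{u, v, w} k K)

instance (X : Var k) : Module.Finite K (W.H X) := W.finite X

lemma pull_pull {X Y Z : Var k} (f : Mor X Y) (g : Mor Y Z) (a : W.H Z) :
    W.pull f (W.pull g a) = W.pull (g.comp f) a := (W.pull_comp f g _ rfl a).symm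

lemma pull_congr {X Y : Var k} {f g : Mor X Y} (h : ∀ x, f.1 x = g.1 x) (a : W.H Y) :
    W.pull f a = W.pull g a := by rw [Mor.ext' h]

/-- The span of the classes of subvarieties. -/
def Alg (X : Var k) : Submodule K (W.H X) := Submodule.span K (W.cl X '' {C | IsSub C})

lemma cl_mem_Alg {X : Var k} {Z : Set X.pts} (hZ : IsSub Z) : W.cl X Z ∈ W.Alg X :=
  Submodule.subset_span ⟨Z, hZ, rfl⟩

lemma closure_le_Alg {X : Var k} {a : W.H X}
    (h : a ∈ AddSubgroup.closure (W.cl X '' {C | IsSub C})) : a ∈ W.Alg X :=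
  (AddSubgroup.closure_le (W.Alg X).toAddSubgroup).2 Submodule.subset_span h

lemma one_mem_Alg (X : Var k) : (1 : W.H X) ∈ W.Alg X :=
  W.cl_univ X ▸ W.cl_mem_Alg X.isSub_univ

lemma mul_mem_Alg {X : Var k} {a b : W.H X} (ha : a ∈ W.Alg X) (hb : b ∈ W.Alg X) :
    a * b ∈ W.Alg X := by
  have : W.Alg X * W.Alg X ≤ W.Alg X := by
    unfold Alg
    rw [Submodule.span_mul_span, Submodule.span_le]
    rintro _ ⟨_, ⟨Z, hZ, rfl⟩, _, ⟨Z', hZ', rfl⟩, rfl⟩
    exact W.closure_le_Alg (W.mul_cl X Z Z' hZ hZ')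
  exact this (Submodule.mul_mem_mul ha hb)

lemma pull_mem_Alg {X Y : Var k} (f : Mor X Y) {a : W.H Y} (ha : a ∈ W.Alg Y) :
    W.pull f a ∈ W.Alg X := by
  have : W.Alg Y ≤ (W.Alg X).comap (W.pull f).toLinearMap := by
    unfold Alg
    rw [Submodule.span_le]
    rintro _ ⟨Z, hZ, rfl⟩
    exact W.closure_le_Alg (W.pull_cl f Z hZ)
  exact this ha

lemma exists_cl_of_Alg {X : Var k} {a b : W.H X} (ha : a ∈ W.Alg X) (h : W.tr X (a * b) ≠ 0) :
    ∃ Z, IsSub Z ∧ W.tr X (W.cl X Z * b) ≠ 0 := by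
  by_contra hne
  push Not at hne
  have : W.Alg X ≤ LinearMap.ker (W.tr X ∘ₗ LinearMap.mulRight K b) := by
    unfold Alg
    rw [Submodule.span_le]
    rintro _ ⟨Z, hZ, rfl⟩
    exact hne Z hZ
  exact h (this ha)

/-- Homogeneous subspaces of the cohomology. -/
def HS (X : Var k) : Submonoid (Submodule K (W.H X)) where
  carrier := {S | ∃ i, S ≤ W.gr X i}
  one_mem' := ⟨0, by rw [W.zero, Submodule.one_eq_span]⟩
  mul_mem' := by
    rintro S T ⟨i, hi⟩ ⟨j, hj⟩
    exact ⟨i + j, Submodule.mul_le.2 fun a ha b hb => SetLike.mul_mem_graded (hi ha) (hj hb)⟩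

lemma HS_comm {X : Var k} (S T : W.HS X) : S * T = T * S := by
  have key : ∀ S T : W.HS X, S.1 * T.1 ≤ T.1 * S.1 := by
    rintro ⟨S, i, hi⟩ ⟨T, j, hj⟩
    refine Submodule.mul_le.2 fun a ha b hb => ?_
    rw [W.comm X i j a (hi ha) b (hj hb)]
    rcases neg_one_pow_eq_or (W.H X) (i * j) with h | h <;> rw [h]
    · simpa using Submodule.mul_mem_mul hb ha
    · simpa using Submodule.mul_mem_mul hb ha
  exact Subtype.ext (le_antisymm (key S T) (key T S))

noncomputable instance (X : Var k) : CommMonoid (W.HS X) :=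
  { (inferInstance : Monoid (W.HS X)) with mul_comm := W.HS_comm }

/-- Pull-back of homogeneous subspaces. -/
noncomputable def pullS {X Y : Var k} (f : Mor X Y) : W.HS Y →* W.HS X where
  toFun S := ⟨S.1.map (W.pull f).toLinearMap, S.2.imp fun i hi => by
    rintro _ ⟨a, ha, rfl⟩
    exact W.pull_gr f i a (hi ha)⟩
  map_one' := Subtype.ext (Submodule.map_one _)
  map_mul' S T := Subtype.ext (Submodule.map_mul _ _ _)

lemma pullS_val {X Y : Var k} (f : Mor X Y) (S : W.HS Y) :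
    (W.pullS f S).1 = S.1.map (W.pull f).toLinearMap := rfl

lemma mem_pullS {X Y : Var k} {f : Mor X Y} {S : W.HS Y} {a : W.H X} :
    a ∈ (W.pullS f S).1 ↔ ∃ b ∈ S.1, W.pull f b = a := Iff.rfl

lemma pullS_pullS {X Y Z : Var k} (f : Mor X Y) (g : Mor Y Z) (S : W.HS Z) :
    W.pullS f (W.pullS g S) = W.pullS (g.comp f) S := by
  refine Subtype.ext ?_
  rw [pullS_val, pullS_val, pullS_val, ← Submodule.map_comp]
  congr 1
  ext a
  exact W.pull_pull f g a

lemma pullS_id {X : Var k} (f : Mor X X) (hf : ∀ x, f.1 x = x) (S : W.HS X) : W.pullS f S = S := by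
  refine Subtype.ext ?_
  have : (W.pull f).toLinearMap = LinearMap.id := by
    ext a
    exact W.pull_id f (funext hf) a
  rw [pullS_val, this, Submodule.map_id]

/-- The trace does not vanish on the subspace. -/
def NZ {X : Var k} (S : Submodule K (W.H X)) : Prop := ∃ a ∈ S, W.tr X a ≠ 0

end Weil

end Pool.Agent.MP_0c8446_ag

end

section

namespace Pool.Agent.MP_0c8446_ag

open Set

universe u v w

variable {k : Type u} [Field k] [Infinite k] {K : Type v} [Field K]

omit [Infinite k] in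
lemma IsProd.exists_fiber {P X Y : Var k} {p : Mor P X} {q : Mor P Y} (h : IsProd p q)
    (x : X.pts) (y : Y.pts) : ∃ z, p.1 ⁻¹' {x} ∩ q.1 ⁻¹' {y} = {z} := by
  obtain ⟨g, ⟨h1, h2⟩, hu⟩ := h X (Mor.const X x) (Mor.const X y)
  refine ⟨g.1 x, Subset.antisymm ?_ ?_⟩
  · rintro z ⟨hz1, hz2⟩
    have := hu (Mor.const X z) ⟨funext fun _ => hz1, funext fun _ => hz2⟩
    rw [← this]
    rfl
  · rintro _ rfl
    exact ⟨congrFun h1 x, congrFun h2 x⟩

namespace Weil

variable (W : Weil.{u, v, w} k K)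

omit [Infinite k] in
lemma tr_eq_zero_of_forall {X : Var k} {a : W.H X}
    (h : ∀ j, ∀ b ∈ W.gr X j, W.tr X (a * b) = 0) (b : W.H X) : W.tr X (a * b) = 0 := by
  induction b using DirectSum.Decomposition.inductionOn (W.gr X) with
  | zero => simp
  | homogeneous b => exact h _ _ b.2
  | add b c hb hc => rw [mul_add, map_add, hb, hc, add_zero]

omit [Infinite k] in
lemma eq_zero_of_gr {X : Var k} {a : W.H X} (h : ∀ j, ∀ b ∈ W.gr X j, W.tr X (a * b) = 0) :
    a = 0 := W.poincare X a (W.tr_eq_zero_of_forall h)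

omit [Infinite k] in
lemma tr_mul_gr {X : Var k} {a b : W.H X} {i j : ℕ} (ha : a ∈ W.gr X i) (hb : b ∈ W.gr X j)
    (h : i + j ≠ 2 * X.d) : W.tr X (a * b) = 0 :=
  W.tr_gr X _ _ (SetLike.mul_mem_graded ha hb) h

omit [Infinite k] in
lemma gr_eq_zero {X : Var k} {a : W.H X} {i : ℕ} (ha : a ∈ W.gr X i) (h : 2 * X.d < i) : a = 0 :=
  W.eq_zero_of_gr fun j b hb => W.tr_mul_gr ha hb (by omega)

lemma tr_cl_mul_gr {X : Var k} {Z : Set X.pts} (hZ : IsSub Z) {b : W.H X} {j : ℕ}
    (hb : b ∈ W.gr X j) (h : j ≠ 2 * dim Z) : W.tr X (W.cl X Z * b) = 0 := by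
  have := X.dim_le Z
  exact W.tr_mul_gr (W.cl_gr X Z hZ) hb (by omega)

omit [Infinite k] in
lemma cl_pt_gr {X : Var k} (x : X.pts) : W.cl X {x} ∈ W.gr X (2 * X.d) := by
  simpa [dim_singleton] using W.cl_gr X {x} (isSub_singleton x)

omit [Infinite k] in
lemma eq_zero_of_top {X : Var k} {a : W.H X} (ha : a ∈ W.gr X (2 * X.d)) (h : W.tr X a = 0) :
    a = 0 := by
  refine W.eq_zero_of_gr fun j b hb => ?_
  by_cases hj : j = 0
  · subst hj
    rw [W.zero, Submodule.mem_span_singleton] at hb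
    obtain ⟨c, rfl⟩ := hb
    simp [h]
  · exact W.tr_mul_gr ha hb (by omega)

omit [Infinite k] in
lemma eq_smul_pt {X : Var k} {a : W.H X} (ha : a ∈ W.gr X (2 * X.d)) (x : X.pts) :
    a = W.tr X a • W.cl X {x} := by
  refine sub_eq_zero.1 (W.eq_zero_of_top (sub_mem ha (Submodule.smul_mem _ _ (W.cl_pt_gr x))) ?_)
  simp [W.tr_pt]

omit [Infinite k] in
lemma even_comm {X : Var k} {a : W.H X} {i : ℕ} (ha : a ∈ W.gr X (2 * i)) (b : W.H X) :
    a * b = b * a := by
  induction b using DirectSum.Decomposition.inductionOn (W.gr X) with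
  | zero => simp
  | @homogeneous j b => rw [W.comm X _ _ a ha b b.2, mul_assoc, pow_mul]; simp
  | add b c hb hc => rw [mul_add, add_mul, hb, hc]

omit [Infinite k] in
lemma cl_comm {X : Var k} {Z : Set X.pts} (hZ : IsSub Z) (b : W.H X) :
    W.cl X Z * b = b * W.cl X Z := W.even_comm (W.cl_gr X Z hZ) b

omit [Infinite k] in
lemma Alg_comm {X : Var k} {a : W.H X} (ha : a ∈ W.Alg X) (b : W.H X) : a * b = b * a := by
  induction ha using Submodule.span_induction with
  | mem x hx => obtain ⟨Z, hZ, rfl⟩ := hx; exact W.cl_comm hZ b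
  | zero => simp
  | add x y _ _ hx hy => rw [mul_add, add_mul, hx, hy]
  | smul c x _ hx => rw [smul_mul_assoc, hx, mul_smul_comm]

omit [Infinite k] in
lemma tr_prod_pt {P X Y : Var k} {p : Mor P X} {q : Mor P Y} (h : IsProd p q) (x : X.pts)
    (y : Y.pts) : W.tr P (W.pull p (W.cl X {x}) * W.pull q (W.cl Y {y})) = 1 := by
  obtain ⟨z, hz⟩ := h.exists_fiber x y
  rw [← W.cl_prod p q h _ _ (isSub_singleton x) (isSub_singleton y), hz, W.tr_pt]

include W in
omit [Infinite k] in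
lemma d_prod {P X Y : Var k} {p : Mor P X} {q : Mor P Y} (h : IsProd p q) : P.d = X.d + Y.d := by
  obtain ⟨x⟩ : Nonempty X.pts := inferInstance
  obtain ⟨y⟩ : Nonempty Y.pts := inferInstance
  by_contra hne
  have := W.tr_mul_gr (W.pull_gr p _ _ (W.cl_pt_gr x)) (W.pull_gr q _ _ (W.cl_pt_gr y)) (by omega)
  rw [W.tr_prod_pt h] at this
  exact one_ne_zero this

omit [Infinite k] in
lemma tr_prod {P X Y : Var k} {p : Mor P X} {q : Mor P Y} (h : IsProd p q) (a : W.H X)
    (b : W.H Y) : W.tr P (W.pull p a * W.pull q b) = W.tr X a * W.tr Y b := by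
  obtain ⟨x⟩ : Nonempty X.pts := inferInstance
  obtain ⟨y⟩ : Nonempty Y.pts := inferInstance
  have hd := W.d_prod h
  induction a using DirectSum.Decomposition.inductionOn (W.gr X) with
  | zero => simp
  | add a c ha hc => simp only [map_add, add_mul, ha, hc]
  | @homogeneous i a =>
    induction b using DirectSum.Decomposition.inductionOn (W.gr Y) with
    | zero => simp
    | add b c hb hc => simp only [map_add, mul_add, hb, hc]
    | @homogeneous j b =>
      obtain ⟨a, ha⟩ := a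
      obtain ⟨b, hb⟩ := b
      simp only
      rcases lt_or_ge (2 * X.d) i with hi | hi
      · simp [W.gr_eq_zero ha hi]
      rcases lt_or_ge (2 * Y.d) j with hj | hj
      · simp [W.gr_eq_zero hb hj]
      by_cases hij : i + j = 2 * P.d
      · obtain rfl : i = 2 * X.d := by omega
        obtain rfl : j = 2 * Y.d := by omega
        conv_lhs => rw [W.eq_smul_pt ha x, W.eq_smul_pt hb y]
        simp [W.tr_prod_pt h, mul_comm]
      · rw [W.tr_mul_gr (W.pull_gr p _ _ ha) (W.pull_gr q _ _ hb) hij]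
        by_cases hi' : i = 2 * X.d
        · rw [W.tr_gr Y j b hb (by omega), mul_zero]
        · rw [W.tr_gr X i a ha hi', zero_mul]

omit [Infinite k] in
lemma prod_span {P X Y : Var k} {p : Mor P X} {q : Mor P Y} (h : IsProd p q) (S : Submodule K (W.H P))
    (hS : ∀ a b, W.pull p a * W.pull q b ∈ S) : S = ⊤ := by
  refine eq_top_iff.2 fun c _ => ?_
  obtain ⟨t, rfl⟩ := (W.kunneth p q h).2 c
  induction t using TensorProduct.induction_on with
  | zero => simp
  | tmul a b => simpa using hS a b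
  | add s t hs ht => rw [map_add]; exact add_mem (hs trivial) (ht trivial)

omit [Infinite k] in
/-- Push-forward along a morphism with a left inverse. -/
lemma push_retr [CharZero K] {X Y : Var k} (f : Mor X Y) (g : Mor Y X) (h : ∀ x, g.1 (f.1 x) = x)
    {Z : Set X.pts} (hZ : IsSub Z) (b : W.H Y) :
    W.tr X (W.cl X Z * W.pull f b) = W.tr Y (W.cl Y (f.1 '' Z) * b) := by
  have hr := f.retr g h
  obtain ⟨r, hr0, h1⟩ := W.push f Z hZ
  rw [(hr.isSub hZ).2.closure_eq] at hr0 h1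
  have hr1 := hr0 (hr.dim_image Z)
  obtain ⟨s, -, h2⟩ := W.push g _ (hr.isSub hZ)
  have e : g.1 '' (f.1 '' Z) = Z := by rw [image_image]; simp [h]
  rw [e, hZ.2.closure_eq] at h2
  have h3 : ∀ c, W.tr X (W.cl X Z * c) = (r * s : ℕ) * W.tr X (W.cl X Z * c) := fun c => by
    conv_lhs => rw [← W.pull_id (g.comp f) (funext h) c, ← W.pull_pull, h1, h2]
    push_cast
    ring
  by_cases h4 : ∀ c, W.tr X (W.cl X Z * c) = 0
  · have := h1 b
    rw [h4] at this ⊢
    exact ((mul_eq_zero.1 this.symm).resolve_left (by exact_mod_cast hr1.ne')).symm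
  · push Not at h4
    obtain ⟨c, hc⟩ := h4
    have h5 : ((r * s : ℕ) : K) = 1 := mul_right_cancel₀ hc ((h3 c).symm.trans (one_mul _).symm)
    have h6 : r = 1 := Nat.eq_one_of_mul_eq_one_right (by exact_mod_cast h5)
    rw [h1, h6, Nat.cast_one, one_mul]

omit [Infinite k] in
lemma tr_pull_retr [CharZero K] {X Y : Var k} (f : Mor X Y) (g : Mor Y X)
    (h : ∀ x, g.1 (f.1 x) = x) (b : W.H Y) :
    W.tr X (W.pull f b) = W.tr Y (W.cl Y (range f.1) * b) := by
  rw [← image_univ, ← W.push_retr f g h X.isSub_univ, W.cl_univ, one_mul]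

omit [Infinite k] in
lemma tr_pull_aut [CharZero K] {X Y : Var k} (f : Mor X Y) (g : Mor Y X)
    (h : ∀ x, g.1 (f.1 x) = x) (h' : ∀ y, f.1 (g.1 y) = y) (b : W.H Y) :
    W.tr X (W.pull f b) = W.tr Y b := by
  rw [W.tr_pull_retr f g h, range_eq_univ.2 fun y => ⟨_, h' y⟩, W.cl_univ, one_mul]

omit [Infinite k] in
/-- The degree of a generically finite dominant map. -/
lemma exists_deg {X Y : Var k} (f : Mor X Y) {Z : Set X.pts} (hZ : IsSub Z) (hd : dim Z = Y.d)
    (h : Dense (f.1 '' Z)) : ∃ r : ℕ, 0 < r ∧ ∀ b, W.tr X (W.cl X Z * W.pull f b) = r * W.tr Y b := by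
  obtain ⟨r, hr0, h1⟩ := W.push f Z hZ
  rw [h.closure_eq] at hr0 h1
  exact ⟨r, hr0 hd.symm, fun b => by rw [h1, W.cl_univ, one_mul]⟩

omit [Infinite k] in
lemma pull_injective [CharZero K] {X Y : Var k} (f : Mor X Y) {Z : Set X.pts} (hZ : IsSub Z)
    (hd : dim Z = Y.d) (h : Dense (f.1 '' Z)) : Function.Injective (W.pull f) := by
  obtain ⟨r, hr, h1⟩ := W.exists_deg f hZ hd h
  refine (injective_iff_map_eq_zero _).2 fun a ha => W.poincare Y a fun b => ?_
  have := h1 (a * b)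
  rw [map_mul (W.pull f), ha, zero_mul, mul_zero, map_zero] at this
  exact (mul_eq_zero.1 this.symm).resolve_left (by exact_mod_cast hr.ne')

omit [Infinite k] in
/-- Push-forward of an algebraic class, in dual form. -/
lemma exists_Alg_push {X Y : Var k} (f : Mor X Y) {a : W.H X} (ha : a ∈ W.Alg X) {b : W.H Y}
    (h : W.tr X (a * W.pull f b) ≠ 0) : ∃ a' ∈ W.Alg Y, W.tr Y (a' * b) ≠ 0 := by
  obtain ⟨Z, hZ, h1⟩ := W.exists_cl_of_Alg ha h
  obtain ⟨r, -, h2⟩ := W.push f Z hZ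
  rw [h2] at h1
  exact ⟨_, W.cl_mem_Alg (hZ.image_closure f.continuous), right_ne_zero_of_mul h1⟩

end Weil

end Pool.Agent.MP_0c8446_ag

end

section

namespace Pool.Agent.MP_0c8446_ag

open Set

universe u

variable {k : Type u} [Field k] {P X Y T : Var k} {p : Mor P X} {q : Mor P Y}

/-- The morphism to a product with given components. -/
noncomputable def IsProd.lift (h : IsProd p q) (f : Mor T X) (g : Mor T Y) : Mor T P :=
  (h T f g).exists.choose

@[simp] lemma IsProd.fst_lift (h : IsProd p q) (f : Mor T X) (g : Mor T Y) (x : T.pts) :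
    p.1 ((h.lift f g).1 x) = f.1 x := congrFun (h T f g).exists.choose_spec.1 x

@[simp] lemma IsProd.snd_lift (h : IsProd p q) (f : Mor T X) (g : Mor T Y) (x : T.pts) :
    q.1 ((h.lift f g).1 x) = g.1 x := congrFun (h T f g).exists.choose_spec.2 x

lemma IsProd.ext (h : IsProd p q) {x y : P.pts} (h₁ : p.1 x = p.1 y) (h₂ : q.1 x = q.1 y) :
    x = y := by
  obtain ⟨z, hz⟩ := h.exists_fiber (p.1 y) (q.1 y)
  have h3 : x ∈ ({z} : Set P.pts) := hz ▸ ⟨h₁, h₂⟩
  have h4 : y ∈ ({z} : Set P.pts) := hz ▸ ⟨rfl, rfl⟩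
  exact h3.trans h4.symm

/-- The point of a product with given projections. -/
noncomputable def IsProd.mk (h : IsProd p q) (x : X.pts) (y : Y.pts) : P.pts :=
  (h.lift (Mor.id X) (Mor.const X y)).1 x

@[simp] lemma IsProd.fst_mk (h : IsProd p q) (x : X.pts) (y : Y.pts) : p.1 (h.mk x y) = x :=
  h.fst_lift _ _ _

@[simp] lemma IsProd.snd_mk (h : IsProd p q) (x : X.pts) (y : Y.pts) : q.1 (h.mk x y) = y :=
  h.snd_lift _ _ _

@[simp] lemma IsProd.mk_eta (h : IsProd p q) (z : P.pts) : h.mk (p.1 z) (q.1 z) = z :=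
  h.ext (by simp) (by simp)

lemma IsProd.lift_apply (h : IsProd p q) (f : Mor T X) (g : Mor T Y) (x : T.pts) :
    (h.lift f g).1 x = h.mk (f.1 x) (g.1 x) := h.ext (by simp) (by simp)

lemma IsProd.symm (h : IsProd p q) : IsProd q p := fun T f g => by
  simpa only [and_comm] using h T g f

/-- A criterion for being a product. -/
lemma isProd_of (hex : ∀ (T : Var k) (f : Mor T X) (g : Mor T Y), ∃ h : Mor T P,
    (∀ x, p.1 (h.1 x) = f.1 x) ∧ ∀ x, q.1 (h.1 x) = g.1 x)
    (hext : ∀ x y, p.1 x = p.1 y → q.1 x = q.1 y → x = y) : IsProd p q := fun T f g => by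
  obtain ⟨h, h1, h2⟩ := hex T f g
  refine ⟨h, ⟨funext h1, funext h2⟩, fun h' hh => Mor.ext' fun x => hext _ _ ?_ ?_⟩
  · exact (congrFun hh.1 x).trans (h1 x).symm
  · exact (congrFun hh.2 x).trans (h2 x).symm

lemma IsProd.isSub (h : IsProd p q) {Z₁ : Set X.pts} {Z₂ : Set Y.pts} (h₁ : IsSub Z₁)
    (h₂ : IsSub Z₂) : IsSub (p.1 ⁻¹' Z₁ ∩ q.1 ⁻¹' Z₂) := by
  refine ⟨?_, (h₁.2.preimage p.continuous).inter (h₂.2.preimage q.continuous)⟩
  have : p.1 ⁻¹' Z₁ ∩ q.1 ⁻¹' Z₂ = image2 h.mk Z₁ Z₂ := by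
    ext z
    constructor
    · exact fun hz => ⟨_, hz.1, _, hz.2, h.mk_eta z⟩
    · rintro ⟨x, hx, y, hy, rfl⟩
      exact ⟨by simpa using hx, by simpa using hy⟩
  rw [this]
  refine isIrreducible_image2 (fun a => ?_) (fun b => ?_) h₁.1 h₂.1
  · convert (h.lift (Mor.const Y a) (Mor.id Y)).continuous using 1
    exact funext fun y => (h.lift_apply (Mor.const Y a) (Mor.id Y) y).symm
  · exact (h.lift (Mor.id X) (Mor.const X b)).continuous

end Pool.Agent.MP_0c8446_ag

end

section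

namespace Pool.Agent.MP_0c8446_ag

open Set

universe u v w

section aux

open MvPolynomial

lemma pv_chain {A P : Type u} [TopologicalSpace A] [TopologicalSpace P] (Φ : Set A → Set P)
    (h1 : ∀ Z, IsSub Z → IsSub (Φ Z)) (h2 : ∀ Z Z', Z ⊂ Z' → Φ Z ⊂ Φ Z') {r a : ℕ}
    {C : Fin (r + 1) → Set A} (hC : StrictMono C) (hs : ∀ i, IsSub (C i))
    (h0 : HasChain (Φ (C 0)) a) : HasChain (Φ (C (Fin.last r))) (a + r) := by
  have : ∀ (i : ℕ) (h : i < r + 1), HasChain (Φ (C ⟨i, h⟩)) (a + i) := by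
    intro i
    induction i with
    | zero => exact fun _ => h0
    | succ i ih =>
      intro h
      exact (ih (by omega)).succ (h2 _ _ (hC (Fin.mk_lt_mk.2 (Nat.lt_succ_self i)))) (h1 _ (hs _))
  exact this r (Nat.lt_succ_self r)

variable {k : Type u} [Field k] {ι κ : Type} {n : ι → ℕ} {m : κ → ℕ}

lemma pv_sum_rename {σ τ : Type} [Fintype σ] [Fintype τ] {e : σ → τ} (he : Function.Injective e)
    (v w : τ → k) (f : MvPolynomial σ k) :
    ∑ s, w (e s) * eval (fun a => v (e a)) (pderiv s f) =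
      ∑ t, w t * eval v (pderiv t (rename e f)) := by
  classical
  refine Fintype.sum_of_injective e he _ _ (fun t ht => ?_) fun s => ?_
  · rw [pderiv_eq_zero_of_notMem_vars, map_zero, mul_zero]
    intro hm
    obtain ⟨s, -, hs⟩ := Finset.mem_image.1 (vars_rename _ _ hm)
    exact ht ⟨s, hs⟩
  · rw [pderiv_rename he, eval_rename]
    rfl

lemma pv_tan_mem [Fintype ι] {S : Set (MP k n)} {v w : Vars n → k} :
    w ∈ tangent S v ↔ ∀ f : MvPolynomial (Vars n) k, (∀ x ∈ S, Vanish f x) →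
      ∑ s, w s * eval v (pderiv s f) = 0 := by
  simp only [tangent, Submodule.mem_iInf, LinearMap.mem_ker, Fintype.linearCombination_apply,
    smul_eq_mul, mem_ofPred_eq]

/-- First projection. -/
def pvFst (x : MP k (Sum.elim n m)) : MP k n := fun i => x (Sum.inl i)

/-- Second projection. -/
def pvSnd (x : MP k (Sum.elim n m)) : MP k m := fun j => x (Sum.inr j)

/-- The point with given projections. -/
def pvMk (x : MP k n) (y : MP k m) : MP k (Sum.elim n m)
  | Sum.inl i => x i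
  | Sum.inr j => y j

/-- Variables of the first factor. -/
def pvL (m : κ → ℕ) (s : Vars n) : Vars (Sum.elim n m) := ⟨Sum.inl s.1, s.2⟩

/-- Variables of the second factor. -/
def pvR (n : ι → ℕ) (s : Vars m) : Vars (Sum.elim n m) := ⟨Sum.inr s.1, s.2⟩

/-- Join two families indexed by the variables. -/
def pvJoin {α : Type*} (f : Vars n → α) (g : Vars m → α) : Vars (Sum.elim n m) → α
  | ⟨Sum.inl i, t⟩ => f ⟨i, t⟩
  | ⟨Sum.inr j, t⟩ => g ⟨j, t⟩

lemma pvL_inj : Function.Injective (pvL (n := n) m) := by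
  rintro ⟨i, s⟩ ⟨j, t⟩ h
  obtain ⟨h1, h2⟩ := Sigma.mk.inj_iff.1 h
  obtain rfl := Sum.inl_injective h1
  exact congrArg (Sigma.mk i) (eq_of_heq h2)

lemma pvR_inj : Function.Injective (pvR (m := m) n) := by
  rintro ⟨i, s⟩ ⟨j, t⟩ h
  obtain ⟨h1, h2⟩ := Sigma.mk.inj_iff.1 h
  obtain rfl := Sum.inr_injective h1
  exact congrArg (Sigma.mk i) (eq_of_heq h2)

lemma pv_rep_fst {v : Vars (Sum.elim n m) → k} {x : MP k (Sum.elim n m)} (h : IsRep v x) :
    IsRep (fun s => v (pvL m s)) (pvFst x) := fun i => h (Sum.inl i)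

lemma pv_rep_snd {v : Vars (Sum.elim n m) → k} {x : MP k (Sum.elim n m)} (h : IsRep v x) :
    IsRep (fun s => v (pvR n s)) (pvSnd x) := fun j => h (Sum.inr j)

lemma pv_ext {x y : MP k (Sum.elim n m)} (h1 : pvFst x = pvFst y) (h2 : pvSnd x = pvSnd y) :
    x = y := by
  funext i
  cases i with
  | inl i => exact congrFun h1 i
  | inr j => exact congrFun h2 j

/-- The product of two subsets. -/
def pvSet (S : Set (MP k n)) (T : Set (MP k m)) : Set (MP k (Sum.elim n m)) :=
  {x | pvFst x ∈ S ∧ pvSnd x ∈ T}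

variable {S : Set (MP k n)} {T : Set (MP k m)}

/-- First projection of the product. -/
def pvP (x : pvSet S T) : S := ⟨pvFst x.1, x.2.1⟩

/-- Second projection of the product. -/
def pvQ (x : pvSet S T) : T := ⟨pvSnd x.1, x.2.2⟩

/-- The point of the product with given projections. -/
def pvM (x : S) (y : T) : pvSet S T := ⟨pvMk x.1 y.1, x.2, y.2⟩

lemma pv_ext' {x y : pvSet S T} (h1 : pvP x = pvP y) (h2 : pvQ x = pvQ y) : x = y :=
  Subtype.ext (pv_ext (congrArg Subtype.val h1) (congrArg Subtype.val h2))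

lemma pv_isMor_P : IsMor (pvP : pvSet S T → S) :=
  isMor_of_global (fun s => X (pvL m s)) fun y v hv => by
    simp only [eval_X]
    exact pv_rep_fst hv

lemma pv_isMor_Q : IsMor (pvQ : pvSet S T → T) :=
  isMor_of_global (fun s => X (pvR n s)) fun y v hv => by
    simp only [eval_X]
    exact pv_rep_snd hv

lemma pv_isMor_M {ρ : Type} {l : ρ → ℕ} {R : Set (MP k l)} {f : R → S} {g : R → T}
    (hf : IsMor f) (hg : IsMor g) : IsMor fun x => pvM (f x) (g x) := by
  intro x
  obtain ⟨U, hU, hxU, F, hF⟩ := hf x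
  obtain ⟨V, hV, hxV, G, hG⟩ := hg x
  refine ⟨U ∩ V, hU.inter hV, ⟨hxU, hxV⟩, pvJoin F G, fun y hy v hv i => ?_⟩
  cases i with
  | inl i => exact hF y hy.1 v hv i
  | inr j => exact hG y hy.2 v hv j

variable [Infinite k] [Fintype ι] [Fintype κ]

lemma pv_isSub {A : Set S} {B : Set T} (hA : IsSub A) (hB : IsSub B) :
    IsSub (pvP ⁻¹' A ∩ pvQ ⁻¹' B : Set (pvSet S T)) := by
  refine ⟨?_, (hA.2.preimage pv_isMor_P.continuous).inter (hB.2.preimage pv_isMor_Q.continuous)⟩
  have : (pvP ⁻¹' A ∩ pvQ ⁻¹' B : Set (pvSet S T)) = image2 pvM A B := by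
    ext z
    constructor
    · exact fun hz => ⟨_, hz.1, _, hz.2, pv_ext' rfl rfl⟩
    · rintro ⟨x, hx, y, hy, rfl⟩
      exact ⟨hx, hy⟩
  rw [this]
  exact isIrreducible_image2 (fun a => (pv_isMor_M (isMor_const a) isMor_id).continuous)
    (fun b => (pv_isMor_M isMor_id (isMor_const b)).continuous) hA.1 hB.1

lemma pv_hasChain {r s : ℕ} (h1 : HasChain (univ : Set S) r) (h2 : HasChain (univ : Set T) s) :
    HasChain (univ : Set (pvSet S T)) (r + s) := by
  obtain ⟨C, hC, hC'⟩ := h1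
  obtain ⟨D, hD, hD'⟩ := h2
  have a1 := pv_chain (fun A : Set S => (pvP ⁻¹' A ∩ pvQ ⁻¹' D 0 : Set (pvSet S T)))
    (fun Z hZ => pv_isSub hZ (hD' 0).1) (fun Z Z' h => by
      obtain ⟨y, hy⟩ := (hD' 0).1.1.1
      exact ⟨fun z hz => ⟨h.1 hz.1, hz.2⟩,
        fun h' => h.2 fun x hx => (h' (show pvM x y ∈ _ from ⟨hx, hy⟩)).1⟩)
    hC (fun i => (hC' i).1) ((pv_isSub (hC' 0).1 (hD' 0).1).hasChain_zero subset_rfl)
  have a2 := pv_chain (fun B : Set T => (pvP ⁻¹' C (Fin.last r) ∩ pvQ ⁻¹' B : Set (pvSet S T)))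
    (fun Z hZ => pv_isSub (hC' _).1 hZ) (fun Z Z' h => by
      obtain ⟨x, hx⟩ := (hC' (Fin.last r)).1.1.1
      exact ⟨fun z hz => ⟨hz.1, h.1 hz.2⟩,
        fun h' => h.2 fun y hy => (h' (show pvM x y ∈ _ from ⟨hx, hy⟩)).2⟩)
    hD (fun i => (hD' i).1) a1
  rw [zero_add] at a2
  exact a2.mono (subset_univ _)

lemma pv_isClosed (hS : IsClosed S) (hT : IsClosed T) : IsClosed (pvSet S T) := by
  have j : Continuous fun x : MP k (Sum.elim n m) =>
      (⟨x, mem_univ _, mem_univ _⟩ : pvSet (univ : Set (MP k n)) (univ : Set (MP k m))) :=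
    continuous_id.subtype_mk _
  have c1 : Continuous (pvFst : MP k (Sum.elim n m) → MP k n) :=
    continuous_subtype_val.comp (pv_isMor_P.continuous.comp j)
  have c2 : Continuous (pvSnd : MP k (Sum.elim n m) → MP k m) :=
    continuous_subtype_val.comp (pv_isMor_Q.continuous.comp j)
  exact (hS.preimage c1).inter (hT.preimage c2)

omit [Infinite k] in
lemma pv_tangent (S : Set (MP k n)) (T : Set (MP k m)) (v : Vars (Sum.elim n m) → k) :
    Module.finrank k (tangent (pvSet S T) v) ≤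
      Module.finrank k (tangent S fun s => v (pvL m s)) +
        Module.finrank k (tangent T fun s => v (pvR n s)) := by
  let L : tangent (pvSet S T) v →ₗ[k]
      tangent S (fun s => v (pvL m s)) × tangent T (fun s => v (pvR n s)) :=
    { toFun := fun w => (⟨fun s => w.1 (pvL m s), pv_tan_mem.2 fun f hf => by
          rw [pv_sum_rename pvL_inj]
          refine pv_tan_mem.1 w.2 _ fun x hx a ha => ?_
          rw [eval_rename]
          exact hf _ hx.1 _ (pv_rep_fst ha)⟩,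
        ⟨fun s => w.1 (pvR n s), pv_tan_mem.2 fun f hf => by
          rw [pv_sum_rename pvR_inj]
          refine pv_tan_mem.1 w.2 _ fun x hx a ha => ?_
          rw [eval_rename]
          exact hf _ hx.2 _ (pv_rep_snd ha)⟩)
      map_add' := fun _ _ => rfl
      map_smul' := fun _ _ => rfl }
  have hL : Function.Injective L := by
    intro a b h
    refine Subtype.ext (funext ?_)
    rintro ⟨i | j, t⟩
    · exact congrFun (congrArg Subtype.val (congrArg Prod.fst h)) ⟨i, t⟩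
    · exact congrFun (congrArg Subtype.val (congrArg Prod.snd h)) ⟨j, t⟩
  rw [← Module.finrank_prod]
  exact LinearMap.finrank_le_finrank_of_injective hL

end aux

variable {k : Type u} [Field k] [IsAlgClosed k] {K : Type v} [Field K] [CharZero K]

/-- The product variety. -/
noncomputable def pvVar (X Y : Var k) : Var k where
  ι := X.ι ⊕ Y.ι
  n := Sum.elim X.n Y.n
  pts := pvSet X.pts Y.pts
  sub := by
    refine ⟨?_, pv_isClosed X.sub.2 Y.sub.2⟩
    have := (pv_isSub X.isSub_univ Y.isSub_univ).1.image _ continuous_subtype_val.continuousOn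
    rwa [preimage_univ, preimage_univ, inter_self, image_univ, Subtype.range_coe] at this
  smooth := by
    intro x hx v hv
    have h1 := pv_tangent X.pts Y.pts v
    have h2 := X.smooth _ hx.1 _ (pv_rep_fst hv)
    have h3 := Y.smooth _ hx.2 _ (pv_rep_snd hv)
    have h4 := (pv_hasChain X.isSub_univ.hasChain Y.isSub_univ.hasChain).le_dim
    rw [Fintype.card_sum]
    omega

theorem exists_prod (X Y : Var k) : ∃ (P : Var k) (p : Mor P X) (q : Mor P Y), IsProd p q :=
  ⟨pvVar X Y, ⟨pvP, pv_isMor_P⟩, ⟨pvQ, pv_isMor_Q⟩, isProd_of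
    (fun _ f g => ⟨⟨fun x => pvM (f.1 x) (g.1 x), pv_isMor_M f.2 g.2⟩, fun _ => rfl, fun _ => rfl⟩)
    fun _ _ h1 h2 => pv_ext' h1 h2⟩

end Pool.Agent.MP_0c8446_ag

end
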