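import Pool.Agent.Mg.F0c8446.G273c8c

namespace Pool.Agent.MP_0c8446_ag

open scoped LinearAlgebra.Projectivization
open MvPolynomial Set

universe u v w

variable {k : Type u} [Field k]

lemma ctan_mem {ι : Type} [Fintype ι] {n : ι → ℕ} {S : Set (MP k n)} {v w : Vars n → k} :
    w ∈ tangent S v ↔ ∀ f : MvPolynomial (Vars n) k, (∀ x ∈ S, Vanish f x) →
      ∑ s, w s * eval v (pderiv s f) = 0 := by
  simp only [tangent, Submodule.mem_iInf, LinearMap.mem_ker, Fintype.linearCombination_apply,
    smul_eq_mul, mem_ofPred_eq]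

lemma ctan_euler {ι : Type} [Fintype ι] {n : ι → ℕ} (v : Vars n → k) (c : ι → k)
    (f : MvPolynomial (Vars n) k) :
    ∑ s : Vars n, c s.1 * v s * eval v (pderiv s f) =
      ∑ i, c i * eval (fun _ => (1 : k)) (pderiv i (orb v f)) := by
  classical
  induction f using MvPolynomial.induction_on with
  | C a => simp [orb]
  | add p q hp hq => simp only [map_add, mul_add, Finset.sum_add_distrib, hp, hq]
  | mul_X p s hp =>
    have h1 : orb v (X s) = X s.1 * C (v s) := by simp [orb]
    have h2 : eval (fun _ => (1 : k)) (orb v p) = eval v p := by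
      rw [eval_orb]
      simp
    have h3 : ∀ t : Vars n, c t.1 * v t * eval v (pderiv t (p * X s)) =
        v s * (c t.1 * v t * eval v (pderiv t p)) +
          if t = s then c s.1 * v s * eval v p else 0 := by
      intro t
      rw [Derivation.leibniz, pderiv_X]
      by_cases h : t = s
      · subst h
        simp
        ring
      · simp [h]
        ring
    have h4 : ∀ i : ι, c i * eval (fun _ => (1 : k)) (pderiv i (orb v (p * X s))) =
        v s * (c i * eval (fun _ => (1 : k)) (pderiv i (orb v p))) +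
          if i = s.1 then c s.1 * v s * eval v p else 0 := by
      intro i
      rw [map_mul, h1, Derivation.leibniz, Derivation.leibniz, pderiv_X, pderiv_C]
      by_cases h : i = s.1
      · subst h
        simp [h2]
        ring
      · simp [h]
        ring
    simp only [h3, h4, Finset.sum_add_distrib, ← Finset.mul_sum, hp, Finset.sum_ite_eq',
      Finset.mem_univ, if_true]

theorem mem_tangent_pt [IsAlgClosed k] {ι : Type} [Fintype ι] {n : ι → ℕ} {x : MP k n}
    {v w : Vars n → k} (hv : IsRep v x)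
    (hw : ∀ i s t, w ⟨i, s⟩ * v ⟨i, t⟩ = w ⟨i, t⟩ * v ⟨i, s⟩) : w ∈ tangent {x} v := by
  have h1 : ∀ i, ∃ c : k, ∀ s, w ⟨i, s⟩ = c * v ⟨i, s⟩ := by
    intro i
    obtain ⟨h, -⟩ := hv i
    obtain ⟨t, ht⟩ := Function.ne_iff.1 h
    have ht' : v ⟨i, t⟩ ≠ 0 := ht
    refine ⟨w ⟨i, t⟩ / v ⟨i, t⟩, fun s => ?_⟩
    rw [div_mul_eq_mul_div, eq_div_iff ht']
    exact hw i s t
  choose c hc using h1
  rw [ctan_mem]
  intro f hf
  have h2 : orb v f = 0 := (vanish_iff_orb hv f).1 (hf x rfl)
  have h3 := ctan_euler v c f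
  rw [h2] at h3
  simp only [map_zero, mul_zero, Finset.sum_const_zero] at h3
  rw [← h3]
  exact Finset.sum_congr rfl fun s _ => by rw [← hc s.1 s.2]

/-- The equation of a plane curve of the list. -/
noncomputable def ctanF (k : Type u) [Field k] (q : ℕ) (b : Bool) : MvPolynomial (Fin 3) k :=
  if b then X 0 ^ (q - 1) + X 1 ^ (q - 1) - X 2 ^ (q - 1)
  else X 1 ^ q - X 1 * X 2 ^ (q - 1) - X 0 ^ (q - 1) * X 2

lemma ctanF_eval (q : ℕ) (b : Bool) (a : Fin 3 → k) :
    eval a (ctanF k q b) = 0 ↔ CEq q b (a 0) (a 1) (a 2) := by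
  cases b
  · simp [ctanF, CEq, sub_eq_zero]
  · simp [ctanF, CEq, sub_eq_zero]

lemma ctanF_grad (q : ℕ) [IsQ k q] (b : Bool) {a : Fin 3 → k} (ha : a ≠ 0)
    (h : CEq q b (a 0) (a 1) (a 2)) : ∃ s, eval a (pderiv s (ctanF k q b)) ≠ 0 := by
  have h0 := IsQ.pos k q
  have h1 := IsQ.cast_pred k q
  have h2 : (q : k) = 0 := IsQ.cast
  cases b
  · by_cases hz : a 2 = 0
    · have hy : a 1 = 0 := by
        simp only [CEq, Bool.false_eq_true, if_false, hz, zero_pow h0.ne', mul_zero, sub_zero] at h
        exact pow_eq_zero_iff (by omega) |>.1 h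
      have hx : a 0 ≠ 0 := by
        intro hx
        apply ha
        funext s
        fin_cases s
        · exact hx
        · exact hy
        · exact hz
      refine ⟨2, ?_⟩
      simp [ctanF, Derivation.leibniz_pow, pderiv_X, hy, hx]
    · refine ⟨1, ?_⟩
      simp [ctanF, Derivation.leibniz_pow, pderiv_X, h2, hz]
  · obtain ⟨s, hs⟩ := Function.ne_iff.1 ha
    have hs' : a s ≠ 0 := hs
    refine ⟨s, ?_⟩
    fin_cases s <;>
      simpa [ctanF, Derivation.leibniz_pow, pderiv_X, h1, Pi.single_apply] using fun e => absurd e hs'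

theorem tangent_curves_le [IsAlgClosed k] (q : ℕ) [IsQ k q] {ι : Type} [Fintype ι] (τ : ι → Bool)
    {x : MP k fun _ : ι => 2} (hx : x ∈ curves k q τ) {v : Vars (fun _ : ι => 2) → k}
    (hv : IsRep v x) : Module.finrank k (tangent (curves k q τ) v) ≤ 2 * Fintype.card ι := by
  classical
  have key : ∀ {y : MP k fun _ : ι => 2}, y ∈ curves k q τ → ∀ {a : Vars (fun _ : ι => 2) → k},
      IsRep a y → ∀ i, CEq q (τ i) (a ⟨i, 0⟩) (a ⟨i, 1⟩) (a ⟨i, 2⟩) := by
    intro y hy a ha i
    obtain ⟨h, e⟩ := ha i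
    have h1 := hy i
    rw [← e, mk_eq_pt3] at h1
    refine (pt3_mem_curve ?_).1 h1
    have e' : ![a ⟨i, 0⟩, a ⟨i, 1⟩, a ⟨i, 2⟩] = fun s => a ⟨i, s⟩ := by
      funext s
      fin_cases s <;> rfl
    rw [e']
    exact h
  let g : ι → Fin 3 → k := fun i s => eval (fun t => v ⟨i, t⟩) (pderiv s (ctanF k q (τ i)))
  let L : (Vars (fun _ : ι => 2) → k) →ₗ[k] (ι → k) :=
    { toFun := fun w i => ∑ s : Fin 3, w ⟨i, s⟩ * g i s
      map_add' := fun a b => by
        funext i
        simp [add_mul, Finset.sum_add_distrib]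
      map_smul' := fun c a => by
        funext i
        simp only [Pi.smul_apply, smul_eq_mul, RingHom.id_apply, Finset.mul_sum, mul_assoc] }
  have h1 : tangent (curves k q τ) v ≤ LinearMap.ker L := by
    intro w hw
    rw [LinearMap.mem_ker]
    funext i
    have hinj : Function.Injective (fun s : Fin 3 => (⟨i, s⟩ : Vars fun _ : ι => 2)) :=
      fun a b h => eq_of_heq (Sigma.mk.inj_iff.1 h).2
    have h2 := ctan_mem.1 hw (rename (fun s : Fin 3 => (⟨i, s⟩ : Vars fun _ : ι => 2))
      (ctanF k q (τ i))) fun y hy a ha => by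
        rw [eval_rename]
        exact (ctanF_eval q (τ i) _).2 (key hy ha i)
    rw [Fintype.sum_sigma, Finset.sum_eq_single i] at h2
    · refine Eq.trans ?_ h2
      show ∑ s : Fin 3, w ⟨i, s⟩ * g i s = _
      refine Finset.sum_congr rfl fun s _ => ?_
      rw [pderiv_rename hinj, eval_rename]
      rfl
    · intro j _ hj
      refine Finset.sum_eq_zero fun s _ => ?_
      rw [pderiv_eq_zero_of_notMem_vars, map_zero, mul_zero]
      intro hm
      obtain ⟨t, -, ht⟩ := Finset.mem_image.1 (vars_rename _ _ hm)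
      exact hj (congrArg Sigma.fst ht).symm
    · intro h
      exact absurd (Finset.mem_univ i) h
  have h2 : LinearMap.range L = ⊤ := by
    rw [LinearMap.range_eq_top]
    intro y
    have h3 : ∀ i, ∃ s, g i s ≠ 0 := fun i =>
      ctanF_grad q (τ i) (a := fun t => v ⟨i, t⟩) (hv i).1 (key hx hv i)
    choose s hs using h3
    refine ⟨fun a => if a.2 = s a.1 then y a.1 / g a.1 (s a.1) else 0, ?_⟩
    funext i
    show ∑ t : Fin 3, (if t = s i then y i / g i (s i) else 0) * g i t = y i
    simp only [ite_mul, zero_mul, Finset.sum_ite_eq', Finset.mem_univ, if_true]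
    exact div_mul_cancel₀ _ (hs i)
  have h3 := LinearMap.finrank_range_add_finrank_ker L
  rw [h2, finrank_top, Module.finrank_fintype_fun_eq_card, Module.finrank_fintype_fun_eq_card,
    Fintype.card_sigma] at h3
  simp only [Fintype.card_fin, Finset.sum_const, Finset.card_univ, smul_eq_mul] at h3
  have h4 := Submodule.finrank_mono h1
  omega

end Pool.Agent.MP_0c8446_ag
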