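import Pool.Agent.Mg.F0c8446.G11fdd5
import Pool.Agent.Mg.F0c8446.Gf42572
import Pool.Agent.Mg.F0c8446.G3719a6
import Pool.Agent.MP_0c8446_ag.Defs2

section

namespace Pool.Agent.MP_0c8446_ag

open scoped LinearAlgebra.Projectivization
open MvPolynomial Set

universe u v w

/-- A finite product of curves as a variety. -/
noncomputable def Yv (k : Type u) [Field k] [IsAlgClosed k] (q : ℕ) [IsQ k q] {ι : Type}
    [Fintype ι] (τ : ι → Bool) : Var k where
  ι := ι
  n := fun _ => 2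
  pts := curves k q τ
  sub := isSub_curves q τ
  smooth := fun _ hx _ hv => (tangent_curves_le q τ hx hv).trans (by
    have := le_dim_curves (k := k) q τ
    omega)

/-- A single curve as a variety. -/
noncomputable abbrev Cv (k : Type u) [Field k] [IsAlgClosed k] (q : ℕ) [IsQ k q] (b : Bool) :
    Var k := Yv k q fun _ : Unit => b

variable {k : Type u} [Field k] [IsAlgClosed k] {q : ℕ} [IsQ k q]
variable {ι ι' ι₁ ι₂ : Type} [Fintype ι] [Fintype ι'] [Fintype ι₁] [Fintype ι₂]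
variable {τ : ι → Bool} {τ' : ι' → Bool} {τ₁ : ι₁ → Bool} {τ₂ : ι₂ → Bool}

/-- The `i`-th coordinate of a point of a product of curves. -/
def co (x : (Yv k q τ).pts) (i : ι) : P2 k := x.1 i

lemma co_mem (x : (Yv k q τ).pts) (i : ι) : co x i ∈ curve k q (τ i) := x.2 i

lemma Yv_ext {x y : (Yv k q τ).pts} (h : ∀ i, co x i = co y i) : x = y := Subtype.ext (funext h)

/-- The point with given coordinates. -/
def mkY (f : ι → P2 k) (h : ∀ i, f i ∈ curve k q (τ i)) : (Yv k q τ).pts := ⟨f, h⟩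

@[simp] lemma co_mkY (f : ι → P2 k) (h : ∀ i, f i ∈ curve k q (τ i)) (i : ι) :
    co (mkY f h) i = f i := rfl

/-- A map to a product of curves is a morphism if its coordinates are. -/
lemma isMor_pi {κ : Type} {n : κ → ℕ} {S : Set (MP k n)} (f : S → (Yv k q τ).pts)
    (h : ∀ i, IsMor fun x => (mkY (fun _ => co (f x) i) fun _ => co_mem (f x) i :
      (Cv k q (τ i)).pts)) : IsMor f := by
  intro x
  choose U hU hxU F hF using fun i => h i x
  refine ⟨⋂ i, U i, isOpen_iInter_of_finite hU, mem_iInter.2 hxU, fun a => F a.1 ⟨(), a.2⟩,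
    fun y hy v hv i => hF i y (mem_iInter.1 hy i) v hv ()⟩

lemma isMor_cMap {b : Bool} (j : ι) {g : P2 k → P2 k} (h : CMap q (τ j) b g) :
    IsMor fun x : (Yv k q τ).pts =>
      (mkY (fun _ => g (co x j)) fun _ => h.1 (co_mem x j) : (Cv k q b).pts) := by
  obtain ⟨h1, F, hF⟩ := h
  refine isMor_of_global (fun a => rename (fun s => ⟨j, s⟩) (F a.2)) fun y v hv _ => ?_
  obtain ⟨h0, e⟩ := hv j
  have e' : Projectivization.mk k (fun s : Fin 3 => v ⟨j, s⟩) h0 = co y j := e
  obtain ⟨h2, e2⟩ := hF _ h0 (e' ▸ co_mem y j)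
  simp only [eval_rename]
  exact ⟨h2, e2.trans (congrArg g e')⟩

/-- A map between products of curves whose coordinates are constant or polynomial functions of
one coordinate is a morphism. -/
lemma isMor_of_co (f : (Yv k q τ).pts → (Yv k q τ').pts)
    (h : ∀ i, (∃ P, ∀ x, co (f x) i = P) ∨
      ∃ j g, CMap q (τ j) (τ' i) g ∧ ∀ x, co (f x) i = g (co x j)) : IsMor f := by
  refine isMor_pi f fun i => ?_
  rcases h i with ⟨P, hP⟩ | ⟨j, g, hg, e⟩
  · obtain ⟨x₀⟩ : Nonempty (Yv k q τ).pts := inferInstance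
    convert isMor_const (S := (Yv k q τ).pts) (mkY (fun _ => P) fun _ => hP x₀ ▸ co_mem (f x₀) i :
      (Cv k q (τ' i)).pts) using 2 with x
    exact Yv_ext fun _ => hP x
  · convert isMor_cMap j hg using 2 with x
    exact Yv_ext fun _ => e x

/-- The morphism `x ↦ (g i (x (r i)))_i`. -/
def cw (r : ι' → ι) (g : ι' → P2 k → P2 k) (h : ∀ i, CMap q (τ (r i)) (τ' i) (g i)) :
    Mor (Yv k q τ) (Yv k q τ') :=
  ⟨fun x => mkY (fun i => g i (co x (r i))) fun i => (h i).1 (co_mem x _),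
    isMor_of_co _ fun i => Or.inr ⟨r i, g i, h i, fun _ => rfl⟩⟩

@[simp] lemma co_cw (r : ι' → ι) (g : ι' → P2 k → P2 k) (h : ∀ i, CMap q (τ (r i)) (τ' i) (g i))
    (x : (Yv k q τ).pts) (i : ι') : co ((cw r g h).1 x) i = g i (co x (r i)) := rfl

/-- The morphism `x ↦ (x (r i))_i`. -/
def remap (r : ι' → ι) (h : ∀ i, τ (r i) = τ' i) : Mor (Yv k q τ) (Yv k q τ') :=
  cw r (fun _ => id) fun i => cMap_id (h i)

@[simp] lemma co_remap (r : ι' → ι) (h : ∀ i, τ (r i) = τ' i) (x : (Yv k q τ).pts) (i : ι') :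
    co ((remap r h).1 x) i = co x (r i) := rfl

/-- The projection to the `i`-th factor. -/
def pr (τ : ι → Bool) (i : ι) : Mor (Yv k q τ) (Cv k q (τ i)) := remap (fun _ => i) fun _ => rfl

@[simp] lemma co_pr (i : ι) (x : (Yv k q τ).pts) (u : Unit) : co ((pr τ i).1 x) u = co x i := rfl

/-- A polynomial map between curves as a morphism. -/
def cm {b b' : Bool} (g : P2 k → P2 k) (h : CMap q b b' g) : Mor (Cv k q b) (Cv k q b') :=
  cw id (fun _ => g) fun _ => h

@[simp] lemma co_cm {b b' : Bool} (g : P2 k → P2 k) (h : CMap q b b' g) (x : (Cv k q b).pts)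
    (u : Unit) : co ((cm g h).1 x) u = g (co x ()) := rfl

/-- A morphism to a product of curves from its coordinates. -/
def piMor {T : Var k} (f : ∀ i, Mor T (Cv k q (τ i))) : Mor T (Yv k q τ) :=
  ⟨fun x => mkY (fun i => co ((f i).1 x) ()) fun i => co_mem ((f i).1 x) (),
    isMor_pi _ fun i => (f i).2⟩

@[simp] lemma co_piMor {T : Var k} (f : ∀ i, Mor T (Cv k q (τ i))) (x : T.pts) (i : ι) :
    co ((piMor f).1 x) i = co ((f i).1 x) () := rfl

lemma isProd_remap (r₁ : ι₁ → ι) (r₂ : ι₂ → ι) (h₁ : ∀ i, τ (r₁ i) = τ₁ i)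
    (h₂ : ∀ i, τ (r₂ i) = τ₂ i) (hb : Function.Bijective (Sum.elim r₁ r₂)) :
    IsProd (remap (k := k) (q := q) r₁ h₁) (remap r₂ h₂) := by
  intro T f g
  let e := Equiv.ofBijective _ hb
  have he : ∀ i, Sum.elim r₁ r₂ (e.symm i) = i := e.apply_symm_apply
  have hτ : ∀ s, τ (Sum.elim r₁ r₂ s) = Sum.elim τ₁ τ₂ s := by rintro (s | s) <;> simp [h₁, h₂]
  let F : Mor T (Yv k q (Sum.elim τ₁ τ₂)) := piMor fun s => match s with
    | Sum.inl s => (pr τ₁ s).comp f
    | Sum.inr s => (pr τ₂ s).comp g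
  refine ⟨(remap e.symm fun i => by rw [← hτ, he]).comp F, ⟨?_, ?_⟩, ?_⟩
  · funext x
    refine Yv_ext fun i => ?_
    have : e.symm (r₁ i) = Sum.inl i := e.symm_apply_eq.2 rfl
    show co (F.1 x) (e.symm (r₁ i)) = _
    rw [this]
    rfl
  · funext x
    refine Yv_ext fun i => ?_
    have : e.symm (r₂ i) = Sum.inr i := e.symm_apply_eq.2 rfl
    show co (F.1 x) (e.symm (r₂ i)) = _
    rw [this]
    rfl
  · rintro G ⟨h3, h4⟩
    refine Mor.ext' fun x => Yv_ext fun i => ?_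
    obtain ⟨s, rfl⟩ := e.surjective i
    show _ = co (F.1 x) (e.symm (e s))
    rw [e.symm_apply_apply]
    rcases s with s | s
    · exact congrArg (fun y => co y s) (congrFun h3 x)
    · exact congrArg (fun y => co y s) (congrFun h4 x)

/-- The first projection of a product indexed by a sum. -/
def pL (τ₁ : ι₁ → Bool) (τ₂ : ι₂ → Bool) : Mor (Yv k q (Sum.elim τ₁ τ₂)) (Yv k q τ₁) :=
  remap Sum.inl fun _ => rfl

/-- The second projection of a product indexed by a sum. -/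
def pR (τ₁ : ι₁ → Bool) (τ₂ : ι₂ → Bool) : Mor (Yv k q (Sum.elim τ₁ τ₂)) (Yv k q τ₂) :=
  remap Sum.inr fun _ => rfl

@[simp] lemma co_pL (x : (Yv k q (Sum.elim τ₁ τ₂)).pts) (i : ι₁) :
    co ((pL τ₁ τ₂).1 x) i = co x (Sum.inl i) := rfl

@[simp] lemma co_pR (x : (Yv k q (Sum.elim τ₁ τ₂)).pts) (i : ι₂) :
    co ((pR τ₁ τ₂).1 x) i = co x (Sum.inr i) := rfl

lemma isProd_sum (τ₁ : ι₁ → Bool) (τ₂ : ι₂ → Bool) :
    IsProd (pL (k := k) (q := q) τ₁ τ₂) (pR τ₁ τ₂) :=
  isProd_remap _ _ _ _ (by simp)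

/-- The map to a product defined by two morphisms. -/
noncomputable def pair {T : Var k} (f : Mor T (Yv k q τ₁)) (g : Mor T (Yv k q τ₂)) :
    Mor T (Yv k q (Sum.elim τ₁ τ₂)) :=
  piMor fun s => match s with
    | Sum.inl s => (pr τ₁ s).comp f
    | Sum.inr s => (pr τ₂ s).comp g

@[simp] lemma co_pair_inl {T : Var k} (f : Mor T (Yv k q τ₁)) (g : Mor T (Yv k q τ₂)) (x : T.pts)
    (i : ι₁) : co ((pair f g).1 x) (Sum.inl i) = co (f.1 x) i := rfl

@[simp] lemma co_pair_inr {T : Var k} (f : Mor T (Yv k q τ₁)) (g : Mor T (Yv k q τ₂)) (x : T.pts)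
    (i : ι₂) : co ((pair f g).1 x) (Sum.inr i) = co (g.1 x) i := rfl

@[simp] lemma pL_pair {T : Var k} (f : Mor T (Yv k q τ₁)) (g : Mor T (Yv k q τ₂)) (x : T.pts) :
    (pL τ₁ τ₂).1 ((pair f g).1 x) = f.1 x := rfl

@[simp] lemma pR_pair {T : Var k} (f : Mor T (Yv k q τ₁)) (g : Mor T (Yv k q τ₂)) (x : T.pts) :
    (pR τ₁ τ₂).1 ((pair f g).1 x) = g.1 x := rfl

lemma sum_ext {x y : (Yv k q (Sum.elim τ₁ τ₂)).pts} (h₁ : (pL τ₁ τ₂).1 x = (pL τ₁ τ₂).1 y)
    (h₂ : (pR τ₁ τ₂).1 x = (pR τ₁ τ₂).1 y) : x = y := by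
  refine Yv_ext fun s => ?_
  rcases s with s | s
  · exact congrArg (fun y => co y s) h₁
  · exact congrArg (fun y => co y s) h₂

/-- The point of a product with given projections. -/
def mkP (x : (Yv k q τ₁).pts) (y : (Yv k q τ₂).pts) : (Yv k q (Sum.elim τ₁ τ₂)).pts :=
  mkY (Sum.elim (co x) (co y)) fun s => match s with
    | Sum.inl s => co_mem x s
    | Sum.inr s => co_mem y s

@[simp] lemma pL_mkP (x : (Yv k q τ₁).pts) (y : (Yv k q τ₂).pts) : (pL τ₁ τ₂).1 (mkP x y) = x := rfl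

@[simp] lemma pR_mkP (x : (Yv k q τ₁).pts) (y : (Yv k q τ₂).pts) : (pR τ₁ τ₂).1 (mkP x y) = y := rfl

@[simp] lemma co_mkP_inl (x : (Yv k q τ₁).pts) (y : (Yv k q τ₂).pts) (i : ι₁) :
    co (mkP x y) (Sum.inl i) = co x i := rfl

@[simp] lemma co_mkP_inr (x : (Yv k q τ₁).pts) (y : (Yv k q τ₂).pts) (i : ι₂) :
    co (mkP x y) (Sum.inr i) = co y i := rfl

lemma isClosed_co_eq {b : Bool} {T : Var k} (f g : Mor T (Cv k q b)) :
    IsClosed {x | co (f.1 x) () = co (g.1 x) ()} := by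
  convert isClosed_eq_mor f.2 g.2 using 1
  ext x
  exact ⟨fun h => Yv_ext fun _ => h, fun h => congrArg (fun y => co y ()) h⟩

lemma isClosed_co_const (i : ι) (P : P2 k) : IsClosed {x : (Yv k q τ).pts | co x i = P} := by
  by_cases h : P ∈ curve k q (τ i)
  · exact isClosed_co_eq (pr τ i) (Mor.const _ (mkY (fun _ => P) fun _ => h))
  · convert isClosed_empty
    exact eq_empty_of_forall_notMem fun x hx => h (hx ▸ co_mem x i)

lemma isClosed_co_co {i j : ι} (h : τ i = τ j) : IsClosed {x : (Yv k q τ).pts | co x i = co x j} :=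
  isClosed_co_eq (remap (fun _ => i) fun _ => h) (pr τ j)

lemma d_Cv (b : Bool) : (Cv k q b).d = 1 :=
  le_antisymm (dim_curve_le q b) (le_dim_curves (k := k) q fun _ : Unit => b)

lemma Weil.d_Yv {K : Type v} [Field K] (W : Weil.{u, v, w} k K) (τ : ι → Bool) :
    (Yv k q τ).d = Fintype.card ι := by
  revert τ
  refine Fintype.induction_empty_option
    (P := fun ι _ => ∀ τ : ι → Bool, (Yv k q τ).d = Fintype.card ι) ?_ ?_ ?_ ι
  · intro α β _ e ih τ
    let : Fintype α := Fintype.ofEquiv β e.symm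
    have h := (remap (k := k) (q := q) (τ := τ ∘ e) (τ' := τ) e.symm fun i => by simp).retr
      (remap e fun _ => rfl) fun x => Yv_ext fun i => by simp
    have h1 := h.dim_image univ
    have h2 : range (remap (k := k) (q := q) (τ := τ ∘ e) (τ' := τ) e.symm fun i => by simp).1 =
        univ := range_eq_univ.2 fun y => ⟨(remap e fun _ => rfl).1 y, Yv_ext fun i => by simp⟩
    rw [image_univ, h2] at h1
    rw [← Fintype.card_congr e]
    exact h1.trans (ih _)
  · intro τ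
    obtain ⟨x⟩ : Nonempty (Yv k q τ).pts := inferInstance
    have : (univ : Set (Yv k q τ).pts) = {x} :=
      (eq_singleton_iff_unique_mem.2 ⟨trivial, fun y _ => Yv_ext fun i => i.elim⟩)
    rw [Var.d, this, dim_singleton]
    simp
  · intro α _ ih τ
    have := W.d_prod (isProd_remap (k := k) (q := q) (τ := τ) (τ₁ := τ ∘ some)
      (τ₂ := fun _ : Unit => τ none) some (fun _ => none) (fun _ => rfl) (fun _ => rfl)
      (Equiv.optionEquivSumPUnit.{0, 0} α).symm.bijective)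
    rw [this, ih, d_Cv, Fintype.card_option]

end Pool.Agent.MP_0c8446_ag

end

section

namespace Pool.Agent.MP_0c8446_ag

open Set

universe u v w

variable {k : Type u} [Field k] {K : Type v} [Field K]

/-- The hyperplane `∑ c_s x_s = 0` in the `i`-th factor. -/
def hyp {ι : Type} {n : ι → ℕ} (i : ι) (c : Fin (n i + 1) → k) : Set (MP k n) :=
  {x | ∑ s, c s * (x i).rep s = 0}

variable [IsAlgClosed k]

/-- Classes killed by all algebraic correspondences to products of curves. -/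
def Weil.Ann (W : Weil.{u, v, w} k K) (q : ℕ) [IsQ k q] (X : Var k) : Submodule K (W.H X) where
  carrier := {a | ∀ (ι : Type) [Fintype ι] (τ : ι → Bool) (P : Var k) (p : Mor P X)
    (r : Mor P (Yv k q τ)), IsProd p r → ∀ z ∈ W.Alg P, ∀ b,
      W.tr P (z * (W.pull p a * W.pull r b)) = 0}
  zero_mem' := fun _ _ _ _ _ _ _ _ _ _ => by simp
  add_mem' := fun ha hb ι _ τ P p r h z hz c => by
    rw [map_add, add_mul, mul_add, map_add, ha ι τ P p r h z hz c, hb ι τ P p r h z hz c, add_zero]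
  smul_mem' := fun c a ha ι _ τ P p r h z hz b => by
    rw [map_smul, smul_mul_assoc, mul_smul_comm, map_smul, ha ι τ P p r h z hz b, smul_zero]

/-- The cohomology is generated by correspondences from products of curves. -/
def Weil.Gen (W : Weil.{u, v, w} k K) (q : ℕ) [IsQ k q] (X : Var k) : Prop :=
  ∀ a ∈ W.Ann q X, a = 0

end Pool.Agent.MP_0c8446_ag

end
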