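import Pool.Agent.Mg.F0c8446.G61fd81

section

namespace Pool.Agent.MP_0c8446_ag

open Set

universe u v w

variable {k : Type u} [Field k] [IsAlgClosed k] {q : ℕ} [IsQ k q] {K : Type v} [Field K]
  {ι : Type} [Fintype ι] {τ : ι → Bool}

lemma geo1_retr [DecidableEq ι] (i : ι)
    (f : Mor (Yv k q fun j : {j // j ≠ i} => τ j) (Yv k q τ))
    (h : ∀ x (j : {j // j ≠ i}), co (f.1 x) j = co x j) :
    Retr f.1 (remap (τ := τ) (τ' := fun j : {j // j ≠ i} => τ j) Subtype.val fun _ => rfl).1 :=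
  f.retr _ fun x => Yv_ext fun j => h x j

lemma geo1_sub [DecidableEq ι] (i : ι)
    (f : Mor (Yv k q fun j : {j // j ≠ i} => τ j) (Yv k q τ))
    (h : ∀ x (j : {j // j ≠ i}), co (f.1 x) j = co x j) : IsSub (range f.1) := by
  rw [← image_univ]
  exact (geo1_retr i f h).isSub (Var.isSub_univ _)

lemma geo1_dim [DecidableEq ι] (W : Weil.{u, v, w} k K) (i : ι)
    (f : Mor (Yv k q fun j : {j // j ≠ i} => τ j) (Yv k q τ))
    (h : ∀ x (j : {j // j ≠ i}), co (f.1 x) j = co x j) :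
    dim (range f.1) + 1 = Fintype.card ι := by
  rw [← image_univ, (geo1_retr i f h).dim_image]
  have h1 := W.d_Yv (q := q) fun j : {j // j ≠ i} => τ j
  rw [Var.d] at h1
  rw [h1, Fintype.card_subtype_compl, Fintype.card_subtype_eq]
  have : 0 < Fintype.card ι := Fintype.card_pos_iff.2 ⟨i⟩
  omega

lemma geo1_const [DecidableEq ι] (i : ι) {P : P2 k} (hP : P ∈ curve k q (τ i)) :
    ∃ f : Mor (Yv k q fun j : {j // j ≠ i} => τ j) (Yv k q τ),
      (∀ x (j : {j // j ≠ i}), co (f.1 x) j = co x j) ∧ range f.1 = {x | co x i = P} := by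
  refine ⟨⟨fun x => mkY (fun j => if h : j = i then P else co x ⟨j, h⟩) fun j => ?_,
    isMor_of_co _ fun j => ?_⟩, fun x j => ?_, ?_⟩
  · by_cases h : j = i
    · rw [dif_pos h, h]; exact hP
    · rw [dif_neg h]; exact co_mem x ⟨j, h⟩
  · by_cases h : j = i
    · exact Or.inl ⟨P, fun x => dif_pos h⟩
    · exact Or.inr ⟨⟨j, h⟩, id, cMap_id rfl, fun x => dif_neg h⟩
  · exact dif_neg j.2
  · ext y
    constructor
    · rintro ⟨x, rfl⟩
      exact dif_pos rfl
    · intro hy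
      refine ⟨(remap (τ := τ) Subtype.val fun _ => rfl).1 y, Yv_ext fun j => ?_⟩
      by_cases h : j = i
      · refine (dif_pos h).trans ?_
        rw [h]; exact hy.symm
      · exact dif_neg h

lemma geo1_diag [DecidableEq ι] {i j : ι} (hij : i ≠ j) (h : τ i = τ j) :
    ∃ f : Mor (Yv k q fun l : {l // l ≠ i} => τ l) (Yv k q τ),
      (∀ x (l : {l // l ≠ i}), co (f.1 x) l = co x l) ∧ range f.1 = {x | co x i = co x j} := by
  refine ⟨remap (fun l => if hl : l = i then ⟨j, hij.symm⟩ else ⟨l, hl⟩) fun l => ?_,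
    fun x l => ?_, ?_⟩
  · by_cases hl : l = i
    · rw [dif_pos hl, hl]; exact h.symm
    · rw [dif_neg hl]
  · rw [co_remap, dif_neg l.2]
  · ext y
    constructor
    · rintro ⟨x, rfl⟩
      show co _ i = co _ j
      rw [co_remap, co_remap, dif_pos rfl, dif_neg hij.symm]
    · intro hy
      refine ⟨(remap (τ := τ) Subtype.val fun _ => rfl).1 y, Yv_ext fun l => ?_⟩
      rw [co_remap, co_remap]
      by_cases hl : l = i
      · rw [dif_pos hl, hl]; exact hy.symm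
      · rw [dif_neg hl]

theorem isSub_co_const (i : ι) {P : P2 k} (hP : P ∈ curve k q (τ i)) :
    IsSub {x : (Yv k q τ).pts | co x i = P} := by
  classical
  obtain ⟨f, h1, h2⟩ := geo1_const i hP
  exact h2 ▸ geo1_sub i f h1

theorem Weil.dim_co_const (W : Weil.{u, v, w} k K) (i : ι) {P : P2 k}
    (hP : P ∈ curve k q (τ i)) :
    dim {x : (Yv k q τ).pts | co x i = P} + 1 = Fintype.card ι := by
  classical
  obtain ⟨f, h1, h2⟩ := geo1_const i hP
  exact h2 ▸ geo1_dim W i f h1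

theorem isSub_co_co {i j : ι} (h : τ i = τ j) :
    IsSub {x : (Yv k q τ).pts | co x i = co x j} := by
  classical
  by_cases hij : i = j
  · subst hij
    simpa using Var.isSub_univ (Yv k q τ)
  · obtain ⟨f, h1, h2⟩ := geo1_diag (k := k) (q := q) hij h
    exact h2 ▸ geo1_sub i f h1

theorem Weil.dim_co_co (W : Weil.{u, v, w} k K) {i j : ι} (hij : i ≠ j) (h : τ i = τ j) :
    dim {x : (Yv k q τ).pts | co x i = co x j} + 1 = Fintype.card ι := by
  classical
  obtain ⟨f, h1, h2⟩ := geo1_diag (k := k) (q := q) hij h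
  exact h2 ▸ geo1_dim W i f h1

theorem infinite_co_of_open {U : Set (Yv k q τ).pts} (hU : IsOpen U) (hne : U.Nonempty) (i : ι) :
    ((fun x => co x i) '' U).Infinite := by
  classical
  intro hf
  obtain ⟨x, hx⟩ := hne
  let g : (Cv k q (τ i)).pts → (Yv k q τ).pts := fun a => cprodUpd i a x
  have hg : Continuous g := cprod_continuous_left i x
  have e : ∀ a, co (g a) i = co a () := fun a => cprod_upd_self i a x
  have inj : Function.Injective fun a : (Cv k q (τ i)).pts => co a () :=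
    fun a b hab => Yv_ext fun _ => hab
  have h1 : (univ ∩ g ⁻¹' U).Finite :=
    (hf.preimage inj.injOn).subset fun a ha => ⟨g a, ha.2, e a⟩
  have h2 : (pr τ i).1 x ∈ g ⁻¹' U := by
    have : g ((pr τ i).1 x) = x := Yv_ext fun j => by
      by_cases h : j = i
      · rw [h, e]; rfl
      · exact cprod_upd_ne h _ _
    rw [mem_preimage, this]
    exact hx
  have h3 := (Var.isSub_univ (Cv k q (τ i))).eq_singleton_of_finite (hU.preimage hg) h1
    (mem_univ _) h2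
  refine infinite_curve (k := k) q (τ i) ((finite_singleton (co x i)).subset fun P hP => ?_)
  have h4 : (mkY (fun _ => P) fun _ => hP : (Cv k q (τ i)).pts) ∈ ({(pr τ i).1 x} : Set _) :=
    h3 ▸ mem_univ _
  exact congrArg (fun y => co y ()) h4

theorem IsSub.infinite_co {Z : Set (Yv k q τ).pts} (hZ : IsSub Z) {i : ι}
    {x y : (Yv k q τ).pts} (hx : x ∈ Z) (hy : y ∈ Z) (h : co x i ≠ co y i) :
    ((fun x => co x i) '' Z).Infinite := by
  intro hf
  obtain ⟨P, -, hP⟩ := hZ.subset_of_finite hf (F := fun P => {x | co x i = P})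
    (fun P _ => isClosed_co_const i P) fun z hz => mem_iUnion₂.2 ⟨_, ⟨z, hz, rfl⟩, rfl⟩
  exact h ((hP hx).trans (hP hy).symm)

theorem exists_sub_of_open (I : Finset ι) {Z U : Set (Yv k q τ).pts} (hZ : IsClosed Z)
    (hU : IsOpen U) (hne : U.Nonempty) (h : ∀ x ∈ U, ∃ z ∈ Z, ∀ i ∈ I, co z i = co x i) :
    ∃ C, IsSub C ∧ C ⊆ Z ∧ I.card ≤ dim C := by
  classical
  induction I using Finset.induction_on generalizing Z U with
  | empty =>
    obtain ⟨x, hx⟩ := hne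
    obtain ⟨z, hz, -⟩ := h x hx
    exact ⟨{z}, isSub_singleton z, singleton_subset_iff.2 hz, Nat.zero_le _⟩
  | @insert i I hi ih =>
    have key : ∀ P ∈ (fun x => co x i) '' U, ∃ D C : Set (Yv k q τ).pts, IsComp D Z ∧ IsSub C ∧
        C ⊆ D ∧ (∀ z ∈ C, co z i = P) ∧ I.card ≤ dim C := by
      rintro _ ⟨x, hx, rfl⟩
      let g : (Yv k q τ).pts → (Yv k q τ).pts := cprodUpd i ((pr τ i).1 x)
      have hg : Continuous g := cprod_continuous_right i _
      have e1 : ∀ y, co (g y) i = co x i := fun y => cprod_upd_self i _ y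
      have e2 : ∀ y j, j ≠ i → co (g y) j = co y j := fun y j hj => cprod_upd_ne hj _ y
      have e3 : g x = x := Yv_ext fun j => by
        by_cases hj : j = i
        · rw [hj, e1]
        · exact e2 x j hj
      obtain ⟨C, h1, h2, h3⟩ := ih (hZ.inter (isClosed_co_const i (co x i))) (hU.preimage hg)
        ⟨x, by rw [mem_preimage, e3]; exact hx⟩ fun y hy => by
          obtain ⟨z, hz, h4⟩ := h _ hy
          refine ⟨z, ⟨hz, (h4 i (Finset.mem_insert_self _ _)).trans (e1 y)⟩, fun j hj => ?_⟩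
          exact (h4 j (Finset.mem_insert_of_mem hj)).trans (e2 y j fun e => hi (e ▸ hj))
      obtain ⟨D, hD, hCD⟩ := exists_isComp h1 (h2.trans inter_subset_left)
      exact ⟨D, C, hD, h1, hCD, fun z hz => (h2 hz).2, h3⟩
    choose! D C h1 h2 h3 h4 h5 using key
    obtain ⟨P, hP, Q, hQ, hne', e⟩ := (infinite_co_of_open hU hne i).exists_ne_map_eq_of_mapsTo
      (f := D) (t := {C | IsComp C Z}) (fun P hP => h1 P hP) (finite_isComp hZ)
    refine ⟨D P, (h1 P hP).1.1, (h1 P hP).1.2, ?_⟩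
    have h6 : C P ⊂ D P := ⟨h3 P hP, fun h7 => by
      obtain ⟨z, hz⟩ := (h2 Q hQ).1.1
      exact hne' ((h4 P hP z (h7 (e ▸ h3 Q hQ hz))).symm.trans (h4 Q hQ z hz))⟩
    have h7 := dim_lt (h2 P hP) (h1 P hP).1.1 h6
    have h8 := h5 P hP
    rw [Finset.card_insert_of_notMem hi]
    omega

theorem isSub_prod {ι₁ ι₂ : Type} [Fintype ι₁] [Fintype ι₂] {τ₁ : ι₁ → Bool} {τ₂ : ι₂ → Bool}
    {Z₁ : Set (Yv k q τ₁).pts} {Z₂ : Set (Yv k q τ₂).pts} (h₁ : IsSub Z₁) (h₂ : IsSub Z₂) :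
    IsSub ((pL τ₁ τ₂).1 ⁻¹' Z₁ ∩ (pR τ₁ τ₂).1 ⁻¹' Z₂) := by
  refine ⟨?_, (h₁.2.preimage (pL τ₁ τ₂).continuous).inter (h₂.2.preimage (pR τ₁ τ₂).continuous)⟩
  have e : (pL τ₁ τ₂).1 ⁻¹' Z₁ ∩ (pR τ₁ τ₂).1 ⁻¹' Z₂ = image2 mkP Z₁ Z₂ := by
    ext x
    constructor
    · exact fun hx => ⟨_, hx.1, _, hx.2, sum_ext rfl rfl⟩
    · rintro ⟨a, ha, b, hb, rfl⟩
      exact ⟨ha, hb⟩
  rw [e]
  refine isIrreducible_image2 (fun a => ?_) (fun b => ?_) h₁.1 h₂.1
  · exact (pair (Mor.const _ a) (Mor.id (Yv k q τ₂))).continuous.congr fun b =>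
      sum_ext (τ₁ := τ₁) (τ₂ := τ₂) rfl rfl
  · exact (pair (Mor.id (Yv k q τ₁)) (Mor.const _ b)).continuous.congr fun a =>
      sum_ext (τ₁ := τ₁) (τ₂ := τ₂) rfl rfl

end Pool.Agent.MP_0c8446_ag

end

section

namespace Pool.Agent.MP_0c8446_ag

open Set

universe u v w

variable {k : Type u} [Field k] [IsAlgClosed k] {q : ℕ} [IsQ k q] {K : Type v} [Field K]
  [CharZero K] {ι : Type} [Fintype ι] {τ : ι → Bool}

/-- The sum of the classes of a multiset of subvarieties. -/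
noncomputable def Weil.geo2S (W : Weil.{u, v, w} k K) (X : Var k) : Multiset (Set X.pts) →+ W.H X :=
  Multiset.sumAddMonoidHom.comp (Multiset.mapAddMonoidHom (W.cl X))

omit [IsAlgClosed k] [CharZero K] in
lemma Weil.geo2S_singleton (W : Weil.{u, v, w} k K) {X : Var k} (C : Set X.pts) :
    W.geo2S X {C} = W.cl X C := by simp [Weil.geo2S]

omit [IsAlgClosed k] [CharZero K] in
lemma Weil.geo2S_cons (W : Weil.{u, v, w} k K) {X : Var k} (C : Set X.pts)
    (M : Multiset (Set X.pts)) : W.geo2S X (C ::ₘ M) = W.cl X C + W.geo2S X M := by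
  simp [Weil.geo2S]

omit [IsAlgClosed k] [CharZero K] in
lemma Weil.geo2_fin (W : Weil.{u, v, w} k K) {X : Var k} (s : Finset (Set X.pts))
    (μ : Set X.pts → ℕ) (hμ : ∀ C ∈ s, 0 < μ C) :
    ∃ M : Multiset (Set X.pts), (∀ C, C ∈ M ↔ C ∈ s) ∧
      W.geo2S X M = ∑ C ∈ s, μ C • W.cl X C := by
  refine ⟨∑ C ∈ s, μ C • {C}, fun C => ?_, ?_⟩
  · simp only [Multiset.mem_sum, Multiset.mem_nsmul, Multiset.mem_singleton]
    exact ⟨fun ⟨D, hD, _, h⟩ => h ▸ hD, fun h => ⟨C, h, (hμ C h).ne', rfl⟩⟩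
  · simp only [map_sum, map_nsmul, W.geo2S_singleton]

omit [CharZero K] in
open Classical in
lemma Weil.geo2_proj (W : Weil.{u, v, w} k K) {X : Var k} (M : Multiset (Set X.pts))
    (hM : ∀ C ∈ M, IsSub C) {e : ℕ} (he : e ≤ X.d) :
    GradedAlgebra.proj (W.gr X) (2 * (X.d - e)) (W.geo2S X M) =
      W.geo2S X (M.filter fun C => dim C = e) := by
  induction M using Multiset.induction_on with
  | empty => simp
  | cons C M ih =>
    have hC := hM C (Multiset.mem_cons_self _ _)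
    have h1 := W.cl_gr X C hC
    have h2 := X.dim_le C
    rw [W.geo2S_cons, map_add, ih fun D hD => hM D (Multiset.mem_cons_of_mem hD),
      GradedAlgebra.proj_apply]
    by_cases h : dim C = e
    · rw [Multiset.filter_cons_of_pos (p := fun C => dim C = e) _ h, W.geo2S_cons, ← h,
        DirectSum.decompose_of_mem_same _ h1]
    · rw [Multiset.filter_cons_of_neg (p := fun C => dim C = e) _ h,
        DirectSum.decompose_of_mem_ne _ h1 (by omega), zero_add]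

omit [IsAlgClosed k] [CharZero K] in
lemma Weil.geo2_mul (W : Weil.{u, v, w} k K) {X : Var k} {H : Set X.pts} (hH : IsSub H)
    (M : Multiset (Set X.pts)) (hM : ∀ C ∈ M, IsSub C)
    (h : ∀ C ∈ M, ∀ D, IsSub D → D ⊆ C ∩ H → dim D + X.d ≤ dim C + dim H) :
    ∃ M' : Multiset (Set X.pts), (∀ D, D ∈ M' ↔ ∃ C ∈ M, IsComp D (C ∩ H)) ∧
      W.geo2S X M * W.cl X H = W.geo2S X M' := by
  induction M using Multiset.induction_on with
  | empty => exact ⟨0, by simp, by simp⟩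
  | cons C M ih =>
    obtain ⟨M', h1, h2⟩ := ih (fun D hD => hM D (Multiset.mem_cons_of_mem hD))
      fun D hD => h D (Multiset.mem_cons_of_mem hD)
    obtain ⟨s, μ, h3, h4, -, h5⟩ := W.proper X C H (hM C (Multiset.mem_cons_self _ _)) hH
      (h C (Multiset.mem_cons_self _ _))
    obtain ⟨N, h6, h7⟩ := W.geo2_fin s μ h4
    refine ⟨N + M', fun D => ?_, ?_⟩
    · simp only [Multiset.mem_add, h6, h3, h1, Multiset.mem_cons, exists_eq_or_imp]
    · rw [W.geo2S_cons, add_mul, h2, h5, map_add, h7]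

omit [CharZero K] in
lemma Weil.geo2_tr (W : Weil.{u, v, w} k K) {X : Var k} (M : Multiset (Set X.pts))
    (hM : ∀ C ∈ M, IsSub C ∧ dim C = 0) : W.tr X (W.geo2S X M) = M.card := by
  induction M using Multiset.induction_on with
  | empty => simp
  | cons C M ih =>
    obtain ⟨hC, h0⟩ := hM C (Multiset.mem_cons_self _ _)
    obtain ⟨x, hx⟩ := hC.1.1
    rw [W.geo2S_cons, map_add, ih fun D hD => hM D (Multiset.mem_cons_of_mem hD),
      hC.eq_singleton h0 hx, W.tr_pt, Multiset.card_cons]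
    push_cast
    ring

lemma Weil.geo2_hyp (W : Weil.{u, v, w} k K) {i : ι} {P : P2 k} (hP : P ∈ curve k q (τ i))
    {C : Set (Yv k q τ).pts} (hC : IsSub C) (h : ¬ C ⊆ {x | co x i = P}) (D : Set (Yv k q τ).pts)
    (hD : IsSub D) (hDC : D ⊆ C ∩ {x | co x i = P}) :
    dim D < dim C ∧ dim D + (Yv k q τ).d ≤ dim C + dim {x : (Yv k q τ).pts | co x i = P} := by
  have h1 : dim D < dim C :=
    dim_lt hD hC ⟨hDC.trans inter_subset_left, fun h2 => h (h2.trans (hDC.trans inter_subset_right))⟩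
  have h2 := W.dim_co_const i hP
  have h3 := W.d_Yv (q := q) τ
  omega

lemma Weil.geo2_ne (W : Weil.{u, v, w} k K) (e : ℕ) (M : Multiset (Set (Yv k q τ).pts))
    (hM : ∀ C ∈ M, IsSub C ∧ dim C < e) (hne : M ≠ 0) : W.geo2S _ M ≠ 0 := by
  classical
  induction e generalizing M with
  | zero =>
    obtain ⟨C, hC⟩ := Multiset.exists_mem_of_ne_zero hne
    exact absurd (hM C hC).2 (Nat.not_lt_zero _)
  | succ e ih =>
    by_cases hex : ∃ C ∈ M, dim C = e
    swap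
    · push Not at hex
      exact ih M (fun C hC => ⟨(hM C hC).1, by have := (hM C hC).2; have := hex C hC; omega⟩) hne
    obtain ⟨C₀, hC₀, hd⟩ := hex
    intro h0
    have h1 := W.geo2_proj M (fun C hC => (hM C hC).1) (hd ▸ (Yv k q τ).dim_le C₀)
    rw [h0, map_zero] at h1
    set N := M.filter fun C => dim C = e with hN
    have hN0 : C₀ ∈ N := Multiset.mem_filter.2 ⟨hC₀, hd⟩
    have hN1 : ∀ C ∈ N, IsSub C ∧ dim C = e := fun C hC =>
      ⟨(hM C (Multiset.mem_filter.1 hC).1).1, (Multiset.mem_filter.1 hC).2⟩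
    have hs := (hN1 C₀ hN0).1
    obtain ⟨x, hx⟩ := hs.1.1
    by_cases he : e = 0
    · have h2 := W.geo2_tr N (he ▸ hN1)
      rw [← h1, map_zero] at h2
      have h3 : N.card = 0 := by exact_mod_cast h2.symm
      rw [Multiset.card_eq_zero.1 h3] at hN0
      exact Multiset.notMem_zero _ hN0
    obtain ⟨y, hy, hxy⟩ : ∃ y ∈ C₀, x ≠ y := by
      by_contra hcon
      push Not at hcon
      have : C₀ = {x} := eq_singleton_iff_unique_mem.2 ⟨hx, fun y hy => (hcon y hy).symm⟩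
      rw [this, dim_singleton] at hd
      exact he hd.symm
    obtain ⟨i, hi⟩ : ∃ i, co x i ≠ co y i := by
      by_contra hcon
      push Not at hcon
      exact hxy (Yv_ext hcon)
    let f : Set (Yv k q τ).pts → P2 k := fun C => if h : C.Nonempty then co h.some i else co x i
    obtain ⟨_, ⟨z, hz, rfl⟩, hzf⟩ :=
      (hs.infinite_co hx hy hi).exists_notMem_finite (N.finite_toSet.image f)
    have hns : ∀ C ∈ N, ¬ C ⊆ {x | co x i = co z i} := fun C hC hsub => by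
      have h2 : C.Nonempty := (hN1 C hC).1.1.1
      exact hzf ⟨C, hC, by simp only [f, dif_pos h2]; exact hsub h2.some_mem⟩
    obtain ⟨N', h2, h3⟩ := W.geo2_mul (isSub_co_const i (co_mem z i)) N (fun C hC => (hN1 C hC).1)
      fun C hC D hD hDC => (W.geo2_hyp (co_mem z i) (hN1 C hC).1 (hns C hC) D hD hDC).2
    rw [← h1, zero_mul] at h3
    obtain ⟨D₀, hD₀, -⟩ := exists_isComp (S := C₀ ∩ {x | co x i = co z i}) (isSub_singleton z)
      (singleton_subset_iff.2 ⟨hz, rfl⟩)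
    refine ih N' (fun D hD => ?_) (fun h4 => ?_) h3.symm
    · obtain ⟨C, hC, hDC⟩ := (h2 D).1 hD
      have := (W.geo2_hyp (co_mem z i) (hN1 C hC).1 (hns C hC) D hDC.1.1 hDC.1.2).1
      exact ⟨hDC.1.1, (hN1 C hC).2 ▸ this⟩
    · have := (h2 D₀).2 ⟨C₀, hN0, hD₀⟩
      rw [h4] at this
      exact Multiset.notMem_zero _ this

lemma Weil.geo2_ne' (W : Weil.{u, v, w} k K) (M : Multiset (Set (Yv k q τ).pts))
    (hM : ∀ C ∈ M, IsSub C) (hne : M ≠ 0) : W.geo2S _ M ≠ 0 :=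
  W.geo2_ne ((Yv k q τ).d + 1) M
    (fun C hC => ⟨hM C hC, Nat.lt_succ_of_le ((Yv k q τ).dim_le C)⟩) hne

theorem Weil.eff_ne_zero (W : Weil.{u, v, w} k K) (s : Finset (Set (Yv k q τ).pts))
    (μ : Set (Yv k q τ).pts → ℕ) (hs : ∀ C ∈ s, IsSub C) (hμ : ∀ C ∈ s, 0 < μ C)
    (hne : s.Nonempty) : ∑ C ∈ s, μ C • W.cl _ C ≠ 0 := by
  obtain ⟨M, h1, h2⟩ := W.geo2_fin s μ hμ
  obtain ⟨C, hC⟩ := hne
  rw [← h2]
  refine W.geo2_ne' M (fun D hD => hs D ((h1 D).1 hD)) fun h3 => ?_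
  have := (h1 C).2 hC
  rw [h3] at this
  exact Multiset.notMem_zero _ this

theorem Weil.proper_dim (W : Weil.{u, v, w} k K) {Z Z' : Set (Yv k q τ).pts} (hZ : IsSub Z)
    (hZ' : IsSub Z')
    (h : ∀ C, IsSub C → C ⊆ Z ∩ Z' → dim C + (Yv k q τ).d ≤ dim Z + dim Z')
    {C : Set (Yv k q τ).pts} (hC : IsComp C (Z ∩ Z')) :
    dim C + (Yv k q τ).d = dim Z + dim Z' := by
  classical
  obtain ⟨s, μ, h3, h4, -, h5⟩ := W.proper _ Z Z' hZ hZ' h
  obtain ⟨M, h6, h7⟩ := W.geo2_fin s μ h4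
  have hM : ∀ D ∈ M, IsSub D := fun D hD => ((h3 D).1 ((h6 D).1 hD)).1.1
  have d1 := (Yv k q τ).dim_le C
  have d2 := (Yv k q τ).dim_le Z
  have d3 := (Yv k q τ).dim_le Z'
  have h1 := W.geo2_proj M hM d1
  by_contra hne
  rw [h7, ← h5, GradedAlgebra.proj_apply, DirectSum.decompose_of_mem_ne _
    (SetLike.mul_mem_graded (W.cl_gr _ Z hZ) (W.cl_gr _ Z' hZ')) (by omega)] at h1
  refine W.geo2_ne' _ (fun D hD => hM D (Multiset.mem_filter.1 hD).1) (fun h2 => ?_) h1.symm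
  have : C ∈ M.filter fun D => dim D = dim C :=
    Multiset.mem_filter.2 ⟨(h6 C).2 ((h3 C).2 hC), rfl⟩
  rw [h2] at this
  exact Multiset.notMem_zero _ this

theorem Weil.dim_le_of_finite (W : Weil.{u, v, w} k K) (I : Finset ι)
    {Z U : Set (Yv k q τ).pts} (hZ : IsSub Z) (hU : IsOpen U) (hne : (Z ∩ U).Nonempty)
    (hf : ∀ x : (Yv k q τ).pts, {y ∈ Z ∩ U | ∀ i ∈ I, co y i = co x i}.Finite) :
    dim Z ≤ I.card := by
  classical
  induction I using Finset.induction_on generalizing Z with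
  | empty =>
    obtain ⟨x, hx, hxU⟩ := hne
    rw [hZ.eq_singleton_of_finite hU (by simpa using hf x) hx hxU, dim_singleton]
    exact Nat.zero_le _
  | insert i I hi ih =>
    obtain ⟨x, hx, hxU⟩ := hne
    have key : ∀ C, IsSub C → C ⊆ Z ∩ {y | co y i = co x i} → x ∈ C → dim C ≤ I.card := by
      intro C hC hsub hxC
      refine ih hC ⟨x, hxC, hxU⟩ fun x' => ?_
      rcases ({y ∈ C ∩ U | ∀ j ∈ I, co y j = co x' j}).eq_empty_or_nonempty with h | ⟨y₀, hy₀⟩
      · rw [h]; exact finite_empty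
      · refine (hf y₀).subset fun y hy => ⟨⟨(hsub hy.1.1).1, hy.1.2⟩, fun j hj => ?_⟩
        rcases Finset.mem_insert.1 hj with rfl | hj
        · exact (hsub hy.1.1).2.trans (hsub hy₀.1.1).2.symm
        · exact (hy.2 j hj).trans (hy₀.2 j hj).symm
    rw [Finset.card_insert_of_notMem hi]
    by_cases h : Z ⊆ {y | co y i = co x i}
    · exact (key Z hZ (subset_inter subset_rfl h) hx).trans (Nat.le_succ _)
    · obtain ⟨C, hC, hxC⟩ := exists_isComp (S := Z ∩ {y | co y i = co x i}) (isSub_singleton x)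
        (singleton_subset_iff.2 ⟨hx, rfl⟩)
      have h1 := W.proper_dim hZ (isSub_co_const i (co_mem x i))
        (fun D hD hDC => (W.geo2_hyp (co_mem x i) hZ h D hD hDC).2) hC
      have h2 := key C hC.1.1 hC.1.2 (hxC rfl)
      have h3 := W.dim_co_const i (co_mem x i)
      have h4 := W.d_Yv (q := q) τ
      omega

theorem Weil.dim_prod (W : Weil.{u, v, w} k K) {ι₁ ι₂ : Type} [Fintype ι₁] [Fintype ι₂]
    {τ₁ : ι₁ → Bool} {τ₂ : ι₂ → Bool} {Z₁ : Set (Yv k q τ₁).pts} {Z₂ : Set (Yv k q τ₂).pts}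
    (h₁ : IsSub Z₁) (h₂ : IsSub Z₂) :
    dim ((pL τ₁ τ₂).1 ⁻¹' Z₁ ∩ (pR τ₁ τ₂).1 ⁻¹' Z₂) = dim Z₁ + dim Z₂ := by
  have hZ := isSub_prod h₁ h₂
  have h1 := W.cl_gr _ _ hZ
  have h2 := SetLike.mul_mem_graded (W.pull_gr (pL τ₁ τ₂) _ _ (W.cl_gr _ _ h₁))
    (W.pull_gr (pR τ₁ τ₂) _ _ (W.cl_gr _ _ h₂))
  rw [← W.cl_prod _ _ (isProd_sum τ₁ τ₂) _ _ h₁ h₂] at h2
  have h3 := W.geo2_ne' {(pL τ₁ τ₂).1 ⁻¹' Z₁ ∩ (pR τ₁ τ₂).1 ⁻¹' Z₂}
    (fun C hC => Multiset.mem_singleton.1 hC ▸ hZ) (Multiset.singleton_ne_zero _)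
  rw [W.geo2S_singleton] at h3
  have d0 := W.d_prod (isProd_sum (k := k) (q := q) τ₁ τ₂)
  have d1 := (Yv k q τ₁).dim_le Z₁
  have d2 := (Yv k q τ₂).dim_le Z₂
  have d3 := (Yv k q (Sum.elim τ₁ τ₂)).dim_le ((pL τ₁ τ₂).1 ⁻¹' Z₁ ∩ (pR τ₁ τ₂).1 ⁻¹' Z₂)
  by_contra hne
  exact h3 ((DirectSum.decompose_of_mem_same _ h1).symm.trans
    (DirectSum.decompose_of_mem_ne _ h2 (by omega)))

end Pool.Agent.MP_0c8446_ag

end
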