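import Pool.Agent.Mg.F0c8446.G8ddf14
import Pool.Agent.Mg.F0c8446.G7fb164
import Pool.Agent.Mg.F0c8446.Gb96398
import Pool.Agent.Mg.F0c8446.G3719a6
import Pool.Agent.Mg.F0c8446.G61fd81
import Pool.Agent.MP_0c8446_ag.LinAlg2

section

namespace Pool.Agent.MP_0c8446_ag

open Set

universe u v w

variable {k : Type u} [Field k] [IsAlgClosed k] {K : Type v} [Field K] [CharZero K]

lemma geoGen_hyp {X : Var k} {H C : Set X.pts} (hH : dim H + 1 = X.d) (hC : IsSub C)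
    (h : ¬ C ⊆ H) (D : Set X.pts) (hD : IsSub D) (hDC : D ⊆ C ∩ H) :
    dim D < dim C ∧ dim D + X.d ≤ dim C + dim H := by
  have h1 : dim D < dim C :=
    dim_lt hD hC ⟨hDC.trans inter_subset_left, fun h2 => h (h2.trans (hDC.trans inter_subset_right))⟩
  omega

lemma geoGen_cut {ι : Type} [Fintype ι] {n : ι → ℕ} {N : Set (Set (amb k n).pts)} (hN : N.Finite)
    (hne : ∀ C ∈ N, C.Nonempty) {C₀ : Set (amb k n).pts} (hs : IsSub C₀) {x y : (amb k n).pts}
    (hx : x ∈ C₀) (hy : y ∈ C₀) (hxy : x ≠ y) : ∃ H : Set (amb k n).pts,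
      IsSub H ∧ dim H + 1 = (amb k n).d ∧ (C₀ ∩ H).Nonempty ∧ ∀ C ∈ N, ¬ C ⊆ H := by
  obtain ⟨i, hi⟩ : ∃ i : ι, x.1 i ≠ y.1 i := Function.ne_iff.1 fun e => hxy (Subtype.ext e)
  have hn : 0 < n i := by
    by_contra h0
    refine hi ((x.1 i).mk_rep.symm.trans ((mk_eq_of_minor (r := n i) _ _ fun s t => ?_).trans
      (y.1 i).mk_rep))
    rw [show s = t from Fin.ext (by omega)]
  have hinf : ((fun z : (amb k n).pts => z.1 i) '' C₀).Infinite := fun hf => by
    obtain ⟨P, -, hP⟩ := hs.subset_of_finite hf (F := fun P => {z | z.1 i = P})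
      (by
        rintro _ ⟨z, -, rfl⟩
        exact (isClosed_apply_eq (n := n) i z.1).preimage
          (continuous_subtype_val (p := fun y : MP k n => y ∈ univ)))
      fun z hz => mem_iUnion₂.2 ⟨_, ⟨z, hz, rfl⟩, rfl⟩
    exact hi ((hP hx).trans (hP hy).symm)
  choose! g hg using hne
  obtain ⟨_, ⟨z, hz, rfl⟩, hzf⟩ := hinf.exists_notMem_finite (hN.image fun C => (g C).1 i)
  obtain ⟨c, hc, h1, h2⟩ := exists_hyp_through i hn z.1 (hN.image fun C => (g C).1) (by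
    rintro _ ⟨C, hC, rfl⟩ e
    exact hzf ⟨C, hC, e⟩)
  exact ⟨_, isSub_hyp hc hn, (dim_hyp hc hn).trans (d_amb n).symm, ⟨z, hz, h1⟩,
    fun C hC h => h2 _ ⟨C, hC, rfl⟩ (h (hg C hC))⟩

lemma Weil.geoGen_amb (W : Weil.{u, v, w} k K) {ι : Type} [Fintype ι] {n : ι → ℕ} (e : ℕ)
    (M : Multiset (Set (amb k n).pts)) (hM : ∀ C ∈ M, IsSub C ∧ dim C < e) (hne : M ≠ 0) :
    W.geo2S _ M ≠ 0 := by
  classical
  induction e generalizing M with
  | zero =>
    obtain ⟨C, hC⟩ := Multiset.exists_mem_of_ne_zero hne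
    exact absurd (hM C hC).2 (Nat.not_lt_zero _)
  | succ e ih =>
    by_cases hex : ∃ C ∈ M, dim C = e
    swap
    · push Not at hex
      exact ih M (fun C hC => ⟨(hM C hC).1, by have := (hM C hC).2; have := hex C hC; omega⟩) hne
    obtain ⟨C₀, hC₀, hd⟩ := hex
    intro h0
    have h1 := W.geo2_proj M (fun C hC => (hM C hC).1) (hd ▸ (amb k n).dim_le C₀)
    rw [h0, map_zero] at h1
    set N := M.filter fun C => dim C = e with hN
    have hN0 : C₀ ∈ N := Multiset.mem_filter.2 ⟨hC₀, hd⟩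
    have hN1 : ∀ C ∈ N, IsSub C ∧ dim C = e := fun C hC =>
      ⟨(hM C (Multiset.mem_filter.1 hC).1).1, (Multiset.mem_filter.1 hC).2⟩
    have hs := (hN1 C₀ hN0).1
    obtain ⟨x, hx⟩ := hs.1.1
    by_cases he : e = 0
    · have h2 := W.geo2_tr N (he ▸ hN1)
      rw [← h1, map_zero] at h2
      have h3 : N.card = 0 := by exact_mod_cast h2.symm
      rw [Multiset.card_eq_zero.1 h3] at hN0
      exact Multiset.notMem_zero _ hN0
    obtain ⟨y, hy, hxy⟩ : ∃ y ∈ C₀, x ≠ y := by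
      by_contra hcon
      push Not at hcon
      have : C₀ = {x} := eq_singleton_iff_unique_mem.2 ⟨hx, fun y hy => (hcon y hy).symm⟩
      rw [this, dim_singleton] at hd
      exact he hd.symm
    obtain ⟨H, hH, hHd, ⟨z, hz⟩, hns⟩ := geoGen_cut N.finite_toSet
      (fun C hC => (hN1 C hC).1.1.1) hs hx hy hxy
    obtain ⟨N', h2, h3⟩ := W.geo2_mul hH N (fun C hC => (hN1 C hC).1)
      fun C hC D hD hDC => (geoGen_hyp hHd (hN1 C hC).1 (hns C hC) D hD hDC).2
    rw [← h1, zero_mul] at h3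
    obtain ⟨D₀, hD₀, -⟩ := exists_isComp (isSub_singleton z) (singleton_subset_iff.2 hz)
    refine ih N' (fun D hD => ?_) (fun h4 => ?_) h3.symm
    · obtain ⟨C, hC, hDC⟩ := (h2 D).1 hD
      have := (geoGen_hyp hHd (hN1 C hC).1 (hns C hC) D hDC.1.1 hDC.1.2).1
      exact ⟨hDC.1.1, (hN1 C hC).2 ▸ this⟩
    · have := (h2 D₀).2 ⟨C₀, hN0, hD₀⟩
      rw [h4] at this
      exact Multiset.notMem_zero _ this

omit [CharZero K] in
lemma Weil.geoGen_push (W : Weil.{u, v, w} k K) {X : Var k} (M : Multiset (Set X.pts))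
    (hM : ∀ C ∈ M, IsSub C) : ∃ M' : Multiset (Set (amb k X.n).pts), (∀ C ∈ M', IsSub C) ∧
      (M' = 0 → M = 0) ∧ ∀ b, W.tr X (W.geo2S X M * W.pull X.incl b) = W.tr _ (W.geo2S _ M' * b) := by
  induction M using Multiset.induction_on with
  | empty => exact ⟨0, by simp, fun _ => rfl, by simp⟩
  | cons C M ih =>
    obtain ⟨M', h1, -, h2⟩ := ih fun D hD => hM D (Multiset.mem_cons_of_mem hD)
    have hC := hM C (Multiset.mem_cons_self _ _)
    obtain ⟨r, hr, h3⟩ := W.push X.incl C hC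
    rw [(X.isSub_incl hC).2.closure_eq] at hr h3
    have hr0 := hr (X.dim_incl C)
    refine ⟨r • {X.incl.1 '' C} + M', fun D hD => ?_, fun h => ?_, fun b => ?_⟩
    · rcases Multiset.mem_add.1 hD with h | h
      · rw [Multiset.mem_singleton.1 (Multiset.mem_of_mem_nsmul h)]
        exact X.isSub_incl hC
      · exact h1 D h
    · have := congrArg Multiset.card h
      simp only [Multiset.card_add, Multiset.card_nsmul, Multiset.card_singleton,
        Multiset.card_zero] at this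
      omega
    · rw [W.geo2S_cons, add_mul, map_add, h2, h3, map_add, map_nsmul, W.geo2S_singleton, add_mul,
        map_add, smul_mul_assoc, map_nsmul, nsmul_eq_mul]

lemma Weil.geoGen_ne (W : Weil.{u, v, w} k K) {X : Var k} (M : Multiset (Set X.pts))
    (hM : ∀ C ∈ M, IsSub C) (hne : M ≠ 0) : W.geo2S X M ≠ 0 := fun h0 => by
  obtain ⟨M', h1, h2, h3⟩ := W.geoGen_push M hM
  refine W.geoGen_amb ((amb k X.n).d + 1) M'
    (fun C hC => ⟨h1 C hC, Nat.lt_succ_of_le ((amb k X.n).dim_le C)⟩) (fun h => hne (h2 h))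
    (W.poincare _ _ fun b => ?_)
  rw [← h3, h0, zero_mul, map_zero]

theorem Weil.eff_ne_zero' (W : Weil.{u, v, w} k K) {X : Var k} (s : Finset (Set X.pts))
    (μ : Set X.pts → ℕ) (hs : ∀ C ∈ s, IsSub C) (hμ : ∀ C ∈ s, 0 < μ C) (hne : s.Nonempty) :
    ∑ C ∈ s, μ C • W.cl X C ≠ 0 := by
  obtain ⟨M, h1, h2⟩ := W.geo2_fin s μ hμ
  obtain ⟨C, hC⟩ := hne
  rw [← h2]
  refine W.geoGen_ne M (fun D hD => hs D ((h1 D).1 hD)) fun h3 => ?_
  have := (h1 C).2 hC
  rw [h3] at this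
  exact Multiset.notMem_zero _ this

theorem Weil.proper_dim' (W : Weil.{u, v, w} k K) {X : Var k} {Z Z' : Set X.pts} (hZ : IsSub Z)
    (hZ' : IsSub Z') (h : ∀ C, IsSub C → C ⊆ Z ∩ Z' → dim C + X.d ≤ dim Z + dim Z')
    {C : Set X.pts} (hC : IsComp C (Z ∩ Z')) : dim C + X.d = dim Z + dim Z' := by
  classical
  obtain ⟨s, μ, h3, h4, -, h5⟩ := W.proper _ Z Z' hZ hZ' h
  obtain ⟨M, h6, h7⟩ := W.geo2_fin s μ h4
  have hM : ∀ D ∈ M, IsSub D := fun D hD => ((h3 D).1 ((h6 D).1 hD)).1.1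
  have d1 := X.dim_le C
  have d2 := X.dim_le Z
  have d3 := X.dim_le Z'
  have h1 := W.geo2_proj M hM d1
  by_contra hne
  rw [h7, ← h5, GradedAlgebra.proj_apply, DirectSum.decompose_of_mem_ne _
    (SetLike.mul_mem_graded (W.cl_gr _ Z hZ) (W.cl_gr _ Z' hZ')) (by omega)] at h1
  refine W.geoGen_ne _ (fun D hD => hM D (Multiset.mem_filter.1 hD).1) (fun h2 => ?_) h1.symm
  have : C ∈ M.filter fun D => dim D = dim C :=
    Multiset.mem_filter.2 ⟨(h6 C).2 ((h3 C).2 hC), rfl⟩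
  rw [h2] at this
  exact Multiset.notMem_zero _ this

theorem Weil.dim_isProd (W : Weil.{u, v, w} k K) {P X Y : Var k} {p : Mor P X} {q : Mor P Y}
    (h : IsProd p q) {Z₁ : Set X.pts} {Z₂ : Set Y.pts} (h₁ : IsSub Z₁) (h₂ : IsSub Z₂) :
    dim (p.1 ⁻¹' Z₁ ∩ q.1 ⁻¹' Z₂) = dim Z₁ + dim Z₂ := by
  have hZ := h.isSub h₁ h₂
  have h1 := W.cl_gr _ _ hZ
  have h2 := SetLike.mul_mem_graded (W.pull_gr p _ _ (W.cl_gr _ _ h₁))
    (W.pull_gr q _ _ (W.cl_gr _ _ h₂))
  rw [← W.cl_prod _ _ h _ _ h₁ h₂] at h2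
  have h3 := W.geoGen_ne {p.1 ⁻¹' Z₁ ∩ q.1 ⁻¹' Z₂}
    (fun C hC => Multiset.mem_singleton.1 hC ▸ hZ) (Multiset.singleton_ne_zero _)
  rw [W.geo2S_singleton] at h3
  have d0 := W.d_prod h
  have d1 := X.dim_le Z₁
  have d2 := Y.dim_le Z₂
  have d3 := P.dim_le (p.1 ⁻¹' Z₁ ∩ q.1 ⁻¹' Z₂)
  by_contra hne
  exact h3 ((DirectSum.decompose_of_mem_same _ h1).symm.trans
    (DirectSum.decompose_of_mem_ne _ h2 (by omega)))

theorem Weil.dim_le_of_finite' (W : Weil.{u, v, w} k K) {q : ℕ} [IsQ k q] {ι : Type} [Fintype ι]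
    {τ : ι → Bool} {P T : Var k} {s : Mor P T} {m : Mor P (Yv k q τ)} (h : IsProd s m)
    (I : Finset ι) {Z U : Set P.pts} (hZ : IsSub Z) (hU : IsOpen U) (hne : (Z ∩ U).Nonempty)
    (hf : ∀ x : P.pts, {y ∈ Z ∩ U | ∀ i ∈ I, co (m.1 y) i = co (m.1 x) i}.Finite) :
    dim Z ≤ I.card := by
  classical
  induction I using Finset.induction_on generalizing Z with
  | empty =>
    obtain ⟨x, hx, hxU⟩ := hne
    rw [hZ.eq_singleton_of_finite hU (by simpa using hf x) hx hxU, dim_singleton]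
    exact Nat.zero_le _
  | insert i I hi ih =>
    obtain ⟨x, hx, hxU⟩ := hne
    have hs := isSub_co_const i (co_mem (m.1 x) i)
    have hH := h.isSub T.isSub_univ hs
    have hd := W.dim_isProd h T.isSub_univ hs
    rw [preimage_univ, univ_inter] at hH hd
    have hd' : dim (m.1 ⁻¹' {y | co y i = co (m.1 x) i}) + 1 = P.d := by
      rw [hd, add_assoc, W.dim_co_const i (co_mem (m.1 x) i), W.d_prod h, W.d_Yv, Var.d]
    have key : ∀ C, IsSub C → C ⊆ Z ∩ m.1 ⁻¹' {y | co y i = co (m.1 x) i} → x ∈ C →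
        dim C ≤ I.card := by
      intro C hC hsub hxC
      refine ih hC ⟨x, hxC, hxU⟩ fun x' => ?_
      rcases ({y ∈ C ∩ U | ∀ j ∈ I, co (m.1 y) j = co (m.1 x') j}).eq_empty_or_nonempty with
        h0 | ⟨y₀, hy₀⟩
      · rw [h0]; exact finite_empty
      · refine (hf y₀).subset fun y hy => ⟨⟨(hsub hy.1.1).1, hy.1.2⟩, fun j hj => ?_⟩
        rcases Finset.mem_insert.1 hj with rfl | hj
        · exact Eq.trans (hsub hy.1.1).2 (Eq.symm (hsub hy₀.1.1).2)
        · exact (hy.2 j hj).trans (hy₀.2 j hj).symm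
    rw [Finset.card_insert_of_notMem hi]
    by_cases h0 : Z ⊆ m.1 ⁻¹' {y | co y i = co (m.1 x) i}
    · exact (key Z hZ (subset_inter subset_rfl h0) hx).trans (Nat.le_succ _)
    · obtain ⟨C, hC, hxC⟩ := exists_isComp (S := Z ∩ m.1 ⁻¹' {y | co y i = co (m.1 x) i})
        (isSub_singleton x) (singleton_subset_iff.2 ⟨hx, rfl⟩)
      have h1 := W.proper_dim' hZ hH (fun D hD hDC => (geoGen_hyp hd' hZ h0 D hD hDC).2) hC
      have h2 := key C hC.1.1 hC.1.2 (hxC rfl)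
      omega

end Pool.Agent.MP_0c8446_ag

end

section

namespace Pool.Agent.MP_0c8446_ag

open Set Topology
open scoped LinearAlgebra.Projectivization

universe u v w

variable {k : Type u} [Field k] [IsAlgClosed k] {K : Type v} [Field K] [CharZero K]

omit [IsAlgClosed k] in
lemma geoGen2_pos {r : ℕ} {a b : ℙ k (Fin (r + 1) → k)} (h : a ≠ b) : 0 < r := by
  by_contra h0
  obtain rfl : r = 0 := by omega
  refine h ?_
  rw [← a.mk_rep, ← b.mk_rep]
  refine mk_eq_of_minor _ _ fun s t => ?_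
  rw [show s = t from Fin.ext (by omega)]

lemma geoGen2_preimage {X Y : Type u} [TopologicalSpace X] [TopologicalSpace Y] {f : X → Y}
    (hf : IsInducing f) {D : Set Y} (hD : IsSub D) (h : D ⊆ range f) : IsSub (f ⁻¹' D) := by
  refine ⟨⟨?_, ?_⟩, hD.2.preimage hf.continuous⟩
  · obtain ⟨y, hy⟩ := hD.1.1
    obtain ⟨x, rfl⟩ := h hy
    exact ⟨x, hy⟩
  · rintro u v hu hv ⟨a, ha, hau⟩ ⟨b, hb, hbv⟩
    obtain ⟨u', hu', rfl⟩ := hf.isOpen_iff.1 hu
    obtain ⟨v', hv', rfl⟩ := hf.isOpen_iff.1 hv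
    obtain ⟨y, hy, hyu, hyv⟩ := hD.1.2 u' v' hu' hv' ⟨_, ha, hau⟩ ⟨_, hb, hbv⟩
    obtain ⟨x, rfl⟩ := h hy
    exact ⟨x, hy, hyu, hyv⟩

lemma geoGen2_inducing (X : Var k) : IsInducing X.incl.1 :=
  IsInducing.of_comp X.incl.continuous continuous_subtype_val IsInducing.subtypeVal

theorem Weil.exists_hyp_section (W : Weil.{u, v, w} k K) {X : Var k} {Z : Set X.pts}
    (hZ : IsSub Z) {x : X.pts} (hx : x ∈ Z) (h0 : 0 < dim Z) :
    ∃ C, IsSub C ∧ x ∈ C ∧ C ⊆ Z ∧ dim C + 1 = dim Z := by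
  obtain ⟨y, hy, hyx⟩ : ∃ y ∈ Z, y ≠ x := by
    by_contra hne
    push Not at hne
    have := dim_mono (Z := Z) (Z' := {x}) hne
    rw [dim_singleton] at this
    omega
  obtain ⟨i, hi⟩ : ∃ i, y.1 i ≠ x.1 i := Function.ne_iff.1 fun e => hyx (Subtype.ext e)
  have hn := geoGen2_pos hi
  obtain ⟨c, hc, hxc, hyc⟩ := exists_hyp_through i hn x.1 (finite_singleton y.1)
    (by rintro _ rfl; exact hi)
  have hA := X.isSub_incl hZ
  have hH := isSub_hyp hc hn
  have hdH := dim_hyp hc hn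
  have hdA := X.dim_incl Z
  have hd := d_amb (k := k) X.n
  obtain ⟨D, hD, hxD⟩ := exists_isComp (S := X.incl.1 '' Z ∩ Subtype.val ⁻¹' hyp i c)
    (isSub_singleton (X.incl.1 x)) (singleton_subset_iff.2 ⟨mem_image_of_mem _ hx, hxc⟩)
  have h1 := W.proper_dim' hA hH (fun C hC hCs => by
    have := dim_lt hC hA ((hCs.trans inter_subset_left).ssubset_of_ne fun e =>
      hyc y.1 rfl (hCs (e ▸ mem_image_of_mem _ hy)).2)
    omega) hD
  have hr : D ⊆ range X.incl.1 := (hD.1.2.trans inter_subset_left).trans (image_subset_range _ _)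
  refine ⟨X.incl.1 ⁻¹' D, geoGen2_preimage (geoGen2_inducing X) hD.1.1 hr, hxD rfl,
    fun a ha => ?_, ?_⟩
  · obtain ⟨b, hb, e⟩ := (hD.1.2 ha).1
    have : b = a := Subtype.ext (congrArg (fun y : (amb k X.n).pts => y.1) e)
    exact this ▸ hb
  · have h2 := X.dim_incl (X.incl.1 ⁻¹' D)
    rw [image_preimage_eq_of_subset hr] at h2
    omega

theorem Weil.exists_sub_dominant (W : Weil.{u, v, w} k K) {T S : Var k} (f : Mor T S)
    {Z : Set T.pts} (hZ : IsClosed Z) {S' U : Set S.pts} (hS' : IsSub S') (hU : IsOpen U)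
    (hne : (S' ∩ U).Nonempty) (h : ∀ s ∈ S' ∩ U, ∃ z ∈ Z, f.1 z = s) :
    ∃ C, IsSub C ∧ C ⊆ Z ∧ closure (f.1 '' C) = S' ∧ dim S' ≤ dim C := by
  induction hd : dim S' generalizing S' Z U with
  | zero =>
    obtain ⟨s, hs⟩ := hne
    obtain ⟨z, hz, rfl⟩ := h s hs
    refine ⟨{z}, isSub_singleton z, singleton_subset_iff.2 hz, ?_, Nat.zero_le _⟩
    rw [image_singleton, closure_singleton, ← hS'.eq_singleton hd hs.1]
  | succ d ih =>
    have hZ₁ : IsClosed (Z ∩ f.1 ⁻¹' S') := hZ.inter (hS'.2.preimage f.continuous)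
    have hfin := finite_isComp hZ₁
    have hB : {D | IsComp D (Z ∩ f.1 ⁻¹' S') ∧ closure (f.1 '' D) ≠ S'}.Finite :=
      hfin.subset fun _ hD => hD.1
    have hG : {D | IsComp D (Z ∩ f.1 ⁻¹' S') ∧ closure (f.1 '' D) = S'}.Finite :=
      hfin.subset fun _ hD => hD.1
    have hBc := hB.isClosed_biUnion (f := fun D => closure (f.1 '' D)) fun _ _ => isClosed_closure
    have hGc := hG.isClosed_biUnion (f := fun D => D) fun _ hD => hD.1.1.1.2
    obtain ⟨x, hx, hxU⟩ : (S' ∩ (U \ ⋃ D ∈ {D | IsComp D (Z ∩ f.1 ⁻¹' S') ∧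
        closure (f.1 '' D) ≠ S'}, closure (f.1 '' D))).Nonempty := by
      refine hS'.1.2 U _ hU hBc.isOpen_compl hne (inter_compl_nonempty_iff.2 fun hsub => ?_)
      obtain ⟨D, hD, hSD⟩ := hS'.subset_of_finite hB (F := fun D => closure (f.1 '' D))
        (fun _ _ => isClosed_closure) hsub
      exact hD.2 (Subset.antisymm (closure_minimal
        (image_subset_iff.2 (hD.1.1.2.trans inter_subset_right)) hS'.2) hSD)
    obtain ⟨S'', h1, h2, h3, h4⟩ := W.exists_hyp_section hS' hx (by omega)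
    obtain ⟨C, hC, hCZ, hCS, hCd⟩ := ih hGc h1 (hU.sdiff hBc) ⟨x, h2, hxU⟩ (fun s hs => by
      obtain ⟨z, hz, rfl⟩ := h s ⟨h3 hs.1, hs.2.1⟩
      obtain ⟨D, hD, hzD⟩ := exists_isComp (S := Z ∩ f.1 ⁻¹' S') (isSub_singleton z)
        (singleton_subset_iff.2 ⟨hz, h3 hs.1⟩)
      refine ⟨z, mem_biUnion (x := D) ⟨hD, ?_⟩ (hzD rfl), rfl⟩
      by_contra hn
      exact hs.2.2 (mem_biUnion (x := D) ⟨hD, hn⟩ (subset_closure (mem_image_of_mem _ (hzD rfl)))))
      (by omega)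
    obtain ⟨D, hD, hCD⟩ := hC.subset_of_finite hG (F := fun D => D) (fun _ hD => hD.1.1.1.2) hCZ
    refine ⟨D, hD.1.1.1, hD.1.1.2.trans inter_subset_left, hD.2, ?_⟩
    have := dim_lt hC hD.1.1.1 (hCD.ssubset_of_ne fun e => by
      have h5 : S'' = S' := by rw [← hCS, e, hD.2]
      rw [h5] at h4
      omega)
    omega

end Pool.Agent.MP_0c8446_ag

end

section

namespace Pool.Agent.MP_0c8446_ag

open Set

universe u v w

variable {k : Type u} [Field k] [IsAlgClosed k] {K : Type v} [Field K] [CharZero K]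

lemma dom_dim_of_finite {X : Type u} [TopologicalSpace X] [T1Space X] {C : Set X} (hC : IsSub C)
    (hf : C.Finite) : dim C = 0 := by
  obtain ⟨x, hx⟩ := hC.1.1
  rw [hC.eq_singleton_of_finite isOpen_univ (by rwa [inter_univ]) hx (mem_univ x), dim_singleton]

/-- A subvariety of dimension at least `dim X` with a nonempty finite fibre has dimension
`dim X`. -/
lemma Weil.dom_dim (W : Weil.{u, v, w} k K) {X Y : Var k} (φ : Mor Y X) {D : Set Y.pts}
    (hD : IsSub D) (hd : X.d ≤ dim D) {z : Y.pts} (hz : z ∈ D)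
    (hf : (D ∩ φ.1 ⁻¹' {φ.1 z}).Finite) : dim D = X.d := by
  obtain ⟨P, p, q, h⟩ := exists_prod Y X
  have hr : Retr (h.lift (Mor.id Y) φ).1 p.1 := Mor.retr _ p fun y => by simp
  have hΓ := hr.isSub hD
  have hΓd := hr.dim_image D
  have hF := h.isSub Y.isSub_univ (isSub_singleton (φ.1 z))
  have hFd := W.dim_isProd h Y.isSub_univ (isSub_singleton (φ.1 z))
  rw [dim_singleton] at hFd
  have hP := W.d_prod h
  have hfin : ((h.lift (Mor.id Y) φ).1 '' D ∩ (p.1 ⁻¹' univ ∩ q.1 ⁻¹' {φ.1 z})).Finite := by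
    refine (hf.image (h.lift (Mor.id Y) φ).1).subset ?_
    rintro _ ⟨⟨y, hy, rfl⟩, -, h2⟩
    refine ⟨y, ⟨hy, ?_⟩, rfl⟩
    simpa using h2
  have hYd : dim (univ : Set Y.pts) = Y.d := rfl
  obtain ⟨C, hC, -⟩ := exists_isComp (isSub_singleton ((h.lift (Mor.id Y) φ).1 z))
    (S := (h.lift (Mor.id Y) φ).1 '' D ∩ (p.1 ⁻¹' univ ∩ q.1 ⁻¹' {φ.1 z}))
    (singleton_subset_iff.2 ⟨⟨z, hz, rfl⟩, mem_univ _, by simp⟩)
  have key := W.proper_dim' hΓ hF (fun C hC hs => by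
    rw [dom_dim_of_finite hC (hfin.subset hs)]
    omega) hC
  rw [dom_dim_of_finite hC.1.1 (hfin.subset hC.1.2)] at key
  omega

theorem Weil.exists_sub_dense (W : Weil.{u, v, w} k K) {X Y : Var k} (φ : Mor Y X)
    (h : Function.Surjective φ.1) : ∃ Z, IsSub Z ∧ dim Z = X.d ∧ Dense (φ.1 '' Z) := by
  obtain ⟨Z, ⟨U, hU, hne, hUZ⟩, hmin⟩ :=
    (wellFounded_lt (α := TopologicalSpace.Closeds Y.pts)).has_min
      {Z : TopologicalSpace.Closeds Y.pts | ∃ U, IsOpen U ∧ U.Nonempty ∧ U ⊆ φ.1 '' (Z : Set Y.pts)}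
      ⟨⊤, univ, isOpen_univ, univ_nonempty, fun x _ => by
        obtain ⟨y, hy⟩ := h x
        exact ⟨y, trivial, hy⟩⟩
  have hZ : IsClosed (Z : Set Y.pts) := Z.isClosed
  obtain ⟨C, hC, hCZ, hCd, hCdim⟩ := W.exists_sub_dominant φ hZ X.isSub_univ hU
    (by rwa [univ_inter]) fun s hs => hUZ hs.2
  obtain ⟨D₀, hD₀, hCD⟩ := exists_isComp hC hCZ
  set B : Set (Set Y.pts) :=
    {D | IsComp D (Z : Set Y.pts) ∧ ¬ (X.d ≤ dim D ∧ Dense (φ.1 '' D))} with hB
  have hBf : B.Finite := (finite_isComp hZ).subset fun D hD => hD.1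
  have good₀ : X.d ≤ dim D₀ ∧ Dense (φ.1 '' D₀) :=
    ⟨le_trans hCdim (dim_mono hCD),
      (dense_iff_closure_eq.2 hCd).mono (image_mono hCD)⟩
  obtain ⟨y, hy, hyB⟩ : ∃ y ∈ D₀, y ∉ ⋃ D ∈ B, D := by
    by_contra hcon
    push Not at hcon
    obtain ⟨D, hD, hsub⟩ := hD₀.1.1.subset_of_finite hBf (F := fun D => D)
      (fun D hD => hD.1.1.1.2) hcon
    have : D = D₀ := (hD₀.2 hD.1.1 hsub).antisymm hsub
    exact hD.2 (this ▸ good₀)
  choose c hc using fun i => exists_hyp_avoid (k := k) (n := Y.n) i (finite_singleton y.1)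
  have hHy : IsClosed (⋃ i, (Subtype.val ⁻¹' hyp i (c i) : Set Y.pts)) :=
    isClosed_iUnion_of_finite fun i => (isClosed_hyp i (c i)).preimage continuous_subtype_val
  have hZ' : IsClosed (((Z : Set Y.pts) ∩ ⋃ i, (Subtype.val ⁻¹' hyp i (c i) : Set Y.pts)) ∪
      ⋃ D ∈ B, D) :=
    (hZ.inter hHy).union (hBf.isClosed_biUnion fun D hD => hD.1.1.1.2)
  have hlt : (⟨_, hZ'⟩ : TopologicalSpace.Closeds Y.pts) < Z := by
    refine lt_of_le_of_ne ?_ fun e => ?_
    · rintro z (hz | hz)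
      · exact hz.1
      · obtain ⟨D, hD, hzD⟩ := mem_iUnion₂.1 hz
        exact hD.1.1.2 hzD
    · have hyZ : y ∈ (Z : Set Y.pts) := hD₀.1.2 hy
      rw [← e] at hyZ
      rcases hyZ with hz | hz
      · obtain ⟨i, hi⟩ := mem_iUnion.1 hz.2
        exact hc i y.1 rfl hi
      · exact hyB hz
  obtain ⟨x, hxU, hx⟩ : ∃ x ∈ U, x ∉ φ.1 '' (((Z : Set Y.pts) ∩
      ⋃ i, (Subtype.val ⁻¹' hyp i (c i) : Set Y.pts)) ∪ ⋃ D ∈ B, D) := by
    by_contra hcon
    push Not at hcon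
    exact hmin ⟨_, hZ'⟩ ⟨U, hU, hne, hcon⟩ hlt
  obtain ⟨z, hz, rfl⟩ := hUZ hxU
  obtain ⟨D, hD, hzD⟩ := exists_isComp (isSub_singleton z) (singleton_subset_iff.2 hz)
  have hzD' : z ∈ D := hzD rfl
  have good : X.d ≤ dim D ∧ Dense (φ.1 '' D) := by
    by_contra hcon
    exact hx ⟨z, Or.inr (mem_iUnion₂.2 ⟨D, ⟨hD, hcon⟩, hzD'⟩), rfl⟩
  refine ⟨D, hD.1.1, W.dom_dim φ hD.1.1 good.1 hzD' ?_, good.2⟩
  have hcl : IsClosed (D ∩ φ.1 ⁻¹' {φ.1 z}) :=
    hD.1.1.2.inter (isClosed_singleton.preimage φ.continuous)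
  refine Finite.of_finite_image (f := Subtype.val) ?_ Subtype.val_injective.injOn
  refine finite_of_disjoint (Y.sub.2.isClosedEmbedding_subtypeVal.isClosedMap _ hcl) c ?_
  rintro _ ⟨a, ⟨ha, ha'⟩, rfl⟩ i hi
  exact hx ⟨a, Or.inl ⟨hD.1.2 ha, mem_iUnion.2 ⟨i, hi⟩⟩, ha'⟩

end Pool.Agent.MP_0c8446_ag

end

section

namespace Pool.Agent.MP_0c8446_ag

open Set

universe u v w

variable {k : Type u} [Field k] [IsAlgClosed k] {K : Type v} [Field K] [CharZero K]

variable (W : Weil.{u, v, w} k K) {q : ℕ} [IsQ k q]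

omit [IsAlgClosed k] [CharZero K] in
lemma Weil.genB_proj {X : Var k} (φ : W.H X →ₗ[K] K) (i : ℕ)
    (h : ∀ l, l ≠ i → ∀ x ∈ W.gr X l, φ x = 0) (a : W.H X) :
    φ (DirectSum.decompose (W.gr X) a i) = φ a := by
  induction a using DirectSum.Decomposition.inductionOn (W.gr X) with
  | zero => simp
  | add b c hb hc => simp only [DirectSum.decompose_add, DirectSum.add_apply, Submodule.coe_add,
      map_add, hb, hc]
  | @homogeneous l b =>
    by_cases hl : l = i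
    · subst hl
      rw [DirectSum.decompose_of_mem_same _ b.2]
    · rw [DirectSum.decompose_of_mem_ne _ b.2 hl, map_zero, h l hl b b.2]

omit [IsAlgClosed k] [CharZero K] in
lemma Weil.genB_pull_dec {X Y : Var k} (f : Mor X Y) (a : W.H Y) (i : ℕ) :
    W.pull f (DirectSum.decompose (W.gr Y) a i) =
      DirectSum.decompose (W.gr X) (W.pull f a) i := by
  induction a using DirectSum.Decomposition.inductionOn (W.gr Y) with
  | zero => simp
  | add b c hb hc => simp only [DirectSum.decompose_add, DirectSum.add_apply, Submodule.coe_add,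
      map_add, hb, hc]
  | @homogeneous l b =>
    by_cases hl : l = i
    · subst hl
      rw [DirectSum.decompose_of_mem_same _ b.2,
        DirectSum.decompose_of_mem_same _ (W.pull_gr f _ _ b.2)]
    · rw [DirectSum.decompose_of_mem_ne _ b.2 hl,
        DirectSum.decompose_of_mem_ne _ (W.pull_gr f _ _ b.2) hl, map_zero]

omit [CharZero K] in
lemma Weil.genB_swap {X : Var k} {z β : W.H X} (hz : z ∈ W.Alg X) {j : ℕ} (hβ : β ∈ W.gr X j)
    (ξ : W.H X) : W.tr X (z * (β * ξ)) = (-1) ^ j * W.tr X (z * (ξ * β)) := by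
  induction hz using Submodule.span_induction with
  | zero => simp
  | add x y _ _ hx hy => simp only [add_mul, map_add, hx, hy, mul_add]
  | smul c x _ hx => simp only [smul_mul_assoc, map_smul, hx, smul_eq_mul, mul_left_comm]
  | mem x hx =>
    obtain ⟨Z, hZ, rfl⟩ := hx
    induction ξ using DirectSum.Decomposition.inductionOn (W.gr X) with
    | zero => simp
    | add b c hb hc => simp only [add_mul, map_add, hb, hc, mul_add]
    | @homogeneous l ξ =>
      by_cases hl : j + l = 2 * dim Z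
      · rw [W.comm X j l β hβ ξ ξ.2]
        rcases Nat.even_or_odd j with hj | hj
        · rw [hj.neg_one_pow, (hj.mul_right l).neg_one_pow, one_mul, one_mul]
        · have hl' : Odd l := by
            obtain ⟨t, ht⟩ := hj
            exact ⟨dim Z - t - 1, by omega⟩
          rw [hj.neg_one_pow, (hj.mul hl').neg_one_pow]
          simp
      · rw [W.tr_cl_mul_gr hZ (SetLike.mul_mem_graded hβ ξ.2) hl,
          W.tr_cl_mul_gr hZ (SetLike.mul_mem_graded ξ.2 hβ) (by omega), mul_zero]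

theorem Weil.exists_push {X Y : Var k} (f : Mor X Y) {a : W.H X} (ha : a ∈ W.Alg X) :
    ∃ a' ∈ W.Alg Y, ∀ b, W.tr X (a * W.pull f b) = W.tr Y (a' * b) := by
  induction ha using Submodule.span_induction with
  | zero => exact ⟨0, zero_mem _, fun b => by simp⟩
  | add x y _ _ hx hy =>
    obtain ⟨x', hx', h1⟩ := hx
    obtain ⟨y', hy', h2⟩ := hy
    exact ⟨x' + y', add_mem hx' hy', fun b => by simp only [add_mul, map_add, h1, h2]⟩
  | smul c x _ hx =>
    obtain ⟨x', hx', h1⟩ := hx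
    exact ⟨c • x', Submodule.smul_mem _ _ hx', fun b => by
      simp only [smul_mul_assoc, map_smul, h1]⟩
  | mem x hx =>
    obtain ⟨Z, hZ, rfl⟩ := hx
    obtain ⟨r, -, h1⟩ := W.push f Z hZ
    exact ⟨(r : K) • W.cl Y (closure (f.1 '' Z)),
      Submodule.smul_mem _ _ (W.cl_mem_Alg (hZ.image_closure f.continuous)), fun b => by
        rw [h1, smul_mul_assoc, map_smul, smul_eq_mul]⟩

theorem Weil.pull_mem_Ann {X Y : Var k} (f : Mor Y X) {a : W.H X} (ha : a ∈ W.Ann q X) :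
    W.pull f a ∈ W.Ann q Y := by
  intro ι _ τ P' p' r' _ z hz b
  obtain ⟨P, p, r, h⟩ := exists_prod X (Yv k q τ)
  obtain ⟨z', hz', h1⟩ := W.exists_push (h.lift (f.comp p') r') hz
  have h2 := h1 (W.pull p a * W.pull r b)
  rw [ha ι τ P p r h z' hz' b, map_mul (W.pull _), W.pull_pull, W.pull_pull,
    W.pull_congr (g := f.comp p') (fun x => by simp) a, W.pull_congr (g := r') (fun x => by simp) b,
    ← W.pull_pull] at h2
  exact h2

theorem Weil.decompose_mem_Ann {X : Var k} {a : W.H X} (ha : a ∈ W.Ann q X) (i : ℕ) :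
    (DirectSum.decompose (W.gr X) a i : W.H X) ∈ W.Ann q X := by
  intro ι _ τ P p r h z hz b
  by_contra hne
  obtain ⟨Z, hZ, h1⟩ := W.exists_cl_of_Alg hz hne
  refine h1 ?_
  clear h1 hne
  induction b using DirectSum.Decomposition.inductionOn (W.gr _) with
  | zero => simp
  | add b c hb hc => simp only [map_add, mul_add, hb, hc, add_zero]
  | @homogeneous j b =>
    have h2 : ∀ l, l + j ≠ 2 * dim Z → ∀ x ∈ W.gr X l,
        W.tr P (W.cl P Z * (W.pull p x * W.pull r b)) = 0 := fun l hl x hx =>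
      W.tr_cl_mul_gr hZ (SetLike.mul_mem_graded (W.pull_gr p _ _ hx) (W.pull_gr r _ _ b.2)) hl
    by_cases hi : i + j = 2 * dim Z
    · exact (W.genB_proj (W.tr P ∘ₗ LinearMap.mulLeft K (W.cl P Z) ∘ₗ
        LinearMap.mulRight K (W.pull r b) ∘ₗ (W.pull p).toLinearMap) i
        (fun l hl x hx => h2 l (by omega) x hx) a).trans (ha ι τ P p r h _ (W.cl_mem_Alg hZ) b)
    · exact h2 i hi _ (DirectSum.decompose (W.gr X) a i).2

theorem Weil.gen_Yv {ι : Type} [Fintype ι] (τ : ι → Bool) : W.Gen q (Yv k q τ) := by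
  intro a ha
  refine W.poincare _ a fun b => ?_
  have hr : ∀ x, (pL τ τ).1 ((pair (Mor.id (Yv k q τ)) (Mor.id _)).1 x) = x := fun _ => rfl
  have hs := (Mor.retr _ _ hr).isSub (Yv k q τ).isSub_univ
  rw [image_univ] at hs
  have h1 := W.tr_pull_retr _ _ hr (W.pull (pL τ τ) a * W.pull (pR τ τ) b)
  rw [ha ι τ _ _ _ (isProd_sum τ τ) _ (W.cl_mem_Alg hs) b, map_mul (W.pull _), W.pull_pull,
    W.pull_pull, W.pull_id _ rfl, W.pull_id _ rfl] at h1
  exact h1

theorem Weil.gen_image {X Y : Var k} (φ : Mor Y X) (h : Function.Surjective φ.1) (hY : W.Gen q Y) :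
    W.Gen q X := by
  intro a ha
  obtain ⟨Z, hZ, hd, hD⟩ := W.exists_sub_dense φ h
  exact W.pull_injective φ hZ hd hD ((hY _ (W.pull_mem_Ann φ ha)).trans (map_zero _).symm)

lemma Weil.genB_key {P X Y : Var k} {a : Mor P X} {b : Mor P Y} (h : IsProd a b) {J : Type}
    [Fintype J] (x : J → W.H X) (e : J → W.H Y)
    (hc : ∑ i, W.pull a (x i) * W.pull b (e i) ∈ W.Ann q P)
    {ι : Type} [Fintype ι] {τ : ι → Bool} {P₁ : Var k} {p₁ : Mor P₁ X} {r₁ : Mor P₁ (Yv k q τ)}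
    (h₁ : IsProd p₁ r₁) {z₁ : W.H P₁} (hz₁ : z₁ ∈ W.Alg P₁) {j : ℕ} {b₁ : W.H (Yv k q τ)}
    (hb₁ : b₁ ∈ W.gr _ j) :
    ∑ i, W.tr P₁ (z₁ * (W.pull r₁ b₁ * W.pull p₁ (x i))) • e i ∈ W.Ann q Y := by
  intro ι' _ τ' P₂ p₂ r₂ h₂ z₂ hz₂ b₂
  obtain ⟨Q, π, R, hQ⟩ := exists_prod P (Yv k q (Sum.elim τ τ'))
  set u := h₁.lift (a.comp π) ((pL τ τ').comp R) with hu
  set v := h₂.lift (b.comp π) ((pR τ τ').comp R) with hv
  have huv : IsProd u v := by
    refine isProd_of (fun T f g => ⟨hQ.lift (h.lift (p₁.comp f) (p₂.comp g))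
      (pair (r₁.comp f) (r₂.comp g)), fun y => h₁.ext ?_ ?_, fun y => h₂.ext ?_ ?_⟩)
      fun y y' e₁ e₂ => hQ.ext (h.ext ?_ ?_) (sum_ext ?_ ?_)
    · simp [hu]
    · simp [hu]
    · simp [hv]
    · simp [hv]
    · simpa [hu] using congrArg p₁.1 e₁
    · simpa [hv] using congrArg p₂.1 e₂
    · simpa [hu] using congrArg r₁.1 e₁
    · simpa [hv] using congrArg r₂.1 e₂
  have e₁ : ∀ y, W.pull π (W.pull a y) = W.pull u (W.pull p₁ y) := fun y => by
    rw [W.pull_pull, W.pull_pull]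
    exact W.pull_congr (fun _ => by simp [hu]) y
  have e₂ : ∀ y, W.pull π (W.pull b y) = W.pull v (W.pull p₂ y) := fun y => by
    rw [W.pull_pull, W.pull_pull]
    exact W.pull_congr (fun _ => by simp [hv]) y
  have e₃ : ∀ y, W.pull R (W.pull (pL τ τ') y) = W.pull u (W.pull r₁ y) := fun y => by
    rw [W.pull_pull, W.pull_pull]
    exact W.pull_congr (fun _ => by simp [hu]) y
  have e₄ : ∀ y, W.pull R (W.pull (pR τ τ') y) = W.pull v (W.pull r₂ y) := fun y => by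
    rw [W.pull_pull, W.pull_pull]
    exact W.pull_congr (fun _ => by simp [hv]) y
  have hz := W.mul_mem_Alg (W.pull_mem_Alg u hz₁) (W.pull_mem_Alg v hz₂)
  have h1 := hc _ _ Q π R hQ _ hz (W.pull (pR τ τ') b₂ * W.pull (pL τ τ') b₁)
  rw [map_mul (W.pull R), ← mul_assoc (W.pull π _), e₃, e₄] at h1
  have h2 := W.genB_swap hz (W.pull_gr u _ _ (W.pull_gr r₁ _ _ hb₁))
    (W.pull π (∑ i, W.pull a (x i) * W.pull b (e i)) * W.pull v (W.pull r₂ b₂))
  rw [h1, mul_zero] at h2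
  rw [← h2]
  simp only [map_sum, map_smul, Finset.sum_mul, Finset.mul_sum, smul_mul_assoc, mul_smul_comm,
    smul_eq_mul]
  refine Finset.sum_congr rfl fun i _ => ?_
  rw [← W.tr_prod huv]
  congr 1
  simp only [map_mul, e₁, e₂, mul_assoc]
  congr 1
  rw [← mul_assoc, ← mul_assoc, ← W.Alg_comm (W.pull_mem_Alg v hz₂)]
  simp only [mul_assoc]

theorem Weil.gen_prod {P X Y : Var k} {a : Mor P X} {b : Mor P Y} (h : IsProd a b)
    (hX : W.Gen q X) (hY : W.Gen q Y) : W.Gen q P := by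
  intro c hc
  let e := Module.finBasis K (W.H Y)
  let L : (Fin (Module.finrank K (W.H Y)) → W.H X) →ₗ[K] W.H P :=
    ∑ i, LinearMap.mulRight K (W.pull b (e i)) ∘ₗ (W.pull a).toLinearMap ∘ₗ LinearMap.proj i
  have hL : ∀ x, L x = ∑ i, W.pull a (x i) * W.pull b (e i) := fun x => by
    simp [L]
  have h1 := W.prod_span h (LinearMap.range L) fun x y => ⟨fun i => e.repr y i • x, by
    conv_rhs => rw [← e.sum_repr y]
    simp only [hL, map_sum, map_smul, Finset.mul_sum, smul_mul_assoc, mul_smul_comm]⟩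
  obtain ⟨x, rfl⟩ : c ∈ LinearMap.range L := h1 ▸ Submodule.mem_top
  rw [hL] at hc ⊢
  refine Finset.sum_eq_zero fun i _ => ?_
  rw [hX (x i) ?_, map_zero, zero_mul]
  intro ι _ τ P₁ p₁ r₁ h₁ z₁ hz₁ b₁
  induction b₁ using DirectSum.Decomposition.inductionOn (W.gr _) with
  | zero => simp
  | add b c hb hc => simp only [map_add, mul_add, hb, hc, add_zero]
  | @homogeneous j b₁ =>
    have h2 := Fintype.linearIndependent_iff.1 e.linearIndependent _
      (hY _ (W.genB_key h x e hc h₁ hz₁ b₁.2)) i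
    rw [W.genB_swap hz₁ (W.pull_gr r₁ _ _ b₁.2)] at h2
    exact (mul_eq_zero.1 h2).resolve_left (pow_ne_zero _ (neg_ne_zero.2 one_ne_zero))

theorem Weil.eq_zero_of_gen {X : Var k} (hX : W.Gen q X)
    (hD : ∀ (ι : Type) [Fintype ι] (τ : ι → Bool), ∀ a ∈ W.Alg (Yv k q τ),
      (∀ z ∈ W.Alg _, W.tr _ (a * z) = 0) → a = 0)
    {a : W.H X} (ha : a ∈ W.Alg X) (h : ∀ z ∈ W.Alg X, W.tr X (a * z) = 0) : a = 0 := by
  refine hX a fun ι _ τ P p r _ z hz b => ?_
  obtain ⟨a', ha', h1⟩ := W.exists_push r (W.mul_mem_Alg hz (W.pull_mem_Alg p ha))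
  rw [← mul_assoc, h1, hD ι τ a' ha' fun z' hz' => ?_, zero_mul, map_zero]
  obtain ⟨a'', ha'', h2⟩ := W.exists_push p (W.mul_mem_Alg hz (W.pull_mem_Alg r hz'))
  rw [← h1, mul_assoc, ← W.Alg_comm (W.pull_mem_Alg r hz'), ← mul_assoc, h2, W.Alg_comm ha'',
    h a'' ha'']

theorem Weil.gen_of_eig [IsAlgClosed K] {X : Var k} {G : Type*} [CommGroup G] [Finite G]
    (g : G → Mor X X) (h1 : ∀ x, (g 1).1 x = x) (hm : ∀ s t x, (g (s * t)).1 x = (g s).1 ((g t).1 x))
    (h : ∀ (χ : G →* Kˣ) (i j : ℕ), ∀ a ∈ W.gr X i, ∀ a' ∈ W.gr X j,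
      (∀ s, W.pull (g s) a = (χ s : K) • a) → (∀ s, W.pull (g s) a' = (χ⁻¹ s : K) • a') →
      W.tr X (a * a') ≠ 0 → a ∉ W.Ann q X) : W.Gen q X := by
  classical
  let T : G →* Module.End K (W.H X) :=
    { toFun := fun s => (W.pull (g s)).toLinearMap
      map_one' := LinearMap.ext fun a => W.pull_id _ (funext h1) a
      map_mul' := fun s t => LinearMap.ext fun a =>
        W.pull_comp (g s) (g t) _ (funext fun x => by rw [mul_comm]; exact hm t s x) a }
  have hdec : ∀ (χ : G →* Kˣ), ∀ a ∈ Eig T χ, ∀ i s,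
      W.pull (g s) (DirectSum.decompose (W.gr X) a i) =
        (χ s : K) • (DirectSum.decompose (W.gr X) a i : W.H X) := by
    intro χ a ha i s
    have h2 : W.pull (g s) a = (χ s : K) • a := ha s
    rw [W.genB_pull_dec, h2, DirectSum.decompose_smul]
    rfl
  have key : ∀ (χ : G →* Kˣ), ∀ a ∈ Eig T χ, a ∈ W.Ann q X → a = 0 := by
    intro χ a ha ha'
    rw [← DirectSum.sum_support_decompose (W.gr X) a]
    refine Finset.sum_eq_zero fun i _ => W.poincare X _ fun b => ?_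
    have hb : b ∈ ⨆ ψ, Eig T ψ := iSup_eig T ▸ Submodule.mem_top
    induction hb using Submodule.iSup_induction' with
    | zero => simp
    | add b c _ _ hb hc => rw [mul_add, map_add, hb, hc, add_zero]
    | mem ψ b hb =>
      rw [← DirectSum.sum_support_decompose (W.gr X) b, Finset.mul_sum, map_sum]
      refine Finset.sum_eq_zero fun j _ => ?_
      by_contra hne
      refine h χ i j _ (DirectSum.decompose (W.gr X) a i).2 _ (DirectSum.decompose (W.gr X) b j).2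
        (hdec χ a ha i) (fun s => ?_) hne (W.decompose_mem_Ann ha' i)
      have h2 := W.tr_pull_aut (g s) (g s⁻¹) (fun x => by rw [← hm, inv_mul_cancel, h1])
        (fun x => by rw [← hm, mul_inv_cancel, h1])
        ((DirectSum.decompose (W.gr X) a i : W.H X) * DirectSum.decompose (W.gr X) b j)
      rw [map_mul (W.pull _), hdec χ a ha, hdec ψ b hb, smul_mul_smul_comm, map_smul,
        smul_eq_mul] at h2
      have h3 : (χ s : K) * ψ s = 1 := mul_right_cancel₀ hne (h2.trans (one_mul _).symm)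
      rw [hdec ψ b hb, MonoidHom.inv_apply, Units.val_inv_eq_inv_val, eq_inv_of_mul_eq_one_right h3]
  intro a ha
  obtain ⟨f, hf, rfl⟩ := (Submodule.mem_iSup_iff_exists_finsupp _ a).1
    (iSup_eig T ▸ Submodule.mem_top : a ∈ ⨆ ψ, Eig T ψ)
  refine Finset.sum_eq_zero fun χ hχ => key χ _ (hf χ) ?_
  exact mem_of_sum_mem (W.Ann q X) (fun s => T s) (fun s a ha => W.pull_mem_Ann (g s) ha)
    (fun (χ : G →* Kˣ) s => (χ s : K))
    (fun χ ψ e => MonoidHom.ext fun s => Units.ext (congrFun e s)) f.support f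
    (fun χ _ s => hf χ s) ha χ hχ

end Pool.Agent.MP_0c8446_ag

end
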