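import Pool.Agent.MP_0c8446_ag.GI.Defs
import Pool.Agent.Mg.F0c8446.G16b606
import Pool.Agent.Mg.F0c8446.Gad5052
import Pool.Agent.Mg.F0c8446.G3719a6

section

namespace Pool.Agent.MP_0c8446_ag

open Set Polynomial
open scoped TensorProduct

universe u v w x

/-- The list `l` enumerates the type. -/
def Cpl {ι : Type} (l : List ι) : Prop := l.Nodup ∧ ∀ j, j ∈ l

variable {k : Type u} [Field k] {K : Type v} [Field K]

section

variable {W : Weil.{u, v, w} k K} {G : Type x} [Group G] [MulSemiringAction G k] (ρ : W.Gal G)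

theorem Weil.Gal.act_gr (X : Var k) (σ : G) (i : ℕ) :
    ∀ a ∈ W.gr X i, ρ.act X σ a ∈ W.gr X i := (ρ.compat σ).1 X i

theorem Weil.Gal.act_pull {X Y : Var k} (f : Mor X Y) (hX : X.Over G) (hY : Y.Over G)
    (hf : f.Over G) (σ : G) (a : W.H Y) : ρ.act X σ (W.pull f a) = W.pull f (ρ.act Y σ a) :=
  (ρ.compat σ).2.1 X Y f hX hY hf a

theorem Weil.Gal.act_cl (X : Var k) (hX : X.Over G) (σ : G) (Z : Set X.pts) (hZ : IsSub Z) :
    ρ.act X σ (W.cl X Z) =
      (ρ.χ σ : K) ^ (X.d - dim Z) • W.cl X {y | ∃ x ∈ Z, Conj σ x.1 y.1} :=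
  (ρ.compat σ).2.2 X hX Z hZ

end

namespace Weil

variable (W : Weil.{u, v, w} k K)

/-- The inverse of the Künneth isomorphism. -/
noncomputable def kun {P X Y : Var k} {p : Mor P X} {q : Mor P Y} (h : IsProd p q) :
    (W.H X ⊗[K] W.H Y) ≃ₗ[K] W.H P :=
  LinearEquiv.ofBijective _ (W.kunneth p q h)

/-- Integration along the fibres of the first projection. -/
noncomputable def fib {P X Y : Var k} {p : Mor P X} {q : Mor P Y} (h : IsProd p q) :
    W.H P →ₗ[K] W.H X :=
  (TensorProduct.rid K (W.H X)).toLinearMap ∘ₗ (W.tr Y).lTensor (W.H X) ∘ₗ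
    (W.kun h).symm.toLinearMap

theorem fib_tmul {P X Y : Var k} {p : Mor P X} {q : Mor P Y} (h : IsProd p q) (a : W.H X)
    (b : W.H Y) : W.fib h (W.pull p a * W.pull q b) = W.tr Y b • a := by
  have : (W.kun h).symm (W.pull p a * W.pull q b) = a ⊗ₜ b :=
    (LinearEquiv.symm_apply_eq _).2 rfl
  simp [fib, this]

/-- The span of the exterior products of elements of `V`. -/
def sq {P A : Var k} (p q : Mor P A) (V : Submodule K (W.H A)) : Submodule K (W.H P) :=
  Submodule.span K {c | ∃ a ∈ V, ∃ b ∈ V, c = W.pull p a * W.pull q b}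

/-- On `V` the operator `Φ` is induced by an algebraic correspondence. -/
def Corr {A : Var k} (V : Submodule K (W.H A)) (Φ : Module.End K (W.H A)) : Prop :=
  ∃ (P : Var k) (p q : Mor P A), IsProd p q ∧ ∃ c ∈ W.Alg P, ∀ a ∈ V, ∀ b,
    W.tr A (b * Φ a) = W.tr P (c * (W.pull p b * W.pull q a))

/-- The cohomology of `Y` is spanned by algebraic multiples of products of pull-backs of `V`. -/
def Sp {A : Var k} (V : Submodule K (W.H A)) (Y : Var k) : Prop :=
  ∀ a : W.H Y, a ∈ Submodule.span K {b | ∃ z ∈ W.Alg Y, ∃ l : List (Mor Y A × W.H A),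
    (∀ x ∈ l, x.2 ∈ V) ∧ b = z * (l.map fun x => W.pull x.1 x.2).prod}

/-- An algebraic class `β` in `V ⊗ V` is inverse to the pairing `tr (z a b)` on `V`. -/
def Inv2 {A : Var k} (V : Submodule K (W.H A)) (z : W.H A) : Prop :=
  ∃ (P : Var k) (p q : Mor P A), IsProd p q ∧ ∃ β ∈ W.Alg P, β ∈ W.sq p q V ∧ ∃ c : K, c ≠ 0 ∧
    ∀ a ∈ V, ∀ b, W.tr P (W.pull q b * (W.pull p (z * a) * β)) = c * W.tr A (b * a)

/-- The geometric input. -/
structure GenD {A : Var k} (V : Submodule K (W.H A)) (Φ : Module.End K (W.H A)) (z : W.H A) :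
    Prop where
  gr : ∃ i, V ≤ W.gr A i
  alg : z ∈ W.Alg A
  inv : W.Inv2 V z
  corr : W.Corr V Φ
  sp : W.Sp V A

variable {A : Var k} {D : Type}

/-- Products of pull-backs of the vectors `e`. -/
noncomputable def mon (e : D → W.H A) {ι : Type} {Y : Var k} (l : List ι) (p : ι → Mor Y A)
    (I : ι → D) : W.H Y :=
  (l.map fun j => W.pull (p j) (e (I j))).prod

/-- Multilinear forms given by algebraic classes. -/
def TT (e : D → W.H A) (ι : Type) : Submodule K ((ι → D) → K) :=
  Submodule.span K {u | ∃ (l : List ι) (Y : Var k) (p : ι → Mor Y A) (z : W.H Y), Cpl l ∧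
    z ∈ W.Alg Y ∧ u = fun I => W.tr Y (z * W.mon e l p I)}

/-- Algebraic tensors. -/
def BB [Fintype D] (e : D → W.H A) (ι : Type) : Submodule K ((ι → D) → K) where
  carrier := {b | ∀ [Fintype ι] [DecidableEq ι] (l : List ι) (Y : Var k) (p : ι → Mor Y A),
    Cpl l → ∑ I, b I • W.mon e l p I ∈ W.Alg Y}
  zero_mem' := fun l Y p _ => by simp
  add_mem' := fun {b b'} h h' _ _ l Y p hl => by
    simp only [Pi.add_apply, add_smul, Finset.sum_add_distrib]
    exact add_mem (h l Y p hl) (h' l Y p hl)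
  smul_mem' := fun c b h _ _ l Y p hl => by
    simp only [Pi.smul_apply, smul_eq_mul, mul_smul, ← Finset.smul_sum]
    exact Submodule.smul_mem _ c (h l Y p hl)

theorem mem_BB [Fintype D] {e : D → W.H A} {ι : Type} [i₀ : Fintype ι] [j₀ : DecidableEq ι]
    {b : (ι → D) → K} : b ∈ W.BB e ι ↔ ∀ (l : List ι) (Y : Var k) (p : ι → Mor Y A),
      Cpl l → ∑ I, b I • W.mon e l p I ∈ W.Alg Y :=
  ⟨fun h => h, fun h i j l Y p hl => by
    rw [Subsingleton.elim i i₀, Subsingleton.elim j j₀]
    exact h l Y p hl⟩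

end Weil

end Pool.Agent.MP_0c8446_ag

end

section

namespace Pool.Agent.MP_0c8446_ag

open Set Polynomial
open scoped TensorProduct

universe u v w x

variable {k : Type u} [Field k] [IsAlgClosed k] {K : Type v} [Field K] [CharZero K]
  (W : Weil.{u, v, w} k K)

variable {G : Type x} [Group G] [MulSemiringAction G k]

omit [IsAlgClosed k] in
lemma GalA_fst {ι κ : Type} {n : ι → ℕ} {m : κ → ℕ} {σ : G} {x y : MP k (Sum.elim n m)}
    (h : Conj σ x y) : Conj σ (pvFst x) (pvFst y) := fun v hv =>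
  pv_rep_fst (h (pvJoin v (pvSnd x).rep) fun i => by
    cases i with
    | inl i => exact hv i
    | inr i => exact isRep_rep (pvSnd x) i)

omit [IsAlgClosed k] in
lemma GalA_snd {ι κ : Type} {n : ι → ℕ} {m : κ → ℕ} {σ : G} {x y : MP k (Sum.elim n m)}
    (h : Conj σ x y) : Conj σ (pvSnd x) (pvSnd y) := fun v hv =>
  pv_rep_snd (h (pvJoin (pvFst x).rep v) fun i => by
    cases i with
    | inl i => exact isRep_rep (pvFst x) i
    | inr i => exact hv i)

omit [IsAlgClosed k] in
theorem Conj.unique {ι : Type} {n : ι → ℕ} {σ : G} {x y y' : MP k n} (h : Conj σ x y)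
    (h' : Conj σ x y') : y = y' := (h _ (isRep_rep x)).unique (h' _ (isRep_rep x))

omit [IsAlgClosed k] in
theorem Conj.inv {ι : Type} {n : ι → ℕ} {σ : G} {x y : MP k n} (h : Conj σ x y) :
    Conj σ⁻¹ y x := by
  intro w hw
  obtain ⟨t, ht, rfl⟩ := (h _ (isRep_rep x)).exists_smul hw
  simp only [smul_mul', inv_smul_smul]
  exact (isRep_rep x).smul (fun i => σ⁻¹ • t i) fun i => (smul_ne_zero_iff_ne σ⁻¹).2 (ht i)

/-- Closed subsets are fixed by subgroups of finite index. -/
theorem exists_stab (hG : ∀ x : k, (MulAction.orbit G x).Finite) {Y : Var k} (hY : Y.Over G)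
    {Z : Set Y.pts} (hZ : IsClosed Z) : ∃ U : Subgroup G, U.FiniteIndex ∧
      ∀ σ ∈ U, {y | ∃ x ∈ Z, Conj σ x.1 y.1} = Z := by
  classical
  obtain ⟨S, hS⟩ : ∃ S : Finset (MvPolynomial (Vars Y.n) k),
      Ideal.span (S : Set _) = vI (Subtype.val '' Z) :=
    IsNoetherian.noetherian (vI (Subtype.val '' Z))
  have hmem : ∀ x : Y.pts, x ∈ Z ↔ ∀ f ∈ S, Vanish f x.1 := by
    intro x
    conv_lhs => rw [← hZ.closure_eq, closure_subtype, mem_closure_vI]
    constructor
    · intro h1 f hf
      exact h1 f (hS ▸ Ideal.subset_span hf)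
    · intro h1 f hf
      have h2 : Ideal.span (S : Set _) ≤ vI {x.1} :=
        Ideal.span_le.2 fun g hg y hy => by rw [mem_singleton_iff.1 hy]; exact h1 g hg
      exact h2 (hS ▸ hf) _ rfl
  let U : Subgroup G := ⨅ c ∈ S.biUnion fun f => f.coeffs, MulAction.stabilizer G c
  have key : ∀ σ ∈ U, ∀ x y : Y.pts, Conj σ x.1 y.1 → x ∈ Z → y ∈ Z := by
    intro σ hσ x y h hx
    refine (hmem y).2 fun f hf w hw => ?_
    have hfix : MvPolynomial.map (MulSemiringAction.toRingHom G k σ⁻¹) f = f := by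
      ext m
      rw [MvPolynomial.coeff_map]
      by_cases hm : MvPolynomial.coeff m f = 0
      · rw [hm, map_zero]
      · exact Subgroup.mem_iInf.1 (Subgroup.mem_iInf.1 (inv_mem hσ) _)
          (Finset.mem_biUnion.2 ⟨f, hf, MvPolynomial.coeff_mem_coeffs m hm⟩)
    have h1 := MvPolynomial.map_eval (MulSemiringAction.toRingHom G k σ⁻¹) w f
    rw [hfix] at h1
    exact (smul_eq_zero_iff_eq σ⁻¹).1 (h1.trans ((hmem x).1 hx f hf _ (h.inv w hw)))
  refine ⟨U, Subgroup.finiteIndex_iInf' _ fun c _ => ⟨?_⟩, fun σ hσ => ?_⟩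
  · rw [MulAction.index_stabilizer]
    exact ((Set.ncard_pos (hG c)).2 (MulAction.nonempty_orbit c)).ne'
  · ext y
    refine ⟨fun ⟨x, hx, h⟩ => key σ hσ x y h hx, fun hy => ?_⟩
    obtain ⟨x, hx⟩ := hY σ⁻¹ y
    exact ⟨x, key σ⁻¹ (inv_mem hσ) y x hx hy, by simpa using hx.inv⟩

/-- Finitely many morphisms to `A` factor through a power of `A` that is stable under `G`. -/
theorem exists_over {A Y : Var k} (hA : A.Over G) {ι : Type} [Finite ι] (p : ι → Mor Y A) :
    ∃ (Y' : Var k) (δ : Mor Y Y') (p' : ι → Mor Y' A), Y'.Over G ∧ (∀ j, (p' j).Over G) ∧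
      ∀ j, (p' j).comp δ = p j := by
  classical
  have := Fintype.ofFinite ι
  have key : ∀ s : Finset ι, ∃ (Y' : Var k) (δ : Mor Y Y') (p' : ι → Mor Y' A), Y'.Over G ∧
      (∀ j, (p' j).Over G) ∧ ∀ j ∈ s, (p' j).comp δ = p j := fun s => by
    induction s using Finset.induction_on with
    | empty =>
      obtain ⟨a⟩ : Nonempty A.pts := inferInstance
      exact ⟨A, Mor.const Y a, fun _ => Mor.id A, hA, fun _ _ _ _ h => h, by simp⟩
    | insert j s _ ih =>
      obtain ⟨Y', δ, p', h1, h2, h3⟩ := ih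
      let P : Mor (pvVar A Y') A := ⟨pvP, pv_isMor_P⟩
      let Q : Mor (pvVar A Y') Y' := ⟨pvQ, pv_isMor_Q⟩
      refine ⟨pvVar A Y', ⟨fun x => pvM ((p j).1 x) (δ.1 x), pv_isMor_M (p j).2 δ.2⟩,
        fun i => if i = j then P else (p' i).comp Q, fun σ x => ?_, fun i => ?_, fun i hi => ?_⟩
      · obtain ⟨y1, e1⟩ := hA σ (pvP x)
        obtain ⟨y2, e2⟩ := h1 σ (pvQ x)
        refine ⟨pvM y1 y2, fun v hv i => ?_⟩
        cases i with
        | inl i => exact e1 _ (pv_rep_fst hv) i
        | inr i => exact e2 _ (pv_rep_snd hv) i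
      · beta_reduce
        split_ifs
        · exact fun σ x y h => GalA_fst h
        · exact fun σ x y h => h2 i σ _ _ (GalA_snd h)
      · beta_reduce
        split_ifs with h
        · subst h
          rfl
        · exact h3 i ((Finset.mem_insert.1 hi).resolve_left h)
  obtain ⟨Y', δ, p', h1, h2, h3⟩ := key Finset.univ
  exact ⟨Y', δ, p', h1, h2, fun j => h3 j (Finset.mem_univ j)⟩

omit [IsAlgClosed k] [CharZero K] in
theorem Weil.Gal.tr_act {W : Weil.{u, v, w} k K} (ρ : W.Gal G) {Y : Var k} (hY : Y.Over G) (σ : G)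
    (a : W.H Y) : W.tr Y (ρ.act Y σ a) = (ρ.χ σ : K) ^ Y.d * W.tr Y a := by
  obtain ⟨x⟩ : Nonempty Y.pts := inferInstance
  induction a using DirectSum.Decomposition.inductionOn (W.gr Y) with
  | zero => simp
  | add a c ha hc => simp only [map_add, mul_add, ha, hc]
  | @homogeneous i a =>
    obtain ⟨a, ha⟩ := a
    by_cases hi : i = 2 * Y.d
    · subst hi
      obtain ⟨y, hy⟩ := hY σ x
      have e : {y' : Y.pts | ∃ x' ∈ ({x} : Set Y.pts), Conj σ x'.1 y'.1} = {y} := by
        ext y'
        refine ⟨fun ⟨x', h1, h2⟩ => Subtype.ext (Conj.unique (h1 ▸ h2) hy), fun h => ⟨x, rfl, ?_⟩⟩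
        rw [mem_singleton_iff.1 h]
        exact hy
      conv_lhs => rw [show ((⟨a, ha⟩ : W.gr Y (2 * Y.d)) : W.H Y) = a from rfl, W.eq_smul_pt ha x]
      rw [map_smul, ρ.act_cl Y hY σ _ (isSub_singleton x), e, dim_singleton, map_smul, map_smul,
        W.tr_pt, Nat.sub_zero, smul_eq_mul, smul_eq_mul, mul_one, mul_comm]
    · rw [W.tr_gr Y i _ (ρ.act_gr Y σ i a ha) hi, W.tr_gr Y i a ha hi, mul_zero]

end Pool.Agent.MP_0c8446_ag

end

section

namespace Pool.Agent.MP_0c8446_ag

open Set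

universe u v w

section

variable {ι ι' : Type}

theorem exists_cpl (ι : Type) [Finite ι] : ∃ l : List ι, Cpl l := by
  have := Fintype.ofFinite ι
  exact ⟨Finset.univ.toList, Finset.nodup_toList _, fun x => by simp⟩

theorem Cpl.perm {l l' : List ι} (h : Cpl l) (h' : Cpl l') : l.Perm l' :=
  (List.perm_ext_iff_of_nodup h.1 h'.1).2 fun x => iff_of_true (h.2 x) (h'.2 x)

theorem Cpl.map {l : List ι} (h : Cpl l) (e : ι ≃ ι') : Cpl (l.map e) :=
  ⟨h.1.map e.injective, fun x => List.mem_map.2 ⟨_, h.2 _, e.apply_symm_apply x⟩⟩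

theorem Cpl.append {l : List ι} {l' : List ι'} (h : Cpl l) (h' : Cpl l') :
    Cpl (l.map Sum.inl ++ l'.map Sum.inr) :=
  ⟨List.nodup_append.2 ⟨h.1.map Sum.inl_injective, h'.1.map Sum.inr_injective, by simp⟩, by
    rintro (x | x) <;> simp [h.2, h'.2]⟩

theorem Cpl.length [Fintype ι] {l : List ι} (h : Cpl l) : l.length = Fintype.card ι := by
  classical
  rw [← List.toFinset_card_of_nodup h.1, ← Finset.card_univ]
  exact congrArg _ (Finset.eq_univ_of_forall fun x => List.mem_toFinset.2 (h.2 x))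

theorem cpl_finRange (N : ℕ) : Cpl (List.finRange N) := ⟨List.nodup_finRange N, List.mem_finRange⟩

theorem cpl_bool : Cpl [false, true] := ⟨by decide, by decide⟩

/-- Any index can be moved to the end. -/
theorem exists_cpl_last [Finite ι] (j : ι) : ∃ l : List ι, j ∉ l ∧ Cpl (l ++ [j]) := by
  classical
  obtain ⟨l, h⟩ := exists_cpl ι
  have h1 := (List.perm_cons_erase (h.2 j)).trans (List.perm_append_singleton j _).symm
  exact ⟨l.erase j, h.1.not_mem_erase, h1.nodup_iff.1 h.1, fun x => h1.mem_iff.1 (h.2 x)⟩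

/-- Multilinear expansion of an ordered product. -/
theorem Cpl.prod_sum {R A : Type*} [CommRing R] [Ring A] [Algebra R A] [Fintype ι] [DecidableEq ι]
    {D : Type} [Fintype D] {l : List ι} (h : Cpl l) (c : ι → D → R) (f : ι → D → A) :
    (l.map fun j => ∑ i, c j i • f j i).prod =
      ∑ J : ι → D, (∏ j, c j (J j)) • (l.map fun j => f j (J j)).prod := by
  obtain ⟨e, he⟩ : ∃ e : Fin l.length ≃ ι, ∀ g : ι → A, (l.map g).prod =
      MultilinearMap.mkPiAlgebraFin R l.length A fun j => g (e j) :=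
    ⟨h.1.getEquivOfForallMemList l h.2, fun g => by simp⟩
  simp only [he]
  rw [MultilinearMap.map_sum]
  refine Fintype.sum_equiv (e.arrowCongr (Equiv.refl D)) _ _ fun J => ?_
  rw [MultilinearMap.map_smul_univ, ← e.prod_comp]
  simp

end

variable {k : Type u} [Field k] {K : Type v} [Field K] (W : Weil.{u, v, w} k K) {ι : Type}

/-- Reordering a product of classes of the same degree changes it by a universal sign. -/
theorem Weil.prod_perm (i : ℕ) {l l' : List ι} (h : l.Perm l') : ∃ ε : K, ε ≠ 0 ∧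
    ∀ (Y : Var k) (f : ι → W.H Y), (∀ j, f j ∈ W.gr Y i) →
      (l.map f).prod = ε • (l'.map f).prod := by
  induction h with
  | nil => exact ⟨1, one_ne_zero, fun _ _ _ => (one_smul _ _).symm⟩
  | cons a _ ih =>
    obtain ⟨ε, h1, h2⟩ := ih
    exact ⟨ε, h1, fun Y f hf => by
      rw [List.map_cons, List.map_cons, List.prod_cons, List.prod_cons, h2 Y f hf, mul_smul_comm]⟩
  | swap a b l =>
    refine ⟨(-1) ^ (i * i), pow_ne_zero _ (neg_ne_zero.2 one_ne_zero), fun Y f hf => ?_⟩
    simp only [List.map_cons, List.prod_cons, ← mul_assoc]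
    rw [W.comm Y i i _ (hf b) _ (hf a), Algebra.smul_def, map_pow, map_neg, map_one, mul_assoc]
  | trans _ _ ih ih' =>
    obtain ⟨ε, h1, h2⟩ := ih
    obtain ⟨ε', h3, h4⟩ := ih'
    exact ⟨ε * ε', mul_ne_zero h1 h3, fun Y f hf => by rw [h2 Y f hf, h4 Y f hf, mul_smul]⟩

variable {A : Var k} {D : Type} {e : D → W.H A} {i : ℕ}

theorem Weil.mon_perm (he : ∀ x, e x ∈ W.gr A i) {l l' : List ι} (h : l.Perm l') :
    ∃ ε : K, ε ≠ 0 ∧ ∀ (Y : Var k) (p : ι → Mor Y A) (I : ι → D),
      W.mon e l p I = ε • W.mon e l' p I := by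
  obtain ⟨ε, h1, h2⟩ := W.prod_perm i h
  exact ⟨ε, h1, fun Y p I => h2 Y _ fun j => W.pull_gr _ _ _ (he _)⟩

theorem Weil.mon_gr (he : ∀ x, e x ∈ W.gr A i) {Y : Var k} (l : List ι) (p : ι → Mor Y A)
    (I : ι → D) : W.mon e l p I ∈ W.gr Y (i * l.length) := by
  induction l with
  | nil => exact SetLike.one_mem_graded (W.gr Y)
  | cons a l ih =>
    rw [List.length_cons, mul_add_one, add_comm]
    exact SetLike.mul_mem_graded (W.pull_gr _ _ _ (he _)) ih

theorem Weil.pull_mon {Y Y' : Var k} (f : Mor Y' Y) (l : List ι) (p : ι → Mor Y A) (I : ι → D) :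
    W.pull f (W.mon e l p I) = W.mon e l (fun j => (p j).comp f) I := by
  simp only [Weil.mon, map_list_prod, List.map_map, Function.comp_def, W.pull_pull]

theorem Weil.mon_append {ι' : Type} {Y : Var k} (l : List ι) (l' : List ι')
    (p : ι ⊕ ι' → Mor Y A) (I : ι ⊕ ι' → D) :
    W.mon e (l.map Sum.inl ++ l'.map Sum.inr) p I =
      W.mon e l (p ∘ Sum.inl) (I ∘ Sum.inl) * W.mon e l' (p ∘ Sum.inr) (I ∘ Sum.inr) := by
  simp only [Weil.mon, List.map_append, List.prod_append, List.map_map, Function.comp_def]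

end Pool.Agent.MP_0c8446_ag

end

section

namespace Pool.Agent.MP_0c8446_ag

open Set Polynomial
open scoped TensorProduct

universe u v w x

variable {k : Type u} [Field k] [IsAlgClosed k] {K : Type v} [Field K] [CharZero K]
  (W : Weil.{u, v, w} k K)

variable {G : Type x} [Group G] [MulSemiringAction G k]

/-- The vectors that are semi-invariant under a subgroup of finite index. -/
def GalB_S {D ι : Type} [Fintype D] [Fintype ι] [DecidableEq ι] {G : Type x} [Group G]
    (M : G → Matrix D D K) (c : G → K) : Submodule K ((ι → D) → K) where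
  carrier := {u | ∃ U : Subgroup G, U.FiniteIndex ∧ ∀ σ ∈ U, tact (M σ) u = c σ • u}
  zero_mem' := ⟨⊤, inferInstance, fun σ _ => by rw [tact_zero, smul_zero]⟩
  add_mem' := by
    rintro u u' ⟨U, hU, h⟩ ⟨U', hU', h'⟩
    exact ⟨U ⊓ U', inferInstance, fun σ hσ => by
      rw [tact_add, h σ hσ.1, h' σ hσ.2, smul_add]⟩
  smul_mem' := by
    rintro a u ⟨U, hU, h⟩
    exact ⟨U, hU, fun σ hσ => by rw [tact_smul, h σ hσ, smul_comm]⟩

omit [IsAlgClosed k] [CharZero K] in
theorem GalB_act_mon {W : Weil.{u, v, w} k K} (ρ : W.Gal G) {A : Var k} (hA : A.Over G)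
    {D : Type} [Fintype D] {e : D → W.H A} (M : G → Matrix D D K)
    (hM : ∀ σ x, ρ.act A σ (e x) = ∑ y, M σ y x • e y) {ι : Type} [Fintype ι] [DecidableEq ι]
    {l : List ι} (hl : Cpl l) {Y : Var k} (hY : Y.Over G) {p : ι → Mor Y A}
    (hp : ∀ j, (p j).Over G) (σ : G) (I : ι → D) :
    ρ.act Y σ (W.mon e l p I) = ∑ J : ι → D, (∏ j, M σ (J j) (I j)) • W.mon e l p J := by
  unfold Weil.mon
  rw [← hl.prod_sum (fun j y => M σ y (I j)) fun j y => W.pull (p j) (e y), map_list_prod,
    List.map_map]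
  congr 1
  refine List.map_congr_left fun j _ => ?_
  simp only [Function.comp_apply]
  rw [ρ.act_pull (p j) hY hA (hp j), hM, map_sum]
  simp only [map_smul]

/-- Algebraic forms are semi-invariant under subgroups of finite index. -/
theorem Weil.Gal.tact_TT {W : Weil.{u, v, w} k K} (ρ : W.Gal G)
    (hG : ∀ x : k, (MulAction.orbit G x).Finite) {A : Var k} (hA : A.Over G) {D : Type} [Fintype D]
    {e : D → W.H A} {i : ℕ} (he : ∀ x, e x ∈ W.gr A i) (M : G → Matrix D D K)
    (hM : ∀ σ x, ρ.act A σ (e x) = ∑ y, M σ y x • e y) {ι : Type} [Fintype ι] [DecidableEq ι]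
    {u : (ι → D) → K} (hu : u ∈ W.TT e ι) : ∃ U : Subgroup G, U.FiniteIndex ∧ ∀ σ ∈ U,
      tact (M σ) u = (ρ.χ σ : K) ^ (i * Fintype.card ι / 2) • u := by
  suffices h : W.TT e ι ≤ GalB_S M fun σ => (ρ.χ σ : K) ^ (i * Fintype.card ι / 2) from h hu
  refine Submodule.span_le.2 ?_
  rintro _ ⟨l, Y, p, z, hl, hz, rfl⟩
  obtain ⟨Y', δ, p', hY', hp', hδ⟩ := exists_over (G := G) hA p
  obtain ⟨z', hz', hpush⟩ := W.exists_push δ hz
  let L : W.H Y' →ₗ[K] ((ι → D) → K) :=
    LinearMap.pi fun I => W.tr Y' ∘ₗ LinearMap.mulRight K (W.mon e l p' I)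
  have hL : ∀ a I, L a I = W.tr Y' (a * W.mon e l p' I) := fun _ _ => rfl
  have e1 : (fun I => W.tr Y (z * W.mon e l p I)) = L z' := by
    funext I
    rw [hL, ← hpush, W.pull_mon]
    simp only [hδ]
  rw [e1]
  suffices h : W.Alg Y' ≤
      (GalB_S M fun σ => (ρ.χ σ : K) ^ (i * Fintype.card ι / 2)).comap L from h hz'
  refine Submodule.span_le.2 ?_
  rintro _ ⟨Z, hZ, rfl⟩
  have hZ : IsSub Z := hZ
  show L (W.cl Y' Z) ∈ GalB_S M fun σ => (ρ.χ σ : K) ^ (i * Fintype.card ι / 2)
  by_cases hd : i * Fintype.card ι = 2 * dim Z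
  swap
  · have : L (W.cl Y' Z) = 0 := by
      funext I
      rw [hL]
      exact W.tr_cl_mul_gr hZ (W.mon_gr he l p' I) (by rwa [hl.length])
    rw [this]
    exact zero_mem _
  obtain ⟨U, hU, hstab⟩ := exists_stab hG hY' hZ.2
  refine ⟨U, hU, fun σ hσ => ?_⟩
  funext I
  have h1 : tact (M σ) (L (W.cl Y' Z)) I = W.tr Y' (W.cl Y' Z * ρ.act Y' σ (W.mon e l p' I)) := by
    rw [GalB_act_mon ρ hA M hM hl hY' hp', Finset.mul_sum, map_sum]
    refine Finset.sum_congr rfl fun J _ => ?_
    rw [hL, mul_smul_comm, map_smul, smul_eq_mul, mul_comm]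
  have h2 := ρ.tr_act hY' σ (W.cl Y' Z * W.mon e l p' I)
  rw [map_mul, ρ.act_cl Y' hY' σ Z hZ, hstab σ hσ, smul_mul_assoc, map_smul, smul_eq_mul,
    ← Nat.sub_add_cancel (Y'.dim_le Z), pow_add, Nat.add_sub_cancel, mul_assoc] at h2
  have h3 := mul_left_cancel₀ (pow_ne_zero _ (ρ.χ σ).ne_zero) h2
  rw [h1, h3, hd, Nat.mul_div_cancel_left _ two_pos, Pi.smul_apply, smul_eq_mul, hL]

end Pool.Agent.MP_0c8446_ag

end

section

namespace Pool.Agent.MP_0c8446_ag

open Set Polynomial
open scoped TensorProduct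

universe u v w x

variable {k : Type u} [Field k] [IsAlgClosed k] {K : Type v} [Field K] [CharZero K]
  {G : Type x} [Group G] [MulSemiringAction G k]

/-- Closed subsets are defined over finitely generated fields. -/
theorem exists_stab2 {Y : Var k} (hY : Y.Over G) {Z : Set Y.pts} (hZ : IsClosed Z) :
    ∃ s : Finset k, ∀ σ : G, (∀ c ∈ s, σ • c = c) → {y | ∃ x ∈ Z, Conj σ x.1 y.1} = Z := by
  classical
  obtain ⟨S, hS⟩ : ∃ S : Finset (MvPolynomial (Vars Y.n) k),
      Ideal.span (S : Set _) = vI (Subtype.val '' Z) :=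
    IsNoetherian.noetherian (vI (Subtype.val '' Z))
  have hmem : ∀ x : Y.pts, x ∈ Z ↔ ∀ f ∈ S, Vanish f x.1 := by
    intro x
    conv_lhs => rw [← hZ.closure_eq, closure_subtype, mem_closure_vI]
    constructor
    · intro h1 f hf
      exact h1 f (hS ▸ Ideal.subset_span hf)
    · intro h1 f hf
      have h2 : Ideal.span (S : Set _) ≤ vI {x.1} :=
        Ideal.span_le.2 fun g hg y hy => by rw [mem_singleton_iff.1 hy]; exact h1 g hg
      exact h2 (hS ▸ hf) _ rfl
  have key : ∀ σ : G, (∀ c ∈ S.biUnion fun f => f.coeffs, σ⁻¹ • c = c) → ∀ x y : Y.pts,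
      Conj σ x.1 y.1 → x ∈ Z → y ∈ Z := by
    intro σ hσ x y h hx
    refine (hmem y).2 fun f hf w hw => ?_
    have hfix : MvPolynomial.map (MulSemiringAction.toRingHom G k σ⁻¹) f = f := by
      ext m
      rw [MvPolynomial.coeff_map]
      by_cases hm : MvPolynomial.coeff m f = 0
      · rw [hm, map_zero]
      · exact hσ _ (Finset.mem_biUnion.2 ⟨f, hf, MvPolynomial.coeff_mem_coeffs m hm⟩)
    have h1 := MvPolynomial.map_eval (MulSemiringAction.toRingHom G k σ⁻¹) w f
    rw [hfix] at h1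
    exact (smul_eq_zero_iff_eq σ⁻¹).1 (h1.trans ((hmem x).1 hx f hf _ (h.inv w hw)))
  refine ⟨S.biUnion fun f => f.coeffs, fun σ hσ => ?_⟩
  ext y
  refine ⟨fun ⟨x, hx, h⟩ => key σ (fun c hc => inv_smul_eq_iff.2 (hσ c hc).symm) x y h hx,
    fun hy => ?_⟩
  obtain ⟨x, hx⟩ := hY σ⁻¹ y
  exact ⟨x, key σ⁻¹ (by rwa [inv_inv]) y x hx hy, by simpa using hx.inv⟩

/-- The vectors that are semi-invariant under the automorphisms that fix a finite set. -/
def Gal2_S (k : Type u) {D ι : Type} [Fintype D] [Fintype ι] [DecidableEq ι] {G : Type x}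
    [SMul G k] (M : G → Matrix D D K) (c : G → K) : Submodule K ((ι → D) → K) where
  carrier := {u | ∃ s : Finset k, ∀ σ : G, (∀ a ∈ s, σ • a = a) → tact (M σ) u = c σ • u}
  zero_mem' := ⟨∅, fun σ _ => by rw [tact_zero, smul_zero]⟩
  add_mem' := by
    classical
    rintro u u' ⟨s, h⟩ ⟨s', h'⟩
    exact ⟨s ∪ s', fun σ hσ => by
      rw [tact_add, h σ fun a ha => hσ a (Finset.mem_union_left _ ha),
        h' σ fun a ha => hσ a (Finset.mem_union_right _ ha), smul_add]⟩
  smul_mem' := by
    rintro a u ⟨s, h⟩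
    exact ⟨s, fun σ hσ => by rw [tact_smul, h σ hσ, smul_comm]⟩

theorem Gal2_le {W : Weil.{u, v, w} k K} (ρ : W.Gal G) {A : Var k} (hA : A.Over G)
    {D : Type} [Fintype D] {e : D → W.H A} {i : ℕ} (he : ∀ x, e x ∈ W.gr A i)
    (M : G → Matrix D D K) (hM : ∀ σ x, ρ.act A σ (e x) = ∑ y, M σ y x • e y) (ι : Type)
    [Fintype ι] [DecidableEq ι] :
    W.TT e ι ≤ Gal2_S k M fun σ => (ρ.χ σ : K) ^ (i * Fintype.card ι / 2) := by
  refine Submodule.span_le.2 ?_
  rintro _ ⟨l, Y, p, z, hl, hz, rfl⟩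
  obtain ⟨Y', δ, p', hY', hp', hδ⟩ := exists_over (G := G) hA p
  obtain ⟨z', hz', hpush⟩ := W.exists_push δ hz
  let L : W.H Y' →ₗ[K] ((ι → D) → K) :=
    LinearMap.pi fun I => W.tr Y' ∘ₗ LinearMap.mulRight K (W.mon e l p' I)
  have hL : ∀ a I, L a I = W.tr Y' (a * W.mon e l p' I) := fun _ _ => rfl
  have e1 : (fun I => W.tr Y (z * W.mon e l p I)) = L z' := by
    funext I
    rw [hL, ← hpush, W.pull_mon]
    simp only [hδ]
  rw [e1]
  suffices h : W.Alg Y' ≤
      (Gal2_S k M fun σ => (ρ.χ σ : K) ^ (i * Fintype.card ι / 2)).comap L from h hz'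
  refine Submodule.span_le.2 ?_
  rintro _ ⟨Z, hZ, rfl⟩
  have hZ : IsSub Z := hZ
  show L (W.cl Y' Z) ∈ Gal2_S k M fun σ => (ρ.χ σ : K) ^ (i * Fintype.card ι / 2)
  by_cases hd : i * Fintype.card ι = 2 * dim Z
  swap
  · have : L (W.cl Y' Z) = 0 := by
      funext I
      rw [hL]
      exact W.tr_cl_mul_gr hZ (W.mon_gr he l p' I) (by rwa [hl.length])
    rw [this]
    exact zero_mem _
  obtain ⟨s, hstab⟩ := exists_stab2 hY' hZ.2
  refine ⟨s, fun σ hσ => ?_⟩
  funext I
  have h1 : tact (M σ) (L (W.cl Y' Z)) I = W.tr Y' (W.cl Y' Z * ρ.act Y' σ (W.mon e l p' I)) := by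
    rw [GalB_act_mon ρ hA M hM hl hY' hp', Finset.mul_sum, map_sum]
    refine Finset.sum_congr rfl fun J _ => ?_
    rw [hL, mul_smul_comm, map_smul, smul_eq_mul, mul_comm]
  have h2 := ρ.tr_act hY' σ (W.cl Y' Z * W.mon e l p' I)
  rw [map_mul, ρ.act_cl Y' hY' σ Z hZ, hstab σ hσ, smul_mul_assoc, map_smul, smul_eq_mul,
    ← Nat.sub_add_cancel (Y'.dim_le Z), pow_add, Nat.add_sub_cancel, mul_assoc] at h2
  have h3 := mul_left_cancel₀ (pow_ne_zero _ (ρ.χ σ).ne_zero) h2
  rw [h1, h3, hd, Nat.mul_div_cancel_left _ two_pos, Pi.smul_apply, smul_eq_mul, hL]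

/-- Algebraic forms are semi-invariant under the automorphisms that fix a finite set. -/
theorem Weil.Gal.tact_TT2 {W : Weil.{u, v, w} k K} (ρ : W.Gal G) {A : Var k} (hA : A.Over G)
    {D : Type} [Fintype D] {e : D → W.H A} {i : ℕ} (he : ∀ x, e x ∈ W.gr A i)
    (M : G → Matrix D D K) (hM : ∀ σ x, ρ.act A σ (e x) = ∑ y, M σ y x • e y) (ι : Type)
    [Fintype ι] [DecidableEq ι] : ∃ s : Finset k, ∀ σ : G, (∀ c ∈ s, σ • c = c) →
      ∀ u ∈ W.TT e ι, tact (M σ) u = (ρ.χ σ : K) ^ (i * Fintype.card ι / 2) • u := by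
  classical
  obtain ⟨T, hT⟩ : ∃ T : Finset ((ι → D) → K), Submodule.span K (T : Set _) = W.TT e ι :=
    IsNoetherian.noetherian (W.TT e ι)
  choose! s hs using fun u (hu : u ∈ T) =>
    Gal2_le ρ hA he M hM ι (hT ▸ Submodule.subset_span hu : u ∈ W.TT e ι)
  refine ⟨T.biUnion s, fun σ hσ u hu => ?_⟩
  rw [← hT] at hu
  induction hu using Submodule.span_induction with
  | mem x hx => exact hs x hx σ fun a ha => hσ a (Finset.mem_biUnion.2 ⟨x, hx, ha⟩)
  | zero => rw [tact_zero, smul_zero]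
  | add x y _ _ hx hy => rw [tact_add, hx, hy, smul_add]
  | smul a x _ hx => rw [tact_smul, hx, smul_comm]

end Pool.Agent.MP_0c8446_ag

end

section

namespace Pool.Agent.MP_0c8446_ag

open Set
open scoped TensorProduct

universe u v w x

variable {k : Type u} [Field k] [IsAlgClosed k] {K : Type v} [Field K] [CharZero K]
  {G : Type x} [Group G] [MulSemiringAction G k]

omit [IsAlgClosed k] [CharZero K] in
theorem Gal3_mon_gr {W : Weil.{u, v, w} k K} {A Y : Var k} {D ι : Type} [Fintype ι]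
    {e : D → W.H A} {δ : D → ℕ} (he : ∀ x, e x ∈ W.gr A (δ x)) {l : List ι} (hl : Cpl l)
    (p : ι → Mor Y A) (I : ι → D) : W.mon e l p I ∈ W.gr Y (∑ j, δ (I j)) := by
  classical
  have h := SetLike.list_prod_map_mem_graded (A := W.gr Y) l (fun j => δ (I j))
    (fun j => W.pull (p j) (e (I j))) fun j _ => W.pull_gr _ _ _ (he _)
  rwa [← List.sum_toFinset _ hl.1,
    Finset.eq_univ_of_forall fun x => List.mem_toFinset.2 (hl.2 x)] at h

/-- The vectors that are semi-invariant index by index. -/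
def Gal3_S (k : Type u) {D ι : Type} [Fintype D] [Fintype ι] [DecidableEq ι] {G : Type x}
    [SMul G k] (M : G → Matrix D D K) (c : G → (ι → D) → K) : Submodule K ((ι → D) → K) where
  carrier := {u | ∃ s : Finset k, ∀ σ : G, (∀ a ∈ s, σ • a = a) →
    ∀ I, tact (M σ) u I = c σ I * u I}
  zero_mem' := ⟨∅, fun σ _ I => by rw [tact_zero, Pi.zero_apply, mul_zero]⟩
  add_mem' := by
    classical
    rintro u u' ⟨s, h⟩ ⟨s', h'⟩
    exact ⟨s ∪ s', fun σ hσ I => by
      rw [tact_add, Pi.add_apply, h σ fun a ha => hσ a (Finset.mem_union_left _ ha),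
        h' σ fun a ha => hσ a (Finset.mem_union_right _ ha), Pi.add_apply, mul_add]⟩
  smul_mem' := by
    rintro a u ⟨s, h⟩
    exact ⟨s, fun σ hσ I => by
      rw [tact_smul, Pi.smul_apply, h σ hσ, Pi.smul_apply, smul_eq_mul, smul_eq_mul,
        mul_left_comm]⟩

theorem Gal3_le {W : Weil.{u, v, w} k K} (ρ : W.Gal G) {A : Var k} (hA : A.Over G)
    {D : Type} [Fintype D] {e : D → W.H A} {δ : D → ℕ} (he : ∀ x, e x ∈ W.gr A (δ x))
    (M : G → Matrix D D K) (hM : ∀ σ x, ρ.act A σ (e x) = ∑ y, M σ y x • e y) (ι : Type)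
    [Fintype ι] [DecidableEq ι] :
    W.TT e ι ≤ Gal3_S k M fun σ I => (ρ.χ σ : K) ^ ((∑ j, δ (I j)) / 2) := by
  refine Submodule.span_le.2 ?_
  rintro _ ⟨l, Y, p, z, hl, hz, rfl⟩
  obtain ⟨Y', δ', p', hY', hp', hδ⟩ := exists_over (G := G) hA p
  obtain ⟨z', hz', hpush⟩ := W.exists_push δ' hz
  let L : W.H Y' →ₗ[K] ((ι → D) → K) :=
    LinearMap.pi fun I => W.tr Y' ∘ₗ LinearMap.mulRight K (W.mon e l p' I)
  have hL : ∀ a I, L a I = W.tr Y' (a * W.mon e l p' I) := fun _ _ => rfl
  have e1 : (fun I => W.tr Y (z * W.mon e l p I)) = L z' := by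
    funext I
    rw [hL, ← hpush, W.pull_mon]
    simp only [hδ]
  rw [e1]
  suffices h : W.Alg Y' ≤
      (Gal3_S k M fun σ I => (ρ.χ σ : K) ^ ((∑ j, δ (I j)) / 2)).comap L from h hz'
  refine Submodule.span_le.2 ?_
  rintro _ ⟨Z, hZ, rfl⟩
  have hZ : IsSub Z := hZ
  obtain ⟨s, hstab⟩ := exists_stab2 hY' hZ.2
  refine ⟨s, fun σ hσ I => ?_⟩
  have h1 : tact (M σ) (L (W.cl Y' Z)) I = W.tr Y' (W.cl Y' Z * ρ.act Y' σ (W.mon e l p' I)) := by
    rw [GalB_act_mon ρ hA M hM hl hY' hp', Finset.mul_sum, map_sum]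
    refine Finset.sum_congr rfl fun J _ => ?_
    rw [hL, mul_smul_comm, map_smul, smul_eq_mul, mul_comm]
  rw [h1, hL]
  by_cases hd : ∑ j, δ (I j) = 2 * dim Z
  swap
  · rw [W.tr_cl_mul_gr hZ (Gal3_mon_gr he hl p' I) hd,
      W.tr_cl_mul_gr hZ (ρ.act_gr _ _ _ _ (Gal3_mon_gr he hl p' I)) hd, mul_zero]
  have h2 := ρ.tr_act hY' σ (W.cl Y' Z * W.mon e l p' I)
  rw [map_mul, ρ.act_cl Y' hY' σ Z hZ, hstab σ hσ, smul_mul_assoc, map_smul, smul_eq_mul,
    ← Nat.sub_add_cancel (Y'.dim_le Z), pow_add, Nat.add_sub_cancel, mul_assoc] at h2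
  have h3 := mul_left_cancel₀ (pow_ne_zero _ (ρ.χ σ).ne_zero) h2
  simp only [hd]
  rw [h3, Nat.mul_div_cancel_left _ two_pos]

/-- Algebraic forms are semi-invariant degree by degree. -/
theorem Weil.Gal.tact_TT3 {W : Weil.{u, v, w} k K} (ρ : W.Gal G) {A : Var k} (hA : A.Over G)
    {D : Type} [Fintype D] {e : D → W.H A} {δ : D → ℕ} (he : ∀ x, e x ∈ W.gr A (δ x))
    (M : G → Matrix D D K) (hM : ∀ σ x, ρ.act A σ (e x) = ∑ y, M σ y x • e y) (ι : Type)
    [Fintype ι] [DecidableEq ι] : ∃ s : Finset k, ∀ σ : G, (∀ c ∈ s, σ • c = c) →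
      ∀ u ∈ W.TT e ι, ∀ I, tact (M σ) u I = (ρ.χ σ : K) ^ ((∑ j, δ (I j)) / 2) * u I := by
  classical
  obtain ⟨T, hT⟩ : ∃ T : Finset ((ι → D) → K), Submodule.span K (T : Set _) = W.TT e ι :=
    IsNoetherian.noetherian (W.TT e ι)
  choose! s hs using fun u (hu : u ∈ T) =>
    Gal3_le ρ hA he M hM ι (hT ▸ Submodule.subset_span hu : u ∈ W.TT e ι)
  refine ⟨T.biUnion s, fun σ hσ u hu I => ?_⟩
  rw [← hT] at hu
  induction hu using Submodule.span_induction with
  | mem x hx => exact hs x hx σ (fun a ha => hσ a (Finset.mem_biUnion.2 ⟨x, hx, ha⟩)) I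
  | zero => rw [tact_zero, Pi.zero_apply, mul_zero]
  | add x y _ _ hx hy => rw [tact_add, Pi.add_apply, hx, hy, Pi.add_apply, mul_add]
  | smul a x _ hx =>
    rw [tact_smul, Pi.smul_apply, hx, Pi.smul_apply, smul_eq_mul, smul_eq_mul, mul_left_comm]

end Pool.Agent.MP_0c8446_ag

end

section

namespace Pool.Agent.MP_0c8446_ag

open Set Polynomial
open scoped TensorProduct

universe u v w x

variable {k : Type u} [Field k] [IsAlgClosed k] {K : Type v} [Field K] [CharZero K]
  (W : Weil.{u, v, w} k K)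

/-- The variety consisting of one point. -/
noncomputable def Fib_pt (k : Type u) [Field k] : Var k where
  ι := Empty
  n := fun e => e.elim
  pts := univ
  sub := by
    have x : MP k (fun e : Empty => (e.elim : ℕ)) := fun e => e.elim
    have : (univ : Set (MP k (fun e : Empty => (e.elim : ℕ)))) = {x} :=
      eq_singleton_iff_unique_mem.2 ⟨mem_univ _, fun y _ => funext fun e => e.elim⟩
    exact ⟨this ▸ isIrreducible_singleton, isClosed_univ⟩
  smooth := fun x _ v _ => by
    have : IsEmpty (Vars (fun e : Empty => (e.elim : ℕ))) := ⟨fun s => s.1.elim⟩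
    rw [Module.finrank_zero_of_subsingleton]
    exact Nat.zero_le _

omit [IsAlgClosed k] in
theorem Fib_pt_d : (Fib_pt k).d = 0 := by
  obtain ⟨x⟩ : Nonempty (Fib_pt k).pts := inferInstance
  have : (univ : Set (Fib_pt k).pts) = {x} :=
    eq_singleton_iff_unique_mem.2 ⟨mem_univ _, fun y _ => Subtype.ext (funext fun e => e.elim)⟩
  rw [Var.d, this, dim_singleton]

namespace Weil

omit [IsAlgClosed k] [CharZero K] in
theorem Fib_dual {X : Var k} (φ : W.H X →ₗ[K] K) : ∃ c, ∀ a, W.tr X (c * a) = φ a := by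
  let B : W.H X →ₗ[K] Module.Dual K (W.H X) := (LinearMap.mul K (W.H X)).compr₂ (W.tr X)
  have hi : Function.Injective B :=
    (injective_iff_map_eq_zero _).2 fun a ha => W.poincare X a fun b => LinearMap.congr_fun ha b
  have hs : Function.Surjective B :=
    (LinearMap.injective_iff_surjective_of_finrank_eq_finrank
      (Subspace.dual_finrank_eq (K := K) (V := W.H X)).symm).1 hi
  obtain ⟨c, hc⟩ := hs φ
  exact ⟨c, fun a => LinearMap.congr_fun hc a⟩

omit [IsAlgClosed k] [CharZero K] in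
theorem Fib_ind {P X Y : Var k} {p : Mor P X} {q : Mor P Y} (h : IsProd p q)
    {C : W.H P → Prop} (h0 : C 0) (ht : ∀ a b, C (W.pull p a * W.pull q b))
    (ha : ∀ x y, C x → C y → C (x + y)) (c : W.H P) : C c := by
  obtain ⟨t, rfl⟩ := (W.kunneth p q h).2 c
  induction t using TensorProduct.induction_on with
  | zero => rw [map_zero]; exact h0
  | tmul a b => exact ht a b
  | add s t hs ht => rw [map_add]; exact ha _ _ hs ht

theorem pull_const {X Y : Var k} (y : Y.pts) {a : W.H Y} {i : ℕ} (hi : i ≠ 0)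
    (ha : a ∈ W.gr Y i) : W.pull (Mor.const X y) a = 0 := by
  obtain ⟨o⟩ : Nonempty (Fib_pt k).pts := inferInstance
  have h1 : W.pull (Mor.const (Fib_pt k) y) a = 0 :=
    W.gr_eq_zero (W.pull_gr _ _ _ ha) (by rw [Fib_pt_d]; omega)
  rw [W.pull_congr (f := Mor.const X y) (g := (Mor.const _ y).comp (Mor.const X o))
    (fun _ => rfl), ← W.pull_pull, h1, map_zero]

theorem eq_zero_of_left {X : Var k} {a : W.H X} (h : ∀ b, W.tr X (b * a) = 0) : a = 0 := by
  refine (Module.forall_dual_apply_eq_zero_iff K a).1 fun φ => ?_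
  obtain ⟨c, hc⟩ := W.Fib_dual φ
  rw [← hc, h]

theorem exists_dual {X : Var k} (φ : W.H X →ₗ[K] K) : ∃ c, ∀ a, W.tr X (c * a) = φ a :=
  W.Fib_dual φ

/-- A class of degree `i` is detected by a class of complementary degree. -/
theorem exists_gr_ne {X : Var k} {a : W.H X} {i : ℕ} (ha : a ∈ W.gr X i) (h : a ≠ 0) :
    ∃ j, j + i = 2 * X.d ∧ ∃ c ∈ W.gr X j, W.tr X (c * a) ≠ 0 := by
  by_contra hne
  push Not at hne
  refine h (W.eq_zero_of_left fun b => ?_)
  induction b using DirectSum.Decomposition.inductionOn (W.gr X) with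
  | zero => simp
  | add b c hb hc => rw [add_mul, map_add, hb, hc, add_zero]
  | @homogeneous j b =>
    by_cases hj : j + i = 2 * X.d
    · exact hne j hj b b.2
    · exact W.tr_mul_gr b.2 ha hj

variable {P X Y : Var k} {p : Mor P X} {q : Mor P Y} (h : IsProd p q)

include h in
/-- The homogeneous form of the Künneth formula. -/
theorem gr_prod_le (j : ℕ) (S : Submodule K (W.H P))
    (hS : ∀ s t, s + t = j → ∀ a ∈ W.gr X s, ∀ b ∈ W.gr Y t, W.pull p a * W.pull q b ∈ S) :
    W.gr P j ≤ S := by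
  have key : ∀ c : W.H P, (DirectSum.decompose (W.gr P) c j : W.H P) ∈ S := by
    intro c
    refine W.Fib_ind h (C := fun c => (DirectSum.decompose (W.gr P) c j : W.H P) ∈ S)
      (by simp) (fun a b => ?_) (fun x y hx hy => ?_) c
    · induction a using DirectSum.Decomposition.inductionOn (W.gr X) with
      | zero => simp
      | add a a' ha ha' =>
        simp only [map_add, add_mul, DirectSum.decompose_add, DirectSum.add_apply,
          Submodule.coe_add]
        exact add_mem ha ha'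
      | @homogeneous s a =>
        induction b using DirectSum.Decomposition.inductionOn (W.gr Y) with
        | zero => simp
        | add b b' hb hb' =>
          simp only [map_add, mul_add, DirectSum.decompose_add, DirectSum.add_apply,
            Submodule.coe_add]
          exact add_mem hb hb'
        | @homogeneous t b =>
          have hm : W.pull p a * W.pull q b ∈ W.gr P (s + t) :=
            SetLike.mul_mem_graded (W.pull_gr p _ _ a.2) (W.pull_gr q _ _ b.2)
          by_cases hst : s + t = j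
          · rw [← hst, DirectSum.decompose_of_mem_same _ hm]
            exact hS s t hst a a.2 b b.2
          · rw [DirectSum.decompose_of_mem_ne _ hm hst]
            exact zero_mem _
    · simp only [DirectSum.decompose_add, DirectSum.add_apply, Submodule.coe_add]
      exact add_mem hx hy
  intro c hc
  have := key c
  rwa [DirectSum.decompose_of_mem_same _ hc] at this

theorem fib_swap (a : W.H X) (b : W.H Y) : W.fib h (W.pull q b * W.pull p a) = W.tr Y b • a := by
  induction b using DirectSum.Decomposition.inductionOn (W.gr Y) with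
  | zero => simp
  | add b b' hb hb' => simp only [map_add, add_mul, hb, hb', add_smul]
  | @homogeneous t b =>
    by_cases ht : t = 2 * Y.d
    · subst ht
      rw [W.even_comm (W.pull_gr q _ _ b.2), fib_tmul]
    · induction a using DirectSum.Decomposition.inductionOn (W.gr X) with
      | zero => simp
      | add a a' ha ha' => simp only [map_add, mul_add, ha, ha', smul_add]
      | @homogeneous s a =>
        have h0 : W.tr Y b = 0 := W.tr_gr Y t b b.2 ht
        rw [W.comm P _ _ _ (W.pull_gr q _ _ b.2) _ (W.pull_gr p _ _ a.2)]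
        rcases neg_one_pow_eq_or (W.H P) (t * s) with e | e <;> rw [e]
        · rw [one_mul, fib_tmul]
        · rw [neg_one_mul, map_neg, fib_tmul, h0, zero_smul, neg_zero]

theorem fib_mul_left (a : W.H X) (c : W.H P) : W.fib h (W.pull p a * c) = a * W.fib h c := by
  refine W.Fib_ind h (C := fun c => W.fib h (W.pull p a * c) = a * W.fib h c) (by simp)
    (fun a' b => ?_) (fun x y hx hy => ?_) c
  · rw [← mul_assoc, ← map_mul, fib_tmul, fib_tmul, mul_smul_comm]
  · simp only [mul_add, map_add, hx, hy]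

theorem tr_fib (c : W.H P) : W.tr X (W.fib h c) = W.tr P c := by
  refine W.Fib_ind h (C := fun c => W.tr X (W.fib h c) = W.tr P c) (by simp)
    (fun a b => ?_) (fun x y hx hy => ?_) c
  · rw [fib_tmul, W.tr_prod h, map_smul, smul_eq_mul, mul_comm]
  · simp only [map_add, hx, hy]

theorem fib_mem_Alg {c : W.H P} (hc : c ∈ W.Alg P) : W.fib h c ∈ W.Alg X := by
  obtain ⟨a', ha', h1⟩ := W.exists_push p hc
  have : W.fib h c = a' := by
    refine sub_eq_zero.1 (W.eq_zero_of_left fun b => ?_)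
    rw [mul_sub, map_sub, ← W.fib_mul_left h, W.tr_fib h, ← W.Alg_comm hc, h1, W.Alg_comm ha',
      sub_self]
  rwa [this]

theorem fib_pt (y : Y.pts) (c : W.H P) :
    W.fib h (W.pull q (W.cl Y {y}) * c) = W.pull (h.lift (Mor.id X) (Mor.const X y)) c := by
  have key : ∀ b : W.H Y, W.pull (Mor.const X y) b = W.tr Y (W.cl Y {y} * b) • (1 : W.H X) := by
    intro b
    induction b using DirectSum.Decomposition.inductionOn (W.gr Y) with
    | zero => simp
    | add b b' hb hb' => simp only [map_add, mul_add, hb, hb', add_smul]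
    | @homogeneous t b =>
      obtain ⟨b, hb⟩ := b
      by_cases ht : t = 0
      · subst ht
        rw [W.zero, Submodule.mem_span_singleton] at hb
        obtain ⟨r, rfl⟩ := hb
        simp [W.tr_pt]
      · simp only
        rw [W.pull_const y ht hb, W.tr_mul_gr (W.cl_pt_gr y) hb (by omega), zero_smul]
  refine W.Fib_ind h (C := fun c => W.fib h (W.pull q (W.cl Y {y}) * c) =
    W.pull (h.lift (Mor.id X) (Mor.const X y)) c) (by simp)
    (fun a b => ?_) (fun x y hx hy => ?_) c
  · rw [← mul_assoc, W.Alg_comm (W.pull_mem_Alg q (W.cl_mem_Alg (isSub_singleton y))), mul_assoc,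
      ← map_mul, fib_tmul, map_mul (W.pull _), W.pull_pull, W.pull_pull,
      W.pull_id _ (funext fun x => by simp) a,
      W.pull_congr (g := Mor.const X y) (fun x => by simp) b, key, mul_smul_comm, mul_one]
  · simp only [mul_add, map_add, hx, hy]

theorem fib_gr {i : ℕ} {c : W.H P} (hc : c ∈ W.gr P (i + 2 * Y.d)) : W.fib h c ∈ W.gr X i := by
  refine W.gr_prod_le h (i + 2 * Y.d) ((W.gr X i).comap (W.fib h))
    (fun s t hst a ha b hb => ?_) hc
  rw [Submodule.mem_comap, fib_tmul]
  by_cases ht : t = 2 * Y.d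
  · obtain rfl : s = i := by omega
    exact Submodule.smul_mem _ _ ha
  · rw [W.tr_gr Y t b hb ht, zero_smul]
    exact zero_mem _

theorem fib_base {P' X' : Var k} {p' : Mor P' X'} {q' : Mor P' Y} (h' : IsProd p' q')
    (f : Mor X' X) (c : W.H P) :
    W.fib h' (W.pull (h.lift (f.comp p') q') c) = W.pull f (W.fib h c) := by
  refine W.Fib_ind h (C := fun c => W.fib h' (W.pull (h.lift (f.comp p') q') c) =
    W.pull f (W.fib h c)) (by simp) (fun a b => ?_) (fun x y hx hy => ?_) c
  · rw [map_mul (W.pull _), W.pull_pull, W.pull_pull,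
      W.pull_congr (g := f.comp p') (fun x => by simp) a,
      W.pull_congr (g := q') (fun x => by simp) b, ← W.pull_pull, fib_tmul, fib_tmul, map_smul]
  · simp only [map_add, hx, hy]

/-- The class of the graph of a morphism. -/
theorem corr_pull {A : Var k} (V : Submodule K (W.H A)) (φ : Mor A A) :
    W.Corr V (W.pull φ).toLinearMap := by
  obtain ⟨P, p, q, h⟩ := exists_prod A A
  have hr : ∀ x, p.1 ((h.lift (Mor.id A) φ).1 x) = x := fun x => by simp
  have hs := (Mor.retr _ _ hr).isSub A.isSub_univ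
  rw [image_univ] at hs
  refine ⟨P, p, q, h, _, W.cl_mem_Alg hs, fun a _ b => ?_⟩
  rw [← W.tr_pull_retr _ _ hr, map_mul (W.pull _), W.pull_pull, W.pull_pull,
    W.pull_id _ (funext fun x => by simp) b, W.pull_congr (g := φ) (fun x => by simp) a]
  rfl

/-- A correspondence acts along any morphism `f : Y → A`. -/
theorem Corr.exists_fib {A : Var k} {V : Submodule K (W.H A)} {Φ : Module.End K (W.H A)}
    (hΦ : W.Corr V Φ) (f : Mor Y A) : ∃ (Q : Var k) (r : Mor Q Y) (s : Mor Q A) (h : IsProd r s),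
      ∃ c ∈ W.Alg Q, ∀ a ∈ V, ∀ m : W.H Y,
        m * W.pull f (Φ a) = W.fib h (c * (W.pull r m * W.pull s a)) := by
  obtain ⟨P0, p0, q0, h0, c0, hc0, h1⟩ := hΦ
  obtain ⟨Q, r, s, h⟩ := exists_prod Y A
  have hc := W.pull_mem_Alg (h0.lift (f.comp r) s) hc0
  refine ⟨Q, r, s, h, _, hc, fun a ha m => ?_⟩
  have e : Φ a = W.fib h0 (c0 * W.pull q0 a) := by
    refine sub_eq_zero.1 (W.eq_zero_of_left fun b => ?_)
    rw [mul_sub, map_sub, ← W.fib_mul_left h0, W.tr_fib h0, h1 a ha b, ← mul_assoc, ← mul_assoc,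
      W.Alg_comm hc0, sub_self]
  rw [← mul_assoc, W.Alg_comm hc, mul_assoc, W.fib_mul_left h, e, ← W.fib_base h0 h f,
    map_mul (W.pull _), W.pull_pull, W.pull_congr (g := s) (fun x => by simp) a]

end Weil

end Pool.Agent.MP_0c8446_ag

end

section

namespace Pool.Agent.MP_0c8446_ag

open Set Polynomial
open scoped TensorProduct

universe u v w x

variable {k : Type u} [Field k] [IsAlgClosed k] {K : Type v} [Field K] [CharZero K]
  (W : Weil.{u, v, w} k K)

variable {A : Var k} {D : Type} [Fintype D] {e : D → W.H A} {i : ℕ} {V : Submodule K (W.H A)}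
  {Φ : Module.End K (W.H A)} {α : D → K}

section TF1helpers

omit [IsAlgClosed k] [CharZero K] [Fintype D]

theorem TF1_mon_map {ι ι' : Type} {Y : Var k} (σ : ι → ι') (l : List ι) (p : ι' → Mor Y A)
    (I : ι' → D) : W.mon e (l.map σ) p I = W.mon e l (p ∘ σ) (I ∘ σ) := by
  simp [Weil.mon, List.map_map, Function.comp_def]

theorem TF1_mon_congr {ι : Type} {Y : Var k} (l : List ι) {p p' : ι → Mor Y A}
    (h : ∀ j ∈ l, p j = p' j) (I : ι → D) : W.mon e l p I = W.mon e l p' I := by
  unfold Weil.mon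
  congr 1
  exact List.map_congr_left fun j hj => by rw [h j hj]

theorem TF1_mon_last {ι : Type} {Y : Var k} (l : List ι) (j : ι) (p : ι → Mor Y A)
    (I : ι → D) : W.mon e (l ++ [j]) p I = W.mon e l p I * W.pull (p j) (e (I j)) := by
  simp [Weil.mon]

theorem TF1_mon_prod {ι ι' : Type} {P Y Y' : Var k} (r : Mor P Y) (s : Mor P Y') (l : List ι)
    (l' : List ι') (p : ι → Mor Y A) (p' : ι' → Mor Y' A) (I : ι ⊕ ι' → D) :
    W.mon e (l.map Sum.inl ++ l'.map Sum.inr)
      (Sum.elim (fun j => (p j).comp r) (fun j => (p' j).comp s)) I =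
      W.pull r (W.mon e l p (I ∘ Sum.inl)) * W.pull s (W.mon e l' p' (I ∘ Sum.inr)) := by
  rw [W.mon_append, W.pull_mon, W.pull_mon]
  rfl

end TF1helpers

omit [Fintype D] in
theorem TF1_op (hV : ∀ x, e x ∈ V) (hΦ : W.Corr V Φ) (hα : ∀ x, Φ (e x) = α x • e x) {ι : Type}
    {Y : Var k} {l : List ι} {j : ι} (hj : j ∉ l) (p : ι → Mor Y A) :
    ∃ (Q : Var k) (r : Mor Q Y) (s : Mor Q A) (h : IsProd r s) (p' : ι → Mor Q A),
      ∃ c ∈ W.Alg Q, ∀ (m : W.H Y) (I : ι → D), α (I j) • (m * W.mon e (l ++ [j]) p I) =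
        W.fib h (c * W.pull r m * W.mon e (l ++ [j]) p' I) := by
  classical
  obtain ⟨Q, r, s, h, c, hc, H⟩ := Weil.Corr.exists_fib W hΦ (p j)
  refine ⟨Q, r, s, h, Function.update (fun j' => (p j').comp r) j s, c, hc, fun m I => ?_⟩
  have h1 : W.mon e l (Function.update (fun j' => (p j').comp r) j s) I =
      W.pull r (W.mon e l p I) := by
    rw [W.pull_mon]
    refine TF1_mon_congr W l (fun j' hj' => ?_) I
    exact Function.update_of_ne (show j' ≠ j from fun h' => hj (h' ▸ hj')) _ _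
  rw [TF1_mon_last, TF1_mon_last, h1, Function.update_self, mul_assoc c,
    ← mul_assoc (W.pull r m), ← map_mul, ← H _ (hV _), hα, map_smul, mul_smul_comm, mul_assoc]

omit [Fintype D] in
theorem Weil.tfam_TT (he : ∀ x, e x ∈ W.gr A i) (hV : ∀ x, e x ∈ V) (hΦ : W.Corr V Φ)
    (hα : ∀ x, Φ (e x) = α x • e x) : TFam α (W.TT e) := by
  refine ⟨fun {ι ι'} _ _ σ u hu => ?_, fun {ι ι'} _ _ u hu u' hu' => ?_, ?_,
    fun {ι} _ j u hu => ?_⟩
  · induction hu using Submodule.span_induction with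
    | mem x hx =>
      obtain ⟨l, Y, p, z, hl, hz, rfl⟩ := hx
      refine Submodule.subset_span ⟨l.map σ, Y, p ∘ σ.symm, z, hl.map σ, hz, funext fun I => ?_⟩
      have : (p ∘ σ.symm) ∘ σ = p := funext fun j => by simp
      rw [TF1_mon_map, this]
    | zero => exact zero_mem _
    | add x y _ _ hx hy => exact add_mem hx hy
    | smul c x _ hx => exact Submodule.smul_mem _ c hx
  · induction hu using Submodule.span_induction with
    | mem x hx =>
      obtain ⟨l, Y, p, z, hl, hz, rfl⟩ := hx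
      induction hu' using Submodule.span_induction with
      | mem x' hx' =>
        obtain ⟨l', Y', p', z', hl', hz', rfl⟩ := hx'
        obtain ⟨P, r, s, h⟩ := exists_prod Y Y'
        refine Submodule.subset_span ⟨l.map Sum.inl ++ l'.map Sum.inr, P,
          Sum.elim (fun j => (p j).comp r) (fun j => (p' j).comp s), W.pull r z * W.pull s z',
          hl.append hl', W.mul_mem_Alg (W.pull_mem_Alg r hz) (W.pull_mem_Alg s hz'),
          funext fun I => ?_⟩
        rw [TF1_mon_prod, tmul, ← W.tr_prod h, map_mul (W.pull r), map_mul (W.pull s), mul_assoc,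
          mul_assoc, ← mul_assoc (W.pull r (W.mon e l p _)),
          ← W.Alg_comm (W.pull_mem_Alg s hz') (W.pull r _), mul_assoc]
      | zero =>
        have : tmul (fun I => W.tr Y (z * W.mon e l p I)) (0 : (ι' → D) → K) = 0 :=
          funext fun I => by simp [tmul]
        rw [this]
        exact zero_mem _
      | add x y _ _ hx hy =>
        have : tmul (fun I => W.tr Y (z * W.mon e l p I)) (x + y) =
            tmul (fun I => W.tr Y (z * W.mon e l p I)) x +
              tmul (fun I => W.tr Y (z * W.mon e l p I)) y :=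
          funext fun I => by simp [tmul, mul_add]
        rw [this]
        exact add_mem hx hy
      | smul c x _ hx =>
        have : tmul (fun I => W.tr Y (z * W.mon e l p I)) (c • x) =
            c • tmul (fun I => W.tr Y (z * W.mon e l p I)) x :=
          funext fun I => by simp [tmul, mul_left_comm]
        rw [this]
        exact Submodule.smul_mem _ c hx
    | zero =>
      have : tmul (0 : (ι → D) → K) u' = 0 := funext fun I => by simp [tmul]
      rw [this]
      exact zero_mem _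
    | add x y _ _ hx hy =>
      have : tmul (x + y) u' = tmul x u' + tmul y u' := funext fun I => by simp [tmul, add_mul]
      rw [this]
      exact add_mem hx hy
    | smul c x _ hx =>
      have : tmul (c • x) u' = c • tmul x u' := funext fun I => by simp [tmul, mul_assoc]
      rw [this]
      exact Submodule.smul_mem _ c hx
  · obtain ⟨x⟩ : Nonempty A.pts := inferInstance
    refine Submodule.subset_span ⟨[], A, fun j => j.elim, W.cl A {x},
      ⟨List.nodup_nil, fun j => j.elim⟩, W.cl_mem_Alg (isSub_singleton x), funext fun I => ?_⟩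
    simp [Weil.mon, W.tr_pt]
  · induction hu using Submodule.span_induction with
    | mem x hx =>
      obtain ⟨l, Y, p, z, hl, hz, rfl⟩ := hx
      obtain ⟨l0, hj, hl0⟩ := exists_cpl_last j
      obtain ⟨ε, -, hε⟩ := W.mon_perm he (hl.perm hl0)
      obtain ⟨Q, r, s, h, p', c, hc, H⟩ := TF1_op W hV hΦ hα hj p
      have : (fun I => α (I j) * W.tr Y (z * W.mon e l p I)) =
          ε • fun I => W.tr Q (c * W.pull r z * W.mon e (l0 ++ [j]) p' I) := by
        funext I
        rw [Pi.smul_apply, ← W.tr_fib h, ← H, hε, mul_smul_comm, map_smul, map_smul,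
          smul_eq_mul, smul_eq_mul, smul_eq_mul, mul_left_comm]
      rw [this]
      exact Submodule.smul_mem _ ε (Submodule.subset_span
        ⟨l0 ++ [j], Q, p', _, hl0, W.mul_mem_Alg hc (W.pull_mem_Alg r hz), rfl⟩)
    | zero =>
      have : (fun I : ι → D => α (I j) * (0 : (ι → D) → K) I) = 0 := funext fun I => by simp
      rw [this]
      exact zero_mem _
    | add x y _ _ hx hy =>
      have : (fun I : ι → D => α (I j) * (x + y) I) =
          (fun I => α (I j) * x I) + fun I => α (I j) * y I := funext fun I => by simp [mul_add]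
      rw [this]
      exact add_mem hx hy
    | smul c x _ hx =>
      have : (fun I : ι → D => α (I j) * (c • x) I) = c • fun I => α (I j) * x I :=
        funext fun I => by simp [mul_left_comm]
      rw [this]
      exact Submodule.smul_mem _ c hx

theorem Weil.tfam_BB (he : ∀ x, e x ∈ W.gr A i) (hV : ∀ x, e x ∈ V) (hΦ : W.Corr V Φ)
    (hα : ∀ x, Φ (e x) = α x • e x) : TFam α (W.BB e) := by
  classical
  refine ⟨fun {ι ι'} _ _ σ u hu => ?_, fun {ι ι'} _ _ u hu u' hu' => ?_, ?_,
    fun {ι} _ j u hu => ?_⟩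
  · rw [Weil.mem_BB] at hu ⊢
    intro l Y p hl
    have h1 := hu (l.map σ.symm) Y (p ∘ σ) (hl.map σ.symm)
    have h2 : ∑ I : ι' → D, u (I ∘ σ) • W.mon e l p I =
        ∑ J : ι → D, u J • W.mon e (l.map σ.symm) (p ∘ σ) J := by
      refine Fintype.sum_equiv (σ.symm.arrowCongr (Equiv.refl D)) _ _ fun I => ?_
      have h3 : (σ.symm.arrowCongr (Equiv.refl D)) I = I ∘ σ := funext fun j => by simp
      rw [h3, TF1_mon_map]
      congr 2
      · funext j
        simp
      · funext j
        simp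
    rw [h2]
    exact h1
  · rw [Weil.mem_BB] at hu hu' ⊢
    intro l Y p hl
    obtain ⟨l1, hl1⟩ := exists_cpl ι
    obtain ⟨l2, hl2⟩ := exists_cpl ι'
    obtain ⟨ε, -, hε⟩ := W.mon_perm he (hl.perm (hl1.append hl2))
    have h2 : ∑ I : ι ⊕ ι' → D, tmul u u' I • W.mon e l p I =
        ε • ((∑ I, u I • W.mon e l1 (p ∘ Sum.inl) I) *
          ∑ I, u' I • W.mon e l2 (p ∘ Sum.inr) I) := by
      rw [Finset.sum_mul_sum, ← Fintype.sum_prod_type', Finset.smul_sum]
      refine Fintype.sum_equiv (Equiv.sumArrowEquivProdArrow ι ι' D) _ _ fun I => ?_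
      rw [hε, W.mon_append, smul_comm, smul_mul_smul_comm]
      rfl
    rw [h2]
    exact Submodule.smul_mem _ ε (W.mul_mem_Alg (hu _ _ _ hl1) (hu' _ _ _ hl2))
  · rw [Weil.mem_BB]
    intro l Y p hl
    refine sum_mem fun I _ => Submodule.smul_mem _ _ ?_
    obtain rfl : l = [] := List.eq_nil_iff_forall_not_mem.2 fun j => j.elim
    exact W.one_mem_Alg Y
  · rw [Weil.mem_BB] at hu ⊢
    intro l Y p hl
    obtain ⟨l0, hj, hl0⟩ := exists_cpl_last j
    obtain ⟨ε, -, hε⟩ := W.mon_perm he (hl.perm hl0)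
    obtain ⟨Q, r, s, h, p', c, hc, H⟩ := TF1_op W hV hΦ hα hj p
    have h2 : ∑ I : ι → D, (α (I j) * u I) • W.mon e l p I =
        ε • W.fib h (c * ∑ I, u I • W.mon e (l0 ++ [j]) p' I) := by
      rw [Finset.mul_sum, map_sum, Finset.smul_sum]
      refine Finset.sum_congr rfl fun I _ => ?_
      have h3 := H 1 I
      rw [map_one, mul_one, one_mul] at h3
      rw [mul_smul_comm, map_smul, ← h3, hε, smul_smul, smul_smul, smul_smul]
      congr 1
      ring
    rw [h2]
    exact Submodule.smul_mem _ ε (W.fib_mem_Alg h (W.mul_mem_Alg hc (hu _ _ _ hl0)))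

theorem Weil.tcon_TT (he : ∀ x, e x ∈ W.gr A i) : TCon (W.TT e) (W.BB e) := by
  classical
  intro ι ι' _ _ _ b hb u hu
  induction hu using Submodule.span_induction with
  | mem x hx =>
    obtain ⟨l', Y', p', z', hl', hz', rfl⟩ := hx
    rw [Weil.mem_BB] at hb ⊢
    intro l Y p hl
    obtain ⟨P, r, s, h⟩ := exists_prod Y Y'
    have h1 := W.fib_mem_Alg h (W.mul_mem_Alg (W.pull_mem_Alg s hz')
      (hb _ P (Sum.elim (fun j => (p j).comp r) (fun j => (p' j).comp s)) (hl.append hl')))
    convert h1 using 1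
    rw [Finset.mul_sum, map_sum]
    simp only [tcon, Finset.sum_smul]
    rw [← Fintype.sum_prod_type']
    refine Fintype.sum_equiv (Equiv.sumArrowEquivProdArrow ι ι' D).symm _ _ fun I => ?_
    rw [TF1_mon_prod, mul_smul_comm, map_smul, ← mul_assoc,
      W.Alg_comm (W.pull_mem_Alg s hz'), mul_assoc, ← map_mul, W.fib_tmul, smul_smul]
    rfl
  | zero =>
    have : tcon b (0 : (ι' → D) → K) = 0 := funext fun I => by simp [tcon]
    rw [this]
    exact zero_mem _
  | add x y _ _ hx hy =>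
    have : tcon b (x + y) = tcon b x + tcon b y :=
      funext fun I => by simp [tcon, mul_add, Finset.sum_add_distrib]
    rw [this]
    generalize W.BB e ι = S at hx hy ⊢
    exact add_mem hx hy
  | smul c x _ hx =>
    have : tcon b (c • x) = c • tcon b x :=
      funext fun I => by simp [tcon, Finset.mul_sum, mul_left_comm]
    rw [this]
    generalize W.BB e ι = S at hx ⊢
    exact Submodule.smul_mem _ c hx

end Pool.Agent.MP_0c8446_ag

end

section

namespace Pool.Agent.MP_0c8446_ag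

open Set Polynomial
open scoped TensorProduct

universe u v w x

variable {k : Type u} [Field k] [IsAlgClosed k] {K : Type v} [Field K] [CharZero K]
  (W : Weil.{u, v, w} k K)

variable {A : Var k} {D : Type} [Fintype D] [DecidableEq D] {e : D → W.H A} {i : ℕ}
  {V : Submodule K (W.H A)} {z : W.H A}

omit [IsAlgClosed k] [CharZero K] [Fintype D] [DecidableEq D] in
theorem Weil.tmat_TT (hz : z ∈ W.Alg A) :
    tmat (Matrix.of fun x y => W.tr A (z * (e x * e y))) ∈ W.TT e Bool := by
  refine Submodule.subset_span ⟨[false, true], A, fun _ => Mor.id A, z, cpl_bool, hz, ?_⟩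
  funext I
  simp [tmat, Weil.mon, W.pull_id (Mor.id A) rfl]

theorem TF2_tr {P X Y : Var k} {p : Mor P X} {q : Mor P Y} (h : IsProd p q) (b x : W.H Y)
    (w : W.H X) :
    W.tr P (W.pull q b * (W.pull p w * W.pull q x)) = W.tr X w * W.tr Y (b * x) := by
  rw [← W.tr_fib h.symm, W.fib_mul_left, W.fib_swap, mul_smul_comm, map_smul, smul_eq_mul]

theorem Weil.exists_tmat_BB (he : ∀ x, e x ∈ W.gr A i) (hli : LinearIndependent K e)
    (hV : Submodule.span K (range e) = V) (h : W.Inv2 V z) :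
    ∃ (E' : Matrix D D K) (c : K), c ≠ 0 ∧ tmat E' ∈ W.BB e Bool ∧
      (Matrix.of fun x y => W.tr A (z * (e x * e y))) * E' = c • (1 : Matrix D D K) := by
  obtain ⟨P, p, q, hP, β, hβ, h1, c, hc, h2⟩ := h
  have h3 : W.sq p q V ≤ Submodule.span K
      (range fun x : D × D => W.pull p (e x.1) * W.pull q (e x.2)) := by
    refine Submodule.span_le.2 ?_
    rintro _ ⟨a, ha, b, hb, rfl⟩
    rw [← hV, Submodule.mem_span_range_iff_exists_fun] at ha hb
    obtain ⟨s, rfl⟩ := ha
    obtain ⟨t, rfl⟩ := hb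
    simp only [map_sum, map_smul, Finset.sum_mul_sum, smul_mul_smul_comm]
    exact sum_mem fun x _ => sum_mem fun y _ =>
      Submodule.smul_mem _ _ (Submodule.subset_span ⟨(x, y), rfl⟩)
  obtain ⟨E, rfl⟩ := (Submodule.mem_span_range_iff_exists_fun K).1 (h3 h1)
  refine ⟨Matrix.of fun x y => E (x, y), c, hc, W.mem_BB.2 fun l Y r hl => ?_, ?_⟩
  · obtain ⟨ε, -, hε⟩ := W.mon_perm he (hl.perm cpl_bool)
    have h4 := W.pull_mem_Alg (hP.lift (r false) (r true)) hβ
    have e1 : p.comp (hP.lift (r false) (r true)) = r false := Mor.ext' fun x => by simp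
    have e2 : q.comp (hP.lift (r false) (r true)) = r true := Mor.ext' fun x => by simp
    simp only [map_sum, map_smul, map_mul, W.pull_pull, e1, e2] at h4
    rw [← (Equiv.boolArrowEquivProd D).sum_comp] at h4
    simp only [hε, smul_comm _ ε, ← Finset.smul_sum]
    refine Submodule.smul_mem _ _ ?_
    simpa [tmat, Weil.mon] using h4
  · ext x y
    have h4 : ∑ y, (∑ w, W.tr A (z * (e x * e w)) * E (w, y)) • e y = c • e x := by
      refine sub_eq_zero.1 (W.eq_zero_of_left fun b => ?_)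
      have h5 := h2 (e x) (hV ▸ Submodule.subset_span ⟨x, rfl⟩) b
      simp only [Finset.mul_sum, mul_smul_comm, map_sum, map_smul, ← mul_assoc (W.pull p _),
        ← map_mul, TF2_tr W hP, smul_eq_mul, Fintype.sum_prod_type_right] at h5
      simp only [mul_sub, map_sub, Finset.mul_sum, mul_smul_comm, map_sum, map_smul, smul_eq_mul,
        Finset.sum_mul, ← h5]
      refine sub_eq_zero.2 (Finset.sum_congr rfl fun y _ => Finset.sum_congr rfl fun w _ => ?_)
      rw [mul_assoc z]
      ring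
    have h5 := hli.fintypeLinearCombination_injective (a₁ := fun y =>
      ∑ w, W.tr A (z * (e x * e w)) * E (w, y)) (a₂ := Pi.single x c) (by
        rw [Fintype.linearCombination_apply, h4, Fintype.linearCombination_apply_single])
    rw [Matrix.mul_apply, Matrix.smul_apply, Matrix.one_apply, smul_eq_mul, mul_ite, mul_one,
      mul_zero]
    exact (congrFun h5 y).trans (by simp only [Pi.single_apply, eq_comm])

omit [IsAlgClosed k] [CharZero K] in
theorem TF2_pull {X Y : Var k} (f : Mor X Y) (l : List (Mor Y A × W.H A)) :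
    W.pull f (l.map fun x => W.pull x.1 x.2).prod =
      ((l.map fun x => (x.1.comp f, x.2)).map fun x => W.pull x.1 x.2).prod := by
  rw [map_list_prod, List.map_map, List.map_map]
  congr 2
  funext x
  exact W.pull_pull f x.1 x.2

omit [CharZero K] [Fintype D] [DecidableEq D] in
theorem Weil.sp_pow (hA : W.Sp V A) {Y : Var k} (hY : Pow A Y) : W.Sp V Y := by
  induction hY with
  | base => exact hA
  | prod a b h _ _ ihX ihY =>
    intro c
    refine (W.prod_span h _ fun s t => ?_).ge (Submodule.mem_top (x := c))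
    induction ihX s using Submodule.span_induction with
    | zero => rw [map_zero, zero_mul]; exact zero_mem _
    | add x y _ _ hx hy => rw [map_add, add_mul]; exact add_mem hx hy
    | smul c x _ hx => rw [map_smul, smul_mul_assoc]; exact Submodule.smul_mem _ _ hx
    | mem x hx =>
      induction ihY t using Submodule.span_induction with
      | zero => rw [map_zero, mul_zero]; exact zero_mem _
      | add x y _ _ hx hy => rw [map_add, mul_add]; exact add_mem hx hy
      | smul c x _ hx => rw [map_smul, mul_smul_comm]; exact Submodule.smul_mem _ _ hx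
      | mem y hy =>
        obtain ⟨z, hz, l, hl, rfl⟩ := hx
        obtain ⟨z', hz', l', hl', rfl⟩ := hy
        refine Submodule.subset_span ⟨W.pull a z * W.pull b z',
          W.mul_mem_Alg (W.pull_mem_Alg a hz) (W.pull_mem_Alg b hz'),
          (l.map fun x => (x.1.comp a, x.2)) ++ l'.map fun x => (x.1.comp b, x.2),
          fun x hx => ?_, ?_⟩
        · rcases List.mem_append.1 hx with hx | hx
          · obtain ⟨y, hy, rfl⟩ := List.mem_map.1 hx
            exact hl y hy
          · obtain ⟨y, hy, rfl⟩ := List.mem_map.1 hx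
            exact hl' y hy
        · rw [map_mul, map_mul, List.map_append, List.prod_append, ← TF2_pull, ← TF2_pull,
            mul_assoc, mul_assoc, ← mul_assoc (W.pull b z'),
            W.Alg_comm (W.pull_mem_Alg b hz') (W.pull a _), mul_assoc]

omit [DecidableEq D] in
/-- From the tensor statement to conjecture D. -/
theorem Weil.eq_zero_of_nul (hV : Submodule.span K (range e) = V)
    (h0 : ∀ (ι : Type) [Fintype ι], ∀ u ∈ nul (W.TT e) (W.BB e) ι, u = 0) {Y : Var k}
    (hY : W.Sp V Y) {a : W.H Y} (ha : a ∈ W.Alg Y) (h : ∀ b ∈ W.Alg Y, W.tr Y (a * b) = 0) :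
    a = 0 := by
  refine W.poincare Y a fun b => ?_
  induction hY b using Submodule.span_induction with
  | zero => rw [mul_zero, map_zero]
  | add x y _ _ hx hy => rw [mul_add, map_add, hx, hy, add_zero]
  | smul c x _ hx => rw [mul_smul_comm, map_smul, hx, smul_zero]
  | mem x hx =>
    obtain ⟨z, hz, l, hl, rfl⟩ := hx
    choose c hc using fun j : Fin l.length => (Submodule.mem_span_range_iff_exists_fun K).1
      (hV ▸ hl (l.get j) (List.get_mem l j))
    have h1 := h0 (Fin l.length) (fun I => W.tr Y (a * z *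
      W.mon e (List.finRange l.length) (fun j => (l.get j).1) I)) (mem_nul.2
        ⟨Submodule.subset_span ⟨_, Y, _, _, cpl_finRange _, W.mul_mem_Alg ha hz, rfl⟩,
          fun b hb => by
            rw [← h _ (W.mul_mem_Alg hz (W.mem_BB.1 hb _ Y (fun j => (l.get j).1)
              (cpl_finRange _)))]
            simp only [tpair, Finset.mul_sum, mul_smul_comm, map_sum, map_smul, smul_eq_mul,
              mul_assoc]
            exact Finset.sum_congr rfl fun I _ => mul_comm _ _⟩)
    have h2 : (l.map fun x => W.pull x.1 x.2) = (List.finRange l.length).map fun j =>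
        ∑ x, c j x • W.pull (l.get j).1 (e x) := by
      conv_lhs => rw [← List.map_get_finRange l, List.map_map]
      congr 1
      funext j
      simp only [Function.comp_apply, ← hc j, map_sum, map_smul]
    rw [h2, (cpl_finRange _).prod_sum, ← mul_assoc, Finset.mul_sum, map_sum]
    refine Finset.sum_eq_zero fun J _ => ?_
    rw [mul_smul_comm, map_smul]
    exact smul_eq_zero_of_right _ (congrFun h1 J)

omit [IsAlgClosed k] [CharZero K] [DecidableEq D] in
/-- Semilinear automorphisms of the theory preserve the algebraic forms. -/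
theorem Weil.semi_TT (γ : K ≃+* K) (σ : ∀ X, W.H X →+* W.H X)
    (h1 : ∀ X (c : K) a, σ X (c • a) = γ c • σ X a) (h2 : ∀ X Z, σ X (W.cl X Z) = W.cl X Z)
    (h3 : ∀ X Y (f : Mor X Y) a, σ X (W.pull f a) = W.pull f (σ Y a))
    (h4 : ∀ X a, W.tr X (σ X a) = γ (W.tr X a)) (N : Matrix D D K)
    (hN : ∀ x, σ A (∑ y, N y x • e y) = e x) {ι : Type} [Fintype ι] [DecidableEq ι]
    {u : (ι → D) → K} (hu : u ∈ W.TT e ι) : (fun I => γ (tact N u I)) ∈ W.TT e ι := by
  induction hu using Submodule.span_induction with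
  | zero =>
    simp only [tact_zero, Pi.zero_apply, map_zero]
    exact zero_mem _
  | add x y _ _ hx hy =>
    simp only [tact_add, Pi.add_apply, map_add]
    exact add_mem hx hy
  | smul c x _ hx =>
    simp only [tact_smul, Pi.smul_apply, smul_eq_mul, map_mul]
    exact Submodule.smul_mem _ (γ c) hx
  | mem x hx =>
    obtain ⟨l, Y, p, z, hl, hz, rfl⟩ := hx
    have h5 : σ Y z ∈ W.Alg Y := by
      induction hz using Submodule.span_induction with
      | zero => rw [map_zero]; exact zero_mem _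
      | add x y _ _ hx hy => rw [map_add]; exact add_mem hx hy
      | smul c x _ hx => rw [h1]; exact Submodule.smul_mem _ _ hx
      | mem x hx =>
        obtain ⟨Z, hZ, rfl⟩ := hx
        rw [h2]
        exact W.cl_mem_Alg hZ
    refine Submodule.subset_span ⟨l, Y, p, σ Y z, hl, h5, funext fun I => ?_⟩
    have h6 : tact N (fun I => W.tr Y (z * W.mon e l p I)) I =
        W.tr Y (z * (l.map fun j => ∑ y, N y (I j) • W.pull (p j) (e y)).prod) := by
      rw [hl.prod_sum, tact]
      simp only [Finset.mul_sum, mul_smul_comm, map_sum, map_smul, smul_eq_mul, Weil.mon]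
      exact Finset.sum_congr rfl fun J _ => mul_comm _ _
    rw [h6, ← h4, map_mul, map_list_prod, List.map_map, Weil.mon]
    congr 4
    funext j
    rw [← hN (I j), ← h3]
    simp only [Function.comp_apply, map_sum, map_smul]

end Pool.Agent.MP_0c8446_ag

end
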