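import Pool.Agent.Mg.F0c8446.G037438
import Pool.Agent.Mg.F0c8446.G70cc9e

namespace Pool.Agent.MP_0c8446_ag

open Set Matrix

universe u v w x

variable {k : Type u} [Field k] [IsAlgClosed k] {K : Type v} [Field K] [CharZero K]
  {W : Weil.{u, v, w} k K} {G : Type x} [Group G] [MulSemiringAction G k]

omit [IsAlgClosed k] [CharZero K] in
theorem Weil.Gal.exists_mat (ρ : W.Gal G) {A : Var k} {V : Submodule K (W.H A)}
    (hV : ∀ σ, ∀ a ∈ V, ρ.act A σ a ∈ V) {D : Type} [Fintype D] [DecidableEq D]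
    (b : Module.Basis D K V) : ∃ M : G →* Matrix D D K,
      ∀ σ x, ρ.act A σ (b x) = ∑ y, M σ y x • (b y : W.H A) := by
  let r : G →* Module.End K V :=
    { toFun := fun σ => (ρ.act A σ).toLinearMap.restrict (hV σ)
      map_one' := LinearMap.ext fun a => Subtype.ext (by simp)
      map_mul' := fun σ τ => LinearMap.ext fun a => Subtype.ext (by simp) }
  refine ⟨(LinearMap.toMatrixAlgEquiv b).toMonoidHom.comp r, fun σ x => ?_⟩
  have := congrArg Subtype.val (b.sum_repr (r σ (b x)))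
  rw [Submodule.coe_sum] at this
  refine this.symm.trans (Finset.sum_congr rfl fun y _ => ?_)
  exact congrArg (· • (b y : W.H A)) (LinearMap.toMatrix_apply b b (r σ) y x).symm

theorem gi_core (ρ : W.Gal G) {A : Var k} (hA : A.Over G) {V : Submodule K (W.H A)}
    (hV : ∀ σ, ∀ a ∈ V, ρ.act A σ a ∈ V) (hN : ρ.NoIso V) {T : Type} [Fintype T] [DecidableEq T]
    {n : T → Type} [∀ t, Fintype (n t)] [∀ t, DecidableEq (n t)] {e : (Σ t, n t) → W.H A}
    {δ : T → ℕ} (he : ∀ x, e x ∈ W.gr A (δ x.1)) (hli : LinearIndependent K e)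
    (hsp : Submodule.span K (range e) = V) {α : T → K} (hα : Function.Injective α)
    (hF : TFam (fun x : Σ t, n t => α x.1) (W.TT e))
    (hB : TFam (fun x : Σ t, n t => α x.1) (W.BB e)) (hcon : TCon (W.TT e) (W.BB e))
    {E₀ E' : Matrix (Σ t, n t) (Σ t, n t) K} (hE : tmat E₀ ∈ W.TT e Bool)
    (hE' : tmat E' ∈ W.BB e Bool) {c : K} (hc : c ≠ 0) (hEE : E₀ * E' = c • (1 : Matrix _ _ K))
    {j₀ : ℕ} (hj : ∀ x y, E₀ x y ≠ 0 → (δ y.1 + δ x.1) / 2 = j₀) (ι : Type) [Fintype ι] :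
    ∀ u ∈ nul (W.TT e) (W.BB e) ι, u = 0 := by
  classical
  intro u₀ hu₀
  by_contra h0
  obtain ⟨I₀, hI₀⟩ := Function.ne_iff.1 h0
  have hu := nul_proj hα hF hB (fun j => (I₀ j).1) hu₀
  set u : (ι → Σ t, n t) → K := fun I => if ∀ j, (I j).1 = (I₀ j).1 then u₀ I else 0 with hud
  have h0 : u ≠ 0 := fun h => hI₀ (by simpa [hud] using congrFun h I₀)
  have hV' : ∀ x, e x ∈ V := fun x => hsp ▸ Submodule.subset_span ⟨x, rfl⟩
  obtain ⟨g, w, h⟩ := core2 (AlgebraicClosure K) hα hF hB hcon hE hE' hc hEE hu h0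
  obtain ⟨M, hM⟩ := ρ.exists_mat hV ((Module.Basis.span hli).map (LinearEquiv.ofEq _ _ hsp))
  simp only [Module.Basis.map_apply, LinearEquiv.coe_ofEq_apply, Module.Basis.span_apply] at hM
  obtain ⟨s, hs⟩ := ρ.tact_TT3 hA (δ := fun x => δ x.1) he M hM ι
  obtain ⟨s', hs'⟩ := ρ.tact_TT3 hA (δ := fun x => δ x.1) he M hM Bool
  let U := fixingSubgroup G ((s ∪ s' : Finset k) : Set k)
  have hU : ∀ σ : U, ∀ c ∈ s ∪ s', σ.1 • c = c := fun σ c hc =>
    (mem_fixingSubgroup_iff G).1 σ.2 c hc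
  have key : ∀ E, tmat E ∈ W.TT e Bool → ∀ j, (∀ x y, E x y ≠ 0 → (δ y.1 + δ x.1) / 2 = j) →
      ∀ σ : U, (M σ)ᵀ * E * M σ = (ρ.χ σ : K) ^ j • E := fun E hE j hj σ => by
    ext x y
    have := hs' σ (fun c hc => hU σ c (Finset.mem_union_right _ hc)) _ hE fun t => cond t y x
    rw [tact_tmat, Fintype.sum_bool] at this
    refine this.trans ?_
    by_cases h : E x y = 0
    · exact (mul_eq_zero_of_right _ h).trans (mul_eq_zero_of_right _ h).symm
    · rw [← hj x y h]
      rfl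
  obtain ⟨N, ⟨S, hS, hS0⟩, h1, m, m', h2⟩ := git_main h0 (𝓔 := {E | tmat E ∈ W.TT e Bool}) hE
    (by
      have := congrArg det hEE
      rw [det_mul, det_smul, det_one, mul_one] at this
      exact (isUnit_iff_isUnit_det _).2
        (left_ne_zero_of_mul (this ▸ pow_ne_zero _ hc)).isUnit)
    (M.comp U.subtype) ((ρ.χ ^ ((∑ j, δ (I₀ j).1) / 2)).comp U.subtype) (ρ.χ.comp U.subtype)
    (fun σ => funext fun I => by
      refine (hs σ (fun c hc => hU σ c (Finset.mem_union_left _ hc)) u hu.1 I).trans ?_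
      by_cases h : ∀ j, (I j).1 = (I₀ j).1
      · simp only [h]
        rfl
      · exact (mul_eq_zero_of_right _ (if_neg h)).trans (mul_eq_zero_of_right _ (if_neg h)).symm)
    (fun E hE => by
      have : E = ∑ t : T × T, of fun x y => if x.1 = t.1 ∧ y.1 = t.2 then E x y else 0 := by
        ext x y
        rw [Matrix.sum_apply, Finset.sum_eq_single (x.1, y.1)]
        · simp
        · exact fun t _ ht => if_neg fun h => ht (Prod.ext h.1.symm h.2.symm)
        · simp
      rw [this]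
      refine Submodule.sum_mem _ fun t _ => ?_
      have h3 : tmat (of fun x y => if x.1 = t.1 ∧ y.1 = t.2 then E x y else 0) ∈ W.TT e Bool :=
        hF.cut hα (fun τ => τ false = t.1 ∧ τ true = t.2) hE
      refine Submodule.subset_span ⟨h3, (δ t.2 + δ t.1) / 2, key _ h3 _ fun x y h => ?_⟩
      obtain ⟨h4, h5⟩ : x.1 = t.1 ∧ y.1 = t.2 := by_contra fun h' => h (if_neg h')
      rw [h4, h5]) (key _ hE _ hj) h
  let φ := Fintype.linearCombination K e
  have hφ : Function.Injective φ := hli.fintypeLinearCombination_injective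
  refine hS0 (Submodule.map_injective_of_injective hφ ((hN (s ∪ s') (N.map (Submodule.map φ))
    (((∑ j, δ (I₀ j).1) / 2 : ℕ) * m + m') ?_ ?_ ?_ _
    (Multiset.mem_map_of_mem _ hS)).trans (Submodule.map_bot φ).symm))
  · simp only [Multiset.forall_mem_map_iff]
    rintro S - _ ⟨x, -, rfl⟩
    rw [Fintype.linearCombination_apply]
    exact Submodule.sum_mem _ fun y _ => V.smul_mem _ (hV' y)
  · simp only [Multiset.forall_mem_map_iff]
    rintro S hS S' hS' _ ⟨x, hx, rfl⟩ _ ⟨y, hy, rfl⟩ Y p q Z hZ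
    refine Eq.trans ?_ (h1 S hS S' hS'
      (of fun x y => W.tr Y (W.cl Y Z * (W.pull p (e x) * W.pull q (e y))))
      (Submodule.subset_span ⟨[false, true], Y, fun t => cond t q p, _, cpl_bool,
        W.cl_mem_Alg hZ, funext fun I => by simp [tmat, Weil.mon]⟩) x hx y hy)
    simp only [φ, Fintype.linearCombination_apply, map_sum, map_smul, Finset.sum_mul,
      Finset.mul_sum, smul_mul_assoc, mul_smul_comm, smul_eq_mul, dotProduct, mulVec, of_apply]
    rw [Finset.sum_comm]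
    refine Finset.sum_congr rfl fun x _ => Finset.sum_congr rfl fun y _ => ?_
    ring
  · intro σ hσ
    have h3 := h2 ⟨σ, (mem_fixingSubgroup_iff G).2 hσ⟩
    rw [Multiset.map_map]
    refine (congrArg Multiset.prod (Multiset.map_congr rfl fun S _ =>
      detOn_map hφ (f := toLin' (M σ)) (fun x => ?_) S)).trans (h3.trans ?_)
    · simp only [φ, Fintype.linearCombination_apply, map_sum, map_smul, AlgHom.toLinearMap_apply,
        toLin'_apply, mulVec, dotProduct, Finset.sum_smul, hM, Finset.smul_sum, smul_smul]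
      rw [Finset.sum_comm]
      simp only [mul_comm]
    · rw [zpow_add₀ (ρ.χ σ).ne_zero, _root_.zpow_mul, zpow_natCast]
      simp

omit [IsAlgClosed k] [CharZero K] in
theorem Weil.gi_mem (W : Weil.{u, v, w} k K) {X : Var k} {j : ℕ} {α : Set X.pts →₀ ℚ}
    (hα : IsCycle j α) : W.cycleClass α ∈ W.Alg X ∧ W.cycleClass α ∈ W.gr X (2 * j) := by
  refine ⟨Submodule.sum_mem _ fun Z hZ => Submodule.smul_mem _ _ (W.cl_mem_Alg (hα Z hZ).1),
    Submodule.sum_mem _ fun Z hZ => Submodule.smul_mem _ _ ?_⟩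
  have := W.cl_gr X Z (hα Z hZ).1
  rwa [← (hα Z hZ).2, Nat.add_sub_cancel_left] at this

theorem Weil.gi_num (W : Weil.{u, v, w} k K) {X : Var k} {j : ℕ} {α : Set X.pts →₀ ℚ}
    (hα : IsCycle j α)
    (hnum : ∀ β, IsCycle (X.d - j) β → W.tr X (W.cycleClass α * W.cycleClass β) = 0) :
    ∀ Z, IsSub Z → W.tr X (W.cl X Z * W.cycleClass α) = 0 := fun Z hZ => by
  by_cases hd : dim Z = j
  · have := hnum (Finsupp.single Z 1) fun Z' hZ' => by
      obtain rfl : Z' = Z := Finset.mem_singleton.1 (Finsupp.support_single_subset hZ')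
      have := X.dim_le Z'
      exact ⟨hZ, by omega⟩
    rw [W.cl_comm hZ]
    simpa [Weil.cycleClass, Finsupp.sum_single_index] using this
  · exact W.tr_cl_mul_gr hZ (W.gi_mem hα).2 (by omega)

end Pool.Agent.MP_0c8446_ag
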