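import Pool.Agent.Mg.F0c8446.G70cc9e
import Pool.Agent.Mg.F0c8446.G16b606
import Pool.Agent.Mg.F0c8446.Gbde46f

section

namespace Pool.Agent.MP_0c8446_ag

open Set
open scoped TensorProduct

universe u v w x

variable {k : Type u} [Field k] [IsAlgClosed k] {K : Type v} [Field K] [CharZero K]
  (W : Weil.{u, v, w} k K)

variable {A : Var k} {V : Submodule K (W.H A)} {Φ : Module.End K (W.H A)}

theorem Weil.fib_mul_right {P X Y : Var k} {p : Mor P X} {q : Mor P Y} (h : IsProd p q)
    (a : W.H X) (c : W.H P) : W.fib h (c * W.pull p a) = W.fib h c * a := by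
  refine W.Fib_ind h (C := fun c => W.fib h (c * W.pull p a) = W.fib h c * a) (by simp)
    (fun a' b => ?_) (fun x y hx hy => ?_) c
  · rw [mul_assoc, W.fib_mul_left, W.fib_swap, W.fib_tmul, mul_smul_comm, smul_mul_assoc]
  · simp only [add_mul, map_add, hx, hy]

/-- Applying the operator `Φ` at any position of a complete list. -/
theorem Weil.op_mid {D : Type} {e : D → W.H A} {α : D → K} (hV : ∀ x, e x ∈ V) (hΦ : W.Corr V Φ)
    (hα : ∀ x, Φ (e x) = α x • e x) {ι : Type} {Y : Var k} {l : List ι} (hl : Cpl l) (j : ι)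
    (p : ι → Mor Y A) : ∃ (Q : Var k) (r : Mor Q Y) (s : Mor Q A) (h : IsProd r s)
      (p' : ι → Mor Q A), ∃ c ∈ W.Alg Q, ∀ (m : W.H Y) (I : ι → D),
        α (I j) • (m * W.mon e l p I) = W.fib h (c * W.pull r m * W.mon e l p' I) := by
  classical
  obtain ⟨l1, l2, rfl⟩ := List.append_of_mem (hl.2 j)
  have hn := List.nodup_middle.1 hl.1
  rw [List.nodup_cons, List.mem_append, not_or] at hn
  obtain ⟨Q, r, s, h, c, hc, H⟩ := Weil.Corr.exists_fib W hΦ (p j)
  refine ⟨Q, r, s, h, Function.update (fun j' => (p j').comp r) j s, c, hc, fun m I => ?_⟩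
  have h1 : ∀ l : List ι, j ∉ l → W.mon e l (Function.update (fun j' => (p j').comp r) j s) I =
      W.pull r (W.mon e l p I) := fun l hj => by
    rw [W.pull_mon]
    refine TF1_mon_congr W l (fun j' hj' => ?_) I
    exact Function.update_of_ne (show j' ≠ j from fun h' => hj (h' ▸ hj')) _ _
  have h2 : ∀ {Z : Var k} (q : ι → Mor Z A), W.mon e (l1 ++ j :: l2) q I =
      W.mon e l1 q I * W.pull (q j) (e (I j)) * W.mon e l2 q I := fun q => by
    simp [Weil.mon, mul_assoc]
  rw [h2, h2, h1 _ hn.1.1, h1 _ hn.1.2, Function.update_self, ← mul_assoc (c * W.pull r m),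
    W.fib_mul_right, mul_assoc c, ← mul_assoc (W.pull r m), ← map_mul, ← H _ (hV _), hα,
    map_smul, mul_smul_comm, smul_mul_assoc, mul_assoc, mul_assoc, mul_assoc]

theorem Weil.tfam_TT3 {D : Type} {e : D → W.H A} {α : D → K} (hV : ∀ x, e x ∈ V)
    (hΦ : W.Corr V Φ) (hα : ∀ x, Φ (e x) = α x • e x) : TFam α (W.TT e) := by
  refine ⟨fun {ι ι'} _ _ σ u hu => ?_, fun {ι ι'} _ _ u hu u' hu' => ?_, ?_,
    fun {ι} _ j u hu => ?_⟩
  · induction hu using Submodule.span_induction with
    | mem x hx =>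
      obtain ⟨l, Y, p, z, hl, hz, rfl⟩ := hx
      refine Submodule.subset_span ⟨l.map σ, Y, p ∘ σ.symm, z, hl.map σ, hz, funext fun I => ?_⟩
      have : (p ∘ σ.symm) ∘ σ = p := funext fun j => by simp
      rw [TF1_mon_map, this]
    | zero => exact zero_mem _
    | add x y _ _ hx hy => exact add_mem hx hy
    | smul c x _ hx => exact Submodule.smul_mem _ c hx
  · induction hu using Submodule.span_induction with
    | mem x hx =>
      obtain ⟨l, Y, p, z, hl, hz, rfl⟩ := hx
      induction hu' using Submodule.span_induction with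
      | mem x' hx' =>
        obtain ⟨l', Y', p', z', hl', hz', rfl⟩ := hx'
        obtain ⟨P, r, s, h⟩ := exists_prod Y Y'
        refine Submodule.subset_span ⟨l.map Sum.inl ++ l'.map Sum.inr, P,
          Sum.elim (fun j => (p j).comp r) (fun j => (p' j).comp s), W.pull r z * W.pull s z',
          hl.append hl', W.mul_mem_Alg (W.pull_mem_Alg r hz) (W.pull_mem_Alg s hz'),
          funext fun I => ?_⟩
        rw [TF1_mon_prod, tmul, ← W.tr_prod h, map_mul (W.pull r), map_mul (W.pull s), mul_assoc,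
          mul_assoc, ← mul_assoc (W.pull r (W.mon e l p _)),
          ← W.Alg_comm (W.pull_mem_Alg s hz') (W.pull r _), mul_assoc]
      | zero =>
        have : tmul (fun I => W.tr Y (z * W.mon e l p I)) (0 : (ι' → D) → K) = 0 :=
          funext fun I => by simp [tmul]
        rw [this]
        exact zero_mem _
      | add x y _ _ hx hy =>
        have : tmul (fun I => W.tr Y (z * W.mon e l p I)) (x + y) =
            tmul (fun I => W.tr Y (z * W.mon e l p I)) x +
              tmul (fun I => W.tr Y (z * W.mon e l p I)) y :=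
          funext fun I => by simp [tmul, mul_add]
        rw [this]
        exact add_mem hx hy
      | smul c x _ hx =>
        have : tmul (fun I => W.tr Y (z * W.mon e l p I)) (c • x) =
            c • tmul (fun I => W.tr Y (z * W.mon e l p I)) x :=
          funext fun I => by simp [tmul, mul_left_comm]
        rw [this]
        exact Submodule.smul_mem _ c hx
    | zero =>
      have : tmul (0 : (ι → D) → K) u' = 0 := funext fun I => by simp [tmul]
      rw [this]
      exact zero_mem _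
    | add x y _ _ hx hy =>
      have : tmul (x + y) u' = tmul x u' + tmul y u' := funext fun I => by simp [tmul, add_mul]
      rw [this]
      exact add_mem hx hy
    | smul c x _ hx =>
      have : tmul (c • x) u' = c • tmul x u' := funext fun I => by simp [tmul, mul_assoc]
      rw [this]
      exact Submodule.smul_mem _ c hx
  · obtain ⟨x⟩ : Nonempty A.pts := inferInstance
    refine Submodule.subset_span ⟨[], A, fun j => j.elim, W.cl A {x},
      ⟨List.nodup_nil, fun j => j.elim⟩, W.cl_mem_Alg (isSub_singleton x), funext fun I => ?_⟩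
    simp [Weil.mon, W.tr_pt]
  · induction hu using Submodule.span_induction with
    | mem x hx =>
      obtain ⟨l, Y, p, z, hl, hz, rfl⟩ := hx
      obtain ⟨Q, r, s, h, p', c, hc, H⟩ := W.op_mid hV hΦ hα hl j p
      refine Submodule.subset_span ⟨l, Q, p', c * W.pull r z, hl,
        W.mul_mem_Alg hc (W.pull_mem_Alg r hz), funext fun I => ?_⟩
      rw [← W.tr_fib h, ← H, map_smul, smul_eq_mul]
    | zero =>
      have : (fun I : ι → D => α (I j) * (0 : (ι → D) → K) I) = 0 := funext fun I => by simp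
      rw [this]
      exact zero_mem _
    | add x y _ _ hx hy =>
      have : (fun I : ι → D => α (I j) * (x + y) I) =
          (fun I => α (I j) * x I) + fun I => α (I j) * y I := funext fun I => by simp [mul_add]
      rw [this]
      exact add_mem hx hy
    | smul c x _ hx =>
      have : (fun I : ι → D => α (I j) * (c • x) I) = c • fun I => α (I j) * x I :=
        funext fun I => by simp [mul_left_comm]
      rw [this]
      exact Submodule.smul_mem _ c hx

theorem Weil.tcon_TT3 {D : Type} [Fintype D] (e : D → W.H A) : TCon (W.TT e) (W.BB e) := by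
  classical
  intro ι ι' _ _ _ b hb u hu
  induction hu using Submodule.span_induction with
  | mem x hx =>
    obtain ⟨l', Y', p', z', hl', hz', rfl⟩ := hx
    rw [Weil.mem_BB] at hb ⊢
    intro l Y p hl
    obtain ⟨P, r, s, h⟩ := exists_prod Y Y'
    have h1 := W.fib_mem_Alg h (W.mul_mem_Alg (W.pull_mem_Alg s hz')
      (hb _ P (Sum.elim (fun j => (p j).comp r) (fun j => (p' j).comp s)) (hl.append hl')))
    convert h1 using 1
    rw [Finset.mul_sum, map_sum]
    simp only [tcon, Finset.sum_smul]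
    rw [← Fintype.sum_prod_type']
    refine Fintype.sum_equiv (Equiv.sumArrowEquivProdArrow ι ι' D).symm _ _ fun I => ?_
    rw [TF1_mon_prod, mul_smul_comm, map_smul, ← mul_assoc,
      W.Alg_comm (W.pull_mem_Alg s hz'), mul_assoc, ← map_mul, W.fib_tmul, smul_smul]
    rfl
  | zero =>
    have : tcon b (0 : (ι' → D) → K) = 0 := funext fun I => by simp [tcon]
    rw [this]
    exact zero_mem _
  | add x y _ _ hx hy =>
    have : tcon b (x + y) = tcon b x + tcon b y :=
      funext fun I => by simp [tcon, mul_add, Finset.sum_add_distrib]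
    rw [this]
    generalize W.BB e ι = S at hx hy ⊢
    exact add_mem hx hy
  | smul c x _ hx =>
    have : tcon b (c • x) = c • tcon b x :=
      funext fun I => by simp [tcon, Finset.mul_sum, mul_left_comm]
    rw [this]
    generalize W.BB e ι = S at hx ⊢
    exact Submodule.smul_mem _ c hx

theorem Weil.op_BB {D : Type} [Fintype D] {e : D → W.H A} {α : D → K} (hV : ∀ x, e x ∈ V)
    (hΦ : W.Corr V Φ) (hα : ∀ x, Φ (e x) = α x • e x) {ι : Type} [Fintype ι] (j : ι) :
    ∀ b ∈ W.BB e ι, (fun I => α (I j) * b I) ∈ W.BB e ι := by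
  classical
  intro u hu
  rw [Weil.mem_BB] at hu ⊢
  intro l Y p hl
  obtain ⟨Q, r, s, h, p', c, hc, H⟩ := W.op_mid hV hΦ hα hl j p
  have h2 : ∑ I : ι → D, (α (I j) * u I) • W.mon e l p I =
      W.fib h (c * ∑ I, u I • W.mon e l p' I) := by
    rw [Finset.mul_sum, map_sum]
    refine Finset.sum_congr rfl fun I _ => ?_
    have h3 := H 1 I
    rw [map_one, mul_one, one_mul] at h3
    rw [mul_smul_comm, map_smul, ← h3, smul_smul, mul_comm]
  rw [h2]
  exact W.fib_mem_Alg h (W.mul_mem_Alg hc (hu _ _ _ hl))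

end Pool.Agent.MP_0c8446_ag

end

section

namespace Pool.Agent.MP_0c8446_ag

open Set
open scoped TensorProduct

universe u v w x

variable {k : Type u} [Field k] [IsAlgClosed k] {K : Type v} [Field K] [CharZero K]
  (W : Weil.{u, v, w} k K)

variable {A : Var k} {V : Submodule K (W.H A)} {Φ : Module.End K (W.H A)} {T : Type} [Fintype T]
  [DecidableEq T] {n : T → Type} [∀ t, Fintype (n t)] [∀ t, DecidableEq (n t)]
  {e : (Σ t, n t) → W.H A} {δ : T → ℕ} {α : T → K}

omit [IsAlgClosed k] [CharZero K] [∀ t, Fintype (n t)] [∀ t, DecidableEq (n t)] in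
/-- A space of tensors stable under the diagonal operators is spanned by its block components. -/
theorem TF4_ind (hα : Function.Injective α) {ι : Type} [Fintype ι] [DecidableEq ι]
    {F : Submodule K ((ι → Σ t, n t) → K)}
    (h : ∀ j, ∀ u ∈ F, (fun I => α (I j).1 * u I) ∈ F) {M : Type*} [AddCommGroup M] [Module K M]
    {S : Submodule K M} (φ : ((ι → Σ t, n t) → K) →ₗ[K] M)
    (hS : ∀ τ, ∀ u ∈ F, Cont τ u → φ u ∈ S) {u : (ι → Σ t, n t) → K} (hu : u ∈ F) : φ u ∈ S := by
  have pr : ∀ τ : ι → T, (fun I => if ∀ j, (I j).1 = τ j then u I else 0) ∈ F := fun τ => by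
    have key : ∀ s : Finset (ι × T), (fun I : ι → Σ t, n t =>
        (∏ q ∈ s, (α (τ q.1) - α q.2)⁻¹ * (α (I q.1).1 - α q.2)) * u I) ∈ F := fun s => by
      induction s using Finset.induction_on with
      | empty => simpa using hu
      | insert q s hq ih =>
        convert F.smul_mem (α (τ q.1) - α q.2)⁻¹
          (sub_mem (h q.1 _ ih) (F.smul_mem (α q.2) ih)) using 1
        funext I
        simp only [Finset.prod_insert hq, Pi.smul_apply, Pi.sub_apply, smul_eq_mul]
        ring
    convert key (Finset.univ.filter fun q => q.2 ≠ τ q.1) using 1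
    funext I
    split_ifs with hI
    · rw [Finset.prod_eq_one fun q hq => ?_, one_mul]
      rw [hI]
      exact inv_mul_cancel₀ (sub_ne_zero.2 (hα.ne (Finset.mem_filter.1 hq).2.symm))
    · obtain ⟨j, hj⟩ := not_forall.1 hI
      rw [Finset.prod_eq_zero (i := (j, (I j).1)) (Finset.mem_filter.2 ⟨Finset.mem_univ _, hj⟩)
        (by simp), zero_mul]
  have e : u = ∑ τ : ι → T, fun I => if ∀ j, (I j).1 = τ j then u I else 0 := by
    funext I
    simp only [Finset.sum_apply, ← funext_iff]
    rw [Finset.sum_ite_eq]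
    simp
  rw [e, map_sum]
  exact sum_mem fun τ _ => hS τ _ (pr τ) fun I hI => by
    by_contra e
    exact hI (if_neg e)

omit [IsAlgClosed k] [CharZero K] in
/-- Permuting homogeneous factors changes the product by a sign. -/
theorem Weil.prod_perm3 {ι : Type} (d : ι → ℕ) {l l' : List ι} (h : l.Perm l') :
    ∃ ε : K, ε ≠ 0 ∧ ∀ (Y : Var k) (f : ι → W.H Y), (∀ j, f j ∈ W.gr Y (d j)) →
      (l.map f).prod = ε • (l'.map f).prod := by
  induction h with
  | nil => exact ⟨1, one_ne_zero, fun _ _ _ => (one_smul _ _).symm⟩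
  | cons a _ ih =>
    obtain ⟨ε, h1, h2⟩ := ih
    exact ⟨ε, h1, fun Y f hf => by
      rw [List.map_cons, List.map_cons, List.prod_cons, List.prod_cons, h2 Y f hf, mul_smul_comm]⟩
  | swap a b l =>
    refine ⟨(-1) ^ (d b * d a), pow_ne_zero _ (neg_ne_zero.2 one_ne_zero), fun Y f hf => ?_⟩
    simp only [List.map_cons, List.prod_cons, ← mul_assoc]
    rw [W.comm Y _ _ _ (hf b) _ (hf a), Algebra.smul_def, map_pow, map_neg, map_one, mul_assoc]
  | trans _ _ ih ih' =>
    obtain ⟨ε, h1, h2⟩ := ih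
    obtain ⟨ε', h3, h4⟩ := ih'
    exact ⟨ε * ε', mul_ne_zero h1 h3, fun Y f hf => by rw [h2 Y f hf, h4 Y f hf, mul_smul]⟩

omit [IsAlgClosed k] [CharZero K] [DecidableEq T] [∀ t, DecidableEq (n t)] in
/-- For a tensor in one block one ordering is enough. -/
theorem Weil.mem_BB_of_cont (he : ∀ x, e x ∈ W.gr A (δ x.1)) {ι : Type} [Fintype ι]
    [DecidableEq ι] {τ : ι → T} {b : (ι → Σ t, n t) → K} (hb : Cont τ b) {l₀ : List ι}
    (hl : Cpl l₀) (h : ∀ (Y : Var k) (p : ι → Mor Y A), ∑ I, b I • W.mon e l₀ p I ∈ W.Alg Y) :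
    b ∈ W.BB e ι := by
  rw [Weil.mem_BB]
  intro l Y p hl'
  obtain ⟨ε, -, hε⟩ := W.prod_perm3 (fun j => δ (τ j)) (hl'.perm hl)
  have h2 : ∑ I, b I • W.mon e l p I = ε • ∑ I, b I • W.mon e l₀ p I := by
    rw [Finset.smul_sum]
    refine Finset.sum_congr rfl fun I _ => ?_
    by_cases hI : b I = 0
    · simp [hI]
    · rw [smul_comm]
      exact congrArg _ (hε Y _ fun j => W.pull_gr _ _ _ (hb I hI j ▸ he (I j)))
  rw [h2]
  exact Submodule.smul_mem _ ε (h Y p)

omit [∀ t, DecidableEq (n t)] in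
theorem Weil.tfam_BB3 (he : ∀ x, e x ∈ W.gr A (δ x.1)) (hi : Function.Injective α)
    (hV : ∀ x, e x ∈ V) (hΦ : W.Corr V Φ) (hα : ∀ x, Φ (e x) = α x.1 • e x) :
    TFam (fun x : Σ t, n t => α x.1) (W.BB e) := by
  classical
  refine ⟨fun {ι ι'} _ _ σ u hu => ?_, fun {ι ι'} _ _ u hu u' hu' => ?_, ?_,
    fun {ι} _ j => W.op_BB hV hΦ hα j⟩
  · rw [Weil.mem_BB] at hu ⊢
    intro l Y p hl
    have h1 := hu (l.map σ.symm) Y (p ∘ σ) (hl.map σ.symm)
    have h2 : ∑ I : ι' → Σ t, n t, u (I ∘ σ) • W.mon e l p I =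
        ∑ J : ι → Σ t, n t, u J • W.mon e (l.map σ.symm) (p ∘ σ) J := by
      refine Fintype.sum_equiv (σ.symm.arrowCongr (Equiv.refl _)) _ _ fun I => ?_
      have h3 : (σ.symm.arrowCongr (Equiv.refl _)) I = I ∘ σ := funext fun j => by simp
      rw [h3, TF1_mon_map]
      congr 2
      · funext j
        simp
      · funext j
        simp
    rw [h2]
    exact h1
  · let μ : ((ι → Σ t, n t) → K) →ₗ[K] ((ι' → Σ t, n t) → K) →ₗ[K] ((ι ⊕ ι' → Σ t, n t) → K) :=
      LinearMap.mk₂ K tmul (fun _ _ _ => funext fun _ => add_mul _ _ _)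
        (fun _ _ _ => funext fun _ => mul_assoc _ _ _) (fun _ _ _ => funext fun _ => mul_add _ _ _)
        fun _ _ _ => funext fun _ => mul_left_comm _ _ _
    refine @TF4_ind _ _ _ _ _ _ _ hi _ _ _ _ (fun j => W.op_BB hV hΦ hα j) _ _ _
      (W.BB e (ι ⊕ ι')) (μ.flip u') (fun τ b hb hc => ?_) u hu
    refine @TF4_ind _ _ _ _ _ _ _ hi _ _ _ _ (fun j => W.op_BB hV hΦ hα j) _ _ _
      (W.BB e (ι ⊕ ι')) (μ b) (fun τ' b' hb' hc' => ?_) u' hu'
    obtain ⟨l1, hl1⟩ := exists_cpl ι
    obtain ⟨l2, hl2⟩ := exists_cpl ι'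
    refine W.mem_BB_of_cont he (hc.tmul hc') (hl1.append hl2) fun Y p => ?_
    have h2 : ∑ I : ι ⊕ ι' → Σ t, n t,
        tmul b b' I • W.mon e (l1.map Sum.inl ++ l2.map Sum.inr) p I =
          (∑ I, b I • W.mon e l1 (p ∘ Sum.inl) I) * ∑ I, b' I • W.mon e l2 (p ∘ Sum.inr) I := by
      rw [Finset.sum_mul_sum, ← Fintype.sum_prod_type']
      refine Fintype.sum_equiv (Equiv.sumArrowEquivProdArrow ι ι' _) _ _ fun I => ?_
      rw [W.mon_append, smul_mul_smul_comm]
      rfl
    rw [h2]
    exact W.mul_mem_Alg (W.mem_BB.1 hb _ _ _ hl1) (W.mem_BB.1 hb' _ _ _ hl2)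
  · rw [Weil.mem_BB]
    intro l Y p hl
    refine sum_mem fun I _ => Submodule.smul_mem _ _ ?_
    obtain rfl : l = [] := List.eq_nil_iff_forall_not_mem.2 fun j => j.elim
    exact W.one_mem_Alg Y

end Pool.Agent.MP_0c8446_ag

end

section

namespace Pool.Agent.MP_0c8446_ag

open Set
open scoped TensorProduct

universe u v w x

variable {k : Type u} [Field k] [IsAlgClosed k] {K : Type v} [Field K] [CharZero K]
  (W : Weil.{u, v, w} k K)

variable {A : Var k} {V : Submodule K (W.H A)}

lemma SumA_prod {π : Module.End K (W.H A)} (h : W.IsCorr π) {P : Var k} {p q : Mor P A}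
    (hP : IsProd p q) : ∃ c ∈ W.Alg P, ∀ a b,
      W.tr A (b * π a) = W.tr P (c * (W.pull p b * W.pull q a)) := by
  obtain ⟨Q, r, s, c, hc, h1⟩ := h
  obtain ⟨c', hc', h2⟩ := W.exists_push (hP.lift r s) (a := c) hc
  refine ⟨c', hc', fun a b => ?_⟩
  rw [h1, ← h2, map_mul (W.pull _), W.pull_pull, W.pull_pull,
    W.pull_congr (f := p.comp _) (g := r) (fun x => by simp) b,
    W.pull_congr (f := q.comp _) (g := s) (fun x => by simp) a]

lemma SumA_sum {ι : Type} [Fintype ι] (π : ι → Module.End K (W.H A)) (h : ∀ t, W.IsCorr (π t))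
    (r : ι → K) : W.Corr V (∑ t, r t • π t) := by
  obtain ⟨P, p, q, hP⟩ := exists_prod A A
  choose c hc h1 using fun t => SumA_prod W (h t) hP
  refine ⟨P, p, q, hP, ∑ t, r t • c t,
    Submodule.sum_mem _ fun t _ => Submodule.smul_mem _ _ (hc t), fun a _ b => ?_⟩
  simp only [LinearMap.sum_apply, LinearMap.smul_apply, Finset.mul_sum, Finset.sum_mul, map_sum,
    mul_smul_comm, smul_mul_assoc, map_smul, h1]

theorem Weil.IsCorr.corr {π : Module.End K (W.H A)} (h : W.IsCorr π) : W.Corr V π := by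
  obtain ⟨P, p, q, hP⟩ := exists_prod A A
  obtain ⟨c, hc, h1⟩ := SumA_prod W h hP
  exact ⟨P, p, q, hP, c, hc, fun a _ b => h1 a b⟩

/-- A homogeneous basis of a summand, and the degree operator. -/
theorem Weil.Summand.exists_basis (h : W.Summand V) :
    ∃ (n : Fin (2 * A.d + 1) → ℕ) (e : (Σ t, Fin (n t)) → W.H A) (Φ : Module.End K (W.H A)),
      (∀ x, e x ∈ W.gr A x.1) ∧ LinearIndependent K e ∧ Submodule.span K (range e) = V ∧
        W.Corr V Φ ∧ ∀ x, Φ (e x) = ((x.1 : ℕ) : K) • e x := by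
  classical
  choose π hc hV hdec _ using h
  let S : Fin (2 * A.d + 1) → Submodule K (W.H A) := fun t => V ⊓ W.gr A t
  let b := fun t => Module.finBasis K (S t)
  have hsame : ∀ (t : Fin (2 * A.d + 1)) (a : S t), π t a = a := fun t a => by
    rw [hdec t a a.2.1, DirectSum.decompose_of_mem_same _ a.2.2]
  have hne : ∀ (s t : Fin (2 * A.d + 1)) (a : S s), s ≠ t → π t a = 0 := fun s t a hst => by
    rw [hdec t a a.2.1, DirectSum.decompose_of_mem_ne _ a.2.2 fun e => hst (Fin.ext e)]
  refine ⟨fun t => Module.finrank K (S t), fun x => b x.1 x.2, ∑ t : Fin (2 * A.d + 1),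
    ((t : ℕ) : K) • π t, fun x => (b x.1 x.2).2.2, ?_, ?_,
    SumA_sum W (fun t : Fin (2 * A.d + 1) => π t) (fun t => hc t) _, ?_⟩
  · rw [Fintype.linearIndependent_iff]
    rintro g hg ⟨t, j⟩
    have h1 := congrArg (π t) hg
    rw [Fintype.sum_sigma, map_sum, map_zero, Finset.sum_eq_single t] at h1
    · have h2 : ∑ i, g ⟨t, i⟩ • b t i = 0 := by
        refine Subtype.ext ?_
        simpa only [map_sum, map_smul, hsame, Submodule.coe_sum, Submodule.coe_smul,
          Submodule.coe_zero] using h1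
      exact Fintype.linearIndependent_iff.1 (b t).linearIndependent _ h2 j
    · intro s _ hst
      simp only [map_sum, map_smul, hne s t _ hst, smul_zero, Finset.sum_const_zero]
    · exact fun h => (h (Finset.mem_univ _)).elim
  · refine le_antisymm (Submodule.span_le.2 ?_) fun a ha => ?_
    · rintro _ ⟨x, rfl⟩
      exact (b x.1 x.2).2.1
    · rw [← DirectSum.sum_support_decompose (W.gr A) a]
      refine Submodule.sum_mem _ fun i _ => ?_
      have hi := (DirectSum.decompose (W.gr A) a i).2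
      by_cases hlt : i < 2 * A.d + 1
      · let y : S ⟨i, hlt⟩ := ⟨DirectSum.decompose (W.gr A) a i, hdec i a ha ▸ hV i a, hi⟩
        have h1 := congrArg Subtype.val ((b ⟨i, hlt⟩).sum_repr y)
        rw [Submodule.coe_sum] at h1
        change _ = (DirectSum.decompose (W.gr A) a i : W.H A) at h1
        rw [← h1]
        exact Submodule.sum_mem _ fun j _ =>
          Submodule.smul_mem _ _ (Submodule.subset_span ⟨⟨⟨i, hlt⟩, j⟩, rfl⟩)
      · rw [W.gr_eq_zero hi (by omega)]
        exact zero_mem _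
  · rintro ⟨t, j⟩
    rw [LinearMap.sum_apply, Finset.sum_eq_single t]
    · rw [LinearMap.smul_apply, hsame]
    · intro s _ hst
      rw [LinearMap.smul_apply, hne t s _ hst.symm, smul_zero]
    · exact fun h => (h (Finset.mem_univ _)).elim

end Pool.Agent.MP_0c8446_ag

end

section

namespace Pool.Agent.MP_0c8446_ag

open Set
open scoped TensorProduct

universe u v w x

variable {k : Type u} [Field k] [IsAlgClosed k] {K : Type v} [Field K] [CharZero K]
  (W : Weil.{u, v, w} k K)

variable {A : Var k} {V : Submodule K (W.H A)} {T : Type} [Fintype T]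
  [DecidableEq T] {n : T → Type} [∀ t, Fintype (n t)] [∀ t, DecidableEq (n t)]
  {e : (Σ t, n t) → W.H A} {δ : T → ℕ}

theorem SumB_zero {P X Y : Var k} {p : Mor P X} {q : Mor P Y} (hP : IsProd p q) {γ : W.H P}
    (h : ∀ a b, W.tr P (W.pull p b * (γ * W.pull q a)) = 0) : γ = 0 := by
  have h1 : ∀ a, W.fib hP (γ * W.pull q a) = 0 := fun a => W.eq_zero_of_left fun b => by
    rw [← W.fib_mul_left hP, W.tr_fib hP, h]
  refine W.poincare P γ fun c => ?_
  refine W.Fib_ind hP.symm (C := fun c => W.tr P (γ * c) = 0) (by simp) (fun a b => ?_)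
    (fun x y hx hy => ?_) c
  · rw [← mul_assoc, ← W.tr_fib hP, W.fib_mul_right, h1, zero_mul, map_zero]
  · rw [mul_add, map_add, hx, hy, add_zero]

omit [IsAlgClosed k] [CharZero K] in
theorem SumB_orth {D : Type} {e : D → W.H A} (hV : Submodule.span K (range e) = V) {a : W.H A}
    (h : ∀ x, W.tr A (e x * a) = 0) : ∀ b ∈ V, W.tr A (b * a) = 0 := by
  subst hV
  intro b hb
  induction hb using Submodule.span_induction with
  | mem x hx => obtain ⟨x, rfl⟩ := hx; exact h x
  | zero => rw [zero_mul, map_zero]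
  | add x y _ _ hx hy => rw [add_mul, map_add, hx, hy, add_zero]
  | smul c x _ hx => rw [smul_mul_assoc, map_smul, hx, smul_zero]

omit [IsAlgClosed k] [CharZero K] in
theorem SumB_inv (h : W.Summand V) (he : ∀ x, e x ∈ W.gr A (δ x.1))
    (hli : LinearIndependent K e) (hV : Submodule.span K (range e) = V) :
    ∃ E' : Matrix (Σ t, n t) (Σ t, n t) K,
      (Matrix.of fun x y => W.tr A (e x * e y)) * E' = 1 ∧
        ∀ x y, E' x y ≠ 0 → δ x.1 + δ y.1 = 2 * A.d := by
  have hu : IsUnit (Matrix.of fun x y => W.tr A (e x * e y)) := by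
    refine Matrix.mulVec_injective_iff_isUnit.1 fun v w hvw => sub_eq_zero.1 ?_
    rw [← sub_eq_zero, ← Matrix.mulVec_sub] at hvw
    generalize v - w = u at hvw
    have h1 : ∑ y, u y • e y ∈ V :=
      hV ▸ sum_mem fun y _ => Submodule.smul_mem _ _ (Submodule.subset_span ⟨y, rfl⟩)
    have h2 := SumB_orth W hV (a := ∑ y, u y • e y) fun x => by
      rw [← Pi.zero_apply (M := fun _ : Σ t, n t => K) x, ← hvw]
      simp only [Finset.mul_sum, mul_smul_comm, map_sum, map_smul, smul_eq_mul, Matrix.mulVec,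
        dotProduct, Matrix.of_apply, mul_comm (u _)]
    have h3 : ∑ y, u y • e y = 0 := by
      refine (DirectSum.decompose (W.gr A)).injective (DirectSum.ext fun i => Subtype.ext ?_)
      obtain ⟨π, -, -, h4, h5⟩ := h i
      rw [← h4 _ h1, h5 _ h2, DirectSum.decompose_zero]
      rfl
    exact funext (Fintype.linearIndependent_iff.1 hli u h3)
  obtain ⟨E, -, hE⟩ := isUnit_iff_exists.1 hu
  refine ⟨Matrix.of fun x y => if δ x.1 + δ y.1 = 2 * A.d then E x y else 0,
    mul_eq_one_comm.1 ?_, fun x y hxy => by_contra fun h1 => hxy (if_neg h1)⟩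
  ext x z
  by_cases h1 : δ x.1 = δ z.1
  · rw [← hE, Matrix.mul_apply, Matrix.mul_apply]
    refine Finset.sum_congr rfl fun y _ => ?_
    simp only [Matrix.of_apply]
    split_ifs with h2
    · rfl
    · rw [W.tr_mul_gr (he y) (he z) (by omega), mul_zero, mul_zero]
  · rw [Matrix.one_apply_ne fun h2 => h1 (by rw [h2]), Matrix.mul_apply]
    refine Finset.sum_eq_zero fun y _ => ?_
    simp only [Matrix.of_apply]
    split_ifs with h2
    · rw [W.tr_mul_gr (he y) (he z) (by omega), mul_zero]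
    · rw [zero_mul]

omit [IsAlgClosed k] [CharZero K] in
theorem SumB_pi (hδ : Function.Injective δ) (he : ∀ x, e x ∈ W.gr A (δ x.1))
    (hV : Submodule.span K (range e) = V) {E : Matrix (Σ t, n t) (Σ t, n t) K}
    (hE : (Matrix.of fun x y => W.tr A (e x * e y)) * E = 1) {t : T} {π : Module.End K (W.H A)}
    (h1 : ∀ a ∈ V, π a = DirectSum.decompose (W.gr A) a (δ t))
    (h2 : ∀ a, (∀ b ∈ V, W.tr A (b * a) = 0) → π a = 0) (a : W.H A) :
    π a = ∑ x, (∑ y, (if x.1 = t then E x y else 0) * W.tr A (e y * a)) • e x := by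
  have h3 := h2 (a - ∑ x, (∑ y, E x y * W.tr A (e y * a)) • e x) (SumB_orth W hV fun z => by
    have h4 := congrFun (Matrix.mulVec_mulVec (fun y => W.tr A (e y * a))
      (Matrix.of fun x y => W.tr A (e x * e y)) E) z
    rw [hE, Matrix.one_mulVec] at h4
    rw [mul_sub, map_sub, sub_eq_zero, Finset.mul_sum, map_sum]
    refine h4.symm.trans (Finset.sum_congr rfl fun x _ => ?_)
    rw [mul_smul_comm, map_smul, smul_eq_mul, mul_comm]
    rfl)
  rw [map_sub, sub_eq_zero, map_sum] at h3
  rw [h3]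
  refine Finset.sum_congr rfl fun x _ => ?_
  rw [map_smul, h1 _ (hV ▸ Submodule.subset_span ⟨x, rfl⟩)]
  by_cases h4 : x.1 = t
  · simp only [if_pos h4]
    rw [← h4, DirectSum.decompose_of_mem_same _ (he x)]
  · simp only [if_neg h4, zero_mul, Finset.sum_const_zero, zero_smul]
    rw [DirectSum.decompose_of_mem_ne _ (he x) fun h5 => h4 (hδ h5), smul_zero]

theorem SumB_alg {D : Type} [Fintype D] {e : D → W.H A} {E : Matrix D D K}
    {π : Module.End K (W.H A)} (hπ : W.IsCorr π)
    (h : ∀ a, π a = ∑ x, (∑ y, E x y * W.tr A (e y * a)) • e x) (Y : Var k)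
    (r : Bool → Mor Y A) : ∑ I, tmat E I • W.mon e [false, true] r I ∈ W.Alg Y := by
  obtain ⟨P, p, q, hP, c, hc, h1⟩ := Weil.IsCorr.corr W (V := ⊤) hπ
  have h2 : ∑ x : D × D, E x.1 x.2 • (W.pull p (e x.1) * W.pull q (e x.2)) = c := by
    refine sub_eq_zero.1 (SumB_zero W hP fun a b => ?_)
    rw [sub_mul, mul_sub, map_sub, sub_eq_zero, ← mul_assoc _ c, ← W.Alg_comm hc, mul_assoc c,
      ← h1 a trivial b, h]
    simp only [Finset.sum_mul, Finset.mul_sum, smul_mul_assoc, mul_smul_comm, map_sum, map_smul,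
      mul_assoc (W.pull p _), ← map_mul (W.pull q), smul_eq_mul, Fintype.sum_prod_type]
    refine Finset.sum_congr rfl fun x _ => Finset.sum_congr rfl fun y _ => ?_
    rw [← mul_assoc (W.pull p b), ← map_mul, W.tr_prod hP]
    ring
  have h4 := W.pull_mem_Alg (hP.lift (r false) (r true)) (h2 ▸ hc)
  have e1 : p.comp (hP.lift (r false) (r true)) = r false := Mor.ext' fun x => by simp
  have e2 : q.comp (hP.lift (r false) (r true)) = r true := Mor.ext' fun x => by simp
  simp only [map_sum, map_smul, map_mul, W.pull_pull, e1, e2] at h4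
  rw [← (Equiv.boolArrowEquivProd D).sum_comp] at h4
  simpa [tmat, Weil.mon] using h4

/-- The inverse of the Poincaré pairing on a summand is an algebraic tensor. -/
theorem Weil.Summand.exists_inv (h : W.Summand V) (hδ : Function.Injective δ)
    (he : ∀ x, e x ∈ W.gr A (δ x.1)) (hli : LinearIndependent K e)
    (hV : Submodule.span K (range e) = V) :
    ∃ E' : Matrix (Σ t, n t) (Σ t, n t) K, tmat E' ∈ W.BB e Bool ∧
      (Matrix.of fun x y => W.tr A (1 * (e x * e y))) * E' = (1 : K) • (1 : Matrix _ _ K) := by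
  obtain ⟨E, h1, h2⟩ := SumB_inv W h he hli hV
  refine ⟨E, ?_, by simpa only [one_mul, one_smul] using h1⟩
  have h3 : tmat E = ∑ t, tmat (Matrix.of fun x y => if x.1 = t then E x y else 0) := by
    funext I
    simp [tmat]
  suffices h4 : ∀ t, tmat (Matrix.of fun x y => if x.1 = t then E x y else 0) ∈ W.BB e Bool by
    rw [h3]
    generalize W.BB e Bool = S at h4 ⊢
    exact sum_mem fun t _ => h4 t
  intro t
  obtain ⟨π, hπ, -, h4, h5⟩ := h (δ t)
  rw [Weil.mem_BB]
  refine W.mem_BB_of_cont he (τ := fun j => cond j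
    (if h : ∃ s, δ t + δ s = 2 * A.d then h.choose else t) t) (fun I hI j => ?_) cpl_bool
    (SumB_alg W hπ (SumB_pi W hδ he hV h1 h4 h5))
  simp only [tmat, ne_eq, ite_eq_right_iff, Classical.not_imp] at hI
  cases j with
  | false => exact hI.1
  | true =>
    have h6 := h2 _ _ hI.2
    rw [hI.1] at h6
    have h7 : ∃ s, δ t + δ s = 2 * A.d := ⟨_, h6⟩
    have h8 := h7.choose_spec
    simp only [cond_true, dif_pos h7]
    exact hδ (by omega)

omit [Fintype T] [DecidableEq T] [∀ t, Fintype (n t)] [∀ t, DecidableEq (n t)] in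
/-- From the tensor statement to conjecture D. -/
theorem Weil.eq_zero_of_motBy {D : Type} [Fintype D] {e : D → W.H A}
    (hV : Submodule.span K (range e) = V)
    (h0 : ∀ (ι : Type) [Fintype ι], ∀ u ∈ nul (W.TT e) (W.BB e) ι, u = 0) {X : Var k}
    (hX : W.MotBy V X) {a : W.H X} (ha : a ∈ W.Alg X)
    (h : ∀ Z, IsSub Z → W.tr X (W.cl X Z * a) = 0) : a = 0 := by
  classical
  by_contra hne
  obtain ⟨Y, f, Z, l, hZ, hl, h3⟩ := hX a hne
  have hZ' := W.cl_mem_Alg hZ
  have hz := W.mul_mem_Alg hZ' (W.pull_mem_Alg f ha)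
  have h4 : ∀ b ∈ W.Alg Y, W.tr Y (W.cl Y Z * W.pull f a * b) = 0 := fun b hb => by
    obtain ⟨z, hz', h5⟩ := W.exists_push f (W.mul_mem_Alg hZ' hb)
    rw [mul_assoc, ← W.Alg_comm hb, ← mul_assoc, h5]
    by_contra h6
    obtain ⟨C, hC, h7⟩ := W.exists_cl_of_Alg hz' h6
    exact h7 (h C hC)
  choose c hc using fun j : Fin l.length => (Submodule.mem_span_range_iff_exists_fun K).1
    (hV ▸ hl (l.get j) (List.get_mem l j))
  have h1 := h0 (Fin l.length) (fun I => W.tr Y (W.cl Y Z * W.pull f a *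
    W.mon e (List.finRange l.length) (fun j => (l.get j).1) I)) (mem_nul.2
      ⟨Submodule.subset_span ⟨_, Y, _, _, cpl_finRange _, hz, rfl⟩,
        fun b hb => by
          rw [← h4 _ (W.mem_BB.1 hb _ Y (fun j => (l.get j).1) (cpl_finRange _))]
          simp only [tpair, Finset.mul_sum, mul_smul_comm, map_sum, map_smul, smul_eq_mul,
            mul_assoc]
          exact Finset.sum_congr rfl fun I _ => mul_comm _ _⟩)
  have h2 : (l.map fun x => W.pull x.1 x.2) = (List.finRange l.length).map fun j =>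
      ∑ x, c j x • W.pull (l.get j).1 (e x) := by
    conv_lhs => rw [← List.map_get_finRange l, List.map_map]
    congr 1
    funext j
    simp only [Function.comp_apply, ← hc j, map_sum, map_smul]
  refine h3 ?_
  rw [h2, (cpl_finRange _).prod_sum, ← mul_assoc, Finset.mul_sum, map_sum]
  refine Finset.sum_eq_zero fun J _ => ?_
  rw [mul_smul_comm, map_smul]
  exact smul_eq_zero_of_right _ (congrFun h1 J)

end Pool.Agent.MP_0c8446_ag

end

section

namespace Pool.Agent.MP_0c8446_ag

open Set Matrix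

universe u v w x

variable {k : Type u} [Field k] [IsAlgClosed k] {K : Type v} [Field K] [CharZero K]
  {W : Weil.{u, v, w} k K} {G : Type x} [Group G] [MulSemiringAction G k]

theorem gi_mot (ρ : W.Gal G) {A : Var k} (hA : A.Over G) {V : Submodule K (W.H A)}
    (hS : W.Summand V) (hV : ∀ σ, ∀ a ∈ V, ρ.act A σ a ∈ V) (hN : ρ.NoIso V) {X : Var k}
    (hX : W.MotBy V X) {j : ℕ} {α : Set X.pts →₀ ℚ} (hα : IsCycle j α)
    (hnum : ∀ β, IsCycle (X.d - j) β → W.tr X (W.cycleClass α * W.cycleClass β) = 0) :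
    W.cycleClass α = 0 := by
  obtain ⟨n, e, Φ, he, hli, hsp, hΦ, h1⟩ := hS.exists_basis
  have hV' : ∀ x, e x ∈ V := fun x => hsp ▸ Submodule.subset_span ⟨x, rfl⟩
  have hi : Function.Injective fun t : Fin (2 * A.d + 1) => ((t : ℕ) : K) :=
    Nat.cast_injective.comp Fin.val_injective
  obtain ⟨E', hE', hEE⟩ := hS.exists_inv W Fin.val_injective he hli hsp
  refine W.eq_zero_of_motBy hsp (gi_core ρ hA hV hN he hli hsp hi (W.tfam_TT3 hV' hΦ h1)
    (W.tfam_BB3 he hi hV' hΦ h1) (W.tcon_TT3 e) (W.tmat_TT (W.one_mem_Alg A)) hE' one_ne_zero hEE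
    (j₀ := A.d) fun x y h => ?_) hX (W.gi_mem hα).1 (W.gi_num hα hnum)
  by_contra h2
  refine h ?_
  rw [of_apply, one_mul]
  exact W.tr_mul_gr (he x) (he y) (by omega)

end Pool.Agent.MP_0c8446_ag

end
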