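import Pool.Agent.Mg.F0c8446.G57e80e

namespace Pool.Agent.MP_0c8446_ag

open scoped LinearAlgebra.Projectivization
open MvPolynomial Set

universe u

/-- The Fermat curve `x^(q-1) + y^(q-1) = z^(q-1)` (`b = true`) and the Davenport-Hasse curve
`y^q - y z^(q-1) = x^(q-1) z` (`b = false`). -/
def curve (k : Type u) [Field k] (q : ℕ) (b : Bool) : Set (ℙ k (Fin 3 → k)) :=
  {x | if b then x.rep 0 ^ (q - 1) + x.rep 1 ^ (q - 1) = x.rep 2 ^ (q - 1)
    else x.rep 1 ^ q - x.rep 1 * x.rep 2 ^ (q - 1) = x.rep 0 ^ (q - 1) * x.rep 2}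

/-- A finite product of such curves. -/
def curves {ι : Type} (k : Type u) [Field k] (q : ℕ) (τ : ι → Bool) : Set (MP k fun _ : ι => 2) :=
  {x | ∀ i, x i ∈ curve k q (τ i)}

/-- `q` is a power `> 1` of the characteristic. -/
class IsQ (k : Type u) [Field k] (q : ℕ) : Prop where
  one_lt : 1 < q
  cast : (q : k) = 0
  add_pow : ∀ x y : k, (x + y) ^ q = x ^ q + y ^ q

variable {k : Type u} [Field k]

lemma isQ_pow (k : Type u) [Field k] (q : ℕ) [h : IsQ k q] {r : ℕ} (hr : 0 < r) : IsQ k (q ^ r) := by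
  refine ⟨Nat.one_lt_pow hr.ne' (h.one_lt), by simp [h.cast, hr.ne'], fun x y => ?_⟩
  clear hr
  induction r with
  | zero => simp
  | succ r ih => rw [pow_succ, pow_mul, ih, h.add_pow, ← pow_mul, ← pow_mul]

lemma isQ_prime (k : Type u) [Field k] (p : ℕ) [hp : Fact p.Prime] [CharP k p] : IsQ k p :=
  ⟨hp.out.one_lt, CharP.cast_eq_zero k p, fun x y => add_pow_char x y p⟩

/-- The Frobenius `x ↦ x ^ e` as a ring homomorphism. -/
def frobHom (k : Type u) [Field k] (e : ℕ) [h : IsQ k e] : k →+* k where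
  toFun x := x ^ e
  map_one' := one_pow e
  map_mul' x y := mul_pow x y e
  map_zero' := zero_pow (by have := h.one_lt; omega)
  map_add' := h.add_pow

@[simp] lemma frobHom_apply (e : ℕ) [IsQ k e] (x : k) : frobHom k e x = x ^ e := rfl

lemma IsQ.sub_pow (e : ℕ) [IsQ k e] (x y : k) : (x - y) ^ e = x ^ e - y ^ e :=
  map_sub (frobHom k e) x y

lemma IsQ.neg_pow (e : ℕ) [IsQ k e] (x : k) : (-x) ^ e = -x ^ e := map_neg (frobHom k e) x

lemma IsQ.pos (k : Type u) [Field k] (q : ℕ) [h : IsQ k q] : 0 < q - 1 := by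
  have := h.one_lt; omega

lemma IsQ.cast_pred (k : Type u) [Field k] (q : ℕ) [h : IsQ k q] : ((q - 1 : ℕ) : k) = -1 := by
  rw [Nat.cast_sub h.one_lt.le, h.cast]; simp

lemma IsQ.pow_eq (q : ℕ) [h : IsQ k q] (x : k) : x ^ q = x ^ (q - 1) * x := by
  rw [← pow_succ, Nat.sub_add_cancel h.one_lt.le]

/-- The finite field with `q` elements inside `k`. -/
def Fq (k : Type u) [Field k] (q : ℕ) [IsQ k q] : Subfield k :=
  RingHom.eqLocusField (frobHom k q) (RingHom.id k)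

lemma mem_Fq {q : ℕ} [IsQ k q] {x : k} : x ∈ Fq k q ↔ x ^ q = x := Iff.rfl

/-- The projective plane. -/
abbrev P2 (k : Type u) [Field k] : Type u := ℙ k (Fin 3 → k)

/-- The point `(x : y : z)` (junk if all coordinates vanish). -/
noncomputable def pt3 (x y z : k) : P2 k :=
  open Classical in if h : ![x, y, z] ≠ 0 then Projectivization.mk k ![x, y, z] h
    else Projectivization.mk k ![1, 0, 0] (by simp)

lemma pt3_eq {x y z : k} (h : ![x, y, z] ≠ 0) : pt3 x y z = Projectivization.mk k ![x, y, z] h :=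
  dif_pos h

lemma mk_eq_pt3 (v : Fin 3 → k) (h : v ≠ 0) : Projectivization.mk k v h = pt3 (v 0) (v 1) (v 2) := by
  have e : ![v 0, v 1, v 2] = v := by funext s; fin_cases s <;> rfl
  rw [pt3_eq (by rwa [e])]
  simp only [e]

lemma pt3_rep (P : P2 k) : pt3 (P.rep 0) (P.rep 1) (P.rep 2) = P := by
  rw [← mk_eq_pt3 _ P.rep_nonzero, P.mk_rep]

lemma vec3_ne_zero {x y z : k} : ![x, y, z] ≠ 0 ↔ x ≠ 0 ∨ y ≠ 0 ∨ z ≠ 0 := by
  rw [Function.ne_iff]
  simp [Fin.exists_fin_succ]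

lemma rep_ne_zero (P : P2 k) : ![P.rep 0, P.rep 1, P.rep 2] ≠ 0 := by
  have e : ![P.rep 0, P.rep 1, P.rep 2] = P.rep := by funext s; fin_cases s <;> rfl
  rw [e]; exact P.rep_nonzero

lemma pt3_smul {c : k} (hc : c ≠ 0) (x y z : k) : pt3 (c * x) (c * y) (c * z) = pt3 x y z := by
  by_cases h : ![x, y, z] ≠ 0
  · have h' : ![c * x, c * y, c * z] ≠ 0 := by
      rw [vec3_ne_zero] at h ⊢
      simpa [hc] using h
    rw [pt3_eq h, pt3_eq h', Projectivization.mk_eq_mk_iff']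
    exact ⟨c, by funext s; fin_cases s <;> simp⟩
  · have h' : ¬ ![c * x, c * y, c * z] ≠ 0 := by
      rw [vec3_ne_zero] at h ⊢
      simpa [hc] using h
    unfold pt3
    rw [dif_neg h, dif_neg h']

/-- The coordinates of `(x : y : z)` are proportional to `(x, y, z)`. -/
lemma rep_pt3 {x y z : k} (h : ![x, y, z] ≠ 0) : ∃ c : k, c ≠ 0 ∧ (pt3 x y z).rep 0 = c * x ∧
    (pt3 x y z).rep 1 = c * y ∧ (pt3 x y z).rep 2 = c * z := by
  obtain ⟨c, hc⟩ := Projectivization.exists_smul_eq_mk_rep k _ h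
  rw [pt3_eq h, ← hc]
  exact ⟨c, c.ne_zero, rfl, rfl, rfl⟩

lemma pt3_eq_iff {x y z x' y' z' : k} (h : ![x, y, z] ≠ 0) (h' : ![x', y', z'] ≠ 0) :
    pt3 x y z = pt3 x' y' z' ↔ ∃ c : k, c ≠ 0 ∧ x = c * x' ∧ y = c * y' ∧ z = c * z' := by
  constructor
  · intro e
    rw [pt3_eq h, pt3_eq h', Projectivization.mk_eq_mk_iff] at e
    obtain ⟨c, hc⟩ := e
    exact ⟨c, c.ne_zero, (congrFun hc 0).symm, (congrFun hc 1).symm, (congrFun hc 2).symm⟩
  · rintro ⟨c, hc, rfl, rfl, rfl⟩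
    exact pt3_smul hc _ _ _

/-- The point is in the affine part `z ≠ 0`. -/
def IsFin (P : P2 k) : Prop := P.rep 2 ≠ 0

/-- The affine coordinate `x / z`. -/
noncomputable def ax (P : P2 k) : k := P.rep 0 / P.rep 2

/-- The affine coordinate `y / z`. -/
noncomputable def ay (P : P2 k) : k := P.rep 1 / P.rep 2

lemma isFin_pt3 {x y z : k} (h : ![x, y, z] ≠ 0) : IsFin (pt3 x y z) ↔ z ≠ 0 := by
  obtain ⟨c, hc, -, -, e⟩ := rep_pt3 h
  simp [IsFin, e, hc]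

lemma ax_pt3 {x y z : k} (h : ![x, y, z] ≠ 0) : ax (pt3 x y z) = x / z := by
  obtain ⟨c, hc, e, -, e'⟩ := rep_pt3 h
  rw [ax, e, e', mul_div_mul_left _ _ hc]

lemma ay_pt3 {x y z : k} (h : ![x, y, z] ≠ 0) : ay (pt3 x y z) = y / z := by
  obtain ⟨c, hc, -, e, e'⟩ := rep_pt3 h
  rw [ay, e, e', mul_div_mul_left _ _ hc]

lemma aff_ne_zero (x y : k) : ![x, y, 1] ≠ 0 := vec3_ne_zero.2 (Or.inr (Or.inr one_ne_zero))

@[simp] lemma isFin_aff (x y : k) : IsFin (pt3 x y 1) := (isFin_pt3 (aff_ne_zero x y)).2 one_ne_zero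

@[simp] lemma ax_aff (x y : k) : ax (pt3 x y 1) = x := by rw [ax_pt3 (aff_ne_zero x y), div_one]

@[simp] lemma ay_aff (x y : k) : ay (pt3 x y 1) = y := by rw [ay_pt3 (aff_ne_zero x y), div_one]

lemma IsFin.eq_aff {P : P2 k} (h : IsFin P) : pt3 (ax P) (ay P) 1 = P := by
  have h' : P.rep 2 ≠ 0 := h
  rw [← pt3_smul h', ax, ay, mul_div_cancel₀ _ h', mul_div_cancel₀ _ h', mul_one, pt3_rep]

lemma IsFin.ext {P P' : P2 k} (h : IsFin P) (h' : IsFin P') (hx : ax P = ax P') (hy : ay P = ay P') :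
    P = P' := by
  rw [← h.eq_aff, ← h'.eq_aff, hx, hy]

/-- The homogeneous equation of the curve. -/
def CEq (q : ℕ) (b : Bool) (x y z : k) : Prop :=
  if b then x ^ (q - 1) + y ^ (q - 1) = z ^ (q - 1) else y ^ q - y * z ^ (q - 1) = x ^ (q - 1) * z

lemma mem_curve {q : ℕ} {b : Bool} {P : P2 k} :
    P ∈ curve k q b ↔ CEq q b (P.rep 0) (P.rep 1) (P.rep 2) := Iff.rfl

lemma cEq_smul {q : ℕ} [IsQ k q] {b : Bool} {c : k} (hc : c ≠ 0) (x y z : k) :
    CEq q b (c * x) (c * y) (c * z) ↔ CEq q b x y z := by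
  have h1 : c ^ (q - 1) ≠ 0 := pow_ne_zero _ hc
  cases b
  · simp only [CEq, Bool.false_eq_true, if_false, mul_pow, IsQ.pow_eq q c]
    rw [← (mul_right_inj' (mul_ne_zero h1 hc) : _ ↔ y ^ q - y * z ^ (q - 1) = x ^ (q - 1) * z)]
    constructor <;> intro h <;> linear_combination h
  · simp only [CEq, if_true, mul_pow]
    rw [← mul_add, mul_right_inj' h1]

lemma pt3_mem_curve {q : ℕ} [IsQ k q] {b : Bool} {x y z : k} (h : ![x, y, z] ≠ 0) :
    pt3 x y z ∈ curve k q b ↔ CEq q b x y z := by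
  obtain ⟨c, hc, e0, e1, e2⟩ := rep_pt3 h
  rw [mem_curve, e0, e1, e2, cEq_smul hc]

lemma aff_mem_fermat {q : ℕ} [IsQ k q] {x y : k} :
    pt3 x y 1 ∈ curve k q true ↔ x ^ (q - 1) + y ^ (q - 1) = 1 := by
  simp [pt3_mem_curve (aff_ne_zero x y), CEq]

lemma aff_mem_dh {q : ℕ} [IsQ k q] {x y : k} :
    pt3 x y 1 ∈ curve k q false ↔ y ^ q - y = x ^ (q - 1) := by
  simp [pt3_mem_curve (aff_ne_zero x y), CEq]

lemma inf_mem_dh {q : ℕ} [h : IsQ k q] : pt3 1 0 0 ∈ curve k q false := by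
  have := h.one_lt
  rw [pt3_mem_curve (by simp)]
  simp [CEq, show q ≠ 0 by omega]

lemma not_isFin_inf : ¬ IsFin (pt3 (1 : k) 0 0) := by rw [isFin_pt3 (by simp)]; simp

/-- The Davenport-Hasse curve has a single point at infinity. -/
lemma eq_inf_of_dh {q : ℕ} [IsQ k q] {P : P2 k} (hP : P ∈ curve k q false) (h : ¬ IsFin P) :
    P = pt3 1 0 0 := by
  have h2 : P.rep 2 = 0 := not_not.1 h
  have h0 := IsQ.pos k q
  rw [mem_curve, h2] at hP
  have h1 : P.rep 1 = 0 := by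
    simp only [CEq, Bool.false_eq_true, if_false, zero_pow h0.ne', mul_zero, sub_zero] at hP
    exact pow_eq_zero_iff (by omega) |>.1 hP
  have h3 := vec3_ne_zero.1 (rep_ne_zero P)
  simp only [h1, h2, ne_eq, not_true, or_false] at h3
  rw [← pt3_rep P, h1, h2, ← pt3_smul h3 1 0 0]
  simp

/-- `g` maps the curve `b` to the curve `b'` and is given there by three polynomials. -/
def CMap (q : ℕ) (b b' : Bool) (g : P2 k → P2 k) : Prop :=
  MapsTo g (curve k q b) (curve k q b') ∧ ∃ F : Fin 3 → MvPolynomial (Fin 3) k,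
    ∀ v hv, Projectivization.mk k v hv ∈ curve k q b →
      ∃ h, Projectivization.mk k (fun s => eval v (F s)) h = g (Projectivization.mk k v hv)

lemma cMap_id {q : ℕ} {b b' : Bool} (h : b = b') : CMap q b b' (id : P2 k → P2 k) := by
  subst h
  exact ⟨mapsTo_id _, X, fun v hv _ => ⟨by simpa using hv, by simp⟩⟩

lemma cMap_const {q : ℕ} (b : Bool) {b' : Bool} {P : P2 k} (hP : P ∈ curve k q b') :
    CMap q b b' fun _ => P :=
  ⟨fun _ _ => hP, fun s => C (P.rep s), fun v hv _ =>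
    ⟨by simpa using P.rep_nonzero, by simp⟩⟩

lemma CMap.comp {q : ℕ} {b b' b'' : Bool} {g g' : P2 k → P2 k} (h' : CMap q b' b'' g')
    (h : CMap q b b' g) : CMap q b b'' (g' ∘ g) := by
  obtain ⟨h1, F, hF⟩ := h
  obtain ⟨h2, G, hG⟩ := h'
  refine ⟨h2.comp h1, fun s => aeval F (G s), fun v hv hm => ?_⟩
  obtain ⟨h3, e⟩ := hF v hv hm
  simp only [eval_comp_aeval, Function.comp_apply, ← e]
  exact hG _ h3 (e ▸ h1 hm)

/-- The parameters `(α, β, γ)` of the linear maps `(x : y : z) ↦ (α x : β y + γ z : z)`. -/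
abbrev G3 (k : Type u) [Field k] : Type u := kˣ × kˣ × Multiplicative k

/-- The map `(x : y : z) ↦ (α x : β y + γ z : z)`. -/
noncomputable def lin (g : G3 k) (P : P2 k) : P2 k :=
  pt3 (g.1 * P.rep 0) (g.2.1 * P.rep 1 + g.2.2.toAdd * P.rep 2) (P.rep 2)

lemma lin_ne_zero (g : G3 k) {x y z : k} (h : ![x, y, z] ≠ 0) :
    ![g.1 * x, g.2.1 * y + g.2.2.toAdd * z, z] ≠ 0 := by
  rw [vec3_ne_zero] at h ⊢
  by_cases hz : z = 0
  · simpa [hz] using h
  · exact Or.inr (Or.inr hz)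

lemma lin_pt3 (g : G3 k) {x y z : k} (h : ![x, y, z] ≠ 0) :
    lin g (pt3 x y z) = pt3 (g.1 * x) (g.2.1 * y + g.2.2.toAdd * z) z := by
  obtain ⟨c, hc, e0, e1, e2⟩ := rep_pt3 h
  rw [lin, e0, e1, e2, ← pt3_smul hc (g.1 * x)]
  congr 1 <;> ring

lemma lin_one (P : P2 k) : lin 1 P = P := by simp [lin, pt3_rep]

lemma lin_lin (g h : G3 k) (P : P2 k) : lin g (lin h P) =
    lin (g.1 * h.1, g.2.1 * h.2.1, Multiplicative.ofAdd (g.2.1 * h.2.2.toAdd + g.2.2.toAdd)) P := by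
  rw [← pt3_rep P, lin_pt3 _ (rep_ne_zero P), lin_pt3 _ (lin_ne_zero _ (rep_ne_zero P)),
    lin_pt3 _ (rep_ne_zero P)]
  congr 1 <;> simp <;> ring

@[simp] lemma isFin_lin (g : G3 k) (P : P2 k) : IsFin (lin g P) ↔ IsFin P :=
  isFin_pt3 (lin_ne_zero g (rep_ne_zero P))

@[simp] lemma ax_lin (g : G3 k) (P : P2 k) : ax (lin g P) = g.1 * ax P := by
  rw [lin, ax_pt3 (lin_ne_zero g (rep_ne_zero P)), ax, mul_div_assoc]

lemma ay_lin (g : G3 k) {P : P2 k} (h : IsFin P) :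
    ay (lin g P) = g.2.1 * ay P + g.2.2.toAdd := by
  have h' : P.rep 2 ≠ 0 := h
  rw [lin, ay_pt3 (lin_ne_zero g (rep_ne_zero P)), ay]
  field_simp

lemma lin_inf (g : G3 k) : lin g (pt3 1 0 0) = pt3 1 0 0 := by
  rw [lin_pt3 g (by simp), ← pt3_smul g.1.ne_zero 1 0 0]
  simp

lemma cMap_lin {q : ℕ} {b b' : Bool} {g : G3 k} (h : MapsTo (lin g) (curve k q b) (curve k q b')) :
    CMap q b b' (lin g) := by
  refine ⟨h, ![C (g.1 : k) * X 0, C (g.2.1 : k) * X 1 + C g.2.2.toAdd * X 2, X 2], fun v hv _ => ?_⟩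
  have e : ![v 0, v 1, v 2] = v := by funext s; fin_cases s <;> rfl
  have hv' : ![v 0, v 1, v 2] ≠ 0 := by rwa [e]
  have e' : (fun s => eval v ((![C (g.1 : k) * X 0, C (g.2.1 : k) * X 1 + C g.2.2.toAdd * X 2, X 2] :
      Fin 3 → MvPolynomial (Fin 3) k) s)) = ![g.1 * v 0, g.2.1 * v 1 + g.2.2.toAdd * v 2, v 2] := by
    funext s; fin_cases s <;> simp
  rw [e', mk_eq_pt3 v hv, lin_pt3 g hv']
  exact ⟨lin_ne_zero g hv', (pt3_eq _).symm⟩

/-- The Frobenius map `(x : y : z) ↦ (x^e : y^e : z^e)`. -/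
noncomputable def frob (e : ℕ) (P : P2 k) : P2 k := pt3 (P.rep 0 ^ e) (P.rep 1 ^ e) (P.rep 2 ^ e)

lemma frob_ne_zero (e : ℕ) {x y z : k} (h : ![x, y, z] ≠ 0) : ![x ^ e, y ^ e, z ^ e] ≠ 0 := by
  rw [vec3_ne_zero] at h ⊢
  exact h.imp (pow_ne_zero e) (Or.imp (pow_ne_zero e) (pow_ne_zero e))

lemma frob_pt3 (e : ℕ) {x y z : k} (h : ![x, y, z] ≠ 0) :
    frob e (pt3 x y z) = pt3 (x ^ e) (y ^ e) (z ^ e) := by
  obtain ⟨c, hc, e0, e1, e2⟩ := rep_pt3 h
  rw [frob, e0, e1, e2, mul_pow, mul_pow, mul_pow, pt3_smul (pow_ne_zero e hc)]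

lemma frob_frob (e e' : ℕ) (P : P2 k) : frob e (frob e' P) = frob (e' * e) P := by
  rw [← pt3_rep P, frob_pt3 _ (rep_ne_zero P), frob_pt3 _ (frob_ne_zero _ (rep_ne_zero P)),
    frob_pt3 _ (rep_ne_zero P), pow_mul, pow_mul, pow_mul]

lemma frob_one (P : P2 k) : frob 1 P = P := by simp [frob, pt3_rep]

lemma isFin_frob (e : ℕ) [h : IsQ k e] (P : P2 k) : IsFin (frob e P) ↔ IsFin P := by
  have := h.one_lt
  rw [frob, isFin_pt3 (frob_ne_zero e (rep_ne_zero P)), IsFin, pow_ne_zero_iff (by omega)]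

@[simp] lemma ax_frob (e : ℕ) (P : P2 k) : ax (frob e P) = ax P ^ e := by
  rw [frob, ax_pt3 (frob_ne_zero e (rep_ne_zero P)), ax, div_pow]

@[simp] lemma ay_frob (e : ℕ) (P : P2 k) : ay (frob e P) = ay P ^ e := by
  rw [frob, ay_pt3 (frob_ne_zero e (rep_ne_zero P)), ay, div_pow]

lemma frob_lin (e : ℕ) [IsQ k e] (g : G3 k) (P : P2 k) : frob e (lin g P) =
    lin (g.1 ^ e, g.2.1 ^ e, Multiplicative.ofAdd (g.2.2.toAdd ^ e)) (frob e P) := by
  rw [← pt3_rep P, lin_pt3 _ (rep_ne_zero P), frob_pt3 _ (lin_ne_zero _ (rep_ne_zero P)),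
    frob_pt3 _ (rep_ne_zero P), lin_pt3 _ (frob_ne_zero _ (rep_ne_zero P))]
  simp [IsQ.add_pow, mul_pow]

lemma cMap_frob (q e : ℕ) [IsQ k q] [IsQ k e] (b : Bool) : CMap q b b (frob e : P2 k → P2 k) := by
  refine ⟨fun P hP => ?_, fun s => X s ^ e, fun v hv _ => ?_⟩
  · rw [frob, pt3_mem_curve (frob_ne_zero e (rep_ne_zero P))]
    rw [mem_curve] at hP
    cases b
    · simp only [CEq, Bool.false_eq_true, if_false] at hP ⊢
      have := congrArg (· ^ e) hP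
      simp only [IsQ.sub_pow, mul_pow] at this
      simpa only [← pow_mul, mul_comm e] using this
    · simp only [CEq, if_true] at hP ⊢
      have := congrArg (· ^ e) hP
      simp only [IsQ.add_pow] at this
      simpa only [← pow_mul, mul_comm e] using this
  · have e0 : ![v 0, v 1, v 2] = v := by funext s; fin_cases s <;> rfl
    have hv' : ![v 0, v 1, v 2] ≠ 0 := by rwa [e0]
    have e' : (fun s => eval v (X s ^ e : MvPolynomial (Fin 3) k)) =
        ![v 0 ^ e, v 1 ^ e, v 2 ^ e] := by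
      funext s; fin_cases s <;> simp
    rw [e', mk_eq_pt3 v hv, frob_pt3 e hv']
    exact ⟨frob_ne_zero e hv', (pt3_eq _).symm⟩

/-- The group `μ × μ` (Fermat curve) or `μ × F_q` (Davenport-Hasse curve), `μ = μ_(q-1)`. -/
def Gp (k : Type u) [Field k] (q : ℕ) [IsQ k q] (b : Bool) : Subgroup (G3 k) where
  carrier := {g | g.1 ^ (q - 1) = 1 ∧ g.2.1 ^ (q - 1) = 1 ∧ g.2.2.toAdd ^ q = g.2.2.toAdd ∧
    if b then g.2.2 = 1 else g.2.1 = 1}
  one_mem' := by
    have := IsQ.one_lt (k := k) (q := q)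
    cases b <;> simp [show q ≠ 0 by omega]
  mul_mem' := by
    rintro g h ⟨h1, h2, h3, h4⟩ ⟨h5, h6, h7, h8⟩
    refine ⟨by simp [mul_pow, h1, h5], by simp [mul_pow, h2, h6],
      by simp [IsQ.add_pow, h3, h7], ?_⟩
    cases b <;> simp_all
  inv_mem' := by
    rintro g ⟨h1, h2, h3, h4⟩
    refine ⟨by simp [h1], by simp [h2], by simp [IsQ.neg_pow, h3], ?_⟩
    cases b <;> simp_all

lemma mem_Gp {q : ℕ} [IsQ k q] {b : Bool} {g : G3 k} : g ∈ Gp k q b ↔ g.1 ^ (q - 1) = 1 ∧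
    g.2.1 ^ (q - 1) = 1 ∧ g.2.2.toAdd ^ q = g.2.2.toAdd ∧ if b then g.2.2 = 1 else g.2.1 = 1 :=
  Iff.rfl

lemma lin_mul {q : ℕ} [IsQ k q] {b : Bool} {g h : G3 k} (hg : g ∈ Gp k q b) (hh : h ∈ Gp k q b)
    (P : P2 k) : lin (g * h) P = lin g (lin h P) := by
  rw [lin_lin]
  congr 1
  have h1 := hg.2.2.2
  have h2 := hh.2.2.2
  refine Prod.ext rfl (Prod.ext rfl ?_)
  cases b
  · simp only [Bool.false_eq_true, if_false] at h1
    simp [h1, mul_comm]
  · simp only [if_true] at h1 h2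
    simp [h1, h2]

/-- The maps `(x, y) ↦ (ξ x, c y + γ)` with `ξ^(q-1) = c` and `c, γ ∈ F_q` preserve the
Davenport-Hasse curve. -/
lemma cMap_dh {q : ℕ} [IsQ k q] {g : G3 k} (h1 : g.1 ^ (q - 1) = g.2.1) (h2 : g.2.1 ^ (q - 1) = 1)
    (h3 : g.2.2.toAdd ^ q = g.2.2.toAdd) : CMap q false false (lin g) := by
  refine cMap_lin fun P hP => ?_
  rw [lin, pt3_mem_curve (lin_ne_zero g (rep_ne_zero P))]
  rw [mem_curve] at hP
  simp only [CEq, Bool.false_eq_true, if_false] at hP ⊢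
  have e1 : (g.1 : k) ^ (q - 1) = g.2.1 := by exact_mod_cast congrArg Units.val h1
  have e2 : (g.2.1 : k) ^ (q - 1) = 1 := by simpa using congrArg Units.val h2
  rw [IsQ.add_pow, mul_pow, mul_pow, mul_pow, h3, e1, IsQ.pow_eq q (g.2.1 : k), e2,
    IsQ.pow_eq q (P.rep 2)]
  linear_combination (g.2.1 : k) * hP

lemma cMap_Gp {q : ℕ} [IsQ k q] {b : Bool} {g : G3 k} (hg : g ∈ Gp k q b) : CMap q b b (lin g) := by
  obtain ⟨h1, h2, h3, h4⟩ := hg
  cases b
  · simp only [Bool.false_eq_true, if_false] at h4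
    exact cMap_dh (h1.trans h4.symm) h2 h3
  · refine cMap_lin fun P hP => ?_
    rw [lin, pt3_mem_curve (lin_ne_zero g (rep_ne_zero P))]
    rw [mem_curve] at hP
    simp only [CEq, if_true] at hP h4 ⊢
    have e1 : (g.1 : k) ^ (q - 1) = 1 := by simpa using congrArg Units.val h1
    have e2 : (g.2.1 : k) ^ (q - 1) = 1 := by simpa using congrArg Units.val h2
    simp [h4, mul_pow, e1, e2, hP]

lemma frob_lin_Gp {q : ℕ} [IsQ k q] {b : Bool} {g : G3 k} (hg : g ∈ Gp k q b) (P : P2 k) :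
    frob q (lin g P) = lin g (frob q P) := by
  obtain ⟨h1, h2, h3, -⟩ := hg
  have h0 : q = q - 1 + 1 := (Nat.sub_add_cancel (IsQ.one_lt (k := k)).le).symm
  rw [frob_lin, h3]
  congr 1
  refine Prod.ext ?_ (Prod.ext ?_ rfl)
  · show g.1 ^ q = g.1
    rw [h0, pow_succ, h1, one_mul]
  · show g.2.1 ^ q = g.2.1
    rw [h0, pow_succ, h2, one_mul]

end Pool.Agent.MP_0c8446_ag
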