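import Pool.Agent.Mg.F0c8446.G273c8c
import Pool.Agent.Mg.F0c8446.G61fd81

section

namespace Pool.Agent.MP_0c8446_ag

open Set Polynomial

universe u v

variable {k : Type u} [Field k] {q : ℕ} [IsQ k q]

lemma Fq_sub_roots : (Fq k q : Set k) = (X ^ q - X : k[X]).rootSet k := by
  have h := IsQ.one_lt (k := k) (q := q)
  ext x
  rw [SetLike.mem_coe, mem_Fq, mem_rootSet_of_ne (FiniteField.X_pow_card_sub_X_ne_zero k h)]
  simp [sub_eq_zero]

instance : Finite (Fq k q) := by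
  have : (Fq k q : Set k).Finite := by rw [Fq_sub_roots]; exact rootSet_finite _ _
  exact this

noncomputable instance : Fintype (Fq k q) := Fintype.ofFinite _

lemma card_Fq [IsAlgClosed k] : Fintype.card (Fq k q) = q := by
  have h := IsQ.one_lt (k := k) (q := q)
  have hs : (X ^ q - X : k[X]).Separable := by
    rw [separable_def, derivative_sub, derivative_X_pow, IsQ.cast (k := k) (q := q)]
    simpa using isCoprime_one_right.neg_right
  have h1 := card_rootSet_eq_natDegree (K := k) hs (IsAlgClosed.splits _)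
  rw [FiniteField.X_pow_card_sub_X_natDegree_eq k h] at h1
  refine Eq.trans ?_ h1
  rw [← Nat.card_eq_fintype_card, ← Nat.card_eq_fintype_card, ← Fq_sub_roots]
  rfl

lemma Fq_pow (x : Fq k q) : (x : k) ^ q = x := x.2

lemma Fq_unit_pow (x : (Fq k q)ˣ) : ((x : Fq k q) : k) ^ (q - 1) = 1 := by
  have h : ((x : Fq k q) : k) ≠ 0 := by simp
  have h1 := Fq_pow (x : Fq k q)
  rw [IsQ.pow_eq q] at h1
  exact mul_right_cancel₀ h (h1.trans (one_mul _).symm)

/-- A `(q-1)`-th root of unity as a unit of `F_q`. -/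
def toFqUnit (a : k) (h : a ^ (q - 1) = 1) : (Fq k q)ˣ :=
  Units.mk0 ⟨a, by rw [mem_Fq, IsQ.pow_eq q, h, one_mul]⟩ fun e => by
    have h0 : a = 0 := congrArg Subtype.val e
    rw [h0, zero_pow (IsQ.pos k q).ne'] at h
    exact zero_ne_one h

@[simp] lemma toFqUnit_val (a : k) (h : a ^ (q - 1) = 1) : ((toFqUnit a h : Fq k q) : k) = a := rfl

/-- A unit of `F_q` as a unit of `k`. -/
def ofFqUnit : (Fq k q)ˣ →* kˣ := Units.map (Fq k q).subtype

@[simp] lemma ofFqUnit_val (a : (Fq k q)ˣ) : (ofFqUnit a : k) = (a : Fq k q) := rfl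

lemma ofFqUnit_pow (a : (Fq k q)ˣ) : ofFqUnit a ^ (q - 1) = 1 := Units.ext (by simp [Fq_unit_pow])

variable {b : Bool}

lemma Gp_pow1 (g : Gp k q b) : (g.1.1 : k) ^ (q - 1) = 1 := by
  simpa using congrArg Units.val g.2.1

lemma Gp_pow2 (g : Gp k q b) : (g.1.2.1 : k) ^ (q - 1) = 1 := by
  simpa using congrArg Units.val g.2.2.1

/-- The first parameter of a group element. -/
def gA : Gp k q b →* (Fq k q)ˣ where
  toFun g := toFqUnit g.1.1 (Gp_pow1 g)
  map_one' := by ext; simp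
  map_mul' g h := by ext; simp

/-- The second parameter of a group element. -/
def gB : Gp k q b →* (Fq k q)ˣ where
  toFun g := toFqUnit g.1.2.1 (Gp_pow2 g)
  map_one' := by ext; simp
  map_mul' g h := by ext; simp

/-- The third parameter of a group element. -/
def gC : Gp k q b →* Multiplicative (Fq k q) where
  toFun g := Multiplicative.ofAdd ⟨g.1.2.2.toAdd, g.2.2.2.1⟩
  map_one' := rfl
  map_mul' _ _ := rfl

@[simp] lemma gA_val (g : Gp k q b) : ((gA g : Fq k q) : k) = g.1.1 := rfl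
@[simp] lemma gB_val (g : Gp k q b) : ((gB g : Fq k q) : k) = g.1.2.1 := rfl
@[simp] lemma gC_val (g : Gp k q b) : ((gC g).toAdd : k) = g.1.2.2.toAdd := rfl

/-- The automorphism `(x, y) ↦ (α x, y + γ)` of the Davenport-Hasse curve. -/
def gD (α : (Fq k q)ˣ) (γ : Fq k q) : Gp k q false :=
  ⟨(ofFqUnit α, 1, Multiplicative.ofAdd (γ : k)), ofFqUnit_pow α, one_pow _, γ.2, by simp⟩

/-- The automorphism `(x, y) ↦ (α x, β y)` of the Fermat curve. -/
def gF (α β : (Fq k q)ˣ) : Gp k q true := by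
  refine ⟨(ofFqUnit α, ofFqUnit β, 1), ofFqUnit_pow α, ofFqUnit_pow β, ?_, by simp⟩
  have := IsQ.one_lt (k := k) (q := q)
  simp [show q ≠ 0 by omega]

@[simp] lemma gD_val (α : (Fq k q)ˣ) (γ : Fq k q) :
    (gD α γ).1 = (ofFqUnit α, 1, Multiplicative.ofAdd (γ : k)) := rfl
@[simp] lemma gF_val (α β : (Fq k q)ˣ) : (gF α β).1 = (ofFqUnit α, ofFqUnit β, 1) := rfl
@[simp] lemma gA_gD (α : (Fq k q)ˣ) (γ : Fq k q) : gA (gD α γ) = α := by ext; rfl
@[simp] lemma gB_gD (α : (Fq k q)ˣ) (γ : Fq k q) : gB (gD α γ) = 1 := by ext; rfl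
@[simp] lemma gC_gD (α : (Fq k q)ˣ) (γ : Fq k q) : gC (gD α γ) = Multiplicative.ofAdd γ := rfl
@[simp] lemma gA_gF (α β : (Fq k q)ˣ) : gA (gF α β) = α := by ext; rfl
@[simp] lemma gB_gF (α β : (Fq k q)ˣ) : gB (gF α β) = β := by ext; rfl
@[simp] lemma gC_gF (α β : (Fq k q)ˣ) : gC (gF α β) = 1 := rfl

lemma gD_eta (g : Gp k q false) : gD (gA g) (gC g).toAdd = g := by
  have h := g.2.2.2.2
  simp only [Bool.false_eq_true, if_false] at h
  exact Subtype.ext (Prod.ext (Units.ext rfl) (Prod.ext h.symm rfl))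

lemma gF_eta (g : Gp k q true) : gF (gA g) (gB g) = g := by
  have h := g.2.2.2.2
  simp only [if_true] at h
  exact Subtype.ext (Prod.ext (Units.ext rfl) (Prod.ext (Units.ext rfl) h.symm))

lemma gD_mul (α α' : (Fq k q)ˣ) (γ γ' : Fq k q) : gD (α * α') (γ + γ') = gD α γ * gD α' γ' :=
  Subtype.ext (Prod.ext (map_mul _ _ _) (Prod.ext (mul_one _).symm rfl))

lemma gF_mul (α α' β β' : (Fq k q)ˣ) : gF (α * α') (β * β') = gF α β * gF α' β' :=
  Subtype.ext (Prod.ext (map_mul _ _ _) (Prod.ext (map_mul _ _ _) (mul_one _).symm))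

lemma gD_one : gD (1 : (Fq k q)ˣ) 0 = 1 := Subtype.ext (Prod.ext (map_one _) rfl)

lemma gF_one : gF (1 : (Fq k q)ˣ) 1 = 1 :=
  Subtype.ext (Prod.ext (map_one _) (Prod.ext (map_one _) rfl))

/-- `Gp false ≃ F_q^× × F_q`. -/
def eqD : (Fq k q)ˣ × Fq k q ≃ Gp k q false where
  toFun a := gD a.1 a.2
  invFun g := (gA g, (gC g).toAdd)
  left_inv a := by simp
  right_inv := gD_eta

/-- `Gp true ≃ F_q^× × F_q^×`. -/
def eqF : (Fq k q)ˣ × (Fq k q)ˣ ≃ Gp k q true where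
  toFun a := gF a.1 a.2
  invFun g := (gA g, gB g)
  left_inv a := by simp
  right_inv := gF_eta

instance : Finite (Gp k q b) := by
  cases b
  · exact Finite.of_equiv _ eqD
  · exact Finite.of_equiv _ eqF

noncomputable instance : Fintype (Gp k q b) := Fintype.ofFinite _

variable {K : Type v} [Field K]

/-- The character `(α, β, γ) ↦ ω₁(α) ω₂(β) ψ(γ)`. -/
noncomputable def ch (b : Bool) (ω₁ ω₂ : MulChar (Fq k q) K) (ψ : AddChar (Fq k q) K) :
    Gp k q b →* Kˣ :=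
  ω₁.toUnitHom.comp gA * ω₂.toUnitHom.comp gB * ψ.toMonoidHom.toHomUnits.comp gC

lemma ch_val (ω₁ ω₂ : MulChar (Fq k q) K) (ψ : AddChar (Fq k q) K) (g : Gp k q b) :
    (ch b ω₁ ω₂ ψ g : K) = ω₁ (gA g) * ω₂ (gB g) * ψ (gC g).toAdd := by
  simp [ch]

@[simp] lemma ch_gD (ω₁ ω₂ : MulChar (Fq k q) K) (ψ : AddChar (Fq k q) K) (α : (Fq k q)ˣ)
    (γ : Fq k q) : (ch false ω₁ ω₂ ψ (gD α γ) : K) = ω₁ α * ψ γ := by
  simp [ch_val]

@[simp] lemma ch_gF (ω₁ ω₂ : MulChar (Fq k q) K) (ψ : AddChar (Fq k q) K) (α β : (Fq k q)ˣ) :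
    (ch true ω₁ ω₂ ψ (gF α β) : K) = ω₁ α * ω₂ β := by
  simp [ch_val]

lemma chD_ext {χ χ' : Gp k q false →* Kˣ} (h : ∀ α γ, (χ (gD α γ) : K) = χ' (gD α γ)) : χ = χ' :=
  MonoidHom.ext fun g => Units.ext (by rw [← gD_eta g]; exact h _ _)

lemma chF_ext {χ χ' : Gp k q true →* Kˣ} (h : ∀ α β, (χ (gF α β) : K) = χ' (gF α β)) : χ = χ' :=
  MonoidHom.ext fun g => Units.ext (by rw [← gF_eta g]; exact h _ _)

lemma ch_inv (ω₁ ω₂ : MulChar (Fq k q) K) (ψ : AddChar (Fq k q) K) :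
    (ch b ω₁ ω₂ ψ)⁻¹ = ch b ω₁⁻¹ ω₂⁻¹ ψ⁻¹ := by
  refine MonoidHom.ext fun g => Units.ext ?_
  rw [MonoidHom.inv_apply, Units.val_inv_eq_inv_val, ch_val, ch_val, MulChar.inv_apply_eq_inv',
    MulChar.inv_apply_eq_inv', AddChar.inv_apply, AddChar.map_neg_eq_inv, mul_inv, mul_inv]

lemma exists_chD (χ : Gp k q false →* Kˣ) : ∃ ω ψ, χ = ch false ω 1 ψ := by
  let a : (Fq k q)ˣ →* Gp k q false :=
    { toFun α := gD α 0, map_one' := gD_one, map_mul' α α' := by rw [← gD_mul, add_zero] }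
  let ψ : AddChar (Fq k q) K :=
    { toFun γ := χ (gD 1 γ)
      map_zero_eq_one' := by simp [gD_one]
      map_add_eq_mul' γ γ' := by rw [← Units.val_mul, ← map_mul, ← gD_mul, mul_one] }
  refine ⟨MulChar.ofUnitHom (χ.comp a), ψ, chD_ext fun α γ => ?_⟩
  rw [ch_gD, MulChar.ofUnitHom_coe]
  show _ = (χ (gD α 0) : K) * χ (gD 1 γ)
  rw [← Units.val_mul, ← map_mul, ← gD_mul, mul_one, zero_add]

lemma exists_chF (χ : Gp k q true →* Kˣ) : ∃ ω₁ ω₂, χ = ch true ω₁ ω₂ 1 := by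
  let a : (Fq k q)ˣ →* Gp k q true :=
    { toFun α := gF α 1, map_one' := gF_one, map_mul' α α' := by rw [← gF_mul, mul_one] }
  let a' : (Fq k q)ˣ →* Gp k q true :=
    { toFun α := gF 1 α, map_one' := gF_one, map_mul' α α' := by rw [← gF_mul, mul_one] }
  refine ⟨MulChar.ofUnitHom (χ.comp a), MulChar.ofUnitHom (χ.comp a'), chF_ext fun α β => ?_⟩
  rw [ch_gF, MulChar.ofUnitHom_coe, MulChar.ofUnitHom_coe]
  show _ = (χ (gF α 1) : K) * χ (gF 1 β)
  rw [← Units.val_mul, ← map_mul, ← gF_mul, mul_one, one_mul]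

lemma chD_inj {ω ω' : MulChar (Fq k q) K} {ψ ψ' : AddChar (Fq k q) K}
    (h : ch false ω 1 ψ = ch false ω' 1 ψ') : ω = ω' ∧ ψ = ψ' := by
  have h1 : ∀ α γ, ω (α : (Fq k q)ˣ) * ψ γ = ω' α * ψ' γ := fun α γ => by
    rw [← ch_gD ω 1, h, ch_gD]
  exact ⟨MulChar.ext fun α => by simpa using h1 α 0, AddChar.ext _ _ fun γ => by simpa using h1 1 γ⟩

lemma chF_inj {ω₁ ω₂ ω₁' ω₂' : MulChar (Fq k q) K}
    (h : ch true ω₁ ω₂ 1 = ch true ω₁' ω₂' 1) : ω₁ = ω₁' ∧ ω₂ = ω₂' := by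
  have h1 : ∀ α β, ω₁ (α : (Fq k q)ˣ) * ω₂ (β : (Fq k q)ˣ) = ω₁' α * ω₂' β := fun α β => by
    rw [← ch_gF ω₁ ω₂ 1, h, ch_gF]
  exact ⟨MulChar.ext fun α => by simpa using h1 α 1, MulChar.ext fun α => by simpa using h1 1 α⟩

/-- The characters that occur in `H^1`. -/
def Adm : (b : Bool) → (Gp k q b →* Kˣ) → Prop
  | false, χ => ∃ ω ψ, ω ≠ 1 ∧ ψ ≠ 1 ∧ χ = ch false ω 1 ψ
  | true, χ => ∃ ω₁ ω₂, ω₁ ≠ 1 ∧ ω₂ ≠ 1 ∧ ω₁ * ω₂ ≠ 1 ∧ χ = ch true ω₁ ω₂ 1

lemma adm_false {ω : MulChar (Fq k q) K} {ψ : AddChar (Fq k q) K} :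
    Adm false (ch false ω 1 ψ) ↔ ω ≠ 1 ∧ ψ ≠ 1 := by
  refine ⟨?_, fun h => ⟨ω, ψ, h.1, h.2, rfl⟩⟩
  rintro ⟨ω', ψ', h1, h2, h⟩
  obtain ⟨rfl, rfl⟩ := chD_inj h
  exact ⟨h1, h2⟩

lemma adm_true {ω₁ ω₂ : MulChar (Fq k q) K} :
    Adm true (ch true ω₁ ω₂ 1) ↔ ω₁ ≠ 1 ∧ ω₂ ≠ 1 ∧ ω₁ * ω₂ ≠ 1 := by
  refine ⟨?_, fun h => ⟨ω₁, ω₂, h.1, h.2.1, h.2.2, rfl⟩⟩
  rintro ⟨ω₁', ω₂', h1, h2, h3, h⟩
  obtain ⟨rfl, rfl⟩ := chF_inj h
  exact ⟨h1, h2, h3⟩

lemma Adm.inv {χ : Gp k q b →* Kˣ} (h : Adm b χ) : Adm b χ⁻¹ := by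
  cases b
  · obtain ⟨ω, ψ, h1, h2, rfl⟩ := h
    exact ⟨ω⁻¹, ψ⁻¹, inv_ne_one.2 h1, inv_ne_one.2 h2, by rw [ch_inv, inv_one]⟩
  · obtain ⟨ω₁, ω₂, h1, h2, h3, rfl⟩ := h
    exact ⟨ω₁⁻¹, ω₂⁻¹, inv_ne_one.2 h1, inv_ne_one.2 h2, by rwa [← mul_inv, inv_ne_one],
      by rw [ch_inv, inv_one]⟩

lemma Adm.ne_one {χ : Gp k q b →* Kˣ} (h : Adm b χ) : χ ≠ 1 := by
  rintro rfl
  cases b
  · obtain ⟨ω, ψ, h1, -, h⟩ := h
    refine h1 (MulChar.ext fun α => ?_)
    simpa using (congrArg (fun χ : Gp k q false →* Kˣ => (χ (gD α 0) : K)) h).symm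
  · obtain ⟨ω₁, ω₂, h1, -, -, h⟩ := h
    refine h1 (MulChar.ext fun α => ?_)
    simpa using (congrArg (fun χ : Gp k q true →* Kˣ => (χ (gF α 1) : K)) h).symm

/-- The fixed points of `g ∘ Frob_e` on the curve. -/
def fixSet (b : Bool) (e : ℕ) (g : Gp k q b) : Set (P2 k) :=
  {P | P ∈ curve k q b ∧ lin g.1 (frob e P) = P}

/-- The character sum `∑_g χ(g) #Fix(g Frob_(q^r))`. -/
noncomputable def fixSum (b : Bool) (r : ℕ) (χ : Gp k q b →* Kˣ) : K :=
  ∑ g, (χ g : K) * ((fixSet b (q ^ r) g).ncard : K)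

end Pool.Agent.MP_0c8446_ag

end

section

namespace Pool.Agent.MP_0c8446_ag

open Set

universe u v w

variable {k : Type u} [Field k] [IsAlgClosed k] {q : ℕ} [IsQ k q] {K : Type v} [Field K]
  [CharZero K] {ι : Type} [Fintype ι] {τ : ι → Bool}

omit [IsAlgClosed k] in
lemma cfin_roots {e : ℕ} (he : 1 < e) {a : k} (ha : a ≠ 0) (b c : k) :
    {x : k | a * x ^ e + c = b * x}.Finite := by
  have hp : (Polynomial.C a * Polynomial.X ^ e - Polynomial.C b * Polynomial.X + Polynomial.C c :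
      Polynomial k) ≠ 0 := by
    intro h
    have h1 := congrArg (fun p => Polynomial.coeff p e) h
    simp only [Polynomial.coeff_add, Polynomial.coeff_sub, Polynomial.coeff_C_mul,
      Polynomial.coeff_X_pow, if_true, Polynomial.coeff_X, Polynomial.coeff_C,
      Polynomial.coeff_zero] at h1
    rw [if_neg (by omega), if_neg (by omega)] at h1
    exact ha (by simpa using h1)
  refine (Polynomial.finite_setOfPred_isRoot hp).subset fun x hx => ?_
  simp only [mem_ofPred_eq, Polynomial.IsRoot.def, Polynomial.eval_add, Polynomial.eval_sub,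
    Polynomial.eval_mul, Polynomial.eval_C, Polynomial.eval_pow, Polynomial.eval_X] at hx ⊢
  linear_combination hx

theorem finite_fixSet (b : Bool) (e : ℕ) [IsQ k e] (g : Gp k q b) : (fixSet b e g).Finite := by
  have he := IsQ.one_lt (k := k) (q := e)
  have h1 := cfin_roots he g.1.1.ne_zero 1 0
  have h2 := cfin_roots he g.1.2.1.ne_zero 1 g.1.2.2.toAdd
  have h3 := cfin_roots he g.1.1.ne_zero (g.1.2.1 : k) 0
  refine ((((h1.prod h2).image fun a => pt3 a.1 a.2 1).union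
    (h3.image fun x => pt3 x 1 0)).union (finite_singleton (pt3 1 0 0))).subset ?_
  rintro P ⟨-, hP⟩
  by_cases hfin : IsFin P
  · refine Or.inl (Or.inl ⟨(ax P, ay P), ⟨?_, ?_⟩, hfin.eq_aff⟩)
    · have := congrArg ax hP
      rw [ax_lin, ax_frob] at this
      simpa using this
    · have := congrArg ay hP
      rw [ay_lin _ ((isFin_frob e P).2 hfin), ay_frob] at this
      simpa using this
  · have h4 : P.rep 2 = 0 := not_not.1 hfin
    by_cases h5 : P.rep 1 = 0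
    · right
      have h6 := vec3_ne_zero.1 (rep_ne_zero P)
      simp only [h4, h5, ne_eq, not_true, or_false] at h6
      rw [mem_singleton_iff, ← pt3_rep P, h4, h5, ← pt3_smul h6 1 0 0]
      simp
    · have e1 : pt3 (P.rep 0 / P.rep 1) 1 0 = P := by
        rw [← pt3_smul h5, mul_div_cancel₀ _ h5, mul_one, mul_zero, ← h4, pt3_rep]
      refine Or.inl (Or.inr ⟨P.rep 0 / P.rep 1, ?_, e1⟩)
      generalize P.rep 0 / P.rep 1 = x at e1
      have hne : ∀ x : k, ![x, 1, 0] ≠ 0 := fun x => vec3_ne_zero.2 (Or.inr (Or.inl one_ne_zero))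
      rw [← e1, frob_pt3 e (hne x), one_pow, zero_pow (by omega), lin_pt3 _ (hne _),
        pt3_eq_iff (lin_ne_zero _ (hne _)) (hne _)] at hP
      obtain ⟨c, -, k1, k2, -⟩ := hP
      simp only [mem_ofPred_eq]
      linear_combination k1 - x * k2

end Pool.Agent.MP_0c8446_ag

end

section

namespace Pool.Agent.MP_0c8446_ag

open scoped LinearAlgebra.Projectivization
open MvPolynomial Set

universe u v w

variable {k : Type u} [Field k]

/-- The derivative of `f` at `v` in the direction `w`. -/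
noncomputable def lef2D {σ : Type} [Fintype σ] (v w : σ → k) (f : MvPolynomial σ k) : k :=
  ∑ s, w s * eval v (pderiv s f)

section deriv
variable {σ : Type} [Fintype σ] (v w : σ → k)

lemma lef2D_add (f g : MvPolynomial σ k) : lef2D v w (f + g) = lef2D v w f + lef2D v w g := by
  simp only [lef2D, map_add, mul_add, Finset.sum_add_distrib]

lemma lef2D_sub (f g : MvPolynomial σ k) : lef2D v w (f - g) = lef2D v w f - lef2D v w g := by
  simp only [lef2D, map_sub, mul_sub, Finset.sum_sub_distrib]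

lemma lef2D_mul (f g : MvPolynomial σ k) :
    lef2D v w (f * g) = eval v f * lef2D v w g + eval v g * lef2D v w f := by
  simp only [lef2D, Derivation.leibniz, smul_eq_mul, map_add, map_mul, Finset.mul_sum,
    ← Finset.sum_add_distrib]
  exact Finset.sum_congr rfl fun s _ => by ring

lemma lef2D_C (c : k) : lef2D v w (C c) = 0 := by simp [lef2D]

lemma lef2D_X (a : σ) : lef2D v w (X a) = w a := by
  classical
  simp only [lef2D, pderiv_X]
  rw [Finset.sum_eq_single a]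
  · simp
  · intro s _ hs
    simp [hs.symm]
  · simp

lemma lef2D_pow (e : ℕ) [IsQ k e] (a : σ) : lef2D v w (X a ^ e) = 0 := by
  have h : (e : k) = 0 := IsQ.cast
  simp [lef2D, Derivation.leibniz_pow, h]

end deriv

/-- Intersection number of a finite transversal intersection. -/
lemma lef2_count [Infinite k] {K : Type v} [Field K] (W : Weil.{u, v, w} k K) {X : Var k}
    {Z Z' : Set X.pts} (hZ : IsSub Z) (hZ' : IsSub Z') (hd : X.d ≤ dim Z + dim Z')
    (hf : (Z ∩ Z').Finite) (ht : ∀ x ∈ Z ∩ Z', Transv Z Z' x) :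
    W.tr X (W.cl X Z * W.cl X Z') = (Z ∩ Z').ncard := by
  classical
  have hs : ∀ C, IsSub C → C ⊆ Z ∩ Z' → ∃ x ∈ Z ∩ Z', C = {x} := by
    intro C hC h
    obtain ⟨x, hx⟩ := hC.1.1
    exact ⟨x, h hx, hC.eq_singleton_of_finite isOpen_univ
      (hf.subset (inter_subset_left.trans h)) hx (mem_univ x)⟩
  obtain ⟨s, μ, h1, -, h3, h4⟩ := W.proper X Z Z' hZ hZ' fun C hC h => by
    obtain ⟨x, -, rfl⟩ := hs C hC h
    rw [dim_singleton]
    omega
  have h5 : s = hf.toFinset.image fun x => ({x} : Set X.pts) := by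
    ext C
    rw [h1, Finset.mem_image]
    constructor
    · intro hC
      obtain ⟨x, hx, rfl⟩ := hs C hC.1.1 hC.1.2
      exact ⟨x, hf.mem_toFinset.2 hx, rfl⟩
    · rintro ⟨x, hx, rfl⟩
      refine ⟨⟨isSub_singleton x, singleton_subset_iff.2 (hf.mem_toFinset.1 hx)⟩, ?_⟩
      intro D hD hxD
      obtain ⟨y, -, rfl⟩ := hs D hD.1 hD.2
      exact (singleton_subset_singleton.1 hxD ▸ subset_rfl : ({y} : Set X.pts) ⊆ {x})
  rw [h4, map_sum, h5, Finset.sum_image fun x _ y _ h => singleton_injective h,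
    ncard_eq_toFinset_card _ hf, Finset.card_eq_sum_ones, Nat.cast_sum]
  refine Finset.sum_congr rfl fun x hx => ?_
  rw [h3 x (h5 ▸ Finset.mem_image_of_mem _ hx) (ht x (hf.mem_toFinset.1 hx)), one_smul, W.tr_pt,
    Nat.cast_one]

variable [IsAlgClosed k] {q : ℕ} [IsQ k q]

lemma lef2_graph {b : Bool} (f : Mor (Cv k q b) (Cv k q b)) :
    IsSub (range (pair (Mor.id _) f).1) ∧ dim (range (pair (Mor.id _) f).1) = 1 := by
  have h := (pair (Mor.id (Cv k q b)) f).retr (pL _ _) fun x => rfl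
  rw [← image_univ]
  exact ⟨h.isSub (Cv k q b).isSub_univ, (h.dim_image univ).trans (d_Cv b)⟩

/-- The polynomials of the map `g ∘ Frob_e` in the first block of coordinates. -/
noncomputable def lef2F (g : G3 k) (e : ℕ) :
    Fin 3 → MvPolynomial (Vars fun _ : Unit ⊕ Unit => 2) k :=
  ![C (g.1 : k) * X ⟨Sum.inl (), 0⟩ ^ e,
    C (g.2.1 : k) * X ⟨Sum.inl (), 1⟩ ^ e + C g.2.2.toAdd * X ⟨Sum.inl (), 2⟩ ^ e,
    X ⟨Sum.inl (), 2⟩ ^ e]

omit [IsAlgClosed k] in
lemma lef2F_D (g : G3 k) (e : ℕ) [IsQ k e] (v w : (Vars fun _ : Unit ⊕ Unit => 2) → k)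
    (s : Fin 3) : lef2D v w (lef2F g e s) = 0 := by
  fin_cases s <;> simp [lef2F, lef2D_add, lef2D_mul, lef2D_C, lef2D_pow]

omit [IsAlgClosed k] in
lemma lef2F_eval (g : G3 k) (e : ℕ) (v : (Vars fun _ : Unit ⊕ Unit => 2) → k)
    (hv : (fun s : Fin 3 => v ⟨Sum.inl (), s⟩) ≠ 0) :
    ∃ h, Projectivization.mk k (fun s => eval v (lef2F g e s)) h =
      lin g (frob e (Projectivization.mk k (fun s : Fin 3 => v ⟨Sum.inl (), s⟩) hv)) := by
  have e0 : ![v ⟨Sum.inl (), 0⟩, v ⟨Sum.inl (), 1⟩, v ⟨Sum.inl (), 2⟩] =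
      fun s : Fin 3 => v ⟨Sum.inl (), s⟩ := by
    funext s; fin_cases s <;> rfl
  have hv' : ![v ⟨Sum.inl (), 0⟩, v ⟨Sum.inl (), 1⟩, v ⟨Sum.inl (), 2⟩] ≠ 0 := by rwa [e0]
  have e' : (fun s => eval v (lef2F g e s)) = ![g.1 * v ⟨Sum.inl (), 0⟩ ^ e,
      g.2.1 * v ⟨Sum.inl (), 1⟩ ^ e + g.2.2.toAdd * v ⟨Sum.inl (), 2⟩ ^ e,
      v ⟨Sum.inl (), 2⟩ ^ e] := by
    funext s; fin_cases s <;> simp [lef2F]
  rw [e', mk_eq_pt3 _ hv, frob_pt3 e hv', lin_pt3 g (frob_ne_zero e hv')]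
  exact ⟨lin_ne_zero g (frob_ne_zero e hv'), (pt3_eq _).symm⟩

lemma lef2_tangent (g : G3 k) (e : ℕ) [IsQ k e] {S S' : Set (MP k fun _ : Unit ⊕ Unit => 2)}
    (hG : ∀ y ∈ S, ∀ u, IsRep u y → ∃ h h', Projectivization.mk k (fun s => eval u (lef2F g e s)) h =
      Projectivization.mk k (fun s : Fin 3 => u ⟨Sum.inr (), s⟩) h')
    (hD : ∀ y ∈ S', ∀ u, IsRep u y → ∃ h h',
      Projectivization.mk k (fun s : Fin 3 => u ⟨Sum.inl (), s⟩) h =
        Projectivization.mk k (fun s : Fin 3 => u ⟨Sum.inr (), s⟩) h')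
    {x : MP k fun _ : Unit ⊕ Unit => 2} (hx : x ∈ S) (hx' : x ∈ S')
    (v : (Vars fun _ : Unit ⊕ Unit => 2) → k) (hv : IsRep v x) :
    tangent S v ⊓ tangent S' v ≤ tangent {x} v := by
  intro w hw
  have w1 := ctan_mem.1 (Submodule.mem_inf.1 hw).1
  have w2 := ctan_mem.1 (Submodule.mem_inf.1 hw).2
  have k2 : ∀ s t : Fin 3, w ⟨Sum.inr (), s⟩ * v ⟨Sum.inr (), t⟩ =
      w ⟨Sum.inr (), t⟩ * v ⟨Sum.inr (), s⟩ := by
    intro s t
    have h1 : lef2D v w (lef2F g e s * X ⟨Sum.inr (), t⟩ - lef2F g e t * X ⟨Sum.inr (), s⟩) =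
        0 := by
      refine w1 _ ?_
      intro y hy u hu
      obtain ⟨h, h', e1⟩ := hG y hy u hu
      have := minor_of_mk_eq e1 s t
      simpa [sub_eq_zero] using this
    rw [lef2D_sub, lef2D_mul, lef2D_mul, lef2F_D, lef2F_D, lef2D_X, lef2D_X] at h1
    obtain ⟨h, h', e1⟩ := hG x hx v hv
    obtain ⟨c, hc⟩ := (Projectivization.mk_eq_mk_iff k _ _ h h').1 e1
    have hs : (c : k) * v ⟨Sum.inr (), s⟩ = eval v (lef2F g e s) := congrFun hc s
    have ht : (c : k) * v ⟨Sum.inr (), t⟩ = eval v (lef2F g e t) := congrFun hc t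
    rw [← hs, ← ht] at h1
    refine mul_left_cancel₀ c.ne_zero ?_
    linear_combination -h1
  have k1 : ∀ s t : Fin 3, w ⟨Sum.inl (), s⟩ * v ⟨Sum.inl (), t⟩ =
      w ⟨Sum.inl (), t⟩ * v ⟨Sum.inl (), s⟩ := by
    intro s t
    have h1 : lef2D v w (X ⟨Sum.inl (), s⟩ * X ⟨Sum.inr (), t⟩ -
        X ⟨Sum.inl (), t⟩ * X ⟨Sum.inr (), s⟩) = 0 := by
      refine w2 _ ?_
      intro y hy u hu
      obtain ⟨h, h', e1⟩ := hD y hy u hu
      have := minor_of_mk_eq e1 s t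
      simpa [sub_eq_zero] using this
    rw [lef2D_sub, lef2D_mul, lef2D_mul, lef2D_X, lef2D_X, lef2D_X, lef2D_X, eval_X, eval_X,
      eval_X, eval_X] at h1
    obtain ⟨h, h', e1⟩ := hD x hx' v hv
    obtain ⟨c, hc⟩ := (Projectivization.mk_eq_mk_iff k _ _ h h').1 e1
    have hs : (c : k) * v ⟨Sum.inr (), s⟩ = v ⟨Sum.inl (), s⟩ := congrFun hc s
    have ht : (c : k) * v ⟨Sum.inr (), t⟩ = v ⟨Sum.inl (), t⟩ := congrFun hc t
    rw [← hs, ← ht] at h1 ⊢
    linear_combination (c : k) * h1 + (c : k) ^ 2 * k2 s t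
  refine mem_tangent_pt hv fun i s t => ?_
  rcases i with ⟨⟨⟩⟩ | ⟨⟨⟩⟩
  · exact k1 s t
  · exact k2 s t

lemma lef2_transv (b : Bool) (e : ℕ) [IsQ k e] (g : Gp k q b)
    (x : (Yv k q (Sum.elim (fun _ : Unit => b) fun _ : Unit => b)).pts)
    (hx : x ∈ range (pair (Mor.id _) (cm _ ((cMap_Gp g.2).comp (cMap_frob q e b)))).1 ∩
      range (pair (Mor.id (Cv k q b)) (Mor.id _)).1) :
    Transv (range (pair (Mor.id _) (cm _ ((cMap_Gp g.2).comp (cMap_frob q e b)))).1)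
      (range (pair (Mor.id (Cv k q b)) (Mor.id _)).1) x := by
  intro v hv
  refine lef2_tangent g.1 e ?_ ?_ (mem_image_of_mem _ hx.1) (mem_image_of_mem _ hx.2) v hv
  · rintro _ ⟨_, ⟨y, rfl⟩, rfl⟩ u hu
    obtain ⟨h1, e1⟩ := hu (Sum.inl ())
    obtain ⟨h2, e2⟩ := hu (Sum.inr ())
    obtain ⟨h3, e3⟩ := lef2F_eval g.1 e u h1
    exact ⟨h3, h2, e3.trans ((congrArg (fun P => lin g.1 (frob e P)) e1).trans e2.symm)⟩
  · rintro _ ⟨_, ⟨y, rfl⟩, rfl⟩ u hu
    obtain ⟨h1, e1⟩ := hu (Sum.inl ())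
    obtain ⟨h2, e2⟩ := hu (Sum.inr ())
    exact ⟨h1, h2, e1.trans e2.symm⟩

variable {K : Type v} [Field K] [CharZero K]

omit [CharZero K] in
theorem Weil.tr_graph_diag (W : Weil.{u, v, w} k K) (b : Bool) (e : ℕ) [IsQ k e] (g : Gp k q b) :
    W.tr _ (W.cl _ (range (pair (Mor.id _) (cm _ ((cMap_Gp g.2).comp (cMap_frob q e b)))).1) *
      W.cl _ (range (pair (Mor.id (Cv k q b)) (Mor.id _)).1)) = (fixSet b e g).ncard := by
  have hI : (fun x => co x (Sum.inl ())) ''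
      (range (pair (Mor.id _) (cm _ ((cMap_Gp g.2).comp (cMap_frob q e b)))).1 ∩
        range (pair (Mor.id (Cv k q b)) (Mor.id _)).1) = fixSet b e g := by
    ext P
    constructor
    · rintro ⟨x, ⟨⟨y, h1⟩, ⟨z, h2⟩⟩, rfl⟩
      refine ⟨co_mem x (Sum.inl ()), ?_⟩
      have a1 : co y () = co x (Sum.inl ()) := congrArg (fun x => co x (Sum.inl ())) h1
      have a2 : lin g.1 (frob e (co y ())) = co x (Sum.inr ()) :=
        congrArg (fun x => co x (Sum.inr ())) h1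
      have a3 : co z () = co x (Sum.inl ()) := congrArg (fun x => co x (Sum.inl ())) h2
      have a4 : co z () = co x (Sum.inr ()) := congrArg (fun x => co x (Sum.inr ())) h2
      show lin g.1 (frob e (co x (Sum.inl ()))) = co x (Sum.inl ())
      rw [← a1, a2, ← a4, a3, a1]
    · rintro ⟨h1, h2⟩
      refine ⟨(pair (Mor.id (Cv k q b)) (Mor.id _)).1 (mkY (fun _ => P) fun _ => h1),
        ⟨⟨mkY (fun _ => P) fun _ => h1, ?_⟩, ⟨_, rfl⟩⟩, rfl⟩
      refine Yv_ext fun i => ?_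
      rcases i with i | i
      · rfl
      · exact h2
  have hinj : InjOn (fun x => co x (Sum.inl ()))
      (range (pair (Mor.id _) (cm _ ((cMap_Gp g.2).comp (cMap_frob q e b)))).1 ∩
        range (pair (Mor.id (Cv k q b)) (Mor.id _)).1) := by
    rintro _ ⟨-, ⟨y, rfl⟩⟩ _ ⟨-, ⟨z, rfl⟩⟩ h
    have : y = z := Yv_ext fun _ => h
    rw [this]
  have hf := Finite.of_finite_image (hI ▸ finite_fixSet b e g) hinj
  have g1 := lef2_graph (cm _ ((cMap_Gp g.2).comp (cMap_frob q e b)))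
  have g2 := lef2_graph (Mor.id (Cv k q b))
  rw [lef2_count W g1.1 g2.1 (by rw [g1.2, g2.2, W.d_Yv]; simp) hf (lef2_transv b e g), ← hI,
    hinj.ncard_image]

end Pool.Agent.MP_0c8446_ag

end

section

namespace Pool.Agent.MP_0c8446_ag

open Set

universe u v

variable {k : Type u} [Field k] {q : ℕ} [IsQ k q] {K : Type v} [Field K]

/-- The `(q-1)`-th roots of `u`. -/
noncomputable def cfR (q : ℕ) (u : k) : Finset k :=
  open Classical in (Polynomial.nthRoots (q - 1) u).toFinset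

lemma cf_mem_R {u x : k} : x ∈ cfR q u ↔ x ^ (q - 1) = u := by
  simp [cfR, Polynomial.mem_nthRoots (IsQ.pos k q)]

lemma cf_card_R [IsAlgClosed k] {u : k} (hu : u ≠ 0) : (cfR q u).card = q - 1 := by
  classical
  have hm : ((q - 1 : ℕ) : k) ≠ 0 := by rw [IsQ.cast_pred]; simp
  have hs := Polynomial.separable_X_pow_sub_C u hm hu
  have h1 := Polynomial.nodup_roots hs
  have h2 := (IsAlgClosed.splits (Polynomial.X ^ (q - 1) - Polynomial.C u)).natDegree_eq_card_roots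
  rw [Polynomial.natDegree_X_pow_sub_C] at h2
  unfold cfR Polynomial.nthRoots
  convert (Multiset.toFinset_card_of_nodup h1).trans h2.symm

/-- The roots fixed by the twisted Frobenius. -/
noncomputable def cfA (e : ℕ) (α : (Fq k q)ˣ) (u : k) : Finset k :=
  open Classical in (cfR q u).filter fun x => ((α : Fq k q) : k) * x ^ e = x

lemma cf_mem_A {e : ℕ} {α : (Fq k q)ˣ} {u x : k} :
    x ∈ cfA e α u ↔ x ^ (q - 1) = u ∧ ((α : Fq k q) : k) * x ^ e = x := by
  simp [cfA, cf_mem_R]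

variable {e N : ℕ} [IsQ k e]

/-- The norm map `u ↦ u ^ N`. -/
def cfNm (hN : e - 1 = (q - 1) * N) : (Fq k e)ˣ →* (Fq k q)ˣ where
  toFun u := toFqUnit (((u : Fq k e) : k) ^ N) (by rw [← pow_mul, mul_comm, ← hN, Fq_unit_pow])
  map_one' := by ext; simp
  map_mul' u w := by ext; simp [mul_pow]

@[simp] lemma cfNm_val (hN : e - 1 = (q - 1) * N) (u : (Fq k e)ˣ) :
    ((cfNm hN u : Fq k q) : k) = ((u : Fq k e) : k) ^ N := rfl

lemma cfNm_surj [IsAlgClosed k] (hN : e - 1 = (q - 1) * N) (a : (Fq k q)ˣ) :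
    ∃ u : (Fq k e)ˣ, cfNm hN u = a := by
  obtain ⟨x, hx⟩ := IsAlgClosed.exists_pow_nat_eq ((a : Fq k q) : k) (IsQ.pos k e)
  refine ⟨toFqUnit (x ^ (q - 1)) ?_, ?_⟩
  · rw [← pow_mul, mul_comm, pow_mul, hx, Fq_unit_pow]
  · ext
    rw [cfNm_val, toFqUnit_val, ← pow_mul, ← hN, hx]

/-- The character `u ↦ ω(u ^ N)⁻¹`. -/
noncomputable def cfL (hN : e - 1 = (q - 1) * N) (ω : MulChar (Fq k q) K) : MulChar (Fq k e) K :=
  MulChar.ofUnitHom (ω⁻¹.toUnitHom.comp (cfNm hN))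

lemma cfL_val (hN : e - 1 = (q - 1) * N) (ω : MulChar (Fq k q) K) (u : (Fq k e)ˣ) :
    cfL hN ω u = (ω (cfNm hN u))⁻¹ := by
  rw [cfL, MulChar.ofUnitHom_coe, MonoidHom.comp_apply, MulChar.coe_toUnitHom,
    MulChar.inv_apply_eq_inv']

lemma cfL_one (hN : e - 1 = (q - 1) * N) : cfL hN (1 : MulChar (Fq k q) K) = 1 :=
  MulChar.ext fun u => by simp [cfL_val]

lemma cfL_mul (hN : e - 1 = (q - 1) * N) (ω ω' : MulChar (Fq k q) K) :
    cfL hN (ω * ω') = cfL hN ω * cfL hN ω' :=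
  MulChar.ext fun u => by simp [cfL_val, mul_comm]

lemma cfL_inv (hN : e - 1 = (q - 1) * N) (ω : MulChar (Fq k q) K) :
    cfL hN ω⁻¹ = (cfL hN ω)⁻¹ :=
  MulChar.ext fun u => by simp [cfL_val, MulChar.inv_apply_eq_inv']

lemma cfL_ne_one [IsAlgClosed k] (hN : e - 1 = (q - 1) * N) {ω : MulChar (Fq k q) K} (h : ω ≠ 1) :
    cfL hN ω ≠ 1 := by
  intro h1
  refine h (MulChar.ext fun a => ?_)
  obtain ⟨u, rfl⟩ := cfNm_surj hN a
  have h2 := cfL_val hN ω u
  rw [h1, MulChar.one_apply_coe] at h2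
  rw [MulChar.one_apply_coe, ← inv_eq_one, ← h2]

lemma cfL_self (hN : q - 1 = (q - 1) * 1) (ω : MulChar (Fq k q) K) : cfL hN ω = ω⁻¹ := by
  refine MulChar.ext fun u => ?_
  have : cfNm hN u = u := by ext; simp
  rw [cfL_val, this, MulChar.inv_apply_eq_inv']

open Classical in
lemma cf_sumA [IsAlgClosed k] (hN : e - 1 = (q - 1) * N) (ω : MulChar (Fq k q) K) (u : Fq k e) :
    ∑ α : (Fq k q)ˣ, ω α * ((cfA e α (u : k)).card : K) =
      ((q - 1 : ℕ) : K) * cfL hN ω u + if u = 0 then ∑ α : (Fq k q)ˣ, ω α else 0 := by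
  by_cases hu : u = 0
  · subst hu
    have h1 : ∀ α : (Fq k q)ˣ, cfA e α ((0 : Fq k e) : k) = {0} := by
      intro α
      ext x
      have := IsQ.one_lt (k := k) (q := e)
      rw [cf_mem_A, Finset.mem_singleton]
      constructor
      · rintro ⟨h, -⟩
        exact pow_eq_zero_iff (IsQ.pos k q).ne' |>.1 h
      · rintro rfl
        simp [(IsQ.pos k q).ne', show e ≠ 0 by omega]
    simp only [h1, Finset.card_singleton, Nat.cast_one, mul_one, MulChar.map_zero, mul_zero,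
      zero_add, if_true]
  · obtain ⟨w, rfl⟩ : ∃ w : (Fq k e)ˣ, u = w := ⟨Units.mk0 u hu, rfl⟩
    have hw : ((w : Fq k e) : k) ≠ 0 := by simp
    have h1 : ∀ α : (Fq k q)ˣ, (cfA e α ((w : Fq k e) : k)).card =
        if α = (cfNm hN w)⁻¹ then q - 1 else 0 := by
      intro α
      have key : ∀ x : k, x ^ (q - 1) = ((w : Fq k e) : k) →
          (((α : Fq k q) : k) * x ^ e = x ↔ α = (cfNm hN w)⁻¹) := by
        intro x hx
        have hx0 : x ≠ 0 := by
          rintro rfl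
          rw [zero_pow (IsQ.pos k q).ne'] at hx
          exact hw hx.symm
        rw [IsQ.pow_eq e x, hN, pow_mul, hx, ← mul_assoc, mul_left_eq_self₀, or_iff_left hx0,
          eq_inv_iff_mul_eq_one]
        constructor
        · intro h; ext; simpa using h
        · intro h; simpa using congrArg (fun a : (Fq k q)ˣ => ((a : Fq k q) : k)) h
      split_ifs with h
      · rw [← cf_card_R (q := q) hw]
        congr 1
        ext x
        rw [cf_mem_A, cf_mem_R]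
        exact ⟨fun h => h.1, fun hx => ⟨hx, (key x hx).2 h⟩⟩
      · rw [Finset.card_eq_zero, Finset.eq_empty_iff_forall_notMem]
        intro x hx
        rw [cf_mem_A] at hx
        exact h ((key x hx.1).1 hx.2)
    simp only [h1, Nat.cast_ite, Nat.cast_zero, mul_ite, mul_zero, Finset.sum_ite_eq',
      Finset.mem_univ, if_true, if_neg hu, add_zero, cfL_val]
    rw [mul_comm, ← MulChar.coe_toUnitHom, map_inv, Units.val_inv_eq_inv_val, MulChar.coe_toUnitHom]

lemma cf_neg_one_mem : (-1 : k) ∈ Fq k e := neg_mem (one_mem _)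

/-- The number of fixed points. -/
lemma cf_ncard (α β : (Fq k q)ˣ) : (fixSet true e (gF α β)).ncard =
    ∑ u : Fq k e, (cfA e α (u : k)).card * (cfA e β ((1 - u : Fq k e) : k)).card +
      (cfA e (α * β⁻¹) ((-1 : Fq k e) : k)).card := by
  classical
  have he := IsQ.one_lt (k := k) (q := e)
  have hm := IsQ.pos k q
  have hβ : ((β : Fq k q) : k) ≠ 0 := by simp
  let S : Finset (Σ _ : Fq k e, k × k) :=
    Finset.univ.sigma fun u => cfA e α (u : k) ×ˢ cfA e β ((1 - u : Fq k e) : k)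
  let f : (Σ _ : Fq k e, k × k) → P2 k := fun a => pt3 a.2.1 a.2.2 1
  let T : Finset k := cfA e (α * β⁻¹) ((-1 : Fq k e) : k)
  let h : k → P2 k := fun x => pt3 x 1 0
  have hne : ∀ x : k, ![x, 1, 0] ≠ 0 := fun x => vec3_ne_zero.2 (Or.inr (Or.inl one_ne_zero))
  have haff : ∀ x y : k, pt3 x y 1 ∈ fixSet true e (gF α β) ↔ x ^ (q - 1) + y ^ (q - 1) = 1 ∧
      ((α : Fq k q) : k) * x ^ e = x ∧ ((β : Fq k q) : k) * y ^ e = y := by
    intro x y
    simp only [fixSet, mem_ofPred_eq, aff_mem_fermat]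
    rw [frob_pt3 e (aff_ne_zero x y), one_pow, lin_pt3 _ (aff_ne_zero _ _)]
    refine and_congr_right fun _ => ⟨fun h => ⟨?_, ?_⟩, fun h => ?_⟩
    · simpa using congrArg ax h
    · simpa using congrArg ay h
    · simp [h.1, h.2]
  have hinf : ∀ x : k, pt3 x 1 0 ∈ fixSet true e (gF α β) ↔ x ∈ T := by
    intro x
    simp only [fixSet, mem_ofPred_eq, T, cf_mem_A]
    rw [pt3_mem_curve (hne x), frob_pt3 e (hne x), one_pow, zero_pow (by omega),
      lin_pt3 _ (hne _), pt3_eq_iff (lin_ne_zero _ (hne _)) (hne _)]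
    refine and_congr ?_ ?_
    · simp [CEq, hm.ne', add_eq_zero_iff_eq_neg]
    · simp only [gF_val, ofFqUnit_val, toAdd_one, mul_zero, add_zero, mul_one, and_true,
        Units.val_mul, Units.val_inv_eq_inv_val, Subfield.coe_mul, Subfield.coe_inv]
      constructor
      · rintro ⟨c, -, h1, rfl⟩
        field_simp
        linear_combination h1
      · intro h1
        refine ⟨_, hβ, ?_, rfl⟩
        field_simp at h1
        linear_combination h1
  have hset : fixSet true e (gF α β) = ↑(S.image f ∪ T.image h) := by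
    ext P
    simp only [Finset.coe_union, Finset.coe_image, mem_union, mem_image, Finset.mem_coe]
    constructor
    · intro hP
      by_cases hfin : IsFin P
      · left
        rw [← hfin.eq_aff, haff] at hP
        obtain ⟨h1, h2, h3⟩ := hP
        have hu : ax P ^ (q - 1) ∈ Fq k e := by
          rw [mem_Fq, ← pow_mul, mul_comm, pow_mul]
          conv_rhs => rw [← h2, mul_pow, Fq_unit_pow, one_mul]
        refine ⟨⟨⟨_, hu⟩, ax P, ay P⟩, ?_, hfin.eq_aff⟩
        simp only [S, Finset.mem_sigma, Finset.mem_univ, Finset.mem_product, cf_mem_A, true_and]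
        refine ⟨h2, ?_, h3⟩
        simp [← h1]
      · right
        have h2 : P.rep 2 = 0 := not_not.1 hfin
        have h1 : P.rep 1 ≠ 0 := by
          intro h1
          have h3 := hP.1
          rw [mem_curve, h1, h2] at h3
          simp only [CEq, if_true, zero_pow hm.ne', add_zero, pow_eq_zero_iff hm.ne'] at h3
          have h4 := vec3_ne_zero.1 (rep_ne_zero P)
          simp [h1, h2, h3] at h4
        have e1 : pt3 (P.rep 0 / P.rep 1) 1 0 = P := by
          rw [← pt3_smul h1, mul_div_cancel₀ _ h1, mul_one, mul_zero, ← h2, pt3_rep]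
        refine ⟨P.rep 0 / P.rep 1, ?_, e1⟩
        rw [← hinf, e1]
        exact hP
    · rintro (⟨⟨u, x, y⟩, ha, rfl⟩ | ⟨x, hx, rfl⟩)
      · simp only [S, Finset.mem_sigma, Finset.mem_univ, Finset.mem_product, cf_mem_A,
          true_and] at ha
        obtain ⟨⟨h1, h2⟩, h3, h4⟩ := ha
        refine (haff x y).2 ⟨?_, h2, h4⟩
        rw [h1, h3]
        simp
      · exact (hinf x).2 hx
  rw [hset, ncard_coe_finset, Finset.card_union_of_disjoint, Finset.card_image_of_injOn,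
    Finset.card_image_of_injOn, Finset.card_sigma]
  · simp only [Finset.card_product, T]
  · intro x _ y _ hxy
    obtain ⟨c, -, h1, h2, -⟩ := (pt3_eq_iff (hne x) (hne y)).1 hxy
    rw [h1, ← mul_one c, ← h2, one_mul]
  · rintro ⟨u, x, y⟩ ha ⟨u', x', y'⟩ ha' hxy
    have h1 : x = x' := by simpa [f] using congrArg ax hxy
    have h2 : y = y' := by simpa [f] using congrArg ay hxy
    subst h1 h2
    simp only [S, Finset.mem_coe, Finset.mem_sigma, Finset.mem_univ, Finset.mem_product, cf_mem_A,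
      true_and] at ha ha'
    have h3 : u = u' := Subtype.ext (ha.1.1.symm.trans ha'.1.1)
    rw [h3]
  · rw [Finset.disjoint_left]
    intro P h1 h2
    obtain ⟨a, -, rfl⟩ := Finset.mem_image.1 h1
    obtain ⟨x, -, h3⟩ := Finset.mem_image.1 h2
    have h4 : IsFin (h x) := h3 ▸ isFin_aff _ _
    exact (isFin_pt3 (hne x)).1 h4 rfl

open Classical in
/-- The master formula. -/
lemma cf_master [IsAlgClosed k] (hN : e - 1 = (q - 1) * N) (ω₁ ω₂ : MulChar (Fq k q) K) :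
    ∑ g, (ch true ω₁ ω₂ 1 g : K) * ((fixSet true e g).ncard : K) =
      ((q - 1 : ℕ) : K) ^ 2 * jacobiSum (cfL hN ω₁) (cfL hN ω₂) +
        ((q - 1 : ℕ) : K) * (∑ α : (Fq k q)ˣ, ω₁ α + ∑ α : (Fq k q)ˣ, ω₂ α +
          cfL hN ω₁ (-1) * ∑ α : (Fq k q)ˣ, (ω₁ * ω₂) α) := by
  rw [← eqF.sum_comp, Fintype.sum_prod_type]
  have h0 : ∀ α β : (Fq k q)ˣ, eqF (α, β) = gF α β := fun _ _ => rfl
  simp only [h0, ch_gF, cf_ncard, Nat.cast_add, Nat.cast_sum, Nat.cast_mul, mul_add,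
    Finset.sum_add_distrib]
  have h1 : ∑ α : (Fq k q)ˣ, ∑ β : (Fq k q)ˣ, ω₁ α * ω₂ β * ∑ u : Fq k e,
      ((cfA e α (u : k)).card : K) * ((cfA e β ((1 - u : Fq k e) : k)).card : K) =
      ∑ u : Fq k e, (∑ α : (Fq k q)ˣ, ω₁ α * ((cfA e α (u : k)).card : K)) *
        ∑ β : (Fq k q)ˣ, ω₂ β * ((cfA e β ((1 - u : Fq k e) : k)).card : K) := by
    simp only [Finset.mul_sum, Finset.sum_mul]
    rw [Finset.sum_comm (s := (Finset.univ : Finset (Fq k e)))]
    rw [Finset.sum_comm]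
    refine Finset.sum_congr rfl fun β _ => ?_
    rw [Finset.sum_comm]
    refine Finset.sum_congr rfl fun u _ => Finset.sum_congr rfl fun α _ => by ring
  have h2 : ∑ α : (Fq k q)ˣ, ∑ β : (Fq k q)ˣ, ω₁ α * ω₂ β *
      ((cfA e (α * β⁻¹) ((-1 : Fq k e) : k)).card : K) =
      (∑ γ : (Fq k q)ˣ, ω₁ γ * ((cfA e γ ((-1 : Fq k e) : k)).card : K)) *
        ∑ β : (Fq k q)ˣ, (ω₁ * ω₂) β := by
    rw [Finset.sum_comm, Finset.mul_sum]
    refine Finset.sum_congr rfl fun β _ => ?_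
    rw [← Equiv.sum_comp (Equiv.mulRight β), Finset.sum_mul]
    refine Finset.sum_congr rfl fun γ _ => ?_
    simp only [Equiv.coe_mulRight, mul_inv_cancel_right, Units.val_mul, map_mul,
      MulChar.mul_apply]
    ring
  rw [h1, h2]
  simp only [cf_sumA hN]
  rw [if_neg (by simp), add_zero]
  generalize ∑ α : (Fq k q)ˣ, ω₁ α = s₁
  generalize ∑ α : (Fq k q)ˣ, ω₂ α = s₂
  generalize ∑ α : (Fq k q)ˣ, (ω₁ * ω₂) α = s₃
  simp only [add_mul, mul_add, Finset.sum_add_distrib, ite_mul, mul_ite, zero_mul, mul_zero,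
    sub_eq_zero, eq_comm (a := (1 : Fq k e)), Finset.sum_ite_eq', Finset.mem_univ, if_true,
    sub_zero, map_one, jacobiSum, Finset.mul_sum, zero_ne_one, if_false]
  have h3 : ∑ x : Fq k e, ((q - 1 : ℕ) : K) * cfL hN ω₁ x * (((q - 1 : ℕ) : K) * cfL hN ω₂ (1 - x)) =
      ∑ x : Fq k e, ((q - 1 : ℕ) : K) ^ 2 * (cfL hN ω₁ x * cfL hN ω₂ (1 - x)) :=
    Finset.sum_congr rfl fun x _ => by ring
  rw [h3]
  ring

end Pool.Agent.MP_0c8446_ag

end

section

namespace Pool.Agent.MP_0c8446_ag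

open Set

universe u v

variable {k : Type u} [Field k] [IsAlgClosed k] {q : ℕ} [IsQ k q] {K : Type v} [Field K] [CharZero K]

lemma cf_exists_N (q r : ℕ) : ∃ N, q ^ r - 1 = (q - 1) * N := by
  have h := Nat.sub_dvd_pow_sub_pow q 1 r
  rwa [one_pow] at h

omit [CharZero K] in
lemma cf_card_G : (Fintype.card (Gp k q true) : K) = ((q - 1 : ℕ) : K) ^ 2 := by
  classical
  rw [← Fintype.card_congr eqF, Fintype.card_prod, Fintype.card_units, card_Fq, Nat.cast_mul, sq]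

omit [CharZero K] in
open Classical in
lemma cf_sum_one : ∑ α : (Fq k q)ˣ, (1 : MulChar (Fq k q) K) α = ((q - 1 : ℕ) : K) := by
  simp only [MulChar.one_apply_coe, Finset.sum_const, Finset.card_univ, Fintype.card_units, card_Fq,
    nsmul_eq_mul, mul_one]

omit [IsAlgClosed k] [CharZero K] in
open Classical in
lemma cf_sum_ne {ω : MulChar (Fq k q) K} (h : ω ≠ 1) : ∑ α : (Fq k q)ˣ, ω α = 0 := by
  have h1 : (Units.coeHom K).comp ω.toUnitHom ≠ 1 := by
    intro h1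
    refine h (MulChar.ext fun a => ?_)
    simpa using DFunLike.congr_fun h1 a
  simpa using sum_hom_units_eq_zero _ h1

omit [IsAlgClosed k] [CharZero K] in
lemma cf_ch_one : ch true (1 : MulChar (Fq k q) K) 1 1 = 1 := chF_ext fun α β => by simp

omit [CharZero K] in
lemma cf_adm {e N : ℕ} [IsQ k e] (hN : e - 1 = (q - 1) * N) {ω₁ ω₂ : MulChar (Fq k q) K}
    (h₁ : ω₁ ≠ 1) (h₂ : ω₂ ≠ 1) (h : ω₁ * ω₂ ≠ 1) :
    ∑ g, (ch true ω₁ ω₂ 1 g : K) * ((fixSet true e g).ncard : K) =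
      Fintype.card (Gp k q true) * jacobiSum (cfL hN ω₁) (cfL hN ω₂) := by
  rw [cf_master hN, cf_sum_ne h₁, cf_sum_ne h₂, cf_sum_ne h, cf_card_G]
  ring

theorem fixSumF_one {r : ℕ} (hr : 0 < r) : fixSum true r (1 : Gp k q true →* Kˣ) =
    Fintype.card (Gp k q true) * ((q : K) ^ r + 1) := by
  classical
  have := isQ_pow k q hr
  obtain ⟨N, hN⟩ := cf_exists_N q r
  rw [← cf_ch_one, fixSum, cf_master hN, mul_one, cf_sum_one, cfL_one, jacobiSum_one_one, card_Fq,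
    cf_card_G, MulChar.one_apply (by simp)]
  push_cast
  ring

theorem fixSumF_not_adm {r : ℕ} (hr : 0 < r) {χ : Gp k q true →* Kˣ} (h1 : χ ≠ 1)
    (h : ¬ Adm true χ) : fixSum true r χ = 0 := by
  have := isQ_pow k q hr
  obtain ⟨N, hN⟩ := cf_exists_N q r
  obtain ⟨ω₁, ω₂, rfl⟩ := exists_chF χ
  rw [adm_true] at h
  rw [fixSum, cf_master hN]
  by_cases h₁ : ω₁ = 1
  · subst h₁
    have h₂ : ω₂ ≠ 1 := by
      rintro rfl
      exact h1 cf_ch_one
    rw [one_mul, cf_sum_ne h₂, cf_sum_one, cfL_one, jacobiSum_one_nontrivial (cfL_ne_one hN h₂)]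
    ring
  by_cases h₂ : ω₂ = 1
  · subst h₂
    rw [mul_one, cf_sum_ne h₁, cf_sum_one, cfL_one, jacobiSum_comm,
      jacobiSum_one_nontrivial (cfL_ne_one hN h₁)]
    ring
  have h₃ : ω₁ * ω₂ = 1 := by
    by_contra h₃
    exact h ⟨h₁, h₂, h₃⟩
  rw [h₃, cf_sum_ne h₁, cf_sum_ne h₂, cf_sum_one, eq_inv_of_mul_eq_one_right h₃, cfL_inv,
    jacobiSum_nontrivial_inv (cfL_ne_one hN h₁)]
  ring

theorem fixSumF_adm {r : ℕ} (hr : 0 < r) {χ : Gp k q true →* Kˣ} (h : Adm true χ) :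
    fixSum true r χ⁻¹ * fixSum true r χ =
      (Fintype.card (Gp k q true) : K) ^ 2 * (q : K) ^ r := by
  have := isQ_pow k q hr
  obtain ⟨N, hN⟩ := cf_exists_N q r
  obtain ⟨ω₁, ω₂, h₁, h₂, h₃, rfl⟩ := h
  have hc : ringChar K ≠ ringChar (Fq k (q ^ r)) := by
    rw [ringChar.eq_zero]
    exact (CharP.ringChar_ne_zero_of_finite _).symm
  have hJ := jacobiSum_mul_jacobiSum_inv hc (cfL_ne_one hN h₁) (cfL_ne_one hN h₂)
    (by rw [← cfL_mul]; exact cfL_ne_one hN h₃)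
  rw [ch_inv, inv_one, fixSum, fixSum, cf_adm hN h₁ h₂ h₃, cf_adm hN (inv_ne_one.2 h₁)
    (inv_ne_one.2 h₂) (by rwa [← mul_inv, inv_ne_one]), cfL_inv, cfL_inv]
  rw [card_Fq] at hJ
  push_cast at hJ
  linear_combination (Fintype.card (Gp k q true) : K) ^ 2 * hJ

theorem fixSum_jacobi {ω₁ ω₂ : MulChar (Fq k q) K} (h₁ : ω₁ ≠ 1) (h₂ : ω₂ ≠ 1) (h : ω₁ * ω₂ ≠ 1) :
    fixSum true 1 (ch true ω₁ ω₂ 1)⁻¹ = Fintype.card (Gp k q true) * jacobiSum ω₁ ω₂ := by
  rw [ch_inv, inv_one, fixSum, pow_one, cf_adm (mul_one (q - 1)).symm (inv_ne_one.2 h₁)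
    (inv_ne_one.2 h₂) (by rwa [← mul_inv, inv_ne_one]), cfL_self, cfL_self, inv_inv, inv_inv]

end Pool.Agent.MP_0c8446_ag

end

section

namespace Pool.Agent.MP_0c8446_ag

open Set

universe u v w

variable {k : Type u} [Field k] [IsAlgClosed k] {q : ℕ} [IsQ k q] {K : Type v} [Field K]
  [CharZero K] {ι : Type} [Fintype ι] {τ : ι → Bool}

lemma cd_exists (q : ℕ) [IsQ k q] (u : k) : ∃ y : k, y ^ q - y = u := by
  have hq := IsQ.one_lt (k := k) (q := q)
  have hd : (Polynomial.X ^ q - Polynomial.X - Polynomial.C u : Polynomial k).degree ≠ 0 := by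
    intro h
    have h1 := Polynomial.coeff_eq_zero_of_degree_lt (n := q)
      (p := (Polynomial.X ^ q - Polynomial.X - Polynomial.C u : Polynomial k))
      (by rw [h]; exact_mod_cast (by omega : 0 < q))
    simp only [Polynomial.coeff_sub, Polynomial.coeff_X_pow, if_true, Polynomial.coeff_X,
      Polynomial.coeff_C] at h1
    rw [if_neg (by omega), if_neg (by omega)] at h1
    simp at h1
  obtain ⟨y, hy⟩ := IsAlgClosed.exists_root _ hd
  refine ⟨y, ?_⟩
  simp only [Polynomial.IsRoot.def, Polynomial.eval_sub, Polynomial.eval_pow, Polynomial.eval_X,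
    Polynomial.eval_C] at hy
  linear_combination hy

/-- A solution of `y ^ q - y = u`. -/
noncomputable def cdY (q : ℕ) [IsQ k q] (u : k) : k := (cd_exists q u).choose

lemma cdY_spec (u : k) : cdY q u ^ q - cdY q u = u := (cd_exists q u).choose_spec

/-- The solutions of `y ^ q - y = u`. -/
noncomputable def cdR (q : ℕ) [IsQ k q] (u : k) : Finset k :=
  open Classical in Finset.univ.image fun a : Fq k q => cdY q u + a

lemma cd_mem_R {u y : k} : y ∈ cdR q u ↔ y ^ q - y = u := by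
  classical
  simp only [cdR, Finset.mem_image, Finset.mem_univ, true_and]
  constructor
  · rintro ⟨a, rfl⟩
    rw [IsQ.add_pow, Fq_pow]
    linear_combination cdY_spec (q := q) u
  · intro h
    refine ⟨⟨y - cdY q u, ?_⟩, by simp⟩
    rw [mem_Fq, IsQ.sub_pow]
    linear_combination h - cdY_spec (q := q) u

lemma cd_card_R (u : k) : (cdR q u).card = q := by
  classical
  unfold cdR
  rw [Finset.card_image_of_injective _ fun a b h => Subtype.ext (add_left_cancel h),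
    Finset.card_univ, card_Fq]

variable {e N : ℕ} [IsQ k e]

omit [IsAlgClosed k] in
lemma cd_sub (hN : e - 1 = (q - 1) * N) {a : k} (ha : a ^ q = a) : a ^ e = a := by
  by_cases h : a = 0
  · have := IsQ.one_lt (k := k) (q := e)
    rw [h, zero_pow (by omega)]
  · rw [IsQ.pow_eq q] at ha
    have h1 : a ^ (q - 1) = 1 := mul_right_cancel₀ h (ha.trans (one_mul _).symm)
    rw [IsQ.pow_eq e, hN, pow_mul, h1, one_pow, one_mul]

lemma cd_indep (hN : e - 1 = (q - 1) * N) {u y : k} (h : y ^ q - y = u) :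
    cdY q u - cdY q u ^ e = y - y ^ e := by
  have h1 : (y - cdY q u) ^ q = y - cdY q u := by
    rw [IsQ.sub_pow]
    linear_combination h - cdY_spec (q := q) u
  have h2 := cd_sub hN h1
  rw [IsQ.sub_pow] at h2
  linear_combination h2

/-- Minus the trace map. -/
noncomputable def cdT (hN : e - 1 = (q - 1) * N) : Fq k e →+ Fq k q where
  toFun u := ⟨cdY q (u : k) - cdY q (u : k) ^ e, by
    have h1 := congrArg (· ^ e) (cdY_spec (q := q) (u : k))
    simp only [IsQ.sub_pow, Fq_pow] at h1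
    rw [mem_Fq, IsQ.sub_pow, ← pow_mul, mul_comm, pow_mul]
    linear_combination cdY_spec (q := q) (u : k) - h1⟩
  map_zero' := by
    have := IsQ.one_lt (k := k) (q := e)
    have h := IsQ.one_lt (k := k) (q := q)
    refine Subtype.ext ?_
    change cdY q ((0 : Fq k e) : k) - cdY q ((0 : Fq k e) : k) ^ e = 0
    rw [cd_indep hN (y := 0) (by simp [show q ≠ 0 by omega])]
    simp [show e ≠ 0 by omega]
  map_add' u w := by
    refine Subtype.ext ?_
    change cdY q ((u + w : Fq k e) : k) - cdY q ((u + w : Fq k e) : k) ^ e =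
      (cdY q (u : k) - cdY q (u : k) ^ e) + (cdY q (w : k) - cdY q (w : k) ^ e)
    rw [cd_indep hN (y := cdY q (u : k) + cdY q (w : k)), IsQ.add_pow]
    · ring
    · rw [IsQ.add_pow, Subfield.coe_add]
      linear_combination cdY_spec (q := q) (u : k) + cdY_spec (q := q) (w : k)

lemma cdT_val (hN : e - 1 = (q - 1) * N) (u : Fq k e) {y : k} (h : y ^ q - y = u) :
    (cdT hN u : k) = y - y ^ e := cd_indep hN h

lemma cdT_surj (hN : e - 1 = (q - 1) * N) (γ : Fq k q) : ∃ u : Fq k e, cdT hN u = γ := by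
  obtain ⟨y, hy⟩ := cd_exists e (-(γ : k))
  refine ⟨⟨y ^ q - y, ?_⟩, Subtype.ext ?_⟩
  · have h1 : y ^ e = y - γ := by linear_combination hy
    rw [mem_Fq, IsQ.sub_pow, ← pow_mul, mul_comm, pow_mul, h1, IsQ.sub_pow, Fq_pow]
    ring
  · rw [cdT_val hN _ (y := y) rfl]
    linear_combination -hy

/-- The additive character lifted to the larger field. -/
noncomputable def cdL (hN : e - 1 = (q - 1) * N) (ψ : AddChar (Fq k q) K) : AddChar (Fq k e) K :=
  ψ.compAddMonoidHom (cdT hN)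

omit [CharZero K] in
lemma cdL_val (hN : e - 1 = (q - 1) * N) (ψ : AddChar (Fq k q) K) (u : Fq k e) :
    cdL hN ψ u = ψ (cdT hN u) := rfl

omit [CharZero K] in
lemma cdL_one (hN : e - 1 = (q - 1) * N) : cdL hN (1 : AddChar (Fq k q) K) = 1 :=
  AddChar.ext _ _ fun u => by simp [cdL_val]

omit [CharZero K] in
lemma cdL_inv (hN : e - 1 = (q - 1) * N) (ψ : AddChar (Fq k q) K) :
    cdL hN ψ⁻¹ = (cdL hN ψ)⁻¹ :=
  AddChar.ext _ _ fun u => by
    rw [cdL_val, AddChar.inv_apply, AddChar.inv_apply, cdL_val, map_neg (cdT hN)]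

omit [CharZero K] in
lemma cdL_ne_one (hN : e - 1 = (q - 1) * N) {ψ : AddChar (Fq k q) K} (h : ψ ≠ 1) :
    cdL hN ψ ≠ 1 := by
  intro h1
  refine h (AddChar.ext _ _ fun γ => ?_)
  obtain ⟨u, rfl⟩ := cdT_surj hN γ
  rw [← cdL_val, h1, AddChar.one_apply, AddChar.one_apply]

omit [CharZero K] in
lemma cdL_self (hN : q - 1 = (q - 1) * 1) (ψ : AddChar (Fq k q) K) : cdL hN ψ = ψ⁻¹ := by
  refine AddChar.ext _ _ fun u => ?_
  have : cdT hN u = -u := by
    refine Subtype.ext ?_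
    rw [cdT_val hN u (cdY_spec _), Subfield.coe_neg]
    linear_combination -cdY_spec (q := q) (u : k)
  rw [cdL_val, this, AddChar.inv_apply]

/-- The solutions fixed by the twisted Frobenius. -/
noncomputable def cdB (e : ℕ) (γ : Fq k q) (u : k) : Finset k :=
  open Classical in (cdR q u).filter fun y => y ^ e + γ = y

omit [IsQ k e] in
lemma cd_mem_B {γ : Fq k q} {u y : k} : y ∈ cdB e γ u ↔ y ^ q - y = u ∧ y ^ e + γ = y := by
  simp [cdB, cd_mem_R]

omit [CharZero K] in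
lemma cd_sumB (hN : e - 1 = (q - 1) * N) (ψ : AddChar (Fq k q) K) (u : Fq k e) :
    ∑ γ : Fq k q, ψ γ * ((cdB e γ (u : k)).card : K) = (q : K) * cdL hN ψ u := by
  classical
  have h1 : ∀ γ : Fq k q, (cdB e γ (u : k)).card = if γ = cdT hN u then q else 0 := by
    intro γ
    have key : ∀ y : k, y ^ q - y = u → (y ^ e + γ = y ↔ γ = cdT hN u) := by
      intro y hy
      rw [Subtype.ext_iff, cdT_val hN u hy]
      constructor <;> intro h <;> linear_combination h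
    split_ifs with h
    · refine Eq.trans ?_ (cd_card_R (q := q) (u : k))
      congr 1
      ext y
      rw [cd_mem_B, cd_mem_R]
      exact ⟨fun h => h.1, fun hy => ⟨hy, (key y hy).2 h⟩⟩
    · rw [Finset.card_eq_zero, Finset.eq_empty_iff_forall_notMem]
      intro y hy
      rw [cd_mem_B] at hy
      exact h ((key y hy.1).1 hy.2)
  simp only [h1, Nat.cast_ite, Nat.cast_zero, mul_ite, mul_zero, Finset.sum_ite_eq',
    Finset.mem_univ, if_true, cdL_val]
  rw [mul_comm]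

/-- The number of fixed points. -/
lemma cd_ncard (α : (Fq k q)ˣ) (γ : Fq k q) : (fixSet false e (gD α γ)).ncard =
    ∑ u : Fq k e, (cfA e α (u : k)).card * (cdB e γ (u : k)).card + 1 := by
  classical
  have he := IsQ.one_lt (k := k) (q := e)
  let S : Finset (Σ _ : Fq k e, k × k) :=
    Finset.univ.sigma fun u => cfA e α (u : k) ×ˢ cdB e γ (u : k)
  let f : (Σ _ : Fq k e, k × k) → P2 k := fun a => pt3 a.2.1 a.2.2 1
  have haff : ∀ x y : k, pt3 x y 1 ∈ fixSet false e (gD α γ) ↔ y ^ q - y = x ^ (q - 1) ∧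
      ((α : Fq k q) : k) * x ^ e = x ∧ y ^ e + γ = y := by
    intro x y
    simp only [fixSet, mem_ofPred_eq, aff_mem_dh]
    rw [frob_pt3 e (aff_ne_zero x y), one_pow, lin_pt3 _ (aff_ne_zero _ _)]
    refine and_congr_right fun _ => ⟨fun h => ⟨?_, ?_⟩, fun h => ?_⟩
    · simpa using congrArg ax h
    · simpa using congrArg ay h
    · simp [h.1, h.2]
  have hinf : pt3 1 0 0 ∈ fixSet false e (gD α γ) := by
    refine ⟨inf_mem_dh, ?_⟩
    rw [frob_pt3 e (by simp), one_pow, zero_pow (by omega), lin_inf]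
  have hset : fixSet false e (gD α γ) = ↑(insert (pt3 1 0 0) (S.image f)) := by
    ext P
    simp only [Finset.coe_insert, Finset.coe_image, mem_insert_iff, mem_image, Finset.mem_coe]
    constructor
    · intro hP
      by_cases hfin : IsFin P
      · right
        rw [← hfin.eq_aff, haff] at hP
        obtain ⟨h1, h2, h3⟩ := hP
        have hu : ax P ^ (q - 1) ∈ Fq k e := by
          rw [mem_Fq, ← pow_mul, mul_comm, pow_mul]
          conv_rhs => rw [← h2, mul_pow, Fq_unit_pow, one_mul]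
        refine ⟨⟨⟨_, hu⟩, ax P, ay P⟩, ?_, hfin.eq_aff⟩
        simp only [S, Finset.mem_sigma, Finset.mem_univ, Finset.mem_product, cf_mem_A, cd_mem_B,
          true_and]
        exact ⟨h2, h1, h3⟩
      · exact Or.inl (eq_inf_of_dh hP.1 hfin)
    · rintro (rfl | ⟨⟨u, x, y⟩, ha, rfl⟩)
      · exact hinf
      · simp only [S, Finset.mem_sigma, Finset.mem_univ, Finset.mem_product, cf_mem_A, cd_mem_B,
          true_and] at ha
        obtain ⟨⟨h1, h2⟩, h3, h4⟩ := ha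
        exact (haff x y).2 ⟨h3.trans h1.symm, h2, h4⟩
  rw [hset, ncard_coe_finset, Finset.card_insert_of_notMem, Finset.card_image_of_injOn,
    Finset.card_sigma]
  · simp only [Finset.card_product]
  · rintro ⟨u, x, y⟩ ha ⟨u', x', y'⟩ ha' hxy
    have h1 : x = x' := by simpa [f] using congrArg ax hxy
    have h2 : y = y' := by simpa [f] using congrArg ay hxy
    subst h1 h2
    simp only [S, Finset.mem_coe, Finset.mem_sigma, Finset.mem_univ, Finset.mem_product, cf_mem_A,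
      true_and] at ha ha'
    have h3 : u = u' := Subtype.ext (ha.1.1.symm.trans ha'.1.1)
    rw [h3]
  · intro h1
    obtain ⟨a, -, h2⟩ := Finset.mem_image.1 h1
    have h3 : IsFin (f a) := isFin_aff _ _
    rw [h2] at h3
    exact not_isFin_inf h3

omit [CharZero K] in
lemma cd_card_G : (Fintype.card (Gp k q false) : K) = ((q - 1 : ℕ) : K) * q := by
  classical
  rw [← Fintype.card_congr eqD, Fintype.card_prod, Fintype.card_units, card_Fq, Nat.cast_mul]

omit [CharZero K] in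
open Classical in
/-- The master formula. -/
lemma cd_master (hN : e - 1 = (q - 1) * N) (ω : MulChar (Fq k q) K) (ψ : AddChar (Fq k q) K) :
    ∑ g, (ch false ω 1 ψ g : K) * ((fixSet false e g).ncard : K) =
      Fintype.card (Gp k q false) * gaussSum (cfL hN ω) (cdL hN ψ) +
        (∑ α : (Fq k q)ˣ, ω α) * (q + ∑ γ : Fq k q, ψ γ) := by
  rw [← eqD.sum_comp, Fintype.sum_prod_type]
  have h0 : ∀ (α : (Fq k q)ˣ) (γ : Fq k q), eqD (α, γ) = gD α γ := fun _ _ => rfl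
  simp only [h0, ch_gD, cd_ncard, Nat.cast_add, Nat.cast_sum, Nat.cast_mul, mul_add,
    Finset.sum_add_distrib, Nat.cast_one, mul_one]
  have h1 : ∑ α : (Fq k q)ˣ, ∑ γ : Fq k q, ω α * ψ γ * ∑ u : Fq k e,
      ((cfA e α (u : k)).card : K) * ((cdB e γ (u : k)).card : K) =
      ∑ u : Fq k e, (∑ α : (Fq k q)ˣ, ω α * ((cfA e α (u : k)).card : K)) *
        ∑ γ : Fq k q, ψ γ * ((cdB e γ (u : k)).card : K) := by
    simp only [Finset.mul_sum, Finset.sum_mul]
    rw [Finset.sum_comm (s := (Finset.univ : Finset (Fq k e)))]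
    rw [Finset.sum_comm]
    refine Finset.sum_congr rfl fun β _ => ?_
    rw [Finset.sum_comm]
    refine Finset.sum_congr rfl fun u _ => Finset.sum_congr rfl fun α _ => by ring
  rw [h1, ← Finset.sum_mul_sum, cd_card_G]
  simp only [cf_sumA hN, cd_sumB hN]
  generalize ∑ α : (Fq k q)ˣ, ω α = s₁
  generalize ∑ γ : Fq k q, ψ γ = s₂
  simp only [add_mul, Finset.sum_add_distrib, ite_mul, zero_mul, Finset.sum_ite_eq',
    Finset.mem_univ, if_true, AddChar.map_zero_eq_one, mul_one, gaussSum, Finset.mul_sum]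
  have h3 : ∑ x : Fq k e, ((q - 1 : ℕ) : K) * cfL hN ω x * ((q : K) * cdL hN ψ x) =
      ∑ x : Fq k e, ((q - 1 : ℕ) : K) * q * (cfL hN ω x * cdL hN ψ x) :=
    Finset.sum_congr rfl fun x _ => by ring
  rw [h3]
  ring

omit [IsAlgClosed k] [CharZero K] in
lemma cd_ch_one : ch false (1 : MulChar (Fq k q) K) 1 1 = 1 := chD_ext fun α β => by simp

theorem fixSumD_one {r : ℕ} (hr : 0 < r) : fixSum false r (1 : Gp k q false →* Kˣ) = Fintype.card (Gp k q false) * ((q : K) ^ r + 1) := by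
  classical
  have := isQ_pow k q hr
  have h1 := IsQ.one_lt (k := k) (q := q ^ r)
  obtain ⟨N, hN⟩ := cf_exists_N q r
  rw [← cd_ch_one, fixSum, cd_master hN, cf_sum_one, cfL_one, cdL_one, gaussSum_one_one,
    AddChar.sum_eq_card_of_eq_one rfl, Nat.card_eq_fintype_card, Fintype.card_units, card_Fq,
    card_Fq, cd_card_G, Nat.cast_sub h1.le]
  push_cast
  ring

theorem fixSumD_not_adm {r : ℕ} (hr : 0 < r) {χ : Gp k q false →* Kˣ} (h1 : χ ≠ 1) (h : ¬ Adm false χ) : fixSum false r χ = 0 := by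
  have := isQ_pow k q hr
  obtain ⟨N, hN⟩ := cf_exists_N q r
  obtain ⟨ω, ψ, rfl⟩ := exists_chD χ
  rw [adm_false] at h
  rw [fixSum, cd_master hN]
  by_cases h₁ : ω = 1
  · subst h₁
    have h₂ : ψ ≠ 1 := by
      rintro rfl
      exact h1 cd_ch_one
    rw [cf_sum_one, cfL_one, gaussSum_one_left (cdL_ne_one hN h₂),
      AddChar.sum_eq_zero_of_ne_one h₂, cd_card_G]
    ring
  · have h₂ : ψ = 1 := by
      by_contra h₂
      exact h ⟨h₁, h₂⟩
    subst h₂
    rw [cf_sum_ne h₁, cdL_one, gaussSum_one_right (cfL_ne_one hN h₁)]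
    ring

theorem fixSumD_adm {r : ℕ} (hr : 0 < r) {χ : Gp k q false →* Kˣ} (h : Adm false χ) : fixSum false r χ⁻¹ * fixSum false r χ = (Fintype.card (Gp k q false) : K) ^ 2 * (q : K) ^ r := by
  have := isQ_pow k q hr
  obtain ⟨N, hN⟩ := cf_exists_N q r
  obtain ⟨ω, ψ, h₁, h₂, rfl⟩ := h
  have hJ := gaussSum_mul_gaussSum_eq_card (cfL_ne_one hN h₁)
    (AddChar.IsPrimitive.of_ne_one (cdL_ne_one hN h₂))
  rw [ch_inv, inv_one, fixSum, fixSum, cd_master hN, cd_master hN, cf_sum_ne h₁,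
    cf_sum_ne (inv_ne_one.2 h₁), cfL_inv, cdL_inv]
  rw [card_Fq] at hJ
  push_cast at hJ
  linear_combination (Fintype.card (Gp k q false) : K) ^ 2 * hJ

theorem fixSum_gauss {ω : MulChar (Fq k q) K} {ψ : AddChar (Fq k q) K} (hω : ω ≠ 1) (hψ : ψ ≠ 1) : fixSum false 1 (ch false ω 1 ψ)⁻¹ = Fintype.card (Gp k q false) * gaussSum ω ψ := by
  rw [ch_inv, inv_one, fixSum, pow_one, cd_master (mul_one (q - 1)).symm,
    cf_sum_ne (inv_ne_one.2 hω), cfL_self, cdL_self, inv_inv, inv_inv, zero_mul, add_zero]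

end Pool.Agent.MP_0c8446_ag

end
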