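import Pool.Agent.MP_0c8446_ag.Defs
import Mathlib
import Pool.Agent.MP_346737_nt.VDefs
import Pool.Agent.MP_346737_nt.VL
import Pool.Agent.MP_346737_nt.VCot
import Pool.Agent.Mg.F0c8446.G61fd81
import Pool.Agent.Mg.F0c8446.G7fb164
import Pool.Agent.MP_0c8446_ag.NTDefs
import Pool.Agent.MP_0c8446_ag.NTBern

section

namespace Pool.Agent.MP_0c8446_ag

open scoped LinearAlgebra.Projectivization TensorProduct
open MvPolynomial Set

universe u v w

section

variable {K : Type v} [Field K] (L : Type v) [Field L] [Algebra K L]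

theorem bc_ind {A : Type w} [AddCommGroup A] [Module K A] (p : Submodule K A)
    (P : L ⊗[K] A → Prop) (h0 : P 0) (hadd : ∀ x y, P x → P y → P (x + y))
    (ht : ∀ l, ∀ a ∈ p, P (l ⊗ₜ a)) : ∀ x ∈ p.baseChange L, P x := by
  rintro _ ⟨y, rfl⟩
  induction y using TensorProduct.induction_on with
  | zero => simpa using h0
  | tmul l a => exact ht l a.1 a.2
  | add x y hx hy => rw [map_add]; exact hadd _ _ hx hy

/-- The base change of a linear form. -/
noncomputable def bcTr {A : Type w} [AddCommGroup A] [Module K A] (t : A →ₗ[K] K) :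
    L ⊗[K] A →ₗ[L] L :=
  (TensorProduct.AlgebraTensorModule.rid K L L).toLinearMap ∘ₗ t.baseChange L

theorem bcTr_tmul {A : Type w} [AddCommGroup A] [Module K A] (t : A →ₗ[K] K) (l : L) (a : A) :
    bcTr L t (l ⊗ₜ a) = t a • l := by
  simp [bcTr]

theorem bc_poincare {A : Type w} [Ring A] [Algebra K A] (t : A →ₗ[K] K)
    (h : ∀ a, (∀ b, t (a * b) = 0) → a = 0) (a : L ⊗[K] A)
    (ha : ∀ b, bcTr L t (a * b) = 0) : a = 0 := by
  classical
  let B := Module.Basis.ofVectorSpace K L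
  have key : ∀ (x : L ⊗[K] A) (b : A) i, B.repr (bcTr L t (x * (1 ⊗ₜ b))) i =
      t (TensorProduct.equivFinsuppOfBasisLeft B x i * b) := by
    intro x b i
    induction x using TensorProduct.induction_on with
    | zero => simp
    | tmul l c =>
      rw [Algebra.TensorProduct.tmul_mul_tmul, bcTr_tmul,
        TensorProduct.equivFinsuppOfBasisLeft_apply_tmul_apply, smul_mul_assoc, map_smul,
        map_smul, mul_one, Finsupp.smul_apply, smul_eq_mul, smul_eq_mul, mul_comm]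
    | add x y hx hy => simp only [add_mul, map_add, Finsupp.add_apply, hx, hy]
  apply (TensorProduct.equivFinsuppOfBasisLeft B).injective
  ext i
  rw [map_zero, Finsupp.zero_apply]
  apply h
  intro b
  rw [← key, ha, map_zero, Finsupp.zero_apply]

theorem bc_kunneth {A B C : Type w} [Ring A] [Algebra K A] [Ring B] [Algebra K B] [Ring C]
    [Algebra K C] (p : A →ₐ[K] C) (q : B →ₐ[K] C)
    (h : Function.Bijective (TensorProduct.lift
      ((LinearMap.mul K C).compl₁₂ p.toLinearMap q.toLinearMap))) :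
    Function.Bijective (TensorProduct.lift
      ((LinearMap.mul L (L ⊗[K] C)).compl₁₂
        (Algebra.TensorProduct.map (AlgHom.id L L) p).toLinearMap
        (Algebra.TensorProduct.map (AlgHom.id L L) q).toLinearMap)) := by
  let e := LinearEquiv.ofBijective _ h
  let e' := (TensorProduct.AlgebraTensorModule.distribBaseChange K L A B).symm ≪≫ₗ
    e.baseChange K L _ _
  have : (TensorProduct.lift
      ((LinearMap.mul L (L ⊗[K] C)).compl₁₂
        (Algebra.TensorProduct.map (AlgHom.id L L) p).toLinearMap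
        (Algebra.TensorProduct.map (AlgHom.id L L) q).toLinearMap)) = e'.toLinearMap := by
    apply TensorProduct.ext'
    intro x y
    induction x using TensorProduct.induction_on with
    | zero => simp
    | add x x' hx hx' => rw [TensorProduct.add_tmul, map_add, map_add, hx, hx']
    | tmul l a =>
      induction y using TensorProduct.induction_on with
      | zero => simp
      | add y y' hy hy' => rw [TensorProduct.tmul_add, map_add, map_add, hy, hy']
      | tmul l' b =>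
        simp [e', e, Algebra.TensorProduct.tmul_mul_tmul]
  rw [this]
  exact e'.bijective

end

variable {k : Type u} [Field k] {K : Type v} [Field K]

/-- The base change of the data of a cohomology theory. -/
noncomputable def Coh.bc (W : Coh.{u, v, w} k K) (L : Type v) [Field L] [Algebra K L] :
    Coh.{u, v, max v w} k L where
  H X := L ⊗[K] W.H X
  gr X i := (W.gr X i).baseChange L
  pull f := Algebra.TensorProduct.map (AlgHom.id L L) (W.pull f)
  tr X := bcTr L (W.tr X)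
  cl X Z := 1 ⊗ₜ W.cl X Z

theorem bc_closure (W : Coh.{u, v, w} k K) (L : Type v) [Field L] [Algebra K L] (X : Var k)
    (a : W.H X) (ha : a ∈ AddSubgroup.closure (W.cl X '' {C | IsSub C})) :
    ((1 : L) ⊗ₜ[K] a : L ⊗[K] W.H X) ∈
      AddSubgroup.closure ((fun Z => ((1 : L) ⊗ₜ[K] W.cl X Z : L ⊗[K] W.H X)) '' {C | IsSub C}) := by
  induction ha using AddSubgroup.closure_induction with
  | mem x hx =>
    obtain ⟨Z, hZ, rfl⟩ := hx
    exact AddSubgroup.subset_closure ⟨Z, hZ, rfl⟩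
  | zero => rw [TensorProduct.tmul_zero]; exact zero_mem _
  | add x y _ _ hx hy => rw [TensorProduct.tmul_add]; exact add_mem hx hy
  | neg x _ hx => rw [TensorProduct.tmul_neg]; exact neg_mem hx

/-- The base change of a Weil cohomology theory. -/
noncomputable def Weil.bc (W : Weil.{u, v, w} k K) (L : Type v) [Field L] [Algebra K L] :
    Weil.{u, v, max v w} k L where
  toCoh := W.toCoh.bc L
  finite X := by
    have := W.finite X
    exact (inferInstance : Module.Finite L (L ⊗[K] W.H X))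
  comm := by
    intro X i j a ha b hb
    revert b
    refine bc_ind L (W.gr X i) (fun a : L ⊗[K] W.H X => ∀ b ∈ (W.gr X j).baseChange L,
      a * b = (-1) ^ (i * j) * (b * a)) ?_ ?_ ?_ a ha
    · intro b _
      simp
    · intro x y hx hy b hb
      rw [add_mul, mul_add, mul_add, hx b hb, hy b hb]
    · intro l c hc
      refine bc_ind L (W.gr X j) (fun b : L ⊗[K] W.H X =>
        (l ⊗ₜ[K] c) * b = (-1) ^ (i * j) * (b * (l ⊗ₜ[K] c))) ?_ ?_ ?_
      · simp
      · intro x y hx hy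
        rw [add_mul, mul_add, mul_add, hx, hy]
      · intro l' d hd
        rw [Algebra.TensorProduct.tmul_mul_tmul, Algebra.TensorProduct.tmul_mul_tmul,
          W.comm X i j c hc d hd, mul_comm l' l]
        rcases Nat.even_or_odd (i * j) with h' | h'
        · simp [h'.neg_one_pow]
        · simp [h'.neg_one_pow, TensorProduct.tmul_neg]
  zero X := by
    change (W.gr X 0).baseChange L = Submodule.span L {(1 : L ⊗[K] W.H X)}
    rw [W.zero X, Submodule.baseChange_span, Set.image_singleton]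
    rfl
  pull_gr := by
    intro X Y f i a ha
    refine bc_ind L (W.gr Y i) (fun a : L ⊗[K] W.H Y =>
      Algebra.TensorProduct.map (AlgHom.id L L) (W.pull f) a ∈ (W.gr X i).baseChange L)
      ?_ ?_ ?_ a ha
    · simp
    · intro x y hx hy
      rw [map_add]
      exact add_mem hx hy
    · intro l c hc
      exact Submodule.tmul_mem_baseChange_of_mem l (W.pull_gr f i c hc)
  pull_id := by
    intro X f hf a
    change Algebra.TensorProduct.map (AlgHom.id L L) (W.pull f) (a : L ⊗[K] W.H X) = a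
    induction a using TensorProduct.induction_on with
    | zero => exact map_zero _
    | add x y hx hy => exact (map_add _ x y).trans (by rw [hx, hy])
    | tmul l c =>
      rw [Algebra.TensorProduct.map_tmul, W.pull_id f hf c]
      rfl
  pull_comp := by
    intro X Y Z f g h hh a
    change Algebra.TensorProduct.map (AlgHom.id L L) (W.pull h) (a : L ⊗[K] W.H Z) =
      Algebra.TensorProduct.map (AlgHom.id L L) (W.pull f)
        (Algebra.TensorProduct.map (AlgHom.id L L) (W.pull g) (a : L ⊗[K] W.H Z))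
    induction a using TensorProduct.induction_on with
    | zero => simp
    | add x y hx hy => simp only [map_add, hx, hy]
    | tmul l c =>
      simp only [Algebra.TensorProduct.map_tmul, W.pull_comp f g h hh c, AlgHom.id_apply]
  tr_gr := by
    intro X i a ha hi
    refine bc_ind L (W.gr X i) (fun a : L ⊗[K] W.H X => bcTr L (W.tr X) a = 0) ?_ ?_ ?_ a ha
    · simp
    · intro x y hx hy
      rw [map_add, hx, hy, add_zero]
    · intro l c hc
      rw [bcTr_tmul, W.tr_gr X i c hc hi, zero_smul]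
  poincare X a ha := bc_poincare L (W.tr X) (W.poincare X) a ha
  kunneth p q h := bc_kunneth L (W.pull p) (W.pull q) (W.kunneth p q h)
  cl_gr X Z hZ := Submodule.tmul_mem_baseChange_of_mem 1 (W.cl_gr X Z hZ)
  cl_univ X := by
    change ((1 : L) ⊗ₜ[K] W.cl X Set.univ : L ⊗[K] W.H X) = 1
    rw [W.cl_univ]
    rfl
  tr_pt X x := by
    change bcTr L (W.tr X) ((1 : L) ⊗ₜ[K] W.cl X {x}) = 1
    rw [bcTr_tmul, W.tr_pt, one_smul]
  cl_prod := by
    intro P X Y p q h Z Z' hZ hZ'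
    change ((1 : L) ⊗ₜ[K] W.cl P (p.1 ⁻¹' Z ∩ q.1 ⁻¹' Z') : L ⊗[K] W.H P) =
      Algebra.TensorProduct.map (AlgHom.id L L) (W.pull p) ((1 : L) ⊗ₜ[K] W.cl X Z) *
        Algebra.TensorProduct.map (AlgHom.id L L) (W.pull q) ((1 : L) ⊗ₜ[K] W.cl Y Z')
    rw [W.cl_prod p q h Z Z' hZ hZ']
    simp [Algebra.TensorProduct.tmul_mul_tmul]
  push := by
    intro X Y f Z hZ
    obtain ⟨r, hr, h⟩ := W.push f Z hZ
    refine ⟨r, hr, ?_⟩
    change ∀ b : L ⊗[K] W.H Y, bcTr L (W.tr X) (((1 : L) ⊗ₜ[K] W.cl X Z) *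
        Algebra.TensorProduct.map (AlgHom.id L L) (W.pull f) b) =
      r * bcTr L (W.tr Y) (((1 : L) ⊗ₜ[K] W.cl Y (closure (f.1 '' Z))) * b)
    intro b
    induction b using TensorProduct.induction_on with
    | zero => simp
    | add x y hx hy => simp only [map_add, mul_add, hx, hy]
    | tmul l c =>
      rw [Algebra.TensorProduct.map_tmul, Algebra.TensorProduct.tmul_mul_tmul,
        Algebra.TensorProduct.tmul_mul_tmul, bcTr_tmul, bcTr_tmul, h c, mul_smul,
        Nat.cast_smul_eq_nsmul, nsmul_eq_mul]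
      rfl
  pull_cl := by
    intro X Y f Z hZ
    exact bc_closure W.toCoh L X _ (W.pull_cl f Z hZ)
  mul_cl := by
    intro X Z Z' hZ hZ'
    have := bc_closure W.toCoh L X _ (W.mul_cl X Z Z' hZ hZ')
    change ((1 : L) ⊗ₜ[K] W.cl X Z : L ⊗[K] W.H X) * ((1 : L) ⊗ₜ[K] W.cl X Z') ∈ _
    rw [Algebra.TensorProduct.tmul_mul_tmul, mul_one]
    exact this
  proper := by
    intro X Z Z' hZ hZ' hd
    obtain ⟨s, μ, h1, h2, h3, h4⟩ := W.proper X Z Z' hZ hZ' hd
    refine ⟨s, μ, h1, h2, h3, ?_⟩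
    change ((1 : L) ⊗ₜ[K] W.cl X Z : L ⊗[K] W.H X) * ((1 : L) ⊗ₜ[K] W.cl X Z') =
      ∑ C ∈ s, μ C • ((1 : L) ⊗ₜ[K] W.cl X C : L ⊗[K] W.H X)
    rw [Algebra.TensorProduct.tmul_mul_tmul, mul_one, h4, TensorProduct.tmul_sum]
    refine Finset.sum_congr rfl fun C _ => ?_
    exact map_nsmul (TensorProduct.mk K L (W.H X) 1) (μ C) (W.cl X C)

theorem Weil.baseChange {k : Type u} [Field k] {K : Type v} [Field K] (W : Weil.{u, v, w} k K)
    (L : Type v) [Field L] [Algebra K L] :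
    ∃ (W' : Weil.{u, v, max v w} k L) (j : ∀ X, W.H X →+* W'.H X),
      (∀ X, Function.Injective (j X)) ∧ (∀ X Z, W'.cl X Z = j X (W.cl X Z)) ∧
      (∀ X a, W'.tr X (j X a) = algebraMap K L (W.tr X a)) ∧
      ∀ X (c : K) a, j X (c • a) = algebraMap K L c • j X a := by
  refine ⟨W.bc L, fun X =>
    (Algebra.TensorProduct.includeRight : W.H X →ₐ[K] L ⊗[K] W.H X).toRingHom, ?_, ?_, ?_, ?_⟩
  · intro X
    exact Algebra.TensorProduct.includeRight_injective (algebraMap K L).injective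
  · intro X Z
    rfl
  · intro X a
    change bcTr L (W.tr X) ((1 : L) ⊗ₜ[K] a) = _
    rw [bcTr_tmul, Algebra.algebraMap_eq_smul_one]
  · intro X c a
    change ((1 : L) ⊗ₜ[K] (c • a) : L ⊗[K] W.H X) = algebraMap K L c • ((1 : L) ⊗ₜ[K] a)
    rw [algebraMap_smul, TensorProduct.tmul_smul]

end Pool.Agent.MP_0c8446_ag

end

section

namespace Pool.Agent.MP_0c8446_ag

open Finset

variable {m : ℕ} [NeZero m]

/-- The d-torsion of `ZMod m`. -/
def span_T (m : ℕ) [NeZero m] (d : ℕ) : Finset (ZMod m) :=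
  univ.filter fun x => (d : ZMod m) * x = 0

/-- The distribution relation. -/
def span_Dist (ψ : ZMod m → ℂ) : Prop :=
  ∀ d : ℕ, d.Prime → d ∣ m → ∀ a : ZMod m, (d : ZMod m) * a ≠ 0 →
    ∑ x ∈ span_T m d, ψ (a + x) = ψ ((d : ZMod m) * a)

/-- The eigencomponent of a function. -/
noncomputable def span_tw (χ : DirichletCharacter ℂ m) (F : ZMod m → ℂ) (a : ZMod m) : ℂ :=
  ∑ t : (ZMod m)ˣ, χ ((t⁻¹ : (ZMod m)ˣ) : ZMod m) * F ((t : ZMod m) * a)

theorem span_range {M : Type*} [AddCommMonoid M] {d e : ℕ} (h : d * e = m) (F : ZMod m → M) :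
    ∑ i ∈ range d, F ((i : ZMod m) * e) = ∑ x ∈ span_T m d, F x := by
  have hm := NeZero.pos m
  have hd : 0 < d := Nat.pos_of_ne_zero fun h0 => by simp [h0] at h; omega
  have he : 0 < e := Nat.pos_of_ne_zero fun h0 => by simp [h0] at h; omega
  have hv : ∀ i ∈ range d, ((i : ZMod m) * e).val = i * e := fun i hi => by
    rw [← Nat.cast_mul, ZMod.val_cast_of_lt]
    rw [← h]
    exact Nat.mul_lt_mul_of_pos_right (mem_range.1 hi) he
  refine sum_bij (fun i _ => (i : ZMod m) * e) (fun i _ => ?_) (fun i hi j hj hij => ?_)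
    (fun x hx => ?_) fun _ _ => rfl
  · simp only [span_T, mem_filter, mem_univ, true_and]
    rw [mul_left_comm, ← Nat.cast_mul d e, h, ZMod.natCast_self, mul_zero]
  · have := congrArg ZMod.val hij
    rw [hv i hi, hv j hj] at this
    exact Nat.eq_of_mul_eq_mul_right he this
  · simp only [span_T, mem_filter, mem_univ, true_and] at hx
    rw [← ZMod.natCast_zmod_val x, ← Nat.cast_mul, ZMod.natCast_eq_zero_iff] at hx
    have h2 : d * e ∣ d * x.val := h ▸ hx
    obtain ⟨i, hi⟩ := Nat.dvd_of_mul_dvd_mul_left hd h2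
    have h3 : e * i < d * e := by rw [h, ← hi]; exact ZMod.val_lt x
    refine ⟨i, mem_range.2 (by nlinarith), ?_⟩
    rw [← Nat.cast_mul, mul_comm, ← hi, ZMod.natCast_zmod_val]

theorem span_perm (d : ℕ) (F : ZMod m → ℂ) (σ : ZMod m ≃ ZMod m)
    (h : ∀ x, (d : ZMod m) * x = 0 ↔ (d : ZMod m) * σ x = 0) :
    ∑ x ∈ span_T m d, F (σ x) = ∑ x ∈ span_T m d, F x :=
  sum_equiv σ (fun x => by simpa [span_T] using h x) fun _ _ => rfl

theorem span_odd (d : ℕ) {F : ZMod m → ℂ} (hF : ∀ a, F (-a) = -F a) :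
    ∑ x ∈ span_T m d, F x = 0 := by
  have := span_perm d F (Equiv.neg _) (by simp)
  simp only [Equiv.neg_apply, hF, sum_neg_distrib] at this
  linear_combination (-1 / 2 : ℂ) * this

theorem span_tw_eig (χ : DirichletCharacter ℂ m) (F : ZMod m → ℂ) (u : (ZMod m)ˣ) (a : ZMod m) :
    span_tw χ F (u * a) = χ u * span_tw χ F a := by
  unfold span_tw
  rw [mul_sum, ← Equiv.sum_comp (Equiv.mulRight u) fun t : (ZMod m)ˣ =>
    χ u * (χ ((t⁻¹ : (ZMod m)ˣ) : ZMod m) * F ((t : ZMod m) * a))]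
  refine sum_congr rfl fun t _ => ?_
  have e : (u : ZMod m) * (((t * u)⁻¹ : (ZMod m)ˣ) : ZMod m) = ((t⁻¹ : (ZMod m)ˣ) : ZMod m) := by
    rw [← Units.val_mul, mul_inv_rev, mul_inv_cancel_left]
  rw [Equiv.coe_mulRight, ← mul_assoc (χ u), ← map_mul, e, Units.val_mul t u, mul_assoc]

theorem span_tw_dist (χ : DirichletCharacter ℂ m) {F : ZMod m → ℂ} (hF : span_Dist F) :
    span_Dist (span_tw χ F) := by
  intro d hd hdm a ha
  unfold span_tw
  rw [sum_comm]
  refine sum_congr rfl fun t _ => ?_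
  rw [← mul_sum, mul_left_comm, ← hF d hd hdm ((t : ZMod m) * a)
    (by rw [mul_left_comm]; exact fun h => ha ((Units.mul_right_eq_zero t).1 h)),
    ← span_perm d (fun x => F ((t : ZMod m) * a + x)) t.mulLeft
      (fun x => by simp [mul_left_comm (d : ZMod m)])]
  simp [mul_add]

theorem span_inv (F : ZMod m → ℂ) (a : ZMod m) :
    ∑ χ : DirichletCharacter ℂ m, span_tw χ F a = m.totient * F a := by
  unfold span_tw
  rw [sum_comm]
  simp only [← sum_mul, DirichletCharacter.sum_characters_eq]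
  rw [sum_eq_single 1]
  · simp
  · intro t _ ht
    rw [if_neg (by simpa using ht), zero_mul]
  · simp

omit [NeZero m] in
theorem span_mul {n g : ℕ} (h : n * g = m) {x y : ℕ} (hxy : (x : ZMod n) = y) :
    (x : ZMod m) * g = y * g := by
  rw [← Nat.cast_mul, ← Nat.cast_mul, ZMod.natCast_eq_natCast_iff, ← h]
  exact ((ZMod.natCast_eq_natCast_iff _ _ _).1 hxy).mul_right' g

theorem span_map {n : ℕ} (h : n ∣ m) (t : (ZMod m)ˣ) :
    ((ZMod.unitsMap h t : (ZMod n)ˣ) : ZMod n) = ((t : ZMod m).val : ℕ) := by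
  rw [ZMod.unitsMap_val, ZMod.natCast_val]

theorem span_unique (χ : DirichletCharacter ℂ m) (hc : χ.conductor ≠ 1) {ψ : ZMod m → ℂ}
    (he : ∀ (u : (ZMod m)ˣ) a, ψ (u * a) = χ u * ψ a) (hD : span_Dist ψ)
    (h0 : ∀ g : ℕ, χ.conductor * g = m → ψ g = 0) (a : ZMod m) : ψ a = 0 := by
  suffices H : ∀ n g : ℕ, n * g = m → ∀ w : ℕ, ψ ((w : ZMod m) * g) = 0 by
    simpa using H m 1 (mul_one m) a.val
  intro n
  induction n using Nat.strong_induction_on with
  | _ n IH =>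
  intro g hg
  have hm := NeZero.pos m
  have hn : 0 < n := Nat.pos_of_ne_zero fun h => by simp [h] at hg; omega
  have hg0 : 0 < g := Nat.pos_of_ne_zero fun h => by simp [h] at hg; omega
  have hnm : n ∣ m := ⟨g, hg.symm⟩
  have k1 : ∀ w : ℕ, w.Coprime n → ∃ t : (ZMod m)ˣ, (w : ZMod m) * g = t * g ∧
      (((t : ZMod m).val : ℕ) : ZMod n) = w := fun w hw => by
    obtain ⟨t, ht⟩ := ZMod.unitsMap_surjective hnm (ZMod.unitOfCoprime w hw)
    have h1 : (((t : ZMod m).val : ℕ) : ZMod n) = w := by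
      rw [← span_map hnm, ht, ZMod.coe_unitOfCoprime]
    exact ⟨t, by rw [← span_mul hg h1, ZMod.natCast_zmod_val], h1⟩
  have k2 : ∀ w : ℕ, ¬ w.Coprime n → ψ ((w : ZMod m) * g) = 0 := fun w hw => by
    obtain ⟨w', hw'⟩ := Nat.gcd_dvd_left w n
    obtain ⟨n', hn'⟩ := Nat.gcd_dvd_right w n
    have hq : 0 < w.gcd n := Nat.gcd_pos_of_pos_right _ hn
    have hq1 : w.gcd n ≠ 1 := hw
    have hn0 : 0 < n' := Nat.pos_of_ne_zero fun h => by simp [h] at hn'; omega
    have := IH n' (by nlinarith [show 2 ≤ w.gcd n by omega]) (w.gcd n * g)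
      (by rw [← hg]; conv_rhs => rw [hn']
          ring) w'
    rwa [Nat.cast_mul, ← mul_assoc, ← Nat.cast_mul, mul_comm w', ← hw'] at this
  suffices hψ : ψ g = 0 by
    intro w
    by_cases hw : w.Coprime n
    · obtain ⟨t, ht, -⟩ := k1 w hw
      rw [ht, he, hψ, mul_zero]
    · exact k2 w hw
  by_cases hcn : χ.conductor ∣ n
  swap
  · have h1 : ¬ χ.FactorsThrough n := fun h => hcn (χ.conductor_dvd_of_mem_conductorSet h)
    rw [DirichletCharacter.factorsThrough_iff_ker_unitsMap hnm, SetLike.not_le_iff_exists] at h1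
    obtain ⟨t, ht, ht'⟩ := h1
    have h2 : (((t : ZMod m).val : ℕ) : ZMod n) = (1 : ℕ) := by
      rw [← span_map hnm, MonoidHom.mem_ker.1 ht]; simp
    have h3 := span_mul hg h2
    rw [ZMod.natCast_zmod_val, Nat.cast_one, one_mul] at h3
    have h4 := he t g
    rw [h3] at h4
    have h5 : χ t ≠ 1 := fun h => ht' (MonoidHom.mem_ker.2 (Units.ext (by simpa using h)))
    by_contra h6
    exact h5 (mul_right_cancel₀ h6 (h4.symm.trans (one_mul _).symm))
  obtain ⟨k, hk⟩ := hcn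
  by_cases hk1 : k = 1
  · exact h0 g (by rw [hk, hk1, mul_one] at hg; exact hg)
  obtain ⟨d, hd, k', rfl⟩ := Nat.exists_prime_and_dvd hk1
  set n' := χ.conductor * k' with hn'
  have hnn : n = d * n' := by rw [hk, hn']; ring
  have hk0 : 0 < k' := Nat.pos_of_ne_zero fun h => by simp [h] at hk; omega
  have hc2 : 2 ≤ χ.conductor := by have := χ.conductor_ne_zero; omega
  have hn2 : 2 ≤ n' := by nlinarith
  have hdm : d * (n' * g) = m := by rw [← hg, hnn]; ring
  have hn'm : n' ∣ m := ⟨d * g, by rw [← hdm]; ring⟩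
  have hdg : (d : ZMod m) * g ≠ 0 := by
    rw [← Nat.cast_mul, Ne, ZMod.natCast_eq_zero_iff]
    intro h
    have h1 := Nat.le_of_dvd (Nat.mul_pos hd.pos hg0) h
    nlinarith [Nat.mul_pos hd.pos hg0]
  have h1 := hD d hd ⟨_, hdm.symm⟩ g hdg
  have h2 : ψ ((d : ZMod m) * g) = 0 := by
    simpa using IH n' (by nlinarith [hd.two_le]) (d * g) (by rw [← hdm]; ring) 1
  rw [h2, ← span_range hdm fun x => ψ (g + x)] at h1
  have h3 : ∀ i ∈ range d, ψ (g + (i : ZMod m) * (n' * g : ℕ)) =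
      if (1 + i * n').Coprime n then ψ g else 0 := fun i _ => by
    have e : (g : ZMod m) + (i : ZMod m) * (n' * g : ℕ) = ((1 + i * n' : ℕ) : ZMod m) * g := by
      push_cast; ring
    rw [e]
    split_ifs with hw
    · obtain ⟨t, ht, ht'⟩ := k1 _ hw
      have h4 : ZMod.unitsMap hn'm t = 1 := by
        refine Units.ext ?_
        rw [span_map, Units.val_one]
        have := ((ZMod.natCast_eq_natCast_iff _ _ _).1 ht').of_dvd ⟨d, hnn.trans (mul_comm _ _)⟩
        rw [(ZMod.natCast_eq_natCast_iff _ _ _).2 this]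
        simp
      have h5 := (DirichletCharacter.factorsThrough_iff_ker_unitsMap hn'm).1
        ((χ.mem_conductorSet_iff_conductor_dvd hn'm).2 ⟨k', hn'⟩) (MonoidHom.mem_ker.2 h4)
      have h6 : χ t = 1 := by simpa using congrArg Units.val (MonoidHom.mem_ker.1 h5)
      rw [ht, he, h6, one_mul]
    · exact k2 _ hw
  rw [sum_congr rfl h3, ← sum_filter, sum_const, nsmul_eq_mul, mul_eq_zero] at h1
  refine h1.resolve_left (Nat.cast_ne_zero.2 (card_ne_zero.2 ⟨0, ?_⟩))
  simp [hd.pos]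

theorem span_saw_dist : span_Dist fun a : ZMod m => (saw a : ℂ) := by
  intro d hd hdm a ha
  obtain ⟨e, he⟩ := hdm
  have hm := NeZero.pos m
  have he0 : 0 < e := Nat.pos_of_ne_zero fun h => by simp [h] at he; omega
  have hde : (d : ZMod m) * e = 0 := by rw [← Nat.cast_mul, ← he, ZMod.natCast_self]
  set r := a.val % e with hr
  have hre : r < e := Nat.mod_lt _ he0
  have ha' : a = (r : ZMod m) + (e : ZMod m) * ((a.val / e : ℕ) : ZMod m) := by
    rw [← Nat.cast_mul, ← Nat.cast_add, hr, Nat.mod_add_div, ZMod.natCast_zmod_val]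
  have hda : (d : ZMod m) * a = (d * r : ℕ) := by
    rw [ha', mul_add, ← mul_assoc, hde]; simp
  have h1 := span_perm d (fun x => (saw ((r : ZMod m) + x) : ℂ))
    (Equiv.addLeft ((e : ZMod m) * ((a.val / e : ℕ) : ZMod m)))
    (fun x => by rw [Equiv.coe_addLeft, mul_add, ← mul_assoc, hde]; simp)
  simp only [Equiv.coe_addLeft, ← add_assoc, ← ha'] at h1
  simp only
  rw [h1, ← span_range he.symm fun x => (saw ((r : ZMod m) + x) : ℂ)]
  have h2 : ∀ i ∈ range d, (saw ((r : ZMod m) + (i : ZMod m) * (e : ZMod m)) : ℂ) =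
      (r : ℂ) / m - 1 / 2 + i * (e / m) := fun i hi => by
    have hne : (r : ZMod m) + (i : ZMod m) * e ≠ 0 := fun h => ha (by
      have := congrArg (fun x => (d : ZMod m) * x) h
      simp only [mul_add, mul_left_comm (d : ZMod m), hde, mul_zero, add_zero] at this
      rw [hda, Nat.cast_mul, this])
    rw [saw, if_neg hne, ← Nat.cast_mul, ← Nat.cast_add, ZMod.val_cast_of_lt
      (by have := mem_range.1 hi; nlinarith)]
    push_cast
    ring
  have h3 : ∑ i ∈ range d, (i : ℂ) = d * (d - 1) / 2 := by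
    clear * -
    induction d with
    | zero => simp
    | succ d ih => rw [sum_range_succ, ih]; push_cast; ring
  rw [sum_congr rfl h2, sum_add_distrib, ← sum_mul, h3, sum_const, card_range, nsmul_eq_mul, saw,
    if_neg ha, hda, ZMod.val_cast_of_lt (by nlinarith [hd.pos])]
  have hd0 : (d : ℂ) ≠ 0 := Nat.cast_ne_zero.2 hd.ne_zero
  have he1 : (e : ℂ) ≠ 0 := Nat.cast_ne_zero.2 he0.ne'
  have hm' : (m : ℂ) = d * e := by rw [he]; push_cast; rfl
  push_cast
  rw [hm']
  field_simp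
  ring

theorem span_beta {c g : ℕ} [NeZero c] (hg : c * g = m) (χ : DirichletCharacter ℂ c)
    (hχ : χ.IsPrimitive) (hodd : χ (-1) = -1) :
    span_tw (DirichletCharacter.changeLevel (Dvd.intro g hg) χ)
      (fun a : ZMod m => (saw a : ℂ)) g ≠ 0 := by
  have hcm : c ∣ m := Dvd.intro g hg
  have hm := NeZero.pos m
  have hg0 : 0 < g := Nat.pos_of_ne_zero fun h => by simp [h] at hg; omega
  have : Nontrivial (ZMod c) := by
    by_contra h
    rw [not_nontrivial_iff_subsingleton] at h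
    rw [Subsingleton.elim (-1 : ZMod c) 1, map_one] at hodd
    norm_num at hodd
  have ho : χ⁻¹ (-1) = -1 := by rw [MulChar.inv_apply_eq_inv', hodd]; norm_num
  have hp : (χ⁻¹).IsPrimitive := by
    rw [DirichletCharacter.isPrimitive_def, DirichletCharacter.conductor_inv]; exact hχ
  have hne : χ⁻¹ ≠ 1 := by
    intro h
    rw [h, MulChar.one_apply (isUnit_one.neg)] at ho
    norm_num at ho
  let G : ZMod c → ℂ := fun a => χ⁻¹ a * ((a.val : ℂ) / c - 1 / 2)
  have h1 : ∀ t : (ZMod m)ˣ, DirichletCharacter.changeLevel hcm χ ((t⁻¹ : (ZMod m)ˣ) : ZMod m) *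
      (saw ((t : ZMod m) * (g : ZMod m)) : ℂ) = G (ZMod.unitsMap hcm t) := fun t => by
    set u := ZMod.unitsMap hcm t with hu
    have h2 : (t : ZMod m) * g = (((u : ZMod c).val * g : ℕ) : ZMod m) := by
      rw [Nat.cast_mul, span_mul hg (x := (u : ZMod c).val) (y := (t : ZMod m).val)
        (by rw [ZMod.natCast_zmod_val, hu, span_map]), ZMod.natCast_zmod_val]
    have h3 : (u : ZMod c).val * g < m := by
      rw [← hg]; exact Nat.mul_lt_mul_of_pos_right (ZMod.val_lt _) hg0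
    have h4 : 0 < (u : ZMod c).val := Nat.pos_of_ne_zero ((ZMod.val_ne_zero _).2 u.ne_zero)
    have h5 : (((u : ZMod c).val * g : ℕ) : ZMod m) ≠ 0 := by
      rw [Ne, ZMod.natCast_eq_zero_iff]
      exact Nat.not_dvd_of_pos_of_lt (Nat.mul_pos h4 hg0) h3
    rw [DirichletCharacter.changeLevel_eq_cast_of_dvd, ← ZMod.unitsMap_val hcm, map_inv, ← hu, h2,
      saw, if_neg h5, ZMod.val_cast_of_lt h3]
    have hm' : (m : ℂ) = c * g := by rw [← hg]; push_cast; rfl
    have hg1 : (g : ℂ) ≠ 0 := Nat.cast_ne_zero.2 hg0.ne'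
    simp only [G]
    rw [MulChar.inv_apply χ, Ring.inverse_unit]
    push_cast
    rw [hm', mul_div_mul_right _ _ hg1]
  unfold span_tw
  rw [sum_congr rfl fun t _ => h1 t, ← sum_fiberwise univ (ZMod.unitsMap hcm)]
  have h6 : ∀ u : (ZMod c)ˣ, ∑ t ∈ univ.filter (fun t => ZMod.unitsMap hcm t = u),
      G (ZMod.unitsMap hcm t) =
        (univ.filter fun t => ZMod.unitsMap hcm t = 1).card * G u := fun u => by
    rw [sum_congr rfl fun t ht => by rw [(mem_filter.1 ht).2], sum_const, nsmul_eq_mul,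
      MonoidHom.card_fiber_eq_of_mem_range (ZMod.unitsMap hcm)
        (ZMod.unitsMap_surjective hcm u) (ZMod.unitsMap_surjective hcm 1)]
  rw [sum_congr rfl fun u _ => h6 u, ← mul_sum]
  refine mul_ne_zero (Nat.cast_ne_zero.2 (card_ne_zero.2 ⟨1, by simp⟩)) ?_
  rw [Fintype.sum_of_injective Units.val Units.val_injective _ G
    (fun a ha => by
      simp only [G]
      rw [MulChar.map_nonunit _ (by rintro ⟨u, rfl⟩; exact ha ⟨u, rfl⟩), zero_mul])
    fun _ => rfl]
  have h7 : ∑ a, G a = (∑ a : ZMod c, χ⁻¹ a * (a.val : ℂ)) / c - (∑ a : ZMod c, χ⁻¹ a) / 2 := by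
    rw [sum_div, sum_div, ← sum_sub_distrib]
    exact sum_congr rfl fun a _ => by simp only [G]; ring
  rw [h7, MulChar.sum_eq_zero_of_ne_one hne, zero_div, sub_zero]
  exact div_ne_zero (bern_ne_zero χ⁻¹ hp ho) (Nat.cast_ne_zero.2 (NeZero.ne c))

theorem span_main {p : ℕ} (hp : p.Coprime m) (f : ℕ) (hf : 0 < f) (F : ZMod m → ℂ)
    (hodd : ∀ a, F (-a) = -F a) (hfr : ∀ a, F ((p : ZMod m) * a) = F a) (hD : span_Dist F)
    (s : ZMod m → ℂ) (hs : ∀ t : (ZMod m)ˣ, ∑ a : ZMod m, s a *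
      ∑ i ∈ range f, (saw ((t : ZMod m) * (p : ZMod m) ^ i * a) : ℂ) = 0) :
    ∑ a, s a * F a = 0 := by
  suffices H : ∀ χ : DirichletCharacter ℂ m, ∑ a, s a * span_tw χ F a = 0 by
    have h1 : ∑ χ : DirichletCharacter ℂ m, ∑ a, s a * span_tw χ F a = 0 :=
      sum_eq_zero fun χ _ => H χ
    rw [sum_comm] at h1
    simp only [← mul_sum, span_inv, mul_left_comm (s _)] at h1
    exact (mul_eq_zero.1 h1).resolve_left
      (Nat.cast_ne_zero.2 (Nat.totient_pos.2 (NeZero.pos m)).ne')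
  intro χ
  have hP : ((ZMod.unitOfCoprime p hp : (ZMod m)ˣ) : ZMod m) = p := ZMod.coe_unitOfCoprime p hp
  by_cases h1 : χ (-1) = -1
  swap
  · refine sum_eq_zero fun a _ => mul_eq_zero_of_right _ ?_
    have h2 := span_tw_eig χ F (-1) a
    have h3 : span_tw χ F (-1 * a) = -span_tw χ F a := by
      simp [span_tw, hodd]
    rw [Units.val_neg, Units.val_one, h3] at h2
    by_contra h4
    exact h1 (mul_right_cancel₀ h4 (by linear_combination -h2))
  by_cases h2 : χ p = 1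
  swap
  · refine sum_eq_zero fun a _ => mul_eq_zero_of_right _ ?_
    have h3 := span_tw_eig χ F (ZMod.unitOfCoprime p hp) a
    have h4 : span_tw χ F (p * a) = span_tw χ F a := by
      simp only [span_tw, mul_left_comm _ (p : ZMod m), hfr]
    rw [hP, h4] at h3
    by_contra h5
    exact h2 (mul_right_cancel₀ h5 (by linear_combination -h3))
  set β := span_tw χ fun a : ZMod m => (saw a : ℂ) with hβ
  have : NeZero χ.conductor := ⟨χ.conductor_ne_zero⟩
  obtain ⟨g, hg⟩ := χ.conductor_dvd_level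
  have hb : β g ≠ 0 := by
    have h3 := span_beta hg.symm χ.primitiveCharacter χ.primitiveCharacter_isPrimitive
      (by
        simpa [h1] using χ.primitiveCharacter_apply_of_isCoprime (a := -1)
          (isCoprime_one_left (R := ℤ)).neg_left)
    rwa [χ.changeLevel_primitiveCharacter] at h3
  have hc : χ.conductor ≠ 1 := fun h => by
    rw [← DirichletCharacter.eq_one_iff_conductor_eq_one] at h
    rw [h, MulChar.one_apply (isUnit_one.neg)] at h1
    norm_num at h1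
  have h3 : ∀ a, span_tw χ F a = span_tw χ F g / β g * β a := fun a => by
    refine sub_eq_zero.1 (span_unique χ hc
      (ψ := fun a => span_tw χ F a - span_tw χ F g / β g * β a) (fun u a => ?_)
      (fun d hd hdm a ha => ?_) (fun g' hg' => ?_) a)
    · rw [hβ, span_tw_eig, span_tw_eig]; ring
    · simp only
      rw [sum_sub_distrib, ← mul_sum, span_tw_dist χ hD d hd hdm a ha,
        span_tw_dist χ span_saw_dist d hd hdm a ha]
    · obtain rfl : g' = g := Nat.eq_of_mul_eq_mul_left (NeZero.pos _) (hg'.trans hg)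
      rw [div_mul_cancel₀ _ hb, sub_self]
  have h4 : ∀ (i : ℕ) a, β ((p : ZMod m) ^ i * a) = β a := fun i a => by
    have := span_tw_eig χ (fun a : ZMod m => (saw a : ℂ)) (ZMod.unitOfCoprime p hp ^ i) a
    rwa [Units.val_pow_eq_pow_val, hP, map_pow, h2, one_pow, one_mul] at this
  have h5 : (f : ℂ) * ∑ a, s a * β a = 0 := by
    calc (f : ℂ) * ∑ a, s a * β a = ∑ a, s a * ∑ i ∈ range f, β ((p : ZMod m) ^ i * a) := by
          rw [mul_sum]
          refine sum_congr rfl fun a _ => ?_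
          rw [sum_congr rfl fun i _ => h4 i a, sum_const, card_range, nsmul_eq_mul, mul_left_comm]
      _ = ∑ t : (ZMod m)ˣ, χ ((t⁻¹ : (ZMod m)ˣ) : ZMod m) * ∑ a : ZMod m, s a *
          ∑ i ∈ range f, (saw ((t : ZMod m) * (p : ZMod m) ^ i * a) : ℂ) := by
          simp only [hβ, span_tw, mul_sum, mul_assoc]
          rw [sum_comm (s := univ (α := (ZMod m)ˣ))]
          refine sum_congr rfl fun a _ => ?_
          rw [sum_comm]
          exact sum_congr rfl fun t _ => sum_congr rfl fun i _ => by ring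
      _ = 0 := by simp only [hs, mul_zero, sum_const_zero]
  have h6 := (mul_eq_zero.1 h5).resolve_left (Nat.cast_ne_zero.2 hf.ne')
  rw [sum_congr rfl fun a _ => by rw [h3 a, mul_left_comm], ← mul_sum, h6, mul_zero]

theorem span_rel {m p : ℕ} [NeZero m] (hp : p.Coprime m) (f : ℕ) (hf : 0 < f) (B : AddSubgroup (ZMod m → ℤ)) (h0 : Pi.single 0 1 ∈ B) (hrefl : ∀ a : ZMod m, Pi.single a 1 + Pi.single (-a) 1 ∈ B) (hfrob : ∀ a : ZMod m, Pi.single ((p : ZMod m) * a) 1 - Pi.single a 1 ∈ B) (hdist : ∀ d e : ℕ, d.Prime → d * e = m → ∀ a : ZMod m, (d : ZMod m) * a ≠ 0 → ∑ i ∈ range d, Pi.single (a + (i : ZMod m) * e) 1 - Pi.single ((d : ZMod m) * a) 1 - ∑ j ∈ range d, Pi.single ((j : ZMod m) * e) 1 ∈ B) (s : ZMod m → ℤ) (hs : ∀ t : (ZMod m)ˣ, ∑ a : ZMod m, (s a : ℚ) * ∑ i ∈ range f, saw ((t : ZMod m) * (p : ZMod m) ^ i * a) = 0) : ∃ N : ℕ, 0 < N ∧ N • s ∈ B := by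
  let ι : (ZMod m → ℤ) →+ (ZMod m → ℚ) := (Int.castAddHom ℚ).compLeft (ZMod m)
  have hι : Function.Injective ι := fun x y h => funext fun a => by
    simpa [ι] using congrFun h a
  by_cases hmem : ι s ∈ Submodule.span ℚ (ι '' B)
  · have H : ∀ v ∈ Submodule.span ℚ (ι '' B), ∃ N : ℕ, 0 < N ∧ ∃ b ∈ B, N • v = ι b := by
      intro v hv
      induction hv using Submodule.span_induction with
      | mem x hx => obtain ⟨b, hb, rfl⟩ := hx; exact ⟨1, one_pos, b, hb, one_nsmul _⟩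
      | zero => exact ⟨1, one_pos, 0, B.zero_mem, by simp⟩
      | add x y _ _ hx hy =>
        obtain ⟨N, hN, b, hb, e⟩ := hx
        obtain ⟨N', hN', b', hb', e'⟩ := hy
        refine ⟨N * N', Nat.mul_pos hN hN', N' • b + N • b',
          B.add_mem (B.nsmul_mem hb _) (B.nsmul_mem hb' _), ?_⟩
        rw [map_add, map_nsmul, map_nsmul, ← e, ← e', smul_add, smul_smul, smul_smul, mul_comm N']
      | smul q x _ hx =>
        obtain ⟨N, hN, b, hb, e⟩ := hx
        refine ⟨q.den * N, Nat.mul_pos q.den_pos hN, q.num • b, B.zsmul_mem hb _, ?_⟩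
        rw [map_zsmul, ← e]
        funext a
        have := Rat.mul_den_eq_num q
        rw [Pi.smul_apply, Pi.smul_apply, Pi.smul_apply, Pi.smul_apply]
        simp only [smul_eq_mul, nsmul_eq_mul, zsmul_eq_mul]
        push_cast
        rw [← this]
        ring
    obtain ⟨N, hN, b, hb, e⟩ := H _ hmem
    rw [← map_nsmul] at e
    exact ⟨N, hN, hι e ▸ hb⟩
  exfalso
  obtain ⟨φ, hφ, hφ'⟩ := Submodule.exists_dual_map_eq_bot_of_notMem hmem inferInstance
  let L : (ZMod m → ℤ) →+ ℂ := (Rat.castHom ℂ).toAddMonoidHom.comp (φ.toAddMonoidHom.comp ι)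
  have hL : ∀ b ∈ B, L b = 0 := fun b hb => by
    have : φ (ι b) ∈ (Submodule.span ℚ (ι '' B)).map φ :=
      Submodule.mem_map_of_mem (Submodule.subset_span ⟨b, hb, rfl⟩)
    rw [hφ', Submodule.mem_bot] at this
    simp [L, this]
  have hodd : ∀ a : ZMod m, L (Pi.single (-a) 1) = -L (Pi.single a 1) := fun a => by
    have := hL _ (hrefl a)
    rw [map_add] at this
    linear_combination this
  have h1 := span_main hp f hf (fun a => L (Pi.single a 1)) hodd
    (fun a => by have := hL _ (hfrob a); rwa [map_sub, sub_eq_zero] at this)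
    (fun d hd ⟨e, he⟩ a ha => by
      have := hL _ (hdist d e hd he.symm a ha)
      rwa [map_sub, map_sub, map_sum, map_sum,
        span_range he.symm fun x => L (Pi.single (a + x) 1),
        span_range he.symm fun x => L (Pi.single x 1), 
        span_odd d (F := fun x => L (Pi.single x 1)) hodd, sub_zero,
        sub_eq_zero] at this)
    (fun a => (s a : ℂ)) fun t => by exact_mod_cast hs t
  have h2 : L s = 0 := by
    rw [← h1, ← univ_sum_single s, map_sum]
    refine sum_congr rfl fun a _ => ?_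
    rw [univ_sum_single, ← zsmul_eq_mul, ← map_zsmul, ← Pi.single_smul, smul_eq_mul, mul_one]
  exact hφ (by simpa [L] using h2)

end Pool.Agent.MP_0c8446_ag

end

section

/-! Absolute values of Gauss sums in an ultrametric field: the formal part. -/

namespace Pool.Agent.MP_0c8446_ag

open Finset

theorem stick_shift {F Ω : Type*} [Field F] [Fintype F] [Field Ω] {ψ : AddChar F Ω} (hψ : ψ ≠ 1)
    (ψ' : AddChar F Ω) : ∃ c : F, ψ' = ψ.mulShift c := by
  classical
  by_contra hc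
  push Not at hc
  let e : Option F → (Multiplicative F →* Ω) := fun o =>
    AddChar.toMonoidHomEquiv (o.elim ψ' ψ.mulShift)
  have he : Function.Injective e := by
    intro a b h
    have h' := AddChar.toMonoidHomEquiv.injective h
    cases a with
    | none =>
      cases b with
      | none => rfl
      | some b => exact absurd h' (hc b)
    | some a =>
      cases b with
      | none => exact absurd h'.symm (hc a)
      | some b =>
        rw [AddChar.to_mulShift_inj_of_isPrimitive (AddChar.IsPrimitive.of_ne_one hψ) h']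
  have hl := ((linearIndependent_monoidHom (Multiplicative F) Ω).comp e he).fintype_card_le_finrank
  simp at hl

theorem stick_map {F L M : Type*} [Field F] [Fintype F] [CommRing L] [CommRing M] (σ : L →+* M)
    (χ : MulChar F L) (ψ : AddChar F L) :
    σ (gaussSum χ ψ) = gaussSum (χ.ringHomComp σ) (σ.toMonoidHom.compAddChar ψ) := by
  simp [gaussSum, map_sum]

section Normed

variable {F Ω : Type*} [Field F] [Fintype F] [NormedField Ω]

theorem stick_norm_root {x : Ω} {n : ℕ} (hn : n ≠ 0) (h : x ^ n = 1) : ‖x‖ = 1 := by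
  have : ‖x‖ ^ n = 1 := by rw [← norm_pow, h, norm_one]
  exact (pow_eq_one_iff_of_nonneg (norm_nonneg x) hn).1 this

theorem stick_norm_unit (χ : MulChar F Ω) (x : Fˣ) : ‖χ x‖ = 1 := by
  classical
  apply stick_norm_root (n := Fintype.card Fˣ) Fintype.card_ne_zero
  rw [← map_pow, ← Units.val_pow_eq_pow_val, pow_card_eq_one, Units.val_one, map_one]

theorem stick_norm_mul (χ : MulChar F Ω) (x : F) : ‖χ x‖ ≤ 1 := by
  rcases eq_or_ne x 0 with rfl | hx
  · rw [MulChar.map_zero, norm_zero]; exact zero_le_one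
  · exact (stick_norm_unit χ (Units.mk0 x hx)).le

theorem stick_norm_add (ψ : AddChar F Ω) (x : F) : ‖ψ x‖ = 1 := by
  apply stick_norm_root (n := Fintype.card F) Fintype.card_ne_zero
  rw [← AddChar.map_nsmul_eq_pow, card_nsmul_eq_zero, AddChar.map_zero_eq_one]

theorem stick_norm_indep (χ : MulChar F Ω) {ψ ψ' : AddChar F Ω} (hψ : ψ ≠ 1) (hψ' : ψ' ≠ 1) :
    ‖gaussSum χ ψ'‖ = ‖gaussSum χ ψ‖ := by
  obtain ⟨c, rfl⟩ := stick_shift hψ ψ'
  have hc : c ≠ 0 := by
    rintro rfl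
    exact hψ' (AddChar.mulShift_zero ψ)
  have := gaussSum_mulShift χ ψ (Units.mk0 c hc)
  rw [← this, norm_mul, stick_norm_unit, one_mul]
  rfl

theorem stick_frob {p : ℕ} [Fact p.Prime] [CharP F p] (χ : MulChar F Ω) {ψ : AddChar F Ω}
    (hψ : ψ ≠ 1) : ‖gaussSum (χ ^ p) ψ‖ = ‖gaussSum χ ψ‖ := by
  have hp : p ≠ 0 := (Fact.out : p.Prime).ne_zero
  let e := frobeniusEquiv F p
  let ψ' : AddChar F Ω := ψ.compAddMonoidHom e.symm.toRingHom.toAddMonoidHom
  have h1 : ψ' ≠ 1 := by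
    intro h
    apply hψ
    ext x
    have := DFunLike.congr_fun h (e x)
    simpa [ψ'] using this
  rw [← stick_norm_indep χ hψ h1]
  congr 1
  unfold gaussSum
  refine Fintype.sum_equiv e.toEquiv _ _ fun x => ?_
  rw [MulChar.pow_apply' _ hp, ← map_pow]
  simp [ψ', e, frobenius_def]

variable [IsUltrametricDist Ω]

theorem stick_norm_le (χ : MulChar F Ω) (ψ : AddChar F Ω) : ‖gaussSum χ ψ‖ ≤ 1 := by
  refine IsUltrametricDist.norm_sum_le_of_forall_le_of_nonneg zero_le_one fun x _ => ?_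
  rw [norm_mul, stick_norm_add, mul_one]
  exact stick_norm_mul χ x

theorem stick_norm_jac (χ φ : MulChar F Ω) : ‖jacobiSum χ φ‖ ≤ 1 := by
  refine IsUltrametricDist.norm_sum_le_of_forall_le_of_nonneg zero_le_one fun x _ => ?_
  rw [norm_mul]
  exact mul_le_one₀ (stick_norm_mul χ x) (norm_nonneg _) (stick_norm_mul φ _)

theorem stick_submul (χ φ : MulChar F Ω) {ψ : AddChar F Ω} (hψ : ψ ≠ 1) :
    ‖gaussSum χ ψ‖ * ‖gaussSum φ ψ‖ ≤ ‖gaussSum (χ * φ) ψ‖ := by
  by_cases h : χ * φ = 1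
  · rw [h, gaussSum_one_left hψ, norm_neg, norm_one]
    exact mul_le_one₀ (stick_norm_le χ ψ) (norm_nonneg _) (stick_norm_le φ ψ)
  · rw [← norm_mul, ← jacobiSum_mul_nontrivial h, norm_mul]
    exact mul_le_of_le_one_right (norm_nonneg _) (stick_norm_jac χ φ)

theorem stick_pow_ge {χ : MulChar F Ω} {ψ : AddChar F Ω} (hψ : ψ ≠ 1) {ρ : ℝ} (h0 : 0 ≤ ρ)
    (h : ρ ≤ ‖gaussSum χ ψ‖) (d : ℕ) : ρ ^ d ≤ ‖gaussSum (χ ^ d) ψ‖ := by
  induction d with
  | zero => rw [pow_zero, pow_zero, gaussSum_one_left hψ, norm_neg, norm_one]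
  | succ d ih =>
    rw [pow_succ, pow_succ]
    exact (mul_le_mul ih h h0 (norm_nonneg _)).trans (stick_submul _ _ hψ)

theorem stick_val_step {p m : ℕ} [NeZero m] (a : ZMod m) (k : ℕ) :
    ((p : ZMod m) ^ (k + 1) * a).val = p * ((p : ZMod m) ^ k * a).val % m := by
  rw [← ZMod.val_natCast]
  push_cast
  rw [ZMod.natCast_zmod_val]
  congr 1
  ring

theorem stick_digits {p m : ℕ} [Fact p.Prime] [CharP F p] [NeZero m] {χ : MulChar F Ω}
    {ψ : AddChar F Ω} (hψ : ψ ≠ 1) {ρ : ℝ} (h0 : 0 ≤ ρ) (h : ρ ≤ ‖gaussSum χ ψ‖) (a : ZMod m)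
    (j : ℕ) : ∃ A D : ℕ, p ^ j * a.val = m * A + ((p : ZMod m) ^ j * a).val ∧
      ρ ^ D ≤ ‖gaussSum (χ ^ A) ψ‖ ∧
      p * ∑ k ∈ range j, ((p : ZMod m) ^ k * a).val + a.val =
        m * D + ∑ k ∈ range j, ((p : ZMod m) ^ k * a).val + ((p : ZMod m) ^ j * a).val := by
  induction j with
  | zero =>
    refine ⟨0, 0, by simp, ?_, by simp⟩
    rw [pow_zero, pow_zero, gaussSum_one_left hψ, norm_neg, norm_one]
  | succ j ih =>
    obtain ⟨A, D, h1, h2, h3⟩ := ih
    have h4 := Nat.div_add_mod (p * ((p : ZMod m) ^ j * a).val) m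
    rw [← stick_val_step] at h4
    generalize p * ((p : ZMod m) ^ j * a).val / m = d at h4
    refine ⟨A * p + d, D + d, ?_, ?_, ?_⟩
    · rw [pow_succ, mul_comm (p ^ j) p, mul_assoc, h1, mul_add, ← h4]
      ring
    · rw [pow_add, pow_add, pow_mul]
      refine le_trans ?_ (stick_submul _ _ hψ)
      rw [stick_frob _ hψ]
      exact mul_le_mul h2 (stick_pow_ge hψ h0 h d) (pow_nonneg h0 d) (norm_nonneg _)
    · rw [sum_range_succ, mul_add, mul_add, ← h4]
      omega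

theorem stick_lower {p f m : ℕ} [Fact p.Prime] [CharP F p] [NeZero m] (hm : m + 1 = p ^ f)
    {χ : MulChar F Ω} {ψ : AddChar F Ω} (hψ : ψ ≠ 1) {ρ : ℝ} (h0 : 0 ≤ ρ)
    (h : ρ ≤ ‖gaussSum χ ψ‖) (a : ZMod m) : ∃ D : ℕ, ρ ^ D ≤ ‖gaussSum (χ ^ a.val) ψ‖ ∧
      p * ∑ k ∈ range f, ((p : ZMod m) ^ k * a).val =
        m * D + ∑ k ∈ range f, ((p : ZMod m) ^ k * a).val := by
  obtain ⟨A, D, h1, h2, h3⟩ := stick_digits (m := m) hψ h0 h a f
  have e : (p : ZMod m) ^ f = 1 := by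
    rw [← Nat.cast_pow, ← hm]
    simp
  rw [e, one_mul] at h1 h3
  have hA : A = a.val := by
    rw [← hm, add_mul, one_mul] at h1
    exact (Nat.eq_of_mul_eq_mul_left (NeZero.pos m) (Nat.add_right_cancel h1)).symm
  exact ⟨D, hA ▸ h2, Nat.add_right_cancel h3⟩

theorem stick_unit {p f m : ℕ} [NeZero m] (hm : m + 1 = p ^ f) (k : ℕ) :
    IsUnit ((p : ZMod m) ^ k) := by
  have e : (p : ZMod m) ^ f = 1 := by
    rw [← Nat.cast_pow, ← hm]
    simp
  have hf : f ≠ 0 := by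
    rintro rfl
    have := NeZero.pos m
    rw [pow_zero] at hm
    omega
  exact (IsUnit.of_pow_eq_one e hf).pow k

theorem stick_exact {p f m : ℕ} [Fact p.Prime] [CharP F p] [NeZero m]
    (hF : Fintype.card F = p ^ f) (hm : m + 1 = p ^ f)
    {χ : MulChar F Ω} (hχ : orderOf χ = m) {ψ : AddChar F Ω} (hψ : ψ ≠ 1) {ρ : ℝ} (h0 : 0 < ρ)
    (h : ρ ≤ ‖gaussSum χ ψ‖) (hp : ‖(p : Ω)‖ = ρ ^ (p - 1)) (a : ZMod m) :
    ∃ D : ℕ, ‖gaussSum (χ ^ a.val) ψ‖ = ρ ^ D ∧
      p * ∑ k ∈ range f, ((p : ZMod m) ^ k * a).val =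
        m * D + ∑ k ∈ range f, ((p : ZMod m) ^ k * a).val := by
  rcases eq_or_ne a 0 with rfl | ha
  · refine ⟨0, ?_, by simp⟩
    rw [ZMod.val_zero, pow_zero, pow_zero, gaussSum_one_left hψ, norm_neg, norm_one]
  obtain ⟨D, h1, h2⟩ := stick_lower hm hψ h0.le h a
  obtain ⟨E, h3, h4⟩ := stick_lower hm hψ h0.le h (-a)
  refine ⟨D, ?_, h2⟩
  have hneg : ∀ b : ZMod m, b ≠ 0 → b.val + (-b).val = m := fun b hb => by
    rw [ZMod.neg_val, if_neg hb]
    have := ZMod.val_lt b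
    omega
  have hs : ∑ k ∈ range f, ((p : ZMod m) ^ k * a).val +
      ∑ k ∈ range f, ((p : ZMod m) ^ k * (-a)).val = m * f := by
    rw [← sum_add_distrib, sum_congr rfl (g := fun _ => m)]
    · simp [mul_comm]
    · intro k _
      rw [mul_neg]
      exact hneg _ fun h' => ha ((stick_unit hm k).mul_right_eq_zero.1 h')
  have hp1 : 1 ≤ p := (Fact.out : p.Prime).one_le
  have hDE : D + E = (p - 1) * f := by
    apply Nat.eq_of_mul_eq_mul_left (NeZero.pos m)
    obtain ⟨q, rfl⟩ := Nat.exists_eq_add_of_le' hp1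
    rw [Nat.add_sub_cancel]
    generalize ∑ k ∈ range f, (((q + 1 : ℕ) : ZMod m) ^ k * a).val = X at *
    generalize ∑ k ∈ range f, (((q + 1 : ℕ) : ZMod m) ^ k * (-a)).val = Y at *
    have : q * (X + Y) = m * D + m * E := by nlinarith
    rw [hs] at this
    nlinarith
  have hinv : χ ^ (-a).val = (χ ^ a.val)⁻¹ := by
    rw [eq_inv_iff_mul_eq_one, ← pow_add, add_comm, hneg a ha, ← hχ, pow_orderOf_eq_one]
  have hne : χ ^ a.val ≠ 1 := by
    intro h'
    have := orderOf_dvd_of_pow_eq_one h'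
    rw [hχ] at this
    exact ha ((ZMod.val_eq_zero a).1 (Nat.eq_zero_of_dvd_of_lt this (ZMod.val_lt a)))
  have hcard := gaussSum_mul_gaussSum_eq_card hne (AddChar.IsPrimitive.of_ne_one hψ)
  have h5 : ‖gaussSum (χ ^ a.val) ψ‖ * ‖gaussSum (χ ^ (-a).val) ψ‖ = ρ ^ D * ρ ^ E := by
    rw [hinv, ← stick_norm_indep (χ ^ a.val)⁻¹ hψ (inv_ne_one.2 hψ), ← norm_mul, hcard, hF, Nat.cast_pow,
      norm_pow, hp, ← pow_mul, ← pow_add, hDE]
  by_contra hne'
  have h6 : ρ ^ D < ‖gaussSum (χ ^ a.val) ψ‖ := lt_of_le_of_ne h1 (Ne.symm hne')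
  have := mul_lt_mul h6 h3 (pow_pos h0 E) (norm_nonneg _)
  linarith

end Normed

end Pool.Agent.MP_0c8446_ag

end

section

/-! Absolute values of Gauss sums in an ultrametric field: the Teichmueller character. -/

namespace Pool.Agent.MP_0c8446_ag

open Finset Polynomial

theorem stick_teich {F O κ : Type*} [Field F] [Fintype F] [CommRing O] [IsDomain O] [Field κ]
    {p m : ℕ} [Fact p.Prime] [CharP F p] [CharP κ p] [NeZero m] (hF : Fintype.card F = m + 1)
    (res : O →+* κ) {ξ : O} (hξ : IsPrimitiveRoot ξ m) :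
    ∃ (φ : F →+* κ) (T : MulChar F O), ∀ x, res (T x) = φ x := by
  classical
  let _ := ZMod.algebra F p
  let _ := ZMod.algebra κ p
  have hprod : (X ^ m - 1 : κ[X]) = ∏ i ∈ range m, (X - C (res (ξ ^ i))) := by
    have := congrArg (Polynomial.map res) (X_pow_sub_C_eq_prod hξ (NeZero.pos m) (one_pow m))
    simpa [Polynomial.map_prod] using this
  have hs : ((X ^ Fintype.card F - X : (ZMod p)[X]).map (algebraMap (ZMod p) κ)).Splits := by
    have : (X ^ Fintype.card F - X : (ZMod p)[X]).map (algebraMap (ZMod p) κ) =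
        X * (X ^ m - 1) := by
      rw [Polynomial.map_sub, Polynomial.map_pow, map_X, hF]
      ring
    rw [this, hprod]
    exact Splits.mul Splits.X (Splits.prod fun _ _ => Splits.X_sub_C _)
  let φ : F →ₐ[ZMod p] κ := IsSplittingField.lift F (X ^ Fintype.card F - X) hs
  obtain ⟨g, hg⟩ := IsCyclic.exists_generator (α := Fˣ)
  have hcard : Fintype.card Fˣ = m := by
    rw [Fintype.card_units, hF, Nat.add_sub_cancel]
  have hgm : (φ g) ^ m = 1 := by
    rw [← map_pow, ← Units.val_pow_eq_pow_val, ← hcard, pow_card_eq_one, Units.val_one, map_one]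
  have h0 : ∏ i ∈ range m, (φ g - res (ξ ^ i)) = 0 := by
    have := congrArg (Polynomial.eval (φ g)) hprod
    simp only [eval_sub, eval_pow, eval_X, eval_one, eval_prod, eval_C, hgm, sub_self] at this
    exact this.symm
  obtain ⟨u, -, hu⟩ := prod_eq_zero_iff.1 h0
  have hun : IsUnit (ξ ^ u) := (hξ.isUnit (NeZero.ne m)).pow u
  have hζ : hun.unit ∈ rootsOfUnity (Fintype.card Fˣ) O := by
    rw [mem_rootsOfUnity', IsUnit.unit_spec, hcard, ← pow_mul, mul_comm, pow_mul, hξ.pow_eq_one,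
      one_pow]
  refine ⟨φ.toRingHom, MulChar.ofRootOfUnity hζ hg, fun x => ?_⟩
  rcases eq_or_ne x 0 with rfl | hx
  · rw [MulChar.map_zero, map_zero, map_zero]
  · obtain ⟨k, hk⟩ := mem_powers_iff_mem_zpowers.2 (hg (Units.mk0 x hx))
    have hk' : x = (g : F) ^ k := by
      rw [← Units.val_pow_eq_pow_val]
      exact (congrArg Units.val hk).symm
    rw [hk', map_pow, map_pow, map_pow, MulChar.ofRootOfUnity_spec, IsUnit.unit_spec,
      ← sub_eq_zero.1 hu]
    rfl

theorem stick_functional {F : Type*} [Field F] [Fintype F] (p : ℕ) [Fact p.Prime] [CharP F p] :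
    ∃ t : F →+ ZMod p, ∑ x : F, x⁻¹ * ((t x).val : F) ≠ 0 := by
  classical
  let _ := ZMod.algebra F p
  let b := Module.finBasis (ZMod p) F
  by_contra hc
  push Not at hc
  have h1 : ∑ x : F, x⁻¹ * x = 0 := by
    have e : ∀ x : F, x⁻¹ * x = ∑ j, x⁻¹ * ((b.coord j x).val : F) * b j := fun x => by
      conv_lhs => rw [← b.sum_repr x]
      rw [b.sum_repr x]
      conv_lhs => rhs; rw [← b.sum_repr x]
      rw [mul_sum]
      refine sum_congr rfl fun j _ => ?_
      rw [mul_assoc, Algebra.smul_def]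
      congr 2
      rw [Module.Basis.coord_apply]
      conv_lhs => rw [← ZMod.natCast_zmod_val (b.repr x j)]
      rw [map_natCast]
    rw [sum_congr rfl fun x _ => e x, sum_comm]
    refine sum_eq_zero fun j _ => ?_
    rw [← sum_mul]
    have := hc (b.coord j).toAddMonoidHom
    simp only [LinearMap.toAddMonoidHom_coe] at this
    rw [this, zero_mul]
  have h2 : ∑ x : F, x⁻¹ * x + 1 = ∑ _x : F, (1 : F) := by
    rw [← sum_erase_add _ _ (mem_univ (0 : F)), ← sum_erase_add _ _ (mem_univ (0 : F)), mul_zero,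
      add_zero]
    congr 1
    exact sum_congr rfl fun x hx => inv_mul_cancel₀ (ne_of_mem_erase hx)
  rw [h1] at h2
  simp at h2

theorem stick_res_geom {O κ : Type*} [CommRing O] [Field κ] (res : O →+* κ) {ζ : O}
    (h : res ζ = 1) (n : ℕ) : res (∑ i ∈ range n, ζ ^ i) = n := by
  simp [map_sum, h]

theorem stick_one {F O κ : Type*} [Field F] [Fintype F] [CommRing O] [IsDomain O] [Field κ]
    {p : ℕ} [Fact p.Prime] [CharP F p] (res : O →+* κ) (φ : F →+* κ) {T : MulChar F O}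
    (hT : ∀ x, res (T x) = φ x) (hT1 : T ≠ 1) {ζ : O} (hζ : ζ ^ p = 1) (h : res ζ = 1) :
    ∃ (ψ : AddChar F O) (w : O), gaussSum T⁻¹ ψ = (ζ - 1) * w ∧ res w ≠ 0 := by
  obtain ⟨t, ht⟩ := stick_functional (F := F) p
  refine ⟨(AddChar.zmodChar p hζ).compAddMonoidHom t,
    ∑ x, T⁻¹ x * ∑ i ∈ range (t x).val, ζ ^ i, ?_, ?_⟩
  · have h0 := MulChar.sum_eq_zero_of_ne_one (inv_ne_one.2 hT1)
    rw [← sub_zero (gaussSum _ _), ← h0, gaussSum, ← sum_sub_distrib, mul_sum]
    refine sum_congr rfl fun x _ => ?_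
    rw [AddChar.compAddMonoidHom_apply, AddChar.zmodChar_apply, mul_left_comm, mul_geom_sum]
    ring
  · rw [map_sum]
    have : ∑ x, res (T⁻¹ x * ∑ i ∈ range (t x).val, ζ ^ i) =
        φ (∑ x : F, x⁻¹ * ((t x).val : F)) := by
      rw [map_sum]
      refine sum_congr rfl fun x _ => ?_
      rw [map_mul, map_mul, stick_res_geom res h, MulChar.inv_apply', hT, map_natCast]
    rw [this]
    exact (map_ne_zero φ).2 ht

theorem stick_core {F Ω : Type*} [Field F] [Fintype F] [NormedField Ω] [IsUltrametricDist Ω]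
    [IsAlgClosed Ω] [CharZero Ω] {p f m : ℕ} [Fact p.Prime] [NeZero m]
    (hF : Fintype.card F = p ^ f) (hm : m + 1 = p ^ f) (hp : ‖(p : Ω)‖ < 1) :
    ∃ (χ : MulChar F Ω) (ρ : ℝ), 0 < ρ ∧ ρ < 1 ∧ orderOf χ = m ∧ ∀ ψ : AddChar F Ω, ψ ≠ 1 →
      ∀ a : ZMod m, ∃ D : ℕ, ‖gaussSum (χ ^ a.val) ψ‖ = ρ ^ D ∧
        p * ∑ k ∈ range f, ((p : ZMod m) ^ k * a).val =
          m * D + ∑ k ∈ range f, ((p : ZMod m) ^ k * a).val := by
  classical
  have hpp : p.Prime := Fact.out
  have : CharP F p := charP_of_card_eq_prime_pow hF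
  let O := (NormedField.valuation (K := Ω)).valuationSubring
  have hO : ∀ x : Ω, x ∈ O ↔ ‖x‖ ≤ 1 := fun x => by
    rw [Valuation.mem_valuationSubring_iff, NormedField.valuation_apply]
    exact Iff.rfl
  let ι : O →+* Ω := O.subtype
  have hι : Function.Injective ι := Subtype.val_injective
  let res := IsLocalRing.residue O
  have hunit : ∀ x : O, res x ≠ 0 → ‖ι x‖ = 1 := fun x hx => by
    obtain ⟨y, hy⟩ := ((IsLocalRing.residue_ne_zero_iff_isUnit x).1 hx).exists_right_inv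
    have h1 : ‖ι x‖ * ‖ι y‖ = 1 := by rw [← norm_mul, ← map_mul, hy, map_one, norm_one]
    have h2 : ‖ι x‖ ≤ 1 := (hO _).1 x.2
    have h3 : ‖ι y‖ ≤ 1 := (hO _).1 y.2
    nlinarith [norm_nonneg (ι x), norm_nonneg (ι y)]
  have : CharP (IsLocalRing.ResidueField O) p := by
    rw [CharP.charP_iff_prime_eq_zero hpp]
    by_contra h
    have := hunit (p : O) (by rwa [map_natCast])
    rw [map_natCast] at this
    linarith
  have hroot : ∀ n : ℕ, n ≠ 0 → ∃ ξ : O, IsPrimitiveRoot ξ n := fun n hn => by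
    have : NeZero n := ⟨hn⟩
    obtain ⟨ξ, hξ⟩ := HasEnoughRootsOfUnity.exists_primitiveRoot Ω n
    exact ⟨⟨ξ, (hO ξ).2 (stick_norm_root hn hξ.pow_eq_one).le⟩,
      IsPrimitiveRoot.of_map_of_injective (f := ι) hξ hι⟩
  obtain ⟨ξ, hξ⟩ := hroot m (NeZero.ne m)
  obtain ⟨ζ, hζ⟩ := hroot p hpp.ne_zero
  obtain ⟨φ, T, hT⟩ := stick_teich (p := p) (hF.trans hm.symm) res hξ
  have hres : res ζ = 1 := by
    have : (res ζ - 1) ^ p = 0 := by
      rw [sub_pow_char, ← map_pow, hζ.pow_eq_one, map_one, one_pow, sub_self]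
    exact sub_eq_zero.1 (pow_eq_zero_iff hpp.ne_zero |>.1 this)
  have hcard : Fintype.card Fˣ = m := by
    rw [Fintype.card_units, hF, ← hm, Nat.add_sub_cancel]
  have hord : orderOf T = m := by
    apply Nat.dvd_antisymm
    · apply orderOf_dvd_of_pow_eq_one
      rw [← hcard]
      exact MulChar.pow_card_eq_one T
    · obtain ⟨g, hg⟩ := IsCyclic.exists_generator (α := Fˣ)
      rw [← hcard, ← Nat.card_eq_fintype_card, ← orderOf_eq_card_of_forall_mem_zpowers hg]
      apply orderOf_dvd_of_pow_eq_one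
      apply Units.ext
      apply φ.injective
      rw [Units.val_pow_eq_pow_val, ← hT, map_pow, ← MulChar.pow_apply_coe, pow_orderOf_eq_one,
        MulChar.one_apply_coe, Units.val_one, map_one, map_one]
  let χ : MulChar F Ω := T⁻¹.ringHomComp ι
  have hχ : orderOf χ = m := by
    rw [← hord, ← orderOf_inv T]
    exact orderOf_injective (MulChar.ringHomCompHom ι) (MulChar.injective_ringHomComp hι) _
  have hpρ : ‖(p : Ω)‖ = ‖ι (ζ - 1)‖ ^ (p - 1) := by
    obtain ⟨q, rfl⟩ := Nat.exists_eq_add_of_le' hpp.one_le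
    have h1 := congrArg ι hζ.prod_one_sub_pow_eq_order
    rw [map_add, map_natCast, map_one, map_prod] at h1
    rw [Nat.cast_add, Nat.cast_one, ← h1, norm_prod, Nat.add_sub_cancel,
      prod_congr rfl (g := fun _ => ‖ι (ζ - 1)‖), prod_const, card_range]
    intro k hk
    rw [← neg_sub, map_neg, norm_neg, ← mul_geom_sum, map_mul, norm_mul,
      hunit (∑ i ∈ range (k + 1), ζ ^ i), mul_one]
    rw [stick_res_geom res hres, Ne, CharP.cast_eq_zero_iff _ (q + 1)]
    have := mem_range.1 hk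
    exact Nat.not_dvd_of_pos_of_lt (by omega) (by omega)
  have h0 : 0 < ‖ι (ζ - 1)‖ := by
    rw [norm_pos_iff, map_ne_zero_iff ι hι, sub_ne_zero]
    exact hζ.ne_one hpp.one_lt
  have h1 : ‖ι (ζ - 1)‖ < 1 := by
    by_contra h
    have := one_le_pow₀ (n := p - 1) (not_lt.1 h)
    linarith
  refine ⟨χ, ‖ι (ζ - 1)‖, h0, h1, hχ, fun ψ hψ a => stick_exact hF hm hχ hψ h0 ?_ hpρ a⟩
  by_cases hT1 : T = 1
  · have : χ = 1 := by simp [χ, hT1]
    rw [this, gaussSum_one_left hψ, norm_neg, norm_one]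
    exact h1.le
  · obtain ⟨ψ0, w, h2, h3⟩ := stick_one res φ hT hT1 hζ.pow_eq_one hres
    have h4 : ‖gaussSum χ (ι.toMonoidHom.compAddChar ψ0)‖ = ‖ι (ζ - 1)‖ := by
      rw [← stick_map, h2, map_mul, norm_mul, hunit w h3, mul_one]
    have h5 : ι.toMonoidHom.compAddChar ψ0 ≠ 1 := by
      intro h
      have hχ1 : χ ≠ 1 := (MulChar.ringHomComp_ne_one_iff hι).2 (inv_ne_one.2 hT1)
      rw [h, gaussSum_one_right hχ1, norm_zero] at h4
      linarith
    rw [stick_norm_indep χ h5 hψ, h4]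

end Pool.Agent.MP_0c8446_ag

end

section

/-! The Stickelberger relation for products of Gauss sums with a rational power. -/

namespace Pool.Agent.MP_0c8446_ag

open Finset Polynomial

theorem stick_prim {F M : Type*} [Field F] [Field M] {m : ℕ} {g : Fˣ}
    (hg : ∀ x, x ∈ Subgroup.zpowers g) (θ : MulChar F M) (hθ : orderOf θ = m) :
    IsPrimitiveRoot (θ g) m := by
  rw [IsPrimitiveRoot.iff_def]
  constructor
  · rw [← MulChar.pow_apply_coe, ← hθ, pow_orderOf_eq_one, MulChar.one_apply_coe]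
  · intro l hl
    rw [← hθ]
    apply orderOf_dvd_of_pow_eq_one
    rw [MulChar.eq_iff hg, MulChar.pow_apply_coe, hl, MulChar.one_apply_coe]

theorem stick_transfer {F K Ω : Type*} [Field F] [Fintype F] [Field K] [CharZero K] [Field Ω]
    [CharZero Ω] [IsAlgClosed Ω] {m : ℕ} [NeZero m]
    (ω : MulChar F K) (hω : orderOf ω = m) (ψ : AddChar F K) (hψ : ψ ≠ 1)
    (χ : MulChar F Ω) (hχ : orderOf χ = m) (s : ZMod m → ℕ) (R : ℕ) (c : ℚ)
    (h : (∏ a : ZMod m, gaussSum (ω ^ a.val) ψ ^ s a) ^ R = (c : K)) :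
    ∃ ψ' : AddChar F Ω, ψ' ≠ 1 ∧ (∏ a : ZMod m, gaussSum (χ ^ a.val) ψ' ^ s a) ^ R = (c : Ω) := by
  classical
  obtain ⟨g, hg⟩ := IsCyclic.exists_generator (α := Fˣ)
  let S : Set K := Set.range ω ∪ Set.range ψ
  have hint : ∀ x ∈ S, IsIntegral ℚ x := by
    rintro x (⟨y, rfl⟩ | ⟨y, rfl⟩)
    · rcases eq_or_ne y 0 with rfl | hy
      · rw [MulChar.map_zero]; exact isIntegral_zero
      · refine IsIntegral.of_pow (NeZero.pos m) ?_
        have : ω y ^ m = 1 := by
          rw [← hω, ← Units.val_mk0 hy, ← MulChar.pow_apply_coe, pow_orderOf_eq_one,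
            MulChar.one_apply_coe]
        rw [this]; exact isIntegral_one
    · refine IsIntegral.of_pow (Fintype.card_pos (α := F)) ?_
      rw [← AddChar.map_nsmul_eq_pow, card_nsmul_eq_zero, AddChar.map_zero_eq_one]
      exact isIntegral_one
  let L := IntermediateField.adjoin ℚ S
  have hωL : ∀ x, ω x ∈ L := fun x => IntermediateField.subset_adjoin ℚ S (Or.inl ⟨x, rfl⟩)
  have hψL : ∀ x, ψ x ∈ L := fun x => IntermediateField.subset_adjoin ℚ S (Or.inr ⟨x, rfl⟩)
  have hroot : aeval (χ g) (minpoly ℚ (ω g)) = 0 := by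
    rw [← cyclotomic_eq_minpoly_rat (stick_prim hg ω hω) (NeZero.pos m), aeval_def, eval₂_eq_eval_map,
      map_cyclotomic]
    exact (stick_prim hg χ hχ).isRoot_cyclotomic (NeZero.pos m)
  obtain ⟨σ, hσ⟩ := IntermediateField.exists_algHom_adjoin_of_splits_of_aeval
    (fun x hx => ⟨hint x hx, IsAlgClosed.splits _⟩) (hωL g) hroot
  let ωL : MulChar F L :=
    { toFun := fun x => ⟨ω x, hωL x⟩
      map_one' := Subtype.ext (map_one ω)
      map_mul' := fun x y => Subtype.ext (map_mul ω x y)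
      map_nonunit' := fun x hx => Subtype.ext (ω.map_nonunit hx) }
  let ψL : AddChar F L :=
    { toFun := fun x => ⟨ψ x, hψL x⟩
      map_zero_eq_one' := Subtype.ext ψ.map_zero_eq_one
      map_add_eq_mul' := fun x y => Subtype.ext (ψ.map_add_eq_mul x y) }
  let ι : L →+* K := algebraMap L K
  have e1 : ωL.ringHomComp ι = ω := by ext x; rfl
  have e2 : ι.toMonoidHom.compAddChar ψL = ψ := by ext x; rfl
  have e3 : ωL.ringHomComp σ.toRingHom = χ := by
    rw [MulChar.eq_iff hg]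
    exact hσ
  have hL : (∏ a : ZMod m, gaussSum (ωL ^ a.val) ψL ^ s a) ^ R = (c : L) := by
    apply ι.injective
    rw [map_ratCast, ← h, map_pow, map_prod]
    congr 1
    refine prod_congr rfl fun a _ => ?_
    rw [map_pow, stick_map, ← MulChar.ringHomComp_pow, e1, e2]
  refine ⟨σ.toRingHom.toMonoidHom.compAddChar ψL, ?_, ?_⟩
  · intro h1
    apply hψ
    ext x
    have h2 : σ (ψL x) = 1 := DFunLike.congr_fun h1 x
    have h3 : ψL x = 1 := σ.toRingHom.injective (h2.trans (map_one σ).symm)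
    exact congrArg Subtype.val h3
  · rw [← map_ratCast σ.toRingHom, ← hL, map_pow, map_prod]
    congr 1
    refine prod_congr rfl fun a _ => ?_
    rw [map_pow, stick_map, ← MulChar.ringHomComp_pow, e3]

theorem stick_saw {m : ℕ} [NeZero m] (b : ZMod m) :
    (b.val : ℚ) - ((-b).val : ℚ) = 2 * m * saw b := by
  have hm : (m : ℚ) ≠ 0 := Nat.cast_ne_zero.2 (NeZero.ne m)
  unfold saw
  split_ifs with hb
  · simp [hb]
  · rw [ZMod.neg_val, if_neg hb, Nat.cast_sub (ZMod.val_lt b).le]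
    field_simp
    ring

theorem stick {F K : Type*} [Field F] [Fintype F] [Field K] [CharZero K] {p f m : ℕ} [Fact p.Prime] [NeZero m] (hF : Fintype.card F = p ^ f) (hm : m + 1 = p ^ f) (ω : MulChar F K) (hω : orderOf ω = m) (ψ : AddChar F K) (hψ : ψ ≠ 1) (s : ZMod m → ℕ) (R : ℕ) (hR : 0 < R) (c : ℚ) (h : (∏ a : ZMod m, gaussSum (ω ^ a.val) ψ ^ s a) ^ R = (c : K)) (t : (ZMod m)ˣ) : ∑ a : ZMod m, (s a : ℚ) * ∑ i ∈ range f, saw ((t : ZMod m) * (p : ZMod m) ^ i * a) = 0 := by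
  classical
  have hpp : p.Prime := Fact.out
  have hp : ‖(p : PadicAlgCl p)‖ < 1 := by
    rw [← map_natCast (algebraMap ℚ_[p] (PadicAlgCl p))]
    exact (PadicAlgCl.norm_extends p (p : ℚ_[p])).trans_lt Padic.norm_p_lt_one
  obtain ⟨χ, ρ, h0, h1, hχ, hcore⟩ := stick_core hF hm hp
  have key : ∀ u : (ZMod m)ˣ, ∃ D : ZMod m → ℕ, ρ ^ ((∑ a, D a * s a) * R) = ‖(c : PadicAlgCl p)‖ ∧
      ∀ a, p * ∑ k ∈ range f, ((p : ZMod m) ^ k * (u * a)).val =
        m * D a + ∑ k ∈ range f, ((p : ZMod m) ^ k * (u * a)).val := by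
    intro u
    have hu : orderOf (χ ^ (u : ZMod m).val) = m := by
      rw [Nat.Coprime.orderOf_pow, hχ]
      rw [hχ]
      exact (ZMod.val_coe_unit_coprime u).symm
    obtain ⟨ψ', hψ', h2⟩ := stick_transfer ω hω ψ hψ _ hu s R c h
    choose D hD1 hD2 using hcore ψ' hψ'
    refine ⟨fun a => D (u * a), ?_, fun a => hD2 _⟩
    rw [← h2, norm_pow, norm_prod, pow_mul, ← prod_pow_eq_pow_sum]
    congr 1
    refine prod_congr rfl fun a _ => ?_
    rw [norm_pow, pow_mul, ← hD1, ← pow_mul, ZMod.val_mul]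
    congr 3
    have e := pow_mod_orderOf χ ((u : ZMod m).val * a.val)
    rwa [hχ] at e
  obtain ⟨D, hD, hD'⟩ := key t
  obtain ⟨E, hE, hE'⟩ := key (-t)
  have h3 : ∑ a, D a * s a = ∑ a, E a * s a :=
    Nat.eq_of_mul_eq_mul_right hR (pow_right_injective₀ h0 h1.ne (hD.trans hE.symm))
  have h4 : ∑ a, (D a : ℚ) * s a = ∑ a, (E a : ℚ) * s a := by exact_mod_cast h3
  have hm0 : (m : ℚ) ≠ 0 := Nat.cast_ne_zero.2 (NeZero.ne m)
  have hp0 : (p : ℚ) - 1 ≠ 0 := by
    have : (1 : ℚ) < p := by exact_mod_cast hpp.one_lt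
    linarith
  have h5 : ∀ a : ZMod m, 2 * ((p : ℚ) - 1) *
      ∑ i ∈ range f, saw ((t : ZMod m) * (p : ZMod m) ^ i * a) = D a - E a := fun a => by
    apply mul_left_cancel₀ hm0
    have e1 : (p : ℚ) * ∑ k ∈ range f, (((p : ZMod m) ^ k * (t * a)).val : ℚ) =
        m * D a + ∑ k ∈ range f, (((p : ZMod m) ^ k * (t * a)).val : ℚ) := by
      exact_mod_cast hD' a
    have e2 : (p : ℚ) * ∑ k ∈ range f, (((p : ZMod m) ^ k * ((-t : (ZMod m)ˣ) * a)).val : ℚ) =
        m * E a + ∑ k ∈ range f, (((p : ZMod m) ^ k * ((-t : (ZMod m)ˣ) * a)).val : ℚ) := by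
      exact_mod_cast hE' a
    have e3 : ∑ k ∈ range f, (((p : ZMod m) ^ k * (t * a)).val : ℚ) -
        ∑ k ∈ range f, (((p : ZMod m) ^ k * ((-t : (ZMod m)ˣ) * a)).val : ℚ) =
        2 * m * ∑ i ∈ range f, saw ((t : ZMod m) * (p : ZMod m) ^ i * a) := by
      rw [← sum_sub_distrib, mul_sum]
      refine sum_congr rfl fun k _ => ?_
      rw [← stick_saw]
      congr 3
      · ring
      · rw [Units.val_neg]; ring
    linear_combination e1 - e2 - ((p : ℚ) - 1) * e3
  apply mul_left_cancel₀ (mul_ne_zero two_ne_zero hp0)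
  rw [mul_zero, mul_sum, ← sub_eq_zero.2 h4, ← sum_sub_distrib]
  refine sum_congr rfl fun a _ => ?_
  rw [mul_left_comm, h5]
  ring

end Pool.Agent.MP_0c8446_ag

end

section

namespace Pool.Agent.MP_0c8446_ag

open Set

universe u v w

namespace Weil

section

variable {k : Type u} [Field k] {K : Type v} [Field K] (W : Weil.{u, v, w} k K)

/-- The intersection form on the first cohomology. -/
noncomputable def lef1B (X : Var k) : LinearMap.BilinForm K (W.gr X 1) :=
  LinearMap.mk₂ K (fun a c => W.tr X (a.1 * c.1))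
    (fun a b c => by simp [add_mul]) (fun t a c => by simp)
    (fun a b c => by simp [mul_add]) (fun t a c => by simp)

lemma lef1B_apply {X : Var k} (a c : W.gr X 1) : W.lef1B X a c = W.tr X (a.1 * c.1) := rfl

lemma lef1_anti {X : Var k} {a c : W.H X} (ha : a ∈ W.gr X 1) (hc : c ∈ W.gr X 1) :
    a * c = -(c * a) := by
  rw [W.comm X 1 1 a ha c hc]
  simp

lemma lef1B_sepL {X : Var k} (hX : X.d = 1) (a : W.gr X 1) (h : ∀ c, W.lef1B X a c = 0) :
    a = 0 := by
  refine Subtype.ext (W.eq_zero_of_gr fun j b hb => ?_)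
  by_cases hj : j = 1
  · subst hj
    exact h ⟨b, hb⟩
  · exact W.tr_mul_gr a.2 hb (by omega)

lemma lef1B_nondeg {X : Var k} (hX : X.d = 1) : (W.lef1B X).Nondegenerate := by
  refine ⟨fun a h => W.lef1B_sepL hX a h, fun a h => W.lef1B_sepL hX a fun c => ?_⟩
  have := h c
  rw [lef1B_apply] at this ⊢
  rw [W.lef1_anti a.2 c.2, map_neg, this, neg_zero]

lemma lef1_key {X P : Var k} (hX : X.d = 1) {p q : Mor P X} (h : IsProd p q) (x : X.pts)
    {n : Type} [Fintype n] [DecidableEq n] (b : Module.Basis n K (W.gr X 1)) (a c : W.H X) :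
    W.tr P ((W.pull q (W.cl X {x}) + W.pull p (W.cl X {x}) +
      ∑ i, W.pull p (b i).1 * W.pull q ((W.lef1B X).dualBasis (W.lef1B_nondeg hX) b i).1) *
        (W.pull p a * W.pull q c)) = W.tr X (a * c) := by
  set d := (W.lef1B X).dualBasis (W.lef1B_nondeg hX) b with hd
  have hpt : W.cl X {x} ∈ W.gr X (2 * 1) := hX ▸ W.cl_pt_gr x
  induction a using DirectSum.Decomposition.inductionOn (W.gr X) with
  | zero => simp
  | add a a' ha ha' => simp only [map_add, add_mul a, add_mul (W.pull p a), mul_add, ha, ha']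
  | @homogeneous i a =>
    induction c using DirectSum.Decomposition.inductionOn (W.gr X) with
    | zero => simp
    | add c c' hc hc' => simp only [map_add, mul_add, hc, hc']
    | @homogeneous j c =>
      obtain ⟨a, ha⟩ := a
      obtain ⟨c, hc⟩ := c
      simp only
      have e1 : W.tr P (W.pull q (W.cl X {x}) * (W.pull p a * W.pull q c)) =
          W.tr X a * W.tr X (W.cl X {x} * c) := by
        rw [← mul_assoc, W.even_comm (W.pull_gr q _ _ hpt), mul_assoc, ← map_mul, W.tr_prod h]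
      have e2 : W.tr P (W.pull p (W.cl X {x}) * (W.pull p a * W.pull q c)) =
          W.tr X (W.cl X {x} * a) * W.tr X c := by
        rw [← mul_assoc, ← map_mul, W.tr_prod h]
      have e3 : ∀ s, W.tr P (W.pull p (b s).1 * W.pull q (d s).1 * (W.pull p a * W.pull q c)) =
          (-1) ^ i * (W.tr X ((b s).1 * a) * W.tr X ((d s).1 * c)) := fun s => by
        have := W.comm P 1 i _ (W.pull_gr q _ _ (d s).2) _ (W.pull_gr p _ _ ha)
        rw [mul_assoc, ← mul_assoc (W.pull q (d s).1), this, ← W.tr_prod h, map_mul (W.pull p),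
          map_mul (W.pull q), one_mul]
        rcases Nat.even_or_odd i with hi | hi
        · simp only [hi.neg_one_pow, mul_assoc, one_mul]
        · simp only [hi.neg_one_pow, mul_assoc, neg_mul, one_mul, mul_neg, map_neg]
      rw [add_mul, add_mul, Finset.sum_mul, map_add, map_add, map_sum, e1, e2,
        Finset.sum_congr rfl fun s _ => e3 s]
      by_cases hi1 : i = 1
      · subst hi1
        rw [W.tr_gr X 1 a ha (by omega), W.tr_mul_gr hpt ha (by omega)]
        by_cases hj1 : j = 1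
        · subst hj1
          have e4 : ∀ s, W.tr X ((d s).1 * c) = b.repr ⟨c, hc⟩ s := fun s => by
            have : W.lef1B X (d s) ⟨c, hc⟩ = b.repr ⟨c, hc⟩ s := by
              conv_lhs => rw [← b.sum_repr ⟨c, hc⟩, map_sum]
              simp only [hd, map_smul, LinearMap.BilinForm.apply_dualBasis_left, smul_eq_mul,
                mul_ite, mul_one, mul_zero, Finset.sum_ite_eq', Finset.mem_univ, if_true]
            exact this
          have e5 : W.lef1B X ⟨c, hc⟩ ⟨a, ha⟩ =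
              ∑ s, W.tr X ((b s).1 * a) * b.repr ⟨c, hc⟩ s := by
            conv_lhs => rw [← b.sum_repr ⟨c, hc⟩, map_sum, LinearMap.sum_apply]
            refine Finset.sum_congr rfl fun s _ => ?_
            rw [map_smul, LinearMap.smul_apply, lef1B_apply, smul_eq_mul, mul_comm]
          rw [lef1B_apply] at e5
          simp only [e4]
          rw [← Finset.mul_sum, ← e5, W.lef1_anti ha hc]
          simp
        · rw [W.tr_mul_gr ha hc (by omega),
            Finset.sum_eq_zero fun s _ => by rw [W.tr_mul_gr (d s).2 hc (by omega)]; simp]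
          simp
      · rw [Finset.sum_eq_zero fun s _ => by rw [W.tr_mul_gr (b s).2 ha (by omega)]; simp, add_zero]
        by_cases hi0 : i = 0
        · subst hi0
          rw [W.tr_gr X 0 a ha (by omega)]
          rw [W.zero, Submodule.mem_span_singleton] at ha
          obtain ⟨t, rfl⟩ := ha
          simp [W.tr_pt]
        · rw [W.tr_mul_gr hpt ha (by omega)]
          by_cases hj0 : j = 0
          · subst hj0
            rw [W.zero, Submodule.mem_span_singleton] at hc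
            obtain ⟨t, rfl⟩ := hc
            simp [W.tr_pt, mul_comm]
          · rw [W.tr_mul_gr hpt hc (by omega), W.tr_mul_gr ha hc (by omega)]
            simp

lemma lef1_diag [CharZero K] {X P : Var k} (hX : X.d = 1) {p q : Mor P X} (h : IsProd p q)
    (x : X.pts) {n : Type} [Fintype n] [DecidableEq n] (b : Module.Basis n K (W.gr X 1))
    (D : Mor X P) (hp : ∀ y, p.1 (D.1 y) = y) (hq : ∀ y, q.1 (D.1 y) = y) :
    W.cl P (range D.1) = W.pull q (W.cl X {x}) + W.pull p (W.cl X {x}) +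
      ∑ i, W.pull p (b i).1 * W.pull q ((W.lef1B X).dualBasis (W.lef1B_nondeg hX) b i).1 := by
  refine sub_eq_zero.1 (W.poincare P _ fun y => ?_)
  have := W.prod_span h (LinearMap.ker (W.tr P ∘ₗ LinearMap.mulLeft K (W.cl P (range D.1) -
    (W.pull q (W.cl X {x}) + W.pull p (W.cl X {x}) +
      ∑ i, W.pull p (b i).1 * W.pull q ((W.lef1B X).dualBasis (W.lef1B_nondeg hX) b i).1))))
    fun a c => by
      rw [LinearMap.mem_ker, LinearMap.comp_apply, LinearMap.mulLeft_apply, sub_mul, map_sub,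
        W.lef1_key hX h x b a c, ← W.tr_pull_retr D p hp, map_mul, W.pull_pull, W.pull_pull,
        W.pull_id (p.comp D) (funext hp), W.pull_id (q.comp D) (funext hq), sub_self]
  have hy : y ∈ (⊤ : Submodule K (W.H P)) := trivial
  rw [← this] at hy
  exact hy

lemma lef1_main [CharZero K] {X P : Var k} (hX : X.d = 1) {p q : Mor P X} (h : IsProd p q)
    (x : X.pts) (f : Mor X X) (D G : Mor X P) (hp : ∀ y, p.1 (D.1 y) = y)
    (hq : ∀ y, q.1 (D.1 y) = y) (gp : ∀ y, p.1 (G.1 y) = y) (gq : ∀ y, q.1 (G.1 y) = f.1 y) :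
    W.tr P (W.cl P (range G.1) * W.cl P (range D.1)) = 1 + W.tr X (W.pull f (W.cl X {x})) -
      LinearMap.trace K (W.gr X 1) ((W.pull f).toLinearMap.restrict (W.pull_gr f 1)) := by
  classical
  let b := Module.finBasis K (W.gr X 1)
  set d := (W.lef1B X).dualBasis (W.lef1B_nondeg hX) b with hd
  have e1 : ∀ a, W.pull G (W.pull p a) = a := fun a => by
    rw [W.pull_pull, W.pull_id (p.comp G) (funext gp)]
  have e2 : ∀ a, W.pull G (W.pull q a) = W.pull f a := fun a => by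
    rw [W.pull_pull]
    exact W.pull_congr gq a
  rw [← W.tr_pull_retr G p gp, W.lef1_diag hX h x b D hp hq, LinearMap.trace_eq_matrix_trace K d,
    Matrix.trace]
  simp only [map_add, map_sum, map_mul, e1, e2, W.tr_pt, Matrix.diag_apply,
    LinearMap.toMatrix_apply]
  rw [add_comm _ (1 : K), sub_eq_add_neg, ← Finset.sum_neg_distrib]
  refine congrArg _ (Finset.sum_congr rfl fun s _ => ?_)
  rw [hd, LinearMap.BilinForm.dualBasis_repr_apply, lef1B_apply, ← hd,
    W.lef1_anti (b s).2 (W.pull_gr f 1 _ (d s).2), map_neg]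
  rfl

end

end Weil

variable {k : Type u} [Field k] [IsAlgClosed k] {q : ℕ} [IsQ k q] {K : Type v} [Field K]
  [CharZero K]

theorem Weil.lefschetz (W : Weil.{u, v, w} k K) (b : Bool) (f : Mor (Cv k q b) (Cv k q b))
    (x : (Cv k q b).pts) :
    W.tr _ (W.cl _ (range (pair (Mor.id _) f).1) *
      W.cl _ (range (pair (Mor.id (Cv k q b)) (Mor.id _)).1)) =
      1 + W.tr _ (W.pull f (W.cl _ {x})) -
        LinearMap.trace K (W.gr (Cv k q b) 1) ((W.pull f).toLinearMap.restrict (W.pull_gr f 1)) :=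
  W.lef1_main (d_Cv b) (isProd_sum _ _) x f _ _ (fun _ => rfl) (fun _ => rfl) (fun _ => rfl)
    fun _ => rfl

end Pool.Agent.MP_0c8446_ag

end

section

namespace Pool.Agent.MP_0c8446_ag

open Set

universe u v w

variable {k : Type u} [Field k] [IsAlgClosed k] {q : ℕ} [IsQ k q] {K : Type v} [Field K]
  [CharZero K] {ιS ιM : Type} [Fintype ιS] [Fintype ιM] {τS : ιS → Bool} {τM : ιM → Bool}

omit [IsAlgClosed k] in
lemma Weil.comp_fix (W : Weil.{u, v, w} k K) {X : Var k} (G G' : Mor X X)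
    (h : ∀ x, G'.1 (G.1 x) = x) {C : Set X.pts} (hC : IsSub C) (hfix : ∀ x ∈ C, G.1 x = x)
    {y : W.H X} {c : K} (hc : c ≠ 1) (hy : W.pull G y = c • y) : W.tr X (W.cl X C * y) = 0 := by
  have h1 := W.push_retr G G' h hC y
  have e : G.1 '' C = C := by
    ext x
    constructor
    · rintro ⟨z, hz, rfl⟩
      rw [hfix z hz]
      exact hz
    · exact fun hx => ⟨x, hx, hfix x hx⟩
  rw [e, hy, mul_smul_comm, map_smul, smul_eq_mul] at h1
  have h2 : (c - 1) * W.tr X (W.cl X C * y) = 0 := by rw [sub_mul, h1, one_mul, sub_self]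
  exact (mul_eq_zero.1 h2).resolve_left (sub_ne_zero.2 hc)

omit [CharZero K] in
lemma comp_sum {α : Type*} (s : Finset α) (f : α → K) (p : α → Prop) (t : K)
    (h : ∀ i ∈ s, ∃ n : ℕ, f i = n * t ∧ (p i → 0 < n)) :
    ∃ n : ℕ, ∑ i ∈ s, f i = n * t ∧ ((∃ i ∈ s, p i) → 0 < n) := by
  choose! n h1 h2 using h
  refine ⟨∑ i ∈ s, n i, ?_, fun ⟨i, hi, hp⟩ => ?_⟩
  · rw [Nat.cast_sum, Finset.sum_mul]
    exact Finset.sum_congr rfl h1
  · exact lt_of_lt_of_le (h2 i hi hp) (Finset.single_le_sum (fun _ _ => Nat.zero_le _) hi)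

lemma comp_mkP_eta {ι₁ ι₂ : Type} [Fintype ι₁] [Fintype ι₂] {τ₁ : ι₁ → Bool} {τ₂ : ι₂ → Bool}
    (x : (Yv k q (Sum.elim τ₁ τ₂)).pts) : mkP ((pL τ₁ τ₂).1 x) ((pR τ₁ τ₂).1 x) = x :=
  sum_ext rfl rfl

lemma comp_closed_B {A : Set (ιS × P2 k)} (hA : A.Finite) {B : Set (Yv k q τS).pts}
    (hB : ∀ s, s ∈ B ↔ ∃ a ∈ A, co s a.1 = a.2) : IsClosed B := by
  have e : B = ⋃ a ∈ A, {s | co s a.1 = a.2} := by
    ext s
    simp [hB]
  rw [e]
  exact hA.isClosed_biUnion fun a _ => isClosed_co_const a.1 a.2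

lemma comp_B_ne {A : Set (ιS × P2 k)} (hA : A.Finite) {B : Set (Yv k q τS).pts}
    (hB : ∀ s, s ∈ B ↔ ∃ a ∈ A, co s a.1 = a.2) : ¬ univ ⊆ B := by
  intro h
  obtain ⟨a, -, ha⟩ := (Var.isSub_univ (Yv k q τS)).subset_of_finite hA
    (F := fun a => {s | co s a.1 = a.2}) (fun a _ => isClosed_co_const a.1 a.2) fun s hs => by
      obtain ⟨a, ha, e⟩ := (hB s).1 (h hs)
      exact mem_iUnion₂.2 ⟨a, ha, e⟩
  refine infinite_co_of_open (k := k) (q := q) (τ := τS) isOpen_univ univ_nonempty a.1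
    ((finite_singleton a.2).subset ?_)
  rintro _ ⟨s, hs, rfl⟩
  exact ha hs

lemma comp_fib_finite {Z : Set (Yv k q (Sum.elim τS τM)).pts} {B : Set (Yv k q τS).pts}
    {Γ : Set (Mor (Yv k q τS) (Yv k q τS))} (hΓ : Γ.Finite)
    (hfib : ∀ s s' μ, s ∉ B → s' ∉ B → mkP s μ ∈ Z → mkP s' μ ∈ Z → ∃ γ ∈ Γ, s' = γ.1 s)
    (μ : (Yv k q τM).pts) :
    {y | y ∈ Z ∧ (pL τS τM).1 y ∉ B ∧ (pR τS τM).1 y = μ}.Finite := by
  rcases {y | y ∈ Z ∧ (pL τS τM).1 y ∉ B ∧ (pR τS τM).1 y = μ}.eq_empty_or_nonempty with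
    h | ⟨y₀, h1, h2, h3⟩
  · rw [h]
    exact finite_empty
  · refine (hΓ.image fun γ => mkP (γ.1 ((pL τS τM).1 y₀)) μ).subset ?_
    rintro y ⟨h4, h5, h6⟩
    obtain ⟨γ, hγ, e⟩ := hfib _ _ μ h2 h5 (by rw [← h3, comp_mkP_eta]; exact h1)
      (by rw [← h6, comp_mkP_eta]; exact h4)
    exact ⟨γ, hγ, sum_ext e.symm h6.symm⟩

lemma Weil.comp_ub1 (W : Weil.{u, v, w} k K) {Z : Set (Yv k q (Sum.elim τS τM)).pts}
    {B : Set (Yv k q τS).pts} (hB : IsClosed B)
    (hf : ∀ μ, {y | y ∈ Z ∧ (pL τS τM).1 y ∉ B ∧ (pR τS τM).1 y = μ}.Finite)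
    {C : Set (Yv k q (Sum.elim τS τM)).pts} (hC : IsSub C) (hCZ : C ⊆ Z)
    (hCB : ¬ C ⊆ (pL τS τM).1 ⁻¹' B) : dim C ≤ Fintype.card ιM := by
  classical
  obtain ⟨x, hx, hxB⟩ := not_subset.1 hCB
  have h1 := W.dim_le_of_finite (Finset.univ.image Sum.inr) hC
    (hB.preimage (pL τS τM).continuous).isOpen_compl ⟨x, hx, hxB⟩ fun x =>
      (hf ((pR τS τM).1 x)).subset fun y hy => ⟨hCZ hy.1.1, hy.1.2,
        Yv_ext fun i => hy.2 _ (Finset.mem_image_of_mem _ (Finset.mem_univ i))⟩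
  exact h1.trans (Finset.card_image_le.trans Finset.card_univ.le)

lemma Weil.comp_dominant (W : Weil.{u, v, w} k K) (hc : Fintype.card ιS = Fintype.card ιM)
    {Z : Set (Yv k q (Sum.elim τS τM)).pts} (hZ : IsClosed Z)
    {B : Set (Yv k q τS).pts} (hB : IsClosed B) (hB' : ¬ univ ⊆ B)
    (hf : ∀ μ, {y | y ∈ Z ∧ (pL τS τM).1 y ∉ B ∧ (pR τS τM).1 y = μ}.Finite)
    (hsurj : ∀ s, s ∉ B → ∃ μ, mkP s μ ∈ Z) :
    ∃ D, IsSub D ∧ D ⊆ Z ∧ dim D = Fintype.card ιS ∧ ¬ D ⊆ (pL τS τM).1 ⁻¹' B ∧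
      univ ⊆ closure ((pL τS τM).1 '' D) := by
  classical
  have hT := finite_isComp hZ
  have hT1 : {D | IsComp D Z ∧ ¬ univ ⊆ closure ((pL τS τM).1 '' D)}.Finite :=
    hT.subset fun D hD => hD.1
  have hT2 : {D | IsComp D Z ∧ univ ⊆ closure ((pL τS τM).1 '' D)}.Finite :=
    hT.subset fun D hD => hD.1
  have hF1 : IsClosed (⋃ D ∈ {D | IsComp D Z ∧ ¬ univ ⊆ closure ((pL τS τM).1 '' D)},
      closure ((pL τS τM).1 '' D)) := hT1.isClosed_biUnion fun _ _ => isClosed_closure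
  have hF2 : ¬ univ ⊆ B ∪ ⋃ D ∈ {D | IsComp D Z ∧ ¬ univ ⊆ closure ((pL τS τM).1 '' D)},
      closure ((pL τS τM).1 '' D) := by
    intro h
    rcases isPreirreducible_iff_isClosed_union_isClosed.1 (Var.isSub_univ (Yv k q τS)).1.2 _ _
      hB hF1 h with h1 | h1
    · exact hB' h1
    · obtain ⟨D, hD, h2⟩ := (Var.isSub_univ (Yv k q τS)).subset_of_finite hT1
        (fun _ _ => isClosed_closure) h1
      exact hD.2 h2
  obtain ⟨s₀, -, hs₀⟩ := not_subset.1 hF2
  obtain ⟨μ₀⟩ : Nonempty (Yv k q τM).pts := inferInstance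
  obtain ⟨C, hC, hCZ, hd⟩ := exists_sub_of_open (τ := Sum.elim τS τM) (Finset.univ.image Sum.inl)
    (Z := ⋃ D ∈ {D | IsComp D Z ∧ univ ⊆ closure ((pL τS τM).1 '' D)}, D)
    (hT2.isClosed_biUnion fun D hD => hD.1.1.1.2)
    ((hB.union hF1).preimage (pL τS τM).continuous).isOpen_compl ⟨mkP s₀ μ₀, hs₀⟩ fun x hx => by
      have hx' : (pL τS τM).1 x ∉ B ∪ ⋃ D ∈ {D | IsComp D Z ∧
        ¬ univ ⊆ closure ((pL τS τM).1 '' D)}, closure ((pL τS τM).1 '' D) := hx
      obtain ⟨μ, hμ⟩ := hsurj _ fun h => hx' (Or.inl h)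
      obtain ⟨D, hD, hμD⟩ := exists_isComp (isSub_singleton _) (singleton_subset_iff.2 hμ)
      refine ⟨mkP ((pL τS τM).1 x) μ, mem_iUnion₂.2 ⟨D, ⟨hD, ?_⟩, hμD rfl⟩, fun i hi => ?_⟩
      · by_contra h
        exact hx' (Or.inr (mem_iUnion₂.2 ⟨D, ⟨hD, h⟩, subset_closure ⟨_, hμD rfl, rfl⟩⟩))
      · obtain ⟨i, -, rfl⟩ := Finset.mem_image.1 hi
        rfl
  obtain ⟨D, hD, hCD⟩ := hC.subset_of_finite hT2 (F := id) (fun D hD => hD.1.1.1.2) hCZ
  have h1 : ¬ D ⊆ (pL τS τM).1 ⁻¹' B := fun h =>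
    hB' (hD.2.trans (hB.closure_subset_iff.2 (image_subset_iff.2 h)))
  have h2 := W.comp_ub1 hB hf hD.1.1.1 hD.1.1.2 h1
  have h3 : dim C ≤ dim D := dim_mono hCD
  rw [Finset.card_image_of_injective _ Sum.inl_injective, Finset.card_univ] at hd
  exact ⟨D, hD.1.1.1, hD.1.1.2, by omega, h1, hD.2⟩

/-- The graph case: a subvariety that maps into the graph of `γ`. -/
lemma Weil.comp_graph (W : Weil.{u, v, w} k K) {X : Var k}
    (π : Mor X (Yv k q (Sum.elim τS τS))) (γ : Mor (Yv k q τS) (Yv k q τS))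
    {C : Set X.pts} (hC : IsSub C) (hd : dim C = Fintype.card ιS)
    (hsub : π.1 '' C ⊆ range (pair (Mor.id _) γ).1) {b₁ b₂ : W.H (Yv k q τS)}
    (hb₁ : b₁ ∈ W.gr _ (Fintype.card ιS)) (hb₂ : b₂ ∈ W.gr _ (Fintype.card ιS)) :
    ∃ r : ℕ, W.tr X (W.cl X C * W.pull π (W.pull (pL τS τS) b₁ * W.pull (pR τS τS) b₂)) =
      r * W.tr _ (b₁ * W.pull γ b₂) ∧
      (range (pair (Mor.id _) γ).1 ⊆ closure (π.1 '' C) → 0 < r) := by
  have hr := (pair (Mor.id (Yv k q τS)) γ).retr (pL τS τS) fun _ => rfl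
  have hG : IsSub (range (pair (Mor.id (Yv k q τS)) γ).1) := by
    rw [← image_univ]
    exact hr.isSub (Var.isSub_univ _)
  have hGd : dim (range (pair (Mor.id (Yv k q τS)) γ).1) = Fintype.card ιS := by
    rw [← image_univ, hr.dim_image]
    exact W.d_Yv τS
  have hcl := hC.image_closure π.continuous
  have hsub' : closure (π.1 '' C) ⊆ range (pair (Mor.id _) γ).1 :=
    hG.2.closure_subset_iff.2 hsub
  obtain ⟨r, hr0, h1⟩ := W.push π C hC
  by_cases h : dim (closure (π.1 '' C)) = Fintype.card ιS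
  · have e := eq_of_dim_le hcl hG hsub' (by omega)
    refine ⟨r, ?_, fun _ => hr0 (by omega)⟩
    rw [h1, e, ← W.tr_pull_retr (pair (Mor.id (Yv k q τS)) γ) (pL τS τS) fun _ => rfl, map_mul,
      W.pull_pull, W.pull_pull, W.pull_id ((pL τS τS).comp _) rfl,
      W.pull_congr (f := (pR τS τS).comp _) (g := γ) fun _ => rfl]
  · refine ⟨0, ?_, fun h2 => absurd ?_ h⟩
    · rw [h1, W.tr_cl_mul_gr hcl (SetLike.mul_mem_graded (W.pull_gr (pL τS τS) _ _ hb₁)
        (W.pull_gr (pR τS τS) _ _ hb₂)) (by omega)]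
      simp
    · rw [hsub'.antisymm h2, hGd]

end Pool.Agent.MP_0c8446_ag

end

section

namespace Pool.Agent.MP_0c8446_ag

open Set

universe u v w

variable {k : Type u} [Field k] [IsAlgClosed k] {q : ℕ} [IsQ k q] {K : Type v} [Field K]
  [CharZero K]

section
variable {ιS ιM : Type} [Fintype ιS] [Fintype ιM]

/-- The square of `S × M`. -/
noncomputable abbrev CompP (k : Type u) [Field k] [IsAlgClosed k] (q : ℕ) [IsQ k q]
    (τS : ιS → Bool) (τM : ιM → Bool) : Var k :=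
  Yv k q (Sum.elim (Sum.elim τS τM) (Sum.elim τS τM))

/-- The first projection to `S × M`. -/
def compL (τS : ιS → Bool) (τM : ιM → Bool) : Mor (CompP k q τS τM) (Yv k q (Sum.elim τS τM)) :=
  pL _ _

/-- The second projection to `S × M`. -/
def compR (τS : ιS → Bool) (τM : ιM → Bool) : Mor (CompP k q τS τM) (Yv k q (Sum.elim τS τM)) :=
  pR _ _

/-- The projection to `S × S`. -/
def compS (τS : ιS → Bool) (τM : ιM → Bool) : Mor (CompP k q τS τM) (Yv k q (Sum.elim τS τS)) :=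
  remap (Sum.elim (Sum.inl ∘ Sum.inl) (Sum.inr ∘ Sum.inl)) (by rintro (i | i) <;> rfl)

/-- The projection to `M × M`. -/
def compM (τS : ιS → Bool) (τM : ιM → Bool) : Mor (CompP k q τS τM) (Yv k q (Sum.elim τM τM)) :=
  remap (Sum.elim (Sum.inl ∘ Sum.inr) (Sum.inr ∘ Sum.inr)) (by rintro (i | i) <;> rfl)

lemma comp_isProd (τS : ιS → Bool) (τM : ιM → Bool) :
    IsProd (compS (k := k) (q := q) τS τM) (compM τS τM) := by
  refine isProd_remap _ _ _ _ ?_
  convert (Equiv.sumSumSumComm ιS ιS ιM ιM).bijective using 1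
  funext i
  rcases i with (i | i) | (i | i) <;> rfl

/-- The diagonal in the coordinate j. -/
def compD (τS : ιS → Bool) (τM : ιM → Bool) (j : ιM) : Set (CompP k q τS τM).pts :=
  {x | co x (Sum.inl (Sum.inr j)) = co x (Sum.inr (Sum.inr j))}

/-- The boundary. -/
def compB (τM : ιM → Bool) {τS : ιS → Bool} (B : Set (Yv k q τS).pts) :
    Set (CompP k q τS τM).pts :=
  (compL τS τM).1 ⁻¹' ((pL τS τM).1 ⁻¹' B) ∪ (compR τS τM).1 ⁻¹' ((pL τS τM).1 ⁻¹' B)

/-- The class that is paired with the cycles. -/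
noncomputable def Weil.compF (W : Weil.{u, v, w} k K) {τS : ιS → Bool} {τM : ιM → Bool}
    (b₁ b₂ : W.H (Yv k q τS)) (Δ : W.H (Yv k q (Sum.elim τM τM))) : W.H (CompP k q τS τM) :=
  W.pull ((pL τS τM).comp (compL τS τM)) b₁ * W.pull (compM τS τM) Δ *
    W.pull ((pL τS τM).comp (compR τS τM)) b₂

variable {τS : ιS → Bool} {τM : ιM → Bool}

lemma comp_closed_bd {B : Set (Yv k q τS).pts} (hB : IsClosed B) : IsClosed (compB τM B) :=
  ((hB.preimage (pL τS τM).continuous).preimage (compL τS τM).continuous).union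
    ((hB.preimage (pL τS τM).continuous).preimage (compR τS τM).continuous)

lemma comp_isSub_D (j : ιM) : IsSub (compD (k := k) (q := q) τS τM j) := isSub_co_co rfl

omit [CharZero K] in
lemma Weil.comp_cl_D (W : Weil.{u, v, w} k K) (j : ιM) :
    W.cl _ (compD (k := k) (q := q) τS τM j) = W.pull (compM τS τM)
      (W.cl _ {x : (Yv k q (Sum.elim τM τM)).pts | co x (Sum.inl j) = co x (Sum.inr j)}) := by
  have h := W.cl_prod _ _ (comp_isProd (k := k) (q := q) τS τM) univ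
    {x : (Yv k q (Sum.elim τM τM)).pts | co x (Sum.inl j) = co x (Sum.inr j)} (Var.isSub_univ _)
    (isSub_co_co rfl)
  rw [W.cl_univ, map_one, one_mul, preimage_univ, univ_inter] at h
  exact h

lemma Weil.comp_ub2 [DecidableEq ιM] (W : Weil.{u, v, w} k K)
    {Z : Set (Yv k q (Sum.elim τS τM)).pts} {B : Set (Yv k q τS).pts} (hB : IsClosed B)
    (hf : ∀ μ, {y | y ∈ Z ∧ (pL τS τM).1 y ∉ B ∧ (pR τS τM).1 y = μ}.Finite) (J : Finset ιM)
    {C : Set (CompP k q τS τM).pts} (hC : IsSub C)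
    (hCZ : C ⊆ (compL τS τM).1 ⁻¹' Z ∩ (compR τS τM).1 ⁻¹' Z)
    (hCD : ∀ j ∉ J, C ⊆ compD τS τM j) (hCB : ¬ C ⊆ compB τM B) :
    dim C ≤ Fintype.card ιM + J.card := by
  classical
  obtain ⟨x, hx, hxB⟩ := not_subset.1 hCB
  have h1 := W.dim_le_of_finite
    (Finset.univ.image (Sum.inl ∘ Sum.inr) ∪ J.image (Sum.inr ∘ Sum.inr)) hC
    (comp_closed_bd hB).isOpen_compl ⟨x, hx, hxB⟩ fun x => by
      have hl : ∀ y : (CompP k q τS τM).pts, (∀ i ∈ (Finset.univ.image (Sum.inl ∘ Sum.inr) ∪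
          J.image (Sum.inr ∘ Sum.inr) : Finset ((ιS ⊕ ιM) ⊕ (ιS ⊕ ιM))), co y i = co x i) →
          ∀ j, co y (Sum.inl (Sum.inr j)) = co x (Sum.inl (Sum.inr j)) := fun y hy j =>
        hy _ (Finset.mem_union_left _ (Finset.mem_image_of_mem _ (Finset.mem_univ j)))
      let μ₂ : (Yv k q τM).pts := mkY (fun j => if j ∈ J then co x (Sum.inr (Sum.inr j)) else
        co x (Sum.inl (Sum.inr j))) fun j => by
          split_ifs
          · exact co_mem x (Sum.inr (Sum.inr j))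
          · exact co_mem x (Sum.inl (Sum.inr j))
      refine ((hf ((pR τS τM).1 ((compL τS τM).1 x))).image2 mkP (hf μ₂)).subset fun y hy => ?_
      have hyB : y ∉ compB τM B := hy.1.2
      refine ⟨(compL τS τM).1 y, ⟨(hCZ hy.1.1).1, fun h => hyB (Or.inl h),
        Yv_ext fun j => hl y hy.2 j⟩, (compR τS τM).1 y, ⟨(hCZ hy.1.1).2,
        fun h => hyB (Or.inr h), Yv_ext fun j => ?_⟩, comp_mkP_eta y⟩
      by_cases hj : j ∈ J
      · exact (hy.2 _ (Finset.mem_union_right _ (Finset.mem_image_of_mem _ hj))).trans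
          (if_pos hj).symm
      · exact ((hCD j hj hy.1.1).symm.trans (hl y hy.2 j)).trans (if_neg hj).symm
  refine h1.trans ((Finset.card_union_le _ _).trans (add_le_add ?_ Finset.card_image_le))
  exact Finset.card_image_le.trans Finset.card_univ.le

lemma Weil.comp_boundary (W : Weil.{u, v, w} k K) {A : Set (ιS × P2 k)} (hA : A.Finite)
    {B : Set (Yv k q τS).pts} (hB : ∀ s, s ∈ B ↔ ∃ a ∈ A, co s a.1 = a.2)
    {b₁ b₂ : W.H (Yv k q τS)}
    (hI : ∀ a ∈ A, ∃ γ γ' : Mor (Yv k q τS) (Yv k q τS), (∀ s, γ'.1 (γ.1 s) = s) ∧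
      (∀ s, co s a.1 = a.2 → γ.1 s = s) ∧ ∃ c₁ c₂ : K, c₁ ≠ 1 ∧ c₂ ≠ 1 ∧
      W.pull γ b₁ = c₁ • b₁ ∧ W.pull γ b₂ = c₂ • b₂)
    (Δ : W.H (Yv k q (Sum.elim τM τM))) {C : Set (CompP k q τS τM).pts} (hC : IsSub C)
    (hCB : C ⊆ compB τM B) : W.tr _ (W.cl _ C * W.compF b₁ b₂ Δ) = 0 := by
  have hBc := (comp_closed_B hA hB).preimage (pL τS τM).continuous
  have key : ∀ p : Mor (CompP k q τS τM) (Yv k q τS), C ⊆ p.1 ⁻¹' B →
      ∃ a ∈ A, ∀ x ∈ C, co (p.1 x) a.1 = a.2 := fun p hp => by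
    obtain ⟨a, ha, h⟩ := hC.subset_of_finite hA (F := fun a => p.1 ⁻¹' {s | co s a.1 = a.2})
      (fun a _ => (isClosed_co_const a.1 a.2).preimage p.continuous) fun x hx => by
        obtain ⟨a, ha, e⟩ := (hB _).1 (hp hx)
        exact mem_iUnion₂.2 ⟨a, ha, e⟩
    exact ⟨a, ha, fun x hx => h hx⟩
  rcases isPreirreducible_iff_isClosed_union_isClosed.1 hC.1.2 _ _
    (hBc.preimage (compL τS τM).continuous) (hBc.preimage (compR τS τM).continuous) hCB with h | h
  · obtain ⟨a, ha, h1⟩ := key ((pL τS τM).comp (compL τS τM)) h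
    obtain ⟨γ, γ', h2, h3, c₁, c₂, h4, -, h5, -⟩ := hI a ha
    let G : Mor (Yv k q τS) (Yv k q τS) → Mor (CompP k q τS τM) (CompP k q τS τM) := fun g =>
      pair (pair (g.comp ((pL τS τM).comp (compL τS τM))) ((pR τS τM).comp (compL τS τM)))
        (compR τS τM)
    refine W.comp_fix (G γ) (G γ') (fun x => sum_ext (sum_ext (h2 _) rfl) rfl) hC
      (fun x hx => sum_ext (sum_ext (h3 _ (h1 x hx)) rfl) rfl) h4 ?_
    rw [Weil.compF, map_mul, map_mul, W.pull_pull, W.pull_pull, W.pull_pull,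
      W.pull_congr (f := (compM τS τM).comp (G γ)) (g := compM τS τM)
        (fun _ => sum_ext rfl rfl),
      W.pull_congr (f := ((pL τS τM).comp (compR τS τM)).comp (G γ))
        (g := (pL τS τM).comp (compR τS τM)) (fun _ => rfl),
      W.pull_congr (f := ((pL τS τM).comp (compL τS τM)).comp (G γ))
        (g := γ.comp ((pL τS τM).comp (compL τS τM))) (fun _ => rfl),
      ← W.pull_pull _ γ, h5, map_smul, smul_mul_assoc, smul_mul_assoc]
  · obtain ⟨a, ha, h1⟩ := key ((pL τS τM).comp (compR τS τM)) h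
    obtain ⟨γ, γ', h2, h3, c₁, c₂, -, h4, -, h5⟩ := hI a ha
    let G : Mor (Yv k q τS) (Yv k q τS) → Mor (CompP k q τS τM) (CompP k q τS τM) := fun g =>
      pair (compL τS τM)
        (pair (g.comp ((pL τS τM).comp (compR τS τM))) ((pR τS τM).comp (compR τS τM)))
    refine W.comp_fix (G γ) (G γ') (fun x => sum_ext rfl (sum_ext (h2 _) rfl)) hC
      (fun x hx => sum_ext rfl (sum_ext (h3 _ (h1 x hx)) rfl)) h4 ?_
    rw [Weil.compF, map_mul, map_mul, W.pull_pull, W.pull_pull, W.pull_pull,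
      W.pull_congr (f := (compM τS τM).comp (G γ)) (g := compM τS τM)
        (fun _ => sum_ext rfl rfl),
      W.pull_congr (f := ((pL τS τM).comp (compL τS τM)).comp (G γ))
        (g := (pL τS τM).comp (compL τS τM)) (fun _ => rfl),
      W.pull_congr (f := ((pL τS τM).comp (compR τS τM)).comp (G γ))
        (g := γ.comp ((pL τS τM).comp (compR τS τM))) (fun _ => rfl),
      ← W.pull_pull _ γ, h5, map_smul, mul_smul_comm]

omit [CharZero K] in
lemma Weil.compF_one (W : Weil.{u, v, w} k K) (b₁ b₂ : W.H (Yv k q τS)) :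
    W.compF (τM := τM) b₁ b₂ 1 =
      W.pull (compS τS τM) (W.pull (pL τS τS) b₁ * W.pull (pR τS τS) b₂) := by
  rw [Weil.compF, map_one, mul_one, map_mul, W.pull_pull, W.pull_pull]
  rfl

omit [CharZero K] in
lemma Weil.compF_step (W : Weil.{u, v, w} k K) (b₁ b₂ : W.H (Yv k q τS)) (j : ιM)
    (Δ : W.H (Yv k q (Sum.elim τM τM))) :
    W.compF b₁ b₂ (W.cl _ {x : (Yv k q (Sum.elim τM τM)).pts |
      co x (Sum.inl j) = co x (Sum.inr j)} * Δ) = W.cl _ (compD τS τM j) * W.compF b₁ b₂ Δ := by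
  rw [Weil.compF, Weil.compF, map_mul, ← W.comp_cl_D, ← mul_assoc,
    ← W.cl_comm (comp_isSub_D j)]
  simp only [mul_assoc]

lemma Weil.comp_claim (W : Weil.{u, v, w} k K) (hc : Fintype.card ιS = Fintype.card ιM)
    {Z : Set (Yv k q (Sum.elim τS τM)).pts} {A : Set (ιS × P2 k)} (hA : A.Finite)
    {B : Set (Yv k q τS).pts} (hB : ∀ s, s ∈ B ↔ ∃ a ∈ A, co s a.1 = a.2)
    {b₁ b₂ : W.H (Yv k q τS)} (hb₁ : b₁ ∈ W.gr _ (Fintype.card ιS))
    (hb₂ : b₂ ∈ W.gr _ (Fintype.card ιS))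
    (hI : ∀ a ∈ A, ∃ γ γ' : Mor (Yv k q τS) (Yv k q τS), (∀ s, γ'.1 (γ.1 s) = s) ∧
      (∀ s, co s a.1 = a.2 → γ.1 s = s) ∧ ∃ c₁ c₂ : K, c₁ ≠ 1 ∧ c₂ ≠ 1 ∧
      W.pull γ b₁ = c₁ • b₁ ∧ W.pull γ b₂ = c₂ • b₂)
    {Γ : Set (Mor (Yv k q τS) (Yv k q τS))} (hΓ : Γ.Finite)
    (hfib : ∀ s s' μ, s ∉ B → s' ∉ B → mkP s μ ∈ Z → mkP s' μ ∈ Z → ∃ γ ∈ Γ, s' = γ.1 s)
    (hgood : ∀ γ ∈ Γ, W.tr _ (b₁ * W.pull γ b₂) = 0 ∨
      W.tr _ (b₁ * W.pull γ b₂) = W.tr _ (b₁ * b₂))
    {D : Set (Yv k q (Sum.elim τS τM)).pts} (hD : IsSub D) (hDd : dim D = Fintype.card ιS)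
    (hDB : ¬ D ⊆ (pL τS τM).1 ⁻¹' B) (hDu : univ ⊆ closure ((pL τS τM).1 '' D))
    (J : Finset ιM) : ∃ Δ : W.H (Yv k q (Sum.elim τM τM)), ∀ C : Set (CompP k q τS τM).pts,
      IsSub C → C ⊆ (compL τS τM).1 ⁻¹' Z ∩ (compR τS τM).1 ⁻¹' Z →
      (∀ j ∉ J, C ⊆ compD τS τM j) → dim C = Fintype.card ιM + J.card →
      ∃ n : ℕ, W.tr _ (W.cl _ C * W.compF b₁ b₂ Δ) = n * W.tr _ (b₁ * b₂) ∧
        ((pair (Mor.id _) (Mor.id _)).1 '' D ⊆ C → 0 < n) := by
  classical
  have hBc := comp_closed_B hA hB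
  have hf := comp_fib_finite hΓ hfib
  have hr := (pair (Mor.id (Yv k q (Sum.elim τS τM))) (Mor.id _)).retr (pL _ _) fun _ => rfl
  have hD0 := hr.isSub hD
  have bd : ∀ (Δ : W.H (Yv k q (Sum.elim τM τM))) (C : Set (CompP k q τS τM).pts), IsSub C →
      C ⊆ compB τM B → ∃ n : ℕ, W.tr _ (W.cl _ C * W.compF b₁ b₂ Δ) = n * W.tr _ (b₁ * b₂) ∧
        ((pair (Mor.id _) (Mor.id _)).1 '' D ⊆ C → 0 < n) := fun Δ C hC hCB => by
    refine ⟨0, by rw [W.comp_boundary hA hB hI Δ hC hCB]; simp, fun h => absurd ?_ hDB⟩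
    intro x hx
    rcases hCB (h ⟨x, hx, rfl⟩) with h1 | h1 <;> exact h1
  induction J using Finset.induction_on with
  | empty =>
    refine ⟨1, fun C hC hCZ hCD hd => ?_⟩
    by_cases hCB : C ⊆ compB τM B
    · exact bd 1 C hC hCB
    rw [Finset.card_empty, add_zero, ← hc] at hd
    rw [W.compF_one]
    by_cases h0 : (pair (Mor.id _) (Mor.id _)).1 '' D ⊆ C
    · have e := eq_of_dim_le hD0 hC h0 (by rw [hr.dim_image]; omega)
      obtain ⟨r, h1, h2⟩ := W.comp_graph (compS τS τM) (Mor.id _) hC hd (by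
        rw [← e]
        rintro _ ⟨_, ⟨x, -, rfl⟩, rfl⟩
        exact ⟨(pL τS τM).1 x, sum_ext rfl rfl⟩) hb₁ hb₂
      refine ⟨r, by rw [h1, W.pull_id (Mor.id _) rfl], fun _ => h2 ?_⟩
      rw [← image_univ]
      refine (image_mono hDu).trans ((image_closure_subset_closure_image
        (pair (Mor.id (Yv k q τS)) (Mor.id _)).continuous).trans (closure_mono ?_))
      rintro _ ⟨_, ⟨x, hx, rfl⟩, rfl⟩
      exact ⟨_, h0 ⟨x, hx, rfl⟩, sum_ext rfl rfl⟩
    · have h1 : C ⊆ compB τM B ∪ ⋃ γ ∈ Γ, {x | ((pL τS τM).comp (compR τS τM)).1 x =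
          (γ.comp ((pL τS τM).comp (compL τS τM))).1 x} := by
        intro x hx
        by_cases hx' : x ∈ compB τM B
        · exact Or.inl hx'
        have e : (pR τS τM).1 ((compL τS τM).1 x) = (pR τS τM).1 ((compR τS τM).1 x) :=
          Yv_ext fun j => hCD j (Finset.notMem_empty j) hx
        obtain ⟨γ, hγ, h2⟩ := hfib ((pL τS τM).1 ((compL τS τM).1 x))
          ((pL τS τM).1 ((compR τS τM).1 x)) ((pR τS τM).1 ((compL τS τM).1 x))
          (fun h => hx' (Or.inl h)) (fun h => hx' (Or.inr h))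
          (by rw [comp_mkP_eta]; exact (hCZ hx).1) (by rw [e, comp_mkP_eta]; exact (hCZ hx).2)
        exact Or.inr (mem_iUnion₂.2 ⟨γ, hγ, h2⟩)
      have hcl : ∀ γ ∈ Γ, IsClosed {x | ((pL τS τM).comp (compR τS τM)).1 x =
          (γ.comp ((pL τS τM).comp (compL τS τM))).1 x} := fun γ _ =>
        isClosed_eq_mor ((pL τS τM).comp (compR τS τM)).2
          (γ.comp ((pL τS τM).comp (compL τS τM))).2
      obtain ⟨γ, hγ, h2⟩ := hC.subset_of_finite hΓ hcl
        ((isPreirreducible_iff_isClosed_union_isClosed.1 hC.1.2 _ _ (comp_closed_bd hBc)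
          (hΓ.isClosed_biUnion hcl) h1).resolve_left hCB)
      obtain ⟨r, h3, -⟩ := W.comp_graph (compS τS τM) γ hC hd (by
        rintro _ ⟨x, hx, rfl⟩
        exact ⟨(pL τS τM).1 ((compL τS τM).1 x), sum_ext rfl (h2 hx).symm⟩) hb₁ hb₂
      rcases hgood γ hγ with h4 | h4
      · exact ⟨0, by rw [h3, h4]; simp, fun h => absurd h h0⟩
      · exact ⟨r, by rw [h3, h4], fun h => absurd h h0⟩
  | insert j J hj ih =>
    obtain ⟨Δ, ih⟩ := ih
    refine ⟨W.cl _ {x : (Yv k q (Sum.elim τM τM)).pts | co x (Sum.inl j) = co x (Sum.inr j)} * Δ,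
      fun C hC hCZ hCD hd => ?_⟩
    by_cases hCB : C ⊆ compB τM B
    · exact bd _ C hC hCB
    rw [Finset.card_insert_of_notMem hj] at hd
    have hCj : ¬ C ⊆ compD τS τM j := fun h => by
      have := W.comp_ub2 hBc hf J hC hCZ (fun i hi => by
        by_cases hij : i = j
        · exact hij ▸ h
        · exact hCD i (by simp [hij, hi])) hCB
      omega
    have d1 : dim (compD (k := k) (q := q) τS τM j) + 1 = Fintype.card ((ιS ⊕ ιM) ⊕ (ιS ⊕ ιM)) :=
      W.dim_co_co (by simp) rfl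
    have d2 : (CompP k q τS τM).d = Fintype.card ((ιS ⊕ ιM) ⊕ (ιS ⊕ ιM)) := W.d_Yv _
    have hp : ∀ E, IsSub E → E ⊆ C ∩ compD τS τM j →
        dim E + (CompP k q τS τM).d ≤ dim C + dim (compD (k := k) (q := q) τS τM j) :=
      fun E hE hEC => by
        have := dim_lt hE hC ⟨hEC.trans inter_subset_left,
          fun h => hCj (h.trans (hEC.trans inter_subset_right))⟩
        omega
    obtain ⟨s, μ, h1, h2, -, h3⟩ := W.proper _ C _ hC (comp_isSub_D j) hp
    obtain ⟨n, h4, h5⟩ := comp_sum s (fun E => W.tr _ (μ E • W.cl _ E * W.compF b₁ b₂ Δ))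
      (fun E => (pair (Mor.id _) (Mor.id _)).1 '' D ⊆ E) (W.tr _ (b₁ * b₂)) fun E hE => by
        have hE' := (h1 E).1 hE
        have d3 : dim E + (CompP k q τS τM).d =
            dim C + dim (compD (k := k) (q := q) τS τM j) :=
          W.proper_dim hC (comp_isSub_D j) hp hE'
        obtain ⟨n, h4, h5⟩ := ih E hE'.1.1 ((hE'.1.2.trans inter_subset_left).trans hCZ)
          (fun i hi => by
            by_cases hij : i = j
            · exact hij ▸ hE'.1.2.trans inter_subset_right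
            · exact (hE'.1.2.trans inter_subset_left).trans (hCD i (by simp [hij, hi])))
          (by omega)
        refine ⟨μ E * n, ?_, fun h => Nat.mul_pos (h2 E hE) (h5 h)⟩
        rw [smul_mul_assoc, map_nsmul, h4, nsmul_eq_mul, Nat.cast_mul, mul_assoc]
    refine ⟨n, ?_, fun h => h5 ?_⟩
    · rw [W.compF_step, ← mul_assoc, h3, Finset.sum_mul, map_sum, h4]
    · obtain ⟨E, hE, h6⟩ := exists_isComp (S := C ∩ compD τS τM j) hD0 (subset_inter h (by
        rintro _ ⟨x, -, rfl⟩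
        rfl))
      exact ⟨E, (h1 E).2 hE, h6⟩

end

theorem Weil.composition (W : Weil.{u, v, w} k K) {ιS ιM : Type} [Fintype ιS] [Fintype ιM] {τS : ιS → Bool} {τM : ιM → Bool} (hc : Fintype.card ιS = Fintype.card ιM) (Z : Set (Yv k q (Sum.elim τS τM)).pts) (hZ : IsClosed Z) (A : Set (ιS × P2 k)) (hA : A.Finite) (B : Set (Yv k q τS).pts) (hB : ∀ s, s ∈ B ↔ ∃ a ∈ A, co s a.1 = a.2) (b₁ b₂ : W.H (Yv k q τS)) (hb₁ : b₁ ∈ W.gr _ (Fintype.card ιS)) (hb₂ : b₂ ∈ W.gr _ (Fintype.card ιS)) (hb : W.tr _ (b₁ * b₂) ≠ 0) (hI : ∀ a ∈ A, ∃ γ γ' : Mor (Yv k q τS) (Yv k q τS), (∀ s, γ'.1 (γ.1 s) = s) ∧ (∀ s, co s a.1 = a.2 → γ.1 s = s) ∧ ∃ c₁ c₂ : K, c₁ ≠ 1 ∧ c₂ ≠ 1 ∧ W.pull γ b₁ = c₁ • b₁ ∧ W.pull γ b₂ = c₂ • b₂) (Γ : Set (Mor (Yv k q τS) (Yv k q τS))) (hΓ : Γ.Finite) (hfib : ∀ s s' μ, s ∉ B → s' ∉ B → mkP s μ ∈ Z → mkP s' μ ∈ Z → ∃ γ ∈ Γ, s' = γ.1 s) (hgood : ∀ γ ∈ Γ, W.tr _ (b₁ * W.pull γ b₂) = 0 ∨ W.tr _ (b₁ * W.pull γ b₂) = W.tr _ (b₁ * b₂)) (hsurj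 : ∀ s, s ∉ B → ∃ μ, mkP s μ ∈ Z) : ∃ ζ ∈ W.Alg (Yv k q (Sum.elim τS τM)), (∀ γ γ' : Mor (Yv k q (Sum.elim τS τM)) (Yv k q (Sum.elim τS τM)), (∀ x, γ'.1 (γ.1 x) = x) → (∀ x, γ.1 (γ'.1 x) = x) → (∀ x, γ.1 x ∈ Z ↔ x ∈ Z) → (∀ x, (pL τS τM).1 (γ.1 x) ∈ B ↔ (pL τS τM).1 x ∈ B) → ∀ y, W.tr _ (ζ * W.pull γ y) = W.tr _ (ζ * y)) ∧ ∃ c, W.tr _ (ζ * (W.pull (pL τS τM) b₁ * W.pull (pR τS τM) c)) ≠ 0 := by
  classical
  have hBc := comp_closed_B hA hB
  have hf := comp_fib_finite hΓ hfib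
  have hfin : {C | IsSub C ∧ C ⊆ Z ∧ dim C = Fintype.card ιM ∧
      ¬ C ⊆ (pL τS τM).1 ⁻¹' B}.Finite := by
    refine (finite_isComp hZ).subset fun C hC => ⟨⟨hC.1, hC.2.1⟩, fun E hE hCE => ?_⟩
    have h1 := W.comp_ub1 hBc hf hE.1 hE.2 fun h => hC.2.2.2 (Subset.trans hCE h)
    exact (eq_of_dim_le hC.1 hE.1 hCE (hC.2.2.1 ▸ h1)).ge
  obtain ⟨T, hT⟩ : ∃ T : Finset (Set (Yv k q (Sum.elim τS τM)).pts), ∀ C, C ∈ T ↔
      IsSub C ∧ C ⊆ Z ∧ dim C = Fintype.card ιM ∧ ¬ C ⊆ (pL τS τM).1 ⁻¹' B :=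
    ⟨hfin.toFinset, fun C => hfin.mem_toFinset⟩
  have hζ : ∑ C ∈ T, W.cl _ C ∈ W.Alg (Yv k q (Sum.elim τS τM)) :=
    sum_mem fun C hC => W.cl_mem_Alg ((hT C).1 hC).1
  refine ⟨∑ C ∈ T, W.cl _ C, hζ, fun γ γ' h1 h2 h3 h4 y => ?_, ?_⟩
  · have key : ∀ g g' : Mor (Yv k q (Sum.elim τS τM)) (Yv k q (Sum.elim τS τM)),
        (∀ x, g'.1 (g.1 x) = x) → (∀ x, x ∈ Z → g.1 x ∈ Z) →
        (∀ x, (pL τS τM).1 (g.1 x) ∈ B → (pL τS τM).1 x ∈ B) → ∀ C ∈ T, g.1 '' C ∈ T := by
      intro g g' e1 e2 e3 C hC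
      obtain ⟨c1, c2, c3, c4⟩ := (hT C).1 hC
      have hr := g.retr g' e1
      refine (hT _).2 ⟨hr.isSub c1, ?_, (hr.dim_image C).trans c3,
        fun h => c4 fun x hx => e3 x (h ⟨x, hx, rfl⟩)⟩
      rintro _ ⟨x, hx, rfl⟩
      exact e2 x (c2 hx)
    rw [Finset.sum_mul, Finset.sum_mul, map_sum, map_sum]
    refine Finset.sum_nbij' (fun C => γ.1 '' C) (fun C => γ'.1 '' C)
      (key γ γ' h1 (fun x => (h3 x).2) fun x => (h4 x).1)
      (key γ' γ h2 (fun x hx => (h3 _).1 (by rw [h2]; exact hx))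
        fun x hx => by have := (h4 _).2 hx; rwa [h2] at this)
      (fun C _ => by simp [image_image, h1]) (fun C _ => by simp [image_image, h2])
      fun C hC => W.push_retr γ γ' h1 ((hT C).1 hC).1 y
  · obtain ⟨D, hD, hDZ, hDd, hDB, hDu⟩ := W.comp_dominant hc hZ hBc (comp_B_ne hA hB) hf hsurj
    have hDT : D ∈ T := (hT D).2 ⟨hD, hDZ, hDd.trans hc, hDB⟩
    obtain ⟨Δ, hΔ⟩ := W.comp_claim hc hA hB hb₁ hb₂ hI hΓ hfib hgood hD hDd hDB hDu Finset.univ
    obtain ⟨n, h1, h2⟩ := comp_sum (T ×ˢ T) (fun p => W.tr _ (W.pull (compL τS τM) (W.cl _ p.1) *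
      W.pull (compR τS τM) (W.cl _ p.2) * W.compF b₁ b₂ Δ)) (fun p => p = (D, D))
      (W.tr _ (b₁ * b₂)) fun p hp => by
        obtain ⟨c1, c2, c3, -⟩ := (hT p.1).1 (Finset.mem_product.1 hp).1
        obtain ⟨e1, e2, e3, -⟩ := (hT p.2).1 (Finset.mem_product.1 hp).2
        obtain ⟨n, h1, h2⟩ := hΔ _ (isSub_prod c1 e1)
          (inter_subset_inter (preimage_mono c2) (preimage_mono e2))
          (fun j hj => absurd (Finset.mem_univ j) hj)
          (by rw [W.dim_prod c1 e1, c3, e3, Finset.card_univ])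
        rw [W.cl_prod _ _ (isProd_sum _ _) _ _ c1 e1] at h1
        refine ⟨n, h1, fun h => h2 ?_⟩
        rw [h]
        rintro _ ⟨x, hx, rfl⟩
        exact ⟨hx, hx⟩
    have h3 := h2 ⟨(D, D), Finset.mk_mem_product hDT hDT, rfl⟩
    have h4 : W.tr _ (W.pull (compL τS τM) (∑ C ∈ T, W.cl _ C) *
        W.pull (compR τS τM) (∑ C ∈ T, W.cl _ C) * W.compF b₁ b₂ Δ) ≠ 0 := by
      rw [map_sum, map_sum, Finset.sum_mul_sum, ← Finset.sum_product', Finset.sum_mul, map_sum, h1]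
      exact mul_ne_zero (by exact_mod_cast h3.ne') hb
    generalize ∑ C ∈ T, W.cl _ C = ζ at hζ h4 ⊢
    by_contra hne
    push Not at hne
    have h5 := W.prod_span (isProd_sum τM τM) (LinearMap.ker (W.tr _ ∘ₗ
      LinearMap.mulLeft K (W.pull (compL τS τM) ζ * W.pull (compR τS τM) ζ) ∘ₗ
      LinearMap.mulRight K (W.pull ((pL τS τM).comp (compR τS τM)) b₂) ∘ₗ
      LinearMap.mulLeft K (W.pull ((pL τS τM).comp (compL τS τM)) b₁) ∘ₗ
      (W.pull (compM τS τM)).toLinearMap)) fun c c' => by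
        have e := W.tr_prod (isProd_sum (Sum.elim τS τM) (Sum.elim τS τM))
          (ζ * (W.pull (pL τS τM) b₁ * W.pull (pR τS τM) c))
          (ζ * (W.pull (pR τS τM) c' * W.pull (pL τS τM) b₂))
        rw [hne, zero_mul] at e
        refine Eq.trans ?_ e
        show W.tr _ (W.pull (compL τS τM) ζ * W.pull (compR τS τM) ζ *
          (W.pull ((pL τS τM).comp (compL τS τM)) b₁ * W.pull (compM τS τM)
            (W.pull (pL τM τM) c * W.pull (pR τM τM) c') *
          W.pull ((pL τS τM).comp (compR τS τM)) b₂)) = W.tr _ (W.pull (compL τS τM)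
            (ζ * (W.pull (pL τS τM) b₁ * W.pull (pR τS τM) c)) * W.pull (compR τS τM)
            (ζ * (W.pull (pR τS τM) c' * W.pull (pL τS τM) b₂)))
        have hcm := W.Alg_comm (W.pull_mem_Alg (compR τS τM) hζ)
          (W.pull ((pL τS τM).comp (compL τS τM)) b₁ * W.pull ((pR τS τM).comp (compL τS τM)) c)
        simp only [map_mul, W.pull_pull]
        rw [W.pull_congr (f := (pL τM τM).comp (compM τS τM))
          (g := (pR τS τM).comp (compL τS τM)) (fun _ => rfl),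
          W.pull_congr (f := (pR τM τM).comp (compM τS τM))
          (g := (pR τS τM).comp (compR τS τM)) (fun _ => rfl)]
        have key : ∀ x y a a' e e' : W.H (CompP k q τS τM), y * (a * a') = a * a' * y →
            x * y * (a * (a' * e) * e') = x * (a * a') * (y * (e * e')) := by
          intro x y a a' e e' h
          calc x * y * (a * (a' * e) * e') = x * (y * (a * a')) * (e * e') := by
                simp only [mul_assoc]
            _ = _ := by rw [h]; simp only [mul_assoc]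
        exact congrArg _ (key _ _ _ _ _ _ hcm)
    have h6 : Δ ∈ (⊤ : Submodule K _) := Submodule.mem_top
    rw [← h5] at h6
    exact h4 h6

end Pool.Agent.MP_0c8446_ag

end
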