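import Pool.Agent.Mg.F0c8446.G8ddf14
import Pool.Agent.Mg.F0c8446.G3fba77
import Pool.Agent.Mg.F0c8446.Gad5052
import Pool.Agent.Mg.F0c8446.G3719a6
import Pool.Agent.Mg.F0c8446.Gab55ec

section

namespace Pool.Agent.MP_0c8446_ag

open Set

universe u v w

set_option linter.unusedSectionVars false

section aux

open MvPolynomial Topology

lemma fv_chain_push {X Y : Type u} [TopologicalSpace X] [TopologicalSpace Y] {j : X → Y}
    (hj : Continuous j) (hc : ∀ C, IsClosed C → j ⁻¹' closure (j '' C) ⊆ C) {r : ℕ}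
    (h : HasChain (univ : Set X) r) : HasChain (closure (range j)) r := by
  obtain ⟨C, h1, h2⟩ := h
  refine ⟨fun i => closure (j '' C i), fun a b hab => ?_, fun i =>
    ⟨(h2 i).1.image_closure hj, closure_mono (image_subset_range _ _)⟩⟩
  refine lt_of_le_of_ne (closure_mono (image_mono (h1 hab).le)) fun e => (h1 hab).not_ge ?_
  intro x hx
  refine hc _ (h2 a).1.2 ?_
  have e' : closure (j '' C a) = closure (j '' C b) := e
  rw [mem_preimage, e']
  exact subset_closure (mem_image_of_mem j hx)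

variable {k : Type u} [Field k]

/-- A surjective morphism given by forms of one degree. -/
lemma fv_exists_mor {N N' : ℕ} {S : Set (MP k fun _ : Unit => N)}
    {T : Set (MP k fun _ : Unit => N')}
    (F : Vars (fun _ : Unit => N') → MvPolynomial (Vars fun _ : Unit => N) k) (d : ℕ)
    (hh : ∀ a (t : k) v, eval (fun b => t * v b) (F a) = t ^ d * eval v (F a))
    (h0 : ∀ x ∈ S, ∃ v, IsRep v x ∧ ∃ y ∈ T, IsRep (fun a => eval v (F a)) y) :
    ∃ φ : S → T, IsMor φ ∧ ∀ (x : S) v, IsRep v x.1 → IsRep (fun a => eval v (F a)) (φ x).1 := by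
  choose v hv y hy hr using h0
  have key : ∀ (x : S) w, IsRep w x.1 → IsRep (fun a => eval w (F a)) (y x.1 x.2) := by
    intro x w hw
    obtain ⟨t, ht, rfl⟩ := (hv x.1 x.2).exists_smul hw
    have := (hr x.1 x.2).smul (fun _ => t () ^ d) fun _ => pow_ne_zero _ (ht ())
    simpa only [← hh] using this
  exact ⟨fun x => ⟨y x.1 x.2, hy x.1 x.2⟩, isMor_of_global F key, key⟩

/-- The coordinates of a projective space. -/
def fvE (N : ℕ) : Fin (N + 1) ≃ Vars fun _ : Unit => N where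
  toFun s := ⟨(), s⟩
  invFun a := a.2
  left_inv _ := rfl
  right_inv _ := rfl

/-- The equation of the Fermat hypersurface. -/
noncomputable def fvG (k : Type u) [Field k] (m n : ℕ) :
    MvPolynomial (Vars fun _ : Unit => n + 2) k := ∑ s : Fin (n + 3), X ⟨(), s⟩ ^ m

lemma fvG_eval (m n : ℕ) (v : (Vars fun _ : Unit => n + 2) → k) :
    eval v (fvG k m n) = ∑ s : Fin (n + 3), v ⟨(), s⟩ ^ m := by
  simp [fvG]

lemma fv_mem {m n : ℕ} {v : (Vars fun _ : Unit => n + 2) → k} {x : MP k fun _ : Unit => n + 2}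
    (hv : IsRep v x) : x ∈ fermat k m n ↔ ∑ s : Fin (n + 3), v ⟨(), s⟩ ^ m = 0 := by
  obtain ⟨t, ht, rfl⟩ := (isRep_rep x).exists_smul hv
  simp only [mul_pow, ← Finset.mul_sum, mul_eq_zero, pow_eq_zero_iff', ht (), false_and, false_or]
  rfl

lemma fv_eq (m n : ℕ) : fermat k m n = {x | Vanish (fvG k m n) x} := by
  ext x
  exact ⟨fun h v hv => (fvG_eval m n v).trans ((fv_mem hv).1 h), fun h =>
    (fv_mem (isRep_rep x)).2 ((fvG_eval m n _).symm.trans (h _ (isRep_rep x)))⟩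

lemma fv_isClosed (m n : ℕ) : IsClosed (fermat k m n) := fv_eq (k := k) m n ▸ isClosed_vanish _

lemma fv_pos {m : ℕ} (hm : (m : k) ≠ 0) : 0 < m :=
  Nat.pos_of_ne_zero fun e => hm (by rw [e, Nat.cast_zero])

lemma fv_sum_pt {m : ℕ} (hm : 0 < m) {ε : k} (hε : ε ^ m = -1) (n : ℕ) :
    ∑ s : Fin (n + 2), (Fin.cons 1 (Fin.cons ε 0) : Fin (n + 2) → k) s ^ m = 0 := by
  simp [Fin.sum_univ_succ, hε, hm.ne']

lemma fv_rep {N : ℕ} {w : Fin (N + 1) → k} (h : w ≠ 0) :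
    IsRep (fun a : Vars fun _ : Unit => N => w a.2)
      (ambPt (fun a : Vars fun _ : Unit => N => w a.2) fun _ => h) := amb_isRep _ _

variable [IsAlgClosed k]

lemma fvG_prime {m : ℕ} (hm : (m : k) ≠ 0) (n : ℕ) : Prime (fvG k m n) := by
  have h0 := fv_pos hm
  obtain ⟨ε, hε⟩ := IsAlgClosed.exists_pow_nat_eq (-1 : k) h0
  have e0 : fvG k m n = renameEquiv k (fvE (n + 2)) (∑ s : Fin (n + 3), X s ^ m) := by
    simp [fvG, fvE]
  rw [e0]
  refine ((MulEquiv.irreducible_iff (renameEquiv k (fvE (n + 2)))).2 ?_).prime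
  rw [← MulEquiv.irreducible_iff (finSuccEquiv k (n + 2))]
  have e : finSuccEquiv k (n + 2) (∑ s : Fin (n + 3), X s ^ m) =
      Polynomial.C 1 * Polynomial.X ^ m + Polynomial.C (∑ s : Fin (n + 2), X s ^ m) := by
    rw [Fin.sum_univ_succ]
    simp only [map_add, map_pow, map_sum, finSuccEquiv_X_zero, finSuccEquiv_X_succ, map_one,
      one_mul]
  rw [e]
  refine cirr_eis (Fin.cons 1 (Fin.cons ε 0)) 0 h0 (by simp) ?_ ?_ fun r h1 _ =>
    isUnit_of_dvd_one h1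
  · simpa only [map_sum, map_pow, eval_X] using fv_sum_pt h0 hε n
  · rw [Fin.sum_univ_succ]
    simp [Derivation.leibniz_pow, pderiv_X, hm, Fin.succ_ne_zero]

lemma fv_vI {m : ℕ} (hm : (m : k) ≠ 0) (n : ℕ) : vI (fermat k m n) = Ideal.span {fvG k m n} := by
  have hp : (Ideal.span {fvG k m n}).IsPrime :=
    (Ideal.span_singleton_prime (fvG_prime hm n).ne_zero).2 (fvG_prime hm n)
  refine le_antisymm (fun g hg => ?_) ?_
  · have h1 : g * X ⟨(), 0⟩ ∈ vanishingIdeal k (zeroLocus k (Ideal.span {fvG k m n})) := by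
      intro v hv
      have hv' : eval v (fvG k m n) = 0 := hv _ (Ideal.mem_span_singleton_self _)
      show eval v _ = 0
      rw [map_mul, eval_X]
      by_cases h2 : v ⟨(), 0⟩ = 0
      · rw [h2, mul_zero]
      · have hr := amb_isRep v fun _ h => h2 (congrFun h 0)
        rw [hg _ ((fv_mem hr).2 ((fvG_eval m n v).symm.trans hv')) v hr, zero_mul]
    rw [vanishingIdeal_zeroLocus_eq_radical, hp.radical] at h1
    refine (hp.mem_or_mem h1).resolve_right fun h2 => ?_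
    obtain ⟨ε, hε⟩ := IsAlgClosed.exists_pow_nat_eq (-1 : k) (fv_pos hm)
    have h3 := map_dvd (eval fun a : Vars fun _ : Unit => n + 2 =>
      (Fin.cons 1 (Fin.cons ε 0) : Fin (n + 3) → k) a.2) (Ideal.mem_span_singleton.1 h2)
    rw [fvG_eval, fv_sum_pt (fv_pos hm) hε (n + 1), eval_X, zero_dvd_iff] at h3
    exact one_ne_zero h3
  · rw [Ideal.span_le, singleton_subset_iff, fv_eq]
    exact fun x hx => hx

lemma fv_isSub {m : ℕ} (hm : (m : k) ≠ 0) (n : ℕ) : IsSub (fermat k m n) := by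
  refine ⟨isIrreducible_of_prime ?_, fv_isClosed m n⟩
  rw [fv_vI hm]
  exact (Ideal.span_singleton_prime (fvG_prime hm n).ne_zero).2 (fvG_prime hm n)

lemma fv_isSub_univ {m : ℕ} (hm : (m : k) ≠ 0) (n : ℕ) : IsSub (univ : Set (fermat k m n)) := by
  refine ⟨?_, isClosed_univ⟩
  have := Subtype.irreducibleSpace (fv_isSub hm n).1
  exact IrreducibleSpace.isIrreducible_univ _

lemma fv_dim_le {m : ℕ} (hm : (m : k) ≠ 0) (n : ℕ) :
    dim (univ : Set (fermat k m n)) ≤ n + 1 := by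
  have h1 := IsClosedEmbedding.inclusion (subset_univ (fermat k m n))
    ((fv_isClosed m n).preimage continuous_subtype_val)
  rw [← amb_dim_image h1, image_univ, range_inclusion]
  have h2 : dim (Subtype.val ⁻¹' fermat k m n : Set (amb k fun _ : Unit => n + 2).pts) <
      (amb k fun _ : Unit => n + 2).d := by
    refine dim_lt (amb_isSub_preimage (fv_isSub hm n)) (amb k _).isSub_univ
      ⟨subset_univ _, fun h => ?_⟩
    have h0 : (Fin.cons 1 0 : Fin (n + 3) → k) ≠ 0 := fun e => one_ne_zero (congrFun e 0)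
    have h4 : ∀ x, x ∈ fermat k m n := fun x => h (a := ⟨x, trivial⟩) trivial
    have h3 := (fv_mem (fv_rep h0)).1 (h4 _)
    simp [Fin.sum_univ_succ, (fv_pos hm).ne'] at h3
  rw [d_amb] at h2
  simp only [Finset.univ_unique, Finset.sum_singleton] at h2
  exact Nat.lt_succ_iff.1 h2

/-- a point of the hypersurface on which a given coordinate does not vanish -/
lemma fv_exists_pt {m : ℕ} (hm : (m : k) ≠ 0) (n : ℕ) (s : Fin (n + 3)) :
    ∃ x : fermat k m n, ¬ Vanish (X ⟨(), s⟩) x.1 := by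
  obtain ⟨ε, hε⟩ := IsAlgClosed.exists_pow_nat_eq (-1 : k) (fv_pos hm)
  have h1 : (Fin.cons 1 (Fin.cons ε 0) : Fin (n + 3) → k) ∘ Equiv.swap 0 s ≠ 0 := fun e => by
    simpa using congrFun e s
  refine ⟨⟨_, (fv_mem (fv_rep h1)).2 ?_⟩, fun h => ?_⟩
  · exact (Equiv.sum_comp (Equiv.swap 0 s) fun t =>
      (Fin.cons 1 (Fin.cons ε 0) : Fin (n + 3) → k) t ^ m).trans (fv_sum_pt (fv_pos hm) hε (n + 1))
  · simpa using h _ (fv_rep h1)

lemma fv_chain_zero {m : ℕ} (hm : (m : k) ≠ 0) : HasChain (univ : Set (fermat k m 0)) 1 := by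
  obtain ⟨ε, hε⟩ := IsAlgClosed.exists_pow_nat_eq (-1 : k) (fv_pos hm)
  have h1 : (Fin.cons 1 (Fin.cons ε 0) : Fin 3 → k) ≠ 0 := fun e => one_ne_zero (congrFun e 0)
  let x : fermat k m 0 := ⟨_, (fv_mem (fv_rep h1)).2 (fv_sum_pt (fv_pos hm) hε 1)⟩
  refine ((isSub_singleton x).hasChain_zero subset_rfl).succ ⟨subset_univ _, fun h => ?_⟩
    (fv_isSub_univ hm 0)
  obtain ⟨y, hy⟩ := fv_exists_pt hm 0 2
  have e : y = x := h (mem_univ y)
  refine hy fun v hv => ?_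
  rw [e] at hv
  obtain ⟨t, -, rfl⟩ := (fv_rep h1).exists_smul hv
  rw [eval_X]
  exact mul_zero _

lemma fv_chain_succ {m : ℕ} (hm : (m : k) ≠ 0) {n r : ℕ}
    (h : HasChain (univ : Set (fermat k m n)) r) :
    HasChain (univ : Set (fermat k m (n + 1))) (r + 1) := by
  let F : Vars (fun _ : Unit => n + 1 + 2) → MvPolynomial (Vars fun _ : Unit => n + 2) k :=
    fun a => (Fin.snoc (fun s : Fin (n + 3) => X ⟨(), s⟩) 0 :
      Fin (n + 4) → MvPolynomial (Vars fun _ : Unit => n + 2) k) a.2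
  have F1 : ∀ s : Fin (n + 3), F ⟨(), s.castSucc⟩ = X ⟨(), s⟩ := fun s => Fin.snoc_castSucc ..
  have F2 : F ⟨(), Fin.last (n + 3)⟩ = 0 := Fin.snoc_last ..
  obtain ⟨j, hj, hr⟩ := fv_exists_mor (S := fermat k m n) (T := fermat k m (n + 1)) F 1
    (fun a t v => by
      obtain ⟨⟨⟩, s⟩ := a
      refine Fin.lastCases (motive := fun s : Fin (n + 4) =>
        eval (fun b => t * v b) (F ⟨(), s⟩) = t ^ 1 * eval v (F ⟨(), s⟩)) ?_ (fun s => ?_) s
      · rw [F2, map_zero, map_zero, mul_zero]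
      · rw [F1, eval_X, eval_X, pow_one])
    (fun x hx => by
      have h0 : ∀ i : Unit, (fun s => eval x.rep (F ⟨i, s⟩)) ≠ 0 := fun _ e =>
        (x ()).rep_nonzero (funext fun s => by
          have := congrFun e (Fin.castSucc s)
          rwa [F1, eval_X] at this)
      refine ⟨_, isRep_rep x, _, (fv_mem (amb_isRep (fun a => eval x.rep (F a)) h0)).2 ?_,
        amb_isRep _ h0⟩
      rw [Fin.sum_univ_castSucc]
      simp only [F1, F2, eval_X, map_zero, zero_pow (fv_pos hm).ne', add_zero]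
      exact hx)
  have hc : ∀ C, IsClosed C → j ⁻¹' closure (j '' C) ⊆ C := by
    intro C hC x hx
    rw [← hC.closure_eq]
    refine closure_subtype.2 (mem_closure_vI.2 fun f hf v hv => ?_)
    let g : MvPolynomial (Vars fun _ : Unit => n + 1 + 2) k :=
      rename (fun a => ⟨(), Fin.castSucc a.2⟩) f
    have hg : ∀ w : (Vars fun _ : Unit => n + 2) → k, eval (fun a => eval w (F a)) g = eval w f := by
      intro w
      rw [eval_rename]
      congr 2
      funext a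
      exact (congrArg (eval w) (F1 a.2)).trans (eval_X _)
    have h1 := mem_closure_vI.1 (closure_subtype.1 hx) g (by
      rintro _ ⟨_, ⟨y, hy, rfl⟩, rfl⟩
      rw [vanish_iff_orb (hr y _ (isRep_rep y.1))]
      have h2 := (vanish_iff_orb (isRep_rep y.1) f).1 (hf _ ⟨y, hy, rfl⟩)
      refine MvPolynomial.funext fun t => ?_
      have h3 := eval_orb y.1.rep t f
      rw [h2] at h3
      rw [eval_orb, h3, eval_rename]
      congr 2
      funext a
      exact congrArg (t () * ·) ((congrArg (eval y.1.rep) (F1 a.2)).trans (eval_X _)))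
    rw [← hg]
    exact h1 _ (hr x v hv)
  refine (fv_chain_push hj.continuous hc h).succ ⟨subset_univ _, fun h1 => ?_⟩
    (fv_isSub_univ hm (n + 1))
  obtain ⟨y, hy⟩ := fv_exists_pt hm (n + 1) (Fin.last (n + 3))
  have h2 : closure (range j) ⊆ Subtype.val ⁻¹' {x | Vanish (X ⟨(), Fin.last (n + 3)⟩) x} := by
    refine closure_minimal ?_ ((isClosed_vanish _).preimage continuous_subtype_val)
    rintro _ ⟨x, rfl⟩ v hv
    obtain ⟨t, -, rfl⟩ := (hr x _ (isRep_rep x.1)).exists_smul hv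
    rw [eval_X, F2, map_zero, mul_zero]
  exact hy (h2 (h1 (mem_univ y)))

lemma fv_chain {m : ℕ} (hm : (m : k) ≠ 0) (n : ℕ) :
    HasChain (univ : Set (fermat k m n)) (n + 1) := by
  induction n with
  | zero => exact fv_chain_zero hm
  | succ n ih => exact fv_chain_succ hm ih

omit [IsAlgClosed k] in
lemma fv_tangent {m : ℕ} (hm : (m : k) ≠ 0) {n : ℕ} {x : MP k fun _ : Unit => n + 2}
    {v : (Vars fun _ : Unit => n + 2) → k} (hv : IsRep v x) :
    Module.finrank k (tangent (fermat k m n) v) ≤ n + 2 := by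
  classical
  let L := Fintype.linearCombination k fun s => eval v (pderiv s (fvG k m n))
  have h1 : tangent (fermat k m n) v ≤ LinearMap.ker L :=
    iInf₂_le_of_le (fvG k m n) (fun y hy => (fv_eq m n).subset hy) le_rfl
  have h2 : L ≠ 0 := by
    obtain ⟨s, hs⟩ := Function.ne_iff.1 (hv ()).1
    have hs' : v ⟨(), s⟩ ≠ 0 := hs
    intro e
    have h3 := LinearMap.congr_fun e (Pi.single ⟨(), s⟩ 1)
    rw [Fintype.linearCombination_apply_single, one_smul, fvG, map_sum, map_sum,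
      Finset.sum_eq_single s] at h3
    · simp [Derivation.leibniz_pow, hm, hs'] at h3
    · intro t _ ht
      have : (⟨(), t⟩ : Vars fun _ : Unit => n + 2) ≠ ⟨(), s⟩ := fun e =>
        ht ((fvE (n + 2)).injective e)
      simp [Derivation.leibniz_pow, pderiv_X, this]
    · exact fun h => absurd (Finset.mem_univ s) h
  have h3 := Module.Dual.finrank_ker_add_one_of_ne_zero h2
  rw [Module.finrank_fintype_fun_eq_card, amb_card] at h3
  simp only [Finset.univ_unique, Finset.sum_singleton, Fintype.card_unique] at h3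
  have h4 := Submodule.finrank_mono h1
  omega

omit [IsAlgClosed k] in
lemma fv_rep3 {x y z : k} (h : ![x, y, z] ≠ 0) :
    IsRep (fun a : Vars fun _ : Unit => 2 => (![x, y, z] : Fin 3 → k) a.2) fun _ => pt3 x y z :=
  fun _ => ⟨h, (pt3_eq h).symm⟩

omit [IsAlgClosed k] in
lemma fv_trace (q r : ℕ) [IsQ k q] (y : k) :
    (∑ i ∈ Finset.range r, y ^ q ^ i) ^ q - ∑ i ∈ Finset.range r, y ^ q ^ i = y ^ q ^ r - y := by
  have h := map_sum (frobHom k q) (fun i => y ^ q ^ i) (Finset.range r)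
  simp only [frobHom_apply, ← pow_mul, ← pow_succ] at h
  rw [h, ← Finset.sum_sub_distrib, Finset.sum_range_sub (fun i => y ^ q ^ i), pow_zero, pow_one]

lemma fv_trace_surj (q : ℕ) [h : IsQ k q] {r : ℕ} (hr : r ≠ 0) (y : k) :
    ∃ b : k, ∑ i ∈ Finset.range r, b ^ q ^ i = y := by
  obtain ⟨r, rfl⟩ := Nat.exists_eq_succ_of_ne_zero hr
  let p : Polynomial k := ∑ i ∈ Finset.range (r + 1), Polynomial.X ^ q ^ i - Polynomial.C y
  have hd : Polynomial.derivative p = 1 := by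
    simp [p, Finset.sum_range_succ', Polynomial.derivative_X_pow, h.cast]
  obtain ⟨b, hb⟩ := IsAlgClosed.exists_root p fun e => by
    rw [Polynomial.eq_C_of_degree_eq_zero e, Polynomial.derivative_C] at hd
    exact zero_ne_one hd
  refine ⟨b, ?_⟩
  simpa [p, Polynomial.eval_finsetSum, sub_eq_zero] using hb

end aux

variable {k : Type u} [Field k] [IsAlgClosed k] {K : Type v} [Field K] [CharZero K]

theorem isSub_fermat {m : ℕ} (hm : (m : k) ≠ 0) (n : ℕ) : IsSub (fermat k m n) := fv_isSub hm n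

theorem dim_fermat {m : ℕ} (hm : (m : k) ≠ 0) (n : ℕ) :
    dim (univ : Set (fermat k m n)) = n + 1 :=
  le_antisymm (fv_dim_le hm n) (fv_chain hm n).le_dim

/-- The Fermat hypersurface as a variety. -/
noncomputable def Fv (k : Type u) [Field k] [IsAlgClosed k] (m n : ℕ) (hm : (m : k) ≠ 0) :
    Var k where
  ι := Unit
  n := fun _ => n + 2
  pts := fermat k m n
  sub := isSub_fermat hm n
  smooth := fun _ _ _ hv => (fv_tangent hm hv).trans (by
    rw [dim_fermat hm n, Fintype.card_unique])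

theorem d_Fv {m : ℕ} (hm : (m : k) ≠ 0) (n : ℕ) : (Fv k m n hm).d = n + 1 := dim_fermat hm n

theorem exists_dom_fermat {m m' : ℕ} (hm : (m : k) ≠ 0) (hm' : (m' : k) ≠ 0) (h : m ∣ m') (n : ℕ) :
    ∃ φ : Mor (Fv k m' n hm') (Fv k m n hm), Function.Surjective φ.1 := by
  obtain ⟨c, rfl⟩ := h
  have hc : 0 < c := Nat.pos_of_ne_zero fun e => hm' (by rw [e, mul_zero, Nat.cast_zero])
  obtain ⟨φ, h1, h2⟩ := fv_exists_mor (S := fermat k (m * c) n) (T := fermat k m n)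
    (fun a => MvPolynomial.X a ^ c) c (fun a t v => by simp [mul_pow]) fun x hx => by
      have h0 : ∀ i : Unit, (fun s => MvPolynomial.eval x.rep
          (MvPolynomial.X (⟨i, s⟩ : Vars fun _ : Unit => n + 2) ^ c)) ≠ 0 := fun _ e =>
        (x ()).rep_nonzero (funext fun s => by
          have := congrFun e s
          rw [map_pow, MvPolynomial.eval_X] at this
          exact pow_eq_zero_iff hc.ne' |>.1 this)
      refine ⟨_, isRep_rep x, _, (fv_mem (amb_isRep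
        (fun a => MvPolynomial.eval x.rep (MvPolynomial.X a ^ c)) h0)).2 ?_, amb_isRep _ h0⟩
      simp only [map_pow, MvPolynomial.eval_X, ← pow_mul, mul_comm c]
      exact hx
  refine ⟨⟨φ, h1⟩, fun y => ?_⟩
  choose w hw using fun a => IsAlgClosed.exists_pow_nat_eq (MP.rep y.1 a) hc
  have h0 : ∀ i : Unit, (fun s => w ⟨i, s⟩) ≠ 0 := fun _ e =>
    (y.1 ()).rep_nonzero (funext fun s => by
      have h3 : w ⟨(), s⟩ = 0 := congrFun e s
      have h4 := hw ⟨(), s⟩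
      rw [h3, zero_pow hc.ne'] at h4
      exact h4.symm)
  have h3 : ambPt w h0 ∈ fermat k (m * c) n := by
    refine (fv_mem (amb_isRep w h0)).2 ?_
    simp only [mul_comm m, pow_mul, hw]
    exact y.2
  refine ⟨⟨_, h3⟩, Subtype.ext ((h2 ⟨_, h3⟩ w (amb_isRep w h0)).unique ?_)⟩
  simp only [map_pow, MvPolynomial.eval_X, hw]
  exact isRep_rep y.1

theorem exists_dom_dh (q r : ℕ) [IsQ k q] [IsQ k (q ^ r)] :
    ∃ φ : Mor (Cv k (q ^ r) false) (Cv k q false), Function.Surjective φ.1 := by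
  have hq := IsQ.one_lt (k := k) (q := q)
  have hr : r ≠ 0 := fun e => by
    have := IsQ.one_lt (k := k) (q := q ^ r)
    rw [e, pow_zero] at this
    exact lt_irrefl _ this
  obtain ⟨N, hN⟩ : ∃ N, N = ∑ i ∈ Finset.range r, q ^ i := ⟨_, rfl⟩
  have hle : ∀ i ∈ Finset.range r, q ^ i ≤ N := fun i hi =>
    hN ▸ Finset.single_le_sum (f := fun i => q ^ i) (fun _ _ => Nat.zero_le _) hi
  have hN0 : 0 < N := lt_of_lt_of_le (by simp) (hle 0 (Finset.mem_range.2 (Nat.pos_of_ne_zero hr)))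
  have hNq : N * (q - 1) = q ^ r - 1 := by
    have := geom_sum_mul_add (q - 1) r
    rw [Nat.sub_add_cancel hq.le, ← hN] at this
    omega
  let F : Vars (fun _ : Unit => 2) → MvPolynomial (Vars fun _ : Unit => 2) k := fun a =>
    (![MvPolynomial.X ⟨(), 0⟩ ^ N,
      ∑ i ∈ Finset.range r, MvPolynomial.X ⟨(), 1⟩ ^ q ^ i * MvPolynomial.X ⟨(), 2⟩ ^ (N - q ^ i),
      MvPolynomial.X ⟨(), 2⟩ ^ N] : Fin 3 → MvPolynomial (Vars fun _ : Unit => 2) k) a.2
  have hF : ∀ v : Vars (fun _ : Unit => 2) → k, (fun a => MvPolynomial.eval v (F a)) = fun a =>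
      (![v ⟨(), 0⟩ ^ N, ∑ i ∈ Finset.range r, v ⟨(), 1⟩ ^ q ^ i * v ⟨(), 2⟩ ^ (N - q ^ i),
        v ⟨(), 2⟩ ^ N] : Fin 3 → k) a.2 := by
    intro v
    funext a
    obtain ⟨⟨⟩, s⟩ := a
    fin_cases s <;> simp [F]
  have haff : ∀ x y : k, IsRep (fun a => MvPolynomial.eval
      (fun a : Vars fun _ : Unit => 2 => (![x, y, 1] : Fin 3 → k) a.2) (F a))
      fun _ => pt3 (x ^ N) (∑ i ∈ Finset.range r, y ^ q ^ i) 1 := by
    intro x y
    rw [hF]
    simpa using fv_rep3 (aff_ne_zero (x ^ N) (∑ i ∈ Finset.range r, y ^ q ^ i))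
  have hinf : IsRep (fun a => MvPolynomial.eval
      (fun a : Vars fun _ : Unit => 2 => (![1, 0, 0] : Fin 3 → k) a.2) (F a))
      fun _ => pt3 1 0 0 := by
    rw [hF]
    simpa [hN0.ne', show q ≠ 0 by omega] using fv_rep3 (x := (1 : k)) (y := 0) (z := 0) (by simp)
  have hiff : ∀ x y : k, pt3 (x ^ N) (∑ i ∈ Finset.range r, y ^ q ^ i) 1 ∈ curve k q false ↔
      pt3 x y 1 ∈ curve k (q ^ r) false := fun x y => by
    rw [aff_mem_dh, aff_mem_dh, fv_trace, ← pow_mul, hNq]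
  obtain ⟨φ, h1, h2⟩ := fv_exists_mor (S := curves k (q ^ r) fun _ : Unit => false)
    (T := curves k q fun _ : Unit => false) F N (fun a t v => by
      rw [congrFun (hF _) a, congrFun (hF _) a]
      obtain ⟨⟨⟩, s⟩ := a
      fin_cases s
      · exact mul_pow _ _ _
      · change ∑ i ∈ Finset.range r, _ = t ^ N * ∑ i ∈ Finset.range r, _
        rw [Finset.mul_sum]
        refine Finset.sum_congr rfl fun i hi => ?_
        rw [mul_pow, mul_pow, mul_mul_mul_comm, ← pow_add, Nat.add_sub_cancel' (hle i hi)]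
      · exact mul_pow _ _ _) fun x hx => by
      by_cases hf : IsFin (x ())
      · have e : x = fun _ => pt3 (ax (x ())) (ay (x ())) 1 := funext fun _ => hf.eq_aff.symm
        have h3 := fv_rep3 (aff_ne_zero (ax (x ())) (ay (x ())))
        rw [← e] at h3
        refine ⟨_, h3, _, fun _ => ?_, haff _ _⟩
        rw [hiff, hf.eq_aff]
        exact hx ()
      · have e : x = fun _ => pt3 1 0 0 := funext fun _ => eq_inf_of_dh (hx ()) hf
        exact ⟨_, e ▸ fv_rep3 (by simp), _, fun _ => inf_mem_dh, hinf⟩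
  refine ⟨⟨φ, h1⟩, fun y => ?_⟩
  by_cases hf : IsFin (co y ())
  · obtain ⟨a, ha⟩ := IsAlgClosed.exists_pow_nat_eq (ax (co y ())) hN0
    obtain ⟨b, hb⟩ := fv_trace_surj q hr (ay (co y ()))
    have e : pt3 (a ^ N) (∑ i ∈ Finset.range r, b ^ q ^ i) 1 = co y () := by
      rw [ha, hb, hf.eq_aff]
    have h3 : pt3 a b 1 ∈ curve k (q ^ r) false := (hiff a b).1 (e ▸ co_mem y ())
    refine ⟨⟨fun _ => pt3 a b 1, fun _ => h3⟩, Subtype.ext
      (((h2 ⟨fun _ => pt3 a b 1, fun _ => h3⟩ _ (fv_rep3 (aff_ne_zero a b))).unique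
        (haff a b)).trans (funext fun _ => e))⟩
  · refine ⟨⟨fun _ => pt3 1 0 0, fun _ => inf_mem_dh⟩, Subtype.ext
      (((h2 ⟨fun _ => pt3 1 0 0, fun _ => inf_mem_dh⟩ _ (fv_rep3 (by simp))).unique
        hinf).trans (funext fun _ => (eq_inf_of_dh (co_mem y ()) hf).symm))⟩

end Pool.Agent.MP_0c8446_ag

end

section

namespace Pool.Agent.MP_0c8446_ag

open Set

universe u v w

variable {k : Type u} [Field k] [IsAlgClosed k] {K : Type v} [Field K] [CharZero K]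

variable {q : ℕ} [IsQ k q]

lemma predQ_ne (k : Type u) [Field k] (q : ℕ) [IsQ k q] : ((q - 1 : ℕ) : k) ≠ 0 := by
  rw [IsQ.cast_pred]; simp

/-- The Fermat hypersurface of degree `q - 1`. -/
noncomputable abbrev Fq1 (k : Type u) [Field k] [IsAlgClosed k] (q : ℕ) [IsQ k q] (n : ℕ) : Var k :=
  Fv k (q - 1) n (predQ_ne k q)

/-- The coordinates of a point of the Fermat hypersurface. -/
noncomputable def fx {n : ℕ} (x : (Fq1 k q n).pts) : Fin (n + 3) → k := (x.1 ()).rep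

theorem fx_sum {n : ℕ} (x : (Fq1 k q n).pts) : ∑ s, fx x s ^ (q - 1) = 0 := x.2

theorem fx_ne {n : ℕ} (x : (Fq1 k q n).pts) : fx x ≠ 0 := (x.1 ()).rep_nonzero

theorem fx_ext {n : ℕ} {x y : (Fq1 k q n).pts} (c : k) (h : ∀ s, fx y s = c * fx x s) : y = x := by
  refine Subtype.ext (funext fun u => ?_)
  cases u
  refine (y.1 ()).mk_rep.symm.trans (Eq.trans ?_ (x.1 ()).mk_rep)
  rw [Projectivization.mk_eq_mk_iff']
  exact ⟨c, funext fun s => (h s).symm⟩

theorem exists_fx {n : ℕ} (v : Fin (n + 3) → k) (hv : v ≠ 0) (h : ∑ s, v s ^ (q - 1) = 0) :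
    ∃ (x : (Fq1 k q n).pts) (c : k), c ≠ 0 ∧ ∀ s, fx x s = c * v s := by
  obtain ⟨c, hc⟩ := Projectivization.exists_smul_eq_mk_rep k v hv
  have e : ∀ s, (Projectivization.mk k v hv).rep s = c * v s := fun s => (congrFun hc s).symm
  refine ⟨⟨fun _ => Projectivization.mk k v hv, ?_⟩, c, c.ne_zero, e⟩
  show ∑ s, (Projectivization.mk k v hv).rep s ^ (q - 1) = 0
  simp only [e, mul_pow, ← Finset.mul_sum, h, mul_zero]

omit [IsAlgClosed k] in
lemma FAct_unit_ne (a : (Fq k q)ˣ) : ((a : Fq k q) : k) ≠ 0 := by simp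

lemma FAct_exists {n : ℕ} (t : Fin (n + 3) → (Fq k q)ˣ) (x : (Fq1 k q n).pts) :
    ∃ (y : (Fq1 k q n).pts) (c : k), c ≠ 0 ∧
      ∀ s, fx y s = c * (((t s : Fq k q) : k) * fx x s) := by
  refine exists_fx _ (fun h => fx_ne x (funext fun s => ?_)) ?_
  · exact (mul_eq_zero.1 (congrFun h s)).resolve_left (FAct_unit_ne _)
  · simp only [mul_pow, Fq_unit_pow, one_mul]
    exact fx_sum x

lemma FAct_isMor {n : ℕ} (t : Fin (n + 3) → (Fq k q)ˣ) (φ : (Fq1 k q n).pts → (Fq1 k q n).pts)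
    (h : ∀ x, ∃ c : k, c ≠ 0 ∧ ∀ s, fx (φ x) s = c * (((t s : Fq k q) : k) * fx x s)) :
    IsMor φ := by
  refine isMor_of_global
    (fun a => MvPolynomial.C ((t a.2 : Fq k q) : k) * MvPolynomial.X a) fun y v hv => ?_
  obtain ⟨c, hc, e⟩ := h y
  obtain ⟨d, hd, rfl⟩ := (isRep_rep y.1).exists_smul hv
  have h1 := (isRep_rep (φ y).1).smul (fun _ => d () / c) fun _ => div_ne_zero (hd ()) hc
  convert h1 using 2 with a
  obtain ⟨⟨⟩, s⟩ := a
  have e1 : MP.rep (φ y).1 ⟨(), s⟩ = c * (((t s : Fq k q) : k) * MP.rep y.1 ⟨(), s⟩) := e s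
  simp only [map_mul, MvPolynomial.eval_C, MvPolynomial.eval_X, e1]
  field_simp

theorem exists_fact (n : ℕ) : ∃ g : (Fin (n + 3) → (Fq k q)ˣ) → Mor (Fq1 k q n) (Fq1 k q n),
    (∀ x, (g 1).1 x = x) ∧ (∀ s t x, (g (s * t)).1 x = (g s).1 ((g t).1 x)) ∧
    ∀ t x, ∃ c : k, c ≠ 0 ∧ ∀ s, fx ((g t).1 x) s = c * (((t s : Fq k q) : k) * fx x s) := by
  choose φ hφ using fun (t : Fin (n + 3) → (Fq k q)ˣ) (x : (Fq1 k q n).pts) => FAct_exists t x
  refine ⟨fun t => ⟨φ t, FAct_isMor t (φ t) (hφ t)⟩, fun x => ?_, fun s t x => ?_, hφ⟩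
  · obtain ⟨c, -, e⟩ := hφ 1 x
    exact fx_ext c fun s => by simpa using e s
  · obtain ⟨c, -, e⟩ := hφ (s * t) x
    obtain ⟨c₁, h₁, e₁⟩ := hφ s (φ t x)
    obtain ⟨c₂, h₂, e₂⟩ := hφ t x
    refine fx_ext (x := φ s (φ t x)) (y := φ (s * t) x) (c / (c₁ * c₂)) fun i => ?_
    rw [e, e₁, e₂]
    simp only [Pi.mul_apply, Units.val_mul, Subfield.coe_mul]
    field_simp

end Pool.Agent.MP_0c8446_ag

end

section

namespace Pool.Agent.MP_0c8446_ag

open Set

universe u v w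

variable {k : Type u} [Field k] [IsAlgClosed k] {K : Type v} [Field K] [CharZero K]

section
variable {q : ℕ} [IsQ k q] {ι : Type} [Fintype ι] {τ : ι → Bool} {P S Q T : Var k}

/-- The projection to `M × M`. -/
noncomputable def cgM (r : Mor P (Yv k q τ)) (L R : Mor Q P) : Mor Q (Yv k q (Sum.elim τ τ)) :=
  pair (r.comp L) (r.comp R)

/-- The diagonal in the coordinate j. -/
def cgD (r : Mor P (Yv k q τ)) (L R : Mor Q P) (j : ι) : Set Q.pts :=
  {x | co (r.1 (L.1 x)) j = co (r.1 (R.1 x)) j}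

/-- The boundary. -/
def cgB (p : Mor P S) (L R : Mor Q P) (B : Set S.pts) : Set Q.pts :=
  L.1 ⁻¹' (p.1 ⁻¹' B) ∪ R.1 ⁻¹' (p.1 ⁻¹' B)

/-- The class that is paired with the cycles. -/
noncomputable def Weil.cgF (W : Weil.{u, v, w} k K) (p : Mor P S) (r : Mor P (Yv k q τ))
    (L R : Mor Q P) (b₁ b₂ : W.H S) (Δ : W.H (Yv k q (Sum.elim τ τ))) : W.H Q :=
  W.pull (p.comp L) b₁ * W.pull (cgM r L R) Δ * W.pull (p.comp R) b₂

variable {p : Mor P S} {r : Mor P (Yv k q τ)} {L R : Mor Q P} {sL sR : Mor T S}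

lemma cg_isProd (h : IsProd p r) (hP : IsProd L R) (hS : IsProd sL sR) :
    IsProd (hS.lift (p.comp L) (p.comp R)) (cgM r L R) := by
  refine isProd_of (fun V f g => ⟨hP.lift (h.lift (sL.comp f) ((pL τ τ).comp g))
    (h.lift (sR.comp f) ((pR τ τ).comp g)), fun x => hS.ext (by simp) (by simp),
    fun x => sum_ext (by simp [cgM]) (by simp [cgM])⟩) fun x y h1 h2 => hP.ext (h.ext ?_ ?_)
    (h.ext ?_ ?_)
  · simpa using congrArg sL.1 h1
  · exact congrArg (pL τ τ).1 h2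
  · simpa using congrArg sR.1 h1
  · exact congrArg (pR τ τ).1 h2

omit [IsAlgClosed k] in
lemma cg_closed_U {A : Set (Set S.pts)} (hA : A.Finite) (hA' : ∀ a ∈ A, IsClosed a) :
    IsClosed (⋃₀ A) := by
  rw [sUnion_eq_biUnion]
  exact hA.isClosed_biUnion hA'

omit [IsAlgClosed k] in
lemma cg_closed_bd {B : Set S.pts} (hB : IsClosed B) : IsClosed (cgB p L R B) :=
  ((hB.preimage p.continuous).preimage L.continuous).union
    ((hB.preimage p.continuous).preimage R.continuous)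

lemma cgD_eq (π : Mor Q T) (j : ι) : cgD r L R j = π.1 ⁻¹' univ ∩ (cgM r L R).1 ⁻¹'
    {x : (Yv k q (Sum.elim τ τ)).pts | co x (Sum.inl j) = co x (Sum.inr j)} := by
  rw [preimage_univ, univ_inter]
  rfl

lemma cg_isSub_D {π : Mor Q T} (hπ : IsProd π (cgM r L R)) (j : ι) : IsSub (cgD r L R j) := by
  rw [cgD_eq π]
  exact hπ.isSub T.isSub_univ (isSub_co_co rfl)

lemma Weil.cg_dim_D (W : Weil.{u, v, w} k K) {π : Mor Q T} (hπ : IsProd π (cgM r L R)) (j : ι) :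
    dim (cgD r L R j) + 1 = Q.d := by
  have d1 : dim {x : (Yv k q (Sum.elim τ τ)).pts | co x (Sum.inl j) = co x (Sum.inr j)} + 1 =
    Fintype.card (ι ⊕ ι) := W.dim_co_co (by simp) rfl
  have hs : IsSub {x : (Yv k q (Sum.elim τ τ)).pts | co x (Sum.inl j) = co x (Sum.inr j)} :=
    isSub_co_co rfl
  have e := W.dim_isProd hπ T.isSub_univ hs
  rw [← cgD_eq π] at e
  rw [e, W.d_prod hπ, W.d_Yv, add_assoc, d1]
  rfl

omit [CharZero K] in
lemma Weil.cgF_step (W : Weil.{u, v, w} k K) {π : Mor Q T} (hπ : IsProd π (cgM r L R))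
    (b₁ b₂ : W.H S) (j : ι) (Δ : W.H (Yv k q (Sum.elim τ τ))) :
    W.cgF p r L R b₁ b₂ (W.cl _ {x : (Yv k q (Sum.elim τ τ)).pts |
      co x (Sum.inl j) = co x (Sum.inr j)} * Δ) =
      W.cl _ (cgD r L R j) * W.cgF p r L R b₁ b₂ Δ := by
  have e := W.cl_prod _ _ hπ univ
    {x : (Yv k q (Sum.elim τ τ)).pts | co x (Sum.inl j) = co x (Sum.inr j)} T.isSub_univ
    (isSub_co_co rfl)
  rw [W.cl_univ, map_one, one_mul, ← cgD_eq] at e
  rw [Weil.cgF, Weil.cgF, map_mul, ← e, ← mul_assoc, ← W.cl_comm (cg_isSub_D hπ j)]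
  simp only [mul_assoc]

lemma cg_fib_finite (h : IsProd p r) {Z : Set P.pts} {B : Set S.pts} {Γ : Set (Mor S S)}
    (hΓ : Γ.Finite)
    (hfib : ∀ s s' μ, s ∉ B → s' ∉ B → h.mk s μ ∈ Z → h.mk s' μ ∈ Z → ∃ γ ∈ Γ, s' = γ.1 s)
    (μ : (Yv k q τ).pts) : {y | y ∈ Z ∧ p.1 y ∉ B ∧ r.1 y = μ}.Finite := by
  rcases {y | y ∈ Z ∧ p.1 y ∉ B ∧ r.1 y = μ}.eq_empty_or_nonempty with h0 | ⟨y₀, h1, h2, h3⟩
  · rw [h0]
    exact finite_empty
  · refine (hΓ.image fun γ => h.mk (γ.1 (p.1 y₀)) μ).subset ?_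
    rintro y ⟨h4, h5, h6⟩
    obtain ⟨γ, hγ, e⟩ := hfib _ _ μ h2 h5 (by rw [← h3, h.mk_eta]; exact h1)
      (by rw [← h6, h.mk_eta]; exact h4)
    exact ⟨γ, hγ, h.ext (by simp [e]) (by simp [h6])⟩

lemma Weil.cg_ub2 [DecidableEq ι] (W : Weil.{u, v, w} k K) (hP : IsProd L R) {π : Mor Q T}
    (hπ : IsProd π (cgM r L R)) {Z : Set P.pts} {B : Set S.pts} (hB : IsClosed B)
    (hf : ∀ μ, {y | y ∈ Z ∧ p.1 y ∉ B ∧ r.1 y = μ}.Finite) (J : Finset ι)
    {C : Set Q.pts} (hC : IsSub C) (hCZ : C ⊆ L.1 ⁻¹' Z ∩ R.1 ⁻¹' Z)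
    (hCD : ∀ j ∉ J, C ⊆ cgD r L R j) (hCB : ¬ C ⊆ cgB p L R B) :
    dim C ≤ Fintype.card ι + J.card := by
  obtain ⟨x, hx, hxB⟩ := not_subset.1 hCB
  have h1 := W.dim_le_of_finite' hπ (Finset.univ.image Sum.inl ∪ J.image Sum.inr) hC
    (cg_closed_bd hB).isOpen_compl ⟨x, hx, hxB⟩ fun x => by
      have hl : ∀ y : Q.pts, (∀ i ∈ (Finset.univ.image Sum.inl ∪ J.image Sum.inr : Finset (ι ⊕ ι)),
          co ((cgM r L R).1 y) i = co ((cgM r L R).1 x) i) →
          ∀ j, co (r.1 (L.1 y)) j = co (r.1 (L.1 x)) j := fun y hy j =>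
        hy _ (Finset.mem_union_left _ (Finset.mem_image_of_mem _ (Finset.mem_univ j)))
      let μ₂ : (Yv k q τ).pts := mkY (fun j => if j ∈ J then co (r.1 (R.1 x)) j else
        co (r.1 (L.1 x)) j) fun j => by split_ifs <;> exact co_mem _ j
      refine ((hf (r.1 (L.1 x))).image2 hP.mk (hf μ₂)).subset fun y hy => ?_
      have hyB : y ∉ cgB p L R B := hy.1.2
      refine ⟨L.1 y, ⟨(hCZ hy.1.1).1, fun h => hyB (Or.inl h), Yv_ext fun j => hl y hy.2 j⟩, R.1 y,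
        ⟨(hCZ hy.1.1).2, fun h => hyB (Or.inr h), Yv_ext fun j => ?_⟩, hP.mk_eta y⟩
      by_cases hj : j ∈ J
      · exact (hy.2 _ (Finset.mem_union_right _ (Finset.mem_image_of_mem _ hj))).trans
          (if_pos hj).symm
      · exact ((hCD j hj hy.1.1).symm.trans (hl y hy.2 j)).trans (if_neg hj).symm
  refine h1.trans ((Finset.card_union_le _ _).trans (add_le_add ?_ Finset.card_image_le))
  exact Finset.card_image_le.trans Finset.card_univ.le

lemma Weil.cg_boundary (W : Weil.{u, v, w} k K) (h : IsProd p r) (hP : IsProd L R)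
    {A : Set (Set S.pts)} (hA : A.Finite) (hA' : ∀ a ∈ A, IsClosed a) {b₁ b₂ : W.H S}
    (hI : ∀ a ∈ A, ∃ γ γ' : Mor S S, (∀ s, γ'.1 (γ.1 s) = s) ∧ (∀ s ∈ a, γ.1 s = s) ∧
      ∃ c₁ c₂ : K, c₁ ≠ 1 ∧ c₂ ≠ 1 ∧ W.pull γ b₁ = c₁ • b₁ ∧ W.pull γ b₂ = c₂ • b₂)
    (Δ : W.H (Yv k q (Sum.elim τ τ))) {C : Set Q.pts} (hC : IsSub C)
    (hCB : C ⊆ cgB p L R (⋃₀ A)) : W.tr _ (W.cl _ C * W.cgF p r L R b₁ b₂ Δ) = 0 := by
  have hBc := (cg_closed_U hA hA').preimage p.continuous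
  have key : ∀ f : Mor Q S, C ⊆ f.1 ⁻¹' ⋃₀ A → ∃ a ∈ A, C ⊆ f.1 ⁻¹' a := fun f hf =>
    hC.subset_of_finite hA (F := fun a => f.1 ⁻¹' a) (fun a ha => (hA' a ha).preimage f.continuous)
      fun x hx => by
        obtain ⟨a, ha, e⟩ := hf hx
        exact mem_iUnion₂.2 ⟨a, ha, e⟩
  rcases isPreirreducible_iff_isClosed_union_isClosed.1 hC.1.2 _ _
    (hBc.preimage L.continuous) (hBc.preimage R.continuous) hCB with h0 | h0
  · obtain ⟨a, ha, h1⟩ := key (p.comp L) h0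
    obtain ⟨γ, γ', h2, h3, c₁, c₂, h4, -, h5, -⟩ := hI a ha
    let G : Mor S S → Mor Q Q := fun g => hP.lift (h.lift (g.comp (p.comp L)) (r.comp L)) R
    refine W.comp_fix (G γ) (G γ') (fun x => hP.ext (h.ext (by simp [G, h2]) (by simp [G]))
      (by simp [G])) hC (fun x hx => hP.ext (h.ext (by simpa [G] using h3 _ (h1 hx))
        (by simp [G])) (by simp [G])) h4 ?_
    rw [Weil.cgF, map_mul, map_mul, W.pull_pull, W.pull_pull, W.pull_pull,
      W.pull_congr (f := (cgM r L R).comp (G γ)) (g := cgM r L R)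
        (fun _ => sum_ext (by simp [G, cgM]) (by simp [G, cgM])),
      W.pull_congr (f := (p.comp R).comp (G γ)) (g := p.comp R) (fun _ => by simp [G]),
      W.pull_congr (f := (p.comp L).comp (G γ)) (g := γ.comp (p.comp L)) (fun _ => by simp [G]),
      ← W.pull_pull _ γ, h5, map_smul, smul_mul_assoc, smul_mul_assoc]
  · obtain ⟨a, ha, h1⟩ := key (p.comp R) h0
    obtain ⟨γ, γ', h2, h3, c₁, c₂, -, h4, -, h5⟩ := hI a ha
    let G : Mor S S → Mor Q Q := fun g => hP.lift L (h.lift (g.comp (p.comp R)) (r.comp R))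
    refine W.comp_fix (G γ) (G γ') (fun x => hP.ext (by simp [G])
      (h.ext (by simp [G, h2]) (by simp [G]))) hC (fun x hx => hP.ext (by simp [G])
        (h.ext (by simpa [G] using h3 _ (h1 hx)) (by simp [G]))) h4 ?_
    rw [Weil.cgF, map_mul, map_mul, W.pull_pull, W.pull_pull, W.pull_pull,
      W.pull_congr (f := (cgM r L R).comp (G γ)) (g := cgM r L R)
        (fun _ => sum_ext (by simp [G, cgM]) (by simp [G, cgM])),
      W.pull_congr (f := (p.comp L).comp (G γ)) (g := p.comp L) (fun _ => by simp [G]),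
      W.pull_congr (f := (p.comp R).comp (G γ)) (g := γ.comp (p.comp R)) (fun _ => by simp [G]),
      ← W.pull_pull _ γ, h5, map_smul, mul_smul_comm]

/-- The graph case: a subvariety that maps into the graph of `γ`. -/
lemma Weil.cg_graph (W : Weil.{u, v, w} k K) (hS : IsProd sL sR) (π : Mor Q T) (γ : Mor S S)
    {C : Set Q.pts} (hC : IsSub C) (hd : dim C = S.d)
    (hsub : π.1 '' C ⊆ range (hS.lift (Mor.id _) γ).1) {b₁ b₂ : W.H S} {i j : ℕ}
    (hb₁ : b₁ ∈ W.gr S i) (hb₂ : b₂ ∈ W.gr S j) (hij : i + j = 2 * S.d) :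
    ∃ n : ℕ, W.tr Q (W.cl Q C * W.pull π (W.pull sL b₁ * W.pull sR b₂)) =
      n * W.tr _ (b₁ * W.pull γ b₂) ∧
      (range (hS.lift (Mor.id _) γ).1 ⊆ closure (π.1 '' C) → 0 < n) := by
  have hr := (hS.lift (Mor.id S) γ).retr sL fun _ => by simp
  have hG : IsSub (range (hS.lift (Mor.id S) γ).1) := by
    rw [← image_univ]
    exact hr.isSub (Var.isSub_univ _)
  have hGd : dim (range (hS.lift (Mor.id S) γ).1) = S.d := by
    rw [← image_univ, hr.dim_image]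
    rfl
  have hcl := hC.image_closure π.continuous
  have hsub' : closure (π.1 '' C) ⊆ range (hS.lift (Mor.id _) γ).1 :=
    hG.2.closure_subset_iff.2 hsub
  obtain ⟨n, hr0, h1⟩ := W.push π C hC
  by_cases h : dim (closure (π.1 '' C)) = S.d
  · have e := eq_of_dim_le hcl hG hsub' (by omega)
    refine ⟨n, ?_, fun _ => hr0 (by omega)⟩
    rw [h1, e, ← W.tr_pull_retr (hS.lift (Mor.id S) γ) sL fun _ => by simp, map_mul,
      W.pull_pull, W.pull_pull, W.pull_id (sL.comp _) (funext fun _ => by simp),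
      W.pull_congr (f := sR.comp _) (g := γ) fun _ => by simp]
  · refine ⟨0, ?_, fun h2 => absurd ?_ h⟩
    · rw [h1, W.tr_cl_mul_gr hcl (SetLike.mul_mem_graded (W.pull_gr sL _ _ hb₁)
        (W.pull_gr sR _ _ hb₂)) (by omega)]
      simp
    · rw [hsub'.antisymm h2, hGd]

lemma Weil.cg_claim (W : Weil.{u, v, w} k K) (h : IsProd p r) (hP : IsProd L R)
    (hS : IsProd sL sR) (hc : S.d = Fintype.card ι) {Z : Set P.pts} {A : Set (Set S.pts)}
    (hA : A.Finite) (hA' : ∀ a ∈ A, IsClosed a) {b₁ b₂ : W.H S} {i j : ℕ}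
    (hb₁ : b₁ ∈ W.gr S i) (hb₂ : b₂ ∈ W.gr S j) (hij : i + j = 2 * S.d)
    (hI : ∀ a ∈ A, ∃ γ γ' : Mor S S, (∀ s, γ'.1 (γ.1 s) = s) ∧ (∀ s ∈ a, γ.1 s = s) ∧
      ∃ c₁ c₂ : K, c₁ ≠ 1 ∧ c₂ ≠ 1 ∧ W.pull γ b₁ = c₁ • b₁ ∧ W.pull γ b₂ = c₂ • b₂)
    {Γ : Set (Mor S S)} (hΓ : Γ.Finite)
    (hfib : ∀ s s' μ, s ∉ ⋃₀ A → s' ∉ ⋃₀ A → h.mk s μ ∈ Z → h.mk s' μ ∈ Z → ∃ γ ∈ Γ, s' = γ.1 s)
    (hgood : ∀ γ ∈ Γ, W.pull γ b₂ = b₂) {D : Set P.pts} (hD : IsSub D) (hDd : dim D = S.d)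
    (hDB : ¬ D ⊆ p.1 ⁻¹' ⋃₀ A) (hDu : univ ⊆ closure (p.1 '' D))
    (J : Finset ι) : ∃ Δ : W.H (Yv k q (Sum.elim τ τ)), ∀ C : Set Q.pts,
      IsSub C → C ⊆ L.1 ⁻¹' Z ∩ R.1 ⁻¹' Z → (∀ j ∉ J, C ⊆ cgD r L R j) →
      dim C = Fintype.card ι + J.card →
      ∃ n : ℕ, W.tr _ (W.cl _ C * W.cgF p r L R b₁ b₂ Δ) = n * W.tr _ (b₁ * b₂) ∧
        ((hP.lift (Mor.id _) (Mor.id _)).1 '' D ⊆ C → 0 < n) := by
  classical
  have hπ := cg_isProd h hP hS
  have hBc := cg_closed_U hA hA'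
  have hf := cg_fib_finite h hΓ hfib
  have hr := (hP.lift (Mor.id P) (Mor.id _)).retr L fun _ => by simp
  have hD0 := hr.isSub hD
  have bd : ∀ (Δ : W.H (Yv k q (Sum.elim τ τ))) (C : Set Q.pts), IsSub C →
      C ⊆ cgB p L R (⋃₀ A) → ∃ n : ℕ, W.tr _ (W.cl _ C * W.cgF p r L R b₁ b₂ Δ) =
        n * W.tr _ (b₁ * b₂) ∧ ((hP.lift (Mor.id _) (Mor.id _)).1 '' D ⊆ C → 0 < n) :=
    fun Δ C hC hCB => by
      refine ⟨0, by rw [W.cg_boundary h hP hA hA' hI Δ hC hCB]; simp, fun h => absurd ?_ hDB⟩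
      intro x hx
      rcases hCB (h ⟨x, hx, rfl⟩) with h1 | h1 <;> simpa using h1
  induction J using Finset.induction_on with
  | empty =>
    refine ⟨1, fun C hC hCZ hCD hd => ?_⟩
    by_cases hCB : C ⊆ cgB p L R (⋃₀ A)
    · exact bd 1 C hC hCB
    rw [Finset.card_empty, add_zero, ← hc] at hd
    have e1 : W.cgF p r L R b₁ b₂ 1 =
        W.pull (hS.lift (p.comp L) (p.comp R)) (W.pull sL b₁ * W.pull sR b₂) := by
      rw [Weil.cgF, map_one, mul_one, map_mul, W.pull_pull, W.pull_pull,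
        W.pull_congr (f := sL.comp _) (g := p.comp L) fun _ => by simp,
        W.pull_congr (f := sR.comp _) (g := p.comp R) fun _ => by simp]
    rw [e1]
    by_cases h0 : (hP.lift (Mor.id _) (Mor.id _)).1 '' D ⊆ C
    · have e := eq_of_dim_le hD0 hC h0 (by rw [hr.dim_image]; omega)
      obtain ⟨n, h1, h2⟩ := W.cg_graph hS (hS.lift (p.comp L) (p.comp R)) (Mor.id _) hC hd (by
        rw [← e]
        rintro _ ⟨_, ⟨x, -, rfl⟩, rfl⟩
        exact ⟨p.1 x, hS.ext (by simp) (by simp)⟩) hb₁ hb₂ hij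
      refine ⟨n, by rw [h1, W.pull_id (Mor.id _) rfl], fun _ => h2 ?_⟩
      rw [← image_univ]
      refine (image_mono hDu).trans ((image_closure_subset_closure_image
        (hS.lift (Mor.id S) (Mor.id _)).continuous).trans (closure_mono ?_))
      rintro _ ⟨_, ⟨x, hx, rfl⟩, rfl⟩
      exact ⟨_, h0 ⟨x, hx, rfl⟩, hS.ext (by simp) (by simp)⟩
    · have h1 : C ⊆ cgB p L R (⋃₀ A) ∪
          ⋃ γ ∈ Γ, {x | (p.comp R).1 x = (γ.comp (p.comp L)).1 x} := by
        intro x hx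
        by_cases hx' : x ∈ cgB p L R (⋃₀ A)
        · exact Or.inl hx'
        have e : r.1 (L.1 x) = r.1 (R.1 x) := Yv_ext fun j => hCD j (Finset.notMem_empty j) hx
        obtain ⟨γ, hγ, h2⟩ := hfib (p.1 (L.1 x)) (p.1 (R.1 x)) (r.1 (L.1 x))
          (fun h => hx' (Or.inl h)) (fun h => hx' (Or.inr h))
          (by rw [h.mk_eta]; exact (hCZ hx).1) (by rw [e, h.mk_eta]; exact (hCZ hx).2)
        exact Or.inr (mem_iUnion₂.2 ⟨γ, hγ, h2⟩)
      have hcl : ∀ γ ∈ Γ, IsClosed {x | (p.comp R).1 x = (γ.comp (p.comp L)).1 x} := fun γ _ =>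
        isClosed_eq_mor (p.comp R).2 (γ.comp (p.comp L)).2
      obtain ⟨γ, hγ, h2⟩ := hC.subset_of_finite hΓ hcl
        ((isPreirreducible_iff_isClosed_union_isClosed.1 hC.1.2 _ _ (cg_closed_bd hBc)
          (hΓ.isClosed_biUnion hcl) h1).resolve_left hCB)
      obtain ⟨n, h3, -⟩ := W.cg_graph hS (hS.lift (p.comp L) (p.comp R)) γ hC hd (by
        rintro _ ⟨x, hx, rfl⟩
        exact ⟨p.1 (L.1 x), hS.ext (by simp) (by simpa using (h2 hx).symm)⟩) hb₁ hb₂ hij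
      exact ⟨n, by rw [h3, hgood γ hγ], fun h => absurd h h0⟩
  | insert j J hj ih =>
    obtain ⟨Δ, ih⟩ := ih
    refine ⟨W.cl _ {x : (Yv k q (Sum.elim τ τ)).pts | co x (Sum.inl j) = co x (Sum.inr j)} * Δ,
      fun C hC hCZ hCD hd => ?_⟩
    by_cases hCB : C ⊆ cgB p L R (⋃₀ A)
    · exact bd _ C hC hCB
    rw [Finset.card_insert_of_notMem hj] at hd
    have hCj : ¬ C ⊆ cgD r L R j := fun h => by
      have := W.cg_ub2 hP hπ hBc hf J hC hCZ (fun i hi => by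
        by_cases hij : i = j
        · exact hij ▸ h
        · exact hCD i (by simp [hij, hi])) hCB
      omega
    have d1 := W.cg_dim_D hπ j
    have hp : ∀ E, IsSub E → E ⊆ C ∩ cgD r L R j → dim E + Q.d ≤ dim C + dim (cgD r L R j) :=
      fun E hE hEC => by
        have := dim_lt hE hC ⟨hEC.trans inter_subset_left,
          fun h => hCj (h.trans (hEC.trans inter_subset_right))⟩
        omega
    obtain ⟨s, μ, h1, h2, -, h3⟩ := W.proper _ C _ hC (cg_isSub_D hπ j) hp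
    obtain ⟨n, h4, h5⟩ := comp_sum s (fun E => W.tr _ (μ E • W.cl _ E * W.cgF p r L R b₁ b₂ Δ))
      (fun E => (hP.lift (Mor.id _) (Mor.id _)).1 '' D ⊆ E) (W.tr _ (b₁ * b₂)) fun E hE => by
        have hE' := (h1 E).1 hE
        have d3 := W.proper_dim' hC (cg_isSub_D hπ j) hp hE'
        obtain ⟨n, h4, h5⟩ := ih E hE'.1.1 ((hE'.1.2.trans inter_subset_left).trans hCZ)
          (fun i hi => by
            by_cases hij : i = j
            · exact hij ▸ hE'.1.2.trans inter_subset_right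
            · exact (hE'.1.2.trans inter_subset_left).trans (hCD i (by simp [hij, hi])))
          (by omega)
        refine ⟨μ E * n, ?_, fun h => Nat.mul_pos (h2 E hE) (h5 h)⟩
        rw [smul_mul_assoc, map_nsmul, h4, nsmul_eq_mul, Nat.cast_mul, mul_assoc]
    refine ⟨n, ?_, fun h => h5 ?_⟩
    · rw [W.cgF_step hπ, ← mul_assoc, h3, Finset.sum_mul, map_sum, h4]
    · obtain ⟨E, hE, h6⟩ := exists_isComp (S := C ∩ cgD r L R j) hD0 (subset_inter h (by
        rintro _ ⟨x, -, rfl⟩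
        simp [cgD]))
      exact ⟨E, (h1 E).2 hE, h6⟩

end

theorem Weil.composition' (W : Weil.{u, v, w} k K) {q : ℕ} [IsQ k q] {ι : Type} [Fintype ι]
    {τ : ι → Bool} {P S : Var k} {p : Mor P S} {r : Mor P (Yv k q τ)} (h : IsProd p r)
    (hc : S.d = Fintype.card ι) (Z : Set P.pts) (hZ : IsClosed Z)
    (A : Set (Set S.pts)) (hA : A.Finite) (hA' : ∀ a ∈ A, IsClosed a ∧ a ≠ univ)
    {i j : ℕ} (b₁ b₂ : W.H S) (hb₁ : b₁ ∈ W.gr S i) (hb₂ : b₂ ∈ W.gr S j)
    (hb : W.tr S (b₁ * b₂) ≠ 0)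
    (hI : ∀ a ∈ A, ∃ γ γ' : Mor S S, (∀ s, γ'.1 (γ.1 s) = s) ∧ (∀ s ∈ a, γ.1 s = s) ∧
      ∃ c₁ c₂ : K, c₁ ≠ 1 ∧ c₂ ≠ 1 ∧ W.pull γ b₁ = c₁ • b₁ ∧ W.pull γ b₂ = c₂ • b₂)
    (Γ : Set (Mor S S)) (hΓ : Γ.Finite)
    (hfib : ∀ s s' μ, s ∉ ⋃₀ A → s' ∉ ⋃₀ A → h.mk s μ ∈ Z → h.mk s' μ ∈ Z → ∃ γ ∈ Γ, s' = γ.1 s)
    (hgood : ∀ γ ∈ Γ, W.pull γ b₂ = b₂) (hsurj : ∀ s, s ∉ ⋃₀ A → ∃ μ, h.mk s μ ∈ Z) :
    ∃ ζ ∈ W.Alg P, ∃ c, W.tr P (ζ * (W.pull p b₁ * W.pull r c)) ≠ 0 := by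
  classical
  have hA1 : ∀ a ∈ A, IsClosed a := fun a ha => (hA' a ha).1
  have hBc := cg_closed_U hA hA1
  have hB : ¬ univ ⊆ ⋃₀ A := fun h0 => by
    obtain ⟨a, ha, h1⟩ := S.isSub_univ.subset_of_finite hA (F := id) hA1
      (by rwa [sUnion_eq_biUnion] at h0)
    exact (hA' a ha).2 (univ_subset_iff.1 h1)
  have hij : i + j = 2 * S.d := by
    by_contra h0
    exact hb (W.tr_mul_gr hb₁ hb₂ h0)
  obtain ⟨D, hD, hDZ, hDu, hd⟩ := W.exists_sub_dominant p hZ S.isSub_univ hBc.isOpen_compl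
    (not_subset.1 hB) fun s hs => by
      obtain ⟨μ, hμ⟩ := hsurj s hs.2
      exact ⟨_, hμ, h.fst_mk _ _⟩
  have hDB : ¬ D ⊆ p.1 ⁻¹' ⋃₀ A := fun h0 =>
    hB (hDu.ge.trans (hBc.closure_subset_iff.2 (image_subset_iff.2 h0)))
  have hDd : dim D = S.d := by
    obtain ⟨x, hx, hxB⟩ := not_subset.1 hDB
    have h1 := W.dim_le_of_finite' h Finset.univ hD (hBc.preimage p.continuous).isOpen_compl
      ⟨x, hx, hxB⟩ fun x => (cg_fib_finite h hΓ hfib (r.1 x)).subset fun y hy =>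
        ⟨hDZ hy.1.1, hy.1.2, Yv_ext fun i => hy.2 _ (Finset.mem_univ i)⟩
    exact le_antisymm (h1.trans (hc ▸ Finset.card_univ.le)) hd
  obtain ⟨Q, L, R, hP⟩ := exists_prod P P
  obtain ⟨T, sL, sR, hS⟩ := exists_prod S S
  obtain ⟨Δ, hΔ⟩ := W.cg_claim h hP hS hc hA hA1 hb₁ hb₂ hij hI hΓ hfib hgood hD hDd hDB hDu.ge
    Finset.univ
  obtain ⟨n, h1, h2⟩ := hΔ _ (hP.isSub hD hD)
    (inter_subset_inter (preimage_mono hDZ) (preimage_mono hDZ))
    (fun j hj => absurd (Finset.mem_univ j) hj)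
    (by rw [W.dim_isProd hP hD hD, hDd, hc, Finset.card_univ])
  have h3 := h2 (by
    rintro _ ⟨x, hx, rfl⟩
    exact ⟨by simpa using hx, by simpa using hx⟩)
  rw [W.cl_prod _ _ hP _ _ hD hD] at h1
  have h4 : W.tr _ (W.pull L (W.cl _ D) * W.pull R (W.cl _ D) * W.cgF p r L R b₁ b₂ Δ) ≠ 0 := by
    rw [h1]
    exact mul_ne_zero (by exact_mod_cast h3.ne') hb
  have hζ := W.cl_mem_Alg hD
  generalize W.cl _ D = ζ at hζ h4
  refine ⟨ζ, hζ, ?_⟩
  by_contra hne
  push Not at hne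
  have h5 := W.prod_span (isProd_sum τ τ) (LinearMap.ker (W.tr _ ∘ₗ
    LinearMap.mulLeft K (W.pull L ζ * W.pull R ζ) ∘ₗ
    LinearMap.mulRight K (W.pull (p.comp R) b₂) ∘ₗ LinearMap.mulLeft K (W.pull (p.comp L) b₁) ∘ₗ
    (W.pull (cgM r L R)).toLinearMap)) fun c c' => by
      have e := W.tr_prod hP (ζ * (W.pull p b₁ * W.pull r c)) (ζ * (W.pull r c' * W.pull p b₂))
      rw [hne, zero_mul] at e
      refine Eq.trans ?_ e
      show W.tr _ (W.pull L ζ * W.pull R ζ * (W.pull (p.comp L) b₁ * W.pull (cgM r L R)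
        (W.pull (pL τ τ) c * W.pull (pR τ τ) c') * W.pull (p.comp R) b₂)) =
        W.tr _ (W.pull L (ζ * (W.pull p b₁ * W.pull r c)) *
          W.pull R (ζ * (W.pull r c' * W.pull p b₂)))
      have hcm := W.Alg_comm (W.pull_mem_Alg R hζ) (W.pull (p.comp L) b₁ * W.pull (r.comp L) c)
      simp only [map_mul, W.pull_pull]
      rw [W.pull_congr (f := (pL τ τ).comp (cgM r L R)) (g := r.comp L) (fun _ => rfl),
        W.pull_congr (f := (pR τ τ).comp (cgM r L R)) (g := r.comp R) (fun _ => rfl)]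
      have key : ∀ x y a a' e e' : W.H Q, y * (a * a') = a * a' * y →
          x * y * (a * (a' * e) * e') = x * (a * a') * (y * (e * e')) := by
        intro x y a a' e e' h
        calc x * y * (a * (a' * e) * e') = x * (y * (a * a')) * (e * e') := by
              simp only [mul_assoc]
          _ = _ := by rw [h]; simp only [mul_assoc]
      exact congrArg _ (key _ _ _ _ _ _ hcm)
  have h6 : Δ ∈ (⊤ : Submodule K _) := Submodule.mem_top
  rw [← h5] at h6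
  exact h4 h6

end Pool.Agent.MP_0c8446_ag

end

section

namespace Pool.Agent.MP_0c8446_ag

open Set

universe u v w

section poly

open Polynomial

/-- The coefficients of a polynomial, completed to a vector with sum zero. -/
noncomputable def FGen1_cv {R : Type*} [CommRing R] (n : ℕ) (f : R[X]) (s : Fin (n + 3)) : R :=
  if (s : ℕ) < n + 2 then f.coeff s else -∑ i ∈ Finset.range (n + 2), f.coeff i

lemma FGen1_cv_map {R S : Type*} [CommRing R] [CommRing S] (φ : R →+* S) (n : ℕ) (f : R[X])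
    (s : Fin (n + 3)) : φ (FGen1_cv n f s) = FGen1_cv n (f.map φ) s := by
  unfold FGen1_cv
  split_ifs <;> simp [coeff_map]

lemma FGen1_cv_mul {R : Type*} [CommRing R] (n : ℕ) (c : R) (f : R[X]) (s : Fin (n + 3)) :
    FGen1_cv n (C c * f) s = c * FGen1_cv n f s := by
  unfold FGen1_cv
  split_ifs <;> simp [Finset.mul_sum]

lemma FGen1_cv_ne {R : Type*} [CommRing R] {n : ℕ} {f : R[X]} (hf : f ≠ 0)
    (hd : f.natDegree ≤ n + 1) : FGen1_cv n f ≠ 0 := by
  intro h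
  have h1 := congrFun h ⟨f.natDegree, by omega⟩
  rw [FGen1_cv, if_pos (by show f.natDegree < n + 2; omega)] at h1
  exact hf (leadingCoeff_eq_zero.1 h1)

lemma FGen1_cv_surj {R : Type*} [CommRing R] {n : ℕ} (u : Fin (n + 3) → R) (hu : u ≠ 0)
    (h : ∑ s, u s = 0) : ∃ f : R[X], f ≠ 0 ∧ f.natDegree ≤ n + 1 ∧ FGen1_cv n f = u := by
  classical
  have key : FGen1_cv n (ofFn (n + 2) fun i => u i.castSucc) = u := by
    funext s
    unfold FGen1_cv
    split_ifs with hs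
    · rw [ofFn_coeff_eq_val_of_lt _ hs]
      rfl
    · have e : s = Fin.last (n + 2) := Fin.ext (by have := s.2; simp; omega)
      rw [Fin.sum_univ_castSucc] at h
      rw [e, Finset.sum_range, eq_neg_of_add_eq_zero_right h]
      congr 1
      exact Finset.sum_congr rfl fun i _ => ofFn_coeff_eq_val_of_lt _ i.2
  refine ⟨_, fun e => hu ?_, Nat.lt_succ_iff.1 (ofFn_natDegree_lt (by omega) _), key⟩
  rw [← key, e]
  funext s
  simp [FGen1_cv]

variable {k : Type u} [Field k] [IsAlgClosed k] {q : ℕ} [IsQ k q]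

lemma FGen1_dh (x : k) : ∃ y : k, y ^ q - y = x := by
  have hq := IsQ.one_lt (k := k) (q := q)
  have hd : (X ^ q - (X + C x) : k[X]).degree = q := by
    rw [degree_sub_eq_left_of_degree_lt] <;> rw [degree_X_pow]
    rw [degree_X_add_C]
    exact_mod_cast hq
  obtain ⟨y, hy⟩ := IsAlgClosed.exists_root (X ^ q - (X + C x) : k[X]) (by
    rw [hd]; exact_mod_cast (by omega : q ≠ 0))
  refine ⟨y, ?_⟩
  simp only [IsRoot.def, eval_sub, eval_pow, eval_X, eval_add, eval_C] at hy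
  linear_combination hy

/-- The linear form attached to a point of the plane. -/
noncomputable def FGen1_lin (P : P2 k) : k[X] := C (P.rep 0) * X + C (P.rep 2)

lemma FGen1_pt (a b : k) (h : a ≠ 0 ∨ b ≠ 0) : ∃ P ∈ curve k q false, ∃ c : k, c ≠ 0 ∧
    C a * X + C b = C c * FGen1_lin P := by
  by_cases hb : b = 0
  · have ha : a ≠ 0 := h.resolve_right (not_not.2 hb)
    obtain ⟨c, hc, e0, -, e2⟩ := rep_pt3 (x := (1 : k)) (y := 0) (z := 0) (by simp)
    refine ⟨_, inf_mem_dh, a / c, div_ne_zero ha hc, ?_⟩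
    rw [FGen1_lin, e0, e2, mul_add, ← mul_assoc, ← C_mul, ← C_mul, hb]
    congr 3
    · field_simp
    · simp
  · obtain ⟨y, hy⟩ := FGen1_dh (q := q) ((a / b) ^ (q - 1))
    obtain ⟨c, hc, e0, -, e2⟩ := rep_pt3 (aff_ne_zero (a / b) y)
    refine ⟨_, aff_mem_dh.2 hy, b / c, div_ne_zero hb hc, ?_⟩
    rw [FGen1_lin, e0, e2, mul_add, ← mul_assoc, ← C_mul, ← C_mul]
    congr 3 <;> field_simp

omit [IsAlgClosed k] in
lemma FGen1_lin_ne {P : P2 k} (hP : P ∈ curve k q false) : FGen1_lin P ≠ 0 := by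
  intro h
  have h0 : P.rep 0 = 0 := by simpa [FGen1_lin] using congrArg (coeff · 1) h
  have h2 : P.rep 2 = 0 := by simpa [FGen1_lin] using congrArg (coeff · 0) h
  have e := eq_inf_of_dh hP (not_not.2 h2)
  obtain ⟨c, hc, e0, -, -⟩ := rep_pt3 (x := (1 : k)) (y := 0) (z := 0) (by simp)
  rw [← e, h0, mul_one] at e0
  exact hc e0.symm

omit [IsAlgClosed k] in
lemma FGen1_deg {m : ℕ} (P : Fin m → P2 k) : (∏ j, FGen1_lin (P j)).natDegree ≤ m := by
  refine (natDegree_prod_le _ _).trans ?_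
  refine (Finset.sum_le_card_nsmul _ _ 1 fun j _ => natDegree_linear_le).trans ?_
  simp

lemma FGen1_factor (m : ℕ) (f : k[X]) (hf : f ≠ 0) (hd : f.natDegree ≤ m) :
    ∃ (c : k) (P : Fin m → P2 k), c ≠ 0 ∧ (∀ j, P j ∈ curve k q false) ∧
      f = C c * ∏ j, FGen1_lin (P j) := by
  induction m generalizing f with
  | zero =>
    have e := eq_C_of_natDegree_le_zero hd
    refine ⟨f.coeff 0, Fin.elim0, fun h => hf (by rw [e, h, C_0]), fun j => j.elim0, ?_⟩
    simpa using e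
  | succ m ih =>
    obtain ⟨a, b, g, hab, hg, hgd, e⟩ : ∃ (a b : k) (g : k[X]), (a ≠ 0 ∨ b ≠ 0) ∧ g ≠ 0 ∧
        g.natDegree ≤ m ∧ f = (C a * X + C b) * g := by
      by_cases h : f.natDegree ≤ m
      · exact ⟨0, 1, f, Or.inr one_ne_zero, hf, h, by simp⟩
      · obtain ⟨r, hr⟩ := IsAlgClosed.exists_root f (by
          rw [degree_eq_natDegree hf]; exact_mod_cast (by omega : f.natDegree ≠ 0))
        obtain ⟨g, hg⟩ := dvd_iff_isRoot.2 hr
        have hg0 : g ≠ 0 := fun h0 => hf (by rw [hg, h0, mul_zero])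
        refine ⟨1, -r, g, Or.inl one_ne_zero, hg0, ?_, by rw [hg]; simp [sub_eq_add_neg]⟩
        rw [hg, natDegree_mul (X_sub_C_ne_zero r) hg0, natDegree_X_sub_C] at hd
        omega
    obtain ⟨c, P, hc, hP, e1⟩ := ih g hg hgd
    obtain ⟨Q, hQ, c', hc', e2⟩ := FGen1_pt (q := q) a b hab
    refine ⟨c' * c, Fin.cons Q P, mul_ne_zero hc' hc, fun j => ?_, ?_⟩
    · refine Fin.cases ?_ (fun j => ?_) j
      · exact hQ
      · exact hP j
    · rw [e, e2, e1, Fin.prod_univ_succ, C_mul]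
      simp only [Fin.cons_zero, Fin.cons_succ]
      ring

end poly

variable {k : Type u} [Field k] [IsAlgClosed k] {K : Type v} [Field K] [CharZero K]

/-- A point of projective space. -/
noncomputable def FGen1_mk {n : ℕ} (u : Fin (n + 3) → k) (hu : u ≠ 0) :
    (amb k fun _ : Unit => n + 2).pts := ⟨fun _ => Projectivization.mk k u hu, trivial⟩

lemma FGen1_mk_eq {n : ℕ} {u u' : Fin (n + 3) → k} {hu : u ≠ 0} {hu' : u' ≠ 0} :
    FGen1_mk u hu = FGen1_mk u' hu' ↔ ∃ c : k, ∀ s, u s = c * u' s := by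
  constructor
  · intro h
    obtain ⟨c, hc⟩ := (Projectivization.mk_eq_mk_iff' k _ _ hu hu').1
      (congrFun (congrArg Subtype.val h) ())
    exact ⟨c, fun s => (congrFun hc s).symm⟩
  · rintro ⟨c, hc⟩
    exact Subtype.ext (funext fun _ => (Projectivization.mk_eq_mk_iff' k _ _ hu hu').2
      ⟨c, funext fun s => (hc s).symm⟩)

lemma FGen1_isRep {n : ℕ} {u : Fin (n + 3) → k} (hu : u ≠ 0) {c : k} (hc : c ≠ 0)
    {w : Vars (fun _ : Unit => n + 2) → k} (h : ∀ s, w ⟨(), s⟩ = c * u s) :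
    IsRep w (FGen1_mk u hu).1 := by
  have h1 : IsRep (fun a : Vars (fun _ : Unit => n + 2) => u a.2) (FGen1_mk u hu).1 :=
    fun _ => ⟨hu, rfl⟩
  have h2 : w = fun a => c * u a.2 := funext fun a => h a.2
  rw [h2]
  exact h1.smul (fun _ => c) fun _ => hc

variable {q : ℕ} [IsQ k q] {n : ℕ}

lemma FGen1_pow_ne (x : (Fq1 k q n).pts) : (fun s => fx x s ^ (q - 1)) ≠ 0 := fun h =>
  fx_ne x (funext fun s => pow_eq_zero_iff (IsQ.pos k q).ne' |>.1 (congrFun h s))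

omit [IsAlgClosed k] in
lemma FGen1_eval_pow {σ : Type} (v : σ → k) (a : σ) (m : ℕ) :
    MvPolynomial.eval v (MvPolynomial.X a ^ m) = v a ^ m := by
  rw [map_pow, MvPolynomial.eval_X]

omit [IsAlgClosed k] in
lemma FGen1_eval_cv {σ : Type} {m : ℕ} (v : σ → k) (A B : Fin m → σ) (d : Fin m → k)
    (P : Fin m → P2 k) (hA : ∀ j, v (A j) = d j * (P j).rep 0)
    (hB : ∀ j, v (B j) = d j * (P j).rep 2) (n : ℕ) (s : Fin (n + 3)) :
    MvPolynomial.eval v (FGen1_cv n (∏ j, (Polynomial.C (MvPolynomial.X (A j)) * Polynomial.X +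
      Polynomial.C (MvPolynomial.X (B j)))) s) =
      (∏ j, d j) * FGen1_cv n (∏ j, FGen1_lin (P j)) s := by
  rw [FGen1_cv_map, ← FGen1_cv_mul, Polynomial.map_prod, map_prod, ← Finset.prod_mul_distrib]
  congr 1
  refine Finset.prod_congr rfl fun j _ => ?_
  simp only [Polynomial.map_add, Polynomial.map_mul, Polynomial.map_C, Polynomial.map_X,
    MvPolynomial.eval_X, FGen1_lin, mul_add, ← mul_assoc, ← Polynomial.C_mul, hA, hB]

/-- The quotient map of the Fermat hypersurface. -/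
noncomputable def FGen1_pi (k : Type u) [Field k] [IsAlgClosed k] (q : ℕ) [IsQ k q] (n : ℕ) :
    Mor (Fq1 k q n) (amb k fun _ : Unit => n + 2) :=
  ⟨fun x => FGen1_mk _ (FGen1_pow_ne x), isMor_of_global
    (fun a => MvPolynomial.X a ^ (q - 1)) fun y v hv => by
      obtain ⟨d, hd, rfl⟩ := (isRep_rep y.1).exists_smul hv
      refine FGen1_isRep _ (pow_ne_zero (q - 1) (hd ())) fun s => ?_
      exact (FGen1_eval_pow _ _ _).trans (mul_pow _ _ _)⟩

lemma FGen1_cv_ne' (μ : (Yv k q fun _ : Fin (n + 1) => false).pts) :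
    FGen1_cv n (∏ j, FGen1_lin (co μ j)) ≠ 0 :=
  FGen1_cv_ne (Finset.prod_ne_zero_iff.2 fun j _ => FGen1_lin_ne (co_mem μ j)) (FGen1_deg _)

/-- The map from the product of curves to the hyperplane. -/
noncomputable def FGen1_rho (k : Type u) [Field k] [IsAlgClosed k] (q : ℕ) [IsQ k q] (n : ℕ) :
    Mor (Yv k q fun _ : Fin (n + 1) => false) (amb k fun _ : Unit => n + 2) :=
  ⟨fun μ => FGen1_mk _ (FGen1_cv_ne' μ), isMor_of_global
    (fun a => FGen1_cv n (∏ j : Fin (n + 1),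
      (Polynomial.C (MvPolynomial.X ⟨j, (0 : Fin 3)⟩) * Polynomial.X +
        Polynomial.C (MvPolynomial.X ⟨j, (2 : Fin 3)⟩))) a.2) fun y v hv => by
      obtain ⟨d, hd, rfl⟩ := (isRep_rep y.1).exists_smul hv
      refine FGen1_isRep _ (c := ∏ j : Fin (n + 1), d j)
        (Finset.prod_ne_zero_iff.2 fun j _ => hd j) fun s => ?_
      exact FGen1_eval_cv _ _ _ d (co y) (fun _ => rfl) (fun _ => rfl) n s⟩

lemma FGen1_surj (x : (Fq1 k q n).pts) : ∃ μ, (FGen1_pi k q n).1 x = (FGen1_rho k q n).1 μ := by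
  obtain ⟨f, hf, hd, e⟩ := FGen1_cv_surj _ (FGen1_pow_ne x) (fx_sum x)
  obtain ⟨c, P, -, hP, e1⟩ := FGen1_factor (q := q) (n + 1) f hf hd
  refine ⟨mkY P hP, FGen1_mk_eq.2 ⟨c, fun s => ?_⟩⟩
  rw [← congrFun e s, e1, FGen1_cv_mul]
  rfl

lemma FGen1_fib {x y : (Fq1 k q n).pts} (h : (FGen1_pi k q n).1 y = (FGen1_pi k q n).1 x) :
    ∃ (δ : k) (t : Fin (n + 3) → (Fq k q)ˣ), ∀ s,
      fx y s = δ * (((t s : Fq k q) : k) * fx x s) := by
  obtain ⟨c, hc⟩ := FGen1_mk_eq.1 h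
  have hq := IsQ.pos k q
  obtain ⟨δ, hδ⟩ := IsAlgClosed.exists_pow_nat_eq c hq
  have key : ∀ s, ∃ t : (Fq k q)ˣ, fx y s = δ * (((t : Fq k q) : k) * fx x s) := by
    intro s
    have e : fx y s ^ (q - 1) = (δ * fx x s) ^ (q - 1) := by rw [mul_pow, hδ]; exact hc s
    by_cases h0 : δ * fx x s = 0
    · rw [h0, zero_pow hq.ne', pow_eq_zero_iff hq.ne'] at e
      exact ⟨1, by rw [e, mul_left_comm, h0, mul_zero]⟩
    · refine ⟨toFqUnit (fx y s / (δ * fx x s)) (by rw [div_pow, e, div_self (pow_ne_zero _ h0)]), ?_⟩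
      rw [toFqUnit_val, mul_left_comm, div_mul_cancel₀ _ h0]
  choose t ht using key
  exact ⟨δ, t, ht⟩

theorem Weil.fgen_one (W : Weil.{u, v, w} k K) {q : ℕ} [IsQ k q] {n : ℕ}
    (g : (Fin (n + 3) → (Fq k q)ˣ) → Mor (Fq1 k q n) (Fq1 k q n))
    (hg : ∀ t x, ∃ c : k, c ≠ 0 ∧ ∀ s, fx ((g t).1 x) s = c * (((t s : Fq k q) : k) * fx x s))
    {i j : ℕ} {a a' : W.H (Fq1 k q n)} (ha : a ∈ W.gr _ i) (ha' : a' ∈ W.gr _ j)
    (h' : ∀ t, W.pull (g t) a' = a') (h : W.tr _ (a * a') ≠ 0) : a ∉ W.Ann q _ := by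
  intro hA
  obtain ⟨P, p, r, hP⟩ := exists_prod (Fq1 k q n) (Yv k q fun _ : Fin (n + 1) => false)
  obtain ⟨ζ, hζ, c, hc⟩ := W.composition' hP (by rw [d_Fv, Fintype.card_fin])
    {z | ((FGen1_pi k q n).comp p).1 z = ((FGen1_rho k q n).comp r).1 z}
    (isClosed_eq_mor ((FGen1_pi k q n).comp p).2 ((FGen1_rho k q n).comp r).2)
    ∅ finite_empty (fun _ h => h.elim) a a' ha ha' h (fun _ h => h.elim) (range g) (finite_range g)
    (fun s s' μ _ _ h1 h2 => by
      simp only [mem_ofPred_eq, Mor.comp_apply, IsProd.fst_mk, IsProd.snd_mk] at h1 h2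
      obtain ⟨δ, t, ht⟩ := FGen1_fib (h2.trans h1.symm)
      obtain ⟨c, hc, e⟩ := hg t s
      refine ⟨g t, mem_range_self t, fx_ext (δ / c) fun i => ?_⟩
      rw [ht, e]
      field_simp)
    (by rintro _ ⟨t, rfl⟩; exact h' t)
    (fun s _ => by
      obtain ⟨μ, hμ⟩ := FGen1_surj s
      exact ⟨μ, by simpa only [mem_ofPred_eq, Mor.comp_apply, IsProd.fst_mk, IsProd.snd_mk]⟩)
  exact hc (hA _ _ P p r hP ζ hζ c)

end Pool.Agent.MP_0c8446_ag

end
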