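import Pool.Agent.Mg.F0c8446.G601e39
import Pool.Agent.Mg.F0c8446.Gaba67e

section

namespace Pool.Agent.MP_0c8446_ag

open MvPolynomial Set Matrix

universe u v w

variable {R : Type u} [CommRing R] {n : ℕ} {alt : Bool} {x y : Matrix (Fin n) (Fin n) R}

/-- The signs in the form. -/
def sg (R : Type u) [CommRing R] (alt : Bool) (a : Fin n) : R :=
  if alt = true ∧ a.rev < a then -1 else 1

/-- The sign of the form. -/
def eps (R : Type u) [CommRing R] (alt : Bool) : R := if alt = true then -1 else 1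

lemma AdjA_det {o : Fin n → ℕ} (ho : Function.Injective o) (h : x.BlockTriangular o) :
    x.det = ∏ a, x a a := by
  rw [det_apply', Finset.sum_eq_single 1 (fun σ _ hσ => ?_) (by simp)]
  · simp
  · by_contra hne
    have h1 : ∀ i, o (σ i) ≤ o i := fun i => not_lt.1 fun hi =>
      hne (by
        rw [Finset.prod_eq_zero (f := fun i => x (σ i) i) (Finset.mem_univ i) (h hi), mul_zero])
    have h2 := (Finset.sum_eq_sum_iff_of_le (s := Finset.univ) (fun i _ => h1 i)).1
      (Equiv.sum_comp σ o)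
    exact hσ (Equiv.ext fun i => ho (h2 i (Finset.mem_univ i)))

lemma AdjA_mid {a : Fin n} (ha : a.rev = a) :
    (Finset.univ.filter fun a : Fin n => a.rev = a) = {a} := by
  ext b
  rw [Finset.mem_filter, Finset.mem_singleton]
  refine ⟨fun hb => Fin.ext ?_, fun e => ⟨Finset.mem_univ _, e ▸ ha⟩⟩
  have h1 := congrArg Fin.val ha
  have h2 := congrArg Fin.val hb.2
  have h3 := a.2
  have h4 := b.2
  rw [Fin.val_rev] at h1 h2
  omega

theorem sg_mul_self (a : Fin n) : sg R alt a * sg R alt a = 1 := by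
  unfold sg
  split_ifs <;> simp

theorem sg_rev (ev : Ev alt n) (a : Fin n) : sg R alt a.rev = eps R alt * sg R alt a := by
  unfold sg eps
  cases alt
  · simp
  · obtain ⟨m, hm⟩ := ev rfl
    have h2 := a.2
    simp only [Fin.rev_rev, true_and, if_true, Fin.lt_def, Fin.val_rev]
    split_ifs with h1 h3
    · omega
    · simp
    · simp
    · omega

theorem jM_apply (a b : Fin n) : jM R alt n a b = if b = a.rev then sg R alt a else 0 := by
  unfold jM sg
  rw [of_apply]
  split_ifs with h1 h2 h3 h3 <;> first | rfl | (subst h1; contradiction)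

theorem jM_transpose (ev : Ev alt n) : (jM R alt n)ᵀ = eps R alt • jM R alt n := by
  ext a b
  rw [transpose_apply, Matrix.smul_apply, jM_apply, jM_apply, smul_eq_mul]
  by_cases h : b = a.rev
  · subst h
    rw [if_pos (Fin.rev_rev a).symm, if_pos rfl, sg_rev ev]
  · rw [if_neg h, if_neg (fun e => h (by rw [e, Fin.rev_rev])), mul_zero]

theorem adj_apply (x : Matrix (Fin n) (Fin n) R) (a b : Fin n) :
    adj alt x a b = sg R alt a.rev * sg R alt b.rev * x b.rev a.rev := by
  have hne : ∀ {c d : Fin n}, c ≠ d.rev → ¬ d = c.rev := fun hc e => hc (by rw [e, Fin.rev_rev])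
  rw [adj, Matrix.mul_apply, Finset.sum_eq_single b.rev
    (fun c _ hc => by rw [jM_apply, if_neg (hne hc), mul_zero]) (by simp), Matrix.mul_apply,
    Finset.sum_eq_single a.rev
    (fun c _ hc => by rw [transpose_apply, jM_apply, if_neg (hne hc), zero_mul]) (by simp)]
  simp only [transpose_apply, jM_apply, Fin.rev_rev, if_true]
  ring

theorem adj_apply_self (x : Matrix (Fin n) (Fin n) R) (a : Fin n) :
    adj alt x a a = x a.rev a.rev := by
  rw [adj_apply, sg_mul_self, one_mul]

theorem adj_adj (ev : Ev alt n) (x : Matrix (Fin n) (Fin n) R) : adj alt (adj alt x) = x := by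
  ext a b
  rw [adj_apply, adj_apply]
  simp only [Fin.rev_rev, sg_rev ev]
  have h : eps R alt * eps R alt = 1 := by
    unfold eps
    split_ifs <;> simp
  calc _ = (eps R alt * eps R alt) * (sg R alt a * sg R alt a) * (sg R alt b * sg R alt b) *
        x a b := by ring
    _ = _ := by rw [h, sg_mul_self, sg_mul_self]; ring

theorem adj_add (x y : Matrix (Fin n) (Fin n) R) : adj alt (x + y) = adj alt x + adj alt y := by
  simp only [adj, transpose_add, mul_add, add_mul]

theorem adj_sub (x y : Matrix (Fin n) (Fin n) R) : adj alt (x - y) = adj alt x - adj alt y := by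
  simp only [adj, transpose_sub, mul_sub, sub_mul]

theorem adj_neg (x : Matrix (Fin n) (Fin n) R) : adj alt (-x) = -adj alt x := by
  simp only [adj, transpose_neg, mul_neg, neg_mul]

theorem adj_smul (c : R) (x : Matrix (Fin n) (Fin n) R) : adj alt (c • x) = c • adj alt x := by
  simp only [adj, transpose_smul, Matrix.mul_smul, Matrix.smul_mul]

theorem adj_zero : adj alt (0 : Matrix (Fin n) (Fin n) R) = 0 := by
  simp only [adj, transpose_zero, mul_zero, zero_mul]

theorem adj_pow (x : Matrix (Fin n) (Fin n) R) (i : ℕ) : adj alt (x ^ i) = adj alt x ^ i := by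
  induction i with
  | zero => rw [pow_zero, pow_zero, adj_one]
  | succ i ih => rw [pow_succ, adj_mul, ih, pow_succ']

theorem adj_sum {ι : Type*} (s : Finset ι) (f : ι → Matrix (Fin n) (Fin n) R) :
    adj alt (∑ i ∈ s, f i) = ∑ i ∈ s, adj alt (f i) := by
  simp only [adj, transpose_sum, Finset.mul_sum, Finset.sum_mul]

theorem adj_diagonal (d : Fin n → R) : adj alt (diagonal d) = diagonal fun a => d a.rev := by
  ext a b
  rw [adj_apply]
  by_cases h : a = b
  · subst h
    rw [sg_mul_self, one_mul, diagonal_apply_eq, diagonal_apply_eq]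
  · rw [diagonal_apply_ne _ h, diagonal_apply_ne _ (fun e => h (Fin.rev_injective e).symm),
      mul_zero]

theorem adj_single (a b : Fin n) (c : R) :
    adj alt (Matrix.single a b c) = Matrix.single b.rev a.rev (sg R alt a * sg R alt b * c) := by
  ext i j
  rw [adj_apply]
  by_cases h : b.rev = i ∧ a.rev = j
  · obtain ⟨rfl, rfl⟩ := h
    simp only [Fin.rev_rev, Matrix.single_apply_same]
    ring
  · rw [Matrix.single_apply_of_ne _ _ _ _ _ h, Matrix.single_apply_of_ne, mul_zero]
    rintro ⟨rfl, rfl⟩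
    exact h ⟨Fin.rev_rev _, Fin.rev_rev _⟩

theorem det_adj (x : Matrix (Fin n) (Fin n) R) : (adj alt x).det = x.det := by
  have h := congrArg det (jM_transpose_mul (R := R) (n := n) (alt := alt))
  rw [det_mul, det_one] at h
  rw [adj, det_mul, det_mul, det_transpose x, mul_right_comm, h, one_mul]

theorem IsU.det_sq (h : IsU alt x) : x.det * x.det = 1 := by
  have e := congrArg det h.adj_mul
  rwa [det_mul, det_adj, det_one] at e

theorem adj_mem {k : Type u} [Field k] [Algebra k R] (O : Subalgebra k R) (h : ∀ a b, x a b ∈ O) :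
    ∀ a b, adj alt x a b ∈ O := by
  intro a b
  have hs : ∀ c : Fin n, sg R alt c ∈ O := fun c => by
    unfold sg
    split_ifs
    exacts [O.neg_mem O.one_mem, O.one_mem]
  rw [adj_apply]
  exact O.mul_mem (O.mul_mem (hs _) (hs _)) (h _ _)

/-- The isometry condition for two columns. -/
theorem IsU.col (h : IsU alt x) (a b : Fin n) :
    ∑ c, sg R alt c * (x c a * x c.rev b) = if b = a.rev then sg R alt a else 0 := by
  rw [← jM_apply, ← congrFun (congrFun h a) b, Matrix.mul_assoc, Matrix.mul_apply]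
  refine Finset.sum_congr rfl fun c _ => ?_
  rw [Matrix.mul_apply, Finset.sum_eq_single c.rev
    (fun d _ hd => by rw [jM_apply, if_neg hd, zero_mul]) (by simp), jM_apply, if_pos rfl,
    transpose_apply]
  ring

theorem SymP.eq {b : Fin n → ℕ} (h : SymP b) {a a' : Fin n} (e : b a = b a') :
    b a.rev = b a'.rev := by
  rcases lt_trichotomy (b a.rev) (b a'.rev) with h1 | h1 | h1
  · have := h _ _ h1
    rw [Fin.rev_rev, Fin.rev_rev] at this
    omega
  · exact h1
  · have := h _ _ h1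
    rw [Fin.rev_rev, Fin.rev_rev] at this
    omega

theorem SymP.lt_iff {b : Fin n → ℕ} (h : SymP b) {a a' : Fin n} :
    b a'.rev < b a.rev ↔ b a < b a' := by
  refine ⟨fun h1 => ?_, h a a'⟩
  have := h _ _ h1
  rwa [Fin.rev_rev, Fin.rev_rev] at this

theorem SymP.comp {b : Fin n → ℕ} (h : SymP b) {z : Fin n → Fin n}
    (hz : ∀ a, z a.rev = (z a).rev) : SymP (b ∘ z) := by
  intro a a' h1
  simp only [Function.comp_apply, hz]
  exact h _ _ h1

theorem symP_val : SymP (Fin.val : Fin n → ℕ) := by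
  intro a a' h1
  have := a'.2
  rw [Fin.val_rev, Fin.val_rev]
  omega

theorem SymP.adj {b : Fin n → ℕ} (h : SymP b) (hx : x.BlockTriangular b) :
    (adj alt x).BlockTriangular b := by
  intro i j hij
  rw [adj_apply, hx (h _ _ hij), mul_zero]

theorem Sg.mul {b₁ b₂ : Fin n → ℕ} (h : Sg alt b₁ b₂ x) (h' : Sg alt b₁ b₂ y) :
    Sg alt b₁ b₂ (x * y) := by
  exact ⟨h.1.mul h'.1, h.2.1.mul h'.2.1, h.2.2.mul h'.2.2⟩

theorem Sg.adj {b₁ b₂ : Fin n → ℕ} (h₁ : SymP b₁) (h₂ : SymP b₂) (h : Sg alt b₁ b₂ x) :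
    Sg alt b₁ b₂ (adj alt x) := by
  exact ⟨h.1.adj, h₁.adj h.2.1, h₂.adj h.2.2⟩

/-- The determinant of a triangular matrix. -/
theorem bt_det {o : Fin n → ℕ} (ho : Function.Injective o) (h : x.BlockTriangular o) :
    x.det = ∏ a, x a a := by
  exact AdjA_det ho h

theorem bt_mul_apply {o : Fin n → ℕ} (ho : Function.Injective o) (h : x.BlockTriangular o)
    (h' : y.BlockTriangular o) (a : Fin n) : (x * y) a a = x a a * y a a := by
  rw [Matrix.mul_apply]
  refine Finset.sum_eq_single a (fun c _ hc => ?_) (by simp)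
  rcases lt_or_gt_of_ne (ho.ne hc) with h1 | h1
  · rw [h h1, zero_mul]
  · rw [h' h1, mul_zero]

/-- Strictly triangular matrices are nilpotent. -/
theorem bt_pow_eq_zero {o : Fin n → ℕ} (ho : Function.Injective o) (h : x.BlockTriangular o)
    (h0 : ∀ a, x a a = 0) : x ^ n = 0 := by
  have h1 : (charmatrix x).BlockTriangular o := h.charmatrix
  have h2 : x.charpoly = Polynomial.X ^ n := by
    rw [Matrix.charpoly, bt_det ho h1]
    simp [h0]
  have h3 := Matrix.aeval_self_charpoly x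
  rwa [h2, map_pow, Polynomial.aeval_X] at h3

theorem IsU.diag_mul {o : Fin n → ℕ} (ho : Function.Injective o) (hs : SymP o) (h : IsU alt x)
    (hb : x.BlockTriangular o) (a : Fin n) : x a.rev a.rev * x a a = 1 := by
  rw [← adj_apply_self (alt := alt) x a, ← bt_mul_apply ho (hs.adj hb) hb, h.adj_mul, one_apply_eq]

/-- The determinant of a triangular isometry is the product of the middle entries. -/
theorem IsU.det_eq {o : Fin n → ℕ} (ho : Function.Injective o) (hs : SymP o) (h : IsU alt x)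
    (hb : x.BlockTriangular o) :
    x.det = ∏ a ∈ Finset.univ.filter fun a : Fin n => a.rev = a, x a a := by
  rw [bt_det ho hb, ← Finset.prod_filter_mul_prod_filter_not Finset.univ
    (fun a : Fin n => a.rev = a), Finset.prod_involution
    (s := Finset.univ.filter fun a : Fin n => ¬ a.rev = a) (fun a _ => a.rev)
    (fun a _ => by rw [mul_comm]; exact h.diag_mul ho hs hb a)
    (fun a ha _ => (Finset.mem_filter.1 ha).2)
    (fun a ha => Finset.mem_filter.2 ⟨Finset.mem_univ _, fun e =>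
      (Finset.mem_filter.1 ha).2 (by rw [Fin.rev_rev] at e; exact e.symm)⟩)
    (fun a _ => Fin.rev_rev a), mul_one]

theorem SU.mid {o : Fin n → ℕ} (ho : Function.Injective o) (hs : SymP o) (h : SU alt x)
    (hb : x.BlockTriangular o) {a : Fin n} (ha : a.rev = a) : x a a = 1 := by
  rw [← h.2, h.1.det_eq ho hs hb, AdjA_mid ha, Finset.prod_singleton]

/-- A triangular isometry has determinant one up to the sign of the whole matrix. -/
theorem IsU.su_or [IsDomain R] {o : Fin n → ℕ} (ho : Function.Injective o) (hs : SymP o)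
    (h : IsU alt x) (hb : x.BlockTriangular o) : SU alt x ∨ SU alt (-x) := by
  by_cases hm : ∃ a : Fin n, a.rev = a
  · obtain ⟨a, ha⟩ := hm
    rcases mul_self_eq_one_iff.1 h.det_sq with h1 | h1
    · exact Or.inl ⟨h, h1⟩
    · refine Or.inr ⟨?_, ?_⟩
      · unfold IsU at *
        rw [transpose_neg, neg_mul, neg_mul_neg, h]
      · have h2 : Odd n := by
          have := congrArg Fin.val ha
          have h3 := a.2
          rw [Fin.val_rev] at this
          exact ⟨a, by omega⟩
        rw [det_neg, Fintype.card_fin, h2.neg_one_pow, h1, neg_mul_neg, one_mul]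
  · refine Or.inl ⟨h, ?_⟩
    rw [h.det_eq ho hs hb, Finset.filter_eq_empty_iff.2 (fun a _ e => hm ⟨a, e⟩),
      Finset.prod_empty]

end Pool.Agent.MP_0c8446_ag

end

section

namespace Pool.Agent.MP_0c8446_ag

open MvPolynomial Set Matrix

universe u v w

variable {n : ℕ} {s : ℕ}

lemma Cbk_lt {a a' : Fin n} : cbk n s a < cbk n s a' ↔
    ∃ c, (a : ℕ) ≤ c ∧ c < a' ∧ c ≠ s ∧ c + s + 2 ≠ n := by
  constructor
  · intro h
    by_contra H
    refine h.not_ge (Finset.card_le_card fun c hc => ?_)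
    rw [Finset.mem_filter, Finset.mem_range] at hc ⊢
    exact ⟨not_le.1 fun h1 => H ⟨c, h1, hc.1, hc.2⟩, hc.2⟩
  · rintro ⟨c, h1, h2, h3⟩
    refine Finset.card_lt_card ⟨fun d hd => ?_, fun H => ?_⟩
    · rw [Finset.mem_filter, Finset.mem_range] at hd ⊢
      exact ⟨by omega, hd.2⟩
    · have := H (Finset.mem_filter.2 ⟨Finset.mem_range.2 h2, h3⟩)
      rw [Finset.mem_filter, Finset.mem_range] at this
      omega

theorem cbk_mono {a a' : Fin n} (h : a ≤ a') : cbk n s a ≤ cbk n s a' := by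
  refine not_lt.1 fun H => ?_
  obtain ⟨c, h1, h2, -⟩ := Cbk_lt.1 H
  rw [Fin.le_def] at h
  omega

theorem symP_cbk : SymP (cbk n s) := by
  intro a a' h
  obtain ⟨c, h1, h2, h3, h4⟩ := Cbk_lt.1 h
  have := a'.2
  refine Cbk_lt.2 ⟨n - 2 - c, ?_⟩
  rw [Fin.val_rev, Fin.val_rev]
  omega

/-- The blocks of `cbk`. -/
theorem cbk_eq {a a' : Fin n} (h : a < a') (e : cbk n s a = cbk n s a') (hs : 2 * s + 2 ≤ n) :
    ((a : ℕ) = s ∧ (a' : ℕ) = s + 1) ∨ (a + s + 2 = n ∧ a' + s + 1 = n) ∨
      ((a : ℕ) = s ∧ (a' : ℕ) = s + 2 ∧ 2 * s + 3 = n) := by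
  have H : ∀ c, (a : ℕ) ≤ c → c < a' → c = s ∨ c + s + 2 = n := fun c h1 h2 => by
    by_contra h3
    exact e.not_lt (Cbk_lt.2 ⟨c, h1, h2, not_or.1 h3⟩)
  have h0 := H a
  have h1 := H (a + 1)
  have h2 := H (a + 2)
  rw [Fin.lt_def] at h
  omega

theorem cbk_succ {a a' : Fin n} (h : (a : ℕ) = s) (h' : (a' : ℕ) = s + 1) :
    cbk n s a = cbk n s a' := by
  refine le_antisymm (cbk_mono (by rw [Fin.le_def]; omega)) (not_lt.1 fun H => ?_)
  obtain ⟨c, h1, h2, h3, -⟩ := Cbk_lt.1 H
  omega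

theorem symP_blC {r : ℕ} (w : Fin r → ℕ × Bool) (j : Fin (r + 1)) : SymP (blC n w j) := by
  refine Fin.lastCases ?_ (fun j => ?_) j
  · rw [blC, Fin.lastCases_last]
    exact symP_val
  · rw [blC, Fin.lastCases_castSucc]
    exact symP_cbk.comp (sw_rev _)

theorem blC_last {r : ℕ} (w : Fin r → ℕ × Bool) : blC n w (Fin.last r) = Fin.val := by
  rw [blC, Fin.lastCases_last]

theorem blC_castSucc {r : ℕ} (w : Fin r → ℕ × Bool) (j : Fin r) :
    blC n w j.castSucc = cbk n (w j).1 ∘ sw n (w j).2 := by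
  rw [blC, Fin.lastCases_castSucc]

theorem nyC_last {r : ℕ} (t : Bool) (y : Fin (r + 1) → Equiv.Perm (Fin n)) :
    nyC t y (Fin.last r) = swP n t * y 0 * swP n t := by
  rw [nyC, Fin.lastCases_last]

theorem nyC_castSucc {r : ℕ} (t : Bool) (y : Fin (r + 1) → Equiv.Perm (Fin n)) (j : Fin r) :
    nyC t y j.castSucc = y j.succ := by
  rw [nyC, Fin.lastCases_castSucc]

variable {k : Type u} [Field k] {alt : Bool} {x : Matrix (Fin n) (Fin n) k}

/-- Upper triangular isometries stay triangular when the middle positions are exchanged. -/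
theorem IsU.bt_sw (two : (2 : k) ≠ 0) {t : Bool} (ht : alt = true → t = false) (h : IsU alt x)
    (hb : x.BlockTriangular Fin.val) : x.BlockTriangular (Fin.val ∘ sw n t) := by
  intro i j hij
  rcases lt_or_ge (j : ℕ) i with h1 | h1
  · exact hb h1
  obtain ⟨rfl, hi, hj⟩ : t = true ∧ 2 * (i : ℕ) + 2 = n ∧ 2 * (j : ℕ) = n := by
    have := i.2
    have := j.2
    simp only [Function.comp, sw] at hij
    split_ifs at hij with h2 h3 h3
    all_goals try rw [Fin.val_rev] at hij
    all_goals try rw [Fin.val_rev] at hij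
    · exact ⟨h2.1, by omega⟩
    · exact absurd ⟨h2.1, by omega⟩ h3
    · exact absurd ⟨h3.1, by omega⟩ h2
    · omega
  obtain rfl : alt = false := by simpa using ht
  have e1 : i.rev = j := Fin.ext (by rw [Fin.val_rev]; omega)
  have e2 : j.rev = i := Fin.ext (by rw [Fin.val_rev]; omega)
  have hne : i ≠ j := fun e => by rw [e] at hi; omega
  have h2 := h.col j j
  rw [if_neg (by rw [e2]; exact hne.symm), Fintype.sum_eq_add i j hne fun c hc => by
    have h3 : (c : ℕ) ≠ i := fun e => hc.1 (Fin.ext e)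
    have h4 : (c : ℕ) ≠ j := fun e => hc.2 (Fin.ext e)
    rcases lt_or_ge (j : ℕ) c with h5 | h5
    · rw [hb h5, zero_mul, mul_zero]
    · rw [hb (i := c.rev) (j := j) (by rw [Fin.val_rev]; omega), mul_zero, mul_zero], e1, e2] at h2
  have h3 : x j j ≠ 0 := right_ne_zero_of_mul_eq_one (h.diag_mul Fin.val_injective symP_val hb j)
  simp only [sg, Bool.false_eq_true, false_and, if_false, one_mul] at h2
  exact (mul_eq_zero.1 (show x i j * (2 * x j j) = 0 by linear_combination h2)).resolve_right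
    (mul_ne_zero two h3)

theorem IsU.bt_blC (two : (2 : k) ≠ 0) {r : ℕ} {w : Fin r → ℕ × Bool}
    (hw : alt = true → ∀ j, (w j).2 = false) (h : IsU alt x) (hb : x.BlockTriangular Fin.val)
    (j : Fin (r + 1)) : x.BlockTriangular (blC n w j) := by
  refine Fin.lastCases ?_ (fun j => ?_) j
  · rwa [blC_last]
  · rw [blC_castSucc]
    exact fun a b hab => h.bt_sw two (fun e => hw e j) hb
      (not_le.1 fun H => hab.not_ge (cbk_mono H))

theorem IsU.bt_frC (two : (2 : k) ≠ 0) {t : Bool} (ht : alt = true → t = false) {q : ℕ} [PQ k q]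
    (h : IsU alt x) (hb : x.BlockTriangular Fin.val) : (frC t q x).BlockTriangular Fin.val := by
  intro a b hab
  exact (h.map (frobHom k q)).bt_sw two ht (hb.map _) (i := sw n t a) (j := sw n t b)
    (by simpa only [Function.comp, sw_sw] using hab)

end Pool.Agent.MP_0c8446_ag

end

section

namespace Pool.Agent.MP_0c8446_ag

open MvPolynomial Set Matrix

universe u v w

variable {k : Type u} [Field k] {Ω : Type u} [Field Ω] [Algebra k Ω] {n : ℕ} {alt : Bool}

lemma Fix_aeval (S : Matrix (Fin n) (Fin n) Ω → Prop) {T : Matrix (Fin n) (Fin n) Ω}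
    (ha : ∀ x y, S x → S y → S (x + y)) (hs : ∀ (c : k) x, S x → S (algebraMap k Ω c • x))
    (hp : ∀ m : ℕ, S (T ^ m)) (P : Polynomial k) : S (Polynomial.aeval T P) := by
  induction P using Polynomial.induction_on' with
  | add p q hp' hq' => rw [map_add]; exact ha _ _ hp' hq'
  | monomial m c =>
    rw [Polynomial.aeval_monomial, ← Algebra.smul_def, ← algebraMap_smul Ω c]
    exact hs _ _ (hp m)

lemma Fix_one {Ω' : Type u} [Field Ω'] [Algebra k Ω'] (Pl : Place k Ω Ω') (a b : Fin n) :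
    (1 : Matrix (Fin n) (Fin n) Ω) a b ∈ Pl.O := by
  rw [Matrix.one_apply]
  split_ifs
  exacts [one_mem _, zero_mem _]

lemma Fix_diag {Ω' : Type u} [Field Ω'] [Algebra k Ω'] (Pl : Place k Ω Ω') {d : Fin n → Ω}
    (hd : ∀ a, d a ∈ Pl.O) (a b : Fin n) : diagonal d a b ∈ Pl.O := by
  rw [Matrix.diagonal_apply]
  split_ifs
  exacts [hd a, zero_mem _]

lemma Fix_d [IsAlgClosed Ω] {e : Fin n → Ω} (h0 : ∀ a, e a ≠ 0) (hr : ∀ a, e a.rev = e a) :
    ∃ d : Fin n → Ω, (∀ a, d a.rev * e a * d a = 1) ∧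
      ∀ a, d a = (e a)⁻¹ ∨ d a = 1 ∨ d a ^ 2 = (e a)⁻¹ := by
  choose r hr' using fun a => IsAlgClosed.exists_pow_nat_eq (e a)⁻¹ (n := 2) (by norm_num)
  refine ⟨fun a => if a < a.rev then (e a)⁻¹ else if a.rev < a then 1 else r a, fun a => ?_,
    fun a => ?_⟩
  · simp only [Fin.rev_rev]
    rcases lt_trichotomy a a.rev with h | h | h
    · rw [if_neg h.not_gt, if_pos h, if_pos h, one_mul, mul_inv_cancel₀ (h0 a)]
    · rw [← h, if_neg (lt_irrefl a), if_neg (lt_irrefl a), mul_right_comm, ← sq, hr',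
        inv_mul_cancel₀ (h0 a)]
    · rw [if_pos h, if_neg h.not_gt, if_pos h, hr, mul_one, inv_mul_cancel₀ (h0 a)]
  · dsimp only
    split_ifs
    exacts [Or.inl rfl, Or.inr (Or.inl rfl), Or.inr (Or.inr (hr' a))]

/-- The inverse square root of `1 + X` modulo a power of `X`. -/
theorem exists_invSqrt (two : (2 : k) ≠ 0) (N : ℕ) :
    ∃ P : Polynomial k, Polynomial.X ^ N ∣ P ^ 2 * (1 + Polynomial.X) - 1 := by
  have key : ∀ N : ℕ, ∃ P : Polynomial k,
      Polynomial.X ^ (N + 1) ∣ P ^ 2 * (1 + Polynomial.X) - 1 := fun N => by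
    induction N with
    | zero => exact ⟨1, 1, by ring⟩
    | succ N ih =>
      obtain ⟨P, hP⟩ := ih
      have hh : (Polynomial.C (2⁻¹ : k)) * 2 = 1 := by
        rw [← map_ofNat Polynomial.C 2, ← map_mul, inv_mul_cancel₀ two, map_one]
      generalize Polynomial.C (2⁻¹ : k) = h at hh
      obtain ⟨E, hE⟩ : ∃ E, E = P ^ 2 * (1 + Polynomial.X) - 1 := ⟨_, rfl⟩
      rw [← hE] at hP
      refine ⟨P * (1 - h * E), ?_⟩
      have e : (P * (1 - h * E)) ^ 2 * (1 + Polynomial.X) - 1 = E * E * (h ^ 2 * (1 + E) - 1) := by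
        linear_combination (-(1 - h * E) ^ 2) * hE - (1 + E) * E * hh
      rw [e]
      refine Dvd.dvd.mul_right ?_ _
      rw [pow_succ]
      exact mul_dvd_mul hP ((dvd_pow_self _ N.succ_ne_zero).trans hP)
  obtain ⟨P, hP⟩ := key N
  exact ⟨P, (pow_dvd_pow _ N.le_succ).trans hP⟩

/-- A triangular Gram matrix can be normalised inside the triangular matrices. -/
theorem exists_fix [IsAlgClosed Ω] (two : (2 : k) ≠ 0) (ev : Ev alt n) {o b₂ : Fin n → ℕ}
    (ho : Function.Injective o) (hs : SymP o) {s : Matrix (Fin n) (Fin n) Ω} (hu : IsUnit s)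
    (ha : adj alt s = s) (h1 : s.BlockTriangular o) (h2 : s.BlockTriangular b₂) :
    ∃ c : Matrix (Fin n) (Fin n) Ω, c.BlockTriangular o ∧ c.BlockTriangular b₂ ∧
      adj alt c * s * c = 1 ∧ ∀ (Ω' : Type u) [Field Ω'] [Algebra k Ω'] (Pl : Place k Ω Ω'),
        Pl.IG s → ∀ a b, c a b ∈ Pl.O := by
  have h0 : ∀ a, s a a ≠ 0 := fun a => by
    have := ((Matrix.isUnit_iff_isUnit_det s).1 hu).ne_zero
    rw [bt_det ho h1] at this
    exact Finset.prod_ne_zero_iff.1 this a (Finset.mem_univ a)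
  have hr : ∀ a, s a.rev a.rev = s a a := fun a => by rw [← adj_apply_self (alt := alt) s a, ha]
  obtain ⟨d, hd, hd'⟩ := Fix_d (e := fun a => s a a) h0 hr
  obtain ⟨T, hT⟩ : ∃ T, T = adj alt (diagonal d) * s * diagonal d - 1 := ⟨_, rfl⟩
  have hTa : adj alt T = T := by
    rw [hT, adj_sub, adj_one, adj_mul, adj_mul, adj_adj ev, ha, mul_assoc]
  have hTb : ∀ b : Fin n → ℕ, s.BlockTriangular b → T.BlockTriangular b := fun b hb => by
    rw [hT, adj_diagonal]
    exact (((blockTriangular_diagonal _).mul hb).mul (blockTriangular_diagonal _)).sub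
      blockTriangular_one
  have hT0 : ∀ a, T a a = 0 := fun a => by
    rw [hT, adj_diagonal, Matrix.sub_apply, mul_diagonal, diagonal_mul, one_apply_eq, hd, sub_self]
  have hn : T ^ n = 0 := bt_pow_eq_zero ho (hTb o h1) hT0
  obtain ⟨P, Q, hP⟩ := exists_invSqrt two n
  have hU : ∀ b : Fin n → ℕ, s.BlockTriangular b →
      (diagonal d * Polynomial.aeval T P).BlockTriangular b := fun b hb =>
    (blockTriangular_diagonal _).mul (Fix_aeval (fun x => x.BlockTriangular b)
      (fun _ _ hx hy => hx.add hy)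
      (fun c x hx i j hij => by rw [Matrix.smul_apply, hx hij, smul_zero])
      (fun m => (hTb b hb).pow m) P)
  have hUa : adj alt (Polynomial.aeval T P) = Polynomial.aeval T P :=
    Fix_aeval (fun x => adj alt x = x) (fun _ _ hx hy => by rw [adj_add, hx, hy])
      (fun c x hx => by rw [adj_smul, hx]) (fun m => by rw [adj_pow, hTa]) P
  refine ⟨diagonal d * Polynomial.aeval T P, hU o h1, hU b₂ h2, ?_, fun Ω' _ _ Pl hs' => ?_⟩
  · have e : P * (1 + Polynomial.X) * P = 1 + Polynomial.X ^ n * Q := by linear_combination hP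
    have e' := congrArg (Polynomial.aeval T) e
    simp only [map_mul, map_add, map_one, map_pow, Polynomial.aeval_X, hn, zero_mul,
      add_zero] at e'
    have e'' : 1 + T = adj alt (diagonal d) * s * diagonal d := by rw [hT, add_sub_cancel]
    rw [e''] at e'
    rw [adj_mul, hUa, ← e']
    simp only [mul_assoc]
  · have hb : (s.map Pl.red).BlockTriangular o := fun i j hij => by
      rw [Matrix.map_apply, h1 hij, Pl.red_zero]
    have hi : ∀ a, (s a a)⁻¹ ∈ Pl.O := fun a => by
      have := ((Matrix.isUnit_iff_isUnit_det _).1 hs'.2).ne_zero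
      rw [bt_det ho hb] at this
      exact Pl.inv_mem (hs'.1 a a) (Finset.prod_ne_zero_iff.1 this a (Finset.mem_univ a))
    have hdO : ∀ a, d a ∈ Pl.O := fun a => by
      rcases hd' a with h | h | h
      · exact h ▸ hi a
      · exact h ▸ one_mem _
      · exact Pl.mem_of_pow (r := 2) (by norm_num) (h ▸ hi a)
    have hTO : ∀ a b, T a b ∈ Pl.O := fun a b => by
      rw [hT, Matrix.sub_apply]
      exact sub_mem ((Pl.map_red_mul (Pl.map_red_mul (adj_mem Pl.O (Fix_diag Pl hdO)) hs'.1).1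
        (Fix_diag Pl hdO)).1 a b) (Fix_one Pl a b)
    refine (Pl.map_red_mul (Fix_diag Pl hdO) (Fix_aeval (fun x => ∀ a b, x a b ∈ Pl.O)
      (fun _ _ hx hy a b => add_mem (hx a b) (hy a b))
      (fun c x hx a b => mul_mem (Pl.O.algebraMap_mem c) (hx a b)) (fun m => ?_) P)).1
    induction m with
    | zero => rw [pow_zero]; exact Fix_one Pl
    | succ m ih => rw [pow_succ]; exact (Pl.map_red_mul ih hTO).1

theorem Place.ig_of_isU {Ω' : Type u} [Field Ω'] [Algebra k Ω'] (Pl : Place k Ω Ω')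
    {x : Matrix (Fin n) (Fin n) Ω} (h : IsU alt x) (hO : ∀ a b, x a b ∈ Pl.O) : Pl.IG x := by
  exact ⟨hO, Pl.isUnit_map_red hO (h.inv_eq ▸ adj_mem Pl.O hO) h.isUnit⟩

theorem Place.adj_red {Ω' : Type u} [Field Ω'] [Algebra k Ω'] (Pl : Place k Ω Ω')
    {x : Matrix (Fin n) (Fin n) Ω} (hO : ∀ a b, x a b ∈ Pl.O) :
    (adj alt x).map Pl.red = adj alt (x.map Pl.red) := by
  obtain ⟨x₀, rfl⟩ := Pl.Plc_lift hO
  rw [← adj_map Pl.O.val, Pl.Plc_map, Pl.Plc_map, adj_map Pl.π]

theorem SU.red {Ω' : Type u} [Field Ω'] [Algebra k Ω'] (Pl : Place k Ω Ω')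
    {x : Matrix (Fin n) (Fin n) Ω} (h : SU alt x) (hO : ∀ a b, x a b ∈ Pl.O) :
    SU alt (x.map Pl.red) := by
  refine ⟨isU_iff.2 ?_, by rw [← (Pl.red_det hO).2, h.2, Pl.red_one]⟩
  rw [← Pl.adj_red hO, ← (Pl.map_red_mul (adj_mem Pl.O hO) hO).2, h.1.adj_mul, Pl.Plc_one]

theorem AU.red {Ω' : Type u} [Field Ω'] [Algebra k Ω'] (Pl : Place k Ω Ω')
    {x : Matrix (Fin n) (Fin n) Ω} (h : AU alt x) (hO : ∀ a b, x a b ∈ Pl.O) :
    Pl.IG x ∧ AU alt (x.map Pl.red) ∧ (x.map Pl.red).det = Pl.red x.det := by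
  have e0 : (jM Pl.O alt n).map Pl.O.val = jM Ω alt n := jM_map Pl.O.val
  have hj : ∀ a b, jM Ω alt n a b ∈ Pl.O := fun a b => e0 ▸ (jM Pl.O alt n a b).2
  have e1 : (jM Ω alt n).map Pl.red = jM Ω' alt n := by rw [← e0, Pl.Plc_map, jM_map Pl.π]
  have hT : ∀ a b, xᵀ a b ∈ Pl.O := fun a b => hO b a
  have hA : AU alt (x.map Pl.red) := by
    have e := congrArg (fun z => z.map Pl.red) h
    simp only [(Pl.map_red_mul (Pl.map_red_mul hT hj).1 hO).2, (Pl.map_red_mul hT hj).2,
      transpose_map, e1] at e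
    exact e
  exact ⟨⟨hO, hA.isUnit⟩, hA, (Pl.red_det hO).2.symm⟩

end Pool.Agent.MP_0c8446_ag

end
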