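import Pool.Agent.Mg.F0c8446.Ga3916d
import Pool.Agent.Mg.F0c8446.G59af56
import Pool.Agent.Mg.F0c8446.Gedbeda
import Pool.Agent.Mg.F0c8446.G6a6d70
import Pool.Agent.Mg.F0c8446.Gb6da35

section

namespace Pool.Agent.MP_0c8446_ag

open MvPolynomial Set Matrix

universe u v w

variable {k : Type u} [Field k] {n : ℕ} {alt : Bool}

section cayley

variable {R : Type u} [CommRing R] {o b₂ : Fin n → ℕ} {hf : R}
  {N Y x A G : Matrix (Fin n) (Fin n) R}

/-- The truncated geometric series. -/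
def ChB_g (N : Matrix (Fin n) (Fin n) R) : Matrix (Fin n) (Fin n) R := ∑ i ∈ Finset.range n, N ^ i

/-- The diagonal part. -/
def ChB_d (x : Matrix (Fin n) (Fin n) R) : Matrix (Fin n) (Fin n) R := diagonal fun a => x a a

/-- The Cayley transform of the unipotent part. -/
def ChB_cay (alt : Bool) (hf : R) (x : Matrix (Fin n) (Fin n) R) : Matrix (Fin n) (Fin n) R :=
  1 - ChB_g (hf • (1 - adj alt (ChB_d x) * x))

/-- Strictly triangular matrices. -/
def ChB_St (o b₂ : Fin n → ℕ) (N : Matrix (Fin n) (Fin n) R) : Prop :=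
  N.BlockTriangular o ∧ N.BlockTriangular b₂ ∧ ∀ a, N a a = 0

/-- The positions of the coordinates. -/
def ChB_P (alt : Bool) (o b₂ : Fin n → ℕ) (a b : Fin n) : Prop :=
  o a < o b ∧ b₂ a ≤ b₂ b ∧ (a < b.rev ∨ alt = true ∧ a = b.rev)

theorem ChB_cay_map {R' : Type u} [CommRing R'] (φ : R →+* R') (hf : R)
    (x : Matrix (Fin n) (Fin n) R) : (ChB_cay alt hf x).map φ = ChB_cay alt (φ hf) (x.map φ) := by
  have h1 : (ChB_d x).map φ = ChB_d (x.map φ) := diagonal_map (map_zero φ)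
  have h2 : ∀ N : Matrix (Fin n) (Fin n) R, φ.mapMatrix (hf • N) = φ hf • φ.mapMatrix N :=
    fun N => by ext a b; simp
  change φ.mapMatrix _ = _
  simp only [ChB_cay, ChB_g, map_sub, map_one, map_sum, map_pow, h2, map_mul]
  simp only [RingHom.mapMatrix_apply, adj_map, h1]

theorem ChB_g_bt {b : Fin n → ℕ} (h : N.BlockTriangular b) : (ChB_g N).BlockTriangular b :=
  fun a c hc => by
    rw [ChB_g, Matrix.sum_apply]
    exact Finset.sum_eq_zero fun i _ => h.pow i hc

theorem ChB_mul_g (ho : Function.Injective o) (h : ChB_St o b₂ N) : (1 - N) * ChB_g N = 1 := by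
  rw [ChB_g, mul_neg_geom_sum, bt_pow_eq_zero ho h.1 h.2.2, sub_zero]

theorem ChB_g_diag (ho : Function.Injective o) (h : ChB_St o b₂ N) (a : Fin n) :
    ChB_g N a a = 1 := by
  have e := bt_mul_apply ho (blockTriangular_one.sub h.1) (ChB_g_bt h.1) a
  rw [ChB_mul_g ho h] at e
  simpa [h.2.2 a] using e.symm

theorem ChB_St.c (ho : Function.Injective o) (h : ChB_St o b₂ N) : ChB_St o b₂ (1 - ChB_g N) :=
  ⟨blockTriangular_one.sub (ChB_g_bt h.1), blockTriangular_one.sub (ChB_g_bt h.2.1),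
    fun a => by simp [ChB_g_diag ho h a]⟩

theorem ChB_g_g (ho : Function.Injective o) (h : ChB_St o b₂ N) :
    ChB_g (1 - ChB_g N) = 1 - N := by
  have e := ChB_mul_g ho (h.c ho)
  rw [sub_sub_cancel] at e
  calc _ = ((1 - N) * ChB_g N) * ChB_g (1 - ChB_g N) := by rw [ChB_mul_g ho h, one_mul]
    _ = _ := by rw [mul_assoc, e, mul_one]

theorem ChB_half (h2 : 2 * hf = 1) (Y : Matrix (Fin n) (Fin n) R) : hf • (Y + Y) = Y := by
  rw [← two_smul R Y, smul_smul, mul_comm, h2, one_smul]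

theorem ChB_skew (h2 : 2 * hf = 1) (e : A * G = 1) :
    IsU alt (A + A - 1) ↔ adj alt (1 - G) = -(1 - G) := by
  have e' : G * A = 1 := mul_eq_one_comm.1 e
  have f : adj alt G * adj alt A = 1 := by rw [← adj_mul, e, adj_one]
  have f' : adj alt A * adj alt G = 1 := mul_eq_one_comm.1 f
  rw [isU_iff, adj_sub, adj_sub, adj_add, adj_one]
  generalize adj alt A = B at f f'
  generalize adj alt G = H at f f'
  constructor
  · intro h
    have h1 : H * ((B + B - 1) * (A + A - 1)) * G =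
        (H * B + H * B - H) * (A * G + A * G - G) := by noncomm_ring
    rw [h, f, e, mul_one] at h1
    have h3 : (1 - H + (1 - G)) + (1 - H + (1 - G)) = (1 + 1 - H) * (1 + 1 - G) - H * G := by
      noncomm_ring
    rw [← h1, sub_self] at h3
    rw [eq_neg_iff_add_eq_zero, ← ChB_half h2 (1 - H + (1 - G)), h3, smul_zero]
  · intro h
    have h1 : B * (1 - H + (1 - G)) * A = B * A + B * A - B * H * A - B * (G * A) := by
      noncomm_ring
    rw [h, neg_add_cancel, f', e', mul_zero, zero_mul, one_mul, mul_one] at h1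
    have h3 : (B + B - 1) * (A + A - 1) =
        (B * A + B * A - A - B) + (B * A + B * A - A - B) + 1 := by noncomm_ring
    rw [h3, ← h1, add_zero, zero_add]

theorem ChB_sg (Q : R → Prop) (hn : ∀ c, Q c → Q (-c)) (a : Fin n) {c : R} (h : Q c) :
    Q (sg R alt a * c) := by
  unfold sg
  split_ifs
  · simpa using hn c h
  · simpa using h

/-- A skew matrix is controlled by its coordinates. -/
theorem ChB_ctrl (h2 : 2 * hf = 1) (ho : Function.Injective o) (hs : SymP o) (h₂ : SymP b₂)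
    (h : ChB_St o b₂ Y) (hk : adj alt Y = -Y) (Q : R → Prop) (h0 : Q 0) (hn : ∀ c, Q c → Q (-c))
    (hP : ∀ a b, ChB_P alt o b₂ a b → Q (Y a b)) (a b : Fin n) : Q (Y a b) := by
  have e : sg R alt a.rev * sg R alt b.rev * Y b.rev a.rev = -Y a b := by
    rw [← adj_apply, hk, Matrix.neg_apply]
  rcases lt_trichotomy (o a) (o b) with h1 | h1 | h1
  · rcases lt_or_ge (b₂ b) (b₂ a) with h3 | h3
    · rw [h.2.1 h3]; exact h0
    rcases lt_trichotomy a b.rev with h4 | h4 | h4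
    · exact hP a b ⟨h1, h3, Or.inl h4⟩
    · cases alt
      · have h5 : a.rev = b := by rw [h4, Fin.rev_rev]
        rw [← h4, h5] at e
        simp only [sg, Bool.false_eq_true, false_and, if_false, one_mul] at e
        have : Y a b = 0 := by linear_combination hf * e - Y a b * h2
        rw [this]; exact h0
      · exact hP a b ⟨h1, h3, Or.inr ⟨rfl, h4⟩⟩
    · have h5 := hP b.rev a.rev ⟨hs a b h1, not_lt.1 fun h6 => h3.not_gt (h₂.lt_iff.1 h6),
        Or.inl (by rwa [Fin.rev_rev])⟩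
      have h6 := hn _ (ChB_sg (alt := alt) Q hn a.rev (ChB_sg (alt := alt) Q hn b.rev h5))
      rwa [← mul_assoc, e, neg_neg] at h6
  · rw [ho h1, h.2.2]; exact h0
  · rw [h.1 h1]; exact h0

/-- Skew matrices with prescribed coordinates. -/
theorem ChB_exists (h2 : 2 * hf = 1) (ev : Ev alt n) (hs : SymP o) (h₂ : SymP b₂)
    (y : Fin n → Fin n → R) : ∃ Y : Matrix (Fin n) (Fin n) R, ChB_St o b₂ Y ∧ adj alt Y = -Y ∧
      ∀ a b, ChB_P alt o b₂ a b → Y a b = y a b := by
  classical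
  obtain ⟨Z, hZ⟩ : ∃ Z : Matrix (Fin n) (Fin n) R, ∀ a b, Z a b =
      if ChB_P alt o b₂ a b then (if a = b.rev then hf * y a b else y a b) else 0 :=
    ⟨Matrix.of _, fun _ _ => rfl⟩
  have z1 : Z.BlockTriangular o := fun a b h => by
    rw [hZ, if_neg fun h' => h'.1.not_gt h]
  have z2 : Z.BlockTriangular b₂ := fun a b h => by
    rw [hZ, if_neg fun h' => h'.2.1.not_gt h]
  have z3 : ∀ a, Z a a = 0 := fun a => by rw [hZ, if_neg fun h' => h'.1.false]
  refine ⟨Z - adj alt Z, ⟨z1.sub (hs.adj z1), z2.sub (h₂.adj z2), fun a => ?_⟩, ?_,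
    fun a b h => ?_⟩
  · rw [Matrix.sub_apply, adj_apply_self, z3, z3, sub_zero]
  · rw [adj_sub, adj_adj ev, neg_sub]
  · rw [Matrix.sub_apply, adj_apply]
    rcases h.2.2 with h1 | ⟨h1, h3⟩
    · have h4 : ¬ ChB_P alt o b₂ b.rev a.rev := fun h' => by
        rcases h'.2.2 with h5 | ⟨-, h5⟩ <;> rw [Fin.rev_rev] at h5
        · exact h5.not_gt h1
        · exact h1.ne' h5
      rw [hZ b.rev, if_neg h4, hZ, if_pos h, if_neg h1.ne, mul_zero, sub_zero]
    · have h5 : a.rev = b := by rw [h3, Fin.rev_rev]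
      have h6 := sg_mul_self (R := R) (alt := alt) b
      rw [sg_rev ev b, ← h3, h5, hZ, if_pos h, if_pos h3, eps, if_pos h1]
      linear_combination y a b * h2 + hf * y a b * h6

/-- The Cayley transform of an element of the group. -/
theorem ChB_of (h2 : 2 * hf = 1) (ho : Function.Injective o) (hs : SymP o) (h : Sg alt o b₂ x) :
    ChB_St o b₂ (ChB_cay alt hf x) ∧ adj alt (ChB_cay alt hf x) = -ChB_cay alt hf x ∧
      x = ChB_d x * (ChB_g (ChB_cay alt hf x) + ChB_g (ChB_cay alt hf x) - 1) := by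
  have hd := h.1.1.diag_mul ho hs h.2.1
  have e1 : adj alt (ChB_d x) = diagonal fun a => x a.rev a.rev := adj_diagonal _
  have hD : IsU alt (ChB_d x) := by
    rw [isU_iff, e1, ChB_d, diagonal_mul_diagonal, ← diagonal_one]
    exact congrArg diagonal (funext hd)
  have hb : ∀ b : Fin n → ℕ, x.BlockTriangular b →
      (hf • (1 - adj alt (ChB_d x) * x)).BlockTriangular b := fun b hb a c hc => by
    have := (blockTriangular_one.sub ((e1 ▸ blockTriangular_diagonal _ :
      (adj alt (ChB_d x)).BlockTriangular b).mul hb)) hc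
    rw [Matrix.smul_apply, this, smul_zero]
  have hN : ChB_St o b₂ (hf • (1 - adj alt (ChB_d x) * x)) :=
    ⟨hb o h.2.1, hb b₂ h.2.2, fun a => by simp [e1, hd]⟩
  have e2 : ∀ v : Matrix (Fin n) (Fin n) R, 1 - hf • (1 - v) + (1 - hf • (1 - v)) - 1 = v :=
    fun v => by
      have := ChB_half h2 (1 - v)
      rw [smul_add] at this
      rw [sub_add_sub_comm, this]
      abel
  refine ⟨hN.c ho, (ChB_skew h2 (ChB_mul_g ho hN)).1 ?_, ?_⟩
  · rw [e2]
    exact hD.adj.mul h.1.1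
  · rw [ChB_cay, ChB_g_g ho hN, e2, ← mul_assoc, hD.mul_adj, one_mul]

/-- The inverse of the Cayley transform. -/
theorem ChB_to (h2 : 2 * hf = 1) (ho : Function.Injective o) (hs : SymP o) (h : ChB_St o b₂ Y)
    (hk : adj alt Y = -Y) {d : Fin n → R} (hd : ∀ a, d a.rev * d a = 1)
    (hm : ∀ a, a.rev = a → d a = 1) :
    ∃ x, Sg alt o b₂ x ∧ (∀ a, x a a = d a) ∧ ChB_cay alt hf x = Y := by
  have hD : IsU alt (diagonal d) := by
    rw [isU_iff, adj_diagonal, diagonal_mul_diagonal, ← diagonal_one]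
    exact congrArg diagonal (funext hd)
  have hv : IsU alt (ChB_g Y + ChB_g Y - 1) :=
    (ChB_skew h2 (mul_eq_one_comm.1 (ChB_mul_g ho h))).2 (by rwa [sub_sub_cancel])
  have hb : ∀ b : Fin n → ℕ, Y.BlockTriangular b →
      (diagonal d * (ChB_g Y + ChB_g Y - 1)).BlockTriangular b := fun b hb =>
    (blockTriangular_diagonal d).mul (((ChB_g_bt hb).add (ChB_g_bt hb)).sub blockTriangular_one)
  have e : ∀ a, (diagonal d * (ChB_g Y + ChB_g Y - 1)) a a = d a := fun a => by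
    simp [ChB_g_diag ho h a]
  refine ⟨_, ⟨⟨hD.mul hv, ?_⟩, hb o h.1, hb b₂ h.2.1⟩, e, ?_⟩
  · rw [(hD.mul hv).det_eq ho hs (hb o h.1)]
    exact Finset.prod_eq_one fun a ha => (e a).trans (hm a (Finset.mem_filter.1 ha).2)
  · have e1 : ChB_d (diagonal d * (ChB_g Y + ChB_g Y - 1)) = diagonal d :=
      congrArg diagonal (funext e)
    have e2 : 1 - (ChB_g Y + ChB_g Y - 1) = (1 - ChB_g Y) + (1 - ChB_g Y) := by abel
    rw [ChB_cay, e1, ← mul_assoc, hD.adj_mul, one_mul, e2, ChB_half h2, ChB_g_g ho h,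
      sub_sub_cancel]

end cayley

/-- A connected solvable group of isometries is an open subset of an affine space. -/
theorem hasChart_S (two : (2 : k) ≠ 0) (ev : Ev alt n) {o b₂ : Fin n → ℕ}
    (ho : Function.Injective o) (hs : SymP o) (h₂ : SymP b₂) : HasChart (hFam k alt o b₂) := by
  classical
  obtain ⟨t, ht1, ht2⟩ : ∃ t : {a : Fin n // a < a.rev} ⊕
      {p : Fin n × Fin n // ChB_P alt o b₂ p.1 p.2} → MvPolynomial (Fin n × Fin n) k,
      (∀ (Ω : Type u) [Field Ω] [Algebra k Ω] (x : Fin n × Fin n → Ω) a,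
        evs x t (Sum.inl a) = mat x a.1 a.1) ∧
      ∀ (Ω : Type u) [Field Ω] [Algebra k Ω] (x : Fin n × Fin n → Ω) p,
        evs x t (Sum.inr p) = ChB_cay alt (algebraMap k Ω 2⁻¹) (mat x) p.1.1 p.1.2 := by
    refine ⟨Sum.elim (fun a => X (a.1, a.1)) fun p => ChB_cay alt (C 2⁻¹) (mat X) p.1.1 p.1.2,
      fun Ω _ _ x a => aeval_X _ _, fun Ω _ _ x p => ?_⟩
    have e := ChB_cay_map (alt := alt) (aeval (R := k) x).toRingHom (C 2⁻¹) (mat X)
    have e1 : (mat X).map (aeval (R := k) x).toRingHom = mat x := mat_evs x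
    have e2 : (aeval (R := k) x).toRingHom (C 2⁻¹) = algebraMap k Ω 2⁻¹ := aeval_C _ _
    rw [e1, e2] at e
    exact congrFun (congrFun e p.1.1) p.1.2
  have hD : ∀ (Ω : Type u) [Field Ω] [Algebra k Ω] (y : {a : Fin n // a < a.rev} ⊕
      {p : Fin n × Fin n // ChB_P alt o b₂ p.1 p.2} → Ω),
      aeval (R := k) y (∏ a : {a : Fin n // a < a.rev}, X (Sum.inl a)) ≠ 0 ↔
        ∀ a, y (Sum.inl a) ≠ 0 := fun Ω _ _ y => by
    simp [Finset.prod_ne_zero_iff]
  have h2 : ∀ (Ω : Type u) [Field Ω] [Algebra k Ω], 2 * algebraMap k Ω 2⁻¹ = 1 := fun Ω _ _ => by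
    rw [← map_ofNat (algebraMap k Ω) 2, ← map_mul, mul_inv_cancel₀ two, map_one]
  have hr : ∀ a : Fin n, a.rev < a → a.rev < a.rev.rev := fun a h => by rwa [Fin.rev_rev]
  refine ⟨_, inferInstance, t, ∏ a : {a : Fin n // a < a.rev}, X (Sum.inl a),
    fun Ω _ _ _ x hx => ?_, fun Ω _ _ _ x x' hx hx' e => ?_, fun Ω _ _ _ y hy => ?_,
    fun Ω Ω' _ _ _ _ _ _ Pl x hx hO h0 => ?_⟩
  · refine (hD Ω _).2 fun a => ?_
    rw [ht1]
    exact right_ne_zero_of_mul_eq_one (hx.1.1.diag_mul ho hs hx.2.1 a.1)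
  · obtain ⟨a1, a2, a3⟩ := ChB_of (h2 Ω) ho hs hx
    obtain ⟨b1, b2, b3⟩ := ChB_of (h2 Ω) ho hs hx'
    have e0 : ∀ a : Fin n, a < a.rev → mat x a a = mat x' a a := fun a h => by
      rw [← ht1 Ω x ⟨a, h⟩, e, ht1]
    have e1 : ChB_d (mat x) = ChB_d (mat x') := by
      refine congrArg diagonal (funext fun a => ?_)
      rcases lt_trichotomy a a.rev with h | h | h
      · exact e0 a h
      · rw [hx.1.mid ho hs hx.2.1 h.symm, hx'.1.mid ho hs hx'.2.1 h.symm]
      · rw [eq_inv_of_mul_eq_one_right (hx.1.1.diag_mul ho hs hx.2.1 a),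
          eq_inv_of_mul_eq_one_right (hx'.1.1.diag_mul ho hs hx'.2.1 a), e0 _ (hr a h)]
    have e2 : ChB_cay alt (algebraMap k Ω 2⁻¹) (mat x) =
        ChB_cay alt (algebraMap k Ω 2⁻¹) (mat x') := by
      refine sub_eq_zero.1 (Matrix.ext fun a b => ?_)
      refine ChB_ctrl (alt := alt) (h2 Ω) ho hs h₂ ⟨a1.1.sub b1.1, a1.2.1.sub b1.2.1, fun a => ?_⟩
        ?_ (· = 0) rfl (fun c hc => neg_eq_zero.2 hc) (fun a b h => ?_) a b
      · rw [Matrix.sub_apply, a1.2.2, b1.2.2, sub_zero]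
      · rw [adj_sub, a2, b2, neg_sub_neg, neg_sub]
      · rw [Matrix.sub_apply, ← ht2 Ω x ⟨(a, b), h⟩, e, ht2, sub_self]
    exact mat_injective (by rw [a3, b3, e1, e2])
  · rw [hD] at hy
    obtain ⟨Y, y1, y2, y3⟩ := ChB_exists (o := o) (b₂ := b₂) (h2 Ω) ev hs h₂ fun a b =>
      if h : ChB_P alt o b₂ a b then y (Sum.inr ⟨(a, b), h⟩) else 0
    obtain ⟨d, hd⟩ : ∃ d : Fin n → Ω, ∀ a, d a = if h : a < a.rev then y (Sum.inl ⟨a, h⟩) else
        if h : a.rev < a then (y (Sum.inl ⟨a.rev, hr a h⟩))⁻¹ else 1 := ⟨_, fun _ => rfl⟩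
    have d1 : ∀ a (h : a < a.rev), d a = y (Sum.inl ⟨a, h⟩) := fun a h => by rw [hd, dif_pos h]
    have d2 : ∀ a, a.rev < a → d a.rev * d a = 1 := fun a h => by
      rw [d1 _ (hr a h), hd, dif_neg h.not_gt, dif_pos h, mul_inv_cancel₀ (hy _)]
    have d3 : ∀ a, a.rev = a → d a = 1 := fun a h => by
      rw [hd, dif_neg h.le.not_gt, dif_neg h.ge.not_gt]
    have d4 : ∀ a, d a.rev * d a = 1 := fun a => by
      rcases lt_trichotomy a a.rev with h | h | h
      · have := d2 a.rev (by rwa [Fin.rev_rev])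
        rwa [Fin.rev_rev, mul_comm] at this
      · rw [← h, d3 a h.symm, one_mul]
      · exact d2 a h
    obtain ⟨x, x1, x2, x3⟩ := ChB_to (h2 Ω) ho hs y1 y2 d4 d3
    refine ⟨fun s => x s.1 s.2, x1, funext fun s => ?_⟩
    rcases s with a | p
    · rw [ht1]
      exact (x2 a.1).trans (d1 a.1 a.2)
    · rw [ht2]
      exact (congrFun (congrFun x3 p.1.1) p.1.2).trans ((y3 _ _ p.2).trans (dif_pos p.2))
  · obtain ⟨a1, a2, a3⟩ := ChB_of (h2 Ω) ho hs hx
    rw [hD] at h0
    simp only [ht1] at h0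
    have e0 : ∀ a : Fin n, a < a.rev → mat x a a ∈ Pl.O := fun a h => ht1 Ω x ⟨a, h⟩ ▸ hO _
    have e1 : ChB_d (mat x) ∈ Pl.O.matrix := by
      intro a b
      rw [ChB_d, diagonal_apply]
      split_ifs
      · rcases lt_trichotomy a a.rev with h | h | h
        · exact e0 a h
        · rw [hx.1.mid ho hs hx.2.1 h.symm]
          exact Pl.O.one_mem
        · rw [eq_inv_of_mul_eq_one_right (hx.1.1.diag_mul ho hs hx.2.1 a)]
          exact Pl.inv_mem (e0 _ (hr a h)) (h0 ⟨_, hr a h⟩)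
      · exact zero_mem _
    have e2 : ChB_cay alt (algebraMap k Ω 2⁻¹) (mat x) ∈ Pl.O.matrix :=
      ChB_ctrl (h2 Ω) ho hs h₂ a1 a2 (· ∈ Pl.O) (zero_mem _) (fun c hc => neg_mem hc)
        fun a b h => ht2 Ω x ⟨(a, b), h⟩ ▸ hO _
    have e3 : ChB_g (ChB_cay alt (algebraMap k Ω 2⁻¹) (mat x)) ∈ Pl.O.matrix :=
      sum_mem fun i _ => pow_mem e2 i
    have e4 : mat x ∈ Pl.O.matrix := a3 ▸ mul_mem e1 (sub_mem (add_mem e3 e3) (one_mem _))
    exact fun s => e4 s.1 s.2

end Pool.Agent.MP_0c8446_ag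

end

section

namespace Pool.Agent.MP_0c8446_ag

open MvPolynomial Set Matrix

universe u v w

variable {k : Type u} [Field k] [IsAlgClosed k] {n s : ℕ} {alt : Bool} {e e' : Fin n}
  {b₂ : Fin n → ℕ}

omit [IsAlgClosed k] in
theorem ChC_two (two : (2 : k) ≠ 0) (Ω : Type u) [Field Ω] [Algebra k Ω] : (2 : Ω) ≠ 0 := by
  intro h
  apply two
  apply (algebraMap k Ω).injective
  rw [map_ofNat, h, map_zero]

omit [IsAlgClosed k] in
theorem ChC_half (two : (2 : k) ≠ 0) (Ω : Type u) [Field Ω] [Algebra k Ω] :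
    2 * algebraMap k Ω (1 / 2) = 1 := by
  rw [← map_ofNat (algebraMap k Ω) 2, ← map_mul, mul_one_div_cancel two, map_one]

theorem ChC_ok (hs : 2 * s + 2 < n ∨ alt = true ∧ 2 * s + 2 = n) (he : (e : ℕ) = s)
    (he' : (e' : ℕ) = s + 1) : RtOK alt e' e := by
  refine ⟨fun h => ?_, fun h => ?_⟩
  · rw [h] at he'
    omega
  · have := congrArg Fin.val h
    rw [Fin.val_rev] at this
    rcases hs with hs | hs
    · omega
    · exact hs.1

theorem ChC_bt {R : Type u} [CommRing R] {v : Matrix (Fin n) (Fin n) R}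
    (h : v.BlockTriangular Fin.val) : v.BlockTriangular (cbk n s) := by
  intro a b hab
  apply h
  by_contra h0
  exact absurd (cbk_mono (s := s) (a := a) (a' := b) (Fin.le_def.2 (not_lt.1 h0))) (not_le.2 hab)

theorem ChC_bt_map {R R' : Type u} [CommRing R] [CommRing R'] (φ : R →+* R') {o : Fin n → ℕ}
    {v : Matrix (Fin n) (Fin n) R} (h : v.BlockTriangular o) : (v.map φ).BlockTriangular o := by
  intro a b hab
  rw [Matrix.map_apply, h hab, map_zero]

theorem ChC_row {R : Type u} [CommRing R] (hs : 2 * s + 2 < n ∨ alt = true ∧ 2 * s + 2 = n)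
    (he : (e : ℕ) = s) (he' : (e' : ℕ) = s + 1) (hf τ : R) (v : Matrix (Fin n) (Fin n) R)
    (b : Fin n) : (xR alt e' e hf τ * v) e b = v e b := by
  have hn : 2 * s + 2 ≤ n := by rcases hs with hs | hs <;> omega
  have h1 : e ≠ e' := fun h => by rw [← h] at he'; omega
  have h2 : e ≠ e.rev := fun h => by
    have := congrArg Fin.val h
    rw [Fin.val_rev] at this
    omega
  have h3 : ∀ d, xR alt e' e hf τ e d = if e = d then 1 else 0 := fun d =>
    xR_apply_of_ne (ChC_ok hs he he') (fun h => h1 h.1) (fun h => h2 h.1)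
      (fun h => h2 h.1.symm) (fun h => h2 h.2.1)
  simp [Matrix.mul_apply, h3]

theorem ChC_row' {R : Type u} [CommRing R] (hs : 2 * s + 2 < n ∨ alt = true ∧ 2 * s + 2 = n)
    (he : (e : ℕ) = s) (he' : (e' : ℕ) = s + 1) (hf τ : R) (v : Matrix (Fin n) (Fin n) R)
    (b : Fin n) : (xR alt e' e hf τ * v) e' b = v e' b + τ * v e b := by
  have hn : 2 * s + 2 ≤ n := by rcases hs with hs | hs <;> omega
  have h1 : e ≠ e' := fun h => by rw [← h] at he'; omega
  have h2 : e ≠ e.rev := fun h => by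
    have := congrArg Fin.val h
    rw [Fin.val_rev] at this
    omega
  have h3 : ∀ d, xR alt e' e hf τ e' d = (if e' = d then 1 else 0) + if e = d then τ else 0 := by
    intro d
    by_cases hd : e = d
    · subst hd
      rw [xR_apply (ChC_ok hs he he'), if_neg h1.symm, if_pos rfl, zero_add]
    · rw [if_neg hd, add_zero]
      refine xR_apply_of_ne (ChC_ok hs he he') (fun h => hd h.2.symm) (fun h => hd ?_)
        (fun h => h2 h.1.symm) (fun h => hd h.2.2.symm)
      rw [h.2, h.1, Fin.rev_rev]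
  simp [Matrix.mul_apply, h3, add_mul, Finset.sum_add_distrib]

omit [IsAlgClosed k] in
theorem ChC_ev {σ : Type} {Ω : Type u} [Field Ω] [Algebra k Ω] (x : σ → Ω)
    (i : Fin n × Fin n → σ) (t : MvPolynomial σ k) :
    (xR alt e' e (C (1 / 2)) t * mat fun p => X (i p)).map (aeval (R := k) x) =
      xR alt e' e (algebraMap k Ω (1 / 2)) (aeval x t) * mat fun p => x (i p) := by
  refine (Matrix.map_mul (f := (aeval (R := k) x).toRingHom)).trans (congrArg₂ (· * ·) ?_ ?_)
  · refine (xR_map (aeval (R := k) x) e' e _ _).trans ?_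
    rw [aeval_C]
  · ext a b
    simp [mat]

omit [IsAlgClosed k] in
theorem ChC_ev' {σ : Type} {Ω : Type u} [Field Ω] [Algebra k Ω] (x : σ → Ω)
    (i : Fin n × Fin n → σ) (m : Matrix (Fin n) (Fin n) k) :
    (m.map C * mat fun p => (X (i p) : MvPolynomial σ k)).map (aeval (R := k) x) =
      m.map (algebraMap k Ω) * mat fun p => x (i p) := by
  refine (Matrix.map_mul (f := (aeval (R := k) x).toRingHom)).trans (congrArg₂ (· * ·) ?_ ?_)
  · ext a b
    simp
  · ext a b
    simp [mat]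

omit [IsAlgClosed k] in
/-- The big cell. -/
theorem chart_big (two : (2 : k) ≠ 0) (ev : Ev alt n)
    (hs : 2 * s + 2 < n ∨ alt = true ∧ 2 * s + 2 = n) (he : (e : ℕ) = s) (he' : (e' : ℕ) = s + 1)
    (h₂ : SymP b₂) (hb : b₂ e = b₂ e') :
    HasChart ((hFam k alt (cbk n s) b₂).cut (fun _ : Unit => X (e, e)) fun _ => true) := by
  have ok := ChC_ok hs he he'
  have hc : cbk n s e' ≤ cbk n s e := (cbk_succ he he').ge
  let τ : MvPolynomial ((Fin n × Fin n) ⊕ Unit) k := X (Sum.inr ()) * X (Sum.inl (e', e))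
  let m₁ : Matrix (Fin n) (Fin n) (MvPolynomial ((Fin n × Fin n) ⊕ Unit) k) :=
    xR alt e' e (C (1 / 2)) (-τ) * mat fun p => X (Sum.inl p)
  let m₂ : Matrix (Fin n) (Fin n) (MvPolynomial (Option (Fin n × Fin n)) k) :=
    xR alt e' e (C (1 / 2)) (X none) * mat fun p => X (some p)
  let φ : Option (Fin n × Fin n) → MvPolynomial ((Fin n × Fin n) ⊕ Unit) k := fun o =>
    o.elim τ fun p => m₁ p.1 p.2
  let ψ : (Fin n × Fin n) ⊕ Unit → MvPolynomial (Option (Fin n × Fin n)) k :=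
    Sum.elim (fun p => m₂ p.1 p.2) fun _ => X (some (e.rev, e.rev))
  have hφ : ∀ (Ω : Type u) [Field Ω] [Algebra k Ω] (x : (Fin n × Fin n) ⊕ Unit → Ω),
      evs x φ none = x (Sum.inr ()) * x (Sum.inl (e', e)) ∧
      (mat fun p => evs x φ (some p)) = xR alt e' e (algebraMap k Ω (1 / 2))
        (-(x (Sum.inr ()) * x (Sum.inl (e', e)))) * mat fun p => x (Sum.inl p) := by
    intro Ω _ _ x
    have h1 : aeval x τ = x (Sum.inr ()) * x (Sum.inl (e', e)) := by simp [τ]
    refine ⟨h1, ?_⟩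
    rw [← h1, ← map_neg, ← ChC_ev]
    rfl
  have hψ : ∀ (Ω : Type u) [Field Ω] [Algebra k Ω] (y : Option (Fin n × Fin n) → Ω),
      evs y ψ (Sum.inr ()) = y (some (e.rev, e.rev)) ∧
      (mat fun p => evs y ψ (Sum.inl p)) = xR alt e' e (algebraMap k Ω (1 / 2))
        (y none) * mat fun p => y (some p) := by
    intro Ω _ _ y
    refine ⟨aeval_X y _, ?_⟩
    rw [← aeval_X (R := k) y none, ← ChC_ev]
    rfl
  refine HasChart.of_iso (φ := φ) (ψ := ψ) (R' := (hFam k alt Fin.val b₂).opt) ⟨?_, ?_⟩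
    (hasChart_S two ev Fin.val_injective symP_val h₂).opt
  · intro Ω _ _ _ x hx
    obtain ⟨⟨hu, hu1, hu2⟩, hz⟩ := hx
    have hz' : x (Sum.inr ()) * x (Sum.inl (e, e)) = 1 := by
      have := hz ()
      simpa [CutC] using this
    have hne : x (Sum.inl (e, e)) ≠ 0 := right_ne_zero_of_mul_eq_one hz'
    obtain ⟨h1, h2⟩ := hφ Ω x
    obtain ⟨h3, h4⟩ := hψ Ω (evs x φ)
    have hee : (mat fun p => evs x φ (some p)) e e = x (Sum.inl (e, e)) := by
      rw [h2, ChC_row hs he he']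
      rfl
    have hsu : SU alt (mat fun p => evs x φ (some p)) := by
      rw [h2]
      exact (su_xR ev ok (ChC_half two Ω)).mul hu
    have hv : (mat fun p => evs x φ (some p)).BlockTriangular Fin.val := by
      refine kl_big (ChC_two two Ω) ev hs he he' hsu.1 ?_ ?_ (hee ▸ hne)
      · rw [h2]
        exact (xR_bt ok symP_cbk hc).mul hu1
      · rw [h2, ChC_row' hs he he']
        change x (Sum.inl (e', e)) + -(x (Sum.inr ()) * x (Sum.inl (e', e))) *
          x (Sum.inl (e, e)) = 0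
        linear_combination (-x (Sum.inl (e', e))) * hz'
    refine ⟨⟨hsu, hv, ?_⟩, ?_⟩
    · rw [h2]
      exact (xR_bt ok h₂ hb.ge).mul hu2
    · rw [h1, h2, ← mul_assoc, xR_add ok (ChC_half two Ω), add_neg_cancel, xR_zero, one_mul] at h4
      funext p
      rcases p with p | p
      · exact congrFun (mat_injective h4) p
      · refine h3.trans (mul_right_cancel₀ hne ?_)
        rw [hz', ← hee]
        exact hsu.1.diag_mul Fin.val_injective symP_val hv e
  · intro Ω _ _ _ y hy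
    obtain ⟨hu, hu1, hu2⟩ := hy
    obtain ⟨h1, h2⟩ := hψ Ω y
    obtain ⟨h3, h4⟩ := hφ Ω (evs y ψ)
    have hd : y (some (e.rev, e.rev)) * y (some (e, e)) = 1 :=
      hu.1.diag_mul Fin.val_injective symP_val hu1 e
    have hee : evs y ψ (Sum.inl (e, e)) = y (some (e, e)) := by
      change (mat fun p => evs y ψ (Sum.inl p)) e e = _
      rw [h2, ChC_row hs he he']
      rfl
    have h0 : y (some (e', e)) = 0 := hu1 (i := e') (j := e) (by omega)
    have he2 : evs y ψ (Sum.inl (e', e)) = y none * y (some (e, e)) := by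
      change (mat fun p => evs y ψ (Sum.inl p)) e' e = _
      rw [h2, ChC_row' hs he he']
      change y (some (e', e)) + y none * y (some (e, e)) = _
      rw [h0, zero_add]
    have h5 : evs y ψ (Sum.inr ()) * evs y ψ (Sum.inl (e', e)) = y none := by
      rw [h1, he2]
      linear_combination (y none) * hd
    refine ⟨⟨?_, fun i => ?_⟩, ?_⟩
    · change Sg alt (cbk n s) b₂ (mat fun p => evs y ψ (Sum.inl p))
      rw [h2]
      exact ⟨(su_xR ev ok (ChC_half two Ω)).mul hu, (xR_bt ok symP_cbk hc).mul (ChC_bt hu1),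
        (xR_bt ok h₂ hb.ge).mul hu2⟩
    · rw [aeval_X, hee, h1]
      exact (if_pos rfl).mpr hd
    · rw [h5, h2, ← mul_assoc, xR_add ok (ChC_half two Ω), neg_add_cancel, xR_zero, one_mul] at h4
      funext p
      rcases p with _ | p
      · exact h3.trans h5
      · exact congrFun (mat_injective h4) p

/-- The small cell. -/
theorem chart_small (two : (2 : k) ≠ 0) (ev : Ev alt n)
    (hs : 2 * s + 2 < n ∨ alt = true ∧ 2 * s + 2 = n) (he : (e : ℕ) = s) (h₂ : SymP b₂) :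
    HasChart ((hFam k alt (cbk n s) b₂).cut (fun _ : Unit => X (e, e)) fun _ => false) := by
  have hn : 2 * s + 2 ≤ n := by rcases hs with hs | hs <;> omega
  refine HasChart.of_base ((closed_hFam _ _).cut _ _) fun x₀ hx₀ => ?_
  obtain ⟨⟨hw, hw1, hw2⟩, hw3⟩ := hx₀
  have hw0 : x₀ (Sum.inl (e, e)) = 0 := by
    have := hw3 ()
    simp only [CutC, aeval_X] at this
    exact ((if_neg Bool.false_ne_true).mp this).1
  set u₀ : Matrix (Fin n) (Fin n) k := mat fun p => x₀ (Sum.inl p) with hu₀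
  have hm0 : ∀ (Ω : Type u) [Field Ω] [Algebra k Ω], u₀.map (algebraMap k Ω) e e = 0 := by
    intro Ω _ _
    change algebraMap k Ω (x₀ (Sum.inl (e, e))) = 0
    rw [hw0, map_zero]
  let m₁ : Matrix (Fin n) (Fin n) (MvPolynomial ((Fin n × Fin n) ⊕ Unit) k) :=
    (adj alt u₀).map C * mat fun p => X (Sum.inl p)
  let m₂ : Matrix (Fin n) (Fin n) (MvPolynomial (Fin n × Fin n) k) :=
    u₀.map C * mat fun p => X p
  let φ : Fin n × Fin n → MvPolynomial ((Fin n × Fin n) ⊕ Unit) k := fun p => m₁ p.1 p.2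
  let ψ : (Fin n × Fin n) ⊕ Unit → MvPolynomial (Fin n × Fin n) k :=
    Sum.elim (fun p => m₂ p.1 p.2) fun _ => 0
  have hφ : ∀ (Ω : Type u) [Field Ω] [Algebra k Ω] (x : (Fin n × Fin n) ⊕ Unit → Ω),
      mat (evs x φ) = adj alt (u₀.map (algebraMap k Ω)) * mat fun p => x (Sum.inl p) := by
    intro Ω _ _ x
    rw [← adj_map, ← ChC_ev']
    rfl
  have hψ : ∀ (Ω : Type u) [Field Ω] [Algebra k Ω] (y : Fin n × Fin n → Ω),
      evs y ψ (Sum.inr ()) = 0 ∧
      (mat fun p => evs y ψ (Sum.inl p)) = u₀.map (algebraMap k Ω) * mat y := by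
    intro Ω _ _ y
    refine ⟨map_zero (aeval (R := k) y), ?_⟩
    exact ChC_ev' y id u₀
  refine HasChart.of_iso (φ := φ) (ψ := ψ) (R' := hFam k alt Fin.val b₂) ⟨?_, ?_⟩
    (hasChart_S two ev Fin.val_injective symP_val h₂)
  · intro Ω _ _ _ x hx
    obtain ⟨⟨hu, hu1, hu2⟩, hz⟩ := hx
    have hz' : x (Sum.inl (e, e)) = 0 ∧ x (Sum.inr ()) = 0 := by
      have := hz ()
      simp only [CutC, aeval_X] at this
      exact (if_neg Bool.false_ne_true).mp this
    have hw' := hw.map (algebraMap k Ω)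
    obtain ⟨h3, h4⟩ := hψ Ω (evs x φ)
    refine ⟨?_, ?_⟩
    · change Sg alt Fin.val b₂ (mat (evs x φ))
      rw [hφ]
      exact ⟨hw'.adj.mul hu, kl_small (ChC_two two Ω) ev hs he hu.1 hu1 hz'.1 hw'.1
        (ChC_bt_map _ hw1) (hm0 Ω), (h₂.adj (ChC_bt_map _ hw2)).mul hu2⟩
    · rw [hφ, ← mul_assoc, hw'.1.mul_adj, one_mul] at h4
      funext p
      rcases p with p | p
      · exact congrFun (mat_injective h4) p
      · exact h3.trans hz'.2.symm
  · intro Ω _ _ _ y hy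
    obtain ⟨hu, hu1, hu2⟩ := hy
    obtain ⟨h1, h2⟩ := hψ Ω y
    have hw' := hw.map (algebraMap k Ω)
    refine ⟨⟨?_, fun i => ?_⟩, ?_⟩
    · change Sg alt (cbk n s) b₂ (mat fun p => evs y ψ (Sum.inl p))
      rw [h2]
      exact ⟨hw'.mul hu, (ChC_bt_map _ hw1).mul (ChC_bt hu1), (ChC_bt_map _ hw2).mul hu2⟩
    · rw [aeval_X]
      refine (if_neg Bool.false_ne_true).mpr ⟨?_, h1⟩
      change (mat fun p => evs y ψ (Sum.inl p)) e e = 0
      rw [h2, kl_mul hn he (ChC_bt_map _ hw1) hu1, hm0, zero_mul]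
    · apply mat_injective
      rw [hφ, h2, ← mul_assoc, hw'.1.adj_mul, one_mul]

theorem cell_H (two : (2 : k) ≠ 0) (ev : Ev alt n)
    (hs : 2 * s + 2 < n ∨ alt = true ∧ 2 * s + 2 = n) (h₂ : SymP b₂) :
    Cell (hFam k alt (cbk n s) b₂) := by
  have hn : 2 * s + 2 ≤ n := by rcases hs with hs | hs <;> omega
  let e : Fin n := ⟨s, by omega⟩
  let e' : Fin n := ⟨s + 1, by omega⟩
  have he : (e : ℕ) = s := rfl
  have he' : (e' : ℕ) = s + 1 := rfl
  by_cases hb : b₂ e = b₂ e'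
  · refine ⟨Unit, inferInstance, fun _ => X (e, e), fun T => ?_⟩
    have hT : T = fun _ => T () := rfl
    rw [hT]
    cases T ()
    · exact chart_small two ev hs he h₂
    · exact chart_big two ev hs he he' h₂ hb
  · obtain ⟨o, ho, hso, h⟩ := kl_lex hn he he' h₂ hb
    refine ((hasChart_S two ev ho hso h₂).congr fun Ω _ _ _ x => ?_).cell
    constructor
    · rintro ⟨h1, h2, h3⟩
      refine ⟨h1, fun a b hab => ?_, h3⟩
      rcases (h b a).1 (Or.inl hab) with h4 | h4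
      · exact h2 h4
      · exact h3 h4
    · rintro ⟨h1, h2, h3⟩
      refine ⟨h1, fun a b hab => ?_, h3⟩
      rcases (h b a).2 (Or.inl hab) with h4 | h4
      · exact h2 h4
      · exact h3 h4

end Pool.Agent.MP_0c8446_ag

end

section

namespace Pool.Agent.MP_0c8446_ag

open MvPolynomial Set Matrix

universe u v w

variable {k : Type u} [Field k] [IsAlgClosed k] {n r : ℕ} {alt : Bool}

omit [IsAlgClosed k] in
theorem ChD_sw {t : Bool} (ht : alt = true → t = false) {b₁ b₂ c₁ c₂ : Fin n → ℕ}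
    (h₁ : c₁ = b₁ ∘ sw n t) (h₂ : c₂ = b₂ ∘ sw n t) (Ω : Type u) [Field Ω] [Algebra k Ω]
    [IsAlgClosed Ω] (x : Fin n × Fin n → Ω) (h : hFam k alt b₁ b₂ Ω x) :
    hFam k alt c₁ c₂ Ω (evs x fun s : Fin n × Fin n =>
      (X (sw n t s.1, sw n t s.2) : MvPolynomial (Fin n × Fin n) k)) ∧
    evs (evs x fun s : Fin n × Fin n =>
      (X (sw n t s.1, sw n t s.2) : MvPolynomial (Fin n × Fin n) k)) (fun s : Fin n × Fin n =>
      (X (sw n t s.1, sw n t s.2) : MvPolynomial (Fin n × Fin n) k)) = x := by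
  constructor
  · have e : mat (evs x fun s : Fin n × Fin n =>
        (X (sw n t s.1, sw n t s.2) : MvPolynomial (Fin n × Fin n) k)) =
        (mat x).submatrix (sw n t) (sw n t) := by
      ext a b
      simp [mat, evs]
    change Sg alt c₁ c₂ _
    rw [e, h₁, h₂]
    exact ⟨h.1.submatrix_sw ht, h.2.1.submatrix, h.2.2.submatrix⟩
  · funext s
    simp [evs, sw_sw]

theorem cell_H_sw (two : (2 : k) ≠ 0) (ev : Ev alt n) {s : ℕ}
    (hs : 2 * s + 2 < n ∨ alt = true ∧ 2 * s + 2 = n) {t : Bool} (ht : alt = true → t = false)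
    {b₂ : Fin n → ℕ} (h₂ : SymP b₂) : Cell (hFam k alt (cbk n s ∘ sw n t) b₂) := by
  have e : ∀ b : Fin n → ℕ, b = (b ∘ sw n t) ∘ sw n t := fun b => funext fun a => by
    simp [sw_sw]
  exact Cell.of_iso ⟨ChD_sw ht (e _) rfl, ChD_sw ht rfl (e _)⟩
    (cell_H two ev hs (h₂.comp (sw_rev t)))

theorem ChD_iff {R : Type u} [CommRing R] {b₁ b₂ : Fin n → ℕ} (π : Equiv.Perm (Fin n))
    (x : Fin n × Fin n → R) : (∀ a b, b₁ b < b₁ a ∨ b₂ (π b) < b₂ a → x (a, b) = 0) ↔
      (mat x).BlockTriangular b₁ ∧ ((mat x).submatrix id π.symm).BlockTriangular b₂ := by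
  refine ⟨fun h => ⟨fun a b hab => h a b (Or.inl hab), fun a b hab => h a _ (Or.inr ?_)⟩, ?_⟩
  · rwa [Equiv.apply_symm_apply]
  · rintro ⟨h1, h2⟩ a b (hab | hab)
    · exact h1 hab
    · have := h2 hab
      rwa [submatrix_apply, Equiv.symm_apply_apply] at this

theorem ChD_mul_adj {Ω : Type u} [Field Ω] {b₁ b₂ : Fin n → ℕ} (π : Equiv.Perm (Fin n))
    {d d₀ : Matrix (Fin n) (Fin n) Ω} (h : SU alt d) (h1 : d.BlockTriangular b₁)
    (h2 : (d.submatrix id π.symm).BlockTriangular b₂) (g : SU alt d₀)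
    (g1 : d₀.BlockTriangular b₁) (g2 : (d₀.submatrix id π.symm).BlockTriangular b₂) :
    Sg alt b₁ b₂ (d * adj alt d₀) := by
  refine ⟨h.mul g.adj, ?_, ?_⟩
  · rw [← g.1.inv_eq]
    exact h1.mul (RlA0_tri g.1.isUnit g1)
  · have e : d * adj alt d₀ = d.submatrix id π.symm * (d₀.submatrix id π.symm)⁻¹ := by
      have := inv_submatrix_equiv d₀ (Equiv.refl _) π.symm
      rw [Equiv.coe_refl] at this
      rw [this, submatrix_mul_equiv, submatrix_id_id, g.1.inv_eq]
    rw [e]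
    exact h2.mul (RlA0_tri (isUnit_submatrix g.1.isUnit π.symm) g2)

/-- Right multiplication by a constant matrix. -/
noncomputable def ChD_rm (m : Matrix (Fin n) (Fin n) k) (s : Fin n × Fin n) :
    MvPolynomial (Fin n × Fin n) k :=
  (mat X * m.map C : Matrix (Fin n) (Fin n) (MvPolynomial (Fin n × Fin n) k)) s.1 s.2

omit [IsAlgClosed k] in
theorem ChD_evs {Ω : Type u} [Field Ω] [Algebra k Ω] (m : Matrix (Fin n) (Fin n) k)
    (x : Fin n × Fin n → Ω) : mat (evs x (ChD_rm m)) = mat x * m.map (algebraMap k Ω) := by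
  ext a b
  simp [mat, evs, ChD_rm, Matrix.mul_apply]

/-- A nonempty set of transition matrices is a coset. -/
theorem cell_coset {b₁ b₂ : Fin n → ℕ} (π : Equiv.Perm (Fin n)) (h : Cell (hFam k alt b₁ b₂)) :
    Cell (dFam k alt fun a b => b₁ b < b₁ a ∨ b₂ (π b) < b₂ a) := by
  refine Cell.of_base (closed_dFam _) fun x₀ h₀ => ?_
  obtain ⟨g1, g2⟩ := (ChD_iff π x₀).1 h₀.2
  have key : ∀ (Ω : Type u) [Field Ω] [Algebra k Ω], SU alt ((mat x₀).map (algebraMap k Ω)) ∧
      ((mat x₀).map (algebraMap k Ω)).BlockTriangular b₁ ∧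
      (((mat x₀).map (algebraMap k Ω)).submatrix id π.symm).BlockTriangular b₂ := fun Ω _ _ =>
    ⟨h₀.1.map _, fun a b hab => by rw [map_apply, g1 hab, map_zero], fun a b hab => by
      have := g2 hab
      rw [submatrix_apply] at this
      rw [submatrix_apply, map_apply, this, map_zero]⟩
  refine Cell.of_iso (φ := ChD_rm (adj alt (mat x₀))) (ψ := ChD_rm (mat x₀))
    ⟨fun Ω _ _ _ x hx => ⟨?_, mat_injective ?_⟩, fun Ω _ _ _ x hx => ⟨?_, mat_injective ?_⟩⟩ h
  · obtain ⟨h1, h2⟩ := (ChD_iff π x).1 hx.2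
    obtain ⟨k0, k1, k2⟩ := key Ω
    change Sg alt b₁ b₂ _
    rw [ChD_evs, adj_map]
    exact ChD_mul_adj π hx.1 h1 h2 k0 k1 k2
  · rw [ChD_evs, ChD_evs, adj_map, mul_assoc, (key Ω).1.1.adj_mul, mul_one]
  · obtain ⟨k0, k1, k2⟩ := key Ω
    refine ⟨?_, (ChD_iff π _).2 ?_⟩
    · rw [ChD_evs]
      exact hx.1.mul k0
    · rw [ChD_evs]
      refine ⟨hx.2.1.mul k1, ?_⟩
      have e : (mat x * (mat x₀).map (algebraMap k Ω)).submatrix id π.symm =
          mat x * ((mat x₀).map (algebraMap k Ω)).submatrix id π.symm := rfl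
      rw [e]
      exact hx.2.2.mul k2
  · rw [ChD_evs, ChD_evs, adj_map, mul_assoc, (key Ω).1.1.mul_adj, mul_one]

theorem CD.cell_zC (C : CD k n) {w : Fin r → ℕ × Bool} (hw : C.Ok w)
    {y : Fin (r + 1) → Equiv.Perm (Fin n)} (hy : ∀ j a, (y j).symm a.rev = ((y j).symm a).rev) :
    Cell (Fam.pi fun j => dFam k C.alt (zC C.t w y j)) := by
  refine Cell.pi fun j => ?_
  have h2 : SymP (blC n w j ∘ (y j).symm) := (symP_blC w j).comp (hy j)
  have h : Cell (hFam k C.alt (blC n w j) (blC n w j ∘ (y j).symm)) := by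
    revert h2
    generalize blC n w j ∘ (y j).symm = b₂
    intro h2
    refine Fin.lastCases ?_ (fun j => ?_) j
    · rw [blC_last]
      exact (hasChart_S C.two C.ev Fin.val_injective symP_val h2).cell
    · rw [blC_castSucc]
      exact cell_H_sw C.two C.ev (hw j).2 (hw j).1 h2
  have e : zC C.t w y j = fun a b => blC n w j b < blC n w j a ∨
      (blC n w j ∘ (y j).symm) ((y j * (nyC C.t y j)⁻¹) b) < (blC n w j ∘ (y j).symm) a := by
    funext a b
    simp only [zC, Function.comp_apply, Equiv.Perm.mul_apply, Equiv.symm_apply_apply]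
    rfl
  rw [e]
  exact cell_coset _ h

end Pool.Agent.MP_0c8446_ag

end
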