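import Pool.Agent.Mg.F0c8446.G601e39
import Pool.Agent.Mg.F0c8446.Gaba67e

section

namespace Pool.Agent.MP_0c8446_ag

open MvPolynomial Set Matrix

universe u v w

variable {k : Type u} [Field k] {Ω Ω' : Type u} [Field Ω] [Algebra k Ω] [Field Ω'] [Algebra k Ω']
  {n : ℕ} {uni : Bool} {q : ℕ}

/-- Coordinates on a space of matrices. -/
lemma LangG_coord (V : Submodule k (Matrix (Fin n) (Fin n) k)) :
    ∃ (d : ℕ) (c ρ : Fin d → Matrix (Fin n) (Fin n) k), (∀ i, c i ∈ V) ∧
      (∀ i j, ∑ a, ∑ b, ρ i a b * c j a b = if i = j then 1 else 0) ∧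
      ∀ x ∈ V, ∀ a' b', x a' b' = ∑ i, (∑ a, ∑ b, ρ i a b * x a b) * c i a' b' := by
  classical
  let B := Module.finBasis k V
  have h : ∀ i, ∃ f : Matrix (Fin n) (Fin n) k →ₗ[k] k, f.comp V.subtype = B.coord i :=
    fun i => LinearMap.exists_extend _
  choose f hf using h
  have e : ∀ i (x : Matrix (Fin n) (Fin n) k),
      ∑ a, ∑ b, f i (Matrix.single a b 1) * x a b = f i x := by
    intro i x
    conv_rhs => rw [Matrix.matrix_eq_sum_single x]
    simp only [map_sum]
    refine Finset.sum_congr rfl fun a _ => Finset.sum_congr rfl fun b _ => ?_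
    have : Matrix.single a b (x a b) = x a b • Matrix.single a b (1 : k) := by simp
    rw [this, map_smul, smul_eq_mul, mul_comm]
  have e' : ∀ i (x : V), f i x = B.repr x i := fun i x => LinearMap.congr_fun (hf i) x
  refine ⟨_, fun i => B i, fun i => Matrix.of fun a b => f i (Matrix.single a b 1),
    fun i => (B i).2, fun i j => ?_, fun x hx a' b' => ?_⟩
  · simp only [of_apply]
    rw [e, e', B.repr_self, Finsupp.single_apply]
    simp only [eq_comm]
  · simp only [of_apply, e]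
    have h1 := congrArg (fun y : V => (y : Matrix (Fin n) (Fin n) k) a' b') (B.sum_repr ⟨x, hx⟩)
    simp only [Submodule.coe_sum, Submodule.coe_smul, Matrix.sum_apply, Matrix.smul_apply,
      smul_eq_mul] at h1
    rw [← h1]
    exact Finset.sum_congr rfl fun i _ => by rw [← e' i ⟨x, hx⟩]

/-- The matrix with given coordinates. -/
def LangG_S {d : ℕ} (c : Fin d → Matrix (Fin n) (Fin n) k) (t : Fin d → Ω) :
    Matrix (Fin n) (Fin n) Ω :=
  Matrix.of fun a b => ∑ i, t i * algebraMap k Ω (c i a b)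

/-- The coordinates of a matrix. -/
def LangG_T {d : ℕ} (ρ : Fin d → Matrix (Fin n) (Fin n) k) (M : Matrix (Fin n) (Fin n) Ω)
    (i : Fin d) : Ω :=
  ∑ a, ∑ b, algebraMap k Ω (ρ i a b) * M a b

lemma LangG_T_S {d : ℕ} {c ρ : Fin d → Matrix (Fin n) (Fin n) k}
    (h : ∀ i j, ∑ a, ∑ b, ρ i a b * c j a b = if i = j then 1 else 0) (t : Fin d → Ω) (i : Fin d) :
    LangG_T ρ (LangG_S c t) i = t i := by
  have h' : ∀ j, ∑ a, ∑ b, algebraMap k Ω (ρ i a b) * (t j * algebraMap k Ω (c j a b)) =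
      if i = j then t j else 0 := fun j => by
    have := congrArg (fun x => t j * algebraMap k Ω x) (h i j)
    simp only [map_sum, map_mul, Finset.mul_sum] at this
    simp only [mul_left_comm (algebraMap k Ω (ρ i _ _)) (t j)]
    rw [this]
    split_ifs <;> simp
  simp only [LangG_T, LangG_S, of_apply, Finset.mul_sum]
  calc _ = ∑ a, ∑ j, ∑ b, algebraMap k Ω (ρ i a b) * (t j * algebraMap k Ω (c j a b)) :=
        Finset.sum_congr rfl fun a _ => Finset.sum_comm
    _ = ∑ j, ∑ a, ∑ b, algebraMap k Ω (ρ i a b) * (t j * algebraMap k Ω (c j a b)) :=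
        Finset.sum_comm
    _ = t i := by simp [h']

lemma LangG_S_comm {d : ℕ} {c : Fin d → Matrix (Fin n) (Fin n) k} {g : Matrix (Fin n) (Fin n) k}
    (h : ∀ i, c i * g = g * c i) (t : Fin d → Ω) :
    LangG_S c t * g.map (algebraMap k Ω) = g.map (algebraMap k Ω) * LangG_S c t := by
  have e : LangG_S c t = ∑ i, t i • (c i).map (algebraMap k Ω) := by
    ext a b
    simp [LangG_S, Matrix.sum_apply]
  rw [e, Finset.sum_mul, Finset.mul_sum]
  refine Finset.sum_congr rfl fun i _ => ?_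
  rw [smul_mul_assoc, mul_smul_comm, ← Matrix.map_mul, ← Matrix.map_mul, h]

lemma LangG_S_T {d : ℕ} {c ρ : Fin d → Matrix (Fin n) (Fin n) k} {g : Matrix (Fin n) (Fin n) k}
    (h : ∀ x : Matrix (Fin n) (Fin n) k, x * g = g * x →
      ∀ a' b', x a' b' = ∑ i, (∑ a, ∑ b, ρ i a b * x a b) * c i a' b')
    {M : Matrix (Fin n) (Fin n) Ω} (hM : M * g.map (algebraMap k Ω) = g.map (algebraMap k Ω) * M) :
    LangG_S c (LangG_T ρ M) = M := by
  ext a' b'
  rw [← sub_eq_zero, ← Module.forall_dual_apply_eq_zero_iff k]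
  intro φ
  have e1 : ∀ (x : Ω) (y : k), φ (x * algebraMap k Ω y) = φ x * y := fun x y => by
    rw [mul_comm x, ← Algebra.smul_def, map_smul, smul_eq_mul, mul_comm]
  have e2 : ∀ (x : Ω) (y : k), φ (algebraMap k Ω y * x) = y * φ x := fun x y => by
    rw [mul_comm, e1, mul_comm]
  have h1 : M.map φ * g = g * M.map φ := by
    ext a b
    have := congrArg φ (congrFun (congrFun hM a) b)
    simpa only [Matrix.mul_apply, map_apply, map_sum, e1, e2] using this
  have h2 := h _ h1 a' b'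
  simp only [map_apply] at h2
  rw [map_sub, h2, sub_eq_zero]
  simp only [LangG_S, LangG_T, of_apply, map_sum, e1, e2]

lemma LangG_S_red (Pl : Place k Ω Ω') {d : ℕ} (c : Fin d → Matrix (Fin n) (Fin n) k)
    {t : Fin d → Ω} (ht : ∀ i, t i ∈ Pl.O) :
    (∀ a b, LangG_S c t a b ∈ Pl.O) ∧
      (LangG_S c t).map Pl.red = LangG_S c fun i => Pl.red (t i) := by
  have h : ∀ a b i, t i * algebraMap k Ω (c i a b) ∈ Pl.O := fun a b i =>
    Pl.O.mul_mem (ht i) (Pl.O.algebraMap_mem _)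
  refine ⟨fun a b => Pl.O.sum_mem (t := Finset.univ) fun i _ => h a b i, ?_⟩
  ext a b
  simp only [LangG_S, map_apply, of_apply]
  rw [Pl.red_sum _ fun i _ => h a b i]
  exact Finset.sum_congr rfl fun i _ => by
    rw [Pl.red_mul (ht i) (Pl.O.algebraMap_mem _), Pl.red_algebraMap]

lemma LangG_kr {σ : Type} {x : σ → Ω} (hx : AlgebraicIndependent k x) (y : σ → Ω') :
    kr k x ≤ kr k y := fun f hf => by
  have : f = 0 := (algebraicIndependent_iff.1 hx) f hf
  rw [this]
  exact zero_mem _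

theorem Place.mem_of_pow_eq (Pl : Place k Ω Ω') {Q : ℕ} (hQ : 1 < Q)
    {g m : Matrix (Fin n) (Fin n) Ω} (h : g.map (· ^ Q) = g * m) (hm : ∀ a b, m a b ∈ Pl.O) :
    ∀ a b, g a b ∈ Pl.O := by
  intro a b
  by_cases h0 : g a b = 0
  · rw [h0]; exact zero_mem _
  obtain ⟨⟨a₀, b₀⟩, hx, hs⟩ := Pl.exists_max (z := fun s : Fin n × Fin n => g s.1 s.2)
    ⟨(a, b), h0⟩
  simp only at hx hs
  have h1 : g a₀ b₀ ^ Q = ∑ c, g a₀ c * m c b₀ := congrFun (congrFun h a₀) b₀
  have h2 : g a₀ b₀ ^ (Q - 1) = ∑ c, g a₀ c / g a₀ b₀ * m c b₀ := by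
    apply mul_left_cancel₀ hx
    rw [← pow_succ', Nat.sub_add_cancel hQ.le, h1, Finset.mul_sum]
    exact Finset.sum_congr rfl fun c _ => by field_simp
  have h3 : g a₀ b₀ ∈ Pl.O := Pl.mem_of_pow (r := Q - 1) (by omega) (by
    rw [h2]
    exact Pl.O.sum_mem fun c _ => Pl.O.mul_mem (hs (a₀, c)) (hm c b₀))
  have h4 := Pl.O.mul_mem (hs (a, b)) h3
  rwa [div_mul_cancel₀ _ hx] at h4

theorem frH_frH [PQ Ω q] {g : Matrix (Fin n) (Fin n) Ω} (hg : IsUnit g) :
    frH Ω n uni q (frH Ω n uni q g) = g.map (· ^ q ^ 2) := by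
  have e : frH Ω n false q (frH Ω n false q g) = g.map (· ^ q ^ 2) := by
    ext a b
    simp only [frH_apply, Bool.false_eq_true, if_false, map_apply, ← pow_mul, sq]
  cases uni
  · exact e
  · have h1 := hg.map (frH Ω n false q)
    have h2 := h1.map (frH Ω n false q)
    change thH Ω n (frH Ω n false q (thH Ω n (frH Ω n false q g))) = _
    rw [frH_thH false q h1, ← e]
    change _⁻¹ᵀ⁻¹ᵀ = _
    rw [← transpose_nonsing_inv, transpose_transpose,
      nonsing_inv_nonsing_inv _ ((Matrix.isUnit_iff_isUnit_det _).1 h2)]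

theorem frH_transpose [PQ Ω q] (g : Matrix (Fin n) (Fin n) Ω) :
    frH Ω n uni q gᵀ = (frH Ω n uni q g)ᵀ := by
  rw [frH_apply, frH_apply, transpose_map]
  cases uni
  · rfl
  · simp only [if_true, ← transpose_nonsing_inv]

theorem frH_map [PQ Ω q] [PQ Ω' q] (φ : Ω →+* Ω') {g : Matrix (Fin n) (Fin n) Ω} (hg : IsUnit g) :
    (frH Ω n uni q g).map φ = frH Ω' n uni q (g.map φ) := by
  have e : (g.map φ).map (· ^ q) = (g.map (· ^ q)).map φ := by
    ext a b
    simp
  have h1 : IsUnit (g.map (· ^ q)) := hg.map (frH Ω n false q)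
  rw [frH_apply, frH_apply, e]
  cases uni
  · rfl
  · simp only [if_true]
    rw [map_inv_of_isUnit φ h1, transpose_map]

/-- The Lang map is finite. -/
theorem Place.IG.of_lang {Pl : Place k Ω Ω'} [PQ Ω q] [PQ Ω' q] {g m : Matrix (Fin n) (Fin n) Ω}
    (hg : IsUnit g) (h : frH Ω n uni q g = g * m) (hm : Pl.IG m) : Pl.IG g := by
  have hQ : IsQ Ω (q ^ 2) := isQ_pow Ω q two_pos
  have hm' := (hm.mul (hm.frob (uni := uni) (q := q)).1).1
  have e : g.map (· ^ q ^ 2) = g * (m * frH Ω n uni q m) := by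
    rw [← frH_frH (uni := uni) hg, h, map_mul, h, mul_assoc]
  have h1 := Pl.mem_of_pow_eq hQ.one_lt e hm'.1
  have e' : g⁻¹ᵀ.map (· ^ q ^ 2) = g⁻¹ᵀ * (m * frH Ω n uni q m)⁻¹ᵀ := by
    rw [← transpose_mul, ← Matrix.mul_inv_rev, ← e, transpose_map]
    exact congrArg transpose (map_inv_of_isUnit (frobHom Ω (q ^ 2)) hg).symm
  have h2 := Pl.mem_of_pow_eq hQ.one_lt e' fun a b => hm'.inv.1.1 b a
  exact ⟨h1, Pl.isUnit_map_red h1 (fun a b => h2 b a) hg⟩

lemma LangG_main [IsAlgClosed k] [IsAlgClosed Ω] [PQ k q] {g m : Matrix (Fin n) (Fin n) k}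
    (hg : IsUnit g) (hF : frH k n uni q g = g) (hm : IsUnit m) (hc : m * g = g * m) {d : ℕ}
    {c ρ : Fin d → Matrix (Fin n) (Fin n) k} (h1 : ∀ i, c i * g = g * c i)
    (h2 : ∀ i j, ∑ a, ∑ b, ρ i a b * c j a b = if i = j then 1 else 0)
    (h3 : ∀ x : Matrix (Fin n) (Fin n) k, x * g = g * x →
      ∀ a' b', x a' b' = ∑ i, (∑ a, ∑ b, ρ i a b * x a b) * c i a' b')
    {s : Fin d → Ω} (hs : AlgebraicIndependent k s) :
    ∃ a, IsUnit a ∧ a * g = g * a ∧ frH k n uni q a = a * m := by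
  have := PQ.ext k q Ω
  have hk : g.map (algebraMap k k) = g := by ext; simp
  have hS : ∀ x : Matrix (Fin n) (Fin n) k, x * g = g * x → LangG_S c (LangG_T ρ x) = x :=
    fun x hx => LangG_S_T h3 (by rwa [hk])
  obtain ⟨A, hA⟩ : ∃ A, A = LangG_S c s := ⟨_, rfl⟩
  obtain ⟨G, hG⟩ : ∃ G, G = g.map (algebraMap k Ω) := ⟨_, rfl⟩
  have hAu : IsUnit A := by
    obtain ⟨Pl, hP⟩ := exists_place (LangG_kr hs (LangG_T ρ (1 : Matrix (Fin n) (Fin n) k)))
    obtain ⟨p1, p2⟩ := LangG_S_red Pl c fun i => (hP i).1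
    refine Place.IG.isUnit (Pl := Pl) ⟨hA ▸ p1, ?_⟩
    rw [hA, p2, funext fun i => (hP i).2, hS 1 (by rw [one_mul, mul_one])]
    exact isUnit_one
  have hAG : A * G = G * A := by rw [hA, hG]; exact LangG_S_comm h1 s
  have hFG : frH Ω n uni q G = G := by rw [hG, ← frH_map _ hg, hF]
  have hd := (Matrix.isUnit_iff_isUnit_det A).1 hAu
  obtain ⟨M, hM⟩ : ∃ M, M = A⁻¹ * frH Ω n uni q A := ⟨_, rfl⟩
  have hL : frH Ω n uni q A = A * M := by
    rw [hM, ← mul_assoc, mul_nonsing_inv _ hd, one_mul]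
  have hMu : IsUnit M := hM ▸ (Matrix.isUnit_nonsing_inv_iff.2 hAu).mul (hAu.map _)
  have hMG : M * G = G * M := by
    have e := congrArg (frH Ω n uni q) hAG
    rw [map_mul, map_mul, hFG, hL, ← mul_assoc, ← hAG, mul_assoc, mul_assoc] at e
    exact hAu.mul_left_cancel e
  have hMS : LangG_S c (LangG_T ρ M) = M := LangG_S_T h3 (hG ▸ hMG)
  have hacl : range s ⊆ acl k (range (LangG_T ρ M)) := by
    rintro _ ⟨i, rfl⟩
    refine mem_acl_of_place fun Pl hP => ?_
    obtain ⟨p1, p2⟩ := LangG_S_red Pl c fun i => (hP _ ⟨i, rfl⟩).1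
    rw [funext fun i => (hP _ ⟨i, rfl⟩).2, hMS] at p2
    rw [hMS] at p1
    have hI : Pl.IG A := Place.IG.of_lang hAu hL ⟨p1, p2.symm ▸ hMu⟩
    rw [← LangG_T_S h2 s i, ← hA]
    exact Pl.O.sum_mem fun a _ => Pl.O.sum_mem fun b _ =>
      Pl.O.mul_mem (Pl.O.algebraMap_mem _) (hI.1 a b)
  have ht : AlgebraicIndependent k (LangG_T ρ M) :=
    (rk_range_eq_iff _).1 (le_antisymm (rk_range_le _)
      (((rk_range_eq_iff s).2 hs).symm.le.trans (rk_le_of_acl (finite_range _) hacl)))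
  obtain ⟨Pl, hP⟩ := exists_place (LangG_kr ht (LangG_T ρ m))
  obtain ⟨p1, p2⟩ := LangG_S_red Pl c fun i => (hP i).1
  rw [funext fun i => (hP i).2, hMS, hS m hc] at p2
  rw [hMS] at p1
  have hIM : Pl.IG M := ⟨p1, p2.symm ▸ hm⟩
  have hI : Pl.IG A := Place.IG.of_lang hAu hL hIM
  have hGO : ∀ a b, G a b ∈ Pl.O := fun a b => hG ▸ Pl.O.algebraMap_mem _
  have hGr : G.map Pl.red = g := by
    ext a b
    rw [hG, map_apply, map_apply, Pl.red_algebraMap]
    rfl
  refine ⟨A.map Pl.red, hI.2, ?_, ?_⟩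
  · rw [← hGr, ← (Pl.map_red_mul hI.1 hGO).2, ← (Pl.map_red_mul hGO hI.1).2, hAG]
  · rw [← (hI.frob (uni := uni) (q := q)).2, hL, (hI.mul hIM).2, p2]

/-- Lang's theorem for the centraliser of a rational element. -/
theorem exists_lang [IsAlgClosed k] [PQ k q] {g m : Matrix (Fin n) (Fin n) k} (hg : IsUnit g)
    (hF : frH k n uni q g = g) (hm : IsUnit m) (hc : m * g = g * m) :
    ∃ a, IsUnit a ∧ a * g = g * a ∧ frH k n uni q a = a * m := by
  let V : Submodule k (Matrix (Fin n) (Fin n) k) :=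
    LinearMap.eqLocus (LinearMap.mulRight k g) (LinearMap.mulLeft k g)
  obtain ⟨d, c, ρ, h1, h2, h3⟩ := LangG_coord V
  let R := MvPolynomial (Fin d) k
  let Ω := AlgebraicClosure (FractionRing R)
  have hs : AlgebraicIndependent k fun i : Fin d => algebraMap R Ω (X i) := by
    rw [algebraicIndependent_iff_injective_aeval]
    have e : aeval (fun i : Fin d => algebraMap R Ω (X i)) = IsScalarTower.toAlgHom k R Ω := by
      ext i
      rw [aeval_X]
      rfl
    rw [e]
    change Function.Injective (algebraMap R Ω)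
    rw [IsScalarTower.algebraMap_eq R (FractionRing R) Ω]
    exact (algebraMap (FractionRing R) Ω).injective.comp (IsFractionRing.injective R _)
  exact LangG_main hg hF hm hc h1 h2 h3 hs

end Pool.Agent.MP_0c8446_ag

end

section

namespace Pool.Agent.MP_0c8446_ag

open MvPolynomial Set Matrix

universe u v w

/-- There is a nondegenerate bilinear form for which the variable acts by a self-adjoint map. -/
def TranspP (k : Type u) [Field k] (M : Type v) [AddCommGroup M] [Module k M]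
    [Module (Polynomial k) M] : Prop :=
  ∃ B : M →ₗ[k] M →ₗ[k] k, (∀ m, (∀ m', B m m' = 0) → m = 0) ∧
    ∀ m m', B ((Polynomial.X : Polynomial k) • m) m' = B m ((Polynomial.X : Polynomial k) • m')

theorem TranspP_equiv {k : Type u} [Field k] {M : Type v} {N : Type w} [AddCommGroup M]
    [Module k M] [Module (Polynomial k) M] [IsScalarTower k (Polynomial k) M] [AddCommGroup N]
    [Module k N] [Module (Polynomial k) N] [IsScalarTower k (Polynomial k) N]
    (e : M ≃ₗ[Polynomial k] N) (h : TranspP k N) : TranspP k M := by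
  obtain ⟨B, h1, h2⟩ := h
  refine ⟨B.compl₁₂ (e.restrictScalars k).toLinearMap (e.restrictScalars k).toLinearMap,
    fun m hm => ?_, fun m m' => ?_⟩
  · refine e.injective ((h1 (e m) fun y => ?_).trans (map_zero e).symm)
    have := hm (e.symm y)
    simpa using this
  · simpa using h2 (e m) (e m')

theorem TranspP_pi {k : Type u} [Field k] {ι : Type v} [Fintype ι] {M : ι → Type w}
    [∀ i, AddCommGroup (M i)] [∀ i, Module k (M i)] [∀ i, Module (Polynomial k) (M i)]
    (h : ∀ i, TranspP k (M i)) : TranspP k (∀ i, M i) := by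
  classical
  choose B h1 h2 using h
  refine ⟨∑ i, (B i).compl₁₂ (LinearMap.proj i) (LinearMap.proj i), fun m hm => ?_,
    fun m m' => ?_⟩
  · funext i
    refine h1 i (m i) fun y => ?_
    have := hm (Pi.single i y)
    simp only [LinearMap.sum_apply, LinearMap.compl₁₂_apply, LinearMap.proj_apply] at this
    rw [Finset.sum_eq_single i (fun j _ hj => by rw [Pi.single_eq_of_ne hj, map_zero])
      (fun hi => absurd (Finset.mem_univ i) hi), Pi.single_eq_same] at this
    exact this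
  · simp only [LinearMap.sum_apply, LinearMap.compl₁₂_apply, LinearMap.proj_apply, Pi.smul_apply,
      h2]

theorem TranspP_monic {k : Type u} [Field k] {g : Polynomial k} (hg : g.Monic) :
    TranspP k (Polynomial k ⧸ Ideal.span {g}) := by
  let lam : (Polynomial k ⧸ Ideal.span {g}) →ₗ[k] k :=
    ((Ideal.span {g}).restrictScalars k).liftQ
      ((Polynomial.lcoeff k (g.natDegree - 1)).comp (Polynomial.modByMonicHom g)) fun f hf => by
        have h1 : g ∣ f := Ideal.mem_span_singleton.1 hf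
        simp [(Polynomial.modByMonic_eq_zero_iff_dvd hg).2 h1]
  have hl : ∀ f : Polynomial k,
      lam (Ideal.Quotient.mk _ f) = (f %ₘ g).coeff (g.natDegree - 1) := fun f => rfl
  refine ⟨(LinearMap.mul k _).compr₂ lam, fun m hm => ?_, fun m m' => ?_⟩
  · obtain ⟨f, rfl⟩ := Ideal.Quotient.mk_surjective m
    have e : Ideal.Quotient.mk (Ideal.span {g}) f = Ideal.Quotient.mk _ (f %ₘ g) := by
      rw [Ideal.Quotient.eq, Ideal.mem_span_singleton]
      exact ⟨f /ₘ g, by rw [sub_eq_iff_eq_add', Polynomial.modByMonic_add_div]⟩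
    by_cases h0 : f %ₘ g = 0
    · rw [e, h0, map_zero]
    exfalso
    have hd : (f %ₘ g).degree < g.degree := Polynomial.degree_modByMonic_lt f hg
    have hd' : (f %ₘ g).natDegree < g.natDegree := Polynomial.natDegree_lt_natDegree h0 hd
    have h1 := hm (Ideal.Quotient.mk _ (Polynomial.X ^ (g.natDegree - 1 - (f %ₘ g).natDegree)))
    rw [LinearMap.compr₂_apply, LinearMap.mul_apply', e, ← map_mul, hl] at h1
    have h2 : ((f %ₘ g) * Polynomial.X ^ (g.natDegree - 1 - (f %ₘ g).natDegree)).degree <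
        g.degree := by
      refine Polynomial.degree_lt_degree ?_
      rw [Polynomial.natDegree_mul_X_pow _ h0]
      omega
    rw [(Polynomial.modByMonic_eq_self_iff hg).2 h2] at h1
    have h3 := Polynomial.coeff_mul_X_pow (f %ₘ g) (g.natDegree - 1 - (f %ₘ g).natDegree)
      (f %ₘ g).natDegree
    rw [show (f %ₘ g).natDegree + (g.natDegree - 1 - (f %ₘ g).natDegree) = g.natDegree - 1 by
      omega, h1] at h3
    exact h0 (Polynomial.leadingCoeff_eq_zero.1 h3.symm)
  · simp only [LinearMap.compr₂_apply, LinearMap.mul_apply', smul_mul_assoc, mul_smul_comm]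

theorem TranspP_quot {k : Type u} [Field k] {g : Polynomial k} (hg : g ≠ 0) :
    TranspP k (Polynomial k ⧸ (Polynomial k ∙ g)) := by
  classical
  refine TranspP_equiv (Submodule.quotEquivOfEq _ (Ideal.span {normalize g}) ?_)
    (TranspP_monic (Polynomial.monic_normalize hg))
  exact (Ideal.span_singleton_eq_span_singleton.2 (associated_normalize g))

/-- A matrix is conjugate to its transpose. -/
theorem exists_conj_transpose {k : Type u} [Field k] {n : ℕ} (g : Matrix (Fin n) (Fin n) k) :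
    ∃ u : Matrix (Fin n) (Fin n) k, IsUnit u ∧ u * g = gᵀ * u := by
  classical
  obtain ⟨ι, _, p, hp, e, ⟨φ⟩⟩ := Module.equiv_directSum_of_isTorsion
    (Module.AEval.isTorsion_of_finiteDimensional k (Fin n → k) (Matrix.toLin' g))
  obtain ⟨B, h1, h2⟩ := TranspP_equiv (φ.trans (DirectSum.linearEquivFunOnFintype _ _ _))
    (TranspP_pi fun i => TranspP_quot (pow_ne_zero (e i) (hp i).ne_zero))
  let o := Module.AEval'.of (Matrix.toLin' g)
  obtain ⟨U, hU⟩ := (Matrix.toLinearMap₂' k).surjective (B.compl₁₂ o.toLinearMap o.toLinearMap)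
  have hB : ∀ x y, B (o x) (o y) = x ⬝ᵥ U *ᵥ y := fun x y => by
    rw [← Matrix.toLinearMap₂'_apply', hU]
    rfl
  refine ⟨U, Matrix.vecMul_injective_iff_isUnit.1 fun x x' hx => ?_, ?_⟩
  · refine sub_eq_zero.1 (o.injective ((h1 _ fun y => ?_).trans (map_zero o).symm))
    obtain ⟨y, rfl⟩ := o.surjective y
    have hx' : x ᵥ* U = x' ᵥ* U := hx
    rw [hB, Matrix.dotProduct_mulVec, Matrix.sub_vecMul, hx', sub_self, zero_dotProduct]
  · refine (Matrix.toLinearMap₂' k :
      _ ≃ₗ[k] (Fin n → k) →ₗ[k] (Fin n → k) →ₗ[k] k).injective (LinearMap.ext₂ fun x y => ?_)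
    have h3 := h2 (o x) (o y)
    rw [Module.AEval'.X_smul_of, Module.AEval'.X_smul_of, hB, hB] at h3
    rw [Matrix.toLinearMap₂'_apply', Matrix.toLinearMap₂'_apply', ← Matrix.mulVec_mulVec,
      ← Matrix.mulVec_mulVec, Matrix.dotProduct_mulVec x gᵀ, Matrix.vecMul_transpose]
    exact h3.symm

end Pool.Agent.MP_0c8446_ag

end

section

namespace Pool.Agent.MP_0c8446_ag

open MvPolynomial Set Matrix

universe u v w

variable {k : Type u} [Field k] {n : ℕ} {uni : Bool} {q : ℕ} [PQ k q]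

lemma FixG_root {Ω : Type u} [Field Ω] [PQ Ω q] {g : Matrix (Fin n) (Fin n) Ω} (hg : IsUnit g)
    (h : frH Ω n uni q g = g) (a b : Fin n) : g a b ^ q ^ 2 = g a b := by
  have h1 := frH_frH (uni := uni) (q := q) hg
  rw [h, h] at h1
  exact (congrFun (congrFun h1 a) b).symm

lemma FixG_ne (k : Type u) [Field k] (q : ℕ) [PQ k q] :
    (Polynomial.X ^ q ^ 2 - Polynomial.X : Polynomial k) ≠ 0 :=
  FiniteField.X_pow_card_pow_sub_X_ne_zero k two_ne_zero (IsQ.one_lt (k := k))

lemma FixG_grp {G : Type*} [Group G] (Φ : G →* G) {g t u a : G} (h1 : u * g = t * u)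
    (h2 : a * g = g * a) (h3 : Φ a = a * (u⁻¹ * Φ u)) :
    Φ (u * a⁻¹) = u * a⁻¹ ∧ u * a⁻¹ * g⁻¹ * (u * a⁻¹)⁻¹ = t⁻¹ := by
  refine ⟨by rw [map_mul, map_inv, h3]; group, ?_⟩
  have h4 : t = u * g * u⁻¹ := by rw [h1]; group
  have h5 : a⁻¹ * g⁻¹ * a = g⁻¹ := by rw [← _root_.mul_inv_rev, ← h2]; group
  rw [h4]
  calc u * a⁻¹ * g⁻¹ * (u * a⁻¹)⁻¹ = u * (a⁻¹ * g⁻¹ * a) * u⁻¹ := by group
    _ = _ := by rw [h5]; group

theorem finite_fixG (k : Type u) [Field k] (n : ℕ) (uni : Bool) (q : ℕ) [PQ k q] :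
    Finite (fixG k n uni q) := by
  have h1 : {x : k | (Polynomial.X ^ q ^ 2 - Polynomial.X : Polynomial k).IsRoot x}.Finite :=
    Polynomial.finite_setOfPred_isRoot (FixG_ne k q)
  have := h1.to_subtype
  refine Finite.of_injective (fun (g : fixG k n uni q) (a b : Fin n) =>
    (⟨g.1.1 a b, by
      simp [Polynomial.IsRoot, FixG_root g.1.isUnit (mem_fixG.1 g.2)]⟩ :
      {x : k | (Polynomial.X ^ q ^ 2 - Polynomial.X : Polynomial k).IsRoot x})) fun g g' h => ?_
  refine Subtype.ext (Units.ext (Matrix.ext fun a b => ?_))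
  exact congrArg Subtype.val (congrFun (congrFun h a) b)

/-- The finite group does not depend on the algebraically closed field. -/
theorem exists_fixG [IsAlgClosed k] {Ω : Type u} [Field Ω] [Algebra k Ω] [PQ Ω q]
    {g : Matrix (Fin n) (Fin n) Ω} (hg : IsUnit g) (h : frH Ω n uni q g = g) :
    ∃ γ : fixG k n uni q, γ.1.1.map (algebraMap k Ω) = g := by
  have h1 : ∀ a b, ∃ x, algebraMap k Ω x = g a b := fun a b =>
    (IsAlgClosed.splits _).mem_range_of_isRoot (FixG_ne k q) (i := algebraMap k Ω) (by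
      simp [Polynomial.IsRoot, FixG_root hg h])
  choose g₀ hg₀ using h1
  have h2 : (Matrix.of g₀).map (algebraMap k Ω) = g := Matrix.ext hg₀
  have h3 : IsUnit (Matrix.of g₀) := by
    rw [Matrix.isUnit_iff_isUnit_det, isUnit_iff_ne_zero] at hg ⊢
    intro h4
    apply hg
    rw [← h2, ← RingHom.mapMatrix_apply, ← RingHom.map_det, h4, map_zero]
  refine ⟨⟨h3.unit, mem_fixG.2 ?_⟩, h2⟩
  refine Matrix.map_injective (algebraMap k Ω).injective ?_
  change (frH k n uni q (Matrix.of g₀)).map (algebraMap k Ω) = (Matrix.of g₀).map _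
  rw [frH_map _ h3, h2, h]

theorem isConj_thG [IsAlgClosed k] (g : fixG k n uni q) : IsConj (thG k n uni q g) g⁻¹ := by
  obtain ⟨u, hu, h1⟩ := exists_conj_transpose g.1.1
  obtain ⟨u, rfl⟩ := hu
  have hg := mem_fixG.1 g.2
  obtain ⟨t, ht⟩ := (Matrix.isUnit_transpose g.1.1).2 g.1.isUnit
  have h2 : u * g.1 = t * u := Units.ext (by rw [Units.val_mul, Units.val_mul, ht, h1])
  have h3 : Units.map (frH k n uni q) g.1 = g.1 := g.2
  have h4 : Units.map (frH k n uni q) t = t := Units.ext (by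
    rw [Units.coe_map, ht, frH_transpose, hg])
  have h5 := congrArg (Units.map (frH k n uni q)) h2
  rw [map_mul, map_mul, h3, h4] at h5
  have h6 : u⁻¹ * Units.map (frH k n uni q) u * g.1 =
      g.1 * (u⁻¹ * Units.map (frH k n uni q) u) := by
    rw [mul_assoc, h5, ← mul_assoc, ← mul_assoc, show u⁻¹ * t = g.1 * u⁻¹ by
      rw [inv_mul_eq_iff_eq_mul, ← mul_assoc, h2, mul_inv_cancel_right]]
  obtain ⟨a, ha, h7, h8⟩ := exists_lang g.1.isUnit hg
    (u⁻¹ * Units.map (frH k n uni q) u).isUnit (congrArg Units.val h6)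
  obtain ⟨a, rfl⟩ := ha
  obtain ⟨h9, h10⟩ := FixG_grp (Units.map (frH k n uni q)) (a := a) h2 (Units.ext h7)
    (Units.ext h8)
  refine IsConj.symm (isConj_iff.2 ⟨⟨u * a⁻¹, h9⟩, Subtype.ext (h10.trans (Units.ext ?_))⟩)
  change _ = (g.1.1)⁻¹ᵀ
  rw [Matrix.coe_units_inv, ht, Matrix.transpose_nonsing_inv]

end Pool.Agent.MP_0c8446_ag

end
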