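import Pool.Agent.Mg.F0c8446.G24c86c
import Pool.Agent.Mg.F0c8446.G601e39
import Pool.Agent.Mg.F0c8446.G37419f
import Pool.Agent.Mg.F0c8446.G1ff22b

section

namespace Pool.Agent.MP_0c8446_ag

open MvPolynomial Set

universe u v w

variable {k : Type u} [Field k] {Γ : Type u} [Group Γ]

/-- The values of a family of ratios of forms. -/
noncomputable def tv {σ τ : Type} {Ω : Type u} [Field Ω] [Algebra k Ω]
    (F G : τ → MvPolynomial σ k) (v : σ → Ω) : τ → Ω := fun s => aeval v (F s) / aeval v (G s)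

/-- A family of points whose quotient by `Γ` is an open subset of an affine space over the
parameter blocks. -/
structure AffQ (S : Stage k Γ) (R : Fam k (Vars S.P.n)) (𝓓 : Set (Set S.P.pts)) {N : ℕ}
    (d : Fin N → S.P.ι →₀ ℕ) (F G : Fin N → MvPolynomial (Vars S.P.n) k)
    (Dp : MvPolynomial (Fin N) k) : Prop where
  hF : ∀ s, IsForm (d s) (F s)
  hG : ∀ s, IsForm (d s) (G s)
  on : ∀ (Ω : Type u) [Field Ω] [Algebra k Ω] [IsAlgClosed Ω] (v : Vars S.P.n → Ω), R Ω v →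
    S.P.On v ∧ (∀ s, aeval v (G s) ≠ 0) ∧ aeval (tv F G v) Dp ≠ 0
  emb : ∀ (Ω Ω' : Type u) [Field Ω] [Algebra k Ω] [IsAlgClosed Ω] [Field Ω'] [Algebra k Ω']
    [IsAlgClosed Ω'] (φ : Ω →ₐ[k] Ω') (v : Vars S.P.n → Ω), R Ω v → R Ω' fun a => φ (v a)
  sp : ∀ (Ω Ω' : Type u) [Field Ω] [Algebra k Ω] [IsAlgClosed Ω] [Field Ω'] [Algebra k Ω']
    [IsAlgClosed Ω'] (v : Vars S.P.n → Ω) (u : Vars S.P.n → Ω'), R Ω v → NZb u →
    pI k v ≤ pI k u → R Ω' u ∨ S.P.loc u ∈ 𝓓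
  alg : ∀ (Ω : Type u) [Field Ω] [Algebra k Ω] [IsAlgClosed Ω] (v : Vars S.P.n → Ω), R Ω v →
    rat S.Jᶜ v ⊆ acl k (range (tv F G v))
  fib : ∀ (Ω : Type u) [Field Ω] [Algebra k Ω] [IsAlgClosed Ω] (v v' : Vars S.P.n → Ω), R Ω v →
    R Ω v' → tv F G v = tv F G v' → ParOn S.J v v' →
    ∃ γ, ParOn univ (blin (fun i => S.ρ i γ) v) v'
  surj : ∀ (Ω : Type u) [Field Ω] [Algebra k Ω] [IsAlgClosed Ω] (v : Vars S.P.n → Ω)
    (x : Fin N → Ω), R Ω v → aeval x Dp ≠ 0 →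
    ∃ v', R Ω v' ∧ tv F G v' = x ∧ ∀ a, a.1 ∈ S.J → v' a = v a
  val : ∀ (Ω Ω' : Type u) [Field Ω] [Algebra k Ω] [IsAlgClosed Ω] [Field Ω'] [Algebra k Ω']
    [IsAlgClosed Ω'] (Pl : Place k Ω Ω') (v : Vars S.P.n → Ω), R Ω v →
    (∀ s, tv F G v s ∈ Pl.O) → aeval (fun s => Pl.red (tv F G v s)) Dp ≠ 0 →
    ∀ t : S.P.ι → Ω, (∀ i, t i ≠ 0) → (∀ a, sc t v a ∈ Pl.O) →
    NZb (fun a => Pl.red (sc t v a)) → R Ω' fun a => Pl.red (sc t v a)

/-- The coordinates with index `≥ i` are independent over the parameters and the coordinates with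
index `< i`. -/
def Stage.Cyl (S : Stage k Γ) {N : ℕ} (F G : Fin N → MvPolynomial (Vars S.P.n) k) (i : ℕ)
    {Ω : Type u} [Field Ω] [Algebra k Ω] (v : Vars S.P.n → Ω) : Prop :=
  rk k (rat S.J v ∪ tv F G v '' {s | (s : ℕ) < i}) + (N - i) ≤ rk k (rat univ v)

variable {S : Stage k Γ} {R : Fam k (Vars S.P.n)} {𝓓 : Set (Set S.P.pts)} {N : ℕ}
  {d : Fin N → S.P.ι →₀ ℕ} {F G : Fin N → MvPolynomial (Vars S.P.n) k}
  {Dp : MvPolynomial (Fin N) k} {Ω : Type u} [Field Ω] [Algebra k Ω] [IsAlgClosed Ω]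
  {v : Vars S.P.n → Ω}

theorem AffQ.rk_eq (h : AffQ S R 𝓓 d F G Dp) (hv : R Ω v) :
    rk k (rat univ v) = rk k (rat S.J v ∪ range (tv F G v)) := by
  refine le_antisymm (rk_le_of_acl ((finite_rat _ _).union (finite_range _)) ?_)
    (rk_le_of_acl (finite_rat _ _) (union_subset ((rat_mono (subset_univ _) v).trans
      (subset_acl _)) ?_))
  · rw [← union_compl_self S.J, rat_union]
    exact union_subset (subset_union_left.trans (subset_acl _))
      ((h.alg Ω v hv).trans (acl_mono subset_union_right))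
  · rintro _ ⟨s, rfl⟩
    exact form_div_mem_acl (h.hF s) (h.hG s) (fun i hi => absurd (mem_univ i) hi)
      (h.on Ω v hv).1.1

theorem AffQ.cyl_top (h : AffQ S R 𝓓 d F G Dp) (hv : R Ω v) : S.Cyl F G N v := by
  have e : {s : Fin N | (s : ℕ) < N} = univ := eq_univ_of_forall fun s => s.2
  unfold Stage.Cyl
  rw [e, image_univ, h.rk_eq hv]
  omega

theorem AffQ.free (h : AffQ S R 𝓓 d F G Dp) (hv : R Ω v) (hc : S.Cyl F G 0 v) : S.Free v := by
  have e : {s : Fin N | (s : ℕ) < 0} = ∅ := eq_empty_of_forall_notMem fun s => Nat.not_lt_zero _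
  unfold Stage.Cyl at hc
  rw [e, image_empty, union_empty] at hc
  have h1 := rk_le_of_acl (finite_range _) (h.alg Ω v hv)
  have h2 := rk_range_le (k := k) (tv F G v)
  have h3 := rk_union_le (k := k) (finite_rat S.J v) (finite_rat S.Jᶜ v)
  rw [← rat_union, union_compl_self] at h3
  rw [Fintype.card_fin] at h2
  unfold Stage.Free
  omega

theorem AffQ.mem_acl (h : AffQ S R 𝓓 d F G Dp) (hv : R Ω v) {i : Fin N} (h1 : S.Cyl F G (i + 1) v)
    (h2 : ¬ S.Cyl F G i v) :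
    tv F G v i ∈ acl k (rat S.J v ∪ tv F G v '' {s | (s : ℕ) < i}) ∧
      rk k (rat S.J v ∪ tv F G v '' {s | (s : ℕ) < i}) + (N - i) = rk k (rat univ v) + 1 := by
  have e : {s : Fin N | (s : ℕ) < i + 1} = insert i {s : Fin N | (s : ℕ) < i} := by
    ext s
    simp only [mem_ofPred_eq, mem_insert_iff, Fin.ext_iff]
    omega
  have hi := i.2
  unfold Stage.Cyl at h1 h2
  rw [e, image_insert_eq, union_insert] at h1
  have hm : tv F G v i ∈ acl k (rat S.J v ∪ tv F G v '' {s | (s : ℕ) < i}) := by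
    by_contra hm
    rw [rk_insert_of_notMem ((finite_rat _ _).union ((toFinite _).image _)) hm] at h1
    omega
  rw [rk_insert_of_mem hm] at h1
  exact ⟨hm, by omega⟩

/-- Freeing the coordinate `i`. -/
theorem AffQ.exists_gen (h : AffQ S R 𝓓 d F G Dp) (hv : R Ω v) {i : Fin N}
    (h1 : S.Cyl F G (i + 1) v) (h2 : ¬ S.Cyl F G i v) :
    ∃ (Ω' : Type u) (_ : Field Ω') (_ : Algebra k Ω') (_ : IsAlgClosed Ω') (φ : Ω →ₐ[k] Ω')
      (v' : Vars S.P.n → Ω') (w : Vars S.P.n → Ω), R Ω' v' ∧ (∀ a, a.1 ∈ S.J → v' a = φ (v a)) ∧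
      (∀ s, s ≠ i → tv F G v' s = φ (tv F G v s)) ∧ tv F G v' i ∉ acl k (range φ) ∧
      rk k (rat univ v') = rk k (rat univ v) + 1 ∧ R Ω w ∧ pI k v' ≤ pI k w ∧
      tv F G w = tv F G v ∧ ParOn S.J v w ∧
      ∃ γ, ParOn univ (blin (fun i => S.ρ i γ) v) w := by
  obtain ⟨Ω', i1, i2, i3, φ, s, Pl, hs, hsO, hsr, hφ⟩ := exists_generic_place (k := k) (tv F G v i)
  obtain ⟨hon, -, hD⟩ := h.on Ω v hv
  set x : Fin N → Ω' := Function.update (fun j => φ (tv F G v j)) i s with hx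
  have hxi : x i = s := Function.update_self ..
  have hxj : ∀ j, j ≠ i → x j = φ (tv F G v j) := fun j hj => Function.update_of_ne hj ..
  have hxO : ∀ j, x j ∈ Pl.O ∧ Pl.red (x j) = tv F G v j := fun j => by
    by_cases hj : j = i
    · rw [hj, hxi]
      exact ⟨hsO, hsr⟩
    · rw [hxj j hj]
      exact hφ _
  have hxr : (fun j => Pl.red (x j)) = tv F G v := funext fun j => (hxO j).2
  have hxD : aeval x Dp ≠ 0 := fun h0 => hD (by
    rw [← hxr, ← Pl.red_aeval (fun j => (hxO j).1), h0, Pl.red_zero])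
  obtain ⟨v', hv', ht, hJ⟩ := h.surj Ω' (fun a => φ (v a)) x (h.emb Ω Ω' φ v hv) hxD
  have hpar : ParOn S.J (fun a => φ (v a)) v' := fun j hj =>
    ⟨1, one_ne_zero, fun a => by rw [one_mul]; exact hJ ⟨j, a⟩ hj⟩
  obtain ⟨t, ht0, htO, htN⟩ := Pl.exists_sc (h.on Ω' v' hv').1.1
  have hw : R Ω fun a => Pl.red (sc t v' a) :=
    h.val Ω' Ω Pl v' hv' (fun j => ht ▸ (hxO j).1) (by rw [ht, hxr]; exact hD) t ht0 htO htN
  have htv : tv F G (fun a => Pl.red (sc t v' a)) = tv F G v := by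
    funext j
    have hG := (h.on Ω _ hw).2.1 j
    obtain ⟨c, hc, e⟩ := (parOn_sc univ ht0 v').exists_aeval (k := k) (d := d j)
      fun i hi => absurd (mem_univ i) hi
    rw [← (hxO j).2, ← ht]
    unfold tv
    rw [← Pl.red_aeval htO] at hG
    rw [← Pl.red_aeval htO, ← Pl.red_aeval htO,
      ← (Pl.red_div (Pl.aeval_mem htO _) (Pl.aeval_mem htO _) hG).2, e _ (h.hF j), e _ (h.hG j),
      mul_div_mul_left _ _ hc]
  have hp : ParOn S.J v fun a => Pl.red (sc t v' a) := by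
    have := Pl.par_red (hpar.trans (parOn_sc S.J ht0 v')) (fun a _ => (hφ _).1) (fun a _ => htO a)
      (fun j _ => by simpa only [(hφ _).2] using hon.1 j) fun j _ => htN j
    simpa only [(hφ _).2] using this
  refine ⟨Ω', i1, i2, i3, φ, v', fun a => Pl.red (sc t v' a), hv', hJ, fun j hj => ?_, ?_, ?_, hw,
    ?_, htv, hp, h.fib Ω v _ hv hw htv.symm hp⟩
  · rw [ht, hxj j hj]
  · rwa [ht, hxi]
  · have hf : (rat S.J v ∪ tv F G v '' {j | j ≠ i}).Finite :=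
      (finite_rat _ _).union ((toFinite _).image _)
    have e1 : range x = insert s (φ '' (tv F G v '' {j | j ≠ i})) := by
      ext z
      constructor
      · rintro ⟨j, rfl⟩
        by_cases hj : j = i
        · exact Or.inl (by rw [hj, hxi])
        · exact Or.inr ⟨_, ⟨j, hj, rfl⟩, (hxj j hj).symm⟩
      · rintro (rfl | ⟨_, ⟨j, hj, rfl⟩, rfl⟩)
        · exact ⟨i, hxi⟩
        · exact ⟨j, hxj j hj⟩
    have e2 : range (tv F G v) = insert (tv F G v i) (tv F G v '' {j | j ≠ i}) := by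
      ext z
      constructor
      · rintro ⟨j, rfl⟩
        by_cases hj : j = i
        · exact Or.inl (by rw [hj])
        · exact Or.inr ⟨j, hj, rfl⟩
      · rintro (rfl | ⟨j, -, rfl⟩) <;> exact mem_range_self _
    have hm : tv F G v i ∈ acl k (rat S.J v ∪ tv F G v '' {j | j ≠ i}) :=
      acl_mono (union_subset_union_right _ (image_mono fun j hj => by
        rintro rfl
        exact lt_irrefl (j : ℕ) hj)) (h.mem_acl hv h1 h2).1
    rw [h.rk_eq hv', h.rk_eq hv, ht, hpar.rat_eq, rat_map, e1, e2, union_insert, union_insert,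
      ← image_union, rk_insert_of_mem hm,
      rk_insert_of_notMem (hf.image _) fun h0 => hs (acl_mono (image_subset_range _ _) h0),
      rk_image]
  · rw [← (parOn_sc univ ht0 v').pI_eq (k := k)]
    exact Pl.pI_le htO

end Pool.Agent.MP_0c8446_ag

end

section

namespace Pool.Agent.MP_0c8446_ag

open MvPolynomial Set

universe u v w

section aux

variable {k : Type u} [Field k] {ι : Type} {n : ι → ℕ} {N : ℕ}
  {Ω Ω' : Type u} [Field Ω] [Algebra k Ω] [Field Ω'] [Algebra k Ω']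

/-- The index set of the normalised parameters and of the coordinates below `i`. -/
abbrev QB_idx (n : ι → ℕ) (J : Set ι) (i : Fin N) : Type :=
  {a : Vars n // a.1 ∈ J} ⊕ {s : Fin N // (s : ℕ) < i}

/-- Numerators. -/
noncomputable def QB_F (J : Set ι) (i : Fin N) (F : Fin N → MvPolynomial (Vars n) k) :
    QB_idx n J i → MvPolynomial (Vars n) k := Sum.elim (fun a => X a.1) fun s => F s.1

/-- Denominators. -/
noncomputable def QB_G (J : Set ι) (i : Fin N) (s₀ : ∀ j, Fin (n j + 1))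
    (G : Fin N → MvPolynomial (Vars n) k) : QB_idx n J i → MvPolynomial (Vars n) k :=
  Sum.elim (fun a => X ⟨a.1.1, s₀ a.1.1⟩) fun s => G s.1

/-- Degrees. -/
noncomputable def QB_d (J : Set ι) (i : Fin N) (d : Fin N → ι →₀ ℕ) : QB_idx n J i → ι →₀ ℕ :=
  Sum.elim (fun a => Finsupp.single a.1.1 1) fun s => d s.1

variable {J : Set ι} {i : Fin N} {s₀ : ∀ j, Fin (n j + 1)} {F G : Fin N → MvPolynomial (Vars n) k}
  {d : Fin N → ι →₀ ℕ} {u : Vars n → Ω}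

lemma QB_hF (hF : ∀ s, IsForm (d s) (F s)) : ∀ s, IsForm (QB_d J i d s) (QB_F J i F s)
  | .inl a => isForm_X a.1
  | .inr s => hF s.1

lemma QB_hG (hG : ∀ s, IsForm (d s) (G s)) : ∀ s, IsForm (QB_d J i d s) (QB_G J i s₀ G s)
  | .inl a => isForm_X (⟨a.1.1, s₀ a.1.1⟩ : Vars n)
  | .inr s => hG s.1

lemma QB_ne (h0 : ∀ j ∈ J, u ⟨j, s₀ j⟩ ≠ 0) (hG : ∀ s, aeval u (G s) ≠ 0) :
    ∀ s, aeval u (QB_G J i s₀ G s) ≠ 0
  | .inl a => by simpa [QB_G] using h0 _ a.2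
  | .inr s => hG s.1

lemma QB_inl (u : Vars n → Ω) (a : {a : Vars n // a.1 ∈ J}) :
    tv (QB_F J i F) (QB_G J i s₀ G) u (.inl a) = u a.1 / u ⟨a.1.1, s₀ a.1.1⟩ := by
  simp [tv, QB_F, QB_G]

lemma QB_inr (u : Vars n → Ω) (s : {s : Fin N // (s : ℕ) < i}) :
    tv (QB_F J i F) (QB_G J i s₀ G) u (.inr s) = tv F G u s.1 := rfl

lemma QB_tv_map {σ τ : Type} (F G : τ → MvPolynomial σ k) (φ : Ω →ₐ[k] Ω') (v : σ → Ω) (s : τ) :
    tv F G (fun a => φ (v a)) s = φ (tv F G v s) := by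
  simp only [tv, map_div₀, comp_aeval_apply]

lemma QB_acl (h0 : ∀ j ∈ J, u ⟨j, s₀ j⟩ ≠ 0) : rat J u ∪ tv F G u '' {s | (s : ℕ) < i} ⊆
    acl k (range (tv (QB_F J i F) (QB_G J i s₀ G) u)) := by
  refine union_subset ((rat_subset_acl_norm (k := k) s₀ h0).trans (acl_mono ?_)) ?_
  · rintro _ ⟨a, rfl⟩
    exact ⟨.inl a, QB_inl u a⟩
  · rintro _ ⟨s, hs, rfl⟩
    exact subset_acl _ ⟨.inr ⟨s, hs⟩, rfl⟩

lemma QB_rk [Finite ι] (h0 : ∀ j ∈ J, u ⟨j, s₀ j⟩ ≠ 0) :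
    rk k (range (tv (QB_F J i F) (QB_G J i s₀ G) u)) =
      rk k (rat J u ∪ tv F G u '' {s | (s : ℕ) < i}) := by
  refine le_antisymm (rk_mono ((finite_rat J u).union (toFinite _)) ?_)
    (rk_le_of_acl (finite_range _) (QB_acl h0))
  rintro _ ⟨a | s, rfl⟩
  · exact Or.inl ⟨a.1.1, a.2, a.1.2, _, QB_inl u a⟩
  · exact Or.inr ⟨s.1, s.2, rfl⟩

lemma QB_top [Finite ι] (h0 : ∀ j ∈ J, u ⟨j, s₀ j⟩ ≠ 0) :
    rk k (rat J u ∪ range (tv F G u)) ≤
      rk k (range (fun o : Option (QB_idx n J i) =>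
        o.elim (tv F G u i) (tv (QB_F J i F) (QB_G J i s₀ G) u)) ∪
          range fun s : {s : Fin N // i < s} => tv F G u s.1) := by
  refine rk_le_of_acl ((finite_range _).union (finite_range _)) (union_subset ?_ ?_)
  · refine (subset_union_left.trans (QB_acl (F := F) (G := G) (i := i) h0)).trans (acl_mono ?_)
    rintro _ ⟨a, rfl⟩
    exact Or.inl ⟨some a, rfl⟩
  · rintro _ ⟨s, rfl⟩
    refine subset_acl _ ?_
    rcases lt_trichotomy s i with h | rfl | h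
    · exact Or.inl ⟨some (.inr ⟨s, h⟩), rfl⟩
    · exact Or.inl ⟨none, rfl⟩
    · exact Or.inr ⟨⟨s, h⟩, rfl⟩

lemma QB_card (i : Fin N) [Fintype {s : Fin N // i < s}] :
    Fintype.card {s : Fin N // i < s} + 1 = N - i := by
  have h := Fintype.card_of_subtype (Finset.Ioi i) (p := fun s => i < s) fun _ => Finset.mem_Ioi
  rw [h, Fin.card_Ioi]
  have := i.2
  omega

lemma QB_range {σ α : Type*} (a : α) (x : σ → α) :
    range (fun o : Option σ => o.elim a x) = insert a (range x) := by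
  ext y
  constructor
  · rintro ⟨_ | s, rfl⟩
    · exact Or.inl rfl
    · exact Or.inr ⟨s, rfl⟩
  · rintro (rfl | ⟨s, rfl⟩)
    · exact ⟨none, rfl⟩
    · exact ⟨some s, rfl⟩

lemma QB_blin (M : ∀ i, Matrix (Fin (n i + 1)) (Fin (n i + 1)) k) (φ : Ω →ₐ[k] Ω')
    (v : Vars n → Ω) : blin M (fun a => φ (v a)) = fun a => φ (blin M v a) := by
  funext a
  simp only [blin, map_sum, map_smul]

end aux

variable {k : Type u} [Field k] {Γ : Type u} [Group Γ]
  {S : Stage k Γ} {R : Fam k (Vars S.P.n)} {𝓓 : Set (Set S.P.pts)} {N : ℕ}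
  {d : Fin N → S.P.ι →₀ ℕ} {F G : Fin N → MvPolynomial (Vars S.P.n) k}
  {Dp : MvPolynomial (Fin N) k} {Ω : Type u} [Field Ω] [Algebra k Ω] [IsAlgClosed Ω]
  {v : Vars S.P.n → Ω}

/-- Points with the same relations between all coordinates are translates. -/
lemma QB_tr (h : AffQ S R 𝓓 d F G Dp) (hv : R Ω v) {i : Fin N} {s₀ : ∀ j, Fin (S.P.n j + 1)}
    (h0 : ∀ j ∈ S.J, v ⟨j, s₀ j⟩ ≠ 0) {Ω' : Type u} [Field Ω'] [Algebra k Ω'] [IsAlgClosed Ω']
    {u : Vars S.P.n → Ω'} (hu : R Ω' u) (hu0 : ∀ j ∈ S.J, u ⟨j, s₀ j⟩ ≠ 0)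
    (hk : kr k (Sum.elim (fun o : Option (QB_idx S.P.n S.J i) =>
        o.elim (tv F G v i) (tv (QB_F S.J i F) (QB_G S.J i s₀ G) v))
        fun s : {s : Fin N // i < s} => tv F G v s.1) =
      kr k (Sum.elim (fun o : Option (QB_idx S.P.n S.J i) =>
        o.elim (tv F G u i) (tv (QB_F S.J i F) (QB_G S.J i s₀ G) u))
        fun s : {s : Fin N // i < s} => tv F G u s.1)) :
    ∃ γ, pI k u = pI k (blin (fun i => S.ρ i γ) v) := by
  obtain ⟨Ω₃, _, _, _, φ₁, φ₂, he⟩ := exists_amalgam hk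
  obtain ⟨γ, hγ⟩ := h.fib Ω₃ (fun a => φ₁ (v a)) (fun a => φ₂ (u a)) (h.emb _ _ φ₁ v hv)
    (h.emb _ _ φ₂ u hu)
    (by
      funext s
      rw [QB_tv_map, QB_tv_map]
      rcases lt_trichotomy s i with hs | rfl | hs
      · exact he (.inl (some (.inr ⟨s, hs⟩)))
      · exact he (.inl none)
      · exact he (.inr ⟨s, hs⟩))
    (fun j hj => by
      have h1 : φ₁ (v ⟨j, s₀ j⟩) ≠ 0 := (map_ne_zero φ₁).2 (h0 j hj)
      have h2 : φ₂ (u ⟨j, s₀ j⟩) ≠ 0 := (map_ne_zero φ₂).2 (hu0 j hj)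
      refine ⟨φ₂ (u ⟨j, s₀ j⟩) / φ₁ (v ⟨j, s₀ j⟩), div_ne_zero h2 h1, fun s => ?_⟩
      have h3 : φ₁ (tv (QB_F S.J i F) (QB_G S.J i s₀ G) v (.inl ⟨⟨j, s⟩, hj⟩)) =
          φ₂ (tv (QB_F S.J i F) (QB_G S.J i s₀ G) u (.inl ⟨⟨j, s⟩, hj⟩)) :=
        he (.inl (some (.inl ⟨⟨j, s⟩, hj⟩)))
      rw [QB_inl, QB_inl, map_div₀, map_div₀, div_eq_div_iff h1 h2] at h3
      change φ₂ (u ⟨j, s⟩) = _ * φ₁ (v ⟨j, s⟩)
      rw [div_mul_eq_mul_div, eq_div_iff h1, ← h3, mul_comm])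
  refine ⟨γ, ?_⟩
  rw [← pI_map φ₂ u, hγ.pI_eq (k := k), QB_blin, pI_map]

/-- The minimal polynomial of the coordinate `i` cuts out translates of the locus of `v` and
cylinders of lower level. -/
theorem AffQ.exists_forms (h : AffQ S R 𝓓 d F G Dp) (hv : R Ω v) {i : Fin N}
    (h1 : S.Cyl F G (i + 1) v) (h2 : ¬ S.Cyl F G i v) {Ω' : Type u} [Field Ω'] [Algebra k Ω']
    [IsAlgClosed Ω'] (φ : Ω →ₐ[k] Ω') {v' : Vars S.P.n → Ω'} (hv' : R Ω' v')
    (e1 : ∀ a, a.1 ∈ S.J → v' a = φ (v a)) (e2 : ∀ s, s ≠ i → tv F G v' s = φ (tv F G v s))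
    (e3 : tv F G v' i ∉ acl k (range φ)) :
    ∃ (e : S.P.ι →₀ ℕ) (F₀ G₀ : MvPolynomial (Vars S.P.n) k), IsForm e F₀ ∧ IsForm e G₀ ∧
      aeval v' F₀ ≠ 0 ∧ aeval v' G₀ ≠ 0 ∧
      (∀ w, R Ω w → tv F G w = tv F G v → ParOn S.J v w → aeval w F₀ = 0) ∧
      ∀ (Ω'' : Type u) [Field Ω''] [Algebra k Ω''] [IsAlgClosed Ω''] (u : Vars S.P.n → Ω''),
        R Ω'' u → pI k v' ≤ pI k u → rk k (rat univ u) = rk k (rat univ v) →
        S.Cyl F G i u ∨ (aeval u G₀ ≠ 0 ∧ (aeval u F₀ = 0 →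
          ∃ γ, pI k u = pI k (blin (fun i => S.ρ i γ) v))) := by
  classical
  choose s₀ hs₀ using (h.on Ω v hv).1.1
  have h0 : ∀ j ∈ S.J, v ⟨j, s₀ j⟩ ≠ 0 := fun j _ => hs₀ j
  obtain ⟨ha, hrk⟩ := h.mem_acl hv h1 h2
  have ha' := acl_subset (QB_acl (F := F) (G := G) (i := i) h0) ha
  obtain ⟨f, hf0, hf⟩ := exists_minpoly _ ha'
  let _ : Fintype (QB_idx S.P.n S.J i) := Fintype.ofFinite _
  let F₂ : Option (QB_idx S.P.n S.J i) → MvPolynomial (Vars S.P.n) k :=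
    fun o => o.elim (F i) (QB_F S.J i F)
  let G₂ : Option (QB_idx S.P.n S.J i) → MvPolynomial (Vars S.P.n) k :=
    fun o => o.elim (G i) (QB_G S.J i s₀ G)
  let d₂ : Option (QB_idx S.P.n S.J i) → S.P.ι →₀ ℕ := fun o => o.elim (d i) (QB_d S.J i d)
  have hF₂ : ∀ o, IsForm (d₂ o) (F₂ o) := by
    rintro (_ | o)
    exacts [h.hF i, QB_hF h.hF o]
  have hG₂ : ∀ o, IsForm (d₂ o) (G₂ o) := by
    rintro (_ | o)
    exacts [h.hG i, QB_hG h.hG o]
  obtain ⟨D, H, hH, hD⟩ := exists_form_frac hF₂ hG₂ f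
  have key : ∀ (Ω'' : Type u) [Field Ω''] [Algebra k Ω''] [IsAlgClosed Ω'']
      (u : Vars S.P.n → Ω''), R Ω'' u → (∀ j ∈ S.J, u ⟨j, s₀ j⟩ ≠ 0) →
      aeval u ((∏ o, G₂ o) ^ D) ≠ 0 ∧ (aeval u H = 0 ↔ aeval (fun o : Option _ =>
        o.elim (tv F G u i) (tv (QB_F S.J i F) (QB_G S.J i s₀ G) u)) f = 0) := by
    intro Ω'' _ _ _ u hu hu0
    have h3 : ∀ o, aeval u (G₂ o) ≠ 0 := by
      rintro (_ | o)
      exacts [(h.on _ u hu).2.1 i, QB_ne hu0 (h.on _ u hu).2.1 o]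
    have h4 : (∏ o, aeval u (G₂ o)) ^ D ≠ 0 := pow_ne_zero _ (Finset.prod_ne_zero_iff.2
      fun o _ => h3 o)
    have h5 : (fun o => aeval u (F₂ o) / aeval u (G₂ o)) = fun o : Option _ =>
        o.elim (tv F G u i) (tv (QB_F S.J i F) (QB_G S.J i s₀ G) u) := by
      funext o
      rcases o with _ | o <;> rfl
    refine ⟨by rwa [map_pow, map_prod], ?_⟩
    rw [hD _ u h3, h5, mul_eq_zero, or_iff_right h4]
  have h0' : ∀ j ∈ S.J, v' ⟨j, s₀ j⟩ ≠ 0 := fun j hj => by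
    rw [e1 ⟨j, s₀ j⟩ hj]
    exact (map_ne_zero φ).2 (hs₀ j)
  have hx : tv (QB_F S.J i F) (QB_G S.J i s₀ G) v' =
      fun s => φ (tv (QB_F S.J i F) (QB_G S.J i s₀ G) v s) := by
    funext s
    rcases s with a | s
    · rw [QB_inl, QB_inl, map_div₀, e1 _ a.2, e1 ⟨a.1.1, s₀ a.1.1⟩ a.2]
    · exact e2 _ (ne_of_lt s.2)
  have hkr : kr k (tv (QB_F S.J i F) (QB_G S.J i s₀ G) v) =
      kr k (tv (QB_F S.J i F) (QB_G S.J i s₀ G) v') := by rw [hx, kr_map]
  have hrk' : rk k (range (tv (QB_F S.J i F) (QB_G S.J i s₀ G) v')) + (N - i) =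
      rk k (rat univ v) + 1 := by
    rw [← hrk, ← QB_rk h0, le_antisymm (rk_le_of_kr hkr.le) (rk_le_of_kr hkr.ge)]
  refine ⟨_, H, (∏ o, G₂ o) ^ D, hH, (IsForm.prod _ fun o _ => hG₂ o).pow D, ?_,
    (key _ v' hv' h0').1, fun w hw e4 e5 => ?_, fun Ω'' _ _ _ u hu hle hr => ?_⟩
  · refine fun h3 => (hf _ _ _ hkr).2 (fun h4 => e3 (acl_mono ?_ h4)) ((key _ v' hv' h0').2.1 h3)
    rw [hx]
    rintro _ ⟨s, rfl⟩
    exact ⟨_, rfl⟩
  · have hw0 : ∀ j ∈ S.J, w ⟨j, s₀ j⟩ ≠ 0 := fun j hj => by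
      obtain ⟨t, ht, h3⟩ := e5 j hj
      rw [h3]
      exact mul_ne_zero ht (hs₀ j)
    have h3 : tv (QB_F S.J i F) (QB_G S.J i s₀ G) w = tv (QB_F S.J i F) (QB_G S.J i s₀ G) v := by
      funext s
      rcases s with a | s
      · obtain ⟨t, ht, h3⟩ := e5 a.1.1 a.2
        rw [QB_inl, QB_inl, h3 (s₀ _), show w a.1 = t * v a.1 from h3 a.1.2,
          mul_div_mul_left _ _ ht]
      · exact congrFun e4 s.1
    rw [(key _ w hw hw0).2, e4, h3]
    exact hf0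
  · have hn : NZb u := (h.on _ u hu).1.1
    by_cases hu0 : ∀ j ∈ S.J, u ⟨j, s₀ j⟩ ≠ 0
    swap
    · push Not at hu0
      obtain ⟨j, hj, hu0⟩ := hu0
      have h3 := rk_sp_lt (I := S.J) (F := fun s : {s : Fin N // (s : ℕ) < i} => F s.1)
        (G := fun s => G s.1) (fun s => h.hF s.1) (fun s => h.hG s.1) hle hn
        (fun s => (h.on _ u hu).2.1 s.1) (isForm_X (⟨j, s₀ j⟩ : Vars S.P.n))
        (fun j' hj' => Finsupp.single_eq_of_ne fun e : j' = j => hj' (e ▸ hj))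
        (by rwa [aeval_X]) (by rw [aeval_X]; exact h0' j hj)
      rw [QB_rk h0', image_eq_range] at hrk'
      left
      unfold Stage.Cyl
      rw [image_eq_range]
      change rk k (rat S.J u ∪ range fun s : {s : Fin N // (s : ℕ) < i} => tv F G u s.1) <
        rk k (rat S.J v' ∪ range fun s : {s : Fin N // (s : ℕ) < i} => tv F G v' s.1) at h3
      change rk k (rat S.J v' ∪ range fun s : {s : Fin N // (s : ℕ) < i} => tv F G v' s.1) + _ = _
        at hrk'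
      change rk k (rat S.J u ∪ range fun s : {s : Fin N // (s : ℕ) < i} => tv F G u s.1) + _ ≤ _
      omega
    have h3 : kr k (tv (QB_F S.J i F) (QB_G S.J i s₀ G) v') ≤
        kr k (tv (QB_F S.J i F) (QB_G S.J i s₀ G) u) :=
      kr_frac_le (QB_hF h.hF) (QB_hG h.hG) hle (QB_ne hu0 (h.on _ u hu).2.1)
    by_cases h4 : rk k (range (tv (QB_F S.J i F) (QB_G S.J i s₀ G) v')) ≤
      rk k (range (tv (QB_F S.J i F) (QB_G S.J i s₀ G) u))
    swap
    · left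
      unfold Stage.Cyl
      rw [← QB_rk hu0]
      omega
    refine Or.inr ⟨(key _ u hu hu0).1, fun h5 => ?_⟩
    have h6 := (hf _ _ _ (hkr.trans (kr_eq_of_rk h3 h4))).1 ((key _ u hu hu0).2.1 h5)
    have h7 := QB_card i
    have h8 := QB_top (F := F) (G := G) (i := i) h0
    have h9 := QB_top (F := F) (G := G) (i := i) hu0
    rw [← h.rk_eq hv] at h8
    rw [← h.rk_eq hu] at h9
    have h10 := rk_le_of_kr h6.le
    have h11 : rk k (range fun o : Option _ =>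
        o.elim (tv F G v i) (tv (QB_F S.J i F) (QB_G S.J i s₀ G) v)) + (N - i) =
        rk k (rat univ v) + 1 := by
      rw [QB_range, rk_insert_of_mem ha', QB_rk h0, hrk]
    exact QB_tr h hv h0 hu hu0 (kr_elim_eq h6 (by omega) (by omega))

end Pool.Agent.MP_0c8446_ag

end

section

namespace Pool.Agent.MP_0c8446_ag

open MvPolynomial Set

universe u v w

variable {k : Type u} [Field k] [IsAlgClosed k] {K : Type v} [Field K] [CharZero K]
  (W : Weil.{u, v, w} k K) {Γ : Type u} [Group Γ]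

theorem Weil.dec_affine {S : Stage k Γ} {R : Fam k (Vars S.P.n)} {𝓓 : Set (Set S.P.pts)} {N : ℕ}
    {d : Fin N → S.P.ι →₀ ℕ} {F G : Fin N → MvPolynomial (Vars S.P.n) k}
    {Dp : MvPolynomial (Fin N) k} (h : AffQ S R 𝓓 d F G Dp) : W.Dec S (S.P.fam R) 𝓓 := by
  intro m β hβ hinv hkill hD
  have key : ∀ i, i ≤ N → ∀ (Ω : Type u) [Field Ω] [Algebra k Ω] [IsAlgClosed Ω]
      (v : Vars S.P.n → Ω), R Ω v → S.Cyl F G i v → W.ph β (S.P.loc v) = 0 := by
    intro i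
    induction i with
    | zero => exact fun _ Ω _ _ _ v hv hc => hkill Ω v (h.on Ω v hv).1 (h.free hv hc)
    | succ i ih =>
      intro hi Ω _ _ _ v hv h1
      by_cases h2 : S.Cyl F G i v
      · exact ih (by omega) Ω v hv h2
      by_contra hc
      have hon := (h.on Ω v hv).1
      have hdim : dim (S.P.loc v) = m := by
        by_contra hne
        exact hc (W.ph_of_dim_ne hβ hon.isSub hne)
      have hrk : rk k (rat univ v) = m := hon.dim_loc.symm.trans hdim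
      obtain ⟨Ω', _, _, _, φ, v', w, hv', e1, e2, e3, hr, hw, hle, ht, hp, γ, hγ⟩ :=
        h.exists_gen hv (i := ⟨i, hi⟩) h1 h2
      obtain ⟨e, F₀, G₀, hF, hG, hF', hG', hw0, hlast⟩ :=
        h.exists_forms hv (i := ⟨i, hi⟩) h1 h2 φ hv' e1 e2 e3
      have act : ∀ δ, W.ph β (S.P.loc (blin (fun i => S.ρ i δ) v)) = W.ph β (S.P.loc v) :=
        fun δ => by rw [(S.loc_act δ hon).2, W.ph_act hinv δ hon.isSub]
      have hwc : W.ph β (S.P.loc w) = W.ph β (S.P.loc v) := by rw [Var.loc_par hγ, act]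
      have hon' := (h.on Ω' v' hv').1
      have honw := (h.on Ω w hw).1
      have hdw : dim (S.P.loc w) = m := by
        by_contra hne
        exact hc (hwc.symm.trans (W.ph_of_dim_ne hβ honw.isSub hne))
      have sub : ∀ C, IsSub C → C ⊆ S.P.loc v' → dim C = m → W.ph β C = 0 ∨
          ((¬ ∀ x ∈ C, Vanish G₀ x.1) ∧
            ((∀ x ∈ C, Vanish F₀ x.1) → W.ph β C = W.ph β (S.P.loc v))) := by
        intro C hC hsub hd
        obtain ⟨Ω'', _, _, _, u, hu, rfl⟩ := S.P.exists_generic hC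
        have hle' := hu.pI_le hsub
        rcases h.sp _ _ v' u hv' hu.1 hle' with hR | hD'
        · rcases hlast Ω'' u hR hle' (by rw [← hu.dim_loc, hd, hrk]) with hc' | ⟨hg, hf⟩
          · exact Or.inl (ih (by omega) Ω'' u hR hc')
          · refine Or.inr ⟨fun hv => hg ((hu.vanish_iff hG).1 hv), fun hv => ?_⟩
            obtain ⟨δ, e'⟩ := hf ((hu.vanish_iff hF).1 hv)
            rw [Var.loc_congr e', act]
        · exact Or.inl (hD _ hD')
      refine hc (W.rel hon' hF hG hF' hG' (m := m) (by rw [hon'.dim_loc, hr, hrk]) β _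
        (fun C hC hsub hd hv => (sub C hC hsub hd).resolve_right fun h' => h'.1 hv)
        (fun C hC hsub hd hv => (sub C hC hsub hd).imp_right fun h' => h'.2 hv)
        honw.isSub (Var.loc_subset hle) hdw ((honw.vanish_iff hF).2 (hw0 w hw ht hp)) hwc)
  rintro _ ⟨Ω, _, _, _, v, hv, rfl⟩
  exact key N le_rfl Ω v hv (h.cyl_top hv)

end Pool.Agent.MP_0c8446_ag

end
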