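import Pool.Agent.Mg.F0c8446.G5479bd
import Pool.Agent.Mg.F0c8446.G7f1034
import Pool.Agent.Mg.F0c8446.G734b7d
import Pool.Agent.Mg.F0c8446.G29d8bf
import Pool.Agent.Mg.F0c8446.G601e39

section

namespace Pool.Agent.MP_0c8446_ag

open MvPolynomial Set

universe u v w

variable {k : Type u} [Field k] [IsAlgClosed k] {K : Type v} [Field K] [CharZero K]
  (W : Weil.{u, v, w} k K) {Γ : Type u} [Group Γ]

/-- The quotient of the frames by `Γ` is an open subset of an affine space. -/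
structure FrD.Quot (D : FrD k Γ) {τ : Type} (t : τ → MvPolynomial D.σ k) (Dp : MvPolynomial τ k) :
    Prop where
  nv : ∀ (Ω : Type u) [Field Ω] [Algebra k Ω] [IsAlgClosed Ω] (h : D.σ → Ω), D.Fr h →
    aeval (evs h t) Dp ≠ 0
  fib : ∀ (Ω : Type u) [Field Ω] [Algebra k Ω] [IsAlgClosed Ω] (h h' : D.σ → Ω), D.Fr h →
    D.Fr h' → evs h t = evs h' t → ∃ γ, h' = evs h (D.act γ)
  surj : ∀ (Ω : Type u) [Field Ω] [Algebra k Ω] [IsAlgClosed Ω] (x : τ → Ω), aeval x Dp ≠ 0 →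
    ∃ h, D.Fr h ∧ evs h t = x
  val : ∀ (Ω Ω' : Type u) [Field Ω] [Algebra k Ω] [IsAlgClosed Ω] [Field Ω'] [Algebra k Ω']
    [IsAlgClosed Ω'] (Pl : Place k Ω Ω') (h : D.σ → Ω), D.Fr h → (∀ s, evs h t s ∈ Pl.O) →
    aeval (fun s => Pl.red (evs h t s)) Dp ≠ 0 → ∀ s, h s ∈ Pl.O

theorem Weil.good_quot {D : FrD k Γ} {τ : Type} [Finite τ] {t : τ → MvPolynomial D.σ k}
    {Dp : MvPolynomial τ k} (h : D.Quot t Dp) (e : FRel k D.σ) : W.Good D e (range X) := by
  intro L _ hV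
  obtain ⟨N, ⟨ε⟩⟩ := Finite.exists_equiv_fin τ
  have hr : ∀ s : Fin N, L.Reg (t (ε.symm s)) := fun s => by
    have := Level.Reg.subst (t := X) (fun s => hV _ ⟨s, rfl⟩) (t (ε.symm s))
    rwa [aeval_X_left_apply] at this
  choose d F G hF hG hd hFG using hr
  have key : ∀ {Ω : Type u} [Field Ω] [Algebra k Ω] {v : Vars L.S.P.n → Ω} {x : D.σ → Ω},
      D.Fr x → ParOn L.S.Jᶜ (evs x L.pt) v →
      (∀ s, aeval v (G s) ≠ 0) ∧ tv F G v = fun s => evs x t (ε.symm s) := by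
    intro Ω _ _ v x hx hp
    have h1 : ∀ s, aeval v (G s) ≠ 0 ∧ tv F G v s = evs x t (ε.symm s) := fun s => by
      obtain ⟨c, hc, h2⟩ := hp.exists_aeval (k := k) (d := d s) fun i hi => hd s i (not_not.1 hi)
      obtain ⟨h3, h4⟩ := hFG s Ω x hx
      refine ⟨by rw [h2 _ (hG s)]; exact mul_ne_zero hc h3, ?_⟩
      rw [tv, h2 _ (hG s), h2 _ (hF s), h4, mul_div_mul_left _ _ hc, mul_div_cancel_right₀ _ h3]
      rfl
    exact ⟨fun s => (h1 s).1, funext fun s => (h1 s).2⟩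
  have hD : ∀ {Ω : Type u} [Field Ω] [Algebra k Ω] (y : τ → Ω),
      aeval (fun s => y (ε.symm s)) (rename ε Dp) = aeval y Dp := by
    intro Ω _ _ y
    rw [aeval_rename]
    congr 2
    funext s
    simp
  refine W.dec_affine (d := d) (F := F) (G := G) (Dp := rename ε Dp)
    ⟨hF, hG, ?_, fun _ _ _ _ _ _ _ _ φ v hv => L.famR_map hv φ,
      fun _ _ _ _ _ _ _ _ v u hv hu hle => L.sp_pt hv hu hle, ?_, ?_, ?_, ?_⟩
  · rintro Ω _ _ _ v ⟨ho, x, hx, hp⟩
    refine ⟨ho, (key hx hp).1, ?_⟩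
    rw [(key hx hp).2, hD]
    exact h.nv Ω x hx
  · rintro Ω _ _ _ v ⟨-, x, hx, hp⟩
    have h1 : ∀ s, x s ∈ acl k (range (tv F G v)) := fun s => by
      refine mem_acl_of_place fun Pl hP => ?_
      have h2 : ∀ s, evs x t s ∈ Pl.O ∧ Pl.red (evs x t s) = evs x t s := fun s =>
        hP _ ⟨ε s, by rw [(key hx hp).2]; simp⟩
      refine h.val Ω Ω Pl x hx (fun s => (h2 s).1) ?_ s
      rw [funext fun s => (h2 s).2]
      exact h.nv Ω x hx
    rw [hp.rat_eq]
    rintro _ ⟨i, -, s, s', rfl⟩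
    exact div_mem_acl (aeval_mem_acl h1 _) (aeval_mem_acl h1 _)
  · rintro Ω _ _ _ v v' ⟨-, x, hx, hp⟩ ⟨-, x', hx', hp'⟩ e1 e2
    rw [(key hx hp).2, (key hx' hp').2] at e1
    obtain ⟨γ, rfl⟩ := h.fib Ω x x' hx hx' (funext fun s => by simpa using congrFun e1 (ε s))
    refine ⟨γ, fun i _ => ?_⟩
    by_cases hi : i ∈ L.S.J
    · obtain ⟨c, hc, h1⟩ := e2 i hi
      refine ⟨c, hc, fun s => ?_⟩
      rw [h1]
      simp [blin, L.S.triv i hi, Matrix.one_apply]
    · have h1 : ParOn {i} (blin (fun i => L.S.ρ i γ) (evs x L.pt))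
          (evs (evs x (D.act γ)) L.pt) := by
        rintro _ rfl
        exact ⟨1, one_ne_zero, fun s => by rw [one_mul]; exact L.equi _ hi γ Ω x hx s⟩
      have hs : ({i} : Set L.S.P.ι) ⊆ L.S.Jᶜ := singleton_subset_iff.2 hi
      exact (((hp.mono hs).blin _).symm.trans (h1.trans (hp'.mono hs))) i rfl
  · rintro Ω _ _ _ v y ⟨ho, -⟩ hy
    obtain ⟨x, hx, e1⟩ := h.surj Ω (fun s => y (ε s)) (by
      rw [← hD]
      simpa using hy)
    have hp : ParOn L.S.Jᶜ (evs x L.pt) (mix L.S.J v (evs x L.pt)) := fun i hi =>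
      ⟨1, one_ne_zero, fun s => by rw [one_mul]; exact if_neg hi⟩
    refine ⟨mix L.S.J v (evs x L.pt), ⟨L.prod Ω v x ho hx, x, hx, hp⟩, ?_, fun a ha => if_pos ha⟩
    rw [(key hx hp).2, e1]
    simp
  · rintro Ω Ω' _ _ _ _ _ _ Pl v ⟨ho, x, hx, hp⟩ h1 h2 c hc h3 h4
    rw [(key hx hp).2] at h1 h2
    rw [hD fun s => Pl.red (evs x t s)] at h2
    exact L.famR_red Pl (ho.par (parOn_sc _ hc v)) hx (hp.trans (parOn_sc _ hc v))
      (h.val Ω Ω' Pl x hx (fun s => by simpa using h1 (ε s)) h2) h3 h4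

end Pool.Agent.MP_0c8446_ag

end

section

namespace Pool.Agent.MP_0c8446_ag

open MvPolynomial Set Matrix

universe u v w

variable {k : Type u} [Field k] [IsAlgClosed k] {n r : ℕ}

open Classical in
/-- The product of the determinants of the generic matrices that vanish at the positions `Z`. -/
noncomputable def glDp (k : Type u) [Field k] (Z : Fin (r + 1) → Fin n → Fin n → Prop) :
    MvPolynomial {s : Fin (r + 1) × Fin n × Fin n // ¬ Z s.1 s.2.1 s.2.2} k :=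
  ∏ j, (Matrix.of fun a b => if h : Z j a b then 0 else X ⟨(j, a, b), h⟩).det

section

variable {Ω : Type u} [Field Ω] [Algebra k Ω] {uni : Bool} {q : ℕ}
  {Z : Fin (r + 1) → Fin n → Fin n → Prop} {h : GS r n → Ω}

open Classical in
/-- The matrices with given entries outside `Z`. -/
noncomputable def GFin_dd (x : {s : Fin (r + 1) × Fin n × Fin n // ¬ Z s.1 s.2.1 s.2.2} → Ω)
    (j : Fin (r + 1)) : Matrix (Fin n) (Fin n) Ω :=
  Matrix.of fun a b => if h : Z j a b then 0 else x ⟨(j, a, b), h⟩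

omit [IsAlgClosed k] in
theorem GFin_unit {x : {s : Fin (r + 1) × Fin n × Fin n // ¬ Z s.1 s.2.1 s.2.2} → Ω} :
    aeval x (glDp k Z) ≠ 0 ↔ ∀ j, IsUnit (GFin_dd x j) := by
  have e : aeval x (glDp k Z) = ∏ j, (GFin_dd x j).det := by
    rw [glDp, map_prod]
    refine Finset.prod_congr rfl fun j _ => ?_
    rw [AlgHom.map_det]
    congr 1
    ext a b
    by_cases hz : Z j a b <;> simp [GFin_dd, hz]
  simp [e, Finset.prod_ne_zero_iff, Matrix.isUnit_iff_isUnit_det]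

omit [IsAlgClosed k] in
theorem GFin_evs (h : GS r n → Ω) (s : {s : Fin (r + 1) × Fin n × Fin n // ¬ Z s.1 s.2.1 s.2.2}) :
    evs h (fun s : {s : Fin (r + 1) × Fin n × Fin n // ¬ Z s.1 s.2.1 s.2.2} =>
      ddM uni q (X : GS r n → MvPolynomial (GS r n) k) s.1.1 s.1.2.1 s.1.2.2) s =
      ddM uni q h s.1.1 s.1.2.1 s.1.2.2 := by
  have := congrFun (congrFun (ddM_map (aeval (R := k) h) uni q X s.1.1) s.1.2.1) s.1.2.2
  simpa [evs] using this

omit [IsAlgClosed k] in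
theorem GFin_fr [PQ k q] (hh : (glFr k uni q Z).Fr h) :
    GFin_dd (evs h fun s : {s : Fin (r + 1) × Fin n × Fin n // ¬ Z s.1 s.2.1 s.2.2} =>
      ddM uni q (X : GS r n → MvPolynomial (GS r n) k) s.1.1 s.1.2.1 s.1.2.2) = ddM uni q h := by
  ext j a b
  by_cases hz : Z j a b
  · simp [GFin_dd, hz, (glFr_iff.1 hh).2 j a b hz]
  · simp only [GFin_dd, of_apply, dif_neg hz, GFin_evs]

theorem GFin_nx (h1 : ∀ j, mM h j * mI h j = 1) (j : Fin (r + 1)) :
    nxM uni q h j = mM h j * ddM uni q h j := by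
  rw [ddM, ← mul_assoc, h1, one_mul]

theorem GFin_ch (h1 : ∀ j, mM h j * mI h j = 1) (j : Fin (r + 1)) :
    mM h j = mM h 0 * Fin.partialProd (ddM uni q h) j.castSucc := by
  induction j using Fin.induction with
  | zero => simp
  | succ j ih =>
    rw [← Fin.succ_castSucc, Fin.partialProd_succ, ← mul_assoc, ← ih, ← GFin_nx h1, nxM_castSucc]

theorem GFin_flag [PQ Ω q] (g : Matrix (Fin n) (Fin n) Ω) :
    frH Ω n uni q g = frobFlag uni q g * (frobFlag uni q 1)⁻¹ := by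
  have := frobFlag_mul (uni := uni) (q := q) g 1
  rw [mul_one] at this
  rw [this, mul_nonsing_inv_cancel_right _ _
    ((Matrix.isUnit_iff_isUnit_det _).1 (isUnit_frobFlag isUnit_one))]

theorem GFin_lang [PQ Ω q] (h1 : ∀ j, mM h j * mI h j = 1) : frH Ω n uni q (mM h 0) =
    mM h 0 * (Fin.partialProd (ddM uni q h) (Fin.last _) * (frobFlag uni q 1)⁻¹) := by
  rw [GFin_flag, ← nxM_last h1, GFin_nx h1, GFin_ch (uni := uni) (q := q) h1 (Fin.last r),
    ← Fin.succ_last, Fin.partialProd_succ]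
  simp only [mul_assoc]

theorem GFin_prod {M : Type*} [Monoid M] {P : M → Prop} (h1 : P 1)
    (hm : ∀ a b, P a → P b → P (a * b)) {m : ℕ} {d : Fin m → M} (hd : ∀ j, P (d j))
    (j : Fin (m + 1)) : P (Fin.partialProd d j) := by
  induction j using Fin.induction with
  | zero => simpa
  | succ j ih => exact Fin.partialProd_succ d j ▸ hm _ _ ih (hd j)

omit [IsAlgClosed k] in
theorem GFin_one {Ω' : Type u} [Field Ω'] [Algebra k Ω'] (Pl : Place k Ω Ω')
    (y : Equiv.Perm (Fin n)) : Pl.IG ((1 : Matrix (Fin n) (Fin n) Ω).submatrix id y) := by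
  refine ⟨fun a b => ?_, ?_⟩
  · simp only [submatrix_apply, Matrix.one_apply]
    split_ifs
    exacts [one_mem _, zero_mem _]
  · rw [← submatrix_map, Matrix.map_one _ Pl.red_zero Pl.red_one]
    exact isUnit_submatrix isUnit_one y

end

theorem glFr_quot (uni : Bool) (q : ℕ) [PQ k q] (Z : Fin (r + 1) → Fin n → Fin n → Prop) :
    (glFr k uni q Z).Quot (fun s : {s : Fin (r + 1) × Fin n × Fin n // ¬ Z s.1 s.2.1 s.2.2} =>
      ddM uni q (X : GS r n → MvPolynomial (GS r n) k) s.1.1 s.1.2.1 s.1.2.2) (glDp k Z) := by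
  refine ⟨fun Ω _ _ _ h hh => ?_, fun Ω _ _ _ h h' hh hh' e => ?_, fun Ω _ _ _ x hx => ?_,
    fun Ω Ω' _ _ _ _ _ _ Pl h hh hO hD => ?_⟩ <;> have := PQ.ext k q Ω
  · have h1 := (glFr_iff.1 hh).1
    refine GFin_unit.2 fun j => ?_
    refine (congrFun (GFin_fr hh) j).symm ▸ (IsUnit.of_mul_eq_one_right _ (h1 j)).mul ?_
    refine Fin.lastCases ?_ (fun j => ?_) j
    · exact nxM_last (uni := uni) (q := q) h1 ▸ isUnit_frobFlag (mI_eq h1 0).1
    · exact nxM_castSucc (uni := uni) (q := q) h j ▸ (mI_eq h1 _).1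
  · have h1 := (glFr_iff.1 hh).1
    have h2 := (glFr_iff.1 hh').1
    have ed : ddM uni q h' = ddM uni q h := by rw [← GFin_fr hh, ← GFin_fr hh']; exact congrArg _ e.symm
    have e0 : mM h' 0 * mI h 0 * mM h 0 = mM h' 0 := by
      rw [mul_assoc, mul_eq_one_comm.1 (h1 0), mul_one]
    obtain ⟨γ, hγ⟩ := exists_fixG (k := k) (uni := uni) (q := q)
      ((mI_eq h2 0).1.mul (IsUnit.of_mul_eq_one_right _ (h1 0))) (by
        refine (isUnit_frH (uni := uni) (q := q) (mI_eq h1 0).1).mul_right_cancel ?_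
        rw [← map_mul, e0, GFin_lang h1, GFin_lang h2, ed, ← mul_assoc _ (mM h 0), e0])
    have e1 : ∀ j, mM h' j = γ.1.1.map (algebraMap k Ω) * mM h j := fun j => by
      rw [hγ, GFin_ch (uni := uni) (q := q) h1 j, GFin_ch (uni := uni) (q := q) h2 j, ed,
        ← mul_assoc, e0]
    refine ⟨γ, ((evs_glAct γ.1 h).trans ?_).symm⟩
    refine (congrArg₂ mkF (funext fun j => (e1 j).symm) (funext fun j => ?_)).trans (mkF_eta h')
    rw [(mI_eq h2 j).2, e1, Matrix.mul_inv_rev, (mI_eq h1 j).2,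
      map_inv_of_isUnit _ γ.1.isUnit, coe_units_inv]
  · have hp := GFin_prod isUnit_one (fun _ _ => IsUnit.mul) (GFin_unit.1 hx)
    have hP := (Matrix.isUnit_iff_isUnit_det _).1
      (isUnit_frobFlag (k := Ω) (n := n) (uni := uni) (q := q) isUnit_one)
    obtain ⟨a, ha, -, e⟩ := exists_lang (uni := uni) (q := q) isUnit_one (map_one _)
      ((hp (Fin.last _)).mul (isUnit_nonsing_inv_iff.2 (isUnit_frobFlag (uni := uni) (q := q)
        isUnit_one))) (by simp)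
    set g := fun j : Fin (r + 1) => a * Fin.partialProd (GFin_dd x) j.castSucc with hg
    have hu : ∀ j, IsUnit (g j).det := fun j => (Matrix.isUnit_iff_isUnit_det _).1 (ha.mul (hp _))
    have h1 : ∀ j, mM (mkF g fun j => (g j)⁻¹) j * mI (mkF g fun j => (g j)⁻¹) j = 1 := fun j =>
      mul_nonsing_inv _ (hu j)
    have ed : ddM uni q (mkF g fun j => (g j)⁻¹) = GFin_dd x := by
      funext j
      have : nxM uni q (mkF g fun j => (g j)⁻¹) j = g j * GFin_dd x j := by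
        rw [hg, mul_assoc, ← Fin.partialProd_succ, ← hg]
        refine Fin.lastCases ?_ (fun j => ?_) j
        · rw [nxM_last h1, mM_mkF, hg]
          simp only [Fin.castSucc_zero, Fin.partialProd_zero]
          rw [frobFlag_mul, e, mul_assoc, nonsing_inv_mul_cancel_right _ _ hP, Fin.succ_last]
        · rw [nxM_castSucc, mM_mkF, hg, Fin.succ_castSucc]
      rw [ddM, this, mI_mkF, nonsing_inv_mul_cancel_left _ _ (hu j)]
    refine ⟨mkF g fun j => (g j)⁻¹, glFr_iff.2 ⟨h1, fun j a b hz => ?_⟩, funext fun s => ?_⟩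
    · simp [ed, GFin_dd, hz]
    · exact (GFin_evs _ s).trans (by simp [ed, GFin_dd, s.2])
  · have := PQ.ext k q Ω'
    have h1 := (glFr_iff.1 hh).1
    have o : Pl.IG (1 : Matrix (Fin n) (Fin n) Ω) := GFin_one Pl 1
    have hd : ∀ j, Pl.IG (ddM uni q h j) := fun j => by
      rw [← GFin_fr hh]
      refine ⟨fun a b => ?_, ?_⟩
      · by_cases hz : Z j a b
        · simp [GFin_dd, hz]
        · simp only [GFin_dd, of_apply, dif_neg hz]
          exact hO _
      · convert GFin_unit.1 hD j using 1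
        ext a b
        by_cases hz : Z j a b <;> simp [GFin_dd, hz, Pl.red_zero]
        rfl
    have hp := GFin_prod o (fun _ _ a b => (a.mul b).1) hd
    have hP : Pl.IG (frobFlag uni q (1 : Matrix (Fin n) (Fin n) Ω)) := by
      rw [frobFlag_eq, map_one]
      exact GFin_one Pl _
    have h0 := Place.IG.of_lang (mI_eq h1 0).1 (GFin_lang h1) ((hp _).mul hP.inv.1).1
    have hj : ∀ j, Pl.IG (mM h j) := fun j =>
      GFin_ch (uni := uni) (q := q) h1 j ▸ (h0.mul (hp _)).1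
    rintro ⟨j, b, a, c⟩
    cases b
    · exact (hj j).1 a c
    · exact ((mI_eq h1 j).2 ▸ (hj j).inv.1 : Pl.IG (mI h j)).1 a c

end Pool.Agent.MP_0c8446_ag

end

section

namespace Pool.Agent.MP_0c8446_ag

open MvPolynomial Set

universe u v w

variable {k : Type u} [Field k] [IsAlgClosed k] {K : Type v} [Field K] [CharZero K]
  (W : Weil.{u, v, w} k K) {Γ : Type u} [Group Γ]

omit [IsAlgClosed k] in
/-- Regular functions are constant on the fibres. -/
theorem Level.Reg.eq_of_eqv {D : FrD k Γ} {L : Level D} {f : MvPolynomial D.σ k} (hf : L.Reg f)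
    {Ω : Type u} [Field Ω] [Algebra k Ω] {h h' : D.σ → Ω} (hh : D.Fr h) (hh' : D.Fr h')
    (e : L.Eqv h h') : aeval h f = aeval h' f := by
  obtain ⟨d, F, G, hF, hG, hd, H⟩ := hf
  obtain ⟨c, -, h1⟩ := ParOn.exists_aeval (k := k) (d := d) e fun i hi => hd i (not_not.1 hi)
  obtain ⟨h2, h3⟩ := H Ω h' hh'
  refine (mul_right_cancel₀ h2 ?_).symm
  rw [← h3, h1 F hF, h1 G hG, (H Ω h hh).2, mul_left_comm]

section aux

variable {D : FrD k Γ} (L : Level D) {I : Type} (f : I → MvPolynomial D.σ k)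
  {Ω Ω' : Type u} [Field Ω] [Algebra k Ω] [Field Ω'] [Algebra k Ω']

/-- The points that come from frames at which exactly the functions indexed by `A` are nonzero. -/
def SplitA_R (A : Set I) : Fam k (Vars L.S.P.n) := fun _ _ _ _ v =>
  L.S.P.On v ∧ ∃ h, D.Fr h ∧ ParOn L.S.Jᶜ (evs h L.pt) v ∧ {i | aeval h (f i) ≠ 0} = A

/-- The boundary together with the small strata. -/
def SplitA_B (m : ℕ) : Set (Set L.S.P.pts) :=
  L.bd ∪ {C | ∃ A : Set I, A.ncard < m ∧ C ∈ L.S.P.fam (SplitA_R L f A)}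

variable {L f}

omit [IsAlgClosed k] in
theorem SplitA_ren (x : D.σ ⊕ I → Ω) (P : MvPolynomial D.σ k) :
    aeval x (rename Sum.inl P) = aeval (fun s => x (Sum.inl s)) P := aeval_rename _ _ _

omit [IsAlgClosed k] in
theorem SplitA_evs (x : D.σ ⊕ I → Ω) {α : Type} (F : α → MvPolynomial D.σ k) :
    evs x (fun a => rename Sum.inl (F a)) = evs (fun s => x (Sum.inl s)) F :=
  funext fun a => SplitA_ren x (F a)

omit [IsAlgClosed k] in
theorem SplitA_par {x : D.σ ⊕ I → Ω} {v : Vars L.S.P.n → Ω} :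
    ParOn L.S.Jᶜ (evs x fun a => rename Sum.inl (L.pt a)) v ↔
      ParOn L.S.Jᶜ (evs (fun s => x (Sum.inl s)) L.pt) v := by
  rw [SplitA_evs]

omit [IsAlgClosed k] in
theorem SplitA_il [IsAlgClosed Ω] [IsAlgClosed Ω'] (hr : ∀ i, L.Reg (f i)) (Pl : Place k Ω Ω')
    {v : Vars L.S.P.n → Ω} {h : D.σ → Ω} (ho : L.S.P.On v) (hh : D.Fr h)
    (hp : ParOn L.S.Jᶜ (evs h L.pt) v) (hO : ∀ a, v a ∈ Pl.O) (hn : NZb fun a => Pl.red (v a)) :
    L.S.P.loc (fun a => Pl.red (v a)) ∈ L.bd ∨ ∃ h', D.Fr h' ∧ ParOn L.S.Jᶜ (evs h' L.pt) v ∧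
      (∀ s, h' s ∈ Pl.O) ∧ (∀ i, aeval h' (f i) = aeval h (f i)) ∧
      SplitA_R L f {i | Pl.red (aeval h (f i)) ≠ 0} Ω' fun a => Pl.red (v a) := by
  refine (L.il Ω Ω' Pl v h ho hh hp hO hn).imp_right fun ⟨h', h1, h2, h3⟩ => ?_
  have h4 := fun i => (hr i).eq_of_eqv h1 hh (h2.trans hp.symm)
  exact ⟨h', h1, h2, h3, h4, ho.of_le hn (Pl.pI_le hO), _, h1.red Pl h3,
    L.par_red Pl h1 h2 h3 hO hn, by simp only [← Pl.red_aeval h3, h4]⟩

omit [IsAlgClosed k] in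
theorem SplitA_sub (Pl : Place k Ω Ω') (a : I → Ω) : {i | Pl.red (a i) ≠ 0} ⊆ {i | a i ≠ 0} :=
  fun _ hi e => hi (e ▸ Pl.red_zero)

variable [Finite I]

theorem SplitA_closed (hr : ∀ i, L.Reg (f i)) (m : ℕ) : SubCl (SplitA_B L f m) := by
  rintro C (hC | ⟨A, hA, Ω, _, _, _, v, ⟨ho, h, hh, hp, rfl⟩, rfl⟩)
  · exact ⟨(L.closed C hC).1, fun C' h1 h2 => Or.inl ((L.closed C hC).2 C' h1 h2)⟩
  refine ⟨ho.isSub, fun C' hC' hs => ?_⟩
  obtain ⟨Ω', _, _, _, u, hu, rfl⟩ := Var.exists_generic _ hC'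
  obtain ⟨Pl, v', h1, h2, h3⟩ := exists_place_pI hu.1 (hu.pI_le hs)
  rw [← Var.loc_par h3]
  exact (SplitA_il hr Pl (ho.par h1) hh (hp.trans (h1.mono (subset_univ _))) h2
    (h3.nzb hu.1)).imp_right fun ⟨_, _, _, _, _, h4⟩ =>
      ⟨_, (ncard_le_ncard (SplitA_sub Pl _)).trans_lt hA, Ω', _, _, inferInstance, _, h4, rfl⟩

variable (hf : ∀ γ (Ω : Type u) [Field Ω] [Algebra k Ω] (h : D.σ → Ω), D.Fr h →
  evs (evs h (D.act γ)) f = evs h f) (hr : ∀ i, L.Reg (f i)) (T : I → Bool)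

/-- A stratum as a level. -/
noncomputable def SplitA_lev : Level (D.cut f hf T) where
  S := L.S
  pt a := rename Sum.inl (L.pt a)
  bd := SplitA_B L f {i | T i = true}.ncard
  nz i hi Ω _ _ x hx := (L.nz i hi Ω _ (FrD.cut_iff.1 hx).1).imp fun _ hs e =>
    hs ((SplitA_ren x _).symm.trans e)
  equi i hi γ Ω _ _ x hx s := by
    have h1 := L.equi i hi γ Ω _ (FrD.cut_iff.1 hx).1 s
    rw [← evs_cutA_inl] at h1
    exact (SplitA_ren _ _).trans (h1.trans (Finset.sum_congr rfl fun _ _ =>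
      congrArg _ (SplitA_ren x _).symm))
  prod Ω _ _ v x hv hx := (SplitA_evs x L.pt).symm ▸ L.prod Ω v _ hv (FrD.cut_iff.1 hx).1
  closed := SplitA_closed hr _
  il Ω Ω' _ _ _ _ _ _ Pl v x ho hx hp hO hn := by
    obtain ⟨h1, h2⟩ := FrD.cut_iff.1 hx
    rcases SplitA_il hr Pl ho h1 (SplitA_par.1 hp) hO hn with h3 | ⟨h', h3, h4, h5, h6, h7⟩
    · exact Or.inl (Or.inl h3)
    have h8 : {i | aeval (fun s => x (Sum.inl s)) (f i) ≠ 0} ⊆ {i | T i = true} := fun i hi => by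
      by_contra h9
      exact hi ((if_neg h9).mp (h2 i)).1
    rcases ((SplitA_sub Pl _).trans h8).eq_or_ssubset with e | e
    · refine Or.inr ⟨Sum.elim h' fun i => x (Sum.inr i),
        FrD.cut_iff.2 ⟨h3, fun i => (h6 i).symm ▸ h2 i⟩, (SplitA_par (x := Sum.elim h' fun i => x (Sum.inr i))).2 h4, ?_⟩
      rintro (s | i)
      · exact h5 s
      · change x (Sum.inr i) ∈ _
        by_cases h9 : T i = true
        · rw [eq_inv_of_mul_eq_one_left ((if_pos h9).mp (h2 i))]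
          exact Pl.inv_mem (h6 i ▸ Pl.aeval_mem h5 _) (e.ge h9)
        · rw [((if_neg h9).mp (h2 i)).2]
          exact zero_mem _
    · exact Or.inl (Or.inr ⟨_, ncard_lt_ncard e, Ω', _, _, inferInstance, _, h7, rfl⟩)

theorem SplitA_reg {g : MvPolynomial D.σ k} (hg : L.Reg g) :
    (SplitA_lev hf hr T).Reg (rename Sum.inl g) := by
  obtain ⟨d, F, G, hF, hG, hd, H⟩ := hg
  refine ⟨d, F, G, hF, hG, hd, fun Ω _ _ x hx => ?_⟩
  have h1 := H Ω _ (FrD.cut_iff.1 hx).1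
  rw [← SplitA_evs x L.pt] at h1
  exact ⟨h1.1, h1.2.trans (congrArg (· * _) (SplitA_ren x g).symm)⟩

theorem SplitA_regX (hV : ∀ s, L.Reg (X s)) : ∀ s, (SplitA_lev hf hr T).Reg (X s) := by
  rintro (s | i)
  · exact rename_X (R := k) (Sum.inl : _ → D.σ ⊕ I) s ▸ SplitA_reg hf hr T (hV s)
  by_cases h : T i = true
  · refine (SplitA_reg hf hr T (hr i)).of_inv fun Ω _ _ x hx => ?_
    rw [aeval_X, mul_comm]
    exact (congrArg _ (SplitA_ren x _)).trans ((if_pos h).mp ((FrD.cut_iff.1 hx).2 i))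
  · refine (Level.reg_C _ 0).congr fun Ω _ _ x hx => ?_
    rw [aeval_X, map_zero, map_zero]
    exact ((if_neg h).mp ((FrD.cut_iff.1 hx).2 i)).2

theorem SplitA_mem [IsAlgClosed Ω] {v : Vars L.S.P.n → Ω}
    (hv : SplitA_R L f {i | T i = true} Ω v) : L.S.P.loc v ∈ (SplitA_lev hf hr T).R := by
  obtain ⟨ho, h, hh, hp, e⟩ := hv
  have h1 : (D.cut f hf T).Fr (Sum.elim h fun i => (aeval h (f i))⁻¹) := by
    refine FrD.cut_iff.2 ⟨hh, fun i => ?_⟩
    have h2 : aeval h (f i) ≠ 0 ↔ T i = true := Set.ext_iff.1 e i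
    change CutC _ (aeval h (f i)) (aeval h (f i))⁻¹
    unfold CutC
    split_ifs with h3
    · exact inv_mul_cancel₀ (h2.2 h3)
    · rw [not_not.1 (mt h2.1 h3), inv_zero]
      exact ⟨rfl, rfl⟩
  have h2 := (SplitA_par (L := L) (x := Sum.elim h fun i => (aeval h (f i))⁻¹)).2 hp
  exact ⟨Ω, _, _, inferInstance, v, ⟨ho, _, h1, h2⟩, rfl⟩

end aux

/-- Cutting the frames by the vanishing of invariant functions. -/
theorem Weil.good_split {D : FrD k Γ} {I : Type} [Finite I] {f : I → MvPolynomial D.σ k}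
    (hf : ∀ γ (Ω : Type u) [Field Ω] [Algebra k Ω] (h : D.σ → Ω), D.Fr h →
      evs (evs h (D.act γ)) f = evs h f)
    (H : ∀ T e', W.Good (D.cut f hf T) e' (range X)) (e : FRel k D.σ) :
    W.Good D e (range X) := by
  classical
  intro L _ hV m β hβ hI hK hb C hC
  have hX : ∀ s, L.Reg (X s) := fun s => hV _ ⟨s, rfl⟩
  have hr : ∀ i, L.Reg (f i) := fun i => by
    have := Level.Reg.subst hX (f i)
    rwa [aeval_X_left_apply] at this
  have key (j : ℕ) : ∀ C ∈ SplitA_B L f j, W.ph β C = 0 := by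
    induction j using Nat.strong_induction_on with
    | _ j ih =>
      rintro C (hC | ⟨A, hA, Ω, _, _, _, v, hv, rfl⟩)
      · exact hb C hC
      obtain ⟨T, rfl⟩ : ∃ T : I → Bool, {i | T i = true} = A :=
        ⟨fun i => decide (i ∈ A), by simp⟩
      exact H T (fun _ _ _ _ => (SplitA_lev hf hr T).Eqv) (SplitA_lev hf hr T)
        (fun _ _ _ _ _ _ _ _ => Iff.rfl) (forall_mem_range.2 (SplitA_regX hf hr T hX)) m β hβ hI hK
        (ih _ hA) _ (SplitA_mem hf hr T hv)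
  obtain ⟨Ω, _, _, _, v, ⟨ho, h, hh, hp⟩, rfl⟩ := hC
  exact key _ _ (Or.inr ⟨_, Nat.lt_succ_self _, Ω, _, _, inferInstance, v,
    ⟨ho, h, hh, hp, rfl⟩, rfl⟩)

end Pool.Agent.MP_0c8446_ag

end
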