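import Pool.Agent.Mg.F0c8446.Gbafa94
import Pool.Agent.Mg.F0c8446.Gab55ec
import Mathlib
import Pool.Agent.Mg.F0c8446.G3fba77
import Pool.Agent.MP_0c8446_ag.LinAlg2

section

namespace Pool.Agent.MP_0c8446_ag

open Finset

universe u v w

variable {k : Type u} [Field k] {q : ℕ} [IsQ k q] {K : Type v} [Field K]

/-- The characters `ω ^ a` for `a` modulo the order of `ω`. -/
lemma mainA_add {m : ℕ} [NeZero m] {ω : MulChar (Fq k q) K} (hω : orderOf ω = m) (a b : ZMod m) :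
    ω ^ (a + b).val = ω ^ a.val * ω ^ b.val := by
  have := pow_mod_orderOf ω (a.val + b.val)
  rwa [hω, ← ZMod.val_add, pow_add] at this

lemma mainA_mul {m : ℕ} [NeZero m] {ω : MulChar (Fq k q) K} (hω : orderOf ω = m) (n : ℕ)
    (a : ZMod m) : ω ^ ((n : ZMod m) * a).val = (ω ^ a.val) ^ n := by
  induction n with
  | zero => simp
  | succ n ih => rw [Nat.cast_succ, add_mul, one_mul, mainA_add hω, ih, pow_succ]

lemma mainA_eq_one {m : ℕ} [NeZero m] {ω : MulChar (Fq k q) K} (hω : orderOf ω = m) {a : ZMod m} :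
    ω ^ a.val = 1 ↔ a = 0 := by
  rw [← orderOf_dvd_iff_pow_eq_one, hω, ← ZMod.natCast_eq_zero_iff, ZMod.natCast_zmod_val]

lemma mainA_neg {m : ℕ} [NeZero m] {ω : MulChar (Fq k q) K} (hω : orderOf ω = m) (a : ZMod m) :
    ω ^ (-a).val = (ω ^ a.val)⁻¹ :=
  eq_inv_of_mul_eq_one_left (by rw [← mainA_add hω, neg_add_cancel, mainA_eq_one hω])

lemma mainA_surj [IsAlgClosed k] [IsAlgClosed K] [CharZero K] {m : ℕ} [NeZero m] (hm : m = q - 1)
    {ω : MulChar (Fq k q) K} (hω : orderOf ω = m) (χ : MulChar (Fq k q) K) :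
    ∃ a : ZMod m, ω ^ a.val = χ := by
  classical
  have : Finite (MulChar (Fq k q) K) := inferInstance
  have h1 : Nat.card (MulChar (Fq k q) K) = m := by
    rw [MulChar.card_eq_card_units_of_hasEnoughRootsOfUnity, Nat.card_eq_fintype_card,
      Fintype.card_units, card_Fq, hm]
  have h2 : Subgroup.zpowers ω = ⊤ := by
    rw [← Subgroup.card_eq_iff_eq_top, Nat.card_zpowers, hω, h1]
  obtain ⟨n, rfl⟩ := (mem_powers_iff_mem_zpowers.2 (h2 ▸ Subgroup.mem_top χ) : χ ∈ Submonoid.powers ω)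
  refine ⟨n, ?_⟩
  rw [ZMod.val_natCast]
  conv_lhs => rw [← hω]
  exact pow_mod_orderOf ω _

lemma mainA_root [IsAlgClosed k] (χ : MulChar (Fq k q) K) (c : (Fq k q)ˣ) :
    χ c ^ (2 * (q - 1)) = 1 := by
  classical
  rw [mul_comm, pow_mul, ← MulChar.pow_apply_coe]
  have := χ.pow_card_eq_one
  rw [Fintype.card_units, card_Fq] at this
  simp [this]

theorem mainA [IsAlgClosed k] [IsAlgClosed K] [CharZero K] {p f : ℕ} [Fact p.Prime] (hf : 0 < f)
    (hq : q = p ^ f) {Q : Type*} [AddCommGroup Q] (c : Bool × Lb k q K → Q)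
    (hone : ∀ b, c (b, .one) = 0) (hpt : ∀ b, c (b, .pt) = 0)
    (hshift : ∀ ω ψ ψ', ω ≠ 1 → ψ ≠ 1 → ψ' ≠ 1 → c (Dl ω ψ') + c (Dl ω⁻¹ ψ) = 0)
    (hfrob : ∀ ω ψ, ω ≠ 1 → ψ ≠ 1 → ω ^ p ≠ 1 ∧ c (Dl (ω ^ p) ψ) + c (Dl ω⁻¹ ψ) = 0)
    (hjac : ∀ ω₁ ω₂ ψ, ω₁ ≠ 1 → ω₂ ≠ 1 → ω₁ * ω₂ ≠ 1 → ψ ≠ 1 →
      c (Fl ω₁⁻¹ ω₂⁻¹) + c (Dl (ω₁ * ω₂)⁻¹ ψ⁻¹) + c (Dl ω₁ ψ) + c (Dl ω₂ ψ) = 0)
    (hhd : ∀ (d e : ℕ) ρ ω ψ, d.Prime → d * e = q - 1 → orderOf ρ = d → ω ^ d ≠ 1 → ψ ≠ 1 →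
      ∑ i ∈ range d, c (Dl (ω * ρ ^ i)⁻¹ ψ⁻¹) + c (Dl (ω ^ d) ψ) +
        ∑ j ∈ (range d).erase 0, c (Dl (ρ ^ j) ψ) = 0)
    {ι : Type} [Fintype ι] (τ : ι → Bool) (β : ι → Lb k q K) (hβ : ∀ i, (β i).Ok (τ i))
    {R n : ℕ} (hR : 0 < R) (h : (∏ i, (β i).lam (τ i)) ^ R = n) :
    ∃ N : ℕ, 0 < N ∧ N • ∑ i, c (τ i, β i) = 0 := by
  classical
  obtain ⟨m, hm⟩ : ∃ m, m = q - 1 := ⟨_, rfl⟩
  have hm0 : 0 < m := hm ▸ IsQ.pos k q
  have : NeZero m := ⟨hm0.ne'⟩
  have hm1 : m + 1 = p ^ f := by have := IsQ.one_lt (k := k) (q := q); omega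
  obtain ⟨ζ, hζ⟩ := HasEnoughRootsOfUnity.exists_primitiveRoot K m
  obtain ⟨ω, hω⟩ := MulChar.exists_mulChar_orderOf (Fq k q) (by rw [card_Fq, hm]) hζ
  obtain ⟨ψ, hψ⟩ : ∃ ψ : AddChar (Fq k q) K, ψ ≠ 1 := by
    obtain ⟨φ, hφ⟩ := CommGroup.exists_apply_ne_one_of_hasEnoughRootsOfUnity
      (Multiplicative (Fq k q)) K (a := Multiplicative.ofAdd 1) (by simp)
    refine ⟨AddChar.toMonoidHomEquiv.symm ((Units.coeHom K).comp φ), fun e => hφ (Units.ext ?_)⟩
    simpa using DFunLike.congr_fun e 1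
  have hψi : ψ⁻¹ ≠ 1 := inv_ne_one.2 hψ
  let gl : MulChar (Fq k q) K → Q := fun χ => if χ = 1 then 0 else c (Dl χ ψ)
  have gl1 : gl 1 = 0 := if_pos rfl
  have glD : ∀ χ ψ', χ ≠ 1 → ψ' ≠ 1 → c (Dl χ ψ') = gl χ := fun χ ψ' h1 h2 => by
    simp only [gl, if_neg h1]
    exact add_right_cancel ((hshift χ ψ ψ' h1 hψ h2).trans (hshift χ ψ ψ h1 hψ hψ).symm)
  have gli : ∀ χ, gl χ⁻¹ = -gl χ := fun χ => by
    by_cases h1 : χ = 1
    · simp [h1, gl1]
    · rw [← glD χ ψ h1 hψ, ← glD χ⁻¹ ψ (inv_ne_one.2 h1) hψ]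
      exact eq_neg_of_add_eq_zero_right (hshift χ ψ ψ h1 hψ hψ)
  let E : (ZMod m → ℤ) →+ Q :=
    { toFun s := ∑ a, s a • gl (ω ^ a.val)
      map_zero' := by simp
      map_add' s t := by simp [add_smul, sum_add_distrib] }
  have hE : ∀ a, E (Pi.single a 1) = gl (ω ^ a.val) := fun a => by
    simp only [E, AddMonoidHom.coe_mk, ZeroHom.coe_mk]
    rw [sum_eq_single a] <;> simp +contextual
  have hcard : (Fintype.card (Fq k q) : K) = q := by rw [card_Fq]
  have hq0 : (q : K) ≠ 0 := by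
    have := IsQ.one_lt (k := k) (q := q)
    exact Nat.cast_ne_zero.2 (by omega)
  have hprim := AddChar.IsPrimitive.of_ne_one hψ
  let G : (ZMod m → ℕ) → K := fun s => ∏ a, gaussSum (ω ^ a.val) ψ ^ s a
  have G0 : G 0 = 1 := by simp [G]
  have Gadd : ∀ s t, G (s + t) = G s * G t := fun s t => by
    simp only [G, Pi.add_apply, pow_add, prod_mul_distrib]
  have Gs : ∀ a, G (Pi.single a 1) = gaussSum (ω ^ a.val) ψ := fun a => by
    simp only [G]
    rw [prod_eq_single a] <;> simp +contextual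
  have cs : ∀ a : ZMod m, (fun x => ((Pi.single a 1 : ZMod m → ℕ) x : ℤ)) = Pi.single a 1 :=
    fun a => by funext x; simp [Pi.single_apply]
  have key : ∀ b (t : Lb k q K), t.Ok b → ∃ s : ZMod m → ℕ, c (b, t) = E (fun a => s a) ∧
      ∃ r : ℚ, G s ^ (2 * (q - 1)) = r * t.lam b ^ (2 * (q - 1)) := by
    intro b t ht
    rcases t with _ | _ | ⟨ω₁, ω₂, ψ'⟩
    · exact ⟨0, (hone b).trans (map_zero E).symm, 1, by cases b <;> simp [G0, Lb.lam]⟩
    · refine ⟨0, (hpt b).trans (map_zero E).symm, ((q : ℚ) ^ (2 * (q - 1)))⁻¹, ?_⟩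
      cases b <;> simp [G0, Lb.lam, hq0]
    cases b
    · obtain ⟨h1, rfl, h2⟩ := ht
      obtain ⟨a, rfl⟩ := mainA_surj hm hω ω₁
      refine ⟨Pi.single a 1, by rw [cs, hE]; exact glD _ _ h1 h2, 1, ?_⟩
      obtain ⟨x, rfl⟩ := stick_shift hψ ψ'
      have hx : x ≠ 0 := by rintro rfl; simp at h2
      have := gaussSum_mulShift (ω ^ a.val) ψ (Units.mk0 x hx)
      rw [Gs, ← this, mul_pow, mainA_root, Lb.lam, Even.neg_pow (by simp)]
      simp
    · obtain ⟨h1, h2, h3, rfl⟩ := ht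
      obtain ⟨a₁, rfl⟩ := mainA_surj hm hω ω₁
      obtain ⟨a₂, rfl⟩ := mainA_surj hm hω ω₂
      refine ⟨Pi.single a₁ 1 + Pi.single a₂ 1 + Pi.single (-(a₁ + a₂)) 1, ?_,
        (q : ℚ) ^ (2 * (q - 1)), ?_⟩
      · have e : (fun x => ((Pi.single a₁ 1 + Pi.single a₂ 1 + Pi.single (-(a₁ + a₂)) 1 :
            ZMod m → ℕ) x : ℤ)) = Pi.single a₁ 1 + Pi.single a₂ 1 + Pi.single (-(a₁ + a₂)) 1 := by
          rw [← cs, ← cs, ← cs]
          funext x
          simp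
        have h4 := hjac _ _ ψ (inv_ne_one.2 h1) (inv_ne_one.2 h2)
          (by rw [← mul_inv]; exact inv_ne_one.2 h3) hψ
        rw [inv_inv, inv_inv, ← mul_inv, inv_inv, glD _ _ h3 hψi, glD _ _ (inv_ne_one.2 h1) hψ,
          glD _ _ (inv_ne_one.2 h2) hψ, gli, gli] at h4
        rw [e, map_add, map_add, hE, hE, hE, mainA_neg hω, mainA_add hω, gli]
        show c (Fl _ _) = _
        linear_combination (norm := abel1) h4
      · have h4 := jacobiSum_mul_nontrivial h3 ψ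
        have h5 := gaussSum_mul_gaussSum_eq_card h3 hprim
        have h6 := mul_gaussSum_inv_eq_gaussSum (ω ^ a₁.val * ω ^ a₂.val)⁻¹ ψ
        have h7 := mainA_root (ω ^ a₁.val * ω ^ a₂.val)⁻¹ (-1)
        rw [Gadd, Gadd, Gs, Gs, Gs, mainA_neg hω, mainA_add hω, ← h4, ← h6, Lb.lam,
          Even.neg_pow (by simp)]
        rw [Units.coe_neg_one] at h7
        push_cast
        rw [← hcard, ← h5]
        simp only [mul_pow, h7]
        ring
  choose s hs r hr using fun i => key _ _ (hβ i)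
  have hG : G (∑ i, s i) = ∏ i, G (s i) := by
    let G' : Multiplicative (ZMod m → ℕ) →* K :=
      { toFun s := G s.toAdd, map_one' := G0, map_mul' s t := Gadd _ _ }
    exact map_prod G' (fun i => Multiplicative.ofAdd (s i)) univ
  have hrat : G (∑ i, s i) ^ (2 * (q - 1) * R) = (((∏ i, r i) ^ R * n ^ (2 * (q - 1)) : ℚ) : K) := by
    rw [hG, pow_mul, ← prod_pow]
    simp only [hr, prod_mul_distrib, mul_pow, prod_pow]
    push_cast
    rw [← h, ← pow_mul, ← pow_mul, mul_comm R]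
  have hst := stick (card_Fq.trans hq) hm1 ω hω ψ hψ (∑ i, s i) _
    (Nat.mul_pos (by omega) hR) _ hrat
  have hcop : p.Coprime m := by
    have : (p ^ f).Coprime m := by rw [← hm1]; simp
    exact Nat.Coprime.coprime_dvd_left (dvd_pow_self p hf.ne') this
  obtain ⟨N, hN, hNs⟩ := span_rel hcop f hf E.ker (by simp [AddMonoidHom.mem_ker, hE, gl1])
    (fun a => by simp [AddMonoidHom.mem_ker, hE, mainA_neg hω, gli])
    (fun a => by
      rw [AddMonoidHom.mem_ker, map_sub, hE, hE, mainA_mul hω]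
      by_cases h1 : ω ^ a.val = 1
      · simp [h1]
      · obtain ⟨h2, h3⟩ := hfrob _ ψ h1 hψ
        rwa [glD _ _ h2 hψ, glD _ _ (inv_ne_one.2 h1) hψ, gli, ← sub_eq_add_neg] at h3)
    (fun d e hd hde a ha => by
      have he : 0 < e := Nat.pos_of_mul_pos_left (hde ▸ hm0)
      have hρ : orderOf (ω ^ e) = d := by
        rw [orderOf_pow' _ he.ne', hω, ← hde, Nat.gcd_mul_left_left, Nat.mul_div_cancel _ he]
      have h0 : ∀ i : ℕ, ω ^ ((i : ZMod m) * e).val = (ω ^ e) ^ i := fun i => by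
        rw [mainA_mul hω, ← mul_one (e : ZMod m), mainA_mul hω]
        congr 2
        rw [ZMod.val_one_eq_one_mod]
        conv_lhs => rw [← hω]
        rw [pow_mod_orderOf, pow_one]
      have h1 : (ω ^ a.val) ^ d ≠ 1 := by rwa [← mainA_mul hω, Ne, mainA_eq_one hω]
      have h2 := hhd d e _ _ ψ hd (hde.trans hm) hρ h1 hψ
      have h3 : ∀ i, ω ^ a.val * (ω ^ e) ^ i ≠ 1 := fun i h4 => h1 (by
        have := congrArg (· ^ d) h4
        simp only [mul_pow, one_pow] at this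
        have h5 : (ω ^ e) ^ d = 1 := hρ ▸ pow_orderOf_eq_one _
        rwa [pow_right_comm (ω ^ e), h5, one_pow, mul_one] at this)
      have h4 : ∑ j ∈ (range d).erase 0, c (Dl ((ω ^ e) ^ j) ψ) =
          ∑ j ∈ range d, gl ((ω ^ e) ^ j) := by
        rw [← sum_erase (range d) (a := 0) (by simp [gl1])]
        refine sum_congr rfl fun j hj => glD _ _ ?_ hψ
        rw [mem_erase, mem_range] at hj
        exact pow_ne_one_of_lt_orderOf hj.1 (hρ ▸ hj.2)
      rw [h4, glD _ _ h1 hψ, sum_congr rfl fun i _ => glD _ _ (inv_ne_one.2 (h3 i)) hψi] at h2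
      simp only [gli, sum_neg_distrib] at h2
      rw [AddMonoidHom.mem_ker, map_sub, map_sub, map_sum, map_sum]
      simp only [hE, mainA_add hω, h0]
      rw [mainA_mul hω]
      linear_combination (norm := abel1) -h2)
    (fun a => ((∑ i, s i) a : ℕ)) (fun t => by simpa using hst t)
  refine ⟨N, hN, ?_⟩
  rw [AddMonoidHom.mem_ker, map_nsmul] at hNs
  rw [← hNs]
  congr 1
  simp only [hs, ← map_sum]
  congr 1
  funext a
  simp

end Pool.Agent.MP_0c8446_ag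

end

section

namespace Pool.Agent.MP_0c8446_ag

open scoped LinearAlgebra.Projectivization
open MvPolynomial Set

universe u v w

variable {K : Type*} [Field K] {V V' : Type*} [AddCommGroup V] [Module K V] [AddCommGroup V']
  [Module K V']

/-- the trace identity extends linearly to polynomials without constant term -/
theorem linAlg1_poly (Φ : Module.End K V) (A B : Multiset K)
    (h : ∀ r, 0 < r →
      LinearMap.trace K V (Φ ^ r) + (A.map (· ^ r)).sum = (B.map (· ^ r)).sum)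
    (s : Polynomial K) :
    LinearMap.trace K V (Polynomial.aeval Φ (Polynomial.X * s)) +
        (A.map fun a => (Polynomial.X * s).eval a).sum =
      (B.map fun a => (Polynomial.X * s).eval a).sum := by
  induction s using Polynomial.induction_on' with
  | add p q hp hq =>
    simp only [mul_add, map_add, Polynomial.eval_add, Multiset.sum_map_add]
    linear_combination hp + hq
  | monomial n c =>
    have h1 := h (n + 1) n.succ_pos
    have h2 : (Polynomial.X * Polynomial.monomial n c : Polynomial K) =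
        c • Polynomial.X ^ (n + 1) := by
      rw [← Polynomial.C_mul_X_pow_eq_monomial, Polynomial.smul_eq_C_mul]
      ring
    simp only [h2, map_smul, map_pow, Polynomial.aeval_X, Polynomial.eval_smul,
      Polynomial.eval_pow, Polynomial.eval_X, smul_eq_mul, Multiset.sum_map_mul_left]
    linear_combination c * h1

theorem finrank_of_trace [IsAlgClosed K] [CharZero K] [FiniteDimensional K V]
    (Φ : Module.End K V) (hΦ : Function.Injective Φ) (A B : Multiset K) (hA : 0 ∉ A) (hB : 0 ∉ B)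
    (h : ∀ r, 0 < r →
      LinearMap.trace K V (Φ ^ r) + (A.map (· ^ r)).sum = (B.map (· ^ r)).sum) :
    Module.finrank K V + A.card = B.card := by
  set q : Polynomial K :=
    Φ.charpoly * ((A + B).map fun a => Polynomial.X - Polynomial.C a).prod with hq
  have hq0 : q.eval 0 ≠ 0 := by
    rw [hq, Polynomial.eval_mul]
    refine mul_ne_zero ?_ ?_
    · intro h0
      have h1 : Φ.HasEigenvalue 0 :=
        (Module.End.hasEigenvalue_iff_isRoot_charpoly Φ 0).2 h0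
      obtain ⟨x, hx⟩ := h1.exists_hasEigenvector
      have h2 := hx.apply_eq_smul
      rw [zero_smul] at h2
      exact hx.2 (hΦ (by rw [h2, map_zero]))
    · rw [Polynomial.eval_multiset_prod]
      refine Multiset.prod_ne_zero fun h0 => ?_
      simp only [Multiset.map_map, Function.comp, Polynomial.eval_sub, Polynomial.eval_X,
        Polynomial.eval_C, Multiset.mem_map, Multiset.mem_add] at h0
      obtain ⟨a, ha, h1⟩ := h0
      have : a = 0 := by linear_combination -h1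
      subst this
      exact ha.elim hA hB
  have hroot : ∀ a ∈ A + B, q.eval a = 0 := by
    intro a ha
    rw [hq, Polynomial.eval_mul, Polynomial.eval_multiset_prod]
    refine mul_eq_zero_of_right _ (Multiset.prod_eq_zero ?_)
    simp only [Multiset.map_map, Function.comp, Polynomial.eval_sub, Polynomial.eval_X,
      Polynomial.eval_C, Multiset.mem_map]
    exact ⟨a, ha, sub_self a⟩
  have hΦq : Polynomial.aeval Φ q = 0 := by
    rw [hq, map_mul, LinearMap.aeval_self_charpoly, zero_mul]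
  obtain ⟨s, hs⟩ : Polynomial.X ∣ (1 - Polynomial.C (q.eval 0)⁻¹ * q : Polynomial K) := by
    rw [Polynomial.X_dvd_iff, Polynomial.coeff_zero_eq_eval_zero]
    simp [inv_mul_cancel₀ hq0]
  have h1 := linAlg1_poly Φ A B h s
  rw [← hs] at h1
  have hev : ∀ M : Multiset K, (∀ a ∈ M, a ∈ A + B) →
      (M.map fun a => (1 - Polynomial.C (q.eval 0)⁻¹ * q : Polynomial K).eval a).sum =
        (M.card : K) := by
    intro M hM
    rw [Multiset.map_congr rfl (g := fun _ => (1 : K)) fun a ha => by simp [hroot a (hM a ha)]]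
    simp
  rw [hev A fun a ha => Multiset.mem_add.2 (Or.inl ha),
    hev B fun a ha => Multiset.mem_add.2 (Or.inr ha), map_sub, map_mul, hΦq, mul_zero, sub_zero,
    map_one, LinearMap.trace_one] at h1
  exact_mod_cast h1

theorem finrank_one_of_trace [IsAlgClosed K] [CharZero K] [FiniteDimensional K V]
    [FiniteDimensional K V'] (Φ : Module.End K V) (Φ' : Module.End K V')
    (hΦ : Function.Injective Φ) (hΦ' : Function.Injective Φ') {c : K} (hc : c ≠ 0)
    (h : ∀ r, 0 < r →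
      LinearMap.trace K V (Φ ^ r) * LinearMap.trace K V' (Φ' ^ r) = c ^ r) :
    Module.finrank K V = 1 := by
  have h1 := finrank_of_trace (TensorProduct.map Φ Φ')
    (TensorProduct.map_injective_of_flat_flat Φ Φ' hΦ hΦ') 0 {c} (by simp) (by simpa using hc.symm)
    (fun r hr => by
      rw [TensorProduct.map_pow, LinearMap.trace_tensorProduct', h r hr]
      simp)
  simp only [Module.finrank_tensorProduct, Multiset.card_zero, add_zero,
    Multiset.card_singleton] at h1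
  exact Nat.eq_one_of_mul_eq_one_right h1

end Pool.Agent.MP_0c8446_ag

end

section

namespace Pool.Agent.MP_0c8446_ag

open Set

universe u v w

variable {k : Type u} [Field k] [IsAlgClosed k] {q : ℕ} [IsQ k q] {K : Type v} [Field K]
  [CharZero K] [IsAlgClosed K] {ι ι' ι₁ ι₂ : Type} [Fintype ι] [Fintype ι'] [Fintype ι₁] [Fintype ι₂]
  {τ : ι → Bool} {τ' : ι' → Bool} {τ₁ : ι₁ → Bool} {τ₂ : ι₂ → Bool}

omit [IsAlgClosed K] in
lemma cc_one (b : Bool) {r : ℕ} (hr : 0 < r) : fixSum b r (1 : Gp k q b →* Kˣ) =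
    Fintype.card (Gp k q b) * ((q : K) ^ r + 1) := by
  cases b
  · exact fixSumD_one hr
  · exact fixSumF_one hr

omit [IsAlgClosed K] in
lemma cc_not_adm {b : Bool} {r : ℕ} (hr : 0 < r) {χ : Gp k q b →* Kˣ} (h1 : χ ≠ 1)
    (h : ¬ Adm b χ) : fixSum b r χ = 0 := by
  cases b
  · exact fixSumD_not_adm hr h1 h
  · exact fixSumF_not_adm hr h1 h

omit [IsAlgClosed K] in
lemma cc_adm {b : Bool} {r : ℕ} (hr : 0 < r) {χ : Gp k q b →* Kˣ} (h : Adm b χ) :
    fixSum b r χ⁻¹ * fixSum b r χ = (Fintype.card (Gp k q b) : K) ^ 2 * (q : K) ^ r := by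
  cases b
  · exact fixSumD_adm hr h
  · exact fixSumF_adm hr h

omit [IsAlgClosed K] in
lemma cc_lam {b : Bool} {ω₁ ω₂ : MulChar (Fq k q) K} {ψ : AddChar (Fq k q) K}
    (h : (Lb.ch ω₁ ω₂ ψ).Ok b) :
    fixSum b 1 (ch b ω₁ ω₂ ψ)⁻¹ = -(Fintype.card (Gp k q b) * (Lb.ch ω₁ ω₂ ψ).lam b) := by
  cases b
  · obtain ⟨h1, rfl, h2⟩ := h
    rw [fixSum_gauss h1 h2, Lb.lam]
    ring
  · obtain ⟨h1, h2, h3, rfl⟩ := h
    rw [fixSum_jacobi h1 h2 h3, Lb.lam]
    ring

omit [IsAlgClosed k] [IsAlgClosed K] [CharZero K] in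
lemma cc_inv_inv {b : Bool} (χ : Gp k q b →* Kˣ) : χ⁻¹⁻¹ = χ := MonoidHom.ext fun _ => inv_inv _

omit [IsAlgClosed k] [IsAlgClosed K] [CharZero K] in
lemma cc_inv_one {b : Bool} : (1 : Gp k q b →* Kˣ)⁻¹ = 1 := MonoidHom.ext fun _ => inv_one

omit [IsAlgClosed k] [IsAlgClosed K] [CharZero K] in
lemma cc_inv_ne {b : Bool} {χ : Gp k q b →* Kˣ} (h : χ ≠ 1) : χ⁻¹ ≠ 1 := fun e =>
  h (by rw [← cc_inv_inv χ, e, cc_inv_one])

omit [IsAlgClosed k] [IsAlgClosed K] [CharZero K] in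
lemma cc_sum {b : Bool} {χ : Gp k q b →* Kˣ} (h : χ ≠ 1) : ∑ g, (χ g : K) = 0 := by
  have h1 : (Units.coeHom K).comp χ ≠ 1 := fun h1 =>
    h (MonoidHom.ext fun g => Units.ext (DFunLike.congr_fun h1 g))
  exact sum_hom_units_eq_zero _ h1

omit [IsAlgClosed k] [IsAlgClosed K] in
lemma cc_card (b : Bool) : (Fintype.card (Gp k q b) : K) ≠ 0 :=
  Nat.cast_ne_zero.2 Fintype.card_ne_zero

omit [IsAlgClosed k] [IsAlgClosed K] in
lemma cc_q (k : Type u) [Field k] [IsQ k q] : (q : K) ≠ 0 :=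
  Nat.cast_ne_zero.2 (by have := IsQ.one_lt (k := k) (q := q); omega)

omit [IsAlgClosed K] [CharZero K] in
lemma cc_line {V : Type*} [AddCommGroup V] [Module K V] (h : Module.finrank K V = 1)
    (Φ : Module.End K V) (a : V) : Φ a = LinearMap.trace K V Φ • a := by
  have := Module.finite_of_finrank_eq_succ h
  obtain ⟨v, -, hv⟩ := finrank_eq_one_iff'.1 h
  obtain ⟨c, hc⟩ := hv (Φ v)
  obtain rfl : Φ = c • LinearMap.id := LinearMap.ext fun a => by
    obtain ⟨d, rfl⟩ := hv a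
    rw [map_smul, ← hc, smul_comm]
    rfl
  simp [h]

/-- The Frobenius of the curve. -/
noncomputable abbrev ccF (k : Type u) [Field k] [IsAlgClosed k] (q : ℕ) [IsQ k q] (b : Bool) :
    Mor (Cv k q b) (Cv k q b) := frobY (fun _ => b) q inferInstance

namespace Weil

variable (W : Weil.{u, v, w} k K)

/-- The action of the group on `H^1`. -/
noncomputable def ccT (b : Bool) : Gp k q b →* Module.End K (W.gr (Cv k q b) 1) where
  toFun g := (W.act b g).restrict (W.pull_gr _ 1)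
  map_one' := LinearMap.ext fun a => Subtype.ext (by simp)
  map_mul' g h := LinearMap.ext fun a => Subtype.ext (by simp)

/-- The Frobenius on `H^1`. -/
noncomputable def ccP (q : ℕ) [IsQ k q] (b : Bool) : Module.End K (W.gr (Cv k q b) 1) :=
  (W.pull (ccF k q b)).toLinearMap.restrict (W.pull_gr _ 1)

omit [IsAlgClosed K] [CharZero K] in
lemma ccP_mem (b : Bool) (χ : Gp k q b →* Kˣ) :
    ∀ a ∈ Eig (W.ccT b) χ, W.ccP q b a ∈ Eig (W.ccT b) χ := fun a ha g => by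
  rw [← map_smul, ← ha g]
  refine Subtype.ext ?_
  show W.pull _ (W.pull _ a.1) = W.pull _ (W.pull _ a.1)
  rw [W.pull_pull, W.pull_pull]
  refine W.pull_congr (fun x => Yv_ext fun _ => ?_) _
  exact frob_lin_Gp g.2 (co x ())

/-- The Frobenius on an eigenspace. -/
noncomputable def ccE (b : Bool) (χ : Gp k q b →* Kˣ) : Module.End K (Eig (W.ccT b) χ) :=
  (W.ccP q b).restrict (W.ccP_mem b χ)

omit [IsAlgClosed K] in
lemma ccE_inj (b : Bool) (χ : Gp k q b →* Kˣ) : Function.Injective (W.ccE b χ) := by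
  have h := W.pull_injective (ccF k q b) (Cv k q b).isSub_univ rfl
    (by rw [image_univ, (frobY_surjective _ _).range_eq]; exact dense_univ)
  exact fun a a' e => Subtype.ext (Subtype.ext (h (congrArg (fun x => x.1.1) e)))

omit [IsAlgClosed K] [CharZero K] in
lemma cc_deg (q : ℕ) [IsQ k q] (b : Bool) : ∃ δ : ℕ, 0 < δ ∧
    ∀ a, W.tr _ (W.pull (ccF k q b) a) = δ * W.tr _ a := by
  obtain ⟨δ, h0, h⟩ := W.exists_deg (ccF k q b) (Cv k q b).isSub_univ rfl
    (by rw [image_univ, (frobY_surjective _ _).range_eq]; exact dense_univ)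
  exact ⟨δ, h0, fun a => by rw [← h, W.cl_univ, one_mul]⟩

omit [IsAlgClosed K] in
lemma cc_trace {b : Bool} {δ : K} (hδ : ∀ a, W.tr _ (W.pull (ccF k q b) a) = δ * W.tr _ a)
    {r : ℕ} (hr : 0 < r) (g : Gp k q b) : LinearMap.trace K _ (W.ccP q b ^ r * W.ccT b g) =
      1 + δ ^ r - (fixSet b (q ^ r) g).ncard := by
  have := isQ_pow k q hr
  obtain ⟨x⟩ : Nonempty (Cv k q b).pts := inferInstance
  have h1 := W.lefschetz b (cm _ ((cMap_Gp g.2).comp (cMap_frob q (q ^ r) b))) x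
  rw [W.tr_graph_diag] at h1
  have h2 : ∀ a, W.pull (cm _ ((cMap_Gp g.2).comp (cMap_frob q (q ^ r) b))) a =
      ((W.pull (ccF k q b)).toLinearMap ^ r) (W.act b g a) := fun a => by
    rw [← W.pull_frobY_pow hr, act_apply, W.pull_pull]
    rfl
  have h3 : ∀ (r : ℕ) a, W.tr _ (((W.pull (ccF k q b)).toLinearMap ^ r) a) =
      δ ^ r * W.tr _ a := fun r => by
    induction r with
    | zero => simp
    | succ r ih =>
      intro a
      rw [pow_succ, Module.End.mul_apply, ih, AlgHom.toLinearMap_apply, hδ, pow_succ, mul_assoc]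
  have h4 : W.tr _ (W.act b g (W.cl _ {x})) = 1 := by
    exact (W.tr_pull_aut (actY fun _ => g) (actY fun _ => g⁻¹) (actY_inv (fun _ => g))
      (actY_inv' (fun _ => g)) _).trans (W.tr_pt _ x)
  have h5 : W.ccP q b ^ r * W.ccT b g =
      (W.pull (cm _ ((cMap_Gp g.2).comp (cMap_frob q (q ^ r) b)))).toLinearMap.restrict
        (W.pull_gr _ 1) := by
    refine LinearMap.ext fun a => Subtype.ext ?_
    rw [ccP, Module.End.pow_restrict]
    exact (h2 a).symm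
  rw [h2, h3, h4] at h1
  rw [h5, h1]
  ring

omit [IsAlgClosed K] in
lemma cc_eig {b : Bool} {δ : K} (hδ : ∀ a, W.tr _ (W.pull (ccF k q b) a) = δ * W.tr _ a)
    {r : ℕ} (hr : 0 < r) (χ : Gp k q b →* Kˣ) :
    Fintype.card (Gp k q b) * LinearMap.trace K _ (W.ccE b χ ^ r) =
      (1 + δ ^ r) * ∑ g, (χ⁻¹ g : K) - fixSum b r χ⁻¹ := by
  rw [ccE, Module.End.pow_restrict, trace_eig, fixSum, Finset.mul_sum, ← Finset.sum_sub_distrib]
  refine Finset.sum_congr rfl fun g _ => ?_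
  rw [W.cc_trace hδ hr]
  ring

omit [IsAlgClosed K] in
lemma cc_eig' {b : Bool} {r : ℕ} (hr : 0 < r) {χ : Gp k q b →* Kˣ} (h : χ ≠ 1) :
    Fintype.card (Gp k q b) * LinearMap.trace K _ (W.ccE b χ ^ r) = -fixSum b r χ⁻¹ := by
  obtain ⟨δ, -, hδ⟩ := W.cc_deg q b
  rw [W.cc_eig hδ hr, cc_sum (cc_inv_ne h), mul_zero, zero_sub]

lemma cc_triv (b : Bool) : Module.finrank K (Eig (W.ccT b) (1 : Gp k q b →* Kˣ)) = 0 ∧
    ∀ a, W.tr _ (W.pull (ccF k q b) a) = q * W.tr _ a := by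
  obtain ⟨δ, h0, hδ⟩ := W.cc_deg q b
  have h1 : ∀ r, 0 < r → LinearMap.trace K _ (W.ccE b (1 : Gp k q b →* Kˣ) ^ r) + (q : K) ^ r =
      (δ : K) ^ r := fun r hr => by
    have h2 := W.cc_eig hδ hr 1
    rw [cc_inv_one, cc_one b hr] at h2
    simp only [MonoidHom.one_apply, Units.val_one, Finset.sum_const, Finset.card_univ,
      nsmul_eq_mul, mul_one] at h2
    refine mul_left_cancel₀ (cc_card (k := k) (q := q) b) ?_
    linear_combination h2
  have h2 := finrank_of_trace (V := Eig (W.ccT b) (1 : Gp k q b →* Kˣ)) (W.ccE b 1)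
    (W.ccE_inj b 1) {(q : K)} {(δ : K)} (by simpa using (cc_q (K := K) k).symm)
    (by simpa using (Nat.cast_ne_zero.2 h0.ne').symm) (by simpa using h1)
  have h3 : Module.finrank K (Eig (W.ccT b) (1 : Gp k q b →* Kˣ)) = 0 := by simpa using h2
  refine ⟨h3, ?_⟩
  have := (Module.finrank_zero_iff (R := K) (M := Eig (W.ccT b) (1 : Gp k q b →* Kˣ))).1 h3
  have h4 := h1 1 one_pos
  rw [Subsingleton.elim (W.ccE b (1 : Gp k q b →* Kˣ) ^ 1) 0, map_zero, zero_add, pow_one,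
    pow_one] at h4
  rwa [h4]

lemma cc_bot {b : Bool} {χ : Gp k q b →* Kˣ} (h : ¬ Adm b χ) : Eig (W.ccT b) χ = ⊥ := by
  rw [← Submodule.finrank_eq_zero]
  by_cases h1 : χ = 1
  · exact h1 ▸ (W.cc_triv b).1
  have h2 := finrank_of_trace (V := Eig (W.ccT b) χ) (W.ccE b χ) (W.ccE_inj b χ) 0 0 (by simp)
    (by simp) fun r hr => by
      have h3 := W.cc_eig' hr h1
      rw [cc_not_adm hr (cc_inv_ne h1) fun h4 => h (cc_inv_inv χ ▸ h4.inv), neg_zero] at h3
      simpa using (mul_eq_zero.1 h3).resolve_left (cc_card b)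
  simpa using h2

lemma cc_rank {b : Bool} {χ : Gp k q b →* Kˣ} (h : Adm b χ) :
    Module.finrank K (Eig (W.ccT b) χ) = 1 := by
  refine finrank_one_of_trace (V := Eig (W.ccT b) χ) (V' := Eig (W.ccT b) χ⁻¹) (W.ccE b χ)
    (W.ccE b χ⁻¹) (W.ccE_inj b χ) (W.ccE_inj b χ⁻¹) (cc_q (q := q) k) fun r hr => ?_
  have h1 := W.cc_eig' hr h.ne_one
  have h2 := W.cc_eig' hr h.inv.ne_one
  rw [cc_inv_inv] at h2
  refine mul_left_cancel₀ (pow_ne_zero 2 (cc_card (k := k) (q := q) b)) ?_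
  rw [← cc_adm hr h, ← neg_mul_neg (fixSum b r χ⁻¹), ← h1, ← h2]
  ring

omit [IsAlgClosed K] [CharZero K] in
lemma cc_V (b : Bool) (ω₁ ω₂ : MulChar (Fq k q) K) (ψ : AddChar (Fq k q) K) :
    (W.V b (.ch ω₁ ω₂ ψ)).1 = (Eig (W.ccT b) (ch b ω₁ ω₂ ψ)).map (Submodule.subtype _) := by
  ext a
  constructor
  · rintro ⟨h1, h2⟩
    exact ⟨⟨a, h1⟩, fun g => Subtype.ext (h2 g), rfl⟩
  · rintro ⟨a, h, rfl⟩
    exact ⟨a.2, fun g => congrArg Subtype.val (h g)⟩

omit [IsAlgClosed K] [CharZero K] in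
lemma cc_top {b : Bool} {a : W.H (Cv k q b)} (ha : a ∈ W.gr _ 2) (x : (Cv k q b).pts) :
    a = W.tr _ a • W.cl _ {x} := W.eq_smul_pt (by rwa [d_Cv]) x

theorem finrank_V {b : Bool} {t : Lb k q K} (h : t.Ok b) : Module.finrank K (W.V b t).1 = 1 := by
  obtain ⟨x⟩ : Nonempty (Cv k q b).pts := inferInstance
  have h0 : W.cl _ {x} ≠ 0 := fun e => by simpa [e] using W.tr_pt _ x
  rcases t with _ | _ | ⟨ω₁, ω₂, ψ⟩
  · show Module.finrank K (1 : Submodule K (W.H (Cv k q b))) = 1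
    rw [Submodule.one_eq_span]
    exact finrank_span_singleton fun e => h0 (by rw [← mul_one (W.cl _ _), e, mul_zero])
  · have : W.gr (Cv k q b) 2 = K ∙ W.cl _ {x} := by
      refine le_antisymm (fun a ha => Submodule.mem_span_singleton.2 ⟨_, (W.cc_top ha x).symm⟩)
        ((Submodule.span_singleton_le_iff_mem _ _).2 ?_)
      have := W.cl_pt_gr x
      rwa [d_Cv] at this
    show Module.finrank K (W.gr (Cv k q b) 2) = 1
    rw [this]
    exact finrank_span_singleton h0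
  · rw [cc_V, Submodule.finrank_map_subtype_eq]
    exact W.cc_rank h.adm

theorem iSup_V (b : Bool) : ⨆ t : {t : Lb k q K // t.Ok b}, (W.V b t.1).1 = ⊤ := by
  have key : ∀ t : Lb k q K, t.Ok b →
      (W.V b t).1 ≤ ⨆ t : {t : Lb k q K // t.Ok b}, (W.V b t.1).1 := fun t ht =>
    le_iSup (fun t : {t : Lb k q K // t.Ok b} => (W.V b t.1).1) ⟨t, ht⟩
  refine eq_top_iff.2 fun a h => ?_
  clear h
  induction a using DirectSum.Decomposition.inductionOn (W.gr (Cv k q b)) with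
  | zero => exact zero_mem _
  | add a c ha hc => exact add_mem ha hc
  | @homogeneous i a =>
    obtain ⟨a, ha⟩ := a
    match i, ha with
    | 0, ha =>
      rw [W.zero, ← Submodule.one_eq_span] at ha
      exact key .one (by cases b <;> trivial) ha
    | 1, ha =>
      have h1 : (⨆ χ, Eig (W.ccT (q := q) b) χ).map (Submodule.subtype _) ≤
          ⨆ t : {t : Lb k q K // t.Ok b}, (W.V b t.1).1 := by
        rw [Submodule.map_iSup]
        refine iSup_le fun χ => ?_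
        by_cases h : Adm b χ
        · obtain ⟨ω₁, ω₂, ψ, h2, rfl⟩ := h.exists_ok
          exact W.cc_V b ω₁ ω₂ ψ ▸ key _ h2
        · rw [W.cc_bot h, Submodule.map_bot]
          exact bot_le
      rw [iSup_eig] at h1
      exact h1 ⟨⟨a, ha⟩, trivial, rfl⟩
    | 2, ha => exact key .pt (by cases b <;> trivial) ha
    | i + 3, ha =>
      obtain rfl := W.gr_eq_zero ha (by rw [d_Cv]; omega)
      exact zero_mem _

theorem frob_V {b : Bool} {t : Lb k q K} (h : t.Ok b) {a : W.H (Cv k q b)}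
    (ha : a ∈ (W.V b t).1) : W.pull (cm (frob q) (cMap_frob q q b)) a = t.lam b • a := by
  show W.pull (ccF k q b) a = _
  obtain ⟨x⟩ : Nonempty (Cv k q b).pts := inferInstance
  rcases t with _ | _ | ⟨ω₁, ω₂, ψ⟩
  · obtain ⟨c, rfl⟩ := Submodule.mem_one.1 ha
    rw [AlgHom.commutes, show Lb.lam b (.one : Lb k q K) = 1 by cases b <;> rfl, one_smul]
  · rw [W.cc_top (W.pull_gr _ 2 a ha) x, (W.cc_triv b).2, mul_smul, ← W.cc_top ha x,
      show Lb.lam b (.pt : Lb k q K) = q by cases b <;> rfl]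
  · rw [cc_V] at ha
    obtain ⟨a, ha, rfl⟩ := ha
    have h1 := W.cc_eig' one_pos h.adm.ne_one
    rw [cc_lam h, neg_neg, pow_one] at h1
    rw [← mul_left_cancel₀ (cc_card b) h1]
    exact congrArg (fun x : Eig (W.ccT b) (ch b ω₁ ω₂ ψ) => x.1.1)
      (cc_line (V := Eig (W.ccT b) (ch b ω₁ ω₂ ψ)) (W.cc_rank h.adm) (W.ccE b _) ⟨a, ha⟩)

theorem NZ_V {b : Bool} {t : Lb k q K} (h : t.Ok b) : W.NZ (W.V b t * W.V b t.du).1 := by
  by_contra hn
  obtain ⟨a, ha, h0⟩ := Submodule.exists_mem_ne_zero_of_ne_bot (p := (W.V b t).1) fun e => by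
    have := W.finrank_V h
    rw [e, finrank_bot] at this
    exact zero_ne_one this
  refine h0 (W.poincare _ a fun c => ?_)
  have hc : c ∈ ⨆ t : {t : Lb k q K // t.Ok b}, (W.V b t.1).1 := by
    rw [W.iSup_V]
    trivial
  induction hc using Submodule.iSup_induction' with
  | zero => simp
  | add c d _ _ hc hd => rw [mul_add, map_add, hc, hd, add_zero]
  | mem t' c hc =>
    by_contra h1
    have h2 : W.NZ (W.V b t * W.V b t'.1).1 := ⟨_, Submodule.mul_mem_mul ha hc, h1⟩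
    by_cases e : t'.1 = t.du
    · exact hn (e ▸ h2)
    · exact W.not_NZ_V h t'.2 e h2

end Weil

end Pool.Agent.MP_0c8446_ag

end

section

namespace Pool.Agent.MP_0c8446_ag

open Set

universe u v w

variable {k : Type u} [Field k] [IsAlgClosed k] {q : ℕ} [IsQ k q] {K : Type v} [Field K]
  [CharZero K] [IsAlgClosed K] {ι ι' ι₁ ι₂ : Type} [Fintype ι] [Fintype ι'] [Fintype ι₁] [Fintype ι₂]
  {τ : ι → Bool} {τ' : ι' → Bool} {τ₁ : ι₁ → Bool} {τ₂ : ι₂ → Bool}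

namespace Weil

variable (W : Weil.{u, v, w} k K)

theorem actY_Lin (g : ∀ i, Gp k q (τ i)) (β : ι → Lb k q K) {a : W.H (Yv k q τ)}
    (ha : a ∈ (W.Lin τ β).1) : W.pull (actY g) a = (∏ i, ((β i).chr (τ i) (g i) : K)) • a :=
  W.cw_smul (fun i => lin (g i).1) (fun i => cMap_Gp (g i).2) (fun i => W.V (τ i) (β i)) _
    (fun i _ hb => W.act_V (τ i) (β i) (g i) hb) ha

theorem frobY_Lin {β : ι → Lb k q K} (hβ : ∀ i, (β i).Ok (τ i)) {a : W.H (Yv k q τ)}
    (ha : a ∈ (W.Lin τ β).1) :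
    W.pull (frobY τ q inferInstance) a = (∏ i, (β i).lam (τ i)) • a :=
  W.cw_smul (fun _ => frob q) (fun i => cMap_frob q q (τ i)) (fun i => W.V (τ i) (β i)) _
    (fun i _ hb => W.frob_V (hβ i) hb) ha

theorem V_eq_span {b : Bool} {t : Lb k q K} (h : t.Ok b) : ∃ u, (W.V b t).1 = K ∙ u := by
  obtain ⟨v, -, hv⟩ := finrank_eq_one_iff'.1 (W.finrank_V h)
  refine ⟨v.1, le_antisymm (fun a ha => ?_) ((Submodule.span_singleton_le_iff_mem _ _).2 v.2)⟩
  obtain ⟨c, hc⟩ := hv ⟨a, ha⟩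
  exact Submodule.mem_span_singleton.2 ⟨c, congrArg Subtype.val hc⟩

theorem Lin_eq_span {β : ι → Lb k q K} (hβ : ∀ i, (β i).Ok (τ i)) :
    ∃ u, (W.Lin τ β).1 = K ∙ u :=
  W.LinS_eq_span _ fun i => W.V_eq_span (hβ i)

omit [CharZero K] [IsAlgClosed K] in
lemma lines2_mul (β β' : ι → Lb k q K) :
    W.Lin τ β * W.Lin τ β' = W.LinS τ fun i => W.V (τ i) (β i) * W.V (τ i) (β' i) := by
  simp only [Lin, LinS, map_mul, Finset.prod_mul_distrib]

theorem exists_pair {β : ι → Lb k q K} (hβ : ∀ i, (β i).Ok (τ i)) :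
    ∃ a ∈ (W.Lin τ β).1, ∃ b ∈ (W.Lin τ fun i => (β i).du).1, W.tr _ (a * b) ≠ 0 := by
  have h := (W.NZ_LinS fun i => W.V (τ i) (β i) * W.V (τ i) (β i).du).2 fun i => W.NZ_V (hβ i)
  rw [← W.lines2_mul β fun i => (β i).du] at h
  obtain ⟨c, hc, h0⟩ := h
  by_contra hne
  push Not at hne
  have hle : (W.Lin τ β).1 * (W.Lin τ fun i => (β i).du).1 ≤ LinearMap.ker (W.tr _) :=
    Submodule.mul_le.2 fun a ha b hb => hne a ha b hb
  exact h0 (hle hc)

theorem tr_ne_zero_of_Lin {β : ι → Lb k q K} (hβ : ∀ i, (β i).Ok (τ i)) {a : W.H (Yv k q τ)}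
    (ha : a ∈ (W.Lin τ β).1) (h0 : a ≠ 0) :
    ∃ b ∈ (W.Lin τ fun i => (β i).du).1, W.tr _ (a * b) ≠ 0 := by
  obtain ⟨u, hu⟩ := W.Lin_eq_span hβ
  obtain ⟨a', ha', b, hb, h⟩ := W.exists_pair hβ
  rw [hu, Submodule.mem_span_singleton] at ha ha'
  obtain ⟨c, rfl⟩ := ha
  obtain ⟨c', rfl⟩ := ha'
  refine ⟨b, hb, ?_⟩
  rw [smul_mul_assoc, map_smul, smul_eq_mul] at h ⊢
  exact mul_ne_zero (left_ne_zero_of_smul h0) (right_ne_zero_of_mul h)

theorem tr_Lin_eq_zero {β β' : ι → Lb k q K} (hβ : ∀ i, (β i).Ok (τ i))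
    (hβ' : ∀ i, (β' i).Ok (τ i)) (hne : β' ≠ fun i => (β i).du) {a b : W.H (Yv k q τ)}
    (ha : a ∈ (W.Lin τ β).1) (hb : b ∈ (W.Lin τ β').1) : W.tr _ (a * b) = 0 := by
  obtain ⟨i, hi⟩ := Function.ne_iff.1 hne
  by_contra h0
  have h : W.NZ (W.Lin τ β * W.Lin τ β').1 := ⟨a * b, Submodule.mul_mem_mul ha hb, h0⟩
  rw [W.lines2_mul, W.NZ_LinS] at h
  exact W.not_NZ_V (hβ i) (hβ' i) hi (h i)

theorem exists_decomp (a : W.H (Yv k q τ)) : ∃ (s : Finset (ι → Lb k q K))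
    (c : (ι → Lb k q K) → W.H (Yv k q τ)),
    (∀ β ∈ s, (∀ i, (β i).Ok (τ i)) ∧ c β ∈ (W.Lin τ β).1) ∧ a = ∑ β ∈ s, c β := by
  have h := W.iSup_LinS (τ := τ) (L := fun b => {t : Lb k q K // t.Ok b})
    (fun b t => W.V b t.1) W.iSup_V
  have h2 : ⨆ β : ι → Lb k q K, (⨆ _ : ∀ i, (β i).Ok (τ i), (W.Lin τ β).1) = ⊤ := by
    refine top_unique (h.ge.trans (iSup_le fun β => ?_))
    exact le_iSup₂_of_le (f := fun (β : ι → Lb k q K) (_ : ∀ i, (β i).Ok (τ i)) => (W.Lin τ β).1)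
      (fun i => (β i).1) (fun i => (β i).2) le_rfl
  have ha : a ∈ ⨆ β : ι → Lb k q K, (⨆ _ : ∀ i, (β i).Ok (τ i), (W.Lin τ β).1) :=
    h2 ▸ Submodule.mem_top
  obtain ⟨f, hf, hs⟩ := (Submodule.mem_iSup_iff_exists_finsupp _ _).1 ha
  refine ⟨f.support, f, fun β hβ => ?_, hs.symm⟩
  have h3 := hf β
  by_cases hO : ∀ i, (β i).Ok (τ i)
  · rw [iSup_pos hO] at h3
    exact ⟨hO, h3⟩
  · rw [iSup_neg hO, Submodule.mem_bot] at h3
    exact absurd h3 (Finsupp.mem_support_iff.1 hβ)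

open Classical in
/-- The map that is constant in the coordinate `i` and the identity in the others. -/
noncomputable def lines2_cst (x : (Yv k q τ).pts) (i : ι) : Mor (Yv k q τ) (Yv k q τ) :=
  cw id (fun j => if j = i then fun _ => co x j else id) fun j => by
    split_ifs
    · exact cMap_const _ (co_mem x j)
    · exact cMap_id rfl

lemma lines2_cst_Lin (x : (Yv k q τ).pts) (i : ι) (β : ι → Lb k q K) {a : W.H (Yv k q τ)}
    (ha : a ∈ (W.Lin τ β).1) : W.pull (lines2_cst x i) a = (β i).kap • a := by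
  classical
  have h := W.cw_smul (τ := τ) (fun j => if j = i then fun _ => co x j else id) (fun j => by
    split_ifs
    · exact cMap_const _ (co_mem x j)
    · exact cMap_id rfl) (fun j => W.V (τ j) (β j)) (fun j => if j = i then (β j).kap else 1)
    (fun j b hb => by
      by_cases hj : j = i
      · rw [show (if j = i then (β j).kap else 1) = (β j).kap from if_pos hj,
          ← W.const_V (τ j) (β j) ((pr τ j).1 x) hb]
        exact W.pull_congr (fun y => Yv_ext fun _ => by simp [hj]) b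
      · rw [show (if j = i then (β j).kap else 1) = 1 from if_neg hj, one_smul]
        exact W.pull_id _ (funext fun y => Yv_ext fun _ => by simp [hj]) b) ha
  rw [Finset.prod_ite_eq' Finset.univ i, if_pos (Finset.mem_univ i)] at h
  rw [← h]
  exact W.pull_congr (fun y => Yv_ext fun j => by
    by_cases hj : j = i <;> simp [lines2_cst, hj]) a

theorem mem_Alg_of_sum (s : Finset (ι → Lb k q K)) (c : (ι → Lb k q K) → W.H (Yv k q τ))
    (hs : ∀ β ∈ s, (∀ i, (β i).Ok (τ i)) ∧ c β ∈ (W.Lin τ β).1) (h : ∑ β ∈ s, c β ∈ W.Alg _) :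
    ∀ β ∈ s, c β ∈ W.Alg _ := by
  classical
  obtain ⟨x⟩ : Nonempty (Yv k q τ).pts := inferInstance
  have key := mem_of_sum_mem (ι := {β // β ∈ s}) (J := (∀ i, Gp k q (τ i)) ⊕ ι) (W.Alg _)
    (Sum.elim (fun g => (W.pull (actY g)).toLinearMap)
      fun i => (W.pull (lines2_cst x i)).toLinearMap)
    (by rintro (g | i) a ha <;> exact W.pull_mem_Alg _ ha)
    (fun β => Sum.elim (fun g => ∏ i, ((β.1 i).chr (τ i) (g i) : K)) fun i => (β.1 i).kap)
    (by
      intro β β' e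
      refine Subtype.ext (funext fun i => Lb.eq_of_chr ((hs _ β.2).1 i) ((hs _ β'.2).1 i) ?_
        (congrFun e (Sum.inr i)))
      refine MonoidHom.ext fun g => Units.ext ?_
      have e1 := congrFun e (Sum.inl (Pi.mulSingle i g))
      have e2 : ∀ γ : ι → Lb k q K,
          ∏ j, ((γ j).chr (τ j) (Pi.mulSingle (M := fun j => Gp k q (τ j)) i g j) : K) =
            (γ i).chr (τ i) g := fun γ => by
        rw [Finset.prod_eq_single i (fun j _ hj => by rw [Pi.mulSingle_eq_of_ne hj]; simp)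
          (fun hi => absurd (Finset.mem_univ i) hi), Pi.mulSingle_eq_same]
      exact (e2 β.1).symm.trans (e1.trans (e2 β'.1)))
    s.attach (fun β => c β.1)
    (by
      rintro β - (g | i)
      · exact W.actY_Lin g β.1 (hs _ β.2).2
      · exact W.lines2_cst_Lin x i β.1 (hs _ β.2).2)
    (by rw [Finset.sum_attach s c]; exact h)
  exact fun β hβ => key ⟨β, hβ⟩ (Finset.mem_attach _ _)

theorem algF_of_pair {β : ι → Lb k q K} (hβ : ∀ i, (β i).Ok (τ i)) {z b : W.H (Yv k q τ)}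
    (hz : z ∈ W.Alg _) (hb : b ∈ (W.Lin τ fun i => (β i).du).1) (h : W.tr _ (z * b) ≠ 0) :
    W.AlgF τ β := by
  obtain ⟨s, c, hs, rfl⟩ := W.exists_decomp z
  rw [Finset.sum_mul, map_sum] at h
  obtain ⟨γ, hγ, h1⟩ := Finset.exists_ne_zero_of_sum_ne_zero h
  have e : (fun i => (β i).du) = fun i => (γ i).du := by
    by_contra hne
    exact h1 (W.tr_Lin_eq_zero (hs γ hγ).1 (fun i => (hβ i).du) hne (hs γ hγ).2 hb)
  obtain rfl : β = γ := funext fun i => by simpa using congrArg Lb.du (congrFun e i)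
  have h2 := W.mem_Alg_of_sum s c hs hz β hγ
  obtain ⟨u, hu⟩ := W.Lin_eq_span hβ
  have h3 := (hs β hγ).2
  rw [hu, Submodule.mem_span_singleton] at h3
  obtain ⟨t, ht⟩ := h3
  have ht0 : t ≠ 0 := by
    rintro rfl
    rw [← ht] at h1
    simp at h1
  unfold AlgF
  rw [hu, Submodule.span_singleton_le_iff_mem]
  rw [← ht] at h2
  exact (Submodule.smul_mem_iff _ ht0).1 h2

theorem exists_Lin_of_pair {β₁ : ι₁ → Lb k q K} {ζ : W.H (Yv k q (Sum.elim τ₁ τ₂))}
    {b₁ : W.H (Yv k q τ₁)} (hb : b₁ ∈ (W.Lin τ₁ β₁).1) {c : W.H (Yv k q τ₂)}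
    (h : W.tr _ (ζ * (W.pull (pL τ₁ τ₂) b₁ * W.pull (pR τ₁ τ₂) c)) ≠ 0) :
    ∃ β₂ : ι₂ → Lb k q K, (∀ i, (β₂ i).Ok (τ₂ i)) ∧
      ∃ y ∈ (W.Lin (Sum.elim τ₁ τ₂) (Sum.elim β₁ β₂)).1, W.tr _ (ζ * y) ≠ 0 := by
  obtain ⟨s, d, hs, rfl⟩ := W.exists_decomp c
  rw [map_sum, Finset.mul_sum, Finset.mul_sum, map_sum] at h
  obtain ⟨γ, hγ, h1⟩ := Finset.exists_ne_zero_of_sum_ne_zero h
  refine ⟨γ, (hs γ hγ).1, _, ?_, h1⟩
  rw [W.Lin_sum]
  exact Submodule.mul_mem_mul (W.mem_pullS.2 ⟨_, hb, rfl⟩) (W.mem_pullS.2 ⟨_, (hs γ hγ).2, rfl⟩)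

end Weil

end Pool.Agent.MP_0c8446_ag

end

section

namespace Pool.Agent.MP_0c8446_ag

open Set

universe u v w

variable {k : Type u} [Field k] [IsAlgClosed k] {q : ℕ} [IsQ k q] {K : Type v} [Field K]
  [CharZero K] [IsAlgClosed K] {ι ι' ι₁ ι₂ : Type} [Fintype ι] [Fintype ι'] [Fintype ι₁] [Fintype ι₂]
  {τ : ι → Bool} {τ' : ι' → Bool} {τ₁ : ι₁ → Bool} {τ₂ : ι₂ → Bool}

lemma mono_map_sum {T U : Type*} (f₁ : ι₁ → T) (f₂ : ι₂ → T) (g₁ : ι₁ → U) (g₂ : ι₂ → U) :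
    (Finset.univ.val.map fun i => (Sum.elim f₁ f₂ i, Sum.elim g₁ g₂ i)) =
      (Finset.univ.val.map fun i => (f₁ i, g₁ i)) + Finset.univ.val.map fun i => (f₂ i, g₂ i) := by
  rw [← Finset.univ_disjSum_univ, Finset.val_disjSum, Multiset.disjSum, Multiset.map_add,
    Multiset.map_map, Multiset.map_map]
  rfl

lemma mono_exists_family {T U : Type*} (M : Multiset (T × U)) :
    ∃ (n : ℕ) (f : Fin n → T) (g : Fin n → U), (Finset.univ.val.map fun i => (f i, g i)) = M := by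
  induction M using Quotient.inductionOn with
  | _ l =>
    refine ⟨l.length, fun i => (l.get i).1, fun i => (l.get i).2, ?_⟩
    rw [Fin.univ_val_map]
    simp

lemma mono_exists_mul {R A : Type*} [CommRing R] [Ring A] [Algebra R A] {S T : Submodule R A}
    (φ : A →ₗ[R] R) {y : A} (hy : y ∈ S * T) (h : φ y ≠ 0) :
    ∃ a ∈ S, ∃ b ∈ T, φ (a * b) ≠ 0 := by
  by_contra hne
  push Not at hne
  have : S * T ≤ LinearMap.ker φ := Submodule.mul_le.2 hne
  exact h (this hy)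

namespace Weil

variable (W : Weil.{u, v, w} k K)

theorem algM_iff {β : ι → Lb k q K} (hβ : ∀ i, (β i).Ok (τ i)) :
    W.AlgM (Finset.univ.val.map fun i => (τ i, β i)) ↔ W.AlgF τ β := by
  constructor
  · rintro ⟨-, κ, _, σ, γ, h, hA⟩
    obtain ⟨e, he⟩ := exists_equiv_of_map_eq _ _ h
    have h1 : ∀ i, τ (e i) = σ i := fun i => congrArg Prod.fst (he i)
    have h2 : β ∘ e = γ := funext fun i => congrArg Prod.snd (he i)
    intro a ha
    rw [← W.Lin_equiv e h1 β, h2, mem_pullS] at ha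
    obtain ⟨b, hb, rfl⟩ := ha
    exact W.pull_mem_Alg _ (hA hb)
  · intro h
    refine ⟨fun t ht => ?_, ι, inferInstance, τ, β, rfl, h⟩
    obtain ⟨i, -, rfl⟩ := Multiset.mem_map.1 ht
    exact hβ i

omit [IsAlgClosed k] [CharZero K] [IsAlgClosed K] in
lemma mono_one_le (X : Var k) : (1 : W.HS X).1 ≤ W.Alg X := by
  show (1 : Submodule K (W.H X)) ≤ _
  rw [Submodule.one_eq_span, Submodule.span_le, singleton_subset_iff]
  exact W.one_mem_Alg X

theorem algM_zero : W.AlgM (0 : Multiset (Bool × Lb k q K)) := by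
  refine ⟨fun t ht => absurd ht (Multiset.notMem_zero t), Empty, inferInstance, Empty.elim,
    Empty.elim, by simp, ?_⟩
  unfold AlgF Lin LinS
  rw [Fintype.prod_empty]
  exact W.mono_one_le _

lemma mono_algF_sum {β₁ : ι₁ → Lb k q K} {β₂ : ι₂ → Lb k q K} (h₁ : W.AlgF τ₁ β₁)
    (h₂ : W.AlgF τ₂ β₂) : W.AlgF (Sum.elim τ₁ τ₂) (Sum.elim β₁ β₂) := by
  unfold AlgF
  rw [W.Lin_sum]
  refine Submodule.mul_le.2 ?_
  rintro _ ⟨a, ha, rfl⟩ _ ⟨b, hb, rfl⟩
  exact W.mul_mem_Alg (W.pull_mem_Alg _ (h₁ ha)) (W.pull_mem_Alg _ (h₂ hb))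

theorem algM_add {M N : Multiset (Bool × Lb k q K)} (hM : W.AlgM M) (hN : W.AlgM N) :
    W.AlgM (M + N) := by
  obtain ⟨hM0, κ₁, _, σ₁, γ₁, rfl, h₁⟩ := hM
  obtain ⟨hN0, κ₂, _, σ₂, γ₂, rfl, h₂⟩ := hN
  exact ⟨fun t ht => (Multiset.mem_add.1 ht).elim (hM0 t) (hN0 t), κ₁ ⊕ κ₂, inferInstance,
    Sum.elim σ₁ σ₂, Sum.elim γ₁ γ₂, mono_map_sum _ _ _ _, W.mono_algF_sum h₁ h₂⟩

omit [IsAlgClosed k] [CharZero K] [IsAlgClosed K] [Fintype ι₁] [Fintype ι₂] in
lemma mono_du_sum (β₁ : ι₁ → Lb k q K) (β₂ : ι₂ → Lb k q K) :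
    (fun i => (Sum.elim β₁ β₂ i).du) = Sum.elim (fun i => (β₁ i).du) fun i => (β₂ i).du := by
  funext i; cases i <;> rfl

omit [IsAlgClosed k] [CharZero K] [IsAlgClosed K] [Fintype ι₁] [Fintype ι₂] in
lemma mono_ok_sum {β₁ : ι₁ → Lb k q K} {β₂ : ι₂ → Lb k q K} (h₁ : ∀ i, (β₁ i).Ok (τ₁ i))
    (h₂ : ∀ i, (β₂ i).Ok (τ₂ i)) : ∀ i, (Sum.elim β₁ β₂ i).Ok (Sum.elim τ₁ τ₂ i) := by
  rintro (i | i)
  · exact h₁ i
  · exact h₂ i

lemma mono_algF_contr {β₁ : ι₁ → Lb k q K} {β₂ : ι₂ → Lb k q K} (h₁ : ∀ i, (β₁ i).Ok (τ₁ i))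
    (h₂ : ∀ i, (β₂ i).Ok (τ₂ i)) (h : W.AlgF (Sum.elim τ₁ τ₂) (Sum.elim β₁ β₂))
    (h' : W.AlgF τ₂ fun i => (β₂ i).du) : W.AlgF τ₁ β₁ := by
  obtain ⟨a, ha, y, hy, hay⟩ := W.exists_pair (mono_ok_sum h₁ h₂)
  rw [mono_du_sum, W.Lin_sum] at hy
  obtain ⟨_, ⟨b, hb, rfl⟩, _, ⟨c, hc, rfl⟩, h3⟩ :=
    mono_exists_mul (W.tr _ ∘ₗ LinearMap.mulLeft K a) hy hay
  have hc' : W.pull (pR τ₁ τ₂) c ∈ W.Alg _ := W.pull_mem_Alg _ (h' hc)
  have h4 : W.tr _ ((a * W.pull (pR τ₁ τ₂) c) * W.pull (pL τ₁ τ₂) b) ≠ 0 := by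
    rw [mul_assoc, W.Alg_comm hc']
    exact h3
  obtain ⟨a', ha', h5⟩ := W.exists_Alg_push (pL τ₁ τ₂) (W.mul_mem_Alg (h ha) hc') h4
  exact W.algF_of_pair h₁ ha' hb h5

theorem algM_contr {M N : Multiset (Bool × Lb k q K)} (h : W.AlgM (M + N))
    (hN : W.AlgM (N.map duT)) : W.AlgM M := by
  obtain ⟨n₁, σ₁, γ₁, rfl⟩ := mono_exists_family M
  obtain ⟨n₂, σ₂, γ₂, rfl⟩ := mono_exists_family N
  have h₁ : ∀ i, (γ₁ i).Ok (σ₁ i) := fun i => h.1 (σ₁ i, γ₁ i)
    (Multiset.mem_add.2 (Or.inl (Multiset.mem_map.2 ⟨i, Finset.mem_univ i, rfl⟩)))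
  have h₂ : ∀ i, (γ₂ i).Ok (σ₂ i) := fun i => h.1 (σ₂ i, γ₂ i)
    (Multiset.mem_add.2 (Or.inr (Multiset.mem_map.2 ⟨i, Finset.mem_univ i, rfl⟩)))
  rw [← mono_map_sum, W.algM_iff (mono_ok_sum h₁ h₂)] at h
  rw [Multiset.map_map] at hN
  exact (W.algM_iff h₁).2 (W.mono_algF_contr h₁ h₂ h ((W.algM_iff fun i => (h₂ i).du).1 hN))

omit [CharZero K] [IsAlgClosed K] in
lemma mono_Lin_unit (b : Bool) (t : Lb k q K) :
    W.Lin (fun _ : Unit => b) (fun _ => t) = W.V b t := by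
  unfold Lin LinS
  rw [Fintype.prod_unique]
  exact W.pullS_id _ (fun x => Yv_ext fun _ => rfl) _

lemma mono_Lin_two (b b' : Bool) (t t' : Lb k q K) :
    W.Lin (Sum.elim (fun _ : Unit => b) fun _ : Unit => b') (Sum.elim (fun _ => t) fun _ => t') =
      W.pullS (pL _ _) (W.V b t) * W.pullS (pR _ _) (W.V b' t') := by
  rw [W.Lin_sum, mono_Lin_unit, mono_Lin_unit]

lemma mono_algM_two {b b' : Bool} {t t' : Lb k q K} (ht : t.Ok b) (ht' : t'.Ok b')
    (h : W.AlgF (Sum.elim (fun _ : Unit => b) fun _ : Unit => b')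
      (Sum.elim (fun _ => t) fun _ => t')) : W.AlgM {(b, t), (b', t')} := by
  have := (W.algM_iff (mono_ok_sum (fun _ => ht) fun _ => ht')).2 h
  rw [mono_map_sum] at this
  simpa using this

lemma mono_algF_diag {b : Bool} {t : Lb k q K} (ht : t.Ok b) :
    W.AlgF (Sum.elim (fun _ : Unit => b) fun _ : Unit => b)
      (Sum.elim (fun _ => t) fun _ => t.du) := by
  obtain ⟨y, hy, h0⟩ := W.NZ_V ht.du
  obtain ⟨a, ha, c, hc, h1⟩ := mono_exists_mul (W.tr _) hy h0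
  let D : Mor (Cv k q b) (Yv k q (Sum.elim (fun _ : Unit => b) fun _ : Unit => b)) :=
    pair (Mor.id _) (Mor.id _)
  have hD : ∀ x, (pL _ _).1 (D.1 x) = x := fun x => rfl
  have hD' : ∀ x, (pR _ _).1 (D.1 x) = x := fun x => rfl
  have hz : IsSub (range D.1) := by
    rw [← image_univ]
    exact (D.retr _ hD).isSub (Var.isSub_univ _)
  refine W.algF_of_pair (mono_ok_sum (fun _ => ht) fun _ => ht.du) (W.cl_mem_Alg hz)
    (b := W.pull (pL _ _) a * W.pull (pR _ _) c) ?_ ?_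
  · rw [mono_du_sum, mono_Lin_two]
    exact Submodule.mul_mem_mul ⟨a, ha, rfl⟩ ⟨c, hc, rfl⟩
  · rw [← W.tr_pull_retr D _ hD, map_mul, W.pull_pull, W.pull_pull,
      W.pull_id _ (funext hD), W.pull_id _ (funext hD')]
    exact h1

theorem algM_diag {t : Bool × Lb k q K} (ht : t.2.Ok t.1) : W.AlgM {t, duT t} :=
  W.mono_algM_two ht ht.du (W.mono_algF_diag ht)

lemma mono_algM_single {b : Bool} {t : Lb k q K} (ht : t.Ok b) (h : (W.V b t).1 ≤ W.Alg _) :
    W.AlgM {(b, t)} := by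
  have := (W.algM_iff (τ := fun _ : Unit => b) (β := fun _ => t) fun _ => ht).2 (by
    unfold AlgF
    rw [mono_Lin_unit]
    exact h)
  simpa using this

theorem algM_one (b : Bool) : W.AlgM {(b, (Lb.one : Lb k q K))} :=
  W.mono_algM_single (by cases b <;> trivial) (W.mono_one_le _)

theorem algM_pt (b : Bool) : W.AlgM {(b, (Lb.pt : Lb k q K))} := by
  refine W.mono_algM_single (by cases b <;> trivial) fun a ha => ?_
  obtain ⟨x⟩ : Nonempty (Cv k q b).pts := inferInstance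
  have ha' : a ∈ W.gr (Cv k q b) (2 * (Cv k q b).d) := by
    rw [d_Cv]; exact ha
  rw [W.eq_smul_pt ha' x]
  exact Submodule.smul_mem _ _ (W.cl_mem_Alg (isSub_singleton x))

theorem algM_map {b b' : Bool} {g : P2 k → P2 k} (h : CMap q b b' g)
    (hs : SurjOn g (curve k q b) (curve k q b')) {t t' : Lb k q K} (ht : t.Ok b) (ht' : t'.Ok b')
    (hle : ∀ a ∈ (W.V b' t').1, W.pull (cm g h) a ∈ (W.V b t).1) :
    W.AlgM {(b, t), (b', t'.du)} := by
  have hinj : Function.Injective (W.pull (cm g h)) := by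
    refine W.pull_injective (cm g h) (Var.isSub_univ _) ((d_Cv b).trans (d_Cv b').symm) ?_
    have : (cm g h).1 '' univ = univ := by
      refine eq_univ_of_forall fun y => ?_
      obtain ⟨P, hP, e⟩ := hs (co_mem y ())
      exact ⟨mkY (fun _ => P) fun _ => hP, trivial, Yv_ext fun _ => e⟩
    rw [this]
    exact dense_univ
  have heq : W.pullS (cm g h) (W.V b' t') = W.V b t := by
    refine Subtype.ext (Submodule.eq_of_le_of_finrank_eq ?_ ?_)
    · rintro _ ⟨a, ha, rfl⟩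
      exact hle a ha
    · rw [W.finrank_V ht, ← W.finrank_V ht', pullS_val]
      exact (Submodule.equivMapOfInjective (W.pull (cm g h)).toLinearMap hinj _).finrank_eq.symm
  refine W.mono_algM_two ht ht'.du ?_
  let F : Mor (Yv k q (Sum.elim (fun _ : Unit => b) fun _ : Unit => b'))
      (Yv k q (Sum.elim (fun _ : Unit => b') fun _ : Unit => b')) :=
    pair ((cm g h).comp (pL _ _)) (pR _ _)
  have hF : W.pullS F (W.Lin (Sum.elim (fun _ : Unit => b') fun _ : Unit => b')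
      (Sum.elim (fun _ => t') fun _ => t'.du)) =
      W.Lin (Sum.elim (fun _ : Unit => b) fun _ : Unit => b')
        (Sum.elim (fun _ => t) fun _ => t'.du) := by
    rw [mono_Lin_two, mono_Lin_two, map_mul, ← heq, pullS_pullS, pullS_pullS, pullS_pullS]
    rfl
  intro a ha
  rw [← hF, mem_pullS] at ha
  obtain ⟨c, hc, rfl⟩ := ha
  exact W.pull_mem_Alg _ (W.mono_algF_diag ht' hc)

end Weil

end Pool.Agent.MP_0c8446_ag

end

section

namespace Pool.Agent.MP_0c8446_ag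

open Set

universe u v w

variable {k : Type u} [Field k] [IsAlgClosed k] {q : ℕ} [IsQ k q] {K : Type v} [Field K]
  [CharZero K] [IsAlgClosed K] {ι ι' ι₁ ι₂ : Type} [Fintype ι] [Fintype ι'] [Fintype ι₁] [Fintype ι₂]
  {τ : ι → Bool} {τ' : ι' → Bool} {τ₁ : ι₁ → Bool} {τ₂ : ι₂ → Bool}

omit [IsAlgClosed k] in
lemma rel12_isQ (e : ℕ) [h : IsQ k e] : IsQ (Fq k q) e :=
  ⟨h.one_lt, Subtype.ext (by simpa using h.cast), fun x y => Subtype.ext (by
    simpa using h.add_pow (x : k) y)⟩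

omit [IsAlgClosed k] in
lemma rel12_root (e : ℕ) [IsQ k e] : ∃ E : Fq k q ≃+* Fq k q, ∀ x, E x = x ^ e := by
  have := rel12_isQ (k := k) (q := q) e
  exact ⟨RingEquiv.ofBijective (frobHom (Fq k q) e)
    (Finite.injective_iff_bijective.1 (frobHom (Fq k q) e).injective), fun _ => rfl⟩

namespace Weil

variable (W : Weil.{u, v, w} k K)

lemma rel12_map {g : P2 k → P2 k} (h : CMap q false false g)
    (hs : SurjOn g (curve k q false) (curve k q false)) {ω ω' : MulChar (Fq k q) K}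
    {ψ ψ' : AddChar (Fq k q) K} (hω : ω ≠ 1) (hω' : ω' ≠ 1) (hψ : ψ ≠ 1) (hψ' : ψ' ≠ 1)
    (A : (Fq k q)ˣ → (Fq k q)ˣ) (C : Fq k q → Fq k q)
    (hc : ∀ α γ P, g (lin (gD α γ).1 P) = lin (gD (A α) (C γ)).1 (g P))
    (h1 : ∀ α : (Fq k q)ˣ, ω α = ω' (A α)) (h2 : ∀ γ, ψ γ = ψ' (C γ)) :
    W.AlgM {Dl ω ψ, Dl ω'⁻¹ ψ'⁻¹} := by
  rw [← duT_Dl]
  refine W.algM_map h hs (t := .ch ω 1 ψ) (t' := .ch ω' 1 ψ') ⟨hω, rfl, hψ⟩ ⟨hω', rfl, hψ'⟩ ?_
  rintro a ⟨ha1, ha2⟩
  refine ⟨W.pull_gr _ _ _ ha1, fun g0 => ?_⟩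
  obtain ⟨⟨α, γ⟩, rfl⟩ := eqD.surjective g0
  have h3 := ha2 (gD (A α) (C γ))
  rw [act_apply, ch_gD] at h3
  show W.act false (gD α γ) _ = (ch false ω 1 ψ (gD α γ) : K) • _
  rw [act_apply, ch_gD, h1, h2, ← map_smul, ← h3, pull_pull, pull_pull]
  refine W.pull_congr (fun x => Yv_ext fun _ => ?_) a
  exact hc α γ (co x ())

theorem rel_shift {ω : MulChar (Fq k q) K} {ψ ψ' : AddChar (Fq k q) K} (hω : ω ≠ 1) (hψ : ψ ≠ 1)
    (hψ' : ψ' ≠ 1) : W.AlgM {Dl ω ψ', Dl ω⁻¹ ψ} := by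
  obtain ⟨c, hc⟩ := stick_shift (inv_ne_one.2 hψ) ψ'
  have hc0 : c ≠ 0 := by
    rintro rfl
    exact hψ' (by simpa using hc)
  obtain ⟨ξ, hξ⟩ := IsAlgClosed.exists_pow_nat_eq (c : k) (IsQ.pos k q)
  have hξ0 : ξ ≠ 0 := by
    rintro rfl
    rw [zero_pow (IsQ.pos k q).ne'] at hξ
    exact hc0 (Subtype.ext hξ.symm)
  have key : ∀ (x : kˣ) (y : (Fq k q)ˣ), x ^ (q - 1) = ofFqUnit y →
      CMap q false false (lin (x, ofFqUnit y, 1)) := fun x y hxy =>
    cMap_dh hxy (ofFqUnit_pow y) (by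
      have := IsQ.one_lt (k := k) (q := q)
      simp [show q ≠ 0 by omega])
  have e1 : Units.mk0 ξ hξ0 ^ (q - 1) = ofFqUnit (Units.mk0 c hc0) := Units.ext (by simpa using hξ)
  have e2 : (Units.mk0 ξ hξ0)⁻¹ ^ (q - 1) = ofFqUnit (Units.mk0 c hc0)⁻¹ := by
    rw [inv_pow, e1, map_inv]
  have := W.rel12_map (key _ _ e1) (fun P hP => ⟨_, (key _ _ e2).1 hP, by
      rw [lin_lin]
      convert lin_one P using 2
      simp [Prod.ext_iff]⟩) hω hω hψ' (inv_ne_one.2 hψ) id (fun γ => c * γ)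
    (fun α γ P => by
      rw [gD_val, gD_val, lin_lin, lin_lin]
      congr 1
      simp [mul_comm]) (fun _ => rfl) (fun γ => by rw [hc, AddChar.mulShift_apply])
  rwa [inv_inv] at this

theorem rel_frob (e : ℕ) [IsQ k e] {ω : MulChar (Fq k q) K} {ψ ψ' : AddChar (Fq k q) K}
    (hω : ω ≠ 1) (hψ : ψ ≠ 1) (hψ' : ψ' ≠ 1) : W.AlgM {Dl (ω ^ e) ψ', Dl ω⁻¹ ψ} := by
  obtain ⟨E, hE⟩ := rel12_root (k := k) (q := q) e
  have he : e ≠ 0 := by
    have := IsQ.one_lt (k := k) (q := e)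
    omega
  let ψ₁ : AddChar (Fq k q) K := ψ'.compAddMonoidHom E.symm.toAddMonoidHom
  have h1 : ∀ γ, ψ' γ = ψ₁ (γ ^ e) := fun γ => by
    rw [← hE]
    simp [ψ₁]
  have hψ₁ : ψ₁ ≠ 1 := fun h => hψ' (AddChar.ext _ _ fun γ => by rw [h1, h]; rfl)
  have hωe : ω ^ e ≠ 1 := fun h => hω (MulChar.ext fun x => by
    have h0 : E.symm x ≠ 0 := by simp
    rw [← E.apply_symm_apply x, hE, map_pow, ← MulChar.pow_apply' _ he, h,
      MulChar.one_apply h0.isUnit, MulChar.one_apply (pow_ne_zero e h0).isUnit])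
  have h2 := W.rel12_map (cMap_frob q e false) (fun P hP => frobFix_pt e hP) hωe hω hψ' hψ₁
    (fun α => α ^ e) (fun γ => γ ^ e) (fun α γ P => by
      rw [gD_val, gD_val, frob_lin]
      congr 1
      simp) (fun α => by rw [MulChar.pow_apply' _ he, Units.val_pow_eq_pow_val, map_pow]) h1
  have h3 := W.rel_shift (inv_ne_one.2 hω) hψ₁ hψ
  rw [inv_inv] at h3
  refine W.algM_contr (N := {Dl ω⁻¹ ψ₁⁻¹, Dl ω ψ₁}) ?_ ?_
  · convert W.algM_add h2 h3 using 1
    simp only [Multiset.insert_eq_cons, ← Multiset.singleton_add]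
    abel
  · have := W.algM_diag (t := Dl ω ψ₁) ⟨hω, rfl, hψ₁⟩
    simpa using this

end Weil

end Pool.Agent.MP_0c8446_ag

end

section

namespace Pool.Agent.MP_0c8446_ag

open Polynomial Finset

universe u

variable {k : Type u} [Field k]

lemma hdGeo_newton {d : ℕ} (u : Fin d → k) {n : ℕ} (hn : 0 < n) :
    ∑ i, u i ^ n = -(n * ((-1) ^ n * (univ.val.map u).esymm n)) -
      ∑ a ∈ antidiagonal n with a.1 ∈ Set.Ioo 0 n,
        (-1) ^ a.1 * (univ.val.map u).esymm a.1 * ∑ i, u i ^ a.2 := by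
  have h := congrArg (MvPolynomial.aeval (R := k) u)
    (MvPolynomial.psum_eq_mul_esymm_sub_sum (Fin d) k n hn)
  simp only [MvPolynomial.psum, map_sum, map_pow, MvPolynomial.aeval_X, map_sub, map_mul, map_neg,
    map_one, map_natCast, MvPolynomial.aeval_esymm_eq_multiset_esymm] at h
  rw [h]
  ring

lemma hdGeo_coeff {d : ℕ} (u : Fin d → k) {m : ℕ} (hm : m ≤ d) :
    (∏ i, (X - C (u i))).coeff (d - m) = (-1) ^ m * (univ.val.map u).esymm m := by
  have h := Multiset.prod_X_sub_C_coeff (univ.val.map u) (k := d - m) (by simp)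
  simp only [Multiset.map_map, Multiset.card_map, card_val, card_univ, Fintype.card_fin,
    Nat.sub_sub_self hm] at h
  exact h

/-- Two monic split polynomials that differ by a constant: the difference of the power sums. -/
lemma hdGeo_psum {d : ℕ} (hd : 0 < d) (u v : Fin d → k) (a : k)
    (h : ∏ i, (X - C (u i)) = ∏ i, (X - C (v i)) + C a) :
    ∑ i, u i ^ d = ∑ i, v i ^ d - d * a := by
  have h1 : ∀ m, m < d →
      (-1) ^ m * (univ.val.map u).esymm m = (-1) ^ m * (univ.val.map v).esymm m := by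
    intro m hm
    rw [← hdGeo_coeff u hm.le, ← hdGeo_coeff v hm.le, h, coeff_add,
      coeff_C_of_ne_zero (by omega), add_zero]
  have h2 : (-1) ^ d * (univ.val.map u).esymm d = (-1) ^ d * (univ.val.map v).esymm d + a := by
    rw [← hdGeo_coeff u le_rfl, ← hdGeo_coeff v le_rfl, h, coeff_add, Nat.sub_self, coeff_C_zero]
  have h4 : ∀ n, n ≤ d → (∀ m, 0 < m → m < n → ∑ i, u i ^ m = ∑ i, v i ^ m) →
      ∑ a ∈ antidiagonal n with a.1 ∈ Set.Ioo 0 n,
        (-1) ^ a.1 * (univ.val.map u).esymm a.1 * ∑ i, u i ^ a.2 =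
      ∑ a ∈ antidiagonal n with a.1 ∈ Set.Ioo 0 n,
        (-1) ^ a.1 * (univ.val.map v).esymm a.1 * ∑ i, v i ^ a.2 := by
    intro n hn ih
    refine sum_congr rfl fun a ha => ?_
    simp only [mem_filter, HasAntidiagonal.mem_antidiagonal, Set.mem_Ioo] at ha
    rw [h1 a.1 (by omega), ih a.2 (by omega) (by omega)]
  have h3 : ∀ n, 0 < n → n < d → ∑ i, u i ^ n = ∑ i, v i ^ n := by
    intro n
    induction n using Nat.strong_induction_on with
    | _ n ih =>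
      intro hn hnd
      rw [hdGeo_newton u hn, hdGeo_newton v hn, h1 n hnd,
        h4 n hnd.le fun m hm hmn => ih m hmn hm (by omega)]
  rw [hdGeo_newton u hd, hdGeo_newton v hd, h2, h4 d le_rfl h3]
  ring

lemma hdGeo_roots [IsAlgClosed k] (P : k[X]) (hP : P.Monic) {d : ℕ} (hd : P.natDegree = d) :
    ∃ w : Fin d → k, P = ∏ j, (X - C (w j)) := by
  have h1 := (IsAlgClosed.splits P).eq_prod_roots_of_monic hP
  have h2 : P.roots.card = d := by rw [← hd]; exact IsAlgClosed.card_roots_eq_natDegree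
  obtain ⟨l, hl⟩ := Quot.exists_rep P.roots
  have hl' : (l : Multiset k) = P.roots := hl
  have h3 : l.length = d := by rw [← h2, ← hl', Multiset.coe_card]
  subst h3
  refine ⟨l.get, ?_⟩
  have h4 : univ.val.map l.get = P.roots := by rw [Fin.univ_val_map, List.ofFn_get, hl']
  rw [prod_eq_multiset_prod, h1, ← h4, Multiset.map_map]
  rfl

lemma hdGeo_split [IsAlgClosed k] {d : ℕ} [NeZero d] (u : Fin d → k) :
    ∃ v : Fin d → k, v 0 = 0 ∧
      ∏ i, (X - C (u i)) = ∏ j, (X - C (v j)) + C (∏ i, (-u i)) := by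
  have hd : 0 < d := Nat.pos_of_ne_zero (NeZero.ne d)
  have hm : (∏ i, (X - C (u i))).Monic := monic_prod_of_monic _ _ fun i _ => monic_X_sub_C _
  have hn : (∏ i, (X - C (u i))).natDegree = d := by
    rw [natDegree_prod_of_monic _ _ fun i _ => monic_X_sub_C _]
    simp
  have hlt : (C (∏ i, (-u i))).degree < (∏ i, (X - C (u i))).degree := by
    rw [degree_eq_natDegree hm.ne_zero, hn]
    exact degree_C_le.trans_lt (by exact_mod_cast hd)
  obtain ⟨w, hw⟩ := hdGeo_roots _ (hm.sub_of_left hlt) (d := d) (by rw [natDegree_sub_C, hn])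
  have h0 : ∏ j, (-w j) = 0 := by
    have := congrArg (eval 0) hw
    simpa [eval_prod] using this.symm
  obtain ⟨j, -, hj⟩ := prod_eq_zero_iff.1 h0
  refine ⟨w ∘ Equiv.swap 0 j, by simpa using hj, ?_⟩
  have := Equiv.prod_comp (Equiv.swap 0 j) fun j => X - C (w j)
  simp only [Function.comp_apply]
  rw [this, ← hw]
  ring

lemma hdGeo_perm [Infinite k] {d : ℕ} (u u' : Fin d → k)
    (h : ∀ t, ∏ i, (t - u i) = ∏ i, (t - u' i)) :
    ∃ σ : Equiv.Perm (Fin d), ∀ i, u (σ i) = u' i := by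
  have h1 : ∏ i, (X - C (u i)) = ∏ i, (X - C (u' i)) :=
    Polynomial.funext fun t => by simpa [eval_prod] using h t
  have h2 : ∀ w : Fin d → k, (∏ i, (X - C (w i))).roots = univ.val.map w := fun w => by
    rw [← roots_multiset_prod_X_sub_C (univ.val.map w), Multiset.map_map]
    rfl
  exact exists_equiv_of_map_eq u' u (by rw [← h2, ← h2, h1])

lemma hdGeo_alpha {d e : ℕ} (he : e ≠ 0) (x x' : Fin d → k) (h : ∀ i, x' i ^ e = x i ^ e)
    (hp : ∏ i, x' i = ∏ i, x i) :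
    ∃ α : Fin d → k, (∀ i, α i ^ e = 1) ∧ ∏ i, α i = 1 ∧ ∀ i, x' i = α i * x i := by
  classical
  obtain ⟨β, hβ, hx⟩ : ∃ β : Fin d → k, (∀ i, β i ^ e = 1) ∧ ∀ i, x' i = β i * x i := by
    refine ⟨fun i => if x i = 0 then 1 else x' i / x i, fun i => ?_, fun i => ?_⟩
    · by_cases h0 : x i = 0
      · simp [h0]
      · simp only [if_neg h0]
        rw [div_pow, h, div_self (pow_ne_zero _ h0)]
    · by_cases h0 : x i = 0
      · have := h i
        rw [h0, zero_pow he] at this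
        simp [h0, (pow_eq_zero_iff he).1 this]
      · simp only [if_neg h0]
        rw [div_mul_cancel₀ _ h0]
  by_cases h0 : ∃ i, x i = 0
  · obtain ⟨i₀, h0⟩ := h0
    have hb : (∏ i, β i) ^ e = 1 := by rw [← prod_pow]; simp [hβ]
    have hb0 : ∏ i, β i ≠ 0 := ne_zero_pow he (by rw [hb]; exact one_ne_zero)
    refine ⟨fun i => β i * if i = i₀ then (∏ i, β i)⁻¹ else 1, fun i => ?_, ?_, fun i => ?_⟩
    · by_cases hi : i = i₀
      · simp only [if_pos hi]
        rw [mul_pow, hβ, inv_pow, hb, inv_one, one_mul]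
      · simp only [if_neg hi]
        rw [mul_one, hβ]
    · rw [prod_mul_distrib, prod_ite_eq', if_pos (mem_univ _), mul_inv_cancel₀ hb0]
    · by_cases hi : i = i₀
      · rw [hx, hi, h0, mul_zero, mul_zero]
      · simp only [if_neg hi]
        rw [mul_one, hx]
  · push Not at h0
    refine ⟨β, hβ, ?_, hx⟩
    have h1 : ∏ i, x i ≠ 0 := prod_ne_zero_iff.2 fun i _ => h0 i
    refine mul_right_cancel₀ h1 ?_
    rw [one_mul, ← prod_mul_distrib, ← hp]
    exact prod_congr rfl fun i _ => (hx i).symm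

lemma hdGeo_scale {d : ℕ} (u v : Fin d → k) {ε : k} (hε : ε ≠ 0) :
    (∀ t, ∏ i, (t - ε * u i) = ∏ j, (t - ε * v j) + ∏ i, (-(ε * u i))) ↔
      ∀ t, ∏ i, (t - u i) = ∏ j, (t - v j) + ∏ i, (-u i) := by
  have key : ∀ (t : k) (w : Fin d → k), ∏ i, (ε * t - ε * w i) = ε ^ d * ∏ i, (t - w i) := by
    intro t w
    simp only [← mul_sub, prod_mul_distrib, prod_const, card_univ, Fintype.card_fin]
  have key' : ∏ i, (-(ε * u i)) = ε ^ d * ∏ i, (-u i) := by
    simp only [← mul_neg, prod_mul_distrib, prod_const, card_univ, Fintype.card_fin]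
  constructor
  · intro h t
    have := h (ε * t)
    rw [key, key, key', ← mul_add] at this
    exact mul_left_cancel₀ (pow_ne_zero _ hε) this
  · intro h t
    obtain ⟨t, rfl⟩ : ∃ t', t = ε * t' := ⟨ε⁻¹ * t, by rw [mul_inv_cancel_left₀ hε]⟩
    rw [key, key, key', ← mul_add, h]

lemma hdGeo_as [IsAlgClosed k] {q : ℕ} (hq : 1 < q) (a : k) : ∃ y : k, y ^ q - y = a := by
  have h1 : (X ^ q - X - C a : k[X]).natDegree = q := by
    rw [natDegree_sub_C, FiniteField.X_pow_card_sub_X_natDegree_eq k hq]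
  obtain ⟨y, hy⟩ := IsAlgClosed.exists_root (X ^ q - X - C a : k[X])
    (natDegree_pos_iff_degree_pos.1 (by omega)).ne'
  exact ⟨y, by simpa [sub_eq_zero] using hy⟩

end Pool.Agent.MP_0c8446_ag

end

section

namespace Pool.Agent.MP_0c8446_ag

open Set

universe u v w

variable {k : Type u} [Field k] [IsAlgClosed k] {q : ℕ} [IsQ k q] {K : Type v} [Field K]
  [CharZero K] [IsAlgClosed K] {ι ι' ι₁ ι₂ : Type} [Fintype ι] [Fintype ι'] [Fintype ι₁] [Fintype ι₂]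
  {τ : ι → Bool} {τ' : ι' → Bool} {τ₁ : ι₁ → Bool} {τ₂ : ι₂ → Bool}

omit [IsAlgClosed k] in
lemma hdGeo_inf_iff {P : P2 k} (hP : P ∈ curve k q false) : P = pt3 1 0 0 ↔ ¬ IsFin P :=
  ⟨fun h => h ▸ not_isFin_inf, eq_inf_of_dh hP⟩

omit [IsAlgClosed k] in
lemma hdGeo_eqn {P : P2 k} (hP : P ∈ curve k q false) (h : IsFin P) :
    ay P ^ q - ay P = ax P ^ (q - 1) := aff_mem_dh.1 (h.eq_aff.symm ▸ hP)

lemma hdGeo_pos (k : Type u) [Field k] {q : ℕ} [IsQ k q] {d e : ℕ} (hde : d * e = q - 1) :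
    e ≠ 0 := by
  rintro rfl
  have := IsQ.pos k q
  omega

omit [IsAlgClosed k] in
lemma hdGeo_sum {α : Type} [Fintype α] (y : α → k) :
    (∑ i, y i) ^ q - ∑ i, y i = ∑ i, (y i ^ q - y i) := by
  rw [Finset.sum_sub_distrib]
  congr 1
  exact map_sum (frobHom k q) y _

theorem hdZ_surj {d e : ℕ} [NeZero d] (hde : d * e = q - 1) {c : k}
    (hc : (-1) ^ (d - 1) * d * c ^ e = 1) (s : (Yv k q fun _ : Fin d => false).pts) :
    ∃ μ, mkP s μ ∈ hdZ k q d e c := by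
  by_cases hs : ∃ i, co s i = pt3 1 0 0
  · exact ⟨s, Or.inl hs⟩
  have hd : 0 < d := Nat.pos_of_ne_zero (NeZero.ne d)
  have he : e ≠ 0 := hdGeo_pos k hde
  have hq := IsQ.one_lt (k := k) (q := q)
  have hfin : ∀ i, IsFin (co s i) := fun i => by
    by_contra h
    exact hs ⟨i, eq_inf_of_dh (co_mem s i) h⟩
  have hc0 : c ≠ 0 := by
    rintro rfl
    rw [zero_pow he, mul_zero] at hc
    exact zero_ne_one hc
  obtain ⟨v, hv0, hv⟩ := hdGeo_split fun i => ax (co s i) ^ e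
  have hN := hdGeo_psum hd _ _ _ hv
  choose x hx using fun j => IsAlgClosed.exists_pow_nat_eq (v j) (Nat.pos_of_ne_zero he)
  choose y hy using fun j => hdGeo_as hq (v j ^ d)
  obtain ⟨m, hm⟩ := IsAlgClosed.exists_pow_nat_eq ((∏ i, ax (co s i)) / c) hd
  have hm' : ∏ i, ax (co s i) = c * m ^ d := by rw [hm, mul_div_cancel₀ _ hc0]
  have hsum : (∑ i, ay (co s i)) ^ q - ∑ i, ay (co s i) = ∑ i, (ax (co s i) ^ e) ^ d := by
    rw [hdGeo_sum]
    refine Finset.sum_congr rfl fun i _ => ?_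
    rw [hdGeo_eqn (co_mem s i) (hfin i), ← pow_mul, mul_comm e, hde]
  have hsum' : (∑ j, y j) ^ q - ∑ j, y j = ∑ j, v j ^ d := by
    rw [hdGeo_sum]
    exact Finset.sum_congr rfl fun j _ => hy j
  have hprod : ∏ i, (-ax (co s i) ^ e) = (-1) ^ d * (c ^ e * m ^ (q - 1)) := by
    rw [Finset.prod_neg, Finset.prod_pow, hm', mul_pow, ← pow_mul, hde]
    simp
  have hsg : (-1 : k) ^ d = -(-1) ^ (d - 1) := by
    conv_lhs => rw [← Nat.sub_add_cancel hd, pow_succ]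
    ring
  refine ⟨mkY (fun j => pt3 (if j = 0 then m else x j)
    (y j + if j = 0 then ∑ i, ay (co s i) - ∑ j, y j else 0) 1) fun j => ?_, Or.inr ?_⟩
  · rw [aff_mem_dh]
    by_cases hj : j = 0
    · subst hj
      have h0 := hy 0
      rw [hv0, zero_pow hd.ne'] at h0
      rw [if_pos rfl, if_pos rfl, IsQ.add_pow, IsQ.sub_pow]
      rw [hprod, hsg] at hN
      linear_combination h0 + hsum - hsum' + hN + m ^ (q - 1) * hc
    · rw [if_neg hj, if_neg hj, add_zero, hy, ← hx, ← pow_mul, mul_comm e, hde]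
  · simp only [co_mkP_inl, co_mkP_inr, co_mkY, isFin_aff, ax_aff, ay_aff]
    refine ⟨fun _ => trivial, fun t => ?_, by simpa using hm', ?_⟩
    · have h1 := congrArg (Polynomial.eval t) hv
      simp only [Polynomial.eval_prod, Polynomial.eval_add, Polynomial.eval_sub,
        Polynomial.eval_X, Polynomial.eval_C] at h1
      rw [h1]
      congr 1
      refine Finset.prod_congr rfl fun j _ => ?_
      by_cases hj : j = 0
      · rw [if_pos hj, hj, hv0]
      · rw [if_neg hj, if_neg hj, hx]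
    · rw [Finset.sum_add_distrib, Finset.sum_ite_eq', if_pos (Finset.mem_univ _)]
      ring

theorem hdZ_fib {d e : ℕ} [NeZero d] (hde : d * e = q - 1) {c : k}
    {s s' μ : (Yv k q fun _ : Fin d => false).pts} (hs : ∀ i, co s i ≠ pt3 1 0 0)
    (hs' : ∀ i, co s' i ≠ pt3 1 0 0) (h : mkP s μ ∈ hdZ k q d e c) (h' : mkP s' μ ∈ hdZ k q d e c) :
    ∃ (σ : Equiv.Perm (Fin d)) (α : Fin d → (Fq k q)ˣ) (γ : Fin d → Fq k q), (∀ i, α i ^ e = 1) ∧
      ∏ i, α i = 1 ∧ ∑ i, γ i = 0 ∧ ∀ i, co s' i = lin (gD (α i) (γ i)).1 (co s (σ i)) := by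
  have he : e ≠ 0 := hdGeo_pos k hde
  have hfin : ∀ i, IsFin (co s i) := fun i => by
    by_contra h
    exact hs i (eq_inf_of_dh (co_mem s i) h)
  have hfin' : ∀ i, IsFin (co s' i) := fun i => by
    by_contra h
    exact hs' i (eq_inf_of_dh (co_mem s' i) h)
  obtain ⟨-, h1, h2, h3⟩ := h.resolve_left fun ⟨i, hi⟩ => hs i hi
  obtain ⟨-, h1', h2', h3'⟩ := h'.resolve_left fun ⟨i, hi⟩ => hs' i hi
  simp only [co_mkP_inl, co_mkP_inr] at h1 h2 h3 h1' h2' h3'
  have hp : ∏ i, ax (co s' i) = ∏ i, ax (co s i) := h2'.trans h2.symm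
  have hp' : ∏ i, (-ax (co s i) ^ e) = ∏ i, (-ax (co s' i) ^ e) := by
    rw [Finset.prod_neg, Finset.prod_neg, Finset.prod_pow, Finset.prod_pow, hp]
  obtain ⟨σ, hσ⟩ := hdGeo_perm (fun i => ax (co s i) ^ e) (fun i => ax (co s' i) ^ e)
    fun t => by rw [h1, h1', hp']
  obtain ⟨α, ha1, ha2, ha3⟩ := hdGeo_alpha he (fun i => ax (co s (σ i))) (fun i => ax (co s' i))
    (fun i => (hσ i).symm) (hp.trans (Equiv.prod_comp σ fun i => ax (co s i)).symm)
  have ha4 : ∀ i, α i ^ (q - 1) = 1 := fun i => by rw [← hde, mul_comm, pow_mul, ha1, one_pow]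
  have hγ : ∀ i, ay (co s' i) - ay (co s (σ i)) ∈ Fq k q := fun i => by
    have e1 := hdGeo_eqn (co_mem s' i) (hfin' i)
    have e2 := hdGeo_eqn (co_mem s (σ i)) (hfin (σ i))
    have e3 : ax (co s' i) = α i * ax (co s (σ i)) := ha3 i
    rw [e3, mul_pow, ha4, one_mul] at e1
    rw [mem_Fq, IsQ.sub_pow]
    linear_combination e1 - e2
  refine ⟨σ, fun i => toFqUnit (α i) (ha4 i), fun i => ⟨_, hγ i⟩, fun i => ?_, ?_, ?_, fun i => ?_⟩
  · ext
    simpa using ha1 i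
  · ext
    simpa using ha2
  · ext
    have := Equiv.sum_comp σ fun i => ay (co s i)
    simp only [AddSubmonoidClass.coe_finsetSum, Finset.sum_sub_distrib, this, h3, h3', sub_self,
      ZeroMemClass.coe_zero]
  · refine (hfin' i).ext ((isFin_lin _ _).2 (hfin _)) ?_ ?_
    · rw [ax_lin]
      simpa using ha3 i
    · rw [ay_lin _ (hfin _)]
      simp

theorem hdZ_act {d e : ℕ} [NeZero d] (hde : d * e = q - 1) {c : k} (α α' : Fin d → (Fq k q)ˣ) (γ γ' : Fin d → Fq k q)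
    (ε : (Fq k q)ˣ) (h1 : ∀ i, α i ^ e = ε) (h2 : ∀ j, j ≠ 0 → α' j ^ e = ε)
    (h3 : ∏ i, α i = α' 0 ^ d) (h4 : ∑ i, γ i = ∑ j, γ' j)
    {x y : (Yv k q (Sum.elim (fun _ : Fin d => false) fun _ : Fin d => false)).pts}
    (h5 : ∀ i, co y (.inl i) = lin (gD (α i) (γ i)).1 (co x (.inl i)))
    (h6 : ∀ j, co y (.inr j) = lin (gD (α' j) (γ' j)).1 (co x (.inr j))) :
    y ∈ hdZ k q d e c ↔ x ∈ hdZ k q d e c := by
  have hinf : (∃ i, co y (.inl i) = pt3 1 0 0) ↔ ∃ i, co x (.inl i) = pt3 1 0 0 :=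
    exists_congr fun i => by
      rw [hdGeo_inf_iff (q := q) (co_mem y (.inl i)), hdGeo_inf_iff (q := q) (co_mem x (.inl i)),
        h5, isFin_lin]
  by_cases hx : ∃ i, co x (.inl i) = pt3 1 0 0
  · exact iff_of_true (Or.inl (hinf.2 hx)) (Or.inl hx)
  have hfin : ∀ i, IsFin (co x (.inl i)) := fun i => by
    by_contra h
    exact hx ⟨i, eq_inf_of_dh (q := q) (co_mem x (.inl i)) h⟩
  have hfy : (∀ j, IsFin (co y (.inr j))) ↔ ∀ j, IsFin (co x (.inr j)) :=
    forall_congr' fun j => by rw [h6, isFin_lin]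
  simp only [hdZ, mem_ofPred_eq]
  rw [hinf, hfy]
  refine or_congr Iff.rfl (and_congr_right fun hfin' => ?_)
  have hε : ((ε : Fq k q) : k) ≠ 0 := by simp
  have a1 : ∀ i, ax (co y (.inl i)) = ((α i : Fq k q) : k) * ax (co x (.inl i)) := fun i => by
    rw [h5, ax_lin]; rfl
  have a2 : ∀ j, ax (co y (.inr j)) = ((α' j : Fq k q) : k) * ax (co x (.inr j)) := fun j => by
    rw [h6, ax_lin]; rfl
  have a3 : ∀ i, ay (co y (.inl i)) = ay (co x (.inl i)) + γ i := fun i => by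
    rw [h5, ay_lin _ (hfin i)]; simp
  have a4 : ∀ j, ay (co y (.inr j)) = ay (co x (.inr j)) + γ' j := fun j => by
    rw [h6, ay_lin _ (hfin' j)]; simp
  have b1 : ∀ i, ax (co y (.inl i)) ^ e = ((ε : Fq k q) : k) * ax (co x (.inl i)) ^ e := fun i => by
    rw [a1, mul_pow, ← h1 i]; simp
  have b2 : ∀ j : Fin d, (if j = 0 then 0 else ax (co y (.inr j)) ^ e) =
      ((ε : Fq k q) : k) * if j = 0 then 0 else ax (co x (.inr j)) ^ e := fun j => by
    by_cases hj : j = 0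
    · simp [hj]
    · rw [if_neg hj, if_neg hj, a2, mul_pow, ← h2 j hj]; simp
  have b3 : ∏ i, ((α i : Fq k q) : k) = ((α' 0 : Fq k q) : k) ^ d := by
    simpa using congrArg (fun a : (Fq k q)ˣ => ((a : Fq k q) : k)) h3
  have b4 : ∑ i, (γ i : k) = ∑ j, (γ' j : k) := by
    simpa using congrArg (fun a : Fq k q => (a : k)) h4
  have b5 : ((α' 0 : Fq k q) : k) ^ d ≠ 0 := pow_ne_zero _ (by simp)
  refine and_congr ?_ (and_congr ?_ ?_)
  · simp only [b1, b2]
    exact hdGeo_scale _ _ hε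
  · simp only [a1, a2, Finset.prod_mul_distrib, b3, mul_pow]
    rw [mul_left_comm, mul_right_inj' b5]
  · simp only [a3, a4, Finset.sum_add_distrib, b4, add_left_inj]

theorem hdZ_perm {d e : ℕ} [NeZero d] {c : k} (σ : Equiv.Perm (Fin d)) (h0 : σ 0 = 0)
    {x y : (Yv k q (Sum.elim (fun _ : Fin d => false) fun _ : Fin d => false)).pts}
    (h5 : ∀ i, co y (.inl i) = co x (.inl i)) (h6 : ∀ j, co y (.inr j) = co x (.inr (σ j))) :
    y ∈ hdZ k q d e c ↔ x ∈ hdZ k q d e c := by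
  have h1 : ∀ j, σ j = 0 ↔ j = 0 := fun j => by rw [← h0, σ.apply_eq_iff_eq, h0]
  have h2 : ∀ t : k, ∏ j, (t - if j = 0 then 0 else ax (co x (.inr (σ j))) ^ e) =
      ∏ j, (t - if j = 0 then 0 else ax (co x (.inr j)) ^ e) := fun t => by
    rw [← Equiv.prod_comp σ fun j => t - if j = 0 then 0 else ax (co x (.inr j)) ^ e]
    simp only [h1]
  have h3 := Equiv.sum_comp σ fun j => ay (co x (.inr j))
  have h4 : (∀ j, IsFin (co x (.inr (σ j)))) ↔ ∀ j, IsFin (co x (.inr j)) :=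
    ⟨fun h j => by simpa using h (σ.symm j), fun h j => h _⟩
  simp only [hdZ, mem_ofPred_eq, h5, h6, h2, h3, h4, h0]

end Pool.Agent.MP_0c8446_ag

end

section

namespace Pool.Agent.MP_0c8446_ag

open Set

universe u v w

variable {k : Type u} [Field k] [IsAlgClosed k] {q : ℕ} [IsQ k q] {K : Type v} [Field K]
  [CharZero K] [IsAlgClosed K] {ι ι' ι₁ ι₂ : Type} [Fintype ι] [Fintype ι'] [Fintype ι₁] [Fintype ι₂]
  {τ : ι → Bool} {τ' : ι' → Bool} {τ₁ : ι₁ → Bool} {τ₂ : ι₂ → Bool}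

omit [IsAlgClosed k] in
lemma Rel3_lin_inf {b : Bool} (g : Gp k q b) (P : P2 k) :
    lin g.1 P = pt3 1 0 0 ↔ P = pt3 1 0 0 := by
  refine ⟨fun h => ?_, fun h => by rw [h, lin_inf]⟩
  have h1 : lin (g⁻¹).1 (lin g.1 P) = P := by
    rw [← lin_mul (g⁻¹).2 g.2]
    have : (g⁻¹).1 * g.1 = 1 := congrArg Subtype.val (inv_mul_cancel g)
    rw [this, lin_one]
  rw [← h1, h, lin_inf]

/-- The labels on the first factor. -/
noncomputable def Rel3_lab (d : ℕ) (ρ ω : MulChar (Fq k q) K) (ψ : AddChar (Fq k q) K) :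
    Fin d → Lb k q K := fun i => .ch (ω * ρ ^ (i : ℕ)) 1 ψ

omit [IsAlgClosed k] [CharZero K] [IsAlgClosed K] in
lemma Rel3_lab_ok {d : ℕ} {ρ ω : MulChar (Fq k q) K} (hρ : orderOf ρ = d) (hω : ω ^ d ≠ 1)
    {ψ : AddChar (Fq k q) K} (hψ : ψ ≠ 1) (i : Fin d) : (Rel3_lab d ρ ω ψ i).Ok false := by
  refine ⟨fun h => hω ?_, rfl, hψ⟩
  have hρd : ρ ^ d = 1 := hρ ▸ pow_orderOf_eq_one ρ
  rw [eq_inv_of_mul_eq_one_left h, inv_pow, ← pow_mul, mul_comm, pow_mul, hρd, one_pow, inv_one]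

omit [IsAlgClosed k] [CharZero K] [IsAlgClosed K] in
lemma Rel3_lab_inj {d : ℕ} {ρ ω : MulChar (Fq k q) K} (hρ : orderOf ρ = d)
    (ψ : AddChar (Fq k q) K) : Function.Injective (Rel3_lab d ρ ω ψ) := by
  intro i j h
  have h1 : ω * ρ ^ (i : ℕ) = ω * ρ ^ (j : ℕ) := (Lb.ch.inj h).1
  exact Fin.ext (pow_injOn_Iio_orderOf (hρ ▸ i.2) (hρ ▸ j.2) (mul_left_cancel h1))

omit [IsAlgClosed k] [CharZero K] [IsAlgClosed K] in
lemma Rel3_lab_chr {d : ℕ} (ρ ω : MulChar (Fq k q) K) (ψ : AddChar (Fq k q) K) (i : Fin d)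
    (α : (Fq k q)ˣ) (γ : Fq k q) :
    ((Rel3_lab d ρ ω ψ i).chr false (gD α γ) : K) = (ω * ρ ^ (i : ℕ)) α * ψ γ :=
  ch_gD _ _ _ _ _

omit [IsAlgClosed k] [CharZero K] [IsAlgClosed K] in
lemma Rel3_du_chr (t : Lb k q K) (b : Bool) (g : Gp k q b) :
    (t.du.chr b g : K) = (t.chr b g : K)⁻¹ := by
  rw [Lb.chr_du, MonoidHom.inv_apply, Units.val_inv_eq_inv_val]

namespace Weil

variable (W : Weil.{u, v, w} k K)

/-- The algebraic class given by the correspondence, with its symmetries. -/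
lemma Rel3_comp {d e : ℕ} [NeZero d] (hde : d * e = q - 1) {ρ ω : MulChar (Fq k q) K}
    (hρ : orderOf ρ = d) (hω : ω ^ d ≠ 1) {ψ : AddChar (Fq k q) K} (hψ : ψ ≠ 1) {c : k}
    (hc : (-1) ^ (d - 1) * d * c ^ e = 1) :
    ∃ b₁ ∈ (W.Lin (fun _ : Fin d => false) (Rel3_lab d ρ ω ψ)).1,
    ∃ ζ ∈ W.Alg (Yv k q (Sum.elim (fun _ : Fin d => false) fun _ : Fin d => false)),
      (∀ γ γ' : Mor (Yv k q (Sum.elim (fun _ : Fin d => false) fun _ : Fin d => false))
          (Yv k q (Sum.elim (fun _ : Fin d => false) fun _ : Fin d => false)),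
        (∀ x, γ'.1 (γ.1 x) = x) → (∀ x, γ.1 (γ'.1 x) = x) →
        (∀ x, γ.1 x ∈ hdZ k q d e c ↔ x ∈ hdZ k q d e c) →
        (∀ x i, co (γ.1 x) (.inl i) = pt3 1 0 0 ↔ co x (.inl i) = pt3 1 0 0) →
        ∀ y, W.tr _ (ζ * W.pull γ y) = W.tr _ (ζ * y)) ∧
      ∃ c', W.tr _ (ζ * (W.pull (pL _ _) b₁ * W.pull (pR _ _) c')) ≠ 0 := by
  classical
  have he : 0 < e := Nat.pos_of_mul_pos_left (hde ▸ IsQ.pos k q)
  have hc0 : c ≠ 0 := by
    rintro rfl
    rw [zero_pow he.ne', mul_zero] at hc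
    exact zero_ne_one hc
  have hρd : ρ ^ d = 1 := hρ ▸ pow_orderOf_eq_one ρ
  have hok := Rel3_lab_ok hρ hω hψ
  obtain ⟨b₁, hb₁, b₂, hb₂, hb⟩ := W.exists_pair (τ := fun _ : Fin d => false) hok
  obtain ⟨t, ht⟩ : ∃ t, ψ t ≠ 1 := by
    by_contra h
    push Not at h
    exact hψ (AddChar.ext _ _ fun t => by simpa using h t)
  let act : (Fin d → (Fq k q)ˣ) → (Fin d → Fq k q) →
      Mor (Yv k q fun _ : Fin d => false) (Yv k q fun _ : Fin d => false) :=
    fun α γ => actY fun i => gD (α i) (γ i)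
  have hp₁ : ∀ α γ, W.pull (act α γ) b₁ =
      (∏ i : Fin d, (ω * ρ ^ (i : ℕ)) (α i) * ψ (γ i)) • b₁ := fun α γ => by
    rw [W.actY_Lin _ _ hb₁]
    simp only [Rel3_lab_chr]
  have hp₂ : ∀ α γ, W.pull (act α γ) b₂ =
      (∏ i : Fin d, (ω * ρ ^ (i : ℕ)) (α i) * ψ (γ i))⁻¹ • b₂ := fun α γ => by
    rw [W.actY_Lin _ _ hb₂]
    simp only [Rel3_du_chr, Rel3_lab_chr, Finset.prod_inv_distrib]
  let f : Equiv.Perm (Fin d) × (Fin d → (Fq k q)ˣ) × (Fin d → Fq k q) →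
      Mor (Yv k q fun _ : Fin d => false) (Yv k q fun _ : Fin d => false) :=
    fun p => (act p.2.1 p.2.2).comp (remap p.1 fun _ => rfl)
  obtain ⟨ζ, hζ, h1, h2⟩ := W.composition (τS := fun _ : Fin d => false)
    (τM := fun _ : Fin d => false) rfl (hdZ k q d e c) (isClosed_hdZ he hc0)
    (range fun i : Fin d => (i, pt3 (1 : k) 0 0)) (finite_range _)
    {s | ∃ i, co s i = pt3 1 0 0} (fun s => by simp) b₁ b₂
    (by simpa [Rel3_lab, Lb.deg] using W.Lin_le_gr _ hb₁)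
    (by simpa [Rel3_lab, Lb.deg, Lb.du] using W.Lin_le_gr _ hb₂) hb
    (by
      rintro _ ⟨i, rfl⟩
      have h3 : ∏ l : Fin d, (ω * ρ ^ (l : ℕ)) ((1 : Fin d → (Fq k q)ˣ) l) *
          ψ (Pi.single (M := fun _ => Fq k q) i t l) = ψ t := by
        simp [Rel3_add_sum]
      refine ⟨act 1 (Pi.single i t), actY (fun l => gD 1 (Pi.single (M := fun _ => Fq k q) i t l))⁻¹,
        fun s => actY_inv _ s, fun s hs => Yv_ext fun l => ?_, ψ t, (ψ t)⁻¹, ht,
        inv_ne_one.2 ht, by rw [hp₁, h3], by rw [hp₂, h3]⟩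
      by_cases hl : l = i
      · subst hl
        have hs' : co s l = pt3 1 0 0 := hs
        rw [hs']
        exact (Rel3_lin_inf _ _).2 hs'
      · show lin (gD 1 (Pi.single (M := fun _ => Fq k q) i t l)).1 (co s l) = co s l
        rw [Pi.single_eq_of_ne hl, gD_one]
        exact lin_one _)
    (f '' {p | (∀ i, p.2.1 i ^ e = 1) ∧ ∏ i, p.2.1 i = 1 ∧ ∑ i, p.2.2 i = 0})
    ((Set.toFinite _).image _)
    (by
      intro s s' μ hs hs' h h'
      obtain ⟨σ, α, γ, a1, a2, a3, a4⟩ := hdZ_fib hde (fun i hi => hs ⟨i, hi⟩)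
        (fun i hi => hs' ⟨i, hi⟩) h h'
      exact ⟨f (σ, α, γ), ⟨_, ⟨a1, a2, a3⟩, rfl⟩, Yv_ext a4⟩)
    (by
      rintro _ ⟨⟨σ, α, γ⟩, ⟨a1, a2, a3⟩, rfl⟩
      have h3 : ∏ i : Fin d, (ω * ρ ^ (i : ℕ)) (α i) * ψ (γ i) = 1 := by
        have h4 : ∀ i : Fin d, (ω * ρ ^ (i : ℕ)) (α i) = ω (α i) := fun i => by
          rw [MulChar.mul_apply, MulChar.pow_apply_coe, Rel3_kill hde hρd (a1 i), one_pow, mul_one]
        have a2' : ∏ i, α i = 1 := a2
        have a3' : ∑ i, γ i = 0 := a3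
        simp only [h4]
        rw [Finset.prod_mul_distrib, Rel3_add_sum, a3', AddChar.map_zero_eq_one, mul_one,
          ← map_prod, ← Units.coe_prod, a2', Units.val_one, map_one]
      have h4 : W.pull (f (σ, α, γ)) b₂ = W.pull (remap σ fun _ => rfl) b₂ := by
        rw [← W.pull_pull, hp₂, h3, inv_one, one_smul]
      rw [h4]
      by_cases hσ : σ = 1
      · subst hσ
        exact Or.inr (by rw [W.pull_id _ (funext fun x => Yv_ext fun i => rfl)])
      · refine Or.inl (W.tr_Lin_eq_zero (β' := (fun i => (Rel3_lab d ρ ω ψ i).du) ∘ σ.symm) hok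
          (fun i => (hok _).du) (fun h => hσ ?_) hb₁ ?_)
        · refine Equiv.ext fun i => ?_
          have h5 := congrArg Lb.du (congrFun h (σ i))
          simp only [Function.comp_apply, Equiv.symm_apply_apply, Lb.du_du] at h5
          exact (Rel3_lab_inj hρ ψ h5).symm
        · rw [← W.Lin_equiv (τ' := fun _ : Fin d => false) σ (fun _ => rfl), W.mem_pullS]
          refine ⟨b₂, ?_, rfl⟩
          have h5 : ((fun i => (Rel3_lab d ρ ω ψ i).du) ∘ σ.symm) ∘ σ =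
              fun i => (Rel3_lab d ρ ω ψ i).du := funext fun i => by simp
          rw [h5]
          exact hb₂)
    (fun s _ => hdZ_surj hde hc s)
  refine ⟨b₁, hb₁, ζ, hζ, fun γ γ' a1 a2 a3 a4 => h1 γ γ' a1 a2 a3 fun x => ?_, h2⟩
  exact exists_congr fun i => a4 x i

theorem rel_hd {d e : ℕ} (hd : d.Prime) (hde : d * e = q - 1) {ρ ω : MulChar (Fq k q) K}
    (hρ : orderOf ρ = d) (hω : ω ^ d ≠ 1) {ψ : AddChar (Fq k q) K} (hψ : ψ ≠ 1) :
    W.AlgM ((Multiset.range d).map (fun i => Dl (ω * ρ ^ i)⁻¹ ψ⁻¹) + {Dl (ω ^ d) ψ} +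
      ((Multiset.range d).erase 0).map fun j => Dl (ρ ^ j) ψ) := by
  classical
  have : NeZero d := ⟨hd.ne_zero⟩
  have he : 0 < e := Nat.pos_of_mul_pos_left (hde ▸ IsQ.pos k q)
  have hdk : (d : k) ≠ 0 := fun h => by
    have h1 := IsQ.cast_pred k q
    rw [← hde, Nat.cast_mul, h, zero_mul] at h1
    exact one_ne_zero (neg_eq_zero.1 h1.symm)
  obtain ⟨c, hc'⟩ := IsAlgClosed.exists_pow_nat_eq ((-1 : k) ^ (d - 1) * d)⁻¹ he
  have hc : (-1) ^ (d - 1) * d * c ^ e = 1 := by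
    rw [hc']
    exact mul_inv_cancel₀ (mul_ne_zero (pow_ne_zero _ (neg_ne_zero.2 one_ne_zero)) hdk)
  have hok := Rel3_lab_ok hρ hω hψ
  obtain ⟨b₁, hb₁, ζ, hζ, hinv, c', hc'⟩ := W.Rel3_comp hde hρ hω hψ hc
  obtain ⟨β, hβ, y, hy, hy0⟩ := W.exists_Lin_of_pair hb₁ hc'
  have hok' : ∀ s, (Sum.elim (Rel3_lab d ρ ω ψ) β s).Ok
      (Sum.elim (fun _ : Fin d => false) (fun _ : Fin d => false) s) := by
    rintro (s | s)
    · exact hok s
    · exact hβ s
  have key := Rel3_alg (ω := ω) hde hρ hψ β hβ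
    (by
      intro α α' γ γ' ε a1 a2 a3 a4
      let g : ∀ s, Gp k q (Sum.elim (fun _ : Fin d => false) (fun _ : Fin d => false) s) :=
        fun s => match s with
          | Sum.inl i => gD (α i) (γ i)
          | Sum.inr j => gD (α' j) (γ' j)
      have h1 := hinv (actY g) (actY g⁻¹) (actY_inv g) (actY_inv' g)
        (fun x => hdZ_act hde α α' γ γ' ε a1 a2 a3 a4 (fun _ => rfl) fun _ => rfl)
        (fun x i => Rel3_lin_inf (g (.inl i)) _) y
      rw [W.actY_Lin g _ hy, mul_smul_comm, map_smul, smul_eq_mul] at h1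
      have h2 := mul_right_cancel₀ hy0 (h1.trans (one_mul _).symm)
      rw [Fintype.prod_sum_type] at h2
      rw [← h2]
      congr 1
      exact Finset.prod_congr rfl fun i _ => (Rel3_lab_chr ρ ω ψ i _ _).symm)
    (by
      intro i j hi hj hij hdeg heq
      have hτ : ∀ l, Sum.elim (fun _ : Fin d => false) (fun _ : Fin d => false)
          (Equiv.swap (Sum.inr i) (Sum.inr j) l) =
          Sum.elim (fun _ : Fin d => false) (fun _ : Fin d => false) l := by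
        intro l
        rcases l with l | l <;> rcases Equiv.swap (Sum.inr i) (Sum.inr j) _ with l' | l' <;> rfl
      have hl : ∀ l : Fin d, Equiv.swap (Sum.inr i) (Sum.inr j) (Sum.inl l : Fin d ⊕ Fin d) =
          Sum.inl l := fun l => Equiv.swap_apply_of_ne_of_ne (by simp) (by simp)
      have hss : ∀ x : (Yv k q (Sum.elim (fun _ : Fin d => false) fun _ : Fin d => false)).pts,
          (remap _ hτ).1 ((remap _ hτ).1 x) = x := fun x => Yv_ext fun l => by simp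
      have h1 := hinv (remap _ hτ) (remap _ hτ) hss hss
        (fun x => hdZ_perm (Equiv.swap i j) (Equiv.swap_apply_of_ne_of_ne hi.symm hj.symm)
          (fun l => by rw [co_remap, hl])
          (fun l => by rw [co_remap, Sum.inr_injective.swap_apply]))
        (fun x l => by rw [co_remap, hl]) y
      rw [W.swap_Lin (by simpa using hij) hτ (Sum.elim (Rel3_lab d ρ ω ψ) β) heq hdeg
        (W.V_eq_span (hok' (.inr i))) hy, mul_neg, map_neg] at h1
      exact hy0 (self_eq_neg.1 h1.symm))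
  have h1 := W.algF_of_pair (β := fun s => (Sum.elim (Rel3_lab d ρ ω ψ) β s).du)
    (fun s => (hok' s).du) hζ (by simpa only [Lb.du_du] using hy) hy0
  rw [← W.algM_iff fun s => (hok' s).du] at h1
  rw [add_assoc, ← key, ← Rel3_univ_val, Multiset.map_map]
  rw [← Finset.univ_disjSum_univ, Finset.val_disjSum, Multiset.disjSum, Multiset.map_add,
    Multiset.map_map, Multiset.map_map] at h1
  have h2 : ((fun i => Dl (ω * ρ ^ i)⁻¹ ψ⁻¹) ∘ (Fin.val : Fin d → ℕ)) =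
      (fun s => (Sum.elim (fun _ : Fin d => false) (fun _ : Fin d => false) s,
        (Sum.elim (Rel3_lab d ρ ω ψ) β s).du)) ∘ Sum.inl := by
    funext i
    simp [Rel3_lab, Lb.du, Dl]
  rw [h2]
  exact h1

end Weil

end Pool.Agent.MP_0c8446_ag

end

section

namespace Pool.Agent.MP_0c8446_ag

open Set

universe u v w

section aux

variable {k : Type u} [Field k] {q : ℕ} [IsQ k q]

/-- The points at infinity of the Fermat curve. -/
lemma r4_fermat_inf {P : P2 k} (hP : P ∈ curve k q true) (h : ¬ IsFin P) :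
    ∃ t : k, t ^ (q - 1) = -1 ∧ P = pt3 t 1 0 := by
  have h2 : P.rep 2 = 0 := not_not.1 h
  have h0 := IsQ.pos k q
  rw [mem_curve, h2] at hP
  simp only [CEq, if_true, zero_pow h0.ne'] at hP
  have h1 : P.rep 1 ≠ 0 := by
    intro h1
    have h3 := vec3_ne_zero.1 (rep_ne_zero P)
    rw [h1, zero_pow h0.ne', add_zero] at hP
    have h4 : P.rep 0 = 0 := pow_eq_zero_iff h0.ne' |>.1 hP
    simp [h1, h2, h4] at h3
  refine ⟨P.rep 0 / P.rep 1, ?_, ?_⟩
  · rw [div_pow, div_eq_iff (pow_ne_zero _ h1)]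
    linear_combination hP
  · rw [← pt3_smul h1, mul_div_cancel₀ _ h1, mul_one, mul_zero, ← h2, pt3_rep]

lemma r4_finite_fermat : {P : P2 k | P ∈ curve k q true ∧ ¬ IsFin P}.Finite := by
  have h0 := IsQ.pos k q
  have hf : {t : k | t ^ (q - 1) = -1}.Finite := by
    refine ((Polynomial.nthRoots (q - 1) (-1 : k)).finite_toSet).subset fun t ht => ?_
    exact (Polynomial.mem_nthRoots h0).2 ht
  refine (hf.image fun t => pt3 t 1 0).subset ?_
  rintro P ⟨hP, h⟩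
  obtain ⟨t, ht, rfl⟩ := r4_fermat_inf hP h
  exact ⟨t, ht, rfl⟩

lemma r4_fermat_eq {P : P2 k} (hP : P ∈ curve k q true) (h : IsFin P) :
    ax P ^ (q - 1) + ay P ^ (q - 1) = 1 := aff_mem_fermat.1 (by rwa [h.eq_aff])

lemma r4_dh_eq {P : P2 k} (hP : P ∈ curve k q false) (h : IsFin P) :
    ay P ^ q - ay P = ax P ^ (q - 1) := aff_mem_dh.1 (by rwa [h.eq_aff])

lemma r4_finite_dh : {P : P2 k | P ∈ curve k q false ∧ (¬ IsFin P ∨ ax P = 0)}.Finite := by
  have h0 := IsQ.pos k q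
  have hf : (Fq k q : Set k).Finite := (inferInstance : Finite (Fq k q))
  refine ((hf.image fun t => pt3 0 t 1).insert (pt3 1 0 0)).subset ?_
  rintro P ⟨hP, h⟩
  by_cases hF : IsFin P
  · have hx : ax P = 0 := h.resolve_left (not_not.2 hF)
    have e := r4_dh_eq hP hF
    rw [hx, zero_pow h0.ne', sub_eq_zero] at e
    exact Or.inr ⟨ay P, e, by rw [← hx]; exact hF.eq_aff⟩
  · exact Or.inl (eq_inf_of_dh hP hF)

/-- A pair of group elements. -/
def r4_g (a : Gp k q true) (b : Gp k q false) : ∀ i : Bool, Gp k q ((fun b : Bool => b) i)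
  | true => a
  | false => b

/-- The group elements preserving the correspondence. -/
def r4_G (α₁ α₂ : (Fq k q)ˣ) (γ₁ γ₂ : Fq k q) :
    ∀ s : Bool ⊕ Bool, Gp k q (Sum.elim (fun b : Bool => b) (fun _ : Bool => false) s)
  | .inl true => gF α₁ α₂
  | .inl false => gD 1 (γ₁ + γ₂)
  | .inr true => gD α₁ γ₁
  | .inr false => gD α₂ γ₂

/-- The boundary points. -/
def r4_A (k : Type u) [Field k] (q : ℕ) : Set (Bool × P2 k) :=
  (fun P => (true, P)) '' {P : P2 k | P ∈ curve k q true ∧ ¬ IsFin P} ∪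
    (fun P => (false, P)) '' {P : P2 k | P ∈ curve k q false ∧ (¬ IsFin P ∨ ax P = 0)}

lemma r4_A_finite : (r4_A k q).Finite := (r4_finite_fermat.image _).union (r4_finite_dh.image _)

lemma r4_fix_fermat (α : (Fq k q)ˣ) {P : P2 k} (hP : P ∈ curve k q true) (h : ¬ IsFin P) :
    lin (gF α α).1 P = P := by
  obtain ⟨t, -, rfl⟩ := r4_fermat_inf hP h
  rw [lin_pt3 _ (by simp), ← pt3_smul (ofFqUnit α).ne_zero t 1 0]
  simp

lemma r4_fix_dh (α : (Fq k q)ˣ) {P : P2 k} (hP : P ∈ curve k q false) (h : ¬ IsFin P ∨ ax P = 0) :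
    lin (gD α 0).1 P = P := by
  by_cases hF : IsFin P
  · have hx : ax P = 0 := h.resolve_left (not_not.2 hF)
    refine IsFin.ext ((isFin_lin _ _).2 hF) hF ?_ ?_
    · rw [ax_lin, hx, mul_zero]
    · rw [ay_lin _ hF]
      simp
  · rw [eq_inf_of_dh hP hF, lin_inf]

variable [IsAlgClosed k]

lemma r4_root (c : k) : ∃ y : k, y ^ q - y = c := by
  have h := IsQ.one_lt (k := k) (q := q)
  have hd : (Polynomial.X ^ q - Polynomial.X - Polynomial.C c : Polynomial k).degree ≠ 0 := by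
    have h1 := FiniteField.X_pow_card_sub_X_natDegree_eq k h
    intro h2
    have h3 := Polynomial.natDegree_eq_zero_iff_degree_le_zero.2 h2.le
    rw [Polynomial.natDegree_sub_C, h1] at h3
    omega
  obtain ⟨y, hy⟩ := IsAlgClosed.exists_root _ hd
  refine ⟨y, ?_⟩
  simpa [sub_eq_zero] using hy

lemma r4_hB (s : (Yv k q fun b : Bool => b).pts) : s ∈ jB k q ↔ ∃ a ∈ r4_A k q, co s a.1 = a.2 := by
  constructor
  · rintro (h | h)
    · exact ⟨(true, co s true), Or.inl ⟨_, ⟨co_mem s true, h⟩, rfl⟩, rfl⟩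
    · exact ⟨(false, co s false), Or.inr ⟨_, ⟨co_mem s false, h⟩, rfl⟩, rfl⟩
  · rintro ⟨_, ⟨P, hP, rfl⟩ | ⟨P, hP, rfl⟩, e⟩
    · exact Or.inl (by rw [show co s true = P from e]; exact hP.2)
    · exact Or.inr (by rw [show co s false = P from e]; exact hP.2)

lemma r4_notB {s : (Yv k q fun b : Bool => b).pts} (h : s ∉ jB k q) :
    IsFin (co s true) ∧ IsFin (co s false) ∧ ax (co s false) ≠ 0 := by
  simpa [jB, not_or] using h

lemma r4_fib {s s' : (Yv k q fun b : Bool => b).pts} {μ : (Yv k q fun _ : Bool => false).pts}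
    (hs : s ∉ jB k q) (hs' : s' ∉ jB k q) (h : mkP s μ ∈ jZ k q) (h' : mkP s' μ ∈ jZ k q) :
    ∃ ζ : (Fq k q)ˣ, s' = (actY (r4_g (gF ζ⁻¹ ζ⁻¹) (gD ζ 0))).1 s := by
  obtain ⟨f1, f2, f3⟩ := r4_notB hs
  obtain ⟨f1', f2', f3'⟩ := r4_notB hs'
  obtain ⟨-, e1, e2, e3⟩ := h.resolve_left hs
  obtain ⟨-, e1', e2', e3'⟩ := h'.resolve_left hs'
  simp only [co_mkP_inl, co_mkP_inr] at e1 e2 e3 e1' e2' e3'
  have d := r4_dh_eq (co_mem s false) f2
  have d' := r4_dh_eq (co_mem s' false) f2'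
  have hY : ay (co s' false) = ay (co s false) := e3'.symm.trans e3
  have hz : (ax (co s' false) / ax (co s false)) ^ (q - 1) = 1 := by
    rw [div_pow, ← d, ← d', hY, div_self]
    rw [d]
    exact pow_ne_zero _ f3
  have hi : ((ofFqUnit (toFqUnit _ hz)⁻¹ : kˣ) : k) = ax (co s false) / ax (co s' false) := by
    rw [map_inv, Units.val_inv_eq_inv_val, ofFqUnit_val, toFqUnit_val, inv_div]
  refine ⟨toFqUnit _ hz, Yv_ext fun i => ?_⟩
  cases i
  · show co s' false = lin (gD (toFqUnit _ hz) 0).1 (co s false)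
    refine IsFin.ext f2' ((isFin_lin _ _).2 f2) ?_ ?_
    · rw [ax_lin]
      simp [div_mul_cancel₀ _ f3]
    · rw [ay_lin _ f2, hY]
      simp
  · show co s' true = lin (gF (toFqUnit _ hz)⁻¹ (toFqUnit _ hz)⁻¹).1 (co s true)
    refine IsFin.ext f1' ((isFin_lin _ _).2 f1) ?_ ?_
    · rw [ax_lin, gF_val, hi]
      field_simp
      linear_combination e1 - e1'
    · rw [ay_lin _ f1, gF_val, hi]
      simp only [toAdd_one, add_zero]
      field_simp
      linear_combination e2 - e2'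

lemma r4_surj {s : (Yv k q fun b : Bool => b).pts} (hs : s ∉ jB k q) :
    ∃ μ : (Yv k q fun _ : Bool => false).pts, mkP s μ ∈ jZ k q := by
  obtain ⟨f1, f2, -⟩ := r4_notB hs
  have d := r4_dh_eq (co_mem s false) f2
  have e := r4_fermat_eq (co_mem s true) f1
  obtain ⟨y, hy⟩ := r4_root (q := q) ((ax (co s false) * ax (co s true)) ^ (q - 1))
  have h2 : (ay (co s false) - y) ^ q - (ay (co s false) - y) =
      (ax (co s false) * ay (co s true)) ^ (q - 1) := by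
    rw [IsQ.sub_pow, mul_pow]
    rw [mul_pow] at hy
    linear_combination d - hy - ax (co s false) ^ (q - 1) * e
  refine ⟨mkY (fun j => bif j then pt3 (ax (co s false) * ax (co s true)) y 1 else
    pt3 (ax (co s false) * ay (co s true)) (ay (co s false) - y) 1) fun j => ?_, Or.inr ?_⟩
  · cases j
    · exact aff_mem_dh.2 h2
    · exact aff_mem_dh.2 hy
  · refine ⟨fun j => ?_, ?_, ?_, ?_⟩
    · cases j <;> simp
    · simp
    · simp
    · simp

lemma r4_inv_B (α₁ α₂ : (Fq k q)ˣ) (γ₁ γ₂ : Fq k q)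
    (x : (Yv k q (Sum.elim (fun b : Bool => b) fun _ : Bool => false)).pts) :
    (pL _ _).1 ((actY (r4_G α₁ α₂ γ₁ γ₂)).1 x) ∈ jB k q ↔ (pL _ _).1 x ∈ jB k q := by
  simp [jB, r4_G]

lemma r4_inv_Z (α₁ α₂ : (Fq k q)ˣ) (γ₁ γ₂ : Fq k q)
    (x : (Yv k q (Sum.elim (fun b : Bool => b) fun _ : Bool => false)).pts) :
    (actY (r4_G α₁ α₂ γ₁ γ₂)).1 x ∈ jZ k q ↔ x ∈ jZ k q := by
  by_cases hB : (pL _ _).1 x ∈ jB k q
  · exact iff_of_true (Or.inl ((r4_inv_B _ _ _ _ x).2 hB)) (Or.inl hB)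
  · obtain ⟨f1, f2, -⟩ := r4_notB hB
    simp only [co_pL] at f1 f2
    refine or_congr (r4_inv_B _ _ _ _ x) ?_
    simp only [co_actY, isFin_lin]
    refine and_congr_right fun hf => ?_
    rw [ax_lin, ax_lin, ax_lin, ax_lin, ay_lin _ f1, ay_lin _ f2, ay_lin _ (hf true),
      ay_lin _ (hf false)]
    have h1 := (ofFqUnit α₁).ne_zero
    have h2 := (ofFqUnit α₂).ne_zero
    simp only [r4_G, gD_val, gF_val, map_one, Units.val_one, one_mul, toAdd_one, add_zero,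
      toAdd_ofAdd]
    refine and_congr ?_ (and_congr ?_ ?_)
    · rw [mul_left_comm, mul_right_inj' h1]
    · rw [mul_left_comm, mul_right_inj' h2]
    · push_cast
      constructor <;> intro h <;> linear_combination h

end aux

variable {k : Type u} [Field k] [IsAlgClosed k] {q : ℕ} [IsQ k q] {K : Type v} [Field K]
  [CharZero K] [IsAlgClosed K] {ι ι' ι₁ ι₂ : Type} [Fintype ι] [Fintype ι'] [Fintype ι₁] [Fintype ι₂]
  {τ : ι → Bool} {τ' : ι' → Bool} {τ₁ : ι₁ → Bool} {τ₂ : ι₂ → Bool}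

namespace Weil

variable (W : Weil.{u, v, w} k K)

theorem rel_jacobi {ω₁ ω₂ : MulChar (Fq k q) K} {ψ : AddChar (Fq k q) K} (h₁ : ω₁ ≠ 1)
    (h₂ : ω₂ ≠ 1) (h : ω₁ * ω₂ ≠ 1) (hψ : ψ ≠ 1) :
    W.AlgM {Fl ω₁⁻¹ ω₂⁻¹, Dl (ω₁ * ω₂)⁻¹ ψ⁻¹, Dl ω₁ ψ, Dl ω₂ ψ} := by
  let β₁ : Bool → Lb k q K := fun b => bif b then .ch ω₁ ω₂ 1 else .ch (ω₁ * ω₂) 1 ψ
  have hβ₁ : ∀ i, (β₁ i).Ok ((fun b : Bool => b) i) := by
    rintro (_ | _)
    · exact ⟨h, rfl, hψ⟩
    · exact ⟨h₁, h₂, h, rfl⟩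
  obtain ⟨b₁, hb₁, b₂, hb₂, hb⟩ := W.exists_pair hβ₁
  obtain ⟨α, hα⟩ := MulChar.ne_one_iff.1 h
  have hα' : (ω₁ * ω₂)⁻¹ α ≠ 1 := by rwa [MulChar.inv_apply_eq_inv', inv_ne_one]
  have c₁ : ∀ (a a' z : (Fq k q)ˣ), W.pull (actY (r4_g (gF a a') (gD z 0))) b₁ =
      (ω₁ a * ω₂ a' * (ω₁ * ω₂) z) • b₁ := fun a a' z => by
    rw [W.actY_Lin _ _ hb₁, Fintype.prod_bool]
    simp [β₁, Lb.chr, r4_g]
  have c₂ : ∀ (a a' z : (Fq k q)ˣ), W.pull (actY (r4_g (gF a a') (gD z 0))) b₂ =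
      (ω₁⁻¹ a * ω₂⁻¹ a' * (ω₁ * ω₂)⁻¹ z) • b₂ := fun a a' z => by
    rw [W.actY_Lin _ _ hb₂, Fintype.prod_bool]
    simp [β₁, Lb.chr, Lb.du, r4_g]
  obtain ⟨ζ, hζ, hinv, c, hc⟩ := W.composition (τS := fun b : Bool => b)
    (τM := fun _ : Bool => false) rfl (jZ k q) isClosed_jZ (r4_A k q) r4_A_finite (jB k q) r4_hB
    b₁ b₂ (by simpa [β₁, Lb.deg] using W.Lin_le_gr _ hb₁)
    (by simpa [β₁, Lb.deg, Lb.du] using W.Lin_le_gr _ hb₂) hb
    (by
      rintro _ (⟨P, hP, rfl⟩ | ⟨P, hP, rfl⟩)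
      · refine ⟨actY (r4_g (gF α α) (gD 1 0)), _, actY_inv _, fun s e => Yv_ext fun i => ?_,
          _, _, ?_, ?_, c₁ _ _ _, c₂ _ _ _⟩
        · cases i
          · show lin (gD 1 0).1 (co s false) = co s false
            rw [gD_one]
            exact lin_one _
          · show lin (gF α α).1 (co s true) = co s true
            rw [show co s true = P from e]
            exact r4_fix_fermat α hP.1 hP.2
        · simpa using hα
        · rw [mul_inv, MulChar.mul_apply] at hα'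
          simpa using hα'
      · refine ⟨actY (r4_g (gF 1 1) (gD α 0)), _, actY_inv _, fun s e => Yv_ext fun i => ?_,
          _, _, ?_, ?_, c₁ _ _ _, c₂ _ _ _⟩
        · cases i
          · show lin (gD α 0).1 (co s false) = co s false
            rw [show co s false = P from e]
            exact r4_fix_dh α hP.1 hP.2
          · show lin (gF 1 1).1 (co s true) = co s true
            rw [gF_one]
            exact lin_one _
        · simpa using hα
        · simpa using hα')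
    (range fun z : (Fq k q)ˣ => actY (r4_g (gF z⁻¹ z⁻¹) (gD z 0))) (finite_range _)
    (fun s s' μ hs hs' e e' => by
      obtain ⟨z, hz⟩ := r4_fib hs hs' e e'
      exact ⟨_, ⟨z, rfl⟩, hz⟩)
    (by
      rintro _ ⟨z, rfl⟩
      refine Or.inr ?_
      have e : ω₁⁻¹ ((z⁻¹ : (Fq k q)ˣ) : Fq k q) * ω₂⁻¹ ((z⁻¹ : (Fq k q)ˣ) : Fq k q) *
          (ω₁ * ω₂)⁻¹ z = 1 := by
        rw [← MulChar.mul_apply, ← mul_inv, ← map_mul, Units.inv_mul, map_one]
      rw [c₂, e, one_smul])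
    (fun s hs => r4_surj hs)
  obtain ⟨β₂, hβ₂, y, hy, hne⟩ := W.exists_Lin_of_pair hb₁ hc
  have key : ∀ (α₁ α₂ : (Fq k q)ˣ) (γ₁ γ₂ : Fq k q), ω₁ α₁ * ω₂ α₂ * ψ (γ₁ + γ₂) *
      (((β₂ true).chr false (gD α₁ γ₁) : K) * (β₂ false).chr false (gD α₂ γ₂)) = 1 := by
    intro α₁ α₂ γ₁ γ₂
    have e := hinv (actY (r4_G α₁ α₂ γ₁ γ₂)) _ (actY_inv _) (actY_inv' _) (r4_inv_Z _ _ _ _)
      (r4_inv_B _ _ _ _) y
    rw [W.actY_Lin _ _ hy, mul_smul_comm, map_smul, smul_eq_mul, mul_eq_right₀ hne,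
      Fintype.prod_sum_type, Fintype.prod_bool, Fintype.prod_bool] at e
    have e' : ((ch true ω₁ ω₂ 1 (gF α₁ α₂) : K) * ch false (ω₁ * ω₂) 1 ψ (gD 1 (γ₁ + γ₂))) *
      (((β₂ true).chr false (gD α₁ γ₁) : K) * (β₂ false).chr false (gD α₂ γ₂)) = 1 := e
    rwa [ch_gF, ch_gD, Units.val_one, map_one, one_mul] at e'
  have e₁ : β₂ true = .ch ω₁⁻¹ 1 ψ⁻¹ := by
    refine Lb.eq_ch_of_chr (b := false) (hβ₂ true) ⟨inv_ne_one.2 h₁, rfl, inv_ne_one.2 hψ⟩
      (chD_ext fun a g => ?_)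
    have e := key a 1 g 0
    rw [gD_one, map_one, Units.val_one, Units.val_one, map_one, mul_one, mul_one, add_zero] at e
    rw [ch_gD, MulChar.inv_apply_eq_inv', AddChar.inv_apply, AddChar.map_neg_eq_inv, ← mul_inv]
    exact eq_inv_of_mul_eq_one_right e
  have e₂ : β₂ false = .ch ω₂⁻¹ 1 ψ⁻¹ := by
    refine Lb.eq_ch_of_chr (b := false) (hβ₂ false) ⟨inv_ne_one.2 h₂, rfl, inv_ne_one.2 hψ⟩
      (chD_ext fun a g => ?_)
    have e := key 1 a 0 g
    rw [gD_one, map_one, Units.val_one, Units.val_one, map_one, one_mul, one_mul, zero_add] at e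
    rw [ch_gD, MulChar.inv_apply_eq_inv', AddChar.inv_apply, AddChar.map_neg_eq_inv, ← mul_inv]
    exact eq_inv_of_mul_eq_one_right e
  have hOk : ∀ s, ((fun s => (Sum.elim β₁ β₂ s).du) s).Ok
      (Sum.elim (fun b : Bool => b) (fun _ : Bool => false) s) := by
    rintro (s | s)
    · exact (hβ₁ s).du
    · exact (hβ₂ s).du
  have hF := W.algF_of_pair hOk hζ (by simpa only [Lb.du_du] using hy) hne
  have hM := (W.algM_iff hOk).2 hF
  convert hM using 1
  have eu : (Finset.univ : Finset (Bool ⊕ Bool)).val =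
      {Sum.inl true, Sum.inl false, Sum.inr true, Sum.inr false} := by decide
  rw [eu]
  simp [β₁, e₁, e₂, Lb.du, Fl, Dl]

end Weil

end Pool.Agent.MP_0c8446_ag

end

section

namespace Pool.Agent.MP_0c8446_ag

open Set

universe u v w

variable {k : Type u} [Field k] [IsAlgClosed k] {K : Type v} [Field K] [CharZero K]

namespace Weil

variable (W : Weil.{u, v, w} k K)

theorem algF_dual [IsAlgClosed K] {p f q : ℕ} [Fact p.Prime] [IsQ k p] [IsQ k q] (hf : 0 < f)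
    (hq : q = p ^ f) (hk : ∀ x : k, ∃ r, 0 < r ∧ x ^ q ^ r = x) {ι : Type} [Fintype ι]
    {τ : ι → Bool} {β : ι → Lb k q K} (hβ : ∀ i, (β i).Ok (τ i)) (h : W.AlgF τ β) :
    W.AlgF τ fun i => (β i).du := by
  obtain ⟨B, hB1, hB2⟩ := dual_of_rel duT duT_duT (W.AlgM (q := q)) W.algM_zero
    (fun _ _ => W.algM_add) fun _ _ => W.algM_contr
  let c : Bool × Lb k q K → FreeAbelianGroup (Bool × Lb k q K) ⧸ B :=
    fun t => QuotientAddGroup.mk' B (FreeAbelianGroup.of t)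
  have hc : ∀ M : Multiset (Bool × Lb k q K), (M.map c).sum =
      QuotientAddGroup.mk' B (M.map FreeAbelianGroup.of).sum := fun M => by
    rw [map_multiset_sum, Multiset.map_map]
    rfl
  have hz : ∀ M, W.AlgM M → W.AlgM (M.map duT) → (M.map c).sum = 0 := fun M h1 h2 => by
    rw [hc]
    exact (QuotientAddGroup.eq_zero_iff _).2 (hB1 M h1 h2)
  obtain ⟨a, ha, b, hb, hab⟩ := W.exists_pair hβ
  obtain ⟨R, n, hR, hn⟩ := W.frob_nat hk (h ha) hab (W.frobY_Lin (fun i => (hβ i).du) hb)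
  obtain ⟨N, hN, h0⟩ := mainA hf hq c
    (fun b => by simpa using hz _ (W.algM_one b) (W.algM_pt b))
    (fun b => by simpa using hz _ (W.algM_pt b) (W.algM_one b))
    (fun ω ψ ψ' h1 h2 h3 => by
      simpa using hz _ (W.rel_shift h1 h2 h3) (by
        simpa using W.rel_shift (inv_ne_one.2 h1) (inv_ne_one.2 h2) (inv_ne_one.2 h3)))
    (fun ω ψ h1 h2 => ⟨((W.rel_frob p h1 h2 h2).1 (Dl (ω ^ p) ψ) (by simp)).1, by
      simpa using hz _ (W.rel_frob p h1 h2 h2) (by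
        simpa using W.rel_frob p (inv_ne_one.2 h1) (inv_ne_one.2 h2) (inv_ne_one.2 h2))⟩)
    (fun ω₁ ω₂ ψ h1 h2 h3 h4 => by
      simpa [add_assoc] using hz _ (W.rel_jacobi h1 h2 h3 h4) (by
        simpa [mul_comm] using W.rel_jacobi (inv_ne_one.2 h1) (inv_ne_one.2 h2)
          (by rw [← mul_inv]; exact inv_ne_one.2 h3) (inv_ne_one.2 h4)))
    (fun d e ρ ω ψ h1 h2 h3 h4 h5 => by
      have h6 := hz _ (W.rel_hd h1 h2 h3 h4 h5) (by
        simpa [mul_comm] using W.rel_hd (ρ := ρ⁻¹) (ω := ω⁻¹) h1 h2 (by simpa using h3)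
          (by simpa using h4) (inv_ne_one.2 h5))
      simp only [Multiset.map_add, Multiset.sum_add, Multiset.map_map, Multiset.map_singleton,
        Multiset.sum_singleton] at h6
      rw [Finset.sum_eq_multiset_sum, Finset.sum_eq_multiset_sum, Finset.erase_val,
        Finset.range_val]
      exact h6)
    τ (fun i => (β i).du) (fun i => (hβ i).du) hR hn
  have h1 : ∀ i, c (τ i, (β i).du) = -c (τ i, β i) := fun i => by
    have := hz _ (W.algM_diag (t := (τ i, β i)) (hβ i)) (by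
      simpa using W.algM_diag (t := duT (τ i, β i)) (hβ i).du)
    simp only [Multiset.insert_eq_cons, Multiset.map_cons, Multiset.map_singleton,
      Multiset.sum_cons, Multiset.sum_singleton] at this
    exact eq_neg_of_add_eq_zero_right this
  simp only [h1, Finset.sum_neg_distrib, smul_neg, neg_eq_zero] at h0
  have h2 := hB2 _ N hN ((W.algM_iff hβ).2 h) (by
    rw [← QuotientAddGroup.eq_zero_iff, ← QuotientAddGroup.mk'_apply, map_nsmul, ← hc,
      Multiset.map_map]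
    exact h0)
  rw [Multiset.map_map] at h2
  exact (W.algM_iff fun i => (hβ i).du).1 h2

theorem eq_zero_Yv [IsAlgClosed K] {p f q : ℕ} [Fact p.Prime] [IsQ k p] [IsQ k q] (hf : 0 < f)
    (hq : q = p ^ f) (hk : ∀ x : k, ∃ r, 0 < r ∧ x ^ q ^ r = x) {ι : Type} [Fintype ι]
    {τ : ι → Bool} {a : W.H (Yv k q τ)} (ha : a ∈ W.Alg _)
    (h : ∀ z ∈ W.Alg _, W.tr _ (a * z) = 0) : a = 0 := by
  obtain ⟨s, c, hs, rfl⟩ := W.exists_decomp a
  refine Finset.sum_eq_zero fun β hβ => ?_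
  by_contra h0
  obtain ⟨hok, hc⟩ := hs β hβ
  have h1 : W.AlgF τ β := by
    obtain ⟨u, hu⟩ := W.Lin_eq_span hok
    have h2 := W.mem_Alg_of_sum s c hs ha β hβ
    rw [AlgF, hu, Submodule.span_singleton_le_iff_mem]
    rw [hu, Submodule.mem_span_singleton] at hc
    obtain ⟨x, hx⟩ := hc
    have hx0 : x ≠ 0 := by rintro rfl; exact h0 (by simp [← hx])
    rwa [← hx, Submodule.smul_mem_iff _ hx0] at h2
  obtain ⟨b, hb, h2⟩ := W.tr_ne_zero_of_Lin hok hc h0
  have h3 := h b (W.algF_dual hf hq hk hok h1 hb)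
  rw [Finset.sum_mul, map_sum, Finset.sum_eq_single β] at h3
  · exact h2 h3
  · intro β' hβ' hne
    refine W.tr_Lin_eq_zero (hs β' hβ').1 (fun i => (hok i).du) (fun e => hne ?_) (hs β' hβ').2 hb
    funext i
    simpa using (congrArg Lb.du (congrFun e i)).symm
  · exact fun h4 => absurd hβ h4

omit [IsAlgClosed k] [CharZero K] in
lemma cycleClass_mem {X : Var k} {j : ℕ} {α : Set X.pts →₀ ℚ} (hα : IsCycle j α) :
    W.cycleClass α ∈ W.Alg X ∧ W.cycleClass α ∈ W.gr X (2 * j) := by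
  refine ⟨Submodule.sum_mem _ fun Z hZ => Submodule.smul_mem _ _ (W.cl_mem_Alg (hα Z hZ).1),
    Submodule.sum_mem _ fun Z hZ => Submodule.smul_mem _ _ ?_⟩
  have := W.cl_gr X Z (hα Z hZ).1
  rwa [← (hα Z hZ).2, Nat.add_sub_cancel_left] at this

omit [CharZero K] in
lemma tr_cycleClass {X : Var k} {j : ℕ} {α : Set X.pts →₀ ℚ} (hα : IsCycle j α)
    (hnum : ∀ β, IsCycle (X.d - j) β → W.tr X (W.cycleClass α * W.cycleClass β) = 0)
    {Z : Set X.pts} (hZ : IsSub Z) : W.tr X (W.cl X Z * W.cycleClass α) = 0 := by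
  by_cases hd : dim Z = j
  · have := hnum (Finsupp.single Z 1) fun Z' hZ' => by
      obtain rfl : Z' = Z := Finset.mem_singleton.1 (Finsupp.support_single_subset hZ')
      have := X.dim_le Z'
      exact ⟨hZ, by omega⟩
    rw [W.cl_comm hZ]
    simpa [cycleClass, Finsupp.sum_single_index] using this
  · exact W.tr_cl_mul_gr hZ (W.cycleClass_mem hα).2 (by omega)

end Weil

omit [IsAlgClosed k] in
lemma main_iter {x : k} {e : ℕ} (hx : x ^ e = x) (f : ℕ) : x ^ e ^ f = x := by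
  induction f with
  | zero => simp
  | succ f ih => rw [pow_succ, pow_mul, ih, hx]

end Pool.Agent.MP_0c8446_ag

end
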