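import Pool.Agent.Mg.F0c8446.Ge46376
import Pool.Agent.Mg.F0c8446.G04484b
import Pool.Agent.Mg.F0c8446.G362861
import Pool.Agent.Mg.F0c8446.G19cc94
import Pool.Agent.Mg.F0c8446.G59af56
import Pool.Agent.Mg.F0c8446.G7257a1
import Pool.Agent.Mg.F0c8446.Gb6da35
import Pool.Agent.Mg.F0c8446.G2d3954
import Pool.Agent.Mg.F0c8446.G1ff22b
import Pool.Agent.Mg.F0c8446.G970445

section

namespace Pool.Agent.MP_0c8446_ag

open MvPolynomial Set Matrix

universe u v w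

variable {k : Type u} [Field k] [IsAlgClosed k] {n r : ℕ} {C : CD k n} {w : Fin r → ℕ × Bool}
  {N : Fin n → ℕ} (c : ∀ a : Fin n, Fin (N a + 1) ≃ (Fin (a + 1) → Fin n)) (h₁ h₂) (A : C.Anti)

omit [IsAlgClosed k] in
theorem CStr_x {Ω : Type u} [Field Ω] [Algebra k Ω] {g : Matrix (Fin n) (Fin n) Ω}
    (hg : SU C.alt g) : AU C.alt (A.η⁻¹.1.map (algebraMap k Ω) * g) ∧
      (A.η⁻¹.1.map (algebraMap k Ω) * g).det = algebraMap k Ω A.η⁻¹.1.det :=
  ⟨((A.au.of_mul A.η.mul_inv).map (algebraMap k Ω)).mul_isU hg.1, by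
    rw [det_mul, hg.2, mul_one]
    exact ((algebraMap k Ω).map_det _).symm⟩

omit [IsAlgClosed k] in
theorem CStr_sec {Ω : Type u} [Field Ω] [Algebra k Ω] (y : A.Y r)
    {g : Fin (r + 1) → Matrix (Fin n) (Fin n) Ω} {j : Fin (r + 1)} (hg : SU C.alt (g j)) :
    Rl Fin.val (A.η⁻¹.1.map (algebraMap k Ω) * A.sec y g j) ((g j).submatrix id (y.1.1 j)) := by
  have hu := (CStr_x A (A.su_sec y hg)).1.isUnit
  have e : A.η⁻¹.1.map (algebraMap k Ω) * A.sec y g j = g j * nu Ω (y.1.1 j) (y.1.2 j) := by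
    rw [CD.Anti.sec, ← Matrix.mul_assoc, ← Matrix.mul_assoc, ← Matrix.map_mul, A.η.inv_mul,
      Matrix.map_one _ (map_zero _) (map_one _), Matrix.one_mul]
  refine (rl_mul_nu hu _ (y.1.2 j)).1 ?_
  rw [← e]
  exact Rl.refl _ hu

omit [IsAlgClosed k] in
theorem CStr_mk (hw : C.Ok w) {Ω : Type u} [Field Ω] [Algebra k Ω] [IsAlgClosed Ω]
    {g g' H : Fin (r + 1) → Matrix (Fin n) (Fin n) Ω} (hg : C.Ch w g) (hg' : C.Ch w g')
    {y : Fin (r + 1) → Equiv.Perm (Fin n)} (hH : ∀ j, IsUnit (H j))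
    (h1 : ∀ j, Rl Fin.val (g j) (H j))
    (h2 : ∀ j, Rl Fin.val (A.η⁻¹.1.map (algebraMap k Ω) * g' j) ((H j).submatrix id (y j))) :
    ∃ (Y : A.Y r) (h : CS r n → Ω), Y.1.1 = y ∧ (C.fr (zC C.t w Y.1.1)).Fr h ∧
      ParOn univ (A.pt c Y h) (pvJoin (plV c g) (plV c g')) := by
  choose H' s1 s2 s3 _ using fun j => cbru_fix C.two C.ev (hg.1 j) (CStr_x A (hg'.1 j)).1 (hH j)
    (h1 j) (h2 j)
  choose D hD using fun j => cbru_nu C.ev (s1 j) (CStr_x A (hg'.1 j)).1 (s3 j)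
  have hD' : ∀ j, NuOK C.alt A.η⁻¹.1.det (y j) (D j) := fun j =>
    NuOK.of_map (algebraMap k Ω).injective ((CStr_x A (hg'.1 j)).2 ▸ hD j)
  exact ⟨⟨(y, D), hD'⟩, mkC H', rfl, A.fr_mk c ⟨(y, D), hD'⟩ hw hg hg' s1 s2 s3⟩

omit [IsAlgClosed k] in
theorem CStr_il (hw : C.Ok w) (y : A.Y r) {Ω Ω' : Type u} [Field Ω] [Algebra k Ω] [IsAlgClosed Ω]
    [Field Ω'] [Algebra k Ω'] [IsAlgClosed Ω'] (Pl : Place k Ω Ω')
    (v : Vars (Sum.elim (fun i : Fin (r + 1) × Fin n => N i.2)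
      fun i : Fin (r + 1) × Fin n => N i.2) → Ω) (h : CS r n → Ω)
    (hh : (C.fr (zC C.t w y.1.1)).Fr h) (hp : ParOn univ (A.pt c y h) v)
    (hO : ∀ a, v a ∈ Pl.O) (hz : NZb fun a => Pl.red (v a)) :
    (∃ (y' : A.Y r) (h' : CS r n → Ω'),
      ∑ j, ∑ a ∈ Finset.range (n + 1), ∑ b ∈ Finset.range (n + 1), dy (y.1.1 j) a b <
        ∑ j, ∑ a ∈ Finset.range (n + 1), ∑ b ∈ Finset.range (n + 1), dy (y'.1.1 j) a b ∧
      (C.fr (zC C.t w y'.1.1)).Fr h' ∧ ParOn univ (A.pt c y' h') fun a => Pl.red (v a)) ∨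
      ∃ h' : CS r n → Ω, (C.fr (zC C.t w y.1.1)).Fr h' ∧ ParOn univ (A.pt c y h') v ∧
        ∀ s, h' s ∈ Pl.O := by
  obtain ⟨c1, c2⟩ := (A.fr_iff y).1 hh
  choose G sG hG rG using fun j => Pl.exists_ciwasawa C.two C.ev (c1.1 j)
  choose G' sG' hG' rG' using fun j => Pl.exists_ciwasawa C.two C.ev (c2.1 j)
  have d1 := c1.congr hw sG rG
  have d2 := c2.congr hw sG' rG'
  have u1 := fun j => (c1.1 j).1.isUnit
  have u2 := fun j => (c2.1 j).1.isUnit
  have p1 : ParOn univ (pvJoin (plV c G) (plV c G')) v :=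
    (parOn_pvJoin.2 ⟨(parOn_plV c u1 fun j => (hG j).isUnit).2 rG,
      (parOn_plV c u2 fun j => (hG' j).isUnit).2 rG'⟩).symm.trans hp
  obtain ⟨o1, e1⟩ := Place.plV_red (Pl := Pl) c fun j => (hG j).1
  obtain ⟨o2, e2⟩ := Place.plV_red (Pl := Pl) c fun j => (hG' j).1
  have p2 : ParOn univ (pvJoin (plV c fun j => (G j).map Pl.red) (plV c fun j => (G' j).map Pl.red))
      fun a => Pl.red (v a) := by
    rw [← e1, ← e2, ← GStr_join]
    refine Pl.par_red p1 ?_ (fun a _ => hO a) ?_ fun i _ => hz i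
    · rintro ⟨i | i, s⟩ -
      exacts [o1 ⟨i, s⟩, o2 ⟨i, s⟩]
    · rintro (i | i) -
      · exact (e1 ▸ nzb_plV c (fun j => (hG j).2) :) i
      · exact (e2 ▸ nzb_plV c (fun j => (hG' j).2) :) i
  have hE : ∀ a b, A.η⁻¹.1.map (algebraMap k Ω) a b ∈ Pl.O := fun a b => Pl.O.algebraMap_mem _
  have hE' : (A.η⁻¹.1.map (algebraMap k Ω)).map Pl.red = A.η⁻¹.1.map (algebraMap k Ω') :=
    Matrix.ext fun a b => Pl.red_algebraMap _
  have hx : ∀ j, Pl.IG (A.η⁻¹.1.map (algebraMap k Ω) * G' j) := fun j =>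
    ((CStr_x A (sG' j)).1.red Pl (Pl.map_red_mul hE (hG' j).1).1).1
  have hx' : ∀ j, (A.η⁻¹.1.map (algebraMap k Ω) * G' j).map Pl.red =
      A.η⁻¹.1.map (algebraMap k Ω') * (G' j).map Pl.red := fun j =>
    hE' ▸ (Pl.map_red_mul hE (hG' j).1).2
  have uE : IsUnit (A.η⁻¹.1.map (algebraMap k Ω)) := RlA0_map _ A.η⁻¹.isUnit
  have f1 : ∀ j a b, Module.finrank Ω ↥(flg (G j) a ⊓ flg (A.η⁻¹.1.map (algebraMap k Ω) * G' j) b)
      = dy (y.1.1 j) a b :=
    fun j => finrank_flg_inf (hG j).isUnit (hx j).isUnit (u1 j)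
      ((rG j).symm (u1 j) (hG j).isUnit)
      (((rl_mul_left uE).2 ((rG' j).symm (u2 j) (hG' j).isUnit)).trans (CStr_sec A y (c1.1 j))
        (uE.mul (u2 j)))
  choose y' H hH rH rH' using fun j => exists_bruhat (hG j).2 (hx j).2
  have f2 := fun j => finrank_flg_inf (hG j).2 (hx j).2 (hH j) (rH j) (rH' j)
  have le : ∀ j a b, dy (y.1.1 j) a b ≤ dy (y' j) a b := fun j a b =>
    f1 j a b ▸ f2 j a b ▸ Place.finrank_flg_le (hG j) (hx j) a b
  have le2 : ∀ j a, ∑ b ∈ Finset.range (n + 1), dy (y.1.1 j) a b ≤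
      ∑ b ∈ Finset.range (n + 1), dy (y' j) a b := fun j a => Finset.sum_le_sum fun b _ => le j a b
  have le3 : ∀ j, ∑ a ∈ Finset.range (n + 1), ∑ b ∈ Finset.range (n + 1), dy (y.1.1 j) a b ≤
      ∑ a ∈ Finset.range (n + 1), ∑ b ∈ Finset.range (n + 1), dy (y' j) a b :=
    fun j => Finset.sum_le_sum fun a _ => le2 j a
  rcases (Finset.sum_le_sum (s := Finset.univ) fun j _ => le3 j).eq_or_lt with e | e
  · right
    have eq : ∀ j, ∀ a ≤ n, ∀ b ≤ n, dy (y.1.1 j) a b = dy (y' j) a b := fun j a ha b hb =>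
      (Finset.sum_eq_sum_iff_of_le fun b _ => le j a b).1
        ((Finset.sum_eq_sum_iff_of_le fun a _ => le2 j a).1
          ((Finset.sum_eq_sum_iff_of_le fun j _ => le3 j).1 e j (Finset.mem_univ j)) a
          (Finset.mem_range.2 (Nat.lt_succ_of_le ha))) b (Finset.mem_range.2 (Nat.lt_succ_of_le hb))
    choose M hM rM rM' using fun j => Place.exists_bruhat (hG j) (hx j)
      (fun a _ b _ => f1 j a b) fun a ha b hb => (f2 j a b).trans (eq j a ha b hb).symm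
    choose M' s1 s2 s3 s4 using fun j => cbru_fix C.two C.ev (sG j) (CStr_x A (sG' j)).1
      (hM j).isUnit (rM j) (rM' j)
    obtain ⟨g1, g2⟩ := A.fr_mk c y hw d1 d2 s1 s2 s3
    exact ⟨_, g1, g2.trans p1, fun s => (s4 s.1 Ω' Pl (hM s.1)).1 s.2.1 s.2.2⟩
  · obtain ⟨Y, h', eY, g1, g2⟩ := CStr_mk c A hw (d1.red Pl fun j => (hG j).1)
      (d2.red Pl fun j => (hG' j).1) hH rH fun j => hx' j ▸ rH' j
    exact Or.inl ⟨Y, h', eY ▸ e, g1, g2.trans p2⟩

/-- Pairs of chains are stratified by their relative positions. -/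
theorem CD.Anti.strat (hw : C.Ok w) :
    ((C.stage w c h₁ h₂).prod ((C.stage w c h₁ h₂).comap A.θ)).Strat
      (fun y : A.Y r =>
        ∑ j, ∑ a ∈ Finset.range (n + 1), ∑ b ∈ Finset.range (n + 1), dy (y.1.1 j) a b)
      (fun y => C.fr (zC C.t w y.1.1)) fun y => A.pt c y X := by
  refine ⟨fun y Ω _ _ h hh => ?_, fun y i γ Ω _ _ h _ s => ?_, fun Ω _ _ _ v hv => ?_,
    fun y Ω Ω' _ _ _ _ _ _ Pl v h hh hp hO hz => ?_⟩
  · exact (A.evs_pt c y h).symm ▸
      on_pvJoin (CD.stage_on ((A.fr_iff y).1 hh).1) (CD.stage_on ((A.fr_iff y).1 hh).2)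
  · have e1 : ∀ (h : CS r n → Ω) a, aeval h (A.pt c y (X : CS r n → MvPolynomial (CS r n) k) a) =
        A.pt c y h a := fun h a => congrFun (A.evs_pt c y h) a
    refine (e1 _ _).trans (Eq.trans ?_ (Finset.sum_congr rfl fun s' _ => congrArg _ (e1 h _).symm))
    refine (congrArg (fun h => A.pt c y h ⟨i, s⟩) (evs_clAct γ.1.1 h)).trans ?_
    rcases i with i | i
    · exact congrFun (plV_mul c γ.1.1 (cM h)) ⟨i, s⟩
    · exact (congrArg (fun g => plV c g ⟨i, s⟩) (funext (A.sec_act y γ (cM h)))).trans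
        (congrFun (plV_mul c (A.θ γ).1.1 (A.sec y (cM h))) ⟨i, s⟩)
  · obtain ⟨a, b⟩ := on_pv_iff.1 hv
    obtain ⟨g, hg, pg⟩ := CD.stage_lift a
    obtain ⟨g', hg', pg'⟩ := CD.stage_lift b
    choose y H hH rH rH' using fun j => exists_bruhat (hg.1 j).1.isUnit
      (CStr_x A (hg'.1 j)).1.isUnit
    obtain ⟨Y, h, -, g1, g2⟩ := CStr_mk c A hw hg hg' hH rH rH'
    refine ⟨Y, h, g1, ?_⟩
    have := g2.trans (parOn_pvJoin.2 ⟨pg, pg'⟩)
    rw [← A.evs_pt] at this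
    exact (GStr_eta v) ▸ this
  · rcases CStr_il c A hw y Pl v h hh ((A.evs_pt c y h) ▸ hp) hO hz with
      ⟨y', h', a, b, d⟩ | ⟨h', a, b, d⟩
    · exact Or.inl ⟨y', h', a, b, (A.evs_pt c y' h').symm ▸ d⟩
    · exact Or.inr ⟨h', a, (A.evs_pt c y h').symm ▸ b, d⟩

end Pool.Agent.MP_0c8446_ag

end

section

namespace Pool.Agent.MP_0c8446_ag

open MvPolynomial Set Matrix

universe u v w

variable {k : Type u} [Field k] {n r : ℕ} {C : CD k n} {w : Fin r → ℕ × Bool} {N : Fin n → ℕ}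
  (c : ∀ a : Fin n, Fin (N a + 1) ≃ (Fin (a + 1) → Fin n)) (A : C.Anti) (y : A.Y r)

theorem CTow_col {Ω : Type u} [Field Ω] [Algebra k Ω] (h : CS r n → Ω)
    (a : Fin (r + 1) × Fin n) :
    evs (k := k) h (fun i => X (a.1, i, a.2)) = fun i => cM h a.1 i a.2 := by
  funext i
  simp [evs, cM]

theorem CTow_move (hw : C.Ok w) {Ω : Type u} [Field Ω] [Algebra k Ω] {h : CS r n → Ω}
    (hh : (C.fr (zC C.t w y.1.1)).Fr h) (a : Fin (r + 1) × Fin n)
    {E : Matrix (Fin n) (Fin n) Ω} (hE : Sg C.alt Fin.val (Fin.val ∘ (y.1.1 a.1).symm) E)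
    (h1 : ∀ a', a' < a.2 → ∀ c, E c a' = if c = a' then 1 else 0) :
    ∃ h' : CS r n → Ω, (C.fr (zC C.t w y.1.1)).Fr h' ∧ ParOn univ (A.pt c y h) (A.pt c y h') ∧
      cM h' a.1 = cM h a.1 * E ∧
      (∀ a' : Fin (r + 1) × Fin n, (a'.1 : ℕ) * n + a'.2 < a.1 * n + a.2 →
        evs (k := k) h' (fun i => X (a'.1, i, a'.2)) = evs (k := k) h fun i => X (a'.1, i, a'.2)) ∧
      ∀ O : Subalgebra k Ω, (∀ s, h s ∈ O) → (∀ a b, E a b ∈ O) → ∀ s, h' s ∈ O := by
  have H := A.fr_move c y hw hh (m := fun j' => if j' = a.1 then E else 1) fun j' => by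
    split_ifs with e
    · rw [e]; exact hE
    · exact ⟨su_one, blockTriangular_one, blockTriangular_one⟩
  refine ⟨_, H.1, H.2, by simp, fun a' ha => ?_, fun O hO o1 => ?_⟩
  · rw [CTow_col, CTow_col, cM_mkC]
    by_cases c1 : a'.1 = a.1
    · rw [c1] at ha ⊢
      funext i
      simp [Matrix.mul_apply, h1 a'.2 (Nat.lt_of_add_lt_add_left ha)]
    · simp [c1]
  · rintro ⟨j', b, d⟩
    change (cM h j' * if j' = a.1 then E else 1) b d ∈ O
    split_ifs
    · rw [Matrix.mul_apply]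
      exact O.sum_mem fun l _ => O.mul_mem (hO _) (o1 _ _)
    · rw [mul_one]
      exact hO _

theorem CTow_dir {Ω : Type u} [Field Ω] (two : (2 : Ω) ≠ 0) {alt : Bool}
    {g g' : Matrix (Fin n) (Fin n) Ω} (hg : IsU alt g) {z : Fin n → Fin n}
    (hz : Function.Injective z) (h1 : Sg alt Fin.val (Fin.val ∘ z) (adj alt g * g')) (a : Fin n)
    (h2 : ∀ b, b < a → ∀ i, g i b = g' i b) :
    ∃ t : Ω, t ≠ 0 ∧ (¬ a < a.rev → t = 1) ∧ (fun i => g' i a) - t • (fun i => g i a) ∈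
      Submodule.span Ω ((fun b i => g i b) '' (preC alt z a : Set (Fin n))) := by
  have e : g' = g * (adj alt g * g') := by rw [← mul_assoc, hg.mul_adj, one_mul]
  obtain ⟨h3, h4, h5⟩ := su_dir two hz h1 (a := a) fun b hb d => by
    rw [← Matrix.one_apply (α := Ω), ← hg.adj_mul, Matrix.mul_apply, Matrix.mul_apply]
    simp only [h2 b hb]
  generalize adj alt g * g' = m at h3 h4 h5 e
  refine ⟨m a a, h3, h4, ?_⟩
  have e2 : (fun i => g' i a) - m a a • (fun i => g i a) =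
      ∑ b ∈ Finset.univ.erase a, m b a • fun i => g i b := by
    funext i
    rw [e, Pi.sub_apply, Matrix.mul_apply, ← Finset.add_sum_erase _ _ (Finset.mem_univ a),
      Finset.sum_apply]
    simp [mul_comm]
  rw [e2]
  refine Submodule.sum_mem _ fun b hb => ?_
  by_cases h0 : b ∈ preC alt z a
  · exact Submodule.smul_mem _ _ (Submodule.subset_span ⟨b, h0, rfl⟩)
  · rw [h5 b (Finset.ne_of_mem_erase hb) h0, zero_smul]
    exact Submodule.zero_mem _

theorem CD.Anti.tow (hw : C.Ok w) : (C.fr (zC C.t w y.1.1)).Tow2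
    (fun Ω _ _ _ (h h' : CS r n → Ω) => ParOn univ (A.pt c y h) (A.pt c y h')) C.std
    (fun (a : Fin (r + 1) × Fin n) i => X (a.1, i, a.2))
    (fun a => (preC C.alt (y.1.1 a.1).symm a.2).image fun b => (a.1, b))
    (fun a => a.1 * n + a.2) fun a => a.2 < a.2.rev := by
  refine ⟨fun a b e => ?_, fun a b hb => ?_, fun a γ Ω _ _ h _ s => ?_, fun a Ω _ _ h hh => ?_,
    fun a Ω _ _ _ h h' hh hh' e h0 => ?_, fun a b hb Ω _ _ _ h t hh => ?_,
    fun a ha Ω _ _ _ h t hh ht => ?_⟩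
  · have h1 := congrArg (· % n) e
    simp only [Nat.mul_add_mod_self_right, Nat.mod_eq_of_lt a.2.2, Nat.mod_eq_of_lt b.2.2] at h1
    simp only [h1, Nat.add_right_cancel_iff] at e
    exact Prod.ext (Fin.ext (Nat.eq_of_mul_eq_mul_right C.pos e)) (Fin.ext h1)
  · obtain ⟨b', hb', rfl⟩ := Finset.mem_image.1 hb
    exact Nat.add_lt_add_left (Finset.mem_filter.1 hb').2.1 _
  · have e : ∀ h : CS r n → Ω, aeval (evs h (clAct γ.1.1 (X : CS r n → MvPolynomial (CS r n) k)))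
        (X (a.1, s, a.2) : MvPolynomial (CS r n) k) = ∑ s', C.std γ s s' •
          aeval h (X (a.1, s', a.2) : MvPolynomial (CS r n) k) := fun h => by
      rw [evs_clAct, aeval_X]
      simp [clAct, mkC, Matrix.mul_apply, cM, CD.std, Algebra.smul_def]
    exact e h
  · have hu := ((C.fr_iff.1 hh).1 a.1).1.isUnit
    have hf : ∀ b : (insert a ((preC C.alt (y.1.1 a.1).symm a.2).image fun b => (a.1, b)) :
        Finset _), b.1.1 = a.1 := fun b => by
      rcases Finset.mem_insert.1 b.2 with e | e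
      · rw [e]
      · obtain ⟨b', -, e⟩ := Finset.mem_image.1 e
        rw [← e]
    have hi := (linearIndependent_cols_iff_isUnit.2 hu).comp (fun b => b.1.2) fun b b' e =>
      Subtype.ext (Prod.ext ((hf b).trans (hf b').symm) e)
    convert hi using 1
    funext b
    refine (CTow_col h b.1).trans ?_
    rw [hf b]
    rfl
  · have h1 := (C.fr_iff.1 hh).1
    have h2 := (C.fr_iff.1 hh').1
    obtain ⟨t, ht, h3, hs⟩ := CTow_dir (C.two' Ω) (h1 a.1).1 (y.1.1 a.1).symm.injective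
      ((A.parOn_pt c y h1 h2).1 e a.1) a.2 fun b hb i => congrFun
        ((CTow_col h (a.1, b)).symm.trans ((h0 (a.1, b) (Nat.add_lt_add_left hb _)).trans
          (CTow_col h' (a.1, b)))) i
    refine ⟨t, ht, h3, ?_⟩
    erw [CTow_col h a, CTow_col h' a]
    refine Submodule.span_mono ?_ hs
    rintro _ ⟨b, hb, rfl⟩
    exact ⟨(a.1, b), Finset.mem_coe.2 (Finset.mem_image_of_mem _ hb), CTow_col h (a.1, b)⟩
  · obtain ⟨b', hb', rfl⟩ := Finset.mem_image.1 hb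
    obtain ⟨E, e1, e2, e3, e4⟩ := su_mvA C.two C.ev (A.symm_rev y a.1) hb' t
    obtain ⟨h', f1, f2, f3, f4, f5⟩ := CTow_move c A y hw hh a e1 e3
    refine ⟨h', f1, f2, ?_, f4, fun O hO ht => f5 O hO (e4 O ht)⟩
    erw [CTow_col h a, CTow_col h' a, CTow_col h (a.1, b')]
    rw [f3]
    funext i
    simp [Matrix.mul_apply, e2, add_mul, Finset.sum_add_distrib, mul_comm (cM h a.1 i _)]
  · obtain ⟨E, e1, e2, e3, e4⟩ := su_mvG (k := k) (alt := C.alt) (z := (y.1.1 a.1).symm) ha ht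
    obtain ⟨h', f1, f2, f3, f4, f5⟩ := CTow_move c A y hw hh a e1 e3
    refine ⟨h', f1, f2, ?_, f4, fun O hO h1 h2 => f5 O hO (e4 O h1 h2)⟩
    erw [CTow_col h a, CTow_col h' a]
    rw [f3]
    funext i
    simp [Matrix.mul_apply, e2, mul_comm]

end Pool.Agent.MP_0c8446_ag

end

section

namespace Pool.Agent.MP_0c8446_ag

open MvPolynomial Set Matrix

universe u v w

section

variable {k : Type u} [Field k] {Ω : Type u} [Field Ω] {n r : ℕ} {alt t : Bool} {q : ℕ}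
  {g : Fin (r + 1) → Matrix (Fin n) (Fin n) Ω}

theorem CFin_evs [Algebra k Ω] (alt t : Bool) (q : ℕ) (h : CS r n → Ω) :
    evs h (fun s : Fin (r + 1) × Fin n × Fin n =>
      ddC alt t q (cM (X : CS r n → MvPolynomial (CS r n) k)) s.1 s.2.1 s.2.2) =
      mkC (ddC alt t q (cM h)) :=
  funext fun s => aeval_ddC alt t q h s.1 s.2.1 s.2.2

theorem CFin_nx (t : Bool) (q : ℕ) (h1 : ∀ j, SU alt (g j)) (j : Fin (r + 1)) :
    nxC t q g j = g j * ddC alt t q g j := by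
  rw [ddC, ← mul_assoc, (h1 j).1.mul_adj, one_mul]

theorem CFin_ch (t : Bool) (q : ℕ) (h1 : ∀ j, SU alt (g j)) (j : Fin (r + 1)) :
    g j = g 0 * Fin.partialProd (ddC alt t q g) j.castSucc := by
  induction j using Fin.induction with
  | zero => simp
  | succ j ih =>
    rw [← Fin.succ_castSucc, Fin.partialProd_succ, ← mul_assoc, ← ih, ← CFin_nx t q h1,
      nxC_castSucc]

theorem CFin_lang (t : Bool) (q : ℕ) (h1 : ∀ j, SU alt (g j)) :
    frC t q (g 0) = g 0 * Fin.partialProd (ddC alt t q g) (Fin.last _) := by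
  rw [← nxC_last, CFin_nx t q h1, CFin_ch t q h1 (Fin.last r), ← Fin.succ_last,
    Fin.partialProd_succ, mul_assoc]

theorem CFin_pi [Algebra k Ω] [IsAlgClosed Ω] {Z : Fin (r + 1) → Fin n → Fin n → Prop} :
    (Fam.pi fun j => dFam k alt (Z j)) Ω (mkC g) ↔
      (∀ j, SU alt (g j)) ∧ ∀ j a b, Z j a b → g j a b = 0 := forall_and

theorem CFin_su (h1 : ∀ j, SU alt (g j)) (j : Fin (r + 2)) : SU alt (Fin.partialProd g j) :=
  GFin_prod (M := Matrix (Fin n) (Fin n) Ω) (P := fun A => SU alt A) su_one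
    (fun _ _ a b => a.mul b) (d := g) h1 j

end

variable {k : Type u} [Field k] [IsAlgClosed k] {n r : ℕ} (C : CD k n)

/-- The quotient of the frames by the finite group is given by the transition matrices. -/
theorem CD.quotF (Z : Fin (r + 1) → Fin n → Fin n → Prop) :
    (C.fr Z).QuotF (fun s : Fin (r + 1) × Fin n × Fin n =>
      ddC C.alt C.t C.q (cM (X : CS r n → MvPolynomial (CS r n) k)) s.1 s.2.1 s.2.2)
      (Fam.pi fun j => dFam k C.alt (Z j)) := by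
  refine ⟨fun Ω _ _ _ h hh => ?_, fun γ Ω _ _ h _ => ?_, fun Ω _ _ _ h h' hh hh' e => ?_,
    fun Ω _ _ _ x hx => ?_, fun Ω Ω' _ _ _ _ _ _ Pl h hh hO => ?_⟩ <;> have := PQ.ext k C.q Ω
  · obtain ⟨h1, h2⟩ := C.fr_iff.1 hh
    exact (congrArg _ (CFin_evs (k := k) C.alt C.t C.q h)).mpr (CFin_pi.2 ⟨CD.su_ddC h1, h2⟩)
  · refine (CFin_evs C.alt C.t C.q _).trans ((congrArg mkC ?_).trans
      (CFin_evs C.alt C.t C.q h).symm)
    refine (congrArg (fun z => ddC C.alt C.t C.q (cM z)) (evs_clAct γ.1.1 h)).trans ?_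
    exact funext (C.ddC_mul γ (cM h))
  · have h1 := (C.fr_iff.1 hh).1
    have h2 := (C.fr_iff.1 hh').1
    have ed : ddC C.alt C.t C.q (cM h') = ddC C.alt C.t C.q (cM h) := congrArg cM
      ((CFin_evs C.alt C.t C.q h').symm.trans (e.symm.trans (CFin_evs C.alt C.t C.q h)))
    have e0 : cM h' 0 * adj C.alt (cM h 0) * cM h 0 = cM h' 0 := by
      rw [mul_assoc, (h1 0).1.adj_mul, mul_one]
    obtain ⟨γ, hγ⟩ := C.exists_Γ ((h2 0).mul (h1 0).adj) (by
      refine ((h1 0).frC (q := C.q) C.ht).1.isUnit.mul_right_cancel ?_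
      rw [← frC_mul, e0, CFin_lang C.t C.q h1, CFin_lang C.t C.q h2, ed, ← mul_assoc, e0])
    refine ⟨γ, ((evs_clAct γ.1.1 h).trans (congrArg mkC (funext fun j => ?_) : _ = mkC (cM h'))).symm⟩
    rw [hγ, CFin_ch C.t C.q h1 j, CFin_ch C.t C.q h2 j, ed, ← mul_assoc, e0]
  · replace hx := (CFin_pi (g := cM x)).1 hx
    have hp := CFin_su hx.1
    obtain ⟨a, ha, e⟩ := C.exists_lang (hp (Fin.last _))
    set g := fun j : Fin (r + 1) => a * Fin.partialProd (cM x) j.castSucc with hg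
    have h1 : ∀ j, SU C.alt (g j) := fun j => ha.mul (hp _)
    have ed : ddC C.alt C.t C.q g = cM x := by
      funext j
      have : nxC C.t C.q g j = g j * cM x j := by
        rw [hg, mul_assoc, ← Fin.partialProd_succ, ← hg]
        refine Fin.lastCases ?_ (fun j => ?_) j
        · rw [nxC_last, hg]
          simp only [Fin.castSucc_zero, Fin.partialProd_zero]
          rw [mul_one, e, Fin.succ_last]
        · rw [nxC_castSucc, hg, Fin.succ_castSucc]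
      rw [ddC, this, ← mul_assoc, (h1 j).1.adj_mul, one_mul]
    refine ⟨mkC g, C.fr_iff.2 ⟨h1, fun j a b hz => ?_⟩,
      (CFin_evs C.alt C.t C.q _).trans (congrArg mkC ed)⟩
    exact (congrFun (congrFun (congrFun ed j) a) b).trans (hx.2 j a b hz)
  · have h1 := (C.fr_iff.1 hh).1
    have hm : ∀ A B : Matrix (Fin n) (Fin n) Ω, (∀ c d, A c d ∈ Pl.O) → (∀ c d, B c d ∈ Pl.O) →
        ∀ c d, (A * B) c d ∈ Pl.O := fun A B hA hB c d => by
      rw [Matrix.mul_apply]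
      exact sum_mem fun s _ => mul_mem (hA c s) (hB s d)
    have hp := GFin_prod (P := fun A : Matrix (Fin n) (Fin n) Ω => ∀ c d, A c d ∈ Pl.O)
      (d := ddC C.alt C.t C.q (cM h)) (fun c d => by
        rw [Matrix.one_apply]
        split_ifs
        exacts [one_mem _, zero_mem _]) hm fun j c d =>
      (congrArg (· ∈ Pl.O) (congrFun (CFin_evs (k := k) C.alt C.t C.q h) (j, c, d))).mp
        (hO (j, c, d))
    have h0 := C.mem_of_lang Pl (CFin_lang C.t C.q h1) (hp _)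
    rintro ⟨j, a, b⟩
    exact (congrArg (· ∈ Pl.O) (congrFun (congrFun (CFin_ch C.t C.q h1 j) a) b)).mpr
      (hm _ _ h0 (hp _) a b)

end Pool.Agent.MP_0c8446_ag

end

section

namespace Pool.Agent.MP_0c8446_ag

open MvPolynomial Set

universe u v w

variable {k : Type u} [Field k] [IsAlgClosed k] {K : Type v} [Field K] [CharZero K]
  (W : Weil.{u, v, w} k K) {Γ : Type u} [Group Γ]

omit [IsAlgClosed k] in
theorem SplitB_aeval {α σ Ω : Type*} [CommRing Ω] [Algebra k Ω] (h : α → Ω)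
    (φ : σ → MvPolynomial α k) (p : MvPolynomial σ k) :
    aeval h (aeval φ p) = aeval (evs h φ) p := by
  rw [← AlgHom.comp_apply, comp_aeval]
  rfl

omit [IsAlgClosed k] in
theorem SplitB_evs {α σ τ Ω : Type*} [CommRing Ω] [Algebra k Ω] (h : α → Ω)
    (φ : σ → MvPolynomial α k) (t : τ → MvPolynomial σ k) :
    evs h (fun s => aeval φ (t s)) = evs (evs h φ) t :=
  funext fun s => SplitB_aeval h φ (t s)

omit [IsAlgClosed k] in
theorem FrD.QuotF.quot {D : FrD k Γ} {σ τ : Type} {φ : σ → MvPolynomial D.σ k} {R : Fam k σ}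
    (h : D.QuotF φ R) {t : τ → MvPolynomial σ k} {Dp : MvPolynomial τ k} (hc : Chart R t Dp) :
    D.Quot (fun s => aeval φ (t s)) Dp := by
  refine ⟨fun Ω _ _ _ x hx => ?_, fun Ω _ _ _ x x' hx hx' e => ?_, fun Ω _ _ _ y hy => ?_,
    fun Ω Ω' _ _ _ _ _ _ Pl x hx h1 h2 => ?_⟩
  · rw [SplitB_evs]
    exact hc.nv Ω _ (h.mem Ω x hx)
  · rw [SplitB_evs, SplitB_evs] at e
    exact h.fib Ω x x' hx hx' (hc.inj Ω _ _ (h.mem Ω x hx) (h.mem Ω x' hx') e)
  · obtain ⟨z, hz, rfl⟩ := hc.surj Ω y hy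
    obtain ⟨x, hx, rfl⟩ := h.surj Ω z hz
    exact ⟨x, hx, SplitB_evs _ _ _⟩
  · rw [SplitB_evs] at h1 h2
    exact h.val Ω Ω' Pl x hx (hc.val Ω Ω' Pl _ (h.mem Ω x hx) h1 h2)

omit [IsAlgClosed k] in
theorem SplitB_cut {D : FrD k Γ} {σ I : Type} [Finite I] {φ : σ → MvPolynomial D.σ k}
    {R : Fam k σ} (h : D.QuotF φ R) (f : I → MvPolynomial σ k) (hf) (T : I → Bool) :
    (D.cut (fun i => aeval φ (f i)) hf T).QuotF
      (Sum.elim (fun s => rename Sum.inl (φ s)) fun i => X (Sum.inr i) :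
        σ ⊕ I → MvPolynomial (D.σ ⊕ I) k) (R.cut f T) := by
  have el : ∀ {Ω : Type u} [Field Ω] [Algebra k Ω] (x : D.σ ⊕ I → Ω),
      evs x (Sum.elim (fun s => rename Sum.inl (φ s)) fun i => X (Sum.inr i) :
        σ ⊕ I → MvPolynomial (D.σ ⊕ I) k) =
      Sum.elim (evs (fun s => x (Sum.inl s)) φ) fun i => x (Sum.inr i) := by
    intro Ω _ _ x
    funext s
    rcases s with s | i
    · exact aeval_rename _ _ _
    · exact aeval_X _ _
  refine ⟨fun Ω _ _ _ x hx => ?_, fun γ Ω _ _ x hx => ?_, fun Ω _ _ _ x x' hx hx' e => ?_,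
    fun Ω _ _ _ y hy => ?_, fun Ω Ω' _ _ _ _ _ _ Pl x hx h1 => ?_⟩
  · obtain ⟨h1, h2⟩ := FrD.cut_iff.1 hx
    refine (congrArg (R.cut f T Ω) (el x)).mpr ⟨h.mem Ω _ h1, fun i => ?_⟩
    have h3 := h2 i
    rw [SplitB_aeval] at h3
    exact h3
  · obtain ⟨h1, -⟩ := FrD.cut_iff.1 hx
    refine (el _).trans (Eq.trans ?_ (el x).symm)
    congr 1
    · exact (congrArg (evs · φ) (evs_cutA_inl (D.act γ) x)).trans (h.inv γ Ω _ h1)
    · exact funext (evs_cutA_inr (D.act γ) x)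
  · replace e := (el x).symm.trans (e.trans (el x'))
    obtain ⟨γ, hγ⟩ := h.fib Ω _ _ (FrD.cut_iff.1 hx).1 (FrD.cut_iff.1 hx').1
      (funext fun s => congrFun e (Sum.inl s))
    refine ⟨γ, funext fun s => ?_⟩
    rcases s with s | i
    · exact congrFun (hγ.trans (evs_cutA_inl (D.act γ) x).symm) s
    · exact (congrFun e (Sum.inr i)).symm.trans (evs_cutA_inr (D.act γ) x i).symm
  · obtain ⟨x, hx, e⟩ := h.surj Ω _ hy.1
    refine ⟨Sum.elim x fun i => y (Sum.inr i), FrD.cut_iff.2 ⟨hx, fun i => ?_⟩,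
      (el _).trans (funext fun s => ?_)⟩
    · have h2 := hy.2 i
      rw [← e, ← SplitB_aeval] at h2
      exact h2
    · rcases s with s | i
      · exact congrFun e s
      · rfl
  · replace h1 := fun s => (congrArg (· ∈ Pl.O) (congrFun (el x) s)).mp (h1 s)
    rintro (s | i)
    · exact h.val Ω Ω' Pl _ (FrD.cut_iff.1 hx).1 (fun s => h1 (Sum.inl s)) s
    · exact h1 (Sum.inr i)

/-- If the quotient of the frames is cut into open subsets of affine spaces, the frames are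
good. -/
theorem Weil.good_cell {D : FrD k Γ} {σ : Type} {φ : σ → MvPolynomial D.σ k} {R : Fam k σ}
    (h : D.QuotF φ R) (hR : Cell R) (e : FRel k D.σ) : W.Good D e (range X) := by
  obtain ⟨I, _, f, hf⟩ := hR
  refine W.good_split (f := fun i => aeval φ (f i)) (fun γ Ω _ _ x hx => ?_) (fun T e' => ?_) e
  · rw [SplitB_evs, SplitB_evs, h.inv γ Ω x hx]
  · obtain ⟨τ, _, t, Dp, hc⟩ := hf T
    exact W.good_quot ((SplitB_cut h f _ T).quot hc) e'

end Pool.Agent.MP_0c8446_ag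

end

section

namespace Pool.Agent.MP_0c8446_ag

open MvPolynomial Set Matrix

universe u v w

variable {k : Type u} [Field k] [IsAlgClosed k] {n : ℕ} (C : CD k n)

omit [IsAlgClosed k] in
theorem cConj_conj {C : CD k n} (A A' : C.Anti) (h : (A.η * A'.η⁻¹).1.det = 1) (g : C.Γ) :
    IsConj (A'.θ g) (A.θ g) := by
  have h1 : AU C.alt A'.η⁻¹.1 := A'.au.of_mul A'.η.mul_inv
  have h2 : frC C.t C.q A'.η⁻¹.1 = A'.η⁻¹.1 := A'.η.isUnit.mul_left_cancel (by
    conv_lhs => rw [← A'.fr, ← frC_mul, A'.η.mul_inv, frC_one]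
    exact A'.η.mul_inv.symm)
  have h3 : A.η * A'.η⁻¹ ∈ C.Γ :=
    ⟨⟨A.au.mul_au h1, h⟩, by rw [Units.val_mul, frC_mul, A.fr, h2]⟩
  refine isConj_iff.2 ⟨⟨_, h3⟩, Subtype.ext ?_⟩
  change A.η * A'.η⁻¹ * (A'.η * g.1 * A'.η⁻¹) * (A.η * A'.η⁻¹)⁻¹ = A.η * g.1 * A.η⁻¹
  group

omit [IsAlgClosed k] in
theorem cConj_det {C : CD k n} (A A' : C.Anti) (h : A.η.1.det = A'.η.1.det) (g : C.Γ) :
    IsConj (A'.θ g) (A.θ g) := by
  refine cConj_conj A A' ?_ g
  rw [Units.val_mul, det_mul, h, ← det_mul, A'.η.mul_inv, det_one]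

omit [IsAlgClosed k] in
theorem cConj_inv {C : CD k n} {A : C.Anti} {g : C.Γ} (h : A.θ g = g⁻¹) : A.θ g⁻¹ = g := by
  rw [map_inv, h, inv_inv]

omit [IsAlgClosed k] in
theorem cConj_au (h : C.alt = false) {x : Matrix (Fin n) (Fin n) k} (hx : IsU C.alt x) :
    AU C.alt x := by
  have e : (jM k C.alt n)ᵀ = jM k C.alt n := by
    rw [jM_transpose C.ev, eps, if_neg (by simp [h]), one_smul]
  unfold AU
  rw [e]
  exact hx

/-- Every element is inverted by a rational anti-isometry. -/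
theorem CD.exists_mvw (g : C.Γ) : ∃ A : C.Anti, A.θ g = g⁻¹ := by
  obtain ⟨A, hA, -, hM, hF⟩ := exists_twist (Ω := k) (q := C.q) (n := n) C.ht
  have hd := (isUnit_iff_isUnit_det A).1 hA
  have e1 : A * A⁻¹ = 1 := mul_nonsing_inv A hd
  have e2 : A⁻¹ * A = 1 := nonsing_inv_mul A hd
  generalize A⁻¹ = B at *
  have c1 : ∀ x : Matrix (Fin n) (Fin n) k, A * (B * x) = x := fun x => by
    rw [← mul_assoc, e1, one_mul]
  have c2 : ∀ x : Matrix (Fin n) (Fin n) k, B * (A * x) = x := fun x => by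
    rw [← mul_assoc, e2, one_mul]
  have c3 : ∀ x : Matrix (Fin n) (Fin n) k, Bᵀ * (Aᵀ * x) = x := fun x => by
    rw [← mul_assoc, ← transpose_mul, e1, transpose_one, one_mul]
  have hJ : IsUnit (jM k C.alt n) := IsUnit.of_mul_eq_one _ jM_mul_transpose
  have hg : g.1.1ᵀ * jM k C.alt n * g.1.1 = jM k C.alt n := g.2.1.1
  obtain ⟨η, h1, h2, h3⟩ := rat_mvw (Ω := k) (q := C.q) (alt := C.alt)
    (M := Aᵀ * jM k C.alt n * A) (g := B * g.1.1 * A) C.two
    ((((isUnit_transpose A).2 hA).mul hJ).mul hA)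
    (by rw [transpose_mul, transpose_mul, transpose_transpose, jM_transpose C.ev, smul_mul_assoc,
      mul_smul_comm, mul_assoc])
    hM
    (by
      conv_rhs => rw [← hg]
      simp only [transpose_mul, mul_assoc, c1, c3])
    (by rw [hF, g.2.2])
  have h4 : AU C.alt (A * η * B) := by
    have e : (A * η * B)ᵀ * jM k C.alt n * (A * η * B) =
        Bᵀ * (ηᵀ * (Aᵀ * jM k C.alt n * A) * η) * B := by
      simp only [transpose_mul, mul_assoc]
    unfold AU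
    rw [e, h2]
    simp only [transpose_mul, transpose_transpose, mul_assoc, c3, e1, mul_one]
  have h5 : frC C.t C.q (A * η * B) = A * η * B := by
    have e := hF (A * η * B)
    have e' : B * (A * η * B) * A = η := by simp only [mul_assoc, c2, e2, mul_one]
    rw [e', h1] at e
    conv_rhs => rw [e]
    simp only [mul_assoc, c1, e1, mul_one]
  have h6 : g.1.1 * (A * η * B) * g.1.1 = A * η * B := by
    conv_rhs => rw [← h3]
    simp only [mul_assoc, c1, e1, mul_one]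
  obtain ⟨ξ, hξ⟩ := h4.isUnit
  rw [← hξ] at h4 h5 h6
  refine ⟨⟨ξ, h4, h5⟩, Subtype.ext ?_⟩
  have h7 : g.1 * ξ * g.1 = ξ := Units.ext h6
  change ξ * g.1 * ξ⁻¹ = g.1⁻¹
  rw [mul_inv_eq_iff_eq_mul, eq_inv_mul_iff_mul_eq, ← mul_assoc, h7]

theorem CD.exists_anti : ∃ (A₀ A₁ : C.Anti) (θ' : C.Γ →* C.Γ), ∀ g,
    (IsConj (A₀.θ g) g⁻¹ ∧ IsConj (A₁.θ g) (θ' g⁻¹)) ∨
      (IsConj (A₁.θ g) g⁻¹ ∧ IsConj (A₀.θ g) (θ' g⁻¹)) := by
  by_cases h : C.alt = true
  · obtain ⟨A₀, -⟩ := C.exists_mvw 1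
    have key : ∀ (A A' : C.Anti) (g : C.Γ), IsConj (A'.θ g) (A.θ g) := by
      intro A A' g
      refine cConj_conj A A' ?_ g
      have h1 : IsU C.alt (A.η * A'.η⁻¹).1 := A.au.mul_au (A'.au.of_mul A'.η.mul_inv)
      rw [h] at h1
      exact (h1.su_of_alt C.two (C.ev h)).2
    refine ⟨A₀, A₀, A₀.θ.comp (C.exists_mvw 1).choose.θ, fun g => ?_⟩
    obtain ⟨A, hA⟩ := C.exists_mvw g
    refine Or.inl ⟨hA ▸ key A A₀ g, ?_⟩
    refine A₀.θ.map_isConj ?_
    have := key (C.exists_mvw 1).choose A g⁻¹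
    rwa [cConj_inv hA] at this
  · rw [Bool.not_eq_true] at h
    obtain ⟨ρ, h1, h2, h3⟩ := C.exists_refl k h
    obtain ⟨ρ, rfl⟩ := h1.isUnit
    let A₀ : C.Anti := ⟨1, cConj_au C h isU_one, frC_one⟩
    let A₁ : C.Anti := ⟨ρ, cConj_au C h h1, h3⟩
    have e0 : ∀ g, A₀.θ g = g := fun g => Subtype.ext (by
      rw [CD.Anti.θ_val]
      change 1 * g.1 * 1⁻¹ = g.1
      rw [one_mul, inv_one, mul_one])
    refine ⟨A₀, A₁, A₁.θ, fun g => ?_⟩
    obtain ⟨A, hA⟩ := C.exists_mvw g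
    rcases mul_self_eq_one_iff.1 A.au.det_sq with hd | hd
    · have h4 : IsConj (A₀.θ g) g⁻¹ := hA ▸ cConj_det A A₀ (hd.trans det_one.symm) g
      exact Or.inl ⟨h4, A₁.θ.map_isConj (by rwa [e0] at h4)⟩
    · refine Or.inr ⟨hA ▸ cConj_det A A₁ (hd.trans h2.symm) g, ?_⟩
      have := cConj_det A₁ A (h2.trans hd.symm) g⁻¹
      rw [cConj_inv hA] at this
      rwa [e0]

end Pool.Agent.MP_0c8446_ag

end

section

namespace Pool.Agent.MP_0c8446_ag

open MvPolynomial Set Matrix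

universe u v w

variable {k : Type u} [Field k] [IsAlgClosed k] {K : Type v} [Field K] [CharZero K]
  (W : Weil.{u, v, w} k K) {Γ : Type u} [Group Γ]

theorem Weil.good_CY {n r : ℕ} {C : CD k n} {w : Fin r → ℕ × Bool} {N : Fin n → ℕ}
    (c : ∀ a : Fin n, Fin (N a + 1) ≃ (Fin (a + 1) → Fin n)) (A : C.Anti) (y : A.Y r)
    (hw : C.Ok w) : W.Good (C.fr (zC C.t w y.1.1))
      (fun Ω _ _ _ (h h' : CS r n → Ω) => ParOn univ (A.pt c y h) (A.pt c y h')) ∅ :=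
  have := C.finite_Γ
  W.good_tower2 C.pos (A.tow c y hw) fun e' =>
    (W.good_cell (C.quotF _) (C.cell_zC hw (A.symm_rev y)) e').mono (by
      rintro _ ⟨⟨j, a, b⟩, rfl⟩
      exact mem_iUnion.2 ⟨(j, b), a, rfl⟩)

theorem Weil.sqT_stage [IsAlgClosed K] {n r : ℕ} (C : CD k n) {w : Fin r → ℕ × Bool}
    {N : Fin n → ℕ} (c : ∀ a : Fin n, Fin (N a + 1) ≃ (Fin (a + 1) → Fin n)) (h₁ h₂)
    (hw : C.Ok w) : W.SqT (C.stage w c h₁ h₂).P := by
  have := C.finite_Γ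
  have key : ∀ (A : C.Anti) a, W.Inv ((C.stage w c h₁ h₂).prod ((C.stage w c h₁ h₂).comap A.θ)) a →
      a ∈ W.Alg ((C.stage w c h₁ h₂).prod ((C.stage w c h₁ h₂).comap A.θ)).P := fun A a ha => by
    have hJ : ((C.stage w c h₁ h₂).prod ((C.stage w c h₁ h₂).comap A.θ)).J = ∅ :=
      eq_empty_of_forall_notMem fun i hi => by cases i <;> exact hi
    exact W.inv_alg hJ (W.dec_strata hJ (A.strat c h₁ h₂ hw)
      (fun y => (W.good_CY c A y hw).congr fun Ω _ _ _ h h' _ _ => by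
        rw [← A.evs_pt c y h, ← A.evs_pt c y h']; rfl) _) ha
  obtain ⟨A₀, A₁, θ', hθ⟩ := C.exists_anti
  exact W.sqT_of_inv2 _ A₀.θ A₁.θ θ' hθ (key A₀) (key A₁)

theorem Weil.sqT_of_clType [IsAlgClosed K] {p : ℕ} [hp : Fact p.Prime] [CharP k p] {X : Var k}
    (h : ClType k p X) : W.SqT X := by
  induction h with
  | ofDL h => exact W.sqT_of_dlType h
  | @ofCl alt t f n r w N c h₁ h₂ h2 hf hn ha hw =>
    have : PQ k (p ^ f) := ⟨p, f, hp.out, inferInstance, hf, rfl⟩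
    have two : (2 : k) ≠ 0 := fun h => h2 ((Nat.prime_dvd_prime_iff_eq hp.out Nat.prime_two).1
      ((CharP.cast_eq_zero_iff k p 2).1 (by exact_mod_cast h)))
    exact W.sqT_stage ⟨alt, t, p ^ f, fun h => (ha h).1, fun h => (ha h).2.1, two, hn⟩ c h₁ h₂
      fun j => ⟨fun h => (ha h).2.2 j, hw j⟩
  | prod a b h _ _ h1 h2 => exact W.sqT_prod h h1 h2

theorem cl_D {p : ℕ} [Fact p.Prime] [CharP k p] {X : Var k} (hX : ClType k p X) {a : W.H X}
    (ha : a ∈ W.Alg X) (h : ∀ Z, IsSub Z → W.tr X (W.cl X Z * a) = 0) : a = 0 := by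
  obtain ⟨W', j, hj, h1, h2, h3⟩ := W.baseChange (AlgebraicClosure K)
  refine hj _ ((W'.eq_zero_of_sqT (W'.sqT_of_clType hX) ?_ fun Z hZ => ?_).trans
    (map_zero _).symm)
  · clear h
    induction ha using Submodule.span_induction with
    | mem x hx => obtain ⟨Z, hZ, rfl⟩ := hx; exact h1 _ Z ▸ W'.cl_mem_Alg hZ
    | zero => simp
    | add x y _ _ hx hy => rw [map_add]; exact add_mem hx hy
    | smul c x _ hx => rw [h3]; exact Submodule.smul_mem _ _ hx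
  · rw [h1, ← map_mul, h2, h Z hZ, map_zero]

theorem cl_D' {p : ℕ} [Fact p.Prime] [CharP k p] {X : Var k} (hX : W.MotivatedBy (ClType k p) X)
    {a : W.H X} (ha : a ∈ W.Alg X) (h : ∀ Z, IsSub Z → W.tr X (W.cl X Z * a) = 0) : a = 0 := by
  by_contra h0
  obtain ⟨Y, T, f, g, Z, b, hY, hZ, hne⟩ := hX a h0
  have hZ' := W.cl_mem_Alg hZ
  obtain ⟨a', ha', h1⟩ := W.exists_push g (W.mul_mem_Alg hZ' (W.pull_mem_Alg f ha))
  have h2 : a' = 0 := cl_D W hY ha' fun C hC => by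
    have hC' := W.pull_mem_Alg g (W.cl_mem_Alg hC)
    obtain ⟨z, hz, h3⟩ := W.exists_push f (W.mul_mem_Alg hZ' hC')
    rw [W.cl_comm hC, ← h1, mul_assoc, ← W.Alg_comm hC', ← mul_assoc, h3]
    by_contra h4
    obtain ⟨D, hD, h5⟩ := W.exists_cl_of_Alg hz h4
    exact h5 (h D hD)
  rw [← mul_assoc, h1, h2, zero_mul, map_zero] at hne
  exact hne rfl

end Pool.Agent.MP_0c8446_ag

end
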