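import Pool.Agent.MP_0c8446_ag.Defs

section

namespace Pool.Agent.MP_0c8446_ag

open scoped LinearAlgebra.Projectivization
open MvPolynomial Set TopologicalSpace Topology

universe u

variable {k : Type u} [Field k] {ι κ : Type} {n : ι → ℕ} {m : κ → ℕ}

/-- A chosen coordinate vector. -/
noncomputable def MP.rep (x : MP k n) : Vars n → k := fun a => (x a.1).rep a.2

lemma isRep_rep (x : MP k n) : IsRep x.rep x := fun i =>
  ⟨(x i).rep_nonzero, (x i).mk_rep⟩

lemma IsRep.smul {v : Vars n → k} {x : MP k n} (h : IsRep v x) (t : ι → k) (ht : ∀ i, t i ≠ 0) :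
    IsRep (fun a => t a.1 * v a) x := by
  intro i
  obtain ⟨h0, e⟩ := h i
  have h1 : (fun s => t i * v ⟨i, s⟩) ≠ 0 := by
    intro h2
    apply h0
    funext s
    have := congrFun h2 s
    simpa [ht i] using this
  refine ⟨h1, ?_⟩
  rw [← e, Projectivization.mk_eq_mk_iff']
  exact ⟨t i, rfl⟩

lemma IsRep.exists_smul {v w : Vars n → k} {x : MP k n} (h : IsRep v x) (h' : IsRep w x) :
    ∃ t : ι → k, (∀ i, t i ≠ 0) ∧ w = fun a => t a.1 * v a := by
  have : ∀ i, ∃ c : k, c ≠ 0 ∧ ∀ s, w ⟨i, s⟩ = c * v ⟨i, s⟩ := by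
    intro i
    obtain ⟨h0, e⟩ := h i
    obtain ⟨h1, e'⟩ := h' i
    obtain ⟨c, hc⟩ := (Projectivization.mk_eq_mk_iff k _ _ h1 h0).1 (e'.trans e.symm)
    exact ⟨c, c.ne_zero, fun s => (congrFun hc s).symm⟩
  choose t ht using this
  exact ⟨t, fun i => (ht i).1, funext fun a => (ht a.1).2 a.2⟩

lemma IsRep.unique {v : Vars n → k} {x y : MP k n} (h : IsRep v x) (h' : IsRep v y) : x = y :=
  funext fun i => (h i).2.symm.trans (h' i).2

/-- The restriction of a polynomial to the torus orbit of `v`. -/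
noncomputable def orb (v : Vars n → k) : MvPolynomial (Vars n) k →ₐ[k] MvPolynomial ι k :=
  aeval fun a => X a.1 * C (v a)

lemma eval_orb (v : Vars n → k) (t : ι → k) (f : MvPolynomial (Vars n) k) :
    eval t (orb v f) = eval (fun a => t a.1 * v a) f := by
  induction f using MvPolynomial.induction_on with
  | C c => simp [orb]
  | add f g hf hg => simp [hf, hg]
  | mul_X f a hf => rw [map_mul, map_mul, hf, map_mul]; simp [orb]

lemma vanish_iff_orb [Infinite k] [Finite ι] {v : Vars n → k} {x : MP k n} (h : IsRep v x)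
    (f : MvPolynomial (Vars n) k) : Vanish f x ↔ orb v f = 0 := by
  constructor
  · intro hf
    refine MvPolynomial.funext_set (fun _ => {c : k | c ≠ 0}) (fun _ => ?_) fun t ht => ?_
    · exact (Set.finite_singleton (0 : k)).infinite_compl
    · rw [eval_orb, map_zero]
      exact hf _ (h.smul t fun i => ht i (mem_univ _))
  · intro hf w hw
    obtain ⟨t, -, rfl⟩ := h.exists_smul hw
    rw [← eval_orb, hf, map_zero]

lemma vanish_mul_iff [Infinite k] [Finite ι] {f g : MvPolynomial (Vars n) k} {x : MP k n} :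
    Vanish (f * g) x ↔ Vanish f x ∨ Vanish g x := by
  simp only [vanish_iff_orb (isRep_rep x), map_mul, mul_eq_zero]

lemma not_vanish_one (x : MP k n) : ¬ Vanish 1 x := fun h => by
  simpa using h _ (isRep_rep x)

/-- The ideal of polynomials vanishing on `S`. -/
def vI (S : Set (MP k n)) : Ideal (MvPolynomial (Vars n) k) where
  carrier := {f | ∀ x ∈ S, Vanish f x}
  zero_mem' := fun _ _ _ _ => map_zero _
  add_mem' := fun hf hg x hx v hv => by rw [map_add, hf x hx v hv, hg x hx v hv, add_zero]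
  smul_mem' := fun c f hf x hx v hv => by rw [smul_eq_mul, map_mul, hf x hx v hv, mul_zero]

lemma mem_vI {S : Set (MP k n)} {f : MvPolynomial (Vars n) k} :
    f ∈ vI S ↔ ∀ x ∈ S, Vanish f x := Iff.rfl

lemma isOpen_nv (f : MvPolynomial (Vars n) k) : IsOpen {x : MP k n | ¬ Vanish f x} :=
  isOpen_generateFrom_of_mem ⟨f, rfl⟩

lemma isClosed_vanish (f : MvPolynomial (Vars n) k) : IsClosed {x : MP k n | Vanish f x} := by
  rw [← isOpen_compl_iff]; exact isOpen_nv f

lemma basis_nv [Infinite k] [Finite ι] :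
    IsTopologicalBasis {U : Set (MP k n) | ∃ f, U = {x | ¬ Vanish f x}} := by
  refine ⟨?_, ?_, rfl⟩
  · rintro _ ⟨f, rfl⟩ _ ⟨g, rfl⟩ x hx
    refine ⟨_, ⟨f * g, rfl⟩, ?_, ?_⟩
    · simpa [vanish_mul_iff] using hx
    · intro y hy
      simpa [vanish_mul_iff] using hy
  · refine eq_univ_of_forall fun x => ⟨_, ⟨1, rfl⟩, not_vanish_one x⟩

lemma mem_closure_vI [Infinite k] [Finite ι] {S : Set (MP k n)} {x : MP k n} :
    x ∈ closure S ↔ ∀ f ∈ vI S, Vanish f x := by
  rw [basis_nv.mem_closure_iff]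
  constructor
  · intro h f hf
    by_contra hx
    obtain ⟨y, hy, hyS⟩ := h _ ⟨f, rfl⟩ hx
    exact hy (hf y hyS)
  · rintro h _ ⟨f, rfl⟩ hx
    by_contra hne
    refine hx (h f fun y hy => ?_)
    by_contra hf
    exact hne ⟨y, hf, hy⟩

lemma vI_anti {S T : Set (MP k n)} (h : S ⊆ T) : vI T ≤ vI S := fun _ hf x hx => hf x (h hx)

lemma subset_of_vI_le [Infinite k] [Finite ι] {S T : Set (MP k n)} (hT : IsClosed T)
    (h : vI T ≤ vI S) : S ⊆ T := fun x hx => by
  rw [← hT.closure_eq, mem_closure_vI]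
  exact fun f hf => h hf x hx

lemma vI_lt [Infinite k] [Finite ι] {S T : Set (MP k n)} (hS : IsClosed S) (h : S ⊂ T) :
    vI T < vI S :=
  lt_of_le_of_ne (vI_anti h.1) fun e => h.2 (subset_of_vI_le hS e.ge)

lemma vI_isPrime [Infinite k] [Finite ι] {S : Set (MP k n)} (hS : IsIrreducible S) :
    (vI S).IsPrime := by
  refine ⟨?_, fun {f g} h => ?_⟩
  · obtain ⟨x, hx⟩ := hS.1
    rw [Ideal.ne_top_iff_one]
    exact fun h => not_vanish_one x (h x hx)
  · have := (isPreirreducible_iff_isClosed_union_isClosed.1 hS.2) _ _ (isClosed_vanish f)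
      (isClosed_vanish g) fun x hx => vanish_mul_iff.1 (h x hx)
    exact this.imp (fun h x hx => h hx) fun h x hx => h hx

lemma isIrreducible_of_prime [Infinite k] [Finite ι] {S : Set (MP k n)} (hS : (vI S).IsPrime) :
    IsIrreducible S := by
  refine ⟨?_, ?_⟩
  · by_contra h
    rw [not_nonempty_iff_eq_empty] at h
    exact hS.ne_top ((Ideal.eq_top_iff_one _).2 fun x hx => by simp [h] at hx)
  · rintro U V hU hV ⟨x, hxS, hxU⟩ ⟨y, hyS, hyV⟩
    obtain ⟨_, ⟨f, rfl⟩, hf, hfU⟩ := basis_nv.exists_subset_of_mem_open hxU hU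
    obtain ⟨_, ⟨g, rfl⟩, hg, hgV⟩ := basis_nv.exists_subset_of_mem_open hyV hV
    by_contra hne
    have : f * g ∈ vI S := by
      intro z hz
      rw [vanish_mul_iff]
      by_contra h
      push Not at h
      exact hne ⟨z, hz, hfU h.1, hgV h.2⟩
    rcases hS.mem_or_mem this with h | h
    · exact hf (h x hxS)
    · exact hg (h y hyS)

instance [Infinite k] [Finite ι] : NoetherianSpace (MP k n) := by
  refine ((noetherianSpace_TFAE (MP k n)).out 1 0).1 ?_
  have : StrictMono fun S : Closeds (MP k n) => OrderDual.toDual (vI (S : Set (MP k n))) :=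
    fun S T h => vI_lt S.isClosed h
  exact this.wellFoundedLT

instance [Infinite k] [Finite ι] (S : Set (MP k n)) : NoetherianSpace S :=
  IsInducing.subtypeVal.noetherianSpace

lemma mk_eq_of_minor {r : ℕ} {v w : Fin (r + 1) → k} (hv : v ≠ 0) (hw : w ≠ 0)
    (h : ∀ s t, v s * w t = v t * w s) :
    Projectivization.mk k v hv = Projectivization.mk k w hw := by
  obtain ⟨t, ht⟩ := Function.ne_iff.1 hw
  rw [Projectivization.mk_eq_mk_iff']
  refine ⟨v t / w t, funext fun s => ?_⟩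
  have ht' : w t ≠ 0 := ht
  simp only [Pi.smul_apply, smul_eq_mul]
  field_simp
  linear_combination (h s t).symm

lemma minor_of_mk_eq {r : ℕ} {v w : Fin (r + 1) → k} {hv : v ≠ 0} {hw : w ≠ 0}
    (h : Projectivization.mk k v hv = Projectivization.mk k w hw) (s t : Fin (r + 1)) :
    v s * w t = v t * w s := by
  obtain ⟨c, rfl⟩ := (Projectivization.mk_eq_mk_iff' k _ _ hv hw).1 h
  simp only [Pi.smul_apply, smul_eq_mul]
  ring

lemma eval_comp_aeval {σ σ' : Type} (v : σ → k) (F : σ' → MvPolynomial σ k)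
    (f : MvPolynomial σ' k) : eval v (aeval F f) = eval (fun s => eval v (F s)) f := by
  induction f using MvPolynomial.induction_on with
  | C c => simp
  | add f g hf hg => rw [map_add, map_add, hf, hg, map_add]
  | mul_X f a hf => rw [map_mul, map_mul, hf, map_mul]; simp

lemma continuous_to_MP {X : Type*} [TopologicalSpace X] {g : X → MP k m}
    (h : ∀ f, IsOpen {x | ¬ Vanish f (g x)}) : Continuous g := by
  refine continuous_generateFrom_iff.2 ?_
  rintro _ ⟨f, rfl⟩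
  exact h f

lemma IsMor.continuous {S : Set (MP k n)} {T : Set (MP k m)} {φ : S → T} (h : IsMor φ) :
    Continuous φ := by
  refine continuous_induced_rng.2 (continuous_to_MP fun f => ?_)
  rw [isOpen_iff_forall_mem_open]
  intro x hx
  obtain ⟨U, hU, hxU, F, hF⟩ := h x
  obtain ⟨w, hw, hw0⟩ : ∃ w, IsRep w (φ x).1 ∧ eval w f ≠ 0 := by
    by_contra hne
    push Not at hne
    exact hx hne
  obtain ⟨t, ht, hwt⟩ := (hF x hxU _ (isRep_rep x.1)).exists_smul hw
  obtain ⟨g, e⟩ : ∃ g : MvPolynomial (Vars n) k, ∀ v : Vars n → k, eval v g =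
      eval (fun a => t a.1 * eval v (F a)) f := by
    refine ⟨aeval (fun a : Vars m => C (t a.1) * F a) f, fun v => ?_⟩
    rw [eval_comp_aeval]
    simp only [map_mul, eval_C]
  refine ⟨U ∩ Subtype.val ⁻¹' {y | ¬ Vanish g y}, ?_,
    hU.inter ((isOpen_nv _).preimage continuous_subtype_val), hxU, ?_⟩
  · rintro y ⟨hyU, hy⟩ hv
    refine hy fun v hv' => ?_
    rw [e]
    exact hv _ ((hF y hyU v hv').smul t ht)
  · intro hv
    have := hv _ (isRep_rep x.1)
    rw [e, ← hwt] at this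
    exact hw0 this

lemma isClosed_eq_mor {S : Set (MP k n)} {T : Set (MP k m)} {φ ψ : S → T} (h : IsMor φ)
    (h' : IsMor ψ) : IsClosed {x | φ x = ψ x} := by
  rw [← isOpen_compl_iff, isOpen_iff_forall_mem_open]
  intro x hx
  obtain ⟨U, hU, hxU, F, hF⟩ := h x
  obtain ⟨V, hV, hxV, G, hG⟩ := h' x
  have hx' : (φ x).1 ≠ (ψ x).1 := fun e => hx (Subtype.ext e)
  obtain ⟨j, hj⟩ := Function.ne_iff.1 hx'
  obtain ⟨h1, e1⟩ := hF x hxU _ (isRep_rep x.1) j
  obtain ⟨h2, e2⟩ := hG x hxV _ (isRep_rep x.1) j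
  have : ¬ ∀ s t, eval x.1.rep (F ⟨j, s⟩) * eval x.1.rep (G ⟨j, t⟩) =
      eval x.1.rep (F ⟨j, t⟩) * eval x.1.rep (G ⟨j, s⟩) := fun hm =>
    hj (e1.symm.trans ((mk_eq_of_minor h1 h2 hm).trans e2))
  push Not at this
  obtain ⟨s, t, hst⟩ := this
  refine ⟨U ∩ V ∩ Subtype.val ⁻¹' {y | ¬ Vanish (F ⟨j, s⟩ * G ⟨j, t⟩ - F ⟨j, t⟩ * G ⟨j, s⟩) y},
    ?_, (hU.inter hV).inter ((isOpen_nv _).preimage continuous_subtype_val), ⟨hxU, hxV⟩, ?_⟩
  · rintro y ⟨⟨hyU, hyV⟩, hy⟩ e
    refine hy fun v hv => ?_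
    obtain ⟨h3, e3⟩ := hF y hyU v hv j
    obtain ⟨h4, e4⟩ := hG y hyV v hv j
    have e5 : (φ y).1 j = (ψ y).1 j := by rw [show φ y = ψ y from e]
    have := minor_of_mk_eq (e3.trans (e5.trans e4.symm)) s t
    simp only [map_sub, map_mul]
    exact sub_eq_zero.2 this
  · intro hv
    have := hv _ (isRep_rep x.1)
    simp only [map_sub, map_mul] at this
    exact hst (sub_eq_zero.1 this)

lemma isMor_of_global {S : Set (MP k n)} {T : Set (MP k m)} {φ : S → T}
    (F : Vars m → MvPolynomial (Vars n) k)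
    (h : ∀ y : S, ∀ v, IsRep v y.1 → IsRep (fun s => eval v (F s)) (φ y).1) : IsMor φ :=
  fun x => ⟨univ, isOpen_univ, mem_univ x, F, fun y _ => h y⟩

lemma isMor_id {S : Set (MP k n)} : IsMor (id : S → S) :=
  isMor_of_global X fun y v hv => by simpa using hv

lemma isMor_const {S : Set (MP k n)} {T : Set (MP k m)} (c : T) : IsMor fun _ : S => c :=
  isMor_of_global (fun a => C (c.1.rep a)) fun y v _ => by simpa using isRep_rep c.1

lemma IsMor.comp {κ' : Type} {l : κ' → ℕ} {S : Set (MP k n)} {T : Set (MP k m)} {R : Set (MP k l)}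
    {φ : S → T} {ψ : T → R} (h' : IsMor ψ) (h : IsMor φ) : IsMor (ψ ∘ φ) := by
  intro x
  obtain ⟨U, hU, hxU, F, hF⟩ := h x
  obtain ⟨V, hV, hxV, G, hG⟩ := h' (φ x)
  refine ⟨U ∩ φ ⁻¹' V, hU.inter (hV.preimage h.continuous), ⟨hxU, hxV⟩,
    fun a => aeval F (G a), fun y hy v hv => ?_⟩
  simp only [eval_comp_aeval]
  exact hG _ hy.2 _ (hF y hy.1 v hv)

instance (S : Set (MP k n)) : T1Space S :=
  ⟨fun x => isClosed_eq_mor (φ := id) isMor_id (isMor_const x)⟩

end Pool.Agent.MP_0c8446_ag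

end

section

namespace Pool.Agent.MP_0c8446_ag

open scoped LinearAlgebra.Projectivization
open MvPolynomial Set TopologicalSpace Topology

universe u

section general
variable {X Y : Type u} [TopologicalSpace X] [TopologicalSpace Y]

/-- Chains of subvarieties have bounded length. -/
class FinDim (X : Type u) [TopologicalSpace X] : Prop where
  bdd : ∃ N, ∀ r (C : Fin (r + 1) → Set X), StrictMono C → (∀ i, IsSub (C i)) → r ≤ N

def HasChain (Z : Set X) (r : ℕ) : Prop :=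
  ∃ C : Fin (r + 1) → Set X, StrictMono C ∧ ∀ i, IsSub (C i) ∧ C i ⊆ Z

lemma bdd_chain [FinDim X] (Z : Set X) : BddAbove {r | HasChain Z r} := by
  obtain ⟨N, hN⟩ := FinDim.bdd (X := X)
  exact ⟨N, fun r ⟨C, h1, h2⟩ => hN r C h1 fun i => (h2 i).1⟩

lemma HasChain.le_dim [FinDim X] {Z : Set X} {r : ℕ} (h : HasChain Z r) : r ≤ dim Z :=
  le_csSup (bdd_chain Z) h

lemma IsSub.hasChain_zero {Z C : Set X} (h : IsSub C) (hC : C ⊆ Z) : HasChain Z 0 :=
  ⟨fun _ => C, fun a b hab => absurd hab (by omega), fun _ => ⟨h, hC⟩⟩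

lemma hasChain_dim [FinDim X] {Z : Set X} {r : ℕ} (h : HasChain Z r) : HasChain Z (dim Z) :=
  Nat.sSup_mem (s := {r | HasChain Z r}) ⟨r, h⟩ (bdd_chain Z)

lemma IsSub.hasChain [FinDim X] {Z : Set X} (h : IsSub Z) : HasChain Z (dim Z) :=
  hasChain_dim (h.hasChain_zero subset_rfl)

lemma dim_le_of {Z : Set X} {N : ℕ} (h : ∀ r, HasChain Z r → r ≤ N) : dim Z ≤ N :=
  csSup_le' (s := {r | HasChain Z r}) fun r hr => h r hr

lemma HasChain.mono {Z Z' : Set X} {r : ℕ} (h : HasChain Z r) (hZ : Z ⊆ Z') : HasChain Z' r := by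
  obtain ⟨C, h1, h2⟩ := h
  exact ⟨C, h1, fun i => ⟨(h2 i).1, (h2 i).2.trans hZ⟩⟩

lemma dim_mono [FinDim X] {Z Z' : Set X} (hZ : Z ⊆ Z') : dim Z ≤ dim Z' :=
  dim_le_of fun _ h => (h.mono hZ).le_dim

lemma HasChain.succ {Z Z' : Set X} {r : ℕ} (h : HasChain Z r) (hZ : Z ⊂ Z') (h' : IsSub Z') :
    HasChain Z' (r + 1) := by
  obtain ⟨C, h1, h2⟩ := h
  refine ⟨Fin.snoc C Z', ?_, fun i => ?_⟩
  · rw [Fin.strictMono_iff_lt_succ]
    intro i
    refine Fin.lastCases ?_ (fun j => ?_) i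
    · simp only [Fin.succ_last, Fin.snoc_last, Fin.snoc_castSucc]
      exact lt_of_le_of_lt (h2 _).2 hZ
    · rw [Fin.snoc_castSucc, ← Fin.castSucc_succ, Fin.snoc_castSucc]
      exact h1 Fin.castSucc_lt_succ
  · refine Fin.lastCases ?_ (fun j => ?_) i
    · simp only [Fin.snoc_last]
      exact ⟨h', subset_rfl⟩
    · simp only [Fin.snoc_castSucc]
      exact ⟨(h2 j).1, (h2 j).2.trans hZ.1⟩

lemma dim_lt [FinDim X] {Z Z' : Set X} (h : IsSub Z) (h' : IsSub Z') (hZ : Z ⊂ Z') :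
    dim Z < dim Z' :=
  (h.hasChain.succ hZ h').le_dim

lemma eq_of_dim_le [FinDim X] {Z Z' : Set X} (h : IsSub Z) (h' : IsSub Z') (hZ : Z ⊆ Z')
    (hd : dim Z' ≤ dim Z) : Z = Z' := by
  by_contra hne
  exact absurd (dim_lt h h' (hZ.ssubset_of_ne hne)) (not_lt.2 hd)

lemma isSub_singleton [T1Space X] (x : X) : IsSub ({x} : Set X) :=
  ⟨isIrreducible_singleton, isClosed_singleton⟩

lemma dim_singleton (x : X) : dim ({x} : Set X) = 0 := by
  refine Nat.le_zero.1 (dim_le_of fun r ⟨C, h1, h2⟩ => ?_)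
  by_contra hr
  have e : ∀ i, C i = {x} := fun i => (h2 i).1.1.1.subset_singleton_iff.1 (h2 i).2
  have : (0 : Fin (r + 1)) < Fin.last r := by
    rw [Fin.lt_def]; simp; omega
  have h3 := h1 this
  rw [e, e] at h3
  exact lt_irrefl _ h3

lemma IsSub.eq_singleton [FinDim X] [T1Space X] {Z : Set X} (h : IsSub Z) (h0 : dim Z = 0) {x : X}
    (hx : x ∈ Z) : Z = {x} :=
  (eq_of_dim_le (isSub_singleton x) h (singleton_subset_iff.2 hx) (by omega)).symm

lemma IsSub.eq_singleton_of_finite [T1Space X] {Z : Set X} (h : IsSub Z) {U : Set X}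
    (hU : IsOpen U) (hf : (Z ∩ U).Finite) {x : X} (hx : x ∈ Z) (hxU : x ∈ U) : Z = {x} := by
  have h1 : IsClosed ((Z ∩ U) \ {x}) := (hf.subset sdiff_subset).isClosed
  have h2 : Z ⊆ {x} ∪ (Uᶜ ∪ (Z ∩ U) \ {x}) := by
    intro y hy
    by_cases h3 : y = x
    · exact Or.inl h3
    · by_cases h4 : y ∈ U
      · exact Or.inr (Or.inr ⟨⟨hy, h4⟩, h3⟩)
      · exact Or.inr (Or.inl h4)
  rcases (isPreirreducible_iff_isClosed_union_isClosed.1 h.1.2) _ _ isClosed_singleton
    (hU.isClosed_compl.union h1) h2 with h3 | h3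
  · exact h3.antisymm (singleton_subset_iff.2 hx)
  · rcases h3 hx with h4 | h4
    · exact absurd hxU h4
    · exact absurd rfl h4.2

lemma IsSub.image_closure {Z : Set X} (h : IsSub Z) {f : X → Y} (hf : Continuous f) :
    IsSub (closure (f '' Z)) :=
  ⟨(h.1.image f hf.continuousOn).closure, isClosed_closure⟩

/-- A continuous map with a continuous left inverse and closed range. -/
structure Retr (f : X → Y) (g : Y → X) : Prop where
  cf : Continuous f
  cg : Continuous g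
  inv : Function.LeftInverse g f
  closed : IsClosed (range f)

lemma Retr.image_eq {f : X → Y} {g : Y → X} (h : Retr f g) (Z : Set X) :
    f '' Z = range f ∩ g ⁻¹' Z := by
  ext y
  constructor
  · rintro ⟨x, hx, rfl⟩
    exact ⟨⟨x, rfl⟩, by simpa [h.inv x] using hx⟩
  · rintro ⟨⟨x, rfl⟩, hx⟩
    exact ⟨x, by simpa [h.inv x] using hx, rfl⟩

lemma Retr.isClosed_image {f : X → Y} {g : Y → X} (h : Retr f g) {Z : Set X} (hZ : IsClosed Z) :
    IsClosed (f '' Z) := by
  rw [h.image_eq]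
  exact h.closed.inter (hZ.preimage h.cg)

lemma Retr.isSub {f : X → Y} {g : Y → X} (h : Retr f g) {Z : Set X} (hZ : IsSub Z) :
    IsSub (f '' Z) :=
  ⟨hZ.1.image f h.cf.continuousOn, h.isClosed_image hZ.2⟩

lemma Retr.dim_image {f : X → Y} {g : Y → X} (h : Retr f g) (Z : Set X) :
    dim (f '' Z) = dim Z := by
  unfold dim
  congr 1
  ext r
  constructor
  · rintro ⟨C, h1, h2⟩
    have e : ∀ i, f '' (f ⁻¹' C i) = C i := fun i =>
      image_preimage_eq_of_subset ((h2 i).2.trans (image_subset_range _ _))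
    have e' : ∀ i, f ⁻¹' C i = g '' C i := fun i => by
      conv_rhs => rw [← e i, image_image]
      simp [h.inv _]
    refine ⟨fun i => f ⁻¹' C i, fun i j hij => ?_, fun i => ⟨⟨?_, (h2 i).1.2.preimage h.cf⟩, ?_⟩⟩
    · refine lt_of_le_of_ne (preimage_mono (h1 hij).le) fun e2 => (h1 hij).ne ?_
      rw [← e i, ← e j]
      exact congrArg _ e2
    · show IsIrreducible (f ⁻¹' C i)
      rw [e']
      exact (h2 i).1.1.image g h.cg.continuousOn
    · intro x hx
      obtain ⟨y, hy, e3⟩ := (h2 i).2 hx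
      rwa [← h.inv.injective e3]
  · rintro ⟨C, h1, h2⟩
    refine ⟨fun i => f '' C i, fun i j hij => ?_, fun i => ⟨h.isSub (h2 i).1, image_mono (h2 i).2⟩⟩
    exact lt_of_le_of_ne (image_mono (h1 hij).le) fun e =>
      (h1 hij).ne (h.inv.injective.image_injective e)

lemma isIrreducible_image2 {A B : Type*} [TopologicalSpace A] [TopologicalSpace B]
    {g : A → B → X} (h1 : ∀ a, Continuous (g a)) (h2 : ∀ b, Continuous fun a => g a b)
    {Z : Set A} {Z' : Set B} (hZ : IsIrreducible Z) (hZ' : IsIrreducible Z') :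
    IsIrreducible (image2 g Z Z') := by
  refine ⟨hZ.1.image2 hZ'.1, isPreirreducible_iff_isClosed_union_isClosed.2 fun F G hF hG h => ?_⟩
  have key : Z' ⊆ (⋂ a ∈ Z, g a ⁻¹' F) ∪ (⋂ a ∈ Z, g a ⁻¹' G) := by
    intro b hb
    have := isPreirreducible_iff_isClosed_union_isClosed.1 hZ.2 _ _ (hF.preimage (h2 b))
      (hG.preimage (h2 b)) fun a ha => h (mem_image2_of_mem ha hb)
    exact this.imp (fun h => mem_iInter₂.2 fun a ha => h ha) fun h => mem_iInter₂.2 fun a ha => h ha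
  have := isPreirreducible_iff_isClosed_union_isClosed.1 hZ'.2 _ _
    (isClosed_biInter fun a _ => hF.preimage (h1 a))
    (isClosed_biInter fun a _ => hG.preimage (h1 a)) key
  refine this.imp (fun h => ?_) fun h => ?_ <;>
  · rintro _ ⟨a, ha, b, hb, rfl⟩
    exact mem_iInter₂.1 (h hb) a ha

lemma IsSub.subset_of_finite {Z : Set X} (h : IsSub Z) {α : Type*} {s : Set α} (hs : s.Finite)
    {F : α → Set X} (hF : ∀ a ∈ s, IsClosed (F a)) (hZ : Z ⊆ ⋃ a ∈ s, F a) :
    ∃ a ∈ s, Z ⊆ F a := by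
  induction s, hs using Set.Finite.induction_on with
  | empty => simp [h.1.1.ne_empty] at hZ
  | @insert a s _ hs ih =>
    rw [biUnion_insert] at hZ
    rcases isPreirreducible_iff_isClosed_union_isClosed.1 h.1.2 _ _ (hF a (mem_insert _ _))
      (hs.isClosed_biUnion fun b hb => hF b (mem_insert_of_mem _ hb)) hZ with h1 | h1
    · exact ⟨a, mem_insert _ _, h1⟩
    · obtain ⟨b, hb, h2⟩ := ih (fun b hb => hF b (mem_insert_of_mem _ hb)) h1
      exact ⟨b, mem_insert_of_mem _ hb, h2⟩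

lemma exists_isComp [FinDim X] {D S : Set X} (hD : IsSub D) (hS : D ⊆ S) :
    ∃ C, IsComp C S ∧ D ⊆ C := by
  obtain ⟨N, hN⟩ : ∃ N, ∀ C : Set X, dim C ≤ N := ⟨dim (univ : Set X), fun C => dim_mono (subset_univ C)⟩
  induction h : N - dim D using Nat.strong_induction_on generalizing D with
  | _ r ih =>
    by_cases hm : IsComp D S
    · exact ⟨D, hm, subset_rfl⟩
    · obtain ⟨E, hE, hDE⟩ : ∃ E, (IsSub E ∧ E ⊆ S) ∧ D ⊂ E := by
        by_contra hne
        push Not at hne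
        exact hm ⟨⟨hD, hS⟩, fun E hE hDE => by
          by_contra h3
          exact hne E hE ⟨hDE, h3⟩⟩
      have h1 := dim_lt hD hE.1 hDE
      have h2 := hN E
      obtain ⟨C, hC, hEC⟩ := ih (N - dim E) (by omega) hE.1 hE.2 rfl
      exact ⟨C, hC, hDE.1.trans hEC⟩

lemma finite_isComp [NoetherianSpace X] {S : Set X} (hS : IsClosed S) :
    {C | IsComp C S}.Finite := by
  obtain ⟨T, hT, h1, h2, h3⟩ := NoetherianSpace.exists_finite_set_isClosed_irreducible hS
  refine hT.subset fun C hC => ?_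
  obtain ⟨D, hD, hCD⟩ := hC.1.1.subset_of_finite hT (F := id) h1
    (by simpa [← sUnion_eq_biUnion, ← h3] using hC.1.2)
  have : D ⊆ C := hC.2 ⟨⟨h2 D hD, h1 D hD⟩, h3 ▸ subset_sUnion_of_mem hD⟩ hCD
  rwa [show C = D from hCD.antisymm this]

end general

variable {k : Type u} [Field k] [Infinite k] {ι : Type} [Fintype ι] {n : ι → ℕ}

lemma chain_primes {S : Set (MP k n)} {r : ℕ} (C : Fin (r + 1) → Set S) (h1 : StrictMono C)
    (h2 : ∀ i, IsSub (C i)) : ∃ P : Fin (r + 1) → PrimeSpectrum (MvPolynomial (Vars n) k),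
      StrictAnti P ∧ ∀ i, (P i).asIdeal = vI (Subtype.val '' C i) := by
  refine ⟨fun i => ⟨vI (Subtype.val '' C i),
    vI_isPrime ((h2 i).1.image _ continuous_subtype_val.continuousOn)⟩, fun i j hij => ?_,
    fun _ => rfl⟩
  refine lt_of_le_of_ne (vI_anti (image_mono (h1 hij).le)) fun e => (h1 hij).not_ge fun x hx => ?_
  have e' : vI (Subtype.val '' C j) = vI (Subtype.val '' C i) := congrArg PrimeSpectrum.asIdeal e
  have : x.1 ∈ closure (Subtype.val '' C i) := by
    rw [mem_closure_vI, ← e']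
    exact fun f hf => hf _ ⟨x, hx, rfl⟩
  rw [← (h2 i).2.closure_eq]
  exact closure_subtype.2 this

omit [Infinite k] in
lemma strictAnti_le {σ : Type} [Fintype σ] {r : ℕ}
    (P : Fin (r + 1) → PrimeSpectrum (MvPolynomial σ k)) (h : StrictAnti P) :
    r ≤ Fintype.card σ := by
  have h1 := Order.LTSeries.length_le_krullDim
    (LTSeries.mk r (fun i => P i.rev) fun i j hij => h (Fin.rev_lt_rev.2 hij))
  have h2 : ringKrullDim (MvPolynomial σ k) = Fintype.card σ := by
    rw [MvPolynomial.ringKrullDim_of_isNoetherianRing, ringKrullDim_eq_zero_of_field]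
    simp
  rw [show Order.krullDim (PrimeSpectrum (MvPolynomial σ k)) = _ from h2] at h1
  exact_mod_cast h1

instance (S : Set (MP k n)) : FinDim S :=
  ⟨⟨Fintype.card (Vars n), fun _ C h1 h2 => by
    obtain ⟨P, hP, -⟩ := chain_primes C h1 h2
    exact strictAnti_le P hP⟩⟩

end Pool.Agent.MP_0c8446_ag

end
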