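import Pool.Agent.Mg.F0c8446.G601e39

section

namespace Pool.Agent.MP_0c8446_ag

open MvPolynomial Set

universe u v w

variable {F : Type u} [Field F] {V : Type u} [AddCommGroup V] [Module F V]
  {B : V →ₗ[F] V →ₗ[F] F} {ε : F} {X : V →ₗ[F] V}

theorem mvB_split (X : V →ₗ[F] V) (P : Polynomial F) : ∃ a b : Polynomial F,
    Polynomial.aeval X P = Polynomial.aeval (X * X) a + X * Polynomial.aeval (X * X) b ∧
    Polynomial.aeval (-X) P = Polynomial.aeval (X * X) a - X * Polynomial.aeval (X * X) b := by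
  induction P using Polynomial.induction_on with
  | C c => exact ⟨Polynomial.C c, 0, by simp, by simp⟩
  | add P Q hP hQ =>
    obtain ⟨a, b, h1, h2⟩ := hP
    obtain ⟨a', b', h1', h2'⟩ := hQ
    refine ⟨a + a', b + b', ?_, ?_⟩
    · rw [map_add, h1, h1', map_add, map_add, mul_add]; abel
    · rw [map_add, h2, h2', map_add, map_add, mul_add]; abel
  | monomial n c h =>
    obtain ⟨a, b, h1, h2⟩ := h
    refine ⟨Polynomial.X * b, a, ?_, ?_⟩
    · rw [pow_succ', mul_left_comm, map_mul, h1, map_mul, Polynomial.aeval_X, Polynomial.aeval_X,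
        mul_add, ← mul_assoc, add_comm]
    · rw [pow_succ', mul_left_comm, map_mul, h2, map_mul, Polynomial.aeval_X, Polynomial.aeval_X,
        mul_sub, neg_mul, neg_mul, ← mul_assoc]
      abel

theorem mvB_sq (X : V →ₗ[F] V) (a : Polynomial F) :
    Polynomial.aeval (X * X) a = Polynomial.aeval X (Polynomial.expand F 2 a) := by
  rw [Polynomial.expand_aeval, pow_two]

theorem mvB_neg (X : V →ₗ[F] V) (a : Polynomial F) :
    Polynomial.aeval (-X) a = Polynomial.aeval X (a.comp (-Polynomial.X)) := by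
  rw [Polynomial.aeval_comp, map_neg, Polynomial.aeval_X]

theorem mvB_gcd {f : Polynomial F} (hf : Irreducible f) (e : ℕ) (c : Polynomial F)
    (hc : ¬ f ^ (e + 1) ∣ c) : ∃ u w : Polynomial F, f ^ e = u * c + w * f ^ (e + 1) := by
  classical
  obtain ⟨i, hi, h⟩ := (dvd_prime_pow hf.prime (e + 1)).1
    (EuclideanDomain.gcd_dvd_right c (f ^ (e + 1)))
  have hie : i ≤ e := by
    by_contra hne
    have : i = e + 1 := by omega
    rw [this] at h
    exact hc (h.symm.dvd.trans (EuclideanDomain.gcd_dvd_left _ _))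
  obtain ⟨g, hg⟩ := h.dvd.trans (pow_dvd_pow f hie)
  refine ⟨g * EuclideanDomain.gcdA c (f ^ (e + 1)), g * EuclideanDomain.gcdB c (f ^ (e + 1)), ?_⟩
  rw [EuclideanDomain.gcd_eq_gcd_ab] at hg
  linear_combination hg

/-- The primary case for an invertible skew-adjoint operator. -/
theorem mvQ_primary [Nontrivial V] (hB : MvF B ε) (hX : ∀ x y, B (X x) y = -B x (X y))
    {f : Polynomial F} (hf : Irreducible f) (h0 : f.coeff 0 ≠ 0)
    (hn : IsNilpotent (Polynomial.aeval (X * X) f)) :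
    ∃ U : Submodule F V, U ≠ ⊥ ∧ MvQ B X (-X) U := by
  classical
  have hn' : ∃ n, Polynomial.aeval (X * X) f ^ n = 0 := hn
  obtain ⟨e, he⟩ : ∃ e, Nat.find hn' = e + 1 := Nat.exists_eq_succ_of_ne_zero fun h => by
    have := Nat.find_spec hn'
    rw [h, pow_zero] at this
    exact one_ne_zero this
  have hz : Polynomial.aeval (X * X) (f ^ (e + 1)) = 0 := by
    rw [map_pow, ← he]; exact Nat.find_spec hn'
  have hN : Polynomial.aeval (X * X) (f ^ e) ≠ 0 := by
    rw [map_pow]; exact Nat.find_min hn' (by omega)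
  have hinj : ∀ x, X x = 0 → x = 0 := by
    have hc : IsCoprime Polynomial.X (f ^ (e + 1)) :=
      (Polynomial.irreducible_X.coprime_iff_not_dvd.2
        (by rw [Polynomial.X_dvd_iff]; exact h0)).pow_right
    obtain ⟨u, w, h⟩ := hc
    have h1 := congrArg (Polynomial.aeval (X * X)) h
    rw [map_add, map_mul, map_mul, hz, mul_zero, add_zero, map_one, Polynomial.aeval_X] at h1
    intro x hx
    have h2 := congrArg (fun A : V →ₗ[F] V => A x) h1
    simpa [hx] using h2.symm
  have hsa : ∀ (a : Polynomial F) x y, B (Polynomial.aeval (X * X) a x) y =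
      B x (Polynomial.aeval (X * X) a y) := fun a x y => by
    rw [mvB_sq, skew_aeval hX, Polynomial.expand_aeval, Polynomial.expand_aeval, neg_sq]
  have hcm : ∀ (a : Polynomial F) x, Polynomial.aeval (X * X) a (X x) =
      X (Polynomial.aeval (X * X) a x) := fun a x => by
    have h1 : Polynomial.aeval X (Polynomial.expand F 2 a * Polynomial.X) =
        Polynomial.aeval X (Polynomial.X * Polynomial.expand F 2 a) := by rw [mul_comm]
    rw [map_mul, map_mul, Polynomial.aeval_X, ← mvB_sq] at h1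
    exact congrArg (fun A : V →ₗ[F] V => A x) h1
  obtain ⟨v, Q₀, hv⟩ : ∃ (v : V) (Q : Polynomial F),
      B (Polynomial.aeval (X * X) (f ^ e) v) (Polynomial.aeval X Q v) ≠ 0 := by
    by_contra hne
    push Not at hne
    set N := Polynomial.aeval (X * X) (f ^ e) with hNd
    have a0 : ∀ v, B (N v) v = 0 := fun v => by simpa using hne v 1
    have a1 : ∀ v, B (N v) (X v) = 0 := fun v => by simpa using hne v Polynomial.X
    have b0 : ∀ x y, B (N x) y + ε * B (N x) y = 0 := fun x y => by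
      have h := a0 (x + y)
      simp only [map_add, LinearMap.add_apply, a0] at h
      rw [← hB.sym, ← hsa]
      linear_combination h
    have b1 : ∀ x y, B (N x) (X y) - ε * B (N x) (X y) = 0 := fun x y => by
      have h := a1 (x + y)
      simp only [map_add, LinearMap.add_apply, a1] at h
      have h2 : B (N y) (X x) = -(ε * B (N x) (X y)) := by
        rw [hsa, hcm, hB.sym, hX, mul_neg]
      linear_combination h - h2
    refine hN (LinearMap.ext fun x => hinj _ (hB.nd _ fun y => ?_))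
    apply mul_left_cancel₀ hB.two
    rw [hX]
    linear_combination -(b0 x (X y)) - b1 x y
  let I : (V →ₗ[F] V) → Prop := fun A => ∀ Q : Polynomial F, B (A v) (Polynomial.aeval X Q v) = 0
  have hmul : ∀ (R : Polynomial F) A, I A → I (Polynomial.aeval X R * A) := fun R A h Q => by
    have h1 := h (R.comp (-Polynomial.X) * Q)
    rw [map_mul, ← mvB_neg] at h1
    rw [Module.End.mul_apply, skew_aeval hX]
    exact h1
  have hkey : ∀ c : Polynomial F, I (Polynomial.aeval (X * X) c) →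
      Polynomial.aeval (X * X) c = 0 := fun c h => by
    by_cases hc : f ^ (e + 1) ∣ c
    · obtain ⟨g, rfl⟩ := hc
      rw [map_mul, hz, zero_mul]
    · obtain ⟨u, w, h1⟩ := mvB_gcd hf e c hc
      have h2 := hmul (Polynomial.expand F 2 u) _ h Q₀
      rw [h1, map_add, map_mul, map_mul, hz, mul_zero, add_zero, mvB_sq X u] at hv
      exact absurd h2 hv
  obtain ⟨U, hvU, hU⟩ := mvQ_cyclic hB hX v fun P hP => by
    obtain ⟨a, b, h1, h2⟩ := mvB_split X P
    have hP' : I (Polynomial.aeval (-X) P) := fun Q => by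
      have h3 : Polynomial.aeval X (P * Q) = Polynomial.aeval X (Q * P) := by rw [mul_comm]
      rw [map_mul, map_mul] at h3
      have h4 := congrArg (fun A : V →ₗ[F] V => A v) h3
      simp only [Module.End.mul_apply] at h4
      rw [hB.sym, ← skew_aeval hX, h4, skew_aeval hX, mvB_neg, hP, mul_zero]
    rw [h1] at hP
    rw [h2] at hP'
    have ha : I (Polynomial.aeval (X * X) a) := fun Q => by
      have k1 := hP Q
      have k2 := hP' Q
      simp only [LinearMap.add_apply, LinearMap.sub_apply, map_add, map_sub] at k1 k2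
      apply mul_left_cancel₀ hB.two
      linear_combination k1 + k2
    have ha0 := hkey a ha
    rw [ha0, zero_add] at hP h1
    have hb := hmul Polynomial.X _ hP
    rw [Polynomial.aeval_X, ← mul_assoc] at hb
    have hb0 := hkey (Polynomial.X * b) (by rw [map_mul, Polynomial.aeval_X]; exact hb)
    rw [map_mul, Polynomial.aeval_X] at hb0
    rw [h1]
    exact hinj _ (congrArg (fun A : V →ₗ[F] V => A v) hb0)
  refine ⟨U, fun h => hv ?_, hU⟩
  rw [h, Submodule.mem_bot] at hvU
  simp [hvU]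

end Pool.Agent.MP_0c8446_ag

end

section

namespace Pool.Agent.MP_0c8446_ag

open MvPolynomial Set

universe u v w

variable {F : Type u} [Field F] {V : Type u} [AddCommGroup V] [Module F V]
  {B : V →ₗ[F] V →ₗ[F] F} {ε : F} {X : V →ₗ[F] V}

theorem MvC_pow (hX : ∀ x y, B (X x) y = -B x (X y)) (k : ℕ) (x y : V) :
    B x ((X ^ k) y) = (-1) ^ k * B ((X ^ k) x) y := by
  induction k generalizing x with
  | zero => simp
  | succ k ih =>
    have h1 : B x ((X ^ (k + 1)) y) = -B (X x) ((X ^ k) y) := by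
      rw [hX, neg_neg, pow_succ', Module.End.mul_apply]
    rw [h1, ih, pow_succ X, Module.End.mul_apply]
    ring

theorem MvC_div (P : Polynomial F) (v : V) :
    Polynomial.aeval X P v = X (Polynomial.aeval X P.divX v) + P.coeff 0 • v := by
  conv_lhs => rw [← Polynomial.X_mul_divX_add P]
  rw [map_add, map_mul, Polynomial.aeval_X, Polynomial.aeval_C, LinearMap.add_apply,
    Module.End.mul_apply, Module.algebraMap_end_apply]

theorem MvC_top {d : ℕ} (hd : X ^ (d + 1) = 0) (P : Polynomial F) (v : V) :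
    (X ^ d) (Polynomial.aeval X P v) = P.coeff 0 • (X ^ d) v := by
  rw [MvC_div, map_add, map_smul, ← Module.End.mul_apply, ← pow_succ, hd, LinearMap.zero_apply,
    zero_add]

theorem MvC_nd (hX : ∀ x y, B (X x) y = -B x (X y)) {d : ℕ} (hd : X ^ (d + 1) = 0) (p : V → Prop)
    (hp : ∀ u, p u → p (X u))
    (hs : ∀ u, p u → (∀ y, p y → B ((X ^ d) u) y = 0) → ∃ u', p u' ∧ u = X u') {z : V}
    (hz : p z) (h : ∀ y, p y → B z y = 0) : z = 0 := by
  have hp' : ∀ (k : ℕ) u, p u → p ((X ^ k) u) := by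
    intro k
    induction k with
    | zero => exact fun u hu => hu
    | succ k ih =>
      intro u hu
      rw [pow_succ', Module.End.mul_apply]
      exact hp _ (ih u hu)
  have key : ∀ i, i ≤ d + 1 → ∃ u, p u ∧ z = (X ^ i) u := by
    intro i
    induction i with
    | zero => exact fun _ => ⟨z, hz, rfl⟩
    | succ i ih =>
      intro hi
      obtain ⟨u, hu, hzu⟩ := ih (by omega)
      obtain ⟨u', hu', huu⟩ := hs u hu fun y hy => by
        have h1 : (X ^ d) u = (X ^ (d - i)) z := by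
          rw [hzu, ← Module.End.mul_apply, ← pow_add, Nat.sub_add_cancel (by omega)]
        have h2 := MvC_pow hX (d - i) z y
        rw [h _ (hp' _ y hy)] at h2
        rw [h1]
        exact (mul_eq_zero.1 h2.symm).resolve_left (pow_ne_zero _ (neg_ne_zero.2 one_ne_zero))
      exact ⟨u', hu', by rw [hzu, huu, pow_succ, Module.End.mul_apply]⟩
  obtain ⟨u, -, hu⟩ := key (d + 1) le_rfl
  rw [hu, hd, LinearMap.zero_apply]

theorem MvC_dual (hB : MvF B ε) (hX : ∀ x y, B (X x) y = -B x (X y)) {d : ℕ}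
    (hd : X ^ (d + 1) = 0) {v : V} (hv : (X ^ d) v ≠ 0) :
    ∃ w, B ((X ^ d) v) w = 1 ∧ ∀ i, i ≠ d → B ((X ^ i) v) w = 0 := by
  have hbig : ∀ i, d < i → X ^ i = 0 := fun i hi => pow_eq_zero_of_le hi hd
  have key : ∀ j : ℕ, ∃ w, B ((X ^ d) v) w = 1 ∧
      ∀ i, i < d → d ≤ i + j → B ((X ^ i) v) w = 0 := by
    intro j
    induction j with
    | zero =>
      obtain ⟨w, hw⟩ : ∃ w, B ((X ^ d) v) w ≠ 0 := by
        by_contra hc
        exact hv (hB.nd _ fun y => by_contra fun hy => hc ⟨y, hy⟩)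
      refine ⟨(B ((X ^ d) v) w)⁻¹ • w, ?_, fun i h1 h2 => by omega⟩
      rw [map_smul, smul_eq_mul, inv_mul_cancel₀ hw]
    | succ j ih =>
      obtain ⟨w, hw, hw'⟩ := ih
      have h1 : ∀ i, B ((X ^ i) v) ((X ^ (j + 1)) w) =
          (-1) ^ (j + 1) * B ((X ^ (j + 1 + i)) v) w := fun i => by
        rw [MvC_pow hX, pow_add X (j + 1) i, Module.End.mul_apply]
      refine ⟨w - ((-1) ^ (j + 1) * B ((X ^ (d - (j + 1))) v) w) • (X ^ (j + 1)) w, ?_,
        fun i h2 h3 => ?_⟩
      · rw [map_sub, map_smul, h1, hbig (j + 1 + d) (by omega), hw]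
        simp
      · rw [map_sub, map_smul, h1]
        rcases Nat.lt_or_ge (i + j) d with h4 | h4
        · have h5 : j + 1 + i = d := by omega
          have h6 : d - (j + 1) = i := by omega
          have h7 : ((-1 : F) ^ (j + 1)) * (-1) ^ (j + 1) = 1 := by
            rw [← mul_pow]
            simp
          rw [h5, h6, hw, smul_eq_mul]
          linear_combination (-B ((X ^ i) v) w) * h7
        · rw [hw' i h2 h4, hbig (j + 1 + i) (by omega)]
          simp
  obtain ⟨w, hw, hw'⟩ := key d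
  refine ⟨w, hw, fun i hi => ?_⟩
  rcases Nat.lt_or_gt_of_ne hi with h | h
  · exact hw' i h (by omega)
  · rw [hbig i h]
    simp

theorem MvC_comp (P : Polynomial F) :
    Polynomial.aeval X (P.comp (-Polynomial.X)) = Polynomial.aeval (-X) P := by
  rw [Polynomial.aeval_comp, map_neg, Polynomial.aeval_X]

theorem MvC_comp' (P : Polynomial F) :
    Polynomial.aeval (-X) (P.comp (-Polynomial.X)) = Polynomial.aeval X P := by
  rw [MvC_comp, neg_neg]

theorem MvC_comm (P Q : Polynomial F) (x : V) :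
    Polynomial.aeval X P (Polynomial.aeval (-X) Q x) =
      Polynomial.aeval (-X) Q (Polynomial.aeval X P x) := by
  rw [← MvC_comp, ← Module.End.mul_apply, ← map_mul, mul_comm, map_mul, Module.End.mul_apply]

theorem MvC_diag (hX : ∀ x y, B (X x) y = -B x (X y)) (P Q : Polynomial F) (x : V) :
    B (Polynomial.aeval (-X) P x) (Polynomial.aeval (-X) Q x) =
      B (Polynomial.aeval X Q x) (Polynomial.aeval X P x) := by
  have hX' : ∀ x y, B ((-X) x) y = -B x ((-X) y) := fun x y => by simp [hX]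
  rw [skew_aeval hX', neg_neg, MvC_comm, skew_aeval hX]

theorem MvC_pair (hB : MvF B ε) (hX : ∀ x y, B (X x) y = -B x (X y)) {d : ℕ}
    (hd : X ^ (d + 1) = 0) (h0 : ∀ x, B ((X ^ d) x) x = 0) {v : V} (hv : (X ^ d) v ≠ 0) :
    ∃ U : Submodule F V, v ∈ U ∧ MvQ B X (-X) U := by
  obtain ⟨w, hw, hw'⟩ := MvC_dual hB hX hd hv
  have hX' : ∀ x y, B ((-X) x) y = -B x ((-X) y) := fun x y => by simp [hX]
  have hwv : B ((X ^ d) w) v = -1 := by
    have h1 := h0 (v + w)
    simp only [map_add, LinearMap.add_apply, h0, hw] at h1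
    linear_combination h1
  have hε : ε * (-1) ^ d = -1 := by
    have h1 := MvC_pow hX d w v
    rw [hB.sym, hw, hwv] at h1
    have h2 : ((-1 : F) ^ d) * (-1) ^ d = 1 := by
      rw [← mul_pow]
      simp
    linear_combination (-1) ^ d * h1 - h2
  have hK : ∀ R : Polynomial F,
      -B (Polynomial.aeval X R v) w = ε * B (Polynomial.aeval (-X) R v) w := by
    intro R
    induction R using Polynomial.induction_on' with
    | add P Q hP hQ =>
      simp only [map_add, LinearMap.add_apply]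
      linear_combination hP + hQ
    | monomial a c =>
      have h1 : (-X) ^ a = (-1 : F) ^ a • X ^ a := by rw [← smul_pow, neg_one_smul]
      simp only [Polynomial.aeval_monomial, Module.End.mul_apply, Module.algebraMap_end_apply, h1,
        LinearMap.smul_apply, map_smul, smul_eq_mul]
      by_cases ha : a = d
      · rw [ha, hw]
        linear_combination (-c) * hε
      · rw [hw' a ha]
        ring
  have hM : ∀ P Q : Polynomial F,
      -B (Polynomial.aeval (-X) P v) (Polynomial.aeval (-X) Q w) =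
        B (Polynomial.aeval X Q w) (Polynomial.aeval X P v) := by
    intro P Q
    have h1 := hK (Q * P.comp (-Polynomial.X))
    rw [map_mul, map_mul, MvC_comp, MvC_comp', Module.End.mul_apply, Module.End.mul_apply,
      skew_aeval hX Q, skew_aeval hX' Q, neg_neg] at h1
    rw [h1, ← hB.sym]
  let ev : (V →ₗ[F] V) → V → Polynomial F →ₗ[F] V := fun T x =>
    (LinearMap.applyₗ x).comp (Polynomial.aeval T).toLinearMap
  let Φ : Polynomial F × Polynomial F →ₗ[F] V := (ev X v).coprod (ev X w)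
  let Ψ : Polynomial F × Polynomial F →ₗ[F] V := (ev (-X) v).coprod (-ev (-X) w)
  have hΦ : ∀ s, Φ s = Polynomial.aeval X s.1 v + Polynomial.aeval X s.2 w := fun s => rfl
  have hΨ : ∀ s, Ψ s = Polynomial.aeval (-X) s.1 v + -Polynomial.aeval (-X) s.2 w := fun s => rfl
  have h1 : ∀ s, X (Φ s) = Φ (Polynomial.X * s.1, Polynomial.X * s.2) := fun s => by
    simp [hΦ]
  have hv1 : v = Φ (1, 0) := by simp [hΦ]
  have hw1 : w = Φ (0, 1) := by simp [hΦ]
  refine ⟨LinearMap.range Φ, ⟨_, hv1.symm⟩, mvQ_of_pair (Ψ := Ψ)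
    (fun s => (Polynomial.X * s.1, Polynomial.X * s.2)) (fun s hs => ?_) (fun s => ?_)
    (fun s => ?_) (fun s s' => ?_) h1 (fun s => ?_)⟩
  · refine MvC_nd hX hd (fun u => ∃ t, u = Φ t) ?_ ?_ ⟨s, rfl⟩ ?_
    · rintro _ ⟨t, rfl⟩
      exact ⟨_, h1 t⟩
    · rintro _ ⟨t, rfl⟩ ht
      have h2 := ht v ⟨_, hv1⟩
      have h3 := ht w ⟨_, hw1⟩
      rw [hΦ, map_add, MvC_top hd, MvC_top hd] at h2 h3
      simp only [map_add, map_smul, LinearMap.add_apply, LinearMap.smul_apply, h0, hw, hwv,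
        smul_eq_mul, mul_zero, mul_one, add_zero, zero_add, mul_neg, neg_eq_zero] at h2 h3
      refine ⟨Φ (t.1.divX, t.2.divX), ⟨_, rfl⟩, ?_⟩
      rw [hΦ, hΦ, MvC_div t.1, MvC_div t.2, h2, h3]
      simp
    · rintro _ ⟨t, rfl⟩
      exact hs t
  · exact ⟨(s.1.comp (-Polynomial.X), -s.2.comp (-Polynomial.X)), by
      rw [hΦ, hΨ, map_neg, MvC_comp, MvC_comp, LinearMap.neg_apply]⟩
  · exact ⟨(s.1.comp (-Polynomial.X), -s.2.comp (-Polynomial.X)), by
      rw [hΦ, hΨ, map_neg, MvC_comp', MvC_comp', LinearMap.neg_apply, neg_neg]⟩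
  · have h2 := hM s.1 s'.2
    have h3 := hM s'.1 s.2
    rw [hB.sym (Polynomial.aeval (-X) s.2 w), hB.sym (Polynomial.aeval X s'.1 v)] at h3
    have h4 := hB.sq
    simp only [hΦ, hΨ, map_add, map_neg, LinearMap.add_apply, LinearMap.neg_apply, MvC_diag hX]
    linear_combination h2 + ε * h3 +
      (B (Polynomial.aeval (-X) s.2 w) (Polynomial.aeval (-X) s'.1 v) +
        B (Polynomial.aeval X s'.1 v) (Polynomial.aeval X s.2 w)) * h4
  · simp [hΨ, add_comm]

/-- The nilpotent case. -/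
theorem mvQ_nilpotent [Nontrivial V] [FiniteDimensional F V] (hB : MvF B ε)
    (hX : ∀ x y, B (X x) y = -B x (X y)) (hn : IsNilpotent X) :
    ∃ U : Submodule F V, U ≠ ⊥ ∧ MvQ B X (-X) U := by
  obtain ⟨d, hd0, hd⟩ : ∃ d : ℕ, X ^ d ≠ 0 ∧ X ^ (d + 1) = 0 := by
    obtain ⟨n, hn⟩ := hn
    induction n with
    | zero => exact absurd hn (by simp)
    | succ n ih =>
      by_cases h : X ^ n = 0
      · exact ih h
      · exact ⟨n, h, hn⟩
  have hne : ∀ (v : V) (U : Submodule F V), (X ^ d) v ≠ 0 → v ∈ U → U ≠ ⊥ := by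
    rintro v U hv hU rfl
    rw [Submodule.mem_bot] at hU
    exact hv (by rw [hU, map_zero])
  by_cases h0 : ∀ x, B ((X ^ d) x) x = 0
  · obtain ⟨v, hv⟩ : ∃ v, (X ^ d) v ≠ 0 := by
      by_contra hc
      exact hd0 (LinearMap.ext fun y => by_contra fun hy => hc ⟨y, hy⟩)
    obtain ⟨U, hU, hQ⟩ := MvC_pair hB hX hd h0 hv
    exact ⟨U, hne v U hv hU, hQ⟩
  · obtain ⟨v, hv⟩ := not_forall.1 h0
    obtain ⟨U, hU, hQ⟩ := mvQ_cyclic hB hX v fun P hP => by
      refine MvC_nd hX hd (fun u => ∃ Q, u = Polynomial.aeval X Q v) ?_ ?_ ⟨P, rfl⟩ ?_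
      · rintro _ ⟨Q, rfl⟩
        exact ⟨Polynomial.X * Q, by simp⟩
      · rintro _ ⟨Q, rfl⟩ hQ
        have h1 := hQ v ⟨1, by simp⟩
        rw [MvC_top hd, map_smul, LinearMap.smul_apply, smul_eq_mul] at h1
        refine ⟨_, ⟨Q.divX, rfl⟩, ?_⟩
        rw [MvC_div Q, (mul_eq_zero.1 h1).resolve_right hv, zero_smul, add_zero]
      · rintro _ ⟨Q, rfl⟩
        exact hP Q
    exact ⟨U, hne v U (fun h => hv (by rw [h, map_zero, LinearMap.zero_apply])) hU, hQ⟩

end Pool.Agent.MP_0c8446_ag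

end

section

namespace Pool.Agent.MP_0c8446_ag

open MvPolynomial Set

universe u v w

variable {F : Type u} [Field F] {V : Type u} [AddCommGroup V] [Module F V] [FiniteDimensional F V]
  {B : V →ₗ[F] V →ₗ[F] F} {ε : F}

/-- The Fitting decomposition of an operator whose adjoint has the same generalised kernel. -/
theorem MvF.fitting (hB : MvF B ε) {S S' : V →ₗ[F] V} (h : ∀ x y, B (S x) y = B x (S' y))
    (hk : ∀ (i : ℕ) x, (S ^ i) x = 0 ↔ (S' ^ i) x = 0) :
    ∃ N : ℕ, 0 < N ∧ IsCompl (LinearMap.ker (S ^ N)) (LinearMap.range (S ^ N)) ∧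
      (∀ x ∈ LinearMap.range (S ^ N), ∀ y ∈ LinearMap.ker (S ^ N), B x y = 0) ∧
      (∀ x ∈ LinearMap.ker (S ^ N), (∀ y ∈ LinearMap.ker (S ^ N), B x y = 0) → x = 0) ∧
      ∀ x ∈ LinearMap.range (S ^ N), (∀ y ∈ LinearMap.range (S ^ N), B x y = 0) → x = 0 := by
  obtain ⟨N, hN, hc⟩ := ((Filter.eventually_gt_atTop 0).and
    S.eventually_isCompl_ker_pow_range_pow).exists
  have adj : ∀ (n : ℕ) x y, B ((S ^ n) x) y = B x ((S' ^ n) y) := by
    intro n
    induction n with
    | zero => simp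
    | succ n ih =>
      intro x y
      rw [pow_succ' S, pow_succ S', Module.End.mul_apply, Module.End.mul_apply, h, ih]
  have ho : ∀ x ∈ LinearMap.range (S ^ N), ∀ y ∈ LinearMap.ker (S ^ N), B x y = 0 := by
    rintro _ ⟨z, rfl⟩ y hy
    rw [adj, (hk N y).1 hy, map_zero]
  refine ⟨N, hN, hc, ho, fun x hx h1 => hB.nd x fun y => ?_, fun x hx h1 => hB.nd x fun y => ?_⟩
  · obtain ⟨a, ha, b, hb, rfl⟩ := Submodule.mem_sup.1 (hc.sup_eq_top ▸ Submodule.mem_top (x := y))
    rw [map_add, h1 a ha, hB.sym b x, ho b hb x hx, mul_zero, add_zero]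
  · obtain ⟨a, ha, b, hb, rfl⟩ := Submodule.mem_sup.1 (hc.sup_eq_top ▸ Submodule.mem_top (x := y))
    rw [map_add, h1 b hb, ho x hx a ha, add_zero]

/-- A skew-adjoint operator is turned into its negative by an anti-isometry. -/
theorem mvQ_lie (hB : MvF B ε) {X : V →ₗ[F] V} (hX : ∀ x y, B (X x) y = -B x (X y)) :
    MvQ B X (-X) ⊤ := by
  induction hn : Module.finrank F V using Nat.strong_induction_on generalizing V with
  | _ n ih =>
  have sub : ∀ U : Submodule F V, U ≠ ⊤ → (∀ x ∈ U, X x ∈ U) →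
      (∀ x ∈ U, (∀ y ∈ U, B x y = 0) → x = 0) → MvQ B X (-X) U := fun U hU h1 h2 => by
    have h3 : ∀ x ∈ U, (-X) x ∈ U := fun x hx => U.neg_mem (h1 x hx)
    exact MvQ.of_restrict h1 h3 (ih _ (hn ▸ Submodule.finrank_lt hU) (hB.restrict h2)
      (X := X.restrict h1) (fun x y => hX x y) rfl)
  rcases subsingleton_or_nontrivial V with hV | hV
  · exact ⟨fun _ _ => trivial, fun _ _ _ => Subsingleton.elim _ _, 0, fun _ _ => trivial,
      fun x _ y _ => by rw [Subsingleton.elim y 0]; simp, fun _ _ => Subsingleton.elim _ _⟩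
  have hint : IsIntegral F (X * X) := Algebra.IsIntegral.isIntegral _
  obtain ⟨f, hf, g, hg⟩ := Polynomial.exists_irreducible_of_degree_pos (minpoly.degree_pos hint)
  set S := Polynomial.aeval (X * X) f with hS
  have hSa : ∀ x y, B (S x) y = B x (S y) := fun x y => by
    have e : ∀ Y : V →ₗ[F] V, Y * Y = X * X →
        S = Polynomial.aeval Y (f.comp (Polynomial.X * Polynomial.X)) := fun Y hY => by
      rw [Polynomial.aeval_comp, map_mul, Polynomial.aeval_X, hY]
    have := skew_aeval hX (f.comp (Polynomial.X * Polynomial.X)) x y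
    rwa [← e X rfl, ← e (-X) (neg_mul_neg X X)] at this
  have hcomm : ∀ (N : ℕ) x, X ((S ^ N) x) = (S ^ N) (X x) := fun N x => by
    have : Commute X S := by
      rw [hS, Polynomial.aeval_eq_sum_range]
      exact Commute.sum_right _ _ _ fun i _ =>
        (((Commute.refl X).mul_right (Commute.refl X)).pow_right i).smul_right _
    exact LinearMap.congr_fun (this.pow_right N).eq x
  obtain ⟨N, hN, hc, ho, hk, hr⟩ := hB.fitting hSa fun _ _ => Iff.rfl
  by_cases htop : LinearMap.ker (S ^ N) = ⊤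
  · have hnil : IsNilpotent S := ⟨N, LinearMap.ker_eq_top.1 htop⟩
    obtain ⟨U, hU, hQ⟩ : ∃ U : Submodule F V, U ≠ ⊥ ∧ MvQ B X (-X) U := by
      by_cases h0 : f.coeff 0 = 0
      · obtain ⟨c, hc⟩ := Polynomial.X_dvd_iff.2 h0
        obtain ⟨d, hd⟩ := ((hf.isUnit_or_isUnit hc).resolve_left
          Polynomial.not_isUnit_X).exists_right_inv
        have e : X ^ 2 = S * Polynomial.aeval (X * X) d := by
          rw [hS, ← map_mul, hc, mul_assoc, hd, mul_one, Polynomial.aeval_X, sq]
        refine mvQ_nilpotent hB hX (IsNilpotent.of_pow (m := 2) ?_)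
        rw [e]
        exact (Commute.map (Commute.all f d) (Polynomial.aeval (X * X))).isNilpotent_mul_right
          hnil
      · exact mvQ_primary hB hX hf h0 hnil
    obtain ⟨U', h1, h2, h3⟩ := hB.exists_perp hQ.2.1
    rw [← h2.sup_eq_top]
    refine hQ.glue (sub U' (fun h => hU (disjoint_top.1 (h ▸ h2.disjoint)))
      (fun y hy => (h1 _).2 fun x hx => ?_) h3) hB fun x hx y hy => (h1 y).1 hy x hx
    rw [← neg_eq_zero, ← hX, (h1 y).1 hy _ (hQ.1 x hx)]
  · rw [← hc.sup_eq_top]
    refine (sub _ htop (fun x hx => ?_) hk).glue (sub _ (fun h => ?_) ?_ hr) hB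
      fun x hx y hy => by rw [hB.sym y x, ho y hy x hx, mul_zero]
    · rw [LinearMap.mem_ker, ← hcomm, LinearMap.mem_ker.1 hx, map_zero]
    · have hu : IsUnit S := (isUnit_pow_iff hN.ne').1
        ((LinearMap.isUnit_iff_range_eq_top _).2 h)
      have h1 : Polynomial.aeval (X * X) g = 0 := by
        have := minpoly.aeval F (X * X)
        rw [hg, map_mul] at this
        exact hu.mul_right_eq_zero.1 this
      have h2 : f * g ∣ 1 * g := by
        rw [one_mul, ← hg]
        exact minpoly.dvd F _ h1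
      have h3 : g ≠ 0 := by
        rintro rfl
        exact minpoly.ne_zero hint (hg.trans (mul_zero f))
      exact hf.not_isUnit (isUnit_of_dvd_one ((mul_dvd_mul_iff_right h3).1 h2))
    · rintro _ ⟨z, rfl⟩
      exact ⟨X z, (hcomm N z).symm⟩

end Pool.Agent.MP_0c8446_ag

end

section

namespace Pool.Agent.MP_0c8446_ag

open MvPolynomial Set Matrix

universe u v w

variable {F : Type u} [Field F] {V : Type u} [AddCommGroup V] [Module F V] [FiniteDimensional F V]
  {B : V →ₗ[F] V →ₗ[F] F} {ε : F}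

/-- The Cayley transform. -/
theorem mvQ_cayley (hB : MvF B ε) {g g' : V →ₗ[F] V} (hg : g * g' = 1)
    (h : ∀ x y, B (g x) (g y) = B x y) (hu : IsUnit (g + 1)) : MvQ B g g' ⊤ := by
  obtain ⟨u, hu1, hu2⟩ := isUnit_iff_exists.1 hu
  have e1 : ∀ x, g (u x) + u x = x := fun x => LinearMap.congr_fun hu1 x
  have e2 : ∀ x, u (g x + x) = x := fun x => LinearMap.congr_fun hu2 x
  have e3 : ∀ x, g' (g x) = x := fun x => LinearMap.congr_fun (mul_eq_one_comm.1 hg) x
  have e4 : ∀ x, ((g - 1) * u) x = g (u x) - u x := fun x => rfl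
  have hX : ∀ x y, B (((g - 1) * u) x) y = -B x (((g - 1) * u) y) := by
    intro x y
    rw [e4, e4]
    have h1 : B (g (u x) - u x) y = B (g (u x) - u x) (g (u y) + u y) := by rw [e1]
    have h2 : B x (g (u y) - u y) = B (g (u x) + u x) (g (u y) - u y) := by rw [e1]
    rw [h1, h2]
    simp only [map_add, map_sub, LinearMap.add_apply, LinearMap.sub_apply, h]
    ring
  obtain ⟨-, hnd, η, h1, h2, h3⟩ := mvQ_lie hB hX
  refine ⟨fun _ _ => Submodule.mem_top, hnd, η, h1, h2, fun x _ => ?_⟩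
  have h4 := h3 (g x + x) Submodule.mem_top
  rw [LinearMap.neg_apply, e4, e4, e2, map_sub, map_add] at h4
  have h5 := e1 (η (g x) + η x)
  generalize u (η (g x) + η x) = w at h4 h5
  have h6 : (2 : F) • η (g x) = (2 : F) • w := by
    rw [two_smul, two_smul]
    linear_combination (norm := abel) h4 - h5
  have h7 : (2 : F) • η x = (2 : F) • g w := by
    rw [two_smul, two_smul]
    linear_combination (norm := abel) -h4 - h5
  rw [smul_right_injective V hB.two h6, smul_right_injective V hB.two h7, e3]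

theorem MvE_sub (hB : MvF B ε) {g g' : V →ₗ[F] V} (hg : g * g' = 1)
    (h : ∀ x y, B (g x) (g y) = B x y) {U : Submodule F V} (hU : ∀ x ∈ U, g x ∈ U)
    (hU' : ∀ x ∈ U, g' x ∈ U) (hnd : ∀ x ∈ U, (∀ y ∈ U, B x y = 0) → x = 0)
    (hu : ∀ x ∈ U, g x + x = 0 → x = 0) : MvQ B g g' U := by
  refine MvQ.of_restrict hU hU' (mvQ_cayley (hB.restrict hnd) ?_ (fun x y => h x y) ?_)
  · exact LinearMap.ext fun x => Subtype.ext (LinearMap.congr_fun hg x)
  · rw [LinearMap.isUnit_iff_ker_eq_bot, LinearMap.ker_eq_bot']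
    exact fun x hx => Subtype.ext (hu x x.2 (congrArg Subtype.val hx))

omit [FiniteDimensional F V] in
theorem MvE_neg {g g' : V →ₗ[F] V} {U : Submodule F V} (h : MvQ B (-g) (-g') U) :
    MvQ B g g' U := by
  obtain ⟨h0, hnd, η, h1, h2, h3⟩ := h
  refine ⟨fun x hx => U.neg_mem_iff.1 (h0 x hx), hnd, η, h1, h2, fun x hx => ?_⟩
  have h4 := h3 x hx
  rw [LinearMap.neg_apply, LinearMap.neg_apply, map_neg] at h4
  exact neg_injective h4

/-- An isometry is turned into its inverse by an anti-isometry. -/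
theorem mvQ_group (hB : MvF B ε) {g g' : V →ₗ[F] V} (hg : g * g' = 1)
    (h : ∀ x y, B (g x) (g y) = B x y) : MvQ B g g' ⊤ := by
  have hg' : g' * g = 1 := mul_eq_one_comm.1 hg
  have e1 : ∀ x, g (g' x) = x := fun x => LinearMap.congr_fun hg x
  have e3 : ∀ x, g' (g x) = x := fun x => LinearMap.congr_fun hg' x
  have c1 : Commute g (g + 1) := (Commute.refl g).add_right (Commute.one_right g)
  have c2 : Commute g' (g + 1) :=
    Commute.add_right (hg'.trans hg.symm) (Commute.one_right g')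
  have hS : ∀ x y, B ((g + 1) x) y = B x ((g' + 1) y) := by
    intro x y
    have h1 := h x (g' y)
    rw [e1] at h1
    simp only [LinearMap.add_apply, Module.End.one_apply, map_add, h1]
  have hk : ∀ (i : ℕ) x, ((g + 1) ^ i) x = 0 ↔ ((g' + 1) ^ i) x = 0 := by
    intro i x
    have h1 : g' + 1 = g' * (g + 1) := by rw [mul_add, hg', mul_one, add_comm]
    have h2 : Function.Injective g' := Function.LeftInverse.injective e1
    rw [h1, c2.mul_pow, Module.End.mul_apply,
      map_eq_zero_iff _ (Module.End.iterate_injective h2 i)]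
  obtain ⟨N, hN, hc, ho, hK, hR⟩ := hB.fitting hS hk
  have k1 : ∀ T : V →ₗ[F] V, Commute T (g + 1) →
      ∀ x ∈ LinearMap.ker ((g + 1) ^ N), T x ∈ LinearMap.ker ((g + 1) ^ N) := by
    intro T hT x hx
    rw [LinearMap.mem_ker] at hx ⊢
    rw [← Module.End.mul_apply, ← (hT.pow_right N).eq, Module.End.mul_apply, hx, map_zero]
  have k2 : ∀ T : V →ₗ[F] V, Commute T (g + 1) →
      ∀ x ∈ LinearMap.range ((g + 1) ^ N), T x ∈ LinearMap.range ((g + 1) ^ N) := by
    rintro T hT _ ⟨y, rfl⟩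
    exact ⟨T y, by rw [← Module.End.mul_apply, ← (hT.pow_right N).eq, Module.End.mul_apply]⟩
  have q1 : MvQ B g g' (LinearMap.range ((g + 1) ^ N)) := by
    refine MvE_sub hB hg h (k2 g c1) (k2 g' c2) hR fun x hx h0 => ?_
    refine (Submodule.disjoint_def.1 hc.disjoint) x ?_ hx
    obtain ⟨m, rfl⟩ := Nat.exists_eq_succ_of_ne_zero hN.ne'
    have h1 : (g + 1) x = 0 := h0
    rw [LinearMap.mem_ker, pow_succ, Module.End.mul_apply, h1, map_zero]
  have q2 : MvQ B g g' (LinearMap.ker ((g + 1) ^ N)) := by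
    refine MvE_neg (MvE_sub hB (by rw [neg_mul_neg, hg]) (fun x y => ?_) (k1 _ c1.neg_left)
      (k1 _ c2.neg_left) hK fun x hx h0 => ?_)
    · simp only [LinearMap.neg_apply, map_neg, neg_neg, h]
    · have h1 : (g + 1) x = (2 : F) • x := by
        rw [LinearMap.neg_apply, neg_add_eq_zero] at h0
        rw [LinearMap.add_apply, h0, Module.End.one_apply, two_smul]
      have h2 : ∀ i : ℕ, ((g + 1) ^ i) x = (2 : F) ^ i • x := by
        intro i
        induction i with
        | zero => simp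
        | succ i ih => rw [pow_succ, Module.End.mul_apply, h1, map_smul, ih, smul_smul, pow_succ']
      rw [LinearMap.mem_ker, h2] at hx
      exact (smul_eq_zero.1 hx).resolve_left (pow_ne_zero N hB.two)
  have q := q1.glue q2 hB ho
  rwa [hc.symm.sup_eq_top] at q

theorem exists_mvw {n : ℕ} {M g : Matrix (Fin n) (Fin n) F} (two : (2 : F) ≠ 0) (sq : ε * ε = 1)
    (hM : IsUnit M) (h : Mᵀ = ε • M) (hg : gᵀ * M * g = M) :
    ∃ η : Matrix (Fin n) (Fin n) F, ηᵀ * M * η = Mᵀ ∧ g * η * g = η := by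
  have t1 : ∀ (A : Matrix (Fin n) (Fin n) F) (x y : Fin n → F),
      x ⬝ᵥ Aᵀ *ᵥ y = y ⬝ᵥ A *ᵥ x := by
    intro A x y
    rw [Matrix.dotProduct_mulVec, Matrix.vecMul_transpose, dotProduct_comm]
  have t2 : ∀ (A : Matrix (Fin n) (Fin n) F) (x y : Fin n → F),
      x ⬝ᵥ (Aᵀ * M * A) *ᵥ y = (A *ᵥ x) ⬝ᵥ M *ᵥ A *ᵥ y := by
    intro A x y
    rw [← Matrix.mulVec_mulVec, ← Matrix.mulVec_mulVec, Matrix.dotProduct_mulVec x Aᵀ,
      Matrix.vecMul_transpose]
  have hB : MvF (Matrix.toLinearMap₂' F M : (Fin n → F) →ₗ[F] (Fin n → F) →ₗ[F] F) ε := by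
    refine ⟨two, sq, fun x y => ?_, fun x hx => ?_⟩
    · rw [Matrix.toLinearMap₂'_apply', Matrix.toLinearMap₂'_apply', ← t1, h, Matrix.smul_mulVec,
        dotProduct_smul, smul_eq_mul]
    · refine Matrix.vecMul_injective_iff_isUnit.2 hM ?_
      have h1 := hx
      simp only [Matrix.toLinearMap₂'_apply', Matrix.dotProduct_mulVec] at h1
      show x ᵥ* M = 0 ᵥ* M
      rw [Matrix.zero_vecMul]
      exact dotProduct_eq_zero _ h1
  have hu : IsUnit g := by
    have h1 : IsUnit (gᵀ * M * g) := by rw [hg]; exact hM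
    exact isUnit_of_mul_isUnit_right h1
  obtain ⟨g', h1, -⟩ := isUnit_iff_exists.1 hu
  have h2 : Matrix.toLin' g * Matrix.toLin' g' = 1 := by
    rw [Module.End.mul_eq_comp, ← Matrix.toLin'_mul, h1, Matrix.toLin'_one]
    rfl
  obtain ⟨-, -, η, -, h3, h4⟩ := mvQ_group hB h2 fun x y => by
    rw [Matrix.toLinearMap₂'_apply', Matrix.toLinearMap₂'_apply', Matrix.toLin'_apply,
      Matrix.toLin'_apply, ← t2, hg]
  obtain ⟨H, rfl⟩ := Matrix.toLin'.surjective η
  refine ⟨H, ?_, ?_⟩
  · refine (Matrix.toLinearMap₂' F :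
      _ ≃ₗ[F] (Fin n → F) →ₗ[F] (Fin n → F) →ₗ[F] F).injective (LinearMap.ext₂ fun x y => ?_)
    have h5 := h3 x Submodule.mem_top y Submodule.mem_top
    rw [Matrix.toLinearMap₂'_apply', Matrix.toLinearMap₂'_apply', Matrix.toLin'_apply,
      Matrix.toLin'_apply] at h5
    rw [Matrix.toLinearMap₂'_apply', Matrix.toLinearMap₂'_apply', t2, t1, h5]
  · have h5 : H * g = g' * H := by
      refine Matrix.toLin'.injective (LinearMap.ext fun x => ?_)
      rw [Matrix.toLin'_mul, Matrix.toLin'_mul]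
      exact h4 x Submodule.mem_top
    rw [mul_assoc, h5, ← mul_assoc, h1, one_mul]

end Pool.Agent.MP_0c8446_ag

end
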