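import Pool.Agent.Mg.F0c8446.G61fd81

namespace Pool.Agent.MP_0c8446_ag

open Set

universe u v w

set_option linter.unusedSectionVars false

section aux

open MvPolynomial Module Topology

lemma amb_dim_image {X Y : Type u} [TopologicalSpace X] [TopologicalSpace Y] {f : X → Y}
    (h : IsClosedEmbedding f) (Z : Set X) : dim (f '' Z) = dim Z := by
  unfold dim
  congr 1
  ext r
  constructor
  · rintro ⟨C, h1, h2⟩
    have e : ∀ i, f '' (f ⁻¹' C i) = C i := fun i =>
      image_preimage_eq_of_subset ((h2 i).2.trans (image_subset_range _ _))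
    refine ⟨fun i => f ⁻¹' C i, fun i j hij => ?_,
      fun i => ⟨⟨⟨?_, ?_⟩, (h2 i).1.2.preimage h.continuous⟩, ?_⟩⟩
    · refine lt_of_le_of_ne (preimage_mono (h1 hij).le) fun e2 => (h1 hij).ne ?_
      rw [← e i, ← e j]
      exact congrArg _ e2
    · exact image_nonempty.1 (by rw [e i]; exact (h2 i).1.1.1)
    · refine isPreirreducible_iff_isClosed_union_isClosed.2 fun F G hF hG hFG => ?_
      have := isPreirreducible_iff_isClosed_union_isClosed.1 (h2 i).1.1.2 _ _
        (h.isClosedMap _ hF) (h.isClosedMap _ hG) (by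
          rw [← e i, ← image_union]
          exact image_mono hFG)
      refine this.imp (fun h3 x hx => ?_) fun h3 x hx => ?_ <;>
      · obtain ⟨y, hy, e3⟩ := h3 hx
        rwa [← h.injective e3]
    · intro x hx
      obtain ⟨y, hy, e3⟩ := (h2 i).2 hx
      rwa [← h.injective e3]
  · rintro ⟨C, h1, h2⟩
    refine ⟨fun i => f '' C i, fun i j hij => ?_, fun i => ⟨⟨(h2 i).1.1.image f
      h.continuous.continuousOn, h.isClosedMap _ (h2 i).1.2⟩, image_mono (h2 i).2⟩⟩
    exact lt_of_le_of_ne (image_mono (h1 hij).le) fun e =>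
      (h1 hij).ne (h.injective.image_injective e)

lemma amb_isSub_preimage {X : Type u} [TopologicalSpace X] {Z : Set X} (h : IsSub Z) :
    IsSub (Subtype.val ⁻¹' Z : Set (univ : Set X)) :=
  ⟨h.1.preimage isOpen_univ.isOpenEmbedding_subtypeVal
    (by rw [Subtype.range_coe, inter_univ]; exact h.1.1), h.2.preimage continuous_subtype_val⟩

variable {k : Type u} [Field k] {ι : Type} {n : ι → ℕ}

/-- The point with given coordinates. -/
noncomputable def ambPt (v : Vars n → k) (h : ∀ i, (fun s => v ⟨i, s⟩) ≠ 0) : MP k n :=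
  fun i => Projectivization.mk k _ (h i)

lemma amb_isRep (v : Vars n → k) (h : ∀ i, (fun s => v ⟨i, s⟩) ≠ 0) : IsRep v (ambPt v h) :=
  fun i => ⟨h i, rfl⟩

/-- Linear subvarieties. -/
def ambL (V : ∀ i, Submodule k (Fin (n i + 1) → k)) : Set (MP k n) := {x | ∀ i, (x i).rep ∈ V i}

lemma amb_mem {V : ∀ i, Submodule k (Fin (n i + 1) → k)} {v : Vars n → k} {x : MP k n}
    (h : IsRep v x) : x ∈ ambL V ↔ ∀ i, (fun s => v ⟨i, s⟩) ∈ V i := by
  obtain ⟨t, ht, rfl⟩ := (isRep_rep x).exists_smul h
  exact forall_congr' fun i => ((V i).smul_mem_iff (ht i)).symm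

lemma amb_hyp_eq (i : ι) (c : Fin (n i + 1) → k) :
    hyp i c = {x | Vanish (∑ s, C (c s) * X ⟨i, s⟩) x} := by
  ext x
  constructor
  · intro hx v hv
    obtain ⟨t, -, rfl⟩ := (isRep_rep x).exists_smul hv
    have hx : ∑ s, c s * (x i).rep s = 0 := hx
    simp only [map_sum, map_mul, eval_C, eval_X, MP.rep, mul_left_comm _ (t i), ← Finset.mul_sum,
      hx, mul_zero]
  · intro hx
    simpa [MP.rep, hyp] using hx _ (isRep_rep x)

lemma amb_isClosed_hyp (i : ι) (c : Fin (n i + 1) → k) : IsClosed (hyp i c) :=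
  amb_hyp_eq i c ▸ isClosed_vanish _

lemma amb_isClosed (V : ∀ i, Submodule k (Fin (n i + 1) → k)) : IsClosed (ambL V) := by
  have : ambL V = ⋂ i, ⋂ φ ∈ (V i).dualAnnihilator,
      hyp i fun s => φ fun j => if s = j then 1 else 0 := by
    ext x
    simp only [mem_iInter]
    refine forall_congr' fun i => ?_
    rw [← Subspace.forall_mem_dualAnnihilator_apply_eq_zero_iff]
    refine forall₂_congr fun φ _ => ?_
    rw [LinearMap.pi_apply_eq_sum_univ]
    simp only [smul_eq_mul, mul_comm ((x i).rep _)]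
    rfl
  rw [this]
  exact isClosed_iInter fun i => isClosed_biInter fun φ _ => amb_isClosed_hyp _ _

/-- The restriction of a polynomial to a line. -/
noncomputable def ambLine (v w : Vars n → k) : MvPolynomial (Vars n) k →ₐ[k] Polynomial k :=
  aeval fun a => Polynomial.C (v a) + Polynomial.X * Polynomial.C (w a - v a)

lemma amb_eval_line (v w : Vars n → k) (t : k) (f : MvPolynomial (Vars n) k) :
    (ambLine v w f).eval t = eval (fun a => v a + t * (w a - v a)) f := by
  induction f using MvPolynomial.induction_on with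
  | C c => simp [ambLine]
  | add f g hf hg => simp [hf, hg]
  | mul_X f a hf => rw [map_mul, Polynomial.eval_mul, hf, map_mul]; simp [ambLine]

lemma amb_exists {V : ∀ i, Submodule k (Fin (n i + 1) → k)} (hV : ∀ i, V i ≠ ⊥) :
    (ambL V).Nonempty := by
  choose v hv h0 using fun i => Submodule.exists_mem_ne_zero_of_ne_bot (hV i)
  exact ⟨_, (amb_mem (amb_isRep (fun a => v a.1 a.2) h0)).2 hv⟩

variable [Infinite k] [Fintype ι]

lemma amb_isSub {V : ∀ i, Submodule k (Fin (n i + 1) → k)} (hV : ∀ i, V i ≠ ⊥) :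
    IsSub (ambL V) := by
  refine ⟨isIrreducible_of_prime ⟨?_, fun {f g} h => ?_⟩, amb_isClosed V⟩
  · obtain ⟨x, hx⟩ := amb_exists hV
    rw [Ideal.ne_top_iff_one]
    exact fun h => not_vanish_one x (h x hx)
  by_contra hne
  simp only [mem_vI, Vanish, not_or, not_forall] at hne
  obtain ⟨⟨x, hx, v, hv, hf⟩, y, hy, w, hw, hg⟩ := hne
  choose s hs using fun i => Function.ne_iff.1 (hv i).1
  have h1 : ambLine v w f * ambLine v w g * ∏ i, ambLine v w (X ⟨i, s i⟩) = 0 := by
    refine Polynomial.funext fun t => ?_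
    rw [← map_mul, Polynomial.eval_mul, Polynomial.eval_prod, Polynomial.eval_zero, mul_eq_zero,
      amb_eval_line]
    by_cases h0 : ∀ i, (fun s => v ⟨i, s⟩ + t * (w ⟨i, s⟩ - v ⟨i, s⟩)) ≠ 0
    · have h2 := amb_isRep (fun a => v a + t * (w a - v a)) h0
      refine Or.inl (h _ ((amb_mem h2).2 fun i => ?_) _ h2)
      have h3 := (amb_mem hv).1 hx i
      exact (V i).add_mem h3 ((V i).smul_mem t ((V i).sub_mem ((amb_mem hw).1 hy i) h3))
    · push Not at h0
      obtain ⟨i, hi⟩ := h0
      refine Or.inr (Finset.prod_eq_zero (Finset.mem_univ i) ?_)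
      rw [amb_eval_line, eval_X]
      exact congrFun hi (s i)
  have h2 : ∀ (p : MvPolynomial (Vars n) k) (t : k),
      eval (fun a => v a + t * (w a - v a)) p ≠ 0 → ambLine v w p ≠ 0 := fun p t hp e =>
    hp (by rw [← amb_eval_line, e, Polynomial.eval_zero])
  refine mul_ne_zero (mul_ne_zero (h2 f 0 (by simpa using hf)) (h2 g 1 (by simpa using hg)))
    (Finset.prod_ne_zero_iff.2 fun i _ => h2 _ 0 ?_) h1
  simpa using hs i

omit [Infinite k] in
lemma amb_sum_update [DecidableEq ι] (V : ∀ i, Submodule k (Fin (n i + 1) → k)) (i : ι)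
    (W : Submodule k (Fin (n i + 1) → k)) (h : finrank k W + 1 = finrank k (V i))
    (h' : 0 < finrank k W) :
    ∑ j, (finrank k (Function.update V i W j) - 1) + 1 = ∑ j, (finrank k (V j) - 1) := by
  rw [← Finset.add_sum_erase _ _ (Finset.mem_univ i), ← Finset.add_sum_erase _ _ (Finset.mem_univ i),
    Function.update_self, Finset.sum_congr rfl fun j hj => by
      rw [Function.update_of_ne (Finset.ne_of_mem_erase hj)]]
  omega

omit [Infinite k] [Fintype ι] in
lemma amb_update_ne [DecidableEq ι] {V : ∀ i, Submodule k (Fin (n i + 1) → k)} (hV : ∀ i, V i ≠ ⊥)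
    (i : ι) {W : Submodule k (Fin (n i + 1) → k)} (h' : 0 < finrank k W) (j : ι) :
    Function.update V i W j ≠ ⊥ := by
  by_cases e : j = i
  · subst e
    rw [Function.update_self]
    rintro rfl
    simp at h'
  · rw [Function.update_of_ne e]
    exact hV j

omit [Infinite k] [Fintype ι] in
lemma amb_ssubset [DecidableEq ι] {V : ∀ i, Submodule k (Fin (n i + 1) → k)} (hV : ∀ i, V i ≠ ⊥)
    (i : ι) {W : Submodule k (Fin (n i + 1) → k)} (h : W < V i) :
    (Subtype.val ⁻¹' ambL (Function.update V i W) : Set (univ : Set (MP k n))) ⊂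
      Subtype.val ⁻¹' ambL V := by
  refine ⟨fun x hx j => (update_le_self_iff (x := V)).2 h.le j (hx j), fun h1 => ?_⟩
  obtain ⟨a, ha, ha'⟩ := SetLike.exists_of_lt h
  have h2 : ∀ j, ∃ b ∈ V j, b ≠ 0 ∧ ∀ e : j = i, b ∉ Function.update V i W j := fun j => by
    by_cases e : j = i
    · subst e
      refine ⟨a, ha, fun e => ha' (e ▸ W.zero_mem), fun _ => ?_⟩
      rwa [Function.update_self]
    · obtain ⟨b, hb, h0⟩ := Submodule.exists_mem_ne_zero_of_ne_bot (hV j)
      exact ⟨b, hb, h0, fun e' => absurd e' e⟩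
  choose v hv h0 h3 using h2
  have h4 := amb_isRep (fun a : Vars n => v a.1 a.2) h0
  exact h3 i rfl ((amb_mem h4).1 (h1 (a := ⟨_, trivial⟩) ((amb_mem h4).2 hv)) i)

lemma amb_chain (N : ℕ) (V : ∀ i, Submodule k (Fin (n i + 1) → k)) (hV : ∀ i, V i ≠ ⊥)
    (hN : ∑ j, (finrank k (V j) - 1) = N) :
    HasChain (Subtype.val ⁻¹' ambL V : Set (univ : Set (MP k n))) N := by
  classical
  induction N generalizing V with
  | zero => exact (amb_isSub_preimage (amb_isSub hV)).hasChain_zero subset_rfl
  | succ N ih =>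
    obtain ⟨i, -, hi⟩ := Finset.exists_ne_zero_of_sum_ne_zero (hN.trans_ne N.succ_ne_zero)
    replace hi : 1 < finrank k (V i) := by omega
    have : Nontrivial (V i) := Submodule.nontrivial_iff_ne_bot.2 (hV i)
    obtain ⟨φ, hφ⟩ := exists_ne (0 : Module.Dual k (V i))
    have h1 := Module.Dual.finrank_ker_add_one_of_ne_zero hφ
    rw [← Submodule.finrank_map_subtype_eq] at h1
    have h2 := amb_sum_update V i _ h1 (by omega)
    refine (ih _ (amb_update_ne hV i (by omega)) (Nat.succ_injective (h2.trans hN))).succ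
      (amb_ssubset hV i ?_) (amb_isSub_preimage (amb_isSub hV))
    refine lt_of_le_of_ne (Submodule.map_subtype_le _ _) fun e => ?_
    rw [e] at h1
    omega

omit [Infinite k] [Fintype ι] in
lemma amb_top : ambL (fun i => (⊤ : Submodule k (Fin (n i + 1) → k))) = univ :=
  eq_univ_of_forall fun _ _ => trivial

omit [Infinite k] in
lemma amb_sum_top : ∑ j, (finrank k (⊤ : Submodule k (Fin (n j + 1) → k)) - 1) = ∑ j, n j := by
  simp

lemma amb_le_dim : ∑ i, n i ≤ dim (univ : Set (univ : Set (MP k n))) :=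
  ((amb_chain _ _ (fun _ => top_ne_bot) amb_sum_top).mono (subset_univ _)).le_dim

omit [Infinite k] in
lemma amb_card : Fintype.card (Vars n) = ∑ i, n i + Fintype.card ι := by
  simp [Finset.sum_add_distrib]

open Classical in
/-- The primes above the ideal of a point. -/
noncomputable def ambQ (v : Vars n → k) (J : Finset ι) :
    PrimeSpectrum (MvPolynomial (Vars n) k) :=
  ⟨RingHom.ker (aeval (R := k) fun a : Vars n =>
    if a.1 ∈ J then 0 else (X a.1 * C (v a) : MvPolynomial ι k)), RingHom.ker_isPrime _⟩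

omit [Infinite k] [Fintype ι] in
lemma amb_height {v : Vars n → k} {x : MP k n} (hv : IsRep v x) (J : Finset ι) :
    Order.height (ambQ v ∅) + J.card ≤ Order.height (ambQ v J) := by
  classical
  induction J using Finset.induction_on with
  | empty => simp
  | insert i J hi ih =>
    rw [Finset.card_insert_of_notMem hi, Nat.cast_succ, ← add_assoc]
    refine (add_le_add ih le_rfl).trans (Order.height_add_one_le ?_)
    rw [← PrimeSpectrum.asIdeal_lt_asIdeal]
    refine lt_of_le_of_ne (fun f hf => ?_) fun e => ?_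
    · have e : (aeval (R := k) fun a : Vars n => if a.1 ∈ insert i J then 0 else
          (X a.1 * C (v a) : MvPolynomial ι k)) = (aeval fun j => if j = i then 0 else X j).comp
          (aeval (R := k) fun a : Vars n => if a.1 ∈ J then 0 else
            (X a.1 * C (v a) : MvPolynomial ι k)) := by
        refine MvPolynomial.algHom_ext fun a => ?_
        by_cases h1 : a.1 = i
        · simp [h1, hi]
        · by_cases h2 : a.1 ∈ J <;> simp [h1, h2]
      simp only [ambQ, RingHom.mem_ker] at hf ⊢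
      convert_to (aeval (R := k) fun a : Vars n => if a.1 ∈ insert i J then 0 else
        (X a.1 * C (v a) : MvPolynomial ι k)) f = 0
      rw [e, AlgHom.comp_apply, hf, map_zero]
    · obtain ⟨s, hs⟩ := Function.ne_iff.1 (hv i).1
      have h1 : X ⟨i, s⟩ ∈ (ambQ v (insert i J)).asIdeal := by simp [ambQ]
      rw [← e] at h1
      simp [ambQ, hi] at h1
      exact hs h1

lemma amb_dim_le : dim (univ : Set (univ : Set (MP k n))) ≤ ∑ i, n i := by
  refine dim_le_of fun r ⟨C, h1, h2⟩ => ?_
  obtain ⟨P, hP, e⟩ := chain_primes C h1 fun i => (h2 i).1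
  obtain ⟨x, hx⟩ := (h2 0).1.1.1
  have h3 : P 0 ≤ ambQ x.1.rep ∅ := by
    rw [← PrimeSpectrum.asIdeal_le_asIdeal, e]
    intro f hf
    simpa [ambQ, orb] using (vanish_iff_orb (isRep_rep x.1) f).1 (hf _ ⟨x, hx, rfl⟩)
  have h4 : (r : ℕ∞) ≤ Order.height (ambQ x.1.rep ∅) := Order.length_le_height
    (p := LTSeries.mk r (fun i => P i.rev) fun i j hij => hP (Fin.rev_lt_rev.2 hij))
    (le_of_eq_of_le (congrArg P (Fin.rev_last r)) h3)
  have h5 := Order.height_le_krullDim (ambQ x.1.rep Finset.univ)
  have h6 : ringKrullDim (MvPolynomial (Vars n) k) = Fintype.card (Vars n) := by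
    rw [MvPolynomial.ringKrullDim_of_isNoetherianRing, ringKrullDim_eq_zero_of_field]
    simp
  rw [show Order.krullDim (PrimeSpectrum (MvPolynomial (Vars n) k)) = _ from h6, amb_card] at h5
  have h7 : Order.height (ambQ x.1.rep Finset.univ) ≤ (∑ i, n i + Fintype.card ι : ℕ) := by
    exact_mod_cast h5
  have h8 := ((add_le_add h4 le_rfl).trans (amb_height (isRep_rep x.1) Finset.univ)).trans h7
  rw [Finset.card_univ] at h8
  have h9 : r + Fintype.card ι ≤ ∑ i, n i + Fintype.card ι := by exact_mod_cast h8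
  omega

omit [Infinite k] [Fintype ι] in
lemma amb_lin_apply {r : ℕ} (c x : Fin r → k) :
    Fintype.linearCombination k c x = ∑ s, x s * c s := by
  simp [Fintype.linearCombination_apply]

omit [Infinite k] [Fintype ι] in
lemma amb_finrank_ker {r : ℕ} {c : Fin (r + 1) → k} (hc : c ≠ 0) :
    finrank k (LinearMap.ker (Fintype.linearCombination k c)) = r := by
  have h1 : Fintype.linearCombination k c ≠ 0 := fun e => hc (funext fun s => by
    simpa using LinearMap.congr_fun e (Pi.single s 1))
  simpa using Module.Dual.finrank_ker_add_one_of_ne_zero h1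

omit [Infinite k] [Fintype ι] in
lemma amb_update_top [DecidableEq ι] (i : ι) (W : Submodule k (Fin (n i + 1) → k)) :
    ambL (Function.update (fun _ => ⊤) i W) = {x : MP k n | (x i).rep ∈ W} := by
  ext x
  refine ⟨fun h => by simpa using h i, fun h j => ?_⟩
  by_cases e : j = i
  · subst e
    rwa [Function.update_self]
  · rw [Function.update_of_ne e]
    trivial

omit [Infinite k] [Fintype ι] in
lemma amb_hyp_eq' [DecidableEq ι] (i : ι) (c : Fin (n i + 1) → k) : hyp i c =
    ambL (Function.update (fun _ => ⊤) i (LinearMap.ker (Fintype.linearCombination k c))) := by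
  rw [amb_update_top]
  ext x
  simp only [hyp, mem_ofPred_eq, LinearMap.mem_ker, amb_lin_apply, mul_comm]

end aux

variable {k : Type u} [Field k] [IsAlgClosed k] {K : Type v} [Field K] [CharZero K]

variable {ι : Type} [Fintype ι] {n : ι → ℕ}

/-- A product of projective spaces as a variety. -/
noncomputable def amb (k : Type u) [Field k] [IsAlgClosed k] {ι : Type} [Fintype ι] (n : ι → ℕ) :
    Var k where
  ι := ι
  n := n
  pts := univ
  sub := amb_top (k := k) (n := n) ▸ amb_isSub fun _ => top_ne_bot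
  smooth := fun _ _ v _ => (Submodule.finrank_le _).trans (by
    rw [Module.finrank_fintype_fun_eq_card, amb_card]
    exact Nat.add_le_add_right amb_le_dim _)

theorem d_amb (n : ι → ℕ) : (amb k n).d = ∑ i, n i := le_antisymm amb_dim_le amb_le_dim

theorem isClosed_hyp (i : ι) (c : Fin (n i + 1) → k) : IsClosed (hyp i c) := amb_isClosed_hyp i c

theorem isSub_hyp {i : ι} {c : Fin (n i + 1) → k} (hc : c ≠ 0) (hn : 0 < n i) :
    IsSub (Subtype.val ⁻¹' hyp i c : Set (amb k n).pts) := by
  classical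
  rw [amb_hyp_eq']
  exact amb_isSub_preimage (amb_isSub (amb_update_ne (fun _ => top_ne_bot) i
    (hn.trans_eq (amb_finrank_ker hc).symm)))

theorem dim_hyp {i : ι} {c : Fin (n i + 1) → k} (hc : c ≠ 0) (hn : 0 < n i) :
    dim (Subtype.val ⁻¹' hyp i c : Set (amb k n).pts) + 1 = ∑ i, n i := by
  classical
  have h1 := amb_finrank_ker hc
  refine le_antisymm ?_ ?_
  · rw [← d_amb (k := k)]
    refine dim_lt (isSub_hyp hc hn) (amb k n).isSub_univ ?_
    have := amb_ssubset (V := fun _ => ⊤) (fun _ => top_ne_bot) i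
      (W := LinearMap.ker (Fintype.linearCombination k c)) (lt_top_iff_ne_top.2 fun e => by
        rw [e] at h1
        simp at h1)
    rwa [amb_top, ← amb_hyp_eq'] at this
  · rw [← amb_sum_top (k := k), ← amb_sum_update (fun _ => ⊤) i
      (LinearMap.ker (Fintype.linearCombination k c)) (by simp [h1]) (by omega), amb_hyp_eq']
    exact Nat.add_le_add_right (amb_chain _ _
      (amb_update_ne (fun _ => top_ne_bot) i (by omega)) rfl).le_dim 1

theorem exists_hyp_avoid (i : ι) {s : Set (MP k n)} (hs : s.Finite) :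
    ∃ c, ∀ y ∈ s, y ∉ hyp i c := by
  have := hs.to_subtype
  obtain ⟨c, hc⟩ := Module.Dual.exists_forall_ne_zero_of_forall_exists
    (fun y : s => Fintype.linearCombination k (y.1 i).rep) fun y => by
      obtain ⟨t, ht⟩ := Function.ne_iff.1 (y.1 i).rep_nonzero
      exact ⟨Pi.single t 1, by simpa using ht⟩
  exact ⟨c, fun y hy h => hc ⟨y, hy⟩ ((amb_lin_apply _ _).trans h)⟩

theorem exists_hyp_through (i : ι) (hn : 0 < n i) (x : MP k n) {s : Set (MP k n)} (hs : s.Finite)
    (h : ∀ y ∈ s, y i ≠ x i) : ∃ c, c ≠ 0 ∧ x ∈ hyp i c ∧ ∀ y ∈ s, y ∉ hyp i c := by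
  have := hs.to_subtype
  rcases s.eq_empty_or_nonempty with rfl | ⟨z, hz⟩
  · obtain ⟨c, hc, h0⟩ := Submodule.exists_mem_ne_zero_of_ne_bot
      (p := LinearMap.ker (Fintype.linearCombination k (x i).rep)) fun e => by
        have h1 := amb_finrank_ker (x i).rep_nonzero
        rw [e, finrank_bot] at h1
        omega
    exact ⟨c, h0, (amb_lin_apply _ _).symm.trans hc, fun _ h => h.elim⟩
  obtain ⟨c, hc, h1⟩ := Module.Dual.exists_forall_mem_ne_zero_of_forall_exists
    (LinearMap.ker (Fintype.linearCombination k (x i).rep))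
    (fun y : s => Fintype.linearCombination k (y.1 i).rep) fun y => by
      have h2 : ¬ ∀ a b, (y.1 i).rep a * (x i).rep b = (y.1 i).rep b * (x i).rep a := fun h2 =>
        h y.1 y.2 ((y.1 i).mk_rep.symm.trans
          ((mk_eq_of_minor (y.1 i).rep_nonzero (x i).rep_nonzero h2).trans (x i).mk_rep))
      push Not at h2
      obtain ⟨a, b, hab⟩ := h2
      refine ⟨Pi.single a ((x i).rep b) - Pi.single b ((x i).rep a), ?_, ?_⟩
      · simp [mul_comm]
      · simpa [sub_eq_zero, mul_comm] using hab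
  refine ⟨c, fun e => h1 ⟨z, hz⟩ (by rw [e, map_zero]), (amb_lin_apply _ _).symm.trans hc,
    fun y hy h => h1 ⟨y, hy⟩ ((amb_lin_apply _ _).trans h)⟩

theorem isClosed_apply_eq (i : ι) (x : MP k n) : IsClosed {y : MP k n | y i = x i} := by
  classical
  convert amb_isClosed (Function.update (fun _ => ⊤) i (k ∙ (x i).rep)) using 1
  rw [amb_update_top]
  ext y
  rw [mem_ofPred_eq, mem_ofPred_eq, Submodule.mem_span_singleton,
    ← Projectivization.mk_eq_mk_iff' k _ _ (y i).rep_nonzero (x i).rep_nonzero,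
    Projectivization.mk_rep, Projectivization.mk_rep]

/-- The inclusion of a variety in its ambient space. -/
def Var.incl (X : Var k) : Mor X (amb k X.n) :=
  ⟨fun x => ⟨x.1, trivial⟩, fun x => isMor_id (S := X.pts) x⟩

lemma amb_incl (X : Var k) : Topology.IsClosedEmbedding X.incl.1 :=
  Topology.IsClosedEmbedding.inclusion (subset_univ X.pts)
    (X.sub.2.preimage continuous_subtype_val)

theorem Var.isSub_incl (X : Var k) {Z : Set X.pts} (hZ : IsSub Z) : IsSub (X.incl.1 '' Z) :=
  ⟨hZ.1.image _ X.incl.continuous.continuousOn, (amb_incl X).isClosedMap _ hZ.2⟩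

theorem Var.dim_incl (X : Var k) (Z : Set X.pts) : dim (X.incl.1 '' Z) = dim Z :=
  amb_dim_image (amb_incl X) Z

end Pool.Agent.MP_0c8446_ag
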