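import Pool.Agent.Mg.F0c8446.Gedbeda

namespace Pool.Agent.MP_0c8446_ag

open MvPolynomial Set Matrix

universe u v w

variable {F : Type u} [Field F] {n : ℕ} {M M' : Matrix (Fin n) (Fin n) F}

theorem FqS_cols (M : Matrix (Fin n) (Fin n) F) (c : Fin n → Fin n → F) (k l : Fin n) :
    ((Matrix.of c)ᵀᵀ * M * (Matrix.of c)ᵀ) k l = Matrix.toBilin' M (c k) (c l) := by
  rw [Matrix.toBilin'_apply, transpose_transpose]
  simp only [Matrix.mul_apply, transpose_apply, of_apply, Finset.sum_mul]
  rw [Finset.sum_comm]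

theorem FqS_trans {A B C : Matrix (Fin n) (Fin n) F} (h₁ : ∃ γ : Matrix (Fin n) (Fin n) F,
    γᵀ * A * γ = B) (h₂ : ∃ γ : Matrix (Fin n) (Fin n) F, γᵀ * B * γ = C) :
    ∃ γ : Matrix (Fin n) (Fin n) F, γᵀ * A * γ = C := by
  obtain ⟨γ, rfl⟩ := h₁
  obtain ⟨δ, rfl⟩ := h₂
  exact ⟨γ * δ, by simp only [transpose_mul, Matrix.mul_assoc]⟩

theorem FqS_det {A B γ : Matrix (Fin n) (Fin n) F} (h : γᵀ * A * γ = B) :
    B.det = γ.det ^ 2 * A.det := by
  rw [← h, det_mul, det_mul, det_transpose]
  ring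

theorem FqS_inv {A B γ : Matrix (Fin n) (Fin n) F} (hγ : IsUnit γ.det) (h : γᵀ * A * γ = B) :
    γ⁻¹ᵀ * B * γ⁻¹ = A := by
  have h1 : γ * γ⁻¹ = 1 := mul_nonsing_inv γ hγ
  have h2 : γ⁻¹ᵀ * γᵀ = 1 := by rw [← transpose_mul, h1, transpose_one]
  calc γ⁻¹ᵀ * B * γ⁻¹ = (γ⁻¹ᵀ * γᵀ) * A * (γ * γ⁻¹) := by
        rw [← h]; simp only [Matrix.mul_assoc]
    _ = A := by rw [h1, h2, Matrix.one_mul, Matrix.mul_one]

theorem FqS_one [Finite F] (two : (2 : F) ≠ 0) {a b : F} (ha : a ≠ 0) (hb : b ≠ 0) :
    ∃ x y : F, a * x ^ 2 + b * y ^ 2 = 1 := by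
  have := Fintype.ofFinite F
  have hc : ringChar F ≠ 2 := by
    intro h
    have h2 := ringChar.Nat.cast_ringChar (R := F)
    rw [h] at h2
    exact two (by exact_mod_cast h2)
  obtain ⟨x, y, h⟩ := FiniteField.exists_root_sum_quadratic
    (f := Polynomial.C a * Polynomial.X ^ 2 + Polynomial.C 0 * Polynomial.X + Polynomial.C 0)
    (g := Polynomial.C b * Polynomial.X ^ 2 + Polynomial.C 0 * Polynomial.X + Polynomial.C (-1))
    (Polynomial.degree_quadratic ha) (Polynomial.degree_quadratic hb)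
    (FiniteField.odd_card_of_char_ne_two hc)
  refine ⟨x, y, ?_⟩
  simp only [Polynomial.eval_add, Polynomial.eval_mul, Polynomial.eval_C, Polynomial.eval_pow,
    Polynomial.eval_X] at h
  linear_combination h

theorem FqS_step [Finite F] (two : (2 : F) ≠ 0) (d : Fin n → F) (hd : ∀ i, d i ≠ 0) {i j : Fin n}
    (hij : i ≠ j) : ∃ γ : Matrix (Fin n) (Fin n) F,
      γᵀ * diagonal d * γ = diagonal fun k => if k = i then 1 else if k = j then d i * d j else d k := by
  obtain ⟨x, y, h⟩ := FqS_one two (hd i) (hd j)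
  let e : Fin n → Fin n → F := fun k => Pi.single k 1
  have he : ∀ k l, Matrix.toBilin' (diagonal d) (e k) (e l) = if k = l then d k else 0 := by
    intro k l
    rw [Matrix.toBilin'_single, diagonal_apply]
  refine ⟨(Matrix.of fun k => if k = i then x • e i + y • e j else
    if k = j then (-(d j * y)) • e i + (d i * x) • e j else e k)ᵀ, ?_⟩
  ext k l
  rw [FqS_cols, diagonal_apply]
  have hji := hij.symm
  by_cases hk : k = i
  · by_cases hl : l = i
    · simp only [hk, hl, if_true, map_add, map_smul, LinearMap.add_apply, LinearMap.smul_apply, he,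
        if_neg hij, if_neg hji, smul_eq_mul]
      linear_combination h
    · by_cases hl' : l = j
      · simp only [hk, hl', if_true, map_add, map_smul, LinearMap.add_apply, LinearMap.smul_apply,
          he, if_neg hij, if_neg hji, smul_eq_mul]
        ring
      · simp only [hk, if_true, map_add, map_smul, LinearMap.add_apply, LinearMap.smul_apply,
          he, if_neg hl, if_neg hl', if_neg (Ne.symm hl), if_neg (Ne.symm hl'), smul_eq_mul]
        ring
  · by_cases hk' : k = j
    · by_cases hl : l = i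
      · simp only [hk', hl, if_true, map_add, map_smul, LinearMap.add_apply, LinearMap.smul_apply,
          he, if_neg hij, if_neg hji, smul_eq_mul]
        ring
      · by_cases hl' : l = j
        · simp only [hk', hl', if_true, map_add, map_smul, LinearMap.add_apply,
            LinearMap.smul_apply, he, if_neg hij, if_neg hji, smul_eq_mul]
          linear_combination (d i * d j) * h
        · simp only [hk', if_true, map_add, map_smul, LinearMap.add_apply, LinearMap.smul_apply,
            he, if_neg hl, if_neg hl', if_neg (Ne.symm hl), if_neg (Ne.symm hl'), if_neg hji,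
            smul_eq_mul]
          ring
    · by_cases hl : l = i
      · simp only [hl, if_true, map_add, map_smul, he, if_neg hk, if_neg hk', smul_eq_mul]
        ring
      · by_cases hl' : l = j
        · simp only [hl', if_true, map_add, map_smul, he, if_neg hk, if_neg hk', if_neg hji,
            smul_eq_mul]
          ring
        · simp only [he, if_neg hk, if_neg hk', if_neg hl, if_neg hl']

theorem FqS_norm [Finite F] (two : (2 : F) ≠ 0) (d : Fin n → F) (hd : ∀ i, d i ≠ 0) (j : Fin n)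
    (S : Finset (Fin n)) (hS : j ∉ S) : ∃ d' : Fin n → F, (∀ i, d' i ≠ 0) ∧ (∀ i ∈ S, d' i = 1) ∧
      ∃ γ : Matrix (Fin n) (Fin n) F, γᵀ * diagonal d * γ = diagonal d' := by
  induction S using Finset.induction_on with
  | empty => exact ⟨d, hd, by simp, 1, by simp⟩
  | insert i S _ ih =>
    rw [Finset.mem_insert, not_or] at hS
    obtain ⟨d', h1, h2, h3⟩ := ih hS.2
    refine ⟨_, ?_, ?_, FqS_trans h3 (FqS_step two d' h1 (Ne.symm hS.1))⟩
    · intro k
      split_ifs
      · exact one_ne_zero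
      · exact mul_ne_zero (h1 _) (h1 _)
      · exact h1 _
    · intro k hk
      split_ifs with a b
      · rfl
      · subst b
        rw [Finset.mem_insert] at hk
        exact absurd hk (not_or.2 hS)
      · exact h2 k ((Finset.mem_insert.1 hk).resolve_left a)

/-- Symmetric matrices can be diagonalised. -/
theorem sym_diag (two : (2 : F) ≠ 0) (h : Mᵀ = M) :
    ∃ (γ : Matrix (Fin n) (Fin n) F) (d : Fin n → F), IsUnit γ ∧ γᵀ * M * γ = diagonal d := by
  let _ : Invertible (2 : F) := invertibleOfNonzero two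
  have hs : (Matrix.toBilin' M).IsSymm := by
    refine ⟨fun x y => ?_⟩
    rw [Matrix.toBilin'_apply', Matrix.toBilin'_apply', dotProduct_mulVec, ← mulVec_transpose, h,
      dotProduct_comm]
  obtain ⟨v, hv⟩ := LinearMap.BilinForm.exists_orthogonal_basis (LinearMap.BilinForm.isSymm_iff.1 hs)
  let b : Module.Basis (Fin n) F (Fin n → F) := v.reindex (finCongr (Module.finrank_fin_fun F))
  refine ⟨(Matrix.of fun k => b k)ᵀ, fun k => Matrix.toBilin' M (b k) (b k), ?_, ?_⟩
  · rw [Matrix.isUnit_transpose]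
    exact Matrix.linearIndependent_rows_iff_isUnit.1 b.linearIndependent
  · ext k l
    rw [FqS_cols, diagonal_apply]
    split_ifs with hkl
    · rw [hkl]
    · simp only [b, Module.Basis.reindex_apply]
      exact hv fun e => hkl ((Equiv.injective _) e)

theorem FqS_std [Finite F] (two : (2 : F) ≠ 0) (hM : IsUnit M) (h : Mᵀ = M) (j : Fin n) :
    ∃ (γ : Matrix (Fin n) (Fin n) F) (δ : F), δ ≠ 0 ∧
      γᵀ * M * γ = diagonal (Function.update 1 j δ) := by
  obtain ⟨γ, d, h1, h2⟩ := sym_diag two h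
  have hd : ∀ i, d i ≠ 0 := by
    have e := FqS_det h2
    rw [det_diagonal] at e
    have : ∏ i, d i ≠ 0 := by
      rw [e]
      exact mul_ne_zero (pow_ne_zero _ ((isUnit_iff_isUnit_det _).1 h1).ne_zero)
        ((isUnit_iff_isUnit_det _).1 hM).ne_zero
    exact fun i => Finset.prod_ne_zero_iff.1 this i (Finset.mem_univ i)
  obtain ⟨d', h3, h4, h5⟩ := FqS_norm two d hd j (Finset.univ.erase j) (Finset.notMem_erase _ _)
  obtain ⟨γ', h6⟩ := FqS_trans ⟨γ, h2⟩ h5
  refine ⟨γ', d' j, h3 j, ?_⟩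
  rw [h6]
  congr 1
  funext i
  by_cases hi : i = j
  · rw [hi, Function.update_self]
  · rw [Function.update_of_ne hi, h4 i (Finset.mem_erase.2 ⟨hi, Finset.mem_univ _⟩), Pi.one_apply]

theorem FqS_det_upd (j : Fin n) (δ : F) : (diagonal (Function.update 1 j δ)).det = δ := by
  rw [det_diagonal, Finset.prod_update_of_mem (Finset.mem_univ j)]
  simp

/-- Over a finite field, nondegenerate symmetric forms are classified by the discriminant. -/
theorem sym_congr [Finite F] (two : (2 : F) ≠ 0) (hM : IsUnit M) (h : Mᵀ = M) (hM' : IsUnit M')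
    (h' : M'ᵀ = M') {d : F} (hd : M'.det = d ^ 2 * M.det) :
    ∃ γ : Matrix (Fin n) (Fin n) F, γᵀ * M * γ = M' := by
  rcases Nat.eq_zero_or_pos n with rfl | hn
  · exact ⟨1, Subsingleton.elim _ _⟩
  let j : Fin n := ⟨0, hn⟩
  obtain ⟨γ, δ, h1, h2⟩ := FqS_std two hM h j
  obtain ⟨γ', δ', h3, h4⟩ := FqS_std two hM' h' j
  have e1 := FqS_det h2
  have e2 := FqS_det h4
  rw [FqS_det_upd] at e1 e2
  have hγ : γ.det ≠ 0 := by
    intro h0
    rw [h0] at e1
    exact h1 (by simpa using e1)
  have hγ' : γ'.det ≠ 0 := by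
    intro h0
    rw [h0] at e2
    exact h3 (by simpa using e2)
  refine FqS_trans ⟨γ, h2⟩ (FqS_trans
    ⟨diagonal (Function.update 1 j (γ'.det * d / γ.det)), ?_⟩ ⟨_, FqS_inv hγ'.isUnit h4⟩)
  rw [diagonal_transpose, diagonal_mul_diagonal, diagonal_mul_diagonal]
  congr 1
  funext i
  by_cases hi : i = j
  · simp only [hi, Function.update_self]
    rw [e1, e2, hd]
    field_simp
  · simp only [Function.update_of_ne hi, Pi.one_apply, mul_one]

theorem exists_refl (two : (2 : F) ≠ 0) (hn : 0 < n) (h : Mᵀ = M) :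
    ∃ ρ : Matrix (Fin n) (Fin n) F, ρᵀ * M * ρ = M ∧ ρ.det = -1 := by
  obtain ⟨γ, d, h1, h2⟩ := sym_diag two h
  have hγ := (isUnit_iff_isUnit_det _).1 h1
  let j : Fin n := ⟨0, hn⟩
  let S : Matrix (Fin n) (Fin n) F := diagonal (Function.update 1 j (-1))
  have hS : Sᵀ * diagonal d * S = diagonal d := by
    rw [diagonal_transpose, diagonal_mul_diagonal, diagonal_mul_diagonal]
    congr 1
    funext i
    by_cases hi : i = j
    · simp [hi]
    · simp only [Function.update_of_ne hi, Pi.one_apply, mul_one, one_mul]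
  refine ⟨γ * S * γ⁻¹, ?_, ?_⟩
  · calc (γ * S * γ⁻¹)ᵀ * M * (γ * S * γ⁻¹) = γ⁻¹ᵀ * (Sᵀ * (γᵀ * M * γ) * S) * γ⁻¹ := by
          simp only [transpose_mul, Matrix.mul_assoc]
      _ = M := by rw [h2, hS, FqS_inv hγ h2]
  · rw [det_conj h1, FqS_det_upd]

end Pool.Agent.MP_0c8446_ag
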