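import Pool.Agent.Mg.F0c8446.G61fd81
import Pool.Agent.Mg.F0c8446.G3fba77
import Pool.Agent.MP_0c8446_ag.LinAlg2

section

namespace Pool.Agent.MP_0c8446_ag

open Set

universe u v w

variable {k : Type u} [Field k] {q : ℕ} [IsQ k q] {K : Type v} [Field K]

/-- Labels of the eigenlines in the cohomology of a curve: `H^0`, `H^2` and characters. -/
inductive Lb (k : Type u) [Field k] (q : ℕ) [IsQ k q] (K : Type v) [Field K] : Type (max u v)
  | one : Lb k q K
  | pt : Lb k q K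
  | ch (ω₁ ω₂ : MulChar (Fq k q) K) (ψ : AddChar (Fq k q) K) : Lb k q K

/-- The dual label. -/
noncomputable def Lb.du : Lb k q K → Lb k q K
  | .one => .pt
  | .pt => .one
  | .ch ω₁ ω₂ ψ => .ch ω₁⁻¹ ω₂⁻¹ ψ⁻¹

@[simp] lemma Lb.du_du (t : Lb k q K) : t.du.du = t := by cases t <;> simp [Lb.du]

/-- The character of a label. -/
noncomputable def Lb.chr (b : Bool) : Lb k q K → (Gp k q b →* Kˣ)
  | .ch ω₁ ω₂ ψ => Pool.Agent.MP_0c8446_ag.ch b ω₁ ω₂ ψ
  | _ => 1

lemma Lb.chr_du (b : Bool) (t : Lb k q K) : t.du.chr b = (t.chr b)⁻¹ := by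
  cases t
  · exact (inv_one (G := Gp k q b →* Kˣ)).symm
  · exact (inv_one (G := Gp k q b →* Kˣ)).symm
  · exact (ch_inv _ _ _).symm

/-- The labels that occur for the curve `b`. -/
def Lb.Ok : Bool → Lb k q K → Prop
  | false, .ch ω₁ ω₂ ψ => ω₁ ≠ 1 ∧ ω₂ = 1 ∧ ψ ≠ 1
  | true, .ch ω₁ ω₂ ψ => ω₁ ≠ 1 ∧ ω₂ ≠ 1 ∧ ω₁ * ω₂ ≠ 1 ∧ ψ = 1
  | _, _ => True

lemma Lb.Ok.du {b : Bool} {t : Lb k q K} (h : t.Ok b) : t.du.Ok b := by
  cases b <;> cases t <;> try trivial
  · exact ⟨inv_ne_one.2 h.1, inv_eq_one.2 h.2.1, inv_ne_one.2 h.2.2⟩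
  · exact ⟨inv_ne_one.2 h.1, inv_ne_one.2 h.2.1, by rw [← mul_inv]; exact inv_ne_one.2 h.2.2.1,
      inv_eq_one.2 h.2.2.2⟩

lemma Lb.Ok.adm {b : Bool} {ω₁ ω₂ : MulChar (Fq k q) K} {ψ : AddChar (Fq k q) K}
    (h : (Lb.ch ω₁ ω₂ ψ).Ok b) : Adm b (Pool.Agent.MP_0c8446_ag.ch b ω₁ ω₂ ψ) := by
  cases b
  · obtain ⟨h1, rfl, h2⟩ := h
    exact ⟨ω₁, ψ, h1, h2, rfl⟩
  · obtain ⟨h1, h2, h3, rfl⟩ := h
    exact ⟨ω₁, ω₂, h1, h2, h3, rfl⟩

lemma Adm.exists_ok {b : Bool} {χ : Gp k q b →* Kˣ} (h : Adm b χ) :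
    ∃ ω₁ ω₂ ψ, (Lb.ch ω₁ ω₂ ψ).Ok b ∧ χ = ch b ω₁ ω₂ ψ := by
  cases b
  · obtain ⟨ω, ψ, h1, h2, rfl⟩ := h
    exact ⟨ω, 1, ψ, ⟨h1, rfl, h2⟩, rfl⟩
  · obtain ⟨ω₁, ω₂, h1, h2, h3, rfl⟩ := h
    exact ⟨ω₁, ω₂, 1, ⟨h1, h2, h3, rfl⟩, rfl⟩

open Classical in
/-- The eigenvalue of a constant map. -/
noncomputable def Lb.kap (t : Lb k q K) : K := if t = .one then 1 else 0

lemma Lb.eq_of_chr {b : Bool} {t t' : Lb k q K} (h : t.Ok b) (h' : t'.Ok b)
    (hc : t.chr b = t'.chr b) (hk : t.kap = t'.kap) : t = t' := by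
  rcases t with _ | _ | ⟨ω₁, ω₂, ψ⟩ <;> rcases t' with _ | _ | ⟨ω₁', ω₂', ψ'⟩
  · rfl
  · simp [Lb.kap] at hk
  · exact absurd hc.symm h'.adm.ne_one
  · simp [Lb.kap] at hk
  · rfl
  · exact absurd hc.symm h'.adm.ne_one
  · exact absurd hc h.adm.ne_one
  · exact absurd hc h.adm.ne_one
  · cases b
    · obtain ⟨-, rfl, -⟩ := h
      obtain ⟨-, rfl, -⟩ := h'
      obtain ⟨rfl, rfl⟩ := chD_inj hc
      rfl
    · obtain ⟨-, -, -, rfl⟩ := h
      obtain ⟨-, -, -, rfl⟩ := h'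
      obtain ⟨rfl, rfl⟩ := chF_inj hc
      rfl

lemma Lb.eq_ch_of_chr {b : Bool} {t : Lb k q K} {ω₁ ω₂ : MulChar (Fq k q) K}
    {ψ : AddChar (Fq k q) K} (h : t.Ok b) (h' : (Lb.ch ω₁ ω₂ ψ).Ok b)
    (hc : t.chr b = Pool.Agent.MP_0c8446_ag.ch b ω₁ ω₂ ψ) : t = .ch ω₁ ω₂ ψ := by
  refine Lb.eq_of_chr h h' hc ?_
  cases t
  · exact absurd hc.symm h'.adm.ne_one
  · simp [Lb.kap]
  · simp [Lb.kap]

/-- The eigenvalue of the `q`-Frobenius. -/
noncomputable def Lb.lam : Bool → Lb k q K → K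
  | _, .one => 1
  | _, .pt => q
  | false, .ch ω₁ _ ψ => -gaussSum ω₁ ψ
  | true, .ch ω₁ ω₂ _ => -jacobiSum ω₁ ω₂

/-- The degree of a label. -/
def Lb.deg : Lb k q K → ℕ
  | .one => 0
  | .pt => 2
  | .ch _ _ _ => 1

variable [IsAlgClosed k]
variable {ι ι' : Type} [Fintype ι] [Fintype ι'] {τ : ι → Bool} {τ' : ι' → Bool}

/-- The Frobenius of a product of curves. -/
noncomputable def frobY (τ : ι → Bool) (e : ℕ) (he : IsQ k e) : Mor (Yv k q τ) (Yv k q τ) :=
  cw id (fun _ => frob e) fun i => cMap_frob q e (τ i)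

@[simp] lemma co_frobY (e : ℕ) (he : IsQ k e) (x : (Yv k q τ).pts) (i : ι) :
    co ((frobY τ e he).1 x) i = frob e (co x i) := rfl

/-- The action of a tuple of group elements on a product of curves. -/
noncomputable def actY (g : ∀ i, Gp k q (τ i)) : Mor (Yv k q τ) (Yv k q τ) :=
  cw id (fun i => lin (g i).1) fun i => cMap_Gp (g i).2

@[simp] lemma co_actY (g : ∀ i, Gp k q (τ i)) (x : (Yv k q τ).pts) (i : ι) :
    co ((actY g).1 x) i = lin (g i).1 (co x i) := rfl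

lemma actY_mul (g h : ∀ i, Gp k q (τ i)) (x : (Yv k q τ).pts) :
    (actY (g * h)).1 x = (actY g).1 ((actY h).1 x) :=
  Yv_ext fun i => lin_mul (g i).2 (h i).2 _

lemma actY_one (x : (Yv k q τ).pts) : (actY 1).1 x = x := Yv_ext fun _ => lin_one _

lemma actY_inv (g : ∀ i, Gp k q (τ i)) (x : (Yv k q τ).pts) :
    (actY g⁻¹).1 ((actY g).1 x) = x := by rw [← actY_mul, inv_mul_cancel, actY_one]

lemma actY_inv' (g : ∀ i, Gp k q (τ i)) (x : (Yv k q τ).pts) :
    (actY g).1 ((actY g⁻¹).1 x) = x := by rw [← actY_mul, mul_inv_cancel, actY_one]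

namespace Weil

variable (W : Weil.{u, v, w} k K)

/-- The action of the group on the cohomology of the curve. -/
noncomputable def act (b : Bool) : Gp k q b →* Module.End K (W.H (Cv k q b)) where
  toFun g := (W.pull (cm (lin g.1) (cMap_Gp g.2))).toLinearMap
  map_one' := LinearMap.ext fun a =>
    W.pull_id (cm (lin (1 : Gp k q b).1) (cMap_Gp (1 : Gp k q b).2))
      (funext fun x => Yv_ext fun _ => lin_one (co x ())) a
  map_mul' g h := LinearMap.ext fun a => by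
    refine W.pull_comp (cm (lin g.1) (cMap_Gp g.2)) (cm (lin h.1) (cMap_Gp h.2))
      (cm (lin (g * h).1) (cMap_Gp (g * h).2)) (funext fun x => Yv_ext fun _ => ?_) a
    rw [mul_comm]
    exact lin_mul h.2 g.2 _

lemma act_apply (b : Bool) (g : Gp k q b) (a : W.H (Cv k q b)) :
    W.act b g a = W.pull (cm (lin g.1) (cMap_Gp g.2)) a := rfl

/-- The eigenline of a label in the cohomology of the curve. -/
noncomputable def V (b : Bool) : Lb k q K → W.HS (Cv k q b)
  | .one => 1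
  | .pt => ⟨W.gr _ 2, 2, le_rfl⟩
  | .ch ω₁ ω₂ ψ => ⟨W.gr _ 1 ⊓ Eig (W.act b) (ch b ω₁ ω₂ ψ), 1, inf_le_left⟩

lemma V_le_gr (b : Bool) (t : Lb k q K) : (W.V b t).1 ≤ W.gr _ t.deg := by
  cases t
  · show (1 : Submodule K _) ≤ W.gr _ 0
    rw [W.zero, Submodule.one_eq_span]
  · exact le_rfl
  · exact inf_le_left

/-- The exterior product of homogeneous subspaces. -/
noncomputable def LinS (τ : ι → Bool) (S : ∀ i, W.HS (Cv k q (τ i))) : W.HS (Yv k q τ) :=
  ∏ i, W.pullS (pr τ i) (S i)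

/-- The eigenline of a family of labels. -/
noncomputable def Lin (τ : ι → Bool) (β : ι → Lb k q K) : W.HS (Yv k q τ) :=
  W.LinS τ fun i => W.V (τ i) (β i)

/-- The eigenline of the family is algebraic. -/
def AlgF (τ : ι → Bool) (β : ι → Lb k q K) : Prop := (W.Lin τ β).1 ≤ W.Alg _

/-- The eigenline of the multiset of labels is algebraic. -/
def AlgM (M : Multiset (Bool × Lb k q K)) : Prop :=
  (∀ t ∈ M, t.2.Ok t.1) ∧ ∃ (ι : Type) (_ : Fintype ι) (τ : ι → Bool) (β : ι → Lb k q K),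
    (Finset.univ.val.map fun i => (τ i, β i)) = M ∧ W.AlgF τ β

end Weil

/-- Duality on labelled curves. -/
noncomputable def duT (t : Bool × Lb k q K) : Bool × Lb k q K := (t.1, t.2.du)

end Pool.Agent.MP_0c8446_ag

end

section

namespace Pool.Agent.MP_0c8446_ag

open Set

universe u v w

variable {k : Type u} [Field k] {q : ℕ} [IsQ k q] {K : Type v} [Field K]

/-- The label of a Gauss sum. -/
noncomputable def Dl (ω : MulChar (Fq k q) K) (ψ : AddChar (Fq k q) K) : Bool × Lb k q K :=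
  (false, .ch ω 1 ψ)

/-- The label of a Jacobi sum. -/
noncomputable def Fl (ω₁ ω₂ : MulChar (Fq k q) K) : Bool × Lb k q K := (true, .ch ω₁ ω₂ 1)

@[simp] lemma duT_Dl (ω : MulChar (Fq k q) K) (ψ : AddChar (Fq k q) K) :
    duT (Dl ω ψ) = Dl ω⁻¹ ψ⁻¹ := by simp [duT, Dl, Lb.du]

@[simp] lemma duT_Fl (ω₁ ω₂ : MulChar (Fq k q) K) : duT (Fl ω₁ ω₂) = Fl ω₁⁻¹ ω₂⁻¹ := by
  simp [duT, Fl, Lb.du]

@[simp] lemma duT_duT (t : Bool × Lb k q K) : duT (duT t) = t := by simp [duT]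

variable [IsAlgClosed k]

/-- The correspondence behind the Hasse-Davenport product relation. -/
def hdZ (k : Type u) [Field k] [IsAlgClosed k] (q : ℕ) [IsQ k q] (d e : ℕ) [NeZero d] (c : k) :
    Set (Yv k q (Sum.elim (fun _ : Fin d => false) fun _ : Fin d => false)).pts :=
  {x | (∃ i, co x (.inl i) = pt3 1 0 0) ∨ ((∀ j, IsFin (co x (.inr j))) ∧
    (∀ t : k, ∏ i, (t - ax (co x (.inl i)) ^ e) =
      ∏ j, (t - if j = 0 then 0 else ax (co x (.inr j)) ^ e) + ∏ i, (-ax (co x (.inl i)) ^ e)) ∧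
    ∏ i, ax (co x (.inl i)) = c * ax (co x (.inr 0)) ^ d ∧
    ∑ i, ay (co x (.inl i)) = ∑ j, ay (co x (.inr j)))}

/-- The boundary for the relation between Jacobi and Gauss sums. -/
def jB (k : Type u) [Field k] [IsAlgClosed k] (q : ℕ) [IsQ k q] :
    Set (Yv k q fun b : Bool => b).pts :=
  {s | ¬ IsFin (co s true) ∨ ¬ IsFin (co s false) ∨ ax (co s false) = 0}

/-- The correspondence behind the relation between Jacobi and Gauss sums. -/
def jZ (k : Type u) [Field k] [IsAlgClosed k] (q : ℕ) [IsQ k q] :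
    Set (Yv k q (Sum.elim (fun b : Bool => b) fun _ : Bool => false)).pts :=
  {x | (pL _ _).1 x ∈ jB k q ∨ ((∀ j, IsFin (co x (.inr j))) ∧
    ax (co x (.inr true)) = ax (co x (.inl false)) * ax (co x (.inl true)) ∧
    ax (co x (.inr false)) = ax (co x (.inl false)) * ay (co x (.inl true)) ∧
    ay (co x (.inr true)) + ay (co x (.inr false)) = ay (co x (.inl false)))}

end Pool.Agent.MP_0c8446_ag

end

section

namespace Pool.Agent.MP_0c8446_ag

open Set

universe u v w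

namespace Weil

section

variable {k : Type u} [Field k] {K : Type v} [Field K] (W : Weil.{u, v, w} k K)

lemma lines1_mul_smul {X : Var k} (φ : W.H X →ₐ[K] W.H X) {S T : Submodule K (W.H X)} {c d : K}
    (hS : ∀ a ∈ S, φ a = c • a) (hT : ∀ a ∈ T, φ a = d • a) :
    ∀ a ∈ S * T, φ a = (c * d) • a := by
  intro a ha
  refine Submodule.mul_induction_on ha (fun m hm n hn => ?_) fun x y hx hy => ?_
  · rw [map_mul, hS m hm, hT n hn, smul_mul_smul_comm]
  · rw [map_add, hx, hy, smul_add]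

lemma lines1_prod_smul {X : Var k} (φ : W.H X →ₐ[K] W.H X) {ι : Type} (s : Finset ι)
    (T : ι → W.HS X) (c : ι → K) (h : ∀ i ∈ s, ∀ a ∈ (T i).1, φ a = c i • a) :
    ∀ a ∈ (∏ i ∈ s, T i).1, φ a = (∏ i ∈ s, c i) • a := by
  classical
  induction s using Finset.induction_on with
  | empty =>
    intro a ha
    obtain ⟨t, rfl⟩ := Submodule.mem_one.1 ha
    simp
  | insert i s hi ih =>
    rw [Finset.prod_insert hi, Finset.prod_insert hi]
    exact W.lines1_mul_smul φ (h i (Finset.mem_insert_self _ _))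
      (ih fun j hj => h j (Finset.mem_insert_of_mem hj))

lemma lines1_prod_gr {X : Var k} {ι : Type} (s : Finset ι) (T : ι → W.HS X) (d : ι → ℕ)
    (h : ∀ i, (T i).1 ≤ W.gr X (d i)) : (∏ i ∈ s, T i).1 ≤ W.gr X (∑ i ∈ s, d i) := by
  classical
  induction s using Finset.induction_on with
  | empty =>
    show (1 : Submodule K _) ≤ W.gr _ 0
    rw [W.zero, Submodule.one_eq_span]
  | insert i s hi ih =>
    rw [Finset.prod_insert hi, Finset.sum_insert hi]
    exact Submodule.mul_le.2 fun a ha b hb => SetLike.mul_mem_graded (h i ha) (ih hb)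

lemma lines1_prod_span {X : Var k} {ι : Type} (s : Finset ι) (T : ι → W.HS X)
    (h : ∀ i, ∃ u, (T i).1 = K ∙ u) : ∃ u, (∏ i ∈ s, T i).1 = K ∙ u := by
  classical
  induction s using Finset.induction_on with
  | empty => exact ⟨1, Submodule.one_eq_span⟩
  | insert i s hi ih =>
    obtain ⟨u, hu⟩ := h i
    obtain ⟨u', hu'⟩ := ih
    refine ⟨u * u', ?_⟩
    rw [Finset.prod_insert hi, Submonoid.coe_mul, hu, hu', Submodule.span_mul_span,
      singleton_mul_singleton]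

lemma lines1_NZ_prod {P X Y : Var k} {p : Mor P X} {q : Mor P Y} (h : IsProd p q) (S : W.HS X)
    (T : W.HS Y) : W.NZ (W.pullS p S * W.pullS q T).1 ↔ W.NZ S.1 ∧ W.NZ T.1 := by
  constructor
  · rintro ⟨a, ha, h0⟩
    by_contra hn
    refine h0 (Submodule.mul_induction_on ha ?_ fun x y hx hy => by rw [map_add, hx, hy, add_zero])
    rintro _ ⟨m, hm, rfl⟩ _ ⟨n, hn', rfl⟩
    by_contra h1
    have h2 : W.tr X m * W.tr Y n ≠ 0 := by rw [← W.tr_prod h]; exact h1
    exact hn ⟨⟨m, hm, left_ne_zero_of_mul h2⟩, ⟨n, hn', right_ne_zero_of_mul h2⟩⟩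
  · rintro ⟨⟨m, hm, h1⟩, ⟨n, hn, h2⟩⟩
    refine ⟨W.pull p m * W.pull q n, Submodule.mul_mem_mul ⟨m, hm, rfl⟩ ⟨n, hn, rfl⟩, ?_⟩
    rw [W.tr_prod h]
    exact mul_ne_zero h1 h2

lemma lines1_NZ_aut [CharZero K] {X Y : Var k} (f : Mor X Y) (g : Mor Y X)
    (h : ∀ x, g.1 (f.1 x) = x) (h' : ∀ y, f.1 (g.1 y) = y) (S : W.HS Y) :
    W.NZ (W.pullS f S).1 ↔ W.NZ S.1 := by
  constructor
  · rintro ⟨_, ⟨m, hm, rfl⟩, h0⟩
    exact ⟨m, hm, by rw [← W.tr_pull_aut f g h h']; exact h0⟩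
  · rintro ⟨m, hm, h0⟩
    exact ⟨W.pull f m, ⟨m, hm, rfl⟩, by rwa [W.tr_pull_aut f g h h']⟩

end

section

variable {k : Type u} [Field k] [IsAlgClosed k] {q : ℕ} [IsQ k q] {K : Type v} [Field K]
  {ι ι' : Type} [Fintype ι] [Fintype ι'] {τ : ι → Bool} (W : Weil.{u, v, w} k K)

lemma lines1_cast (j : ι) {b : Bool} (h : τ j = b) (f : Mor (Yv k q τ) (Cv k q b))
    (hf : ∀ x, co (f.1 x) () = co x j) (t : Lb k q K) :
    W.pullS f (W.V b t) = W.pullS (pr τ j) (W.V (τ j) t) := by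
  subst h
  rw [show f = pr τ j from Mor.ext' fun x => Yv_ext fun _ => hf x]

lemma lines1_equiv (e : ι' ≃ ι) (S : ∀ i, W.HS (Cv k q (τ i))) :
    W.pullS (remap (τ := τ) (τ' := τ ∘ e) e fun _ => rfl) (W.LinS (τ ∘ e) fun i => S (e i)) =
      W.LinS τ S := by
  rw [LinS, LinS, map_prod, ← Equiv.prod_comp e]
  refine Finset.prod_congr rfl fun i _ => ?_
  rw [pullS_pullS]
  rfl

lemma lines1_option {τ : Option ι → Bool} (S : ∀ i, W.HS (Cv k q (τ i))) :
    W.LinS τ S = W.pullS (remap (τ := τ) (τ' := τ ∘ some) some fun _ => rfl)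
      (W.LinS (τ ∘ some) fun i => S (some i)) * W.pullS (pr τ none) (S none) := by
  rw [LinS, LinS, map_prod, Fintype.prod_option, mul_comm]
  refine congrArg (· * _) (Finset.prod_congr rfl fun i _ => ?_)
  rw [pullS_pullS]
  rfl

lemma lines1_isProd (τ : Option ι → Bool) :
    IsProd (remap (k := k) (q := q) (τ := τ) (τ' := τ ∘ some) some fun _ => rfl) (pr τ none) :=
  isProd_remap (τ₂ := fun _ : Unit => τ none) some (fun _ => none) (fun _ => rfl) (fun _ => rfl)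
    (Equiv.optionEquivSumPUnit.{0, 0} ι).symm.bijective

end

end Weil

variable {k : Type u} [Field k] [IsAlgClosed k] {q : ℕ} [IsQ k q] {K : Type v} [Field K]
  [CharZero K] [IsAlgClosed K] {ι ι' ι₁ ι₂ : Type} [Fintype ι] [Fintype ι'] [Fintype ι₁] [Fintype ι₂]
  {τ : ι → Bool} {τ' : ι' → Bool} {τ₁ : ι₁ → Bool} {τ₂ : ι₂ → Bool}

namespace Weil

variable (W : Weil.{u, v, w} k K)

omit [CharZero K] [IsAlgClosed K] in
theorem pullS_cw_LinS (r : ι' → ι) (g : ι' → P2 k → P2 k) (h : ∀ i, CMap q (τ (r i)) (τ' i) (g i))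
    (S : ∀ i, W.HS (Cv k q (τ' i))) : W.pullS (cw r g h) (W.LinS τ' S) =
      ∏ i, W.pullS (pr τ (r i)) (W.pullS (cm (g i) (h i)) (S i)) := by
  rw [LinS, map_prod]
  refine Finset.prod_congr rfl fun i _ => ?_
  rw [pullS_pullS, pullS_pullS]
  rfl

omit [CharZero K] [IsAlgClosed K] in
theorem pullS_remap_Lin (r : ι' → ι) (h : ∀ i, τ (r i) = τ' i) (β : ι' → Lb k q K) :
    W.pullS (remap r h) (W.Lin τ' β) = ∏ i, W.pullS (pr τ (r i)) (W.V (τ (r i)) (β i)) := by
  rw [Lin, LinS, map_prod]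
  refine Finset.prod_congr rfl fun i _ => ?_
  rw [pullS_pullS]
  exact W.lines1_cast (r i) (h i) _ (fun _ => rfl) _

omit [CharZero K] [IsAlgClosed K] in
theorem Lin_equiv (e : ι' ≃ ι) (h : ∀ i, τ (e i) = τ' i) (β : ι → Lb k q K) :
    W.pullS (remap e h) (W.Lin τ' (β ∘ e)) = W.Lin τ β := by
  rw [pullS_remap_Lin]
  exact Equiv.prod_comp e fun i => W.pullS (pr τ i) (W.V (τ i) (β i))

omit [CharZero K] [IsAlgClosed K] in
theorem Lin_split (r₁ : ι₁ → ι) (r₂ : ι₂ → ι) (h₁ : ∀ i, τ (r₁ i) = τ₁ i)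
    (h₂ : ∀ i, τ (r₂ i) = τ₂ i) (hb : Function.Bijective (Sum.elim r₁ r₂)) (β : ι → Lb k q K) :
    W.Lin τ β = W.pullS (remap r₁ h₁) (W.Lin τ₁ (β ∘ r₁)) *
      W.pullS (remap r₂ h₂) (W.Lin τ₂ (β ∘ r₂)) := by
  rw [pullS_remap_Lin, pullS_remap_Lin, Lin, LinS, ← hb.prod_comp, Fintype.prod_sum_type]
  rfl

omit [CharZero K] [IsAlgClosed K] in
theorem Lin_sum (β₁ : ι₁ → Lb k q K) (β₂ : ι₂ → Lb k q K) :
    W.Lin (Sum.elim τ₁ τ₂) (Sum.elim β₁ β₂) =
      W.pullS (pL τ₁ τ₂) (W.Lin τ₁ β₁) * W.pullS (pR τ₁ τ₂) (W.Lin τ₂ β₂) :=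
  W.Lin_split Sum.inl Sum.inr (fun _ => rfl) (fun _ => rfl) (by simp) _

omit [CharZero K] [IsAlgClosed K] in
theorem cw_smul (g : ι → P2 k → P2 k) (h : ∀ i, CMap q (τ i) (τ i) (g i))
    (S : ∀ i, W.HS (Cv k q (τ i))) (c : ι → K)
    (hc : ∀ i, ∀ a ∈ (S i).1, W.pull (cm (g i) (h i)) a = c i • a) {a : W.H (Yv k q τ)}
    (ha : a ∈ (W.LinS τ S).1) : W.pull (cw id g h) a = (∏ i, c i) • a := by
  refine W.lines1_prod_smul (W.pull (cw id g h)) _ _ c ?_ a ha
  rintro i - _ ⟨b, hb, rfl⟩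
  show W.pull _ (W.pull _ b) = c i • W.pull _ b
  rw [← map_smul, ← hc i b hb, pull_pull, pull_pull]
  rfl

omit [CharZero K] [IsAlgClosed K] in
theorem Lin_le_gr (β : ι → Lb k q K) : (W.Lin τ β).1 ≤ W.gr _ (∑ i, (β i).deg) := by
  refine W.lines1_prod_gr _ _ _ fun i => ?_
  rintro _ ⟨b, hb, rfl⟩
  exact W.pull_gr _ _ _ (W.V_le_gr _ _ hb)

omit [IsAlgClosed K] in
theorem NZ_LinS (S : ∀ i, W.HS (Cv k q (τ i))) : W.NZ (W.LinS τ S).1 ↔ ∀ i, W.NZ (S i).1 := by
  revert τ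
  refine Fintype.induction_empty_option (P := fun ι _ => ∀ {τ : ι → Bool}
    (S : ∀ i, W.HS (Cv k q (τ i))), W.NZ (W.LinS τ S).1 ↔ ∀ i, W.NZ (S i).1) ?_ ?_ ?_ ι
  · intro α β _ e ih τ S
    let : Fintype α := Fintype.ofEquiv β e.symm
    rw [← W.lines1_equiv e, W.lines1_NZ_aut _ (remap e.symm fun i => by simp)
      (fun x => Yv_ext fun i => by simp) (fun x => Yv_ext fun i => by simp), ih]
    exact e.forall_congr_right (q := fun i => W.NZ (S i).1)
  · intro τ S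
    refine ⟨fun _ i => i.elim, fun _ => ⟨1, ?_, ?_⟩⟩
    · rw [LinS, Finset.univ_eq_empty, Finset.prod_empty]
      exact Submodule.one_le.1 le_rfl
    · obtain ⟨x⟩ : Nonempty (Yv k q τ).pts := inferInstance
      have : (univ : Set (Yv k q τ).pts) = {x} :=
        (eq_singleton_iff_unique_mem.2 ⟨trivial, fun y _ => Yv_ext fun i => i.elim⟩)
      rw [← W.cl_univ, this, W.tr_pt]
      exact one_ne_zero
  · intro α _ ih τ S
    rw [W.lines1_option, W.lines1_NZ_prod (lines1_isProd τ), ih, Option.forall, and_comm]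

omit [CharZero K] [IsAlgClosed K] in
theorem iSup_LinS {L : Bool → Type*} (S : ∀ b, L b → W.HS (Cv k q b))
    (hS : ∀ b, ⨆ t, (S b t).1 = ⊤) :
    ⨆ β : ∀ i, L (τ i), (W.LinS τ fun i => S (τ i) (β i)).1 = ⊤ := by
  revert τ
  refine Fintype.induction_empty_option (P := fun ι _ => ∀ {τ : ι → Bool},
    ⨆ β : ∀ i, L (τ i), (W.LinS τ fun i => S (τ i) (β i)).1 = ⊤) ?_ ?_ ?_ ι
  · intro α γ _ e ih τ
    let : Fintype α := Fintype.ofEquiv γ e.symm
    refine eq_top_iff.2 fun a _ => ?_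
    let f : Mor (Yv k q τ) (Yv k q (τ ∘ e)) := remap e fun _ => rfl
    let g : Mor (Yv k q (τ ∘ e)) (Yv k q τ) := remap e.symm fun i => by simp
    have h1 : W.pull f (W.pull g a) = a := by
      rw [pull_pull]
      exact W.pull_id _ (funext fun x => Yv_ext fun i => by simp [f, g]) a
    have h2 : W.pull g a ∈ ⨆ β : ∀ i, L ((τ ∘ e) i),
        (W.LinS (τ ∘ e) fun i => S ((τ ∘ e) i) (β i)).1 := by rw [ih]; trivial
    rw [← h1]
    generalize W.pull g a = b at h2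
    induction h2 using Submodule.iSup_induction' with
    | mem β b hb =>
      refine Submodule.mem_iSup_of_mem (Equiv.piCongrLeft (fun i => L (τ i)) e β) ?_
      rw [← W.lines1_equiv e]
      simp only [Equiv.piCongrLeft_apply_apply]
      exact ⟨b, hb, rfl⟩
    | zero => simp
    | add x y _ _ hx hy => rw [map_add]; exact add_mem hx hy
  · intro τ
    refine eq_top_iff.2 fun a _ => Submodule.mem_iSup_of_mem (fun i => i.elim) ?_
    rw [LinS, Finset.univ_eq_empty, Finset.prod_empty]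
    show a ∈ (1 : Submodule K _)
    rw [Submodule.one_eq_span, ← W.zero]
    induction a using DirectSum.Decomposition.inductionOn (W.gr (Yv k q τ)) with
    | zero => exact zero_mem _
    | @homogeneous j b =>
      rcases Nat.eq_zero_or_pos j with rfl | hj
      · exact b.2
      · rw [W.gr_eq_zero b.2 (by rw [W.d_Yv]; simpa using hj)]
        exact zero_mem _
    | add b c hb hc => exact add_mem (hb trivial) (hc trivial)
  · intro α _ ih τ
    refine W.prod_span (lines1_isProd τ) _ fun a b => ?_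
    have ha : a ∈ ⨆ β : ∀ i, L ((τ ∘ some) i),
        (W.LinS (τ ∘ some) fun i => S ((τ ∘ some) i) (β i)).1 := by rw [ih]; trivial
    have hb : b ∈ ⨆ t, (S (τ none) t).1 := by rw [hS]; trivial
    induction ha using Submodule.iSup_induction' with
    | zero => simp
    | add x y _ _ hx hy => rw [map_add, add_mul]; exact add_mem hx hy
    | mem β a ha =>
      induction hb using Submodule.iSup_induction' with
      | zero => simp
      | add x y _ _ hx hy => rw [map_add, mul_add]; exact add_mem hx hy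
      | mem t b hb =>
        refine Submodule.mem_iSup_of_mem (fun o => Option.rec (motive := fun o => L (τ o)) t β o) ?_
        rw [W.lines1_option]
        exact Submodule.mul_mem_mul ⟨a, ha, rfl⟩ ⟨b, hb, rfl⟩

omit [CharZero K] [IsAlgClosed K] in
theorem LinS_eq_span (S : ∀ i, W.HS (Cv k q (τ i))) (hS : ∀ i, ∃ u, (S i).1 = K ∙ u) :
    ∃ u, (W.LinS τ S).1 = K ∙ u := by
  refine W.lines1_prod_span _ _ fun i => ?_
  obtain ⟨u, hu⟩ := hS i
  exact ⟨W.pull (pr τ i) u, by rw [pullS_val, hu, Submodule.map_span, image_singleton]; rfl⟩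

omit [CharZero K] [IsAlgClosed K] in
theorem swap_Lin [DecidableEq ι] {i j : ι} (hij : i ≠ j) (h : ∀ l, τ (Equiv.swap i j l) = τ l)
    (β : ι → Lb k q K) (hβ : β i = β j) (hd : (β i).deg = 1) (hu : ∃ u, (W.V (τ i) (β i)).1 = K ∙ u)
    {a : W.H (Yv k q τ)} (ha : a ∈ (W.Lin τ β).1) :
    W.pull (remap (Equiv.swap i j) h) a = -a := by
  obtain ⟨u, hu⟩ := hu
  have hτ : τ j = τ i := by simpa using h i
  have hg : u ∈ W.gr _ 1 := hd ▸ W.V_le_gr _ _ (hu ▸ Submodule.mem_span_singleton_self u)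
  let f : Mor (Yv k q τ) (Cv k q (τ i)) := remap (fun _ => j) fun _ => hτ
  have e1 : W.pull (remap (Equiv.swap i j) h) (W.pull (pr τ i) u) = W.pull f u := by
    rw [pull_pull]
    exact W.pull_congr (fun x => Yv_ext fun _ => by simp [f]) u
  have e2 : W.pull (remap (Equiv.swap i j) h) (W.pull f u) = W.pull (pr τ i) u := by
    rw [pull_pull]
    exact W.pull_congr (fun x => Yv_ext fun _ => by simp [f]) u
  rw [Lin, LinS, ← Finset.mul_prod_erase _ _ (Finset.mem_univ i),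
    ← Finset.mul_prod_erase _ _ (Finset.mem_erase.2 ⟨hij.symm, Finset.mem_univ j⟩), ← mul_assoc,
    ← hβ, ← W.lines1_cast j hτ f (fun _ => rfl)] at ha
  have := W.lines1_mul_smul (W.pull (remap (Equiv.swap i j) h)) (c := -1) ?_
    (W.lines1_prod_smul _ _ _ (fun _ => 1) ?_) a ha
  · simpa using this
  · intro b hb
    rw [Submonoid.coe_mul, pullS_val, pullS_val, hu, Submodule.map_span, Submodule.map_span,
      image_singleton, image_singleton, Submodule.span_mul_span, singleton_mul_singleton,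
      Submodule.mem_span_singleton] at hb
    obtain ⟨t, rfl⟩ := hb
    simp only [AlgHom.toLinearMap_apply, map_smul, map_mul, e1, e2]
    rw [W.comm _ 1 1 _ (W.pull_gr f 1 u hg) _ (W.pull_gr (pr τ i) 1 u hg)]
    simp
  · rintro l hl _ ⟨b, -, rfl⟩
    simp only [Finset.mem_erase] at hl
    show W.pull _ (W.pull _ b) = (1 : K) • W.pull _ b
    rw [pull_pull, one_smul]
    exact W.pull_congr (fun x => Yv_ext fun _ => by
      simp [Equiv.swap_apply_of_ne_of_ne hl.2.1 hl.1]) b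

end Weil

end Pool.Agent.MP_0c8446_ag

end

section

namespace Pool.Agent.MP_0c8446_ag

open Set

universe u v w

variable {k : Type u} [Field k] [IsAlgClosed k] {q : ℕ} [IsQ k q] {K : Type v} [Field K]

namespace Weil

variable (W : Weil.{u, v, w} k K)

lemma cc1_tr_act [CharZero K] (b : Bool) (g : Gp k q b) (a : W.H (Cv k q b)) :
    W.tr _ (W.act b g a) = W.tr _ a :=
  W.tr_pull_aut (cm (lin g.1) (cMap_Gp g.2)) (cm (lin g⁻¹.1) (cMap_Gp g⁻¹.2))
    (fun x => actY_inv (τ := fun _ : Unit => b) (fun _ => g) x)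
    (fun x => actY_inv' (τ := fun _ : Unit => b) (fun _ => g) x) a

theorem act_V [CharZero K] (b : Bool) (t : Lb k q K) (g : Gp k q b) {a : W.H (Cv k q b)}
    (ha : a ∈ (W.V b t).1) : W.act b g a = (t.chr b g : K) • a := by
  cases t with
  | one =>
    obtain ⟨c, rfl⟩ := Submodule.mem_one.1 ha
    rw [act_apply, AlgHom.commutes]
    exact (one_smul K _).symm
  | pt =>
    obtain ⟨x⟩ : Nonempty (Cv k q b).pts := inferInstance
    have h1 : a ∈ W.gr _ (2 * (Cv k q b).d) := by rw [d_Cv]; exact ha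
    have h2 : W.act b g a ∈ W.gr _ (2 * (Cv k q b).d) := W.pull_gr _ _ _ h1
    rw [W.eq_smul_pt h2 x, cc1_tr_act, ← W.eq_smul_pt h1 x]
    exact (one_smul K _).symm
  | ch ω₁ ω₂ ψ => exact ha.2 g

lemma cc1_const {X Y : Var k} (y : Y.pts) (q : ℕ) [IsQ k q] {a : W.H Y} {i : ℕ} (hi : 0 < i)
    (ha : a ∈ W.gr Y i) : W.pull (Mor.const X y) a = 0 := by
  obtain ⟨o⟩ : Nonempty (Yv k q fun e : Empty => e.elim).pts := inferInstance
  have h1 : W.pull (Mor.const (Yv k q fun e : Empty => e.elim) y) a = 0 :=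
    W.gr_eq_zero (W.pull_gr _ _ _ ha) (by rw [W.d_Yv]; simpa using hi)
  rw [W.pull_congr (f := Mor.const X y) (g := (Mor.const _ y).comp (Mor.const X o))
    (fun _ => rfl), ← W.pull_pull, h1, map_zero]

theorem const_V (b : Bool) (t : Lb k q K) (x : (Cv k q b).pts) {a : W.H (Cv k q b)}
    (ha : a ∈ (W.V b t).1) : W.pull (Mor.const _ x) a = t.kap • a := by
  cases t with
  | one =>
    obtain ⟨c, rfl⟩ := Submodule.mem_one.1 ha
    rw [AlgHom.commutes, Lb.kap, if_pos rfl, one_smul]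
  | pt =>
    rw [W.cc1_const x q two_pos (W.V_le_gr b _ ha), Lb.kap, if_neg (by simp), zero_smul]
  | ch ω₁ ω₂ ψ =>
    rw [W.cc1_const x q one_pos (W.V_le_gr b _ ha), Lb.kap, if_neg (by simp), zero_smul]

theorem not_NZ_V [CharZero K] {b : Bool} {t t' : Lb k q K} (h : t.Ok b) (h' : t'.Ok b)
    (hne : t' ≠ t.du) : ¬ W.NZ (W.V b t * W.V b t').1 := by
  rintro ⟨c, hc, hc0⟩
  refine hc0 (Submodule.mul_induction_on (C := fun c => W.tr _ c = 0) hc (fun a ha a' ha' => ?_)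
    fun a a' ha ha' => by rw [map_add, ha, ha', add_zero])
  by_contra h0
  have hd : t.deg + t'.deg = 2 := by
    by_contra h1
    exact h0 (W.tr_mul_gr (W.V_le_gr b t ha) (W.V_le_gr b t' ha') (by rwa [d_Cv]))
  have hχ : t'.chr b = t.du.chr b := by
    rw [Lb.chr_du]
    refine MonoidHom.ext fun g => ?_
    have h1 := W.cc1_tr_act b g (a * a')
    rw [act_apply, map_mul, ← act_apply, ← act_apply, W.act_V b t g ha, W.act_V b t' g ha',
      smul_mul_smul_comm, map_smul, smul_eq_mul] at h1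
    have h2 := mul_right_cancel₀ h0 (h1.trans (one_mul _).symm)
    rw [MonoidHom.inv_apply]
    exact eq_inv_of_mul_eq_one_right (Units.ext h2)
  refine hne (Lb.eq_of_chr h' h.du hχ ?_)
  cases t <;> cases t' <;> simp [Lb.deg] at hd <;> simp [Lb.kap, Lb.du]

end Weil

end Pool.Agent.MP_0c8446_ag

end

section

namespace Pool.Agent.MP_0c8446_ag

open Set
open scoped LinearAlgebra.Projectivization

universe u v w

variable {k : Type u} [Field k] [IsAlgClosed k] {q : ℕ} [IsQ k q] {K : Type v} [Field K]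
  [CharZero K] {ι : Type} [Fintype ι] {τ : ι → Bool}

lemma frobFix_root (e : ℕ) [he : IsQ k e] (x : k) : ∃ y, y ^ e = x :=
  IsAlgClosed.exists_pow_nat_eq x (by have := he.one_lt; omega)

omit [IsAlgClosed k] [IsQ k q] in
lemma frobFix_cEq (e : ℕ) [IsQ k e] {b : Bool} {x y z : k} (h : CEq q b (x ^ e) (y ^ e) (z ^ e)) :
    CEq q b x y z := by
  cases b
  · simp only [CEq, Bool.false_eq_true, if_false] at h ⊢
    apply (frobHom k e).injective
    simp only [map_sub, map_mul, map_pow (frobHom k e)]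
    exact h
  · simp only [CEq, if_true] at h ⊢
    apply (frobHom k e).injective
    simp only [map_add, map_pow (frobHom k e)]
    exact h

lemma frobFix_pt (e : ℕ) [he : IsQ k e] {b : Bool} {P : P2 k} (hP : P ∈ curve k q b) :
    ∃ P' ∈ curve k q b, frob e P' = P := by
  obtain ⟨x, hx⟩ := frobFix_root e (P.rep 0)
  obtain ⟨y, hy⟩ := frobFix_root e (P.rep 1)
  obtain ⟨z, hz⟩ := frobFix_root e (P.rep 2)
  have he0 : e ≠ 0 := by have := he.one_lt; omega
  have h0 : ![x, y, z] ≠ 0 := by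
    have := vec3_ne_zero.1 (rep_ne_zero P)
    rw [← hx, ← hy, ← hz] at this
    exact vec3_ne_zero.2 (this.imp (ne_zero_pow he0) (Or.imp (ne_zero_pow he0) (ne_zero_pow he0)))
  refine ⟨pt3 x y z, (pt3_mem_curve h0).2 (frobFix_cEq e ?_), ?_⟩
  · rw [hx, hy, hz]
    exact hP
  · rw [frob_pt3 e h0, hx, hy, hz, pt3_rep]

theorem frobY_surjective (e : ℕ) (he : IsQ k e) :
    Function.Surjective (frobY (k := k) (q := q) τ e he).1 := by
  intro x
  choose P hP h using fun i => frobFix_pt (q := q) e (co_mem x i)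
  exact ⟨mkY P hP, Yv_ext fun i => h i⟩

omit [IsAlgClosed k] in
lemma frobFix_mk (e : ℕ) (v : Fin 3 → k) (h0 : v ≠ 0) :
    ∃ h : (fun s => v s ^ e) ≠ 0,
      Projectivization.mk k (fun s => v s ^ e) h = frob e (Projectivization.mk k v h0) := by
  have e2 : ![v 0, v 1, v 2] = v := by funext s; fin_cases s <;> rfl
  have h1 : ![v 0, v 1, v 2] ≠ 0 := by rw [e2]; exact h0
  have e3 : (fun s => v s ^ e) = ![v 0 ^ e, v 1 ^ e, v 2 ^ e] := by
    funext s; fin_cases s <;> rfl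
  have h2 : (fun s => v s ^ e) ≠ 0 := by rw [e3]; exact frob_ne_zero e h1
  exact ⟨h2, by rw [mk_eq_pt3 _ h0, mk_eq_pt3 _ h2, frob_pt3 e h1]⟩

lemma frobFix_isRep (e : ℕ) (he : IsQ k e) {x : (Yv k q τ).pts} {v : Vars (Yv k q τ).n → k}
    (hv : IsRep v x.1) : IsRep (fun a => v a ^ e) ((frobY τ e he).1 x).1 := by
  intro i
  obtain ⟨h0, e0⟩ := hv i
  obtain ⟨h2, e2⟩ := frobFix_mk e (fun s : Fin 3 => v ⟨i, s⟩) h0
  exact ⟨h2, e2.trans (congrArg (frob e) e0)⟩

omit [IsAlgClosed k] in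
lemma frobFix_eval {σ : Type} (e : ℕ) [IsQ k e] {f : MvPolynomial σ k}
    (hf : MvPolynomial.map (frobHom k e) f = f) (v : σ → k) :
    MvPolynomial.eval (fun a => v a ^ e) f = MvPolynomial.eval v f ^ e := by
  have := MvPolynomial.map_eval (frobHom k e) v f
  rw [hf] at this
  exact this.symm

lemma frobFix_vanish (e : ℕ) (he : IsQ k e) {f : MvPolynomial (Vars (Yv k q τ).n) k}
    (hf : MvPolynomial.map (frobHom k e) f = f) (x : (Yv k q τ).pts) :
    Vanish f ((frobY τ e he).1 x).1 ↔ Vanish f x.1 := by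
  have he0 : e ≠ 0 := by have := he.one_lt; omega
  constructor
  · intro h v hv
    have := h _ (frobFix_isRep e he hv)
    rw [frobFix_eval e hf] at this
    exact pow_eq_zero_iff he0 |>.1 this
  · intro h w hw
    obtain ⟨t, ht, rfl⟩ := (frobFix_isRep e he (isRep_rep x.1)).exists_smul hw
    choose s hs using fun i => frobFix_root e (t i)
    have hs0 : ∀ i, s i ≠ 0 := fun i => ne_zero_pow he0 (hs i ▸ ht i)
    have h1 := h _ ((isRep_rep x.1).smul s hs0)
    have h2 := frobFix_eval e hf fun a => s a.1 * x.1.rep a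
    rw [h1, zero_pow he0] at h2
    simpa only [mul_pow, hs] using h2

omit [IsAlgClosed k] [IsQ k q] in
lemma frobFix_mul {x : k} {r : ℕ} (h : x ^ q ^ r = x) (m : ℕ) : x ^ q ^ (r * m) = x := by
  induction m with
  | zero => simp
  | succ m ih => rw [Nat.mul_succ, pow_add, pow_mul, ih, h]

omit [IsAlgClosed k] [IsQ k q] in
lemma frobFix_common (hk : ∀ x : k, ∃ r, 0 < r ∧ x ^ q ^ r = x) (T : Finset k) :
    ∃ R, 0 < R ∧ ∀ x ∈ T, x ^ q ^ R = x := by
  choose r hr h using hk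
  refine ⟨∏ x ∈ T, r x, Finset.prod_pos fun x _ => hr x, fun x hx => ?_⟩
  obtain ⟨m, hm⟩ := Finset.dvd_prod_of_mem r hx
  rw [hm]
  exact frobFix_mul (h x) m

theorem exists_frob_fix (hk : ∀ x : k, ∃ r, 0 < r ∧ x ^ q ^ r = x) {Z : Set (Yv k q τ).pts}
    (hZ : IsClosed Z) : ∃ R, ∃ hR : 0 < R, (frobY τ (q ^ R) (isQ_pow k q hR)).1 '' Z = Z := by
  classical
  obtain ⟨S, hS⟩ : ∃ S : Finset (MvPolynomial (Vars (Yv k q τ).n) k),
      Ideal.span (S : Set _) = vI (Subtype.val '' Z) :=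
    IsNoetherian.noetherian (vI (Subtype.val '' Z))
  obtain ⟨R, hR, h⟩ := frobFix_common hk (S.biUnion fun f => f.coeffs)
  have he := isQ_pow k q hR
  have hmem : ∀ x : (Yv k q τ).pts, x ∈ Z ↔ ∀ f ∈ S, Vanish f x.1 := by
    intro x
    conv_lhs => rw [← hZ.closure_eq, closure_subtype, mem_closure_vI]
    constructor
    · intro h1 f hf
      exact h1 f (hS ▸ Ideal.subset_span hf)
    · intro h1 f hf
      have h2 : Ideal.span (S : Set _) ≤ vI {x.1} :=
        Ideal.span_le.2 fun g hg y hy => by rw [mem_singleton_iff.1 hy]; exact h1 g hg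
      exact h2 (hS ▸ hf) _ rfl
  have hfix : ∀ f ∈ S, MvPolynomial.map (frobHom k (q ^ R)) f = f := by
    intro f hf
    ext m
    rw [MvPolynomial.coeff_map]
    by_cases hm : MvPolynomial.coeff m f = 0
    · rw [hm, map_zero]
    · exact h _ (Finset.mem_biUnion.2 ⟨f, hf, MvPolynomial.coeff_mem_coeffs m hm⟩)
  have key : ∀ x, (frobY τ (q ^ R) he).1 x ∈ Z ↔ x ∈ Z := fun x => by
    rw [hmem, hmem]
    exact forall₂_congr fun f hf => frobFix_vanish _ he (hfix f hf) x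
  refine ⟨R, hR, Subset.antisymm ?_ fun y hy => ?_⟩
  · rintro _ ⟨x, hx, rfl⟩
    exact (key x).2 hx
  · obtain ⟨x, rfl⟩ := frobY_surjective (q := q) (τ := τ) _ he y
    exact ⟨x, (key x).1 hy, rfl⟩

omit [CharZero K] in
theorem Weil.pull_frobY_pow (W : Weil.{u, v, w} k K) {R : ℕ} (hR : 0 < R) (a : W.H (Yv k q τ)) :
    W.pull (frobY τ (q ^ R) (isQ_pow k q hR)) a =
      ((W.pull (frobY τ q inferInstance)).toLinearMap ^ R) a := by
  induction R, hR using Nat.le_induction generalizing a with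
  | base =>
    rw [pow_one (M := Module.End K _)]
    exact W.pull_congr (fun x => Yv_ext fun i => by simp) a
  | succ R hR ih =>
    rw [pow_succ (M := Module.End K _), Module.End.mul_apply, ← ih, AlgHom.toLinearMap_apply,
      W.pull_pull]
    exact W.pull_congr (fun x => Yv_ext fun i => by simp [frob_frob, pow_succ]) a

omit [CharZero K] in
theorem Weil.frob_nat (W : Weil.{u, v, w} k K) (hk : ∀ x : k, ∃ r, 0 < r ∧ x ^ q ^ r = x)
    {a b : W.H (Yv k q τ)} (ha : a ∈ W.Alg _) (h : W.tr _ (a * b) ≠ 0) {c : K}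
    (hc : W.pull (frobY τ q inferInstance) b = c • b) : ∃ R n : ℕ, 0 < R ∧ c ^ R = n := by
  obtain ⟨Z, hZ, h1⟩ := W.exists_cl_of_Alg ha h
  obtain ⟨R, hR, h2⟩ := exists_frob_fix hk hZ.2
  obtain ⟨r, -, h3⟩ := W.push (frobY τ (q ^ R) (isQ_pow k q hR)) Z hZ
  have h4 : ∀ n : ℕ, ((W.pull (frobY τ q inferInstance)).toLinearMap ^ n) b = c ^ n • b := by
    intro n
    induction n with
    | zero => simp
    | succ n ih =>
      rw [pow_succ' (M := Module.End K _), Module.End.mul_apply, ih, map_smul,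
        AlgHom.toLinearMap_apply, hc, smul_smul, pow_succ]
  have h5 := h3 b
  rw [h2, hZ.2.closure_eq, W.pull_frobY_pow hR, h4, mul_smul_comm, map_smul, smul_eq_mul] at h5
  exact ⟨R, r, hR, mul_right_cancel₀ h1 h5⟩

end Pool.Agent.MP_0c8446_ag

end

section

namespace Pool.Agent.MP_0c8446_ag

open Set MvPolynomial

universe u v w

variable {k : Type u} [Field k] [IsAlgClosed k] {q : ℕ} [IsQ k q] {K : Type v} [Field K]
  [CharZero K] [IsAlgClosed K] {ι ι' ι₁ ι₂ : Type} [Fintype ι] [Fintype ι'] [Fintype ι₁] [Fintype ι₂]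
  {τ : ι → Bool} {τ' : ι' → Bool} {τ₁ : ι₁ → Bool} {τ₂ : ι₂ → Bool}

lemma hdc_rep {x : (Yv k q τ).pts} {v : Vars (fun _ : ι => 2) → k} (hv : IsRep v x.1) (i : ι) :
    ∃ t : k, t ≠ 0 ∧ ∀ s : Fin 3, v ⟨i, s⟩ = t * (co x i).rep s := by
  obtain ⟨t, ht, rfl⟩ := (isRep_rep x.1).exists_smul hv
  exact ⟨t i, ht i, fun _ => rfl⟩

lemma hdc_fin {x : (Yv k q τ).pts} {v : Vars (fun _ : ι => 2) → k} (hv : IsRep v x.1) {i : ι}
    (h : IsFin (co x i)) : v ⟨i, 2⟩ ≠ 0 ∧ v ⟨i, 0⟩ = ax (co x i) * v ⟨i, 2⟩ ∧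
      v ⟨i, 1⟩ = ay (co x i) * v ⟨i, 2⟩ := by
  obtain ⟨t, ht, e⟩ := hdc_rep hv i
  have h' : (co x i).rep 2 ≠ 0 := h
  rw [e, e, e, ax, ay]
  exact ⟨mul_ne_zero ht h', by field_simp, by field_simp⟩

lemma hdc_inf {x : (Yv k q τ).pts} {v : Vars (fun _ : ι => 2) → k} (hv : IsRep v x.1) {i : ι}
    (hi : τ i = false) (h : ¬ IsFin (co x i)) : v ⟨i, 2⟩ = 0 ∧ v ⟨i, 0⟩ ≠ 0 := by
  obtain ⟨t, ht, e⟩ := hdc_rep hv i
  obtain ⟨c, hc, e0, -, e2⟩ := rep_pt3 (x := (1 : k)) (y := 0) (z := 0) (by simp)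
  rw [e, e, eq_inf_of_dh (hi ▸ co_mem x i) h, e0, e2]
  simp [ht, hc]

lemma hdc_ex (x : (Yv k q τ).pts) : ∃ v : Vars (fun _ : ι => 2) → k, IsRep v x.1 :=
  ⟨_, isRep_rep x.1⟩

lemma hdc_z {x : (Yv k q τ).pts} {v : Vars (fun _ : ι => 2) → k} (hv : IsRep v x.1) {i : ι}
    (h : ¬ IsFin (co x i)) : v ⟨i, 2⟩ = 0 := by
  obtain ⟨t, -, e⟩ := hdc_rep hv i
  rw [e, not_not.1 h, mul_zero]

/-- The polynomial vanishes at the point. -/
def HdV (f : MvPolynomial (Vars fun _ : ι => 2) k) (x : (Yv k q τ).pts) : Prop :=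
  ∀ v : Vars (fun _ : ι => 2) → k, IsRep v x.1 → eval v f = 0

lemma hdc_closed (f : MvPolynomial (Vars fun _ : ι => 2) k) :
    IsClosed {x : (Yv k q τ).pts | HdV f x} :=
  (isClosed_vanish f).preimage continuous_subtype_val

lemma hdc_of {P : (Yv k q τ).pts → Prop} (f : MvPolynomial (Vars fun _ : ι => 2) k)
    (h : ∀ x, P x ↔ HdV f x) : IsClosed {x | P x} := by
  rw [show P = HdV f from funext fun x => propext (h x)]
  exact hdc_closed f

/-- Functions that are polynomial in the affine coordinates. -/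
def HdReg (h : (Yv k q τ).pts → k) : Prop :=
  ∃ (f : MvPolynomial (Vars fun _ : ι => 2) k) (N : ℕ), ∀ x, (∀ i, IsFin (co x i)) →
    ∀ v : Vars (fun _ : ι => 2) → k, IsRep v x.1 → eval v f = (∏ i, v ⟨i, 2⟩) ^ N * h x

namespace HdReg

variable {g h : (Yv k q τ).pts → k}

lemma const (c : k) : HdReg fun _ : (Yv k q τ).pts => c := ⟨C c, 0, fun _ _ _ _ => by simp⟩

lemma mul (hg : HdReg g) (hh : HdReg h) : HdReg fun x => g x * h x := by
  obtain ⟨f, N, e⟩ := hg
  obtain ⟨f', N', e'⟩ := hh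
  exact ⟨f * f', N + N', fun x hx v hv => by rw [map_mul, e x hx v hv, e' x hx v hv]; ring⟩

lemma add (hg : HdReg g) (hh : HdReg h) : HdReg fun x => g x + h x := by
  obtain ⟨f, N, e⟩ := hg
  obtain ⟨f', N', e'⟩ := hh
  refine ⟨(∏ i, X ⟨i, 2⟩) ^ N' * f + (∏ i, X ⟨i, 2⟩) ^ N * f', N + N', fun x hx v hv => ?_⟩
  simp only [map_add, map_mul, map_pow, map_prod, eval_X, e x hx v hv, e' x hx v hv]
  ring

lemma neg (hg : HdReg g) : HdReg fun x => -g x := by simpa using (const (-1)).mul hg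

lemma sub (hg : HdReg g) (hh : HdReg h) : HdReg fun x => g x - h x := by
  simpa only [sub_eq_add_neg] using hg.add hh.neg

lemma pow (hg : HdReg g) (n : ℕ) : HdReg fun x => g x ^ n := by
  induction n with
  | zero => simpa using const 1
  | succ n ih => simpa only [pow_succ] using ih.mul hg

lemma prod {α : Type} (s : Finset α) {F : α → (Yv k q τ).pts → k} (hF : ∀ a, HdReg (F a)) :
    HdReg fun x => ∏ a ∈ s, F a x := by
  classical
  induction s using Finset.induction_on with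
  | empty => simpa using const 1
  | insert a s ha ih => simpa only [Finset.prod_insert ha] using (hF a).mul ih

lemma sum {α : Type} (s : Finset α) {F : α → (Yv k q τ).pts → k} (hF : ∀ a, HdReg (F a)) :
    HdReg fun x => ∑ a ∈ s, F a x := by
  classical
  induction s using Finset.induction_on with
  | empty => simpa using const 0
  | insert a s ha ih => simpa only [Finset.sum_insert ha] using (hF a).add ih

lemma ax (i : ι) : HdReg fun x : (Yv k q τ).pts => ax (co x i) := by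
  classical
  refine ⟨X ⟨i, 0⟩ * ∏ j ∈ Finset.univ.erase i, X ⟨j, 2⟩, 1, fun x hx v hv => ?_⟩
  simp only [map_mul, map_prod, eval_X, (hdc_fin hv (hx i)).2.1]
  rw [← Finset.mul_prod_erase _ _ (Finset.mem_univ i)]
  ring

lemma ay (i : ι) : HdReg fun x : (Yv k q τ).pts => ay (co x i) := by
  classical
  refine ⟨X ⟨i, 1⟩ * ∏ j ∈ Finset.univ.erase i, X ⟨j, 2⟩, 1, fun x hx v hv => ?_⟩
  simp only [map_mul, map_prod, eval_X, (hdc_fin hv (hx i)).2.2]
  rw [← Finset.mul_prod_erase _ _ (Finset.mem_univ i)]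
  ring

lemma closed (hg : HdReg g) (hh : HdReg h) :
    IsClosed {x : (Yv k q τ).pts | (∀ i, IsFin (co x i)) → g x = h x} := by
  obtain ⟨f, N, e⟩ := hg.sub hh
  refine hdc_of (f * ∏ i, X ⟨i, 2⟩) fun x => ⟨fun H v hv => ?_, fun H hx => ?_⟩
  · simp only [map_mul, map_prod, eval_X]
    by_cases hx : ∀ i, IsFin (co x i)
    · simp only [e x hx v hv, H hx, sub_self, mul_zero, zero_mul]
    · obtain ⟨i, hi⟩ := not_forall.1 hx
      rw [Finset.prod_eq_zero (Finset.mem_univ i) (hdc_z hv hi), mul_zero]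
  · obtain ⟨v, hv⟩ := hdc_ex x
    have := H _ hv
    simp only [map_mul, map_prod, eval_X] at this
    have p : ∏ i, v ⟨i, 2⟩ ≠ 0 := Finset.prod_ne_zero_iff.2 fun i _ => (hdc_fin hv (hx i)).1
    rw [e x hx _ hv] at this
    simpa [p, sub_eq_zero] using this

end HdReg

/-- The equation that keeps the `j`-th second coordinate finite. -/
noncomputable def hdG (d e : ℕ) [NeZero d] (c : k) (j : Fin d) :
    MvPolynomial (Vars fun _ : Fin d ⊕ Fin d => 2) k :=
  if j = 0 then (∏ i, X ⟨.inl i, 0⟩) * X ⟨.inr 0, 2⟩ ^ d -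
    C c * X ⟨.inr 0, 0⟩ ^ d * ∏ i, X ⟨.inl i, 2⟩
  else ∏ i, (X ⟨.inr j, 0⟩ ^ e * X ⟨.inl i, 2⟩ ^ e - X ⟨.inl i, 0⟩ ^ e * X ⟨.inr j, 2⟩ ^ e) -
    ∏ i, -(X ⟨.inl i, 0⟩ ^ e * X ⟨.inr j, 2⟩ ^ e)

lemma hdG_fin {d e : ℕ} [NeZero d] {c : k} {σ : Fin d ⊕ Fin d → Bool} {x : (Yv k q σ).pts}
    (fs : ∀ i, IsFin (co x (.inl i))) (fm : ∀ i, IsFin (co x (.inr i)))
    (e1 : ∀ t : k, ∏ i, (t - ax (co x (.inl i)) ^ e) =
      ∏ j, (t - if j = 0 then 0 else ax (co x (.inr j)) ^ e) + ∏ i, (-ax (co x (.inl i)) ^ e))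
    (e2 : ∏ i, ax (co x (.inl i)) = c * ax (co x (.inr 0)) ^ d) (j : Fin d) :
    HdV (hdG d e c j) x := by
  intro v hv
  have r := fun i => (hdc_fin hv (fs i)).2.1
  have r' := fun i => (hdc_fin hv (fm i)).2.1
  by_cases hj : j = 0
  · simp only [hdG, if_pos hj, map_sub, map_mul, map_pow, map_prod, eval_X, eval_C, r, r',
      Finset.prod_mul_distrib, e2]
    ring
  · have e4 := e1 (ax (co x (.inr j)) ^ e)
    rw [Finset.prod_eq_zero (f := fun i => ax (co x (.inr j)) ^ e -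
      if i = 0 then 0 else ax (co x (.inr i)) ^ e) (Finset.mem_univ j) (by simp [hj]),
      zero_add] at e4
    simp only [hdG, if_neg hj, map_sub, map_mul, map_pow, map_prod, map_neg, eval_X, r, r']
    have s1 : ∀ i, (ax (co x (.inr j)) * v ⟨.inr j, 2⟩) ^ e * v ⟨.inl i, 2⟩ ^ e -
        (ax (co x (.inl i)) * v ⟨.inl i, 2⟩) ^ e * v ⟨.inr j, 2⟩ ^ e =
        (ax (co x (.inr j)) ^ e - ax (co x (.inl i)) ^ e) *
          (v ⟨.inl i, 2⟩ * v ⟨.inr j, 2⟩) ^ e := fun i => by ring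
    have s2 : ∀ i, -((ax (co x (.inl i)) * v ⟨.inl i, 2⟩) ^ e * v ⟨.inr j, 2⟩ ^ e) =
        -ax (co x (.inl i)) ^ e * (v ⟨.inl i, 2⟩ * v ⟨.inr j, 2⟩) ^ e := fun i => by ring
    simp only [s1, s2, Finset.prod_mul_distrib, e4, sub_self]

lemma hdG_inf {d e : ℕ} [NeZero d] (he : 0 < e) {c : k} (hc : c ≠ 0) {σ : Fin d ⊕ Fin d → Bool}
    {x : (Yv k q σ).pts} (fs : ∀ i, IsFin (co x (.inl i))) {j : Fin d} (hσ : σ (.inr j) = false)
    (hg : HdV (hdG d e c j) x) : IsFin (co x (.inr j)) := by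
  by_contra h
  obtain ⟨v, hv⟩ := hdc_ex x
  obtain ⟨z, nz⟩ := hdc_inf hv hσ h
  have p := fun i => (hdc_fin hv (fs i)).1
  have := hg _ hv
  by_cases hj : j = 0
  · subst hj
    simp [hdG, z, nz, hc, NeZero.ne d, Finset.prod_eq_zero_iff, p] at this
  · simp [hdG, hj, z, nz, he.ne', NeZero.ne d, Finset.prod_eq_zero_iff, p] at this

lemma hdZ_aux {d e : ℕ} [NeZero d] (he : 0 < e) {c : k} (hc : c ≠ 0) {σ : Fin d ⊕ Fin d → Bool}
    (hσ : ∀ i, σ i = false) : IsClosed {x : (Yv k q σ).pts |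
    (∃ i, co x (.inl i) = pt3 1 0 0) ∨ ((∀ j, IsFin (co x (.inr j))) ∧
    (∀ t : k, ∏ i, (t - ax (co x (.inl i)) ^ e) =
      ∏ j, (t - if j = 0 then 0 else ax (co x (.inr j)) ^ e) + ∏ i, (-ax (co x (.inl i)) ^ e)) ∧
    ∏ i, ax (co x (.inl i)) = c * ax (co x (.inr 0)) ^ d ∧
    ∑ i, ay (co x (.inl i)) = ∑ j, ay (co x (.inr j)))} := by
  have cB : IsClosed {x : (Yv k q σ).pts | ∃ i, co x (.inl i) = pt3 1 0 0} := by
    rw [ofPred_exists]; exact isClosed_iUnion_of_finite fun i => isClosed_co_const _ _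
  have a := fun i => HdReg.ax (k := k) (q := q) (τ := σ) i
  have b := fun i => HdReg.ay (k := k) (q := q) (τ := σ) i
  have a' : ∀ j : Fin d, HdReg fun x : (Yv k q σ).pts =>
      if j = 0 then 0 else ax (co x (.inr j)) ^ e := fun j => by
    split_ifs
    exacts [HdReg.const 0, (a (.inr j)).pow e]
  have c1 := isClosed_iInter fun t : k => HdReg.closed
    (HdReg.prod Finset.univ fun i => (HdReg.const t).sub ((a (.inl i)).pow e))
    ((HdReg.prod Finset.univ fun j => (HdReg.const t).sub (a' j)).add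
      (HdReg.prod Finset.univ fun i => ((a (.inl i)).pow e).neg))
  have c2 := HdReg.closed (HdReg.prod Finset.univ fun i => a (.inl i))
    ((HdReg.const c).mul ((a (.inr 0)).pow d))
  have c3 := HdReg.closed (HdReg.sum Finset.univ fun i => b (.inl i))
    (HdReg.sum Finset.univ fun i => b (.inr i))
  convert (cB.union (isClosed_iInter fun j => hdc_closed (q := q) (τ := σ) (hdG d e c j))).inter
    (c1.inter (c2.inter c3)) using 1
  ext x
  simp only [mem_ofPred_eq, mem_inter_iff, mem_union, mem_iInter]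
  by_cases hB : ∃ i, co x (.inl i) = pt3 1 0 0
  · have n : ¬ ∀ i, IsFin (co x i) := fun h => by
      obtain ⟨i, hi⟩ := hB
      exact not_isFin_inf (hi ▸ h (.inl i))
    simp only [hB, n, true_or, false_imp_iff, implies_true, and_self]
  have fs : ∀ i, IsFin (co x (.inl i)) := fun i => by
    by_contra h
    exact hB ⟨i, eq_inf_of_dh (hσ (.inl i) ▸ co_mem x (.inl i)) h⟩
  simp only [hB, false_or]
  constructor
  · rintro ⟨fm, e1, e2, e3⟩
    exact ⟨hdG_fin fs fm e1 e2, fun t _ => e1 t, fun _ => e2, fun _ => e3⟩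
  · rintro ⟨hg, e1, e2, e3⟩
    have fm := fun j => hdG_inf he hc fs (hσ _) (hg j)
    have al : ∀ i, IsFin (co x i) := by rintro (i | i); exacts [fs i, fm i]
    exact ⟨fm, fun t => e1 t al, e2 al, e3 al⟩

theorem isClosed_hdZ {d e : ℕ} [NeZero d] (he : 0 < e) {c : k} (hc : c ≠ 0) :
    IsClosed (hdZ k q d e c) := hdZ_aux he hc (by rintro (i | i) <;> rfl)

theorem isClosed_jZ : IsClosed (jZ k q) := by
  let σ : Bool ⊕ Bool → Bool := Sum.elim (fun b : Bool => b) fun _ : Bool => false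
  let g : Bool → MvPolynomial (Vars fun _ : Bool ⊕ Bool => 2) k := fun j =>
    X ⟨.inr j, 0⟩ * X ⟨.inl false, 2⟩ * X ⟨.inl true, 2⟩ -
      X ⟨.inl false, 0⟩ * X ⟨.inl true, if j then 0 else 1⟩ * X ⟨.inr j, 2⟩
  have a := fun i => HdReg.ax (k := k) (q := q) (τ := σ) i
  have b := fun i => HdReg.ay (k := k) (q := q) (τ := σ) i
  have c1 := HdReg.closed (a (.inr true)) ((a (.inl false)).mul (a (.inl true)))
  have c2 := HdReg.closed (a (.inr false)) ((a (.inl false)).mul (b (.inl true)))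
  have c3 := HdReg.closed ((b (.inr true)).add (b (.inr false))) (b (.inl false))
  have cB : IsClosed {x : (Yv k q σ).pts | (pL _ _).1 x ∈ jB k q} := by
    refine hdc_of (X ⟨.inl true, 2⟩ * (X ⟨.inl false, 2⟩ * X ⟨.inl false, 0⟩)) fun x =>
      ⟨fun H v hv => ?_, fun H => ?_⟩
    · simp only [map_mul, eval_X]
      by_cases f2 : IsFin (co x (.inl false))
      · rcases H with H | H | H
        · rw [hdc_z hv H, zero_mul]
        · exact absurd f2 H
        · rw [(hdc_fin hv f2).2.1, show ax (co x (.inl false)) = 0 from H]; ring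
      · rw [hdc_z hv f2]; ring
    · obtain ⟨v, hv⟩ := hdc_ex x
      by_contra n
      simp only [jB, mem_ofPred_eq, co_pL, not_or, not_not] at n
      have := H v hv
      simp [(hdc_fin hv n.1).1, (hdc_fin hv n.2.1).1, (hdc_fin hv n.2.1).2.1, n.2.2] at this
  convert cB.union ((isClosed_iInter fun j => hdc_closed (q := q) (τ := σ) (g j)).inter
    (c1.inter (c2.inter c3))) using 1
  ext x
  simp only [jZ, mem_ofPred_eq, mem_inter_iff, mem_union, mem_iInter]
  refine or_congr_right' fun hB => ?_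
  simp only [jB, mem_ofPred_eq, co_pL, not_or, not_not] at hB
  obtain ⟨f1, f2, -⟩ := hB
  constructor
  · rintro ⟨fm, e1, e2, e3⟩
    refine ⟨fun j v hv => ?_, fun _ => e1, fun _ => e2, fun _ => e3⟩
    cases j
    · simp only [g, map_sub, map_mul, eval_X, Bool.false_eq_true, if_false,
        (hdc_fin hv (fm false)).2.1, (hdc_fin hv f2).2.1, (hdc_fin hv f1).2.2, e2]
      ring
    · simp only [g, map_sub, map_mul, eval_X, if_true, (hdc_fin hv (fm true)).2.1,
        (hdc_fin hv f2).2.1, (hdc_fin hv f1).2.1, e1]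
      ring
  · rintro ⟨hg, e1, e2, e3⟩
    have fm : ∀ j, IsFin (co x (.inr j)) := fun j => by
      by_contra h
      obtain ⟨v, hv⟩ := hdc_ex x
      obtain ⟨z, nz⟩ := hdc_inf hv rfl h
      have := hg j _ hv
      simp [g, z, nz, (hdc_fin hv f1).1, (hdc_fin hv f2).1] at this
    have al : ∀ i, IsFin (co x i) := by rintro ((_ | _) | i); exacts [f2, f1, fm i]
    exact ⟨fm, e1 al, e2 al, e3 al⟩

end Pool.Agent.MP_0c8446_ag

end

section

namespace Pool.Agent.MP_0c8446_ag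

open Set

universe u v w

variable {k : Type u} [Field k] [IsAlgClosed k] {q : ℕ} [IsQ k q] {K : Type v} [Field K]

lemma Rel3_card_units : Nat.card (Fq k q)ˣ = q - 1 := by
  rw [Nat.card_units, Nat.card_eq_fintype_card, card_Fq]

omit [IsAlgClosed k] in
lemma Rel3_unit_pow (a : (Fq k q)ˣ) : a ^ (q - 1) = 1 := by
  ext
  simpa using Fq_unit_pow a

/-- A character of order dividing `d` kills the `e`-th roots of unity. -/
lemma Rel3_kill {d e : ℕ} (hde : d * e = q - 1) {ρ : MulChar (Fq k q) K} (hρ : ρ ^ d = 1)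
    {a : (Fq k q)ˣ} (ha : a ^ e = 1) : ρ a = 1 := by
  obtain ⟨g, hg⟩ := IsCyclic.exists_generator (α := (Fq k q)ˣ)
  have ho : orderOf g = d * e := by
    rw [orderOf_eq_card_of_forall_mem_zpowers hg, Rel3_card_units, hde]
  have he : 0 < e := Nat.pos_of_mul_pos_left (hde ▸ IsQ.pos k q)
  obtain ⟨m, rfl⟩ := (mem_powers_iff_mem_zpowers.2 (hg a))
  simp only at ha ⊢
  rw [← pow_mul, ← orderOf_dvd_iff_pow_eq_one, ho] at ha
  obtain ⟨r, rfl⟩ := Nat.dvd_of_mul_dvd_mul_right he ha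
  rw [mul_comm, pow_mul, Units.val_pow_eq_pow_val, map_pow, ← MulChar.pow_apply_coe, hρ,
    MulChar.one_apply_coe]

omit [IsAlgClosed k] in
/-- A character that kills the `e`-th roots of unity has order dividing `d`. -/
lemma Rel3_pow_eq_one {d e : ℕ} (hde : d * e = q - 1) {χ : MulChar (Fq k q) K}
    (h : ∀ a : (Fq k q)ˣ, a ^ e = 1 → χ a = 1) : χ ^ d = 1 := by
  refine MulChar.ext fun a => ?_
  rw [MulChar.pow_apply_coe, MulChar.one_apply_coe, ← map_pow, ← Units.val_pow_eq_pow_val]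
  exact h _ (by rw [← pow_mul, hde, Rel3_unit_pow])

omit [IsAlgClosed k] in
/-- The characters of order dividing `d` are the powers of a character of order `d`. -/
lemma Rel3_eq_pow {d : ℕ} [NeZero d] {ρ χ : MulChar (Fq k q) K} (hρ : orderOf ρ = d)
    (hχ : χ ^ d = 1) : ∃ n < d, ρ ^ n = χ := by
  obtain ⟨g, hg⟩ := IsCyclic.exists_generator (α := (Fq k q)ˣ)
  have key : ∀ (η : MulChar (Fq k q) K) (n : ℕ), η ^ n = 1 ↔ η g ^ n = 1 := fun η n => by
    rw [MulChar.eq_iff hg, MulChar.pow_apply_coe, MulChar.one_apply_coe]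
  have hp : IsPrimitiveRoot (ρ g) d :=
    ⟨(key ρ d).1 (hρ ▸ pow_orderOf_eq_one ρ), fun l hl => hρ ▸ orderOf_dvd_of_pow_eq_one
      ((key ρ l).2 hl)⟩
  obtain ⟨n, hn, h⟩ := hp.eq_pow_of_pow_eq_one ((key χ d).1 hχ)
  exact ⟨n, hn, (MulChar.eq_iff hg _ _).2 (by rw [MulChar.pow_apply_coe, h])⟩

omit [IsAlgClosed k] in
lemma Rel3_prod_apply {ι : Type} (s : Finset ι) (χ : ι → MulChar (Fq k q) K) (a : (Fq k q)ˣ) :
    (∏ i ∈ s, χ i) a = ∏ i ∈ s, χ i a := by
  classical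
  induction s using Finset.induction_on with
  | empty => simp
  | insert i s hi ih => rw [Finset.prod_insert hi, Finset.prod_insert hi, MulChar.mul_apply, ih]

omit [IsAlgClosed k] in
lemma Rel3_add_sum {ι : Type} (s : Finset ι) (ψ : AddChar (Fq k q) K) (γ : ι → Fq k q) :
    ∏ i ∈ s, ψ (γ i) = ψ (∑ i ∈ s, γ i) := by
  classical
  induction s using Finset.induction_on with
  | empty => simp
  | insert i s hi ih => rw [Finset.prod_insert hi, Finset.sum_insert hi, AddChar.map_add_eq_mul, ih]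

lemma Rel3_univ_val (d : ℕ) :
    (Finset.univ : Finset (Fin d)).val.map Fin.val = Multiset.range d := by
  rw [← Finset.range_val, ← Nat.Iio_eq_range, ← Fin.map_valEmbedding_univ]
  rfl

omit [IsAlgClosed k] in
/-- The labels on the second factor are determined by the symmetries of the correspondence. -/
lemma Rel3_alg {d e : ℕ} [NeZero d] (hde : d * e = q - 1) {ρ ω : MulChar (Fq k q) K}
    (hρ : orderOf ρ = d) {ψ : AddChar (Fq k q) K} (hψ : ψ ≠ 1) (β : Fin d → Lb k q K)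
    (hok : ∀ j, (β j).Ok false)
    (hinv : ∀ (α α' : Fin d → (Fq k q)ˣ) (γ γ' : Fin d → Fq k q) (ε : (Fq k q)ˣ),
      (∀ i, α i ^ e = ε) → (∀ j, j ≠ 0 → α' j ^ e = ε) → ∏ i, α i = α' 0 ^ d →
      ∑ i, γ i = ∑ j, γ' j →
      (∏ i : Fin d, (ω * ρ ^ (i : ℕ)) (α i) * ψ (γ i)) *
        ∏ j, ((β j).chr false (gD (α' j) (γ' j)) : K) = 1)
    (hne : ∀ i j, i ≠ 0 → j ≠ 0 → i ≠ j → (β i).deg = 1 → β i ≠ β j) :
    (Finset.univ.val.map fun j => (false, (β j).du)) =
      {Dl (ω ^ d) ψ} + ((Multiset.range d).erase 0).map fun j => Dl (ρ ^ j) ψ := by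
  classical
  have h1 : ∀ j t, ψ t * ((β j).chr false (gD 1 t) : K) = 1 := by
    intro j t
    have h := hinv 1 1 (Pi.single 0 t) (Pi.single j t) 1 (by simp) (by simp) (by simp) (by simp)
    rw [Finset.prod_eq_single j (f := fun l => (((β l).chr false (gD ((1 : Fin d → (Fq k q)ˣ) l)
      (Pi.single (M := fun _ => Fq k q) j t l)) : Kˣ) : K))] at h
    · simpa [Rel3_add_sum] using h
    · intro l _ hl
      simp [Pi.single_eq_of_ne hl, gD_one]
    · simp
  have h2 : ∀ j, ∃ χ : MulChar (Fq k q) K, χ ≠ 1 ∧ β j = .ch χ 1 ψ⁻¹ := by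
    intro j
    obtain ⟨t, ht⟩ : ∃ t, ψ t ≠ 1 := by
      by_contra h
      push Not at h
      exact hψ (AddChar.ext _ _ fun t => by simpa using h t)
    have h3 := h1 j
    have h4 := hok j
    rcases hb : β j with _ | _ | ⟨ω₁, ω₂, ψ'⟩
    · rw [hb] at h3
      exact absurd (by simpa [Lb.chr] using h3 t) ht
    · rw [hb] at h3
      exact absurd (by simpa [Lb.chr] using h3 t) ht
    · rw [hb] at h3 h4
      obtain ⟨h5, rfl, -⟩ := h4
      refine ⟨ω₁, h5, ?_⟩
      have : ψ' = ψ⁻¹ := by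
        refine AddChar.ext _ _ fun s => ?_
        have h6 := h3 s
        simp only [Lb.chr, ch_gD, Units.val_one, map_one, one_mul] at h6
        rw [AddChar.inv_apply, AddChar.map_neg_eq_inv]
        exact eq_inv_of_mul_eq_one_right h6
      rw [this]
  choose χ hχ1 hχ using h2
  have h3 : ∀ (α α' : Fin d → (Fq k q)ˣ) (ε : (Fq k q)ˣ),
      (∀ i, α i ^ e = ε) → (∀ j, j ≠ 0 → α' j ^ e = ε) → ∏ i, α i = α' 0 ^ d →
      (∏ i : Fin d, (ω * ρ ^ (i : ℕ)) (α i)) * ∏ j, χ j (α' j) = 1 := by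
    intro α α' ε a1 a2 a3
    have h := hinv α α' 0 0 ε a1 a2 a3 rfl
    simpa [hχ, Lb.chr] using h
  have h4 : ∀ j, j ≠ 0 → ∃ n < d, ρ ^ n = (χ j)⁻¹ := by
    intro j hj
    refine Rel3_eq_pow hρ ?_
    rw [inv_pow, inv_eq_one]
    refine Rel3_pow_eq_one hde fun a ha => ?_
    have h := h3 1 (Pi.mulSingle j a) 1 (by simp) (fun l _ => by
      by_cases hl : l = j
      · subst hl; simpa using ha
      · simp [Pi.mulSingle_eq_of_ne hl]) (by simp [Pi.mulSingle_eq_of_ne hj.symm])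
    rw [Finset.prod_eq_single j (f := fun l => χ l
      ((Pi.mulSingle (M := fun _ => (Fq k q)ˣ) j a l : (Fq k q)ˣ) : Fq k q))] at h
    · simpa using h
    · intro l _ hl
      simp [Pi.mulSingle_eq_of_ne hl]
    · simp
  choose! n hn hn' using h4
  let m : Fin d → Fin d := fun j => if hj : j = 0 then 0 else ⟨n j, hn j hj⟩
  have hm0 : m 0 = 0 := by simp [m]
  have hm : ∀ j, j ≠ 0 → ρ ^ (m j : ℕ) = (χ j)⁻¹ := fun j hj => by simp [m, hj, hn' j hj]
  have hm1 : ∀ j, j ≠ 0 → m j ≠ 0 := fun j hj h => by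
    have h5 := hm j hj
    rw [h] at h5
    exact hχ1 j (by simpa using h5.symm)
  have hinj : Function.Injective m := by
    intro i j hij
    by_cases hi : i = 0
    · by_contra hc
      exact hm1 j (fun h => hc (hi.trans h.symm)) (by rw [← hij, hi, hm0])
    · by_cases hj : j = 0
      · exact absurd (by rw [hij, hj, hm0]) (hm1 i hi)
      · by_contra hc
        refine hne i j hi hj hc (by rw [hχ i]; rfl) ?_
        rw [hχ i, hχ j, inv_injective ((hm i hi).symm.trans (hij ▸ hm j hj))]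
  have hbij : Function.Bijective m := Finite.injective_iff_bijective.1 hinj
  have h5 : (χ 0)⁻¹ = ω ^ d := by
    have h6 : (∏ i : Fin d, (ω * ρ ^ (i : ℕ))) * ∏ j, χ j = 1 := by
      refine MulChar.ext fun a => ?_
      rw [MulChar.mul_apply, Rel3_prod_apply, Rel3_prod_apply, MulChar.one_apply_coe]
      exact h3 (fun _ => a) (fun _ => a) (a ^ e) (fun _ => rfl) (fun _ _ => rfl) (by simp)
    have h7 : ∏ j, ρ ^ (m j : ℕ) * χ j = χ 0 := by
      rw [Finset.prod_eq_single 0]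
      · rw [hm0]; simp
      · intro j _ hj
        rw [hm j hj, inv_mul_cancel]
      · simp
    rw [Finset.prod_mul_distrib, ← hbij.prod_comp (fun i : Fin d => ρ ^ (i : ℕ)), mul_assoc,
      ← Finset.prod_mul_distrib, h7] at h6
    simp only [Finset.prod_const, Finset.card_univ, Fintype.card_fin] at h6
    exact (eq_inv_of_mul_eq_one_left h6).symm
  let F : ℕ → Bool × Lb k q K := fun i => if i = 0 then Dl (ω ^ d) ψ else Dl (ρ ^ i) ψ
  have h7 : (fun j => (false, (β j).du)) = F ∘ Fin.val ∘ m := by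
    funext j
    by_cases hj : j = 0
    · subst hj
      simp [F, hm0, hχ, Lb.du, Dl, h5]
    · have h8 : (m j : ℕ) ≠ 0 := fun h => hm1 j hj (Fin.ext (by simpa using h))
      simp [F, h8, hχ, Lb.du, Dl, hm j hj]
  have h9 : (Finset.univ : Finset (Fin d)).val.map m = Finset.univ.val :=
    Multiset.map_univ_val_equiv (Equiv.ofBijective m hbij)
  rw [h7, ← Multiset.map_map, ← Multiset.map_map, h9, Rel3_univ_val]
  have h0 : 0 ∈ Multiset.range d := Multiset.mem_range.2 (Nat.pos_of_neZero d)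
  conv_lhs => rw [← Multiset.cons_erase h0]
  rw [Multiset.map_cons, Multiset.singleton_add]
  congr 1
  refine Multiset.map_congr rfl fun j hj => ?_
  have : j ≠ 0 := ((Multiset.nodup_range d).mem_erase_iff.1 hj).1
  simp [F, this]

end Pool.Agent.MP_0c8446_ag

end
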