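import Pool.Agent.Mg.F0c8446.G37419f
import Pool.Agent.Mg.F0c8446.G24c86c

namespace Pool.Agent.MP_0c8446_ag

open MvPolynomial Set

universe u v w

variable {k : Type u} [Field k] [IsAlgClosed k] {K : Type v} [Field K] [CharZero K]
  (W : Weil.{u, v, w} k K) {Γ : Type u} [Group Γ]

omit [IsAlgClosed k] [CharZero K] in
theorem Weil.ph_pull {X Y : Var k} (f : Mor X Y) {C : Set X.pts} (hC : IsSub C) :
    ∃ r : ℕ, (dim (closure (f.1 '' C)) = dim C → 0 < r) ∧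
      ∀ β, W.ph (W.pull f β) C = r * W.ph β (closure (f.1 '' C)) := W.push f C hC

omit [CharZero K] in
theorem Weil.ph_of_dim_ne {X : Var k} {m : ℕ} {β : W.H X} (hβ : β ∈ W.gr X (2 * m))
    {C : Set X.pts} (hC : IsSub C) (h : dim C ≠ m) : W.ph β C = 0 :=
  W.tr_cl_mul_gr hC hβ (by omega)

/-- The coordinate vector of a coordinate point of the projective line. -/
def RelW_e (k : Type u) [Field k] (j : Fin 2) : Vars (fun _ : Unit => 1) → k :=
  fun a => if a.2 = j then 0 else 1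

lemma RelW_exists_pt (j j' : Fin 2) (h : j ≠ j') :
    ∃ pt : (PN k 1).pts, IsRep (RelW_e k j) pt.1 := by
  have h0 : ∀ i : Unit, (fun s => RelW_e k j ⟨i, s⟩) ≠ 0 := fun i e => by
    have := congrFun e j'
    simp [RelW_e, h.symm] at this
  exact ⟨⟨ambPt (RelW_e k j) h0, trivial⟩, amb_isRep _ h0⟩

lemma RelW_mem {X : Var k} {j j' : Fin 2} (h : j ≠ j') {pt : (PN k 1).pts}
    (hpt : IsRep (RelW_e k j) pt.1) (y : (pvVar X (PN k 1)).pts) :
    Vanish (MvPolynomial.X ⟨Sum.inr (), j⟩) y.1 ↔ (pvS X (PN k 1)).1 y = pt := by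
  constructor
  · intro hy
    have h1 := isRep_rep y.1
    have h2 := (eval_X _).symm.trans (hy _ h1)
    have h3 := pv_rep_snd h1
    set w : Vars (fun _ : Unit => 1) → k := fun s => y.1.rep (pvR X.n s) with hw
    have h4 : w ⟨(), j⟩ = 0 := h2
    have h5 : ∀ s : Fin 2, s = j ∨ s = j' := by
      intro s
      fin_cases s <;> fin_cases j <;> fin_cases j' <;> simp at h ⊢
    have h6 : w ⟨(), j'⟩ ≠ 0 := fun h6 => (h3 ()).1 (funext fun s => by
      rcases h5 s with rfl | rfl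
      · exact h4
      · exact h6)
    have h7 := hpt.smul (fun _ => w ⟨(), j'⟩) fun _ => h6
    have e : (fun a : Vars (fun _ : Unit => 1) => w ⟨(), j'⟩ * RelW_e k j a) = w := by
      funext ⟨_, s⟩
      rcases h5 s with rfl | rfl
      · simp [RelW_e, h4]
      · simp [RelW_e, h.symm]
    rw [e] at h7
    exact Subtype.ext (IsRep.unique h3 h7)
  · intro hy w hw
    have h3 := pv_rep_snd hw
    have h4 : pvSnd y.1 = pt.1 := congrArg Subtype.val hy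
    rw [h4] at h3
    obtain ⟨t, -, ht⟩ := hpt.exists_smul h3
    refine (eval_X _).trans ((congrFun ht ⟨(), j⟩).trans ?_)
    simp [RelW_e]

lemma RelW_loc_iff {X : Var k} {Ω : Type u} [Field Ω] [Algebra k Ω] {v : Vars X.n → Ω}
    (hv : X.On v) {z : Fin 2 → Ω} (hz : ∃ s, z s ≠ 0) {j j' : Fin 2} (h : j ≠ j')
    {pt : (PN k 1).pts} (hpt : IsRep (RelW_e k j) pt.1) :
    (∀ y ∈ (pvVar X (PN k 1)).loc (jn (N := 1) v z), (pvS X (PN k 1)).1 y = pt) ↔ z j = 0 := by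
  have h1 := (on_jn (N := 1) hv hz).vanish_iff
    (isForm_X (k := k) (n := (pvVar X (PN k 1)).n) ⟨Sum.inr (), j⟩)
  have h2 : aeval (R := k) (jn (N := 1) v z) (MvPolynomial.X ⟨Sum.inr (), j⟩) = z j := aeval_X _ _
  refine Iff.trans ?_ (h1.trans (Iff.of_eq (congrArg (· = 0) h2)))
  exact forall_congr' fun y => imp_congr_right fun _ => (RelW_mem h hpt y).symm

/-- The section through a point of the projective line. -/
noncomputable def RelW_sec (X : Var k) (pt : (PN k 1).pts) : Mor X (pvVar X (PN k 1)) :=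
  ⟨fun x => pvM x pt, pv_isMor_M isMor_id (isMor_const pt)⟩

lemma RelW_image {X : Var k} {pt : (PN k 1).pts} {C : Set (pvVar X (PN k 1)).pts}
    (h : ∀ y ∈ C, (pvS X (PN k 1)).1 y = pt) :
    (pvF X (PN k 1)).1 '' C = (RelW_sec X pt).1 ⁻¹' C ∧
      (RelW_sec X pt).1 '' ((RelW_sec X pt).1 ⁻¹' C) = C := by
  have key : ∀ y ∈ C, (RelW_sec X pt).1 ((pvF X (PN k 1)).1 y) = y := fun y hy =>
    pv_ext' rfl (h y hy).symm
  refine ⟨Subset.antisymm ?_ fun x hx => ⟨_, hx, rfl⟩,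
    image_preimage_eq_of_subset fun y hy => ⟨_, key y hy⟩⟩
  rintro _ ⟨y, hy, rfl⟩
  exact mem_preimage.2 ((key y hy).symm ▸ hy)

omit [IsAlgClosed k] in
lemma RelW_aeval {ι : Type} {n : ι → ℕ} {Ω : Type u} [Field Ω] [Algebra k Ω] (v : Vars n → Ω)
    (Φ : Fin 2 → MvPolynomial (Vars n) k)
    (H : MvPolynomial (Vars (Sum.elim n fun _ : Unit => 1)) k) :
    aeval (jn v fun j => aeval v (Φ j)) H =
      aeval v (aeval (jn (MvPolynomial.X : Vars n → MvPolynomial (Vars n) k) Φ) H) := by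
  rw [← AlgHom.comp_apply, comp_aeval]
  congr 2
  funext ⟨i, s⟩
  rcases i with i | i
  · simp [jn, pvJoin]
  · simp [jn, pvJoin]

omit [IsAlgClosed k] in
lemma RelW_le {ι : Type} {n : ι → ℕ} {Ω Ω' : Type u} [Field Ω] [Algebra k Ω] [Field Ω']
    [Algebra k Ω'] {v : Vars n → Ω} {u : Vars n → Ω'} (h : pI k v ≤ pI k u) {d : ι →₀ ℕ}
    {Φ : Fin 2 → MvPolynomial (Vars n) k} (hΦ : ∀ j, IsForm d (Φ j)) :
    pI k (jn v fun j => aeval v (Φ j)) ≤ pI k (jn u fun j => aeval u (Φ j)) := by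
  refine pI_le_iff.2 fun c H hH h0 => ?_
  rw [RelW_aeval] at h0 ⊢
  refine pI_le_iff.1 h _ _ (hH.comp (d := Sum.elim (fun i => Finsupp.single i 1) fun _ => d) ?_) h0
  rintro (i | i) s
  · exact isForm_X ⟨i, s⟩
  · exact hΦ s

lemma RelW_dim {X : Var k} {Ω : Type u} [Field Ω] [Algebra k Ω] {v : Vars X.n → Ω}
    (hv : X.On v) {d : X.ι →₀ ℕ} {Φ : Fin 2 → MvPolynomial (Vars X.n) k}
    (hΦ : ∀ j, IsForm d (Φ j)) (h' : ∃ j, aeval v (Φ j) ≠ 0) :
    dim ((pvVar X (PN k 1)).loc (jn v fun j => aeval v (Φ j))) = dim (X.loc v) := by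
  rw [(on_jn hv h').dim_loc, hv.dim_loc]
  have e := rat_jn (N := 1) v fun j => aeval v (Φ j)
  refine le_antisymm (rk_le_of_acl (finite_rat _ _) ?_) (rk_mono (finite_rat _ _) ?_)
  · refine e.le.trans (union_subset (subset_acl _) ?_)
    rintro _ ⟨s, s', rfl⟩
    exact form_div_mem_acl (hΦ s) (hΦ s') (fun i hi => (hi trivial).elim) hv.1
  · exact subset_union_left.trans e.ge

omit [IsAlgClosed k] in
lemma RelW_form {ι : Type} {n : ι → ℕ} {d : ι →₀ ℕ} {Φ : Fin 2 → MvPolynomial (Vars n) k}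
    (hΦ : ∀ j, IsForm d (Φ j)) (j j' : Fin 2) :
    ∃ (e : (ι ⊕ Unit) →₀ ℕ) (R : MvPolynomial (Vars (Sum.elim n fun _ : Unit => 1)) k),
      IsForm e R ∧ ∀ (A : Type u) [CommRing A] [Algebra k A] (u : Vars n → A) (z : Fin 2 → A),
        aeval (jn (N := 1) u z) R = z j * aeval u (Φ j') - z j' * aeval u (Φ j) := by
  refine ⟨_, _, ((isForm_X (n := Sum.elim n fun _ : Unit => 1) ⟨Sum.inr (), j⟩).mul
      ((hΦ j').rename_L fun _ : Unit => 1)).sub
      ((isForm_X (n := Sum.elim n fun _ : Unit => 1) ⟨Sum.inr (), j'⟩).mul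
        ((hΦ j).rename_L fun _ : Unit => 1)), fun A _ _ u z => ?_⟩
  rw [map_sub, map_mul, map_mul, aeval_X, aeval_X, aeval_rename, aeval_rename]
  rfl

lemma RelW_vanish {X : Var k} {Ω : Type u} [Field Ω] [Algebra k Ω] {v : Vars X.n → Ω}
    (hv : X.On v) {d : X.ι →₀ ℕ} {Φ : Fin 2 → MvPolynomial (Vars X.n) k}
    (hΦ : ∀ j, IsForm d (Φ j)) (h' : ∃ j, aeval v (Φ j) ≠ 0) {j j' : Fin 2} (h : j ≠ j')
    {pt : (PN k 1).pts} (hpt : IsRep (RelW_e k j) pt.1) {x : X.pts}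
    (hx : (RelW_sec X pt).1 x ∈ (pvVar X (PN k 1)).loc (jn v fun j => aeval v (Φ j))) :
    Vanish (Φ j) x.1 := by
  intro u hu
  obtain ⟨e, R, hR, hR'⟩ := RelW_form hΦ j j'
  have h0 : aeval (jn (N := 1) v fun j => aeval v (Φ j)) R = 0 := by
    rw [hR', mul_comm, sub_self]
  have h1 : eval (jn (N := 1) u fun s => RelW_e k j ⟨(), s⟩) R = 0 :=
    ((on_jn hv h').vanish_iff hR).2 h0 _ hx _ fun i => match i with
      | Sum.inl i => hu i
      | Sum.inr i => hpt i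
  have h2 := (hR' k u fun s => RelW_e k j ⟨(), s⟩).symm.trans h1
  simpa [RelW_e, h.symm] using h2

lemma RelW_closure {X : Var k} {Ω : Type u} [Field Ω] [Algebra k Ω] {v : Vars X.n → Ω}
    (hv : X.On v) {z : Fin 2 → Ω} (hz : ∃ s, z s ≠ 0) :
    closure ((pvF X (PN k 1)).1 '' (pvVar X (PN k 1)).loc (jn (N := 1) v z)) = X.loc v :=
  (loc_pvF (Y := PN k 1) (on_jn (N := 1) hv hz)).trans (congrArg X.loc (funext fun _ => rfl))

lemma Weil.RelW_side {X : Var k} {Ω : Type u} [Field Ω] [Algebra k Ω] {v : Vars X.n → Ω}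
    (hv : X.On v) {d : X.ι →₀ ℕ} {Φ : Fin 2 → MvPolynomial (Vars X.n) k}
    (hΦ : ∀ j, IsForm d (Φ j)) {j j' : Fin 2} (h : j ≠ j') (h' : aeval v (Φ j) ≠ 0) {m : ℕ}
    (hm : dim (X.loc v) = m + 1) {pt : (PN k 1).pts} (hpt : IsRep (RelW_e k j) pt.1) :
    ∃ (s : Finset (Set X.pts)) (μ : Set X.pts → ℕ),
      (∀ C ∈ s, IsSub C ∧ C ⊆ X.loc v ∧ dim C = m ∧ ∀ x ∈ C, Vanish (Φ j) x.1) ∧
      (∀ C, IsSub C → C ⊆ X.loc v → dim C = m → (∀ x ∈ C, Vanish (Φ j) x.1) →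
        (¬ ∀ x ∈ C, Vanish (Φ j') x.1) → C ∈ s ∧ 0 < μ C) ∧
      ∀ b, W.tr X ((∑ C ∈ s, μ C • W.cl X C) * b) =
        W.tr _ (W.cl _ ((pvVar X (PN k 1)).loc (jn v fun j => aeval v (Φ j))) *
          W.pull (pvS X (PN k 1)) (W.cl _ {pt}) * W.pull (pvF X (PN k 1)) b) := by
  classical
  have hP := isProd_pv X (PN k 1)
  have hv' := on_jn (N := 1) (z := fun j => aeval v (Φ j)) hv ⟨j, h'⟩
  have hd := (RelW_dim hv hΦ ⟨j, h'⟩).trans hm
  set V := (pvVar X (PN k 1)).loc (jn v fun j => aeval v (Φ j)) with hV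
  set H := (pvF X (PN k 1)).1 ⁻¹' univ ∩ (pvS X (PN k 1)).1 ⁻¹' {pt} with hH
  have hVs : IsSub V := hv'.isSub
  have hHs : IsSub H := hP.isSub X.isSub_univ (isSub_singleton pt)
  have hcl : W.cl _ H = W.pull (pvS X (PN k 1)) (W.cl _ {pt}) := by
    rw [hH, W.cl_prod _ _ hP _ _ X.isSub_univ (isSub_singleton pt), W.cl_univ, map_one, one_mul]
  have hdH : dim H + 1 = (pvVar X (PN k 1)).d := by
    rw [hH, W.dim_isProd hP X.isSub_univ (isSub_singleton pt), W.d_prod hP, dim_singleton]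
    have e : (PN k 1).d = 1 := (d_amb fun _ : Unit => 1).trans (by simp)
    rw [e]
    rfl
  have hne : ¬ V ⊆ H := fun hs => h' ((RelW_loc_iff (z := fun j => aeval v (Φ j)) hv ⟨j, h'⟩ h hpt).1
    fun y hy => mem_singleton_iff.1 (mem_preimage.1 (hs hy).2))
  have hpr : ∀ C, IsSub C → C ⊆ V ∩ H → dim C + (pvVar X (PN k 1)).d ≤ dim V + dim H :=
    fun C hC hs => (geoGen_hyp hdH hVs hne C hC hs).2
  obtain ⟨s, μ, h1, h2, -, h3⟩ := W.proper _ V H hVs hHs hpr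
  have hdim : ∀ C, IsComp C (V ∩ H) → dim C = m := fun C hC => by
    have : dim C + (pvVar X (PN k 1)).d = dim V + dim H := W.proper_dim' hVs hHs hpr hC
    omega
  have hr := (RelW_sec X pt).retr (pvF X (PN k 1)) fun _ => rfl
  have him : ∀ C ∈ s, (pvF X (PN k 1)).1 '' C = (RelW_sec X pt).1 ⁻¹' C ∧
      (RelW_sec X pt).1 '' ((RelW_sec X pt).1 ⁻¹' C) = C := fun C hC =>
    RelW_image fun y hy => mem_singleton_iff.1 (mem_preimage.1 (((h1 C).1 hC).1.2 hy).2.2)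
  have hsub : ∀ C ∈ s, IsSub ((RelW_sec X pt).1 ⁻¹' C) := fun C hC =>
    ⟨(him C hC).1 ▸ ((h1 C).1 hC).1.1.1.image _ (pvF X (PN k 1)).continuous.continuousOn,
      ((h1 C).1 hC).1.1.2.preimage (RelW_sec X pt).continuous⟩
  refine ⟨s.image fun C => (RelW_sec X pt).1 ⁻¹' C, fun D => μ ((RelW_sec X pt).1 '' D),
    fun D hD => ?_, fun C hC hCv hCd hC0 hC1 => ?_, fun b => ?_⟩
  · obtain ⟨C, hC, rfl⟩ := Finset.mem_image.1 hD
    have hC' := (h1 C).1 hC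
    refine ⟨hsub C hC, fun x hx => ?_, ?_, fun x hx =>
      RelW_vanish hv hΦ ⟨j, h'⟩ h hpt (hC'.1.2 hx).1⟩
    · have e : closure ((pvF X (PN k 1)).1 '' V) = X.loc v := RelW_closure hv ⟨j, h'⟩
      exact e ▸ subset_closure ⟨_, (hC'.1.2 hx).1, rfl⟩
    · rw [← hr.dim_image, (him C hC).2, hdim C hC']
  · obtain ⟨Ω', _, _, _, u, hu, rfl⟩ := X.exists_generic hC
    have e0 := (hu.vanish_iff (hΦ j)).1 hC0
    have e1 : aeval u (Φ j') ≠ 0 := fun e => hC1 ((hu.vanish_iff (hΦ j')).2 e)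
    have hu' := on_jn (N := 1) (z := fun j => aeval u (Φ j)) hu ⟨j', e1⟩
    have hle : (pvVar X (PN k 1)).loc (jn u fun j => aeval u (Φ j)) ⊆ V :=
      Var.loc_subset (RelW_le (hu.pI_le hCv) hΦ)
    have hH' : ∀ y ∈ (pvVar X (PN k 1)).loc (jn u fun j => aeval u (Φ j)),
        (pvS X (PN k 1)).1 y = pt :=
      (RelW_loc_iff (z := fun j => aeval u (Φ j)) hu ⟨j', e1⟩ h hpt).2 e0
    have e2 := RelW_closure (z := fun j => aeval u (Φ j)) hu ⟨j', e1⟩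
    rw [(RelW_image hH').1, (hu'.isSub.2.preimage (RelW_sec X pt).continuous).closure_eq] at e2
    have hs : (RelW_sec X pt).1 '' X.loc u ⊆ V ∩ H := by
      rintro _ ⟨x, hx, rfl⟩
      rw [← e2] at hx
      exact ⟨hle hx, trivial, rfl⟩
    obtain ⟨C', hC', hle'⟩ := exists_isComp (hr.isSub hC) hs
    have e3 := eq_of_dim_le (hr.isSub hC) hC'.1.1 hle' (by rw [hr.dim_image, hdim C' hC', hCd])
    refine ⟨Finset.mem_image.2 ⟨C', (h1 C').2 hC', ?_⟩, ?_⟩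
    · rw [← e3, preimage_image_eq _ hr.inv.injective]
    · change 0 < μ ((RelW_sec X pt).1 '' X.loc u)
      rw [e3]
      exact h2 C' ((h1 C').2 hC')
  · rw [Finset.sum_image fun C hC C' hC' e => by
      rw [← (him C hC).2, ← (him C' hC').2]
      exact congrArg _ e]
    rw [← hcl, h3, Finset.sum_mul, Finset.sum_mul, map_sum, map_sum]
    refine Finset.sum_congr rfl fun C hC => ?_
    rw [smul_mul_assoc, smul_mul_assoc, map_nsmul, map_nsmul]
    refine congrArg₂ (· • ·) (congrArg μ (him C hC).2) ?_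
    have := W.push_retr (RelW_sec X pt) (pvF X (PN k 1)) (fun _ => rfl) (hsub C hC)
      (W.pull (pvF X (PN k 1)) b)
    rwa [(him C hC).2, W.pull_pull, W.pull_id _ rfl] at this

/-- The zero divisors of two forms of the same degree on a subvariety are homologous. -/
theorem Weil.rel_sum {X : Var k} {Ω : Type u} [Field Ω] [Algebra k Ω] {v : Vars X.n → Ω}
    (hv : X.On v) {d : X.ι →₀ ℕ} {F G : MvPolynomial (Vars X.n) k} (hF : IsForm d F)
    (hG : IsForm d G) (hF' : aeval v F ≠ 0) (hG' : aeval v G ≠ 0) {m : ℕ}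
    (hm : dim (X.loc v) = m + 1) :
    ∃ (s s' : Finset (Set X.pts)) (μ μ' : Set X.pts → ℕ),
      (∀ C ∈ s, IsSub C ∧ C ⊆ X.loc v ∧ dim C = m ∧ ∀ x ∈ C, Vanish F x.1) ∧
      (∀ C ∈ s', IsSub C ∧ C ⊆ X.loc v ∧ dim C = m ∧ ∀ x ∈ C, Vanish G x.1) ∧
      (∀ C, IsSub C → C ⊆ X.loc v → dim C = m → (∀ x ∈ C, Vanish F x.1) →
        (¬ ∀ x ∈ C, Vanish G x.1) → C ∈ s ∧ 0 < μ C) ∧
      (∀ C, IsSub C → C ⊆ X.loc v → dim C = m → (∀ x ∈ C, Vanish G x.1) →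
        (¬ ∀ x ∈ C, Vanish F x.1) → C ∈ s' ∧ 0 < μ' C) ∧
      ∑ C ∈ s, μ C • W.cl X C = ∑ C ∈ s', μ' C • W.cl X C := by
  have hΦ : ∀ j : Fin 2, IsForm d (![F, G] j) := fun j => by
    fin_cases j
    · exact hF
    · exact hG
  have h01 : (0 : Fin 2) ≠ 1 := by decide
  obtain ⟨p0, hp0⟩ := RelW_exists_pt (k := k) 0 1 h01
  obtain ⟨p1, hp1⟩ := RelW_exists_pt (k := k) 1 0 h01.symm
  obtain ⟨s, μ, a1, a2, a3⟩ := W.RelW_side hv hΦ h01 hF' hm hp0
  obtain ⟨s', μ', b1, b2, b3⟩ := W.RelW_side hv hΦ h01.symm hG' hm hp1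
  refine ⟨s, s', μ, μ', a1, b1, a2, b2, sub_eq_zero.1 (W.poincare X _ fun b => ?_)⟩
  have e : W.cl (PN k 1) {p0} = W.cl (PN k 1) {p1} := by
    rw [W.eq_smul_pt (W.cl_pt_gr p0) p1, W.tr_pt, one_smul]
  rw [sub_mul, map_sub, a3, b3, e, sub_self]

theorem Weil.rel {X : Var k} {Ω : Type u} [Field Ω] [Algebra k Ω] {v : Vars X.n → Ω}
    (hv : X.On v) {d : X.ι →₀ ℕ} {F G : MvPolynomial (Vars X.n) k} (hF : IsForm d F)
    (hG : IsForm d G) (hF' : aeval v F ≠ 0) (hG' : aeval v G ≠ 0) {m : ℕ}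
    (hm : dim (X.loc v) = m + 1) (β : W.H X) (c : K)
    (h1 : ∀ C, IsSub C → C ⊆ X.loc v → dim C = m → (∀ x ∈ C, Vanish G x.1) → W.ph β C = 0)
    (h2 : ∀ C, IsSub C → C ⊆ X.loc v → dim C = m → (∀ x ∈ C, Vanish F x.1) →
      W.ph β C = 0 ∨ W.ph β C = c)
    {C₀ : Set X.pts} (h3 : IsSub C₀) (h4 : C₀ ⊆ X.loc v) (h5 : dim C₀ = m)
    (h6 : ∀ x ∈ C₀, Vanish F x.1) (h7 : W.ph β C₀ = c) : c = 0 := by
  classical
  by_cases h8 : ∀ x ∈ C₀, Vanish G x.1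
  · exact h7.symm.trans (h1 C₀ h3 h4 h5 h8)
  obtain ⟨s, s', μ, μ', a1, b1, a2, -, e⟩ := W.rel_sum hv hF hG hF' hG' hm
  obtain ⟨a3, a4⟩ := a2 C₀ h3 h4 h5 h6 h8
  have e1 := congrArg (fun a => W.tr X (a * β)) e
  simp only [Finset.sum_mul, map_sum, smul_mul_assoc, map_nsmul] at e1
  have e2 : ∑ C ∈ s', μ' C • W.tr X (W.cl X C * β) = 0 := Finset.sum_eq_zero fun C hC => by
    obtain ⟨c1, c2, c3, c4⟩ := b1 C hC
    have : W.tr X (W.cl X C * β) = 0 := h1 C c1 c2 c3 c4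
    rw [this, smul_zero]
  have e3 : ∑ C ∈ s, μ C • W.tr X (W.cl X C * β) =
      (∑ C ∈ s, if W.ph β C = c then μ C else 0) • c := by
    rw [Finset.sum_smul]
    refine Finset.sum_congr rfl fun C hC => ?_
    obtain ⟨c1, c2, c3, c4⟩ := a1 C hC
    change μ C • W.ph β C = _
    split_ifs with h9
    · rw [h9]
    · rw [(h2 C c1 c2 c3 c4).resolve_right h9, smul_zero, zero_smul]
  rw [e2, e3, nsmul_eq_mul] at e1
  refine (mul_eq_zero.1 e1).resolve_left (Nat.cast_ne_zero.2 (ne_of_gt ?_))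
  refine lt_of_lt_of_le ?_ (Finset.single_le_sum
    (f := fun C => if W.ph β C = c then μ C else 0) (fun _ _ => Nat.zero_le _) a3)
  simpa [h7] using a4

end Pool.Agent.MP_0c8446_ag
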