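import Pool.Agent.Mg.F0c8446.G70cc9e
import Pool.Agent.Mg.F0c8446.G012dda

section

namespace Pool.Agent.MP_0c8446_ag

open Set Polynomial
open scoped TensorProduct

universe u v w x

variable {k : Type u} [Field k] [IsAlgClosed k] {K : Type v} [Field K] [CharZero K]
  (W : Weil.{u, v, w} k K)

variable {A P : Var k} [AddCommGroup A.pts] {p q m : Mor P A} (h : IsProd p q)
  (hm : ∀ x, m.1 x = p.1 x + q.1 x)

namespace Weil

omit [IsAlgClosed k] [CharZero K] [AddCommGroup A.pts] in
theorem Hopf1_fst {T : Var k} (f g : Mor T A) (a : W.H A) :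
    W.pull (h.lift f g) (W.pull p a) = W.pull f a := by
  rw [W.pull_pull]
  exact W.pull_congr (fun x => by simp) a

omit [IsAlgClosed k] [CharZero K] [AddCommGroup A.pts] in
theorem Hopf1_snd {T : Var k} (f g : Mor T A) (a : W.H A) :
    W.pull (h.lift f g) (W.pull q a) = W.pull g a := by
  rw [W.pull_pull]
  exact W.pull_congr (fun x => by simp) a

omit [IsAlgClosed k] [CharZero K] [AddCommGroup A.pts] in
theorem Hopf1_id (a : W.H A) : W.pull (Mor.id A) a = a := W.pull_id _ rfl a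

/-- The span of the exterior products with both degrees positive. -/
def Hopf1_mid (p q : Mor P A) (j : ℕ) : Submodule K (W.H P) :=
  Submodule.span K {c | ∃ s t, s + t = j ∧ s ≠ 0 ∧ t ≠ 0 ∧ ∃ a ∈ W.gr A s, ∃ b ∈ W.gr A t,
    c = W.pull p a * W.pull q b}

theorem Hopf1_split {j : ℕ} (hj : j ≠ 0) {c : W.H P} (hc : c ∈ W.gr P j) :
    c - W.pull p (W.pull (h.lift (Mor.id A) (Mor.const A 0)) c) -
      W.pull q (W.pull (h.symm.lift (Mor.id A) (Mor.const A 0)) c) ∈ W.Hopf1_mid p q j := by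
  have key := W.gr_prod_le h j ((W.Hopf1_mid p q j).comap (LinearMap.id -
    (W.pull p).toLinearMap ∘ₗ (W.pull (h.lift (Mor.id A) (Mor.const A 0))).toLinearMap -
    (W.pull q).toLinearMap ∘ₗ (W.pull (h.symm.lift (Mor.id A) (Mor.const A 0))).toLinearMap)) ?_
  · simpa using key hc
  intro s t hst a ha b hb
  simp only [Submodule.mem_comap, LinearMap.sub_apply, LinearMap.id_apply, LinearMap.comp_apply,
    AlgHom.toLinearMap_apply, map_mul, W.Hopf1_fst h, W.Hopf1_snd h, W.Hopf1_fst h.symm,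
    W.Hopf1_snd h.symm, W.Hopf1_id]
  by_cases hs : s = 0
  · subst hs
    rw [W.zero, Submodule.mem_span_singleton] at ha
    obtain ⟨r, rfl⟩ := ha
    rw [W.pull_const (0 : A.pts) (by omega) hb]
    simp
  by_cases ht : t = 0
  · subst ht
    rw [W.zero, Submodule.mem_span_singleton] at hb
    obtain ⟨r, rfl⟩ := hb
    rw [W.pull_const (0 : A.pts) hs ha]
    simp
  rw [W.pull_const (0 : A.pts) hs ha, W.pull_const (0 : A.pts) ht hb]
  simp only [map_zero, mul_zero, zero_mul, sub_zero]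
  exact Submodule.subset_span ⟨s, t, hst, hs, ht, a, ha, b, hb, rfl⟩

include h hm

omit [IsAlgClosed k] [CharZero K] in
theorem hopf_left (a : W.H A) : W.pull (h.lift (Mor.id A) (Mor.const A 0)) (W.pull m a) = a := by
  rw [W.pull_pull]
  exact W.pull_id _ (funext fun x => by simp [hm]) a

omit [IsAlgClosed k] [CharZero K] in
theorem hopf_right (a : W.H A) :
    W.pull (h.symm.lift (Mor.id A) (Mor.const A 0)) (W.pull m a) = a := by
  rw [W.pull_pull]
  refine W.pull_id _ (funext fun x => ?_) a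
  have h1 := h.symm.fst_lift (Mor.id A) (Mor.const A 0) x
  have h2 := h.symm.snd_lift (Mor.id A) (Mor.const A 0) x
  simp [hm, h1, h2]

theorem Hopf1_m {j : ℕ} (hj : j ≠ 0) {a : W.H A} (ha : a ∈ W.gr A j) :
    W.pull m a - W.pull p a - W.pull q a ∈ W.Hopf1_mid p q j := by
  have := W.Hopf1_split h hj (W.pull_gr m j a ha)
  rwa [W.hopf_left h hm, W.hopf_right h hm] at this

/-- Classes of degree one are primitive. -/
theorem hopf_one {a : W.H A} (ha : a ∈ W.gr A 1) : W.pull m a = W.pull p a + W.pull q a := by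
  have h1 := W.Hopf1_m h hm one_ne_zero ha
  have h2 : W.Hopf1_mid p q 1 ≤ ⊥ := by
    refine Submodule.span_le.2 ?_
    rintro c ⟨s, t, hst, hs, ht, -⟩
    omega
  have h3 := (Submodule.mem_bot K).1 (h2 h1)
  rw [sub_sub, sub_eq_zero] at h3
  exact h3

theorem hopf_two {a : W.H A} (ha : a ∈ W.gr A 2) :
    W.pull m a - W.pull p a - W.pull q a ∈ W.sq p q (W.gr A 1) := by
  refine Submodule.span_mono ?_ (W.Hopf1_m h hm two_ne_zero ha)
  rintro c ⟨s, t, hst, hs, ht, a, ha, b, hb, rfl⟩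
  obtain rfl : s = 1 := by omega
  obtain rfl : t = 1 := by omega
  exact ⟨a, ha, b, hb, rfl⟩

theorem hopf_low {j : ℕ} {a : W.H A} (ha : a ∈ W.gr A j) : W.pull m a - W.pull q a ∈
    Submodule.span K {c | ∃ x : W.H A, ∃ t < j, ∃ y ∈ W.gr A t, c = W.pull p x * W.pull q y} := by
  by_cases hj : j = 0
  · subst hj
    rw [W.zero, Submodule.mem_span_singleton] at ha
    obtain ⟨r, rfl⟩ := ha
    simp
  have e : W.pull m a - W.pull q a = (W.pull m a - W.pull p a - W.pull q a) + W.pull p a := by abel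
  rw [e]
  refine add_mem (Submodule.span_mono ?_ (W.Hopf1_m h hm hj ha)) (Submodule.subset_span
    ⟨a, 0, by omega, 1, SetLike.one_mem_graded _, by simp⟩)
  rintro c ⟨s, t, hst, hs, ht, a, ha, b, hb, rfl⟩
  exact ⟨a, t, by omega, b, hb, rfl⟩

/-- Primitive classes of degree two vanish. -/
theorem hopf_prim {a : W.H A} (ha : a ∈ W.gr A 2) (hp : W.pull m a = W.pull p a + W.pull q a) :
    a = 0 := by
  by_contra hne
  obtain ⟨j, hj, c, hc, hτ⟩ := W.exists_gr_ne ha hne
  have hca : c * a = W.tr A (c * a) • W.cl A {0} :=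
    W.eq_smul_pt (hj ▸ SetLike.mul_mem_graded hc ha) 0
  have hD : ∀ y, W.fib h.symm (W.pull p c * W.pull m (a * y)) =
      W.tr A (c * a) • y + a * W.fib h.symm (W.pull p c * W.pull m y) := fun y => by
    have hq : W.pull q a ∈ W.gr P (2 * 1) := W.pull_gr q _ a ha
    have e : W.pull p c * W.pull m (a * y) = W.tr A (c * a) • (W.pull p (W.cl A {0}) * W.pull m y) +
        W.pull q a * (W.pull p c * W.pull m y) := by
      rw [map_mul, hp, add_mul, mul_add, ← mul_assoc, ← map_mul, ← mul_assoc,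
        ← W.even_comm hq (W.pull p c), mul_assoc, ← smul_mul_assoc, ← map_smul, ← hca]
    rw [e, map_add, map_smul, W.fib_pt h.symm, W.hopf_right h hm, W.fib_mul_left h.symm]
  have hD1 : W.fib h.symm (W.pull p c * W.pull m 1) = 0 := by
    have := W.fib_swap h.symm 1 c
    rw [W.tr_gr A j c hc (by omega), zero_smul, map_one] at this
    rwa [map_one]
  have hDr : ∀ r : ℕ, W.fib h.symm (W.pull p c * W.pull m (a ^ (r + 1))) =
      (((r + 1 : ℕ) : K) * W.tr A (c * a)) • a ^ r := fun r => by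
    induction r with
    | zero =>
      have := hD 1
      rw [hD1] at this
      simpa using this
    | succ r ih =>
      rw [pow_succ' a (r + 1), hD, ih, mul_smul_comm, ← pow_succ', ← add_smul]
      congr 1
      push_cast
      ring
  have hdesc : ∀ r : ℕ, a ^ r ≠ 0 := fun r => by
    induction r with
    | zero =>
      intro h0
      rw [pow_zero] at h0
      exact hne (by rw [← mul_one a, h0, mul_zero])
    | succ r ih =>
      intro h0
      have := hDr r
      rw [h0, map_zero, mul_zero, map_zero] at this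
      rcases smul_eq_zero.1 this.symm with h1 | h1
      · exact mul_ne_zero (by exact_mod_cast Nat.succ_ne_zero r) hτ h1
      · exact ih h1
  refine hdesc (A.d + 1) (W.gr_eq_zero (SetLike.pow_mem_graded (A.d + 1) ha) ?_)
  rw [smul_eq_mul]
  omega

theorem hopf_gr_two {a : W.H A} (ha : a ∈ W.gr A 2) :
    a ∈ Algebra.adjoin K (W.gr A 1 : Set (W.H A)) := by
  have key : ∀ w ∈ W.sq p q (W.gr A 1),
      W.pull (h.lift (Mor.id A) (Mor.id A)) w ∈ Algebra.adjoin K (W.gr A 1 : Set (W.H A)) ∧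
      W.pull (h.lift (Mor.id A) (Mor.id A)) w ∈ W.gr A 2 ∧
      W.pull m (W.pull (h.lift (Mor.id A) (Mor.id A)) w) =
        W.pull p (W.pull (h.lift (Mor.id A) (Mor.id A)) w) +
        W.pull q (W.pull (h.lift (Mor.id A) (Mor.id A)) w) + w + W.pull (h.lift q p) w := by
    intro w hw
    induction hw using Submodule.span_induction with
    | mem c hc =>
      obtain ⟨x, hx, y, hy, rfl⟩ := hc
      simp only [map_mul, W.Hopf1_fst h, W.Hopf1_snd h, W.Hopf1_id]
      refine ⟨mul_mem (Algebra.subset_adjoin hx) (Algebra.subset_adjoin hy),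
        SetLike.mul_mem_graded hx hy, ?_⟩
      rw [W.hopf_one h hm hx, W.hopf_one h hm hy, add_mul, mul_add, mul_add]
      abel
    | zero => simp
    | add x y _ _ hx hy =>
      simp only [map_add]
      refine ⟨add_mem hx.1 hy.1, add_mem hx.2.1 hy.2.1, ?_⟩
      rw [hx.2.2, hy.2.2]
      abel
    | smul r x _ hx =>
      simp only [map_smul]
      refine ⟨Subalgebra.smul_mem _ hx.1 r, Submodule.smul_mem _ r hx.2.1, ?_⟩
      rw [hx.2.2]
      simp only [smul_add]
  obtain ⟨h1, h2, h3⟩ := key _ (W.hopf_two h hm ha)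
  have hs : W.pull (h.lift q p) (W.pull m a - W.pull p a - W.pull q a) =
      W.pull m a - W.pull p a - W.pull q a := by
    have e : W.pull (h.lift q p) (W.pull m a) = W.pull m a := by
      rw [W.pull_pull]
      exact W.pull_congr (fun x => by simp [hm, add_comm]) a
    rw [map_sub, map_sub, e, W.Hopf1_fst h, W.Hopf1_snd h]
    abel
  rw [hs] at h3
  generalize W.pull (h.lift (Mor.id A) (Mor.id A)) (W.pull m a - W.pull p a - W.pull q a) = u
    at h1 h2 h3
  have h4 : a - (2⁻¹ : K) • u = 0 := by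
    refine W.hopf_prim h hm (sub_mem ha (Submodule.smul_mem _ _ h2)) ?_
    simp only [map_sub, map_smul, h3]
    module
  rw [sub_eq_zero.1 h4]
  exact Subalgebra.smul_mem _ h1 _

end Weil

end Pool.Agent.MP_0c8446_ag

end

section

namespace Pool.Agent.MP_0c8446_ag

open Set Polynomial
open scoped TensorProduct

universe u v w x

variable {k : Type u} [Field k] [IsAlgClosed k] {K : Type v} [Field K] [CharZero K]
  (W : Weil.{u, v, w} k K)

variable {A P : Var k} [AddCommGroup A.pts] {p q m : Mor P A} (h : IsProd p q)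
  (hm : ∀ x, m.1 x = p.1 x + q.1 x)

namespace Weil

omit [IsAlgClosed k] [CharZero K] in
theorem Hopf2_pow_gr {X : Var k} {η : W.H X} (hη : η ∈ W.gr X 2) (r : ℕ) :
    η ^ r ∈ W.gr X (2 * r) := by
  have := SetLike.pow_mem_graded r hη
  rwa [smul_eq_mul, mul_comm] at this

omit [IsAlgClosed k] [CharZero K] in
theorem Hopf2_odd {X : Var k} {a b : W.H X} {e : ℕ} (ha : a ∈ W.gr X (2 * e + 1))
    (hb : b ∈ W.gr X 1) : a * b = -(b * a) := by
  rw [W.comm X _ _ a ha b hb, mul_one, pow_succ, pow_mul]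
  simp

include h hm in
theorem Hopf2_top {ω : W.H A} (hω : ω ∈ W.gr A (2 * A.d)) :
    W.fib h.symm (W.pull m ω) = W.tr A ω • (1 : W.H A) := by
  have h1 : W.fib h.symm (W.pull m ω) ∈ W.gr A 0 :=
    W.fib_gr h.symm (by rw [zero_add]; exact W.pull_gr m _ _ hω)
  rw [W.zero, Submodule.mem_span_singleton] at h1
  obtain ⟨s, hs⟩ := h1
  have h2 : W.tr A (W.cl A {0} * W.fib h.symm (W.pull m ω)) = W.tr A ω := by
    rw [← W.fib_mul_left h.symm, W.tr_fib h.symm, ← W.tr_fib h, W.fib_pt h, W.hopf_left h hm]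
  rw [← hs, mul_smul_comm, mul_one, map_smul, W.tr_pt, smul_eq_mul, mul_one] at h2
  rw [← hs, h2]

include h hm in
theorem Hopf2_pt {c : W.H A} (hc : c ∈ W.gr A (2 * A.d)) (y : W.H A) :
    W.fib h.symm (W.pull p c * W.pull m y) = W.tr A c • y := by
  conv_lhs => rw [W.eq_smul_pt hc 0]
  rw [map_smul, smul_mul_assoc, map_smul, W.fib_pt h.symm, W.hopf_right h hm]

include h hm in
theorem Hopf2_stab {z : W.H A} (hz : z ∈ Algebra.adjoin K (W.gr A 1 : Set (W.H A))) :
    ∀ c ∈ Submodule.span K {c | ∃ x : W.H A, ∃ y ∈ Algebra.adjoin K (W.gr A 1 : Set (W.H A)),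
      c = W.pull p x * W.pull q y}, W.pull m z * c ∈ Submodule.span K {c | ∃ x : W.H A,
        ∃ y ∈ Algebra.adjoin K (W.gr A 1 : Set (W.H A)), c = W.pull p x * W.pull q y} := by
  induction hz using Algebra.adjoin_induction with
  | mem z hz =>
    intro c hc
    induction hc using Submodule.span_induction with
    | mem c hc =>
      obtain ⟨x, y, hy, rfl⟩ := hc
      rw [W.hopf_one h hm hz, add_mul]
      refine add_mem (Submodule.subset_span ⟨z * x, y, hy, by rw [map_mul, mul_assoc]⟩) ?_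
      induction x using DirectSum.Decomposition.inductionOn (W.gr A) with
      | zero => simp
      | @homogeneous i x =>
        refine Submodule.subset_span ⟨(-1) ^ (1 * i) * x.1, z * y,
          mul_mem (Algebra.subset_adjoin hz) hy, ?_⟩
        rw [← mul_assoc, W.comm P _ _ _ (W.pull_gr q _ _ hz) _ (W.pull_gr p _ _ x.2)]
        simp only [map_mul, map_pow, map_neg, map_one, mul_assoc]
      | add x x' hx hx' =>
        rw [map_add, add_mul, mul_add]
        exact add_mem hx hx'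
    | zero => simp
    | add c c' _ _ hc hc' => rw [mul_add]; exact add_mem hc hc'
    | smul r c _ hc => rw [mul_smul_comm]; exact Submodule.smul_mem _ r hc
  | algebraMap r =>
    intro c hc
    rw [AlgHom.commutes, ← Algebra.smul_def]
    exact Submodule.smul_mem _ r hc
  | add z z' _ _ hz hz' =>
    intro c hc
    rw [map_add, add_mul]
    exact add_mem (hz c hc) (hz' c hc)
  | mul z z' _ _ hz hz' =>
    intro c hc
    rw [map_mul, mul_assoc]
    exact hz _ (hz' c hc)

include h hm in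
/-- The cohomology of an abelian variety is generated in degree one. -/
theorem hopf_adjoin {η : W.H A} (hη : η ∈ W.gr A 2) (h0 : η ^ A.d ≠ 0) :
    Algebra.adjoin K (W.gr A 1 : Set (W.H A)) = ⊤ := by
  have hω := W.Hopf2_pow_gr hη A.d
  have hτ : W.tr A (η ^ A.d) ≠ 0 := fun h1 => h0 (W.eq_zero_of_top hω h1)
  have hΛ : η ^ A.d ∈ Algebra.adjoin K (W.gr A 1 : Set (W.H A)) :=
    pow_mem (W.hopf_gr_two h hm hη) _
  have hB : ∀ c ∈ Submodule.span K {c | ∃ x : W.H A,
      ∃ y ∈ Algebra.adjoin K (W.gr A 1 : Set (W.H A)), c = W.pull p x * W.pull q y},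
      W.fib h.symm c ∈ Algebra.adjoin K (W.gr A 1 : Set (W.H A)) := by
    intro c hc
    induction hc using Submodule.span_induction with
    | mem c hc =>
      obtain ⟨x, y, hy, rfl⟩ := hc
      rw [W.fib_swap h.symm]
      exact Subalgebra.smul_mem _ hy _
    | zero => simp
    | add c c' _ _ hc hc' => rw [map_add]; exact add_mem hc hc'
    | smul r c _ hc => rw [map_smul]; exact Subalgebra.smul_mem _ hc r
  have key : ∀ j, ∀ y ∈ W.gr A j, y ∈ Algebra.adjoin K (W.gr A 1 : Set (W.H A)) := by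
    intro j
    induction j using Nat.strong_induction_on with
    | _ j ih =>
      intro y hy
      rcases Nat.eq_zero_or_pos j with rfl | hj
      · rw [W.zero, Submodule.mem_span_singleton] at hy
        obtain ⟨s, rfl⟩ := hy
        exact Subalgebra.smul_mem _ (one_mem _) s
      have h1 : y * η ^ A.d = 0 := W.gr_eq_zero (SetLike.mul_mem_graded hy hω) (by omega)
      have h2 : W.pull m y - W.pull q y ∈ Submodule.span K {c | ∃ x : W.H A,
          ∃ y ∈ Algebra.adjoin K (W.gr A 1 : Set (W.H A)), c = W.pull p x * W.pull q y} := by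
        refine Submodule.span_mono ?_ (W.hopf_low h hm hy)
        rintro _ ⟨x, t, ht, y', hy', rfl⟩
        exact ⟨x, y', ih t ht y' hy', rfl⟩
      have h3 := hB _ (W.Hopf2_stab h hm hΛ _ h2)
      rw [W.even_comm (W.pull_gr m _ _ hω), sub_mul, ← map_mul, h1, map_zero, zero_sub, map_neg,
        W.fib_mul_left h.symm, W.Hopf2_top h hm hω, mul_smul_comm, mul_one] at h3
      have h4 := Subalgebra.smul_mem _ h3 (-(W.tr A (η ^ A.d))⁻¹)
      rwa [smul_neg, neg_smul, neg_neg, smul_smul, inv_mul_cancel₀ hτ, one_smul] at h4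
  refine eq_top_iff.2 fun a ha => ?_
  clear ha
  induction a using DirectSum.Decomposition.inductionOn (W.gr A) with
  | zero => simp
  | homogeneous a => exact key _ _ a.2
  | add a b ha hb => exact add_mem ha hb

include h hm in
theorem Hopf2_sq {e : ℕ} (he : A.d = e + 1) {c : W.H A} (hc : c ∈ W.gr A (2 * e + 1))
    {β : W.H P} (hβ : β ∈ W.sq p q (W.gr A 1)) (y : W.H A) :
    W.fib h.symm (W.pull p c * β * W.pull m y) = W.fib h.symm (W.pull p c * β) * y := by
  induction hβ using Submodule.span_induction with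
  | mem β hβ =>
    obtain ⟨a, ha, a', ha', rfl⟩ := hβ
    have h1 : c * a ∈ W.gr A (2 * A.d) := by
      have := SetLike.mul_mem_graded hc ha
      rwa [show 2 * e + 1 + 1 = 2 * A.d by omega] at this
    rw [← mul_assoc, ← map_mul, W.fib_swap h.symm, W.even_comm (W.pull_gr p _ _ h1), mul_assoc,
      W.fib_mul_left h.symm, W.Hopf2_pt h hm h1, mul_smul_comm, smul_mul_assoc]
  | zero => simp
  | add β β' _ _ h1 h2 => simp only [mul_add, add_mul, map_add, h1, h2]
  | smul r β _ h1 => simp only [mul_smul_comm, smul_mul_assoc, map_smul, h1]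

include h hm in
theorem Hopf2_der {η : W.H A} (hη : η ∈ W.gr A 2) {e : ℕ} (he : A.d = e + 1) {c : W.H A}
    (hc : c ∈ W.gr A (2 * e + 1)) (y : W.H A) :
    W.fib h.symm (W.pull p c * W.pull m (η * y)) = η * W.fib h.symm (W.pull p c * W.pull m y) +
      W.fib h.symm (W.pull p c * (W.pull m η - W.pull p η - W.pull q η)) * y := by
  have h1 : c * η = 0 := W.gr_eq_zero (SetLike.mul_mem_graded hc hη) (by omega)
  have h2 : W.pull q η ∈ W.gr P (2 * 1) := W.pull_gr q _ _ hη
  rw [← W.Hopf2_sq h hm he hc (W.hopf_two h hm hη), ← W.fib_mul_left h.symm, ← map_add]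
  congr 1
  rw [mul_sub, mul_sub, ← map_mul (W.pull p), h1, map_zero, sub_zero, ← W.even_comm h2, map_mul,
    sub_mul, mul_assoc, mul_assoc]
  abel

include h hm in
theorem Hopf2_pow {η : W.H A} (hη : η ∈ W.gr A 2) {e : ℕ} (he : A.d = e + 1) {c : W.H A}
    (hc : c ∈ W.gr A (2 * e + 1)) (r : ℕ) :
    W.fib h.symm (W.pull p c * W.pull m (η ^ (r + 1))) = ((r + 1 : ℕ) : K) •
      (η ^ r * W.fib h.symm (W.pull p c * (W.pull m η - W.pull p η - W.pull q η))) := by
  induction r with
  | zero =>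
    have h1 := W.Hopf2_der h hm hη he hc 1
    have h2 : W.fib h.symm (W.pull p c * W.pull m 1) = 0 := by
      rw [map_one, ← map_one (W.pull q), W.fib_swap h.symm, W.tr_gr A _ _ hc (by omega), zero_smul]
    rw [h2, mul_one, mul_zero, zero_add, mul_one] at h1
    simpa using h1
  | succ r ih =>
    rw [pow_succ' η (r + 1), W.Hopf2_der h hm hη he hc, ih, mul_smul_comm, ← mul_assoc, ← pow_succ',
      ← W.even_comm (W.Hopf2_pow_gr hη (r + 1))]
    conv_rhs => rw [Nat.cast_succ, add_smul, one_smul]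

include h hm in
theorem Hopf2_val {ω : W.H A} (hω : ω ∈ W.gr A (2 * A.d)) {e : ℕ} (he : A.d = e + 1) {c : W.H A}
    (hc : c ∈ W.gr A (2 * e + 1)) :
    W.fib h.symm (W.pull p c * W.pull m ω) + W.tr A ω • c = 0 := by
  have h1 : W.fib h.symm (W.pull p c * W.pull m ω) ∈ W.gr A (2 * e + 1) :=
    W.fib_gr h.symm (SetLike.mul_mem_graded (W.pull_gr p _ _ hc) (W.pull_gr m _ _ hω))
  by_contra hne
  obtain ⟨j, hj, x, hx, hne⟩ := W.exists_gr_ne (add_mem h1 (Submodule.smul_mem _ _ hc)) hne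
  obtain rfl : j = 1 := by omega
  have h2 : x * ω = 0 := W.gr_eq_zero (SetLike.mul_mem_graded hx hω) (by omega)
  have h3 : c * x ∈ W.gr A (2 * A.d) := by
    have := SetLike.mul_mem_graded hc hx
    rwa [show 2 * e + 1 + 1 = 2 * A.d by omega] at this
  have h4 : W.fib h.symm (W.pull p c * W.pull m (x * ω)) = 0 := by
    rw [h2, map_zero, mul_zero, map_zero]
  rw [map_mul (W.pull m), W.hopf_one h hm hx, add_mul, mul_add, ← mul_assoc, ← mul_assoc,
    ← map_mul (W.pull p), map_add, W.Hopf2_pt h hm h3, W.Hopf2_odd (W.pull_gr p _ _ hc) (W.pull_gr q _ _ hx), neg_mul, map_neg,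
    mul_assoc, W.fib_mul_left h.symm, add_neg_eq_zero] at h4
  apply hne
  rw [mul_add, ← h4, mul_smul_comm, map_add, map_smul, map_smul, W.Hopf2_odd hc hx, map_neg,
    smul_eq_mul, smul_eq_mul]
  ring

include h hm in
/-- The polarisation class is inverse to the Lefschetz pairing in degree one. -/
theorem hopf_inv {η : W.H A} (hη : η ∈ W.gr A 2) (h0 : η ^ A.d ≠ 0) : ∃ c : K, c ≠ 0 ∧
    ∀ a ∈ W.gr A 1, W.fib h.symm (W.pull p (η ^ (A.d - 1) * a) *
      (W.pull m η - W.pull p η - W.pull q η)) = c • a := by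
  rcases Nat.eq_zero_or_pos A.d with hd | hd
  · refine ⟨1, one_ne_zero, fun a ha => ?_⟩
    rw [W.gr_eq_zero ha (by omega)]
    simp
  obtain ⟨e, he⟩ : ∃ e, A.d = e + 1 := ⟨A.d - 1, by omega⟩
  have hω := W.Hopf2_pow_gr hη A.d
  have hτ : W.tr A (η ^ A.d) ≠ 0 := fun h1 => h0 (W.eq_zero_of_top hω h1)
  have he0 : ((e + 1 : ℕ) : K) ≠ 0 := Nat.cast_ne_zero.2 (Nat.succ_ne_zero e)
  have hβ : W.pull m η - W.pull p η - W.pull q η ∈ W.gr P 2 :=
    sub_mem (sub_mem (W.pull_gr m _ _ hη) (W.pull_gr p _ _ hη)) (W.pull_gr q _ _ hη)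
  have hb : ∀ c ∈ W.gr A (2 * e + 1),
      W.fib h.symm (W.pull p c * (W.pull m η - W.pull p η - W.pull q η)) ∈ W.gr A 1 := by
    intro c hc
    refine W.fib_gr h.symm ?_
    have := SetLike.mul_mem_graded (W.pull_gr p _ _ hc) hβ
    rwa [show 2 * e + 1 + 2 = 1 + 2 * A.d by omega] at this
  have key : ∀ c ∈ W.gr A (2 * e + 1), ((e + 1 : ℕ) : K) •
      (η ^ e * W.fib h.symm (W.pull p c * (W.pull m η - W.pull p η - W.pull q η))) +
        W.tr A (η ^ A.d) • c = 0 := by
    intro c hc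
    rw [← W.Hopf2_pow h hm hη he hc, ← he]
    exact W.Hopf2_val h hm hω he hc
  have inj : ∀ x ∈ W.gr A 1, η ^ e * x = 0 → x = 0 := by
    intro x hx h1
    by_contra hne
    obtain ⟨j, hj, c, hc, hne⟩ := W.exists_gr_ne hx hne
    obtain rfl : j = 2 * e + 1 := by omega
    have h2 := congrArg (fun t => W.tr A (t * x)) (key c hc)
    have h3 : W.fib h.symm (W.pull p c * (W.pull m η - W.pull p η - W.pull q η)) ∈
        W.gr A (2 * 0 + 1) := hb c hc
    simp only [add_mul, smul_mul_assoc, mul_assoc, zero_mul, map_zero] at h2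
    rw [W.Hopf2_odd h3 hx, mul_neg, ← mul_assoc, h1, zero_mul, neg_zero, smul_zero, zero_add,
      map_smul, smul_eq_mul] at h2
    exact mul_ne_zero hτ hne h2
  refine ⟨-W.tr A (η ^ A.d) / ((e + 1 : ℕ) : K), div_ne_zero (neg_ne_zero.2 hτ) he0,
    fun a ha => ?_⟩
  rw [show A.d - 1 = e by omega]
  have hc : η ^ e * a ∈ W.gr A (2 * e + 1) := SetLike.mul_mem_graded (W.Hopf2_pow_gr hη e) ha
  have h1 := key _ hc
  rw [← mul_smul_comm, ← mul_smul_comm, ← mul_add] at h1
  have h2 := inj _ (add_mem (Submodule.smul_mem _ _ (hb _ hc)) (Submodule.smul_mem _ _ ha)) h1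
  rw [div_eq_inv_mul, mul_smul, neg_smul, ← eq_neg_iff_add_eq_zero.2 h2, smul_smul,
    inv_mul_cancel₀ he0, one_smul]

theorem genD_ab (hA : ∀ (T : Var k) (f g : Mor T A), IsMor fun x => f.1 x + g.1 x) {η : W.H A}
    (ha : η ∈ W.Alg A) (hη : η ∈ W.gr A 2) (h0 : η ^ A.d ≠ 0) (φ : Mor A A) :
    W.GenD (W.gr A 1) (W.pull φ).toLinearMap (η ^ (A.d - 1)) := by
  obtain ⟨P, p, q, h⟩ := exists_prod A A
  let m : Mor P A := ⟨fun x => p.1 x + q.1 x, hA P p q⟩
  have hm : ∀ x, m.1 x = p.1 x + q.1 x := fun _ => rfl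
  refine ⟨⟨1, le_rfl⟩, ?_, ?_, W.corr_pull _ φ, fun a => ?_⟩
  · induction A.d - 1 with
    | zero => rw [pow_zero]; exact W.one_mem_Alg A
    | succ r ih => rw [pow_succ]; exact W.mul_mem_Alg ih ha
  · obtain ⟨c, hc, h1⟩ := W.hopf_inv h hm hη h0
    refine ⟨P, p, q, h, W.pull m η - W.pull p η - W.pull q η, sub_mem (sub_mem
      (W.pull_mem_Alg m ha) (W.pull_mem_Alg p ha)) (W.pull_mem_Alg q ha), W.hopf_two h hm hη, c, hc,
      fun a ha b => ?_⟩
    rw [← W.tr_fib h.symm, W.fib_mul_left h.symm, h1 a ha, mul_smul_comm, map_smul, smul_eq_mul]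
  · have h1 : a ∈ Algebra.adjoin K (W.gr A 1 : Set (W.H A)) := by
      rw [W.hopf_adjoin h hm hη h0]
      exact Algebra.mem_top
    induction h1 using Algebra.adjoin_induction with
    | mem a ha =>
      refine Submodule.subset_span ⟨1, W.one_mem_Alg A, [(Mor.id A, a)], by simpa using ha, ?_⟩
      simp [W.pull_id (Mor.id A) rfl]
    | algebraMap r =>
      rw [Algebra.algebraMap_eq_smul_one]
      exact Submodule.smul_mem _ r (Submodule.subset_span ⟨1, W.one_mem_Alg A, [], by simp, by simp⟩)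
    | add a b _ _ ha hb => exact add_mem ha hb
    | mul a b ha' hb' ha hb =>
      clear ha' hb'
      have h2 := Submodule.mul_mem_mul ha hb
      rw [Submodule.span_mul_span] at h2
      refine Submodule.span_mono ?_ h2
      rintro _ ⟨_, ⟨z, hz, l, hl, rfl⟩, _, ⟨z', hz', l', hl', rfl⟩, rfl⟩
      refine ⟨z * z', W.mul_mem_Alg hz hz', l ++ l', fun x hx => ?_, ?_⟩
      · rcases List.mem_append.1 hx with hx | hx
        · exact hl x hx
        · exact hl' x hx
      · simp only [List.map_append, List.prod_append, mul_assoc]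
        congr 1
        rw [← mul_assoc, ← mul_assoc, W.Alg_comm hz']

end Weil

end Pool.Agent.MP_0c8446_ag

end

section

namespace Pool.Agent.MP_0c8446_ag

open Set

universe u v w

variable {k : Type u} [Field k] [IsAlgClosed k] {K : Type v} [Field K] [CharZero K]
  (W : Weil.{u, v, w} k K)

theorem Ample_coeff {R : Type*} [AddCommGroup R] [Module K R] (n : ℕ) (v : ℕ → R)
    (h : ∀ t : K, ∑ m ∈ Finset.range n, t ^ m • v m = 0) {m : ℕ} (hm : m < n) : v m = 0 := by
  rw [← Module.forall_dual_apply_eq_zero_iff K]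
  intro φ
  have h1 : ∑ m ∈ Finset.range n, Polynomial.monomial m (φ (v m)) = 0 := by
    refine Polynomial.funext fun t => ?_
    have h2 := congrArg φ (h t)
    simp only [map_sum, map_smul, smul_eq_mul, map_zero] at h2
    simp only [Polynomial.eval_finsetSum, Polynomial.eval_monomial, Polynomial.eval_zero]
    rw [← h2]
    exact Finset.sum_congr rfl fun _ _ => mul_comm _ _
  have h2 := congrArg (fun p => Polynomial.coeff p m) h1
  simpa [Polynomial.coeff_monomial, hm] using h2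

theorem Ample_step {R : Type*} [Ring R] [Algebra K R] (S : Submodule K R)
    (hS : ∀ a ∈ S, ∀ b, a * b = b * a) (r : ℕ) (x : R) (h : ∀ a ∈ S, a ^ (r + 1) * x = 0)
    {a b : R} (ha : a ∈ S) (hb : b ∈ S) : a ^ r * (b * x) = 0 := by
  have h1 := Ample_coeff (K := K) (r + 1 + 1)
    (fun m => b ^ m * a ^ (r + 1 - m) * ((r + 1).choose m : R) * x) (fun t => by
      have h2 := h (t • b + a) (add_mem (S.smul_mem t hb) ha)
      rw [Commute.add_pow (hS _ (S.smul_mem t hb) a), Finset.sum_mul] at h2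
      simpa only [smul_pow, smul_mul_assoc] using h2) (m := 1) (by omega)
  simp only [pow_one, Nat.add_sub_cancel, Nat.choose_one_right] at h1
  rw [← map_natCast (algebraMap K R), ← Algebra.commutes, ← Algebra.smul_def, smul_mul_assoc,
    smul_eq_zero, hS b hb, mul_assoc] at h1
  exact h1.resolve_left (Nat.cast_ne_zero.2 (by omega))

theorem Ample_list {R : Type*} [Ring R] [Algebra K R] (S : Submodule K R)
    (hS : ∀ a ∈ S, ∀ b, a * b = b * a) (l : List R) (hl : ∀ a ∈ l, a ∈ S) (x : R)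
    (h : ∀ a ∈ S, a ^ l.length * x = 0) : l.prod * x = 0 := by
  induction l generalizing x with
  | nil => simpa using h 0 S.zero_mem
  | cons b l ih =>
    have hb := hl b List.mem_cons_self
    rw [List.prod_cons, hS b hb, mul_assoc]
    exact ih (fun a ha => hl a (List.mem_cons_of_mem _ ha)) _
      fun a ha => Ample_step S hS _ x h ha hb

omit [IsAlgClosed k] [CharZero K] in
theorem Ample_cut {X : Var k} (η : W.H X) (H : Set X.pts) (M : Multiset (Set X.pts))
    (h : ∀ C ∈ M, W.CutAt η C H) : ∃ (a : ℕ) (M' : Multiset (Set X.pts)), 0 < a ∧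
      (∀ D ∈ M', IsSub D ∧ ∃ C ∈ M, dim D + 1 = dim C) ∧
      (∀ C ∈ M, ∀ D, IsComp D (C ∩ H) → D ∈ M') ∧ a • (W.geo2S X M * η) = W.geo2S X M' := by
  induction M using Multiset.induction_on with
  | empty => exact ⟨1, 0, one_pos, by simp, by simp, by simp⟩
  | cons C M ih =>
    obtain ⟨a', M', h0, h1, h2, h3⟩ := ih fun D hD => h D (Multiset.mem_cons_of_mem hD)
    obtain ⟨a, s, μ, ha, h4, h5, h6⟩ := h C (Multiset.mem_cons_self _ _)
    obtain ⟨N, h7, h8⟩ := W.geo2_fin s μ fun D hD => (h5 D hD).1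
    refine ⟨a * a', a' • N + a • M', Nat.mul_pos ha h0, fun D hD => ?_, fun E hE D hD => ?_, ?_⟩
    · rcases Multiset.mem_add.1 hD with hD | hD
      · have h9 := (h7 D).1 (Multiset.mem_of_mem_nsmul hD)
        exact ⟨((h4 D).1 h9).1.1, C, Multiset.mem_cons_self _ _, (h5 D h9).2⟩
      · obtain ⟨h9, E, hE, h10⟩ := h1 D (Multiset.mem_of_mem_nsmul hD)
        exact ⟨h9, E, Multiset.mem_cons_of_mem hE, h10⟩
    · rw [Multiset.mem_add, Multiset.mem_nsmul, Multiset.mem_nsmul]
      rcases Multiset.mem_cons.1 hE with rfl | hE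
      · exact Or.inl ⟨h0.ne', (h7 D).2 ((h4 D).2 hD)⟩
      · exact Or.inr ⟨ha.ne', h2 E hE D hD⟩
    · rw [W.geo2S_cons, add_mul, smul_add, map_add, map_nsmul, map_nsmul, h8, ← h6, ← h3,
        smul_smul, smul_smul, mul_comm a' a]

theorem Ample_ind (X : Var k) (e : ℕ) (M : Multiset (Set X.pts))
    (hM : ∀ C ∈ M, IsSub C ∧ dim C = e) (hne : M ≠ 0) : ∃ l : List (W.H X),
    (∀ a ∈ l, a ∈ W.Alg X ⊓ W.gr X 2) ∧ l.length = e ∧ W.geo2S X M * l.prod ≠ 0 := by
  induction e generalizing M with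
  | zero => exact ⟨[], by simp, rfl, by simpa using W.geoGen_ne M (fun C hC => (hM C hC).1) hne⟩
  | succ e ih =>
    obtain ⟨C₀, hC₀⟩ := Multiset.exists_mem_of_ne_zero hne
    obtain ⟨hs, hd⟩ := hM C₀ hC₀
    obtain ⟨x, hx⟩ := hs.1.1
    obtain ⟨y, hy, hxy⟩ : ∃ y ∈ C₀, x ≠ y := by
      by_contra hcon
      push Not at hcon
      have : C₀ = {x} := eq_singleton_iff_unique_mem.2 ⟨hx, fun y hy => (hcon y hy).symm⟩
      rw [this, dim_singleton] at hd
      omega
    obtain ⟨H, hH, hHd, ⟨_, ⟨z, hz, rfl⟩, hzH⟩, hns⟩ := geoGen_cut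
      (M.finite_toSet.image fun C => X.incl.1 '' C) (by
        rintro _ ⟨C, hC, rfl⟩
        exact (hM C hC).1.1.1.image _) (X.isSub_incl hs) (mem_image_of_mem _ hx)
      (mem_image_of_mem _ hy) fun h => hxy ((amb_incl X).injective h)
    obtain ⟨a, M', ha, h1, h2, h3⟩ := Ample_cut W (W.pull X.incl (W.cl _ H)) (X.incl.1 ⁻¹' H) M
      fun C hC => W.cutAt_pull X.incl hH hHd (hM C hC).1 fun h =>
        hns _ ⟨C, hC, rfl⟩ (image_subset_iff.2 h)
    obtain ⟨D₀, hD₀, -⟩ := exists_isComp (S := C₀ ∩ X.incl.1 ⁻¹' H) (isSub_singleton z)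
      (singleton_subset_iff.2 ⟨hz, hzH⟩)
    obtain ⟨l, h4, h5, h6⟩ := ih M' (fun D hD => by
      obtain ⟨h4, C, hC, h5⟩ := h1 D hD
      have := (hM C hC).2
      exact ⟨h4, by omega⟩) fun h4 => Multiset.notMem_zero _ (h4 ▸ h2 C₀ hC₀ D₀ hD₀)
    refine ⟨W.pull X.incl (W.cl _ H) :: l, fun b hb => ?_, by rw [List.length_cons, h5],
      fun h7 => h6 ?_⟩
    · rcases List.mem_cons.1 hb with rfl | hb
      · refine ⟨W.pull_mem_Alg _ (W.cl_mem_Alg hH), W.pull_gr _ _ _ ?_⟩
        have := W.cl_gr _ H hH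
        rwa [← hHd, Nat.add_sub_cancel_left] at this
      · exact h4 b hb
    · rw [← h3, smul_mul_assoc, mul_assoc, ← List.prod_cons, h7, smul_zero]

/-- Polarisation: if all `d`-th powers vanish then all products of `d` elements vanish. -/
theorem polar_pow {R : Type*} [Ring R] [Algebra K R] (S : Submodule K R)
    (hS : ∀ a ∈ S, ∀ b, a * b = b * a) (d : ℕ) (h : ∀ a ∈ S, a ^ d = 0) (l : List R)
    (hl : ∀ a ∈ l, a ∈ S) (hd : l.length = d) : l.prod = 0 := by
  have := Ample_list S hS l hl 1 fun a ha => by rw [hd, h a ha, zero_mul]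
  rwa [mul_one] at this

/-- Some product of `dim X` divisor classes is not zero. -/
theorem Weil.exists_div_prod (X : Var k) : ∃ l : List (W.H X),
    (∀ a ∈ l, a ∈ W.Alg X ⊓ W.gr X 2) ∧ l.length = X.d ∧ l.prod ≠ 0 := by
  obtain ⟨l, h1, h2, h3⟩ := Ample_ind W X X.d {univ} (fun C hC => by
    rw [Multiset.mem_singleton.1 hC]
    exact ⟨X.isSub_univ, rfl⟩) (Multiset.singleton_ne_zero _)
  exact ⟨l, h1, h2, fun h => h3 (by rw [h, mul_zero])⟩

/-- There is a divisor class with nonzero top power. -/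
theorem Weil.exists_ample (X : Var k) : ∃ η ∈ W.Alg X, η ∈ W.gr X 2 ∧ η ^ X.d ≠ 0 := by
  by_contra h
  push Not at h
  obtain ⟨l, h1, h2, h3⟩ := W.exists_div_prod X
  exact h3 (polar_pow (W.Alg X ⊓ W.gr X 2) (fun a ha => W.Alg_comm ha.1) X.d
    (fun a ha => h a ha.1 ha.2) l h1 h2)

end Pool.Agent.MP_0c8446_ag

end
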