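import Pool.Agent.Mg.F0c8446.Gedbeda
import Pool.Agent.Mg.F0c8446.Ga9c6ff
import Pool.Agent.Mg.F0c8446.G5cbcd1
import Pool.Agent.Mg.F0c8446.G734b7d
import Pool.Agent.Mg.F0c8446.G29d8bf
import Pool.Agent.Mg.F0c8446.Gb6da35

section

namespace Pool.Agent.MP_0c8446_ag

open MvPolynomial Set Matrix

universe u v w

variable {F : Type u} [Field F] {n : ℕ} {M M' g : Matrix (Fin n) (Fin n) F}

theorem FqA_skew {V : Type u} [AddCommGroup V] [Module F V] (B : V →ₗ[F] V →ₗ[F] F)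
    (hA : ∀ v, B v v = 0) (v w : V) : B v w = -B w v := by
  have h := hA (v + w)
  simp only [map_add, LinearMap.add_apply, hA] at h
  linear_combination h

theorem FqA_split {V : Type u} [AddCommGroup V] [Module F V] [FiniteDimensional F V]
    (B : V →ₗ[F] V →ₗ[F] F) (hA : ∀ v, B v v = 0) (hN : ∀ v, (∀ w, B v w = 0) → v = 0)
    (hV : 0 < Module.finrank F V) :
    ∃ (x y : V) (U : Submodule F V) (π : V →ₗ[F] U), B x y = 1 ∧ (∀ u : U, B x u = 0 ∧ B y u = 0) ∧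
      Module.finrank F U + 2 = Module.finrank F V ∧
      (∀ u : U, (∀ u' : U, B u u' = 0) → u = 0) ∧ ∀ v, v = π v + B x v • y - B y v • x := by
  obtain ⟨x, hx⟩ := Module.finrank_pos_iff_exists_ne_zero.1 hV
  have h1 : ∃ w, B x w ≠ 0 := by
    by_contra h
    push Not at h
    exact hx (hN x h)
  obtain ⟨w, hw⟩ := h1
  obtain ⟨y, hy⟩ : ∃ y, B x y = 1 :=
    ⟨(B x w)⁻¹ • w, by rw [map_smul, smul_eq_mul, inv_mul_cancel₀ hw]⟩
  have hyx : B y x = -1 := by rw [FqA_skew B hA, hy]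
  let φ : V →ₗ[F] F × F := (B x).prod (B y)
  have hφ : ∀ v, v ∈ LinearMap.ker φ ↔ B x v = 0 ∧ B y v = 0 := fun v => by
    simp [φ]
  let p : V →ₗ[F] V := LinearMap.id - (B x).smulRight y + (B y).smulRight x
  have hp : ∀ v, p v = v - B x v • y + B y v • x := fun v => rfl
  have hpm : ∀ v, p v ∈ LinearMap.ker φ := fun v => by
    rw [hφ, hp]
    simp [hy, hyx, hA]
  have hdec : ∀ v, v = p v + B x v • y - B y v • x := fun v => by
    rw [hp]
    abel
  refine ⟨x, y, LinearMap.ker φ, p.codRestrict _ hpm, hy, fun u => (hφ _).1 u.2, ?_, ?_, hdec⟩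
  · have h2 : LinearMap.range φ = ⊤ := by
      rw [LinearMap.range_eq_top]
      rintro ⟨a, b⟩
      exact ⟨a • y - b • x, by simp [φ, hy, hyx, hA]⟩
    have h3 := φ.finrank_range_add_finrank_ker
    rw [h2, finrank_top, Module.finrank_prod, Module.finrank_self] at h3
    omega
  · intro u hu
    refine Subtype.ext (hN _ fun v => ?_)
    obtain ⟨h4, h5⟩ := (hφ _).1 u.2
    have h6 := hu ⟨p v, hpm v⟩
    rw [hdec v]
    simp only [map_add, map_sub, map_smul, smul_eq_mul]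
    rw [h6, FqA_skew B hA u y, FqA_skew B hA u x, h4, h5]
    simp

theorem FqA_iso (m : ℕ) : ∀ (V W : Type u) [AddCommGroup V] [Module F V] [FiniteDimensional F V]
    [AddCommGroup W] [Module F W] [FiniteDimensional F W] (B : V →ₗ[F] V →ₗ[F] F)
    (C : W →ₗ[F] W →ₗ[F] F), Module.finrank F V = m → Module.finrank F W = m →
    (∀ v, B v v = 0) → (∀ v, (∀ w, B v w = 0) → v = 0) → (∀ v, C v v = 0) →
    (∀ v, (∀ w, C v w = 0) → v = 0) → ∃ e : V →ₗ[F] W, ∀ v w, C (e v) (e w) = B v w := by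
  induction m using Nat.strong_induction_on with
  | _ m ih =>
  intro V W _ _ _ _ _ _ B C hV hW hA hN hA' hN'
  rcases Nat.eq_zero_or_pos m with rfl | hm
  · have := Module.finrank_zero_iff.1 hV
    exact ⟨0, fun v w => by rw [Subsingleton.elim v 0]; simp⟩
  obtain ⟨x, y, U, π, h1, h2, h3, h4, h5⟩ := FqA_split B hA hN (hV ▸ hm)
  obtain ⟨x', y', U', π', h1', h2', h3', h4', -⟩ := FqA_split C hA' hN' (hW ▸ hm)
  obtain ⟨e, he⟩ := ih (Module.finrank F U) (by omega) U U' (B.compl₁₂ U.subtype U.subtype)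
    (C.compl₁₂ U'.subtype U'.subtype) rfl (by omega) (fun v => hA v) h4 (fun v => hA' v) h4'
  refine ⟨U'.subtype ∘ₗ e ∘ₗ π + (B x).smulRight y' - (B y).smulRight x', fun v w => ?_⟩
  have key : ∀ {Z : Type u} [AddCommGroup Z] [Module F Z] (D : Z →ₗ[F] Z →ₗ[F] F),
      (∀ z, D z z = 0) → ∀ (s t u u' : Z) (a b c d : F), D s t = 1 → D s u = 0 → D t u = 0 →
      D s u' = 0 → D t u' = 0 →
      D (u + a • t - b • s) (u' + c • t - d • s) = D u u' + a * d - b * c := by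
    intro Z _ _ D hD s t u u' a b c d e1 e2 e3 e4 e5
    simp only [map_add, map_sub, map_smul, smul_eq_mul, LinearMap.add_apply, LinearMap.sub_apply,
      LinearMap.smul_apply, hD]
    rw [FqA_skew D hD u t, FqA_skew D hD u s, FqA_skew D hD t s, e1, e2, e3, e4, e5]
    ring
  have e1 := key B hA x y (π v) (π w) (B x v) (B y v) (B x w) (B y w) h1 (h2 _).1 (h2 _).2
    (h2 _).1 (h2 _).2
  rw [← h5 v, ← h5 w] at e1
  have e2 := key C hA' x' y' (e (π v)) (e (π w)) (B x v) (B y v) (B x w) (B y w) h1' (h2' _).1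
    (h2' _).2 (h2' _).1 (h2' _).2
  have e3 : C (e (π v)) (e (π w)) = B (π v) (π w) := he _ _
  rw [e3, ← e1] at e2
  exact e2

theorem FqA_alt (two : (2 : F) ≠ 0) (h : Mᵀ = -M) (v : Fin n → F) : toBilin' M v v = 0 := by
  have h1 : v ⬝ᵥ M *ᵥ v = -(v ⬝ᵥ M *ᵥ v) := by
    conv_lhs => rw [dotProduct_mulVec, ← mulVec_transpose, h, neg_mulVec, dotProduct_comm,
      dotProduct_neg]
  rw [toBilin'_apply']
  exact (mul_eq_zero.1 (by linear_combination h1 : 2 * (v ⬝ᵥ M *ᵥ v) = 0)).resolve_left two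

theorem FqA_nd (hM : IsUnit M) (v : Fin n → F) (hv : ∀ w, toBilin' M v w = 0) : v = 0 := by
  obtain ⟨N, hN⟩ := hM.exists_right_inv
  funext i
  have h1 := hv (N *ᵥ Pi.single i 1)
  rw [toBilin'_apply', mulVec_mulVec, hN, one_mulVec, dotProduct_single, mul_one] at h1
  exact h1

/-- Any two nondegenerate alternating forms of the same rank are congruent. -/
theorem alt_congr (two : (2 : F) ≠ 0) (hM : IsUnit M) (h : Mᵀ = -M) (hM' : IsUnit M')
    (h' : M'ᵀ = -M') : ∃ γ : Matrix (Fin n) (Fin n) F, γᵀ * M * γ = M' := by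
  obtain ⟨e, he⟩ := FqA_iso (F := F) _ (Fin n → F) (Fin n → F) (toBilin' M') (toBilin' M) rfl rfl
    (FqA_alt two h') (FqA_nd hM') (FqA_alt two h) (FqA_nd hM)
  refine ⟨LinearMap.toMatrix' e, toBilin'.injective ?_⟩
  rw [← toBilin'_comp, toLin'_toMatrix']
  exact LinearMap.ext₂ he

/-- Symplectic matrices have determinant one. -/
theorem det_eq_one_of_alt (two : (2 : F) ≠ 0) (hM : IsUnit M) (h : Mᵀ = -M)
    (hg : gᵀ * M * g = M) : g.det = 1 := by
  have hd : M.det ≠ 0 := ((isUnit_iff_isUnit_det M).1 hM).ne_zero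
  have ev : Even n := by
    by_contra ho
    have h1 := congrArg det h
    rw [det_transpose, det_neg, Fintype.card_fin, (Nat.not_even_iff_odd.1 ho).neg_one_pow] at h1
    exact hd ((mul_eq_zero.1 (by linear_combination h1 : 2 * M.det = 0)).resolve_left two)
  obtain ⟨m, rfl⟩ := ev
  let σ : Fin (m + m) ≃ Fin m ⊕ Fin m := finSumFinEquiv.symm
  have hJ : IsUnit ((J (Fin m) F).submatrix σ σ) := by
    rw [isUnit_iff_isUnit_det, det_submatrix_equiv_self]
    exact isUnit_det_J _ _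
  have hJ' : ((J (Fin m) F).submatrix σ σ)ᵀ = -(J (Fin m) F).submatrix σ σ := by
    rw [transpose_submatrix, J_transpose]
    rfl
  obtain ⟨γ, hγ⟩ := alt_congr two hJ hJ' hM h
  have hγu : IsUnit γ.det := by
    have h1 := congrArg det hγ
    rw [det_mul] at h1
    exact isUnit_iff_ne_zero.2 fun h0 => hd (by rw [← h1, h0, mul_zero])
  have h2 : (γ * g * γ⁻¹)ᵀ * (J (Fin m) F).submatrix σ σ * (γ * g * γ⁻¹) =
      (J (Fin m) F).submatrix σ σ := by
    calc (γ * g * γ⁻¹)ᵀ * (J (Fin m) F).submatrix σ σ * (γ * g * γ⁻¹)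
        = γ⁻¹ᵀ * (gᵀ * (γᵀ * (J (Fin m) F).submatrix σ σ * γ) * g) * γ⁻¹ := by
          simp only [transpose_mul, Matrix.mul_assoc]
      _ = (γ * γ⁻¹)ᵀ * (J (Fin m) F).submatrix σ σ * (γ * γ⁻¹) := by
          rw [hγ, hg, ← hγ]
          simp only [transpose_mul, Matrix.mul_assoc]
      _ = _ := by rw [mul_nonsing_inv _ hγu, transpose_one, Matrix.one_mul, Matrix.mul_one]
  have h3 : (γ * g * γ⁻¹).submatrix σ.symm σ.symm ∈ symplecticGroup (Fin m) F := by
    rw [SymplecticGroup.mem_iff']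
    generalize γ * g * γ⁻¹ = A at h2 ⊢
    have h4 := congrArg (fun X => X.submatrix σ.symm σ.symm) h2
    simp only [← submatrix_mul_equiv _ _ _ σ.symm, submatrix_submatrix, Equiv.self_comp_symm,
      submatrix_id_id] at h4
    rw [transpose_submatrix]
    exact h4
  have h5 := SymplecticGroup.det_eq_one h3
  rwa [det_submatrix_equiv_self, det_conj ((isUnit_iff_isUnit_det γ).2 hγu)] at h5

theorem IsU.su_of_alt (two : (2 : F) ≠ 0) (ev : Even n) (hg : IsU true g) : SU true g := by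
  refine ⟨hg, det_eq_one_of_alt two (IsUnit.of_mul_eq_one _ jM_mul_transpose) ?_ hg⟩
  rw [jM_transpose fun _ => ev]
  simp [eps]

end Pool.Agent.MP_0c8446_ag

end

section

namespace Pool.Agent.MP_0c8446_ag

open MvPolynomial Set Matrix

universe u v w

variable {Ω : Type u} [Field Ω] {q : ℕ} [PQ Ω q] {n : ℕ} {alt : Bool}
  {M M' g : Matrix (Fin n) (Fin n) Ω}

section aux

variable {F : Type u} [Field F] (φ : F →+* Ω) {X : Matrix (Fin n) (Fin n) F}

lemma Rat_det (X : Matrix (Fin n) (Fin n) F) : (X.map φ).det = φ X.det :=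
  (φ.map_det X).symm

lemma Rat_unit (h : IsUnit (X.map φ)) : IsUnit X := by
  rw [Matrix.isUnit_iff_isUnit_det, isUnit_iff_ne_zero] at h ⊢
  intro h0
  exact h (by rw [Rat_det, h0, map_zero])

include φ in
lemma Rat_two (two : (2 : Ω) ≠ 0) : (2 : F) ≠ 0 := fun h => two (by
  rw [← map_ofNat φ 2, h, map_zero])

lemma Rat_eps : φ (eps F alt) = eps Ω alt := by
  cases alt <;> simp [eps]

lemma Rat_sym (h : (X.map φ)ᵀ = eps Ω alt • X.map φ) : Xᵀ = eps F alt • X := by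
  ext a b
  apply φ.injective
  have := congrFun (congrFun h a) b
  simp only [transpose_apply, map_apply, Matrix.smul_apply, smul_eq_mul] at this ⊢
  rw [this, map_mul, Rat_eps]

lemma Rat_map (γ X : Matrix (Fin n) (Fin n) F) :
    (γ.map φ)ᵀ * X.map φ * γ.map φ = (γᵀ * X * γ).map φ := by
  rw [Matrix.map_mul, Matrix.map_mul, transpose_map]

end aux

lemma Rat_fix (γ : Matrix (Fin n) (Fin n) (Fq Ω q)) :
    (γ.map (Fq Ω q).subtype).map (· ^ q) = γ.map (Fq Ω q).subtype := by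
  ext a b
  exact mem_Fq.1 (γ a b).2

theorem finite_Fq (Ω : Type u) [Field Ω] (q : ℕ) [PQ Ω q] : Finite (Fq Ω q) := by
  have h1 : {x : Ω | (Polynomial.X ^ q - Polynomial.X : Polynomial Ω).IsRoot x}.Finite :=
    Polynomial.finite_setOfPred_isRoot
      (FiniteField.X_pow_card_sub_X_ne_zero Ω (IsQ.one_lt (k := Ω)))
  refine (h1.subset fun x hx => ?_ : Set.Finite (Fq Ω q : Set Ω)).to_subtype
  simp [Polynomial.IsRoot, mem_Fq.1 hx]

theorem exists_desc (h : g.map (· ^ q) = g) :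
    ∃ g₀ : Matrix (Fin n) (Fin n) (Fq Ω q), g₀.map (Fq Ω q).subtype = g :=
  ⟨Matrix.of fun a b => ⟨g a b, mem_Fq.2 (congrFun (congrFun h a) b)⟩, rfl⟩

theorem rat_congr (two : (2 : Ω) ≠ 0) (hM : IsUnit M) (h : Mᵀ = eps Ω alt • M)
    (hq : M.map (· ^ q) = M) (hM' : IsUnit M') (h' : M'ᵀ = eps Ω alt • M')
    (hq' : M'.map (· ^ q) = M') {d : Ω} (hd : d ^ q = d) (e : M'.det = d ^ 2 * M.det) :
    ∃ γ : Matrix (Fin n) (Fin n) Ω, γ.map (· ^ q) = γ ∧ γᵀ * M * γ = M' := by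
  obtain ⟨M, rfl⟩ := exists_desc hq
  obtain ⟨M', rfl⟩ := exists_desc hq'
  have := finite_Fq Ω q
  have h1 := Rat_sym _ h
  have h2 := Rat_sym _ h'
  have : ∃ γ : Matrix (Fin n) (Fin n) (Fq Ω q), γᵀ * M * γ = M' := by
    cases alt
    · refine sym_congr (d := ⟨d, mem_Fq.2 hd⟩) (Rat_two (Fq Ω q).subtype two) (Rat_unit _ hM)
        (by simpa [eps] using h1) (Rat_unit _ hM') (by simpa [eps] using h2) ?_
      apply (Fq Ω q).subtype.injective
      rw [Rat_det, Rat_det] at e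
      rw [e, map_mul, map_pow]
      rfl
    · exact alt_congr (Rat_two (Fq Ω q).subtype two) (Rat_unit _ hM)
        (by simpa [eps] using h1) (Rat_unit _ hM') (by simpa [eps] using h2)
  obtain ⟨γ, hγ⟩ := this
  exact ⟨_, Rat_fix γ, by rw [Rat_map, hγ]⟩

theorem rat_refl (two : (2 : Ω) ≠ 0) (hn : 0 < n) (h : Mᵀ = M) (hq : M.map (· ^ q) = M) :
    ∃ ρ : Matrix (Fin n) (Fin n) Ω, ρ.map (· ^ q) = ρ ∧ ρᵀ * M * ρ = M ∧ ρ.det = -1 := by
  obtain ⟨M, rfl⟩ := exists_desc hq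
  have h1 : Mᵀ = M := Matrix.map_injective (Fq Ω q).subtype.injective h
  obtain ⟨ρ, h2, h3⟩ := exists_refl (Rat_two (Fq Ω q).subtype two) hn h1
  exact ⟨_, Rat_fix ρ, by rw [Rat_map, h2], by rw [Rat_det, h3, map_neg, map_one]⟩

theorem rat_mvw (two : (2 : Ω) ≠ 0) (hM : IsUnit M) (h : Mᵀ = eps Ω alt • M)
    (hq : M.map (· ^ q) = M) (hg : gᵀ * M * g = M) (hgq : g.map (· ^ q) = g) :
    ∃ η : Matrix (Fin n) (Fin n) Ω, η.map (· ^ q) = η ∧ ηᵀ * M * η = Mᵀ ∧ g * η * g = η := by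
  obtain ⟨M, rfl⟩ := exists_desc hq
  obtain ⟨g, rfl⟩ := exists_desc hgq
  rw [Rat_map] at hg
  obtain ⟨η, h2, h3⟩ := exists_mvw (ε := eps (Fq Ω q) alt) (Rat_two (Fq Ω q).subtype two)
    (by cases alt <;> simp [eps]) (Rat_unit _ hM) (Rat_sym _ h)
    (Matrix.map_injective (Fq Ω q).subtype.injective hg)
  exact ⟨_, Rat_fix η, by rw [Rat_map, h2, transpose_map],
    by rw [← Matrix.map_mul, ← Matrix.map_mul, h3]⟩

/-- A change of coordinates that turns the twisted Frobenius map into the standard one. -/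
theorem exists_twist [IsAlgClosed Ω] {t : Bool} (ht : alt = true → t = false) :
    ∃ A : Matrix (Fin n) (Fin n) Ω, IsUnit A ∧ A.map (· ^ q) = A.submatrix (sw n t) id ∧
      (Aᵀ * jM Ω alt n * A).map (· ^ q) = Aᵀ * jM Ω alt n * A ∧
      ∀ g, (A⁻¹ * g * A).map (· ^ q) = A⁻¹ * frC t q g * A := by
  obtain ⟨P, hP⟩ : ∃ P : Matrix (Fin n) (Fin n) Ω,
      P = (1 : Matrix (Fin n) (Fin n) Ω).submatrix (sw n t) id := ⟨_, rfl⟩
  have hL : ∀ X : Matrix (Fin n) (Fin n) Ω, P * X = X.submatrix (sw n t) id := fun X => by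
    ext a b
    simp [hP, Matrix.mul_apply, Matrix.one_apply]
  have hT : Pᵀ = P := by
    ext a b
    have : sw n t b = a ↔ sw n t a = b := ⟨fun h => by rw [← h, sw_sw], fun h => by rw [← h, sw_sw]⟩
    simp [hP, Matrix.one_apply, this]
  have hR : ∀ X : Matrix (Fin n) (Fin n) Ω, X * P = X.submatrix id (sw n t) := fun X => by
    rw [← transpose_transpose (X * P), transpose_mul, hT, hL]
    rfl
  have hC : ∀ X : Matrix (Fin n) (Fin n) Ω, P * X * P = X.submatrix (sw n t) (sw n t) :=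
    fun X => by rw [hL, hR]; rfl
  have hPP : P * P = 1 := by
    have := hC 1
    rw [mul_one] at this
    exact this.trans (submatrix_one_equiv (swP n t))
  obtain ⟨a, ha, -, h1⟩ := exists_lang (uni := false) (q := q) isUnit_one (map_one _)
    (IsUnit.of_mul_eq_one P hPP) (by rw [mul_one, one_mul])
  have hA : IsUnit aᵀ := (Matrix.isUnit_transpose a).2 ha
  have h2 : aᵀ.map (frobHom Ω q) = P * aᵀ := by
    rw [transpose_map, show a.map (frobHom Ω q) = a * P from h1, transpose_mul, hT]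
  generalize aᵀ = A at hA h2
  refine ⟨A, hA, h2.trans (hL A), ?_, fun g => ?_⟩
  · change (Aᵀ * jM Ω alt n * A).map (frobHom Ω q) = _
    rw [← Rat_map, h2, jM_map, transpose_mul, hT]
    calc Aᵀ * P * jM Ω alt n * (P * A) = Aᵀ * (P * jM Ω alt n * P) * A := by
          simp only [mul_assoc]
      _ = _ := by rw [hC, jM_sw ht]
  · change (A⁻¹ * g * A).map (frobHom Ω q) = _
    rw [Matrix.map_mul, Matrix.map_mul, ← map_inv_of_isUnit _ hA, h2, Matrix.mul_inv_rev,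
      Matrix.inv_eq_left_inv hPP]
    calc A⁻¹ * P * g.map (frobHom Ω q) * (P * A) = A⁻¹ * (P * g.map (frobHom Ω q) * P) * A := by
          simp only [mul_assoc]
      _ = _ := by rw [hC]; rfl

end Pool.Agent.MP_0c8446_ag

end

section

namespace Pool.Agent.MP_0c8446_ag

open MvPolynomial Set Matrix

universe u v w

section aux

variable {Ω : Type u} [Field Ω] {n q : ℕ} {alt t : Bool}

/-- The permutation matrix of the graph automorphism. -/
def CLang_P (Ω : Type u) [Field Ω] (n : ℕ) (t : Bool) : Matrix (Fin n) (Fin n) Ω :=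
  (1 : Matrix (Fin n) (Fin n) Ω).submatrix (sw n t) id

lemma CLang_P_mul (x : Matrix (Fin n) (Fin n) Ω) :
    CLang_P Ω n t * x = x.submatrix (sw n t) id := by
  ext a b
  simp [CLang_P, Matrix.mul_apply, Matrix.one_apply]

lemma CLang_P_symm : (CLang_P Ω n t)ᵀ = CLang_P Ω n t := by
  ext a b
  have : sw n t b = a ↔ sw n t a = b :=
    ⟨fun h => by rw [← h, sw_sw], fun h => by rw [← h, sw_sw]⟩
  simp [CLang_P, Matrix.one_apply, this]

lemma CLang_mul_P (x : Matrix (Fin n) (Fin n) Ω) :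
    x * CLang_P Ω n t = x.submatrix id (sw n t) := by
  have h := congrArg transpose (CLang_P_mul (t := t) xᵀ)
  rw [transpose_mul, CLang_P_symm, transpose_transpose] at h
  exact h

lemma CLang_P_sq : CLang_P Ω n t * CLang_P Ω n t = 1 := by
  rw [CLang_P_mul]
  ext a b
  change (1 : Matrix (Fin n) (Fin n) Ω) (sw n t (sw n t a)) b = _
  rw [sw_sw]

lemma CLang_conj (x : Matrix (Fin n) (Fin n) Ω) :
    CLang_P Ω n t * x * CLang_P Ω n t = x.submatrix (sw n t) (sw n t) := by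
  rw [CLang_P_mul, CLang_mul_P]
  rfl

lemma CLang_P_isU (ht : alt = true → t = false) : IsU alt (CLang_P Ω n t) := by
  rw [IsU, CLang_P_symm, CLang_conj, jM_sw ht]

lemma CLang_frC (g : Matrix (Fin n) (Fin n) Ω) :
    frC t q g = CLang_P Ω n t * g.map (· ^ q) * CLang_P Ω n t := (CLang_conj _).symm

lemma CLang_map_mul [PQ Ω q] (x y : Matrix (Fin n) (Fin n) Ω) :
    (x * y).map (· ^ q) = x.map (· ^ q) * y.map (· ^ q) :=
  Matrix.map_mul (f := frobHom Ω q)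

lemma CLang_map_one [PQ Ω q] : (1 : Matrix (Fin n) (Fin n) Ω).map (· ^ q) = 1 :=
  Matrix.map_one (frobHom Ω q) (map_zero _) (map_one _)

lemma CLang_map_jM [PQ Ω q] : (jM Ω alt n).map (· ^ q) = jM Ω alt n := jM_map (frobHom Ω q)

lemma CLang_det [PQ Ω q] (x : Matrix (Fin n) (Fin n) Ω) : (x.map (· ^ q)).det = x.det ^ q :=
  ((frobHom Ω q).map_det x).symm

lemma CLang_gram (ev : Ev alt n) (x : Matrix (Fin n) (Fin n) Ω) :
    (xᵀ * jM Ω alt n * x)ᵀ = eps Ω alt • (xᵀ * jM Ω alt n * x) := by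
  rw [transpose_mul, transpose_mul, transpose_transpose, jM_transpose ev, smul_mul_assoc,
    mul_smul_comm, mul_assoc]

lemma CLang_unit {x : Matrix (Fin n) (Fin n) Ω} (hx : IsUnit x) : IsUnit (xᵀ * jM Ω alt n * x) :=
  (((Matrix.isUnit_transpose x).2 hx).mul (IsUnit.of_mul_eq_one _ jM_mul_transpose)).mul hx

lemma CLang_isU {A γ b c : Matrix (Fin n) (Fin n) Ω} (hcb : c * b = 1)
    (h : γᵀ * (Aᵀ * jM Ω alt n * A) * γ = cᵀ * jM Ω alt n * c) : IsU alt (A * γ * b) := by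
  unfold IsU
  calc (A * γ * b)ᵀ * jM Ω alt n * (A * γ * b)
      = bᵀ * (γᵀ * (Aᵀ * jM Ω alt n * A) * γ) * b := by simp only [transpose_mul, mul_assoc]
    _ = (c * b)ᵀ * jM Ω alt n * (c * b) := by rw [h]; simp only [transpose_mul, mul_assoc]
    _ = _ := by rw [hcb, transpose_one, one_mul, mul_one]

/-- Lang's theorem up to the determinant. -/
lemma CLang_main [IsAlgClosed Ω] [PQ Ω q] (two : (2 : Ω) ≠ 0) (ev : Ev alt n)
    (ht : alt = true → t = false) {m : Matrix (Fin n) (Fin n) Ω} (hm : SU alt m) :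
    ∃ a, IsU alt a ∧ frC t q a = a * m := by
  obtain ⟨A, hA, hA1, hA2, -⟩ := exists_twist (Ω := Ω) (q := q) (n := n) ht
  have hu : IsU alt (m * CLang_P Ω n t) := hm.1.mul (CLang_P_isU ht)
  obtain ⟨b, hb, -, hb1⟩ := exists_lang (uni := false) (q := q) isUnit_one (map_one _) hu.isUnit
    (by rw [mul_one, one_mul])
  have hb2 : b.map (· ^ q) = b * (m * CLang_P Ω n t) := hb1
  obtain ⟨c, hbc⟩ := hb.exists_right_inv
  have hcb : c * b = 1 := mul_eq_one_comm.1 hbc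
  have hc : IsUnit c := IsUnit.of_mul_eq_one _ hcb
  have hc1 : c.map (· ^ q) = adj alt (m * CLang_P Ω n t) * c := by
    have e : b.map (· ^ q) * c.map (· ^ q) = 1 := by rw [← CLang_map_mul, hbc, CLang_map_one]
    rw [hb2] at e
    calc c.map (· ^ q) = adj alt (m * CLang_P Ω n t) * (c * b) * (m * CLang_P Ω n t) *
          c.map (· ^ q) := by rw [hcb, mul_one, hu.adj_mul, one_mul]
      _ = adj alt (m * CLang_P Ω n t) * c * (b * (m * CLang_P Ω n t) * c.map (· ^ q)) := by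
          simp only [mul_assoc]
      _ = _ := by rw [e, mul_one]
  have hc2 : (cᵀ * jM Ω alt n * c).map (· ^ q) = cᵀ * jM Ω alt n * c := by
    rw [CLang_map_mul, CLang_map_mul, CLang_map_jM, transpose_map, hc1]
    conv_rhs => rw [← hu.adj]
    simp only [transpose_mul, mul_assoc]
  have hA0 : A.det ≠ 0 := ((Matrix.isUnit_iff_isUnit_det A).1 hA).ne_zero
  have hP0 : (CLang_P Ω n t).det ≠ 0 :=
    ((Matrix.isUnit_iff_isUnit_det _).1 (CLang_P_isU ht).isUnit).ne_zero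
  have hd : (c.det / A.det) ^ q = c.det / A.det := by
    rw [div_pow, ← CLang_det, ← CLang_det, hc1, hA1, ← CLang_P_mul, det_mul, det_adj, det_mul,
      hm.2, one_mul, det_mul, mul_div_mul_left _ _ hP0]
  obtain ⟨γ, hγ, hγ'⟩ := rat_congr (q := q) two (CLang_unit hA) (CLang_gram ev A) hA2
    (CLang_unit hc) (CLang_gram ev c) hc2 hd (by
      simp only [det_mul, det_transpose]
      field_simp)
  refine ⟨A * γ * b, CLang_isU hcb hγ', ?_⟩
  rw [CLang_frC, CLang_map_mul, CLang_map_mul, hγ, hb2, hA1, ← CLang_P_mul]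
  calc CLang_P Ω n t * (CLang_P Ω n t * A * γ * (b * (m * CLang_P Ω n t))) * CLang_P Ω n t
      = CLang_P Ω n t * CLang_P Ω n t * (A * γ * b * m) * (CLang_P Ω n t * CLang_P Ω n t) := by
        simp only [mul_assoc]
    _ = _ := by rw [CLang_P_sq, one_mul, mul_one]

end aux

variable {k : Type u} [Field k] {n : ℕ} (C : CD k n) {Ω : Type u} [Field Ω] [Algebra k Ω]

theorem CD.two' (C : CD k n) (Ω : Type u) [Field Ω] [Algebra k Ω] : (2 : Ω) ≠ 0 := by
  have h := (map_ne_zero (algebraMap k Ω)).2 C.two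
  rwa [map_ofNat] at h

theorem frC_frC {R : Type u} [CommRing R] (t : Bool) (q : ℕ) (g : Matrix (Fin n) (Fin n) R) :
    frC t q (frC t q g) = g.map (· ^ q ^ 2) := by
  ext a b
  simp only [frC, submatrix_apply, map_apply, sw_sw, ← pow_mul, sq]

lemma CLang_root {R : Type u} [CommRing R] {t : Bool} {q : ℕ} {g : Matrix (Fin n) (Fin n) R}
    (h : frC t q g = g) (a b : Fin n) : g a b ^ q ^ 2 = g a b := by
  have h1 := frC_frC t q g
  rw [h, h] at h1
  exact (congrFun (congrFun h1 a) b).symm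

theorem CD.finite_Γ : Finite C.Γ := by
  have h1 : {x : k | (Polynomial.X ^ C.q ^ 2 - Polynomial.X : Polynomial k).IsRoot x}.Finite :=
    Polynomial.finite_setOfPred_isRoot (FixG_ne k C.q)
  have := h1.to_subtype
  refine Finite.of_injective (fun (g : C.Γ) (a b : Fin n) =>
    (⟨g.1.1 a b, by
      simp [Polynomial.IsRoot, CLang_root (C.mem_Γ.1 g.2).2]⟩ :
      {x : k | (Polynomial.X ^ C.q ^ 2 - Polynomial.X : Polynomial k).IsRoot x})) fun g g' h => ?_
  refine Subtype.ext (Units.ext (Matrix.ext fun a b => ?_))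
  exact congrArg Subtype.val (congrFun (congrFun h a) b)

/-- The finite group does not depend on the algebraically closed field. -/
theorem CD.exists_Γ [IsAlgClosed k] {g : Matrix (Fin n) (Fin n) Ω} (hg : SU C.alt g)
    (h : frC C.t C.q g = g) : ∃ γ : C.Γ, γ.1.1.map (algebraMap k Ω) = g := by
  have h1 : ∀ a b, ∃ x, algebraMap k Ω x = g a b := fun a b =>
    (IsAlgClosed.splits _).mem_range_of_isRoot (FixG_ne k C.q) (i := algebraMap k Ω) (by
      simp [Polynomial.IsRoot, CLang_root h])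
  choose g₀ hg₀ using h1
  have h2 : (Matrix.of g₀).map (algebraMap k Ω) = g := Matrix.ext hg₀
  have hi := (algebraMap k Ω).injective
  have h3 : IsU C.alt (Matrix.of g₀) := isU_iff.2 (Matrix.map_injective hi (by
    change (adj C.alt (Matrix.of g₀) * Matrix.of g₀).map (algebraMap k Ω) =
      (1 : Matrix (Fin n) (Fin n) k).map (algebraMap k Ω)
    rw [Matrix.map_mul, adj_map, h2, hg.1.adj_mul, Matrix.map_one _ (map_zero _) (map_one _)]))
  have h4 : (Matrix.of g₀).det = 1 := hi (by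
    rw [RingHom.map_det, RingHom.mapMatrix_apply, h2, hg.2, map_one])
  refine ⟨⟨h3.isUnit.unit, C.mem_Γ.2 ⟨⟨h3, h4⟩, Matrix.map_injective hi ?_⟩⟩, h2⟩
  change (frC C.t C.q (Matrix.of g₀)).map (algebraMap k Ω) = (Matrix.of g₀).map _
  rw [MP_0c8446_ag.frC_map, h2, h]

/-- The Lang map is finite. -/
theorem CD.mem_of_lang {Ω' : Type u} [Field Ω'] [Algebra k Ω'] (Pl : Place k Ω Ω')
    {a m : Matrix (Fin n) (Fin n) Ω} (h : frC C.t C.q a = a * m) (hm : ∀ c d, m c d ∈ Pl.O) :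
    ∀ c d, a c d ∈ Pl.O := by
  have := PQ.ext k C.q Ω
  have hQ : IsQ Ω (C.q ^ 2) := isQ_pow Ω C.q two_pos
  have e : a.map (· ^ C.q ^ 2) = a * (m * frC C.t C.q m) := by
    rw [← frC_frC C.t, h, frC_mul, h, mul_assoc]
  refine Pl.mem_of_pow_eq hQ.one_lt e fun c d => ?_
  rw [Matrix.mul_apply]
  exact Pl.O.sum_mem fun i _ => Pl.O.mul_mem (hm _ _) (Pl.O.pow_mem (hm _ _) _)

theorem CD.exists_refl (C : CD k n) (Ω : Type u) [Field Ω] [Algebra k Ω] [IsAlgClosed Ω]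
    (h : C.alt = false) :
    ∃ ρ : Matrix (Fin n) (Fin n) Ω, IsU C.alt ρ ∧ ρ.det = -1 ∧ frC C.t C.q ρ = ρ := by
  have := PQ.ext k C.q Ω
  obtain ⟨A, hA, -, hA2, hA3⟩ := exists_twist (Ω := Ω) (q := C.q) (n := n) C.ht
  have hs := CLang_gram C.ev A
  have he : eps Ω C.alt = 1 := by simp [eps, h]
  rw [he, one_smul] at hs
  obtain ⟨ρ, h1, h2, h3⟩ := rat_refl (q := C.q) (C.two' Ω) C.pos hs hA2
  have hd := (Matrix.isUnit_iff_isUnit_det A).1 hA
  have hl : A⁻¹ * A = 1 := Matrix.nonsing_inv_mul A hd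
  have hr : A * A⁻¹ = 1 := Matrix.mul_nonsing_inv A hd
  refine ⟨A * ρ * A⁻¹, CLang_isU hr h2, ?_, ?_⟩
  · rw [det_mul, det_mul, mul_right_comm, ← det_mul, hr, det_one, one_mul, h3]
  · have h4 := hA3 (A * ρ * A⁻¹)
    have h5 : A⁻¹ * (A * ρ * A⁻¹) * A = ρ := by
      calc A⁻¹ * (A * ρ * A⁻¹) * A = A⁻¹ * A * ρ * (A⁻¹ * A) := by simp only [mul_assoc]
        _ = ρ := by rw [hl, one_mul, mul_one]
    rw [h5, h1] at h4
    calc frC C.t C.q (A * ρ * A⁻¹)
        = A * A⁻¹ * frC C.t C.q (A * ρ * A⁻¹) * (A * A⁻¹) := by rw [hr, one_mul, mul_one]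
      _ = A * (A⁻¹ * frC C.t C.q (A * ρ * A⁻¹) * A) * A⁻¹ := by simp only [mul_assoc]
      _ = _ := by rw [← h4]

/-- Lang's theorem. -/
theorem CD.exists_lang [IsAlgClosed Ω] {m : Matrix (Fin n) (Fin n) Ω} (hm : SU C.alt m) :
    ∃ a, SU C.alt a ∧ frC C.t C.q a = a * m := by
  have := PQ.ext k C.q Ω
  obtain ⟨a, ha, h⟩ := CLang_main (q := C.q) (C.two' Ω) C.ev C.ht hm
  rcases mul_self_eq_one_iff.1 ha.det_sq with h1 | h1
  · exact ⟨a, ⟨ha, h1⟩, h⟩
  · cases hC : C.alt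
    · obtain ⟨ρ, h2, h3, h4⟩ := C.exists_refl Ω hC
      rw [← hC]
      exact ⟨ρ * a, ⟨h2.mul ha, by rw [det_mul, h3, h1]; simp⟩, by
        rw [frC_mul, h4, h, mul_assoc]⟩
    · rw [hC] at ha
      exact ⟨a, ha.su_of_alt (C.two' Ω) (C.ev hC), h⟩

end Pool.Agent.MP_0c8446_ag

end

section

namespace Pool.Agent.MP_0c8446_ag

open MvPolynomial Set Matrix

universe u v w

variable {k : Type u} [Field k] {Ω : Type u} [Field Ω] [Algebra k Ω] {n r : ℕ} {C : CD k n}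
  {w : Fin r → ℕ × Bool} {g g' : Fin (r + 1) → Matrix (Fin n) (Fin n) Ω}
  {N : Fin n → ℕ} (c : ∀ a : Fin n, Fin (N a + 1) ≃ (Fin (a + 1) → Fin n))

lemma CFrA_nxC_mul (C : CD k n) (g m : Fin (r + 1) → Matrix (Fin n) (Fin n) Ω) (j : Fin (r + 1)) :
    nxC C.t C.q (fun j => g j * m j) j = nxC C.t C.q g j * nxC C.t C.q m j := by
  have := PQ.ext k C.q Ω
  refine Fin.lastCases ?_ (fun j => ?_) j
  · rw [nxC_last, nxC_last, nxC_last, frC_mul]
  · rw [nxC_castSucc, nxC_castSucc, nxC_castSucc]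

lemma CFrA_nxC_red {Ω' : Type u} [Field Ω'] [Algebra k Ω'] (Pl : Place k Ω Ω') {t : Bool} {q : ℕ}
    (hO : ∀ j a b, g j a b ∈ Pl.O) (j : Fin (r + 1)) : (∀ a b, nxC t q g j a b ∈ Pl.O) ∧
      (nxC t q g j).map Pl.red = nxC t q (fun j => (g j).map Pl.red) j := by
  refine Fin.lastCases ?_ (fun j => ?_) j
  · rw [nxC_last, nxC_last]
    exact ⟨fun a b => pow_mem (hO 0 _ _) q, Matrix.ext fun a b => Pl.red_pow (hO 0 _ _) q⟩
  · rw [nxC_castSucc, nxC_castSucc]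
    exact ⟨hO _, rfl⟩

lemma CFrA_ddC_red {Ω' : Type u} [Field Ω'] [Algebra k Ω'] (Pl : Place k Ω Ω') {alt t : Bool}
    {q : ℕ} (hO : ∀ j a b, g j a b ∈ Pl.O) (j : Fin (r + 1)) :
    (ddC alt t q g j).map Pl.red = ddC alt t q (fun j => (g j).map Pl.red) j := by
  rw [ddC, (Pl.map_red_mul (adj_mem Pl.O (hO j)) (CFrA_nxC_red Pl hO j).1).2, Pl.adj_red (hO j),
    (CFrA_nxC_red Pl hO j).2, ddC]

theorem CD.su_nxC (h : ∀ j, SU C.alt (g j)) (j : Fin (r + 1)) : SU C.alt (nxC C.t C.q g j) := by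
  have := PQ.ext k C.q Ω
  refine Fin.lastCases ?_ (fun j => ?_) j
  · rw [nxC_last]
    exact (h 0).frC C.ht
  · rw [nxC_castSucc]
    exact h _

theorem CD.su_ddC (h : ∀ j, SU C.alt (g j)) (j : Fin (r + 1)) :
    SU C.alt (ddC C.alt C.t C.q g j) := by
  exact (h j).adj.mul (CD.su_nxC h j)

/-- The transition matrices after a change of frames. -/
theorem CD.ddC_mul_right (C : CD k n) (g m : Fin (r + 1) → Matrix (Fin n) (Fin n) Ω)
    (j : Fin (r + 1)) : ddC C.alt C.t C.q (fun j => g j * m j) j =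
      adj C.alt (m j) * ddC C.alt C.t C.q g j * nxC C.t C.q m j := by
  rw [ddC, CFrA_nxC_mul, adj_mul, ddC]
  simp only [mul_assoc]

theorem CD.Ch.congr (hw : C.Ok w) (h : C.Ch w g) (hg' : ∀ j, SU C.alt (g' j))
    (e : ∀ j, Rl Fin.val (g j) (g' j)) : C.Ch w g' := by
  have := PQ.ext k C.q Ω
  have two := C.two' Ω
  have hw' : C.alt = true → ∀ j, (w j).2 = false := fun ha j => (hw j).1 ha
  have hm : ∀ j, SU C.alt (adj C.alt (g j) * g' j) := fun j => (h.1 j).adj.mul (hg' j)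
  have hb : ∀ j, (adj C.alt (g j) * g' j).BlockTriangular Fin.val := fun j => by
    rw [← (h.1 j).1.inv_eq]
    exact e j
  have e1 : g' = fun j => g j * (adj C.alt (g j) * g' j) := funext fun j => by
    rw [← mul_assoc, (h.1 j).1.mul_adj, one_mul]
  refine ⟨hg', fun j => ?_⟩
  rw [e1, C.ddC_mul_right]
  refine (((hm j).adj.1.bt_blC two hw' (symP_val.adj (hb j)) j).mul (h.2 j)).mul ?_
  refine Fin.lastCases ?_ (fun j => ?_) j
  · rw [nxC_last, blC_last]
    exact (hm 0).1.bt_frC two C.ht (hb 0)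
  · rw [nxC_castSucc]
    exact (hm _).1.bt_blC two hw' (hb _) _

theorem CD.Ch.mul (h : C.Ch w g) (γ : C.Γ) :
    C.Ch w fun j => γ.1.1.map (algebraMap k Ω) * g j := by
  refine ⟨fun j => (γ.2.1.map _).mul (h.1 j), fun j => ?_⟩
  rw [C.ddC_mul γ g j]
  exact h.2 j

theorem CD.Ch.red {Ω' : Type u} [Field Ω'] [Algebra k Ω'] (Pl : Place k Ω Ω') (h : C.Ch w g)
    (hO : ∀ j a b, g j a b ∈ Pl.O) : C.Ch w fun j => (g j).map Pl.red := by
  refine ⟨fun j => (h.1 j).red Pl (hO j), fun j a b hab => ?_⟩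
  rw [← CFrA_ddC_red Pl hO, Matrix.map_apply, h.2 j hab, Pl.red_zero]

theorem CD.fr_ch_iff {h : CS r n → Ω} :
    (C.fr fun j a b => blC n w j b < blC n w j a).Fr h ↔ C.Ch w (cM h) := by
  rw [C.fr_iff]
  exact and_congr_right fun _ => forall_congr' fun j => ⟨fun H a b => H a b, fun H a b hab => H hab⟩

theorem CD.mem_cdl {x : MP k fun i : Fin (r + 1) × Fin n => N i.2} :
    x ∈ cdl k C.alt C.t C.q w c ↔ ∃ g, C.Ch w g ∧ IsRep (plV c g) x := by
  refine exists_congr fun g => ⟨fun ⟨h1, h2, h3, h4⟩ => ⟨⟨h1, fun j => ?_⟩, h4⟩,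
    fun ⟨⟨h1, h2⟩, h4⟩ => ⟨h1, fun j => ?_, ?_, h4⟩⟩
  · have hi : ∀ j, (g j)⁻¹ = adj C.alt (g j) := fun j => IsU.inv_eq (h1 j).1
    refine Fin.lastCases ?_ (fun j => ?_) j
    · rw [blC_last, ddC, nxC_last, ← hi]
      exact h3
    · rw [blC_castSucc, ddC, nxC_castSucc, ← hi]
      exact h2 j
  · have := h2 j.castSucc
    rwa [blC_castSucc, ddC, nxC_castSucc, ← (h1 _).1.inv_eq] at this
  · have := h2 (Fin.last r)
    rwa [blC_last, ddC, nxC_last, ← (h1 _).1.inv_eq] at this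

theorem evs_plV_cM {R : Type u} [CommRing R] [Algebra k R] (h : CS r n → R) :
    evs h (plV c (cM (X : CS r n → MvPolynomial (CS r n) k))) = plV c (cM h) := by
  exact (plV_map c (aeval (R := k) h) _).trans (congrArg (plV c) (funext (cM_evs h)))

end Pool.Agent.MP_0c8446_ag

end

section

namespace Pool.Agent.MP_0c8446_ag

open MvPolynomial Set Matrix

universe u v w

variable {k : Type u} [Field k] {n r : ℕ} (C : CD k n) (w : Fin r → ℕ × Bool) {N : Fin n → ℕ}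
  (c : ∀ a : Fin n, Fin (N a + 1) ≃ (Fin (a + 1) → Fin n))

theorem CD.stab (γ : C.Γ) (x : cdl k C.alt C.t C.q w c) : ∃ y : cdl k C.alt C.t C.q w c,
    ∀ v, IsRep v x.1 →
      IsRep (blin (fun i : Fin (r + 1) × Fin n => plR k c i.2 (C.std γ)) v) y.1 := by
  obtain ⟨G, hG, hx⟩ := (CD.mem_cdl c).1 x.2
  have h1 := hG.mul γ
  have h2 := amb_isRep _ (GSt_ne (nzb_plV c fun j => (h1.1 j).1.isUnit))
  refine ⟨⟨_, (CD.mem_cdl c).2 ⟨_, h1, h2⟩⟩, fun v hv => ((hx.parOn hv).blin _).isRep ?_⟩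
  rw [← plV_mul]
  exact h2

/-- The Deligne-Lusztig variety with the action of the finite group. -/
noncomputable def CD.stage (h₁ : IsSub (cdl k C.alt C.t C.q w c))
    (h₂ : ∀ x ∈ cdl k C.alt C.t C.q w c, ∀ v, IsRep v x →
      Module.finrank k (tangent (cdl k C.alt C.t C.q w c) v) ≤
        dim (univ : Set (cdl k C.alt C.t C.q w c)) + Fintype.card (Fin (r + 1) × Fin n)) :
    Stage k C.Γ where
  P := ⟨_, _, cdl k C.alt C.t C.q w c, h₁, h₂⟩
  J := ∅
  ρ i := (plR k c i.2).comp C.std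
  triv _ h := h.elim
  stab := C.stab w c

variable {C w c} [IsAlgClosed k] {h₁ h₂} {Ω : Type u} [Field Ω] [Algebra k Ω]

theorem CD.stage_on {g : Fin (r + 1) → Matrix (Fin n) (Fin n) Ω} (hg : C.Ch w g) :
    (C.stage w c h₁ h₂).P.On (plV c g) := by
  have := Var.on_of_k (X := (C.stage w c h₁ h₂).P)
    (C.fr fun j a b => blC n w j b < blC n w j a).E (plV c (cM X)) (fun h hh => ?_)
    (CD.fr_ch_iff (h := mkC g).2 hg)
  · exact (evs_plV_cM (k := k) c (mkC g)) ▸ this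
  · have h1 := CD.fr_ch_iff.1 hh
    have h2 := amb_isRep _ (GSt_ne (nzb_plV c fun j => (h1.1 j).1.isUnit))
    exact ⟨⟨_, (CD.mem_cdl c).2 ⟨_, h1, h2⟩⟩, (evs_plV_cM (k := k) c h).symm ▸ h2⟩

theorem CD.stage_lift [IsAlgClosed Ω] {v : Vars (C.stage w c h₁ h₂).P.n → Ω}
    (hv : (C.stage w c h₁ h₂).P.On v) :
    ∃ g : Fin (r + 1) → Matrix (Fin n) (Fin n) Ω, C.Ch w g ∧ ParOn univ (plV c g) v := by
  obtain ⟨h, h1, h2⟩ := Var.lift_of_k (X := (C.stage w c h₁ h₂).P)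
    (C.fr fun j a b => blC n w j b < blC n w j a).E (plV c (cM X)) (fun x => by
      obtain ⟨G, hG, hx⟩ := (CD.mem_cdl c).1 x.2
      exact ⟨mkC G, CD.fr_ch_iff (h := mkC G).2 hG,
        (evs_plV_cM (k := k) c (mkC G)).symm ▸ hx⟩) hv
  exact ⟨cM h, CD.fr_ch_iff.1 h1, (evs_plV_cM (k := k) c h) ▸ h2⟩

end Pool.Agent.MP_0c8446_ag

end

section

namespace Pool.Agent.MP_0c8446_ag

open MvPolynomial Set Matrix

universe u v w

variable {k : Type u} [Field k] {Ω : Type u} [Field Ω] [Algebra k Ω] {n r : ℕ} {C : CD k n}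
  {w : Fin r → ℕ × Bool} {N : Fin n → ℕ} (c : ∀ a : Fin n, Fin (N a + 1) ≃ (Fin (a + 1) → Fin n))
  (A : C.Anti) (y : A.Y r) {h h' : CS r n → Ω}

theorem CFr_mul (A : C.Anti) (R : Type u) [CommRing R] [Algebra k R] :
    A.η.1.map (algebraMap k R) * A.η⁻¹.1.map (algebraMap k R) = 1 := by
  rw [← Matrix.map_mul, Units.mul_inv, Matrix.map_one _ (map_zero _) (map_one _)]

theorem CFr_inv (A : C.Anti) (R : Type u) [CommRing R] [Algebra k R] :
    A.η⁻¹.1.map (algebraMap k R) * A.η.1.map (algebraMap k R) = 1 :=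
  mul_eq_one_comm.1 (CFr_mul A R)

theorem CFr_unit (A : C.Anti) (R : Type u) [CommRing R] [Algebra k R] :
    IsUnit (A.η.1.map (algebraMap k R)) := IsUnit.of_mul_eq_one _ (CFr_mul A R)

theorem CD.Anti.su_sec {g : Fin (r + 1) → Matrix (Fin n) (Fin n) Ω} {j : Fin (r + 1)}
    (hg : SU C.alt (g j)) : SU C.alt (A.sec y g j) := by
  obtain ⟨h1, h2⟩ := (y.2 j).map (algebraMap k Ω)
  refine ⟨((A.au.map (algebraMap k Ω)).mul_isU hg.1).mul_au h1, ?_⟩
  have e := congrArg det (CFr_mul A Ω)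
  rw [det_mul, det_one] at e
  rw [CD.Anti.sec, det_mul, det_mul, hg.2, mul_one, h2, RingHom.map_det]
  exact e

theorem CD.Anti.symm_rev (j : Fin (r + 1)) (a : Fin n) :
    (y.1.1 j).symm a.rev = ((y.1.1 j).symm a).rev :=
  (y.2 j).1.nu_symm_rev a

theorem CD.Anti.sec_act {R : Type u} [CommRing R] [Algebra k R] (γ : C.Γ)
    (g : Fin (r + 1) → Matrix (Fin n) (Fin n) R) (j : Fin (r + 1)) :
    A.sec y (fun j => γ.1.1.map (algebraMap k R) * g j) j =
      (A.θ γ).1.1.map (algebraMap k R) * A.sec y g j := by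
  rw [A.θ_val, Units.val_mul, Units.val_mul, Matrix.map_mul, Matrix.map_mul]
  simp only [CD.Anti.sec, mul_assoc]
  rw [← mul_assoc (A.η⁻¹.1.map _), CFr_inv, one_mul]

theorem CD.Anti.evs_pt {R : Type u} [CommRing R] [Algebra k R] (h : CS r n → R) :
    evs h (A.pt c y (X : CS r n → MvPolynomial (CS r n) k)) = A.pt c y h := by
  have e : evs h (plV c (A.sec y (cM (X : CS r n → MvPolynomial (CS r n) k)))) =
      plV c (A.sec y (cM h)) :=
    (plV_map c (aeval (R := k) h) _).trans (congrArg (plV c) (funext fun j => by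
      rw [CD.Anti.sec, Matrix.map_mul, Matrix.map_mul, nu_map, cM_evs, CD.Anti.sec,
        Matrix.map_map]
      congr 3
      funext a
      simp))
  funext ⟨i, s⟩
  cases i with
  | inl i => exact congrFun (evs_plV_cM c h) ⟨i, s⟩
  | inr i => exact congrFun e ⟨i, s⟩

theorem CFr_adj {g : Fin (r + 1) → Matrix (Fin n) (Fin n) Ω} {j : Fin (r + 1)}
    (hg : SU C.alt (g j)) : adj C.alt (A.sec y g j) =
      (nu Ω (y.1.1 j) (y.1.2 j))ᵀ * adj C.alt (g j) * A.η⁻¹.1.map (algebraMap k Ω) := by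
  refine (left_inv_eq_right_inv ?_ (A.su_sec y hg).1.mul_adj).symm
  simp only [CD.Anti.sec, mul_assoc]
  rw [← mul_assoc (A.η⁻¹.1.map _), CFr_inv, one_mul, ← mul_assoc (adj _ _), hg.1.adj_mul, one_mul]
  exact mul_eq_one_comm.1 (nu_mul_transpose _ _)

theorem CFr_nx (g : Fin (r + 1) → Matrix (Fin n) (Fin n) Ω) (j : Fin (r + 1)) :
    ∃ D, nxC C.t C.q (A.sec y g) j =
      A.η.1.map (algebraMap k Ω) * nxC C.t C.q g j * nu Ω (nyC C.t y.1.1 j) D := by
  have := PQ.ext k C.q Ω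
  refine Fin.lastCases ?_ (fun j => ?_) j
  · refine ⟨fun b => y.1.2 0 (sw n C.t b), ?_⟩
    rw [nxC_last, nxC_last, nyC_last, CD.Anti.sec, frC_mul, frC_mul, C.frC_map A.fr, frC_nu]
  · refine ⟨y.1.2 j.succ, ?_⟩
    rw [nxC_castSucc, nxC_castSucc, nyC_castSucc, CD.Anti.sec]

theorem CFr_dd {g : Fin (r + 1) → Matrix (Fin n) (Fin n) Ω} {j : Fin (r + 1)}
    (hg : SU C.alt (g j)) (a b : Fin n) : ddC C.alt C.t C.q (A.sec y g) j a b = 0 ↔
      ddC C.alt C.t C.q g j (y.1.1 j a) (nyC C.t y.1.1 j b) = 0 := by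
  obtain ⟨D, hD⟩ := CFr_nx A y g j
  have e : ddC C.alt C.t C.q (A.sec y g) j =
      (nu Ω (y.1.1 j) (y.1.2 j))ᵀ * ddC C.alt C.t C.q g j * nu Ω (nyC C.t y.1.1 j) D := by
    rw [ddC, ddC, hD, CFr_adj A y hg]
    simp only [mul_assoc]
    rw [← mul_assoc (A.η⁻¹.1.map _), CFr_inv, one_mul]
  rw [e, nu_conj_apply]
  split_ifs <;> simp

theorem CD.Anti.fr_iff : (C.fr (zC C.t w y.1.1)).Fr h ↔
    C.Ch w (cM h) ∧ C.Ch w (A.sec y (cM h)) := by
  rw [C.fr_iff]
  constructor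
  · rintro ⟨h1, h2⟩
    refine ⟨⟨h1, fun j a b hab => h2 j a b (Or.inl hab)⟩, fun j => A.su_sec y (h1 j),
      fun j a b hab => (CFr_dd A y (h1 j) a b).2 (h2 j _ _ (Or.inr ?_))⟩
    rwa [Equiv.symm_apply_apply, Equiv.symm_apply_apply]
  · rintro ⟨⟨h1, h2⟩, -, h3⟩
    refine ⟨h1, fun j a b hz => hz.elim (fun hab => h2 j hab) fun hab => ?_⟩
    have := (CFr_dd A y (h1 j) _ _).1 (h3 j hab)
    rwa [Equiv.apply_symm_apply, Equiv.apply_symm_apply] at this

theorem CD.Anti.parOn_pt (h1 : ∀ j, SU C.alt (cM h j)) (h2 : ∀ j, SU C.alt (cM h' j)) :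
    ParOn univ (A.pt c y h) (A.pt c y h') ↔
      ∀ j, Sg C.alt Fin.val (Fin.val ∘ (y.1.1 j).symm) (adj C.alt (cM h j) * cM h' j) := by
  rw [CD.Anti.pt, CD.Anti.pt, parOn_pvJoin,
    parOn_plV c (fun j => (h1 j).1.isUnit) (fun j => (h2 j).1.isUnit),
    parOn_plV c (fun j => (A.su_sec y (h1 j)).1.isUnit) (fun j => (A.su_sec y (h2 j)).1.isUnit),
    ← forall_and]
  refine forall_congr' fun j => ?_
  rw [CD.Anti.sec, CD.Anti.sec, mul_assoc, mul_assoc, rl_mul_left (CFr_unit A Ω),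
    rl_nu_nu (h1 j).1.isUnit, Rl, (h1 j).1.inv_eq]
  exact (and_iff_right ((h1 j).adj.mul (h2 j))).symm

theorem CD.Anti.fr_mk (hw : C.Ok w) {g g' H : Fin (r + 1) → Matrix (Fin n) (Fin n) Ω}
    (hg : C.Ch w g) (hg' : C.Ch w g') (hH : ∀ j, SU C.alt (H j))
    (h1 : ∀ j, Rl Fin.val (g j) (H j))
    (h2 : ∀ j, Rl Fin.val (A.η⁻¹.1.map (algebraMap k Ω) * g' j) ((H j).submatrix id (y.1.1 j))) :
    (C.fr (zC C.t w y.1.1)).Fr (mkC H) ∧
      ParOn univ (A.pt c y (mkC H)) (pvJoin (plV c g) (plV c g')) := by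
  have s : ∀ j, Rl Fin.val (g' j) (A.sec y H j) := fun j => by
    have u : IsUnit (A.η⁻¹.1.map (algebraMap k Ω) * g' j) :=
      (IsUnit.of_mul_eq_one _ (CFr_inv A Ω)).mul (hg'.1 j).1.isUnit
    have := (rl_mul_left (CFr_unit A Ω)).2 ((rl_mul_nu u _ (y.1.2 j)).2 (h2 j))
    rwa [← mul_assoc, CFr_mul, one_mul, ← mul_assoc] at this
  have u := fun j => (hH j).1.isUnit
  have u' := fun j => (A.su_sec y (hH j)).1.isUnit
  exact ⟨(A.fr_iff y).2 ⟨hg.congr hw hH h1, hg'.congr hw (fun j => A.su_sec y (hH j)) s⟩,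
    parOn_pvJoin.2 ⟨(parOn_plV c u fun j => (hg.1 j).1.isUnit).2 fun j =>
        (h1 j).symm (hg.1 j).1.isUnit (u j),
      (parOn_plV c u' fun j => (hg'.1 j).1.isUnit).2 fun j =>
        (s j).symm (hg'.1 j).1.isUnit (u' j)⟩⟩

theorem CFr_move (hw : C.Ok w) (hh : (C.fr (zC C.t w y.1.1)).Fr h)
    {m : Fin (r + 1) → Matrix (Fin n) (Fin n) Ω}
    (hm : ∀ j, Sg C.alt Fin.val (Fin.val ∘ (y.1.1 j).symm) (m j))
    (he : ∀ j, cM h' j = cM h j * m j) :
    (C.fr (zC C.t w y.1.1)).Fr h' ∧ ParOn univ (A.pt c y h) (A.pt c y h') := by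
  obtain ⟨c1, c2⟩ := (A.fr_iff y).1 hh
  have e : ∀ j, SU C.alt (cM h' j) := fun j => by
    rw [he]
    exact (c1.1 j).mul (hm j).1
  have p : ParOn univ (A.pt c y h) (A.pt c y h') := (A.parOn_pt c y c1.1 e).2 fun j => by
    rw [he, ← mul_assoc, (c1.1 j).1.adj_mul, one_mul]
    exact hm j
  obtain ⟨p1, p2⟩ := parOn_pvJoin.1 p
  have e' : ∀ j, SU C.alt (A.sec y (cM h') j) := fun j => A.su_sec y (e j)
  have d1 : C.Ch w (cM h') := c1.congr hw e
    ((parOn_plV c (fun j => (c1.1 j).1.isUnit) fun j => (e j).1.isUnit).1 p1)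
  have d2 : C.Ch w (A.sec y (cM h')) := c2.congr hw e'
    ((parOn_plV c (fun j => (c2.1 j).1.isUnit) fun j => (e' j).1.isUnit).1 p2)
  exact ⟨(A.fr_iff y).2 ⟨d1, d2⟩, p⟩

theorem CD.Anti.fr_move (hw : C.Ok w) (hh : (C.fr (zC C.t w y.1.1)).Fr h)
    {m : Fin (r + 1) → Matrix (Fin n) (Fin n) Ω}
    (hm : ∀ j, Sg C.alt Fin.val (Fin.val ∘ (y.1.1 j).symm) (m j)) :
    (C.fr (zC C.t w y.1.1)).Fr (mkC fun j => cM h j * m j) ∧
      ParOn univ (A.pt c y h) (A.pt c y (mkC fun j => cM h j * m j)) :=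
  CFr_move c A y hw hh hm fun j => congrFun (cM_mkC fun j => cM h j * m j) j

end Pool.Agent.MP_0c8446_ag

end
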