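import Pool.Agent.Mg.F0c8446.Gbde46f
import Pool.Agent.Mg.F0c8446.G70cc9e
import Pool.Agent.Mg.F0c8446.Gc43d19

namespace Pool.Agent.MP_0c8446_ag

open Set Matrix

universe u v w x

variable {k : Type u} [Field k] [IsAlgClosed k] {K : Type v} [Field K] [CharZero K]
  {W : Weil.{u, v, w} k K} {G : Type x} [Group G] [MulSemiringAction G k]

theorem gi_pow (ρ : W.Gal G) {A : Var k} (hA : A.Over G) {V : Submodule K (W.H A)} {z : W.H A}
    (hD : W.GenD V (W.pull (Mor.id A)).toLinearMap z) (hV : ∀ σ, ∀ a ∈ V, ρ.act A σ a ∈ V)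
    (hN : ρ.NoIso V) {Y : Var k} (hY : Pow A Y) {a : W.H Y}
    (ha : a ∈ W.Alg Y) (h : ∀ Z, IsSub Z → W.tr Y (W.cl Y Z * a) = 0) : a = 0 := by
  have := W.finite A
  let b := (Module.finBasis K V).reindex (Equiv.uniqueSigma fun _ : Unit => Fin _).symm
  set e : (Σ _ : Unit, Fin (Module.finrank K V)) → W.H A := fun x => b x
  obtain ⟨i, hi⟩ := hD.gr
  have hV' : ∀ x, e x ∈ V := fun x => (b x).2
  have he : ∀ x, e x ∈ W.gr A i := fun x => hi (hV' x)
  have hli : LinearIndependent K e := b.linearIndependent.map' V.subtype V.ker_subtype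
  have hsp : Submodule.span K (range e) = V := by
    have := congrArg (Submodule.map V.subtype) b.span_eq
    rwa [Submodule.map_span, ← range_comp, Submodule.map_subtype_top] at this
  have hα : ∀ x, (W.pull (Mor.id A)).toLinearMap (e x) = (1 : K) • e x := fun x =>
    (W.pull_id _ rfl _).trans (one_smul _ _).symm
  obtain ⟨E', c, hc, hE', hEE⟩ := W.exists_tmat_BB he hli hsp hD.inv
  refine W.eq_zero_of_nul hsp (gi_core ρ hA hV hN (δ := fun _ => i) he hli hsp
    (α := fun _ => 1) (Function.injective_of_subsingleton _) (W.tfam_TT he hV' hD.corr hα)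
    (W.tfam_BB he hV' hD.corr hα) (W.tcon_TT he) (W.tmat_TT hD.alg) hE' hc hEE
    fun _ _ _ => rfl) (W.sp_pow hD.sp hY) ha fun c hc => ?_
  rw [← W.Alg_comm hc]
  by_contra h0
  obtain ⟨Z, hZ, h2⟩ := W.exists_cl_of_Alg hc h0
  exact h2 (h Z hZ)

theorem gi_D (ρ : W.Gal G) {A : Var k} (hA : A.Over G) {V : Submodule K (W.H A)} {z : W.H A}
    (hD : W.GenD V (W.pull (Mor.id A)).toLinearMap z) (hV : ∀ σ, ∀ a ∈ V, ρ.act A σ a ∈ V)
    (hN : ρ.NoIso V) {X : Var k} (hX : W.MotivatedBy (Pow A) X) {j : ℕ}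
    {α : Set X.pts →₀ ℚ} (hα : IsCycle j α)
    (hnum : ∀ β, IsCycle (X.d - j) β → W.tr X (W.cycleClass α * W.cycleClass β) = 0) :
    W.cycleClass α = 0 := by
  have h := W.gi_num hα hnum
  have ha := (W.gi_mem hα).1
  generalize W.cycleClass α = a at h ha
  by_contra h0
  obtain ⟨Y, T, f, g, Z, b, hY, hZ, hne⟩ := hX a h0
  have hZ' := W.cl_mem_Alg hZ
  obtain ⟨a', ha', h1⟩ := W.exists_push g (W.mul_mem_Alg hZ' (W.pull_mem_Alg f ha))
  have h2 : a' = 0 := gi_pow ρ hA hD hV hN hY ha' fun C hC => by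
    have hC' := W.pull_mem_Alg g (W.cl_mem_Alg hC)
    obtain ⟨z, hz, h3⟩ := W.exists_push f (W.mul_mem_Alg hZ' hC')
    rw [W.cl_comm hC, ← h1, mul_assoc, ← W.Alg_comm hC', ← mul_assoc, h3]
    by_contra h4
    obtain ⟨D, hD, h5⟩ := W.exists_cl_of_Alg hz h4
    exact h5 (h D hD)
  rw [← mul_assoc, h1, h2, zero_mul, map_zero] at hne
  exact hne rfl

end Pool.Agent.MP_0c8446_ag
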